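import Mathlib

/-!
# Partial integrals of bounded measurable functions of several variables

`Mg lam A f x` integrates `f` over the variables in `A` with respect to `lam` (the other variables
are those of `x`). `BM f`: bounded and measurable.
-/

set_option autoImplicit false

open MeasureTheory Function Finset

namespace Pool.Agent.Lib.MP_5db8e2_mp

/-- Bounded measurable functions. -/
def BM {Y : Type*} [MeasurableSpace Y] (f : Y → ℝ) : Prop := Measurable f ∧ ∃ C : ℝ, ∀ y, |f y| ≤ C

section BM

variable {Y : Type*} [MeasurableSpace Y] {f g : Y → ℝ}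

theorem BM.meas (hf : BM f) : Measurable f := hf.1

theorem BM.const (c : ℝ) : BM (fun _ : Y => c) := ⟨measurable_const, |c|, fun _ => le_rfl⟩

theorem BM.add (hf : BM f) (hg : BM g) : BM (fun y => f y + g y) := by
  obtain ⟨hf, C, hC⟩ := hf
  obtain ⟨hg, D, hD⟩ := hg
  exact ⟨hf.add hg, C + D, fun y => (abs_add_le _ _).trans (add_le_add (hC y) (hD y))⟩

theorem BM.neg (hf : BM f) : BM (fun y => - f y) := by
  obtain ⟨hf, C, hC⟩ := hf
  exact ⟨hf.neg, C, fun y => by simpa using hC y⟩

theorem BM.sub (hf : BM f) (hg : BM g) : BM (fun y => f y - g y) := by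
  simpa [sub_eq_add_neg] using hf.add hg.neg

theorem BM.mul (hf : BM f) (hg : BM g) : BM (fun y => f y * g y) := by
  obtain ⟨hf, C, hC⟩ := hf
  obtain ⟨hg, D, hD⟩ := hg
  refine ⟨hf.mul hg, C * D, fun y => ?_⟩
  rw [abs_mul]
  exact mul_le_mul (hC y) (hD y) (abs_nonneg _) ((abs_nonneg _).trans (hC y))

theorem BM.const_mul (c : ℝ) (hf : BM f) : BM (fun y => c * f y) := (BM.const c).mul hf

theorem BM.pow (hf : BM f) (n : ℕ) : BM (fun y => f y ^ n) := by
  obtain ⟨hf, C, hC⟩ := hf
  refine ⟨hf.pow_const n, C ^ n, fun y => ?_⟩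
  rw [abs_pow]
  exact pow_le_pow_left₀ (abs_nonneg _) (hC y) n

theorem BM.abs (hf : BM f) : BM (fun y => |f y|) := by
  obtain ⟨hf, C, hC⟩ := hf
  exact ⟨hf.abs, C, fun y => by simpa using hC y⟩

theorem BM.sum {ι : Type*} (s : Finset ι) {F : ι → Y → ℝ} (h : ∀ i ∈ s, BM (F i)) :
    BM (fun y => ∑ i ∈ s, F i y) := by
  classical
  induction s using Finset.induction_on with
  | empty => simpa using BM.const (Y := Y) 0
  | insert a s ha ih =>
    simp only [Finset.sum_insert ha]
    exact (h a (Finset.mem_insert_self a s)).add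
      (ih fun i hi => h i (Finset.mem_insert_of_mem hi))

theorem BM.prod {ι : Type*} (s : Finset ι) {F : ι → Y → ℝ} (h : ∀ i ∈ s, BM (F i)) :
    BM (fun y => ∏ i ∈ s, F i y) := by
  classical
  induction s using Finset.induction_on with
  | empty => simpa using BM.const (Y := Y) 1
  | insert a s ha ih =>
    simp only [Finset.prod_insert ha]
    exact (h a (Finset.mem_insert_self a s)).mul
      (ih fun i hi => h i (Finset.mem_insert_of_mem hi))

theorem BM.ind {Z : Set Y} (hZ : MeasurableSet Z) : BM (Z.indicator (fun _ => (1 : ℝ))) := by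
  refine ⟨measurable_const.indicator hZ, 1, fun y => ?_⟩
  by_cases h : y ∈ Z <;> simp [h]

theorem BM.comp {Y' : Type*} [MeasurableSpace Y'] (hf : BM f) {φ : Y' → Y} (hφ : Measurable φ) :
    BM (fun y => f (φ y)) := by
  obtain ⟨hf, C, hC⟩ := hf
  exact ⟨hf.comp hφ, C, fun y => hC _⟩

theorem BM.integrable (hf : BM f) (μ : Measure Y) [IsFiniteMeasure μ] : Integrable f μ := by
  obtain ⟨hf, C, hC⟩ := hf
  exact Integrable.of_bound hf.aestronglyMeasurable C (Filter.Eventually.of_forall fun y => by
    simpa using hC y)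

end BM

variable {X : Type*} [MeasurableSpace X] {N : ℕ}

/-- Integral over the variables in `A`. -/
noncomputable def Mg (lam : Measure X) (A : Finset (Fin N)) (f : (Fin N → X) → ℝ)
    (x : Fin N → X) : ℝ :=
  ∫ y : (∀ _ : A, X), f (updateFinset x A y) ∂Measure.pi (fun _ => lam)

variable {lam lam' : Measure X} {A B : Finset (Fin N)} {f h : (Fin N → X) → ℝ} {x : Fin N → X}

theorem Mg_empty (f : (Fin N → X) → ℝ) : Mg lam ∅ f = f := by
  ext1 x
  simp_rw [Mg, Measure.pi_of_empty fun i : (∅ : Finset (Fin N)) => lam]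
  rw [integral_dirac']
  · congr 1
  · exact StronglyMeasurable.of_subsingleton_dom

theorem Mg_congr {x y : Fin N → X} (f : (Fin N → X) → ℝ) (h : ∀ i ∉ A, x i = y i) :
    Mg lam A f x = Mg lam A f y := by
  dsimp [Mg, updateFinset_def]; rcongr; exact h _ ‹_›

theorem Mg_dep (f : (Fin N → X) → ℝ) : DependsOn (Mg lam A f) ((A : Set (Fin N))ᶜ) := by
  intro x y hxy
  exact Mg_congr f fun i hi => hxy i (by simpa using hi)

/-- If `f` depends only on the variables in `S`, then `Mg lam A f` depends only on `S \ A`. -/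
theorem Mg_dep' {S : Set (Fin N)} (hf : DependsOn f S) :
    DependsOn (Mg lam A f) (S \ (A : Set (Fin N))) := by
  intro x y hxy
  dsimp [Mg]
  congr 1
  ext1 z
  apply hf
  intro i hi
  by_cases hA : i ∈ A
  · simp [updateFinset_def, hA]
  · simp only [updateFinset_def, hA, dif_neg, not_false_eq_true]
    exact hxy i ⟨hi, by simpa using hA⟩

theorem Mg_bm [IsFiniteMeasure lam] (hf : BM f) : BM (Mg lam A f) := by
  obtain ⟨hm, C, hC⟩ := hf
  refine ⟨?_, C * (Measure.pi (fun _ : A => lam)).real Set.univ, fun x => ?_⟩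
  · have : StronglyMeasurable (fun p : (Fin N → X) × (A → X) => f (updateFinset p.1 A p.2)) :=
      (hm.comp measurable_updateFinset').stronglyMeasurable
    exact this.integral_prod_right.measurable
  · have := norm_integral_le_of_norm_le_const (μ := Measure.pi (fun _ : A => lam))
      (f := fun y => f (updateFinset x A y)) (C := C)
      (Filter.Eventually.of_forall fun y => by simpa using hC _)
    simpa [Mg] using this

theorem Mg_singleton [SigmaFinite lam] (f : (Fin N → X) → ℝ) (i : Fin N) :
    Mg lam {i} f = fun x => ∫ t, f (Function.update x i t) ∂lam := by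
  let α : Type _ := ({i} : Finset (Fin N))
  let e := (MeasurableEquiv.piUnique fun _ : α ↦ X).symm
  ext1 x
  calc Mg lam {i} f x
      = ∫ (y : X), f (updateFinset x {i} (e y)) ∂lam := by
        rw [Mg]
        exact ((measurePreserving_piUnique (fun _ : ({i} : Finset (Fin N)) ↦ lam)).symm _
            |>.integral_comp' (g := fun y => f (updateFinset x {i} y))).symm
    _ = ∫ t, f (Function.update x i t) ∂lam := by
        simp [update_eq_updateFinset]; rfl

theorem Mg_union [IsFiniteMeasure lam] (hf : BM f) (hst : Disjoint A B) :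
    Mg lam (A ∪ B) f = Mg lam A (Mg lam B f) := by
  ext1 x
  let e := MeasurableEquiv.piFinsetUnion (fun _ : Fin N => X) hst
  calc Mg lam (A ∪ B) f x
      = ∫ (y : (A → X) × (B → X)), f (updateFinset x (A ∪ B) (e y))
          ∂(Measure.pi fun _ : A ↦ lam).prod (.pi fun _ : B ↦ lam) := by
        rw [Mg]
        exact (measurePreserving_piFinsetUnion hst (fun _ => lam) |>.integral_comp'
          (g := fun y => f (updateFinset x (A ∪ B) y))).symm
    _ = ∫ (y : A → X), ∫ (z : B → X), f (updateFinset x (A ∪ B) (e (y, z)))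
          ∂.pi fun _ : B ↦ lam ∂.pi fun _ : A ↦ lam := by
        apply integral_prod
        apply BM.integrable
        exact hf.comp (measurable_updateFinset.comp e.measurable)
    _ = Mg lam A (Mg lam B f) x := by
        simp_rw [Mg, updateFinset_updateFinset hst]
        rfl

theorem integral_eq_Mg [SigmaFinite lam] (f : (Fin N → X) → ℝ) (x : Fin N → X) :
    ∫ y, f y ∂Measure.pi (fun _ : Fin N => lam) = Mg lam univ f x := by
  let e : { j // j ∈ (Finset.univ : Finset (Fin N)) } ≃ Fin N := Equiv.subtypeUnivEquiv mem_univ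
  rw [Mg]
  have := (measurePreserving_piCongrLeft (fun _ : Fin N => lam) e).integral_comp'
    (g := fun y => f y)
  rw [← this]
  simp_rw [updateFinset_def]
  simp
  rfl

omit [MeasurableSpace X] in
theorem updateFinset_comm (hst : Disjoint A B) (x : Fin N → X) (y : A → X) (z : B → X) :
    updateFinset (updateFinset x A y) B z = updateFinset (updateFinset x B z) A y := by
  ext1 i
  by_cases hA : i ∈ A
  · have hB : i ∉ B := Finset.disjoint_left.1 hst hA
    simp [updateFinset_def, hA, hB]
  · by_cases hB : i ∈ B <;> simp [updateFinset_def, hA, hB]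

theorem Mg_comm [IsFiniteMeasure lam] [IsFiniteMeasure lam'] (hf : BM f) (hst : Disjoint A B) :
    Mg lam A (Mg lam' B f) = Mg lam' B (Mg lam A f) := by
  ext1 x
  simp only [Mg]
  rw [integral_integral_swap]
  · congr 1
    ext1 z
    congr 1
    ext1 y
    rw [updateFinset_comm hst]
  · apply BM.integrable
    have : Measurable (fun p : (A → X) × (B → X) => updateFinset (updateFinset x A p.1) B p.2) := by
      have h1 : Measurable (fun p : (A → X) × (B → X) =>
          ((updateFinset x A p.1, p.2) : (Fin N → X) × (B → X))) :=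
        (measurable_updateFinset.comp measurable_fst).prodMk measurable_snd
      exact measurable_updateFinset'.comp h1
    exact hf.comp this

theorem Mg_mono [IsFiniteMeasure lam] (hf : BM f) (hh : BM h) (hle : ∀ x, f x ≤ h x) (x) :
    Mg lam A f x ≤ Mg lam A h x :=
  integral_mono ((hf.comp measurable_updateFinset).integrable _)
    ((hh.comp measurable_updateFinset).integrable _) fun _ => hle _

theorem Mg_nonneg (hf : ∀ x, 0 ≤ f x) (x) : 0 ≤ Mg lam A f x :=
  integral_nonneg fun _ => hf _

theorem Mg_add [IsFiniteMeasure lam] (hf : BM f) (hh : BM h) :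
    Mg lam A (fun x => f x + h x) = fun x => Mg lam A f x + Mg lam A h x := by
  ext1 x
  exact integral_add ((hf.comp measurable_updateFinset).integrable _)
    ((hh.comp measurable_updateFinset).integrable _)

theorem Mg_sub [IsFiniteMeasure lam] (hf : BM f) (hh : BM h) :
    Mg lam A (fun x => f x - h x) = fun x => Mg lam A f x - Mg lam A h x := by
  ext1 x
  exact integral_sub ((hf.comp measurable_updateFinset).integrable _)
    ((hh.comp measurable_updateFinset).integrable _)

theorem Mg_const_mul (c : ℝ) (f : (Fin N → X) → ℝ) :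
    Mg lam A (fun x => c * f x) = fun x => c * Mg lam A f x := by
  ext1 x
  exact integral_const_mul _ _

theorem Mg_sum [IsFiniteMeasure lam] {ι : Type*} (s : Finset ι) {F : ι → (Fin N → X) → ℝ}
    (hF : ∀ i ∈ s, BM (F i)) :
    Mg lam A (fun x => ∑ i ∈ s, F i x) = fun x => ∑ i ∈ s, Mg lam A (F i) x := by
  ext1 x
  exact integral_finsetSum _ fun i hi => ((hF i hi).comp measurable_updateFinset).integrable _

/-- Factors which do not depend on the variables in `A` can be pulled out. -/
theorem Mg_mul_left (f : (Fin N → X) → ℝ) (hh : DependsOn h ((A : Set (Fin N))ᶜ)) :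
    Mg lam A (fun x => h x * f x) = fun x => h x * Mg lam A f x := by
  ext1 x
  rw [Mg, Mg, ← integral_const_mul]
  congr 1
  ext1 y
  congr 1
  apply hh
  intro i hi
  have : i ∉ A := by simpa using hi
  simp [updateFinset_def, this]

theorem Mg_mul_right (f : (Fin N → X) → ℝ) (hh : DependsOn h ((A : Set (Fin N))ᶜ)) :
    Mg lam A (fun x => f x * h x) = fun x => Mg lam A f x * h x := by
  have := Mg_mul_left (lam := lam) f hh
  simpa [mul_comm] using this

theorem Mg_of_dep [IsProbabilityMeasure lam] (hh : DependsOn h ((A : Set (Fin N))ᶜ)) :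
    Mg lam A h = h := by
  ext1 x
  have : ∀ y : (∀ _ : A, X), h (updateFinset x A y) = h x := by
    intro y
    apply hh
    intro i hi
    have : i ∉ A := by simpa using hi
    simp [updateFinset_def, this]
  simp [Mg, this]

theorem Mg_one [IsProbabilityMeasure lam] (c : ℝ) :
    Mg lam A (fun _ : Fin N → X => c) = fun _ => c := by
  ext1 x
  simp [Mg]

/-- Jensen. -/
theorem Mg_sq_le [IsProbabilityMeasure lam] (hf : BM f) (x) :
    (Mg lam A f x) ^ 2 ≤ Mg lam A (fun x => f x ^ 2) x := by
  have h1 : 0 ≤ Mg lam A (fun y => (f y - Mg lam A f x) ^ 2) x := Mg_nonneg (fun _ => sq_nonneg _) x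
  have h2 : Mg lam A (fun y => (f y - Mg lam A f x) ^ 2) x
      = Mg lam A (fun y => f y ^ 2) x - (Mg lam A f x) ^ 2 := by
    have e : (fun y => (f y - Mg lam A f x) ^ 2)
        = fun y => f y ^ 2 - (2 * Mg lam A f x * f y - (Mg lam A f x) ^ 2) := by
      ext1 y; ring
    rw [e, Mg_sub (hf.pow 2) ((hf.const_mul _).sub (BM.const _)),
      Mg_sub (hf.const_mul _) (BM.const _), Mg_const_mul, Mg_one]
    ring
  linarith

/-- Cauchy-Schwarz in the form of a weighted sum. -/
theorem abs_Mg_le (f : (Fin N → X) → ℝ) (x) :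
    |Mg lam A f x| ≤ Mg lam A (fun x => |f x|) x := by
  simpa [Mg, Real.norm_eq_abs] using norm_integral_le_integral_norm
    (μ := Measure.pi (fun _ : A => lam)) (fun y => f (updateFinset x A y))

theorem Mg_insert [IsFiniteMeasure lam] (hf : BM f) {i : Fin N} (hi : i ∉ A) :
    Mg lam (insert i A) f = Mg lam {i} (Mg lam A f) := by
  rw [Finset.insert_eq, Mg_union hf (Finset.disjoint_singleton_left.mpr hi)]

theorem Mg_insert' [IsFiniteMeasure lam] (hf : BM f) {i : Fin N} (hi : i ∉ A) :
    Mg lam (insert i A) f = Mg lam A (Mg lam {i} f) := by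
  rw [Mg_insert hf hi, Mg_comm hf (Finset.disjoint_singleton_left.mpr hi)]

/-- The measure with density `g`. -/
noncomputable def wm (ν : Measure X) (g : X → ℝ) : Measure X :=
  ν.withDensity (fun c => ENNReal.ofReal (g c))

theorem integral_wm {ν : Measure X} {g : X → ℝ} (hg : Measurable g) (h0 : ∀ c, 0 ≤ g c)
    (F : X → ℝ) : ∫ t, F t ∂(wm ν g) = ∫ t, g t * F t ∂ν := by
  rw [wm, integral_withDensity_eq_integral_toReal_smul (hg.ennreal_ofReal)
    (Filter.Eventually.of_forall fun c => ENNReal.ofReal_lt_top)]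
  congr 1
  ext1 t
  simp [ENNReal.toReal_ofReal (h0 t)]

theorem wm_prob {ν : Measure X} [IsFiniteMeasure ν] {g : X → ℝ} (hg : BM g) (h0 : ∀ c, 0 ≤ g c)
    (h1 : ∫ c, g c ∂ν = 1) : IsProbabilityMeasure (wm ν g) := by
  constructor
  rw [wm, withDensity_apply _ MeasurableSet.univ, Measure.restrict_univ,
    ← ofReal_integral_eq_lintegral_ofReal (hg.integrable ν) (Filter.Eventually.of_forall h0), h1]
  simp

theorem Mg_wm {ν : Measure X} [IsFiniteMeasure ν] {g : X → ℝ} (hg : BM g) (h0 : ∀ c, 0 ≤ g c)
    (h1 : ∫ c, g c ∂ν = 1) (hf : BM f) :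
    Mg (wm ν g) A f = Mg ν A (fun x => (∏ j ∈ A, g (x j)) * f x) := by
  have := wm_prob hg h0 h1
  have hgi : ∀ i : Fin N, BM (fun x : Fin N → X => g (x i)) := fun i =>
    hg.comp (measurable_pi_apply i)
  induction A using Finset.induction_on with
  | empty => simp [Mg_empty]
  | insert i A hi ih =>
    have hF : BM (fun x : Fin N → X => (∏ j ∈ A, g (x j)) * f x) :=
      (BM.prod A fun j _ => hgi j).mul hf
    have hF' : BM (fun x : Fin N → X => g (x i) * ((∏ j ∈ A, g (x j)) * f x)) := (hgi i).mul hF
    rw [Mg_insert hf hi, ih]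
    have e : (fun x : Fin N → X => (∏ j ∈ insert i A, g (x j)) * f x)
        = fun x => g (x i) * ((∏ j ∈ A, g (x j)) * f x) := by
      ext1 x; rw [Finset.prod_insert hi, mul_assoc]
    rw [e, Mg_insert hF' hi, Mg_mul_left (h := fun x => g (x i)) _ ?_, Mg_singleton, Mg_singleton]
    · ext1 x
      rw [integral_wm hg.1 h0]
      simp
    · intro x y hxy
      have := hxy i (by simpa using hi)
      simp [this]

/-- Integral over the variables outside `A` (the variables in `A` are set to `x0`). -/
noncomputable def out (ν : Measure X) (x0 : Fin N → X) (A : Finset (Fin N))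
    (f : (Fin N → X) → ℝ) : ℝ := Mg ν Aᶜ f x0

theorem integral_eq_out {ν : Measure X} [IsFiniteMeasure ν] (hf : BM f) (x0 : Fin N → X)
    (A : Finset (Fin N)) :
    ∫ y, f y ∂Measure.pi (fun _ : Fin N => ν) = out ν x0 A (Mg ν A f) := by
  rw [integral_eq_Mg f x0, out, ← Mg_union hf disjoint_compl_left,
    Finset.union_comm, Finset.union_compl]

theorem out_mono {ν : Measure X} [IsFiniteMeasure ν] (hf : BM f) (hh : BM h)
    (x0 : Fin N → X) (hle : ∀ x, f x ≤ h x) : out ν x0 A f ≤ out ν x0 A h :=
  Mg_mono hf hh hle x0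

end Pool.Agent.Lib.MP_5db8e2_mp
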