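import Pool.Agent.Lib.MP_5db8e2_mp.LB.Spec3

/-!
# The operators `1`, `P_c`, `q_c` and their adjoints
-/

set_option autoImplicit false

open MeasureTheory Function Finset
open scoped Classical

namespace Pool.Agent.Lib.MP_5db8e2_mp

namespace AdjAux

variable {N : ℕ} {ν : Measure R3} [IsFiniteMeasure ν] {m : ℝ} {g : R3 → ℝ} {Q B : Set R3}
  {G f w : (Fin N → R3) → ℝ} {c : Fin N}

theorem bm_gc (h : Wd ν m g Q B) (c : Fin N) : BM (fun x : Fin N → R3 => g (x c)) :=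
  h.bm.comp (measurable_pi_apply c)

theorem av_one (h : Wd ν m g Q B) (hf : BM f) :
    av ν g {c} f = Mg ν {c} (fun x => g (x c) * f x) := by
  rw [av_eq h hf]
  simp only [Finset.prod_singleton]

theorem int_le_of_Mg {F H : (Fin N → R3) → ℝ} (hF : BM F) (hH : BM H) (c : Fin N)
    (h : ∀ x, Mg ν {c} F x ≤ Mg ν {c} H x) : ∫ x, F x ∂pin ν N ≤ ∫ x, H x ∂pin ν N := by
  rw [integral_eq_out hF 0 {c}, integral_eq_out hH 0 {c}]
  exact out_mono (Mg_bm hF) (Mg_bm hH) 0 h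

theorem int_eq_of_Mg {F H : (Fin N → R3) → ℝ} (hF : BM F) (hH : BM H) (c : Fin N)
    (h : Mg ν {c} F = Mg ν {c} H) : ∫ x, F x ∂pin ν N = ∫ x, H x ∂pin ν N := by
  rw [integral_eq_out hF 0 {c}, integral_eq_out hH 0 {c}, h]

theorem dep_Mg (F : (Fin N → R3) → ℝ) : DependsOn (Mg ν {c} F) ((({c} : Finset (Fin N)) : Set (Fin N))ᶜ) :=
  Mg_dep F

/-- the adjoint of `P_c` -/
theorem adj_av (h : Wd ν m g Q B) (hG : BM G) (hf : BM f) :
    ∫ x, g (x c) * Mg ν {c} G x * f x ∂pin ν N = ∫ x, G x * av ν g {c} f x ∂pin ν N := by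
  have hgc := bm_gc h c
  apply int_eq_of_Mg ((hgc.mul (Mg_bm hG)).mul hf) (hG.mul (av_bm h hf)) c
  have e1 : (fun x => g (x c) * Mg ν {c} G x * f x) =
      fun x => Mg ν {c} G x * (g (x c) * f x) := by
    ext1 x
    ring
  rw [e1, Mg_mul_left _ (dep_Mg G), Mg_mul_right _ (av_dep f), av_one h hf]

theorem Mg_g_sq (h : Wd ν m g Q B) (x : Fin N → R3) :
    Mg ν {c} (fun x => g (x c) ^ 2) x ≤ 1 / m := by
  have hm : 0 < m := by
    have := h.hm
    linarith
  have hgc := bm_gc h c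
  have h1 : Mg ν {c} (fun x : Fin N → R3 => g (x c) ^ 2) x ≤
      Mg ν {c} (fun x => 1 / m * g (x c)) x := by
    apply Mg_mono (hgc.pow 2) (hgc.const_mul _)
    intro x
    rw [sq]
    exact mul_le_mul_of_nonneg_right (h.g_le _) (h.g_nonneg _)
  refine h1.trans (le_of_eq ?_)
  rw [Mg_const_mul, Mg_singleton]
  simp [h.g_int]

theorem Mg_ind (h : Wd ν m g Q B) (x : Fin N → R3) :
    Mg ν {c} (fun x => ind Q (x c)) x ≤ 8 * m := by
  rw [Mg_singleton]
  simp only [Function.update_self]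
  have : ∫ t, ind Q t ∂ν = ν.real Q := by
    unfold ind
    rw [integral_indicator h.Q_meas]
    simp [Measure.real]
  rw [this]
  exact h.Q_vol

/-- Cauchy-Schwarz on `Q` -/
theorem Mg_sq_supp (h : Wd ν m g Q B) (hG : BM G) (hs : ∀ x, G x ≠ 0 → x c ∈ Q)
    (x : Fin N → R3) : (Mg ν {c} G x) ^ 2 ≤ 8 * m * Mg ν {c} (fun x => G x ^ 2) x := by
  have hm : 0 < m := by
    have := h.hm
    linarith
  obtain ⟨s, hsd⟩ : ∃ s, s = Mg ν {c} G x / (8 * m) := ⟨_, rfl⟩
  have hic : BM (fun x : Fin N → R3 => ind Q (x c)) := BM_ind_at h.Q_meas c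
  have h0 : 0 ≤ Mg ν {c} (fun y => (G y - s * ind Q (y c)) ^ 2) x :=
    Mg_nonneg (fun _ => sq_nonneg _) x
  have e : (fun y : Fin N → R3 => (G y - s * ind Q (y c)) ^ 2) =
      fun y => (G y ^ 2 - 2 * s * G y) + s ^ 2 * ind Q (y c) := by
    ext1 y
    by_cases hy : y c ∈ Q
    · rw [ind_of_mem hy]
      ring
    · have : G y = 0 := by
        by_contra hne
        exact hy (hs y hne)
      rw [ind_of_notMem hy, this]
      ring
  rw [e, Mg_add ((hG.pow 2).sub (hG.const_mul _)) (hic.const_mul _), Mg_sub (hG.pow 2)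
    (hG.const_mul _), Mg_const_mul, Mg_const_mul] at h0
  simp only [] at h0
  have h1 := Mg_ind (c := c) h x
  have h2 : s ^ 2 * Mg ν {c} (fun x => ind Q (x c)) x ≤ s ^ 2 * (8 * m) :=
    mul_le_mul_of_nonneg_left h1 (sq_nonneg _)
  have h3 : Mg ν {c} G x = s * (8 * m) := by
    rw [hsd]
    field_simp
  rw [h3] at h0 ⊢
  have h4 : s ^ 2 * (8 * m) ≤ Mg ν {c} (fun x => G x ^ 2) x := by nlinarith
  calc (s * (8 * m)) ^ 2 = 8 * m * (s ^ 2 * (8 * m)) := by ring
    _ ≤ _ := mul_le_mul_of_nonneg_left h4 (by positivity)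

theorem norm_adj (h : Wd ν m g Q B) (hG : BM G) (hs : ∀ x, G x ≠ 0 → x c ∈ Q) :
    ∫ x, (g (x c) * Mg ν {c} G x) ^ 2 ∂pin ν N ≤ 8 * ∫ x, G x ^ 2 ∂pin ν N := by
  have hm : 0 < m := by
    have := h.hm
    linarith
  have hgc := bm_gc h c
  rw [← integral_const_mul]
  apply int_le_of_Mg ((hgc.mul (Mg_bm hG)).pow 2) ((hG.pow 2).const_mul 8) c
  intro x
  have e1 : (fun x => (g (x c) * Mg ν {c} G x) ^ 2) =
      fun x => (Mg ν {c} G x) ^ 2 * g (x c) ^ 2 := by
    ext1 x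
    ring
  have hd : DependsOn (fun x => (Mg ν {c} G x) ^ 2)
      ((({c} : Finset (Fin N)) : Set (Fin N))ᶜ) := by
    intro y z hyz
    have := dep_Mg (ν := ν) (c := c) G hyz
    simp only [this]
  rw [e1, Mg_mul_left _ hd, Mg_const_mul]
  simp only []
  have h1 := Mg_g_sq (c := c) h x
  have h2 := Mg_sq_supp h hG hs x
  calc (Mg ν {c} G x) ^ 2 * Mg ν {c} (fun x => g (x c) ^ 2) x ≤
        (Mg ν {c} G x) ^ 2 * (1 / m) := mul_le_mul_of_nonneg_left h1 (sq_nonneg _)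
    _ ≤ 8 * m * Mg ν {c} (fun x => G x ^ 2) x * (1 / m) :=
        mul_le_mul_of_nonneg_right h2 (by positivity)
    _ = 8 * Mg ν {c} (fun x => G x ^ 2) x := by
        field_simp

theorem norm_av (h : Wd ν m g Q B) (hf : BM f) (hw : BM w) (hw0 : ∀ x, 0 ≤ w x)
    (hwd : DependsOn w ({c}ᶜ : Set (Fin N))) :
    ∫ x, w x * (ind Q (x c) * av ν g {c} f x ^ 2) ∂pin ν N
      ≤ 8 * ∫ x, w x * (ind Q (x c) * f x ^ 2) ∂pin ν N := by
  have hm : 0 < m := by
    have := h.hm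
    linarith
  have hic : BM (fun x : Fin N → R3 => ind Q (x c)) := BM_ind_at h.Q_meas c
  have hav : BM (av ν g {c} f) := av_bm h hf
  have hwd' : DependsOn w ((({c} : Finset (Fin N)) : Set (Fin N))ᶜ) := by
    rw [Finset.coe_singleton]
    exact hwd
  rw [← integral_const_mul]
  apply int_le_of_Mg (hw.mul (hic.mul (hav.pow 2)))
    ((hw.mul (hic.mul (hf.pow 2))).const_mul 8) c
  intro x
  rw [Mg_const_mul, Mg_mul_left _ hwd', Mg_mul_left _ hwd']
  have hd : DependsOn (fun x => av ν g {c} f x ^ 2)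
      ((({c} : Finset (Fin N)) : Set (Fin N))ᶜ) := by
    intro y z hyz
    have := av_dep (ν := ν) (g := g) (A := {c}) f hyz
    simp only [this]
  rw [Mg_mul_right _ hd]
  simp only []
  have h1 := Mg_ind (c := c) h x
  have h2 := (av_sq_le (A := {c}) h hf x).trans (av_le (A := {c}) h (hf.pow 2)
    (fun _ => sq_nonneg _) x)
  simp only [Finset.prod_singleton, Finset.card_singleton, pow_one] at h2
  have h3 : 0 ≤ Mg ν {c} (fun x => ind Q (x c) * f x ^ 2) x :=
    Mg_nonneg (fun y => mul_nonneg (ind_nonneg _ _) (sq_nonneg _)) x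
  have h4 : Mg ν {c} (fun x => ind Q (x c)) x * av ν g {c} f x ^ 2 ≤
      8 * Mg ν {c} (fun x => ind Q (x c) * f x ^ 2) x := by
    calc Mg ν {c} (fun x => ind Q (x c)) x * av ν g {c} f x ^ 2 ≤
          (8 * m) * (1 / m * Mg ν {c} (fun x => ind Q (x c) * f x ^ 2) x) :=
          mul_le_mul h1 h2 (sq_nonneg _) (by positivity)
      _ = _ := by
          field_simp
  calc w x * (Mg ν {c} (fun x => ind Q (x c)) x * av ν g {c} f x ^ 2) ≤
        w x * (8 * Mg ν {c} (fun x => ind Q (x c) * f x ^ 2) x) :=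
        mul_le_mul_of_nonneg_left h4 (hw0 x)
    _ = _ := by ring

end AdjAux

open AdjAux in
theorem Adj : S_Adj := by
  intro N ν _ m g Q B h o c G f w hG hf hw hw0 hwd
  have hgc := bm_gc h c
  have hic : BM (fun x : Fin N → R3 => ind Q (x c)) := BM_ind_at h.Q_meas c
  have hav : BM (av ν g {c} f) := av_bm h hf
  have hMG : BM (fun x => g (x c) * Mg ν {c} G x) := hgc.mul (Mg_bm hG)
  have hIG : 0 ≤ ∫ x, G x ^ 2 ∂pin ν N := integral_nonneg fun _ => sq_nonneg _
  have hnn : ∀ F : (Fin N → R3) → ℝ, ∀ x, 0 ≤ w x * (ind Q (x c) * F x ^ 2) := fun F x =>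
    mul_nonneg (hw0 x) (mul_nonneg (ind_nonneg _ _) (sq_nonneg _))
  have hIf : 0 ≤ ∫ x, w x * (ind Q (x c) * f x ^ 2) ∂pin ν N := integral_nonneg (hnn f)
  fin_cases o
  · have e1 : op ν g 0 c f = f := by simp [op]
    have e2 : ops ν g 0 c G = G := by
      ext1 x
      simp [ops]
    change BM (op ν g 0 c f) ∧ BM (ops ν g 0 c G) ∧
      ∫ x, ops ν g 0 c G x * f x ∂pin ν N = ∫ x, G x * op ν g 0 c f x ∂pin ν N ∧
      ((∀ x, G x ≠ 0 → x c ∈ Q) → ∫ x, ops ν g 0 c G x ^ 2 ∂pin ν N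
        ≤ 18 * ∫ x, G x ^ 2 ∂pin ν N) ∧
      ∫ x, w x * (ind Q (x c) * op ν g 0 c f x ^ 2) ∂pin ν N
        ≤ 18 * ∫ x, w x * (ind Q (x c) * f x ^ 2) ∂pin ν N
    rw [e1, e2]
    refine ⟨hf, hG, rfl, fun _ => ?_, ?_⟩ <;> linarith
  · have e1 : op ν g 1 c f = av ν g {c} f := by simp [op]
    have e2 : ops ν g 1 c G = fun x => g (x c) * Mg ν {c} G x := by
      ext1 x
      simp [ops]
    change BM (op ν g 1 c f) ∧ BM (ops ν g 1 c G) ∧
      ∫ x, ops ν g 1 c G x * f x ∂pin ν N = ∫ x, G x * op ν g 1 c f x ∂pin ν N ∧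
      ((∀ x, G x ≠ 0 → x c ∈ Q) → ∫ x, ops ν g 1 c G x ^ 2 ∂pin ν N
        ≤ 18 * ∫ x, G x ^ 2 ∂pin ν N) ∧
      ∫ x, w x * (ind Q (x c) * op ν g 1 c f x ^ 2) ∂pin ν N
        ≤ 18 * ∫ x, w x * (ind Q (x c) * f x ^ 2) ∂pin ν N
    rw [e1, e2]
    refine ⟨hav, hMG, adj_av h hG hf, fun hs => ?_, ?_⟩
    · have := norm_adj h hG hs
      linarith
    · have := norm_av h hf hw hw0 hwd
      linarith
  · have e1 : op ν g 2 c f = fun x => f x - av ν g {c} f x := by
      ext1 x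
      simp [op, rough]
    have e2 : ops ν g 2 c G = fun x => G x - g (x c) * Mg ν {c} G x := by
      ext1 x
      simp [ops]
    change BM (op ν g 2 c f) ∧ BM (ops ν g 2 c G) ∧
      ∫ x, ops ν g 2 c G x * f x ∂pin ν N = ∫ x, G x * op ν g 2 c f x ∂pin ν N ∧
      ((∀ x, G x ≠ 0 → x c ∈ Q) → ∫ x, ops ν g 2 c G x ^ 2 ∂pin ν N
        ≤ 18 * ∫ x, G x ^ 2 ∂pin ν N) ∧
      ∫ x, w x * (ind Q (x c) * op ν g 2 c f x ^ 2) ∂pin ν N
        ≤ 18 * ∫ x, w x * (ind Q (x c) * f x ^ 2) ∂pin ν N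
    rw [e1, e2]
    refine ⟨hf.sub hav, hG.sub hMG, ?_, fun hs => ?_, ?_⟩
    · have a1 : ∫ x, (G x - g (x c) * Mg ν {c} G x) * f x ∂pin ν N =
          ∫ x, G x * f x ∂pin ν N - ∫ x, g (x c) * Mg ν {c} G x * f x ∂pin ν N := by
        rw [← integral_sub ((hG.mul hf).integrable _) ((hMG.mul hf).integrable _)]
        congr 1
        ext1 x
        ring
      have a2 : ∫ x, G x * (f x - av ν g {c} f x) ∂pin ν N =
          ∫ x, G x * f x ∂pin ν N - ∫ x, G x * av ν g {c} f x ∂pin ν N := by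
        rw [← integral_sub ((hG.mul hf).integrable _) ((hG.mul hav).integrable _)]
        congr 1
        ext1 x
        ring
      rw [a1, a2, adj_av h hG hf]
    · have a1 := norm_adj h hG hs
      have a2 : ∫ x, (G x - g (x c) * Mg ν {c} G x) ^ 2 ∂pin ν N ≤
          ∫ x, (2 * G x ^ 2 + 2 * (g (x c) * Mg ν {c} G x) ^ 2) ∂pin ν N := by
        apply integral_mono (((hG.sub hMG).pow 2).integrable _)
          ((((hG.pow 2).const_mul 2).add ((hMG.pow 2).const_mul 2)).integrable _)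
        intro x
        have := sq_nonneg (G x + g (x c) * Mg ν {c} G x)
        simp only []
        nlinarith
      rw [integral_add (((hG.pow 2).const_mul 2).integrable _)
        (((hMG.pow 2).const_mul 2).integrable _), integral_const_mul, integral_const_mul] at a2
      linarith
    · have a1 := norm_av h hf hw hw0 hwd
      have a2 : ∫ x, w x * (ind Q (x c) * (f x - av ν g {c} f x) ^ 2) ∂pin ν N ≤
          ∫ x, (2 * (w x * (ind Q (x c) * f x ^ 2)) +
            2 * (w x * (ind Q (x c) * av ν g {c} f x ^ 2))) ∂pin ν N := by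
        apply integral_mono ((hw.mul (hic.mul ((hf.sub hav).pow 2))).integrable _)
          ((((hw.mul (hic.mul (hf.pow 2))).const_mul 2).add
            ((hw.mul (hic.mul (hav.pow 2))).const_mul 2)).integrable _)
        intro x
        have h1 := hnn (fun x => f x + av ν g {c} f x) x
        simp only [] at h1 ⊢
        nlinarith
      rw [integral_add (((hw.mul (hic.mul (hf.pow 2))).const_mul 2).integrable _)
        (((hw.mul (hic.mul (hav.pow 2))).const_mul 2).integrable _), integral_const_mul,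
        integral_const_mul] at a2
      linarith

end Pool.Agent.Lib.MP_5db8e2_mp
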