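import Pool.Agent.Lib.MP_5db8e2_mp.LB.Spec9

/-!
# Asymptotics of the coefficients
-/

set_option autoImplicit false

open MeasureTheory Function Finset

namespace Pool.Agent.Lib.MP_5db8e2_mp

namespace AsyAux

/-- `C₀ ^ j * t ^ k ≤ C₀ ^ 6 * t ^ l` for `j ≤ 6`, `l ≤ k`. -/
theorem pw {C₀ t : ℝ} (hC : 1 ≤ C₀) (ht : 0 < t) (ht1 : t ≤ 1) {j k l : ℕ} (hj : j ≤ 6)
    (hk : l ≤ k) : C₀ ^ j * t ^ k ≤ C₀ ^ 6 * t ^ l :=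
  mul_le_mul (pow_le_pow_right₀ hC hj) (pow_le_pow_of_le_one ht.le ht1 hk) (by positivity)
    (by positivity)

theorem eD_le {C₀ t τ : ℝ} (hC : 1 ≤ C₀) (ht : 0 < t) (ht1 : t ≤ 1) (hτ : 0 < τ) (hτ1 : τ ≤ 1) :
    eD (t⁻¹ ^ 68) (C₀ * t ^ 100 * (t⁻¹ ^ 68) ^ 3) (t⁻¹ ^ 47) (t⁻¹ ^ 52) τ (t⁻¹ ^ 82) (t ^ 138)
      (t ^ 452) (t ^ 96) ≤ 12 * (C₀ ^ 6 * τ⁻¹ * t ^ 138) := by
  have htn : t ≠ 0 := ht.ne'
  have hτn : 1 ≤ τ⁻¹ := (one_le_inv₀ hτ).2 hτ1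
  have hmu : C₀ * t ^ 100 * (t⁻¹ ^ 68) ^ 3 / (t⁻¹ ^ 68) ^ 3 = C₀ * t ^ 100 := by
    field_simp
  have hM : C₀ * t ^ 100 * (t⁻¹ ^ 68) ^ 3 = C₀ * t⁻¹ ^ 104 := by
    field_simp
  unfold eD
  rw [hmu, hM]
  have e1 : (t⁻¹ ^ 47 / t⁻¹ ^ 68) * (C₀ * t ^ 100) ^ 2 * t⁻¹ ^ 82 = C₀ ^ 2 * t ^ 139 := by
    field_simp
  have e2 : t ^ 138 = C₀ ^ 0 * t ^ 138 := by ring
  have e3 : (t ^ 138)⁻¹ * (1 / t⁻¹ ^ 47) ^ 3 * (C₀ * t ^ 100) ^ 3 * (C₀ * t⁻¹ ^ 104) =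
      C₀ ^ 4 * t ^ 199 := by
    field_simp
  have e4 : t ^ 452 * (C₀ * t⁻¹ ^ 104) ^ 3 = C₀ ^ 3 * t ^ 140 := by
    field_simp
  have e5 : t⁻¹ ^ 47 * (C₀ * t ^ 100) ^ 3 * (C₀ * t⁻¹ ^ 104) = C₀ ^ 4 * t ^ 149 := by
    field_simp
  have e6 : t ^ 96 * t⁻¹ ^ 47 * (C₀ * t ^ 100) ^ 3 * (C₀ * t⁻¹ ^ 104) ^ 2 = C₀ ^ 5 * t ^ 141 := by
    field_simp
  have e7 : (t ^ 96)⁻¹ * t⁻¹ ^ 52 * (C₀ * t ^ 100) ^ 4 * (C₀ * t⁻¹ ^ 104) = C₀ ^ 5 * t ^ 148 := by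
    field_simp
  have e8 : (t⁻¹ ^ 52) ^ 2 * (C₀ * t ^ 100) ^ 4 = C₀ ^ 4 * t ^ 296 := by
    field_simp
  have e9 : t⁻¹ ^ 52 * (C₀ * t ^ 100) ^ 4 * (C₀ * t⁻¹ ^ 104) ^ 2 = C₀ ^ 6 * t ^ 140 := by
    field_simp
  have e10 : τ⁻¹ * (C₀ * t ^ 100) ^ 3 = τ⁻¹ * (C₀ ^ 3 * t ^ 300) := by
    ring
  have e11 : (C₀ * t ^ 100) ^ 3 = C₀ ^ 3 * t ^ 300 := by
    ring
  have e12 : (C₀ * t ^ 100) ^ 2 = C₀ ^ 2 * t ^ 200 := by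
    ring
  have hX : 0 < C₀ ^ 6 * t ^ 138 := by positivity
  have hX2 : C₀ ^ 6 * t ^ 138 ≤ C₀ ^ 6 * τ⁻¹ * t ^ 138 := by
    nlinarith
  have f10 : τ⁻¹ * (C₀ ^ 3 * t ^ 300) ≤ C₀ ^ 6 * τ⁻¹ * t ^ 138 := by
    have := mul_le_mul_of_nonneg_left (pw hC ht ht1 (show 3 ≤ 6 by norm_num)
      (show 138 ≤ 300 by norm_num)) (by positivity : (0 : ℝ) ≤ τ⁻¹)
    linarith
  rw [e1, e3, e4, e5, e6, e7, e8, e9, e10, e11, e12]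
  have g1 := pw hC ht ht1 (show 2 ≤ 6 by norm_num) (show 138 ≤ 139 by norm_num)
  have g2 := pw hC ht ht1 (show 0 ≤ 6 by norm_num) (show 138 ≤ 138 by norm_num)
  rw [← e2] at g2
  have g3 := pw hC ht ht1 (show 4 ≤ 6 by norm_num) (show 138 ≤ 199 by norm_num)
  have g4 := pw hC ht ht1 (show 3 ≤ 6 by norm_num) (show 138 ≤ 140 by norm_num)
  have g5 := pw hC ht ht1 (show 4 ≤ 6 by norm_num) (show 138 ≤ 149 by norm_num)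
  have g6 := pw hC ht ht1 (show 5 ≤ 6 by norm_num) (show 138 ≤ 141 by norm_num)
  have g7 := pw hC ht ht1 (show 5 ≤ 6 by norm_num) (show 138 ≤ 148 by norm_num)
  have g8 := pw hC ht ht1 (show 4 ≤ 6 by norm_num) (show 138 ≤ 296 by norm_num)
  have g9 := pw hC ht ht1 (show 6 ≤ 6 by norm_num) (show 138 ≤ 140 by norm_num)
  have g11 := pw hC ht ht1 (show 3 ≤ 6 by norm_num) (show 138 ≤ 300 by norm_num)
  have g12 := pw hC ht ht1 (show 2 ≤ 6 by norm_num) (show 138 ≤ 200 by norm_num)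
  linarith

theorem eN_le {C₀ t τ : ℝ} (hC : 1 ≤ C₀) (ht : 0 < t) (ht1 : t ≤ 1) (hτ : 0 < τ) (hτ1 : τ ≤ 1) :
    eN (t⁻¹ ^ 68) (C₀ * t ^ 100 * (t⁻¹ ^ 68) ^ 3) (t⁻¹ ^ 47) (t⁻¹ ^ 52) τ (t⁻¹ ^ 82) (t ^ 138)
      (t ^ 452) (t ^ 96) ≤ C₀ ^ 3 * τ * t ^ 300 + 13 * (C₀ ^ 6 * τ⁻¹ * t ^ 303) := by
  have htn : t ≠ 0 := ht.ne'
  have hτn : 1 ≤ τ⁻¹ := (one_le_inv₀ hτ).2 hτ1
  have hmu : C₀ * t ^ 100 * (t⁻¹ ^ 68) ^ 3 / (t⁻¹ ^ 68) ^ 3 = C₀ * t ^ 100 := by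
    field_simp
  have hsq : √(t⁻¹ ^ 52) = t⁻¹ ^ 26 := by
    rw [show (t⁻¹ ^ 52 : ℝ) = (t⁻¹ ^ 26) ^ 2 by ring]
    exact Real.sqrt_sq (by positivity)
  unfold eN
  rw [hmu, hsq]
  have e1 : (t⁻¹ ^ 47 / t⁻¹ ^ 68) * (C₀ * t ^ 100) ^ 2 * (t⁻¹ ^ 82)⁻¹ = C₀ ^ 2 * t ^ 303 := by
    field_simp
  have e2 : (t ^ 138)⁻¹ * ((1 / t⁻¹ ^ 47) ^ 3 * (C₀ * t ^ 100) ^ 3
      + (1 / t⁻¹ ^ 47) ^ 6 * (C₀ * t ^ 100) ^ 2) = C₀ ^ 3 * t ^ 303 + C₀ ^ 2 * t ^ 344 := by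
    field_simp
  have e3 : (t ^ 452)⁻¹ * (1 / t⁻¹ ^ 52) ^ 9 * (C₀ * t ^ 100) ^ 3 = C₀ ^ 3 * t ^ 316 := by
    field_simp
  have e4 : (1 / t⁻¹ ^ 47) ^ 4 * (C₀ * t ^ 100) ^ 2 = C₀ ^ 2 * t ^ 388 := by
    field_simp
  have e5 : (t⁻¹ ^ 47) ^ 2 * (C₀ * t ^ 100) ^ 4 = C₀ ^ 4 * t ^ 306 := by
    field_simp
  have e6 : (t ^ 96 + (t ^ 96)⁻¹) * t⁻¹ ^ 47 * t⁻¹ ^ 52 * (C₀ * t ^ 100) ^ 5 =
      C₀ ^ 5 * t ^ 497 + C₀ ^ 5 * t ^ 305 := by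
    field_simp
  have e7 : t⁻¹ ^ 52 * t⁻¹ ^ 26 * (C₀ * t ^ 100) ^ 4 = C₀ ^ 4 * t ^ 322 := by
    field_simp
  have e8 : (t⁻¹ ^ 52) ^ 2 * (C₀ * t ^ 100) ^ 6 = C₀ ^ 6 * t ^ 496 := by
    field_simp
  have e9 : (t⁻¹ ^ 52) ^ 2 * (C₀ * t ^ 100) ^ 5 = C₀ ^ 5 * t ^ 396 := by
    field_simp
  have e10 : t⁻¹ ^ 52 * (C₀ * t ^ 100) ^ 4 = C₀ ^ 4 * t ^ 348 := by
    field_simp
  have e11 : (C₀ * t ^ 100) ^ 3 * τ = C₀ ^ 3 * τ * t ^ 300 := by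
    ring
  have e12 : (C₀ * t ^ 100) ^ 3 * τ⁻¹ * (t⁻¹ ^ 52 / t⁻¹ ^ 68) ^ 2 = τ⁻¹ * (C₀ ^ 3 * t ^ 332) := by
    field_simp
  rw [e1, e2, e3, e4, e5, e6, e7, e8, e9, e10, e11, e12]
  have hX : 0 < C₀ ^ 6 * t ^ 303 := by positivity
  have hX2 : C₀ ^ 6 * t ^ 303 ≤ C₀ ^ 6 * τ⁻¹ * t ^ 303 := by
    nlinarith
  have f12 : τ⁻¹ * (C₀ ^ 3 * t ^ 332) ≤ C₀ ^ 6 * τ⁻¹ * t ^ 303 := by
    have := mul_le_mul_of_nonneg_left (pw hC ht ht1 (show 3 ≤ 6 by norm_num)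
      (show 303 ≤ 332 by norm_num)) (by positivity : (0 : ℝ) ≤ τ⁻¹)
    linarith
  have g1 := pw hC ht ht1 (show 2 ≤ 6 by norm_num) (show 303 ≤ 303 by norm_num)
  have g2 := pw hC ht ht1 (show 3 ≤ 6 by norm_num) (show 303 ≤ 303 by norm_num)
  have g2' := pw hC ht ht1 (show 2 ≤ 6 by norm_num) (show 303 ≤ 344 by norm_num)
  have g3 := pw hC ht ht1 (show 3 ≤ 6 by norm_num) (show 303 ≤ 316 by norm_num)
  have g4 := pw hC ht ht1 (show 2 ≤ 6 by norm_num) (show 303 ≤ 388 by norm_num)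
  have g5 := pw hC ht ht1 (show 4 ≤ 6 by norm_num) (show 303 ≤ 306 by norm_num)
  have g6 := pw hC ht ht1 (show 5 ≤ 6 by norm_num) (show 303 ≤ 497 by norm_num)
  have g6' := pw hC ht ht1 (show 5 ≤ 6 by norm_num) (show 303 ≤ 305 by norm_num)
  have g7 := pw hC ht ht1 (show 4 ≤ 6 by norm_num) (show 303 ≤ 322 by norm_num)
  have g8 := pw hC ht ht1 (show 6 ≤ 6 by norm_num) (show 303 ≤ 496 by norm_num)
  have g9 := pw hC ht ht1 (show 5 ≤ 6 by norm_num) (show 303 ≤ 396 by norm_num)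
  have g10 := pw hC ht ht1 (show 4 ≤ 6 by norm_num) (show 303 ≤ 348 by norm_num)
  linarith

theorem aD_le {C₀ t : ℝ} (hC : 1 ≤ C₀) (ht : 0 < t) (ht1 : t ≤ 1) :
    aD (t⁻¹ ^ 68) (C₀ * t ^ 100 * (t⁻¹ ^ 68) ^ 3) (t⁻¹ ^ 47) (t⁻¹ ^ 52) ≤
      2 * (C₀ ^ 6 * t ^ 4) := by
  have htn : t ≠ 0 := ht.ne'
  have hmu : C₀ * t ^ 100 * (t⁻¹ ^ 68) ^ 3 / (t⁻¹ ^ 68) ^ 3 = C₀ * t ^ 100 := by
    field_simp
  have hM : C₀ * t ^ 100 * (t⁻¹ ^ 68) ^ 3 = C₀ * t⁻¹ ^ 104 := by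
    field_simp
  unfold aD
  rw [hmu, hM]
  have e1 : (t⁻¹ ^ 68) ^ 2 * (t⁻¹ ^ 52 * (C₀ * t ^ 100) ^ 4 * (C₀ * t⁻¹ ^ 104) ^ 2) =
      C₀ ^ 6 * t ^ 4 := by
    field_simp
  have e2 : (t⁻¹ ^ 47) ^ 2 * (C₀ * t ^ 100) ^ 3 * (C₀ * t⁻¹ ^ 104) = C₀ ^ 4 * t ^ 102 := by
    field_simp
  rw [e1, e2]
  have g2 := pw hC ht ht1 (show 4 ≤ 6 by norm_num) (show 4 ≤ 102 by norm_num)
  linarith

theorem aN_le {C₀ t : ℝ} (hC : 1 ≤ C₀) (ht : 0 < t) (ht1 : t ≤ 1) :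
    aN (t⁻¹ ^ 68) (C₀ * t ^ 100 * (t⁻¹ ^ 68) ^ 3) (t⁻¹ ^ 47) (t⁻¹ ^ 52) ≤
      7 * (C₀ ^ 6 * t ^ 164) := by
  have htn : t ≠ 0 := ht.ne'
  have hmu : C₀ * t ^ 100 * (t⁻¹ ^ 68) ^ 3 / (t⁻¹ ^ 68) ^ 3 = C₀ * t ^ 100 := by
    field_simp
  unfold aN
  rw [hmu]
  have e1 : (t⁻¹ ^ 68) ^ 2 * ((C₀ * t ^ 100) ^ 3 + (t⁻¹ ^ 52) ^ 2 * (C₀ * t ^ 100) ^ 6
      + (t⁻¹ ^ 52) ^ 2 * (C₀ * t ^ 100) ^ 5 + t⁻¹ ^ 52 * (C₀ * t ^ 100) ^ 4) =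
      C₀ ^ 3 * t ^ 164 + C₀ ^ 6 * t ^ 360 + C₀ ^ 5 * t ^ 260 + C₀ ^ 4 * t ^ 212 := by
    field_simp
  have e2 : (C₀ * t ^ 100) ^ 2 = C₀ ^ 2 * t ^ 200 := by ring
  have e3 : (t⁻¹ ^ 47) ^ 2 * (C₀ * t ^ 100) ^ 3 = C₀ ^ 3 * t ^ 206 := by
    field_simp
  have e4 : (t⁻¹ ^ 47) ^ 4 * (C₀ * t ^ 100) ^ 4 = C₀ ^ 4 * t ^ 212 := by
    field_simp
  rw [e1, e2, e3, e4]
  have g1 := pw hC ht ht1 (show 3 ≤ 6 by norm_num) (show 164 ≤ 164 by norm_num)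
  have g2 := pw hC ht ht1 (show 6 ≤ 6 by norm_num) (show 164 ≤ 360 by norm_num)
  have g3 := pw hC ht ht1 (show 5 ≤ 6 by norm_num) (show 164 ≤ 260 by norm_num)
  have g4 := pw hC ht ht1 (show 4 ≤ 6 by norm_num) (show 164 ≤ 212 by norm_num)
  have g5 := pw hC ht ht1 (show 2 ≤ 6 by norm_num) (show 164 ≤ 200 by norm_num)
  have g6 := pw hC ht ht1 (show 3 ≤ 6 by norm_num) (show 164 ≤ 206 by norm_num)
  linarith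

theorem eD_nonneg {C₀ t τ : ℝ} (hC : 1 ≤ C₀) (ht : 0 < t) (hτ : 0 < τ) :
    0 ≤ eD (t⁻¹ ^ 68) (C₀ * t ^ 100 * (t⁻¹ ^ 68) ^ 3) (t⁻¹ ^ 47) (t⁻¹ ^ 52) τ (t⁻¹ ^ 82) (t ^ 138)
      (t ^ 452) (t ^ 96) := by
  have : 0 < C₀ := by linarith
  unfold eD
  positivity

end AsyAux

open AsyAux in
theorem Asy : S_Asy := by
  intro C₀ C ε hC₀ hC hε
  have hC₀0 : 0 < C₀ := by linarith
  have hC0 : 0 < C := by linarith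
  -- the choice of `τ`
  refine ⟨min 1 (ε / (2 * C * C₀ ^ 3)), by positivity, min_le_left _ _, ?_⟩
  have hτ : 0 < min 1 (ε / (2 * C * C₀ ^ 3)) := by positivity
  have hτ1 : min 1 (ε / (2 * C * C₀ ^ 3)) ≤ 1 := min_le_left _ _
  have hτ2 : C * C₀ ^ 3 * min 1 (ε / (2 * C * C₀ ^ 3)) ≤ ε / 2 := by
    calc C * C₀ ^ 3 * min 1 (ε / (2 * C * C₀ ^ 3)) ≤ C * C₀ ^ 3 * (ε / (2 * C * C₀ ^ 3)) :=
          mul_le_mul_of_nonneg_left (min_le_right _ _) (by positivity)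
      _ = ε / 2 := by field_simp
  generalize min 1 (ε / (2 * C * C₀ ^ 3)) = τ at hτ hτ1 hτ2
  intro X
  have hτn : 1 ≤ τ⁻¹ := (one_le_inv₀ hτ).2 hτ1
  obtain ⟨Q, hQ⟩ : ∃ Q, Q = C ^ 2 * C₀ ^ 12 * τ⁻¹ := ⟨_, rfl⟩
  have hQ0 : 0 < Q := by rw [hQ]; positivity
  have hX0 := abs_nonneg X
  have hden : 0 < 400 + |X| + 48 * Q + 364 * Q / ε := by positivity
  refine ⟨1 / (400 + |X| + 48 * Q + 364 * Q / ε), by positivity, ?_, ?_⟩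
  · rw [div_lt_one hden]
    have : 0 < 48 * Q + 364 * Q / ε := by positivity
    linarith
  intro t ht htt ρ s r r4 M τ₁ τ₂ τ₄ θ hρ hs hr hr4 hM hτ₁ hτ₂ hτ₄ hθ
  subst hρ hs hr hr4 hM hτ₁ hτ₂ hτ₄ hθ
  rw [lt_div_iff₀ hden] at htt
  have h400 : t * 400 < 1 := by
    have : 0 ≤ t * (|X| + 48 * Q + 364 * Q / ε) := by positivity
    linarith
  have hXt : t * |X| < 1 := by
    have : 0 ≤ t * (400 + 48 * Q + 364 * Q / ε) := by positivity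
    linarith
  have hX1t : t * (1 + |X|) < 1 := by
    have : 0 ≤ t * (399 + 48 * Q + 364 * Q / ε) := by positivity
    linarith
  have h48 : 48 * Q * t < 1 := by
    have : 0 ≤ t * (400 + |X| + 364 * Q / ε) := by positivity
    linarith
  have h364 : 364 * Q * t < ε := by
    have h1 : 0 ≤ t * (400 + |X| + 48 * Q) := by positivity
    have h2 : t * (364 * Q / ε) < 1 := by linarith
    have h3 : t * (364 * Q / ε) = 364 * Q * t / ε := by ring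
    rw [h3, div_lt_one hε] at h2
    exact h2
  have ht1 : t ≤ 1 := by linarith
  have htn : t ≠ 0 := ht.ne'
  have hu1 : 1 ≤ t⁻¹ := (one_le_inv₀ ht).2 ht1
  have hDle := eD_le hC₀ ht ht1 hτ hτ1
  have hNle := eN_le hC₀ ht ht1 hτ hτ1
  have haD := aD_le hC₀ ht ht1
  have haN := aN_le hC₀ ht ht1
  have hD0 := eD_nonneg hC₀ ht hτ
  have hC₀6 : C₀ ^ 6 ≤ C₀ ^ 12 := pow_le_pow_right₀ hC₀ (by norm_num)
  have hCC : C ≤ C ^ 2 := by nlinarith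
  have hQ1 : C * C₀ ^ 6 ≤ Q := by
    rw [hQ]
    calc C * C₀ ^ 6 ≤ C ^ 2 * C₀ ^ 12 := mul_le_mul hCC hC₀6 (by positivity) (by positivity)
      _ ≤ C ^ 2 * C₀ ^ 12 * τ⁻¹ := le_mul_of_one_le_right (by positivity) hτn
  have hQ2 : C ^ 2 * C₀ ^ 6 * τ⁻¹ ≤ Q := by
    rw [hQ]
    apply mul_le_mul_of_nonneg_right _ (by positivity)
    exact mul_le_mul_of_nonneg_left hC₀6 (by positivity)
  have hQ3 : C * (C₀ ^ 6 * τ⁻¹) ≤ Q := by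
    refine le_trans ?_ hQ2
    have : C * (C₀ ^ 6 * τ⁻¹) ≤ C ^ 2 * (C₀ ^ 6 * τ⁻¹) :=
      mul_le_mul_of_nonneg_right hCC (by positivity)
    linarith
  have hpow : ∀ k : ℕ, 1 ≤ k → t ^ k ≤ t := fun k hk => by
    simpa using pow_le_pow_of_le_one ht.le ht1 hk
  have hXr : X ≤ t⁻¹ := by
    rw [← one_div, le_div_iff₀ ht]
    have : X * t ≤ |X| * t := mul_le_mul_of_nonneg_right (le_abs_self X) ht.le
    linarith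
  have hupow : ∀ k : ℕ, 1 ≤ k → t⁻¹ ≤ t⁻¹ ^ k := fun k hk => by
    simpa using pow_le_pow_right₀ hu1 hk
  refine ⟨?_, ?_, ?_, ?_, ?_, ?_, ?_, ?_, ?_, ?_⟩
  · calc C * aD (t⁻¹ ^ 68) (C₀ * t ^ 100 * (t⁻¹ ^ 68) ^ 3) (t⁻¹ ^ 47) (t⁻¹ ^ 52)
        ≤ C * (2 * (C₀ ^ 6 * t ^ 4)) := mul_le_mul_of_nonneg_left haD hC0.le
      _ = 2 * (C * C₀ ^ 6) * t ^ 4 := by ring
      _ ≤ 2 * Q * t := by
          apply mul_le_mul (by linarith) (hpow 4 (by norm_num)) (by positivity) (by positivity)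
      _ ≤ 1 / 2 := by linarith
  · have e : 2 * C * (t⁻¹ ^ 68) ^ 2 * (C * (12 * (C₀ ^ 6 * τ⁻¹ * t ^ 138))) =
        24 * (C ^ 2 * C₀ ^ 6 * τ⁻¹) * t ^ 2 := by
      field_simp
      ring
    calc _ ≤ 2 * C * (t⁻¹ ^ 68) ^ 2 * (C * (12 * (C₀ ^ 6 * τ⁻¹ * t ^ 138))) := by
          apply mul_le_mul_of_nonneg_left _ (by positivity)
          exact mul_le_mul_of_nonneg_left hDle hC0.le
      _ = 24 * (C ^ 2 * C₀ ^ 6 * τ⁻¹) * t ^ 2 := e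
      _ ≤ 24 * Q * t := by
          apply mul_le_mul (by linarith) (hpow 2 (by norm_num)) (by positivity) (by positivity)
      _ ≤ 1 / 2 := by linarith
  · have h1 : C * eN (t⁻¹ ^ 68) (C₀ * t ^ 100 * (t⁻¹ ^ 68) ^ 3) (t⁻¹ ^ 47) (t⁻¹ ^ 52) τ (t⁻¹ ^ 82)
        (t ^ 138) (t ^ 452) (t ^ 96) ≤ ε / 2 * t ^ 300 + 13 * Q * t ^ 303 := by
      calc _ ≤ C * (C₀ ^ 3 * τ * t ^ 300 + 13 * (C₀ ^ 6 * τ⁻¹ * t ^ 303)) :=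
            mul_le_mul_of_nonneg_left hNle hC0.le
        _ = C * C₀ ^ 3 * τ * t ^ 300 + 13 * (C * (C₀ ^ 6 * τ⁻¹)) * t ^ 303 := by ring
        _ ≤ ε / 2 * t ^ 300 + 13 * Q * t ^ 303 := by
            apply add_le_add
            · exact mul_le_mul_of_nonneg_right hτ2 (by positivity)
            · exact mul_le_mul_of_nonneg_right (by linarith) (by positivity)
    have h2 : 2 * C * aN (t⁻¹ ^ 68) (C₀ * t ^ 100 * (t⁻¹ ^ 68) ^ 3) (t⁻¹ ^ 47) (t⁻¹ ^ 52) *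
        (C * eD (t⁻¹ ^ 68) (C₀ * t ^ 100 * (t⁻¹ ^ 68) ^ 3) (t⁻¹ ^ 47) (t⁻¹ ^ 52) τ (t⁻¹ ^ 82)
          (t ^ 138) (t ^ 452) (t ^ 96)) ≤ 168 * Q * t ^ 302 := by
      calc _ ≤ 2 * C * (7 * (C₀ ^ 6 * t ^ 164)) * (C * (12 * (C₀ ^ 6 * τ⁻¹ * t ^ 138))) := by
            apply mul_le_mul
            · exact mul_le_mul_of_nonneg_left haN (by positivity)
            · exact mul_le_mul_of_nonneg_left hDle hC0.le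
            · positivity
            · positivity
        _ = 168 * Q * t ^ 302 := by
            rw [hQ]
            ring
    have h3 : t ^ 303 ≤ t ^ 300 * t := by
      have : t ^ 303 = t ^ 300 * t ^ 3 := by ring
      rw [this]
      exact mul_le_mul_of_nonneg_left (hpow 3 (by norm_num)) (by positivity)
    have h4 : t ^ 302 ≤ t ^ 300 * t := by
      have : t ^ 302 = t ^ 300 * t ^ 2 := by ring
      rw [this]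
      exact mul_le_mul_of_nonneg_left (hpow 2 (by norm_num)) (by positivity)
    have h5 : (t ^ 100) ^ 3 = t ^ 300 := by ring
    rw [h5]
    have h6 : 0 < t ^ 300 := by positivity
    calc _ ≤ (ε / 2 * t ^ 300 + 13 * Q * t ^ 303) + 168 * Q * t ^ 302 := add_le_add h1 h2
      _ ≤ ε / 2 * t ^ 300 + 13 * Q * (t ^ 300 * t) + 168 * Q * (t ^ 300 * t) := by
          have a1 := mul_le_mul_of_nonneg_left h3 (by positivity : (0 : ℝ) ≤ 13 * Q)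
          have a2 := mul_le_mul_of_nonneg_left h4 (by positivity : (0 : ℝ) ≤ 168 * Q)
          linarith
      _ = (ε / 2 + 181 * Q * t) * t ^ 300 := by ring
      _ ≤ ε * t ^ 300 := by
          apply mul_le_mul_of_nonneg_right _ h6.le
          have : 0 < Q * t := by positivity
          linarith
  · exact hXr.trans (hupow 47 (by norm_num))
  · exact pow_le_pow_right₀ hu1 (by norm_num)
  · exact one_le_pow₀ hu1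
  · have e : C₀ * t ^ 100 * (t⁻¹ ^ 68) ^ 3 = C₀ * t⁻¹ ^ 104 := by
      field_simp
    rw [e]
    have h1 : 8 ≤ t⁻¹ := by
      rw [← one_div, le_div_iff₀ ht]
      linarith
    calc (8 : ℝ) ≤ t⁻¹ := h1
      _ ≤ t⁻¹ ^ 104 := hupow 104 (by norm_num)
      _ ≤ C₀ * t⁻¹ ^ 104 := le_mul_of_one_le_left (by positivity) hC₀
  · have e : 100 * t⁻¹ ^ 52 / t⁻¹ ^ 68 = 100 * t ^ 16 := by
      field_simp
    rw [e]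
    have := hpow 16 (by norm_num)
    linarith
  · rw [le_div_iff₀ (by positivity)]
    have h1 := hpow 100 (by norm_num)
    have h2 : t ^ 100 * (1 + |X|) ≤ t * (1 + |X|) :=
      mul_le_mul_of_nonneg_right h1 (by positivity)
    linarith
  · have e : (t ^ 100) ^ 2 * (t⁻¹ ^ 68) ^ 3 = t⁻¹ ^ 4 := by
      field_simp
    rw [e]
    exact hXr.trans (hupow 4 (by norm_num))

end Pool.Agent.Lib.MP_5db8e2_mp
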