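import Pool.Agent.Lib.MP_5db8e2_mp.LB.Spec4

/-!
# Lower bound, part 4: the windows are windows in the sense of `Wd`
-/

set_option autoImplicit false

open MeasureTheory Function Finset
open scoped Classical

namespace Pool.Agent.Lib.MP_5db8e2_mp

theorem wdWin_Qc_eq (s : ℝ) (a : Fin 3 → ℤ) :
    Qc s a = Set.Icc (fun k => s * a k - s) (fun k => s * a k + s) := by
  ext c
  simp only [Qc, Set.mem_setOf_eq, Set.mem_Icc, Pi.le_def, abs_le]
  constructor
  · intro h
    exact ⟨fun k => by linarith [(h k).1], fun k => by linarith [(h k).2]⟩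
  · rintro ⟨h1, h2⟩ k
    exact ⟨by linarith [h1 k], by linarith [h2 k]⟩

theorem wdWin_Bc_eq (s : ℝ) (a : Fin 3 → ℤ) :
    Bc s a = Set.Icc (fun k => s * a k - 3 * s) (fun k => s * a k + 3 * s) := by
  ext c
  simp only [Bc, Set.mem_setOf_eq, Set.mem_Icc, Pi.le_def, abs_le]
  constructor
  · intro h
    exact ⟨fun k => by linarith [(h k).1], fun k => by linarith [(h k).2]⟩
  · rintro ⟨h1, h2⟩ k
    exact ⟨by linarith [h1 k], by linarith [h2 k]⟩

theorem wdWin_sub_Om (p : Par) (hp : p.OK) (a : Fin 3 → ℤ) (ha : a ∈ p.win) :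
    Qc p.s a ⊆ Om p.L := by
  have hs : 0 < p.s := lt_of_lt_of_le one_pos hp.hs
  intro x hx k
  have h1 := abs_le.1 (hx k)
  have h2 : a k ∈ Finset.Icc (-(p.K : ℤ)) (p.K : ℤ) := by
    have := ha
    rw [Par.win, winF, Fintype.mem_piFinset] at this
    exact this k
  rw [Finset.mem_Icc] at h2
  have h3 : (-(p.K : ℝ)) ≤ a k := by exact_mod_cast h2.1
  have h4 : (a k : ℝ) ≤ p.K := by exact_mod_cast h2.2
  have h5 := mul_le_mul_of_nonneg_left h3 hs.le
  have h6 := mul_le_mul_of_nonneg_left h4 hs.le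
  have h7 := hp.hK
  rw [abs_le]
  constructor <;> linarith

theorem WdWin (hW : S_WinFacts) : S_WdWin := by
  obtain ⟨C, -, hC⟩ := hW
  intro p hp a ha
  have hs : 0 < p.s := lt_of_lt_of_le one_pos hp.hs
  have hs3 : 0 < p.s ^ 3 := pow_pos hs 3
  obtain ⟨h1, h2, h3, -, -, -, -, h8, h9⟩ := hC p.s p.e hp.hs hp.he hp.he' a
  have hsub := wdWin_sub_Om p hp a ha
  have hQ : ∀ c, th p.s p.e a c ≠ 0 → c ∈ Qc p.s a := by
    intro c hc k
    refine (h3 c hc k).trans ?_
    nlinarith [mul_pos hp.he hs]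
  refine ⟨⟨one_le_pow₀ hp.hs, ?_, ?_, ?_, ?_, ?_, ?_, ?_, ?_, ?_⟩, hsub⟩
  · exact h1.continuous.measurable.div_const _
  · intro c
    exact div_nonneg (h2 c).1 hs3.le
  · intro c
    exact div_le_div_of_nonneg_right (h2 c).2 hs3.le
  · intro c hc
    refine hQ c fun h => hc ?_
    simp [Par.gd, h]
  · have e1 : ∫ c, p.gd a c ∂p.nu = ∫ c, p.gd a c := by
      rw [Par.nu]
      refine setIntegral_eq_integral_of_forall_compl_eq_zero fun c hc => ?_
      by_contra h
      refine hc (hsub (hQ c fun h' => h ?_))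
      simp [Par.gd, h']
    rw [e1]
    simp only [Par.gd]
    rw [integral_div, h9, div_self hs3.ne']
  · rw [wdWin_Qc_eq]; exact measurableSet_Icc
  · rw [wdWin_Bc_eq]; exact measurableSet_Icc
  · intro c hc k
    exact (hc k).trans (by linarith)
  · have e1 : p.nu.real (Qc p.s a) ≤ volume.real (Qc p.s a) := by
      rw [Par.nu]
      have hfin : volume (Qc p.s a) ≠ ⊤ := by
        rw [wdWin_Qc_eq]; exact isCompact_Icc.measure_lt_top.ne
      exact ENNReal.toReal_mono hfin (Measure.restrict_apply_le _ _)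
    refine e1.trans ?_
    rw [Measure.real, wdWin_Qc_eq, Real.volume_Icc_pi]
    have : ∀ k : Fin 3, ENNReal.ofReal (p.s * (a k : ℝ) + p.s - (p.s * (a k : ℝ) - p.s)) =
        ENNReal.ofReal (2 * p.s) := by
      intro k; congr 1; ring
    rw [Finset.prod_congr rfl (fun k _ => this k)]
    rw [Finset.prod_const, Finset.card_univ, Fintype.card_fin, ENNReal.toReal_pow,
      ENNReal.toReal_ofReal (by linarith)]
    nlinarith [hs3]

end Pool.Agent.Lib.MP_5db8e2_mp
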