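import Pool.Agent.Lib.MP_5db8e2_mp.LB.Spec9
import Pool.Agent.Lib.MP_5db8e2_mp.LB.WdWin

/-!
# Lower bound: dense windows are controlled by rich heavy cells
-/

set_option autoImplicit false

open MeasureTheory Function Finset
open scoped Classical

namespace Pool.Agent.Lib.MP_5db8e2_mp

/-- The combinatorial core. -/
theorem cells_core {ι : Type} (W : Finset ι) (nbr : ι → ι → Prop)
    (hsym : ∀ a a', nbr a a' → nbr a' a) (hcard : ∀ a, (W.filter (nbr a)).card ≤ 343)
    (n nB out : ι → ℝ) (hn : ∀ a, 0 ≤ n a) (ho : ∀ a, 0 ≤ out a)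
    (M cs : ℝ) (hM : 8 ≤ M) (hcs : 0 ≤ cs)
    (h1 : ∀ a ∈ W, nB a ≤ out a + ∑ a' ∈ W.filter (nbr a), n a')
    (hout : ∑ a ∈ W, out a ≤ 343 * cs) :
    ∑ a ∈ W, (if M < nB a then nB a else 0) ≤
      10 ^ 6 * (cs + ∑ a ∈ W.filter (fun a => M ≤ 686 * n a ∧ nB a ≤ 470596 * n a), n a) := by
  have dich : ∀ a ∈ W, nB a ≤ 2 * out a ∨ ∃ a' ∈ W, nbr a a' ∧ nB a ≤ 686 * n a' := by
    intro a ha
    by_contra hcon
    push Not at hcon
    obtain ⟨c1, c2⟩ := hcon
    have hpos : 0 < nB a := by linarith [ho a]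
    have h2 : ∑ a' ∈ W.filter (nbr a), n a' ≤ (W.filter (nbr a)).card • (nB a / 686) := by
      refine Finset.sum_le_card_nsmul _ _ _ fun a' ha' => ?_
      rw [Finset.mem_filter] at ha'
      have := c2 a' ha'.1 ha'.2
      linarith
    have h3 : ((W.filter (nbr a)).card : ℝ) ≤ 343 := by exact_mod_cast hcard a
    have h4 : (W.filter (nbr a)).card • (nB a / 686) ≤ 343 * (nB a / 686) := by
      rw [nsmul_eq_mul]
      exact mul_le_mul_of_nonneg_right h3 (by positivity)
    have h5 := h1 a ha
    linarith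
  set H := W.filter (fun a => M ≤ 686 * n a) with hH
  set RH := W.filter (fun a => M ≤ 686 * n a ∧ nB a ≤ 470596 * n a) with hRH
  have hHsum : ∀ a, 0 ≤ ∑ a' ∈ H.filter (nbr a), n a' := fun a => Finset.sum_nonneg fun a' _ => hn a'
  have hsingle : ∀ a a', a' ∈ W → nbr a a' → M ≤ 686 * n a' → n a' ≤ ∑ a' ∈ H.filter (nbr a), n a' := by
    intro a a' ha' hnb hheavy
    refine Finset.single_le_sum (f := n) (fun b _ => hn b) ?_
    rw [Finset.mem_filter, hH, Finset.mem_filter]
    exact ⟨⟨ha', hheavy⟩, hnb⟩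
  -- double sum
  have hdouble : ∑ a ∈ W, ∑ a' ∈ H.filter (nbr a), n a' ≤ 343 * ∑ a' ∈ H, n a' := by
    have e1 : ∑ a ∈ W, ∑ a' ∈ H.filter (nbr a), n a' = ∑ a' ∈ H, ∑ a ∈ W.filter (fun a => nbr a a'), n a' := by
      simp only [Finset.sum_filter]
      rw [Finset.sum_comm]
    rw [e1, Finset.mul_sum]
    refine Finset.sum_le_sum fun a' _ => ?_
    rw [Finset.sum_const, nsmul_eq_mul]
    have h2 : (W.filter (fun a => nbr a a')).card ≤ 343 := by
      refine le_trans (Finset.card_le_card ?_) (hcard a')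
      intro a ha
      rw [Finset.mem_filter] at ha ⊢
      exact ⟨ha.1, hsym _ _ ha.2⟩
    have h3 : ((W.filter (fun a => nbr a a')).card : ℝ) ≤ 343 := by exact_mod_cast h2
    exact mul_le_mul_of_nonneg_right h3 (hn a')
  -- the bad windows
  have key : ∀ a ∈ W, (if M < nB a then nB a else 0) ≤ 2 * out a + 686 * ∑ a' ∈ H.filter (nbr a), n a' := by
    intro a ha
    have h0 := ho a
    have h00 := hHsum a
    split_ifs with hb
    · rcases dich a ha with h | ⟨a', ha', hnb, h⟩
      · linarith
      · have := hsingle a a' ha' hnb (by linarith)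
        linarith
    · linarith
  have hA : ∑ a ∈ W, (if M < nB a then nB a else 0) ≤ 2 * (343 * cs) + 686 * (343 * ∑ a' ∈ H, n a') := by
    refine (Finset.sum_le_sum key).trans ?_
    rw [Finset.sum_add_distrib, ← Finset.mul_sum, ← Finset.mul_sum]
    linarith
  -- the heavy cells
  have hB : ∑ a ∈ H \ RH, n a ≤ 2 / 470596 * (343 * cs) + 1 / 686 * (343 * ∑ a' ∈ H, n a') := by
    have key2 : ∀ a ∈ H \ RH, n a ≤ 2 / 470596 * out a + 1 / 686 * ∑ a' ∈ H.filter (nbr a), n a' := by
      intro a ha
      rw [Finset.mem_sdiff, hH, Finset.mem_filter, hRH, Finset.mem_filter] at ha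
      obtain ⟨⟨haW, haH⟩, hnot⟩ := ha
      have hlt : 470596 * n a < nB a := by
        by_contra hcon
        push Not at hcon
        exact hnot ⟨haW, haH, hcon⟩
      have h0 := ho a
      have h00 := hHsum a
      rcases dich a haW with h | ⟨a', ha', hnb, h⟩
      · linarith
      · have := hsingle a a' ha' hnb (by linarith)
        linarith
    refine (Finset.sum_le_sum key2).trans ?_
    have hsubset : H \ RH ⊆ W := (Finset.sdiff_subset).trans (Finset.filter_subset _ _)
    have h2 : ∑ a ∈ H \ RH, (2 / 470596 * out a + 1 / 686 * ∑ a' ∈ H.filter (nbr a), n a')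
        ≤ ∑ a ∈ W, (2 / 470596 * out a + 1 / 686 * ∑ a' ∈ H.filter (nbr a), n a') := by
      refine Finset.sum_le_sum_of_subset_of_nonneg hsubset fun a _ _ => ?_
      have h0 := ho a
      have h00 := hHsum a
      positivity
    refine h2.trans ?_
    rw [Finset.sum_add_distrib, ← Finset.mul_sum, ← Finset.mul_sum]
    linarith
  have hRHsub : RH ⊆ H := by
    intro a ha
    rw [hRH, Finset.mem_filter] at ha
    rw [hH, Finset.mem_filter]
    exact ⟨ha.1, ha.2.1⟩
  have hsplit : ∑ a ∈ H, n a = ∑ a ∈ H \ RH, n a + ∑ a ∈ RH, n a :=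
    (Finset.sum_sdiff hRHsub).symm
  have hRH0 : 0 ≤ ∑ a ∈ RH, n a := Finset.sum_nonneg fun a _ => hn a
  linarith

/-- neighbouring cells -/
def cellNbr (a a' : Fin 3 → ℤ) : Prop := ∀ k, |a' k - a k| ≤ 3

/-- integer coordinates of a point -/
theorem cells_near (s : ℝ) (hs : 0 < s) (c : ℝ) : |c - s * (round (c / s) : ℝ)| ≤ s / 2 := by
  have h1 := abs_sub_round (c / s)
  have h2 : c - s * (round (c / s) : ℝ) = s * (c / s - round (c / s)) := by field_simp
  rw [h2, abs_mul, abs_of_pos hs]
  calc s * |c / s - round (c / s)| ≤ s * (1 / 2) := mul_le_mul_of_nonneg_left h1 hs.le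
    _ = s / 2 := by ring

theorem Cells (hO : S_Overlap) : S_Cells := by
  refine ⟨10 ^ 6, by norm_num, fun p hp x => ?_⟩
  have hs : 0 < p.s := lt_of_lt_of_le one_pos hp.hs
  obtain ⟨-, hov, -⟩ := hO p hp
  have h := cells_core p.win cellNbr
    (fun a a' h k => by rw [abs_sub_comm]; exact h k) ?_
    (fun a => (cnt (cell p.s a) univ x : ℝ)) (fun a => (cnt (Bc p.s a) univ x : ℝ))
    (fun a => (cnt (Bc p.s a ∩ p.strip) univ x : ℝ)) (fun a => Nat.cast_nonneg _)
    (fun a => Nat.cast_nonneg _) p.M (cnt p.strip univ x : ℝ) hp.hM (Nat.cast_nonneg _) ?_ ?_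
  · exact h
  · -- at most 343 neighbours
    intro a
    have hsub : (p.win.filter (cellNbr a)) ⊆
        Fintype.piFinset (fun k : Fin 3 => Finset.Icc (a k - 3) (a k + 3)) := by
      intro a' ha'
      rw [Finset.mem_filter] at ha'
      rw [Fintype.mem_piFinset]
      intro k
      have := abs_le.1 (ha'.2 k)
      rw [Finset.mem_Icc]
      constructor <;> omega
    refine (Finset.card_le_card hsub).trans ?_
    rw [Fintype.card_piFinset]
    have : ∀ k : Fin 3, (Finset.Icc (a k - 3) (a k + 3)).card = 7 := by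
      intro k
      rw [Int.card_Icc]
      omega
    simp only [this, Finset.prod_const, Finset.card_univ, Fintype.card_fin]
    norm_num
  · -- the covering by cells
    intro a _
    simp only [cnt_eq_sum]
    rw [Finset.sum_comm, ← Finset.sum_add_distrib]
    refine Finset.sum_le_sum fun j _ => ?_
    set c := x j with hc
    have hnn : ∀ (Z : Set R3), 0 ≤ ind Z c := by
      intro Z
      rw [ind, Set.indicator_apply]
      split_ifs <;> norm_num
    have hsum0 : 0 ≤ ∑ a' ∈ p.win.filter (cellNbr a), ind (cell p.s a') c :=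
      Finset.sum_nonneg fun a' _ => hnn _
    by_cases hB : c ∈ Bc p.s a
    · have e1 : ind (Bc p.s a) c = 1 := by rw [ind, Set.indicator_apply, if_pos hB]
      rw [e1]
      set a' : Fin 3 → ℤ := fun k => round (c k / p.s) with ha'
      have hcell : c ∈ cell p.s a' := fun k => cells_near p.s hs (c k)
      have hnbr : ∀ k, |a' k - a k| ≤ 3 := by
        intro k
        have h1 := abs_le.1 (hcell k)
        have h2 := abs_le.1 (hB k)
        have h3 : ((a' k : ℝ) - a k) * p.s ≤ 7 / 2 * p.s := by linarith [h1.1, h2.2]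
        have h4 : -(7 / 2) * p.s ≤ ((a' k : ℝ) - a k) * p.s := by linarith [h1.2, h2.1]
        have h5 : (a' k : ℝ) - a k ≤ 7 / 2 := le_of_mul_le_mul_right h3 hs
        have h6 : -(7 / 2 : ℝ) ≤ (a' k : ℝ) - a k := le_of_mul_le_mul_right h4 hs
        have h7 : ((a' k - a k : ℤ) : ℝ) < ((4 : ℤ) : ℝ) := by push_cast; linarith
        have h8 : ((-4 : ℤ) : ℝ) < ((a' k - a k : ℤ) : ℝ) := by push_cast; linarith
        have h9 : a' k - a k < 4 := by exact_mod_cast h7
        have h10 : -4 < a' k - a k := by exact_mod_cast h8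
        rw [abs_le]; constructor <;> omega
      by_cases hwin : a' ∈ p.win
      · have h1 : ind (cell p.s a') c ≤
            ∑ a' ∈ p.win.filter (cellNbr a), ind (cell p.s a') c := by
          refine Finset.single_le_sum (f := fun a' => ind (cell p.s a') c) (fun b _ => hnn _) ?_
          rw [Finset.mem_filter]
          exact ⟨hwin, hnbr⟩
        have h2 : ind (cell p.s a') c = 1 := by rw [ind, Set.indicator_apply, if_pos hcell]
        have h3 := hnn (Bc p.s a ∩ p.strip)
        linarith
      · have hst : c ∈ p.strip := by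
          rw [Par.win, winF, Fintype.mem_piFinset] at hwin
          push Not at hwin
          obtain ⟨k, hk⟩ := hwin
          refine ⟨k, ?_⟩
          rw [Finset.mem_Icc, not_and_or, not_le, not_le] at hk
          have h1 := abs_le.1 (hcell k)
          rcases hk with hk | hk
          · have h2 : (a' k : ℝ) ≤ -(p.K : ℝ) - 1 := by
              have : a' k ≤ -(p.K : ℤ) - 1 := by omega
              exact_mod_cast this
            have h3 : p.s * (a' k : ℝ) ≤ p.s * (-(p.K : ℝ) - 1) := mul_le_mul_of_nonneg_left h2 hs.le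
            have h4 : c k ≤ -(p.s * (p.K - 1)) := by nlinarith [h1.2]
            rw [le_abs]
            right; linarith
          · have h2 : (p.K : ℝ) + 1 ≤ (a' k : ℝ) := by
              have : (p.K : ℤ) + 1 ≤ a' k := by omega
              exact_mod_cast this
            have h3 : p.s * ((p.K : ℝ) + 1) ≤ p.s * (a' k : ℝ) := mul_le_mul_of_nonneg_left h2 hs.le
            rw [le_abs]
            left; nlinarith [h1.1]
        have h2 : ind (Bc p.s a ∩ p.strip) c = 1 := by
          rw [ind, Set.indicator_apply, if_pos ⟨hB, hst⟩]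
        linarith
    · have e1 : ind (Bc p.s a) c = 0 := by rw [ind, Set.indicator_apply, if_neg hB]
      rw [e1]
      have h3 := hnn (Bc p.s a ∩ p.strip)
      linarith
  · -- the overlap
    simp only [cnt_eq_sum]
    rw [Finset.sum_comm, Finset.mul_sum]
    refine Finset.sum_le_sum fun j _ => ?_
    set c := x j with hc
    by_cases hst : c ∈ p.strip
    · have e1 : ind p.strip c = 1 := by rw [ind, Set.indicator_apply, if_pos hst]
      rw [e1, mul_one]
      refine le_trans (Finset.sum_le_sum fun a _ => ?_) (hov c)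
      rw [ind, ind, Set.indicator_apply, Set.indicator_apply]
      by_cases hB : c ∈ Bc p.s a
      · rw [if_pos ⟨hB, hst⟩, if_pos hB]
      · rw [if_neg (fun h => hB h.1), if_neg hB]
    · have e1 : ind p.strip c = 0 := by rw [ind, Set.indicator_apply, if_neg hst]
      rw [e1, mul_zero]
      refine le_of_eq (Finset.sum_eq_zero fun a _ => ?_)
      rw [ind, Set.indicator_apply, if_neg (fun h => hst h.2)]

end Pool.Agent.Lib.MP_5db8e2_mp
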