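import Pool.Agent.Lib.MP_5db8e2_mp.LB.Spec5

/-!
# Lower bound, part 5: integrals over one cluster (`S_ClInt`)
-/

set_option autoImplicit false

open MeasureTheory Function Finset
open scoped Classical

namespace Pool.Agent.Lib.MP_5db8e2_mp

/-- Integrals over the variables of one cluster are integrals over the whole space. -/
theorem ClInt (hPut : S_Put) : S_ClInt := by
  intro p k A hk x G F hGF hF
  obtain ⟨-, -, -, -, -, hMg, -, -⟩ := hPut k A hk 0 x
  rw [hMg p.nu G]
  have h1 : (Measure.pi fun _ : Fin k => p.nu) =
      (volume : Measure (Fin k → R3)).restrict (Set.pi Set.univ fun _ => Om p.L) := by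
    rw [volume_pi, Measure.restrict_pi_pi]
    rfl
  rw [h1]
  simp only [hGF]
  refine setIntegral_eq_integral_of_forall_compl_eq_zero fun y hy => ?_
  by_contra hne
  exact hy fun m _ => hF y hne m

end Pool.Agent.Lib.MP_5db8e2_mp
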