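import Pool.Agent.Lib.MP_5db8e2_mp.LB.Spec5

/-!
# Lower bound, part 5: elementary bounds for the cut-off functions
-/

set_option autoImplicit false

open MeasureTheory Function Finset
open scoped Classical

namespace Pool.Agent.Lib.MP_5db8e2_mp

theorem counts_lam3_pow (M : ℝ) (hM : 8 ≤ M) (n u v e : ℕ) (hu : u ≤ e * 2) (hv : v ≤ 5) :
    ((n + v : ℕ) : ℝ) ^ u * lam3 M n ^ e ≤ (2 * M) ^ u := by
  have hM0 : 0 < M := by linarith
  have hv' : (v : ℝ) ≤ 5 := by exact_mod_cast hv
  unfold lam3
  split_ifs with h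
  · rw [one_pow, mul_one]
    refine pow_le_pow_left₀ (Nat.cast_nonneg _) ?_ u
    push_cast
    linarith
  · rw [not_le] at h
    have hn0 : (0 : ℝ) < n := by linarith
    have h1 : ((n + v : ℕ) : ℝ) ≤ 2 * n := by push_cast; linarith
    have h2 : M / n ≤ 1 := by rw [div_le_one hn0]; exact h.le
    have h3 : 0 ≤ M / n := by positivity
    rw [← pow_mul]
    calc ((n + v : ℕ) : ℝ) ^ u * (M / n) ^ (2 * e) ≤ (2 * n) ^ u * (M / n) ^ u := by
          refine mul_le_mul (pow_le_pow_left₀ (Nat.cast_nonneg _) h1 u) ?_ (by positivity)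
            (by positivity)
          exact pow_le_pow_of_le_one h3 h2 (by omega)
      _ = (2 * M) ^ u := by
          rw [← mul_pow]
          congr 1
          field_simp

theorem counts_lam4_pow (M : ℝ) (hM : 8 ≤ M) (n u v : ℕ) (hv : v ≤ 8) :
    ((n + v : ℕ) : ℝ) ^ u * lam4 M n ≤ (2 * M) ^ u := by
  have hv' : (v : ℝ) ≤ 8 := by exact_mod_cast hv
  unfold lam4
  split_ifs with h
  · rw [mul_one]
    refine pow_le_pow_left₀ (Nat.cast_nonneg _) ?_ u
    push_cast
    linarith
  · rw [mul_zero]; positivity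

theorem Counts : S_Counts := by
  intro M hM
  have hM0 : 0 < M := by linarith
  have h0 : ∀ n, 0 ≤ lam3 M n ∧ lam3 M n ≤ 1 := by
    intro n
    unfold lam3
    split_ifs with h
    · exact ⟨zero_le_one, le_rfl⟩
    · rw [not_le] at h
      have hn0 : (0 : ℝ) < n := by linarith
      refine ⟨sq_nonneg _, pow_le_one₀ (by positivity) ?_⟩
      rw [div_le_one hn0]; exact h.le
  refine ⟨h0, ?_, ?_, ?_, ?_, ?_, ?_, ?_, ?_, ?_, ?_⟩
  · intro n n' hnn
    have hc : (n : ℝ) ≤ n' := by exact_mod_cast hnn
    by_cases h' : (n' : ℝ) ≤ M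
    · have h : (n : ℝ) ≤ M := hc.trans h'
      simp [lam3, h, h']
    · by_cases h : (n : ℝ) ≤ M
      · have e : lam3 M n = 1 := by simp [lam3, h]
        rw [e]; exact (h0 n').2
      · simp only [lam3, h, h', if_false]
        rw [not_le] at h h'
        have hn0 : (0 : ℝ) < n := by linarith
        exact pow_le_pow_left₀ (by positivity) (div_le_div_of_nonneg_left hM0.le hn0 hc) 2
  · intro n
    unfold lam4
    split_ifs with h <;> simp
  · intro n n' hnn
    have hc : (n : ℝ) ≤ n' := by exact_mod_cast hnn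
    by_cases h' : (n' : ℝ) + 1 ≤ M
    · have h : (n : ℝ) + 1 ≤ M := by linarith
      simp [lam4, h, h']
    · simp only [lam4, h', if_false]
      split_ifs <;> simp
  · intro n u hu
    exact counts_lam3_pow M hM n u (u + 1) 2 (by omega) (by omega)
  · intro n u hu
    exact counts_lam3_pow M hM n u u 2 (by omega) (by omega)
  · intro n u hu
    have := counts_lam3_pow M hM n u (u + 1) 1 (by omega) (by omega)
    rwa [pow_one] at this
  · intro n u hu
    have := counts_lam3_pow M hM n u u 1 (by omega) (by omega)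
    rwa [pow_one] at this
  · intro n u hu
    exact counts_lam4_pow M hM n u (u + 1) (by omega)
  · intro n u hu
    exact counts_lam4_pow M hM n u u (by omega)
  · intro n k hn hk
    have h1 : (k : ℝ) ≤ n + 1 := by exact_mod_cast hk
    have h2 : (k : ℝ) ≤ M := h1.trans hn
    simp [lam3, h2]

end Pool.Agent.Lib.MP_5db8e2_mp
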