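import Pool.Agent.Lib.MP_5db8e2_mp.LB.Basic

/-!
# Lower bound: the windows, the trial functions, the global quantities (definitions)
-/

set_option autoImplicit false

open MeasureTheory Function Finset
open scoped Classical

namespace Pool.Agent.Lib.MP_5db8e2_mp

/-- Smooth profile on the line: `1` near `0`, `0` for `|t| ≥ 1 - e`,
`prof e t + prof e (1 - t) = 1` on `[0,1]`. -/
noncomputable def prof (e t : ℝ) : ℝ :=
  Real.smoothTransition ((1 - e - t) / (1 - 2 * e)) *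
    Real.smoothTransition ((1 - e + t) / (1 - 2 * e))

/-- The window functions. -/
noncomputable def th (s e : ℝ) (a : Fin 3 → ℤ) (c : R3) : ℝ := ∏ k, prof e (c k / s - a k)

/-- The cubes of the windows (side `2s`, centre `s a`). -/
def Qc (s : ℝ) (a : Fin 3 → ℤ) : Set R3 := {c | ∀ k, |c k - s * a k| ≤ s}

/-- The big cubes (side `6s`). -/
def Bc (s : ℝ) (a : Fin 3 → ℤ) : Set R3 := {c | ∀ k, |c k - s * a k| ≤ 3 * s}

/-- The big cube. -/
def Om (L : ℝ) : Set R3 := {c | ∀ k, |c k| ≤ L / 2}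

/-- The indices of the windows. -/
noncomputable def winF (K : ℕ) : Finset (Fin 3 → ℤ) :=
  Fintype.piFinset (fun _ => Finset.Icc (-(K : ℤ)) (K : ℤ))

/-- The cut-offs of the trial functions. -/
noncomputable def lam3 (M : ℝ) (n : ℕ) : ℝ := if (n : ℝ) ≤ M then 1 else (M / n) ^ 2

noncomputable def lam4 (M : ℝ) (n : ℕ) : ℝ := if (n : ℝ) + 1 ≤ M then 1 else 0

/-- Parameters: number of particles, number of windows, side of the big cube, size of the
windows, relative margin, maximal number of particles of a normal window. -/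
structure Par where
  N : ℕ
  K : ℕ
  L : ℝ
  s : ℝ
  e : ℝ
  M : ℝ

structure Par.OK (p : Par) : Prop where
  hs : 1 ≤ p.s
  he : 0 < p.e
  he' : p.e ≤ 1 / 4
  hK : p.s * (p.K + 1) ≤ p.L / 2
  hK' : p.L / 2 ≤ p.s * (p.K + 2)
  hM : 8 ≤ p.M

namespace Par

variable (p : Par)

/-- Lebesgue measure on the big cube. -/
noncomputable def nu : Measure R3 := volume.restrict (Om p.L)

instance instFiniteNu : IsFiniteMeasure p.nu := by
  refine ⟨?_⟩
  rw [nu, Measure.restrict_apply_univ]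
  have h : Om p.L ⊆ Set.Icc (fun _ => -(p.L / 2)) (fun _ => p.L / 2) := fun c hc =>
    ⟨fun k => (abs_le.1 (hc k)).1, fun k => (abs_le.1 (hc k)).2⟩
  exact lt_of_le_of_lt (measure_mono h) isCompact_Icc.measure_lt_top

noncomputable def gd (a : Fin 3 → ℤ) (c : R3) : ℝ := th p.s p.e a c / p.s ^ 3

noncomputable def win : Finset (Fin 3 → ℤ) := winF p.K

/-- Average of `Ψ` over the variables in `A` in the window `a`. -/
noncomputable def U (a : Fin 3 → ℤ) (A : Finset (Fin p.N)) (Ψ : (Fin p.N → R3) → ℝ) :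
    (Fin p.N → R3) → ℝ := av p.nu (p.gd a) A Ψ

/-- Rough part in the window `a`. -/
noncomputable def q (a : Fin 3 → ℤ) (j : Fin p.N) (Ψ : (Fin p.N → R3) → ℝ) :
    (Fin p.N → R3) → ℝ := rough p.nu (p.gd a) j Ψ

noncomputable def l3 (a : Fin 3 → ℤ) (T : Finset (Fin p.N)) (x : Fin p.N → R3) : ℝ :=
  lam3 p.M (cnt (Bc p.s a) Tᶜ x)

noncomputable def l4 (a : Fin 3 → ℤ) (Q : Finset (Fin p.N)) (x : Fin p.N → R3) : ℝ :=
  lam4 p.M (cnt (Bc p.s a) Qᶜ x)

/-- The trial functions with the centre of mass as a separate variable. -/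
noncomputable def vt3 (Ψ : (Fin p.N → R3) → ℝ) (T : Finset (Fin p.N)) (c : R3)
    (x : Fin p.N → R3) : ℝ :=
  ∑ a ∈ p.win, th p.s p.e a c * (p.l3 a T x * p.U a T Ψ x)

noncomputable def vt4 (Ψ : (Fin p.N → R3) → ℝ) (Q : Finset (Fin p.N)) (c : R3)
    (x : Fin p.N → R3) : ℝ :=
  ∑ a ∈ p.win, th p.s p.e a c * (p.l4 a Q x * p.U a Q Ψ x)

/-- Centre of mass of the particles in `A`. -/
noncomputable def cmA {N : ℕ} (A : Finset (Fin N)) (x : Fin N → R3) : R3 :=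
  fun k => (∑ m ∈ A, x m k) / A.card

/-- The trial functions `v_T`, `v_Q`. -/
noncomputable def v3 (Ψ : (Fin p.N → R3) → ℝ) (T : Finset (Fin p.N)) (x : Fin p.N → R3) : ℝ :=
  p.vt3 Ψ T (cmA T x) x

noncomputable def v4 (Ψ : (Fin p.N → R3) → ℝ) (Q : Finset (Fin p.N)) (x : Fin p.N → R3) : ℝ :=
  p.vt4 Ψ Q (cmA Q x) x

/-- Square of the norm. -/
noncomputable def nrm (Ψ : (Fin p.N → R3) → ℝ) : ℝ := ∫ x, Ψ x ^ 2 ∂pin p.nu p.N

/-- Total roughness. -/
noncomputable def D (Ψ : (Fin p.N → R3) → ℝ) : ℝ :=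
  ∑ a ∈ p.win, Dw p.nu (p.gd a) (Qc p.s a) Ψ

/-- Total number of particles, counted in the windows. -/
noncomputable def Nn (Ψ : (Fin p.N → R3) → ℝ) : ℝ := ∑ a ∈ p.win, Nw p.nu (Qc p.s a) Ψ

/-- Number of particles in dense (big) windows. -/
noncomputable def ND (Ψ : (Fin p.N → R3) → ℝ) : ℝ :=
  ∑ a ∈ p.win, ∫ x, (if p.M < cnt (Bc p.s a) univ x then (cnt (Bc p.s a) univ x : ℝ) else 0) *
    Ψ x ^ 2 ∂pin p.nu p.N

/-- The boundary strip. -/
def strip : Set R3 := {c | ∃ k, p.s * (p.K - 1) ≤ |c k|}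

/-- Number of particles in the boundary strip. -/
noncomputable def NS (Ψ : (Fin p.N → R3) → ℝ) : ℝ :=
  ∫ x, (cnt p.strip univ x : ℝ) * Ψ x ^ 2 ∂pin p.nu p.N

/-- The main terms: `G3 = ∑_a m ∑_T ∫ λ |U_T|²`, `G4 = ∑_a m ∑_Q ∫ λ |U_Q|²`, `m = s³`. -/
noncomputable def G3 (Ψ : (Fin p.N → R3) → ℝ) : ℝ :=
  ∑ a ∈ p.win, p.s ^ 3 * ∑ T ∈ powersetCard 3 (univ : Finset (Fin p.N)),
    out p.nu 0 T (fun x => p.l3 a T x * p.U a T Ψ x ^ 2)

noncomputable def G4 (Ψ : (Fin p.N → R3) → ℝ) : ℝ :=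
  ∑ a ∈ p.win, p.s ^ 3 * ∑ Q ∈ powersetCard 4 (univ : Finset (Fin p.N)),
    out p.nu 0 Q (fun x => p.l4 a Q x * p.U a Q Ψ x ^ 2)

/-- `∑_Q ∫ v_Q²` (with the centre of mass as a separate variable). -/
noncomputable def VV (Ψ : (Fin p.N → R3) → ℝ) : ℝ :=
  ∑ Q ∈ powersetCard 4 (univ : Finset (Fin p.N)),
    ∫ c in Om p.L, out p.nu 0 Q (fun x => p.vt4 Ψ Q c x ^ 2)

end Par

/-! ## Cluster functions of the configuration -/

variable {N : ℕ}

/-- The positions of the particles of `A` (in the order of their labels), `A.card = k`. -/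
noncomputable def pick (k : ℕ) (A : Finset (Fin N)) (x : Fin N → R3) : Fin k → R3 :=
  fun m => if h : A.card = k then x (A.orderEmbOfFin h m) else 0

/-- Replace the positions of the particles of `A` by `y` (in the order of the labels). -/
noncomputable def put (k : ℕ) (A : Finset (Fin N)) (y : Fin k → R3) (x : Fin N → R3) :
    Fin N → R3 :=
  fun i => if h : A.card = k ∧ i ∈ A then y ((A.orderIsoOfFin h.1).symm ⟨i, h.2⟩) else x i

/-- The `m`-th label of `A` is `i`. -/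
def isEl (k : ℕ) (A : Finset (Fin N)) (m : Fin k) (i : Fin N) : Prop :=
  ∃ h : A.card = k, A.orderEmbOfFin h m = i

/-- The gradient fields `g_{T,i}`. -/
noncomputable def gT (φ : (Fin 3 → R3) → ℝ) (T : Finset (Fin N)) (i : Fin N) (a : Fin 3)
    (x : Fin N → R3) : ℝ := ∑ m, if isEl 3 T m i then pd φ m a (pick 3 T x) else 0

/-- The four-body fields `g_{Q,i}`. -/
noncomputable def gQ (g : Fin 4 → Fin 3 → (Fin 4 → R3) → ℝ) (Q : Finset (Fin N)) (i : Fin N)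
    (a : Fin 3) (x : Fin N → R3) : ℝ := ∑ m, if isEl 4 Q m i then g m a (pick 4 Q x) else 0

/-- The four-body potential part for the triple `Q \ {i}`. -/
noncomputable def sQ (s : Fin 4 → (Fin 4 → R3) → ℝ) (Q : Finset (Fin N)) (i : Fin N)
    (x : Fin N → R3) : ℝ := ∑ m, if isEl 4 Q m i then s m (pick 4 Q x) else 0

/-- The potential of the triple `T`. -/
noncomputable def VT (V : R3 → R3 → ℝ) (T : Finset (Fin N)) (x : Fin N → R3) : ℝ :=
  V3 V (pick 3 T x)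

/-- The correlation functions. -/
structure Cor where
  φ : (Fin 3 → R3) → ℝ
  w : (Fin 3 → R3) → ℝ
  g : Fin 4 → Fin 3 → (Fin 4 → R3) → ℝ
  s : Fin 4 → (Fin 4 → R3) → ℝ
  wq : (Fin 4 → R3) → ℝ

namespace Par

variable (p : Par) (V : R3 → R3 → ℝ) (c : Cor) (Ψ : (Fin p.N → R3) → ℝ)

/-- `Γ_{i,a}`. -/
noncomputable def Gam (i : Fin p.N) (a : Fin 3) (x : Fin p.N → R3) : ℝ :=
  - ∑ T ∈ powersetCard 3 univ, gT c.φ T i a x * p.v3 Ψ T x
  - ∑ Q ∈ powersetCard 4 univ, gQ c.g Q i a x * p.v4 Ψ Q x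

/-- `t_T`; the four-clusters containing `T` are `insert i T`, `i ∉ T`. -/
noncomputable def tT (T : Finset (Fin p.N)) (x : Fin p.N → R3) : ℝ :=
  (1 - c.φ (pick 3 T x)) * p.v3 Ψ T x
  - ∑ i ∈ Tᶜ, sQ c.s (insert i T) i x * p.v4 Ψ (insert i T) x

/-- The kinetic square `R`. -/
noncomputable def RR : ℝ :=
  ∫ x, ∑ i, ∑ a, (pd Ψ i a x - p.Gam c Ψ i a x) ^ 2 ∂pin p.nu p.N

/-- The quadratic part. -/
noncomputable def Quad : ℝ :=
  ∫ x, ∑ i, ∑ a, p.Gam c Ψ i a x ^ 2 ∂pin p.nu p.N +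
    ∑ T ∈ powersetCard 3 univ, ∫ x, VT V T x * p.tT c Ψ T x ^ 2 ∂pin p.nu p.N

/-- The linear parts. -/
noncomputable def Lin3 : ℝ :=
  ∑ T ∈ powersetCard 3 univ, ∫ x, c.w (pick 3 T x) * (Ψ x * p.v3 Ψ T x) ∂pin p.nu p.N

noncomputable def Lin4 : ℝ :=
  ∑ Q ∈ powersetCard 4 univ, ∫ x, c.wq (pick 4 Q x) * (Ψ x * p.v4 Ψ Q x) ∂pin p.nu p.N

end Par

end Pool.Agent.Lib.MP_5db8e2_mp
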