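import Pool.Agent.Lib.MP_5db8e2_mp.Iface
import Pool.Agent.Lib.MP_5db8e2_mp.LB.Win

/-!
# Lower bound, part 4: windows, cluster coordinates, weak equations, global identity
-/

set_option autoImplicit false

open MeasureTheory Function Finset
open scoped Classical

namespace Pool.Agent.Lib.MP_5db8e2_mp

/-- **Prof.** The profile.

PROOF. `Real.smoothTransition x` is `0` for `x ≤ 0`, `1` for `x ≥ 1`, smooth, and
`smoothTransition (1-x) = 1 - smoothTransition x` (from the definition, both denominators are the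
same). For `t ≥ -e` the second factor is `1`, for `t ≤ e` the first one is `1`; `prof e` is even.
For `0 ≤ t ≤ 1`: `prof e t + prof e (t-1) = prof e t + prof e (1-t) = 1` because
`(1-e-(1-t))/(1-2e) = 1 - (1-e-t)/(1-2e)`. So for `|t| ≤ K` exactly the two terms `k = ⌊t⌋`,
`⌊t⌋+1` of the sum can be nonzero, with sum `1` (if `t = K` use `k = K-1, K`, or `prof e 0 = 1`); in
general a part of these two terms. Derivative: the derivative of `smoothTransition` is continuous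
and vanishes outside `[0,1]`, hence bounded by `C₀`, and `1/(1-2e) ≤ 2`: `|prof'| ≤ 4 C₀`.
Integral: `∫_{-1}^{1} prof = 2 ∫_0^1 prof = ∫_0^1 (prof t + prof (1-t)) dt = 1`. -/
def S_Prof : Prop :=
  ∃ C : ℝ, 0 < C ∧ ∀ e : ℝ, 0 < e → e ≤ 1 / 4 →
    ContDiff ℝ 1 (prof e) ∧ (∀ t, 0 ≤ prof e t ∧ prof e t ≤ 1) ∧
    (∀ t, prof e t ≠ 0 → |t| ≤ 1 - e) ∧ (∀ t, |deriv (prof e) t| ≤ C) ∧
    (∀ (K : ℕ) (t : ℝ), ∑ k ∈ Finset.Icc (-(K : ℤ)) (K : ℤ), prof e (t - k) ≤ 1) ∧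
    (∀ (K : ℕ) (t : ℝ), |t| ≤ K → ∑ k ∈ Finset.Icc (-(K : ℤ)) (K : ℤ), prof e (t - k) = 1) ∧
    Integrable (prof e) ∧ ∫ t, prof e t = 1

/-- **WinFacts.** The window functions in three dimensions.

PROOF. `th` is a product of three profiles (`Prof`, hypothesis): sums over `winF K =
piFinset Icc` factorize (`Finset.prod_univ_sum`), the integral factorizes
(`integral_fintype_prod_eq_prod`, substitution `t = c_k/s - a_k`: factor `s` each), partial
derivatives `≤ C/s`, hence the Lipschitz estimate (change the three coordinates one after the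
other, each factor is `≤ 1`; `‖·‖` is the maximum norm). -/
def S_WinFacts : Prop :=
  ∃ C : ℝ, 0 < C ∧ ∀ s e : ℝ, 1 ≤ s → 0 < e → e ≤ 1 / 4 → ∀ a : Fin 3 → ℤ,
    ContDiff ℝ 1 (th s e a) ∧ (∀ c, 0 ≤ th s e a c ∧ th s e a c ≤ 1) ∧
    (∀ c, th s e a c ≠ 0 → ∀ k, |c k - s * a k| ≤ (1 - e) * s) ∧
    (∀ c c', |th s e a c - th s e a c'| ≤ C / s * ‖c - c'‖) ∧
    (∀ c k, |fderiv ℝ (th s e a) c (Pi.single k 1)| ≤ C / s) ∧
    (∀ (K : ℕ) (c : R3), ∑ a ∈ winF K, th s e a c ≤ 1) ∧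
    (∀ (K : ℕ) (c : R3), (∀ k, |c k| ≤ s * K) → ∑ a ∈ winF K, th s e a c = 1) ∧
    Integrable (th s e a) ∧ ∫ c, th s e a c = s ^ 3

/-- **WdWin.** The windows are windows in the sense of `Wd`; they lie in the big cube.

PROOF. `WinFacts` (hypothesis): `g = th/s³ ≤ 1/s³`; the support of `th` is in `Qc ⊆ Om`
(`|c_k| ≤ s|a_k| + s ≤ s(K+1) ≤ L/2`), so the integral over `Om` is the full one;
`volume (Qc s a) = (2s)³` (`Qc` is a box `Set.pi univ (Icc ..)`: `Real.volume_Icc_pi`). -/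
def S_WdWin : Prop :=
  ∀ p : Par, p.OK → ∀ a ∈ p.win, Wd p.nu (p.s ^ 3) (p.gd a) (Qc p.s a) (Bc p.s a) ∧
    Qc p.s a ⊆ Om p.L

/-- **Overlap.** Every point is in at most `27` windows and at most `343` big windows; two windows
with a common point: `Qc ⊆ Bc` of the other one. Two windows whose functions are both nonzero
at some point are neighbours and overlap in a cube of side at least `s`.

PROOF. `|c_k - s a_k| ≤ s` for at most three integers `a_k`; `≤ 3s` for at most seven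
(`Nat.card` of integers in an interval of length `2`, `6`); `∑_a ind` is the number of the `a`, and
the number of `a ∈ ℤ³` is a product. If `c ∈ Qc s a ∩ Qc s a'` then `|a_k - a'_k| ≤ 2`, so
`|c'_k - s a'_k| ≤ s + 2s` for `c' ∈ Qc s a`. If `th a c ≠ 0 ≠ th a' c`, `|a_k - a'_k| s ≤
2(1-e)s < 2s`, so `|a_k - a'_k| ≤ 1` and `Qc s a ∩ Qc s a'` is a product of three intervals of
length `2s` or `s`; its volume is at least `s³`, and it lies in `Om`. -/
def S_Overlap : Prop :=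
  ∀ p : Par, p.OK →
    (∀ c : R3, ∑ a ∈ p.win, ind (Qc p.s a) c ≤ 27) ∧
    (∀ c : R3, ∑ a ∈ p.win, ind (Bc p.s a) c ≤ 343) ∧
    (∀ a a' : Fin 3 → ℤ, (Qc p.s a ∩ Qc p.s a').Nonempty → Qc p.s a ⊆ Bc p.s a') ∧
    (∀ a ∈ p.win, ∀ a' ∈ p.win, ∀ c, th p.s p.e a c ≠ 0 → th p.s p.e a' c ≠ 0 →
      p.s ^ 3 ≤ p.nu.real (Qc p.s a ∩ Qc p.s a'))

/-- **Put.** Cluster coordinates.

PROOF. (a)-(d): `A.orderIsoOfFin h` is a bijection `Fin k ≃ A` (`orderEmbOfFin` is its coercion);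
`cmA`: `∑_{m∈A} = ∑_{m : Fin k}` (`Finset.sum_coe_sort`, `Equiv.sum_comp`). (e): in
`Mg lam A F x = ∫ y : (A → R3), F (updateFinset x A y)` substitute along the measure preserving
equivalence `(Fin k → R3) ≃ (A → R3)` (`measurePreserving_piCongrLeft` for `orderIsoOfFin`).
(f): `y ↦ put k A y x` is affine, with derivative in the direction `single m (single a 1)` equal to
`single (orderEmbOfFin h m) (single a 1)`; chain rule. (g): the support of `y ↦ F (put k A y x)`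
is closed and bounded: `pick k A` maps the compact support of `F` onto a compact set which
contains it. -/
def S_Put : Prop :=
  ∀ {N : ℕ} (k : ℕ) (A : Finset (Fin N)) (hk : A.card = k) (y : Fin k → R3) (x : Fin N → R3),
    pick k A (put k A y x) = y ∧ put k A (pick k A x) x = x ∧
    (∀ i ∉ A, put k A y x i = x i) ∧ Par.cmA A (put k A y x) = cm y ∧
    (∀ m, put k A y x (A.orderEmbOfFin hk m) = y m) ∧
    (∀ (lam : Measure R3) [IsFiniteMeasure lam] (F : (Fin N → R3) → ℝ),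
      Mg lam A F x = ∫ y, F (put k A y x) ∂Measure.pi (fun _ : Fin k => lam)) ∧
    (∀ F : (Fin N → R3) → ℝ, ContDiff ℝ 1 F → ContDiff ℝ 1 (fun y => F (put k A y x)) ∧
      (∀ m a, pd (fun y => F (put k A y x)) m a y
        = pd F (A.orderEmbOfFin hk m) a (put k A y x))) ∧
    (∀ F : (Fin N → R3) → ℝ, HasCompactSupport F → HasCompactSupport (fun y => F (put k A y x)))

/-- Everything we need to know about the correlation functions. -/
structure Cor.OK (V : R3 → R3 → ℝ) (b K R r r4 W QQ : ℝ) (c : Cor) : Prop where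
  pot : Pot V
  V_supp : ∀ x, V3 V x ≠ 0 → rad x ≤ R
  V_bd : ∀ x y, V x y ≤ K
  d3 : Data3 V b K r c.φ c.w
  d4 : Data4 V c.φ K R r4 W QQ c.g c.s c.wq
  hK : 1 ≤ K
  hR : 0 ≤ R
  hr : 1 ≤ r
  hr4 : r ≤ r4
  hR4 : R ≤ r4

/-- The windows are large compared with the range of the correlation functions. -/
def Par.Large (p : Par) (r4 : ℝ) : Prop := 100 * r4 ≤ p.e * p.s

/-- **Supp.** Geometry of the supports.

PROOF. `‖y_m - cm y‖ ≤ rad y` and `‖y_m - y_{m'}‖ ≤ 2 rad y` (`abs_sub_cm_le`, `norm_sub_le_rad` in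
`GeoA.lean`), `th ≠ 0` puts the centre of mass at distance `≥ e s` from the boundary of `Qc`,
and `rad ≤ 4 r4` moves by at most `8 r4 ≤ e s/10`. -/
def S_Supp : Prop :=
  ∀ (p : Par) (_ : p.OK) (r4 : ℝ) (_ : 0 ≤ r4) (_ : p.Large r4) (a : Fin 3 → ℤ) (k : ℕ)
    (A : Finset (Fin p.N)) (_ : A.card = k) (_ : 1 ≤ k) (x : Fin p.N → R3)
    (_ : th p.s p.e a (Par.cmA A x) ≠ 0) (_ : rad (pick k A x) ≤ r4),
    (∀ i ∈ A, ‖x i - Par.cmA A x‖ ≤ r4) ∧
    (∀ i ∈ A, ∀ j : Fin p.N, ‖x j - x i‖ ≤ 10 * r4 → x j ∈ Qc p.s a) ∧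
    (∀ i ∈ A, ∀ j ∈ A, ‖x i - x j‖ ≤ 2 * r4)

/-- **BMall.** All the functions which occur are bounded and measurable; partial derivatives of a
compactly supported `C¹` function too.

PROOF. `pick`, `cmA` are measurable (linear, or constant zero); `pd φ m a` is continuous with
the bound of `Data3.bd'`; `Data3`, `Data4` give measurability and bounds of the others
(`|w| ≤ K/r⁶`, ...; `V` is bounded: `Pot`); `U`: `av_bm` with `WdWin` (hypothesis); `l3`, `l4`: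
`BM_cnt_comp`; `vt3` jointly in `(c, x)`: finite sum of products; `v3 = vt3 (cmA T x) x`. -/
def S_BMall : Prop :=
  ∀ (V : R3 → R3 → ℝ) (b K R r r4 W QQ : ℝ) (c : Cor) (_ : c.OK V b K R r r4 W QQ) (p : Par)
    (_ : p.OK) (Ψ : (Fin p.N → R3) → ℝ) (_ : BM Ψ) (A : Finset (Fin p.N)),
    (∀ i a, BM (gT c.φ A i a : (Fin p.N → R3) → ℝ)) ∧
    (∀ i a, BM (gQ c.g A i a : (Fin p.N → R3) → ℝ)) ∧
    (∀ i, BM (sQ c.s A i : (Fin p.N → R3) → ℝ)) ∧
    BM (fun x : Fin p.N → R3 => c.φ (pick 3 A x)) ∧ BM (fun x : Fin p.N → R3 => c.w (pick 3 A x)) ∧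
    BM (fun x : Fin p.N → R3 => c.wq (pick 4 A x)) ∧ BM (VT V A : (Fin p.N → R3) → ℝ) ∧
    (∀ a, BM (p.l3 a A)) ∧ (∀ a, BM (p.l4 a A)) ∧ (∀ a ∈ p.win, BM (p.U a A Ψ)) ∧
    (∀ a ∈ p.win, ∀ j, BM (p.q a j Ψ)) ∧
    BM (fun z : R3 × (Fin p.N → R3) => p.vt3 Ψ A z.1 z.2) ∧
    BM (fun z : R3 × (Fin p.N → R3) => p.vt4 Ψ A z.1 z.2) ∧
    BM (p.v3 Ψ A) ∧ BM (p.v4 Ψ A) ∧
    (ContDiff ℝ 1 Ψ → HasCompactSupport Ψ → ∀ i a, BM (pd Ψ i a))

end Pool.Agent.Lib.MP_5db8e2_mp
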