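import Pool.Agent.Lib.MP_5db8e2_mp.LB.Spec3
import Pool.Agent.Lib.MP_5db8e2_mp.LB.Spec4

/-!
# Lower bound, part 5: the global identity, Jensen's inequality, the linear terms
-/

set_option autoImplicit false

open MeasureTheory Function Finset
open scoped Classical

namespace Pool.Agent.Lib.MP_5db8e2_mp

/-- **CutRed.** Reduction to compactly supported functions.

PROOF. Multiply `Ψ` by a smooth cutoff which is `1` on a neighbourhood of the compact set `box L N`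
(`exists_contDiff_tsupport_subset` or `exists_smooth_one_nhds_of_subset_interior`, or a product of
`Real.smoothTransition`s of the coordinates); the values and the derivatives in `box L N` do not
change (the two functions coincide near every point of the box: `Filter.EventuallyEq.fderiv_eq`). -/
def S_CutRed : Prop :=
  ∀ {N : ℕ} (L : ℝ) (Ψ : (Fin N → R3) → ℝ) (_ : ContDiff ℝ 1 Ψ),
    ∃ Ψ' : (Fin N → R3) → ℝ, ContDiff ℝ 1 Ψ' ∧ HasCompactSupport Ψ' ∧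
      ∀ x ∈ box L N, Ψ' x = Ψ x ∧ ∀ i a, pd Ψ' i a x = pd Ψ i a x

/-- **EnInt.** The energy as an integral over `ν^N`.

PROOF. `box L N = Set.pi univ (fun _ => Om L)`, `Measure.restrict_pi_pi` (or
`volume_pi` + `Measure.restrict_pi_pi`): the restriction of the volume to the box is
`pin p.nu N`. `‖t‖² = t²` for real `t`. `pot V x = ∑_T V_T(x)`: the triples `i < j < k` correspond
bijectively to the three-element sets `T = {i,j,k}`, and `pick 3 T x = ![x i, x j, x k]`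
(`orderEmbOfFin` lists the elements in increasing order). -/
def S_EnInt : Prop :=
  ∀ (V : R3 → R3 → ℝ) (_ : Pot V) (p : Par) (Ψ : (Fin p.N → R3) → ℝ),
    (∀ x : Fin p.N → R3, pot V x = ∑ T ∈ powersetCard 3 univ, VT V T x) ∧
    energy V p.L Ψ = ∫ x, (∑ i, ∑ a, pd Ψ i a x ^ 2 +
      ∑ T ∈ powersetCard 3 univ, VT V T x * Ψ x ^ 2) ∂pin p.nu p.N ∧
    ∫ x in box p.L p.N, Ψ x ^ 2 = p.nrm Ψ

/-- **ClInt.** Integrals over the variables of one cluster are integrals over the whole space.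

PROOF. `Put` (hypothesis): `Mg p.nu A G x = ∫ y, G (put k A y x) ∂pi (fun _ => p.nu)`, and
`pi (fun _ : Fin k => volume.restrict (Om L))` is the restriction of the volume to `(Om L)^k`
(`Measure.restrict_pi_pi`); the integrand vanishes outside this set
(`setIntegral_eq_integral_of_forall_compl_eq_zero`). -/
def S_ClInt : Prop :=
  ∀ (p : Par) (k : ℕ) (A : Finset (Fin p.N)) (_ : A.card = k) (x : Fin p.N → R3)
    (G : (Fin p.N → R3) → ℝ) (F : (Fin k → R3) → ℝ)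
    (_ : ∀ y, G (put k A y x) = F y) (_ : ∀ y, F y ≠ 0 → ∀ m, y m ∈ Om p.L),
    Mg p.nu A G x = ∫ y, F y

/-- **WeakT.** The three-body scattering equation in the `N`-particle space.

PROOF. For `i ∉ T` the terms vanish (`gT = 0`); for `i = orderEmbOfFin m`, `gT φ T i a x =
pd φ m a (pick 3 T x)`. By `integral_eq_out` it is enough to compare, for fixed `x`, the integrals
`Mg p.nu T` over the variables of `T` of the two integrands. `v3 Ψ T (put 3 T y x) = vt3 Ψ T (cm y) x`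
(`l3 a T`, `U a T Ψ` do not depend on the variables in `T`: `cnt_dep`, `av_dep`). By `Put`, `ClInt`
(hypotheses) with `z y = Ψ (put 3 T y x)` (`C¹`, compact support, `pd z m a y =
pd Ψ (orderEmbOfFin m) a (put ..)`) both integrals are integrals over `(Fin 3 → R3)` with respect to
the volume, since the integrands vanish unless `rad y ≤ r4` and some `th a (cm y) ≠ 0`, and then all
`y m ∈ Qc ⊆ Om` (`Supp`, `WdWin`). With `v c = vt3 Ψ T c x` (bounded, measurable: `BMall`),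
`Data3.weak` is the claim. -/
def S_WeakT : Prop :=
  ∀ (V : R3 → R3 → ℝ) (b K R r r4 W QQ : ℝ) (c : Cor) (_ : c.OK V b K R r r4 W QQ) (p : Par)
    (_ : p.OK) (_ : p.Large r4) (Ψ : (Fin p.N → R3) → ℝ) (_ : ContDiff ℝ 1 Ψ)
    (_ : HasCompactSupport Ψ), ∀ T ∈ powersetCard 3 (univ : Finset (Fin p.N)),
    ∫ x, ∑ i, ∑ a, gT c.φ T i a x * (pd Ψ i a x * p.v3 Ψ T x) ∂pin p.nu p.N
      = ∫ x, (VT V T x * (1 - c.φ (pick 3 T x)) - c.w (pick 3 T x)) * (Ψ x * p.v3 Ψ T x)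
        ∂pin p.nu p.N

/-- **WeakQ.** The four-body equation in the `N`-particle space.

PROOF. As `WeakT`, with `Data4.weak`. `pick 3 (Q.erase i) x = sub4 m (pick 4 Q x)` for
`i = orderEmbOfFin m` (the increasing enumeration of `Q.erase i` is the one of `Q` composed with
`m.succAbove`: `Finset.orderEmbOfFin_unique`), so
`∑_{i∈Q} VT V (Q.erase i) x * sQ s Q i x = ∑_m V4 V m y * s m y`, `y = pick 4 Q x`. -/
def S_WeakQ : Prop :=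
  ∀ (V : R3 → R3 → ℝ) (b K R r r4 W QQ : ℝ) (c : Cor) (_ : c.OK V b K R r r4 W QQ) (p : Par)
    (_ : p.OK) (_ : p.Large r4) (Ψ : (Fin p.N → R3) → ℝ) (_ : ContDiff ℝ 1 Ψ)
    (_ : HasCompactSupport Ψ), ∀ Q ∈ powersetCard 4 (univ : Finset (Fin p.N)),
    ∫ x, ∑ i, ∑ a, gQ c.g Q i a x * (pd Ψ i a x * p.v4 Ψ Q x) ∂pin p.nu p.N
      = - ∫ x, (∑ i ∈ Q, VT V (Q.erase i) x * sQ c.s Q i x + c.wq (pick 4 Q x)) *
          (Ψ x * p.v4 Ψ Q x) ∂pin p.nu p.N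

/-- **Identity.** The global lower bound by completing the squares.

PROOF. All the functions are bounded and measurable (`BMall`), so all integrals of sums split.
`(∂Ψ)² = (∂Ψ - Γ)² + 2 ∂Ψ Γ - Γ²` and
`∫∑_{i,a} ∂Ψ Γ = -∑_T ∫(V_T(1-φ_T) - w_T)Ψ v_T + ∑_Q ∫ (∑_{i∈Q} V_{Q\i} s_{Q,i} + w_Q)Ψ v_Q`
(`WeakT`, `WeakQ`) `= Lin3 + Lin4 - ∑_T ∫ V_T Ψ t_T` because
`∑_Q ∑_{i∈Q} V_{Q\i}s_{Q,i}v_Q = ∑_T V_T ∑_{i∉T} s_{T∪i,i} v_{T∪i}` (the pairs `(Q, i ∈ Q)`,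
`(T, i ∉ T)` correspond bijectively, `Q = insert i T`). Hence (`EnInt`)
`energy = RR + 2 Lin3 + 2 Lin4 - ∫∑Γ² + ∑_T∫V_T(Ψ² - 2Ψt_T)` and
`V_T(Ψ² - 2Ψt_T) = V_T (Ψ - t_T)² - V_T t_T² ≥ - V_T t_T²`. -/
def S_Identity : Prop :=
  ∀ (V : R3 → R3 → ℝ) (b K R r r4 W QQ : ℝ) (c : Cor) (_ : c.OK V b K R r r4 W QQ) (p : Par)
    (_ : p.OK) (_ : p.Large r4) (Ψ : (Fin p.N → R3) → ℝ) (_ : ContDiff ℝ 1 Ψ)
    (_ : HasCompactSupport Ψ),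
    p.RR c Ψ + 2 * p.Lin3 c Ψ + 2 * p.Lin4 c Ψ - p.Quad V c Ψ ≤ energy V p.L Ψ

/-- The shrunk cube of the window: it contains the support of `th p.s p.e a`. -/
def Par.Qin (p : Par) (a : Fin 3 → ℤ) : Set R3 := {c | ∀ k, |c k - p.s * a k| ≤ (1 - p.e) * p.s}

/-- **Jensen.** Jensen's inequality for the trial functions.

PROOF. `(∑ θ_a u_a)² ≤ (∑θ_a)(∑θ_a u_a²) ≤ ∑θ_au_a²` (Cauchy-Schwarz
`Finset.sum_mul_sq_le_sq_mul_sq` with `√θ_a`, `√θ_a u_a`; `∑θ_a ≤ 1`: `WinFacts`); `λ4² = λ4` is not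
needed. Last part: `th` vanishes outside the closed set `Qin a` (`WinFacts`), so does its derivative;
`Qin a ⊆ Qc a`, so at most `27` windows contribute (`Overlap`); `|∂θ_a| ≤ C/s`. -/
def S_Jensen : Prop :=
  ∃ C : ℝ, 0 < C ∧ ∀ (p : Par) (_ : p.OK) (Ψ : (Fin p.N → R3) → ℝ) (A : Finset (Fin p.N))
    (c : R3) (x : Fin p.N → R3),
    p.vt3 Ψ A c x ^ 2 ≤ ∑ a ∈ p.win, th p.s p.e a c * (p.l3 a A x * p.U a A Ψ x) ^ 2 ∧
    p.vt4 Ψ A c x ^ 2 ≤ ∑ a ∈ p.win, th p.s p.e a c * (p.l4 a A x * p.U a A Ψ x) ^ 2 ∧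
    (∀ k, (∑ a ∈ p.win, fderiv ℝ (th p.s p.e a) c (Pi.single k 1) *
      (p.l3 a A x * p.U a A Ψ x)) ^ 2
      ≤ C / p.s ^ 2 * ∑ a ∈ p.win, ind (p.Qin a) c * (p.l3 a A x * p.U a A Ψ x) ^ 2)

/-- **Counts.** Elementary bounds for the cut-off functions.

PROOF. `lam3 M n = 1` for `n ≤ M`, `(M/n)²` for `n > M ≥ 8`; antitone: clear. `(n+u)^{u-1} lam3²`,
`u ≤ 5`: for `n ≤ M`: `(n+5) ≤ 2M`; for `n > M`: `(n+u) ≤ 2n`, so `≤ 2^{u-1} n^{u-1} M⁴/n⁴ ≤ 2^{u-1}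
M^{u-1}` as `u - 1 ≤ 4`. `(n+u)^{u-1} lam3`, `u ≤ 3`: the same with `M²/n²`. `lam4 M n ≠ 0` means
`n + 1 ≤ M`, so `n + u ≤ M + u - 1 ≤ 2M` for `u ≤ 8`. -/
def S_Counts : Prop :=
  ∀ M : ℝ, 8 ≤ M →
    (∀ n, 0 ≤ lam3 M n ∧ lam3 M n ≤ 1) ∧ Antitone (lam3 M) ∧
    (∀ n, 0 ≤ lam4 M n ∧ lam4 M n ≤ 1 ∧ lam4 M n ^ 2 = lam4 M n) ∧ Antitone (lam4 M) ∧
    (∀ n u : ℕ, u ≤ 4 → ((n + u + 1 : ℕ) : ℝ) ^ u * lam3 M n ^ 2 ≤ (2 * M) ^ u) ∧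
    (∀ n u : ℕ, u ≤ 4 → ((n + u : ℕ) : ℝ) ^ u * lam3 M n ^ 2 ≤ (2 * M) ^ u) ∧
    (∀ n u : ℕ, u ≤ 2 → ((n + u + 1 : ℕ) : ℝ) ^ u * lam3 M n ≤ (2 * M) ^ u) ∧
    (∀ n u : ℕ, u ≤ 2 → ((n + u : ℕ) : ℝ) ^ u * lam3 M n ≤ (2 * M) ^ u) ∧
    (∀ n u : ℕ, u ≤ 7 → ((n + u + 1 : ℕ) : ℝ) ^ u * lam4 M n ≤ (2 * M) ^ u) ∧
    (∀ n u : ℕ, u ≤ 7 → ((n + u : ℕ) : ℝ) ^ u * lam4 M n ≤ (2 * M) ^ u) ∧
    (∀ n k : ℕ, (n : ℝ) + 1 ≤ M → k ≤ n + 1 → lam3 M k = 1)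

/-- The charge of a triple in the window `a`. -/
noncomputable def Par.W3 (p : Par) (c : Cor) (a : Fin 3 → ℤ) (T : Finset (Fin p.N))
    (x : Fin p.N → R3) : ℝ :=
  if T.card = 3 then c.w (pick 3 T x) * th p.s p.e a (Par.cmA T x) else 0

/-- The charge of a quadruple in the window `a`. -/
noncomputable def Par.W4 (p : Par) (c : Cor) (a : Fin 3 → ℤ) (Q : Finset (Fin p.N))
    (x : Fin p.N → R3) : ℝ :=
  if Q.card = 4 then c.wq (pick 4 Q x) * th p.s p.e a (Par.cmA Q x) else 0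

/-- **KerW3.** Properties of the charges of the triples.

PROOF. `BM`: `BMall`; `DependsOn`: `pick`, `cmA` only see the variables in `T`.
`Mg ν T W^a_T = ∫ w(y)θ_a(cm y)dy = (∫θ_a) rint w = s³ b` (`ClInt`; `integral_weight` in `GeoD.lean`
with the equivariant map `cm`; the integrand lives on clusters inside `Qc ⊆ Om` by `Supp`).
`Mg ν (T\i) W^a_T - bθ_a(x_i) = ∫ w(pick T x)(θ_a(cm) - θ_a(x_i)) dx_{T\i}` (`s³ gd = th`): if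
`θ_a(x_i) ≠ 0`, all the clusters with `x_i` and `rad ≤ r` are inside `Qc ⊆ Om` and
`∫ w dx_{T\i} = rint w = b` (translation invariance; the particle `i` may be put at the origin instead
of the first one by `PI`: `rint_perm`; or use `Mg ν T (h(x_i) w(pick T x)) = (∫h) b` for indicator
functions `h` by `integral_weight`); if `θ_a(x_i) = 0` there is nothing to subtract; the left side
vanishes if `x_i ∉ Qc` by `Supp`. `|θ_a(cm)-θ_a(x_i)| ≤ (C/s) r` (`WinFacts`), `|w| ≤ K/r⁶`, and the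
domain `‖x_j - x_i‖ ≤ 2r`, `j ∈ T\i`, has volume `(4r)⁶`. `TW`: `maj` by `Supp` (all particles in
`Qc`, mutual distances `≤ 2 rad ≤ 2r`), `∫ χ(c-t) dν(t) ≤ (4r)³`, `64r³ ≤ s³` by `Large`. -/
def S_KerW3 : Prop :=
  ∀ K : ℝ, ∃ C : ℝ, 0 < C ∧
    ∀ (V : R3 → R3 → ℝ) (b R r r4 W QQ : ℝ) (c : Cor) (_ : c.OK V b K R r r4 W QQ) (p : Par)
    (_ : p.OK) (_ : p.Large r4), ∀ a ∈ p.win,
    (∀ T ∈ powersetCard 3 (univ : Finset (Fin p.N)), ∀ x,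
      Mg p.nu T (p.W3 c a T) x = b * p.s ^ 3) ∧
    (∀ T ∈ powersetCard 3 (univ : Finset (Fin p.N)), ∀ i ∈ T, ∀ x,
      |Mg p.nu (T.erase i) (p.W3 c a T) x - b * (p.s ^ 3 * p.gd a (x i))|
        ≤ C * (r / p.s) * ind (Qc p.s a) (x i)) ∧
    TW p.nu (p.s ^ 3) (Qc p.s a) (p.W3 c a) (fun t => if ‖t‖ ≤ 2 * r then 1 else 0) (K / r ^ 6)
      (64 * r ^ 3)

/-- **KerW4.** Properties of the charges of the quadruples.

PROOF. As `KerW3`. Last part: `W4² ≤ (K/r4⁹)² 1_{Qc}(x_i) ∏_{j≠i} 1(‖x_j - x_i‖ ≤ 2 r4)` for one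
`i ∈ Q`; the volume is `≤ 8 s³ (4 r4)⁹`. `|W| ≤ (K/r4⁹) (4 r4)⁹`: `W s³ = Mg ν Q W4`, or directly. -/
def S_KerW4 : Prop :=
  ∀ K : ℝ, ∃ C : ℝ, 0 < C ∧
    ∀ (V : R3 → R3 → ℝ) (b R r r4 W QQ : ℝ) (c : Cor) (_ : c.OK V b K R r r4 W QQ) (p : Par)
    (_ : p.OK) (_ : p.Large r4), ∀ a ∈ p.win,
    (∀ Q, BM (p.W4 c a Q)) ∧ (∀ Q, DependsOn (p.W4 c a Q) (Q : Set (Fin p.N))) ∧
    (∀ Q, ∀ x, p.W4 c a Q x ≠ 0 → ∀ j ∈ Q, x j ∈ Qc p.s a) ∧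
    (∀ Q ∈ powersetCard 4 (univ : Finset (Fin p.N)), ∀ x,
      Mg p.nu Q (p.W4 c a Q) x = W * p.s ^ 3) ∧
    (∀ Q ∈ powersetCard 4 (univ : Finset (Fin p.N)), ∀ x,
      Mg p.nu Q (fun y => p.W4 c a Q y ^ 2) x ≤ C * p.s ^ 3 * (1 / r4) ^ 9)

/-- **Lin3.** The linear term of the three-body charge.

PROOF. `Lin3 = ∑_a ∑_T ∫ W^a_T λ U Ψ` with `W^a_T = W3 c a T`, `λ = l3 a T x`, `U = U a T Ψ x` (expand
`v3`). For fixed `a` split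
`Ψ = U + ∑_{i∈T} P_{T\i} q_iΨ + (Ψ - U - ∑_i P_{T\i} q_iΨ)`.
(i) `∑_T∫W^a_TλU² = ∑_T out_T(λU² Mg(T)(W^a_T))` (`integral_eq_out`, `Mg_mul_left`), `KerW3`: exactly
`b G3`. (ii) `OneRough` with `m = s³`, `δ = C r/s` (`KerW3`). (iii) `TwoRough` with
`χ = 1_{‖·‖≤2r}`, `ω = K/r⁶`, `γ = 64r³` (`KerW3`). Constants `c1 = c2 = 4M²`, resp. `c2 = 4M²`,
`c3 = 8M³`, `c4 = 16M⁴` (`Counts`). Sum over `a`. -/
def S_Lin3 : Prop :=
  ∀ K : ℝ, ∃ C : ℝ, 0 < C ∧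
    ∀ (V : R3 → R3 → ℝ) (b R r r4 W QQ : ℝ) (c : Cor) (_ : c.OK V b K R r r4 W QQ) (p : Par)
    (_ : p.OK) (_ : p.Large r4) (Ψ : (Fin p.N → R3) → ℝ) (_ : BM Ψ) (τ₁ τ₂ : ℝ) (_ : 0 < τ₁)
    (_ : 0 < τ₂),
    |p.Lin3 c Ψ - b * p.G3 Ψ| ≤
      C * (r / p.s) * (p.M / p.s ^ 3) ^ 2 * (τ₁ * p.D Ψ + τ₁⁻¹ * p.Nn Ψ) + τ₂ * p.D Ψ
      + C * τ₂⁻¹ * ((1 / r) ^ 3 * (p.M / p.s ^ 3) ^ 3 * (p.M * p.D Ψ + p.Nn Ψ)
        + (1 / r) ^ 6 * (p.M / p.s ^ 3) ^ 2 * p.Nn Ψ)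

/-- **Lin4.** The linear term of the four-body charge.

PROOF. `Lin4 = ∑_a ∑_Q ∫ W^a_Q λ U Ψ`, `W^a_Q = W4 c a Q`. `Ψ = U + (Ψ - U)`. The first part gives
exactly `W · G4` (`KerW4`); the second is estimated by `RoughQ` with `ω = C s³ (1/r4)⁹`,
`c3 = c4 = 8M³` (`Counts`). -/
def S_Lin4 : Prop :=
  ∀ K : ℝ, ∃ C : ℝ, 0 < C ∧
    ∀ (V : R3 → R3 → ℝ) (b R r r4 W QQ : ℝ) (c : Cor) (_ : c.OK V b K R r r4 W QQ) (p : Par)
    (_ : p.OK) (_ : p.Large r4) (Ψ : (Fin p.N → R3) → ℝ) (_ : BM Ψ) (τ : ℝ) (_ : 0 < τ),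
    |p.Lin4 c Ψ - W * p.G4 Ψ| ≤
      C * (τ * p.M ^ 3 * p.D Ψ + τ⁻¹ * (1 / r4) ^ 9 * (p.M / p.s ^ 3) ^ 3 * p.Nn Ψ)

end Pool.Agent.Lib.MP_5db8e2_mp
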