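import Pool.Agent.Lib.MP_5db8e2_mp.GeoA
import Pool.Agent.Lib.MP_5db8e2_mp.LB.Spec5

/-!
# Lower bound, part 5: the three-body scattering equation in the `N`-particle space
-/

set_option autoImplicit false

open MeasureTheory Function Finset
open scoped Classical

namespace Pool.Agent.Lib.MP_5db8e2_mp

namespace WeakAux

/-- comparison of two integrals by integration over the variables of a cluster -/
theorem reduce (hCl : S_ClInt) (p : Par) (k : ℕ) (A : Finset (Fin p.N)) (hA : A.card = k)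
    (G1 G2 : (Fin p.N → R3) → ℝ) (h1 : BM G1) (h2 : BM G2)
    (F1 F2 : (Fin p.N → R3) → (Fin k → R3) → ℝ)
    (e1 : ∀ x y, G1 (put k A y x) = F1 x y) (e2 : ∀ x y, G2 (put k A y x) = F2 x y)
    (s1 : ∀ x y, F1 x y ≠ 0 → ∀ m, y m ∈ Om p.L) (s2 : ∀ x y, F2 x y ≠ 0 → ∀ m, y m ∈ Om p.L)
    (he : ∀ x, ∫ y, F1 x y = ∫ y, F2 x y) :
    ∫ x, G1 x ∂pin p.nu p.N = ∫ x, G2 x ∂pin p.nu p.N := by
  have hM : Mg p.nu A G1 = Mg p.nu A G2 := by
    ext1 x
    rw [hCl p k A hA x G1 (F1 x) (e1 x) (s1 x), hCl p k A hA x G2 (F2 x) (e2 x) (s2 x), he x]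
  have i1 := integral_eq_out (ν := p.nu) h1 0 A
  have i2 := integral_eq_out (ν := p.nu) h2 0 A
  rw [pin, i1, i2, hM]

/-- `cnt Z Aᶜ` does not see the particles of `A` -/
theorem cnt_put (hPut : S_Put) {N k : ℕ} {A : Finset (Fin N)} (hA : A.card = k) (Z : Set R3)
    (y : Fin k → R3) (x : Fin N → R3) : cnt Z Aᶜ (put k A y x) = cnt Z Aᶜ x := by
  refine cnt_dep Z Aᶜ fun i hi => ?_
  have hi' : i ∉ A := by simpa using hi
  exact (hPut k A hA y x).2.2.1 i hi'

theorem U_put (hPut : S_Put) (p : Par) {k : ℕ} {A : Finset (Fin p.N)} (hA : A.card = k)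
    (a : Fin 3 → ℤ) (Ψ : (Fin p.N → R3) → ℝ) (y : Fin k → R3) (x : Fin p.N → R3) :
    p.U a A Ψ (put k A y x) = p.U a A Ψ x := by
  refine av_dep (ν := p.nu) (g := p.gd a) (A := A) Ψ fun i hi => ?_
  have hi' : i ∉ A := by simpa using hi
  exact (hPut k A hA y x).2.2.1 i hi'

theorem v3_put (hPut : S_Put) (p : Par) {A : Finset (Fin p.N)} (hA : A.card = 3)
    (Ψ : (Fin p.N → R3) → ℝ) (y : Fin 3 → R3) (x : Fin p.N → R3) :
    p.v3 Ψ A (put 3 A y x) = p.vt3 Ψ A (cm y) x := by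
  unfold Par.v3
  rw [(hPut 3 A hA y x).2.2.2.1]
  unfold Par.vt3 Par.l3
  simp only [cnt_put hPut hA, U_put hPut p hA]

theorem v4_put (hPut : S_Put) (p : Par) {A : Finset (Fin p.N)} (hA : A.card = 4)
    (Ψ : (Fin p.N → R3) → ℝ) (y : Fin 4 → R3) (x : Fin p.N → R3) :
    p.v4 Ψ A (put 4 A y x) = p.vt4 Ψ A (cm y) x := by
  unfold Par.v4
  rw [(hPut 4 A hA y x).2.2.2.1]
  unfold Par.vt4 Par.l4
  simp only [cnt_put hPut hA, U_put hPut p hA]

/-- the support: all particles of the cluster are in the big cube -/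
theorem supp_Om (hPut : S_Put) (hS : S_Supp) (hWd : S_WdWin) (p : Par) (hp : p.OK) {r4 : ℝ}
    (hr4 : 0 ≤ r4) (hL : p.Large r4) {k : ℕ} (hk : 1 ≤ k) {A : Finset (Fin p.N)} (hA : A.card = k)
    (x : Fin p.N → R3) (y : Fin k → R3) {a : Fin 3 → ℤ} (ha : a ∈ p.win)
    (hth : th p.s p.e a (cm y) ≠ 0) (hrad : rad y ≤ r4) : ∀ m, y m ∈ Om p.L := by
  intro m
  obtain ⟨q1, _, _, q4, q5, _⟩ := hPut k A hA y x
  have h1 := (hS p hp r4 hr4 hL a k A hA hk (put k A y x) (by rw [q4]; exact hth)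
    (by rw [q1]; exact hrad)).2.1
  have hm : A.orderEmbOfFin hA m ∈ A := Finset.orderEmbOfFin_mem A hA m
  have h2 := h1 _ hm (A.orderEmbOfFin hA m) (by simp; positivity)
  rw [q5 m] at h2
  exact (hWd p hp a ha).2 h2

theorem vt3_ne (p : Par) {Ψ : (Fin p.N → R3) → ℝ} {A : Finset (Fin p.N)} {c : R3}
    {x : Fin p.N → R3} (h : p.vt3 Ψ A c x ≠ 0) : ∃ a ∈ p.win, th p.s p.e a c ≠ 0 := by
  by_contra hcon
  push Not at hcon
  apply h
  unfold Par.vt3
  exact Finset.sum_eq_zero fun a ha => by rw [hcon a ha, zero_mul]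

theorem vt4_ne (p : Par) {Ψ : (Fin p.N → R3) → ℝ} {A : Finset (Fin p.N)} {c : R3}
    {x : Fin p.N → R3} (h : p.vt4 Ψ A c x ≠ 0) : ∃ a ∈ p.win, th p.s p.e a c ≠ 0 := by
  by_contra hcon
  push Not at hcon
  apply h
  unfold Par.vt4
  exact Finset.sum_eq_zero fun a ha => by rw [hcon a ha, zero_mul]

/-- a `C¹` function with compact support is bounded and measurable -/
theorem bm_of_compact {N : ℕ} {Ψ : (Fin N → R3) → ℝ} (h : ContDiff ℝ 1 Ψ)
    (hc : HasCompactSupport Ψ) : BM Ψ := by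
  obtain ⟨C, hC⟩ := hc.exists_bound_of_continuous h.continuous
  exact ⟨h.continuous.measurable, C, fun x => by simpa using hC x⟩

theorem pd_zero {k : ℕ} {φ : (Fin k → R3) → ℝ} {r : ℝ} (hφ : ∀ x, φ x ≠ 0 → rad x ≤ r)
    (x : Fin k → R3) (m : Fin k) (a : Fin 3) (h : pd φ m a x ≠ 0) : rad x ≤ r := by
  by_contra hcon
  push Not at hcon
  apply h
  have hev : φ =ᶠ[nhds x] fun _ => (0 : ℝ) := by
    have : {z : Fin k → R3 | r < rad z} ∈ nhds x :=
      (isOpen_lt continuous_const continuous_rad).mem_nhds hcon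
    filter_upwards [this] with z hz
    by_contra h0
    exact absurd (hφ z h0) (not_le.2 hz)
  unfold pd
  rw [hev.fderiv_eq]
  simp

/-- the sum over the particles of the gradient fields -/
theorem sum_gT {N k : ℕ} (f : Fin k → Fin 3 → ℝ) {A : Finset (Fin N)} (hA : A.card = k)
    (D : Fin N → Fin 3 → ℝ) :
    ∑ i, ∑ a, (∑ m, if isEl k A m i then f m a else 0) * D i a
      = ∑ m, ∑ a, f m a * D (A.orderEmbOfFin hA m) a := by
  have h1 : ∀ i a, (∑ m, if isEl k A m i then f m a else 0) * D i a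
      = ∑ m, if A.orderEmbOfFin hA m = i then f m a * D i a else 0 := by
    intro i a
    rw [Finset.sum_mul]
    refine Finset.sum_congr rfl fun m _ => ?_
    have : isEl k A m i ↔ A.orderEmbOfFin hA m = i :=
      ⟨fun ⟨h, e⟩ => e, fun e => ⟨hA, e⟩⟩
    by_cases h : A.orderEmbOfFin hA m = i
    · rw [if_pos (this.2 h), if_pos h]
    · rw [if_neg (fun h' => h (this.1 h')), if_neg h, zero_mul]
  simp only [h1]
  calc ∑ i, ∑ a, ∑ m, (if A.orderEmbOfFin hA m = i then f m a * D i a else 0)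
      = ∑ i, ∑ m, ∑ a, (if A.orderEmbOfFin hA m = i then f m a * D i a else 0) :=
        Finset.sum_congr rfl fun i _ => Finset.sum_comm
    _ = ∑ m, ∑ i, ∑ a, (if A.orderEmbOfFin hA m = i then f m a * D i a else 0) :=
        Finset.sum_comm
    _ = ∑ m, ∑ a, ∑ i, (if A.orderEmbOfFin hA m = i then f m a * D i a else 0) :=
        Finset.sum_congr rfl fun m _ => Finset.sum_comm
    _ = _ := by
        refine Finset.sum_congr rfl fun m _ => Finset.sum_congr rfl fun a _ => ?_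
        rw [Finset.sum_ite_eq]
        simp

end WeakAux

open WeakAux in
theorem WeakT (hPut : S_Put) (hCl : S_ClInt) (hS : S_Supp) (hWd : S_WdWin) (hBM : S_BMall) :
    S_WeakT := by
  intro V b K R r r4 W QQ c hc p hp hL Ψ hΨ hΨc T hT
  have hT3 : T.card = 3 := (Finset.mem_powersetCard.1 hT).2
  have hΨb : BM Ψ := bm_of_compact hΨ hΨc
  obtain ⟨b1, b2, b3, b4', b5, b6, b7, b8, b9, b10, b11, b12, b13, b14, b15, b16⟩ :=
    hBM V b K R r r4 W QQ c hc p hp Ψ hΨb T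
  have hr4 : 0 ≤ r4 := by linarith [hc.hr, hc.hr4]
  refine reduce hCl p 3 T hT3 _ _ ?_ ?_
    (fun x y => p.vt3 Ψ T (cm y) x * gg c.φ (fun y => Ψ (put 3 T y x)) y)
    (fun x y => p.vt3 Ψ T (cm y) x * ((V3 V y * (1 - c.φ y) - c.w y) * Ψ (put 3 T y x)))
    ?_ ?_ ?_ ?_ ?_
  · exact BM.sum _ fun i _ => BM.sum _ fun a _ => (b1 i a).mul ((b16 hΨ hΨc i a).mul b14)
  · exact ((b7.mul ((BM.const 1).sub b4')).sub b5).mul (hΨb.mul b14)
  · intro x y
    obtain ⟨q1, _, _, q4, q5, _, q7, _⟩ := hPut 3 T hT3 y x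
    rw [v3_put hPut p hT3]
    unfold gT
    rw [q1]
    rw [sum_gT (fun m a => pd c.φ m a y) hT3
      (fun i a => pd Ψ i a (put 3 T y x) * p.vt3 Ψ T (cm y) x)]
    unfold gg
    rw [Finset.mul_sum]
    refine Finset.sum_congr rfl fun m _ => ?_
    rw [Finset.mul_sum]
    refine Finset.sum_congr rfl fun a _ => ?_
    rw [(q7 Ψ hΨ).2 m a]
    ring
  · intro x y
    obtain ⟨q1, _, _, q4, q5, _, q7, _⟩ := hPut 3 T hT3 y x
    rw [v3_put hPut p hT3]
    unfold VT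
    rw [q1]
    ring
  · intro x y hne
    have h1 : p.vt3 Ψ T (cm y) x ≠ 0 := left_ne_zero_of_mul hne
    have h2 : gg c.φ (fun y => Ψ (put 3 T y x)) y ≠ 0 := right_ne_zero_of_mul hne
    obtain ⟨a, ha, hth⟩ := vt3_ne p h1
    have hrad : rad y ≤ r := by
      unfold gg at h2
      obtain ⟨m, _, hm⟩ := Finset.exists_ne_zero_of_sum_ne_zero h2
      obtain ⟨a', _, ha'⟩ := Finset.exists_ne_zero_of_sum_ne_zero hm
      exact pd_zero hc.d3.supp y m a' (left_ne_zero_of_mul ha')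
    exact supp_Om hPut hS hWd p hp hr4 hL (by norm_num) hT3 x y ha hth (hrad.trans hc.hr4)
  · intro x y hne
    have h1 : p.vt3 Ψ T (cm y) x ≠ 0 := left_ne_zero_of_mul hne
    have h2 := left_ne_zero_of_mul (right_ne_zero_of_mul hne)
    obtain ⟨a, ha, hth⟩ := vt3_ne p h1
    have hrad : rad y ≤ r4 := by
      by_cases hw : c.w y = 0
      · have h3 : V3 V y ≠ 0 := by
          intro h0
          apply h2
          rw [h0, hw]; ring
        exact (hc.V_supp y h3).trans hc.hR4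
      · exact (hc.d3.w_supp y hw).trans hc.hr4
    exact supp_Om hPut hS hWd p hp hr4 hL (by norm_num) hT3 x y ha hth hrad
  · intro x
    obtain ⟨_, _, _, _, _, _, q7, q8⟩ := hPut 3 T hT3 (fun _ => 0) x
    have hv : BM (fun c : R3 => p.vt3 Ψ T c x) :=
      b12.comp (φ := fun c : R3 => (c, x)) (by fun_prop)
    have hz := (q7 Ψ hΨ).1
    have hzc := q8 Ψ hΨc
    exact hc.d3.weak (fun c => p.vt3 Ψ T c x) (fun y => Ψ (put 3 T y x)) hv.1 hv.2 hz hzc

end Pool.Agent.Lib.MP_5db8e2_mp
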