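import Pool.Agent.Lib.MP_5db8e2_mp.LB.Spec8
import Pool.Agent.Lib.MP_5db8e2_mp.LB.WeakT

/-!
# Lower bound, part 8: the crude bound for the boundary strip (`S_Crude`)
-/

set_option autoImplicit false

open MeasureTheory Function Finset
open scoped Classical

namespace Pool.Agent.Lib.MP_5db8e2_mp

namespace CrudeAux

/-! ## The cells -/

/-- Clamped index on the line. -/
def kp (n : ℕ) (z : ℤ) : ℤ := max 0 (min ((n : ℤ) - 1) z)

/-- The index of the cell of a point. -/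
noncomputable def kap (n : ℕ) (l L : ℝ) (c : R3) : Fin 3 → ℤ :=
  fun k => kp n ⌊(c k + L / 2) / l⌋

/-- The cells. -/
def Cell (n : ℕ) (l L : ℝ) (j : Fin 3 → ℤ) : Set R3 := {c | kap n l L c = j}

/-- The indices of the cells. -/
noncomputable def J0 (n : ℕ) : Finset (Fin 3 → ℤ) :=
  Fintype.piFinset (fun _ => Finset.Icc 0 ((n : ℤ) - 1))

/-- The corner of the cell. -/
noncomputable def cor (l L : ℝ) (j : Fin 3 → ℤ) : R3 := fun k => -(L / 2) + l * j k

theorem kp_mem {n : ℕ} (hn : 1 ≤ n) (z : ℤ) : kp n z ∈ Finset.Icc (0 : ℤ) ((n : ℤ) - 1) := by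
  unfold kp
  simp only [Finset.mem_Icc]
  omega

theorem kap_mem {n : ℕ} (hn : 1 ≤ n) (l L : ℝ) (c : R3) : kap n l L c ∈ J0 n := by
  simp only [J0, Fintype.mem_piFinset]
  intro k
  exact kp_mem hn _

theorem Cell_meas (n : ℕ) (l L : ℝ) (j : Fin 3 → ℤ) : MeasurableSet (Cell n l L j) := by
  have h : Measurable (kap n l L) := by
    rw [measurable_pi_iff]
    intro k
    have h1 : Measurable (fun c : R3 => ⌊(c k + L / 2) / l⌋) :=
      Int.measurable_floor.comp (((measurable_pi_apply k).add_const _).div_const _)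
    exact (measurable_of_countable (kp n)).comp h1
  exact h (measurableSet_singleton j)

theorem Cell_sub {n : ℕ} (hn : 1 ≤ n) {l L : ℝ} (hl : 0 < l) (hL : n * l = L) {j : Fin 3 → ℤ}
    {c : R3} (hc : c ∈ Cell n l L j) (hO : c ∈ Om L) : c ∈ cube (cor l L j) l := by
  intro k
  have h1 : kp n ⌊(c k + L / 2) / l⌋ = j k := congrFun hc k
  have h2 := hO k
  rw [abs_le] at h2
  have h3 : 0 ≤ (c k + L / 2) / l := div_nonneg (by linarith) hl.le
  have h4 : (c k + L / 2) / l ≤ n := by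
    rw [div_le_iff₀ hl, hL]; linarith
  set z := (c k + L / 2) / l with hz
  have hzl : c k = -(L / 2) + l * z := by
    rw [hz]; field_simp; ring
  have h5 : 0 ≤ ⌊z⌋ := Int.floor_nonneg.2 h3
  have h6 := Int.floor_le z
  have h7 := Int.lt_floor_add_one z
  have h8 : ((j k : ℤ) : ℝ) ≤ z ∧ z ≤ j k + 1 := by
    rcases le_or_gt ⌊z⌋ ((n : ℤ) - 1) with h | h
    · have : j k = ⌊z⌋ := by rw [← h1]; unfold kp; omega
      rw [this]
      exact ⟨h6, h7.le⟩
    · have h9 : ⌊z⌋ = n := by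
        have : ⌊z⌋ ≤ n := by
          have : (⌊z⌋ : ℝ) ≤ n := h6.trans h4
          exact_mod_cast this
        omega
      have : j k = (n : ℤ) - 1 := by rw [← h1, h9]; unfold kp; omega
      rw [this]
      push_cast
      rw [h9] at h6
      push_cast at h6
      constructor <;> linarith
  show cor l L j k ≤ c k ∧ c k ≤ cor l L j k + l
  rw [hzl, cor]
  constructor
  · nlinarith [h8.1]
  · nlinarith [h8.2]

theorem sub_Cell {n : ℕ} {l L : ℝ} (hl : 0 < l) (hL : n * l = L) {j : Fin 3 → ℤ}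
    (hj : j ∈ J0 n) {c : R3} (hc : ∀ k, cor l L j k < c k ∧ c k < cor l L j k + l) :
    c ∈ Cell n l L j ∩ Om L := by
  have hjk : ∀ k, 0 ≤ j k ∧ j k ≤ (n : ℤ) - 1 := by
    intro k
    have := (Fintype.mem_piFinset.1 hj) k
    simpa using this
  constructor
  · show kap n l L c = j
    ext k
    obtain ⟨h1, h2⟩ := hc k
    obtain ⟨h3, h4⟩ := hjk k
    unfold cor at h1 h2
    have : ⌊(c k + L / 2) / l⌋ = j k := by
      rw [Int.floor_eq_iff]
      constructor
      · rw [le_div_iff₀ hl]; linarith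
      · rw [div_lt_iff₀ hl]; linarith
    unfold kap kp
    rw [this]
    omega
  · intro k
    obtain ⟨h1, h2⟩ := hc k
    obtain ⟨h3, h4⟩ := hjk k
    unfold cor at h1 h2
    have h3' : (0 : ℝ) ≤ j k := by exact_mod_cast h3
    have h4' : (j k : ℝ) ≤ n - 1 := by exact_mod_cast h4
    rw [abs_le]
    constructor
    · nlinarith
    · nlinarith

theorem cube_eq (q : R3) (l : ℝ) : cube q l = Set.Icc q (fun k => q k + l) := by
  ext c
  simp only [cube, Set.mem_ofPred_eq, Set.mem_Icc, Pi.le_def, forall_and]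

theorem Cell_ae {n : ℕ} (hn : 1 ≤ n) {l L : ℝ} (hl : 0 < l) (hL : n * l = L) {j : Fin 3 → ℤ}
    (hj : j ∈ J0 n) :
    (Cell n l L j ∩ Om L : Set R3) =ᵐ[volume] cube (cor l L j) l := by
  have h1 : (Set.univ.pi fun k => Set.Ioo (cor l L j k) (cor l L j k + l) : Set R3)
      =ᵐ[volume] cube (cor l L j) l := by
    rw [cube_eq]
    exact Measure.univ_pi_Ioo_ae_eq_Icc
  have h2 : (Set.univ.pi fun k => Set.Ioo (cor l L j k) (cor l L j k + l) : Set R3)
      ⊆ Cell n l L j ∩ Om L := by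
    intro c hc
    exact sub_Cell hl hL hj fun k => hc k (Set.mem_univ k)
  have h3 : (Cell n l L j ∩ Om L : Set R3) ⊆ cube (cor l L j) l := fun c hc =>
    Cell_sub hn hl hL hc.1 hc.2
  apply Filter.EventuallyLE.antisymm
  · exact h3.eventuallyLE
  · exact h1.symm.le.trans h2.eventuallyLE

/-! ## Counting -/

variable {N : ℕ}

/-- The weights. -/
noncomputable def wt (Z : Set R3) (T : Finset (Fin N)) (x : Fin N → R3) : ℝ :=
  1 / ((cnt Z Tᶜ x + 2).choose 2 : ℝ) * ∏ i ∈ T, ind Z (x i)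

/-- The particles in `Z`. -/
noncomputable def SS (Z : Set R3) (x : Fin N → R3) : Finset (Fin N) :=
  univ.filter (fun m => x m ∈ Z)

theorem prod_ind (Z : Set R3) (T : Finset (Fin N)) (x : Fin N → R3) :
    ∏ i ∈ T, ind Z (x i) = if T ⊆ SS Z x then 1 else 0 := by
  split_ifs with h
  · apply Finset.prod_eq_one
    intro i hi
    have := h hi
    simp only [SS, mem_filter, mem_univ, true_and] at this
    exact ind_of_mem this
  · rw [Finset.not_subset] at h
    obtain ⟨i, hi, hi2⟩ := h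
    simp only [SS, mem_filter, mem_univ, true_and] at hi2
    exact Finset.prod_eq_zero hi (ind_of_notMem hi2)

theorem wt_nonneg (Z : Set R3) (T : Finset (Fin N)) (x : Fin N → R3) : 0 ≤ wt Z T x := by
  unfold wt
  exact mul_nonneg (by positivity) (Finset.prod_nonneg fun i _ => ind_nonneg _ _)

theorem wt_eq (Z : Set R3) {T : Finset (Fin N)} (hT : T.card = 3) (x : Fin N → R3) :
    wt Z T x = if T ⊆ SS Z x then 1 / (((SS Z x).card - 1).choose 2 : ℝ) else 0 := by
  unfold wt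
  rw [prod_ind]
  split_ifs with h
  · have h1 : cnt Z Tᶜ x = (SS Z x).card - 3 := by
      rw [← hT, ← Finset.card_sdiff_of_subset h]
      unfold cnt SS
      congr 1
      ext m
      simp only [mem_filter, mem_compl, mem_sdiff, mem_univ, true_and]
      tauto
    have h2 : 3 ≤ (SS Z x).card := hT ▸ Finset.card_le_card h
    rw [h1, mul_one]
    congr 3
    omega
  · simp

theorem wt_le (Z : Set R3) {T : Finset (Fin N)} (hT : T.card = 3) (x : Fin N → R3) {i : Fin N}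
    (hi : i ∈ T) : wt Z T x ≤ ind Z (x i) := by
  rw [wt_eq Z hT]
  split_ifs with h
  · have h1 := h hi
    simp only [SS, mem_filter, mem_univ, true_and] at h1
    rw [ind_of_mem h1]
    have h2 : 3 ≤ (SS Z x).card := hT ▸ Finset.card_le_card h
    have h3 : 0 < ((SS Z x).card - 1).choose 2 := Nat.choose_pos (by omega)
    rw [div_le_one (by exact_mod_cast h3)]
    exact_mod_cast h3
  · exact ind_nonneg _ _

theorem sum_wt_mem (Z : Set R3) (x : Fin N → R3) (i : Fin N) :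
    ∑ T ∈ (powersetCard 3 (univ : Finset (Fin N))).filter (fun T => i ∈ T), wt Z T x
      ≤ ind Z (x i) := by
  by_cases hi : x i ∈ Z
  · rw [ind_of_mem hi]
    have hiS : i ∈ SS Z x := by simp [SS, hi]
    have e1 : ∑ T ∈ (powersetCard 3 (univ : Finset (Fin N))).filter (fun T => i ∈ T), wt Z T x
        = ∑ T ∈ ((powersetCard 3 (univ : Finset (Fin N))).filter (fun T => i ∈ T)).filter
            (fun T => T ⊆ SS Z x), 1 / (((SS Z x).card - 1).choose 2 : ℝ) := by
      rw [Finset.sum_filter _ (s := (powersetCard 3 (univ : Finset (Fin N))).filter _)]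
      refine Finset.sum_congr rfl fun T hT => ?_
      rw [wt_eq Z (mem_powersetCard.1 (mem_filter.1 hT).1).2]
    rw [e1, Finset.sum_const, nsmul_eq_mul]
    have e2 : (((powersetCard 3 (univ : Finset (Fin N))).filter (fun T => i ∈ T)).filter
            (fun T => T ⊆ SS Z x)).card ≤ ((SS Z x).card - 1).choose 2 := by
      have hsub : (((powersetCard 3 (univ : Finset (Fin N))).filter (fun T => i ∈ T)).filter
            (fun T => T ⊆ SS Z x)) ⊆
            (powersetCard 2 ((SS Z x).erase i)).image (insert i) := by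
        intro T hT
        simp only [mem_filter, mem_powersetCard, subset_univ, true_and] at hT
        obtain ⟨⟨h1, h2⟩, h3⟩ := hT
        rw [mem_image]
        refine ⟨T.erase i, ?_, Finset.insert_erase h2⟩
        rw [mem_powersetCard]
        refine ⟨Finset.erase_subset_erase i h3, ?_⟩
        rw [Finset.card_erase_of_mem h2, h1]
      refine (Finset.card_le_card hsub).trans (Finset.card_image_le.trans ?_)
      rw [card_powersetCard, Finset.card_erase_of_mem hiS]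
    have e3 : ((((powersetCard 3 (univ : Finset (Fin N))).filter (fun T => i ∈ T)).filter
            (fun T => T ⊆ SS Z x)).card : ℝ) ≤ (((SS Z x).card - 1).choose 2 : ℝ) := by
      exact_mod_cast e2
    rw [mul_one_div]
    exact div_le_one_of_le₀ e3 (by positivity)
  · rw [ind_of_notMem hi]
    apply le_of_eq
    apply Finset.sum_eq_zero
    intro T hT
    have h1 := (mem_filter.1 hT)
    rw [wt_eq Z (mem_powersetCard.1 h1.1).2, if_neg]
    intro h
    have := h h1.2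
    simp only [SS, mem_filter, mem_univ, true_and] at this
    exact hi this

theorem sum_wt_ge (Z : Set R3) (x : Fin N → R3) :
    ((cnt Z univ x : ℝ) - 2) / 3
      ≤ ∑ T ∈ powersetCard 3 (univ : Finset (Fin N)), wt Z T x := by
  have h0 : 0 ≤ ∑ T ∈ powersetCard 3 (univ : Finset (Fin N)), wt Z T x :=
    Finset.sum_nonneg fun T _ => wt_nonneg _ _ _
  have hc : cnt Z univ x = (SS Z x).card := rfl
  rcases le_or_gt (cnt Z univ x) 2 with h | h
  · have : (cnt Z univ x : ℝ) ≤ 2 := by exact_mod_cast h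
    linarith
  · have e1 : ∑ T ∈ powersetCard 3 (univ : Finset (Fin N)), wt Z T x
        = ∑ T ∈ powersetCard 3 (SS Z x), 1 / (((SS Z x).card - 1).choose 2 : ℝ) := by
      have : powersetCard 3 (SS Z x)
          = (powersetCard 3 (univ : Finset (Fin N))).filter (fun T => T ⊆ SS Z x) := by
        ext T
        simp only [mem_filter, mem_powersetCard, subset_univ, true_and]
        tauto
      rw [this, Finset.sum_filter]
      refine Finset.sum_congr rfl fun T hT => ?_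
      rw [wt_eq Z (mem_powersetCard.1 hT).2]
    rw [e1, Finset.sum_const, nsmul_eq_mul, card_powersetCard, hc]
    rw [hc] at h
    obtain ⟨m, hm⟩ : ∃ m, (SS Z x).card = m + 1 := ⟨(SS Z x).card - 1, by omega⟩
    rw [hm]
    simp only [Nat.add_sub_cancel]
    have h3 : 0 < m.choose 2 := Nat.choose_pos (by omega)
    have h4 : (0 : ℝ) < m.choose 2 := by exact_mod_cast h3
    have h5 : ((m + 1 : ℕ) : ℝ) * m.choose 2 = (m + 1).choose 3 * 3 := by
      have := Nat.add_one_mul_choose_eq m 2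
      exact_mod_cast this
    rw [mul_one_div, div_le_div_iff₀ (by norm_num) h4, ← h5]
    push_cast
    nlinarith


/-! ## One cell, one triple -/

theorem BM_of_cc {X : Type*} [TopologicalSpace X] [MeasurableSpace X] [BorelSpace X] {f : X → ℝ}
    (hf : Continuous f) (hc : HasCompactSupport f) : BM f := by
  refine ⟨hf.measurable, ?_⟩
  obtain ⟨C, hC⟩ := hf.bounded_above_of_compact_support hc
  exact ⟨C, fun y => by simpa using hC y⟩

theorem BM_pd {Ψ : (Fin N → R3) → ℝ} (h1 : ContDiff ℝ 1 Ψ) (h2 : HasCompactSupport Ψ) (i : Fin N)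
    (a : Fin 3) : BM (pd Ψ i a) := by
  have hc : Continuous (fun x => fderiv ℝ Ψ x) := h1.continuous_fderiv (by norm_num)
  have hs : HasCompactSupport (fun x => fderiv ℝ Ψ x) := h2.fderiv ℝ
  apply BM_of_cc
  · exact hc.clm_apply continuous_const
  · exact hs.comp_left (g := fun L : (Fin N → R3) →L[ℝ] ℝ => L (Pi.single i (Pi.single a 1)))
      (by simp)

theorem BM_VT {V : R3 → R3 → ℝ} (hV : Pot V) (T : Finset (Fin N)) :
    BM (VT V T : (Fin N → R3) → ℝ) := by
  obtain ⟨C, hC⟩ := hV.bdd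
  have hp : Measurable (fun x : Fin N → R3 => pick 3 T x) := by
    rw [measurable_pi_iff]
    intro m
    unfold pick
    by_cases h : T.card = 3
    · simp only [h, dif_pos]
      exact measurable_pi_apply _
    · simp only [h, dif_neg, not_false_eq_true]
      exact measurable_const
  have hm : ∀ m : Fin 3, Measurable (fun x : Fin N → R3 => pick 3 T x m) := fun m =>
    (measurable_pi_apply m).comp hp
  refine ⟨?_, C, fun x => ?_⟩
  · show Measurable (fun x : Fin N → R3 => V (pick 3 T x 0 - pick 3 T x 1)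
      (pick 3 T x 0 - pick 3 T x 2))
    exact hV.meas.comp (((hm 0).sub (hm 1)).prodMk ((hm 0).sub (hm 2)))
  · show |V _ _| ≤ C
    rw [abs_of_nonneg (hV.nonneg _ _)]
    exact hC _ _

theorem sum_emb {T : Finset (Fin N)} {k : ℕ} (hT : T.card = k) (f : Fin N → ℝ) :
    ∑ i ∈ T, f i = ∑ m : Fin k, f (T.orderEmbOfFin hT m) := by
  conv_lhs => rw [← Finset.map_orderEmbOfFin_univ T hT]
  rw [Finset.sum_map]
  rfl

theorem prod_emb {T : Finset (Fin N)} {k : ℕ} (hT : T.card = k) (f : Fin N → ℝ) :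
    ∏ i ∈ T, f i = ∏ m : Fin k, f (T.orderEmbOfFin hT m) := by
  conv_lhs => rw [← Finset.map_orderEmbOfFin_univ T hT]
  rw [Finset.prod_map]
  rfl

/-- Integral over the variables of the triple, localized to `Q`. -/
theorem Mg_loc (hPut : S_Put) (L : ℝ) {Q cu : Set R3} (hQ : MeasurableSet Q)
    (hae : (Q ∩ Om L : Set R3) =ᵐ[volume] cu) [IsFiniteMeasure (volume.restrict (Om L))]
    {T : Finset (Fin N)} (hT : T.card = 3)
    (F : (Fin N → R3) → ℝ) (x : Fin N → R3) :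
    Mg (volume.restrict (Om L)) T (fun x => (∏ i ∈ T, ind Q (x i)) * F x) x
      = ∫ y in Set.pi Set.univ (fun _ : Fin 3 => cu), F (put 3 T y x) := by
  rw [(hPut 3 T hT 0 x).2.2.2.2.2.1]
  have e1 : (Measure.pi fun _ : Fin 3 => (volume : Measure R3).restrict (Om L)) =
      (volume : Measure (Fin 3 → R3)).restrict (Set.pi Set.univ fun _ => Om L) := by
    rw [show (volume : Measure (Fin 3 → R3)) = Measure.pi (fun _ => volume) from rfl,
      Measure.restrict_pi_pi]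
  have e2 : ∀ y : Fin 3 → R3, (∏ i ∈ T, ind Q (put 3 T y x i)) * F (put 3 T y x)
      = (Set.pi Set.univ (fun _ : Fin 3 => Q)).indicator (fun y => F (put 3 T y x)) y := by
    intro y
    rw [prod_emb hT]
    have e3 : ∀ m, put 3 T y x (T.orderEmbOfFin hT m) = y m :=
      (hPut 3 T hT y x).2.2.2.2.1
    simp only [e3]
    by_cases hy : y ∈ Set.pi Set.univ (fun _ : Fin 3 => Q)
    · rw [Set.indicator_of_mem hy, Finset.prod_eq_one, one_mul]
      intro m _
      exact ind_of_mem (hy m (Set.mem_univ m))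
    · rw [Set.indicator_of_notMem hy]
      have : ∃ m, y m ∉ Q := by
        by_contra hcon
        push Not at hcon
        exact hy fun m _ => hcon m
      obtain ⟨m, hm⟩ := this
      rw [Finset.prod_eq_zero (Finset.mem_univ m) (ind_of_notMem hm), zero_mul]
  rw [e1]
  simp only [e2]
  rw [setIntegral_indicator (MeasurableSet.univ_pi fun _ => hQ)]
  apply setIntegral_congr_set
  rw [← Set.pi_inter_distrib]
  rw [show (volume : Measure (Fin 3 → R3)) = Measure.pi (fun _ => volume) from rfl]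
  apply Measure.ae_eq_set_pi
  intro m _
  rw [Set.inter_comm]
  exact hae

theorem core {V : R3 → R3 → ℝ} (hV : Pot V) (hPut : S_Put) (p : Par) {c : ℝ} {Q cu : Set R3}
    (hQ : MeasurableSet Q) (hae : (Q ∩ Om p.L : Set R3) =ᵐ[volume] cu)
    (h3 : ∀ u : (Fin 3 → R3) → ℝ, ContDiff ℝ 1 u →
      c * ∫ x in Set.pi Set.univ (fun _ : Fin 3 => cu), u x ^ 2
      ≤ ∫ x in Set.pi Set.univ (fun _ : Fin 3 => cu),
        (∑ m, ∑ a, pd u m a x ^ 2 + V3 V x * u x ^ 2))
    {Ψ : (Fin p.N → R3) → ℝ} (hΨ : ContDiff ℝ 1 Ψ) (hc : HasCompactSupport Ψ)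
    {T : Finset (Fin p.N)} (hT : T.card = 3) :
    c * ∫ x, wt Q T x * Ψ x ^ 2 ∂pin p.nu p.N
      ≤ ∫ x, wt Q T x * (∑ i ∈ T, ∑ a, pd Ψ i a x ^ 2 + VT V T x * Ψ x ^ 2) ∂pin p.nu p.N := by
  have hfin : IsFiniteMeasure (volume.restrict (Om p.L) : Measure R3) := p.instFiniteNu
  have hB : BM Ψ := BM_of_cc hΨ.continuous hc
  have hg : BM (fun x : Fin p.N → R3 => 1 / ((cnt Q Tᶜ x + 2).choose 2 : ℝ)) :=
    BM_cnt_comp hQ Tᶜ (fun n => 1 / ((n + 2).choose 2 : ℝ))
  have hgd : DependsOn (fun x : Fin p.N → R3 => 1 / ((cnt Q Tᶜ x + 2).choose 2 : ℝ))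
      ((T : Set (Fin p.N))ᶜ) := by
    intro x y hxy
    have := cnt_dep Q Tᶜ (x := x) (y := y) (fun i hi => hxy i (by simpa using hi))
    simp only at this ⊢
    rw [this]
  have hE : BM (fun x => ∑ i ∈ T, ∑ a, pd Ψ i a x ^ 2 + VT V T x * Ψ x ^ 2) :=
    (BM.sum _ fun i _ => BM.sum _ fun a _ => (BM_pd hΨ hc i a).pow 2).add
      ((BM_VT hV T).mul (hB.pow 2))
  have hI := BM_prod_ind (N := p.N) hQ T
  have e1 : ∀ F : (Fin p.N → R3) → ℝ, BM F →
      ∫ x, wt Q T x * F x ∂pin p.nu p.N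
        = out p.nu 0 T (fun x => 1 / ((cnt Q Tᶜ x + 2).choose 2 : ℝ) *
            Mg p.nu T (fun x => (∏ i ∈ T, ind Q (x i)) * F x) x) := by
    intro F hF
    have : (fun x : Fin p.N → R3 => wt Q T x * F x)
        = fun x => 1 / ((cnt Q Tᶜ x + 2).choose 2 : ℝ) * ((∏ i ∈ T, ind Q (x i)) * F x) := by
      ext1 x
      unfold wt
      ring
    rw [this, pin, integral_eq_out (hg.mul (hI.mul hF)) 0 T, Mg_mul_left _ hgd]
  rw [e1 _ (hB.pow 2), e1 _ hE]
  have e4 : c * out p.nu 0 T (fun x => 1 / ((cnt Q Tᶜ x + 2).choose 2 : ℝ) *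
            Mg p.nu T (fun x => (∏ i ∈ T, ind Q (x i)) * Ψ x ^ 2) x)
      = out p.nu 0 T (fun x => c * (1 / ((cnt Q Tᶜ x + 2).choose 2 : ℝ) *
            Mg p.nu T (fun x => (∏ i ∈ T, ind Q (x i)) * Ψ x ^ 2) x)) := by
    unfold out
    rw [Mg_const_mul]
  rw [e4]
  apply out_mono ((hg.mul (Mg_bm (hI.mul (hB.pow 2)))).const_mul c)
    (hg.mul (Mg_bm (hI.mul hE)))
  intro x
  have hg0 : (0 : ℝ) ≤ 1 / ((cnt Q Tᶜ x + 2).choose 2 : ℝ) := by positivity
  have key : c * Mg p.nu T (fun x => (∏ i ∈ T, ind Q (x i)) * Ψ x ^ 2) x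
      ≤ Mg p.nu T (fun x => (∏ i ∈ T, ind Q (x i)) *
        (∑ i ∈ T, ∑ a, pd Ψ i a x ^ 2 + VT V T x * Ψ x ^ 2)) x := by
    have m1 := Mg_loc hPut p.L hQ hae hT (fun x => Ψ x ^ 2) x
    have m2 := Mg_loc hPut p.L hQ hae hT
      (fun x => ∑ i ∈ T, ∑ a, pd Ψ i a x ^ 2 + VT V T x * Ψ x ^ 2) x
    have m1' : Mg p.nu T (fun x => (∏ i ∈ T, ind Q (x i)) * Ψ x ^ 2) x
      = ∫ y in Set.pi Set.univ (fun _ : Fin 3 => cu), Ψ (put 3 T y x) ^ 2 := m1
    have m2' : Mg p.nu T (fun x => (∏ i ∈ T, ind Q (x i)) *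
        (∑ i ∈ T, ∑ a, pd Ψ i a x ^ 2 + VT V T x * Ψ x ^ 2)) x
      = ∫ y in Set.pi Set.univ (fun _ : Fin 3 => cu),
        (∑ i ∈ T, ∑ a, pd Ψ i a (put 3 T y x) ^ 2 + VT V T (put 3 T y x) * Ψ (put 3 T y x) ^ 2) :=
      m2
    rw [m1', m2']
    have hu := (hPut 3 T hT 0 x).2.2.2.2.2.2.1 Ψ hΨ
    have := h3 (fun y => Ψ (put 3 T y x)) ?_
    · refine this.trans (le_of_eq ?_)
      congr 1
      ext1 y
      have hy := hPut 3 T hT y x
      have hpd := (hy.2.2.2.2.2.2.1 Ψ hΨ).2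
      rw [sum_emb hT]
      congr 1
      · refine Finset.sum_congr rfl fun m _ => Finset.sum_congr rfl fun a _ => ?_
        rw [hpd m a]
      · unfold VT
        rw [hy.1]
    · exact hu.1
  calc c * (1 / ((cnt Q Tᶜ x + 2).choose 2 : ℝ) *
            Mg p.nu T (fun x => (∏ i ∈ T, ind Q (x i)) * Ψ x ^ 2) x)
      = 1 / ((cnt Q Tᶜ x + 2).choose 2 : ℝ) *
            (c * Mg p.nu T (fun x => (∏ i ∈ T, ind Q (x i)) * Ψ x ^ 2) x) := by ring
    _ ≤ _ := mul_le_mul_of_nonneg_left key hg0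

/-! ## The strip -/

/-- The indices near the boundary on the line. -/
noncomputable def BI (n : ℕ) (t : ℝ) : Finset ℤ :=
  (Finset.Icc 0 ((n : ℤ) - 1)).filter (fun z => (z : ℝ) ≤ t ∨ (n : ℝ) - 1 - t ≤ z)

theorem BI_card (n : ℕ) {t : ℝ} (ht : 0 ≤ t) : ((BI n t).card : ℝ) ≤ 2 * (t + 1) := by
  have hsub : BI n t ⊆ Finset.Icc 0 ⌊t⌋ ∪ Finset.Icc ⌈(n : ℝ) - 1 - t⌉ ((n : ℤ) - 1) := by
    intro z hz
    simp only [BI, mem_filter, mem_Icc] at hz
    obtain ⟨⟨h1, h2⟩, h3⟩ := hz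
    rw [mem_union, mem_Icc, mem_Icc]
    rcases h3 with h3 | h3
    · left
      exact ⟨h1, Int.le_floor.2 h3⟩
    · right
      exact ⟨Int.ceil_le.2 h3, h2⟩
  have h1 := (Finset.card_le_card hsub).trans (Finset.card_union_le _ _)
  rw [Int.card_Icc, Int.card_Icc] at h1
  have h0 : 0 ≤ ⌊t⌋ := Int.floor_nonneg.2 ht
  have h2 : ((⌊t⌋ + 1 - 0).toNat : ℝ) ≤ t + 1 := by
    have : (((⌊t⌋ + 1 - 0).toNat : ℤ) : ℝ) ≤ t + 1 := by
      rw [Int.toNat_of_nonneg (by omega)]
      push_cast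
      linarith [Int.floor_le t]
    exact_mod_cast this
  have h3 : ((((n : ℤ) - 1 + 1 - ⌈(n : ℝ) - 1 - t⌉).toNat : ℕ) : ℝ) ≤ t + 1 := by
    have hle : (n : ℝ) - 1 - t ≤ ⌈(n : ℝ) - 1 - t⌉ := Int.le_ceil _
    rcases le_or_gt 0 ((n : ℤ) - 1 + 1 - ⌈(n : ℝ) - 1 - t⌉) with h | h
    · have : ((((n : ℤ) - 1 + 1 - ⌈(n : ℝ) - 1 - t⌉).toNat : ℤ) : ℝ) ≤ t + 1 := by
        rw [Int.toNat_of_nonneg h]
        push_cast
        linarith
      exact_mod_cast this
    · rw [Int.toNat_eq_zero.2 h.le]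
      push_cast
      linarith
  have h4 : ((BI n t).card : ℝ) ≤ ((⌊t⌋ + 1 - 0).toNat : ℝ)
      + ((((n : ℤ) - 1 + 1 - ⌈(n : ℝ) - 1 - t⌉).toNat : ℕ) : ℝ) := by exact_mod_cast h1
  linarith

/-- The indices of the cells near the boundary. -/
noncomputable def JJ (n : ℕ) (t : ℝ) : Finset (Fin 3 → ℤ) :=
  (J0 n).filter (fun j => ∃ k, j k ∈ BI n t)

theorem JJ_card (n : ℕ) {t : ℝ} (ht : 0 ≤ t) : ((JJ n t).card : ℝ) ≤ 6 * (t + 1) * n ^ 2 := by
  have hsub : JJ n t ⊆ Finset.univ.biUnion (fun k : Fin 3 =>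
      Fintype.piFinset (fun k' => if k' = k then BI n t else Finset.Icc 0 ((n : ℤ) - 1))) := by
    intro j hj
    simp only [JJ, mem_filter] at hj
    obtain ⟨hj, k, hk⟩ := hj
    rw [mem_biUnion]
    refine ⟨k, mem_univ k, ?_⟩
    rw [Fintype.mem_piFinset]
    intro k'
    by_cases h : k' = k
    · subst h
      simpa using hk
    · rw [if_neg h]
      exact (Fintype.mem_piFinset.1 hj) k'
  have h1 := (Finset.card_le_card hsub).trans Finset.card_biUnion_le
  have h2 : ∀ k : Fin 3, (Fintype.piFinset (fun k' : Fin 3 => if k' = k then BI n t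
      else Finset.Icc 0 ((n : ℤ) - 1))).card = (BI n t).card * n ^ 2 := by
    intro k
    rw [Fintype.card_piFinset, Fin.prod_univ_three]
    fin_cases k <;> simp <;> ring
  simp only [h2] at h1
  rw [Finset.sum_const, Finset.card_univ, Fintype.card_fin, smul_eq_mul] at h1
  have h3 : ((JJ n t).card : ℝ) ≤ 3 * ((BI n t).card * n ^ 2) := by exact_mod_cast h1
  have h4 := BI_card n ht
  have h5 : ((BI n t).card : ℝ) * n ^ 2 ≤ 2 * (t + 1) * n ^ 2 :=
    mul_le_mul_of_nonneg_right h4 (by positivity)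
  nlinarith

theorem strip_kap {p : Par} (hp : p.OK) {n : ℕ} (hn : 1 ≤ n) {l : ℝ} (hl : 0 < l)
    (hL : n * l = p.L) {c : R3} (hc : c ∈ p.strip) : kap n l p.L c ∈ JJ n (3 * p.s / l) := by
  obtain ⟨k, hk⟩ := hc
  have hs := hp.hs
  have hK := hp.hK'
  have ht : 0 ≤ 3 * p.s / l := by positivity
  rw [JJ, mem_filter]
  refine ⟨kap_mem hn _ _ _, k, ?_⟩
  rw [BI, mem_filter]
  refine ⟨kp_mem hn _, ?_⟩
  have h1 : p.L / 2 - 3 * p.s ≤ |c k| := by nlinarith
  show ((kp n ⌊(c k + p.L / 2) / l⌋ : ℤ) : ℝ) ≤ _ ∨ _ ≤ ((kp n ⌊(c k + p.L / 2) / l⌋ : ℤ) : ℝ)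
  have hn' : (1 : ℝ) ≤ n := by exact_mod_cast hn
  rcases le_abs.1 h1 with h2 | h2
  · right
    have h3 : (n : ℝ) - 3 * p.s / l ≤ (c k + p.L / 2) / l := by
      rw [le_div_iff₀ hl, sub_mul, div_mul_cancel₀ _ hl.ne', hL]
      linarith
    have h4 := Int.lt_floor_add_one ((c k + p.L / 2) / l)
    unfold kp
    push_cast
    apply le_max_of_le_right
    apply le_min
    · linarith
    · linarith
  · left
    have h3 : (c k + p.L / 2) / l ≤ 3 * p.s / l := by
      apply div_le_div_of_nonneg_right _ hl.le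
      linarith
    have h4 := Int.floor_le ((c k + p.L / 2) / l)
    unfold kp
    push_cast
    apply max_le ht
    apply min_le_of_right_le
    linarith

theorem cnt_strip {p : Par} (hp : p.OK) {n : ℕ} (hn : 1 ≤ n) {l : ℝ} (hl : 0 < l)
    (hL : n * l = p.L) (x : Fin p.N → R3) :
    (cnt p.strip univ x : ℝ) ≤ ∑ j ∈ JJ n (3 * p.s / l), (cnt (Cell n l p.L j) univ x : ℝ) := by
  simp only [cnt_eq_sum]
  rw [Finset.sum_comm]
  refine Finset.sum_le_sum fun i _ => ?_
  by_cases h : x i ∈ p.strip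
  · rw [ind_of_mem h]
    have h1 := strip_kap hp hn hl hL h
    have h2 : ind (Cell n l p.L (kap n l p.L (x i))) (x i) = 1 := ind_of_mem rfl
    rw [← h2]
    exact Finset.single_le_sum (f := fun j => ind (Cell n l p.L j) (x i))
      (fun _ _ => ind_nonneg _ _) h1
  · rw [ind_of_notMem h]
    exact Finset.sum_nonneg fun _ _ => ind_nonneg _ _

/-! ## The cells are disjoint -/

theorem sum_ind (n : ℕ) (l L : ℝ) (c : R3) (J : Finset (Fin 3 → ℤ)) :
    ∑ j ∈ J, ind (Cell n l L j) c ≤ 1 := by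
  have h : ∀ j, ind (Cell n l L j) c = if j = kap n l L c then 1 else 0 := by
    intro j
    split_ifs with h
    · exact ind_of_mem h.symm
    · exact ind_of_notMem fun h' => h h'.symm
  simp only [h, Finset.sum_ite_eq']
  split_ifs <;> norm_num

theorem weights (n : ℕ) (l L : ℝ) (J : Finset (Fin 3 → ℤ)) (x : Fin N → R3) (G : Fin N → ℝ)
    (hG : ∀ i, 0 ≤ G i) (W : Finset (Fin N) → ℝ) (hW : ∀ T, 0 ≤ W T) :
    ∑ j ∈ J, ∑ T ∈ powersetCard 3 (univ : Finset (Fin N)),
      wt (Cell n l L j) T x * (∑ i ∈ T, G i + W T)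
      ≤ ∑ i, G i + ∑ T ∈ powersetCard 3 (univ : Finset (Fin N)), W T := by
  have e1 : ∑ j ∈ J, ∑ T ∈ powersetCard 3 (univ : Finset (Fin N)),
      wt (Cell n l L j) T x * (∑ i ∈ T, G i + W T)
      = ∑ i, G i * ∑ j ∈ J, ∑ T ∈ (powersetCard 3 (univ : Finset (Fin N))).filter
          (fun T => i ∈ T), wt (Cell n l L j) T x
        + ∑ T ∈ powersetCard 3 (univ : Finset (Fin N)),
          W T * ∑ j ∈ J, wt (Cell n l L j) T x := by
    simp only [mul_add, Finset.sum_add_distrib, Finset.mul_sum]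
    congr 1
    · rw [Finset.sum_comm (s := (univ : Finset (Fin N)))]
      refine Finset.sum_congr rfl fun j _ => ?_
      have : ∀ T : Finset (Fin N), ∑ i ∈ T, wt (Cell n l L j) T x * G i
        = ∑ i, if i ∈ T then G i * wt (Cell n l L j) T x else 0 := by
        intro T
        rw [Finset.sum_ite_mem, Finset.univ_inter]
        exact Finset.sum_congr rfl fun i _ => mul_comm _ _
      simp only [this]
      rw [Finset.sum_comm]
      refine Finset.sum_congr rfl fun i _ => ?_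
      rw [Finset.sum_filter]
    · rw [Finset.sum_comm]
      refine Finset.sum_congr rfl fun T _ => Finset.sum_congr rfl fun j _ => mul_comm _ _
  rw [e1]
  apply add_le_add
  · refine Finset.sum_le_sum fun i _ => ?_
    have : ∑ j ∈ J, ∑ T ∈ (powersetCard 3 (univ : Finset (Fin N))).filter
          (fun T => i ∈ T), wt (Cell n l L j) T x ≤ 1 :=
      (Finset.sum_le_sum fun j _ => sum_wt_mem _ x i).trans (sum_ind n l L (x i) J)
    nlinarith [hG i]
  · refine Finset.sum_le_sum fun T hT => ?_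
    have hT3 := (mem_powersetCard.1 hT).2
    obtain ⟨i, hi⟩ : T.Nonempty := Finset.card_pos.1 (by omega)
    have : ∑ j ∈ J, wt (Cell n l L j) T x ≤ 1 :=
      (Finset.sum_le_sum fun j _ => wt_le _ hT3 x hi).trans (sum_ind n l L (x i) J)
    nlinarith [hW T]

theorem BM_wt {Z : Set R3} (hZ : MeasurableSet Z) (T : Finset (Fin N)) :
    BM (fun x : Fin N → R3 => wt Z T x) :=
  (BM_cnt_comp hZ Tᶜ (fun n => 1 / ((n + 2).choose 2 : ℝ))).mul (BM_prod_ind hZ T)

theorem sum_wt_strip {p : Par} (hp : p.OK) {n : ℕ} (hn : 1 ≤ n) {l : ℝ} (hl : 0 < l)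
    (hL : n * l = p.L) (x : Fin p.N → R3) :
    ((cnt p.strip univ x : ℝ) - 2 * (JJ n (3 * p.s / l)).card) / 3
      ≤ ∑ j ∈ J0 n, ∑ T ∈ powersetCard 3 (univ : Finset (Fin p.N)), wt (Cell n l p.L j) T x := by
  have h1 : ∑ j ∈ JJ n (3 * p.s / l), ∑ T ∈ powersetCard 3 (univ : Finset (Fin p.N)),
        wt (Cell n l p.L j) T x
      ≤ ∑ j ∈ J0 n, ∑ T ∈ powersetCard 3 (univ : Finset (Fin p.N)), wt (Cell n l p.L j) T x :=
    Finset.sum_le_sum_of_subset_of_nonneg (Finset.filter_subset _ _) fun j _ _ =>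
      Finset.sum_nonneg fun T _ => wt_nonneg _ _ _
  refine le_trans ?_ h1
  have h2 : ∑ j ∈ JJ n (3 * p.s / l), ((cnt (Cell n l p.L j) univ x : ℝ) - 2) / 3
      ≤ ∑ j ∈ JJ n (3 * p.s / l), ∑ T ∈ powersetCard 3 (univ : Finset (Fin p.N)),
        wt (Cell n l p.L j) T x := Finset.sum_le_sum fun j _ => sum_wt_ge _ x
  refine le_trans ?_ h2
  rw [← Finset.sum_div, Finset.sum_sub_distrib, Finset.sum_const, nsmul_eq_mul]
  have h3 := cnt_strip hp hn hl hL x
  linarith

theorem strip_meas (p : Par) : MeasurableSet p.strip := by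
  have : p.strip = ⋃ k : Fin 3, {c : R3 | p.s * (p.K - 1) ≤ |c k|} := by
    ext c
    simp [Par.strip]
  rw [this]
  exact MeasurableSet.iUnion fun k =>
    measurableSet_le measurable_const (measurable_pi_apply k).abs

end CrudeAux

open CrudeAux

theorem Crude (h3 : S_Crude3) (hPut : S_Put) (hE : S_EnInt) : S_Crude := by
  intro V hV hb
  obtain ⟨l0, c1, hl0, hc1, h3⟩ := h3 V hV hb
  refine ⟨c1, l0 + 48 * c1, hc1, by positivity, ?_⟩
  intro p hp hCL Ψ hΨ hc
  have hL0 : l0 ≤ p.L := by nlinarith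
  have hLpos : 0 < p.L := by linarith
  have hl0' : 0 < l0 := by linarith
  -- the cells
  set n : ℕ := ⌊p.L / l0⌋₊ with hn
  have hn1 : 1 ≤ n := by
    rw [hn]
    apply Nat.le_floor
    push_cast
    rw [le_div_iff₀ hl0']
    linarith
  have hnR : (1 : ℝ) ≤ n := by exact_mod_cast hn1
  have hn0 : (0 : ℝ) < n := by linarith
  have hnle : (n : ℝ) ≤ p.L / l0 := Nat.floor_le (by positivity)
  have hnlt : p.L / l0 < n + 1 := Nat.lt_floor_add_one _
  set l : ℝ := p.L / n with hl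
  have hlpos : 0 < l := by positivity
  have hL : (n : ℝ) * l = p.L := by rw [hl]; field_simp
  have hll : l0 ≤ l := by
    rw [hl, le_div_iff₀ hn0]
    rw [le_div_iff₀ hl0'] at hnle
    linarith
  have hl2 : l ≤ 2 * l0 := by
    rw [hl, div_le_iff₀ hn0]
    rw [div_lt_iff₀ hl0'] at hnlt
    nlinarith
  have hl1 : 1 ≤ l := hl0.trans hll
  have hnL : (n : ℝ) ≤ p.L := by rw [← hL]; nlinarith
  -- functions
  have hB : BM Ψ := BM_of_cc hΨ.continuous hc
  have hCm : ∀ j, MeasurableSet (Cell n l p.L j) := fun j => Cell_meas n l p.L j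
  have hcell : ∀ j ∈ J0 n, ∀ T ∈ powersetCard 3 (univ : Finset (Fin p.N)),
      3 * c1 * ∫ x, wt (Cell n l p.L j) T x * Ψ x ^ 2 ∂pin p.nu p.N
      ≤ ∫ x, wt (Cell n l p.L j) T x * (∑ i ∈ T, ∑ a, pd Ψ i a x ^ 2 + VT V T x * Ψ x ^ 2)
        ∂pin p.nu p.N := fun j hj T hT =>
    core hV hPut p (hCm j) (Cell_ae hn1 hlpos hL hj) (fun u hu => h3 l hll hl2 _ u hu) hΨ hc
      (mem_powersetCard.1 hT).2
  have hEB : ∀ T : Finset (Fin p.N),
      BM (fun x => ∑ i ∈ T, ∑ a, pd Ψ i a x ^ 2 + VT V T x * Ψ x ^ 2) := fun T =>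
    (BM.sum _ fun i _ => BM.sum _ fun a _ => (BM_pd hΨ hc i a).pow 2).add
      ((BM_VT hV T).mul (hB.pow 2))
  have hVT : ∀ (T : Finset (Fin p.N)) (x : Fin p.N → R3), 0 ≤ VT V T x := fun T x =>
    hV.nonneg _ _
  -- upper bound by the energy
  have s1 : ∑ j ∈ J0 n, ∑ T ∈ powersetCard 3 (univ : Finset (Fin p.N)),
      ∫ x, wt (Cell n l p.L j) T x * (∑ i ∈ T, ∑ a, pd Ψ i a x ^ 2 + VT V T x * Ψ x ^ 2)
        ∂pin p.nu p.N ≤ energy V p.L Ψ := by
    rw [(hE V hV p Ψ).2.1]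
    have e : ∑ j ∈ J0 n, ∑ T ∈ powersetCard 3 (univ : Finset (Fin p.N)),
      ∫ x, wt (Cell n l p.L j) T x * (∑ i ∈ T, ∑ a, pd Ψ i a x ^ 2 + VT V T x * Ψ x ^ 2)
        ∂pin p.nu p.N
      = ∫ x, ∑ j ∈ J0 n, ∑ T ∈ powersetCard 3 (univ : Finset (Fin p.N)),
        wt (Cell n l p.L j) T x * (∑ i ∈ T, ∑ a, pd Ψ i a x ^ 2 + VT V T x * Ψ x ^ 2)
        ∂pin p.nu p.N := by
      rw [integral_finsetSum _ fun j _ => BM.integrable
        (BM.sum _ fun T _ => (BM_wt (hCm j) T).mul (hEB T)) _]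
      refine Finset.sum_congr rfl fun j _ => ?_
      rw [integral_finsetSum _ fun T _ => BM.integrable ((BM_wt (hCm j) T).mul (hEB T)) _]
    rw [e]
    apply integral_mono
    · exact BM.integrable (BM.sum _ fun j _ => BM.sum _ fun T _ =>
        (BM_wt (hCm j) T).mul (hEB T)) _
    · exact BM.integrable ((BM.sum _ fun i _ => BM.sum _ fun a _ => (BM_pd hΨ hc i a).pow 2).add
        (BM.sum _ fun T _ => (BM_VT hV T).mul (hB.pow 2))) _
    · intro x
      exact weights n l p.L (J0 n) x (fun i => ∑ a, pd Ψ i a x ^ 2)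
        (fun i => Finset.sum_nonneg fun a _ => sq_nonneg _) (fun T => VT V T x * Ψ x ^ 2)
        (fun T => mul_nonneg (hVT T x) (sq_nonneg _))
  -- lower bound
  have s2 : 3 * c1 * ∫ x, (∑ j ∈ J0 n, ∑ T ∈ powersetCard 3 (univ : Finset (Fin p.N)),
        wt (Cell n l p.L j) T x) * Ψ x ^ 2 ∂pin p.nu p.N
      ≤ ∑ j ∈ J0 n, ∑ T ∈ powersetCard 3 (univ : Finset (Fin p.N)),
      ∫ x, wt (Cell n l p.L j) T x * (∑ i ∈ T, ∑ a, pd Ψ i a x ^ 2 + VT V T x * Ψ x ^ 2)
        ∂pin p.nu p.N := by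
    simp only [Finset.sum_mul]
    rw [integral_finsetSum _ fun j _ => BM.integrable
        (BM.sum _ fun T _ => (BM_wt (hCm j) T).mul (hB.pow 2)) _, Finset.mul_sum]
    refine Finset.sum_le_sum fun j hj => ?_
    rw [integral_finsetSum _ fun T _ => BM.integrable ((BM_wt (hCm j) T).mul (hB.pow 2)) _,
      Finset.mul_sum]
    exact Finset.sum_le_sum fun T hT => hcell j hj T hT
  have hst := strip_meas p
  have s3 : ∫ x, ((cnt p.strip univ x : ℝ) - 2 * (JJ n (3 * p.s / l)).card) / 3 * Ψ x ^ 2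
        ∂pin p.nu p.N
      ≤ ∫ x, (∑ j ∈ J0 n, ∑ T ∈ powersetCard 3 (univ : Finset (Fin p.N)),
        wt (Cell n l p.L j) T x) * Ψ x ^ 2 ∂pin p.nu p.N := by
    apply integral_mono
    · exact BM.integrable (((((BM_cnt hst univ).sub (BM.const _)).mul (BM.const _))).mul
        (hB.pow 2)) _
    · exact BM.integrable ((BM.sum _ fun j _ => BM.sum _ fun T _ => BM_wt (hCm j) T).mul
        (hB.pow 2)) _
    · intro x
      exact mul_le_mul_of_nonneg_right (sum_wt_strip hp hn1 hlpos hL x) (sq_nonneg _)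
  have s4 : ∫ x, ((cnt p.strip univ x : ℝ) - 2 * (JJ n (3 * p.s / l)).card) / 3 * Ψ x ^ 2
        ∂pin p.nu p.N = (p.NS Ψ - 2 * (JJ n (3 * p.s / l)).card * p.nrm Ψ) / 3 := by
    have e : (fun x : Fin p.N → R3 => ((cnt p.strip univ x : ℝ)
        - 2 * (JJ n (3 * p.s / l)).card) / 3 * Ψ x ^ 2)
      = fun x => 1 / 3 * ((cnt p.strip univ x : ℝ) * Ψ x ^ 2)
          - 2 * (JJ n (3 * p.s / l)).card / 3 * Ψ x ^ 2 := by
      ext1 x; ring
    rw [e, integral_sub, integral_const_mul, integral_const_mul]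
    · unfold Par.NS Par.nrm
      ring
    · exact BM.integrable (((BM_cnt hst univ).mul (hB.pow 2)).const_mul _) _
    · exact BM.integrable ((hB.pow 2).const_mul _) _
  -- the number of cells
  have hs := hp.hs
  have hnrm : 0 ≤ p.nrm Ψ := integral_nonneg fun x => sq_nonneg _
  have s5 : ((JJ n (3 * p.s / l)).card : ℝ) ≤ 24 * p.s * p.L ^ 2 := by
    have h1 := JJ_card n (t := 3 * p.s / l) (by positivity)
    have h2 : 3 * p.s / l ≤ 3 * p.s := div_le_self (by positivity) hl1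
    have h3 : (n : ℝ) ^ 2 ≤ p.L ^ 2 := pow_le_pow_left₀ hn0.le hnL 2
    calc ((JJ n (3 * p.s / l)).card : ℝ) ≤ 6 * (3 * p.s / l + 1) * n ^ 2 := h1
      _ ≤ 6 * (3 * p.s + p.s) * p.L ^ 2 := by
          apply mul_le_mul _ h3 (by positivity) (by positivity)
          linarith
      _ = 24 * p.s * p.L ^ 2 := by ring
  have s6 : 3 * c1 * ((p.NS Ψ - 2 * (JJ n (3 * p.s / l)).card * p.nrm Ψ) / 3) ≤ energy V p.L Ψ := by
    rw [← s4]
    exact (mul_le_mul_of_nonneg_left s3 (by positivity)).trans (s2.trans s1)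
  have s7 : ((JJ n (3 * p.s / l)).card : ℝ) * p.nrm Ψ ≤ 24 * p.s * p.L ^ 2 * p.nrm Ψ :=
    mul_le_mul_of_nonneg_right s5 hnrm
  have s8 : 2 * c1 * (((JJ n (3 * p.s / l)).card : ℝ) * p.nrm Ψ)
      ≤ 2 * c1 * (24 * p.s * p.L ^ 2 * p.nrm Ψ) :=
    mul_le_mul_of_nonneg_left s7 (by positivity)
  have s9 : 0 ≤ l0 * p.s * p.L ^ 2 * p.nrm Ψ := by positivity
  nlinarith

end Pool.Agent.Lib.MP_5db8e2_mp
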