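import Pool.Agent.Lib.MP_5db8e2_mp.LB.Spec8
import Pool.Agent.Lib.MP_5db8e2_mp.GeoB

/-!
# Lower bound: three particles in a cube of fixed size
-/

set_option autoImplicit false

open MeasureTheory Function Finset
open scoped Classical ENNReal

namespace Pool.Agent.Lib.MP_5db8e2_mp

namespace Crude3aux

/-- The sum of the squares of the partial derivatives. -/
noncomputable def G (u : (Fin 3 → R3) → ℝ) (x : Fin 3 → R3) : ℝ := ∑ m, ∑ a, pd u m a x ^ 2

theorem G_nonneg (u : (Fin 3 → R3) → ℝ) (x : Fin 3 → R3) : 0 ≤ G u x :=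
  Finset.sum_nonneg fun _ _ => Finset.sum_nonneg fun _ _ => sq_nonneg _

theorem continuous_G {u : (Fin 3 → R3) → ℝ} (hu : ContDiff ℝ 1 u) : Continuous (G u) := by
  unfold G
  exact continuous_finsetSum _ fun m _ => continuous_finsetSum _ fun a _ =>
    (continuous_pd hu m a).pow 2

theorem fderiv_eq (u : (Fin 3 → R3) → ℝ) (x h : Fin 3 → R3) :
    fderiv ℝ u x h = ∑ p : Fin 3 × Fin 3, h p.1 p.2 * pd u p.1 p.2 x := by
  have hv : h = ∑ m : Fin 3, ∑ a : Fin 3,
      h m a • (Pi.single m (Pi.single a (1 : ℝ) : R3) : Fin 3 → R3) := by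
    funext i
    funext b
    simp only [Finset.sum_apply, Pi.smul_apply, smul_eq_mul]
    rw [Finset.sum_eq_single i]
    · rw [Finset.sum_eq_single b]
      · simp
      · intro a _ hab
        simp [hab.symm]
      · intro h; exact absurd (Finset.mem_univ _) h
    · intro m _ hm
      refine Finset.sum_eq_zero fun a _ => ?_
      rw [Pi.single_eq_of_ne hm.symm]
      simp
    · intro h; exact absurd (Finset.mem_univ _) h
  conv_lhs => rw [hv]
  rw [Fintype.sum_prod_type]
  simp only [map_sum, map_smul, smul_eq_mul]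
  rfl

theorem fderiv_sq_le (u : (Fin 3 → R3) → ℝ) (x h : Fin 3 → R3) {L : ℝ}
    (hL : ∀ m a, |h m a| ≤ L) : (fderiv ℝ u x h) ^ 2 ≤ 9 * L ^ 2 * G u x := by
  rw [fderiv_eq]
  have h1 := Finset.sum_mul_sq_le_sq_mul_sq (Finset.univ : Finset (Fin 3 × Fin 3))
    (fun p => h p.1 p.2) (fun p => pd u p.1 p.2 x)
  have h2 : ∑ p : Fin 3 × Fin 3, pd u p.1 p.2 x ^ 2 = G u x := by
    rw [Fintype.sum_prod_type]
    rfl
  have h3 : ∑ p : Fin 3 × Fin 3, h p.1 p.2 ^ 2 ≤ 9 * L ^ 2 := by
    calc ∑ p : Fin 3 × Fin 3, h p.1 p.2 ^ 2 ≤ ∑ _p : Fin 3 × Fin 3, L ^ 2 := by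
          refine Finset.sum_le_sum fun p _ => ?_
          rw [← sq_abs (h p.1 p.2)]
          exact pow_le_pow_left₀ (abs_nonneg _) (hL _ _) 2
      _ = 9 * L ^ 2 := by
          rw [Finset.sum_const, Finset.card_univ, Fintype.card_prod, Fintype.card_fin, nsmul_eq_mul]
          norm_num
  rw [h2] at h1
  exact h1.trans (mul_le_mul_of_nonneg_right h3 (G_nonneg u x))

theorem diff_sq_le {u : (Fin 3 → R3) → ℝ} (hu : ContDiff ℝ 1 u) (x h : Fin 3 → R3) {L : ℝ}
    (hL : ∀ m a, |h m a| ≤ L) :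
    (u x - u (x - h)) ^ 2 ≤ ∫ t in (0 : ℝ)..1, 9 * L ^ 2 * G u (x - t • h) := by
  set g' : ℝ → ℝ := fun t => fderiv ℝ u (x - t • h) (-h) with hg'
  have hcont : Continuous g' := by
    have h1 : Continuous (fderiv ℝ u) := hu.continuous_fderiv (by norm_num)
    have h2 : Continuous fun t : ℝ => x - t • h := by fun_prop
    exact (h1.comp h2).clm_apply continuous_const
  have hder : ∀ t : ℝ, HasDerivAt (fun t : ℝ => u (x - t • h)) (g' t) t := by
    intro t
    have h1 : HasFDerivAt u (fderiv ℝ u (x - t • h)) (x - t • h) :=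
      (hu.differentiable (by norm_num) _).hasFDerivAt
    have h2 : HasDerivAt (fun t : ℝ => x - t • h) (-h) t := by
      have h3 := ((hasDerivAt_id t).smul_const h).const_sub x
      simpa using h3
    exact h1.comp_hasDerivAt t h2
  have hint : ∫ t in (0 : ℝ)..1, g' t = u (x - h) - u x := by
    rw [intervalIntegral.integral_eq_sub_of_hasDerivAt (fun t _ => hder t)
      (hcont.intervalIntegrable _ _)]
    simp
  set c : ℝ := u (x - h) - u x with hc
  have h0 : 0 ≤ ∫ t in (0 : ℝ)..1, (g' t - c) ^ 2 :=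
    intervalIntegral.integral_nonneg zero_le_one (fun t _ => sq_nonneg _)
  have h1 : ∫ t in (0 : ℝ)..1, (g' t - c) ^ 2 = (∫ t in (0 : ℝ)..1, g' t ^ 2) - c ^ 2 := by
    have e1 : ∀ t, (g' t - c) ^ 2 = g' t ^ 2 - (2 * c * g' t - c ^ 2) := fun t => by ring
    simp only [e1]
    have k1 : Continuous fun t => g' t ^ 2 := hcont.pow 2
    have k2 : Continuous fun t => 2 * c * g' t := continuous_const.mul hcont
    have k3 : Continuous fun t => 2 * c * g' t - c ^ 2 := k2.sub continuous_const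
    have k4 : Continuous fun _ : ℝ => c ^ 2 := continuous_const
    rw [intervalIntegral.integral_sub (k1.intervalIntegrable _ _) (k3.intervalIntegrable _ _),
      intervalIntegral.integral_sub (k2.intervalIntegrable _ _)
      (k4.intervalIntegrable _ _), intervalIntegral.integral_const_mul, hint,
      intervalIntegral.integral_const]
    simp only [sub_zero, one_smul]
    ring
  have h2 : ∫ t in (0 : ℝ)..1, g' t ^ 2 ≤ ∫ t in (0 : ℝ)..1, 9 * L ^ 2 * G u (x - t • h) := by
    have hGc : Continuous fun t : ℝ => 9 * L ^ 2 * G u (x - t • h) := by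
      have := continuous_G hu
      fun_prop
    refine intervalIntegral.integral_mono_on zero_le_one ((hcont.pow 2).intervalIntegrable _ _)
      (hGc.intervalIntegrable _ _) (fun t _ => ?_)
    refine fderiv_sq_le u _ _ (fun m a => ?_)
    rw [Pi.neg_apply, Pi.neg_apply, abs_neg]
    exact hL m a
  have h3 : (u x - u (x - h)) ^ 2 = c ^ 2 := by rw [hc]; ring
  rw [h3]
  linarith

theorem diff_sq_le' {u : (Fin 3 → R3) → ℝ} (hu : ContDiff ℝ 1 u) (x h : Fin 3 → R3) {L : ℝ}
    (hL : ∀ m a, |h m a| ≤ L) :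
    ENNReal.ofReal ((u x - u (x - h)) ^ 2) ≤
      ∫⁻ t in Set.Ioc (0 : ℝ) 1, ENNReal.ofReal (9 * L ^ 2 * G u (x - t • h)) := by
  have hGc : Continuous fun t : ℝ => 9 * L ^ 2 * G u (x - t • h) := by
    have := continuous_G hu
    fun_prop
  have h1 := diff_sq_le hu x h hL
  rw [intervalIntegral.integral_of_le zero_le_one] at h1
  refine (ENNReal.ofReal_le_ofReal h1).trans ?_
  rw [ofReal_integral_eq_lintegral_ofReal]
  · exact (hGc.integrableOn_Icc (a := 0) (b := 1)).mono_set Set.Ioc_subset_Icc_self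
  · exact Filter.Eventually.of_forall fun t => mul_nonneg (by positivity) (G_nonneg _ _)

/-- The double integrand. -/
noncomputable def F (Ω : Set (Fin 3 → R3)) (u : (Fin 3 → R3) → ℝ) (x y : Fin 3 → R3) : ℝ≥0∞ :=
  if x ∈ Ω ∧ y ∈ Ω then ENNReal.ofReal ((u x - u y) ^ 2) else 0

theorem measurable_F {Ω : Set (Fin 3 → R3)} (hΩ : MeasurableSet Ω) {u : (Fin 3 → R3) → ℝ}
    (hu : Continuous u) : Measurable (fun p : (Fin 3 → R3) × (Fin 3 → R3) => F Ω u p.1 p.2) := by
  unfold F
  refine Measurable.ite ?_ ?_ measurable_const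
  · exact (measurable_fst hΩ).inter (measurable_snd hΩ)
  · exact ENNReal.measurable_ofReal.comp
      (((hu.measurable.comp measurable_fst).sub (hu.measurable.comp measurable_snd)).pow_const 2)

theorem shift_le {Ω : Set (Fin 3 → R3)} (hΩ : MeasurableSet Ω) (hconv : Convex ℝ Ω)
    {u : (Fin 3 → R3) → ℝ} (hu : ContDiff ℝ 1 u) (h : Fin 3 → R3) {L : ℝ}
    (hL : ∀ m a, |h m a| ≤ L) :
    ∫⁻ x, F Ω u x (x - h) ≤ ∫⁻ x in Ω, ENNReal.ofReal (9 * L ^ 2 * G u x) := by
  set f : (Fin 3 → R3) → ℝ≥0∞ := Ω.indicator (fun z => ENNReal.ofReal (9 * L ^ 2 * G u z)) with hf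
  have hfm : Measurable f := by
    refine Measurable.indicator ?_ hΩ
    exact ENNReal.measurable_ofReal.comp ((continuous_G hu).measurable.const_mul _)
  have h1 : ∀ x, F Ω u x (x - h) ≤ ∫⁻ t in Set.Ioc (0 : ℝ) 1, f (x - t • h) := by
    intro x
    unfold F
    split_ifs with hx
    · refine (diff_sq_le' hu x h hL).trans ?_
      refine setLIntegral_mono' measurableSet_Ioc (fun t ht => ?_)
      have hmem : x - t • h ∈ Ω := by
        have h2 : x - t • h = (1 - t) • x + t • (x - h) := by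
          rw [smul_sub, sub_smul, one_smul]
          abel
        rw [h2]
        exact hconv hx.1 hx.2 (by linarith [ht.2]) ht.1.le (by ring)
      rw [hf, Set.indicator_of_mem hmem]
    · exact zero_le
  calc ∫⁻ x, F Ω u x (x - h) ≤ ∫⁻ x, ∫⁻ t in Set.Ioc (0 : ℝ) 1, f (x - t • h) :=
        lintegral_mono h1
    _ = ∫⁻ t in Set.Ioc (0 : ℝ) 1, ∫⁻ x, f (x - t • h) := by
        refine lintegral_lintegral_swap ?_
        refine Measurable.aemeasurable ?_
        have h3 : Measurable fun p : (Fin 3 → R3) × ℝ => p.1 - p.2 • h := by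
          have : Continuous fun p : (Fin 3 → R3) × ℝ => p.1 - p.2 • h := by fun_prop
          exact this.measurable
        exact hfm.comp h3
    _ = ∫⁻ _t in Set.Ioc (0 : ℝ) 1, ∫⁻ x, f x := by
        refine lintegral_congr fun t => ?_
        exact lintegral_sub_right_eq_self f (t • h)
    _ = ∫⁻ x, f x := by
        rw [lintegral_const, Measure.restrict_apply MeasurableSet.univ, Set.univ_inter,
          Real.volume_Ioc]
        simp
    _ = _ := by rw [hf, lintegral_indicator hΩ]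

theorem double_le {Ω : Set (Fin 3 → R3)} (hΩ : MeasurableSet Ω) (hconv : Convex ℝ Ω)
    {u : (Fin 3 → R3) → ℝ} (hu : ContDiff ℝ 1 u) {L : ℝ}
    (hdiam : ∀ x ∈ Ω, ∀ y ∈ Ω, ∀ m a, |(x - y) m a| ≤ L) :
    ∫⁻ x, ∫⁻ y, F Ω u x y ≤ volume {h : Fin 3 → R3 | ∀ m a, |h m a| ≤ L} *
      ∫⁻ x in Ω, ENNReal.ofReal (9 * L ^ 2 * G u x) := by
  have hFm := measurable_F hΩ hu.continuous
  set H : Set (Fin 3 → R3) := {h : Fin 3 → R3 | ∀ m a, |h m a| ≤ L} with hH
  have hHm : MeasurableSet H := by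
    have h1 : H = ⋂ m, ⋂ a, {h : Fin 3 → R3 | |h m a| ≤ L} := by
      ext h
      simp [hH]
    rw [h1]
    refine MeasurableSet.iInter fun m => MeasurableSet.iInter fun a => ?_
    refine measurableSet_le ?_ measurable_const
    have : Continuous fun h : Fin 3 → R3 => |h m a| := by fun_prop
    exact this.measurable
  calc ∫⁻ x, ∫⁻ y, F Ω u x y = ∫⁻ x, ∫⁻ h, F Ω u x (x - h) := by
        refine lintegral_congr fun x => ?_
        exact (lintegral_sub_left_eq_self (fun y => F Ω u x y) x).symm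
    _ = ∫⁻ h, ∫⁻ x, F Ω u x (x - h) := by
        refine lintegral_lintegral_swap ?_
        refine Measurable.aemeasurable ?_
        have h3 : Measurable fun p : (Fin 3 → R3) × (Fin 3 → R3) => (p.1, p.1 - p.2) := by
          have : Continuous fun p : (Fin 3 → R3) × (Fin 3 → R3) => (p.1, p.1 - p.2) := by fun_prop
          exact this.measurable
        exact hFm.comp h3
    _ ≤ ∫⁻ h, H.indicator (fun _ => ∫⁻ x in Ω, ENNReal.ofReal (9 * L ^ 2 * G u x)) h := by
        refine lintegral_mono fun h => ?_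
        by_cases hh : h ∈ H
        · rw [Set.indicator_of_mem hh]
          exact shift_le hΩ hconv hu h hh
        · rw [Set.indicator_of_notMem hh]
          have h4 : ∀ x, F Ω u x (x - h) = 0 := by
            intro x
            unfold F
            rw [if_neg]
            rintro ⟨hx, hxh⟩
            apply hh
            intro m a
            have h5 := hdiam x hx (x - h) hxh m a
            rwa [sub_sub_cancel] at h5
          simp only [h4, lintegral_zero, le_refl]
    _ = _ := by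
        rw [lintegral_indicator hHm, setLIntegral_const, mul_comm]

/-- Integration over three particles. -/
theorem lintegral_three {f : (Fin 3 → R3) → ℝ≥0∞} (hf : Measurable f) :
    ∫⁻ x, f x = ∫⁻ a : R3, ∫⁻ p : R3 × R3, f ![a, p.1, p.2] := by
  have h1 := (volume_preserving_piFinSuccAbove (fun _ : Fin 3 => R3) 0).symm
  rw [← h1.lintegral_comp hf, Measure.volume_eq_prod, lintegral_prod _ (by
    exact (hf.comp h1.measurable).aemeasurable)]
  refine lintegral_congr fun a => ?_
  have h2 := (volume_preserving_finTwoArrow R3).symm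
  have h3 : Measurable fun y : Fin 2 → R3 =>
      f ((MeasurableEquiv.piFinSuccAbove (fun _ : Fin 3 => R3) 0).symm (a, y)) :=
    (hf.comp h1.measurable).comp measurable_prodMk_left
  rw [← h2.lintegral_comp h3]
  refine lintegral_congr fun p => ?_
  congr 1
  funext i
  fin_cases i
  · rfl
  · rfl
  · rfl

theorem measurable_V3 {V : R3 → R3 → ℝ} (hV : Pot V) : Measurable (V3 V) := by
  have h1 : Measurable fun x : Fin 3 → R3 => (x 0 - x 1, x 0 - x 2) := by
    have : Continuous fun x : Fin 3 → R3 => (x 0 - x 1, x 0 - x 2) := by fun_prop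
    exact this.measurable
  exact hV.meas.comp h1

/-- Reflection and translation of two particles. -/
theorem lintegral_two {f : R3 × R3 → ℝ≥0∞} (hf : Measurable f) (a : R3) :
    ∫⁻ p : R3 × R3, f (a - p.1, a - p.2) = ∫⁻ p : R3 × R3, f p := by
  have hm : Measurable fun p : R3 × R3 => (a - p.1, a - p.2) := by
    have : Continuous fun p : R3 × R3 => (a - p.1, a - p.2) := by fun_prop
    exact this.measurable
  have hfm : Measurable fun p : R3 × R3 => f (a - p.1, a - p.2) := hf.comp hm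
  rw [Measure.volume_eq_prod, lintegral_prod _ hfm.aemeasurable,
    lintegral_prod _ hf.aemeasurable]
  have h1 : ∀ x : R3, ∫⁻ y : R3, f (a - x, a - y) = ∫⁻ y : R3, f (a - x, y) := fun x =>
    lintegral_sub_left_eq_self (fun y => f (a - x, y)) a
  simp only [h1]
  exact lintegral_sub_left_eq_self (fun x => ∫⁻ y : R3, f (x, y)) a

/-- The potential energy in a cube is bounded below. -/
theorem potential_ge {V : R3 → R3 → ℝ} (hV : Pot V) {R : ℝ} (hR0 : 0 ≤ R)
    (hR : ∀ x y, V x y ≠ 0 → ‖x‖ ≤ R ∧ ‖y‖ ≤ R) {ℓ : ℝ} (hℓ : 2 * R + 1 ≤ ℓ) (q : R3) :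
    ∫⁻ p : R3 × R3, ENNReal.ofReal (V p.1 p.2) ≤
      ∫⁻ x in Set.pi Set.univ (fun _ : Fin 3 => cube q ℓ), ENNReal.ofReal (V3 V x) := by
  set Ω := Set.pi Set.univ (fun _ : Fin 3 => cube q ℓ) with hΩ
  have hcm : MeasurableSet (cube q ℓ) := by
    have h1 : cube q ℓ = Set.Icc q (fun k => q k + ℓ) := by
      ext c
      simp only [cube, Set.mem_ofPred_eq, Set.mem_Icc, Pi.le_def]
      exact forall_and
    rw [h1]
    exact measurableSet_Icc
  have hΩm : MeasurableSet Ω := MeasurableSet.univ_pi fun _ => hcm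
  rw [← lintegral_indicator hΩm, lintegral_three (by
    exact (ENNReal.measurable_ofReal.comp (measurable_V3 hV)).indicator hΩm)]
  have hVm : Measurable fun p : R3 × R3 => ENNReal.ofReal (V p.1 p.2) :=
    ENNReal.measurable_ofReal.comp hV.meas
  set C' : Set R3 := Set.Icc (fun k => q k + R) (fun k => q k + R + 1) with hC'
  have hvol : volume C' = 1 := by
    rw [hC', Real.volume_Icc_pi]
    simp
  calc ∫⁻ p : R3 × R3, ENNReal.ofReal (V p.1 p.2)
      = ∫⁻ _a in C', ∫⁻ p : R3 × R3, ENNReal.ofReal (V p.1 p.2) := by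
        rw [setLIntegral_const, hvol, mul_one]
    _ = ∫⁻ a in C', ∫⁻ p : R3 × R3, ENNReal.ofReal (V (a - p.1) (a - p.2)) := by
        refine lintegral_congr fun a => ?_
        exact (lintegral_two hVm a).symm
    _ ≤ ∫⁻ a in C', ∫⁻ p : R3 × R3, Ω.indicator (fun x => ENNReal.ofReal (V3 V x))
          ![a, p.1, p.2] := by
        refine setLIntegral_mono' measurableSet_Icc fun a ha => ?_
        refine lintegral_mono fun p => ?_
        by_cases hp : V (a - p.1) (a - p.2) = 0
        · simp [hp]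
        · obtain ⟨h1, h2⟩ := hR _ _ hp
          have hmem : (![a, p.1, p.2] : Fin 3 → R3) ∈ Ω := by
            intro i _
            have ha1 := ha.1
            have ha2 := ha.2
            have key : ∀ c : R3, ‖a - c‖ ≤ R → c ∈ cube q ℓ := by
              intro c hc k
              have h3 := (norm_le_pi_norm (a - c) k).trans hc
              rw [Pi.sub_apply, Real.norm_eq_abs, abs_le] at h3
              have h4 : q k + R ≤ a k := ha1 k
              have h5 : a k ≤ q k + R + 1 := ha2 k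
              constructor <;> linarith [h3.1, h3.2]
            fin_cases i
            · exact key a (by rw [sub_self, norm_zero]; exact hR0)
            · exact key p.1 h1
            · exact key p.2 h2
          rw [Set.indicator_of_mem hmem]
          exact le_rfl
    _ ≤ _ := setLIntegral_le_lintegral _ _

/-- The integral of the potential is positive. -/
theorem potential_pos {V : R3 → R3 → ℝ} (hV : Pot V) (hb : 0 < bM V) :
    0 < ∫⁻ p : R3 × R3, ENNReal.ofReal (V p.1 p.2) := by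
  rw [pos_iff_ne_zero]
  intro h0
  have h1 : ∫ p : R3 × R3, V p.1 p.2 = 0 := by
    rw [integral_eq_lintegral_of_nonneg_ae (Filter.Eventually.of_forall fun p => hV.nonneg _ _)
      hV.meas.aestronglyMeasurable, h0]
    simp
  have h2 : bM V ≤ 0 := by
    unfold bM
    refine csInf_le ⟨0, ?_⟩ ⟨fun _ => 0, contDiff_const, ?_, ?_⟩
    · rintro _ ⟨φ, -, -, rfl⟩
      refine integral_nonneg fun p => ?_
      refine add_nonneg (mul_nonneg (by norm_num) (Finset.sum_nonneg fun a _ => ?_))
        (mul_nonneg (hV.nonneg _ _) (sq_nonneg _))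
      nlinarith [sq_nonneg (fderiv ℝ φ p (Pi.single a 1, 0) + fderiv ℝ φ p (0, Pi.single a 1)),
        sq_nonneg (fderiv ℝ φ p (Pi.single a 1, 0)), sq_nonneg (fderiv ℝ φ p (0, Pi.single a 1))]
    · exact HasCompactSupport.zero
    · refine h1.symm.trans ?_
      refine integral_congr_ae (Filter.Eventually.of_forall fun p => ?_)
      simp
  linarith

end Crude3aux

open Crude3aux in
theorem Crude3 : S_Crude3 := by
  intro V hV hb
  obtain ⟨Vm0, hVm0⟩ := hV.bdd
  obtain ⟨R0, hR0⟩ := hV.supp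
  set Vm : ℝ := max Vm0 0 with hVmdef
  have hVm : ∀ x y, V x y ≤ Vm := fun x y => (hVm0 x y).trans (le_max_left _ _)
  have hVmp : 0 ≤ Vm := le_max_right _ _
  set R : ℝ := max R0 0 with hRdef
  have hRp : 0 ≤ R := le_max_right _ _
  have hR : ∀ x y, V x y ≠ 0 → ‖x‖ ≤ R ∧ ‖y‖ ≤ R := fun x y h =>
    ⟨(hR0 x y h).1.trans (le_max_left _ _), (hR0 x y h).2.trans (le_max_left _ _)⟩
  set v : ℝ≥0∞ := ∫⁻ p : R3 × R3, ENNReal.ofReal (V p.1 p.2) with hv
  have hvpos : 0 < v := potential_pos hV hb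
  set ℓ₀ : ℝ := 2 * R + 1 with hℓ₀
  set L : ℝ := 2 * ℓ₀ with hLdef
  have hℓ₀1 : 1 ≤ ℓ₀ := by linarith
  set H : Set (Fin 3 → R3) := {h : Fin 3 → R3 | ∀ m a, |h m a| ≤ L} with hH
  have hHeq : H = Set.Icc (fun _ _ => -L) (fun _ _ => L) := by
    ext h
    simp only [hH, Set.mem_ofPred_eq, Set.mem_Icc, Pi.le_def, abs_le]
    constructor
    · exact fun h' => ⟨fun m a => (h' m a).1, fun m a => (h' m a).2⟩
    · exact fun h' m a => ⟨h'.1 m a, h'.2 m a⟩
  have hHfin : volume H < ∞ := by
    rw [hHeq]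
    exact isCompact_Icc.measure_lt_top
  set K : ℝ≥0∞ := volume H * 2 + ENNReal.ofReal (2 * Vm) * (volume H * ENNReal.ofReal (9 * L ^ 2))
    with hK
  have hKfin : K < ∞ := by
    rw [hK]
    refine ENNReal.add_lt_top.2 ⟨ENNReal.mul_lt_top hHfin (by simp), ?_⟩
    exact ENNReal.mul_lt_top ENNReal.ofReal_lt_top (ENNReal.mul_lt_top hHfin ENNReal.ofReal_lt_top)
  -- the potential energy of a cube is finite
  have hJfin : v < ∞ := by
    refine (potential_ge hV hRp hR (ℓ := ℓ₀) le_rfl 0).trans_lt ?_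
    have h1 : ∫⁻ x in Set.pi Set.univ (fun _ : Fin 3 => cube 0 ℓ₀), ENNReal.ofReal (V3 V x) ≤
        ∫⁻ _x in Set.pi Set.univ (fun _ : Fin 3 => cube 0 ℓ₀), ENNReal.ofReal Vm :=
      lintegral_mono fun x => ENNReal.ofReal_le_ofReal (hVm _ _)
    refine h1.trans_lt ?_
    rw [setLIntegral_const]
    refine ENNReal.mul_lt_top ENNReal.ofReal_lt_top ?_
    refine lt_of_le_of_lt (measure_mono ?_) hHfin
    intro x hx m a
    have h2 := hx m (Set.mem_univ m) a
    simp only [Pi.zero_apply, zero_add] at h2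
    rw [abs_le]
    constructor <;> linarith [h2.1, h2.2]
  have hvr : 0 < v.toReal := ENNReal.toReal_pos hvpos.ne' hJfin.ne
  refine ⟨ℓ₀, v.toReal / (3 * (K.toReal + 1)), hℓ₀1, by positivity, ?_⟩
  intro ℓ hℓ hℓ' q u hu
  set Ω := Set.pi Set.univ (fun _ : Fin 3 => cube q ℓ) with hΩ
  have hceq : cube q ℓ = Set.Icc q (fun k => q k + ℓ) := by
    ext c
    simp only [cube, Set.mem_ofPred_eq, Set.mem_Icc, Pi.le_def]
    exact forall_and
  have hΩcomp : IsCompact Ω := by
    rw [hΩ]
    refine isCompact_univ_pi fun _ => ?_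
    rw [hceq]
    exact isCompact_Icc
  have hΩm : MeasurableSet Ω := hΩcomp.measurableSet
  have hconv : Convex ℝ Ω := by
    rw [hΩ]
    refine convex_pi fun _ _ => ?_
    rw [hceq]
    exact convex_Icc _ _
  have hdiam : ∀ x ∈ Ω, ∀ y ∈ Ω, ∀ m a, |(x - y) m a| ≤ L := by
    intro x hx y hy m a
    have h1 := hx m (Set.mem_univ m) a
    have h2 := hy m (Set.mem_univ m) a
    rw [Pi.sub_apply, Pi.sub_apply, abs_le]
    constructor <;> linarith [h1.1, h1.2, h2.1, h2.2]
  have hΩvol : volume Ω ≤ volume H := by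
    have h1 : Ω ⊆ (fun x => x + fun _ => -q) ⁻¹' H := by
      intro x hx m a
      have h2 := hx m (Set.mem_univ m) a
      show |x m a + -q a| ≤ L
      rw [abs_le]
      constructor <;> linarith [h2.1, h2.2]
    refine (measure_mono h1).trans_eq ?_
    exact measure_preimage_add_right volume (fun _ => -q) H
  -- the integrals
  set A : ℝ≥0∞ := ∫⁻ x in Ω, ENNReal.ofReal (u x ^ 2) with hA
  set B : ℝ≥0∞ := ∫⁻ x in Ω, ENNReal.ofReal (V3 V x * u x ^ 2) with hB
  set Gt : ℝ≥0∞ := ∫⁻ x in Ω, ENNReal.ofReal (G u x) with hGt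
  set J : ℝ≥0∞ := ∫⁻ x in Ω, ENNReal.ofReal (V3 V x) with hJ
  have hVJ : v ≤ J := potential_ge hV hRp hR hℓ q
  have hum : Measurable u := hu.continuous.measurable
  have hV3m := measurable_V3 hV
  have hV3n : ∀ x, 0 ≤ V3 V x := fun x => hV.nonneg _ _
  have hdouble := double_le hΩm hconv hu hdiam
  have hGt' : ∫⁻ x in Ω, ENNReal.ofReal (9 * L ^ 2 * G u x) = ENNReal.ofReal (9 * L ^ 2) * Gt := by
    have hGm : Measurable fun x => ENNReal.ofReal (G u x) :=
      ENNReal.measurable_ofReal.comp (continuous_G hu).measurable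
    rw [hGt, ← lintegral_const_mul _ hGm]
    refine lintegral_congr fun x => ?_
    rw [ENNReal.ofReal_mul (by positivity)]
  rw [hGt'] at hdouble
  have hmain : J * A ≤ volume Ω * (2 * B) + ENNReal.ofReal (2 * Vm) *
      (volume H * (ENNReal.ofReal (9 * L ^ 2) * Gt)) := by
    have hpt : ∀ x ∈ Ω, ∀ y ∈ Ω, ENNReal.ofReal (V3 V y) * ENNReal.ofReal (u x ^ 2) ≤
        2 * ENNReal.ofReal (V3 V y * u y ^ 2) + ENNReal.ofReal (2 * Vm) * F Ω u x y := by
      intro x hx y hy
      unfold F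
      rw [if_pos ⟨hx, hy⟩, ← ENNReal.ofReal_mul (hV3n y), ← ENNReal.ofReal_mul (by positivity)]
      have h2 : (2 : ℝ≥0∞) = ENNReal.ofReal 2 := by simp
      rw [h2, ← ENNReal.ofReal_mul (by norm_num), ← ENNReal.ofReal_add
        (mul_nonneg (by norm_num) (mul_nonneg (hV3n y) (sq_nonneg _))) (by positivity)]
      refine ENNReal.ofReal_le_ofReal ?_
      have h3 : u x ^ 2 ≤ 2 * u y ^ 2 + 2 * (u x - u y) ^ 2 := by
        nlinarith [sq_nonneg (u x - 2 * u y)]
      have h4 := hV3n y
      have h5 : V3 V y ≤ Vm := hVm _ _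
      calc V3 V y * u x ^ 2 ≤ V3 V y * (2 * u y ^ 2 + 2 * (u x - u y) ^ 2) :=
            mul_le_mul_of_nonneg_left h3 h4
        _ = 2 * (V3 V y * u y ^ 2) + V3 V y * (2 * (u x - u y) ^ 2) := by ring
        _ ≤ 2 * (V3 V y * u y ^ 2) + Vm * (2 * (u x - u y) ^ 2) :=
            add_le_add le_rfl (mul_le_mul_of_nonneg_right h5 (by positivity))
        _ = 2 * (V3 V y * u y ^ 2) + 2 * Vm * (u x - u y) ^ 2 := by ring
    have hFm := measurable_F hΩm hu.continuous
    have hFx : ∀ x, Measurable fun y => F Ω u x y := fun x => hFm.comp measurable_prodMk_left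
    have hBm : Measurable fun y => ENNReal.ofReal (V3 V y * u y ^ 2) :=
      ENNReal.measurable_ofReal.comp (hV3m.mul (hum.pow_const 2))
    have hVm3 : Measurable fun x => ENNReal.ofReal (V3 V x) :=
      ENNReal.measurable_ofReal.comp hV3m
    have hum2 : Measurable fun x => ENNReal.ofReal (u x ^ 2) :=
      ENNReal.measurable_ofReal.comp (hum.pow_const 2)
    have hin : ∀ x ∈ Ω, J * ENNReal.ofReal (u x ^ 2) ≤
        2 * B + ENNReal.ofReal (2 * Vm) * ∫⁻ y, F Ω u x y := by
      intro x hx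
      calc J * ENNReal.ofReal (u x ^ 2)
          = ∫⁻ y in Ω, ENNReal.ofReal (V3 V y) * ENNReal.ofReal (u x ^ 2) := by
            rw [hJ, lintegral_mul_const _ hVm3]
        _ ≤ ∫⁻ y in Ω, (2 * ENNReal.ofReal (V3 V y * u y ^ 2) +
              ENNReal.ofReal (2 * Vm) * F Ω u x y) :=
            setLIntegral_mono' hΩm fun y hy => hpt x hx y hy
        _ = 2 * B + ENNReal.ofReal (2 * Vm) * ∫⁻ y in Ω, F Ω u x y := by
            rw [lintegral_add_left (hBm.const_mul _), lintegral_const_mul _ hBm,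
              lintegral_const_mul _ (hFx x)]
        _ ≤ 2 * B + ENNReal.ofReal (2 * Vm) * ∫⁻ y, F Ω u x y := by
            gcongr
            exact Measure.restrict_le_self
    have hFint : Measurable fun x => ∫⁻ y, F Ω u x y := hFm.lintegral_prod_right'
    calc J * A = ∫⁻ x in Ω, J * ENNReal.ofReal (u x ^ 2) := by
          rw [hA, lintegral_const_mul _ hum2]
      _ ≤ ∫⁻ x in Ω, (2 * B + ENNReal.ofReal (2 * Vm) * ∫⁻ y, F Ω u x y) :=
          setLIntegral_mono' hΩm hin
      _ = volume Ω * (2 * B) + ENNReal.ofReal (2 * Vm) * ∫⁻ x in Ω, ∫⁻ y, F Ω u x y := by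
          rw [lintegral_add_left measurable_const, setLIntegral_const,
            lintegral_const_mul _ hFint, mul_comm (2 * B)]
      _ ≤ volume Ω * (2 * B) + ENNReal.ofReal (2 * Vm) * ∫⁻ x, ∫⁻ y, F Ω u x y := by
          gcongr
          exact Measure.restrict_le_self
      _ ≤ _ := by gcongr
  have hfinal : v * A ≤ K * (B + Gt) := by
    calc v * A ≤ J * A := by gcongr
      _ ≤ _ := hmain
      _ ≤ volume H * (2 * B) + ENNReal.ofReal (2 * Vm) *
          (volume H * (ENNReal.ofReal (9 * L ^ 2) * Gt)) := by gcongr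
      _ = volume H * 2 * B + ENNReal.ofReal (2 * Vm) * (volume H * ENNReal.ofReal (9 * L ^ 2)) *
          Gt := by ring
      _ ≤ K * B + K * Gt := by
          rw [hK]
          gcongr
          · exact le_self_add
          · exact le_add_self
      _ = K * (B + Gt) := by ring
  -- back to real integrals
  have hu2i : IntegrableOn (fun x => u x ^ 2) Ω :=
    (hu.continuous.pow 2).continuousOn.integrableOn_compact hΩcomp
  have hGi : IntegrableOn (G u) Ω := (continuous_G hu).continuousOn.integrableOn_compact hΩcomp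
  have hVi : IntegrableOn (fun x => V3 V x * u x ^ 2) Ω := by
    refine Integrable.mono' (hu2i.const_mul Vm)
      ((hV3m.mul (hum.pow_const 2)).aestronglyMeasurable) ?_
    refine Filter.Eventually.of_forall fun x => ?_
    rw [Real.norm_of_nonneg (mul_nonneg (hV3n x) (sq_nonneg _))]
    exact mul_le_mul_of_nonneg_right (hVm _ _) (sq_nonneg _)
  have eA : A = ENNReal.ofReal (∫ x in Ω, u x ^ 2) :=
    (ofReal_integral_eq_lintegral_ofReal hu2i
      (Filter.Eventually.of_forall fun x => sq_nonneg _)).symm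
  have eB : B = ENNReal.ofReal (∫ x in Ω, V3 V x * u x ^ 2) :=
    (ofReal_integral_eq_lintegral_ofReal hVi
      (Filter.Eventually.of_forall fun x => mul_nonneg (hV3n x) (sq_nonneg _))).symm
  have eG : Gt = ENNReal.ofReal (∫ x in Ω, G u x) :=
    (ofReal_integral_eq_lintegral_ofReal hGi
      (Filter.Eventually.of_forall fun x => G_nonneg u x)).symm
  have hAn : 0 ≤ ∫ x in Ω, u x ^ 2 := setIntegral_nonneg hΩm fun x _ => sq_nonneg _
  have hBn : 0 ≤ ∫ x in Ω, V3 V x * u x ^ 2 :=
    setIntegral_nonneg hΩm fun x _ => mul_nonneg (hV3n x) (sq_nonneg _)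
  have hGn : 0 ≤ ∫ x in Ω, G u x := setIntegral_nonneg hΩm fun x _ => G_nonneg u x
  have hreal : v.toReal * ∫ x in Ω, u x ^ 2 ≤
      K.toReal * ((∫ x in Ω, V3 V x * u x ^ 2) + ∫ x in Ω, G u x) := by
    rw [eA, eB, eG, ← ENNReal.ofReal_add hBn hGn] at hfinal
    have h1 := ENNReal.toReal_mono (ENNReal.mul_lt_top hKfin ENNReal.ofReal_lt_top).ne hfinal
    rw [ENNReal.toReal_mul, ENNReal.toReal_mul, ENNReal.toReal_ofReal hAn,
      ENNReal.toReal_ofReal (add_nonneg hBn hGn)] at h1
    exact h1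
  have hsum : ∫ x in Ω, (∑ m, ∑ a, pd u m a x ^ 2 + V3 V x * u x ^ 2) =
      (∫ x in Ω, V3 V x * u x ^ 2) + ∫ x in Ω, G u x := by
    have h1 := integral_add hGi hVi
    rw [add_comm (∫ x in Ω, V3 V x * u x ^ 2)]
    exact h1
  rw [hsum]
  set P : ℝ := (∫ x in Ω, V3 V x * u x ^ 2) + ∫ x in Ω, G u x with hP
  have hP0 : 0 ≤ P := add_nonneg hBn hGn
  have hK1 : 0 < K.toReal + 1 := by
    have := ENNReal.toReal_nonneg (a := K)
    linarith
  have h1 : 3 * (v.toReal / (3 * (K.toReal + 1))) * ∫ x in Ω, u x ^ 2 =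
      (v.toReal * ∫ x in Ω, u x ^ 2) / (K.toReal + 1) := by
    field_simp
  rw [h1, div_le_iff₀ hK1]
  nlinarith

end Pool.Agent.Lib.MP_5db8e2_mp
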