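import Pool.Agent.Lib.MP_5db8e2_mp.LB.Spec5

/-!
# Lower bound, part 5: reduction to compactly supported functions
-/

set_option autoImplicit false

open MeasureTheory Function Finset
open scoped Classical

namespace Pool.Agent.Lib.MP_5db8e2_mp

theorem CutRed : S_CutRed := by
  intro N L Ψ hΨ
  have hR : 0 < |L| + 1 := by positivity
  let f : ContDiffBump (0 : Fin N → R3) := ⟨|L| + 1, |L| + 2, hR, by linarith⟩
  have hf : ContDiff ℝ 1 (f : (Fin N → R3) → ℝ) := f.contDiff
  have hnear : ∀ x ∈ box L N, (fun y => f y * Ψ y) =ᶠ[nhds x] Ψ := by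
    intro x hx
    have hxn : ‖x‖ ≤ |L| := by
      rw [pi_norm_le_iff_of_nonneg (abs_nonneg L)]
      intro i
      rw [pi_norm_le_iff_of_nonneg (abs_nonneg L)]
      intro a
      rw [Real.norm_eq_abs]
      have h1 := hx i a
      have h2 := le_abs_self L
      have h3 := abs_nonneg L
      linarith
    have hmem : x ∈ Metric.ball (0 : Fin N → R3) (|L| + 1) := by
      rw [Metric.mem_ball, dist_zero_right]; linarith
    filter_upwards [Metric.isOpen_ball.mem_nhds hmem] with y hy
    have : f y = 1 := f.one_of_mem_closedBall (Metric.ball_subset_closedBall hy)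
    rw [this, one_mul]
  refine ⟨fun y => f y * Ψ y, hf.mul hΨ, f.hasCompactSupport.mul_right, fun x hx => ?_⟩
  refine ⟨(hnear x hx).eq_of_nhds, fun i a => ?_⟩
  unfold pd
  rw [(hnear x hx).fderiv_eq]

end Pool.Agent.Lib.MP_5db8e2_mp
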