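import Pool.Agent.Lib.MP_5db8e2_mp.LB.Spec4

/-!
# Lower bound, part 4: cluster coordinates (`S_Put`)
-/

set_option autoImplicit false

open MeasureTheory Function Finset
open scoped Classical

namespace Pool.Agent.Lib.MP_5db8e2_mp

namespace PutAux

variable {N k : ℕ} {A : Finset (Fin N)}

theorem put_mem (hk : A.card = k) (y : Fin k → R3) (x : Fin N → R3) {i : Fin N} (hi : i ∈ A) :
    put k A y x i = y ((A.orderIsoOfFin hk).symm ⟨i, hi⟩) := by
  unfold put
  rw [dif_pos ⟨hk, hi⟩]

theorem put_notMem (y : Fin k → R3) (x : Fin N → R3) {i : Fin N} (hi : i ∉ A) :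
    put k A y x i = x i := by
  unfold put
  rw [dif_neg fun h => hi h.2]

theorem emb_eq (hk : A.card = k) (m : Fin k) :
    A.orderEmbOfFin hk m = (A.orderIsoOfFin hk m : Fin N) := rfl

theorem emb_symm (hk : A.card = k) {i : Fin N} (hi : i ∈ A) :
    A.orderEmbOfFin hk ((A.orderIsoOfFin hk).symm ⟨i, hi⟩) = i := by
  rw [emb_eq, OrderIso.apply_symm_apply]

theorem put_emb (hk : A.card = k) (y : Fin k → R3) (x : Fin N → R3) (m : Fin k) :
    put k A y x (A.orderEmbOfFin hk m) = y m := by
  rw [put_mem hk y x (Finset.orderEmbOfFin_mem A hk m)]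
  congr 1
  have : (⟨A.orderEmbOfFin hk m, Finset.orderEmbOfFin_mem A hk m⟩ : A) = A.orderIsoOfFin hk m :=
    Subtype.ext rfl
  rw [this, OrderIso.symm_apply_apply]

theorem pick_eq (hk : A.card = k) (x : Fin N → R3) (m : Fin k) :
    pick k A x m = x (A.orderEmbOfFin hk m) := by
  unfold pick
  rw [dif_pos hk]

theorem pick_put (hk : A.card = k) (y : Fin k → R3) (x : Fin N → R3) :
    pick k A (put k A y x) = y := by
  funext m
  rw [pick_eq hk, put_emb hk]

theorem put_pick (hk : A.card = k) (x : Fin N → R3) : put k A (pick k A x) x = x := by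
  funext i
  by_cases hi : i ∈ A
  · rw [put_mem hk _ _ hi, pick_eq hk, emb_symm hk hi]
  · rw [put_notMem _ _ hi]

theorem sum_emb (hk : A.card = k) {M : Type*} [AddCommMonoid M] (f : Fin N → M) :
    ∑ i ∈ A, f i = ∑ m : Fin k, f (A.orderEmbOfFin hk m) := by
  rw [← Finset.sum_coe_sort A f]
  exact ((A.orderIsoOfFin hk).toEquiv.sum_comp fun z : A => f z).symm

theorem cmA_put (hk : A.card = k) (y : Fin k → R3) (x : Fin N → R3) :
    Par.cmA A (put k A y x) = cm y := by
  funext a
  unfold Par.cmA cm
  rw [sum_emb hk, hk]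
  simp only [put_emb hk]

theorem continuous_pick (k : ℕ) (A : Finset (Fin N)) :
    Continuous (pick k A : (Fin N → R3) → (Fin k → R3)) := by
  unfold pick
  by_cases hk : A.card = k
  · simp only [dif_pos hk]
    exact continuous_pi fun m => continuous_apply _
  · simp only [dif_neg hk]
    exact continuous_const

/-- The linear part of `put`. -/
noncomputable def putL (hk : A.card = k) : (Fin k → R3) →L[ℝ] (Fin N → R3) :=
  ContinuousLinearMap.pi fun i =>
    if hi : i ∈ A then ContinuousLinearMap.proj ((A.orderIsoOfFin hk).symm ⟨i, hi⟩) else 0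

theorem put_eq (hk : A.card = k) (y : Fin k → R3) (x : Fin N → R3) :
    put k A y x = putL hk y + put k A 0 x := by
  funext i
  rw [Pi.add_apply]
  unfold putL
  rw [ContinuousLinearMap.pi_apply]
  by_cases hi : i ∈ A
  · rw [put_mem hk _ _ hi, put_mem hk _ _ hi, dif_pos hi]
    simp
  · rw [put_notMem _ _ hi, put_notMem _ _ hi, dif_neg hi]
    simp

theorem putL_single (hk : A.card = k) (m : Fin k) (v : R3) :
    putL hk (Pi.single m v) = Pi.single (A.orderEmbOfFin hk m) v := by
  funext i
  unfold putL
  rw [ContinuousLinearMap.pi_apply]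
  by_cases hi : i ∈ A
  · rw [dif_pos hi]
    obtain ⟨m', hm'⟩ := (A.orderIsoOfFin hk).surjective ⟨i, hi⟩
    have hi' : i = A.orderEmbOfFin hk m' := by rw [emb_eq, hm']
    rw [← hm', OrderIso.symm_apply_apply, ContinuousLinearMap.proj_apply, hi']
    by_cases h : m' = m
    · subst h
      rw [Pi.single_eq_same, Pi.single_eq_same]
    · rw [Pi.single_eq_of_ne h, Pi.single_eq_of_ne]
      exact fun h' => h ((A.orderEmbOfFin hk).injective h')
  · rw [dif_neg hi, ContinuousLinearMap.zero_apply, Pi.single_eq_of_ne]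
    rintro rfl
    exact hi (Finset.orderEmbOfFin_mem A hk m)

theorem hasFDerivAt_put (hk : A.card = k) (x : Fin N → R3) (y : Fin k → R3) :
    HasFDerivAt (fun y => put k A y x) (putL hk) y := by
  have h : (fun y => put k A y x) = fun y => putL hk y + put k A 0 x := by
    funext y
    exact put_eq hk y x
  rw [h]
  exact (putL hk).hasFDerivAt.add_const _

theorem contDiff_put (hk : A.card = k) (x : Fin N → R3) {n : WithTop ℕ∞} :
    ContDiff ℝ n (fun y => put k A y x) := by
  have h : (fun y => put k A y x) = fun y => putL hk y + put k A 0 x := by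
    funext y
    exact put_eq hk y x
  rw [h]
  exact (putL hk).contDiff.add contDiff_const

theorem pd_put (hk : A.card = k) (x : Fin N → R3) {F : (Fin N → R3) → ℝ} (hF : ContDiff ℝ 1 F)
    (m : Fin k) (a : Fin 3) (y : Fin k → R3) :
    pd (fun y => F (put k A y x)) m a y = pd F (A.orderEmbOfFin hk m) a (put k A y x) := by
  have h1 : HasFDerivAt F (fderiv ℝ F (put k A y x)) (put k A y x) :=
    (hF.differentiable one_ne_zero).differentiableAt.hasFDerivAt
  have h2 := h1.comp y (hasFDerivAt_put hk x y)
  have h3 : HasFDerivAt (fun y => F (put k A y x))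
      ((fderiv ℝ F (put k A y x)).comp (putL hk)) y := h2
  unfold pd
  rw [h3.fderiv, ContinuousLinearMap.comp_apply, putL_single]

theorem hasCompactSupport_put (hk : A.card = k) (x : Fin N → R3) {F : (Fin N → R3) → ℝ}
    (hF : HasCompactSupport F) : HasCompactSupport (fun y => F (put k A y x)) := by
  refine HasCompactSupport.intro (hF.isCompact.image (continuous_pick k A)) fun y hy => ?_
  apply image_eq_zero_of_notMem_tsupport
  intro h
  exact hy ⟨put k A y x, h, pick_put hk y x⟩

theorem Mg_put (hk : A.card = k) (x : Fin N → R3) (lam : Measure R3) [IsFiniteMeasure lam]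
    (F : (Fin N → R3) → ℝ) :
    Mg lam A F x = ∫ y, F (put k A y x) ∂Measure.pi (fun _ : Fin k => lam) := by
  let e : Fin k ≃ A := (A.orderIsoOfFin hk).toEquiv
  have h := (measurePreserving_piCongrLeft (fun _ : A => lam) e).integral_comp'
    (g := fun y => F (updateFinset x A y))
  rw [Mg, ← h]
  congr 1
  funext y
  congr 1
  funext i
  by_cases hi : i ∈ A
  · rw [put_mem hk _ _ hi]
    simp only [updateFinset_def, hi, dif_pos]
    obtain ⟨m, hm⟩ := e.surjective ⟨i, hi⟩
    have h1 : (A.orderIsoOfFin hk).symm ⟨i, hi⟩ = m := by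
      rw [← hm]
      exact (A.orderIsoOfFin hk).symm_apply_apply m
    rw [h1, ← hm]
    exact Equiv.piCongrLeft_apply_apply (fun _ : A => R3) e y m
  · rw [put_notMem _ _ hi]
    simp [updateFinset_def, hi]

end PutAux

open PutAux

/-- Cluster coordinates. -/
theorem Put : S_Put := by
  intro N k A hk y x
  refine ⟨pick_put hk y x, put_pick hk x, fun i hi => put_notMem y x hi, cmA_put hk y x,
    put_emb hk y x, fun lam _ F => Mg_put hk x lam F, fun F hF => ⟨hF.comp (contDiff_put hk x),
      fun m a => pd_put hk x hF m a y⟩, fun F hF => hasCompactSupport_put hk x hF⟩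

end Pool.Agent.Lib.MP_5db8e2_mp
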