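import Pool.Agent.Lib.MP_5db8e2_mp.TrialB2
import Pool.Agent.Lib.MP_5db8e2_mp.LB.Spec5
import Pool.Agent.Lib.MP_5db8e2_mp.LB.Put

/-!
# Lower bound, part 5: the charges of the triples (`S_KerW3`)
-/

set_option autoImplicit false

open MeasureTheory Function Finset
open scoped Classical

namespace Pool.Agent.Lib.MP_5db8e2_mp

namespace KerWAux

open PutAux

variable {N k : ℕ} {A : Finset (Fin N)}

/-- Bounded functions with support in a ball. -/
theorem int_ball {f : (Fin k → R3) → ℝ} (hf : Measurable f) {z : Fin k → R3} {ρ B : ℝ}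
    (hρ : 0 ≤ ρ) (hB : ∀ y, |f y| ≤ B) (hs : ∀ y, f y ≠ 0 → ‖y - z‖ ≤ ρ) :
    Integrable f ∧ |∫ y, f y| ≤ B * (2 * ρ) ^ (3 * k) := by
  have hvol : volume (Metric.closedBall z ρ) = ENNReal.ofReal ((2 * ρ) ^ (3 * k)) := by
    rw [volume_pi_closedBall z hρ]
    simp only [Real.volume_pi_closedBall _ hρ, Fintype.card_fin, Finset.prod_const,
      Finset.card_univ]
    rw [← ENNReal.ofReal_pow (by positivity), ← pow_mul]
  have hfin : volume (Metric.closedBall z ρ) ≠ ⊤ := by
    rw [hvol]
    exact ENNReal.ofReal_ne_top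
  have hsupp : Function.support f ⊆ Metric.closedBall z ρ := by
    intro y hy
    rw [Metric.mem_closedBall, dist_eq_norm]
    exact hs y hy
  constructor
  · rw [← integrableOn_iff_integrable_of_support_subset hsupp]
    exact Measure.integrableOn_of_bounded (M := B) hfin hf.aestronglyMeasurable
      (Filter.Eventually.of_forall fun y => hB y)
  · have h1 : ∫ y, f y = ∫ y in Metric.closedBall z ρ, f y := by
      rw [setIntegral_eq_integral_of_forall_compl_eq_zero]
      intro y hy
      by_contra hne
      exact hy (hsupp hne)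
    rw [h1]
    have h2 := norm_setIntegral_le_of_norm_le_const (f := f) (C := B)
      (lt_top_iff_ne_top.mpr hfin) (fun y _ => hB y)
    rw [Real.norm_eq_abs, Measure.real, hvol, ENNReal.toReal_ofReal (by positivity)] at h2
    exact h2

theorem cmA_eq (hk : A.card = k) (x : Fin N → R3) : Par.cmA A x = cm (pick k A x) := by
  have h := cmA_put hk (pick k A x) x
  rwa [put_pick hk] at h

/-- The enumeration of `A` without its element number `j`. -/
theorem emb_erase (hk : A.card = k + 1) (j : Fin (k + 1)) (m : Fin k) :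
    A.orderEmbOfFin hk (j.succAbove m) =
      (A.erase (A.orderEmbOfFin hk j)).orderEmbOfFin
        (by rw [Finset.card_erase_of_mem (Finset.orderEmbOfFin_mem A hk j), hk]; rfl) m := by
  have h := Finset.orderEmbOfFin_unique (s := A.erase (A.orderEmbOfFin hk j))
    (by rw [Finset.card_erase_of_mem (Finset.orderEmbOfFin_mem A hk j), hk]; rfl)
    (f := fun m => A.orderEmbOfFin hk (j.succAbove m)) (fun m => ?_) ?_
  · exact congrFun h m
  · rw [Finset.mem_erase]
    refine ⟨fun h => ?_, Finset.orderEmbOfFin_mem A hk _⟩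
    exact Fin.succAbove_ne j m ((A.orderEmbOfFin hk).injective h)
  · intro m m' hm
    exact (A.orderEmbOfFin hk).strictMono (Fin.strictMono_succAbove j hm)

theorem pick_put_erase (hk : A.card = k + 1) (j : Fin (k + 1)) (y : Fin k → R3) (x : Fin N → R3) :
    pick (k + 1) A (put k (A.erase (A.orderEmbOfFin hk j)) y x) =
      j.insertNth (x (A.orderEmbOfFin hk j)) y := by
  have hk' : (A.erase (A.orderEmbOfFin hk j)).card = k := by
    rw [Finset.card_erase_of_mem (Finset.orderEmbOfFin_mem A hk j), hk]
    rfl
  funext m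
  rw [pick_eq hk]
  refine Fin.succAboveCases j ?_ (fun m' => ?_) m
  · rw [put_notMem _ _ (Finset.notMem_erase _ _), Fin.insertNth_apply_same]
  · rw [emb_erase hk j m', put_emb hk', Fin.insertNth_apply_succAbove]

theorem insertNth_eq (j : Fin (k + 1)) (t : R3) (y : Fin k → R3) :
    (j.insertNth t y : Fin (k + 1) → R3) = (Fin.cons t y : Fin (k + 1) → R3) ∘ j.cycleRange := by
  rw [Fin.cons_comp_cycleRange]

theorem TI_cons {w : (Fin (k + 1) → R3) → ℝ} (ht : TI w) (t : R3) (y : Fin k → R3) :
    w (Fin.cons t y) = w (Fin.cons 0 (y - fun _ => t)) := by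
  rw [← ht (Fin.cons 0 (y - fun _ => t)) t]
  congr 1
  funext m
  refine Fin.cases ?_ (fun m => ?_) m
  · simp
  · simp

theorem integral_cons {w : (Fin (k + 1) → R3) → ℝ} (ht : TI w) (t : R3) :
    ∫ y : Fin k → R3, w (Fin.cons t y) = rint w := by
  simp only [TI_cons ht t]
  rw [rint]
  exact integral_sub_right_eq_self (fun y : Fin k → R3 => w (Fin.cons 0 y)) (fun _ => t)

theorem measurable_cons (t : R3) :
    Measurable fun y : Fin k → R3 => (Fin.cons t y : Fin (k + 1) → R3) := by
  refine measurable_pi_lambda _ fun m => ?_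
  refine Fin.cases ?_ (fun m => ?_) m
  · simp
  · simpa using measurable_pi_apply m

theorem norm_cons_sub_le (t : R3) (y : Fin k → R3) :
    ‖y - fun _ => t‖ ≤ 2 * rad (Fin.cons t y : Fin (k + 1) → R3) := by
  rw [pi_norm_le_iff_of_nonneg (by linarith [rad_nonneg (Fin.cons t y : Fin (k + 1) → R3)])]
  intro m
  have h := norm_sub_le_rad (Fin.cons t y : Fin (k + 1) → R3) m.succ 0
  simpa using h

theorem pick_dep (k : ℕ) (A : Finset (Fin N)) {x x' : Fin N → R3} (h : ∀ i ∈ A, x i = x' i) :
    pick k A x = pick k A x' := by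
  funext m
  unfold pick
  by_cases hk : A.card = k
  · rw [dif_pos hk, dif_pos hk, h _ (Finset.orderEmbOfFin_mem A hk m)]
  · rw [dif_neg hk, dif_neg hk]

theorem cmA_dep (A : Finset (Fin N)) {x x' : Fin N → R3} (h : ∀ i ∈ A, x i = x' i) :
    Par.cmA A x = Par.cmA A x' := by
  funext a
  unfold Par.cmA
  rw [Finset.sum_congr rfl fun m hm => by rw [h m hm]]

theorem measurable_cmA (A : Finset (Fin N)) : Measurable (Par.cmA A : (Fin N → R3) → R3) := by
  refine measurable_pi_lambda _ fun a => ?_
  unfold Par.cmA
  refine Measurable.div_const ?_ _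
  exact Finset.measurable_sum _ fun m _ => (measurable_pi_apply a).comp (measurable_pi_apply m)

/-- The points of a cluster in a window lie in the cube. -/
theorem supp_mem (hS : S_Supp) {p : Par} (hp : p.OK) {r4 : ℝ} (h0 : 0 ≤ r4) (hL : p.Large r4)
    (a : Fin 3 → ℤ) {A : Finset (Fin p.N)} (hk : A.card = k) (hk1 : 1 ≤ k) {x : Fin p.N → R3}
    (hth : th p.s p.e a (Par.cmA A x) ≠ 0) (hr : rad (pick k A x) ≤ r4) (i : Fin p.N)
    (hi : i ∈ A) : x i ∈ Qc p.s a := by
  obtain ⟨-, h, -⟩ := hS p hp r4 h0 hL a k A hk hk1 x hth hr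
  refine h i hi i ?_
  rw [sub_self, norm_zero]
  positivity

end KerWAux

open PutAux KerWAux

/-- Properties of the charges of the triples. -/
theorem KerW3 (hW : S_WinFacts) (hWd : S_WdWin) (_hPut : S_Put) (hCl : S_ClInt) (hS : S_Supp)
    (hBM : S_BMall) : S_KerW3 := by
  intro K
  obtain ⟨CW, hCW, hW⟩ := hW
  refine ⟨4096 * (|K| + 1) * CW, by positivity, ?_⟩
  intro V b R r r4 W QQ c hc p hp hL a ha
  have hr4 : 0 ≤ r4 := by linarith [hc.hr, hc.hr4]
  have hr1 : (1 : ℝ) ≤ r := hc.hr
  have hr0 : 0 < r := by linarith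
  have hK0 : 0 ≤ K := by linarith [hc.hK]
  have hs1 := hp.hs
  have hs0 : 0 < p.s := by linarith
  obtain ⟨hthc, hth01, hths, hthL, -, -, -, hthi, hthI⟩ := hW p.s p.e hp.hs hp.he hp.he' a
  obtain ⟨hwd, hQOm⟩ := hWd p hp a ha
  have hwm := hc.d3.w_meas
  have hwti := hc.d3.w_ti
  have hwpi := hc.d3.w_pi
  have hws := hc.d3.w_supp
  have hwb := hc.d3.w_bd
  have hwi := hc.d3.w_int
  have hthm : Measurable (th p.s p.e a) := hthc.continuous.measurable
  have hth1 : ∀ z, |th p.s p.e a z| ≤ 1 := fun z => by
    rw [abs_of_nonneg (hth01 z).1]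
    exact (hth01 z).2
  have hW3 : ∀ T : Finset (Fin p.N), T.card = 3 → ∀ x,
      p.W3 c a T x = c.w (pick 3 T x) * th p.s p.e a (Par.cmA T x) := fun T hT x => by
    unfold Par.W3
    rw [if_pos hT]
  refine ⟨fun T hT x => ?_, fun T hT i hi x => ?_, ?_⟩
  · -- the full integral
    have hT3 : T.card = 3 := (Finset.mem_powersetCard.1 hT).2
    have h1 := hCl p 3 T hT3 x (p.W3 c a T) (fun y => th p.s p.e a (cm y) * c.w y) (fun y => by
      rw [hW3 T hT3, pick_put hT3, cmA_put hT3, mul_comm]) (fun y hy m => by
      have hth : th p.s p.e a (Par.cmA T (put 3 T y x)) ≠ 0 := by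
        rw [cmA_put hT3]
        exact left_ne_zero_of_mul hy
      have hrad : rad (pick 3 T (put 3 T y x)) ≤ r4 := by
        rw [pick_put hT3]
        exact (hws y (right_ne_zero_of_mul hy)).trans hc.hr4
      have := supp_mem hS hp hr4 hL a hT3 (by norm_num) hth hrad (T.orderEmbOfFin hT3 m)
        (Finset.orderEmbOfFin_mem T hT3 m)
      rw [put_emb hT3] at this
      exact hQOm this)
    rw [h1]
    have hRI : RI c.w := RI_of_bdd hwm hwb hws
    have h2 := (integral_weight (k := 2) hwm hwti hRI (ℓ := cm) continuous_cm.measurable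
      (fun x v => cm_shift (by norm_num) x v) hthi).2
    rw [h2, hthI, hwi, mul_comm]
  · -- the integral over two of the three variables
    have hT3 : T.card = 3 := (Finset.mem_powersetCard.1 hT).2
    obtain ⟨j, hj⟩ : ∃ j, T.orderEmbOfFin hT3 j = i := by
      have : i ∈ Set.range (T.orderEmbOfFin hT3) := by
        rw [Finset.range_orderEmbOfFin]
        exact hi
      exact this
    subst hj
    set t : R3 := x (T.orderEmbOfFin hT3 j) with ht
    have hk' : (T.erase (T.orderEmbOfFin hT3 j)).card = 2 := by
      rw [Finset.card_erase_of_mem (Finset.orderEmbOfFin_mem T hT3 j), hT3]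
    have hpk : ∀ y, pick 3 T (put 2 (T.erase (T.orderEmbOfFin hT3 j)) y x) =
        j.insertNth t y := fun y => pick_put_erase (k := 2) hT3 j y x
    have hwy : ∀ y, c.w (j.insertNth t y) = c.w (Fin.cons t y) := fun y => by
      rw [insertNth_eq, hwpi]
    have hcmy : ∀ y : Fin 2 → R3, cm (j.insertNth t y : Fin 3 → R3) =
        cm (Fin.cons t y : Fin 3 → R3) := fun y => by
      rw [insertNth_eq, cm_perm]
    have hrady : ∀ y : Fin 2 → R3, rad (j.insertNth t y : Fin 3 → R3) =
        rad (Fin.cons t y : Fin 3 → R3) := fun y => by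
      rw [insertNth_eq, PI_rad]
    -- support
    have hsuppy : ∀ y : Fin 2 → R3, c.w (Fin.cons t y) * th p.s p.e a (cm (Fin.cons t y)) ≠ 0 →
        ∀ l ∈ T, put 2 (T.erase (T.orderEmbOfFin hT3 j)) y x l ∈ Qc p.s a := by
      intro y hy l hl
      refine supp_mem hS hp hr4 hL a hT3 (by norm_num) ?_ ?_ l hl
      · rw [cmA_eq hT3, hpk, hcmy]
        exact right_ne_zero_of_mul hy
      · rw [hpk, hrady]
        exact (hws _ (left_ne_zero_of_mul hy)).trans hc.hr4
    have h1 := hCl p 2 (T.erase (T.orderEmbOfFin hT3 j)) hk' x (p.W3 c a T)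
      (fun y => c.w (Fin.cons t y) * th p.s p.e a (cm (Fin.cons t y))) (fun y => by
        rw [hW3 T hT3, cmA_eq hT3, hpk, hwy, hcmy]) (fun y hy m => by
        have h2 := hsuppy y hy ((T.erase (T.orderEmbOfFin hT3 j)).orderEmbOfFin hk' m)
          (Finset.mem_of_mem_erase (Finset.orderEmbOfFin_mem _ hk' m))
        rw [put_emb hk'] at h2
        exact hQOm h2)
    rw [h1]
    have hgd : p.s ^ 3 * p.gd a t = th p.s p.e a t := by
      unfold Par.gd
      field_simp
    rw [hgd]
    by_cases htQ : t ∈ Qc p.s a
    · rw [ind_of_mem htQ, mul_one]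
      have hmw : Measurable fun y : Fin 2 → R3 => c.w (Fin.cons t y) :=
        hwm.comp (measurable_cons t)
      have hmth : Measurable fun y : Fin 2 → R3 => th p.s p.e a (cm (Fin.cons t y : Fin 3 → R3)) :=
        hthm.comp (continuous_cm.measurable.comp (measurable_cons t))
      have i1 := (int_ball (k := 2) (z := fun _ => t) (ρ := 2 * r) (B := K / r ^ 6) hmw
        (by positivity) (fun y => hwb _) (fun y hy =>
          (norm_cons_sub_le t y).trans (by linarith [hws _ hy]))).1
      have hb0 : 0 ≤ K / r ^ 6 := by positivity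
      have i2 := (int_ball (k := 2) (z := fun _ => t) (ρ := 2 * r) (B := K / r ^ 6)
        (f := fun y => c.w (Fin.cons t y) * th p.s p.e a (cm (Fin.cons t y : Fin 3 → R3)))
        (hmw.mul hmth) (by positivity) (fun y => by
          rw [abs_mul]
          calc |c.w (Fin.cons t y)| * |th p.s p.e a (cm (Fin.cons t y : Fin 3 → R3))|
              ≤ K / r ^ 6 * 1 := mul_le_mul (hwb _) (hth1 _) (abs_nonneg _) hb0
            _ = K / r ^ 6 := mul_one _) (fun y hy =>
          (norm_cons_sub_le t y).trans (by linarith [hws _ (left_ne_zero_of_mul hy)]))).1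
      have hb : b * th p.s p.e a t = ∫ y : Fin 2 → R3, c.w (Fin.cons t y) * th p.s p.e a t := by
        rw [integral_mul_const, integral_cons (k := 2) hwti, hwi]
      rw [hb, ← integral_sub i2 (i1.mul_const _)]
      have h3 := (int_ball (k := 2) (z := fun _ => t) (ρ := 2 * r)
        (B := K / r ^ 6 * (CW / p.s * r))
        (f := fun y => c.w (Fin.cons t y) * th p.s p.e a (cm (Fin.cons t y : Fin 3 → R3)) -
          c.w (Fin.cons t y) * th p.s p.e a t) ((hmw.mul hmth).sub (hmw.mul_const _))
        (by positivity) (fun y => by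
          rw [← mul_sub]
          by_cases h0 : c.w (Fin.cons t y) = 0
          · rw [h0, zero_mul, abs_zero]
            positivity
          · rw [abs_mul]
            refine mul_le_mul (hwb _) ?_ (abs_nonneg _) hb0
            refine (hthL _ _).trans (mul_le_mul_of_nonneg_left ?_ (by positivity))
            rw [pi_norm_le_iff_of_nonneg hr0.le]
            intro l
            have h4 := abs_sub_cm_le (Fin.cons t y : Fin 3 → R3) 0 l
            rw [Fin.cons_zero] at h4
            rw [Pi.sub_apply, Real.norm_eq_abs, abs_sub_comm]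
            exact h4.trans (hws _ h0)) (fun y hy => by
          refine (norm_cons_sub_le t y).trans ?_
          have h0 : c.w (Fin.cons t y) ≠ 0 := by
            intro h0
            apply hy
            simp only [h0, zero_mul, sub_self]
          linarith [hws _ h0])).2
      refine h3.trans ?_
      have h5 : K / r ^ 6 * (CW / p.s * r) * (2 * (2 * r)) ^ (3 * 2) =
          4096 * K * CW * (r / p.s) := by
        field_simp
        ring
      rw [h5]
      have h6 : K ≤ |K| + 1 := by linarith [le_abs_self K]
      gcongr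
    · rw [ind_of_notMem htQ, mul_zero]
      have h2 : th p.s p.e a t = 0 := by
        by_contra hne
        apply htQ
        intro l
        refine (hths t hne l).trans ?_
        nlinarith [hp.he]
      have h3 : (fun y : Fin 2 → R3 => c.w (Fin.cons t y) * th p.s p.e a (cm (Fin.cons t y))) =
          fun _ => 0 := by
        funext y
        by_contra hne
        apply htQ
        have h4 := hsuppy y hne (T.orderEmbOfFin hT3 j) (Finset.orderEmbOfFin_mem T hT3 j)
        rwa [put_notMem _ _ (Finset.notMem_erase _ _)] at h4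
      rw [h2, h3]
      simp
  · -- the structure `TW`
    refine ⟨fun T => ?_, fun T x x' hxx => ?_, ?_, fun z => ?_, fun z => ?_, fun z => ?_,
      fun z => ?_, by positivity, by positivity, ?_, fun T hT i hi x => ?_⟩
    · by_cases hT : T.card = 3
      · have h1 : p.W3 c a T = fun x => c.w (pick 3 T x) * th p.s p.e a (Par.cmA T x) := by
          funext x
          exact hW3 T hT x
        rw [h1]
        refine BM.mul ?_ ⟨hthm.comp (measurable_cmA T), 1, fun x => hth1 _⟩
        obtain ⟨-, -, -, -, h2, -⟩ := hBM V b K R r r4 W QQ c hc p hp (fun _ => 0) (BM.const 0) T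
        exact h2
      · have h1 : p.W3 c a T = fun _ => 0 := by
          funext x
          unfold Par.W3
          rw [if_neg hT]
        rw [h1]
        exact BM.const 0
    · unfold Par.W3
      rw [pick_dep 3 T (fun i hi => hxx i hi), cmA_dep T (fun i hi => hxx i hi)]
    · exact Measurable.ite (measurableSet_le measurable_norm measurable_const) measurable_const
        measurable_const
    · split_ifs <;> norm_num
    · split_ifs <;> norm_num
    · rw [norm_neg]
    · have h1 : ∀ t : R3, (if ‖z - t‖ ≤ 2 * r then (1 : ℝ) else 0) =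
          (Metric.closedBall z (2 * r)).indicator (fun _ => (1 : ℝ)) t := by
        intro t
        by_cases h : ‖z - t‖ ≤ 2 * r
        · rw [if_pos h, Set.indicator_of_mem]
          rw [Metric.mem_closedBall, dist_comm, dist_eq_norm]
          exact h
        · rw [if_neg h, Set.indicator_of_notMem]
          rw [Metric.mem_closedBall, dist_comm, dist_eq_norm]
          exact h
      simp only [h1]
      rw [integral_indicator Metric.isClosed_closedBall.measurableSet, setIntegral_const,
        smul_eq_mul, mul_one]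
      have h2 : p.nu.real (Metric.closedBall z (2 * r)) ≤
          (volume : Measure R3).real (Metric.closedBall z (2 * r)) := by
        refine ENNReal.toReal_mono ?_ (Measure.restrict_apply_le _ _)
        rw [Real.volume_pi_closedBall _ (by positivity)]
        exact ENNReal.ofReal_ne_top
      have h3 : (volume : Measure R3).real (Metric.closedBall z (2 * r)) = 64 * r ^ 3 := by
        rw [Measure.real, Real.volume_pi_closedBall _ (by positivity), Fintype.card_fin,
          ENNReal.toReal_ofReal (by positivity)]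
        ring
      linarith
    · have h1 : 100 * r4 ≤ p.e * p.s := hL
      have h2 : 4 * r ≤ p.s := by nlinarith [hc.hr4, hp.he']
      calc 64 * r ^ 3 = (4 * r) ^ 3 := by ring
        _ ≤ p.s ^ 3 := pow_le_pow_left₀ (by positivity) h2 3
    · have hT3 : T.card = 3 := (Finset.mem_powersetCard.1 hT).2
      have hpos : 0 ≤ K / r ^ 6 * ((∏ j ∈ T.erase i, (if ‖x i - x j‖ ≤ 2 * r then (1 : ℝ) else 0)) *
          ∏ j ∈ T, ind (Qc p.s a) (x j)) := by
        refine mul_nonneg (by positivity) (mul_nonneg (Finset.prod_nonneg fun j _ => ?_)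
          (Finset.prod_nonneg fun j _ => ind_nonneg _ _))
        split_ifs <;> norm_num
      by_cases h0 : p.W3 c a T x = 0
      · rw [h0, abs_zero]
        exact hpos
      · rw [hW3 T hT3] at h0 ⊢
        have hw0 := left_ne_zero_of_mul h0
        have hth0 := right_ne_zero_of_mul h0
        have hrad := hws _ hw0
        have h1 : ∏ j ∈ T.erase i, (if ‖x i - x j‖ ≤ 2 * r then (1 : ℝ) else 0) = 1 := by
          refine Finset.prod_eq_one fun j hj => if_pos ?_
          have hj' := Finset.mem_of_mem_erase hj
          obtain ⟨m, hm⟩ : ∃ m, T.orderEmbOfFin hT3 m = i := by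
            have : i ∈ Set.range (T.orderEmbOfFin hT3) := by
              rw [Finset.range_orderEmbOfFin]
              exact hi
            exact this
          obtain ⟨m', hm'⟩ : ∃ m', T.orderEmbOfFin hT3 m' = j := by
            have : j ∈ Set.range (T.orderEmbOfFin hT3) := by
              rw [Finset.range_orderEmbOfFin]
              exact hj'
            exact this
          have h2 := norm_sub_le_rad (pick 3 T x) m m'
          rw [pick_eq hT3, pick_eq hT3, hm, hm'] at h2
          linarith
        have h2 : ∏ j ∈ T, ind (Qc p.s a) (x j) = 1 := by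
          refine Finset.prod_eq_one fun j hj => ind_of_mem ?_
          exact supp_mem hS hp hr4 hL a hT3 (by norm_num) hth0 (hrad.trans hc.hr4) j hj
        rw [h1, h2, abs_mul]
        calc |c.w (pick 3 T x)| * |th p.s p.e a (Par.cmA T x)| ≤ K / r ^ 6 * 1 :=
              mul_le_mul (hwb _) (hth1 _) (abs_nonneg _) (by positivity)
          _ = K / r ^ 6 * (1 * 1) := by ring

end Pool.Agent.Lib.MP_5db8e2_mp
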