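import Pool.Agent.Lib.MP_5db8e2_mp.LB.Spec6
import Pool.Agent.Lib.MP_5db8e2_mp.LB.KerW3
import Pool.Agent.Lib.MP_5db8e2_mp.GeoD

/-!
# Lower bound, part 6: the three-body diagonal (`S_DiagT`)
-/

set_option autoImplicit false

open MeasureTheory Function Finset
open scoped Classical

namespace Pool.Agent.Lib.MP_5db8e2_mp

namespace DiagTAux

open PutAux KerWAux

theorem l3_dep (p : Par) (a : Fin 3 → ℤ) (T : Finset (Fin p.N)) :
    DependsOn (p.l3 a T) ((T : Set (Fin p.N))ᶜ) := by
  intro x y hxy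
  have h := cnt_dep (Bc p.s a) Tᶜ (x := x) (y := y) fun i hi => hxy i (by simpa using hi)
  exact congrArg (lam3 p.M) h

theorem l3_mem {p : Par} (hM : 0 ≤ p.M) (a : Fin 3 → ℤ) (T : Finset (Fin p.N))
    (x : Fin p.N → R3) : 0 ≤ p.l3 a T x ∧ p.l3 a T x ≤ 1 := by
  unfold Par.l3 lam3
  split_ifs with h
  · exact ⟨zero_le_one, le_rfl⟩
  · push Not at h
    have h0 : (0 : ℝ) < (cnt (Bc p.s a) Tᶜ x : ℝ) := hM.trans_lt h
    refine ⟨sq_nonneg _, ?_⟩
    have h1 : p.M / (cnt (Bc p.s a) Tᶜ x : ℝ) ≤ 1 := by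
      rw [div_le_one h0]
      exact h.le
    have h2 : 0 ≤ p.M / (cnt (Bc p.s a) Tᶜ x : ℝ) := div_nonneg hM h0.le
    nlinarith

/-- The sums over the particles of a field which lives on the cluster. -/
theorem isEl_emb {N k : ℕ} {A : Finset (Fin N)} (hk : A.card = k) (m m' : Fin k) :
    isEl k A m (A.orderEmbOfFin hk m') ↔ m = m' := by
  constructor
  · rintro ⟨h, h'⟩
    exact (A.orderEmbOfFin hk).injective h'
  · rintro rfl
    exact ⟨hk, rfl⟩

theorem gT_emb {N : ℕ} {T : Finset (Fin N)} (hk : T.card = 3) (φ : (Fin 3 → R3) → ℝ) (m : Fin 3)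
    (a : Fin 3) (x : Fin N → R3) :
    gT φ T (T.orderEmbOfFin hk m) a x = pd φ m a (pick 3 T x) := by
  unfold gT
  simp only [isEl_emb hk]
  rw [Finset.sum_ite_eq' Finset.univ m]
  simp

theorem gT_notMem {N : ℕ} {T : Finset (Fin N)} (φ : (Fin 3 → R3) → ℝ) {i : Fin N} (hi : i ∉ T)
    (a : Fin 3) (x : Fin N → R3) : gT φ T i a x = 0 := by
  unfold gT
  refine Finset.sum_eq_zero fun m _ => if_neg ?_
  rintro ⟨h, rfl⟩
  exact hi (Finset.orderEmbOfFin_mem T h m)

theorem dt_fT {p : Par} {T : Finset (Fin p.N)} (hk : T.card = 3) (c : Cor) (x : Fin p.N → R3) :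
    dt (p.fT c T x) (p.fT c T x) = gg c.φ c.φ (pick 3 T x) := by
  unfold dt
  have h1 : ∑ i, ∑ a, p.fT c T x i a * p.fT c T x i a =
      ∑ i ∈ T, ∑ a, p.fT c T x i a * p.fT c T x i a := by
    symm
    refine Finset.sum_subset (Finset.subset_univ _) fun i _ hi => ?_
    refine Finset.sum_eq_zero fun a _ => ?_
    unfold Par.fT
    rw [gT_notMem c.φ hi, zero_mul]
  rw [h1, sum_emb hk]
  unfold gg Par.fT
  refine Finset.sum_congr rfl fun m _ => Finset.sum_congr rfl fun a _ => ?_
  rw [gT_emb hk]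

end DiagTAux

open PutAux KerWAux DiagTAux

/-- The three-body diagonal. -/
theorem DiagT (hJ : S_Jensen) (_hPut : S_Put) (hCl : S_ClInt) (hS : S_Supp) (hW : S_WinFacts)
    (hWd : S_WdWin) (hBM : S_BMall) : S_DiagT := by
  intro V b K R r r4 W QQ c hc p hp hL Ψ hΨ
  obtain ⟨CW, hCW, hW⟩ := hW
  obtain ⟨CJ, hCJ, hJ⟩ := hJ
  have hr4 : 0 ≤ r4 := by linarith [hc.hr, hc.hr4]
  have hs0 : 0 < p.s := by linarith [hp.hs]
  have hM0 : 0 ≤ p.M := by linarith [hp.hM]
  -- the integrand as a function of the cluster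
  set ee : (Fin 3 → R3) → ℝ := fun y => gg c.φ c.φ y + V3 V y * (1 - c.φ y) ^ 2 with hee
  have hee0 : ∀ y, 0 ≤ ee y := fun y => by
    refine add_nonneg (Finset.sum_nonneg fun m _ => Finset.sum_nonneg fun a _ =>
      mul_self_nonneg _) (mul_nonneg (hc.pot.nonneg _ _) (sq_nonneg _))
  have hVm : BM (V3 V) := by
    obtain ⟨D, hD⟩ := hc.pot.bdd
    refine ⟨?_, D, fun x => ?_⟩
    · have h0 : ∀ m : Fin 3, Measurable (fun x : Fin 3 → R3 => x m) := fun m =>
        measurable_pi_apply m
      exact hc.pot.meas.comp (f := fun x : Fin 3 → R3 => (x 0 - x 1, x 0 - x 2))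
        (((h0 0).sub (h0 1)).prodMk ((h0 0).sub (h0 2)))
    · unfold V3
      rw [abs_of_nonneg (hc.pot.nonneg _ _)]
      exact hD _ _
  have hbd : ∀ {f : (Fin 3 → R3) → ℝ} (_ : Measurable f) (n : ℕ)
      (_ : ∀ x, |f x| ≤ K / (1 + rad x) ^ n), BM f := by
    intro f hf n h
    refine ⟨hf, |K|, fun x => (h x).trans ?_⟩
    have h1 : (1 : ℝ) ≤ (1 + rad x) ^ n := one_le_pow₀ (by linarith [rad_nonneg x])
    calc K / (1 + rad x) ^ n ≤ |K| / (1 + rad x) ^ n :=
          div_le_div_of_nonneg_right (le_abs_self K) (by linarith)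
      _ ≤ |K| / 1 := div_le_div_of_nonneg_left (abs_nonneg K) one_pos h1
      _ = |K| := div_one _
  have hφ : BM c.φ := hbd hc.d3.c1.continuous.measurable 4 hc.d3.bd
  have hpd : ∀ m a, BM (pd c.φ m a) := fun m a =>
    hbd (continuous_pd hc.d3.c1 m a).measurable 5 fun x => hc.d3.bd' x m a
  have heeB : BM ee := by
    refine BM.add (BM.sum _ fun m _ => BM.sum _ fun a _ => (hpd m a).mul (hpd m a))
      (hVm.mul (((BM.const 1).sub hφ).pow 2))
  have heet : TI ee := by
    intro x v
    have h1 := TI_gg hc.d3.ti hc.d3.ti x v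
    have h2 := hc.d3.ti x v
    have h3 : V3 V (fun m => x m + v) = V3 V x := by
      unfold V3
      simp only [add_sub_add_right_eq_sub]
    simp only [hee]
    rw [h1, h2, h3]
  have hees : ∀ y, ee y ≠ 0 → rad y ≤ r4 := by
    intro y hy
    by_contra hcon
    push Not at hcon
    apply hy
    have h1 : V3 V y = 0 := by
      by_contra hne
      exact absurd (hc.V_supp y hne) (not_le.mpr (hc.hR4.trans_lt hcon))
    have h2 : ∀ m a, pd c.φ m a y = 0 := fun m a => by
      by_contra hne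
      exact absurd (pd_eq_zero_of_rad hc.d3.c1 hc.d3.supp m a y hne)
        (not_le.mpr (hc.hr4.trans_lt hcon))
    simp only [hee, h1, zero_mul, add_zero]
    unfold gg
    refine Finset.sum_eq_zero fun m _ => Finset.sum_eq_zero fun a _ => ?_
    rw [h2, zero_mul]
  have hRI : RI ee := by
    obtain ⟨D, hD⟩ := heeB.2
    exact RI_of_bdd heeB.1 hD hees
  have hth : ∀ a, BM (th p.s p.e a) := fun a => by
    obtain ⟨h1, h2, -⟩ := hW p.s p.e hp.hs hp.he hp.he' a
    exact ⟨h1.continuous.measurable, 1, fun x => by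
      rw [abs_of_nonneg (h2 x).1]; exact (h2 x).2⟩
  -- one triple
  have hT : ∀ T ∈ P3 p.N, ∫ x, (dt (p.fT c T x) (p.fT c T x) +
      VT V T x * (1 - c.φ (pick 3 T x)) ^ 2) * p.v3 Ψ T x ^ 2 ∂pin p.nu p.N ≤
      ∑ a ∈ p.win, (b + K / r ^ 4) * (p.s ^ 3 *
        out p.nu 0 T (fun x => p.l3 a T x * p.U a T Ψ x ^ 2)) := by
    intro T hT
    have hT3 : T.card = 3 := (Finset.mem_powersetCard.1 hT).2
    obtain ⟨-, -, -, -, -, -, -, hBl, -, hBU, -, -, -, hBv, -⟩ :=
      hBM V b K R r r4 W QQ c hc p hp Ψ hΨ T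
    have hpk : Measurable (pick 3 T : (Fin p.N → R3) → (Fin 3 → R3)) :=
      (continuous_pick 3 T).measurable
    have hE : ∀ x, dt (p.fT c T x) (p.fT c T x) + VT V T x * (1 - c.φ (pick 3 T x)) ^ 2 =
        ee (pick 3 T x) := fun x => by
      rw [dt_fT hT3]
      rfl
    simp only [hE]
    have hBE : BM fun x : Fin p.N → R3 => ee (pick 3 T x) := heeB.comp hpk
    have hBt : ∀ a, BM fun x : Fin p.N → R3 => th p.s p.e a (Par.cmA T x) := fun a =>
      (hth a).comp (measurable_cmA T)
    have hBG : ∀ a ∈ p.win, BM fun x => (p.l3 a T x * p.U a T Ψ x ^ 2) *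
        (th p.s p.e a (Par.cmA T x) * ee (pick 3 T x)) := fun a ha =>
      ((hBl a).mul ((hBU a ha).pow 2)).mul ((hBt a).mul hBE)
    calc ∫ x, ee (pick 3 T x) * p.v3 Ψ T x ^ 2 ∂pin p.nu p.N
        ≤ ∫ x, ∑ a ∈ p.win, (p.l3 a T x * p.U a T Ψ x ^ 2) *
            (th p.s p.e a (Par.cmA T x) * ee (pick 3 T x)) ∂pin p.nu p.N := by
          refine integral_mono ((hBE.mul (hBv.pow 2)).integrable _)
            ((BM.sum _ hBG).integrable _) fun x => ?_
          have h1 := (hJ p hp Ψ T (Par.cmA T x) x).1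
          have h2 : p.v3 Ψ T x ^ 2 ≤ ∑ a ∈ p.win, th p.s p.e a (Par.cmA T x) *
              (p.l3 a T x * p.U a T Ψ x ^ 2) := by
            refine h1.trans (Finset.sum_le_sum fun a ha => ?_)
            obtain ⟨-, h01, -⟩ := hW p.s p.e hp.hs hp.he hp.he' a
            refine mul_le_mul_of_nonneg_left ?_ (h01 _).1
            obtain ⟨h3, h4⟩ := l3_mem hM0 a T x
            rw [mul_pow]
            refine mul_le_mul_of_nonneg_right ?_ (sq_nonneg _)
            nlinarith
          calc ee (pick 3 T x) * p.v3 Ψ T x ^ 2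
              ≤ ee (pick 3 T x) * ∑ a ∈ p.win, th p.s p.e a (Par.cmA T x) *
                (p.l3 a T x * p.U a T Ψ x ^ 2) := mul_le_mul_of_nonneg_left h2 (hee0 _)
            _ = _ := by
                rw [Finset.mul_sum]
                refine Finset.sum_congr rfl fun a _ => ?_
                ring
      _ = ∑ a ∈ p.win, ∫ x, (p.l3 a T x * p.U a T Ψ x ^ 2) *
            (th p.s p.e a (Par.cmA T x) * ee (pick 3 T x)) ∂pin p.nu p.N :=
          integral_finsetSum _ fun a ha => (hBG a ha).integrable _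
      _ ≤ _ := by
          refine Finset.sum_le_sum fun a ha => ?_
          obtain ⟨hthc, hth01, hths, hthL, -, -, -, hthi, hthI⟩ := hW p.s p.e hp.hs hp.he hp.he' a
          obtain ⟨hwd, hQOm⟩ := hWd p hp a ha
          have hdep : DependsOn (fun x => p.l3 a T x * p.U a T Ψ x ^ 2)
              ((T : Set (Fin p.N))ᶜ) := by
            intro x y hxy
            have h3 := DiagTAux.l3_dep p a T hxy
            have h4 : p.U a T Ψ x = p.U a T Ψ y := av_dep Ψ hxy
            show p.l3 a T x * p.U a T Ψ x ^ 2 = p.l3 a T y * p.U a T Ψ y ^ 2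
            rw [h3, h4]
          rw [integral_eq_out (hBG a ha) 0 T, Mg_mul_left _ hdep]
          have hMg : ∀ x, Mg p.nu T (fun x => th p.s p.e a (Par.cmA T x) * ee (pick 3 T x)) x =
              p.s ^ 3 * rint ee := by
            intro x
            have h1 := hCl p 3 T hT3 x (fun x => th p.s p.e a (Par.cmA T x) * ee (pick 3 T x))
              (fun y => th p.s p.e a (cm y) * ee y) (fun y => by
                show th p.s p.e a (Par.cmA T (put 3 T y x)) * ee (pick 3 T (put 3 T y x)) = _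
                rw [pick_put hT3, cmA_put hT3]) (fun y hy m => by
              have hth : th p.s p.e a (Par.cmA T (put 3 T y x)) ≠ 0 := by
                rw [cmA_put hT3]
                exact left_ne_zero_of_mul hy
              have hrad : rad (pick 3 T (put 3 T y x)) ≤ r4 := by
                rw [pick_put hT3]
                exact hees y (right_ne_zero_of_mul hy)
              have := supp_mem hS hp hr4 hL a hT3 (by norm_num) hth hrad (T.orderEmbOfFin hT3 m)
                (Finset.orderEmbOfFin_mem T hT3 m)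
              rw [put_emb hT3] at this
              exact hQOm this)
            rw [h1]
            have h2 := (integral_weight (k := 2) heeB.1 heet hRI (ℓ := cm)
              continuous_cm.measurable (fun x v => cm_shift (by norm_num) x v) hthi).2
            rw [h2, hthI]
          have hBlU : BM fun x => p.l3 a T x * p.U a T Ψ x ^ 2 := (hBl a).mul ((hBU a ha).pow 2)
          have h3 : out p.nu 0 T (fun x => p.l3 a T x * p.U a T Ψ x ^ 2 *
              Mg p.nu T (fun x => th p.s p.e a (Par.cmA T x) * ee (pick 3 T x)) x) ≤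
              out p.nu 0 T (fun x => (b + K / r ^ 4) * p.s ^ 3 *
                (p.l3 a T x * p.U a T Ψ x ^ 2)) := by
            refine out_mono ?_ (hBlU.const_mul _) 0 fun x => ?_
            · simp only [hMg]
              exact hBlU.mul (BM.const _)
            · rw [hMg]
              have h4 : p.s ^ 3 * rint ee ≤ p.s ^ 3 * (b + K / r ^ 4) :=
                mul_le_mul_of_nonneg_left hc.d3.a_bd (by positivity)
              have h5 : 0 ≤ p.l3 a T x * p.U a T Ψ x ^ 2 :=
                mul_nonneg (l3_mem hM0 a T x).1 (sq_nonneg _)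
              calc p.l3 a T x * p.U a T Ψ x ^ 2 * (p.s ^ 3 * rint ee)
                  ≤ p.l3 a T x * p.U a T Ψ x ^ 2 * (p.s ^ 3 * (b + K / r ^ 4)) :=
                    mul_le_mul_of_nonneg_left h4 h5
                _ = _ := by ring
          refine h3.trans (le_of_eq ?_)
          rw [out, out, Mg_const_mul]
          ring
  unfold Par.DT
  refine (Finset.sum_le_sum hT).trans (le_of_eq ?_)
  rw [Finset.sum_comm]
  unfold Par.G3
  rw [Finset.mul_sum]
  refine Finset.sum_congr rfl fun a _ => ?_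
  rw [← Finset.mul_sum, ← Finset.mul_sum]

end Pool.Agent.Lib.MP_5db8e2_mp
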