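import Pool.Agent.Lib.MP_5db8e2_mp.LB.Spec8
import Pool.Agent.Lib.MP_5db8e2_mp.LB.DiagT

/-!
# Lower bound, part 8: `Ψ + S_i` is `C¹` in the variable `x_i` (`S_DX`)
-/

set_option autoImplicit false

open MeasureTheory Function Finset
open scoped Classical

namespace Pool.Agent.Lib.MP_5db8e2_mp

namespace DXAux

open PutAux KerWAux DiagTAux

/-- The centre of mass as a continuous linear map. -/
noncomputable def cmL (k : ℕ) : (Fin k → R3) →L[ℝ] R3 :=
  LinearMap.toContinuousLinearMap (IsLinearMap.mk' cm ⟨cm_add, cm_smul⟩)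

theorem cmL_apply {k : ℕ} (x : Fin k → R3) : cmL k x = cm x := rfl

theorem cm_single {k : ℕ} (m : Fin k) (v : R3) :
    cm (Pi.single m v : Fin k → R3) = (1 / (k : ℝ)) • v := by
  funext a
  unfold cm
  rw [Finset.sum_eq_single m]
  · rw [Pi.single_eq_same, Pi.smul_apply, smul_eq_mul]
    ring
  · intro m' _ hne
    rw [Pi.single_eq_of_ne hne]
    rfl
  · intro h
    exact absurd (Finset.mem_univ _) h

theorem contDiff_cm_comp {k : ℕ} {h : R3 → ℝ} (hh : ContDiff ℝ 1 h) :
    ContDiff ℝ 1 (fun y : Fin k → R3 => h (cm y)) :=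
  hh.comp (cmL k).contDiff

theorem pd_cm_comp {k : ℕ} {h : R3 → ℝ} (hh : ContDiff ℝ 1 h) (m : Fin k) (a : Fin 3)
    (y : Fin k → R3) : pd (fun y : Fin k → R3 => h (cm y)) m a y =
      1 / (k : ℝ) * fderiv ℝ h (cm y) (Pi.single a 1) := by
  unfold pd
  have h1 : HasFDerivAt h (fderiv ℝ h (cm y)) (cmL k y) :=
    (hh.differentiable one_ne_zero).differentiableAt.hasFDerivAt
  have h2 : HasFDerivAt (cmL k) (cmL k) y := (cmL k).hasFDerivAt
  have h3 : HasFDerivAt (fun y : Fin k → R3 => h (cm y))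
      ((fderiv ℝ h (cm y)).comp (cmL k)) y := h1.comp y h2
  rw [h3.fderiv, ContinuousLinearMap.comp_apply, cmL_apply, cm_single, map_smul, smul_eq_mul]

/-- Functions of the position of one particle. -/
theorem contDiff_upd {n : ℕ} {F : (Fin n → R3) → ℝ} (hF : ContDiff ℝ 1 F) (x : Fin n → R3)
    (i : Fin n) : ContDiff ℝ 1 (fun t : R3 => F (update x i t)) :=
  hF.comp (contDiff_update 1 x i)

theorem fderiv_upd {n : ℕ} {F : (Fin n → R3) → ℝ} (hF : ContDiff ℝ 1 F) (x : Fin n → R3)
    (i : Fin n) (t : R3) (k : Fin 3) :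
    fderiv ℝ (fun t : R3 => F (update x i t)) t (Pi.single k 1) = pd F i k (update x i t) := by
  have h1 : HasFDerivAt F (fderiv ℝ F (update x i t)) (update x i t) :=
    (hF.differentiable one_ne_zero).differentiableAt.hasFDerivAt
  have h2 := hasFDerivAt_update (𝕜 := ℝ) x (i := i) t
  have h3 := h1.comp t h2
  have h4 : (F ∘ update x i) = fun t : R3 => F (update x i t) := rfl
  rw [h4] at h3
  rw [h3.fderiv, ContinuousLinearMap.comp_apply]
  unfold pd
  congr 1
  funext j
  by_cases hj : j = i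
  · subst hj
    simp
  · simp [hj]

theorem pick_update {N : ℕ} {T : Finset (Fin N)} {k : ℕ} (hk : T.card = k) (m : Fin k)
    (x : Fin N → R3) (t : R3) :
    pick k T (update x (T.orderEmbOfFin hk m) t) = update (pick k T x) m t := by
  funext m'
  rw [pick_eq hk]
  by_cases h : m' = m
  · subst h
    rw [update_self, update_self]
  · rw [update_of_ne h, update_of_ne, pick_eq hk]
    exact fun h' => h ((T.orderEmbOfFin hk).injective h')

end DXAux

open PutAux KerWAux DiagTAux DXAux

/-- `Ψ + S_i` is `C¹` in the variable `x_i`. -/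
theorem DX (hW : S_WinFacts) (_hWd : S_WdWin) (hBM : S_BMall) : S_DX := by
  intro V b K R r r4 W QQ c hc p hp Ψ hΨ hΨc i
  obtain ⟨CW, hCW, hW⟩ := hW
  have hs0 : 0 < p.s := by linarith [hp.hs]
  have hcont : Continuous Ψ := hΨ.continuous
  have hΨB : BM Ψ := by
    obtain ⟨D, hD⟩ := hcont.bounded_above_of_compact_support hΨc
    exact ⟨hcont.measurable, D, fun x => by simpa [Real.norm_eq_abs] using hD x⟩
  have hthc : ∀ a, ContDiff ℝ 1 (th p.s p.e a) := fun a =>
    (hW p.s p.e hp.hs hp.he hp.he' a).1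
  have hfd : ∀ a k, BM fun c : R3 => fderiv ℝ (th p.s p.e a) c (Pi.single k 1) := fun a k =>
    ⟨(((hthc a).continuous_fderiv one_ne_zero).clm_apply continuous_const).measurable, CW / p.s,
      fun c => (hW p.s p.e hp.hs hp.he hp.he' a).2.2.2.2.1 c k⟩
  have hall := hBM V b K R r r4 W QQ c hc p hp Ψ hΨB
  have hdv : ∀ (T : Finset (Fin p.N)) k, BM (p.dv3 Ψ T k) := by
    intro T k
    obtain ⟨-, -, -, -, -, -, -, hBl, -, hBU, -⟩ := hall T
    unfold Par.dv3
    refine BM.sum _ fun a ha => ?_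
    exact ((hfd a k).comp (measurable_cmA T)).mul ((hBl a).mul (hBU a ha))
  have hSi : BM (p.Si c Ψ i) := by
    unfold Par.Si
    refine BM.sum _ fun T _ => ?_
    obtain ⟨-, -, -, hBφ, -, -, -, -, -, -, -, -, -, hBv, -⟩ := hall T
    exact hBφ.mul hBv
  have hdX : ∀ k, BM (p.dX c Ψ i k) := by
    intro k
    unfold Par.dX
    have h1 := (hall ∅).2.2.2.2.2.2.2.2.2.2.2.2.2.2.2 hΨ hΨc i k
    refine h1.add (BM.sum _ fun T _ => ?_)
    obtain ⟨hBg, -, -, hBφ, -, -, -, -, -, -, -, -, -, hBv, -⟩ := hall T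
    exact ((hBg i k).mul hBv).add (hBφ.mul ((hdv T k).const_mul _))
  refine ⟨hSi, hdX, hdv, fun x => ?_⟩
  -- one triple
  have hT : ∀ T ∈ (P3 p.N).filter (fun T => i ∈ T),
      ContDiff ℝ 1 (fun t : R3 => c.φ (pick 3 T (update x i t)) * p.v3 Ψ T (update x i t)) ∧
      ∀ (t : R3) (k : Fin 3),
        fderiv ℝ (fun t : R3 => c.φ (pick 3 T (update x i t)) * p.v3 Ψ T (update x i t)) t
          (Pi.single k 1) = gT c.φ T i k (update x i t) * p.v3 Ψ T (update x i t) +
          c.φ (pick 3 T (update x i t)) * (1 / 3 * p.dv3 Ψ T k (update x i t)) := by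
    intro T hT
    obtain ⟨hT1, hiT⟩ := Finset.mem_filter.1 hT
    have hT3 : T.card = 3 := (Finset.mem_powersetCard.1 hT1).2
    obtain ⟨m, hm⟩ : ∃ m, T.orderEmbOfFin hT3 m = i := by
      have : i ∈ Set.range (T.orderEmbOfFin hT3) := by
        rw [Finset.range_orderEmbOfFin]
        exact hiT
      exact this
    subst hm
    set y : Fin 3 → R3 := pick 3 T x with hy
    have hpk : ∀ t, pick 3 T (update x (T.orderEmbOfFin hT3 m) t) = update y m t := fun t =>
      pick_update hT3 m x t
    have hcm : ∀ t, Par.cmA T (update x (T.orderEmbOfFin hT3 m) t) = cm (update y m t) :=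
      fun t => by rw [cmA_eq hT3, hpk]
    have hag : ∀ t, ∀ j ∈ ((T : Set (Fin p.N))ᶜ), update x (T.orderEmbOfFin hT3 m) t j = x j := by
      intro t j hj
      rw [update_of_ne]
      intro h
      apply hj
      rw [h]
      exact Finset.orderEmbOfFin_mem T hT3 m
    have hl3 : ∀ a t, p.l3 a T (update x (T.orderEmbOfFin hT3 m) t) = p.l3 a T x := fun a t =>
      DiagTAux.l3_dep p a T (hag t)
    have hU : ∀ a t, p.U a T Ψ (update x (T.orderEmbOfFin hT3 m) t) = p.U a T Ψ x := fun a t =>
      av_dep Ψ (hag t)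
    -- the function of the cluster
    set G : (Fin 3 → R3) → ℝ := fun z => ∑ a ∈ p.win, (p.l3 a T x * p.U a T Ψ x) *
      th p.s p.e a (cm z) with hG
    set F : (Fin 3 → R3) → ℝ := fun z => c.φ z * G z with hF
    have hv3 : ∀ t, p.v3 Ψ T (update x (T.orderEmbOfFin hT3 m) t) = G (update y m t) := by
      intro t
      unfold Par.v3 Par.vt3
      rw [hcm]
      refine Finset.sum_congr rfl fun a _ => ?_
      rw [hl3, hU]
      ring
    have hGc : ContDiff ℝ 1 G := by
      refine ContDiff.sum fun a _ => ?_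
      exact contDiff_const.mul (contDiff_cm_comp (hthc a))
    have hFc : ContDiff ℝ 1 F := hc.d3.c1.mul hGc
    have hfun : (fun t : R3 => c.φ (pick 3 T (update x (T.orderEmbOfFin hT3 m) t)) *
        p.v3 Ψ T (update x (T.orderEmbOfFin hT3 m) t)) = fun t => F (update y m t) := by
      funext t
      rw [hv3, hpk]
    rw [hfun]
    refine ⟨contDiff_upd hFc y m, fun t k => ?_⟩
    rw [fderiv_upd hFc y m t k, gT_emb hT3, hv3, hpk]
    have hGd : ∀ z, DifferentiableAt ℝ G z := fun z =>
      (hGc.differentiable one_ne_zero).differentiableAt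
    have hφd : ∀ z, DifferentiableAt ℝ c.φ z := fun z =>
      (hc.d3.c1.differentiable one_ne_zero).differentiableAt
    have h1 : pd F m k (update y m t) = c.φ (update y m t) * pd G m k (update y m t) +
        pd c.φ m k (update y m t) * G (update y m t) := pd_mul (hφd _) (hGd _) m k
    have h2 : pd G m k (update y m t) =
        1 / 3 * p.dv3 Ψ T k (update x (T.orderEmbOfFin hT3 m) t) := by
      have hd : ∀ a ∈ p.win, DifferentiableAt ℝ (fun z : Fin 3 → R3 => (p.l3 a T x *
          p.U a T Ψ x) * th p.s p.e a (cm z)) (update y m t) := fun a _ =>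
        ((contDiff_const.mul (contDiff_cm_comp (hthc a))).differentiable
          one_ne_zero).differentiableAt
      rw [hG, pd_sum p.win _ hd m k]
      unfold Par.dv3
      rw [Finset.mul_sum]
      refine Finset.sum_congr rfl fun a _ => ?_
      rw [pd_const_mul ((contDiff_cm_comp (hthc a)).differentiable
        one_ne_zero).differentiableAt, pd_cm_comp (hthc a), hcm, hl3, hU]
      push_cast
      ring
    rw [h1, h2]
    ring
  have hfun : (fun t : R3 => Ψ (update x i t) + p.Si c Ψ i (update x i t)) =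
      fun t : R3 => Ψ (update x i t) + ∑ T ∈ (P3 p.N).filter (fun T => i ∈ T),
        c.φ (pick 3 T (update x i t)) * p.v3 Ψ T (update x i t) := rfl
  rw [hfun]
  refine ⟨(contDiff_upd hΨ x i).add (ContDiff.sum fun T hT' => (hT T hT').1), fun t k => ?_⟩
  have hd1 : DifferentiableAt ℝ (fun t : R3 => Ψ (update x i t)) t :=
    ((contDiff_upd hΨ x i).differentiable one_ne_zero).differentiableAt
  have hd2 : ∀ T ∈ (P3 p.N).filter (fun T => i ∈ T), DifferentiableAt ℝ
      (fun t : R3 => c.φ (pick 3 T (update x i t)) * p.v3 Ψ T (update x i t)) t := fun T hT' =>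
    ((hT T hT').1.differentiable one_ne_zero).differentiableAt
  rw [fderiv_fun_add hd1 (DifferentiableAt.fun_sum hd2), fderiv_fun_sum hd2,
    ContinuousLinearMap.add_apply, ContinuousLinearMap.sum_apply, fderiv_upd hΨ x i t k]
  unfold Par.dX
  congr 1
  exact Finset.sum_congr rfl fun T hT' => (hT T hT').2 t k

end Pool.Agent.Lib.MP_5db8e2_mp
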