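import Pool.Agent.Lib.MP_5db8e2_mp.LB.Spec2

/-!
# Lower bound: the two integrals of the pair kernel (module KerInt)
-/

set_option autoImplicit false

open MeasureTheory Function Finset
open scoped Classical

namespace Pool.Agent.Lib.MP_5db8e2_mp

namespace KerIntAux

variable {N : ℕ} {ν : Measure R3}

theorem bm_diff {φ : R3 → ℝ} (hφ : BM φ) (i j : Fin N) :
    BM (fun x : Fin N → R3 => φ (x i - x j)) :=
  hφ.comp ((measurable_pi_apply i).sub (measurable_pi_apply j))

/-- With `x i` fixed the integral of the product is the product of the integrals. -/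
theorem Mg_prod [IsFiniteMeasure ν] (F : Fin N → R3 → ℝ) (hF : ∀ j, BM (F j)) (i : Fin N)
    (S : Finset (Fin N)) (hi : i ∉ S) :
    Mg ν S (fun x : Fin N → R3 => ∏ j ∈ S, F j (x i - x j))
      = fun x => ∏ j ∈ S, ∫ t, F j (x i - t) ∂ν := by
  induction S using Finset.induction_on with
  | empty => simp [Mg_empty]
  | insert a S ha ih =>
    have hiS : i ∉ S := fun h => hi (Finset.mem_insert_of_mem h)
    have hia : i ≠ a := fun h => hi (h ▸ Finset.mem_insert_self a S)
    have hP : BM (fun x : Fin N → R3 => ∏ j ∈ S, F j (x i - x j)) :=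
      BM.prod S fun j _ => bm_diff (hF j) i j
    have e : (fun x : Fin N → R3 => ∏ j ∈ insert a S, F j (x i - x j))
        = fun x => F a (x i - x a) * ∏ j ∈ S, F j (x i - x j) := by
      ext1 x; rw [Finset.prod_insert ha]
    rw [e, Mg_insert ((bm_diff (hF a) i a).mul hP) ha,
      Mg_mul_left (h := fun x : Fin N → R3 => F a (x i - x a)) _ ?_, ih hiS, Mg_singleton]
    · ext1 x
      rw [Finset.prod_insert ha]
      simp only [Function.update_self, Function.update_of_ne hia]
      rw [integral_mul_const]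
    · intro x y hxy
      have h1 := hxy i (by simpa using hiS)
      have h2 := hxy a (by simpa using ha)
      simp [h1, h2]

/-- General form: integrate a product kernel over `insert i S`, the variables in `T` are fixed. -/
theorem Mg_le [IsFiniteMeasure ν] (F : Fin N → R3 → ℝ) (hF : ∀ j, BM (F j))
    (h0 : ∀ j c, 0 ≤ F j c) (i : Fin N) (S T : Finset (Fin N)) (hi : i ∉ S) (hiT : i ∉ T)
    (hST : Disjoint S T) (b : Fin N → ℝ) (B : ℝ)
    (hb : ∀ j ∈ S, ∀ c, ∫ t, F j (c - t) ∂ν ≤ b j)
    (x : Fin N → R3) (hB : ∫ t, ∏ j ∈ T, F j (t - x j) ∂ν ≤ B) :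
    Mg ν (insert i S) (fun x : Fin N → R3 => ∏ j ∈ S ∪ T, F j (x i - x j)) x
      ≤ (∏ j ∈ S, b j) * B := by
  have hP : BM (fun x : Fin N → R3 => ∏ j ∈ S, F j (x i - x j)) :=
    BM.prod S fun j _ => bm_diff (hF j) i j
  have hQ : BM (fun x : Fin N → R3 => ∏ j ∈ T, F j (x i - x j)) :=
    BM.prod T fun j _ => bm_diff (hF j) i j
  have e : (fun x : Fin N → R3 => ∏ j ∈ S ∪ T, F j (x i - x j))
      = fun x => (∏ j ∈ T, F j (x i - x j)) * ∏ j ∈ S, F j (x i - x j) := by
    ext1 x; rw [Finset.prod_union hST, mul_comm]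
  have hdep : DependsOn (fun x : Fin N → R3 => ∏ j ∈ T, F j (x i - x j))
      ((S : Set (Fin N))ᶜ) := by
    intro y z hyz
    apply Finset.prod_congr rfl
    intro j hj
    have h1 := hyz i (by simpa using hi)
    have h2 := hyz j (by
      have : j ∉ S := fun h => Finset.disjoint_left.1 hST h hj
      simpa using this)
    rw [h1, h2]
  rw [e, Mg_insert (hQ.mul hP) hi, Mg_mul_left _ hdep, Mg_prod F hF i S hi, Mg_singleton]
  simp only [Function.update_self]
  have hup : ∀ t, ∏ j ∈ T, F j (t - (Function.update x i t) j) = ∏ j ∈ T, F j (t - x j) := by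
    intro t
    apply Finset.prod_congr rfl
    intro j hj
    have : j ≠ i := fun h => hiT (h ▸ hj)
    rw [Function.update_of_ne this]
  simp only [hup]
  have hI0 : ∀ j c, 0 ≤ ∫ t, F j (c - t) ∂ν := fun j c => integral_nonneg fun t => h0 j _
  have hbS : ∀ c, ∏ j ∈ S, ∫ t, F j (c - t) ∂ν ≤ ∏ j ∈ S, b j := fun c =>
    Finset.prod_le_prod (fun j _ => hI0 j c) fun j hj => hb j hj c
  have hb0 : 0 ≤ ∏ j ∈ S, b j :=
    Finset.prod_nonneg fun j hj => (hI0 j 0).trans (hb j hj 0)
  have hT0 : ∀ t, 0 ≤ ∏ j ∈ T, F j (t - x j) := fun t => Finset.prod_nonneg fun j _ => h0 j _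
  have hTbm : BM (fun t : R3 => ∏ j ∈ T, F j (t - x j)) :=
    BM.prod T fun j _ => (hF j).comp (measurable_id.sub_const (x j))
  calc ∫ t, (∏ j ∈ T, F j (t - x j)) * ∏ j ∈ S, ∫ s, F j (t - s) ∂ν ∂ν
      ≤ ∫ t, (∏ j ∈ T, F j (t - x j)) * ∏ j ∈ S, b j ∂ν := by
        apply integral_mono_of_nonneg
        · exact Filter.Eventually.of_forall fun t =>
            mul_nonneg (hT0 t) (Finset.prod_nonneg fun j _ => hI0 j t)
        · exact (hTbm.integrable ν).mul_const _
        · exact Filter.Eventually.of_forall fun t => mul_le_mul_of_nonneg_left (hbS t) (hT0 t)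
    _ = (∫ t, (∏ j ∈ T, F j (t - x j)) ∂ν) * ∏ j ∈ S, b j := integral_mul_const _ _
    _ ≤ B * ∏ j ∈ S, b j := mul_le_mul_of_nonneg_right hB hb0
    _ = (∏ j ∈ S, b j) * B := mul_comm _ _

/-- the one-variable factor of the particle `j` -/
noncomputable def Fk (κA κB : R3 → ℝ) (A A' : Finset (Fin N)) (j : Fin N) (c : R3) : ℝ :=
  (if j ∈ A then κA c else 1) * (if j ∈ A' then κB c else 1)

variable {κA κB : R3 → ℝ} {α β c0 : ℝ}

theorem Fk_bm (h : KerOK ν κA κB α β c0) (A A' : Finset (Fin N)) (j : Fin N) :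
    BM (Fk κA κB A A' j) := by
  have hA : BM κA := ⟨h.measA, 1, fun c => by rw [abs_of_nonneg (h.nnA c)]; exact h.leA c⟩
  have hB : BM κB := ⟨h.measB, 1, fun c => by rw [abs_of_nonneg (h.nnB c)]; exact h.leB c⟩
  unfold Fk
  by_cases h1 : j ∈ A <;> by_cases h2 : j ∈ A' <;> simp only [h1, h2, if_true, if_false]
  · exact hA.mul hB
  · exact hA.mul (BM.const 1)
  · exact (BM.const 1).mul hB
  · exact (BM.const 1).mul (BM.const 1)

theorem Fk_nonneg (h : KerOK ν κA κB α β c0) (A A' : Finset (Fin N)) (j : Fin N) (c : R3) :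
    0 ≤ Fk κA κB A A' j c := by
  unfold Fk
  apply mul_nonneg
  · split_ifs
    · exact h.nnA c
    · exact zero_le_one
  · split_ifs
    · exact h.nnB c
    · exact zero_le_one

theorem prod_Fk (A A' : Finset (Fin N)) (i : Fin N) (x : Fin N → R3) :
    ∏ j ∈ (A ∪ A').erase i, Fk κA κB A A' j (x i - x j)
      = (∏ j ∈ A.erase i, κA (x i - x j)) * ∏ j ∈ A'.erase i, κB (x i - x j) := by
  unfold Fk
  rw [Finset.prod_mul_distrib, ← Finset.prod_filter, ← Finset.prod_filter]
  congr 1
  · apply Finset.prod_congr _ fun _ _ => rfl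
    ext j
    simp only [Finset.mem_filter, Finset.mem_erase, Finset.mem_union]
    tauto
  · apply Finset.prod_congr _ fun _ _ => rfl
    ext j
    simp only [Finset.mem_filter, Finset.mem_erase, Finset.mem_union]
    tauto

theorem pairH_le (h : KerOK ν κA κB α β c0) (Q : Set R3) (A A' : Finset (Fin N)) (i : Fin N)
    (x : Fin N → R3) :
    pairH κA κB Q A A' i x ≤ ∏ j ∈ (A ∪ A').erase i, Fk κA κB A A' j (x i - x j) := by
  rw [prod_Fk]
  unfold pairH
  apply mul_le_of_le_one_right
  · exact mul_nonneg (Finset.prod_nonneg fun j _ => h.nnA _)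
      (Finset.prod_nonneg fun j _ => h.nnB _)
  · exact Finset.prod_le_one (fun j _ => ind_nonneg _ _) fun j _ => ind_le_one _ _

theorem pairH_bm (h : KerOK ν κA κB α β c0) {Q : Set R3} (hQ : MeasurableSet Q)
    (A A' : Finset (Fin N)) (i : Fin N) : BM (pairH κA κB Q A A' i) := by
  have hA : BM κA := ⟨h.measA, 1, fun c => by rw [abs_of_nonneg (h.nnA c)]; exact h.leA c⟩
  have hB : BM κB := ⟨h.measB, 1, fun c => by rw [abs_of_nonneg (h.nnB c)]; exact h.leB c⟩
  exact ((BM.prod _ fun j _ => bm_diff hA i j).mul (BM.prod _ fun j _ => bm_diff hB i j)).mul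
    (BM_prod_ind hQ _)

/-- the bounds of the one-variable integrals -/
noncomputable def bk (α β c0 : ℝ) (A A' : Finset (Fin N)) (j : Fin N) : ℝ :=
  if j ∈ A then (if j ∈ A' then c0 else α) else β

theorem bk_bound (h : KerOK ν κA κB α β c0) (A A' : Finset (Fin N)) (j : Fin N)
    (hj : j ∈ A ∪ A') (c : R3) : ∫ t, Fk κA κB A A' j (c - t) ∂ν ≤ bk α β c0 A A' j := by
  unfold Fk bk
  by_cases h1 : j ∈ A <;> by_cases h2 : j ∈ A'
  · simpa [h1, h2] using h.hAB c
  · simpa [h1, h2] using h.hα c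
  · simpa [h1, h2] using h.hβ c
  · exact absurd (Finset.mem_union.1 hj) (by tauto)

theorem prod_bk (α β c0 : ℝ) (A A' : Finset (Fin N)) (i : Fin N) (hi : i ∈ A ∩ A') :
    ∏ j ∈ A.erase i, bk α β c0 A A' j = α ^ (A \ A').card * c0 ^ ((A ∩ A').card - 1) := by
  have hiA : i ∈ A := (Finset.mem_inter.1 hi).1
  have hiA' : i ∈ A' := (Finset.mem_inter.1 hi).2
  have e : ∏ j ∈ A.erase i, bk α β c0 A A' j
      = ∏ j ∈ A.erase i, (if j ∈ A' then c0 else α) := by
    apply Finset.prod_congr rfl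
    intro j hj
    simp [bk, Finset.mem_of_mem_erase hj]
  rw [e, Finset.prod_ite, Finset.prod_const, Finset.prod_const, mul_comm]
  have e1 : (A.erase i).filter (fun j => j ∉ A') = A \ A' := by
    ext j
    simp only [Finset.mem_filter, Finset.mem_erase, Finset.mem_sdiff]
    constructor
    · rintro ⟨⟨-, h1⟩, h2⟩; exact ⟨h1, h2⟩
    · rintro ⟨h1, h2⟩
      exact ⟨⟨fun hh => h2 (hh ▸ hiA'), h1⟩, h2⟩
  have e2 : (A.erase i).filter (fun j => j ∈ A') = (A ∩ A').erase i := by
    ext j
    simp only [Finset.mem_filter, Finset.mem_erase, Finset.mem_inter]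
    tauto
  rw [e1, e2, Finset.card_erase_of_mem hi]

end KerIntAux

open KerIntAux

theorem KerInt : S_KerInt := by
  intro N ν _ κA κB α β c0 h Q hQ A A' i j1 hi hj1 x
  have hiA : i ∈ A := (Finset.mem_inter.1 hi).1
  have hiA' : i ∈ A' := (Finset.mem_inter.1 hi).2
  have hj1A' : j1 ∈ A' := (Finset.mem_sdiff.1 hj1).1
  have hj1A : j1 ∉ A := (Finset.mem_sdiff.1 hj1).2
  have hFbm : ∀ j, BM (Fk κA κB A A' j) := Fk_bm h A A'
  have hF0 : ∀ j c, 0 ≤ Fk κA κB A A' j c := Fk_nonneg h A A'
  have hG : BM (fun x : Fin N → R3 => ∏ j ∈ (A ∪ A').erase i, Fk κA κB A A' j (x i - x j)) :=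
    BM.prod _ fun j _ => bm_diff (hFbm j) i j
  have hFT : ∀ j ∈ A' \ A, ∀ c, Fk κA κB A A' j c = κB c := by
    intro j hj c
    have := Finset.mem_sdiff.1 hj
    simp [Fk, this.1, this.2]
  have hβ' : ∀ c, ∫ t, κB (t - c) ∂ν ≤ β := by
    intro c
    have : (fun t => κB (t - c)) = fun t => κB (c - t) := by
      ext1 t
      rw [← h.evB (t - c), neg_sub]
    rw [this]
    exact h.hβ c
  have hP0 : 0 ≤ α ^ (A \ A').card * c0 ^ ((A ∩ A').card - 1) :=
    mul_nonneg (pow_nonneg h.α_nn _) (pow_nonneg h.c0_nn _)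
  constructor
  · have hle := Mg_mono (lam := ν) (A := A) (pairH_bm h hQ A A' i) hG (pairH_le h Q A A' i) x
    refine hle.trans ?_
    have e1 : (A ∪ A').erase i = A.erase i ∪ (A' \ A) := by
      ext j
      simp only [Finset.mem_erase, Finset.mem_union, Finset.mem_sdiff]
      constructor
      · rintro ⟨h1, h2 | h2⟩
        · exact Or.inl ⟨h1, h2⟩
        · by_cases h3 : j ∈ A
          · exact Or.inl ⟨h1, h3⟩
          · exact Or.inr ⟨h2, h3⟩
      · rintro (⟨h1, h2⟩ | ⟨h1, h2⟩)
        · exact ⟨h1, Or.inl h2⟩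
        · exact ⟨fun hh => h2 (hh ▸ hiA), Or.inr h1⟩
    have e2 : A = insert i (A.erase i) := (Finset.insert_erase hiA).symm
    rw [e1]
    have hB : ∫ t, ∏ j ∈ A' \ A, Fk κA κB A A' j (t - x j) ∂ν
        ≤ if (A' \ A).card = 1 then β else c0 := by
      have e3 : (fun t => ∏ j ∈ A' \ A, Fk κA κB A A' j (t - x j))
          = fun t => ∏ j ∈ A' \ A, κB (t - x j) := by
        ext1 t
        exact Finset.prod_congr rfl fun j hj => hFT j hj _
      rw [e3]
      split_ifs with hc
      · obtain ⟨j2, hj2⟩ := Finset.card_eq_one.1 hc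
        rw [hj2]
        simp only [Finset.prod_singleton]
        exact hβ' _
      · have hc2 : 1 < (A' \ A).card := by
          have : 0 < (A' \ A).card := Finset.card_pos.2 ⟨j1, hj1⟩
          omega
        obtain ⟨j2, hj2, hne⟩ := Finset.exists_mem_ne hc2 j1
        have hj2' : j2 ∈ (A' \ A).erase j1 := Finset.mem_erase.2 ⟨hne, hj2⟩
        refine le_trans ?_ (h.hBB (x j1) (x j2))
        have hκB : BM κB := ⟨h.measB, 1, fun c => by rw [abs_of_nonneg (h.nnB c)]; exact h.leB c⟩
        have hb : ∀ j, BM (fun t : R3 => κB (t - x j)) := fun j =>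
          hκB.comp (measurable_id.sub_const (x j))
        apply integral_mono ((BM.prod _ fun j _ => hb j).integrable ν)
          (((hb j1).mul (hb j2)).integrable ν)
        intro t
        show ∏ j ∈ A' \ A, κB (t - x j) ≤ κB (t - x j1) * κB (t - x j2)
        rw [← Finset.mul_prod_erase _ _ hj1, ← Finset.mul_prod_erase _ _ hj2', ← mul_assoc]
        apply mul_le_of_le_one_right (mul_nonneg (h.nnB _) (h.nnB _))
        exact Finset.prod_le_one (fun j _ => h.nnB _) fun j _ => h.leB _
    have key := Mg_le (ν := ν) (Fk κA κB A A') hFbm hF0 i (A.erase i) (A' \ A)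
      (Finset.notMem_erase i A) (fun hh => (Finset.mem_sdiff.1 hh).2 hiA)
      (Finset.disjoint_left.2 fun j hj hj' =>
        (Finset.mem_sdiff.1 hj').2 (Finset.mem_of_mem_erase hj))
      (bk α β c0 A A') _
      (fun j hj c => bk_bound h A A' j (Finset.mem_union_left _ (Finset.mem_of_mem_erase hj)) c)
      x hB
    rw [prod_bk α β c0 A A' i hi, ← e2] at key
    exact key
  · have hle := Mg_mono (lam := ν) (A := A ∪ (A' \ A).erase j1) (pairH_bm h hQ A A' i) hG
      (pairH_le h Q A A' i) x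
    refine hle.trans ?_
    have e1 : (A ∪ A').erase i = (A.erase i ∪ (A' \ A).erase j1) ∪ {j1} := by
      ext j
      simp only [Finset.mem_erase, Finset.mem_union, Finset.mem_sdiff, Finset.mem_singleton]
      constructor
      · rintro ⟨h1, h2 | h2⟩
        · exact Or.inl (Or.inl ⟨h1, h2⟩)
        · by_cases h3 : j ∈ A
          · exact Or.inl (Or.inl ⟨h1, h3⟩)
          · by_cases h4 : j = j1
            · exact Or.inr h4
            · exact Or.inl (Or.inr ⟨h4, h2, h3⟩)
      · rintro ((⟨h1, h2⟩ | ⟨h1, h2, h3⟩) | h1)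
        · exact ⟨h1, Or.inl h2⟩
        · exact ⟨fun hh => h3 (hh ▸ hiA), Or.inr h2⟩
        · subst h1
          exact ⟨fun hh => hj1A (hh ▸ hiA), Or.inr hj1A'⟩
    have e2 : A ∪ (A' \ A).erase j1 = insert i (A.erase i ∪ (A' \ A).erase j1) := by
      rw [← Finset.insert_union, Finset.insert_erase hiA]
    have hd : Disjoint (A.erase i) ((A' \ A).erase j1) :=
      Finset.disjoint_left.2 fun j hj hj' =>
        (Finset.mem_sdiff.1 (Finset.mem_of_mem_erase hj')).2 (Finset.mem_of_mem_erase hj)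
    rw [e1]
    have hB : ∫ t, ∏ j ∈ ({j1} : Finset (Fin N)), Fk κA κB A A' j (t - x j) ∂ν ≤ β := by
      simp only [Finset.prod_singleton]
      have e3 : (fun t => Fk κA κB A A' j1 (t - x j1)) = fun t => κB (t - x j1) := by
        ext1 t
        exact hFT j1 hj1 _
      rw [e3]
      exact hβ' _
    have key := Mg_le (ν := ν) (Fk κA κB A A') hFbm hF0 i (A.erase i ∪ (A' \ A).erase j1) {j1}
      (by
        rw [Finset.mem_union]
        rintro (hh | hh)
        · exact Finset.notMem_erase i A hh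
        · exact (Finset.mem_sdiff.1 (Finset.mem_of_mem_erase hh)).2 hiA)
      (fun hh => hj1A ((Finset.mem_singleton.1 hh) ▸ hiA))
      (by
        rw [Finset.disjoint_singleton_right, Finset.mem_union]
        rintro (hh | hh)
        · exact hj1A (Finset.mem_of_mem_erase hh)
        · exact Finset.notMem_erase j1 _ hh)
      (bk α β c0 A A') _
      (fun j hj c => bk_bound h A A' j (by
        rcases Finset.mem_union.1 hj with hh | hh
        · exact Finset.mem_union_left _ (Finset.mem_of_mem_erase hh)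
        · exact Finset.mem_union_right _ (Finset.mem_sdiff.1 (Finset.mem_of_mem_erase hh)).1) c)
      x hB
    rw [Finset.prod_union hd, prod_bk α β c0 A A' i hi, ← e2] at key
    have e4 : ∏ j ∈ (A' \ A).erase j1, bk α β c0 A A' j = β ^ ((A' \ A).card - 1) := by
      rw [← Finset.card_erase_of_mem hj1, ← Finset.prod_const]
      apply Finset.prod_congr rfl
      intro j hj
      have := (Finset.mem_sdiff.1 (Finset.mem_of_mem_erase hj)).2
      simp [bk, this]
    rw [e4] at key
    refine key.trans (le_of_eq ?_)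
    have hc : (A' \ A).card = ((A' \ A).card - 1) + 1 := by
      have : 0 < (A' \ A).card := Finset.card_pos.2 ⟨j1, hj1⟩
      omega
    conv_rhs => rw [hc, pow_succ]
    ring

end Pool.Agent.Lib.MP_5db8e2_mp
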