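import Pool.Agent.Lib.MP_5db8e2_mp.LB.Basic

/-!
# Lower bound, part 2: pair sums, one rough particle, two rough particles (one window)
-/

set_option autoImplicit false

open MeasureTheory Function Finset
open scoped Classical

namespace Pool.Agent.Lib.MP_5db8e2_mp

/-- The kernel of a pair of clusters `A`, `A'` with the common particle `i`. -/
noncomputable def pairH {N : ℕ} (κA κB : R3 → ℝ) (Q : Set R3) (A A' : Finset (Fin N)) (i : Fin N)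
    (x : Fin N → R3) : ℝ :=
  (∏ j ∈ A.erase i, κA (x i - x j)) * (∏ j ∈ A'.erase i, κB (x i - x j)) *
    ∏ j ∈ A ∪ A', ind Q (x j)

/-- One-variable kernels: measurable, even, values in `[0,1]`, with the bounds `α`, `β`, `c0` for
the integrals of `κA`, `κB`, `κA κB`, `κB κB(· - c)`. -/
structure KerOK (ν : Measure R3) (κA κB : R3 → ℝ) (α β c0 : ℝ) : Prop where
  measA : Measurable κA
  measB : Measurable κB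
  nnA : ∀ c, 0 ≤ κA c
  nnB : ∀ c, 0 ≤ κB c
  leA : ∀ c, κA c ≤ 1
  leB : ∀ c, κB c ≤ 1
  evA : ∀ c, κA (-c) = κA c
  evB : ∀ c, κB (-c) = κB c
  α_nn : 0 ≤ α
  β_nn : 0 ≤ β
  c0_nn : 0 ≤ c0
  hα : ∀ c, ∫ t, κA (c - t) ∂ν ≤ α
  hβ : ∀ c, ∫ t, κB (c - t) ∂ν ≤ β
  hAB : ∀ c, ∫ t, κA (c - t) * κB (c - t) ∂ν ≤ c0
  hBB : ∀ c c', ∫ t, κB (t - c) * κB (t - c') ∂ν ≤ c0

/-- **KerInt.** The two integrals of the pair kernel.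

PROOF. `H ≤ ∏_{j∈A\A'} κA(x_i-x_j) ∏_{j∈(A∩A')\{i}} (κA κB)(x_i-x_j) ∏_{j∈A'\A} κB(x_i-x_j)`
(drop the indicators, split the products; `A.erase i = (A \ A') ∪ (A∩A').erase i`, and the same
for `A'`). Integrate over all the variables except `x_i` first (with `x_i` fixed the integrand is a
product of functions of one variable: induction with `Mg_insert`, `Mg_mul_left`, `Mg_singleton`):
every `j ∈ A\A'` gives `≤ α`, every `j ∈ (A∩A').erase i` gives `≤ c0`, every `j ∈ R` gives `≤ β`.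
(1) variables `A`: it remains `∫ ∏_{j∈A'\A} κB(t - x_j) dν(t)`, which is `≤ β` if `|A'\A| = 1`
(evenness) and `≤ c0` otherwise (two of the factors, the others are `≤ 1`).
(2) variables `A ∪ R`, `R = (A'\A).erase j1`: it remains `∫ κB(t - x_{j1}) dν(t) ≤ β`; total
exponent of `β`: `|R| + 1 = |A'\A|`. -/
def S_KerInt : Prop :=
  ∀ {N : ℕ} (ν : Measure R3) [IsFiniteMeasure ν] (κA κB : R3 → ℝ) (α β c0 : ℝ)
    (_ : KerOK ν κA κB α β c0) (Q : Set R3) (_ : MeasurableSet Q) (A A' : Finset (Fin N))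
    (i j1 : Fin N) (_ : i ∈ A ∩ A') (_ : j1 ∈ A' \ A) (x : Fin N → R3),
    Mg ν A (pairH κA κB Q A A' i) x
        ≤ α ^ (A \ A').card * c0 ^ ((A ∩ A').card - 1) * (if (A' \ A).card = 1 then β else c0) ∧
      Mg ν (A ∪ (A' \ A).erase j1) (pairH κA κB Q A A' i) x
        ≤ α ^ (A \ A').card * c0 ^ ((A ∩ A').card - 1) * β ^ (A' \ A).card

/-- **PairSum.** Sum of the pair kernels against an averaged function, over all pairs of clusters of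
sizes `va`, `vb` with `t` common particles.

PROOF. For every triple `(A, A', i)` choose `j1 ∈ A' \ A` and apply `QL` (hypothesis) with
`R = (A' \ A).erase j1`, `H = pairH`, `Lam = Lam(cnt Q (A∪A')ᶜ x)`, `k0, k1` from `KerInt`
(hypothesis). It remains to count. Let `u = va + vb - t = |A ∪ A'|`. First terms: for fixed `x` the
number of triples `(A, A', i)` with `A ∪ A' = G` is `≤ 2^u 2^u u`, and
`∑_{|G|=u} Lam(cnt Q Gᶜ x) ∏_{j∈G} 1_Q(x_j) = C(n,u) Lam(n-u)`, `n = cnt Q univ x` (on the support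
`cnt Q Gᶜ x = n - u`; `CountK`), which is `≤ n^u Lam(n-u) ≤ c1 n` (zero if `n < u`). Second terms:
`j ∈ R ⊆ A∪A'`; for fixed `j` and `x_j ∈ Q`:
`∑_{G ∋ j, |G| = u} Lam(cnt Q Gᶜ x) ∏_{i∈G}1_Q(x_i) = C(n', u-1) Lam(n'-(u-1)) ≤ c2`,
`n' = cnt Q {j}ᶜ x`. -/
def S_PairSum : Prop :=
  ∀ (va vb t : ℕ), 1 ≤ t → t ≤ va → t < vb → va ≤ 4 → vb ≤ 4 → ∃ C : ℝ, 0 < C ∧
    ∀ {N : ℕ} (ν : Measure R3) [IsFiniteMeasure ν] (m : ℝ) (g : R3 → ℝ) (Q B : Set R3)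
      (_ : Wd ν m g Q B) (Ψ : (Fin N → R3) → ℝ) (_ : BM Ψ) (κA κB : R3 → ℝ) (α β c0 : ℝ)
      (_ : KerOK ν κA κB α β c0) (Lam : ℕ → ℝ) (_ : ∀ n, 0 ≤ Lam n) (c1 c2 : ℝ)
      (_ : ∀ n : ℕ, ((n + (va + vb - t) : ℕ) : ℝ) ^ (va + vb - t) * Lam n
        ≤ c1 * ((n + (va + vb - t) : ℕ) : ℝ))
      (_ : ∀ n : ℕ, ((n + (va + vb - t - 1) : ℕ) : ℝ) ^ (va + vb - t - 1) * Lam n ≤ c2),
      ∑ A ∈ powersetCard va (univ : Finset (Fin N)), ∑ A' ∈ powersetCard vb (univ : Finset (Fin N)),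
        (if (A ∩ A').card = t then ∑ i ∈ A ∩ A',
          ∫ x, pairH κA κB Q A A' i x *
            (Lam (cnt Q (A ∪ A')ᶜ x) * (av ν g A Ψ x) ^ 2) ∂pin ν N else 0)
      ≤ C * (α ^ (va - t) * c0 ^ (t - 1) * β ^ (vb - t) * (1 / m) ^ (va + vb - t - 1) * c1 *
            Nw ν Q Ψ
          + α ^ (va - t) * c0 ^ (t - 1) * (if vb - t = 1 then β else c0) * (1 / m) ^ va * c2 *
            Dw ν g Q Ψ)

/-- **OneRough.** The part of the linear term with exactly one rough particle.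

PROOF. Fix `T`, `i ∈ T`, `F = P_{T\i} q_i Ψ`, `U = P_T Ψ`, `l = lam(cnt B Tᶜ x)`. `l`, `U`, `F` do
not depend on `x_{T\i}`, so (`integral_eq_out`, `Mg_mul_left`) the integral is
`out_{T\i}( Mg ν (T\i) (W T) · l U F )`. Since `l`, `U` do not depend on `x_i` and
`∫ g(x_i) F dx_i = (P_i F) = P_{T\i} P_i q_i Ψ = 0` (`av_zero_rough`, `av_eq`), we may subtract
`b m g(x_i)` from `Mg ν (T\i) (W T)`; so the modulus is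
`≤ δ out_{T\i}(1_Q(x_i) l |U| |F|) ≤ (δ/2)[ τ out_{T\i}(1_Q(x_i) l F²) + τ⁻¹ out_{T\i}(1_Q(x_i) l U²)]`.
First term: `out_av_sq_le` (weight `1_Q(x_i) l`) `≤ m^{-2} ∫ l ∏_{T}1_Q (q_iΨ)²`; sum over `T ∋ i`
with `l ≤ lam(n-2)`, `n = cnt Q {i}ᶜ x` (antitone, `Q ⊆ B`) and `C(n,2)` sets: `≤ c2/2`. Second
term: `= ν(Q) out_T(l U²) ≤ 8m m^{-3} ∫ l ∏_T 1_Q Ψ²`, sum over `T` and the three `i`:
`3 C(n,3) lam(n-3) ≤ (1/2) c1 n`, `n = cnt Q univ x`. -/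
def S_OneRough : Prop :=
  ∀ {N : ℕ} (ν : Measure R3) [IsFiniteMeasure ν] (m : ℝ) (g : R3 → ℝ) (Q B : Set R3)
    (_ : Wd ν m g Q B) (Ψ : (Fin N → R3) → ℝ) (_ : BM Ψ)
    (lam : ℕ → ℝ) (_ : ∀ n, 0 ≤ lam n) (_ : Antitone lam)
    (W : Finset (Fin N) → (Fin N → R3) → ℝ) (_ : ∀ T, BM (W T))
    (_ : ∀ T, DependsOn (W T) (T : Set (Fin N))) (b δ : ℝ) (_ : 0 ≤ δ)
    (_ : ∀ T ∈ powersetCard 3 (univ : Finset (Fin N)), ∀ i ∈ T, ∀ x,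
      |Mg ν (T.erase i) (W T) x - b * (m * g (x i))| ≤ δ * ind Q (x i)) (c1 c2 : ℝ)
    (_ : ∀ n : ℕ, ((n + 3 : ℕ) : ℝ) ^ 3 * lam n ≤ c1 * ((n + 3 : ℕ) : ℝ))
    (_ : ∀ n : ℕ, ((n + 2 : ℕ) : ℝ) ^ 2 * lam n ≤ c2) (τ : ℝ) (_ : 0 < τ),
    |∑ T ∈ powersetCard 3 (univ : Finset (Fin N)), ∑ i ∈ T,
        ∫ x, W T x * (lam (cnt B Tᶜ x) * av ν g T Ψ x * av ν g (T.erase i) (rough ν g i Ψ) x)
          ∂pin ν N|
      ≤ δ * (1 / m) ^ 2 * (τ * c2 * Dw ν g Q Ψ + 8 * τ⁻¹ * c1 * Nw ν Q Ψ)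

/-- **RoughQ.** The rough part of the linear term of the four-body charge: plain Cauchy-Schwarz.

PROOF. For every `A` (`|A| = 4`), `|∫ W λ U (Ψ - U)| ≤ ½ τ ∫ λ ∏_A 1_Q (Ψ - P_AΨ)² +
½ τ⁻¹ ∫ W² λ U²` (`W` vanishes unless `x_A ∈ Q^A`; `0 ≤ λ ≤ 1` is not needed). First term:
`Ψ - P_AΨ = ∑_{k<4} P_{r_1..r_k} q_{r_{k+1}}Ψ` for an enumeration `r` of `A`, so
`(Ψ-P_AΨ)² ≤ 4 ∑_k (P_{..}q_{r_{k+1}}Ψ)²` and by `L2Q` (hypothesis)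
`∫ λ ∏_A 1_Q (Ψ-P_AΨ)² ≤ 4·8³ ∑_{j∈A} ∫ λ ∏_A 1_Q (q_jΨ)²`; sum over `A ∋ j`:
`C(n,3) lam(n-3) ≤ c3`, `n = cnt Q {j}ᶜ x`. Second term: `λ U²` does not depend on `x_A`, so it is
`out_A(λU² Mg ν A (W²)) ≤ ω out_A(λ U²) ≤ ω m^{-4} ∫ λ∏_A1_QΨ²`, and
`C(n,4) lam(n-4) ≤ c4 n`. -/
def S_RoughQ : Prop :=
  ∀ {N : ℕ} (ν : Measure R3) [IsFiniteMeasure ν] (m : ℝ) (g : R3 → ℝ) (Q B : Set R3)
    (_ : Wd ν m g Q B) (Ψ : (Fin N → R3) → ℝ) (_ : BM Ψ)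
    (lam : ℕ → ℝ) (_ : ∀ n, 0 ≤ lam n) (_ : Antitone lam)
    (W : Finset (Fin N) → (Fin N → R3) → ℝ) (_ : ∀ A, BM (W A))
    (_ : ∀ A, DependsOn (W A) (A : Set (Fin N))) (ω : ℝ) (_ : 0 ≤ ω)
    (_ : ∀ A, ∀ x, W A x ≠ 0 → ∀ j ∈ A, x j ∈ Q)
    (_ : ∀ A ∈ powersetCard 4 (univ : Finset (Fin N)), ∀ x, Mg ν A (fun y => W A y ^ 2) x ≤ ω)
    (c3 c4 : ℝ)
    (_ : ∀ n : ℕ, ((n + 3 : ℕ) : ℝ) ^ 3 * lam n ≤ c3)
    (_ : ∀ n : ℕ, ((n + 4 : ℕ) : ℝ) ^ 4 * lam n ≤ c4 * ((n + 4 : ℕ) : ℝ)) (τ : ℝ) (_ : 0 < τ),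
    |∑ A ∈ powersetCard 4 (univ : Finset (Fin N)),
        ∫ x, W A x * (lam (cnt B Aᶜ x) * av ν g A Ψ x * (Ψ x - av ν g A Ψ x)) ∂pin ν N|
      ≤ τ * 2048 * c3 * Dw ν g Q Ψ + τ⁻¹ * ω * (1 / m) ^ 4 * c4 * Nw ν Q Ψ

end Pool.Agent.Lib.MP_5db8e2_mp
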