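import Pool.Agent.Lib.MP_5db8e2_mp.LB.Spec1
import Pool.Agent.Lib.MP_5db8e2_mp.LB.Spec2

/-!
# Sums of the pair kernels
-/

set_option autoImplicit false

open MeasureTheory Function Finset
open scoped Classical

namespace Pool.Agent.Lib.MP_5db8e2_mp

namespace PairSumAux

variable {N : ℕ}

section kernel

variable {ν : Measure R3} {κA κB : R3 → ℝ} {α β c0 : ℝ} {Q : Set R3} {A A' : Finset (Fin N)}
  {i : Fin N}

theorem BM_ker {κ : R3 → ℝ} (hm : Measurable κ) (h0 : ∀ c, 0 ≤ κ c) (h1 : ∀ c, κ c ≤ 1)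
    (i j : Fin N) : BM (fun x : Fin N → R3 => κ (x i - x j)) := by
  refine ⟨hm.comp ((measurable_pi_apply i).sub (measurable_pi_apply j)), 1, fun x => ?_⟩
  rw [abs_of_nonneg (h0 _)]
  exact h1 _

theorem BM_pairH (hK : KerOK ν κA κB α β c0) (hQ : MeasurableSet Q) :
    BM (pairH κA κB Q A A' i) :=
  ((BM.prod _ fun j _ => BM_ker hK.measA hK.nnA hK.leA i j).mul
    (BM.prod _ fun j _ => BM_ker hK.measB hK.nnB hK.leB i j)).mul (BM_prod_ind hQ _)

theorem pairH_nonneg (hK : KerOK ν κA κB α β c0) (x : Fin N → R3) :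
    0 ≤ pairH κA κB Q A A' i x :=
  mul_nonneg (mul_nonneg (Finset.prod_nonneg fun _ _ => hK.nnA _)
    (Finset.prod_nonneg fun _ _ => hK.nnB _)) (Finset.prod_nonneg fun _ _ => ind_nonneg _ _)

theorem pairH_dep (hi : i ∈ A ∩ A') :
    DependsOn (pairH κA κB Q A A' i) ((A ∪ A' : Finset (Fin N)) : Set (Fin N)) := by
  intro x y hxy
  have hA : ∀ j ∈ A, x j = y j := fun j hj => hxy j (by simp [hj])
  have hA' : ∀ j ∈ A', x j = y j := fun j hj => hxy j (by simp [hj])
  have hi' : x i = y i := hA i (Finset.mem_inter.1 hi).1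
  unfold pairH
  rw [hi']
  congr 1
  · congr 1
    · refine Finset.prod_congr rfl fun j hj => ?_
      rw [hA j (Finset.mem_of_mem_erase hj)]
    · refine Finset.prod_congr rfl fun j hj => ?_
      rw [hA' j (Finset.mem_of_mem_erase hj)]
  · refine Finset.prod_congr rfl fun j hj => ?_
    rcases Finset.mem_union.1 hj with h | h
    · rw [hA j h]
    · rw [hA' j h]

theorem pairH_supp {x : Fin N → R3} (h : pairH κA κB Q A A' i x ≠ 0) (j : Fin N)
    (hj : j ∈ A ∪ A') : x j ∈ Q := by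
  by_contra hne
  apply h
  unfold pairH
  rw [Finset.prod_eq_zero hj (ind_of_notMem hne), mul_zero]

end kernel

/-- counting of the pairs with a given union -/
theorem sum_pairs_le (va vb t : ℕ) (ht : t ≤ va) (F : Finset (Fin N) → ℝ) (hF : ∀ G, 0 ≤ F G) :
    ∑ A ∈ powersetCard va (univ : Finset (Fin N)), ∑ A' ∈ powersetCard vb (univ : Finset (Fin N)),
      (if (A ∩ A').card = t then F (A ∪ A') else 0)
    ≤ (2 ^ (va + vb - t) * 2 ^ (va + vb - t)) *
      ∑ G ∈ powersetCard (va + vb - t) (univ : Finset (Fin N)), F G := by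
  set u := va + vb - t with hu
  rw [← Finset.sum_product', ← Finset.sum_filter]
  set S := ((powersetCard va (univ : Finset (Fin N))) ×ˢ (powersetCard vb univ)).filter
    (fun p => (p.1 ∩ p.2).card = t) with hS
  have hmaps : ∀ p ∈ S, p.1 ∪ p.2 ∈ powersetCard u (univ : Finset (Fin N)) := by
    intro p hp
    rw [hS, Finset.mem_filter, Finset.mem_product, Finset.mem_powersetCard,
      Finset.mem_powersetCard] at hp
    rw [Finset.mem_powersetCard]
    refine ⟨Finset.subset_univ _, ?_⟩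
    have := Finset.card_union_add_card_inter p.1 p.2
    rw [hp.1.1.2, hp.1.2.2, hp.2] at this
    omega
  rw [← Finset.sum_fiberwise_of_maps_to hmaps, Finset.mul_sum]
  refine Finset.sum_le_sum fun G hG => ?_
  rw [Finset.mem_powersetCard] at hG
  have h1 : ∑ p ∈ S.filter (fun p => p.1 ∪ p.2 = G), F (p.1 ∪ p.2)
      = ∑ p ∈ S.filter (fun p => p.1 ∪ p.2 = G), F G := by
    refine Finset.sum_congr rfl fun p hp => ?_
    rw [(Finset.mem_filter.1 hp).2]
  rw [h1, Finset.sum_const, nsmul_eq_mul]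
  refine mul_le_mul_of_nonneg_right ?_ (hF G)
  have h2 : (S.filter (fun p => p.1 ∪ p.2 = G)).card ≤ (G.powerset ×ˢ G.powerset).card := by
    apply Finset.card_le_card
    intro p hp
    have := (Finset.mem_filter.1 hp).2
    rw [Finset.mem_product, Finset.mem_powerset, Finset.mem_powerset, ← this]
    exact ⟨Finset.subset_union_left, Finset.subset_union_right⟩
  rw [Finset.card_product, Finset.card_powerset, hG.2] at h2
  exact_mod_cast h2

theorem cnt_sdiff {Q : Set R3} {S G : Finset (Fin N)} (hG : G ⊆ S) {x : Fin N → R3}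
    (hx : ∀ j ∈ G, x j ∈ Q) : cnt Q (S \ G) x = cnt Q S x - G.card := by
  unfold cnt
  have h1 : (S \ G).filter (fun m => x m ∈ Q) = (S.filter (fun m => x m ∈ Q)) \ G := by
    ext j
    simp only [Finset.mem_filter, Finset.mem_sdiff]
    tauto
  rw [h1, Finset.card_sdiff_of_subset]
  intro j hj
  exact Finset.mem_filter.2 ⟨hG hj, hx j hj⟩

theorem sum_count (hC : S_CountK) (Q : Set R3) (Lam : ℕ → ℝ) (S : Finset (Fin N)) (k : ℕ)
    (x : Fin N → R3) :
    ∑ G ∈ powersetCard k S, Lam (cnt Q (S \ G) x) * ∏ j ∈ G, ind Q (x j)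
      = Lam (cnt Q S x - k) * ((cnt Q S x).choose k : ℝ) := by
  rw [← hC Q S k x, Finset.mul_sum]
  refine Finset.sum_congr rfl fun G hG => ?_
  rw [Finset.mem_powersetCard] at hG
  by_cases hx : ∀ j ∈ G, x j ∈ Q
  · rw [cnt_sdiff hG.1 hx, hG.2]
  · push Not at hx
    obtain ⟨j, hj, hne⟩ := hx
    rw [Finset.prod_eq_zero hj (ind_of_notMem hne), mul_zero, mul_zero]

theorem sum_mem (k : ℕ) (j : Fin N) (f : Finset (Fin N) → ℝ) :
    ∑ G ∈ powersetCard (k + 1) (univ : Finset (Fin N)), (if j ∈ G then f G else 0)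
      = ∑ G ∈ powersetCard k ({j}ᶜ : Finset (Fin N)), f (insert j G) := by
  have hj : j ∉ ({j}ᶜ : Finset (Fin N)) := by simp
  have hun : (univ : Finset (Fin N)) = insert j ({j}ᶜ : Finset (Fin N)) := by
    ext a
    simp only [Finset.mem_univ, Finset.mem_insert, Finset.mem_compl, Finset.mem_singleton,
      true_iff]
    tauto
  rw [hun, Finset.powersetCard_succ_insert hj]
  have hmem : ∀ G ∈ powersetCard k ({j}ᶜ : Finset (Fin N)), j ∉ G := by
    intro G hG hjG
    exact hj ((Finset.mem_powersetCard.1 hG).1 hjG)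
  rw [Finset.sum_union]
  · rw [Finset.sum_eq_zero, zero_add, Finset.sum_image]
    · refine Finset.sum_congr rfl fun G _ => ?_
      rw [if_pos (Finset.mem_insert_self j G)]
    · intro G hG G' hG' h
      have h1 := hmem G hG
      have h2 := hmem G' hG'
      have : (insert j G).erase j = (insert j G').erase j := by
        rw [show insert j G = insert j G' from h]
      rwa [Finset.erase_insert h1, Finset.erase_insert h2] at this
    · intro G hG
      rw [if_neg]
      intro hjG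
      exact hj ((Finset.mem_powersetCard.1 hG).1 hjG)
  · rw [Finset.disjoint_left]
    intro G hG hG'
    obtain ⟨G', _, rfl⟩ := Finset.mem_image.1 hG'
    exact hj ((Finset.mem_powersetCard.1 hG).1 (Finset.mem_insert_self j G'))

end PairSumAux

open PairSumAux

theorem PairSum (hQL : S_QL) (hK : S_KerInt) (hC : S_CountK) : S_PairSum := by
  intro va vb t ht1 htva htvb _ _
  obtain ⟨r, hr⟩ : ∃ r, vb - t = r + 1 := ⟨vb - t - 1, by omega⟩
  obtain ⟨u, hu⟩ : ∃ u, va + vb - t = u + 1 := ⟨va + vb - t - 1, by omega⟩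
  have ht0 : (0 : ℝ) < t := by exact_mod_cast ht1
  refine ⟨(t : ℝ) * (r + 1) * (2 ^ (u + 1) * 2 ^ (u + 1)) * 8 ^ r, by positivity, ?_⟩
  intro N ν _ m g Q B hW Ψ hΨ κA κB α β c0 hKer Lam hLam c1 c2 h1 h2
  have hm0 : 0 < m := lt_of_lt_of_le one_pos hW.hm
  rw [hu] at h1 h2 ⊢
  rw [Nat.add_sub_cancel] at h2 ⊢
  -- the constants
  have hc1 : 0 ≤ c1 := by
    have := h1 0
    have h3 : 0 ≤ ((0 + (u + 1) : ℕ) : ℝ) ^ (u + 1) * Lam 0 := mul_nonneg (by positivity) (hLam 0)
    have h4 : (0 : ℝ) < ((0 + (u + 1) : ℕ) : ℝ) := by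
      push_cast
      positivity
    by_contra hcon
    push Not at hcon
    have := mul_neg_of_neg_of_pos hcon h4
    linarith
  have hc2 : 0 ≤ c2 := (mul_nonneg (by positivity) (hLam 0)).trans (h2 0)
  -- the functions
  set T : Finset (Fin N) → (Fin N → R3) → ℝ := fun G x =>
    Lam (cnt Q Gᶜ x) * ∏ j ∈ G, ind Q (x j) with hT
  have hTbm : ∀ G, BM (T G) := fun G => (BM_cnt_comp hW.Q_meas _ _).mul (BM_prod_ind hW.Q_meas G)
  have hT0 : ∀ G x, 0 ≤ T G x := fun G x =>
    mul_nonneg (hLam _) (Finset.prod_nonneg fun _ _ => ind_nonneg _ _)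
  set F1 : Finset (Fin N) → ℝ := fun G => ∫ x, T G x * Ψ x ^ 2 ∂pin ν N with hF1
  set F2 : Finset (Fin N) → ℝ := fun G =>
    ∑ j ∈ G, ∫ x, T G x * rough ν g j Ψ x ^ 2 ∂pin ν N with hF2
  have hF10 : ∀ G, 0 ≤ F1 G := fun G => integral_nonneg fun x => mul_nonneg (hT0 G x) (sq_nonneg _)
  have hF2j : ∀ G j, 0 ≤ ∫ x, T G x * rough ν g j Ψ x ^ 2 ∂pin ν N := fun G j =>
    integral_nonneg fun x => mul_nonneg (hT0 G x) (sq_nonneg _)
  have hF20 : ∀ G, 0 ≤ F2 G := fun G => Finset.sum_nonneg fun j _ => hF2j G j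
  -- the sums of the first and of the second kind
  have hsum1 : ∑ G ∈ powersetCard (u + 1) (univ : Finset (Fin N)), F1 G ≤ c1 * Nw ν Q Ψ := by
    rw [hF1]
    simp only []
    rw [← integral_finsetSum _ fun G _ => ((hTbm G).mul (hΨ.pow 2)).integrable _]
    unfold Nw
    rw [← integral_const_mul]
    refine integral_mono ((BM.sum _ fun G _ => (hTbm G).mul (hΨ.pow 2)).integrable _)
      ((((BM_cnt hW.Q_meas _).mul (hΨ.pow 2)).const_mul c1).integrable _) fun x => ?_
    simp only []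
    rw [← Finset.sum_mul, ← mul_assoc]
    refine mul_le_mul_of_nonneg_right ?_ (sq_nonneg _)
    have e := sum_count hC Q Lam univ (u + 1) x
    simp only [← Finset.compl_eq_univ_sdiff] at e
    rw [hT]
    simp only []
    rw [e]
    set n := cnt Q univ x with hn
    by_cases hlt : n < u + 1
    · rw [Nat.choose_eq_zero_of_lt hlt]
      simp only [Nat.cast_zero, mul_zero]
      positivity
    · push Not at hlt
      obtain ⟨n', hn'⟩ := Nat.exists_eq_add_of_le' hlt
      have h3 := h1 n'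
      rw [hn', Nat.add_sub_cancel]
      refine le_trans ?_ h3
      rw [mul_comm]
      refine mul_le_mul_of_nonneg_right ?_ (hLam _)
      exact_mod_cast Nat.choose_le_pow (n' + (u + 1)) (u + 1)
  have hsum2 : ∑ G ∈ powersetCard (u + 1) (univ : Finset (Fin N)), F2 G ≤ c2 * Dw ν g Q Ψ := by
    have e1 : ∑ G ∈ powersetCard (u + 1) (univ : Finset (Fin N)), F2 G
        = ∑ j : Fin N, ∑ G ∈ powersetCard (u + 1) (univ : Finset (Fin N)),
          (if j ∈ G then ∫ x, T G x * rough ν g j Ψ x ^ 2 ∂pin ν N else 0) := by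
      rw [Finset.sum_comm]
      refine Finset.sum_congr rfl fun G _ => ?_
      rw [hF2]
      simp only []
      rw [Finset.sum_ite_mem, Finset.univ_inter]
    rw [e1]
    unfold Dw
    rw [Finset.mul_sum]
    refine Finset.sum_le_sum fun j _ => ?_
    rw [sum_mem, ← integral_const_mul,
      ← integral_finsetSum _ fun G _ => ((hTbm _).mul ((rough_bm hW hΨ j).pow 2)).integrable _]
    refine integral_mono ((BM.sum _ fun G _ =>
        (hTbm (insert j G)).mul ((rough_bm hW hΨ j).pow 2)).integrable _)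
      ((((BM_ind_at hW.Q_meas j).mul ((rough_bm hW hΨ j).pow 2)).const_mul c2).integrable _)
      fun x => ?_
    simp only []
    rw [← Finset.sum_mul, ← mul_assoc]
    refine mul_le_mul_of_nonneg_right ?_ (sq_nonneg _)
    have e2 : ∑ G ∈ powersetCard u ({j}ᶜ : Finset (Fin N)), T (insert j G) x
        = ind Q (x j) * ∑ G ∈ powersetCard u ({j}ᶜ : Finset (Fin N)),
          Lam (cnt Q ({j}ᶜ \ G) x) * ∏ i ∈ G, ind Q (x i) := by
      rw [Finset.mul_sum]
      refine Finset.sum_congr rfl fun G hG => ?_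
      have hjG : j ∉ G := by
        intro h
        have := (Finset.mem_powersetCard.1 hG).1 h
        simp at this
      have e3 : (insert j G)ᶜ = {j}ᶜ \ G := by
        ext a
        simp only [Finset.mem_compl, Finset.mem_insert, Finset.mem_sdiff, Finset.mem_singleton]
        tauto
      rw [hT]
      simp only []
      rw [Finset.prod_insert hjG, e3]
      ring
    rw [e2, sum_count hC, mul_comm]
    refine mul_le_mul_of_nonneg_right ?_ (ind_nonneg _ _)
    set n := cnt Q {j}ᶜ x with hn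
    by_cases hlt : n < u
    · rw [Nat.choose_eq_zero_of_lt hlt]
      simpa using hc2
    · push Not at hlt
      obtain ⟨n', hn'⟩ := Nat.exists_eq_add_of_le' hlt
      have h3 := h2 n'
      rw [hn', Nat.add_sub_cancel]
      refine le_trans ?_ h3
      rw [mul_comm]
      refine mul_le_mul_of_nonneg_right ?_ (hLam _)
      exact_mod_cast Nat.choose_le_pow (n' + u) u
  -- one triple
  set k1 : ℝ := α ^ (va - t) * c0 ^ (t - 1) * β ^ (vb - t) with hk1
  set k0 : ℝ := α ^ (va - t) * c0 ^ (t - 1) * (if vb - t = 1 then β else c0) with hk0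
  have hα := hKer.α_nn
  have hβ := hKer.β_nn
  have hc0 := hKer.c0_nn
  have hk1n : 0 ≤ k1 := by positivity
  have hk0n : 0 ≤ k0 := by
    rw [hk0]
    refine mul_nonneg (by positivity) ?_
    split_ifs
    · exact hβ
    · exact hc0
  have htriple : ∀ A ∈ powersetCard va (univ : Finset (Fin N)),
      ∀ A' ∈ powersetCard vb (univ : Finset (Fin N)), (A ∩ A').card = t → ∀ i ∈ A ∩ A',
      ∫ x, pairH κA κB Q A A' i x * (Lam (cnt Q (A ∪ A')ᶜ x) * (av ν g A Ψ x) ^ 2) ∂pin ν N
      ≤ (r + 1) * (k1 * (1 / m) ^ u * F1 (A ∪ A')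
          + k0 * (1 / m) ^ va * 8 ^ r * F2 (A ∪ A')) := by
    intro A hA A' hA' hcard i hi
    rw [Finset.mem_powersetCard] at hA hA'
    have hsd : (A' \ A).card = vb - t := by
      rw [Finset.card_sdiff, hcard, hA'.2]
    have hsd' : (A \ A').card = va - t := by
      rw [Finset.card_sdiff, Finset.inter_comm, hcard, hA.2]
    obtain ⟨j1, hj1⟩ : (A' \ A).Nonempty := by
      rw [← Finset.card_pos, hsd]
      omega
    have hj1' := Finset.mem_sdiff.1 hj1
    set R := (A' \ A).erase j1 with hR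
    have hRcard : R.card = r := by
      rw [hR, Finset.card_erase_of_mem hj1, hsd, hr, Nat.add_sub_cancel]
    have hins : insert j1 (A ∪ R) = A ∪ A' := by
      ext a
      rw [hR]
      simp only [Finset.mem_insert, Finset.mem_union, Finset.mem_erase, Finset.mem_sdiff]
      constructor
      · rintro (rfl | h | ⟨_, h, _⟩)
        · exact Or.inr hj1'.1
        · exact Or.inl h
        · exact Or.inr h
      · rintro (h | h)
        · exact Or.inr (Or.inl h)
        · by_cases ha : a = j1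
          · exact Or.inl ha
          · by_cases ha' : a ∈ A
            · exact Or.inr (Or.inl ha')
            · exact Or.inr (Or.inr ⟨ha, h, ha'⟩)
    have hdisj : Disjoint A R := by
      rw [Finset.disjoint_left, hR]
      intro a ha ha'
      exact (Finset.mem_sdiff.1 (Finset.mem_of_mem_erase ha')).2 ha
    have hj1R : j1 ∉ R := by
      rw [hR]
      exact Finset.notMem_erase _ _
    have hker := hK ν κA κB α β c0 hKer Q hW.Q_meas A A' i j1 hi hj1
    have hQL' := hQL ν m g Q B hW Ψ (pairH κA κB Q A A' i) (fun x => Lam (cnt Q (A ∪ A')ᶜ x))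
      hΨ (BM_pairH hKer hW.Q_meas) (BM_cnt_comp hW.Q_meas _ _) (pairH_nonneg hKer)
      (fun x => hLam _) A R j1 hdisj hj1'.2 hj1R
      (by rw [hins]; exact pairH_dep hi)
      (by
        rw [hins]
        intro x y hxy
        have := cnt_dep Q (A ∪ A')ᶜ (x := x) (y := y) (by
          intro a ha
          exact hxy a (by simpa using ha))
        show Lam (cnt Q (A ∪ A')ᶜ x) = Lam (cnt Q (A ∪ A')ᶜ y)
        rw [show cnt Q (A ∪ A')ᶜ x = cnt Q (A ∪ A')ᶜ y from this])
      (fun x hx j hj => pairH_supp hx j (by rw [← hins]; exact hj))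
      k0 k1 hk0n hk1n
      (fun x => by
        have := (hker x).1
        rwa [hsd', hcard, hsd] at this)
      (fun x => by
        have := (hker x).2
        rwa [hsd', hcard, hsd] at this)
    rw [hins, hRcard, hA.2] at hQL'
    refine hQL'.trans ?_
    have hexp : va + r = u := by omega
    rw [hexp]
    have eF1 : ∫ x, Lam (cnt Q (A ∪ A')ᶜ x) * ((∏ j ∈ A ∪ A', ind Q (x j)) * Ψ x ^ 2) ∂pin ν N
        = F1 (A ∪ A') := by
      rw [hF1, hT]
      simp only []
      congr 1
      ext1 x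
      ring
    have eF2 : ∑ j ∈ R, ∫ x, Lam (cnt Q (A ∪ A')ᶜ x) *
        ((∏ i ∈ A ∪ A', ind Q (x i)) * rough ν g j Ψ x ^ 2) ∂pin ν N ≤ F2 (A ∪ A') := by
      have e : ∀ j, ∫ x, Lam (cnt Q (A ∪ A')ᶜ x) *
          ((∏ i ∈ A ∪ A', ind Q (x i)) * rough ν g j Ψ x ^ 2) ∂pin ν N
          = ∫ x, T (A ∪ A') x * rough ν g j Ψ x ^ 2 ∂pin ν N := by
        intro j
        rw [hT]
        simp only []
        congr 1
        ext1 x
        ring
      simp only [e]
      rw [hF2]
      refine Finset.sum_le_sum_of_subset_of_nonneg ?_ fun j _ _ => hF2j _ j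
      rw [← hins]
      exact (Finset.subset_union_right).trans (Finset.subset_insert _ _)
    rw [eF1]
    have hmi : (0 : ℝ) ≤ 1 / m := by positivity
    have : k0 * (1 / m) ^ va * 8 ^ r * (∑ j ∈ R, ∫ x, Lam (cnt Q (A ∪ A')ᶜ x) *
        ((∏ i ∈ A ∪ A', ind Q (x i)) * rough ν g j Ψ x ^ 2) ∂pin ν N)
        ≤ k0 * (1 / m) ^ va * 8 ^ r * F2 (A ∪ A') :=
      mul_le_mul_of_nonneg_left eF2 (by positivity)
    have hr1 : (0 : ℝ) ≤ (r : ℝ) + 1 := by positivity
    refine mul_le_mul_of_nonneg_left ?_ hr1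
    linarith
  -- the sum over the triples
  set F : Finset (Fin N) → ℝ := fun G => k1 * (1 / m) ^ u * F1 G + k0 * (1 / m) ^ va * 8 ^ r * F2 G
    with hF
  have hmi : (0 : ℝ) ≤ 1 / m := by positivity
  have hFn : ∀ G, 0 ≤ F G := fun G => by
    have := hF10 G
    have := hF20 G
    rw [hF]
    positivity
  have hstep : ∑ A ∈ powersetCard va (univ : Finset (Fin N)),
        ∑ A' ∈ powersetCard vb (univ : Finset (Fin N)),
        (if (A ∩ A').card = t then ∑ i ∈ A ∩ A',
          ∫ x, pairH κA κB Q A A' i x *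
            (Lam (cnt Q (A ∪ A')ᶜ x) * (av ν g A Ψ x) ^ 2) ∂pin ν N else 0)
      ≤ ∑ A ∈ powersetCard va (univ : Finset (Fin N)),
        ∑ A' ∈ powersetCard vb (univ : Finset (Fin N)),
        (if (A ∩ A').card = t then (fun G => (t : ℝ) * ((r + 1) * F G)) (A ∪ A') else 0) := by
    refine Finset.sum_le_sum fun A hA => Finset.sum_le_sum fun A' hA' => ?_
    split_ifs with hcard
    · refine (Finset.sum_le_card_nsmul _ _ _ fun i hi => htriple A hA A' hA' hcard i hi).trans
        (le_of_eq ?_)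
      rw [hcard, nsmul_eq_mul]
    · exact le_rfl
  refine hstep.trans ?_
  have hcount := sum_pairs_le (N := N) va vb t htva (fun G => (t : ℝ) * ((r + 1) * F G))
    (fun G => by have := hFn G; positivity)
  rw [hu] at hcount
  refine hcount.trans ?_
  rw [← Finset.mul_sum, ← Finset.mul_sum]
  have hsF : ∑ G ∈ powersetCard (u + 1) (univ : Finset (Fin N)), F G
      = k1 * (1 / m) ^ u * ∑ G ∈ powersetCard (u + 1) (univ : Finset (Fin N)), F1 G
        + k0 * (1 / m) ^ va * 8 ^ r * ∑ G ∈ powersetCard (u + 1) (univ : Finset (Fin N)), F2 G := by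
    rw [hF, Finset.mul_sum, Finset.mul_sum, ← Finset.sum_add_distrib]
  have hbound : ∑ G ∈ powersetCard (u + 1) (univ : Finset (Fin N)), F G
      ≤ 8 ^ r * (k1 * (1 / m) ^ u * c1 * Nw ν Q Ψ + k0 * (1 / m) ^ va * c2 * Dw ν g Q Ψ) := by
    rw [hsF]
    have hNw : 0 ≤ Nw ν Q Ψ := integral_nonneg fun x => mul_nonneg (Nat.cast_nonneg _) (sq_nonneg _)
    have a1 : k1 * (1 / m) ^ u * ∑ G ∈ powersetCard (u + 1) (univ : Finset (Fin N)), F1 G
        ≤ k1 * (1 / m) ^ u * (c1 * Nw ν Q Ψ) := mul_le_mul_of_nonneg_left hsum1 (by positivity)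
    have a2 : k0 * (1 / m) ^ va * 8 ^ r * ∑ G ∈ powersetCard (u + 1) (univ : Finset (Fin N)), F2 G
        ≤ k0 * (1 / m) ^ va * 8 ^ r * (c2 * Dw ν g Q Ψ) :=
      mul_le_mul_of_nonneg_left hsum2 (by positivity)
    have a3 : (1 : ℝ) ≤ 8 ^ r := one_le_pow₀ (by norm_num)
    have a4 : k1 * (1 / m) ^ u * (c1 * Nw ν Q Ψ) ≤ 8 ^ r * (k1 * (1 / m) ^ u * (c1 * Nw ν Q Ψ)) :=
      le_mul_of_one_le_left (by positivity) a3
    calc _ ≤ 8 ^ r * (k1 * (1 / m) ^ u * (c1 * Nw ν Q Ψ))
          + k0 * (1 / m) ^ va * 8 ^ r * (c2 * Dw ν g Q Ψ) := by linarith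
      _ = _ := by ring
  calc (2 ^ (u + 1) * 2 ^ (u + 1)) * ((t : ℝ) * ((r + 1) *
        ∑ G ∈ powersetCard (u + 1) (univ : Finset (Fin N)), F G))
      ≤ (2 ^ (u + 1) * 2 ^ (u + 1)) * ((t : ℝ) * ((r + 1) *
        (8 ^ r * (k1 * (1 / m) ^ u * c1 * Nw ν Q Ψ + k0 * (1 / m) ^ va * c2 * Dw ν g Q Ψ)))) := by
        gcongr
    _ = _ := by
        rw [hk1, hk0]
        ring

end Pool.Agent.Lib.MP_5db8e2_mp
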