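import Pool.Agent.Lib.MP_5db8e2_mp.LB.Spec6
import Pool.Agent.Lib.MP_5db8e2_mp.LB.KerInt
import Pool.Agent.Lib.MP_5db8e2_mp.LB.PairSum

/-!
# Lower bound: single cluster sums in the whole cube (module DiagGlob)
-/

set_option autoImplicit false

open MeasureTheory Function Finset
open scoped Classical

namespace Pool.Agent.Lib.MP_5db8e2_mp

namespace DiagGlobAux

variable {N : ℕ} {ν : Measure R3} {m : ℝ} {g : R3 → ℝ} {Q B : Set R3} {κ : R3 → ℝ} {c0 : ℝ}

/-- the kernel of a single cluster with centre `i` -/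
noncomputable def PK (κ : R3 → ℝ) (Q : Set R3) (A : Finset (Fin N)) (i : Fin N)
    (x : Fin N → R3) : ℝ :=
  (∏ j ∈ A.erase i, κ (x i - x j)) * ∏ j ∈ A, ind Q (x j)

theorem BM_K (hm : Measurable κ) (hκ : ∀ t, 0 ≤ κ t ∧ κ t ≤ 1) (A : Finset (Fin N)) (i : Fin N) :
    BM (fun x : Fin N → R3 => ∏ j ∈ A.erase i, κ (x i - x j)) :=
  BM.prod _ fun j _ => PairSumAux.BM_ker hm (fun c => (hκ c).1) (fun c => (hκ c).2) i j

theorem BM_PK (hm : Measurable κ) (hκ : ∀ t, 0 ≤ κ t ∧ κ t ≤ 1) (hQ : MeasurableSet Q)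
    (A : Finset (Fin N)) (i : Fin N) : BM (PK κ Q A i) :=
  (BM_K hm hκ A i).mul (BM_prod_ind hQ A)

theorem PK_nonneg (hκ : ∀ t, 0 ≤ κ t ∧ κ t ≤ 1) (A : Finset (Fin N)) (i : Fin N)
    (x : Fin N → R3) : 0 ≤ PK κ Q A i x :=
  mul_nonneg (Finset.prod_nonneg fun _ _ => (hκ _).1) (Finset.prod_nonneg fun _ _ => ind_nonneg _ _)

theorem Mg_PK [IsFiniteMeasure ν] (h : Wd ν m g Q B) (hm : Measurable κ)
    (hκ : ∀ t, 0 ≤ κ t ∧ κ t ≤ 1) (hc0 : ∀ u, ∫ t, κ (u - t) ∂ν ≤ c0)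
    {A : Finset (Fin N)} {i : Fin N} (hi : i ∈ A) (x : Fin N → R3) :
    Mg ν A (PK κ Q A i) x ≤ 8 * m * c0 ^ (A.card - 1) := by
  have hκbm : BM κ := ⟨hm, 1, fun c => by rw [abs_of_nonneg (hκ c).1]; exact (hκ c).2⟩
  have hI0 : ∀ c, 0 ≤ ∫ t, κ (c - t) ∂ν := fun c => integral_nonneg fun t => (hκ _).1
  have hc0n : 0 ≤ c0 := (hI0 0).trans (hc0 0)
  set P' : (Fin N → R3) → ℝ := fun x => ind Q (x i) * ∏ j ∈ A.erase i, κ (x i - x j) with hP'
  have hP'bm : BM P' := (BM_ind_at h.Q_meas i).mul (BM_K hm hκ A i)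
  have hle : ∀ x, PK κ Q A i x ≤ P' x := by
    intro x
    unfold PK
    rw [hP', mul_comm]
    refine mul_le_mul_of_nonneg_right ?_ (Finset.prod_nonneg fun _ _ => (hκ _).1)
    rw [← Finset.mul_prod_erase A (fun j => ind Q (x j)) hi]
    have h1 : ∏ j ∈ A.erase i, ind Q (x j) ≤ 1 :=
      Finset.prod_le_one (fun _ _ => ind_nonneg _ _) fun _ _ => ind_le_one _ _
    calc ind Q (x i) * ∏ j ∈ A.erase i, ind Q (x j) ≤ ind Q (x i) * 1 :=
          mul_le_mul_of_nonneg_left h1 (ind_nonneg _ _)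
      _ = ind Q (x i) := mul_one _
  refine (Mg_mono (BM_PK hm hκ h.Q_meas A i) hP'bm hle x).trans ?_
  have hie : i ∉ A.erase i := Finset.notMem_erase i A
  have e1 : Mg ν A P' = Mg ν {i} (Mg ν (A.erase i) P') := by
    have := Mg_insert (lam := ν) hP'bm hie
    rwa [Finset.insert_erase hi] at this
  have e2 : Mg ν (A.erase i) P' =
      fun x => ind Q (x i) * ∏ j ∈ A.erase i, ∫ t, κ (x i - t) ∂ν := by
    rw [hP', Mg_mul_left (h := fun x : Fin N → R3 => ind Q (x i)) _ ?_,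
      KerIntAux.Mg_prod (fun _ => κ) (fun _ => hκbm) i _ hie]
    intro y z hyz
    have := hyz i (by simp)
    simp only [this]
  rw [e1, e2, Mg_singleton]
  simp only [Function.update_self, Finset.prod_const, Finset.card_erase_of_mem hi]
  have h3 : ∫ t, ind Q t * (∫ s, κ (t - s) ∂ν) ^ (A.card - 1) ∂ν
      ≤ ∫ t, ind Q t * c0 ^ (A.card - 1) ∂ν := by
    apply integral_mono_of_nonneg
    · exact Filter.Eventually.of_forall fun t =>
        mul_nonneg (ind_nonneg _ _) (pow_nonneg (hI0 t) _)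
    · exact ((BM_ind h.Q_meas).integrable ν).mul_const _
    · exact Filter.Eventually.of_forall fun t =>
        mul_le_mul_of_nonneg_left (pow_le_pow_left₀ (hI0 t) (hc0 t) _) (ind_nonneg _ _)
  refine h3.trans ?_
  rw [integral_mul_const]
  have h4 : ∫ t, ind Q t ∂ν = ν.real Q := by
    unfold ind
    rw [integral_indicator_const _ h.Q_meas]
    simp
  rw [h4]
  exact mul_le_mul_of_nonneg_right h.Q_vol (pow_nonneg hc0n _)

theorem single [IsFiniteMeasure ν] (h : Wd ν m g Q B) (hm : Measurable κ)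
    (hκ : ∀ t, 0 ≤ κ t ∧ κ t ≤ 1) (hc0 : ∀ u, ∫ t, κ (u - t) ∂ν ≤ c0)
    {Ψ : (Fin N → R3) → ℝ} (hΨ : BM Ψ) {Lam : ℕ → ℝ} (hLam : ∀ n, 0 ≤ Lam n)
    {A : Finset (Fin N)} {i : Fin N} (hi : i ∈ A) :
    ∫ x, PK κ Q A i x * (Lam (cnt Q Aᶜ x) * av ν g A Ψ x ^ 2) ∂pin ν N
      ≤ 8 * c0 ^ (A.card - 1) * (1 / m) ^ (A.card - 1) *
        ∫ x, Lam (cnt Q Aᶜ x) * ((∏ j ∈ A, ind Q (x j)) * Ψ x ^ 2) ∂pin ν N := by
  have hm0 : 0 < m := lt_of_lt_of_le one_pos h.hm
  have hI0 : 0 ≤ ∫ t, κ (0 - t) ∂ν := integral_nonneg fun t => (hκ _).1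
  have hc0n : 0 ≤ c0 := hI0.trans (hc0 0)
  have hw : BM (fun x : Fin N → R3 => Lam (cnt Q Aᶜ x)) := BM_cnt_comp h.Q_meas _ _
  have hU : BM (fun x => av ν g A Ψ x ^ 2) := (av_bm h hΨ).pow 2
  have hwd : DependsOn (fun x : Fin N → R3 => Lam (cnt Q Aᶜ x)) ((A : Set (Fin N))ᶜ) := by
    intro y z hyz
    have := cnt_dep Q Aᶜ (x := y) (y := z) (fun j hj => hyz j (by simpa using hj))
    simp only [] at this
    simp only [this]
  have hdep : DependsOn (fun x : Fin N → R3 => Lam (cnt Q Aᶜ x) * av ν g A Ψ x ^ 2)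
      ((A : Set (Fin N))ᶜ) := by
    intro y z hyz
    have h1 := hwd hyz
    have h2 := av_dep (ν := ν) (g := g) (A := A) Ψ hyz
    simp only [] at h1
    simp only [h1, h2]
  have hPb := BM_PK (N := N) hm hκ h.Q_meas A i
  rw [integral_eq_out (hPb.mul (hw.mul hU)) 0 A, Mg_mul_right _ hdep]
  have h1 : out ν 0 A (fun x => Mg ν A (PK κ Q A i) x *
      (Lam (cnt Q Aᶜ x) * av ν g A Ψ x ^ 2)) ≤
      out ν 0 A (fun x => (8 * m * c0 ^ (A.card - 1)) *
      (Lam (cnt Q Aᶜ x) * av ν g A Ψ x ^ 2)) := by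
    refine out_mono ((Mg_bm hPb).mul (hw.mul hU)) ((hw.mul hU).const_mul _) 0 fun x => ?_
    exact mul_le_mul_of_nonneg_right (Mg_PK h hm hκ hc0 hi x)
      (mul_nonneg (hLam _) (sq_nonneg _))
  refine h1.trans ?_
  have h2 : out ν 0 A (fun x => (8 * m * c0 ^ (A.card - 1)) *
      (Lam (cnt Q Aᶜ x) * av ν g A Ψ x ^ 2)) =
      (8 * m * c0 ^ (A.card - 1)) *
        out ν 0 A (fun x => Lam (cnt Q Aᶜ x) * av ν g A Ψ x ^ 2) := by
    unfold out
    rw [Mg_const_mul]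
  rw [h2]
  have h3 := out_av_sq_le h hΨ hw (fun x => hLam _) hwd 0
  refine (mul_le_mul_of_nonneg_left h3 (by positivity)).trans ?_
  rw [← mul_assoc]
  refine mul_le_mul_of_nonneg_right ?_ (integral_nonneg fun x => mul_nonneg (hLam _)
    (mul_nonneg (Finset.prod_nonneg fun _ _ => ind_nonneg _ _) (sq_nonneg _)))
  have hcard : 1 ≤ A.card := Finset.card_pos.2 ⟨i, hi⟩
  obtain ⟨n, hn⟩ := Nat.exists_eq_add_of_le' hcard
  rw [hn, Nat.add_sub_cancel]
  have hmm : m * (1 / m) = 1 := by field_simp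
  apply le_of_eq
  calc 8 * m * c0 ^ n * (1 / m) ^ (n + 1) = 8 * c0 ^ n * (1 / m) ^ n * (m * (1 / m)) := by ring
    _ = 8 * c0 ^ n * (1 / m) ^ n := by rw [hmm, mul_one]

end DiagGlobAux

open DiagGlobAux

theorem DiagGlob (hS : S_Supp2) (hWd : S_WdWin) (hC : S_CountK) (hBM : S_BMall) :
    S_DiagGlob := by
  clear hBM
  intro k hk1 hk4
  have hk0 : (0 : ℝ) < k := by exact_mod_cast hk1
  refine ⟨8 * k, by positivity, ?_⟩
  intro p hp r4 hL Ψ hΨ κ hκm hκ hκs c0 hc0 Lam hLam c1 hc1 Y hY hYb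
  have hs0 : 0 < p.s := lt_of_lt_of_le one_pos hp.hs
  have hI0 : 0 ≤ ∫ t, κ (0 - t) ∂p.nu := integral_nonneg fun t => (hκ _).1
  have hc0n : 0 ≤ c0 := hI0.trans (hc0 0)
  have hL' : p.Large (max r4 0) := by
    have h1 : 0 ≤ p.e * p.s := mul_nonneg hp.he.le hs0.le
    have h2 : 100 * r4 ≤ p.e * p.s := hL
    show 100 * max r4 0 ≤ p.e * p.s
    rcases le_total r4 0 with h | h
    · rw [max_eq_right h]
      linarith
    · rw [max_eq_left h]
      exact h2
  -- pointwise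
  have hpt : ∀ A ∈ powersetCard k (univ : Finset (Fin p.N)), ∀ x,
      |Y A x| ≤ ∑ i ∈ A, ∑ a ∈ p.win, PK κ (Qc p.s a) A i x *
        (Lam (cnt (Qc p.s a) Aᶜ x) * av p.nu (p.gd a) A Ψ x ^ 2) := by
    intro A hA x
    refine (hYb A hA x).trans (Finset.sum_le_sum fun i hi => ?_)
    rw [Finset.mul_sum]
    refine Finset.sum_le_sum fun a _ => ?_
    have hW0 : 0 ≤ Lam (cnt (Qc p.s a) Aᶜ x) * av p.nu (p.gd a) A Ψ x ^ 2 :=
      mul_nonneg (hLam _) (sq_nonneg _)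
    have hU : p.U a A Ψ x = av p.nu (p.gd a) A Ψ x := rfl
    rw [hU]
    by_cases h1 : Par.cmA A x ∈ p.Qin a
    · by_cases h2 : ∏ j ∈ A.erase i, κ (x i - x j) = 0
      · rw [h2, zero_mul]
        exact mul_nonneg (PK_nonneg hκ A i x) hW0
      · have h3 : ∀ j ∈ A, ‖x i - x j‖ ≤ 8 * max r4 0 := by
          intro j hj
          by_cases hji : j = i
          · rw [hji, sub_self, norm_zero]
            have := le_max_right r4 0
            linarith
          · have h4 := Finset.prod_ne_zero_iff.1 h2 j (Finset.mem_erase.2 ⟨hji, hj⟩)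
            have h5 := hκs _ h4
            have := le_max_left r4 0
            linarith
        have h6 : ∀ j ∈ A, x j ∈ Qc p.s a := by
          intro j hj
          refine hS p hp (max r4 0) (le_max_right _ _) hL' a A x h1 i hi h3 j ?_
          rw [norm_sub_rev]
          have := le_max_right r4 0
          linarith [h3 j hj]
        have h7 : ∏ j ∈ A, ind (Qc p.s a) (x j) = 1 :=
          Finset.prod_eq_one fun j hj => ind_of_mem (h6 j hj)
        unfold PK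
        rw [h7, ind_of_mem h1, mul_one, one_mul]
    · rw [ind_of_notMem h1, zero_mul, mul_zero]
      exact mul_nonneg (PK_nonneg hκ A i x) hW0
  -- the weights
  have hTbm : ∀ a ∈ p.win, ∀ A : Finset (Fin p.N),
      BM (fun x : Fin p.N → R3 => Lam (cnt (Qc p.s a) Aᶜ x) *
        ((∏ j ∈ A, ind (Qc p.s a) (x j)) * Ψ x ^ 2)) := fun a ha A =>
    (BM_cnt_comp (hWd p hp a ha).1.Q_meas _ _).mul
      ((BM_prod_ind (hWd p hp a ha).1.Q_meas A).mul (hΨ.pow 2))
  set I : (Fin 3 → ℤ) → Finset (Fin p.N) → ℝ := fun a A =>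
    ∫ x, Lam (cnt (Qc p.s a) Aᶜ x) *
      ((∏ j ∈ A, ind (Qc p.s a) (x j)) * Ψ x ^ 2) ∂pin p.nu p.N with hI
  have hint : ∀ A ∈ powersetCard k (univ : Finset (Fin p.N)),
      ∫ x, |Y A x| ∂pin p.nu p.N ≤
        ∑ a ∈ p.win, 8 * k * c0 ^ (k - 1) * (1 / p.s ^ 3) ^ (k - 1) * I a A := by
    intro A hA
    have hAc : A.card = k := (Finset.mem_powersetCard.1 hA).2
    have hGbm : ∀ i, ∀ a ∈ p.win, BM (fun x => PK κ (Qc p.s a) A i x *
        (Lam (cnt (Qc p.s a) Aᶜ x) * av p.nu (p.gd a) A Ψ x ^ 2)) := by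
      intro i a ha
      have hW := (hWd p hp a ha).1
      exact (BM_PK hκm hκ hW.Q_meas A i).mul
        ((BM_cnt_comp hW.Q_meas _ _).mul ((av_bm hW hΨ).pow 2))
    have h1 : ∫ x, |Y A x| ∂pin p.nu p.N ≤
        ∫ x, ∑ i ∈ A, ∑ a ∈ p.win, PK κ (Qc p.s a) A i x *
        (Lam (cnt (Qc p.s a) Aᶜ x) * av p.nu (p.gd a) A Ψ x ^ 2) ∂pin p.nu p.N := by
      refine integral_mono ((hY A).abs.integrable _) ?_ (hpt A hA)
      exact (BM.sum A fun i _ => BM.sum p.win fun a ha => hGbm i a ha).integrable _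
    refine h1.trans ?_
    rw [integral_finsetSum _ fun i _ =>
      (BM.sum p.win fun a ha => hGbm i a ha).integrable _]
    have h2 : ∀ i ∈ A, ∫ x, ∑ a ∈ p.win, PK κ (Qc p.s a) A i x *
        (Lam (cnt (Qc p.s a) Aᶜ x) * av p.nu (p.gd a) A Ψ x ^ 2) ∂pin p.nu p.N ≤
        ∑ a ∈ p.win, 8 * c0 ^ (k - 1) * (1 / p.s ^ 3) ^ (k - 1) * I a A := by
      intro i hi
      rw [integral_finsetSum _ fun a ha => (hGbm i a ha).integrable _]
      refine Finset.sum_le_sum fun a ha => ?_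
      have h3 := single (hWd p hp a ha).1 hκm hκ hc0 hΨ hLam hi
      rw [hAc] at h3
      exact h3
    refine (Finset.sum_le_sum h2).trans ?_
    rw [Finset.sum_const, hAc, nsmul_eq_mul, Finset.mul_sum]
    refine Finset.sum_le_sum fun a _ => le_of_eq ?_
    ring
  refine (Finset.sum_le_sum hint).trans ?_
  rw [Finset.sum_comm]
  unfold Par.Nn
  rw [Finset.mul_sum]
  refine Finset.sum_le_sum fun a ha => ?_
  rw [← Finset.mul_sum]
  have hQm := (hWd p hp a ha).1.Q_meas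
  have hsum : ∑ A ∈ powersetCard k (univ : Finset (Fin p.N)), I a A ≤
      c1 * Nw p.nu (Qc p.s a) Ψ := by
    rw [hI]
    simp only []
    rw [← integral_finsetSum _ fun A _ => (hTbm a ha A).integrable _]
    unfold Nw
    rw [← integral_const_mul]
    refine integral_mono ((BM.sum _ fun A _ => hTbm a ha A).integrable _)
      ((((BM_cnt hQm _).mul (hΨ.pow 2)).const_mul c1).integrable _) fun x => ?_
    simp only []
    simp only [← mul_assoc]
    rw [← Finset.sum_mul]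
    refine mul_le_mul_of_nonneg_right ?_ (sq_nonneg _)
    have e := PairSumAux.sum_count hC (Qc p.s a) Lam univ k x
    simp only [← Finset.compl_eq_univ_sdiff] at e
    rw [e]
    set n := cnt (Qc p.s a) univ x with hn
    have hc1n : 0 ≤ c1 := by
      have h3 : 0 ≤ ((0 + k : ℕ) : ℝ) ^ k * Lam 0 := mul_nonneg (by positivity) (hLam 0)
      have h4 : (0 : ℝ) < ((0 + k : ℕ) : ℝ) := by
        rw [zero_add]
        exact hk0
      have h5 := h3.trans (hc1 0)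
      by_contra hcon
      push Not at hcon
      have := mul_neg_of_neg_of_pos hcon h4
      linarith
    by_cases hlt : n < k
    · rw [Nat.choose_eq_zero_of_lt hlt]
      simp only [Nat.cast_zero, mul_zero]
      positivity
    · push Not at hlt
      obtain ⟨n', hn'⟩ := Nat.exists_eq_add_of_le' hlt
      have h3 := hc1 n'
      rw [hn', Nat.add_sub_cancel]
      refine le_trans ?_ h3
      rw [mul_comm]
      refine mul_le_mul_of_nonneg_right ?_ (hLam _)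
      exact_mod_cast Nat.choose_le_pow (n' + k) k
  calc 8 * (k : ℝ) * c0 ^ (k - 1) * (1 / p.s ^ 3) ^ (k - 1) *
        ∑ A ∈ powersetCard k (univ : Finset (Fin p.N)), I a A
      ≤ 8 * (k : ℝ) * c0 ^ (k - 1) * (1 / p.s ^ 3) ^ (k - 1) *
        (c1 * Nw p.nu (Qc p.s a) Ψ) := mul_le_mul_of_nonneg_left hsum (by positivity)
    _ = 8 * (k : ℝ) * c0 ^ (k - 1) * (1 / p.s ^ 3) ^ (k - 1) * c1 *
        Nw p.nu (Qc p.s a) Ψ := by ring

end Pool.Agent.Lib.MP_5db8e2_mp
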