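import Pool.Agent.Lib.MP_5db8e2_mp.LB.Spec7

/-!
# Lower bound, part 7: the difference of the three- and the four-body trial functions
-/

set_option autoImplicit false

open MeasureTheory Function Finset
open scoped Classical

namespace Pool.Agent.Lib.MP_5db8e2_mp

namespace DptAux

theorem jensen {ι : Type*} (S : Finset ι) (w u : ι → ℝ) (hw : ∀ a ∈ S, 0 ≤ w a)
    (h1 : ∑ a ∈ S, w a ≤ 1) : (∑ a ∈ S, w a * u a) ^ 2 ≤ ∑ a ∈ S, w a * u a ^ 2 := by
  have hcs := Finset.sum_mul_sq_le_sq_mul_sq S (fun a => Real.sqrt (w a))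
    (fun a => Real.sqrt (w a) * u a)
  have e1 : ∑ a ∈ S, Real.sqrt (w a) * (Real.sqrt (w a) * u a) = ∑ a ∈ S, w a * u a := by
    refine Finset.sum_congr rfl fun a ha => ?_
    rw [← mul_assoc, Real.mul_self_sqrt (hw a ha)]
  have e2 : ∑ a ∈ S, Real.sqrt (w a) ^ 2 = ∑ a ∈ S, w a := by
    refine Finset.sum_congr rfl fun a ha => ?_
    rw [Real.sq_sqrt (hw a ha)]
  have e3 : ∑ a ∈ S, (Real.sqrt (w a) * u a) ^ 2 = ∑ a ∈ S, w a * u a ^ 2 := by
    refine Finset.sum_congr rfl fun a ha => ?_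
    rw [mul_pow, Real.sq_sqrt (hw a ha)]
  rw [e1, e2, e3] at hcs
  refine hcs.trans ?_
  have h0 : 0 ≤ ∑ a ∈ S, w a * u a ^ 2 :=
    Finset.sum_nonneg fun a ha => mul_nonneg (hw a ha) (sq_nonneg _)
  calc (∑ a ∈ S, w a) * ∑ a ∈ S, w a * u a ^ 2 ≤ 1 * ∑ a ∈ S, w a * u a ^ 2 :=
        mul_le_mul_of_nonneg_right h1 h0
    _ = _ := one_mul _

/-- The centre of mass is close to every particle. -/
theorem cm_close {N : ℕ} (A : Finset (Fin N)) (x : Fin N → R3) (i : Fin N) (hi : i ∈ A) (ρ : ℝ)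
    (h : ∀ j ∈ A, ‖x i - x j‖ ≤ ρ) (k : Fin 3) : |x i k - Par.cmA A x k| ≤ ρ := by
  have hc : (0 : ℝ) < A.card := by
    exact_mod_cast Finset.card_pos.2 ⟨i, hi⟩
  have e : x i k - Par.cmA A x k = (∑ m ∈ A, (x i k - x m k)) / A.card := by
    unfold Par.cmA
    rw [Finset.sum_sub_distrib, Finset.sum_const, nsmul_eq_mul]
    field_simp
  rw [e, abs_div, abs_of_pos hc, div_le_iff₀ hc]
  calc |∑ m ∈ A, (x i k - x m k)| ≤ ∑ m ∈ A, |x i k - x m k| :=
        Finset.abs_sum_le_sum_abs _ _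
    _ ≤ ∑ _m ∈ A, ρ := by
        refine Finset.sum_le_sum fun m hm => ?_
        have := norm_le_pi_norm (x i - x m) k
        rw [Pi.sub_apply, Real.norm_eq_abs] at this
        exact this.trans (h m hm)
    _ = ρ * A.card := by rw [Finset.sum_const, nsmul_eq_mul]; ring

theorem cnt_univ {N : ℕ} (Z : Set R3) (Q : Finset (Fin N)) (x : Fin N → R3)
    (h : ∀ j ∈ Q, x j ∈ Z) : cnt Z univ x = cnt Z Qᶜ x + Q.card := by
  unfold cnt
  have h1 : (univ : Finset (Fin N)) = Qᶜ ∪ Q := by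
    rw [Finset.union_comm, Finset.union_compl]
  have h2 : Disjoint Qᶜ Q := disjoint_compl_left
  rw [h1, Finset.filter_union, Finset.card_union_of_disjoint
    (Finset.disjoint_filter_filter h2)]
  congr 1
  rw [Finset.filter_true_of_mem h]

theorem cnt_insert {N : ℕ} (Z : Set R3) (Q : Finset (Fin N)) (l : Fin N) (x : Fin N → R3) :
    cnt Z (Q.erase l)ᶜ x ≤ cnt Z Qᶜ x + 1 := by
  unfold cnt
  have h1 : (Q.erase l)ᶜ ⊆ insert l Qᶜ := by
    intro i hi
    rw [Finset.mem_compl, Finset.mem_erase] at hi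
    rw [Finset.mem_insert, Finset.mem_compl]
    by_cases h : i = l
    · exact Or.inl h
    · right
      intro h2
      exact hi ⟨h, h2⟩
  calc ((Q.erase l)ᶜ.filter (fun m => x m ∈ Z)).card
      ≤ ((insert l Qᶜ).filter (fun m => x m ∈ Z)).card :=
        Finset.card_le_card (Finset.filter_subset_filter _ h1)
    _ ≤ (insert l (Qᶜ.filter (fun m => x m ∈ Z))).card := by
        apply Finset.card_le_card
        rw [Finset.filter_insert]
        split_ifs
        · exact Finset.Subset.refl _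
        · exact Finset.subset_insert _ _
    _ ≤ (Qᶜ.filter (fun m => x m ∈ Z)).card + 1 := Finset.card_insert_le _ _

end DptAux

theorem Dpt (hK : S_KerQ) (hS : S_Supp2) (hW : S_WinFacts) (hO : S_Overlap) (hWd : S_WdWin) :
    S_Dpt := by
  obtain ⟨C, hC0, hC⟩ := hW
  obtain ⟨CK, -, hK⟩ := hK
  refine ⟨3 * (27 * (16 * C) ^ 2 + 1), by positivity, ?_⟩
  intro p hp r4 hr4 hL Ψ hΨ Q hQ l hl x hx
  have hs : 0 < p.s := lt_of_lt_of_le one_pos hp.hs
  have hfacts := hC p.s p.e hp.hs hp.he hp.he'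
  have hQc : Q.card = 4 := (Finset.mem_powersetCard.1 hQ).2
  have hνle : p.nu ≤ volume := Measure.restrict_le_self
  have hdist : ∀ i ∈ Q, ∀ j ∈ Q, ‖x i - x j‖ ≤ 8 * r4 :=
    (hK p.nu hνle r4 hr4 Q hQc).2.2.2.2.2.1 x hx
  set T := Q.erase l with hT
  have hTQ : T ⊆ Q := Finset.erase_subset l Q
  have hTc : T.card = 3 := by rw [hT, Finset.card_erase_of_mem hl, hQc]
  obtain ⟨i₀, hi₀⟩ : T.Nonempty := by
    rw [← Finset.card_pos, hTc]
    norm_num
  have hi₀Q : i₀ ∈ Q := hTQ hi₀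
  -- the windows
  set I : (Fin 3 → ℤ) → ℝ := fun a => ∏ j ∈ Q, ind (Qc p.s a) (x j) with hI
  have hI0 : ∀ a, 0 ≤ I a := fun a => Finset.prod_nonneg fun j _ => ind_nonneg _ _
  have hI1 : ∀ a, (∀ j ∈ Q, x j ∈ Qc p.s a) → I a = 1 := by
    intro a h
    rw [hI]
    exact Finset.prod_eq_one fun j hj => ind_of_mem (h j hj)
  have hI01 : ∀ a, I a = 0 ∨ (I a = 1 ∧ ∀ j ∈ Q, x j ∈ Qc p.s a) := by
    intro a
    by_cases h : ∀ j ∈ Q, x j ∈ Qc p.s a
    · exact Or.inr ⟨hI1 a h, h⟩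
    · left
      push Not at h
      obtain ⟨j, hj, hj'⟩ := h
      exact Finset.prod_eq_zero hj (ind_of_notMem hj')
  have hIsq : ∀ a, I a ^ 2 = I a := by
    intro a
    rcases hI01 a with h | ⟨h, _⟩ <;> rw [h] <;> norm_num
  have hIle : ∀ a, I a ≤ ind (Qc p.s a) (x i₀) := by
    intro a
    rcases hI01 a with h | ⟨h, h'⟩
    · rw [h]; exact ind_nonneg _ _
    · rw [h, ind_of_mem (h' i₀ hi₀Q)]
  have hI27 : ∑ a ∈ p.win, I a ≤ 27 :=
    (Finset.sum_le_sum fun a _ => hIle a).trans ((hO p hp).1 (x i₀))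
  set θT : (Fin 3 → ℤ) → ℝ := fun a => th p.s p.e a (Par.cmA T x) with hθT
  set θQ : (Fin 3 → ℤ) → ℝ := fun a => th p.s p.e a (Par.cmA Q x) with hθQ
  have hr10 : 8 * r4 ≤ 10 * r4 := by linarith
  have hsT : ∀ a, θT a ≠ 0 → I a = 1 := by
    intro a h
    apply hI1
    intro j hj
    exact hS p hp r4 (by linarith) hL a T x ((hfacts a).2.2.1 _ h) i₀ hi₀
      (fun m hm => hdist i₀ hi₀Q m (hTQ hm)) j ((hdist j hj i₀ hi₀Q).trans hr10)
  have hsQ : ∀ a, θQ a ≠ 0 → I a = 1 := by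
    intro a h
    apply hI1
    intro j hj
    exact hS p hp r4 (by linarith) hL a Q x ((hfacts a).2.2.1 _ h) i₀ hi₀Q
      (fun m hm => hdist i₀ hi₀Q m hm) j ((hdist j hj i₀ hi₀Q).trans hr10)
  have hθQ0 : ∀ a, 0 ≤ θQ a := fun a => ((hfacts a).2.1 _).1
  have hθQI : ∀ a, θQ a ≤ I a := by
    intro a
    by_cases h : θQ a = 0
    · rw [h]; exact hI0 a
    · rw [hsQ a h]; exact ((hfacts a).2.1 _).2
  have hθQsum : ∑ a ∈ p.win, θQ a ≤ 1 := (hfacts 0).2.2.2.2.2.1 p.K _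
  -- the Lipschitz estimate
  have hcm : ‖Par.cmA T x - Par.cmA Q x‖ ≤ 16 * r4 := by
    rw [pi_norm_le_iff_of_nonneg (by linarith)]
    intro k
    have h1 := DptAux.cm_close T x i₀ hi₀ (8 * r4) (fun m hm => hdist i₀ hi₀Q m (hTQ hm)) k
    have h2 := DptAux.cm_close Q x i₀ hi₀Q (8 * r4) (fun m hm => hdist i₀ hi₀Q m hm) k
    rw [Pi.sub_apply, Real.norm_eq_abs]
    rw [abs_le] at h1 h2 ⊢
    constructor <;> linarith [h1.1, h1.2, h2.1, h2.2]
  have hlip : ∀ a, |θT a - θQ a| ≤ 16 * C * (r4 / p.s) := by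
    intro a
    calc |θT a - θQ a| ≤ C / p.s * ‖Par.cmA T x - Par.cmA Q x‖ := (hfacts a).2.2.2.1 _ _
      _ ≤ C / p.s * (16 * r4) := mul_le_mul_of_nonneg_left hcm (by positivity)
      _ = 16 * C * (r4 / p.s) := by ring
  have hdI : ∀ a, θT a - θQ a = ((θT a - θQ a) * I a) * I a := by
    intro a
    by_cases h1 : θT a = 0
    · by_cases h2 : θQ a = 0
      · rw [h1, h2]; ring
      · rw [hsQ a h2]; ring
    · rw [hsT a h1]; ring
  -- the functions
  set l3 : (Fin 3 → ℤ) → ℝ := fun a => p.l3 a T x with hl3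
  set l4 : (Fin 3 → ℤ) → ℝ := fun a => p.l4 a Q x with hl4
  set UT : (Fin 3 → ℤ) → ℝ := fun a => p.U a T Ψ x with hUT
  set UQ : (Fin 3 → ℤ) → ℝ := fun a => p.U a Q Ψ x with hUQ
  set Uq : (Fin 3 → ℤ) → ℝ := fun a => p.U a T (p.q a l Ψ) x with hUq
  have hUdiff : ∀ a ∈ p.win, UT a - UQ a = Uq a := by
    intro a ha
    have hwd := (hWd p hp a ha).1
    have h1 : p.U a T (p.q a l Ψ) = fun x => av p.nu (p.gd a) T Ψ x
        - av p.nu (p.gd a) T (av p.nu (p.gd a) {l} Ψ) x := av_sub hwd hΨ (av_bm hwd hΨ)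
    have h2 : Disjoint T {l} := by
      rw [Finset.disjoint_singleton_right]
      exact Finset.notMem_erase l Q
    have h3 : T ∪ {l} = Q := by
      rw [hT, Finset.union_comm, ← Finset.insert_eq, Finset.insert_erase hl]
    rw [← av_union hwd hΨ h2, h3] at h1
    have h4 := congrFun h1 x
    exact h4.symm
  have hdec : p.v3 Ψ T x - p.v4 Ψ Q x = ∑ a ∈ p.win, (θT a - θQ a) * (l3 a * UT a)
      + ∑ a ∈ p.win, θQ a * ((l3 a - l4 a) * UT a) + ∑ a ∈ p.win, θQ a * (l4 a * Uq a) := by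
    have h1 : p.v3 Ψ T x = ∑ a ∈ p.win, θT a * (l3 a * UT a) := rfl
    have h2 : p.v4 Ψ Q x = ∑ a ∈ p.win, θQ a * (l4 a * UQ a) := rfl
    rw [h1, h2, ← Finset.sum_sub_distrib, ← Finset.sum_add_distrib, ← Finset.sum_add_distrib]
    refine Finset.sum_congr rfl fun a ha => ?_
    rw [← hUdiff a ha]
    ring
  -- the first sum
  have hS1 : (∑ a ∈ p.win, (θT a - θQ a) * (l3 a * UT a)) ^ 2
      ≤ 27 * (16 * C) ^ 2 * ∑ a ∈ p.win, I a * ((r4 / p.s) ^ 2 * (l3 a ^ 2 * UT a ^ 2)) := by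
    have h1 : ∑ a ∈ p.win, (θT a - θQ a) * (l3 a * UT a)
        = ∑ a ∈ p.win, ((θT a - θQ a) * I a) * (I a * (l3 a * UT a)) := by
      refine Finset.sum_congr rfl fun a _ => ?_
      rw [hdI a]
      have := hIsq a
      calc (θT a - θQ a) * I a * I a * (l3 a * UT a)
          = (θT a - θQ a) * I a * (I a * (l3 a * UT a)) := by ring
        _ = (((θT a - θQ a) * I a) * I a) * I a * (I a * (l3 a * UT a)) := by
            rw [mul_assoc _ (I a) (I a), ← pow_two, this]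
            rw [mul_assoc _ (I a) (I a), ← pow_two, this]
    have h2 := Finset.sum_mul_sq_le_sq_mul_sq p.win (fun a => (θT a - θQ a) * I a)
      (fun a => I a * (l3 a * UT a))
    have h3 : ∑ a ∈ p.win, ((θT a - θQ a) * I a) ^ 2 ≤ (16 * C * (r4 / p.s)) ^ 2 * 27 := by
      calc ∑ a ∈ p.win, ((θT a - θQ a) * I a) ^ 2
          ≤ ∑ a ∈ p.win, (16 * C * (r4 / p.s)) ^ 2 * I a := by
            refine Finset.sum_le_sum fun a _ => ?_
            rw [mul_pow, hIsq]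
            apply mul_le_mul_of_nonneg_right _ (hI0 a)
            rw [← sq_abs (θT a - θQ a)]
            exact pow_le_pow_left₀ (abs_nonneg _) (hlip a) 2
        _ = (16 * C * (r4 / p.s)) ^ 2 * ∑ a ∈ p.win, I a := by rw [Finset.mul_sum]
        _ ≤ (16 * C * (r4 / p.s)) ^ 2 * 27 := mul_le_mul_of_nonneg_left hI27 (sq_nonneg _)
    have h4 : ∑ a ∈ p.win, (I a * (l3 a * UT a)) ^ 2
        = ∑ a ∈ p.win, I a * (l3 a ^ 2 * UT a ^ 2) := by
      refine Finset.sum_congr rfl fun a _ => ?_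
      rw [mul_pow, hIsq, mul_pow]
    rw [h1]
    refine h2.trans ?_
    rw [h4]
    have h5 : 0 ≤ ∑ a ∈ p.win, I a * (l3 a ^ 2 * UT a ^ 2) :=
      Finset.sum_nonneg fun a _ => mul_nonneg (hI0 a) (by positivity)
    refine (mul_le_mul_of_nonneg_right h3 h5).trans (le_of_eq ?_)
    rw [Finset.mul_sum, Finset.mul_sum]
    refine Finset.sum_congr rfl fun a _ => ?_
    ring
  -- the second sum
  have hl34 : ∀ a, I a = 1 → (l3 a - l4 a) ^ 2
      ≤ (if p.M < cnt (Bc p.s a) univ x then 1 else 0) * l3 a ^ 2 := by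
    intro a ha
    have hall : ∀ j ∈ Q, x j ∈ Qc p.s a := by
      rcases hI01 a with h | ⟨_, h⟩
      · rw [ha] at h
        norm_num at h
      · exact h
    have hallB : ∀ j ∈ Q, x j ∈ Bc p.s a := by
      intro j hj k
      exact (hall j hj k).trans (by linarith)
    have hcu := DptAux.cnt_univ (Bc p.s a) Q x hallB
    rw [hQc] at hcu
    have hci := DptAux.cnt_insert (Bc p.s a) Q l x
    by_cases h : (cnt (Bc p.s a) Qᶜ x : ℝ) + 1 ≤ p.M
    · have e4 : l4 a = 1 := by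
        rw [hl4]
        simp only [Par.l4, lam4]
        rw [if_pos h]
      have e3 : l3 a = 1 := by
        have h' : (cnt (Bc p.s a) (Q.erase l)ᶜ x : ℝ) ≤ p.M := by
          refine le_trans ?_ h
          exact_mod_cast hci
        rw [hl3]
        simp only [Par.l3, lam3]
        rw [if_pos h']
      rw [e3, e4]
      have : (0 : ℝ) ≤ (if p.M < cnt (Bc p.s a) univ x then 1 else 0) := by
        split_ifs <;> norm_num
      nlinarith
    · have e4 : l4 a = 0 := by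
        rw [hl4]
        simp only [Par.l4, lam4]
        rw [if_neg h]
      have h' : p.M < (cnt (Bc p.s a) univ x : ℝ) := by
        rw [hcu]
        push_cast
        push Not at h
        linarith
      rw [e4, if_pos h', sub_zero, one_mul]
  have hS2 : (∑ a ∈ p.win, θQ a * ((l3 a - l4 a) * UT a)) ^ 2
      ≤ ∑ a ∈ p.win, I a * ((if p.M < cnt (Bc p.s a) univ x then 1 else 0) *
        (l3 a ^ 2 * UT a ^ 2)) := by
    refine (DptAux.jensen p.win θQ (fun a => (l3 a - l4 a) * UT a) (fun a _ => hθQ0 a)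
      hθQsum).trans ?_
    refine Finset.sum_le_sum fun a _ => ?_
    rcases hI01 a with h | ⟨h, _⟩
    · have h1 : θQ a = 0 := le_antisymm (by rw [← h]; exact hθQI a) (hθQ0 a)
      rw [h, h1, zero_mul, zero_mul]
    · have h1 := hl34 a h
      have h2 : θQ a ≤ 1 := by rw [← h]; exact hθQI a
      rw [h, one_mul, mul_pow]
      calc θQ a * ((l3 a - l4 a) ^ 2 * UT a ^ 2) ≤ 1 * ((l3 a - l4 a) ^ 2 * UT a ^ 2) :=
            mul_le_mul_of_nonneg_right h2 (by positivity)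
        _ = (l3 a - l4 a) ^ 2 * UT a ^ 2 := one_mul _
        _ ≤ ((if p.M < cnt (Bc p.s a) univ x then 1 else 0) * l3 a ^ 2) * UT a ^ 2 :=
            mul_le_mul_of_nonneg_right h1 (sq_nonneg _)
        _ = _ := by ring
  -- the third sum
  have hS3 : (∑ a ∈ p.win, θQ a * (l4 a * Uq a)) ^ 2 ≤ ∑ a ∈ p.win, I a * (l4 a * Uq a ^ 2) := by
    refine (DptAux.jensen p.win θQ (fun a => l4 a * Uq a) (fun a _ => hθQ0 a)
      hθQsum).trans ?_
    refine Finset.sum_le_sum fun a _ => ?_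
    have h1 : l4 a ^ 2 = l4 a ∧ 0 ≤ l4 a := by
      rw [hl4]
      simp only [Par.l4, lam4]
      split_ifs <;> norm_num
    rw [mul_pow, h1.1]
    exact mul_le_mul_of_nonneg_right (hθQI a) (mul_nonneg h1.2 (sq_nonneg _))
  rw [hdec]
  set A1 := ∑ a ∈ p.win, (θT a - θQ a) * (l3 a * UT a) with hA1
  set A2 := ∑ a ∈ p.win, θQ a * ((l3 a - l4 a) * UT a) with hA2
  set A3 := ∑ a ∈ p.win, θQ a * (l4 a * Uq a) with hA3
  set B1 := ∑ a ∈ p.win, I a * ((r4 / p.s) ^ 2 * (l3 a ^ 2 * UT a ^ 2)) with hB1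
  set B2 := ∑ a ∈ p.win, I a * ((if p.M < cnt (Bc p.s a) univ x then 1 else 0) *
    (l3 a ^ 2 * UT a ^ 2)) with hB2
  set B3 := ∑ a ∈ p.win, I a * (l4 a * Uq a ^ 2) with hB3
  have hgoal : ∑ a ∈ p.win, (∏ j ∈ Q, ind (Qc p.s a) (x j)) *
      ((r4 / p.s) ^ 2 * (p.l3 a T x ^ 2 * p.U a T Ψ x ^ 2)
      + (if p.M < cnt (Bc p.s a) univ x then 1 else 0) *
        (p.l3 a T x ^ 2 * p.U a T Ψ x ^ 2)
      + p.l4 a Q x * p.U a T (p.q a l Ψ) x ^ 2) = B1 + B2 + B3 := by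
    rw [hB1, hB2, hB3, ← Finset.sum_add_distrib, ← Finset.sum_add_distrib]
    refine Finset.sum_congr rfl fun a _ => ?_
    rw [mul_add, mul_add]
  rw [hgoal]
  have hB1' : 0 ≤ B1 := Finset.sum_nonneg fun a _ => mul_nonneg (hI0 a) (by positivity)
  have hB2' : 0 ≤ B2 := (sq_nonneg A2).trans hS2
  have hB3' : 0 ≤ B3 := (sq_nonneg A3).trans hS3
  have h3 : (A1 + A2 + A3) ^ 2 ≤ 3 * (A1 ^ 2 + A2 ^ 2 + A3 ^ 2) := by
    nlinarith [sq_nonneg (A1 - A2), sq_nonneg (A1 - A3), sq_nonneg (A2 - A3)]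
  have hc : 0 ≤ 27 * (16 * C) ^ 2 := by positivity
  refine h3.trans ?_
  nlinarith [mul_nonneg hc hB2', mul_nonneg hc hB3']

end Pool.Agent.Lib.MP_5db8e2_mp
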