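import Pool.Agent.Lib.MP_5db8e2_mp.LB.Spec6

/-!
# Lower bound, part 7: bounds of the mixed terms
-/

set_option autoImplicit false

open MeasureTheory Function Finset
open scoped Classical

namespace Pool.Agent.Lib.MP_5db8e2_mp

/-- The ratio `M / s³` (the maximal density). -/
noncomputable def Par.mu (p : Par) : ℝ := p.M / p.s ^ 3

/-- **TTb.** Pairs of triples with one common particle.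

PROOF. `|dt (fT T) (fT T')| ≤ 3 C² ∑_{i ∈ T∩T'} ∏kap(5/2,r)∏kap(5/2,r)` (`KerBd`; only `i ∈ T ∩ T'` has
both fields nonzero), `|v_Tv_{T'}| ≤ ½(v_T²+v_{T'}²)`; by symmetry (the sum over the pairs is symmetric)
it is enough to treat `v_T²`. `v_T² ≤ ∑_aθ_a(cm_T)(λU_T)²` (`Jensen`), `θ_a ≤ ind (Qin a)`,
`λ = lam3(cnt B_a Tᶜ) ≤ lam3(cnt Q_a (T∪T')ᶜ)`. `PairGlob` with `va = vb = 3`, `t = 1`,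
`σ = σ' = 5/2`, `rA = rB = r`, `Lam = lam3²`, `c1 = c2 = (2M)⁴` (`Counts`). -/
def S_TTb : Prop :=
  ∀ K R : ℝ, ∃ C : ℝ, 0 < C ∧
    ∀ (V : R3 → R3 → ℝ) (b r r4 W QQ : ℝ) (c : Cor) (_ : c.OK V b K R r r4 W QQ) (p : Par)
    (_ : p.OK) (_ : p.Large r4) (Ψ : (Fin p.N → R3) → ℝ) (_ : BM Ψ),
    |p.TT c Ψ| ≤ C * (r ^ 2 * p.mu ^ 4 * p.Nn Ψ + r * p.mu ^ 3 * p.M * p.D Ψ)

/-- **TQb.** Pairs triple, quadruple with one or two common particles.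

PROOF. As `TTb` with `2|v_Tv_Q| ≤ θ v_T² 1(v_Q ≠ 0) + θ⁻¹ v_Q²` if `|T∩Q| = 1` and `θ = 1` if
`|T∩Q| = 2`. First part: `A = T`, `A' = Q`, `σ = 5/2`, `rA = r`, `σ' = 8/3`, `rB = r4`; if `v_Q(x) ≠ 0`
there is a window `a'` with `cm_Q ∈ Qin a'`, `cnt B_{a'} Qᶜ + 1 ≤ M`, all particles of `Q` and `T` are
in `Qc a'` (`Supp2`), so `Qc a ⊆ Bc a'` (`Overlap`, if `θ_a(cm_T) ≠ 0`) and
`cnt Q_a (T∪Q)ᶜ + 1 ≤ M`: the weight `Lam = lam4` is `1`. Second part: `A = Q`, `A' = T`,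
`λ4(cnt B_a Qᶜ)² ≤ lam4(cnt Q_a (T∪Q)ᶜ)`. `PairGlob` with `Lam = lam4 M`,
`c1 = c2 = (2M)^{6-t}`, `t = 1, 2` (`Counts`). Then `r^{1/2}`-powers: `(r^{1/2})² (r4^{1/3})³ = r r4`;
`r^{1/2} r4^{2/3} ≤ r4 √r4`, `r^{1/2} ≤ r`, `r^{1/2}r4^{2/3} ≤ r4²`, `M ≥ 1`. -/
def S_TQb : Prop :=
  ∀ K R : ℝ, ∃ C : ℝ, 0 < C ∧
    ∀ (V : R3 → R3 → ℝ) (b r r4 W QQ : ℝ) (c : Cor) (_ : c.OK V b K R r r4 W QQ) (p : Par)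
    (_ : p.OK) (_ : p.Large r4) (Ψ : (Fin p.N → R3) → ℝ) (_ : BM Ψ) (θ : ℝ) (_ : 0 < θ),
    |p.TQ c Ψ| ≤ C * (((θ + θ⁻¹) * r * r4 * p.mu ^ 5 + r4 * √r4 * p.mu ^ 4) * p.Nn Ψ
      + (θ * r * p.mu ^ 3 * p.M ^ 2 + θ⁻¹ * r4 * p.mu ^ 4 * p.M + r * p.mu ^ 3 * p.M
        + r4 ^ 2 * p.mu ^ 4) * p.D Ψ)

/-- **QPb.** Pairs of quadruples.

PROOF. As `TTb`, `va = vb = 4`, `t = 1, 2, 3`, `σ = σ' = 8/3`, `rA = rB = r4`, `Lam = lam4`,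
`c1 = c2 = (2M)^{7-t}`. For `VS`: the pairs `(insert i T, insert i' T)` are the ordered pairs `(Q,Q')` with
`|Q∩Q'| = 3`, `T = Q ∩ Q'`; the kernel is bounded by `K C² ∏kap∏kap` with any `i ∈ T` as the centre
(`KerBd`; `0 ≤ V ≤ K`). Powers of `r4 ≥ 1` are estimated by larger integer powers. -/
def S_QPb : Prop :=
  ∀ K R : ℝ, ∃ C : ℝ, 0 < C ∧
    ∀ (V : R3 → R3 → ℝ) (b r r4 W QQ : ℝ) (c : Cor) (_ : c.OK V b K R r r4 W QQ) (p : Par)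
    (_ : p.OK) (_ : p.Large r4) (Ψ : (Fin p.N → R3) → ℝ) (_ : BM Ψ),
    |p.QP c Ψ| + |p.VS V c Ψ| ≤
      C * ((r4 ^ 2 * p.mu ^ 6 + r4 ^ 2 * p.mu ^ 5 + r4 * p.mu ^ 4) * p.Nn Ψ
        + r4 * p.mu ^ 4 * p.M ^ 2 * p.D Ψ)

/-- **GQb.** The `L²` norm of the four-body field.

PROOF. Expand the square: `∑_{i,a}∫(∑_Q fQ v_Q)² = ∑_Q∫|fQ|²v_Q² + QP`; the pairs with `Q ∩ Q' = ∅`
vanish. Diagonal: `|fQ|² ≤ 12 C² ∏_{j≠i} kap(8/3,r4)²` (some `i ∈ Q`, e.g. sum over all `i`),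
`kap(8/3)² ≤ (1+‖t‖)^{-16/3}` integrable, `DiagGlob` with `k = 4`, `Lam = lam4`, `c1 = (2M)³`. -/
def S_GQb : Prop :=
  ∀ K R : ℝ, ∃ C : ℝ, 0 < C ∧
    ∀ (V : R3 → R3 → ℝ) (b r r4 W QQ : ℝ) (c : Cor) (_ : c.OK V b K R r r4 W QQ) (p : Par)
    (_ : p.OK) (_ : p.Large r4) (Ψ : (Fin p.N → R3) → ℝ) (_ : BM Ψ),
    ∫ x, ∑ i, ∑ a, (∑ Q ∈ P4 p.N, gQ c.g Q i a x * p.v4 Ψ Q x) ^ 2 ∂pin p.nu p.N ≤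
      C * ((p.mu ^ 3 + r4 ^ 2 * p.mu ^ 6 + r4 ^ 2 * p.mu ^ 5 + r4 * p.mu ^ 4) * p.Nn Ψ
        + r4 * p.mu ^ 4 * p.M ^ 2 * p.D Ψ)

/-- **PPb.** The `L²` norm of `∑_{T∋i} φ_T v_T` for functions `v_T` dominated as `v3` is.

PROOF. Expand the square: pairs `(T,T')` with `i ∈ T∩T'`. Diagonal: `3∑_T∫φ_T²v_T²`,
`φ_T² ≤ C² ∏ kap(2,r)²`, `kap(2)² ≤ (1+‖t‖)^{-4}` integrable: `DiagGlob`, `k = 3`, `Lam = lam3²`,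
`c1 = (2M)²`: `C μ² Nn`. `|T∩T'| = 1, 2`: `PairGlob` with `σ = σ' = 2`, `rA = rB = r`, `Lam = lam3²`,
`c1 = c2 = (2M)^{5-t}`: `t = 1`: `r⁴μ⁴Nn + r²μ³M D`; `t = 2`: `r²μ³Nn + r²μ³D`. -/
def S_PPb : Prop :=
  ∀ K R : ℝ, ∃ C : ℝ, 0 < C ∧
    ∀ (V : R3 → R3 → ℝ) (b r r4 W QQ : ℝ) (c : Cor) (_ : c.OK V b K R r r4 W QQ) (p : Par)
    (_ : p.OK) (_ : p.Large r4) (Ψ : (Fin p.N → R3) → ℝ) (_ : BM Ψ)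
    (v : Finset (Fin p.N) → (Fin p.N → R3) → ℝ) (_ : ∀ T, BM (v T))
    (_ : ∀ T ∈ P3 p.N, ∀ x, v T x ^ 2 ≤ ∑ a ∈ p.win, ind (p.Qin a) (Par.cmA T x) *
      (p.l3 a T x * p.U a T Ψ x) ^ 2),
    ∑ i, ∫ x, (∑ T ∈ (P3 p.N).filter (fun T => i ∈ T), c.φ (pick 3 T x) * v T x) ^ 2 ∂pin p.nu p.N
      ≤ C * ((p.mu ^ 2 + r ^ 2 * p.mu ^ 3 + r ^ 4 * p.mu ^ 4) * p.Nn Ψ
        + r ^ 2 * p.mu ^ 3 * p.M * p.D Ψ)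

/-! ## The form inside the quadruples -/

/-- The star kernel. -/
noncomputable def kst (r4 : ℝ) (t : R3) : ℝ :=
  if ‖t‖ ≤ 4 * r4 then (1 + ‖t‖) ^ (-(31 / 10) : ℝ) else 0

noncomputable def KQ {N : ℕ} (r4 : ℝ) (Q : Finset (Fin N)) (x : Fin N → R3) : ℝ :=
  ∑ i ∈ Q, ∏ j ∈ Q.erase i, kst r4 (x i - x j)

/-- The integrand of `QQ`. -/
noncomputable def k4 (V : R3 → R3 → ℝ) (c : Cor) (x : Fin 4 → R3) : ℝ :=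
  ∑ l, ∑ l' ∈ Finset.univ.erase l, gg (ph c.φ l) (ph c.φ l') x +
    2 * ∑ l, ∑ m, ∑ a, pd (ph c.φ l) m a x * c.g m a x + ∑ m, ∑ a, c.g m a x ^ 2 +
    ∑ l, V4 V l x * (c.s l x ^ 2 - 2 * (1 - ph c.φ l x) * c.s l x)

/-- **KerQ.** The star kernel: integrals.

PROOF. `∫ (1+‖t‖)^{-31/10} dt ≤ 24∫_0^∞(1+u)^{-11/10}du = 240` (as in `Kap`), also for
`∂ν ≤ volume` and for `t ↦ u - t`. Integrate over the variables in `Q \ l` with `x_l` fixed: for the star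
with the centre `i = l` every `j ≠ l` gives `≤ 240`; for `i ≠ l` integrate first the two leaves `j ≠ i, l`,
then `x_i` with `kst(x_i - x_l)` (even). (As in `KerInt`.) -/
def S_KerQ : Prop :=
  ∃ C : ℝ, 1 ≤ C ∧ ∀ (ν : Measure R3) [IsFiniteMeasure ν] (_ : ν ≤ volume) (r4 : ℝ) (_ : 1 ≤ r4)
    {N : ℕ} (Q : Finset (Fin N)) (_ : Q.card = 4),
    BM (kst r4) ∧ (∀ t, 0 ≤ kst r4 t ∧ kst r4 t ≤ 1) ∧ (∀ u, ∫ t, kst r4 (u - t) ∂ν ≤ C) ∧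
    BM (KQ r4 Q) ∧ (∀ x, 0 ≤ KQ r4 Q x) ∧
    (∀ x, KQ r4 Q x ≠ 0 → ∀ i ∈ Q, ∀ j ∈ Q, ‖x i - x j‖ ≤ 8 * r4) ∧
    (∀ l ∈ Q, ∀ x, Mg ν (Q.erase l) (KQ r4 Q) x ≤ C)

/-- **Q4pt.** The pointwise estimate of the form inside the quadruple.

PROOF. Write `v3(Q\l) = v_Q + d_l`. The terms with `v_Q²` are `k4(pick 4 Q x) v_Q²` (with
`y = pick 4 Q x`: `dt(fT(Q\l))(fT(Q\l')) = gg(ph l)(ph l') y`, because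
`pick 3 (Q.erase i) x = sub4 m y` for `i = orderEmbOfFin m`, and `pd (ph φ m) ..` is the derivative of
`φ ∘ sub4 m`; `dt(fT(Q\l))(fQ) = ∑∑ pd(ph l) g`, `VT V (Q\l) = V4 V m y`). The other terms:
`G_{ll'}(v_Q d_l + v_Q d_{l'} + d_ld_{l'}) + 2G_{lQ}v_Qd_l - 2V_l(1-φ_l)s_lv_Qd_l`; all the coefficients
are bounded by `C KQ`: `|G_{ll'}| ≤ C(1+rad T)^{-5}(1+rad T')^{-5}`, `T∩T' = {m,m'}`, centre `m`: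
`(1+rad T)^{-5} ≤ C(1+|y_{l'}-y_m|)^{-3.1}(1+|y_m-y_{m'}|)^{-1.9}` and the same for `T'`;
`|G_{lQ}| ≤ C(1+rad T)^{-5}(1+rad Q)^{-8}`, centre `m ∈ T`: split `8 = 3.1 + 2.45 + 2.45`,
`5 = 2.5+2.5`; the last one is `≤ C 1(rad Q ≤ R)`. The cut-offs `4 r4` of `kst` are not active
(`rad T ≤ r ≤ r4`). Finally `|v_Qd_l| ≤ τv_Q² + τ⁻¹d_l²`, `|d_ld_{l'}| ≤ d_l²+d_{l'}²`. The same
estimates give `|k4| ≤ C KQ` (as functions of `x = ` the cluster, `N = 4`, `Q = univ`). -/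
def S_Q4pt : Prop :=
  ∀ K R : ℝ, ∃ C : ℝ, 1 ≤ C ∧
    ∀ (V : R3 → R3 → ℝ) (b r r4 W QQ : ℝ) (c : Cor) (_ : c.OK V b K R r r4 W QQ),
    (∀ y : Fin 4 → R3, |k4 V c y| ≤ C * KQ r4 univ y) ∧
    ∀ (p : Par) (Ψ : (Fin p.N → R3) → ℝ) (τ : ℝ) (_ : 0 < τ), ∀ Q ∈ P4 p.N, ∀ x,
    p.q4 V c Ψ Q x ≤ k4 V c (pick 4 Q x) * p.v4 Ψ Q x ^ 2 +
      C * (KQ r4 Q x * (τ * p.v4 Ψ Q x ^ 2 +
        (1 + τ⁻¹) * ∑ l ∈ Q, (p.v3 Ψ (Q.erase l) x - p.v4 Ψ Q x) ^ 2))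

/-- **QQint.** The main term of the quadruples.

PROOF. `v4 Ψ Q x = vt4 Ψ Q (cmA Q x) x`, and `vt4 Ψ Q c` does not depend on `x_Q`. For fixed `x`:
`Mg ν Q (k4(pick) v4²) x = ∫ k4(y) vt4(cm y, x)² dy` (`ClInt`, `Put`; if the integrand is not zero then
`cm y ∈ Qin a` for some `a ∈ win` and all `‖y_i-y_j‖ ≤ 8 r4` (`Q4pt`, `KerQ`), so `y_m ∈ Qc ⊆ Om`:
`Supp2`, `WdWin`) `= (∫ vt4(c,x)² dc) rint k4` (`integral_weight`) `= QQ ∫_{Om} vt4(c,x)² dc`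
(`Data4.QQ_eq`; `vt4(c,·) = 0` for `c ∉ Om`). `|QQ| ≤ rint |k4| ≤ C rint KQ ≤ C'`: `rint` of every star
equals the one with the centre at the origin (`rint_perm`), a product of three integrals. The same for
`|W| ≤ (K/r4⁹)(4r4)⁹` (`KerW4` or directly). -/
def S_QQint : Prop :=
  ∀ K R : ℝ, ∃ C : ℝ, 0 < C ∧
    ∀ (V : R3 → R3 → ℝ) (b r r4 W QQ : ℝ) (c : Cor) (_ : c.OK V b K R r r4 W QQ),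
    |QQ| ≤ C ∧ |W| ≤ C ∧
    ∀ (p : Par) (_ : p.OK) (_ : p.Large r4) (Ψ : (Fin p.N → R3) → ℝ) (_ : BM Ψ),
    ∑ Q ∈ P4 p.N, ∫ x, k4 V c (pick 4 Q x) * p.v4 Ψ Q x ^ 2 ∂pin p.nu p.N = QQ * p.VV Ψ

/-- **Dpt.** The difference `v_{Q\l} - v_Q`.

PROOF. With `T = Q \ l`: `v3(T) - v4(Q) = ∑_a(θ_a(cm_T)-θ_a(cm_Q)) λ3U_T + ∑_aθ_a(cm_Q)(λ3-λ4)U_T
+ ∑_aθ_a(cm_Q)λ4(U_T - U_Q)` and `U_T - U_Q = P_T(Ψ - P_lΨ) = P_T q_lΨ` (`av_union`, `av_sub`).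
Cauchy-Schwarz; at most `54` windows contribute to the first sum (`Overlap`), and
`|θ_a(cm_T)-θ_a(cm_Q)| ≤ (C/s)·16 r4` (`WinFacts`; all distances in `Q` are `≤ 8 r4`: `KerQ`). For all
contributing windows `cm_T ∈ Qin a` or `cm_Q ∈ Qin a`, so all `x_j ∈ Qc a` (`Supp2`). `λ3 ≠ λ4` implies
`cnt B_a Qᶜ + 1 > M` (otherwise `cnt B_a Tᶜ ≤ cnt B_a Qᶜ + 1 ≤ M`: both are `1`), hence `λ4 = 0` and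
`cnt B_a univ = cnt B_a Qᶜ + 4 > M`. -/
def S_Dpt : Prop :=
  ∃ C : ℝ, 0 < C ∧ ∀ (p : Par) (_ : p.OK) (r4 : ℝ) (_ : 1 ≤ r4) (_ : p.Large r4)
    (Ψ : (Fin p.N → R3) → ℝ) (_ : BM Ψ), ∀ Q ∈ P4 p.N, ∀ l ∈ Q, ∀ x, KQ r4 Q x ≠ 0 →
    (p.v3 Ψ (Q.erase l) x - p.v4 Ψ Q x) ^ 2 ≤ C * ∑ a ∈ p.win, (∏ j ∈ Q, ind (Qc p.s a) (x j)) *
      ((r4 / p.s) ^ 2 * (p.l3 a (Q.erase l) x ^ 2 * p.U a (Q.erase l) Ψ x ^ 2)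
      + (if p.M < cnt (Bc p.s a) univ x then 1 else 0) *
        (p.l3 a (Q.erase l) x ^ 2 * p.U a (Q.erase l) Ψ x ^ 2)
      + p.l4 a Q x * p.U a (Q.erase l) (p.q a l Ψ) x ^ 2)

/-- **E123.** The integrals of the three parts of `Dpt`.

PROOF. Fix `a`, `Q`, `l`, `T = Q\l`. The averaged functions `U_T`, `P_Tq_lΨ` do not depend on `x_T`;
replace the weight by a function which does not depend on `x_T` either (for `x_T ∈ (Qc)³`: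
`cnt B_a univ x = cnt B_a Tᶜ x + 3`; `l3 = lam3(cnt B_a Tᶜ)`, `l4 = lam4(cnt B_a Qᶜ)`), integrate `KQ` over
`x_T` (`≤ C`, `KerQ`) and use `out_av_sq_le` (`m^{-3}`, `m = s³`). It remains, with `n = cnt Q_a univ x`,
`n_B = cnt B_a univ x ≥ n`: (1) `m^{-3}∑_{Q,l}∫lam3(cnt B_a Tᶜ)²∏_Q1 Ψ² ≤ m^{-3}∫ n⁴ lam3(n-3)²Ψ² ≤
8 μ³ Nw` (`Counts`; zero for `n < 4`); (2) the same with `1(M < n_B)`: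
`n⁴lam3(n_B-3)² ≤ n_B⁴ lam3(n_B-3)² ≤ 8M³n_B`; (3) `m^{-3}∑_l∑_{T∌l}∫λ4∏1(q_lΨ)²`, and for fixed `l`,
`x_l ∈ Q_a`, `n = cnt Q_a {l}ᶜ x`: `C(n,3) lam4(n-3) ≤ 8M³`. -/
def S_E123 : Prop :=
  ∃ C : ℝ, 0 < C ∧ ∀ (p : Par) (_ : p.OK) (r4 : ℝ) (_ : 1 ≤ r4) (Ψ : (Fin p.N → R3) → ℝ)
    (_ : BM Ψ), ∀ a ∈ p.win,
    (∑ Q ∈ P4 p.N, ∑ l ∈ Q, ∫ x, KQ r4 Q x * ((∏ j ∈ Q, ind (Qc p.s a) (x j)) *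
      (p.l3 a (Q.erase l) x ^ 2 * p.U a (Q.erase l) Ψ x ^ 2)) ∂pin p.nu p.N
      ≤ C * p.mu ^ 3 * Nw p.nu (Qc p.s a) Ψ) ∧
    (∑ Q ∈ P4 p.N, ∑ l ∈ Q, ∫ x, KQ r4 Q x * ((∏ j ∈ Q, ind (Qc p.s a) (x j)) *
      ((if p.M < cnt (Bc p.s a) univ x then 1 else 0) *
      (p.l3 a (Q.erase l) x ^ 2 * p.U a (Q.erase l) Ψ x ^ 2))) ∂pin p.nu p.N
      ≤ C * p.mu ^ 3 * ∫ x, (if p.M < cnt (Bc p.s a) univ x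
        then (cnt (Bc p.s a) univ x : ℝ) else 0) * Ψ x ^ 2 ∂pin p.nu p.N) ∧
    (∑ Q ∈ P4 p.N, ∑ l ∈ Q, ∫ x, KQ r4 Q x * ((∏ j ∈ Q, ind (Qc p.s a) (x j)) *
      (p.l4 a Q x * p.U a (Q.erase l) (p.q a l Ψ) x ^ 2)) ∂pin p.nu p.N
      ≤ C * p.mu ^ 3 * Dw p.nu (p.gd a) (Qc p.s a) Ψ)

/-- **Q4b.** The form inside the quadruples: final estimate.

PROOF. `Q4pt`, `QQint`, `Dpt` + `E123` summed over `a`; and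
`∑_Q∫KQ v4² ≤ C μ³ Nn` by `Jensen`, `DiagGlob` (`k = 4`, `κ = kst r4`, `Lam = lam4`, `c1 = (2M)³`;
`λ4² = λ4`, `lam4(cnt B_a Qᶜ) ≤ lam4(cnt Q_a Qᶜ)`). -/
def S_Q4b : Prop :=
  ∀ K R : ℝ, ∃ C : ℝ, 0 < C ∧
    ∀ (V : R3 → R3 → ℝ) (b r r4 W QQ : ℝ) (c : Cor) (_ : c.OK V b K R r r4 W QQ) (p : Par)
    (_ : p.OK) (_ : p.Large r4) (Ψ : (Fin p.N → R3) → ℝ) (_ : BM Ψ) (τ : ℝ) (_ : 0 < τ)
    (_ : τ ≤ 1),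
    p.Q4 V c Ψ ≤ QQ * p.VV Ψ + C * (p.mu ^ 3 * (τ * p.Nn Ψ + τ⁻¹ * (p.D Ψ
      + (r4 / p.s) ^ 2 * p.Nn Ψ + p.ND Ψ)))

end Pool.Agent.Lib.MP_5db8e2_mp
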