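import Pool.Agent.Lib.MP_5db8e2_mp.LB.Spec1
import Pool.Agent.Lib.MP_5db8e2_mp.LB.Spec7

/-!
# Lower bound, part 7: the integrals of the three parts of the difference estimate
-/

set_option autoImplicit false

open MeasureTheory Function Finset
open scoped Classical

namespace Pool.Agent.Lib.MP_5db8e2_mp

namespace E123aux

variable {N : ℕ}

theorem cnt_all {Z : Set R3} {A : Finset (Fin N)} {x : Fin N → R3} (h : ∀ j ∈ A, x j ∈ Z) :
    cnt Z A x = A.card := by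
  unfold cnt
  rw [Finset.filter_true_of_mem h]

theorem cnt_split {Z : Set R3} {S A : Finset (Fin N)} (hA : A ⊆ S) (x : Fin N → R3) :
    cnt Z S x = cnt Z (S \ A) x + cnt Z A x := by
  have h : (cnt Z S x : ℝ) = cnt Z (S \ A) x + cnt Z A x := by
    rw [cnt_eq_sum, cnt_eq_sum, cnt_eq_sum]
    exact (Finset.sum_sdiff hA).symm
  exact_mod_cast h

theorem cnt_mono {Z Z' : Set R3} (h : Z ⊆ Z') (A : Finset (Fin N)) (x : Fin N → R3) :
    cnt Z A x ≤ cnt Z' A x := by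
  unfold cnt
  exact Finset.card_le_card (Finset.monotone_filter_right A fun j _ hj => h hj)

theorem mem_of_prod_ne {Z : Set R3} {A : Finset (Fin N)} {x : Fin N → R3}
    (h : ∏ j ∈ A, ind Z (x j) ≠ 0) : ∀ j ∈ A, x j ∈ Z := by
  intro j hj
  by_contra hcon
  exact h (Finset.prod_eq_zero hj (ind_of_notMem hcon))

theorem prod_ind_nonneg (Z : Set R3) (A : Finset (Fin N)) (x : Fin N → R3) :
    0 ≤ ∏ j ∈ A, ind Z (x j) := Finset.prod_nonneg fun _ _ => ind_nonneg _ _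

theorem prod_ind_le_one (Z : Set R3) (A : Finset (Fin N)) (x : Fin N → R3) :
    ∏ j ∈ A, ind Z (x j) ≤ 1 :=
  Finset.prod_le_one (fun _ _ => ind_nonneg _ _) fun _ _ => ind_le_one _ _

/-- integrate the kernel over the triple and replace the average by the function -/
theorem core {ν : Measure R3} [IsFiniteMeasure ν] {m : ℝ} {g : R3 → ℝ} {Qs Bs : Set R3}
    (h : Wd ν m g Qs Bs) {K : (Fin N → R3) → ℝ} (hK : BM K) (hK0 : ∀ x, 0 ≤ K x) {C : ℝ}
    (hC : 0 ≤ C) {Q : Finset (Fin N)} {l : Fin N} (hl : l ∈ Q) (hQ : Q.card = 4)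
    (hKC : ∀ x, Mg ν (Q.erase l) K x ≤ C) {F w : (Fin N → R3) → ℝ} (hF : BM F) (hw : BM w)
    (hw0 : ∀ x, 0 ≤ w x) (hwd : DependsOn w (((Q.erase l : Finset (Fin N)) : Set (Fin N))ᶜ)) :
    ∫ x, K x * ((∏ j ∈ Q, ind Qs (x j)) * (w x * av ν g (Q.erase l) F x ^ 2)) ∂pin ν N ≤
      C * ((1 / m) ^ 3 * ∫ x, (∏ j ∈ Q, ind Qs (x j)) * (w x * F x ^ 2) ∂pin ν N) := by
  have hlT : l ∉ Q.erase l := Finset.notMem_erase l Q
  have hcard : (Q.erase l).card = 3 := by rw [Finset.card_erase_of_mem hl, hQ]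
  have hprod : ∀ x : Fin N → R3,
      ∏ j ∈ Q, ind Qs (x j) = ind Qs (x l) * ∏ j ∈ Q.erase l, ind Qs (x j) := fun x =>
    (Finset.mul_prod_erase Q (fun j => ind Qs (x j)) hl).symm
  generalize Q.erase l = T at *
  have hU : BM (av ν g T F) := av_bm h hF
  have hil : BM (fun x : Fin N → R3 => ind Qs (x l)) := BM_ind_at h.Q_meas l
  have hPQ : BM (fun x : Fin N → R3 => ∏ j ∈ Q, ind Qs (x j)) := BM_prod_ind h.Q_meas Q
  have hw' : BM (fun x => ind Qs (x l) * w x) := hil.mul hw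
  have hw'0 : ∀ x, 0 ≤ ind Qs (x l) * w x := fun x => mul_nonneg (ind_nonneg _ _) (hw0 x)
  have hw'd : DependsOn (fun x : Fin N → R3 => ind Qs (x l) * w x) ((T : Set (Fin N))ᶜ) := by
    intro x y hxy
    have e1 := hwd hxy
    have e2 := hxy l (by simpa using hlT)
    simp only
    rw [e1, e2]
  have hWd : DependsOn (fun x : Fin N → R3 => (ind Qs (x l) * w x) * av ν g T F x ^ 2)
      ((T : Set (Fin N))ᶜ) := by
    intro x y hxy
    have e1 := hw'd hxy
    have e2 := av_dep (ν := ν) (g := g) F hxy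
    simp only at e1 e2 ⊢
    rw [e1, e2]
  have hW : BM (fun x : Fin N → R3 => (ind Qs (x l) * w x) * av ν g T F x ^ 2) :=
    hw'.mul (hU.pow 2)
  have s1 : ∫ x, K x * ((∏ j ∈ Q, ind Qs (x j)) * (w x * av ν g T F x ^ 2)) ∂pin ν N ≤
      ∫ x, ((ind Qs (x l) * w x) * av ν g T F x ^ 2) * K x ∂pin ν N := by
    apply integral_mono ((hK.mul (hPQ.mul (hw.mul (hU.pow 2)))).integrable _)
      ((hW.mul hK).integrable _)
    intro x
    have e1 : ∏ j ∈ T, ind Qs (x j) ≤ 1 := prod_ind_le_one _ _ _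
    have e2 : 0 ≤ ((ind Qs (x l) * w x) * av ν g T F x ^ 2) * K x :=
      mul_nonneg (mul_nonneg (hw'0 x) (sq_nonneg _)) (hK0 x)
    simp only
    rw [hprod x]
    have e3 : K x * ((ind Qs (x l) * ∏ j ∈ T, ind Qs (x j)) * (w x * av ν g T F x ^ 2)) =
        (((ind Qs (x l) * w x) * av ν g T F x ^ 2) * K x) * ∏ j ∈ T, ind Qs (x j) := by ring
    rw [e3]
    exact mul_le_of_le_one_right e2 e1
  have s2 : ∫ x, ((ind Qs (x l) * w x) * av ν g T F x ^ 2) * K x ∂pin ν N =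
      out ν 0 T (fun x => ((ind Qs (x l) * w x) * av ν g T F x ^ 2) * Mg ν T K x) := by
    rw [integral_eq_out (hW.mul hK) 0 T, Mg_mul_left K hWd]
  have s3 : out ν 0 T (fun x => ((ind Qs (x l) * w x) * av ν g T F x ^ 2) * Mg ν T K x) ≤
      out ν 0 T (fun x => C * ((ind Qs (x l) * w x) * av ν g T F x ^ 2)) := by
    apply out_mono (hW.mul (Mg_bm hK)) (hW.const_mul C)
    intro x
    rw [mul_comm C]
    exact mul_le_mul_of_nonneg_left (hKC x) (mul_nonneg (hw'0 x) (sq_nonneg _))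
  have s4 : out ν 0 T (fun x => C * ((ind Qs (x l) * w x) * av ν g T F x ^ 2)) =
      C * out ν 0 T (fun x => (ind Qs (x l) * w x) * av ν g T F x ^ 2) := by
    unfold out
    rw [Mg_const_mul]
  have s5 := out_av_sq_le (A := T) h hF hw' hw'0 hw'd 0
  rw [hcard] at s5
  have s6 : ∫ x, ind Qs (x l) * w x * ((∏ j ∈ T, ind Qs (x j)) * F x ^ 2) ∂pin ν N =
      ∫ x, (∏ j ∈ Q, ind Qs (x j)) * (w x * F x ^ 2) ∂pin ν N := by
    congr 1
    ext1 x
    rw [hprod x]
    ring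
  rw [s6] at s5
  calc _ ≤ _ := s1
    _ = _ := s2
    _ ≤ _ := s3
    _ = _ := s4
    _ ≤ _ := mul_le_mul_of_nonneg_left s5 hC

/-- counting: quadruples -/
theorem choose4 {M : ℝ} (hM : 8 ≤ M) (hCt : S_Counts) (n : ℕ) :
    4 * (n.choose 4 : ℝ) * lam3 M (n - 3) ^ 2 ≤ (2 * M) ^ 3 * n := by
  have hM0 : 0 < M := by linarith
  rcases lt_or_ge n 4 with h | h
  · rw [Nat.choose_eq_zero_of_lt h]
    simp only [Nat.cast_zero, mul_zero, zero_mul]
    positivity
  · obtain ⟨k, rfl⟩ : ∃ k, n = k + 3 := ⟨n - 3, by omega⟩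
    have h1 : (((k + 3 : ℕ)).choose 4 : ℝ) ≤ ((k + 3 : ℕ) : ℝ) ^ 4 / (Nat.factorial 4 : ℕ) :=
      Nat.choose_le_pow_div 4 (k + 3)
    have h2 : (Nat.factorial 4 : ℝ) = 24 := by norm_num [Nat.factorial]
    rw [h2] at h1
    have h3 := (hCt M hM).2.2.2.2.2.1 k 3 (by norm_num)
    have h4 : 0 ≤ lam3 M k ^ 2 := sq_nonneg _
    have h5 : (0 : ℝ) ≤ ((k + 3 : ℕ) : ℝ) := Nat.cast_nonneg _
    have h6 : k + 3 - 3 = k := by omega
    rw [h6]
    calc 4 * (((k + 3 : ℕ)).choose 4 : ℝ) * lam3 M k ^ 2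
        ≤ ((k + 3 : ℕ) : ℝ) ^ 4 * lam3 M k ^ 2 := by
          apply mul_le_mul_of_nonneg_right _ h4
          have : (0 : ℝ) ≤ ((k + 3 : ℕ) : ℝ) ^ 4 := by positivity
          linarith
      _ = (((k + 3 : ℕ) : ℝ) ^ 3 * lam3 M k ^ 2) * ((k + 3 : ℕ) : ℝ) := by ring
      _ ≤ (2 * M) ^ 3 * ((k + 3 : ℕ) : ℝ) := mul_le_mul_of_nonneg_right h3 h5

/-- counting: triples -/
theorem choose3 {M : ℝ} (hM : 8 ≤ M) (hCt : S_Counts) (n : ℕ) :
    (n.choose 3 : ℝ) * lam4 M (n - 3) ≤ (2 * M) ^ 3 := by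
  have hM0 : 0 < M := by linarith
  rcases lt_or_ge n 3 with h | h
  · rw [Nat.choose_eq_zero_of_lt h]
    simp only [Nat.cast_zero, zero_mul]
    positivity
  · obtain ⟨k, rfl⟩ : ∃ k, n = k + 3 := ⟨n - 3, by omega⟩
    have h1 : (((k + 3 : ℕ)).choose 3 : ℝ) ≤ ((k + 3 : ℕ) : ℝ) ^ 3 / (Nat.factorial 3 : ℕ) :=
      Nat.choose_le_pow_div 3 (k + 3)
    have h2 : (Nat.factorial 3 : ℝ) = 6 := by norm_num [Nat.factorial]
    rw [h2] at h1
    have h3 := (hCt M hM).2.2.2.2.2.2.2.2.2.1 k 3 (by norm_num)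
    have h4 : 0 ≤ lam4 M k := ((hCt M hM).2.2.1 k).1
    have h6 : k + 3 - 3 = k := by omega
    rw [h6]
    refine le_trans (mul_le_mul_of_nonneg_right ?_ h4) h3
    have : (0 : ℝ) ≤ ((k + 3 : ℕ) : ℝ) ^ 3 := by positivity
    linarith

/-- sum over quadruples and their elements of a bound which does not depend on them -/
theorem sum4 (hCo : S_CountK) (Z : Set R3) (x : Fin N → R3)
    (f : Finset (Fin N) → Fin N → ℝ) (G : ℝ)
    (hf : ∀ Q ∈ P4 N, ∀ l ∈ Q, f Q l ≤ (∏ j ∈ Q, ind Z (x j)) * G) :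
    ∑ Q ∈ P4 N, ∑ l ∈ Q, f Q l ≤ 4 * ((cnt Z univ x).choose 4 : ℝ) * G := by
  have h1 := hCo Z (univ : Finset (Fin N)) 4 x
  calc ∑ Q ∈ P4 N, ∑ l ∈ Q, f Q l
      ≤ ∑ Q ∈ P4 N, ∑ _l ∈ Q, (∏ j ∈ Q, ind Z (x j)) * G :=
        Finset.sum_le_sum fun Q hQ => Finset.sum_le_sum fun l hl => hf Q hQ l hl
    _ = ∑ Q ∈ P4 N, 4 * ((∏ j ∈ Q, ind Z (x j)) * G) := by
        refine Finset.sum_congr rfl fun Q hQ => ?_
        rw [Finset.sum_const, (Finset.mem_powersetCard.1 hQ).2, nsmul_eq_mul]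
        norm_num
    _ = 4 * ((cnt Z univ x).choose 4 : ℝ) * G := by
        rw [← h1, ← Finset.mul_sum, ← Finset.sum_mul]
        ring

/-- exchange of sums -/
theorem sum_swap (f : Finset (Fin N) → Fin N → ℝ) :
    ∑ Q ∈ P4 N, ∑ l ∈ Q, f Q l =
      ∑ l, ∑ T ∈ powersetCard 3 (univ.erase l), f (insert l T) l := by
  have h1 : ∑ Q ∈ P4 N, ∑ l ∈ Q, f Q l = ∑ l, ∑ Q ∈ (P4 N).filter (fun Q => l ∈ Q), f Q l := by
    apply Finset.sum_comm'
    intro Q l
    simp
  rw [h1]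
  refine Finset.sum_congr rfl fun l _ => ?_
  symm
  refine Finset.sum_nbij' (fun T => insert l T) (fun Q => Q.erase l) ?_ ?_ ?_ ?_ ?_
  · intro T hT
    obtain ⟨h2, h3⟩ := Finset.mem_powersetCard.1 hT
    have h4 : l ∉ T := fun h => (Finset.mem_erase.1 (h2 h)).1 rfl
    refine Finset.mem_filter.2 ⟨Finset.mem_powersetCard.2 ⟨Finset.subset_univ _, ?_⟩,
      Finset.mem_insert_self _ _⟩
    rw [Finset.card_insert_of_notMem h4, h3]
  · intro Q hQ
    obtain ⟨h2, h3⟩ := Finset.mem_filter.1 hQ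
    refine Finset.mem_powersetCard.2 ⟨Finset.erase_subset_erase _ (Finset.subset_univ _), ?_⟩
    rw [Finset.card_erase_of_mem h3, (Finset.mem_powersetCard.1 h2).2]
  · intro T hT
    obtain ⟨h2, h3⟩ := Finset.mem_powersetCard.1 hT
    have h4 : l ∉ T := fun h => (Finset.mem_erase.1 (h2 h)).1 rfl
    exact Finset.erase_insert h4
  · intro Q hQ
    exact Finset.insert_erase (Finset.mem_filter.1 hQ).2
  · intro T _
    rfl

/-- sums of integrals -/
theorem sum_int {ν : Measure R3} [IsFiniteMeasure ν] {I : Finset (Fin N) → Fin N → ℝ}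
    {f : Finset (Fin N) → Fin N → (Fin N → R3) → ℝ} {G : (Fin N → R3) → ℝ} {c : ℝ} (hc : 0 ≤ c)
    (hI : ∀ Q ∈ P4 N, ∀ l ∈ Q, I Q l ≤ c * ∫ x, f Q l x ∂pin ν N)
    (hf : ∀ Q ∈ P4 N, ∀ l ∈ Q, BM (f Q l)) (hG : BM G)
    (hle : ∀ x, ∑ Q ∈ P4 N, ∑ l ∈ Q, f Q l x ≤ G x) :
    ∑ Q ∈ P4 N, ∑ l ∈ Q, I Q l ≤ c * ∫ x, G x ∂pin ν N := by
  have h1 : ∑ Q ∈ P4 N, ∑ l ∈ Q, I Q l ≤
      c * ∑ Q ∈ P4 N, ∑ l ∈ Q, ∫ x, f Q l x ∂pin ν N := by
    rw [Finset.mul_sum]
    refine Finset.sum_le_sum fun Q hQ => ?_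
    rw [Finset.mul_sum]
    exact Finset.sum_le_sum fun l hl => hI Q hQ l hl
  have h2 : ∑ Q ∈ P4 N, ∑ l ∈ Q, ∫ x, f Q l x ∂pin ν N =
      ∫ x, ∑ Q ∈ P4 N, ∑ l ∈ Q, f Q l x ∂pin ν N := by
    rw [integral_finsetSum _ (fun Q hQ => (BM.sum _ (hf Q hQ)).integrable _)]
    refine Finset.sum_congr rfl fun Q hQ => ?_
    rw [integral_finsetSum _ (fun l hl => (hf Q hQ l hl).integrable _)]
  rw [h2] at h1
  refine h1.trans (mul_le_mul_of_nonneg_left ?_ hc)
  exact integral_mono ((BM.sum _ fun Q hQ => BM.sum _ (hf Q hQ)).integrable _)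
    (hG.integrable _) hle

end E123aux

open E123aux in
theorem E123 (hK : S_KerQ) (hC : S_Counts) (hCo : S_CountK) (hWd : S_WdWin) : S_E123 := by
  obtain ⟨C, hC1, hKer⟩ := hK
  refine ⟨8 * C, by linarith, ?_⟩
  intro p hp r4 hr4 Ψ hΨ a ha
  have hM := hp.hM
  have hM0 : 0 < p.M := by linarith
  obtain ⟨hwd, -⟩ := hWd p hp a ha
  have hC0 : (0 : ℝ) ≤ C := by linarith
  have hs : 0 < p.s ^ 3 := by have := hwd.hm; linarith
  have hνle : p.nu ≤ volume := Measure.restrict_le_self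
  have hcts := hC p.M hM
  have hker := fun (Q : Finset (Fin p.N)) (hQ : Q ∈ P4 p.N) =>
    hKer p.nu hνle r4 hr4 Q (Finset.mem_powersetCard.1 hQ).2
  have hmu : p.mu = p.M / p.s ^ 3 := rfl
  have hcst : 0 ≤ C * (1 / p.s ^ 3) ^ 3 := by positivity
  -- the weights
  have hl3 : ∀ T : Finset (Fin p.N), BM (p.l3 a T) := fun T =>
    BM_cnt_comp hwd.B_meas Tᶜ (lam3 p.M)
  have hl4 : ∀ T : Finset (Fin p.N), BM (p.l4 a T) := fun T =>
    BM_cnt_comp hwd.B_meas Tᶜ (lam4 p.M)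
  have hl3d : ∀ T : Finset (Fin p.N), DependsOn (p.l3 a T) ((T : Set (Fin p.N))ᶜ) := by
    intro T x y hxy
    have := cnt_dep (N := p.N) (Bc p.s a) Tᶜ (x := x) (y := y) (by simpa using hxy)
    simp only at this
    unfold Par.l3
    rw [this]
  -- number of particles outside a triple
  have hcB : ∀ (Q : Finset (Fin p.N)), Q ∈ P4 p.N → ∀ l ∈ Q, ∀ x : Fin p.N → R3,
      ∏ j ∈ Q, ind (Qc p.s a) (x j) ≠ 0 →
      cnt (Bc p.s a) univ x = cnt (Bc p.s a) (Q.erase l)ᶜ x + 3 ∧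
      cnt (Qc p.s a) univ x = cnt (Qc p.s a) (Q.erase l)ᶜ x + 3 := by
    intro Q hQ l hl x hne
    have hmem := mem_of_prod_ne hne
    have hcard : (Q.erase l).card = 3 := by
      rw [Finset.card_erase_of_mem hl, (Finset.mem_powersetCard.1 hQ).2]
    have e1 := cnt_split (Z := Bc p.s a) (Finset.subset_univ (Q.erase l)) x
    have e2 := cnt_split (Z := Qc p.s a) (Finset.subset_univ (Q.erase l)) x
    have hm' : ∀ j ∈ Q.erase l, x j ∈ Qc p.s a := fun j hj => hmem j (Finset.mem_of_mem_erase hj)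
    rw [cnt_all (Z := Bc p.s a) (fun j hj => hwd.Q_sub (hm' j hj)), hcard,
      ← Finset.compl_eq_univ_sdiff] at e1
    rw [cnt_all (Z := Qc p.s a) hm', hcard, ← Finset.compl_eq_univ_sdiff] at e2
    exact ⟨e1, e2⟩
  refine ⟨?_, ?_, ?_⟩
  · -- first part
    have hmain := sum_int (ν := p.nu) (c := C * (1 / p.s ^ 3) ^ 3)
      (I := fun Q l => ∫ x, KQ r4 Q x * ((∏ j ∈ Q, ind (Qc p.s a) (x j)) *
        (p.l3 a (Q.erase l) x ^ 2 * p.U a (Q.erase l) Ψ x ^ 2)) ∂pin p.nu p.N)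
      (f := fun Q l x => (∏ j ∈ Q, ind (Qc p.s a) (x j)) *
        (p.l3 a (Q.erase l) x ^ 2 * Ψ x ^ 2))
      (G := fun x => (2 * p.M) ^ 3 * ((cnt (Qc p.s a) univ x : ℝ) * Ψ x ^ 2)) hcst ?_ ?_ ?_ ?_
    · refine hmain.trans (le_of_eq ?_)
      rw [integral_const_mul]
      unfold Nw
      rw [hmu]
      ring
    · intro Q hQ l hl
      obtain ⟨-, -, -, k1, k2, -, k3⟩ := hker Q hQ
      rw [mul_assoc]
      exact core hwd k1 k2 hC0 hl (Finset.mem_powersetCard.1 hQ).2 (k3 l hl) hΨ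
        ((hl3 _).pow 2) (fun x => sq_nonneg _) (by
          intro x y hxy
          have := hl3d _ hxy
          simp only
          rw [this])
    · intro Q hQ l hl
      exact (BM_prod_ind hwd.Q_meas Q).mul (((hl3 _).pow 2).mul (hΨ.pow 2))
    · exact ((BM_cnt hwd.Q_meas univ).mul (hΨ.pow 2)).const_mul _
    · intro x
      refine (sum4 hCo (Qc p.s a) x _ (lam3 p.M (cnt (Qc p.s a) univ x - 3) ^ 2 * Ψ x ^ 2)
        ?_).trans ?_
      · intro Q hQ l hl
        by_cases hne : ∏ j ∈ Q, ind (Qc p.s a) (x j) = 0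
        · simp only [hne, zero_mul, le_refl]
        · apply mul_le_mul_of_nonneg_left _ (prod_ind_nonneg _ _ _)
          apply mul_le_mul_of_nonneg_right _ (sq_nonneg _)
          apply pow_le_pow_left₀ (hcts.1 _).1
          apply hcts.2.1
          obtain ⟨e1, e2⟩ := hcB Q hQ l hl x hne
          have e3 := cnt_mono hwd.Q_sub (Q.erase l)ᶜ x
          omega
      · have := choose4 hM hC (cnt (Qc p.s a) univ x)
        have h2 := mul_le_mul_of_nonneg_right this (sq_nonneg (Ψ x))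
        linarith
  · -- second part
    have hmain := sum_int (ν := p.nu) (c := C * (1 / p.s ^ 3) ^ 3)
      (I := fun Q l => ∫ x, KQ r4 Q x * ((∏ j ∈ Q, ind (Qc p.s a) (x j)) *
        ((if p.M < cnt (Bc p.s a) univ x then 1 else 0) *
        (p.l3 a (Q.erase l) x ^ 2 * p.U a (Q.erase l) Ψ x ^ 2))) ∂pin p.nu p.N)
      (f := fun Q l x => (∏ j ∈ Q, ind (Qc p.s a) (x j)) *
        (((if p.M < ((cnt (Bc p.s a) (Q.erase l)ᶜ x + 3 : ℕ) : ℝ) then 1 else 0) *
          p.l3 a (Q.erase l) x ^ 2) * Ψ x ^ 2))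
      (G := fun x => (2 * p.M) ^ 3 * ((if p.M < cnt (Bc p.s a) univ x
        then (cnt (Bc p.s a) univ x : ℝ) else 0) * Ψ x ^ 2)) hcst ?_ ?_ ?_ ?_
    · refine hmain.trans (le_of_eq ?_)
      rw [integral_const_mul, hmu]
      ring
    · intro Q hQ l hl
      obtain ⟨-, -, -, k1, k2, -, k3⟩ := hker Q hQ
      rw [mul_assoc]
      have hcong : ∀ x, KQ r4 Q x * ((∏ j ∈ Q, ind (Qc p.s a) (x j)) *
          ((if p.M < cnt (Bc p.s a) univ x then 1 else 0) *
          (p.l3 a (Q.erase l) x ^ 2 * p.U a (Q.erase l) Ψ x ^ 2))) =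
          KQ r4 Q x * ((∏ j ∈ Q, ind (Qc p.s a) (x j)) *
          (((if p.M < ((cnt (Bc p.s a) (Q.erase l)ᶜ x + 3 : ℕ) : ℝ) then 1 else 0) *
          p.l3 a (Q.erase l) x ^ 2) * av p.nu (p.gd a) (Q.erase l) Ψ x ^ 2)) := by
        intro x
        by_cases hne : ∏ j ∈ Q, ind (Qc p.s a) (x j) = 0
        · simp only [hne, zero_mul]
        · rw [← (hcB Q hQ l hl x hne).1]
          unfold Par.U
          ring
      simp only [hcong]
      refine core hwd k1 k2 hC0 hl (Finset.mem_powersetCard.1 hQ).2 (k3 l hl) hΨ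
        ((BM_cnt_comp hwd.B_meas (Q.erase l)ᶜ
          (fun n => if p.M < ((n + 3 : ℕ) : ℝ) then 1 else 0)).mul ((hl3 _).pow 2))
        (fun x => mul_nonneg (by split_ifs <;> norm_num) (sq_nonneg _)) ?_
      intro x y hxy
      have e1 := hl3d _ hxy
      have e2 := cnt_dep (N := p.N) (Bc p.s a) (Q.erase l)ᶜ (x := x) (y := y)
        (fun i hi => hxy i (by rw [Finset.coe_compl] at hi; exact hi))
      simp only at e2 ⊢
      rw [e1, e2]
    · intro Q hQ l hl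
      exact (BM_prod_ind hwd.Q_meas Q).mul (((BM_cnt_comp hwd.B_meas (Q.erase l)ᶜ
        (fun n => if p.M < ((n + 3 : ℕ) : ℝ) then 1 else 0)).mul ((hl3 _).pow 2)).mul
        (hΨ.pow 2))
    · exact ((BM_cnt_comp hwd.B_meas univ
        (fun n => if p.M < (n : ℝ) then (n : ℝ) else 0)).mul (hΨ.pow 2)).const_mul _
    · intro x
      refine (sum4 hCo (Qc p.s a) x _
        ((if p.M < cnt (Bc p.s a) univ x then 1 else 0) *
          lam3 p.M (cnt (Bc p.s a) univ x - 3) ^ 2 * Ψ x ^ 2) ?_).trans ?_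
      · intro Q hQ l hl
        by_cases hne : ∏ j ∈ Q, ind (Qc p.s a) (x j) = 0
        · simp only [hne, zero_mul, le_refl]
        · apply mul_le_mul_of_nonneg_left _ (prod_ind_nonneg _ _ _)
          apply mul_le_mul_of_nonneg_right _ (sq_nonneg _)
          obtain ⟨e1, -⟩ := hcB Q hQ l hl x hne
          rw [← e1]
          have e3 : cnt (Bc p.s a) univ x - 3 = cnt (Bc p.s a) (Q.erase l)ᶜ x := by omega
          rw [e3]
          exact le_rfl
      · by_cases hlt : p.M < cnt (Bc p.s a) univ x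
        · simp only [hlt, if_true, one_mul]
          have h1 := choose4 hM hC (cnt (Bc p.s a) univ x)
          have h2 : ((cnt (Qc p.s a) univ x).choose 4 : ℝ) ≤
              ((cnt (Bc p.s a) univ x).choose 4 : ℝ) := by
            exact_mod_cast Nat.choose_le_choose 4 (cnt_mono hwd.Q_sub univ x)
          have h3 : 0 ≤ lam3 p.M (cnt (Bc p.s a) univ x - 3) ^ 2 * Ψ x ^ 2 := by positivity
          have h4 := mul_le_mul_of_nonneg_right h1 (sq_nonneg (Ψ x))
          have h5 := mul_le_mul_of_nonneg_right h2 h3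
          linarith
        · simp only [hlt, if_false, zero_mul, mul_zero, le_refl]
  · -- third part
    have hq : ∀ l, BM (p.q a l Ψ) := fun l => rough_bm hwd hΨ l
    have hmain := sum_int (ν := p.nu) (c := C * (1 / p.s ^ 3) ^ 3)
      (I := fun Q l => ∫ x, KQ r4 Q x * ((∏ j ∈ Q, ind (Qc p.s a) (x j)) *
        (p.l4 a Q x * p.U a (Q.erase l) (p.q a l Ψ) x ^ 2)) ∂pin p.nu p.N)
      (f := fun Q l x => (∏ j ∈ Q, ind (Qc p.s a) (x j)) *
        (p.l4 a Q x * p.q a l Ψ x ^ 2))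
      (G := fun x => (2 * p.M) ^ 3 * ∑ l, ind (Qc p.s a) (x l) * p.q a l Ψ x ^ 2)
      hcst ?_ ?_ ?_ ?_
    · refine hmain.trans (le_of_eq ?_)
      rw [integral_const_mul, integral_finsetSum _ (fun l _ =>
        ((BM_ind_at hwd.Q_meas l).mul ((hq l).pow 2)).integrable _)]
      unfold Dw
      rw [hmu]
      simp only [Par.q]
      ring
    · intro Q hQ l hl
      obtain ⟨-, -, -, k1, k2, -, k3⟩ := hker Q hQ
      rw [mul_assoc]
      refine core hwd k1 k2 hC0 hl (Finset.mem_powersetCard.1 hQ).2 (k3 l hl) (hq l)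
        (hl4 _) (fun x => (hcts.2.2.1 _).1) ?_
      intro x y hxy
      have := cnt_dep (N := p.N) (Bc p.s a) Qᶜ (x := x) (y := y) (fun i hi => hxy i (by
        simp only [Finset.coe_compl, Set.mem_compl_iff, Finset.mem_coe] at hi ⊢
        exact fun h => hi (Finset.mem_of_mem_erase h)))
      simp only at this
      unfold Par.l4
      rw [this]
    · intro Q hQ l hl
      exact (BM_prod_ind hwd.Q_meas Q).mul ((hl4 _).mul ((hq l).pow 2))
    · exact (BM.sum _ fun l _ => (BM_ind_at hwd.Q_meas l).mul ((hq l).pow 2)).const_mul _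
    · intro x
      rw [sum_swap (fun Q l => (∏ j ∈ Q, ind (Qc p.s a) (x j)) *
        (p.l4 a Q x * p.q a l Ψ x ^ 2)), Finset.mul_sum]
      refine Finset.sum_le_sum fun l _ => ?_
      have hterm : ∀ T ∈ powersetCard 3 (univ.erase l),
          (∏ j ∈ insert l T, ind (Qc p.s a) (x j)) * (p.l4 a (insert l T) x * p.q a l Ψ x ^ 2) ≤
          (∏ j ∈ T, ind (Qc p.s a) (x j)) *
            (lam4 p.M (cnt (Qc p.s a) (univ.erase l) x - 3) *
              (ind (Qc p.s a) (x l) * p.q a l Ψ x ^ 2)) := by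
        intro T hT
        obtain ⟨h2, h3⟩ := Finset.mem_powersetCard.1 hT
        have h4 : l ∉ T := fun h => (Finset.mem_erase.1 (h2 h)).1 rfl
        rw [Finset.prod_insert h4]
        have e1 : ind (Qc p.s a) (x l) * (∏ j ∈ T, ind (Qc p.s a) (x j)) *
            (p.l4 a (insert l T) x * p.q a l Ψ x ^ 2) =
            (∏ j ∈ T, ind (Qc p.s a) (x j)) * (p.l4 a (insert l T) x *
              (ind (Qc p.s a) (x l) * p.q a l Ψ x ^ 2)) := by ring
        rw [e1]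
        by_cases hne : ∏ j ∈ T, ind (Qc p.s a) (x j) = 0
        · simp only [hne, zero_mul, le_refl]
        · apply mul_le_mul_of_nonneg_left _ (prod_ind_nonneg _ _ _)
          apply mul_le_mul_of_nonneg_right _ (mul_nonneg (ind_nonneg _ _) (sq_nonneg _))
          apply hcts.2.2.2.1
          have hmem := mem_of_prod_ne hne
          have e2 := cnt_split (Z := Qc p.s a) h2 x
          rw [cnt_all hmem, h3] at e2
          have e3 : (univ.erase l) \ T = (insert l T)ᶜ := by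
            ext i
            simp only [Finset.mem_sdiff, Finset.mem_erase, Finset.mem_univ, Finset.mem_compl,
              Finset.mem_insert, not_or, and_true]
          rw [e3] at e2
          have e4 := cnt_mono hwd.Q_sub (insert l T)ᶜ x
          omega
      refine (Finset.sum_le_sum hterm).trans ?_
      rw [← Finset.sum_mul, hCo (Qc p.s a) (univ.erase l) 3 x, ← mul_assoc]
      exact mul_le_mul_of_nonneg_right (choose3 hM hC _)
        (mul_nonneg (ind_nonneg _ _) (sq_nonneg _))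

end Pool.Agent.Lib.MP_5db8e2_mp
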