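import Pool.Agent.Lib.MP_5db8e2_mp.LB.Spec5

/-!
# The energy as an integral over the product measure
-/

set_option autoImplicit false

open MeasureTheory Function Finset
open scoped Classical

namespace Pool.Agent.Lib.MP_5db8e2_mp

namespace EnIntaux

theorem box_eq (L : ℝ) (N : ℕ) : box L N = Set.univ.pi (fun _ : Fin N => Om L) := by
  ext x
  simp only [box, Om, Set.mem_setOf_eq, Set.mem_pi, Set.mem_univ, true_imp_iff]

theorem pin_eq (p : Par) : pin p.nu p.N = (volume : Measure (Fin p.N → R3)).restrict
    (box p.L p.N) := by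
  rw [box_eq, volume_pi, Measure.restrict_pi_pi]
  rfl

theorem pot_eq (V : R3 → R3 → ℝ) {N : ℕ} (x : Fin N → R3) :
    pot V x = ∑ T ∈ powersetCard 3 univ, VT V T x := by
  have h1 : pot V x = ∑ q ∈ (univ : Finset (Fin N × Fin N × Fin N)).filter
      (fun q => q.1 < q.2.1 ∧ q.2.1 < q.2.2), V (x q.1 - x q.2.1) (x q.1 - x q.2.2) := by
    rw [Finset.sum_filter]
    unfold pot
    rw [Fintype.sum_prod_type]
    refine Finset.sum_congr rfl fun i _ => ?_
    rw [Fintype.sum_prod_type]
  rw [h1]
  symm
  refine Finset.sum_bij (fun T hT => ((T.orderEmbOfFin (mem_powersetCard.mp hT).2 0),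
    (T.orderEmbOfFin (mem_powersetCard.mp hT).2 1),
    (T.orderEmbOfFin (mem_powersetCard.mp hT).2 2))) ?_ ?_ ?_ ?_
  · intro T hT
    simp only [mem_filter, mem_univ, true_and]
    exact ⟨(T.orderEmbOfFin _).strictMono (by decide), (T.orderEmbOfFin _).strictMono (by decide)⟩
  · intro T hT T' hT' h
    have hc := (mem_powersetCard.mp hT).2
    have hc' := (mem_powersetCard.mp hT').2
    simp only [Prod.mk.injEq] at h
    obtain ⟨h0, h1, h2⟩ := h
    have hr : Set.range (T.orderEmbOfFin hc) = Set.range (T'.orderEmbOfFin hc') := by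
      congr 1
      funext m
      fin_cases m
      · exact h0
      · exact h1
      · exact h2
    rw [Finset.range_orderEmbOfFin, Finset.range_orderEmbOfFin] at hr
    exact_mod_cast hr
  · rintro ⟨i, j, k⟩ hq
    simp only [mem_filter, mem_univ, true_and] at hq
    obtain ⟨hij, hjk⟩ := hq
    have hik : i < k := hij.trans hjk
    have hc : ({i, j, k} : Finset (Fin N)).card = 3 := by
      rw [Finset.card_eq_three]
      exact ⟨i, j, k, hij.ne, hik.ne, hjk.ne, rfl⟩
    refine ⟨{i, j, k}, mem_powersetCard.mpr ⟨subset_univ _, hc⟩, ?_⟩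
    have hu : ![i, j, k] = ({i, j, k} : Finset (Fin N)).orderEmbOfFin hc := by
      apply Finset.orderEmbOfFin_unique
      · intro m
        fin_cases m <;> simp
      · intro a b hab
        fin_cases a <;> fin_cases b <;> simp_all
    have e0 := congrFun hu 0
    have e1 := congrFun hu 1
    have e2 := congrFun hu 2
    simp only [Matrix.cons_val_zero, Matrix.cons_val_one, Matrix.cons_val_two, Matrix.tail_cons,
      Matrix.head_cons] at e0 e1 e2
    simp only [Prod.mk.injEq]
    exact ⟨e0.symm, e1.symm, e2.symm⟩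
  · intro T hT
    have hc := (mem_powersetCard.mp hT).2
    simp only [VT, V3, pick, hc, dif_pos]

end EnIntaux

open EnIntaux

theorem EnInt : S_EnInt := by
  intro V _ p Ψ
  refine ⟨fun x => pot_eq V x, ?_, ?_⟩
  · unfold energy
    rw [pin_eq]
    congr 1
    funext x
    simp only [Real.norm_eq_abs, sq_abs]
    rw [pot_eq, Finset.sum_mul]
  · unfold Par.nrm
    rw [pin_eq]

end Pool.Agent.Lib.MP_5db8e2_mp
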