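import Pool.Agent.Lib.MP_5db8e2_mp.LB.Spec9

/-!
# Elementary symmetric functions of small weights
-/

set_option autoImplicit false

open MeasureTheory Function Finset
open scoped Classical

namespace Pool.Agent.Lib.MP_5db8e2_mp

namespace EsyAux

variable {ι : Type} [DecidableEq ι]

/-- elementary symmetric function of the weights in `s` -/
noncomputable def ee (w : ι → ℝ) (k : ℕ) (s : Finset ι) : ℝ :=
  ∑ A ∈ powersetCard k s, ∏ j ∈ A, w j

theorem ee_zero (w : ι → ℝ) (s : Finset ι) : ee w 0 s = 1 := by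
  simp [ee]

theorem ee_succ_empty (w : ι → ℝ) (k : ℕ) : ee w (k + 1) ∅ = 0 := by
  have h : powersetCard (k + 1) (∅ : Finset ι) = ∅ := by
    rw [powersetCard_eq_empty]
    simp
  simp [ee, h]

theorem ee_insert (w : ι → ℝ) (k : ℕ) {a : ι} {s : Finset ι} (ha : a ∉ s) :
    ee w (k + 1) (insert a s) = ee w (k + 1) s + w a * ee w k s := by
  unfold ee
  rw [powersetCard_succ_insert ha, sum_union, sum_image, mul_sum]
  · congr 1
    apply sum_congr rfl
    intro A hA
    rw [mem_powersetCard] at hA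
    rw [prod_insert (fun h => ha (hA.1 h))]
  · intro A hA B hB hAB
    have hA' : a ∉ A := fun h => ha ((mem_powersetCard.1 hA).1 h)
    have hB' : a ∉ B := fun h => ha ((mem_powersetCard.1 hB).1 h)
    have := congrArg (fun C => C.erase a) hAB
    simpa [erase_insert hA', erase_insert hB'] using this
  · rw [disjoint_left]
    intro A hA hB
    rw [mem_powersetCard] at hA
    rw [mem_image] at hB
    obtain ⟨B, -, rfl⟩ := hB
    exact ha (hA.1 (mem_insert_self _ _))

theorem ee_one (w : ι → ℝ) (s : Finset ι) : ee w 1 s = ∑ j ∈ s, w j := by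
  induction s using Finset.induction_on with
  | empty => simpa using ee_succ_empty w 0
  | insert a s ha ih =>
    rw [show (1 : ℕ) = 0 + 1 from rfl, ee_insert w 0 ha, ee_zero, sum_insert ha, zero_add, ih]
    ring

theorem ee_nonneg (w : ι → ℝ) (hw : ∀ j, 0 ≤ w j) (k : ℕ) (s : Finset ι) : 0 ≤ ee w k s :=
  sum_nonneg fun _ _ => prod_nonneg fun j _ => hw j

theorem bounds (w : ι → ℝ) (c : ℝ) (hw : ∀ j, 0 ≤ w j) (hc : ∀ j, w j ≤ c) (s : Finset ι) :
    0 ≤ ∑ j ∈ s, w j ∧
    ee w 2 s ≤ (∑ j ∈ s, w j) ^ 2 / 2 ∧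
    ee w 3 s ≤ (∑ j ∈ s, w j) ^ 3 / 6 ∧
    ee w 4 s ≤ (∑ j ∈ s, w j) ^ 4 / 24 ∧
    (∑ j ∈ s, w j) ^ 2 / 2 - (∑ j ∈ s, w j) * c / 2 ≤ ee w 2 s ∧
    (∑ j ∈ s, w j) ^ 3 / 6 - (∑ j ∈ s, w j) ^ 2 * c / 2 ≤ ee w 3 s ∧
    (∑ j ∈ s, w j) ^ 4 / 24 - (∑ j ∈ s, w j) ^ 3 * c / 4 ≤ ee w 4 s := by
  induction s using Finset.induction_on with
  | empty =>
    have e2 : ee w 2 (∅ : Finset ι) = 0 := ee_succ_empty w 1
    have e3 : ee w 3 (∅ : Finset ι) = 0 := ee_succ_empty w 2
    have e4 : ee w 4 (∅ : Finset ι) = 0 := ee_succ_empty w 3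
    rw [e2, e3, e4, sum_empty]
    norm_num
  | insert a s ha ih =>
    obtain ⟨h0, h1, h2, h3, h4, h5, h6⟩ := ih
    have e2 : ee w 2 (insert a s) = ee w 2 s + w a * ∑ j ∈ s, w j := by
      rw [← ee_one w s]
      exact ee_insert w 1 ha
    have e3 : ee w 3 (insert a s) = ee w 3 s + w a * ee w 2 s := ee_insert w 2 ha
    have e4 : ee w 4 (insert a s) = ee w 4 s + w a * ee w 3 s := ee_insert w 3 ha
    rw [e2, e3, e4, sum_insert ha]
    have hwa := hw a
    have hca := hc a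
    generalize (∑ j ∈ s, w j) = S at *
    generalize w a = v at *
    have hvc : 0 ≤ v * (c - v) := mul_nonneg hwa (by linarith)
    have m1 := mul_le_mul_of_nonneg_left h1 hwa
    have m2 := mul_le_mul_of_nonneg_left h2 hwa
    have m4 := mul_le_mul_of_nonneg_left h4 hwa
    have m5 := mul_le_mul_of_nonneg_left h5 hwa
    have p1 : 0 ≤ S * (v * (c - v)) := mul_nonneg h0 hvc
    have p2 : 0 ≤ S ^ 2 * (v * (c - v)) := mul_nonneg (by positivity) hvc
    have p3 : 0 ≤ v * (v * (c - v)) := mul_nonneg hwa hvc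
    have p4 : 0 ≤ S * (v * (v * (c - v))) := mul_nonneg h0 p3
    have p5 : 0 ≤ v * (v * (v * (c - v))) := mul_nonneg hwa p3
    have q1 : 0 ≤ S * v ^ 2 := by positivity
    have q2 : 0 ≤ v ^ 3 := by positivity
    have q3 : 0 ≤ S ^ 2 * v ^ 2 := by positivity
    have q4 : 0 ≤ S * v ^ 3 := by positivity
    have q5 : 0 ≤ v ^ 4 := by positivity
    have q6 : 0 ≤ v ^ 2 := by positivity
    refine ⟨by linarith, ?_, ?_, ?_, ?_, ?_, ?_⟩
    · nlinarith
    · nlinarith
    · nlinarith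
    · nlinarith
    · nlinarith
    · nlinarith

end EsyAux

open EsyAux in
theorem Esy : S_Esy := by
  intro N m hm g hg hgm x
  have hw : ∀ j, 0 ≤ g (x j) := fun j => hg _
  have hc : ∀ j, g (x j) ≤ 1 / m := fun j => hgm _
  have he : ∀ k, esy g k x = ee (fun j => g (x j)) k (univ : Finset (Fin N)) := by
    intro k
    unfold esy ee
    congr!
  obtain ⟨h0, h1, h2, h3, h4, h5, h6⟩ := bounds (fun j => g (x j)) (1 / m) hw hc
    (univ : Finset (Fin N))
  rw [he, he]
  refine ⟨ee_nonneg _ hw _ _, ee_nonneg _ hw _ _, h2, h3, ?_, ?_, ?_⟩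
  · have e : (∑ j, g (x j)) ^ 2 / (2 * m) = (∑ j, g (x j)) ^ 2 * (1 / m) / 2 := by
      field_simp
    rw [e]
    exact h5
  · have e : (∑ j, g (x j)) ^ 3 / (4 * m) = (∑ j, g (x j)) ^ 3 * (1 / m) / 4 := by
      field_simp
    rw [e]
    exact h6
  · intro γ hγ Z hZ
    unfold ee cnt
    have hsub : powersetCard 3 ((univ : Finset (Fin N)).filter (fun j => x j ∈ Z)) ⊆
        powersetCard 3 (univ : Finset (Fin N)) := powersetCard_mono (filter_subset _ _)
    calc γ ^ 3 * ((((univ : Finset (Fin N)).filter (fun j => x j ∈ Z)).card).choose 3 : ℝ)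
        = ∑ A ∈ powersetCard 3 ((univ : Finset (Fin N)).filter (fun j => x j ∈ Z)), γ ^ 3 := by
          rw [sum_const, card_powersetCard, nsmul_eq_mul, mul_comm]
      _ ≤ ∑ A ∈ powersetCard 3 ((univ : Finset (Fin N)).filter (fun j => x j ∈ Z)),
            ∏ j ∈ A, g (x j) := by
          apply sum_le_sum
          intro A hA
          rw [mem_powersetCard] at hA
          calc γ ^ 3 = ∏ j ∈ A, γ := by rw [prod_const, hA.2]
            _ ≤ ∏ j ∈ A, g (x j) := by
              apply prod_le_prod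
              · intro j _; exact hγ
              · intro j hj
                exact hZ _ (mem_filter.1 (hA.1 hj)).2
      _ ≤ ∑ A ∈ powersetCard 3 (univ : Finset (Fin N)), ∏ j ∈ A, g (x j) :=
          sum_le_sum_of_subset_of_nonneg hsub fun A _ _ => prod_nonneg fun j _ => hw j

end Pool.Agent.Lib.MP_5db8e2_mp
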