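import Pool.Agent.Lib.MP_5db8e2_mp.LB.Spec9

/-!
# Lower bound: final assembly
-/

set_option autoImplicit false

open MeasureTheory Function Finset
open scoped Classical

namespace Pool.Agent.Lib.MP_5db8e2_mp

namespace FinalAux

theorem BM_esy {N : ℕ} {g : R3 → ℝ} (hg : BM g) (k : ℕ) : BM (fun x : Fin N → R3 => esy g k x) := by
  unfold esy
  exact BM.sum _ fun A _ => BM.prod _ fun j _ => hg.comp (measurable_pi_apply j)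

/-- The pointwise inequality, integrated. -/
theorem main_int (hWd : S_WdWin) (p : Par) (hp : p.OK) (Ψ : (Fin p.N → R3) → ℝ) (hΨ : BM Ψ)
    (b Val Ce A B : ℝ)
    (h : ∀ x : Fin p.N → R3, A - B * (cnt p.strip univ x : ℝ)
      ≤ ∑ a ∈ p.win, p.s ^ 3 * (b * (lam3 p.M (cnt (Bc p.s a) univ x - 3) * esy (p.gd a) 3 x)
          + Val * (lam4 p.M (cnt (Bc p.s a) univ x - 4) * esy (p.gd a) 4 x))
        - Ce * ∑ a ∈ p.win,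
          (if p.M < cnt (Bc p.s a) univ x then (cnt (Bc p.s a) univ x : ℝ) else 0))
    (hstrip : MeasurableSet p.strip) :
    A * p.nrm Ψ - B * p.NS Ψ ≤ b * p.T3 Ψ + Val * p.T4 Ψ - Ce * p.ND Ψ := by
  have hB : ∀ a ∈ p.win, MeasurableSet (Bc p.s a) := fun a ha => ((hWd p hp a ha).1).B_meas
  have hg : ∀ a ∈ p.win, BM (p.gd a) := fun a ha => ((hWd p hp a ha).1).bm
  have hΨ2 : BM (fun x => Ψ x ^ 2) := hΨ.pow 2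
  have b3 : ∀ a ∈ p.win, BM (fun x : Fin p.N → R3 =>
      lam3 p.M (cnt (Bc p.s a) univ x - 3) * esy (p.gd a) 3 x * Ψ x ^ 2) := fun a ha =>
    ((BM_cnt_comp (hB a ha) univ (fun n => lam3 p.M (n - 3))).mul (BM_esy (hg a ha) 3)).mul hΨ2
  have b4 : ∀ a ∈ p.win, BM (fun x : Fin p.N → R3 =>
      lam4 p.M (cnt (Bc p.s a) univ x - 4) * esy (p.gd a) 4 x * Ψ x ^ 2) := fun a ha =>
    ((BM_cnt_comp (hB a ha) univ (fun n => lam4 p.M (n - 4))).mul (BM_esy (hg a ha) 4)).mul hΨ2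
  have bd : ∀ a ∈ p.win, BM (fun x : Fin p.N → R3 =>
      (if p.M < cnt (Bc p.s a) univ x then (cnt (Bc p.s a) univ x : ℝ) else 0) * Ψ x ^ 2) :=
    fun a ha =>
    ((BM_cnt_comp (hB a ha) univ (fun n => if p.M < n then (n : ℝ) else 0))).mul hΨ2
  have e3 : b * p.T3 Ψ = ∫ x, ∑ a ∈ p.win, p.s ^ 3 * (b *
      (lam3 p.M (cnt (Bc p.s a) univ x - 3) * esy (p.gd a) 3 x * Ψ x ^ 2)) ∂pin p.nu p.N := by
    rw [integral_finsetSum _ fun a ha => (((b3 a ha).const_mul b).const_mul _).integrable _]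
    unfold Par.T3
    rw [Finset.mul_sum]
    refine Finset.sum_congr rfl fun a _ => ?_
    rw [integral_const_mul, integral_const_mul]
    ring
  have e4 : Val * p.T4 Ψ = ∫ x, ∑ a ∈ p.win, p.s ^ 3 * (Val *
      (lam4 p.M (cnt (Bc p.s a) univ x - 4) * esy (p.gd a) 4 x * Ψ x ^ 2)) ∂pin p.nu p.N := by
    rw [integral_finsetSum _ fun a ha => (((b4 a ha).const_mul Val).const_mul _).integrable _]
    unfold Par.T4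
    rw [Finset.mul_sum]
    refine Finset.sum_congr rfl fun a _ => ?_
    rw [integral_const_mul, integral_const_mul]
    ring
  have ed : Ce * p.ND Ψ = ∫ x, Ce * ∑ a ∈ p.win,
      (if p.M < cnt (Bc p.s a) univ x then (cnt (Bc p.s a) univ x : ℝ) else 0) * Ψ x ^ 2
      ∂pin p.nu p.N := by
    rw [integral_const_mul, integral_finsetSum _ fun a ha => (bd a ha).integrable _]
    rfl
  have es : B * p.NS Ψ = ∫ x, B * ((cnt p.strip univ x : ℝ) * Ψ x ^ 2) ∂pin p.nu p.N := by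
    rw [integral_const_mul]; rfl
  have en : A * p.nrm Ψ = ∫ x, A * Ψ x ^ 2 ∂pin p.nu p.N := by
    rw [integral_const_mul]; rfl
  have bs : BM (fun x : Fin p.N → R3 => B * ((cnt p.strip univ x : ℝ) * Ψ x ^ 2)) :=
    ((BM_cnt hstrip univ).mul hΨ2).const_mul B
  have B3 : BM (fun x : Fin p.N → R3 => ∑ a ∈ p.win, p.s ^ 3 * (b *
      (lam3 p.M (cnt (Bc p.s a) univ x - 3) * esy (p.gd a) 3 x * Ψ x ^ 2))) :=
    BM.sum _ fun a ha => ((b3 a ha).const_mul b).const_mul _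
  have B4 : BM (fun x : Fin p.N → R3 => ∑ a ∈ p.win, p.s ^ 3 * (Val *
      (lam4 p.M (cnt (Bc p.s a) univ x - 4) * esy (p.gd a) 4 x * Ψ x ^ 2))) :=
    BM.sum _ fun a ha => ((b4 a ha).const_mul Val).const_mul _
  have Bd : BM (fun x : Fin p.N → R3 => Ce * ∑ a ∈ p.win,
      (if p.M < cnt (Bc p.s a) univ x then (cnt (Bc p.s a) univ x : ℝ) else 0) * Ψ x ^ 2) :=
    (BM.sum _ fun a ha => bd a ha).const_mul _
  rw [e3, e4, ed, es, en, ← integral_sub ((hΨ2.const_mul A).integrable _) (bs.integrable _),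
    ← integral_add (B3.integrable _) (B4.integrable _),
    ← integral_sub ((B3.add B4).integrable _) (Bd.integrable _)]
  refine integral_mono (((hΨ2.const_mul A).sub bs).integrable _)
    (((B3.add B4).sub Bd).integrable _) fun x => ?_
  have hx := mul_le_mul_of_nonneg_right (h x) (sq_nonneg (Ψ x))
  simp only
  calc A * Ψ x ^ 2 - B * ((cnt p.strip univ x : ℝ) * Ψ x ^ 2)
      = (A - B * (cnt p.strip univ x : ℝ)) * Ψ x ^ 2 := by ring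
    _ ≤ _ := hx
    _ = _ := by
      rw [sub_mul, Finset.sum_mul, ← Finset.sum_add_distrib, mul_assoc, Finset.sum_mul]
      congr 1
      refine Finset.sum_congr rfl fun a _ => ?_
      ring

theorem strip_meas (p : Par) : MeasurableSet p.strip := by
  have : p.strip = ⋃ k : Fin 3, {c : R3 | p.s * (p.K - 1) ≤ |c k|} := by
    ext c; simp [Par.strip]
  rw [this]
  refine MeasurableSet.iUnion fun k => ?_
  exact measurableSet_le measurable_const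
    ((measurable_pi_apply k).abs)

theorem step1 {C s RR D Nn aD' aN' eD' eN' ε₃ X Y E : ℝ} (hC : 1 ≤ C) (hRR : 0 ≤ RR)
    (hD : 0 ≤ D) (hNn : 0 ≤ Nn) (heD : 0 ≤ eD') (haN : 0 ≤ aN')
    (hgap : D ≤ C * (s ^ 2 * RR + aN' * Nn + aD' * D)) (h1 : C * aD' ≤ 1 / 2)
    (h2 : 2 * C * s ^ 2 * (C * eD') ≤ 1 / 2)
    (h3 : C * eN' + 2 * C * aN' * (C * eD') ≤ ε₃)
    (hE : RR + X - C * eD' * D - C * eN' * Nn - Y ≤ E) :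
    X - ε₃ * Nn - Y ≤ E := by
  have a1 : C * aD' * D ≤ 1 / 2 * D := mul_le_mul_of_nonneg_right h1 hD
  have a2 : D ≤ 2 * (C * (s ^ 2 * RR + aN' * Nn)) := by nlinarith
  have a3 : C * eD' * D ≤ C * eD' * (2 * (C * (s ^ 2 * RR + aN' * Nn))) :=
    mul_le_mul_of_nonneg_left a2 (by positivity)
  have a4 : 2 * C * s ^ 2 * (C * eD') * RR ≤ 1 / 2 * RR := mul_le_mul_of_nonneg_right h2 hRR
  have a5 : (C * eN' + 2 * C * aN' * (C * eD')) * Nn ≤ ε₃ * Nn :=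
    mul_le_mul_of_nonneg_right h3 hNn
  nlinarith

theorem eD_nonneg {s M r r4 τ τ₁ τ₂ τ₄ θ : ℝ} (hs : 0 ≤ s) (hM : 0 ≤ M) (hr : 0 ≤ r)
    (hr4 : 0 ≤ r4) (h : 0 ≤ τ) (h1 : 0 ≤ τ₁) (h2 : 0 ≤ τ₂) (h4 : 0 ≤ τ₄) (hθ : 0 ≤ θ) :
    0 ≤ eD s M r r4 τ τ₁ τ₂ τ₄ θ := by
  unfold eD; positivity

theorem eN_nonneg {s M r r4 τ τ₁ τ₂ τ₄ θ : ℝ} (hs : 0 ≤ s) (hM : 0 ≤ M) (hr : 0 ≤ r)
    (hr4 : 0 ≤ r4) (h : 0 ≤ τ) (h1 : 0 ≤ τ₁) (h2 : 0 ≤ τ₂) (h4 : 0 ≤ τ₄) (hθ : 0 ≤ θ) :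
    0 ≤ eN s M r r4 τ τ₁ τ₂ τ₄ θ := by
  unfold eN; positivity

theorem aD_nonneg {s M r r4 : ℝ} (hs : 0 ≤ s) (hM : 0 ≤ M) (hr : 0 ≤ r)
    (hr4 : 0 ≤ r4) : 0 ≤ aD s M r r4 := by
  unfold aD; positivity

theorem aN_nonneg {s M r r4 : ℝ} (hs : 0 ≤ s) (hM : 0 ≤ M) (hr : 0 ≤ r)
    (hr4 : 0 ≤ r4) : 0 ≤ aN s M r r4 := by
  unfold aN; positivity

/-- Existence of the number of windows. -/
theorem exists_K {s L : ℝ} (hs : 0 < s) (hL : 2 * s ≤ L) :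
    ∃ K : ℕ, s * (K + 1) ≤ L / 2 ∧ L / 2 ≤ s * (K + 2) := by
  have h1 : 1 ≤ L / (2 * s) := by rw [le_div_iff₀ (by positivity)]; linarith
  have h2 : 1 ≤ ⌊L / (2 * s)⌋₊ := Nat.le_floor (by simpa using h1)
  refine ⟨⌊L / (2 * s)⌋₊ - 1, ?_, ?_⟩
  · have h3 : ((⌊L / (2 * s)⌋₊ - 1 : ℕ) : ℝ) + 1 = (⌊L / (2 * s)⌋₊ : ℝ) := by
      rw [Nat.cast_sub h2]; simp
    rw [h3]
    have h4 : (⌊L / (2 * s)⌋₊ : ℝ) ≤ L / (2 * s) := Nat.floor_le (by positivity)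
    calc s * (⌊L / (2 * s)⌋₊ : ℝ) ≤ s * (L / (2 * s)) := mul_le_mul_of_nonneg_left h4 hs.le
      _ = L / 2 := by field_simp
  · have h3 : ((⌊L / (2 * s)⌋₊ - 1 : ℕ) : ℝ) + 2 = (⌊L / (2 * s)⌋₊ : ℝ) + 1 := by
      rw [Nat.cast_sub h2]; push_cast; ring
    rw [h3]
    have h4 : L / (2 * s) ≤ (⌊L / (2 * s)⌋₊ : ℝ) + 1 := (Nat.lt_floor_add_one _).le
    calc L / 2 = s * (L / (2 * s)) := by field_simp
      _ ≤ s * ((⌊L / (2 * s)⌋₊ : ℝ) + 1) := mul_le_mul_of_nonneg_left h4 hs.le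

/-- The numbers at the end. `n` norm, `NS` strip, `E` energy. -/
theorem step2 {b Val ρ ε δ L N n NS E C'' c₁ C₄ s : ℝ} (hb : 0 < b) (hρ : 0 < ρ) (hε : 0 < ε)
    (hL : 0 < L) (hn : 0 ≤ n) (hNS : 0 ≤ NS) (hC'' : 0 < C'') (hc₁ : 0 < c₁)
    (hN : 0 ≤ N)
    (hδ : |N / L ^ 3 - ρ| ≤ δ) (hδ1 : δ ≤ ρ) (hδ2 : b * ρ ^ 2 * δ ≤ ε / 8 * ρ ^ 4)
    (hV : |Val| * ρ ≤ b)
    (hρ1 : C'' * ρ ^ 2 ≤ c₁) (hρ2 : C'' * ρ ^ 2 * (2 * b * ρ ^ 3) ≤ c₁ * (ε / 8 * ρ ^ 4))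
    (hL2 : C'' * ρ ^ 2 * (C₄ * s) ≤ c₁ * (ε / 8 * ρ ^ 4) * L)
    (h1 : ((b * ρ ^ 2 / 2 + Val * ρ ^ 3 / 6) * N - (b * ρ ^ 3 / 3 + Val * ρ ^ 4 / 8) * L ^ 3
        - ε / 8 * ρ ^ 4 * L ^ 3 - 27 * (ε / 432) * ρ ^ 3 * N) * n - C'' * ρ ^ 2 * NS ≤ E)
    (h2 : c₁ * NS - C₄ * s * L ^ 2 * n ≤ E) :
    L ^ 3 * (b * ρ ^ 3 / 6 + Val * ρ ^ 4 / 24 - ε * ρ ^ 4) * n ≤ E := by
  have hL3 : 0 < L ^ 3 := by positivity
  obtain ⟨hd1, hd2⟩ := abs_le.1 hδ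
  have hN1 : (ρ - δ) * L ^ 3 ≤ N := by
    have : ρ - δ ≤ N / L ^ 3 := by linarith
    rwa [le_div_iff₀ hL3] at this
  have hN2 : N ≤ 2 * ρ * L ^ 3 := by
    have : N / L ^ 3 ≤ 2 * ρ := by linarith
    rwa [div_le_iff₀ hL3] at this
  obtain ⟨hV1, hV2⟩ := abs_le.1 (show |Val * ρ| ≤ b by rwa [abs_mul, abs_of_pos hρ])
  set μ₁ := b * ρ ^ 2 / 2 + Val * ρ ^ 3 / 6 with hμ₁
  set κ₀ := b * ρ ^ 3 / 3 + Val * ρ ^ 4 / 8 with hκ₀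
  have hμ0 : 0 ≤ μ₁ := by
    have : μ₁ = ρ ^ 2 * (b / 2 + Val * ρ / 6) := by rw [hμ₁]; ring
    rw [this]; exact mul_nonneg (by positivity) (by linarith)
  have hμ1 : μ₁ ≤ b * ρ ^ 2 := by
    have : b * ρ ^ 2 - μ₁ = ρ ^ 2 * (b / 2 - Val * ρ / 6) := by rw [hμ₁]; ring
    have h : 0 ≤ ρ ^ 2 * (b / 2 - Val * ρ / 6) := mul_nonneg (by positivity) (by linarith)
    linarith
  have hκ : 0 ≤ κ₀ := by
    have : κ₀ = ρ ^ 3 * (b / 3 + Val * ρ / 8) := by rw [hκ₀]; ring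
    rw [this]; exact mul_nonneg (by positivity) (by linarith)
  set A := μ₁ * N - κ₀ * L ^ 3 - ε / 8 * ρ ^ 4 * L ^ 3 - 27 * (ε / 432) * ρ ^ 3 * N with hA
  have hAle : A ≤ 2 * b * ρ ^ 3 * L ^ 3 := by
    have q1 : μ₁ * N ≤ b * ρ ^ 2 * (2 * ρ * L ^ 3) := mul_le_mul hμ1 hN2 hN (by positivity)
    have q2 : 0 ≤ κ₀ * L ^ 3 := by positivity
    have q3 : 0 ≤ ε / 8 * ρ ^ 4 * L ^ 3 := by positivity
    have q4 : 0 ≤ 27 * (ε / 432) * ρ ^ 3 * N := by positivity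
    have q5 : b * ρ ^ 2 * (2 * ρ * L ^ 3) = 2 * b * ρ ^ 3 * L ^ 3 := by ring
    linarith
  have hAge : L ^ 3 * (b * ρ ^ 3 / 6 + Val * ρ ^ 4 / 24 - ε / 8 * ρ ^ 4 - ε / 8 * ρ ^ 4
      - ε / 8 * ρ ^ 4) ≤ A := by
    have q1 : μ₁ * ((ρ - δ) * L ^ 3) ≤ μ₁ * N := mul_le_mul_of_nonneg_left hN1 hμ0
    have q2 : μ₁ * δ ≤ ε / 8 * ρ ^ 4 :=
      (mul_le_mul_of_nonneg_right hμ1 ((abs_nonneg _).trans hδ)).trans hδ2
    have q3 : μ₁ * δ * L ^ 3 ≤ ε / 8 * ρ ^ 4 * L ^ 3 := mul_le_mul_of_nonneg_right q2 hL3.le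
    have q4 : 27 * (ε / 432) * ρ ^ 3 * N ≤ 27 * (ε / 432) * ρ ^ 3 * (2 * ρ * L ^ 3) :=
      mul_le_mul_of_nonneg_left hN2 (by positivity)
    have q5 : 27 * (ε / 432) * ρ ^ 3 * (2 * ρ * L ^ 3) = ε / 8 * ρ ^ 4 * L ^ 3 := by ring
    have q6 : μ₁ * ((ρ - δ) * L ^ 3) - κ₀ * L ^ 3
        = L ^ 3 * (b * ρ ^ 3 / 6 + Val * ρ ^ 4 / 24) - μ₁ * δ * L ^ 3 := by
      rw [hμ₁, hκ₀]; ring
    linarith
  -- interpolation
  set e := C'' * ρ ^ 2 / c₁ with he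
  have he0 : 0 ≤ e := by positivity
  have he1 : e ≤ 1 := by rw [he, div_le_one hc₁]; exact hρ1
  have hec : e * c₁ = C'' * ρ ^ 2 := by rw [he]; field_simp
  have he2 : e * (2 * b * ρ ^ 3) ≤ ε / 8 * ρ ^ 4 := by
    rw [he, div_mul_eq_mul_div, div_le_iff₀ hc₁]; linarith
  have he3 : e * (C₄ * s) ≤ ε / 8 * ρ ^ 4 * L := by
    rw [he, div_mul_eq_mul_div, div_le_iff₀ hc₁]; linarith
  have k1 := mul_le_mul_of_nonneg_left h1 (sub_nonneg.2 he1)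
  have k2 := mul_le_mul_of_nonneg_left h2 he0
  have k3 : e * (2 * b * ρ ^ 3) * (L ^ 3 * n) ≤ ε / 8 * ρ ^ 4 * (L ^ 3 * n) :=
    mul_le_mul_of_nonneg_right he2 (by positivity)
  have k4 : e * (C₄ * s) * (L ^ 2 * n) ≤ ε / 8 * ρ ^ 4 * L * (L ^ 2 * n) :=
    mul_le_mul_of_nonneg_right he3 (by positivity)
  have k5 : e * (A * n) ≤ e * (2 * b * ρ ^ 3 * L ^ 3 * n) :=
    mul_le_mul_of_nonneg_left (mul_le_mul_of_nonneg_right hAle hn) he0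
  have k6 := mul_le_mul_of_nonneg_right hAge hn
  have k7 : 0 ≤ e * (C'' * ρ ^ 2 * NS) := by positivity
  have k8 : 0 ≤ ε * ρ ^ 4 * L ^ 3 * n := by positivity
  have k9 : e * (c₁ * NS) = C'' * ρ ^ 2 * NS := by rw [← mul_assoc, hec]
  have i1 : (1 - e) * (A * n - C'' * ρ ^ 2 * NS)
      = A * n - C'' * ρ ^ 2 * NS - e * (A * n) + e * (C'' * ρ ^ 2 * NS) := by ring
  have i2 : e * (c₁ * NS - C₄ * s * L ^ 2 * n) = e * (c₁ * NS) - e * (C₄ * s) * (L ^ 2 * n) := by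
    ring
  have i3 : e * (2 * b * ρ ^ 3 * L ^ 3 * n) = e * (2 * b * ρ ^ 3) * (L ^ 3 * n) := by ring
  have i4 : ε / 8 * ρ ^ 4 * L * (L ^ 2 * n) = ε / 8 * ρ ^ 4 * (L ^ 3 * n) := by ring
  have i5 : L ^ 3 * (b * ρ ^ 3 / 6 + Val * ρ ^ 4 / 24 - ε / 8 * ρ ^ 4 - ε / 8 * ρ ^ 4
      - ε / 8 * ρ ^ 4) * n = L ^ 3 * (b * ρ ^ 3 / 6 + Val * ρ ^ 4 / 24 - ε * ρ ^ 4) * n
      + 5 / 8 * (ε * ρ ^ 4 * L ^ 3 * n) := by ring
  have i6 : ε / 8 * ρ ^ 4 * (L ^ 3 * n) = 1 / 8 * (ε * ρ ^ 4 * L ^ 3 * n) := by ring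
  have i7 : (1 - e) * E + e * E = E := by ring
  clear_value A e μ₁ κ₀
  rw [i1] at k1
  rw [i2, k9] at k2
  rw [i3] at k5
  rw [i4, i6] at k4
  rw [i6] at k3
  rw [i5] at k6
  linarith

end FinalAux

theorem FinalAux.box_meas (L : ℝ) (N : ℕ) : MeasurableSet (box L N) := by
  have : box L N = ⋂ i : Fin N, ⋂ a : Fin 3, {x : Fin N → R3 | |x i a| ≤ L / 2} := by
    ext x; simp [box]
  rw [this]
  refine MeasurableSet.iInter fun i => MeasurableSet.iInter fun a => ?_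
  exact measurableSet_le
    (((measurable_pi_apply a).comp (measurable_pi_apply i)).abs) measurable_const

theorem FinalAux.energy_congr (V : R3 → R3 → ℝ) (L : ℝ) {N : ℕ} (Ψ Ψ' : (Fin N → R3) → ℝ)
    (h : ∀ x ∈ box L N, Ψ' x = Ψ x ∧ ∀ i a, pd Ψ' i a x = pd Ψ i a x) :
    energy V L Ψ' = energy V L Ψ ∧ ∫ x in box L N, Ψ' x ^ 2 = ∫ x in box L N, Ψ x ^ 2 := by
  constructor
  · unfold energy
    refine setIntegral_congr_fun (box_meas L N) fun x hx => ?_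
    obtain ⟨h1, h2⟩ := h x hx
    simp only [h1, h2]
  · refine setIntegral_congr_fun (box_meas L N) fun x hx => ?_
    simp only [(h x hx).1]

/-- The lower bound for a compactly supported function with the chosen parameters. -/
theorem FinalAux.core (hI : S_Ineq) (hG : S_Gap) (hM : S_Mains) (hWd : S_WdWin)
    (K R b : ℝ) : ∃ C : ℝ, 1 ≤ C ∧
    ∀ (V : R3 → R3 → ℝ) (r r4 W QQ Val : ℝ) (c : Cor) (_ : c.OK V b K R r r4 W QQ) (p : Par)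
    (_ : p.OK) (_ : p.Large r4) (Ψ : (Fin p.N → R3) → ℝ) (_ : ContDiff ℝ 1 Ψ)
    (_ : HasCompactSupport Ψ) (τ τ₁ τ₂ τ₄ θ : ℝ) (_ : 0 < τ) (_ : τ ≤ 1) (_ : 0 < τ₁) (_ : 0 < τ₂)
    (_ : 0 < τ₄) (_ : 0 < θ) (_ : Val ≤ 2 * W - QQ) (ε₃ A B : ℝ) (_ : 0 ≤ ε₃)
    (_ : C * aD p.s p.M r r4 ≤ 1 / 2)
    (_ : 2 * C * p.s ^ 2 * (C * eD p.s p.M r r4 τ τ₁ τ₂ τ₄ θ) ≤ 1 / 2)
    (_ : C * eN p.s p.M r r4 τ τ₁ τ₂ τ₄ θ
      + 2 * C * aN p.s p.M r r4 * (C * eD p.s p.M r r4 τ τ₁ τ₂ τ₄ θ) ≤ ε₃)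
    (_ : ∀ x : Fin p.N → R3, A - B * (cnt p.strip univ x : ℝ)
      ≤ ∑ a ∈ p.win, p.s ^ 3 * (b * (lam3 p.M (cnt (Bc p.s a) univ x - 3) * esy (p.gd a) 3 x)
          + Val * (lam4 p.M (cnt (Bc p.s a) univ x - 4) * esy (p.gd a) 4 x))
        - C * τ⁻¹ * p.mu ^ 3 * ∑ a ∈ p.win,
          (if p.M < cnt (Bc p.s a) univ x then (cnt (Bc p.s a) univ x : ℝ) else 0)),
    (A - 27 * ε₃ * p.N) * p.nrm Ψ - (B + C * p.mu ^ 3) * p.NS Ψ ≤ energy V p.L Ψ := by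
  obtain ⟨C1, hC1, hI⟩ := hI K R b
  obtain ⟨C2, hC2, hG⟩ := hG K R
  obtain ⟨C3, hC3, hM⟩ := hM
  refine ⟨max C1 C2, le_max_of_le_left hC1, ?_⟩
  intro V r r4 W QQ Val c hc p hp hL Ψ hΨ1 hΨ2 τ τ₁ τ₂ τ₄ θ hτ hτ1 hτ₁ hτ₂ hτ₄ hθ hVal ε₃ A B hε₃
    h1 h2 h3 hx
  have hΨc : Continuous Ψ := hΨ1.continuous
  have hΨ : BM Ψ := by
    refine ⟨hΨc.measurable, ?_⟩
    obtain ⟨M, hM⟩ := hΨc.bounded_above_of_compact_support hΨ2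
    exact ⟨M, fun y => by simpa using hM y⟩
  have hI' := hI V r r4 W QQ c hc p hp hL Ψ hΨ1 hΨ2 τ τ₁ τ₂ τ₄ θ hτ hτ1 hτ₁ hτ₂ hτ₄ hθ
  have hG' := hG V b r r4 W QQ c hc p hp hL Ψ hΨ1 hΨ2
  obtain ⟨m1, m2, m3, m4, m5, m6, m7, m8, m9, m10, m11, m12, m13⟩ := hM p hp Ψ hΨ
  have hs : 0 ≤ p.s := zero_le_one.trans hp.hs
  have hM0 : 0 ≤ p.M := by linarith [hp.hM]
  have hr : 0 ≤ r := zero_le_one.trans hc.hr
  have hr4 : 0 ≤ r4 := hr.trans hc.hr4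
  have hC : 1 ≤ max C1 C2 := le_max_of_le_left hC1
  have hC0 : 0 ≤ max C1 C2 := zero_le_one.trans hC
  have heD := eD_nonneg hs hM0 hr hr4 hτ.le hτ₁.le hτ₂.le hτ₄.le hθ.le
  have heN := eN_nonneg hs hM0 hr hr4 hτ.le hτ₁.le hτ₂.le hτ₄.le hθ.le
  have haD := aD_nonneg hs hM0 hr hr4
  have haN := aN_nonneg hs hM0 hr hr4
  have hmu : 0 ≤ p.mu := div_nonneg hM0 (by positivity)
  have hRR : 0 ≤ p.RR c Ψ := by
    unfold Par.RR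
    exact integral_nonneg fun x => Finset.sum_nonneg fun i _ => Finset.sum_nonneg fun a _ =>
      sq_nonneg _
  have hn : 0 ≤ p.nrm Ψ := integral_nonneg fun x => sq_nonneg _
  have hgap : p.D Ψ ≤ max C1 C2 * (p.s ^ 2 * p.RR c Ψ + aN p.s p.M r r4 * p.Nn Ψ
      + aD p.s p.M r r4 * p.D Ψ) := by
    have e : p.s ^ 2 * p.RR c Ψ
      + (p.s ^ 2 * (p.mu ^ 3 + r4 ^ 2 * p.mu ^ 6 + r4 ^ 2 * p.mu ^ 5 + r4 * p.mu ^ 4)
        + p.mu ^ 2 + r ^ 2 * p.mu ^ 3 + r ^ 4 * p.mu ^ 4) * p.Nn Ψ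
      + (p.s ^ 2 * (r4 * p.mu ^ 4 * p.M ^ 2) + r ^ 2 * p.mu ^ 3 * p.M) * p.D Ψ
      = p.s ^ 2 * p.RR c Ψ + aN p.s p.M r r4 * p.Nn Ψ + aD p.s p.M r r4 * p.D Ψ := by
      unfold aN aD Par.mu; ring
    rw [e] at hG'
    exact hG'.trans (mul_le_mul_of_nonneg_right (le_max_right _ _) (by positivity))
  have hT4 : 0 ≤ p.T4 Ψ := m2.trans m9
  have hVT : Val * p.T4 Ψ ≤ (2 * W - QQ) * p.T4 Ψ := mul_le_mul_of_nonneg_right hVal hT4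
  set C := max C1 C2 with hCdef
  have hC1C : C1 ≤ C := le_max_left _ _
  have j1 : C1 * eD p.s p.M r r4 τ τ₁ τ₂ τ₄ θ * p.D Ψ ≤ C * eD p.s p.M r r4 τ τ₁ τ₂ τ₄ θ * p.D Ψ :=
    mul_le_mul_of_nonneg_right (mul_le_mul_of_nonneg_right hC1C heD) m3
  have j2 : C1 * eN p.s p.M r r4 τ τ₁ τ₂ τ₄ θ * p.Nn Ψ
      ≤ C * eN p.s p.M r r4 τ τ₁ τ₂ τ₄ θ * p.Nn Ψ :=
    mul_le_mul_of_nonneg_right (mul_le_mul_of_nonneg_right hC1C heN) m4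
  have j3 : C1 * τ⁻¹ * p.mu ^ 3 * p.ND Ψ ≤ C * τ⁻¹ * p.mu ^ 3 * p.ND Ψ := by
    apply mul_le_mul_of_nonneg_right _ m5
    apply mul_le_mul_of_nonneg_right _ (by positivity)
    exact mul_le_mul_of_nonneg_right hC1C (by positivity)
  have j4 : C1 * p.mu ^ 3 * p.NS Ψ ≤ C * p.mu ^ 3 * p.NS Ψ := by
    apply mul_le_mul_of_nonneg_right _ m6
    exact mul_le_mul_of_nonneg_right hC1C (by positivity)
  have hfin := step1 (X := b * p.T3 Ψ + Val * p.T4 Ψ) (Y := C * τ⁻¹ * p.mu ^ 3 * p.ND Ψ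
      + C * p.mu ^ 3 * p.NS Ψ) (E := energy V p.L Ψ) hC hRR m3 m4 heD haN hgap h1 h2 h3
      (by linarith)
  have hmain := main_int hWd p hp Ψ hΨ b Val (C * τ⁻¹ * p.mu ^ 3) A B hx (strip_meas p)
  have j5 : ε₃ * p.Nn Ψ ≤ ε₃ * (27 * p.N * p.nrm Ψ) := mul_le_mul_of_nonneg_left m13 hε₃
  have j6 : (A - 27 * ε₃ * p.N) * p.nrm Ψ - (B + C * p.mu ^ 3) * p.NS Ψ
      = A * p.nrm Ψ - B * p.NS Ψ - ε₃ * (27 * p.N * p.nrm Ψ) - C * p.mu ^ 3 * p.NS Ψ := by ring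
  rw [j6]
  linarith

theorem Final (hI : S_Ineq) (hA : S_Asy) (hPt : S_Pt) (hG : S_Gap) (hCr : S_Crude)
    (hCut : S_CutRed) (hE : S_EnInt) (hM : S_Mains) (hWd : S_WdWin) : S_Lower := by
  intro V hV hbM Val K R r₀ hdata ε hε
  obtain ⟨c₁, C₄, hc₁, hC₄, hCr⟩ := hCr V hV hbM
  generalize bM V = b at hbM hdata ⊢
  obtain ⟨C, hC, hcore⟩ := FinalAux.core hI hG hM hWd K R b
  obtain ⟨C₀, hC₀, hPt⟩ := hPt
  obtain ⟨τ, hτ, hτ1, hA⟩ := hA C₀ C (ε / 432) hC₀ hC (by positivity)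
  have hC0 : 0 < C := by linarith
  have hC₀0 : 0 < C₀ := by linarith
  obtain ⟨X, C', hX, hC', hPt⟩ := hPt b Val (ε / 8) (C * τ⁻¹) hbM (by positivity)
    (by positivity)
  obtain ⟨t₀, ht₀, ht₀1, hA⟩ := hA (max X r₀)
  set C'' := C' + C * C₀ ^ 3 with hC''
  have hC''0 : 0 < C'' := by positivity
  refine ⟨min (t₀ ^ 100) (min (b / (|Val| + 1)) (min 1 (min (c₁ / C'')
    (c₁ * ε / (16 * b * C''))))), by positivity, ?_⟩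
  intro ρ hρ hρlt
  simp only [lt_min_iff] at hρlt
  obtain ⟨hρa, hρb, hρ1, hρc, hρd⟩ := hρlt
  obtain ⟨t, ht, htρ⟩ : ∃ t : ℝ, 0 < t ∧ t ^ 100 = ρ := by
    refine ⟨ρ ^ ((100 : ℕ) : ℝ)⁻¹, Real.rpow_pos_of_pos hρ _, ?_⟩
    exact Real.rpow_inv_natCast_pow hρ.le (by norm_num)
  have htt : t < t₀ := by
    by_contra hcon
    push Not at hcon
    have : t₀ ^ 100 ≤ t ^ 100 := pow_le_pow_left₀ ht₀.le hcon 100
    linarith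
  obtain ⟨s, hs⟩ : ∃ s : ℝ, s = t⁻¹ ^ 68 := ⟨_, rfl⟩
  obtain ⟨r, hr⟩ : ∃ r : ℝ, r = t⁻¹ ^ 47 := ⟨_, rfl⟩
  obtain ⟨r4, hr4⟩ : ∃ r4 : ℝ, r4 = t⁻¹ ^ 52 := ⟨_, rfl⟩
  obtain ⟨M, hMdef⟩ : ∃ M : ℝ, M = C₀ * ρ * s ^ 3 := ⟨_, rfl⟩
  obtain ⟨q1, q2, q3, q4, q5, q6, q7, q8, q9, q10⟩ := hA t ht htt ρ s r r4 M (t⁻¹ ^ 82) (t ^ 138)
    (t ^ 452) (t ^ 96) htρ.symm hs hr hr4 hMdef rfl rfl rfl rfl
  have hs0 : 0 < s := by linarith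
  have hr0 : 0 < r := by rw [hr]; positivity
  have hr40 : 0 < r4 := by rw [hr4]; positivity
  refine ⟨min ρ (ε * ρ ^ 2 / (8 * b)), max (2 * s) (max C₄ (C'' * ρ ^ 2 * (C₄ * s) /
    (c₁ * (ε / 8 * ρ ^ 4)))), by positivity, by positivity, ?_⟩
  intro L hL N hN Ψ hΨ
  simp only [max_le_iff] at hL
  obtain ⟨hL1, hL2, hL3⟩ := hL
  have hL0 : 0 < L := by linarith
  obtain ⟨Kw, hK1, hK2⟩ := FinalAux.exists_K hs0 hL1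
  obtain ⟨c, W, QQ, hc, hVal⟩ := hdata r ((le_max_right _ _).trans q4) r4 q5
  obtain ⟨Ψ', hΨ1, hΨ2, hΨ3⟩ := hCut L Ψ hΨ
  obtain ⟨he1, he2⟩ := FinalAux.energy_congr V L Ψ Ψ' hΨ3
  rw [← he1, ← he2]
  let p : Par := ⟨N, Kw, L, s, 100 * r4 / s, M⟩
  have hp : p.OK := by
    refine ⟨q6, ?_, q8, hK1, hK2, q7⟩
    show 0 < 100 * r4 / s
    positivity
  have hLarge : p.Large r4 := by
    show 100 * r4 ≤ 100 * r4 / s * s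
    rw [div_mul_cancel₀ _ hs0.ne']
  have hmu : p.mu = C₀ * ρ := by
    show M / s ^ 3 = C₀ * ρ
    rw [hMdef]; field_simp
  obtain ⟨-, -, hnrm⟩ := hE V hV p Ψ'
  have hnrm' : ∫ x in box L N, Ψ' x ^ 2 = p.nrm Ψ' := hnrm
  rw [hnrm']
  have hX1 : ρ ≤ 1 / X := by
    refine q9.trans ?_
    apply one_div_le_one_div_of_le (by linarith)
    have : X ≤ |max X r₀| := (le_max_left _ _).trans (le_abs_self _)
    linarith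
  have hpt := hPt ρ hρ hX1 p hp hMdef ((le_max_left _ _).trans q10)
  have h1 := hcore V r r4 W QQ Val c hc p hp hLarge Ψ' hΨ1 hΨ2 τ (t⁻¹ ^ 82) (t ^ 138) (t ^ 452)
    (t ^ 96) hτ hτ1 (by positivity) (by positivity) (by positivity) (by positivity) hVal
    (ε / 432 * ρ ^ 3) _ (C' * ρ ^ 2) (by positivity) q1 q2 q3 hpt
  have h2 := hCr p hp hL2 Ψ' hΨ1 hΨ2
  have hn : 0 ≤ p.nrm Ψ' := integral_nonneg fun x => sq_nonneg _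
  have hNS : 0 ≤ p.NS Ψ' := integral_nonneg fun x => by positivity
  have hδ1 : |(N : ℝ) / L ^ 3 - ρ| ≤ ρ ∧ |(N : ℝ) / L ^ 3 - ρ| ≤ ε * ρ ^ 2 / (8 * b) :=
    le_min_iff.1 hN
  refine FinalAux.step2 (N := N) (s := s) (NS := p.NS Ψ') (C'' := C'') (c₁ := c₁) (C₄ := C₄)
    (δ := min ρ (ε * ρ ^ 2 / (8 * b))) hbM hρ hε hL0 hn hNS hC''0 hc₁ (Nat.cast_nonneg N) hN
    (min_le_left _ _) ?_ ?_ ?_ ?_ ?_ ?_ h2
  · calc b * ρ ^ 2 * min ρ (ε * ρ ^ 2 / (8 * b)) ≤ b * ρ ^ 2 * (ε * ρ ^ 2 / (8 * b)) :=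
        mul_le_mul_of_nonneg_left (min_le_right _ _) (by positivity)
      _ = ε / 8 * ρ ^ 4 := by field_simp
  · have : ρ * (|Val| + 1) ≤ b := by
      rw [← le_div_iff₀ (by positivity)]; exact hρb.le
    have h3 : ρ * (|Val| + 1) = |Val| * ρ + ρ := by ring
    linarith
  · have : ρ * C'' ≤ c₁ := by
      rw [← le_div_iff₀ hC''0]; exact hρc.le
    have h3 : ρ ^ 2 ≤ ρ := by
      calc ρ ^ 2 = ρ * ρ := by ring
        _ ≤ ρ * 1 := mul_le_mul_of_nonneg_left hρ1.le hρ.le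
        _ = ρ := by ring
    calc C'' * ρ ^ 2 ≤ C'' * ρ := mul_le_mul_of_nonneg_left h3 hC''0.le
      _ = ρ * C'' := by ring
      _ ≤ c₁ := this
  · have : ρ * (16 * b * C'') ≤ c₁ * ε := by
      rw [← le_div_iff₀ (by positivity)]; exact hρd.le
    have h3 : C'' * ρ ^ 2 * (2 * b * ρ ^ 3) = ρ * (16 * b * C'') * (ρ ^ 4 / 8) := by ring
    have h4 : c₁ * (ε / 8 * ρ ^ 4) = c₁ * ε * (ρ ^ 4 / 8) := by ring
    rw [h3, h4]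
    exact mul_le_mul_of_nonneg_right this (by positivity)
  · rw [div_le_iff₀ (by positivity)] at hL3
    linarith
  · have h3 : (C' * ρ ^ 2 + C * p.mu ^ 3) * p.NS Ψ' ≤ C'' * ρ ^ 2 * p.NS Ψ' := by
      apply mul_le_mul_of_nonneg_right _ hNS
      rw [hmu, hC'']
      have : C * (C₀ * ρ) ^ 3 = C * C₀ ^ 3 * ρ ^ 2 * ρ := by ring
      rw [this]
      have h5 : C * C₀ ^ 3 * ρ ^ 2 * ρ ≤ C * C₀ ^ 3 * ρ ^ 2 * 1 :=
        mul_le_mul_of_nonneg_left hρ1.le (by positivity)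
      linarith
    have h4 : ((b * ρ ^ 2 / 2 + Val * ρ ^ 3 / 6) * (N : ℝ) - (b * ρ ^ 3 / 3 + Val * ρ ^ 4 / 8)
        * L ^ 3 - ε / 8 * ρ ^ 4 * L ^ 3 - 27 * (ε / 432) * ρ ^ 3 * N) * p.nrm Ψ'
        = ((b * ρ ^ 2 / 2 + Val * ρ ^ 3 / 6) * (p.N : ℝ) - (b * ρ ^ 3 / 3 + Val * ρ ^ 4 / 8)
        * p.L ^ 3 - ε / 8 * ρ ^ 4 * p.L ^ 3 - 27 * (ε / 432 * ρ ^ 3) * p.N) * p.nrm Ψ' := by
      show _ = ((b * ρ ^ 2 / 2 + Val * ρ ^ 3 / 6) * (N : ℝ) - (b * ρ ^ 3 / 3 + Val * ρ ^ 4 / 8)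
        * L ^ 3 - ε / 8 * ρ ^ 4 * L ^ 3 - 27 * (ε / 432 * ρ ^ 3) * N) * p.nrm Ψ'
      ring
    rw [h4]
    refine le_trans ?_ h1
    linarith

end Pool.Agent.Lib.MP_5db8e2_mp
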