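import Pool.Agent.Lib.MP_5db8e2_mp.LB.Spec7

/-!
# Lower bound: the `L²` norm of the four-body field (`GQb`)
-/

set_option autoImplicit false

open MeasureTheory Function Finset
open scoped Classical

namespace Pool.Agent.Lib.MP_5db8e2_mp

namespace GQbaux

theorem cnt_mono {N : ℕ} {Q B : Set R3} (h : Q ⊆ B) (S : Finset (Fin N)) (x : Fin N → R3) :
    cnt Q S x ≤ cnt B S x := by
  apply Finset.card_le_card
  intro i hi
  simp only [Finset.mem_filter] at hi ⊢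
  exact ⟨hi.1, h hi.2⟩

theorem dt_self_nonneg {N : ℕ} (u : Fin N → Fin 3 → ℝ) : 0 ≤ dt u u :=
  Finset.sum_nonneg fun _ _ => Finset.sum_nonneg fun _ _ => mul_self_nonneg _

theorem dt_self_le {N : ℕ} (u : Fin N → Fin 3 → ℝ) (A : Finset (Fin N)) (B : ℝ)
    (hB : ∀ i a, |u i a| ≤ B) (hs : ∀ i a, u i a ≠ 0 → i ∈ A) :
    dt u u ≤ A.card * (3 * B ^ 2) := by
  have h0 : dt u u = ∑ i ∈ A, ∑ a, u i a * u i a := by
    unfold dt
    symm
    apply Finset.sum_subset (Finset.subset_univ A)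
    intro i _ hi
    apply Finset.sum_eq_zero
    intro a _
    have : u i a = 0 := by
      by_contra h
      exact hi (hs i a h)
    rw [this, mul_zero]
  rw [h0]
  calc ∑ i ∈ A, ∑ a, u i a * u i a ≤ ∑ i ∈ A, ∑ _a : Fin 3, B ^ 2 := by
        apply Finset.sum_le_sum
        intro i _
        apply Finset.sum_le_sum
        intro a _
        have h1 := hB i a
        have h2 : u i a * u i a = |u i a| ^ 2 := by rw [sq_abs, sq]
        rw [h2]
        exact pow_le_pow_left₀ (abs_nonneg _) h1 2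
    _ = A.card * (3 * B ^ 2) := by simp

theorem dt_zero {N : ℕ} (u v : Fin N → Fin 3 → ℝ) (A B : Finset (Fin N))
    (hu : ∀ i a, u i a ≠ 0 → i ∈ A) (hv : ∀ i a, v i a ≠ 0 → i ∈ B) (h : (A ∩ B).card = 0) :
    dt u v = 0 := by
  apply Finset.sum_eq_zero
  intro i _
  apply Finset.sum_eq_zero
  intro a _
  by_contra hne
  have h1 := hu i a (left_ne_zero_of_mul hne)
  have h2 := hv i a (right_ne_zero_of_mul hne)
  have h3 : i ∈ A ∩ B := Finset.mem_inter.2 ⟨h1, h2⟩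
  rw [Finset.card_eq_zero] at h
  rw [h] at h3
  simp at h3

theorem th_le_ind (hW : S_WinFacts) (p : Par) (hp : p.OK) (a : Fin 3 → ℤ) (c : R3) :
    th p.s p.e a c ≤ ind (p.Qin a) c := by
  obtain ⟨C, hC, hW⟩ := hW
  obtain ⟨-, h1, h2, -⟩ := hW p.s p.e hp.hs hp.he hp.he' a
  by_cases h : th p.s p.e a c = 0
  · rw [h]
    exact ind_nonneg _ _
  · rw [ind_of_mem (show c ∈ p.Qin a from h2 c h)]
    exact (h1 c).2

theorem Qc_sub_Bc (p : Par) (hp : p.OK) (a : Fin 3 → ℤ) : Qc p.s a ⊆ Bc p.s a := by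
  intro c hc k
  have := hc k
  have := hp.hs
  linarith

theorem v4_sq_le (hJ : S_Jensen) (hC : S_Counts) (hW : S_WinFacts) (p : Par) (hp : p.OK)
    (Ψ : (Fin p.N → R3) → ℝ) (A : Finset (Fin p.N)) (x : Fin p.N → R3) :
    p.v4 Ψ A x ^ 2 ≤ ∑ a ∈ p.win, ind (p.Qin a) (Par.cmA A x) *
      (lam4 p.M (cnt (Qc p.s a) Aᶜ x) * p.U a A Ψ x ^ 2) := by
  obtain ⟨C, -, hJ⟩ := hJ
  obtain ⟨-, -, h4, hanti, -⟩ := hC p.M hp.hM
  refine ((hJ p hp Ψ A (Par.cmA A x) x).2.1).trans ?_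
  apply Finset.sum_le_sum
  intro a _
  have h1 : (p.l4 a A x * p.U a A Ψ x) ^ 2 ≤
      lam4 p.M (cnt (Qc p.s a) Aᶜ x) * p.U a A Ψ x ^ 2 := by
    rw [mul_pow]
    unfold Par.l4
    rw [(h4 _).2.2]
    exact mul_le_mul_of_nonneg_right (hanti (cnt_mono (Qc_sub_Bc p hp a) _ _)) (sq_nonneg _)
  exact mul_le_mul (th_le_ind hW p hp a _) h1 (sq_nonneg _) (ind_nonneg _ _)

end GQbaux

open GQbaux in
/-- **GQb.** (`S_Kap` is used in addition to the listed hypotheses.) -/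
theorem GQb (hQ : S_QPb) (hD : S_DiagGlob) (hB : S_KerBd) (hJ : S_Jensen) (hC : S_Counts)
    (hW : S_WinFacts) (hBM : S_BMall) (hK : S_Kap) : S_GQb := by
  intro K R
  obtain ⟨Cq, hCq, hQ⟩ := hQ K R
  obtain ⟨Cd, hCd, hD⟩ := hD 4 (by norm_num) le_rfl
  obtain ⟨Cb, hCb, hB⟩ := hB K R
  obtain ⟨Ck, hCk, hK⟩ := hK
  refine ⟨12 * Cb ^ 2 * (Cd * Ck ^ 3 * 8) + Cq, by positivity, ?_⟩
  intro V b r r4 W QQ c hc p hp hL Ψ hΨ
  have hr4 : 1 ≤ r4 := hc.hr.trans hc.hr4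
  have hs0 : 0 < p.s := lt_of_lt_of_le one_pos hp.hs
  have hM0 : 0 < p.M := lt_of_lt_of_le (by norm_num) hp.hM
  have hmu : 0 ≤ p.mu := by unfold Par.mu; positivity
  have hker := hK p.nu Measure.restrict_le_self (8 / 3) (8 / 3) r4 r4 (by norm_num) le_rfl
    (by norm_num) le_rfl hr4 hr4
  have hbm := fun A => hBM V b K R r r4 W QQ c hc p hp Ψ hΨ A
  have hg : ∀ (A : Finset (Fin p.N)) i a, BM (gQ c.g A i a : (Fin p.N → R3) → ℝ) :=
    fun A => (hbm A).2.1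
  have hv : ∀ A : Finset (Fin p.N), BM (p.v4 Ψ A) :=
    fun A => (hbm A).2.2.2.2.2.2.2.2.2.2.2.2.2.2.1
  -- the products
  have hdt : ∀ A A' : Finset (Fin p.N), BM (fun x => dt (p.fQ c A x) (p.fQ c A' x)) := by
    intro A A'
    unfold dt Par.fQ
    exact BM.sum _ fun i _ => BM.sum _ fun a _ => (hg A i a).mul (hg A' i a)
  have hprod : ∀ A A' : Finset (Fin p.N),
      BM (fun x => dt (p.fQ c A x) (p.fQ c A' x) * (p.v4 Ψ A x * p.v4 Ψ A' x)) :=
    fun A A' => (hdt A A').mul ((hv A).mul (hv A'))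
  have hsupp : ∀ Q ∈ P4 p.N, ∀ x : Fin p.N → R3, ∀ j a, gQ c.g Q j a x ≠ 0 → j ∈ Q := by
    intro Q hQ4 x
    have hcard : Q.card = 4 := (mem_powersetCard.1 hQ4).2
    have hne : Q.Nonempty := by
      rw [← Finset.card_pos, hcard]; norm_num
    obtain ⟨i, hi⟩ := hne
    exact (hB V b r r4 W QQ c hc Q x i hi).2.2.2.2.2.2
  -- expansion
  have hexp : ∀ x : Fin p.N → R3, ∑ i, ∑ a, (∑ Q ∈ P4 p.N, gQ c.g Q i a x * p.v4 Ψ Q x) ^ 2 =
      ∑ Q ∈ P4 p.N, ∑ Q' ∈ P4 p.N,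
        dt (p.fQ c Q x) (p.fQ c Q' x) * (p.v4 Ψ Q x * p.v4 Ψ Q' x) := by
    intro x
    have h1 : ∀ i a, (∑ Q ∈ P4 p.N, gQ c.g Q i a x * p.v4 Ψ Q x) ^ 2 =
        ∑ Q ∈ P4 p.N, ∑ Q' ∈ P4 p.N,
          (gQ c.g Q i a x * gQ c.g Q' i a x) * (p.v4 Ψ Q x * p.v4 Ψ Q' x) := by
      intro i a
      rw [sq, Finset.sum_mul_sum]
      refine Finset.sum_congr rfl fun Q _ => Finset.sum_congr rfl fun Q' _ => ?_
      ring
    calc ∑ i, ∑ a, (∑ Q ∈ P4 p.N, gQ c.g Q i a x * p.v4 Ψ Q x) ^ 2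
        = ∑ i, ∑ a, ∑ Q ∈ P4 p.N, ∑ Q' ∈ P4 p.N,
          (gQ c.g Q i a x * gQ c.g Q' i a x) * (p.v4 Ψ Q x * p.v4 Ψ Q' x) := by
          refine Finset.sum_congr rfl fun i _ => Finset.sum_congr rfl fun a _ => h1 i a
      _ = ∑ i, ∑ Q ∈ P4 p.N, ∑ a, ∑ Q' ∈ P4 p.N,
          (gQ c.g Q i a x * gQ c.g Q' i a x) * (p.v4 Ψ Q x * p.v4 Ψ Q' x) := by
          refine Finset.sum_congr rfl fun i _ => Finset.sum_comm
      _ = ∑ Q ∈ P4 p.N, ∑ i, ∑ a, ∑ Q' ∈ P4 p.N,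
          (gQ c.g Q i a x * gQ c.g Q' i a x) * (p.v4 Ψ Q x * p.v4 Ψ Q' x) := Finset.sum_comm
      _ = ∑ Q ∈ P4 p.N, ∑ i, ∑ Q' ∈ P4 p.N, ∑ a,
          (gQ c.g Q i a x * gQ c.g Q' i a x) * (p.v4 Ψ Q x * p.v4 Ψ Q' x) := by
          refine Finset.sum_congr rfl fun Q _ => Finset.sum_congr rfl fun i _ => Finset.sum_comm
      _ = ∑ Q ∈ P4 p.N, ∑ Q' ∈ P4 p.N, ∑ i, ∑ a,
          (gQ c.g Q i a x * gQ c.g Q' i a x) * (p.v4 Ψ Q x * p.v4 Ψ Q' x) := by
          refine Finset.sum_congr rfl fun Q _ => Finset.sum_comm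
      _ = _ := by
          refine Finset.sum_congr rfl fun Q _ => Finset.sum_congr rfl fun Q' _ => ?_
          unfold dt Par.fQ
          rw [Finset.sum_mul]
          refine Finset.sum_congr rfl fun i _ => ?_
          rw [Finset.sum_mul]
  have hint : ∫ x, ∑ i, ∑ a, (∑ Q ∈ P4 p.N, gQ c.g Q i a x * p.v4 Ψ Q x) ^ 2 ∂pin p.nu p.N =
      ∑ Q ∈ P4 p.N, ∑ Q' ∈ P4 p.N,
        ∫ x, dt (p.fQ c Q x) (p.fQ c Q' x) * (p.v4 Ψ Q x * p.v4 Ψ Q' x) ∂pin p.nu p.N := by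
    simp only [hexp]
    rw [integral_finsetSum _ fun Q _ => (BM.sum _ fun Q' _ => hprod Q Q').integrable _]
    refine Finset.sum_congr rfl fun Q _ => ?_
    rw [integral_finsetSum _ fun Q' _ => (hprod Q Q').integrable _]
  have hsplit : ∑ Q ∈ P4 p.N, ∑ Q' ∈ P4 p.N,
        ∫ x, dt (p.fQ c Q x) (p.fQ c Q' x) * (p.v4 Ψ Q x * p.v4 Ψ Q' x) ∂pin p.nu p.N =
      ∑ Q ∈ P4 p.N, ∫ x, dt (p.fQ c Q x) (p.fQ c Q x) * (p.v4 Ψ Q x * p.v4 Ψ Q x) ∂pin p.nu p.N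
      + p.QP c Ψ := by
    unfold Par.QP
    rw [← Finset.sum_add_distrib]
    refine Finset.sum_congr rfl fun Q hQ4 => ?_
    have hd : ∫ x, dt (p.fQ c Q x) (p.fQ c Q x) * (p.v4 Ψ Q x * p.v4 Ψ Q x) ∂pin p.nu p.N =
        ∑ Q' ∈ P4 p.N, if Q' = Q then
          ∫ x, dt (p.fQ c Q x) (p.fQ c Q' x) * (p.v4 Ψ Q x * p.v4 Ψ Q' x) ∂pin p.nu p.N
          else 0 := by
      rw [Finset.sum_ite_eq' (P4 p.N) Q, if_pos hQ4]
    rw [hd, ← Finset.sum_add_distrib]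
    refine Finset.sum_congr rfl fun Q' hQ4' => ?_
    have c1 : Q.card = 4 := (mem_powersetCard.1 hQ4).2
    have c2 : Q'.card = 4 := (mem_powersetCard.1 hQ4').2
    have hle : (Q ∩ Q').card ≤ 4 := by
      rw [← c1]; exact Finset.card_le_card Finset.inter_subset_left
    by_cases hqq : Q' = Q
    · subst hqq
      rw [if_pos rfl, Finset.inter_self, if_neg (by omega), add_zero]
    · rw [if_neg hqq, zero_add]
      have hne4 : (Q ∩ Q').card ≠ 4 := by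
        intro h4
        apply hqq
        have e1 : Q ∩ Q' = Q := Finset.eq_of_subset_of_card_le Finset.inter_subset_left
          (by omega)
        have e2 : Q ∩ Q' = Q' := Finset.eq_of_subset_of_card_le Finset.inter_subset_right
          (by omega)
        rw [← e2, e1]
      by_cases h0 : (Q ∩ Q').card = 0
      · rw [if_neg (by omega)]
        have : ∀ x, dt (p.fQ c Q x) (p.fQ c Q' x) = 0 := fun x =>
          dt_zero _ _ Q Q' (hsupp Q hQ4 x) (hsupp Q' hQ4' x) h0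
        simp [this]
      · rw [if_pos (by omega)]
  -- the diagonal
  have hdiag : ∑ Q ∈ P4 p.N,
      ∫ x, dt (p.fQ c Q x) (p.fQ c Q x) * (p.v4 Ψ Q x * p.v4 Ψ Q x) ∂pin p.nu p.N ≤
      12 * Cb ^ 2 * (Cd * Ck ^ 3 * 8) * (p.mu ^ 3 * p.Nn Ψ) := by
    have hY := hD p hp r4 hL Ψ hΨ (fun t => kap (8 / 3) r4 t * kap (8 / 3) r4 t)
      (hker.measA.mul hker.measA)
      (fun t => ⟨mul_nonneg (hker.nnA t) (hker.nnA t),
        mul_le_one₀ (hker.leA t) (hker.nnA t) (hker.leA t)⟩)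
      (fun t ht => by
        have h1 : kap (8 / 3) r4 t ≠ 0 := left_ne_zero_of_mul ht
        unfold kap at h1
        by_contra hcon
        apply h1
        rw [if_neg]
        intro h2
        apply hcon
        linarith)
      Ck hker.hAB (lam4 p.M) (fun n => ((hC p.M hp.hM).2.2.1 n).1) ((2 * p.M) ^ 3)
      (fun n => by
        have h1 := (hC p.M hp.hM).2.2.2.2.2.2.2.2.1 n 3 (by norm_num)
        have h2 : ((n + 4 : ℕ) : ℝ) ^ 4 * lam4 p.M n =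
            (((n + 3 + 1 : ℕ) : ℝ) ^ 3 * lam4 p.M n) * ((n + 4 : ℕ) : ℝ) := by
          ring
        rw [h2]
        exact mul_le_mul_of_nonneg_right h1 (Nat.cast_nonneg _))
      (fun A x => dt (p.fQ c A x) (p.fQ c A x) * (p.v4 Ψ A x * p.v4 Ψ A x) / (12 * Cb ^ 2))
      (fun A => by
        simp only [div_eq_mul_inv]
        exact (hprod A A).mul (BM.const _))
      (by
        intro A hA x
        have hcard : A.card = 4 := (mem_powersetCard.1 hA).2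
        have hne : A.Nonempty := by
          rw [← Finset.card_pos, hcard]; norm_num
        obtain ⟨i0, hi0⟩ := hne
        obtain ⟨-, -, -, hk4, -, -, hk7⟩ := hB V b r r4 W QQ c hc A x i0 hi0
        have hk4 := hk4 hcard
        have hdt0 := dt_self_nonneg (p.fQ c A x)
        have hdle := dt_self_le (p.fQ c A x) A
          (Cb * ∏ j ∈ A.erase i0, kap (8 / 3) r4 (x i0 - x j)) (fun i a => hk4 i a)
          (fun i a => hk7 i a)
        rw [hcard] at hdle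
        have hprodeq : (∏ j ∈ A.erase i0, kap (8 / 3) r4 (x i0 - x j)) ^ 2 =
            ∏ j ∈ A.erase i0, (kap (8 / 3) r4 (x i0 - x j) * kap (8 / 3) r4 (x i0 - x j)) := by
          rw [← Finset.prod_pow]
          exact Finset.prod_congr rfl fun j _ => by ring
        have hk0 : ∀ i, 0 ≤ ∏ j ∈ A.erase i,
            (kap (8 / 3) r4 (x i - x j) * kap (8 / 3) r4 (x i - x j)) := fun i =>
          Finset.prod_nonneg fun j _ => mul_self_nonneg _
        have hd2 : dt (p.fQ c A x) (p.fQ c A x) / (12 * Cb ^ 2) ≤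
            ∏ j ∈ A.erase i0, (kap (8 / 3) r4 (x i0 - x j) * kap (8 / 3) r4 (x i0 - x j)) := by
          rw [div_le_iff₀ (by positivity)]
          calc _ ≤ _ := hdle
            _ = _ := by
              rw [← hprodeq]
              push_cast
              ring
        have hv2 := v4_sq_le hJ hC hW p hp Ψ A x
        have hvs : 0 ≤ ∑ a ∈ p.win, ind (p.Qin a) (Par.cmA A x) *
            (lam4 p.M (cnt (Qc p.s a) Aᶜ x) * p.U a A Ψ x ^ 2) :=
          (sq_nonneg _).trans hv2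
        rw [abs_of_nonneg (div_nonneg (mul_nonneg hdt0 (mul_self_nonneg _)) (by positivity))]
        calc dt (p.fQ c A x) (p.fQ c A x) * (p.v4 Ψ A x * p.v4 Ψ A x) / (12 * Cb ^ 2)
            = (dt (p.fQ c A x) (p.fQ c A x) / (12 * Cb ^ 2)) * p.v4 Ψ A x ^ 2 := by ring
          _ ≤ (∏ j ∈ A.erase i0,
                (kap (8 / 3) r4 (x i0 - x j) * kap (8 / 3) r4 (x i0 - x j))) *
              ∑ a ∈ p.win, ind (p.Qin a) (Par.cmA A x) *
            (lam4 p.M (cnt (Qc p.s a) Aᶜ x) * p.U a A Ψ x ^ 2) :=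
              mul_le_mul hd2 hv2 (sq_nonneg _) (hk0 i0)
          _ ≤ _ := Finset.single_le_sum
              (f := fun i => (∏ j ∈ A.erase i,
                (kap (8 / 3) r4 (x i - x j) * kap (8 / 3) r4 (x i - x j))) *
              ∑ a ∈ p.win, ind (p.Qin a) (Par.cmA A x) *
            (lam4 p.M (cnt (Qc p.s a) Aᶜ x) * p.U a A Ψ x ^ 2))
              (fun i _ => mul_nonneg (hk0 i) hvs) hi0)
    have hYeq : ∑ A ∈ powersetCard 4 (univ : Finset (Fin p.N)),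
        ∫ x, |dt (p.fQ c A x) (p.fQ c A x) * (p.v4 Ψ A x * p.v4 Ψ A x) / (12 * Cb ^ 2)|
          ∂pin p.nu p.N =
        (∑ Q ∈ P4 p.N, ∫ x, dt (p.fQ c Q x) (p.fQ c Q x) * (p.v4 Ψ Q x * p.v4 Ψ Q x)
          ∂pin p.nu p.N) / (12 * Cb ^ 2) := by
      rw [Finset.sum_div]
      refine Finset.sum_congr rfl fun A _ => ?_
      rw [← integral_div]
      refine integral_congr_ae (Filter.Eventually.of_forall fun x => ?_)
      have := dt_self_nonneg (p.fQ c A x)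
      have h2 := mul_self_nonneg (p.v4 Ψ A x)
      exact abs_of_nonneg (by positivity)
    rw [hYeq, div_le_iff₀ (by positivity)] at hY
    refine hY.trans (le_of_eq ?_)
    simp only [show (4 - 1 : ℕ) = 3 from rfl]
    unfold Par.mu
    field_simp
    ring
  have hNn : 0 ≤ p.Nn Ψ := by
    unfold Par.Nn Nw
    refine Finset.sum_nonneg fun a _ => integral_nonneg fun x => ?_
    positivity
  have hDn : 0 ≤ p.D Ψ := by
    unfold Par.D Dw
    refine Finset.sum_nonneg fun a _ => Finset.sum_nonneg fun j _ => integral_nonneg fun x => ?_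
    exact mul_nonneg (ind_nonneg _ _) (sq_nonneg _)
  have hq := hQ V b r r4 W QQ c hc p hp hL Ψ hΨ
  have hq1 : p.QP c Ψ ≤ Cq * ((r4 ^ 2 * p.mu ^ 6 + r4 ^ 2 * p.mu ^ 5 + r4 * p.mu ^ 4) * p.Nn Ψ
        + r4 * p.mu ^ 4 * p.M ^ 2 * p.D Ψ) :=
    (le_abs_self _).trans ((le_add_of_nonneg_right (abs_nonneg _)).trans hq)
  rw [hint, hsplit]
  have hr40 : 0 ≤ r4 := by linarith
  have e1 : 0 ≤ (r4 ^ 2 * p.mu ^ 6 + r4 ^ 2 * p.mu ^ 5 + r4 * p.mu ^ 4) * p.Nn Ψ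
        + r4 * p.mu ^ 4 * p.M ^ 2 * p.D Ψ := by positivity
  have e2 : 0 ≤ p.mu ^ 3 * p.Nn Ψ := by positivity
  have e3 : 0 ≤ 12 * Cb ^ 2 * (Cd * Ck ^ 3 * 8) := by positivity
  nlinarith [mul_nonneg hCq.le e2, mul_nonneg e3 e1]

end Pool.Agent.Lib.MP_5db8e2_mp
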