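import Pool.Agent.Lib.MP_5db8e2_mp.LB.WeakT

/-!
# Lower bound, part 5: the global identity
-/

set_option autoImplicit false

open MeasureTheory Function Finset
open scoped Classical

namespace Pool.Agent.Lib.MP_5db8e2_mp

namespace IdAux

/-- the pairs `(Q, i ∈ Q)`, `(T, i ∉ T)` -/
theorem comb {N : ℕ} (F : Finset (Fin N) → Fin N → ℝ) :
    ∑ Q ∈ powersetCard 4 (univ : Finset (Fin N)), ∑ i ∈ Q, F (Q.erase i) i
      = ∑ T ∈ powersetCard 3 (univ : Finset (Fin N)), ∑ i ∈ Tᶜ, F T i := by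
  rw [Finset.sum_sigma', Finset.sum_sigma']
  refine Finset.sum_bij' (fun z _ => ⟨z.1.erase z.2, z.2⟩) (fun z _ => ⟨insert z.2 z.1, z.2⟩)
    ?_ ?_ ?_ ?_ ?_
  · rintro ⟨Q, i⟩ hz
    rw [Finset.mem_sigma, Finset.mem_powersetCard] at hz ⊢
    refine ⟨⟨Finset.subset_univ _, ?_⟩, ?_⟩
    · have := Finset.card_erase_of_mem hz.2
      simp only at this hz ⊢
      rw [this, hz.1.2]
    · simp
  · rintro ⟨T, i⟩ hz
    rw [Finset.mem_sigma, Finset.mem_powersetCard, Finset.mem_compl] at hz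
    rw [Finset.mem_sigma, Finset.mem_powersetCard]
    refine ⟨⟨Finset.subset_univ _, ?_⟩, ?_⟩
    · have := Finset.card_insert_of_notMem hz.2
      simp only at this hz ⊢
      rw [this, hz.1.2]
    · simp
  · rintro ⟨Q, i⟩ hz
    rw [Finset.mem_sigma] at hz
    simp only at hz ⊢
    rw [Finset.insert_erase hz.2]
  · rintro ⟨T, i⟩ hz
    rw [Finset.mem_sigma, Finset.mem_compl] at hz
    simp only at hz ⊢
    rw [Finset.erase_insert hz.2]
  · rintro ⟨Q, i⟩ _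
    rfl

end IdAux

open WeakAux IdAux in
theorem Identity (hT : S_WeakT) (hQ : S_WeakQ) (hE : S_EnInt) (hBM : S_BMall) : S_Identity := by
  intro V b K R r r4 W QQ c hc p hp hL Ψ hΨ hΨc
  have hΨb : BM Ψ := bm_of_compact hΨ hΨc
  have H := fun A => hBM V b K R r r4 W QQ c hc p hp Ψ hΨb A
  obtain ⟨_, hen, _⟩ := hE V hc.pot p Ψ
  have bgT : ∀ A i a, BM (gT c.φ A i a : (Fin p.N → R3) → ℝ) := fun A => (H A).1
  have bgQ : ∀ A i a, BM (gQ c.g A i a : (Fin p.N → R3) → ℝ) := fun A => (H A).2.1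
  have bsQ : ∀ A i, BM (sQ c.s A i : (Fin p.N → R3) → ℝ) := fun A => (H A).2.2.1
  have bφ : ∀ A, BM (fun x : Fin p.N → R3 => c.φ (pick 3 A x)) := fun A => (H A).2.2.2.1
  have bw : ∀ A, BM (fun x : Fin p.N → R3 => c.w (pick 3 A x)) := fun A => (H A).2.2.2.2.1
  have bwq : ∀ A, BM (fun x : Fin p.N → R3 => c.wq (pick 4 A x)) := fun A => (H A).2.2.2.2.2.1
  have bVT : ∀ A, BM (VT V A : (Fin p.N → R3) → ℝ) := fun A => (H A).2.2.2.2.2.2.1
  have bv3 : ∀ A, BM (p.v3 Ψ A) := fun A => (H A).2.2.2.2.2.2.2.2.2.2.2.2.2.1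
  have bv4 : ∀ A, BM (p.v4 Ψ A) := fun A => (H A).2.2.2.2.2.2.2.2.2.2.2.2.2.2.1
  have bpd : ∀ i a, BM (pd Ψ i a) := (H ∅).2.2.2.2.2.2.2.2.2.2.2.2.2.2.2 hΨ hΨc
  -- the functions
  have bGam : ∀ i a, BM (p.Gam c Ψ i a) := fun i a => by
    unfold Par.Gam
    exact ((BM.sum _ fun T _ => (bgT T i a).mul (bv3 T)).neg).sub
      (BM.sum _ fun Q _ => (bgQ Q i a).mul (bv4 Q))
  have btT : ∀ T, BM (p.tT c Ψ T) := fun T => by
    unfold Par.tT
    exact (((BM.const 1).sub (bφ T)).mul (bv3 T)).sub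
      (BM.sum _ fun i _ => (bsQ _ i).mul (bv4 _))
  set fE : (Fin p.N → R3) → ℝ := fun x => ∑ i, ∑ a, pd Ψ i a x ^ 2 +
      ∑ T ∈ powersetCard 3 univ, VT V T x * Ψ x ^ 2 with hfE
  set fR : (Fin p.N → R3) → ℝ := fun x => ∑ i, ∑ a, (pd Ψ i a x - p.Gam c Ψ i a x) ^ 2 with hfR
  set fK : (Fin p.N → R3) → ℝ := fun x => ∑ i, ∑ a, p.Gam c Ψ i a x ^ 2 with hfK
  set fP : (Fin p.N → R3) → ℝ := fun x =>
    ∑ T ∈ powersetCard 3 univ, VT V T x * p.tT c Ψ T x ^ 2 with hfP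
  set f3 : (Fin p.N → R3) → ℝ := fun x =>
    ∑ T ∈ powersetCard 3 univ, c.w (pick 3 T x) * (Ψ x * p.v3 Ψ T x) with hf3
  set f4 : (Fin p.N → R3) → ℝ := fun x =>
    ∑ Q ∈ powersetCard 4 univ, c.wq (pick 4 Q x) * (Ψ x * p.v4 Ψ Q x) with hf4
  set fA : (Fin p.N → R3) → ℝ := fun x =>
    ∑ T ∈ powersetCard 3 univ, ∑ i, ∑ a, gT c.φ T i a x * (pd Ψ i a x * p.v3 Ψ T x) with hfA
  set fA' : (Fin p.N → R3) → ℝ := fun x =>
    ∑ T ∈ powersetCard 3 univ,
      (VT V T x * (1 - c.φ (pick 3 T x)) - c.w (pick 3 T x)) * (Ψ x * p.v3 Ψ T x) with hfA'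
  set fB : (Fin p.N → R3) → ℝ := fun x =>
    ∑ Q ∈ powersetCard 4 univ, ∑ i, ∑ a, gQ c.g Q i a x * (pd Ψ i a x * p.v4 Ψ Q x) with hfB
  set fB' : (Fin p.N → R3) → ℝ := fun x =>
    ∑ Q ∈ powersetCard 4 univ, (∑ i ∈ Q, VT V (Q.erase i) x * sQ c.s Q i x + c.wq (pick 4 Q x)) *
          (Ψ x * p.v4 Ψ Q x) with hfB'
  set fS : (Fin p.N → R3) → ℝ := fun x =>
    ∑ T ∈ powersetCard 3 univ, VT V T x * (Ψ x - p.tT c Ψ T x) ^ 2 with hfS
  -- all of them are bounded and measurable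
  have bE : BM fE := (BM.sum _ fun i _ => BM.sum _ fun a _ => (bpd i a).pow 2).add
    (BM.sum _ fun T _ => (bVT T).mul (hΨb.pow 2))
  have bR : BM fR := BM.sum _ fun i _ => BM.sum _ fun a _ => ((bpd i a).sub (bGam i a)).pow 2
  have bK : BM fK := BM.sum _ fun i _ => BM.sum _ fun a _ => (bGam i a).pow 2
  have bP : BM fP := BM.sum _ fun T _ => (bVT T).mul ((btT T).pow 2)
  have b3 : BM f3 := BM.sum _ fun T _ => (bw T).mul (hΨb.mul (bv3 T))
  have b4 : BM f4 := BM.sum _ fun Q _ => (bwq Q).mul (hΨb.mul (bv4 Q))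
  have bAT : ∀ T, BM (fun x => ∑ i, ∑ a, gT c.φ T i a x * (pd Ψ i a x * p.v3 Ψ T x)) := fun T =>
    BM.sum _ fun i _ => BM.sum _ fun a _ => (bgT T i a).mul ((bpd i a).mul (bv3 T))
  have bA : BM fA := BM.sum _ fun T _ => bAT T
  have bAT' : ∀ T, BM (fun x => (VT V T x * (1 - c.φ (pick 3 T x)) - c.w (pick 3 T x)) *
      (Ψ x * p.v3 Ψ T x)) := fun T =>
    (((bVT T).mul ((BM.const 1).sub (bφ T))).sub (bw T)).mul (hΨb.mul (bv3 T))
  have bA' : BM fA' := BM.sum _ fun T _ => bAT' T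
  have bBQ : ∀ Q, BM (fun x => ∑ i, ∑ a, gQ c.g Q i a x * (pd Ψ i a x * p.v4 Ψ Q x)) := fun Q =>
    BM.sum _ fun i _ => BM.sum _ fun a _ => (bgQ Q i a).mul ((bpd i a).mul (bv4 Q))
  have bB : BM fB := BM.sum _ fun Q _ => bBQ Q
  have bBQ' : ∀ Q : Finset (Fin p.N), BM (fun x => (∑ i ∈ Q, VT V (Q.erase i) x * sQ c.s Q i x +
      c.wq (pick 4 Q x)) * (Ψ x * p.v4 Ψ Q x)) := fun Q =>
    ((BM.sum _ fun i _ => (bVT _).mul (bsQ Q i)).add (bwq Q)).mul (hΨb.mul (bv4 Q))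
  have bB' : BM fB' := BM.sum _ fun Q _ => bBQ' Q
  have bS : BM fS := BM.sum _ fun T _ => (bVT T).mul ((hΨb.sub (btT T)).pow 2)
  -- the integrals
  have iE : energy V p.L Ψ = ∫ x, fE x ∂pin p.nu p.N := hen
  have iR : p.RR c Ψ = ∫ x, fR x ∂pin p.nu p.N := rfl
  have iK : p.Quad V c Ψ = ∫ x, fK x ∂pin p.nu p.N + ∫ x, fP x ∂pin p.nu p.N := by
    unfold Par.Quad
    rw [hfP, integral_finsetSum _ fun T _ => ((bVT T).mul ((btT T).pow 2)).integrable _]
  have i3 : p.Lin3 c Ψ = ∫ x, f3 x ∂pin p.nu p.N := by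
    unfold Par.Lin3
    rw [hf3, integral_finsetSum _ fun T _ => ((bw T).mul (hΨb.mul (bv3 T))).integrable _]
  have i4 : p.Lin4 c Ψ = ∫ x, f4 x ∂pin p.nu p.N := by
    unfold Par.Lin4
    rw [hf4, integral_finsetSum _ fun T _ => ((bwq T).mul (hΨb.mul (bv4 T))).integrable _]
  have iA : ∫ x, fA x ∂pin p.nu p.N = ∫ x, fA' x ∂pin p.nu p.N := by
    rw [hfA, hfA', integral_finsetSum _ fun T _ => (bAT T).integrable _,
      integral_finsetSum _ fun T _ => (bAT' T).integrable _]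
    exact Finset.sum_congr rfl fun T h => hT V b K R r r4 W QQ c hc p hp hL Ψ hΨ hΨc T h
  have iB : ∫ x, fB x ∂pin p.nu p.N = - ∫ x, fB' x ∂pin p.nu p.N := by
    rw [hfB, hfB', integral_finsetSum _ fun T _ => (bBQ T).integrable _,
      integral_finsetSum _ fun T _ => (bBQ' T).integrable _, ← Finset.sum_neg_distrib]
    exact Finset.sum_congr rfl fun T h => hQ V b K R r r4 W QQ c hc p hp hL Ψ hΨ hΨc T h
  -- the pointwise identity
  have pt : ∀ x, fS x = fE x - fR x - 2 * f3 x - 2 * f4 x + (fK x + fP x)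
      + 2 * (fA x - fA' x) + 2 * (fB x + fB' x) := by
    intro x
    -- kinetic part
    have k1 : ∑ i, ∑ a, pd Ψ i a x * p.Gam c Ψ i a x = - fA x - fB x := by
      have e1 : ∀ i a, pd Ψ i a x * p.Gam c Ψ i a x
          = - ∑ T ∈ powersetCard 3 univ, gT c.φ T i a x * (pd Ψ i a x * p.v3 Ψ T x)
            - ∑ Q ∈ powersetCard 4 univ, gQ c.g Q i a x * (pd Ψ i a x * p.v4 Ψ Q x) := by
        intro i a
        unfold Par.Gam
        rw [mul_sub, mul_neg, Finset.mul_sum, Finset.mul_sum]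
        congr 1
        · congr 1
          exact Finset.sum_congr rfl fun T _ => by ring
        · exact Finset.sum_congr rfl fun T _ => by ring
      simp only [e1, Finset.sum_sub_distrib, Finset.sum_neg_distrib]
      rw [hfA, hfB]
      simp only
      congr 1
      · congr 1
        calc ∑ i, ∑ a, ∑ T ∈ powersetCard 3 univ, gT c.φ T i a x * (pd Ψ i a x * p.v3 Ψ T x)
            = ∑ i, ∑ T ∈ powersetCard 3 univ, ∑ a, gT c.φ T i a x * (pd Ψ i a x * p.v3 Ψ T x) :=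
              Finset.sum_congr rfl fun i _ => Finset.sum_comm
          _ = _ := Finset.sum_comm
      · calc ∑ i, ∑ a, ∑ Q ∈ powersetCard 4 univ, gQ c.g Q i a x * (pd Ψ i a x * p.v4 Ψ Q x)
            = ∑ i, ∑ Q ∈ powersetCard 4 univ, ∑ a, gQ c.g Q i a x * (pd Ψ i a x * p.v4 Ψ Q x) :=
              Finset.sum_congr rfl fun i _ => Finset.sum_comm
          _ = _ := Finset.sum_comm
    have k2 : fR x = ∑ i, ∑ a, pd Ψ i a x ^ 2 - 2 * (∑ i, ∑ a, pd Ψ i a x * p.Gam c Ψ i a x)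
        + fK x := by
      rw [hfR, hfK]
      simp only
      rw [Finset.mul_sum, ← Finset.sum_sub_distrib, ← Finset.sum_add_distrib]
      refine Finset.sum_congr rfl fun i _ => ?_
      rw [Finset.mul_sum, ← Finset.sum_sub_distrib, ← Finset.sum_add_distrib]
      exact Finset.sum_congr rfl fun a _ => by ring
    -- potential part
    have v1 : fS x = ∑ T ∈ powersetCard 3 univ, VT V T x * Ψ x ^ 2 + fP x
        - 2 * ∑ T ∈ powersetCard 3 univ, VT V T x * (Ψ x * p.tT c Ψ T x) := by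
      rw [hfS, hfP]
      simp only
      rw [Finset.mul_sum, ← Finset.sum_add_distrib, ← Finset.sum_sub_distrib]
      exact Finset.sum_congr rfl fun T _ => by ring
    have v2 : fA' x + f3 x = ∑ T ∈ powersetCard 3 univ,
        VT V T x * (1 - c.φ (pick 3 T x)) * (Ψ x * p.v3 Ψ T x) := by
      rw [hfA', hf3]
      simp only
      rw [← Finset.sum_add_distrib]
      exact Finset.sum_congr rfl fun T _ => by ring
    have v3' : fB' x - f4 x = ∑ T ∈ powersetCard 3 univ, ∑ i ∈ Tᶜ,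
          VT V T x * sQ c.s (insert i T) i x * (Ψ x * p.v4 Ψ (insert i T) x) := by
      refine Eq.trans ?_ (comb (fun (T : Finset (Fin p.N)) (i : Fin p.N) =>
          VT V T x * sQ c.s (insert i T) i x * (Ψ x * p.v4 Ψ (insert i T) x)))
      rw [hfB', hf4]
      simp only
      rw [← Finset.sum_sub_distrib]
      refine Finset.sum_congr rfl fun Q _ => ?_
      rw [add_mul, add_sub_cancel_right, Finset.sum_mul]
      refine Finset.sum_congr rfl fun i hi => ?_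
      rw [Finset.insert_erase hi]
    have v4' : ∑ T ∈ powersetCard 3 univ, VT V T x * (Ψ x * p.tT c Ψ T x)
        = (fA' x + f3 x) - (fB' x - f4 x) := by
      rw [v2, v3', ← Finset.sum_sub_distrib]
      refine Finset.sum_congr rfl fun T _ => ?_
      unfold Par.tT
      rw [mul_sub (Ψ x), mul_sub, Finset.mul_sum, Finset.mul_sum]
      congr 1
      · ring
      · exact Finset.sum_congr rfl fun i _ => by ring
    have e0 : fE x = ∑ i, ∑ a, pd Ψ i a x ^ 2 + ∑ T ∈ powersetCard 3 univ, VT V T x * Ψ x ^ 2 :=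
      rfl
    rw [v1, v4', e0, k2, k1]
    ring
  have hS0 : 0 ≤ ∫ x, fS x ∂pin p.nu p.N := by
    refine integral_nonneg fun x => Finset.sum_nonneg fun T _ => mul_nonneg ?_ (sq_nonneg _)
    exact hc.pot.nonneg _ _
  have J := fun {f : (Fin p.N → R3) → ℝ} (h : BM f) => h.integrable (pin p.nu p.N)
  have hint : ∫ x, fS x ∂pin p.nu p.N = ∫ x, fE x ∂pin p.nu p.N - ∫ x, fR x ∂pin p.nu p.N
      - 2 * ∫ x, f3 x ∂pin p.nu p.N - 2 * ∫ x, f4 x ∂pin p.nu p.N
      + (∫ x, fK x ∂pin p.nu p.N + ∫ x, fP x ∂pin p.nu p.N)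
      + 2 * (∫ x, fA x ∂pin p.nu p.N - ∫ x, fA' x ∂pin p.nu p.N)
      + 2 * (∫ x, fB x ∂pin p.nu p.N + ∫ x, fB' x ∂pin p.nu p.N) := by
    rw [integral_congr_ae (Filter.Eventually.of_forall pt)]
    rw [integral_add (J (((((bE.sub bR).sub (b3.const_mul 2)).sub (b4.const_mul 2)).add
        (bK.add bP)).add ((bA.sub bA').const_mul 2))) (J ((bB.add bB').const_mul 2)),
      integral_add (J ((((bE.sub bR).sub (b3.const_mul 2)).sub (b4.const_mul 2)).add
        (bK.add bP))) (J ((bA.sub bA').const_mul 2)),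
      integral_add (J (((bE.sub bR).sub (b3.const_mul 2)).sub (b4.const_mul 2)))
        (J (bK.add bP)),
      integral_sub (J ((bE.sub bR).sub (b3.const_mul 2))) (J (b4.const_mul 2)),
      integral_sub (J (bE.sub bR)) (J (b3.const_mul 2)), integral_sub (J bE) (J bR),
      integral_const_mul, integral_const_mul, integral_const_mul, integral_const_mul,
      integral_add (J bK) (J bP), integral_sub (J bA) (J bA'), integral_add (J bB) (J bB')]
  rw [hint, iA, iB] at hS0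
  rw [iE, iR, iK, i3, i4]
  linarith

end Pool.Agent.Lib.MP_5db8e2_mp
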