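import Pool.Agent.Lib.MP_5db8e2_mp.LB.Spec9

/-!
# Lower bound: all the estimates together
-/

set_option autoImplicit false

open MeasureTheory Function Finset
open scoped Classical

namespace Pool.Agent.Lib.MP_5db8e2_mp

namespace IneqAux

/-- A continuous function with compact support is bounded and measurable. -/
theorem bm_of_compact {N : ℕ} {Ψ : (Fin N → R3) → ℝ} (h1 : ContDiff ℝ 1 Ψ)
    (h2 : HasCompactSupport Ψ) : BM Ψ := by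
  obtain ⟨C, hC⟩ := h2.exists_bound_of_continuous h1.continuous
  exact ⟨h1.continuous.measurable, C, fun y => by simpa [Real.norm_eq_abs] using hC y⟩

/-- The pure inequality between real numbers. -/
theorem final (E RR L3 L4 Qd DT Q4 TT TQ QP VS b W QQ G3 G4 VV T3 T4 S e3 e4 mD2 mD3 mN3 mS3 tN
    C3 C4 Ctt Ctq Cqp Cq4 CQ Cvv Cm Kb : ℝ)
    (hE : RR + 2 * L3 + 2 * L4 - Qd ≤ E)
    (hL3 : |L3 - b * G3| ≤ e3) (he3 : e3 ≤ (C3 + 1) * S)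
    (hL4 : |L4 - W * G4| ≤ e4) (he4 : e4 ≤ C4 * S)
    (hQd : Qd = DT + Q4 + TT + 2 * TQ + QP + VS)
    (hDT : DT ≤ b * G3 + Kb * Cm * S)
    (hQ4 : Q4 ≤ QQ * VV + Cq4 * (S + tN))
    (hTT : |TT| ≤ Ctt * S) (hTQ : |TQ| ≤ Ctq * S) (hQP : |QP| + |VS| ≤ Cqp * S)
    (hQQ : |QQ| ≤ CQ) (hW : |W| ≤ CQ)
    (hV1 : VV ≤ G4) (hV2 : G4 ≤ VV + Cvv * (mD3 + mN3 + mS3)) (hCvv : 0 ≤ Cvv)
    (hG3 : G3 ≤ T3) (hG3' : T3 - Cm * mD2 ≤ G3) (hG4 : G4 ≤ T4) (hG4' : T4 - Cm * mD3 ≤ G4)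
    (hCm : 0 ≤ Cm) (hD2 : mD2 ≤ S) (hD3 : mD3 ≤ S) (hN3 : mN3 ≤ tN) (hS3 : 0 ≤ mS3)
    (hD2' : 0 ≤ mD2) (hD3' : 0 ≤ mD3) (hN3' : 0 ≤ mN3) (hS : 0 ≤ S) (hKb : 0 ≤ Kb)
    (hC3 : 0 ≤ C3) (hC4 : 0 ≤ C4) (hCtt : 0 ≤ Ctt) (hCtq : 0 ≤ Ctq) (hCqp : 0 ≤ Cqp)
    (hCq4 : 0 ≤ Cq4) :
    RR + b * T3 + (2 * W - QQ) * T4
      - (1 + 2 * (C3 + 1) + 2 * C4 + Kb * Cm + Cq4 + Ctt + 2 * Ctq + Cqp + CQ * Cvv + |b| * Cm
          + 3 * CQ * Cm) * (S + tN + mS3) ≤ E := by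
  have hCQ : 0 ≤ CQ := (abs_nonneg _).trans hQQ
  have htN : 0 ≤ tN := hN3'.trans hN3
  have a1 := abs_le.1 hL3
  have a2 := abs_le.1 hL4
  have a3 := abs_le.1 hTT
  have a4 := abs_le.1 hTQ
  have a5 := le_abs_self QP
  have a6 := le_abs_self VS
  -- `b G3 ≥ b T3 - |b| Cm S`
  have b1 : b * T3 - |b| * Cm * S ≤ b * G3 := by
    have h0 : 0 ≤ T3 - G3 := by linarith
    have h1 : T3 - G3 ≤ Cm * mD2 := by linarith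
    have h2 : b * (T3 - G3) ≤ |b| * (T3 - G3) :=
      mul_le_mul_of_nonneg_right (le_abs_self b) h0
    have h3 : |b| * (T3 - G3) ≤ |b| * (Cm * S) :=
      mul_le_mul_of_nonneg_left (h1.trans (mul_le_mul_of_nonneg_left hD2 hCm)) (abs_nonneg b)
    linarith [h2, h3]
  have b2 : (2 * W - QQ) * T4 - 3 * CQ * Cm * S ≤ (2 * W - QQ) * G4 := by
    have h0 : 0 ≤ T4 - G4 := by linarith
    have h1 : T4 - G4 ≤ Cm * mD3 := by linarith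
    have h4 : 2 * W - QQ ≤ 3 * CQ := by
      have := (abs_le.1 hW).2
      have := (abs_le.1 hQQ).1
      linarith
    have h2 : (2 * W - QQ) * (T4 - G4) ≤ (3 * CQ) * (T4 - G4) :=
      mul_le_mul_of_nonneg_right h4 h0
    have h3 : (3 * CQ) * (T4 - G4) ≤ (3 * CQ) * (Cm * S) :=
      mul_le_mul_of_nonneg_left (h1.trans (mul_le_mul_of_nonneg_left hD3 hCm)) (by positivity)
    linarith [h2, h3]
  have b3 : QQ * VV ≤ QQ * G4 + CQ * Cvv * (S + tN + mS3) := by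
    have h0 : 0 ≤ G4 - VV := by linarith
    have h1 : G4 - VV ≤ Cvv * (mD3 + mN3 + mS3) := by linarith
    have h2 : (-QQ) * (G4 - VV) ≤ CQ * (G4 - VV) :=
      mul_le_mul_of_nonneg_right (by linarith [(abs_le.1 hQQ).1]) h0
    have h3 : CQ * (G4 - VV) ≤ CQ * (Cvv * (S + tN + mS3)) :=
      mul_le_mul_of_nonneg_left (h1.trans (mul_le_mul_of_nonneg_left (by linarith) hCvv)) hCQ
    linarith [h2, h3]
  -- the constants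
  have hb : 0 ≤ |b| * Cm := by positivity
  have c1 : 0 ≤ (2 * (C3 + 1) + 2 * C4 + Kb * Cm + Ctt + 2 * Ctq + Cqp + |b| * Cm
      + 3 * CQ * Cm) * (tN + mS3) := by positivity
  have c2 : 0 ≤ Cq4 * mS3 := by positivity
  have c3 : 0 ≤ 1 * (S + tN + mS3) := by positivity
  linarith [a1.1, a2.1, a3.2, a4.2, a5, a6, b1, b2, b3, c1, c2, c3]

end IneqAux

open IneqAux in
theorem Ineq (hI : S_Identity) (h3 : S_Lin3) (h4 : S_Lin4) (hS : S_QuadSplit) (hD : S_DiagT)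
    (hQ : S_Q4b) (hTT : S_TTb) (hTQ : S_TQb) (hQP : S_QPb) (hQQ : S_QQint) (hV : S_VVup)
    (hV2 : S_VVlow) (hM : S_Mains) : S_Ineq := by
  intro K R b
  obtain ⟨C3, hC3, H3⟩ := h3 K
  obtain ⟨C4, hC4, H4⟩ := h4 K
  obtain ⟨Cq4, hCq4, HQ4⟩ := hQ K R
  obtain ⟨Ctt, hCtt, HTT⟩ := hTT K R
  obtain ⟨Ctq, hCtq, HTQ⟩ := hTQ K R
  obtain ⟨Cqp, hCqp, HQP⟩ := hQP K R
  obtain ⟨CQ, hCQ, HQQ⟩ := hQQ K R
  obtain ⟨Cvv, hCvv, HV⟩ := hV2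
  obtain ⟨Cm, hCm, HM⟩ := hM
  refine ⟨1 + 2 * (C3 + 1) + 2 * C4 + |K| * Cm + Cq4 + Ctt + 2 * Ctq + Cqp + CQ * Cvv + |b| * Cm
          + 3 * CQ * Cm, ?_, ?_⟩
  · have : 0 ≤ 2 * (C3 + 1) + 2 * C4 + |K| * Cm + Cq4 + Ctt + 2 * Ctq + Cqp + CQ * Cvv + |b| * Cm
          + 3 * CQ * Cm := by positivity
    linarith
  intro V r r4 W QQ c hc p hp hL Ψ hΨ1 hΨ2 τ τ₁ τ₂ τ₄ θ hτ hτ' hτ₁ hτ₂ hτ₄ hθ
  have hB : BM Ψ := bm_of_compact hΨ1 hΨ2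
  obtain ⟨hG3, hG4, hDn, hNn, hND, hNS, hG3T, hG3T', hG4T, hG4T', hG3N, -, -⟩ := HM p hp Ψ hB
  have hr : 0 < r := lt_of_lt_of_le one_pos hc.hr
  have hr4 : 0 < r4 := lt_of_lt_of_le hr hc.hr4
  have hs : 0 < p.s := lt_of_lt_of_le one_pos hp.hs
  have hMp : 0 < p.M := lt_of_lt_of_le (by norm_num) hp.hM
  have hmu : p.mu = p.M / p.s ^ 3 := rfl
  have hmu0 : 0 < p.mu := by rw [hmu]; positivity
  have E1 := hI V b K R r r4 W QQ c hc p hp hL Ψ hΨ1 hΨ2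
  have E3 := H3 V b R r r4 W QQ c hc p hp hL Ψ hB τ₁ τ₂ hτ₁ hτ₂
  have E4 := H4 V b R r r4 W QQ c hc p hp hL Ψ hB τ₄ hτ₄
  have ES := hS V b K R r r4 W QQ c hc p hp Ψ hB
  have ED := hD V b K R r r4 W QQ c hc p hp hL Ψ hB
  have EQ := HQ4 V b r r4 W QQ c hc p hp hL Ψ hB τ hτ hτ'
  have ETT := HTT V b r r4 W QQ c hc p hp hL Ψ hB
  have ETQ := HTQ V b r r4 W QQ c hc p hp hL Ψ hB θ hθ
  have EQP := HQP V b r r4 W QQ c hc p hp hL Ψ hB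
  obtain ⟨EQQ, EW, -⟩ := HQQ V b r r4 W QQ c hc
  obtain ⟨-, EV⟩ := hV p hp Ψ hB
  have EV2 := HV p hp Ψ hB
  rw [← hmu] at E3 E4
  have hsq : 0 ≤ √r4 := Real.sqrt_nonneg _
  unfold eD eN
  rw [← hmu]
  generalize p.mu = μ at *
  generalize p.D Ψ = Dn at *
  generalize p.Nn Ψ = Nn at *
  generalize p.ND Ψ = ND at *
  generalize p.NS Ψ = NS at *
  generalize √r4 = q4 at *
  generalize p.s = s at *
  generalize p.M = M at *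
  -- the monomials
  obtain ⟨x1, hx1⟩ : ∃ x, x = (r / s) * μ ^ 2 * τ₁ * Dn := ⟨_, rfl⟩
  obtain ⟨x2, hx2⟩ : ∃ x, x = τ₂ * Dn := ⟨_, rfl⟩
  obtain ⟨x3, hx3⟩ : ∃ x, x = τ₂⁻¹ * (1 / r) ^ 3 * μ ^ 3 * M * Dn := ⟨_, rfl⟩
  obtain ⟨x4, hx4⟩ : ∃ x, x = τ₄ * M ^ 3 * Dn := ⟨_, rfl⟩
  obtain ⟨x5, hx5⟩ : ∃ x, x = r * μ ^ 3 * M * Dn := ⟨_, rfl⟩
  obtain ⟨x6, hx6⟩ : ∃ x, x = θ * r * μ ^ 3 * M ^ 2 * Dn := ⟨_, rfl⟩
  obtain ⟨x7, hx7⟩ : ∃ x, x = θ⁻¹ * r4 * μ ^ 4 * M * Dn := ⟨_, rfl⟩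
  obtain ⟨x8, hx8⟩ : ∃ x, x = r4 ^ 2 * μ ^ 4 * Dn := ⟨_, rfl⟩
  obtain ⟨x9, hx9⟩ : ∃ x, x = r4 * μ ^ 4 * M ^ 2 * Dn := ⟨_, rfl⟩
  obtain ⟨x10, hx10⟩ : ∃ x, x = τ⁻¹ * μ ^ 3 * Dn := ⟨_, rfl⟩
  obtain ⟨x11, hx11⟩ : ∃ x, x = μ ^ 3 * Dn := ⟨_, rfl⟩
  obtain ⟨x12, hx12⟩ : ∃ x, x = μ ^ 2 * Dn := ⟨_, rfl⟩
  obtain ⟨y1, hy1⟩ : ∃ x, x = (r / s) * μ ^ 2 * τ₁⁻¹ * Nn := ⟨_, rfl⟩
  obtain ⟨y2, hy2⟩ : ∃ x, x = τ₂⁻¹ * ((1 / r) ^ 3 * μ ^ 3 + (1 / r) ^ 6 * μ ^ 2) * Nn := ⟨_, rfl⟩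
  obtain ⟨y3, hy3⟩ : ∃ x, x = τ₄⁻¹ * (1 / r4) ^ 9 * μ ^ 3 * Nn := ⟨_, rfl⟩
  obtain ⟨y4, hy4⟩ : ∃ x, x = (1 / r) ^ 4 * μ ^ 2 * Nn := ⟨_, rfl⟩
  obtain ⟨y5, hy5⟩ : ∃ x, x = r ^ 2 * μ ^ 4 * Nn := ⟨_, rfl⟩
  obtain ⟨y6, hy6⟩ : ∃ x, x = (θ + θ⁻¹) * r * r4 * μ ^ 5 * Nn := ⟨_, rfl⟩
  obtain ⟨y7, hy7⟩ : ∃ x, x = r4 * q4 * μ ^ 4 * Nn := ⟨_, rfl⟩
  obtain ⟨y8, hy8⟩ : ∃ x, x = r4 ^ 2 * μ ^ 6 * Nn := ⟨_, rfl⟩
  obtain ⟨y9, hy9⟩ : ∃ x, x = r4 ^ 2 * μ ^ 5 * Nn := ⟨_, rfl⟩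
  obtain ⟨y10, hy10⟩ : ∃ x, x = r4 * μ ^ 4 * Nn := ⟨_, rfl⟩
  obtain ⟨y11, hy11⟩ : ∃ x, x = μ ^ 3 * τ * Nn := ⟨_, rfl⟩
  obtain ⟨y12, hy12⟩ : ∃ x, x = μ ^ 3 * τ⁻¹ * (r4 / s) ^ 2 * Nn := ⟨_, rfl⟩
  have px1 : 0 ≤ x1 := by rw [hx1]; positivity
  have px2 : 0 ≤ x2 := by rw [hx2]; positivity
  have px3 : 0 ≤ x3 := by rw [hx3]; positivity
  have px4 : 0 ≤ x4 := by rw [hx4]; positivity
  have px5 : 0 ≤ x5 := by rw [hx5]; positivity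
  have px6 : 0 ≤ x6 := by rw [hx6]; positivity
  have px7 : 0 ≤ x7 := by rw [hx7]; positivity
  have px8 : 0 ≤ x8 := by rw [hx8]; positivity
  have px9 : 0 ≤ x9 := by rw [hx9]; positivity
  have px10 : 0 ≤ x10 := by rw [hx10]; positivity
  have px11 : 0 ≤ x11 := by rw [hx11]; positivity
  have px12 : 0 ≤ x12 := by rw [hx12]; positivity
  have py1 : 0 ≤ y1 := by rw [hy1]; positivity
  have py2 : 0 ≤ y2 := by rw [hy2]; positivity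
  have py3 : 0 ≤ y3 := by rw [hy3]; positivity
  have py4 : 0 ≤ y4 := by rw [hy4]; positivity
  have py5 : 0 ≤ y5 := by rw [hy5]; positivity
  have py6 : 0 ≤ y6 := by rw [hy6]; positivity
  have py7 : 0 ≤ y7 := by rw [hy7]; positivity
  have py8 : 0 ≤ y8 := by rw [hy8]; positivity
  have py9 : 0 ≤ y9 := by rw [hy9]; positivity
  have py10 : 0 ≤ y10 := by rw [hy10]; positivity
  have py11 : 0 ≤ y11 := by rw [hy11]; positivity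
  have py12 : 0 ≤ y12 := by rw [hy12]; positivity
  obtain ⟨S, hSdef⟩ : ∃ S, S = x1 + x2 + x3 + x4 + x5 + x6 + x7 + x8 + x9 + x10 + x11 + x12
      + (y1 + y2 + y3 + y4 + y5 + y6 + y7 + y8 + y9 + y10 + y11 + y12) := ⟨_, rfl⟩
  have hS0 : 0 ≤ S := by rw [hSdef]; linarith
  have key := final (E := energy V p.L Ψ) (RR := p.RR c Ψ) (L3 := p.Lin3 c Ψ) (L4 := p.Lin4 c Ψ)
    (Qd := p.Quad V c Ψ) (DT := p.DT V c Ψ) (Q4 := p.Q4 V c Ψ) (TT := p.TT c Ψ)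
    (TQ := p.TQ c Ψ) (QP := p.QP c Ψ) (VS := p.VS V c Ψ) (b := b) (W := W) (QQ := QQ)
    (G3 := p.G3 Ψ) (G4 := p.G4 Ψ) (VV := p.VV Ψ) (T3 := p.T3 Ψ) (T4 := p.T4 Ψ) (S := S)
    (e3 := C3 * (r / s) * μ ^ 2 * (τ₁ * Dn + τ₁⁻¹ * Nn) + τ₂ * Dn
      + C3 * τ₂⁻¹ * ((1 / r) ^ 3 * μ ^ 3 * (M * Dn + Nn) + (1 / r) ^ 6 * μ ^ 2 * Nn))
    (e4 := C4 * (τ₄ * M ^ 3 * Dn + τ₄⁻¹ * (1 / r4) ^ 9 * μ ^ 3 * Nn))
    (mD2 := x12) (mD3 := x11) (mN3 := μ ^ 3 * ND) (mS3 := μ ^ 3 * NS) (tN := τ⁻¹ * μ ^ 3 * ND)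
    (C3 := C3) (C4 := C4) (Ctt := Ctt) (Ctq := Ctq) (Cqp := Cqp) (Cq4 := Cq4) (CQ := CQ)
    (Cvv := Cvv) (Cm := Cm) (Kb := |K|)
  have hfin : p.RR c Ψ + b * p.T3 Ψ + (2 * W - QQ) * p.T4 Ψ
      - (1 + 2 * (C3 + 1) + 2 * C4 + |K| * Cm + Cq4 + Ctt + 2 * Ctq + Cqp + CQ * Cvv + |b| * Cm
          + 3 * CQ * Cm) * (S + τ⁻¹ * μ ^ 3 * ND + μ ^ 3 * NS) ≤ energy V p.L Ψ := by
    apply key
    · exact E1
    · exact E3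
    · have h1 : C3 * (x1 + x3 + y1 + y2) ≤ C3 * S :=
        mul_le_mul_of_nonneg_left (by rw [hSdef]; linarith) hC3.le
      have h2 : x2 ≤ S := by rw [hSdef]; linarith
      have h5 : C3 * (r / s) * μ ^ 2 * (τ₁ * Dn + τ₁⁻¹ * Nn) + τ₂ * Dn
        + C3 * τ₂⁻¹ * ((1 / r) ^ 3 * μ ^ 3 * (M * Dn + Nn) + (1 / r) ^ 6 * μ ^ 2 * Nn)
        = C3 * (x1 + x3 + y1 + y2) + x2 := by
        rw [hx1, hx2, hx3, hy1, hy2]; ring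
      rw [h5]
      linarith
    · exact E4
    · have h1 : C4 * (x4 + y3) ≤ C4 * S :=
        mul_le_mul_of_nonneg_left (by rw [hSdef]; linarith) hC4.le
      rw [hx4, hy3] at h1
      exact h1
    · exact ES
    · refine ED.trans ?_
      have h1 : K / r ^ 4 * p.G3 Ψ ≤ |K| * (1 / r) ^ 4 * (Cm * μ ^ 2 * Nn) := by
        have h2 : K / r ^ 4 ≤ |K| * (1 / r) ^ 4 := by
          rw [one_div, inv_pow, div_eq_mul_inv]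
          exact mul_le_mul_of_nonneg_right (le_abs_self K) (by positivity)
        calc K / r ^ 4 * p.G3 Ψ ≤ |K| * (1 / r) ^ 4 * p.G3 Ψ := mul_le_mul_of_nonneg_right h2 hG3
          _ ≤ _ := mul_le_mul_of_nonneg_left hG3N (by positivity)
      have h3 : |K| * Cm * y4 ≤ |K| * Cm * S :=
        mul_le_mul_of_nonneg_left (by rw [hSdef]; linarith) (by positivity)
      rw [hy4] at h3
      linarith [h1, h3]
    · refine EQ.trans ?_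
      have h1 : Cq4 * (x10 + y11 + y12 + τ⁻¹ * μ ^ 3 * ND) ≤ Cq4 * (S + τ⁻¹ * μ ^ 3 * ND) :=
        mul_le_mul_of_nonneg_left (by rw [hSdef]; linarith) hCq4.le
      have h2 : Cq4 * (μ ^ 3 * (τ * Nn + τ⁻¹ * (Dn + (r4 / s) ^ 2 * Nn + ND)))
        = Cq4 * (x10 + y11 + y12 + τ⁻¹ * μ ^ 3 * ND) := by
        rw [hx10, hy11, hy12]; ring
      rw [h2]
      linarith
    · refine ETT.trans ?_
      have h1 : Ctt * (y5 + x5) ≤ Ctt * S :=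
        mul_le_mul_of_nonneg_left (by rw [hSdef]; linarith) hCtt.le
      rw [hy5, hx5] at h1
      exact h1
    · refine ETQ.trans ?_
      have h1 : Ctq * (y6 + y7 + (x6 + x7 + x5 + x8)) ≤ Ctq * S :=
        mul_le_mul_of_nonneg_left (by rw [hSdef]; linarith) hCtq.le
      refine le_trans (le_of_eq ?_) h1
      rw [hy6, hy7, hx6, hx7, hx5, hx8]; ring
    · refine EQP.trans ?_
      have h1 : Cqp * (y8 + y9 + y10 + x9) ≤ Cqp * S :=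
        mul_le_mul_of_nonneg_left (by rw [hSdef]; linarith) hCqp.le
      refine le_trans (le_of_eq ?_) h1
      rw [hy8, hy9, hy10, hx9]; ring
    · exact EQQ
    · exact EW
    · exact EV
    · refine EV2.trans (le_of_eq ?_)
      rw [hx11]; ring
    · exact hCvv.le
    · exact hG3T
    · refine le_trans (le_of_eq ?_) hG3T'
      rw [hx12]; ring
    · exact hG4T
    · refine le_trans (le_of_eq ?_) hG4T'
      rw [hx11]; ring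
    · exact hCm.le
    · rw [hSdef]; linarith
    · rw [hSdef]; linarith
    · have h1 : 1 ≤ τ⁻¹ := (one_le_inv₀ hτ).2 hτ'
      have h2 : 0 ≤ μ ^ 3 * ND := by positivity
      calc μ ^ 3 * ND = 1 * (μ ^ 3 * ND) := by ring
        _ ≤ τ⁻¹ * (μ ^ 3 * ND) := mul_le_mul_of_nonneg_right h1 h2
        _ = τ⁻¹ * μ ^ 3 * ND := by ring
    · positivity
    · exact px12
    · exact px11
    · positivity
    · exact hS0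
    · exact abs_nonneg K
    · exact hC3.le
    · exact hC4.le
    · exact hCtt.le
    · exact hCtq.le
    · exact hCqp.le
    · exact hCq4.le
  refine le_trans (le_of_eq ?_) hfin
  rw [hSdef, hx1, hx2, hx3, hx4, hx5, hx6, hx7, hx8, hx9, hx10, hx11, hx12, hy1, hy2, hy3, hy4,
    hy5, hy6, hy7, hy8, hy9, hy10, hy11, hy12]
  ring

end Pool.Agent.Lib.MP_5db8e2_mp
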