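import Pool.Agent.Lib.MP_5db8e2_mp.LB.Spec5

/-!
# Lower bound, part 5: Jensen's inequality for the trial functions
-/

set_option autoImplicit false

open MeasureTheory Function Finset
open scoped Classical

namespace Pool.Agent.Lib.MP_5db8e2_mp

theorem jensen_sum {ι : Type*} (S : Finset ι) (w u : ι → ℝ) (hw : ∀ a ∈ S, 0 ≤ w a)
    (h1 : ∑ a ∈ S, w a ≤ 1) : (∑ a ∈ S, w a * u a) ^ 2 ≤ ∑ a ∈ S, w a * u a ^ 2 := by
  have hcs := Finset.sum_mul_sq_le_sq_mul_sq S (fun a => Real.sqrt (w a))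
    (fun a => Real.sqrt (w a) * u a)
  have e1 : ∑ a ∈ S, Real.sqrt (w a) * (Real.sqrt (w a) * u a) = ∑ a ∈ S, w a * u a := by
    refine Finset.sum_congr rfl fun a ha => ?_
    rw [← mul_assoc, Real.mul_self_sqrt (hw a ha)]
  have e2 : ∑ a ∈ S, Real.sqrt (w a) ^ 2 = ∑ a ∈ S, w a := by
    refine Finset.sum_congr rfl fun a ha => ?_
    rw [Real.sq_sqrt (hw a ha)]
  have e3 : ∑ a ∈ S, (Real.sqrt (w a) * u a) ^ 2 = ∑ a ∈ S, w a * u a ^ 2 := by
    refine Finset.sum_congr rfl fun a ha => ?_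
    rw [mul_pow, Real.sq_sqrt (hw a ha)]
  rw [e1, e2, e3] at hcs
  refine hcs.trans ?_
  have h0 : 0 ≤ ∑ a ∈ S, w a * u a ^ 2 :=
    Finset.sum_nonneg fun a ha => mul_nonneg (hw a ha) (sq_nonneg _)
  calc (∑ a ∈ S, w a) * ∑ a ∈ S, w a * u a ^ 2 ≤ 1 * ∑ a ∈ S, w a * u a ^ 2 :=
        mul_le_mul_of_nonneg_right h1 h0
    _ = _ := one_mul _

theorem Jensen (hW : S_WinFacts) (hO : S_Overlap) : S_Jensen := by
  obtain ⟨C, hC0, hC⟩ := hW
  refine ⟨27 * C ^ 2, by positivity, fun p hp Ψ A c x => ?_⟩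
  have hs : 0 < p.s := lt_of_lt_of_le one_pos hp.hs
  have hfacts := hC p.s p.e hp.hs hp.he hp.he'
  have hsum : ∑ a ∈ p.win, th p.s p.e a c ≤ 1 := (hfacts 0).2.2.2.2.2.1 p.K c
  refine ⟨?_, ?_, ?_⟩
  · exact jensen_sum p.win (fun a => th p.s p.e a c) (fun a => p.l3 a A x * p.U a A Ψ x)
      (fun a _ => ((hfacts a).2.1 c).1) hsum
  · exact jensen_sum p.win (fun a => th p.s p.e a c) (fun a => p.l4 a A x * p.U a A Ψ x)
      (fun a _ => ((hfacts a).2.1 c).1) hsum
  · intro k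
    set d : (Fin 3 → ℤ) → ℝ := fun a => fderiv ℝ (th p.s p.e a) c (Pi.single k 1) with hd
    have hdle : ∀ a, |d a| ≤ C / p.s := fun a => (hfacts a).2.2.2.2.1 c k
    have hclosed : ∀ a, IsClosed (p.Qin a) := by
      intro a
      have : p.Qin a = ⋂ k, {c : R3 | |c k - p.s * a k| ≤ (1 - p.e) * p.s} := by
        ext c; simp [Par.Qin]
      rw [this]
      refine isClosed_iInter fun k => isClosed_le ?_ continuous_const
      exact ((continuous_apply k).sub continuous_const).abs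
    have hd0 : ∀ a, c ∉ p.Qin a → d a = 0 := by
      intro a hca
      have : th p.s p.e a =ᶠ[nhds c] fun _ => (0 : ℝ) := by
        filter_upwards [(hclosed a).isOpen_compl.mem_nhds hca] with y hy
        by_contra h
        exact hy ((hfacts a).2.2.1 y h)
      simp only [hd]
      rw [this.fderiv_eq]
      simp
    set u : (Fin 3 → ℤ) → ℝ := fun a => p.l3 a A x * p.U a A Ψ x with hu
    have hprod : ∀ a, d a * u a = (d a * ind (p.Qin a) c) * (ind (p.Qin a) c * u a) := by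
      intro a
      by_cases h : c ∈ p.Qin a
      · rw [ind_of_mem h]; ring
      · rw [hd0 a h]; ring
    have hcs := Finset.sum_mul_sq_le_sq_mul_sq p.win (fun a => d a * ind (p.Qin a) c)
      (fun a => ind (p.Qin a) c * u a)
    have hisq : ∀ a, ind (p.Qin a) c ^ 2 = ind (p.Qin a) c := by
      intro a
      by_cases h : c ∈ p.Qin a
      · rw [ind_of_mem h]; ring
      · rw [ind_of_notMem h]; ring
    have e1 : ∑ a ∈ p.win, d a * u a =
        ∑ a ∈ p.win, (d a * ind (p.Qin a) c) * (ind (p.Qin a) c * u a) :=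
      Finset.sum_congr rfl fun a _ => hprod a
    have e3 : ∑ a ∈ p.win, (ind (p.Qin a) c * u a) ^ 2 =
        ∑ a ∈ p.win, ind (p.Qin a) c * u a ^ 2 := by
      refine Finset.sum_congr rfl fun a _ => ?_
      rw [mul_pow, hisq]
    have e2 : ∑ a ∈ p.win, (d a * ind (p.Qin a) c) ^ 2 ≤ 27 * C ^ 2 / p.s ^ 2 := by
      have hsub : ∀ a, ind (p.Qin a) c ≤ ind (Qc p.s a) c := by
        intro a
        by_cases h : c ∈ p.Qin a
        · have h' : c ∈ Qc p.s a := by
            intro k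
            refine (h k).trans ?_
            nlinarith [mul_pos hp.he hs]
          rw [ind_of_mem h, ind_of_mem h']
        · rw [ind_of_notMem h]; exact ind_nonneg _ _
      have h27 := (hO p hp).1 c
      calc ∑ a ∈ p.win, (d a * ind (p.Qin a) c) ^ 2
          ≤ ∑ a ∈ p.win, (C / p.s) ^ 2 * ind (Qc p.s a) c := by
            refine Finset.sum_le_sum fun a _ => ?_
            rw [mul_pow, hisq]
            refine mul_le_mul ?_ (hsub a) (ind_nonneg _ _) (sq_nonneg _)
            rw [← sq_abs]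
            exact pow_le_pow_left₀ (abs_nonneg _) (hdle a) 2
        _ = (C / p.s) ^ 2 * ∑ a ∈ p.win, ind (Qc p.s a) c := by rw [Finset.mul_sum]
        _ ≤ (C / p.s) ^ 2 * 27 := mul_le_mul_of_nonneg_left h27 (sq_nonneg _)
        _ = 27 * C ^ 2 / p.s ^ 2 := by rw [div_pow]; ring
    rw [← e1, e3] at hcs
    refine hcs.trans (mul_le_mul_of_nonneg_right e2 ?_)
    exact Finset.sum_nonneg fun a _ => mul_nonneg (ind_nonneg _ _) (sq_nonneg _)

end Pool.Agent.Lib.MP_5db8e2_mp
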