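import Pool.Agent.Lib.MP_5db8e2_mp.LB.Spec7
import Pool.Agent.Lib.MP_5db8e2_mp.LB.KerInt

/-!
# Lower bound: the star kernel of the quadruples (module KerQ)
-/

set_option autoImplicit false

open MeasureTheory Function Finset
open scoped Classical

namespace Pool.Agent.Lib.MP_5db8e2_mp

namespace KerQaux

theorem kst_nonneg (r4 : ℝ) (t : R3) : 0 ≤ kst r4 t := by
  unfold kst
  split_ifs
  · exact Real.rpow_nonneg (by positivity) _
  · exact le_rfl

theorem kst_le_pow (r4 : ℝ) (t : R3) : kst r4 t ≤ (1 + ‖t‖) ^ (-(31 / 10) : ℝ) := by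
  unfold kst
  split_ifs
  · exact le_rfl
  · exact Real.rpow_nonneg (by positivity) _

theorem kst_le_one (r4 : ℝ) (t : R3) : kst r4 t ≤ 1 := by
  refine (kst_le_pow r4 t).trans ?_
  have h1 : (1 : ℝ) ≤ 1 + ‖t‖ := by linarith [norm_nonneg t]
  exact Real.rpow_le_one_of_one_le_of_nonpos h1 (by norm_num)

theorem kst_neg (r4 : ℝ) (t : R3) : kst r4 (-t) = kst r4 t := by
  unfold kst; rw [norm_neg]

theorem kst_measurable (r4 : ℝ) : Measurable (kst r4) := by
  unfold kst
  refine Measurable.ite ?_ ?_ measurable_const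
  · exact measurableSet_le measurable_norm measurable_const
  · exact (measurable_const.add measurable_norm).pow_const _

theorem kst_bm (r4 : ℝ) : BM (kst r4) :=
  ⟨kst_measurable r4, 1, fun t => by rw [abs_of_nonneg (kst_nonneg r4 t)]; exact kst_le_one r4 t⟩

theorem kst_norm {r4 : ℝ} {t : R3} (h : kst r4 t ≠ 0) : ‖t‖ ≤ 4 * r4 := by
  by_contra hc
  exact h (by simp [kst, hc])

end KerQaux

open KerQaux KerIntAux

theorem KerQ : S_KerQ := by
  set C1 : ℝ := ∫ u : R3, (1 + ‖u‖) ^ (-(31 / 10) : ℝ) with hC1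
  have hint : Integrable (fun u : R3 => (1 + ‖u‖) ^ (-(31 / 10) : ℝ)) := by
    refine integrable_one_add_norm ?_
    simp
    norm_num
  have hC1nn : 0 ≤ C1 := integral_nonneg fun u => Real.rpow_nonneg (by positivity) _
  have hB1 : (1 : ℝ) ≤ 1 + C1 := by linarith
  have hB3 : (1 + C1) ≤ 4 * (1 + C1) ^ 3 := by
    have : (1 + C1) ^ 1 ≤ (1 + C1) ^ 3 := pow_le_pow_right₀ hB1 (by norm_num)
    have h0 : (0 : ℝ) ≤ (1 + C1) ^ 3 := by positivity
    linarith [pow_one (1 + C1)]
  refine ⟨4 * (1 + C1) ^ 3, by linarith, ?_⟩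
  intro ν _ hν r4 hr N Q hQ
  have hone : ∀ u : R3, ∫ t, kst r4 (u - t) ∂ν ≤ 1 + C1 := by
    intro u
    have hi : Integrable (fun t : R3 => (1 + ‖u - t‖) ^ (-(31 / 10) : ℝ)) :=
      hint.comp_sub_left u
    calc ∫ t, kst r4 (u - t) ∂ν ≤ ∫ t, (1 + ‖u - t‖) ^ (-(31 / 10) : ℝ) ∂ν :=
          integral_mono_of_nonneg
            (Filter.Eventually.of_forall fun t => kst_nonneg _ _)
            (hi.mono_measure hν)
            (Filter.Eventually.of_forall fun t => kst_le_pow r4 (u - t))
      _ ≤ ∫ t, (1 + ‖u - t‖) ^ (-(31 / 10) : ℝ) :=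
          integral_mono_measure hν
            (Filter.Eventually.of_forall fun t => Real.rpow_nonneg (by positivity) _) hi
      _ = C1 := integral_sub_left_eq_self (fun u : R3 => (1 + ‖u‖) ^ (-(31 / 10) : ℝ)) volume u
      _ ≤ 1 + C1 := by linarith
  have htwo : ∀ u : R3, ∫ t, kst r4 (t - u) ∂ν ≤ 1 + C1 := by
    intro u
    have : (fun t => kst r4 (t - u)) = fun t => kst r4 (u - t) := by
      ext1 t
      rw [← kst_neg r4 (t - u), neg_sub]
    rw [this]
    exact hone u
  have hP : ∀ i : Fin N, BM (fun x : Fin N → R3 => ∏ j ∈ Q.erase i, kst r4 (x i - x j)) :=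
    fun i => BM.prod _ fun j _ => bm_diff (kst_bm r4) i j
  have hP0 : ∀ (i : Fin N) (x : Fin N → R3), 0 ≤ ∏ j ∈ Q.erase i, kst r4 (x i - x j) :=
    fun i x => Finset.prod_nonneg fun j _ => kst_nonneg _ _
  refine ⟨kst_bm r4, fun t => ⟨kst_nonneg r4 t, kst_le_one r4 t⟩,
    fun u => (hone u).trans hB3, ?_, ?_, ?_, ?_⟩
  · exact BM.sum _ fun i _ => hP i
  · exact fun x => Finset.sum_nonneg fun i _ => hP0 i x
  · intro x hx i hi j hj
    obtain ⟨c, hc, hcx⟩ := Finset.exists_ne_zero_of_sum_ne_zero hx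
    have hd : ∀ a ∈ Q, ‖x c - x a‖ ≤ 4 * r4 := by
      intro a ha
      by_cases hac : a = c
      · subst hac
        simp
        linarith
      · exact kst_norm (Finset.prod_ne_zero_iff.1 hcx a (Finset.mem_erase.2 ⟨hac, ha⟩))
    calc ‖x i - x j‖ = ‖(x c - x j) - (x c - x i)‖ := by congr 1; abel
      _ ≤ ‖x c - x j‖ + ‖x c - x i‖ := norm_sub_le _ _
      _ ≤ 8 * r4 := by linarith [hd i hi, hd j hj]
  · intro l hl x
    have hc3 : (Q.erase l).card = 3 := by rw [Finset.card_erase_of_mem hl, hQ]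
    have hsum : Mg ν (Q.erase l) (KQ r4 Q) x =
        ∑ i ∈ Q, Mg ν (Q.erase l) (fun x : Fin N → R3 => ∏ j ∈ Q.erase i, kst r4 (x i - x j)) x := by
      have := Mg_sum (lam := ν) (A := Q.erase l) Q (fun i _ => hP i)
      unfold KQ
      rw [this]
    rw [hsum]
    have hall : ∀ i ∈ Q, Mg ν (Q.erase l)
        (fun x : Fin N → R3 => ∏ j ∈ Q.erase i, kst r4 (x i - x j)) x ≤ (1 + C1) ^ 3 := by
      intro i hi
      by_cases hil : i = l
      · subst hil
        rw [Mg_prod (fun _ => kst r4) (fun _ => kst_bm r4) i (Q.erase i)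
          (Finset.notMem_erase i Q)]
        simp only [Finset.prod_const, hc3]
        exact pow_le_pow_left₀ (integral_nonneg fun t => kst_nonneg _ _) (hone (x i)) 3
      · have hli : l ≠ i := fun h => hil h.symm
        have hiE : i ∈ Q.erase l := Finset.mem_erase.2 ⟨hil, hi⟩
        have e1 : Q.erase i = (Q.erase l).erase i ∪ {l} := by
          ext j
          simp only [Finset.mem_erase, Finset.mem_union, Finset.mem_singleton]
          constructor
          · rintro ⟨h1, h2⟩
            by_cases h3 : j = l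
            · exact Or.inr h3
            · exact Or.inl ⟨h1, h3, h2⟩
          · rintro (⟨h1, -, h3⟩ | h1)
            · exact ⟨h1, h3⟩
            · subst h1
              exact ⟨hli, hl⟩
        have e2 : Q.erase l = insert i ((Q.erase l).erase i) := (Finset.insert_erase hiE).symm
        have hBd : ∫ t, ∏ j ∈ ({l} : Finset (Fin N)), kst r4 (t - x j) ∂ν ≤ 1 + C1 := by
          simp only [Finset.prod_singleton]
          exact htwo (x l)
        have key := Mg_le (ν := ν) (fun _ => kst r4) (fun _ => kst_bm r4)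
          (fun _ => kst_nonneg r4) i ((Q.erase l).erase i) {l}
          (Finset.notMem_erase i _) (by simpa using hil)
          (by
            rw [Finset.disjoint_singleton_right]
            simp)
          (fun _ => 1 + C1) (1 + C1) (fun _ _ c => hone c) x hBd
        rw [← e1, ← e2] at key
        refine key.trans (le_of_eq ?_)
        rw [Finset.prod_const, Finset.card_erase_of_mem hiE, hc3]
        ring
    calc ∑ i ∈ Q, Mg ν (Q.erase l)
          (fun x : Fin N → R3 => ∏ j ∈ Q.erase i, kst r4 (x i - x j)) x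
        ≤ ∑ _i ∈ Q, (1 + C1) ^ 3 := Finset.sum_le_sum hall
      _ = 4 * (1 + C1) ^ 3 := by rw [Finset.sum_const, hQ]; simp

end Pool.Agent.Lib.MP_5db8e2_mp
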