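import Pool.Agent.Lib.MP_5db8e2_mp.LB.KerW3

/-!
# Lower bound, part 5: the charges of the quadruples (`S_KerW4`)
-/

set_option autoImplicit false

open MeasureTheory Function Finset
open scoped Classical

namespace Pool.Agent.Lib.MP_5db8e2_mp

open PutAux KerWAux

/-- Properties of the charges of the quadruples. -/
theorem KerW4 (hW : S_WinFacts) (hWd : S_WdWin) (_hPut : S_Put) (hCl : S_ClInt) (hS : S_Supp)
    (hBM : S_BMall) : S_KerW4 := by
  intro K
  obtain ⟨CW, hCW, hW⟩ := hW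
  refine ⟨262144 * (K ^ 2 + 1), by positivity, ?_⟩
  intro V b R r r4 W QQ c hc p hp hL a ha
  have hr41 : (1 : ℝ) ≤ r4 := hc.hr.trans hc.hr4
  have hr4 : 0 ≤ r4 := by linarith
  have hr40 : 0 < r4 := by linarith
  have hK0 : 0 ≤ K := by linarith [hc.hK]
  have hs1 := hp.hs
  have hs0 : 0 < p.s := by linarith
  obtain ⟨hthc, hth01, hths, hthL, -, -, -, hthi, hthI⟩ := hW p.s p.e hp.hs hp.he hp.he' a
  obtain ⟨hwd, hQOm⟩ := hWd p hp a ha
  have hwm := hc.d4.w_meas
  have hwti := hc.d4.w_ti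
  have hws := hc.d4.w_supp
  have hwb := hc.d4.w_bd
  have hwi := hc.d4.w_int
  have hthm : Measurable (th p.s p.e a) := hthc.continuous.measurable
  have hth1 : ∀ z, |th p.s p.e a z| ≤ 1 := fun z => by
    rw [abs_of_nonneg (hth01 z).1]
    exact (hth01 z).2
  have hW4 : ∀ Q : Finset (Fin p.N), Q.card = 4 → ∀ x,
      p.W4 c a Q x = c.wq (pick 4 Q x) * th p.s p.e a (Par.cmA Q x) := fun Q hQ x => by
    unfold Par.W4
    rw [if_pos hQ]
  have hRI : RI c.wq := RI_of_bdd hwm hwb hws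
  have hput : ∀ (Q : Finset (Fin p.N)) (hQ4 : Q.card = 4) (x : Fin p.N → R3) (y : Fin 4 → R3),
      c.wq y ≠ 0 → th p.s p.e a (cm y) ≠ 0 → ∀ m, y m ∈ Om p.L := by
    intro Q hQ4 x y hy1 hy2 m
    have hth : th p.s p.e a (Par.cmA Q (put 4 Q y x)) ≠ 0 := by
      rw [cmA_put hQ4]
      exact hy2
    have hrad : rad (pick 4 Q (put 4 Q y x)) ≤ r4 := by
      rw [pick_put hQ4]
      exact hws y hy1
    have := supp_mem hS hp hr4 hL a hQ4 (by norm_num) hth hrad (Q.orderEmbOfFin hQ4 m)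
      (Finset.orderEmbOfFin_mem Q hQ4 m)
    rw [put_emb hQ4] at this
    exact hQOm this
  refine ⟨fun Q => ?_, fun Q x x' hxx => ?_, fun Q x h0 j hj => ?_, fun Q hQ x => ?_,
    fun Q hQ x => ?_⟩
  · by_cases hQ : Q.card = 4
    · have h1 : p.W4 c a Q = fun x => c.wq (pick 4 Q x) * th p.s p.e a (Par.cmA Q x) := by
        funext x
        exact hW4 Q hQ x
      rw [h1]
      refine BM.mul ?_ ⟨hthm.comp (measurable_cmA Q), 1, fun x => hth1 _⟩
      obtain ⟨-, -, -, -, -, h2, -⟩ := hBM V b K R r r4 W QQ c hc p hp (fun _ => 0) (BM.const 0) Q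
      exact h2
    · have h1 : p.W4 c a Q = fun _ => 0 := by
        funext x
        unfold Par.W4
        rw [if_neg hQ]
      rw [h1]
      exact BM.const 0
  · unfold Par.W4
    rw [pick_dep 4 Q (fun i hi => hxx i hi), cmA_dep Q (fun i hi => hxx i hi)]
  · by_cases hQ : Q.card = 4
    · rw [hW4 Q hQ] at h0
      exact supp_mem hS hp hr4 hL a hQ (by norm_num) (right_ne_zero_of_mul h0)
        (hws _ (left_ne_zero_of_mul h0)) j hj
    · exact absurd (by unfold Par.W4; rw [if_neg hQ]) h0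
  · have hQ4 : Q.card = 4 := (Finset.mem_powersetCard.1 hQ).2
    have h1 := hCl p 4 Q hQ4 x (p.W4 c a Q) (fun y => th p.s p.e a (cm y) * c.wq y) (fun y => by
      rw [hW4 Q hQ4, pick_put hQ4, cmA_put hQ4, mul_comm]) (fun y hy =>
        hput Q hQ4 x y (right_ne_zero_of_mul hy) (left_ne_zero_of_mul hy))
    rw [h1]
    have h2 := (integral_weight (k := 3) hwm hwti hRI (ℓ := cm) continuous_cm.measurable
      (fun x v => cm_shift (by norm_num) x v) hthi).2
    rw [h2, hthI, hwi, mul_comm]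
  · have hQ4 : Q.card = 4 := (Finset.mem_powersetCard.1 hQ).2
    have h1 := hCl p 4 Q hQ4 x (fun y => p.W4 c a Q y ^ 2)
      (fun y => th p.s p.e a (cm y) ^ 2 * c.wq y ^ 2) (fun y => by
      rw [hW4 Q hQ4, pick_put hQ4, cmA_put hQ4]
      ring) (fun y hy => by
        have h3 := right_ne_zero_of_mul hy
        have h4 := left_ne_zero_of_mul hy
        exact hput Q hQ4 x y (fun h => h3 (by rw [h]; norm_num)) (fun h => h4 (by rw [h]; norm_num)))
    rw [h1]
    have hb0 : 0 ≤ (K / r4 ^ 9) ^ 2 := by positivity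
    have hF2 : Measurable fun y : Fin 4 → R3 => c.wq y ^ 2 := hwm.pow_const 2
    have hFb : ∀ y, |c.wq y ^ 2| ≤ (K / r4 ^ 9) ^ 2 := fun y => by
      rw [abs_pow]
      exact pow_le_pow_left₀ (abs_nonneg _) (hwb y) 2
    have hFt : TI fun y : Fin 4 → R3 => c.wq y ^ 2 := fun y v => by
      show c.wq _ ^ 2 = _
      rw [hwti y v]
    have hFs : ∀ y : Fin 4 → R3, c.wq y ^ 2 ≠ 0 → rad y ≤ r4 := fun y hy =>
      hws y fun h => hy (by rw [h]; norm_num)
    have hFI : RI fun y : Fin 4 → R3 => c.wq y ^ 2 := RI_of_bdd hF2 hFb hFs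
    have hh : Integrable fun z => th p.s p.e a z ^ 2 := by
      refine hthi.mono' (hthm.pow_const 2).aestronglyMeasurable
        (Filter.Eventually.of_forall fun z => ?_)
      rw [Real.norm_eq_abs, abs_of_nonneg (sq_nonneg _)]
      have := hth01 z
      nlinarith
    have h2 := (integral_weight (k := 3) hF2 hFt hFI (ℓ := cm) continuous_cm.measurable
      (fun x v => cm_shift (by norm_num) x v) hh).2
    rw [h2]
    have h3 : ∫ z, th p.s p.e a z ^ 2 ≤ p.s ^ 3 := by
      rw [← hthI]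
      refine integral_mono hh hthi fun z => ?_
      have := hth01 z
      show th p.s p.e a z ^ 2 ≤ th p.s p.e a z
      nlinarith
    have h4 : rint (fun y : Fin 4 → R3 => c.wq y ^ 2) ≤ 262144 * K ^ 2 * (1 / r4) ^ 9 := by
      have h5 := (int_ball (k := 3) (z := 0) (ρ := 2 * r4) (B := (K / r4 ^ 9) ^ 2)
        (f := fun y => c.wq (Fin.cons 0 y) ^ 2) (hF2.comp measurable_cons0) (by positivity)
        (fun y => hFb _) (fun y hy => by
          rw [sub_zero]
          exact (norm_le_rad_cons y).trans (by linarith [hFs _ hy]))).2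
      have h6 : (K / r4 ^ 9) ^ 2 * (2 * (2 * r4)) ^ (3 * 3) = 262144 * K ^ 2 * (1 / r4) ^ 9 := by
        field_simp
        ring
      rw [h6] at h5
      exact (le_abs_self _).trans h5
    have h7 : 0 ≤ ∫ z, th p.s p.e a z ^ 2 := integral_nonneg fun z => sq_nonneg _
    have h8 : 0 ≤ 262144 * K ^ 2 * (1 / r4) ^ 9 := by positivity
    calc (∫ z, th p.s p.e a z ^ 2) * rint (fun y : Fin 4 → R3 => c.wq y ^ 2)
        ≤ (∫ z, th p.s p.e a z ^ 2) * (262144 * K ^ 2 * (1 / r4) ^ 9) :=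
          mul_le_mul_of_nonneg_left h4 h7
      _ ≤ p.s ^ 3 * (262144 * K ^ 2 * (1 / r4) ^ 9) := mul_le_mul_of_nonneg_right h3 h8
      _ ≤ p.s ^ 3 * (262144 * (K ^ 2 + 1) * (1 / r4) ^ 9) := by
          gcongr
          linarith
      _ = 262144 * (K ^ 2 + 1) * p.s ^ 3 * (1 / r4) ^ 9 := by ring

end Pool.Agent.Lib.MP_5db8e2_mp
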