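import Pool.Agent.Lib.MP_5db8e2_mp.LB.Spec1

/-!
# Averages are bounded in `L²(Q)`
-/

set_option autoImplicit false

open MeasureTheory Function Finset
open scoped Classical

namespace Pool.Agent.Lib.MP_5db8e2_mp

/-- `Mg ν A (∏_{j∈A} 1_Q(x_j)) = ν(Q)^{|A|}`. -/
theorem L2Q_Mg_prod_ind {N : ℕ} {ν : Measure R3} [IsFiniteMeasure ν] {Q : Set R3}
    (hQ : MeasurableSet Q) (A : Finset (Fin N)) :
    Mg ν A (fun x : Fin N → R3 => ∏ j ∈ A, ind Q (x j)) = fun _ => ν.real Q ^ A.card := by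
  induction A using Finset.induction_on with
  | empty =>
    rw [Mg_empty]
    simp
  | insert i A hi ih =>
    rw [Mg_insert (BM_prod_ind hQ _) hi]
    have e : (fun x : Fin N → R3 => ∏ j ∈ insert i A, ind Q (x j))
        = fun x => ind Q (x i) * ∏ j ∈ A, ind Q (x j) := by
      ext1 x; rw [Finset.prod_insert hi]
    rw [e, Mg_mul_left (h := fun x : Fin N → R3 => ind Q (x i)) _ (by
      intro x y hxy
      have := hxy i (by simpa using hi)
      simp [this]), ih, Mg_singleton]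
    ext1 x
    simp only [Function.update_self]
    rw [integral_mul_const, Finset.card_insert_of_notMem hi, pow_succ']
    congr 1
    unfold ind
    rw [integral_indicator hQ]
    simp [Measure.real]

/-- **L2Q.** -/
theorem L2Q : S_L2Q := by
  intro N ν _ m g Q B hW f w hf hw hw0 A hwd
  have hm : 0 < m := lt_of_lt_of_le one_pos hW.hm
  have hav := av_bm (A := A) hW hf
  have hP := BM_prod_ind (N := N) hW.Q_meas A
  have hbm : BM (fun x : Fin N → R3 => w x * ((∏ j ∈ A, ind Q (x j)) * (av ν g A f x) ^ 2)) :=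
    hw.mul (hP.mul (hav.pow 2))
  set x0 : Fin N → R3 := fun _ => 0 with hx0
  rw [integral_eq_out hbm x0 A]
  have hdep : DependsOn (fun x : Fin N → R3 => w x * (av ν g A f x) ^ 2) ((A : Set (Fin N))ᶜ) := by
    intro x y hxy
    have h1 := hwd hxy
    have h2 := av_dep (ν := ν) (g := g) f hxy
    simp only [h1, h2]
  have e1 : Mg ν A (fun x : Fin N → R3 => w x * ((∏ j ∈ A, ind Q (x j)) * (av ν g A f x) ^ 2))
      = fun x => w x * (av ν g A f x) ^ 2 * ν.real Q ^ A.card := by
    have e2 : (fun x : Fin N → R3 => w x * ((∏ j ∈ A, ind Q (x j)) * (av ν g A f x) ^ 2))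
        = fun x => (w x * (av ν g A f x) ^ 2) * ∏ j ∈ A, ind Q (x j) := by
      ext1 x; ring
    rw [e2, Mg_mul_left _ hdep, L2Q_Mg_prod_ind hW.Q_meas]
  rw [e1]
  have h3 : out ν x0 A (fun x => w x * (av ν g A f x) ^ 2 * ν.real Q ^ A.card)
      ≤ out ν x0 A (fun x => (8 * m) ^ A.card * (w x * (av ν g A f x) ^ 2)) := by
    refine out_mono ((hw.mul (hav.pow 2)).mul (BM.const _)) ((hw.mul (hav.pow 2)).const_mul _) x0
      (fun x => ?_)
    rw [mul_comm]
    refine mul_le_mul_of_nonneg_right ?_ (mul_nonneg (hw0 x) (sq_nonneg _))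
    exact pow_le_pow_left₀ measureReal_nonneg hW.Q_vol _
  refine h3.trans ?_
  have h4 := out_av_sq_le hW hf hw hw0 hwd x0
  have h5 : out ν x0 A (fun x => (8 * m) ^ A.card * (w x * (av ν g A f x) ^ 2))
      = (8 * m) ^ A.card * out ν x0 A (fun x => w x * (av ν g A f x) ^ 2) := by
    unfold out
    exact congrFun (Mg_const_mul _ _) x0
  rw [h5]
  calc (8 * m) ^ A.card * out ν x0 A (fun x => w x * (av ν g A f x) ^ 2)
      ≤ (8 * m) ^ A.card * ((1 / m) ^ A.card *
          ∫ x, w x * ((∏ j ∈ A, ind Q (x j)) * f x ^ 2) ∂pin ν N) :=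
        mul_le_mul_of_nonneg_left h4 (by positivity)
    _ = 8 ^ A.card * ∫ x, w x * ((∏ j ∈ A, ind Q (x j)) * f x ^ 2) ∂pin ν N := by
        rw [← mul_assoc, ← mul_pow]
        congr 2
        field_simp

end Pool.Agent.Lib.MP_5db8e2_mp
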