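import Pool.Agent.Lib.MP_5db8e2_mp.LB.Spec1

/-!
# Upper bound of the main term of a window
-/

set_option autoImplicit false

open MeasureTheory Function Finset
open scoped Classical

namespace Pool.Agent.Lib.MP_5db8e2_mp

variable {N : ℕ} {ν : Measure R3} [IsFiniteMeasure ν] {m : ℝ} {g : R3 → ℝ} {Q B : Set R3}
  {f : (Fin N → R3) → ℝ}

omit [IsFiniteMeasure ν] in
/-- If all the weights are nonzero, the particles of `A` are in `B`. -/
theorem mu_cnt (h : Wd ν m g Q B) (A : Finset (Fin N)) (x : Fin N → R3)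
    (hx : ∏ j ∈ A, g (x j) ≠ 0) : cnt B univ x - A.card = cnt B Aᶜ x := by
  have hA : ∀ j ∈ A, x j ∈ B := fun j hj =>
    h.Q_sub (h.g_supp _ (Finset.prod_ne_zero_iff.1 hx j hj))
  have h1 : cnt B univ x = cnt B A x + cnt B Aᶜ x := by
    have : (cnt B univ x : ℝ) = (cnt B A x : ℝ) + (cnt B Aᶜ x : ℝ) := by
      rw [cnt_eq_sum, cnt_eq_sum, cnt_eq_sum, Finset.sum_add_sum_compl]
    exact_mod_cast this
  have h2 : cnt B A x = A.card := by
    unfold cnt
    congr 1
    exact Finset.filter_true_of_mem hA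
  omega

omit [IsFiniteMeasure ν] in
theorem mu_lam_dep (A : Finset (Fin N)) (lam : ℕ → ℝ) :
    DependsOn (fun x : Fin N → R3 => lam (cnt B Aᶜ x)) ((A : Set (Fin N))ᶜ) := by
  intro x y hxy
  have h := cnt_dep (N := N) B Aᶜ (x := x) (y := y) (fun i hi => hxy i (by simpa using hi))
  simp only at h ⊢
  rw [h]

/-- The main term with the average of `f` instead of the square of the average. -/
theorem mu_out_eq (h : Wd ν m g Q B) (hf : BM f) (x0 : Fin N → R3) (A : Finset (Fin N))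
    (lam : ℕ → ℝ) :
    out ν x0 A (fun x => lam (cnt B Aᶜ x) * av ν g A f x) =
      ∫ x, lam (cnt B univ x - A.card) * ((∏ j ∈ A, g (x j)) * f x) ∂pin ν N := by
  have hP : BM (fun x : Fin N → R3 => (∏ j ∈ A, g (x j)) * f x) :=
    (BM.prod A fun j _ => h.bm.comp (measurable_pi_apply j)).mul hf
  have hlam : BM (fun x : Fin N → R3 => lam (cnt B Aᶜ x)) := BM_cnt_comp h.B_meas Aᶜ lam
  have e : ∀ x : Fin N → R3, lam (cnt B univ x - A.card) * ((∏ j ∈ A, g (x j)) * f x) =
      lam (cnt B Aᶜ x) * ((∏ j ∈ A, g (x j)) * f x) := by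
    intro x
    by_cases hx : ∏ j ∈ A, g (x j) = 0
    · rw [hx]
      ring
    · rw [mu_cnt h A x hx]
  simp only [e]
  rw [integral_eq_out (hlam.mul hP) x0 A, Mg_mul_left _ (mu_lam_dep A lam), av_eq h hf]

theorem mu_sum (h : Wd ν m g Q B) (hf : BM f) (k : ℕ) (lam : ℕ → ℝ) :
    ∑ A ∈ powersetCard k (univ : Finset (Fin N)),
      ∫ x, lam (cnt B univ x - A.card) * ((∏ j ∈ A, g (x j)) * f x) ∂pin ν N =
      ∫ x, lam (cnt B univ x - k) * esy g k x * f x ∂pin ν N := by
  have hlam : ∀ n : ℕ, BM (fun x : Fin N → R3 => lam (cnt B univ x - n)) := fun n =>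
    BM_cnt_comp h.B_meas univ (fun c => lam (c - n))
  have hb : ∀ A ∈ powersetCard k (univ : Finset (Fin N)), BM (fun x : Fin N → R3 =>
      lam (cnt B univ x - A.card) * ((∏ j ∈ A, g (x j)) * f x)) := fun A _ =>
    (hlam _).mul ((BM.prod A fun j _ => h.bm.comp (measurable_pi_apply j)).mul hf)
  rw [← integral_finsetSum _ fun A hA => (hb A hA).integrable _]
  congr 1
  ext1 x
  unfold esy
  rw [Finset.mul_sum, Finset.sum_mul]
  refine Finset.sum_congr rfl fun A hA => ?_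
  rw [(Finset.mem_powersetCard.1 hA).2]
  ring

/-- **Upper bound of the main term.** -/
theorem MainUpper : S_MainUpper := by
  intro N ν _ m g Q B h Ψ hΨ x0 k lam hlam
  rw [← mu_sum h (hΨ.pow 2) k lam]
  refine Finset.sum_le_sum fun A _ => ?_
  rw [← mu_out_eq h (hΨ.pow 2) x0 A lam]
  have hl : BM (fun x : Fin N → R3 => lam (cnt B Aᶜ x)) := BM_cnt_comp h.B_meas Aᶜ lam
  exact out_mono (hl.mul ((av_bm h hΨ).pow 2)) (hl.mul (av_bm h (hΨ.pow 2))) x0 fun x =>
    mul_le_mul_of_nonneg_left (av_sq_le h hΨ x) (hlam _)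

end Pool.Agent.Lib.MP_5db8e2_mp
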