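import Pool.Agent.Lib.MP_5db8e2_mp.LB.Spec8

/-!
# Lower bound: the main terms
-/

set_option autoImplicit false

open MeasureTheory Function Finset
open scoped Classical

namespace Pool.Agent.Lib.MP_5db8e2_mp

namespace MainsAux

variable {N : ℕ} {ν : Measure R3} {m : ℝ} {g : R3 → ℝ} {Q B : Set R3} {Ψ : (Fin N → R3) → ℝ}

theorem choose_mul_le {lam : ℕ → ℝ} (h0 : ∀ n, 0 ≤ lam n) {u : ℕ} {c : ℝ} (hc : 0 ≤ c)
    (hl : ∀ n : ℕ, ((n + u : ℕ) : ℝ) ^ u * lam n ≤ c) (n : ℕ) :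
    (n.choose u : ℝ) * lam (n - u) ≤ c := by
  rcases lt_or_ge n u with h | h
  · rw [Nat.choose_eq_zero_of_lt h]
    simpa using hc
  · obtain ⟨k, rfl⟩ := Nat.exists_eq_add_of_le' h
    rw [Nat.add_sub_cancel]
    refine le_trans (mul_le_mul_of_nonneg_right ?_ (h0 k)) (hl k)
    exact_mod_cast Nat.choose_le_pow (k + u) u

theorem choose_mul_le' {lam : ℕ → ℝ} (h0 : ∀ n, 0 ≤ lam n) {u : ℕ} {c : ℝ} (hc : 0 ≤ c)
    (hl : ∀ n : ℕ, ((n + u + 1 : ℕ) : ℝ) ^ u * lam n ≤ c) (n : ℕ) :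
    (n.choose (u + 1) : ℝ) * lam (n - (u + 1)) ≤ c * n := by
  rcases lt_or_ge n (u + 1) with h | h
  · rw [Nat.choose_eq_zero_of_lt h]
    simp only [Nat.cast_zero, zero_mul]
    positivity
  · obtain ⟨k, rfl⟩ := Nat.exists_eq_add_of_le' h
    rw [Nat.add_sub_cancel]
    have h1 : (((k + (u + 1)).choose (u + 1) : ℕ) : ℝ) ≤ ((k + (u + 1) : ℕ) : ℝ) ^ (u + 1) := by
      exact_mod_cast Nat.choose_le_pow (k + (u + 1)) (u + 1)
    calc (((k + (u + 1)).choose (u + 1) : ℕ) : ℝ) * lam k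
        ≤ ((k + (u + 1) : ℕ) : ℝ) ^ (u + 1) * lam k := mul_le_mul_of_nonneg_right h1 (h0 k)
      _ = (((k + u + 1 : ℕ) : ℝ) ^ u * lam k) * ((k + (u + 1) : ℕ) : ℝ) := by
          rw [pow_succ, ← add_assoc]
          ring
      _ ≤ c * ((k + (u + 1) : ℕ) : ℝ) := mul_le_mul_of_nonneg_right (hl k) (Nat.cast_nonneg _)

theorem esy_bm (h : Wd ν m g Q B) (k : ℕ) : BM (fun x : Fin N → R3 => esy g k x) := by
  unfold esy
  exact BM.sum _ fun A _ => BM.prod _ fun j _ => h.bm.comp (measurable_pi_apply j)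

theorem esy_nonneg (h : Wd ν m g Q B) (k : ℕ) (x : Fin N → R3) : 0 ≤ esy g k x :=
  Finset.sum_nonneg fun _ _ => Finset.prod_nonneg fun _ _ => h.g_nonneg _

theorem esy_le (hCo : S_CountK) (h : Wd ν m g Q B) (k : ℕ) (x : Fin N → R3) :
    esy g k x ≤ (1 / m) ^ k * ((cnt Q univ x).choose k : ℝ) := by
  rw [← hCo Q univ k x, Finset.mul_sum]
  unfold esy
  refine Finset.sum_le_sum fun A hA => ?_
  have hk : A.card = k := (Finset.mem_powersetCard.1 hA).2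
  calc ∏ j ∈ A, g (x j) ≤ ∏ j ∈ A, (1 / m * ind Q (x j)) :=
        Finset.prod_le_prod (fun j _ => h.g_nonneg _) fun j _ => h.g_le_ind _
    _ = (1 / m) ^ k * ∏ j ∈ A, ind Q (x j) := by
        rw [Finset.prod_mul_distrib, Finset.prod_const, hk]

theorem cnt_mono_set {Z Z' : Set R3} (h : Z ⊆ Z') (A : Finset (Fin N)) (x : Fin N → R3) :
    cnt Z A x ≤ cnt Z' A x := by
  unfold cnt
  refine Finset.card_le_card fun j hj => ?_
  rw [Finset.mem_filter] at hj ⊢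
  exact ⟨hj.1, h hj.2⟩

theorem win_bound [IsFiniteMeasure ν] (hCo : S_CountK) (h : Wd ν m g Q B) (hΨ : BM Ψ)
    {lam : ℕ → ℝ} (h0 : ∀ n, 0 ≤ lam n) (hanti : Antitone lam) {u : ℕ} {c : ℝ} (hc : 0 ≤ c)
    (hl : ∀ n : ℕ, ((n + u + 1 : ℕ) : ℝ) ^ u * lam n ≤ c) :
    ∫ x, lam (cnt B univ x - (u + 1)) * esy g (u + 1) x * Ψ x ^ 2 ∂pin ν N
      ≤ (1 / m) ^ (u + 1) * c * Nw ν Q Ψ := by
  have hm : (0 : ℝ) < m := lt_of_lt_of_le one_pos h.hm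
  have hbm1 : BM (fun x : Fin N → R3 =>
      lam (cnt B univ x - (u + 1)) * esy g (u + 1) x * Ψ x ^ 2) :=
    ((BM_cnt_comp h.B_meas univ (fun n => lam (n - (u + 1)))).mul (esy_bm h (u + 1))).mul
      (hΨ.pow 2)
  have hbm2 : BM (fun x : Fin N → R3 =>
      (1 / m) ^ (u + 1) * c * ((cnt Q univ x : ℝ) * Ψ x ^ 2)) :=
    ((BM_cnt h.Q_meas univ).mul (hΨ.pow 2)).const_mul _
  have hpt : ∀ x : Fin N → R3, lam (cnt B univ x - (u + 1)) * esy g (u + 1) x * Ψ x ^ 2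
      ≤ (1 / m) ^ (u + 1) * c * ((cnt Q univ x : ℝ) * Ψ x ^ 2) := by
    intro x
    rw [← mul_assoc]
    refine mul_le_mul_of_nonneg_right ?_ (sq_nonneg _)
    have h1 : lam (cnt B univ x - (u + 1)) ≤ lam (cnt Q univ x - (u + 1)) :=
      hanti (Nat.sub_le_sub_right (cnt_mono_set h.Q_sub univ x) _)
    have h2 := choose_mul_le' h0 hc hl (cnt Q univ x)
    have hpos : (0 : ℝ) ≤ (1 / m) ^ (u + 1) := by positivity
    calc lam (cnt B univ x - (u + 1)) * esy g (u + 1) x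
        ≤ lam (cnt Q univ x - (u + 1)) *
          ((1 / m) ^ (u + 1) * ((cnt Q univ x).choose (u + 1) : ℝ)) :=
          mul_le_mul h1 (esy_le hCo h _ x) (esy_nonneg h _ x) (h0 _)
      _ = (1 / m) ^ (u + 1) *
          (((cnt Q univ x).choose (u + 1) : ℝ) * lam (cnt Q univ x - (u + 1))) := by ring
      _ ≤ (1 / m) ^ (u + 1) * (c * (cnt Q univ x : ℝ)) := mul_le_mul_of_nonneg_left h2 hpos
      _ = (1 / m) ^ (u + 1) * c * (cnt Q univ x : ℝ) := by ring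
  calc ∫ x, lam (cnt B univ x - (u + 1)) * esy g (u + 1) x * Ψ x ^ 2 ∂pin ν N
      ≤ ∫ x, (1 / m) ^ (u + 1) * c * ((cnt Q univ x : ℝ) * Ψ x ^ 2) ∂pin ν N :=
        integral_mono (hbm1.integrable _) (hbm2.integrable _) hpt
    _ = (1 / m) ^ (u + 1) * c * Nw ν Q Ψ := by
        rw [integral_const_mul]
        rfl

theorem Dw_nonneg (ν : Measure R3) (g : R3 → ℝ) (Q : Set R3) (f : (Fin N → R3) → ℝ) :
    0 ≤ Dw ν g Q f :=
  Finset.sum_nonneg fun _ _ => integral_nonneg fun _ => mul_nonneg (ind_nonneg _ _) (sq_nonneg _)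

theorem Nw_nonneg (ν : Measure R3) (Q : Set R3) (f : (Fin N → R3) → ℝ) :
    0 ≤ Nw ν Q f :=
  integral_nonneg fun _ => mul_nonneg (Nat.cast_nonneg _) (sq_nonneg _)

end MainsAux

open MainsAux

/-- **Mains.** The main terms. -/
theorem Mains (hU : S_MainUpper) (hL : S_MainLower) (hC : S_Counts) (hCo : S_CountK)
    (hO : S_Overlap) (hWd : S_WdWin) : S_Mains := by
  refine ⟨8, by norm_num, fun p hp Ψ hΨ => ?_⟩
  obtain ⟨c1, c2, c3, c4, -, -, c7, c8, c9, c10, -⟩ := hC p.M hp.hM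
  have hM : (0 : ℝ) ≤ p.M := le_trans (by norm_num) hp.hM
  have hs : (0 : ℝ) < p.s := lt_of_lt_of_le one_pos hp.hs
  have hs3 : (0 : ℝ) < p.s ^ 3 := by positivity
  have hmu : (0 : ℝ) ≤ p.mu := div_nonneg hM hs3.le
  have l3n : ∀ n, 0 ≤ lam3 p.M n := fun n => (c1 n).1
  have l4n : ∀ n, 0 ≤ lam4 p.M n := fun n => (c3 n).1
  have hD : 0 ≤ p.D Ψ := Finset.sum_nonneg fun _ _ => Dw_nonneg _ _ _ _
  have hNn : 0 ≤ p.Nn Ψ := Finset.sum_nonneg fun _ _ => Nw_nonneg _ _ _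
  have hG3 : 0 ≤ p.G3 Ψ := Finset.sum_nonneg fun a _ => mul_nonneg hs3.le
    (Finset.sum_nonneg fun T _ => Mg_nonneg (fun x => mul_nonneg (l3n _) (sq_nonneg _)) _)
  have hG4 : 0 ≤ p.G4 Ψ := Finset.sum_nonneg fun a _ => mul_nonneg hs3.le
    (Finset.sum_nonneg fun T _ => Mg_nonneg (fun x => mul_nonneg (l4n _) (sq_nonneg _)) _)
  have hND : 0 ≤ p.ND Ψ := Finset.sum_nonneg fun a _ => integral_nonneg fun x => by
    refine mul_nonneg ?_ (sq_nonneg _)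
    split_ifs
    · exact Nat.cast_nonneg _
    · exact le_rfl
  have hNS : 0 ≤ p.NS Ψ := integral_nonneg fun x => mul_nonneg (Nat.cast_nonneg _) (sq_nonneg _)
  have hGT3 : p.G3 Ψ ≤ p.T3 Ψ := by
    refine Finset.sum_le_sum fun a ha => mul_le_mul_of_nonneg_left ?_ hs3.le
    exact hU p.nu (p.s ^ 3) (p.gd a) (Qc p.s a) (Bc p.s a) (hWd p hp a ha).1 Ψ hΨ 0 3
      (lam3 p.M) l3n
  have hGT4 : p.G4 Ψ ≤ p.T4 Ψ := by
    refine Finset.sum_le_sum fun a ha => mul_le_mul_of_nonneg_left ?_ hs3.le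
    exact hU p.nu (p.s ^ 3) (p.gd a) (Qc p.s a) (Bc p.s a) (hWd p hp a ha).1 Ψ hΨ 0 4
      (lam4 p.M) l4n
  have e3 : p.s ^ 3 * ((1 / p.s ^ 3) ^ 3 * (2 * p.M) ^ 2) = 4 * p.mu ^ 2 := by
    unfold Par.mu
    field_simp
    ring
  have e4 : p.s ^ 3 * ((1 / p.s ^ 3) ^ 4 * (2 * p.M) ^ 3) = 8 * p.mu ^ 3 := by
    unfold Par.mu
    field_simp
    ring
  have hTG3 : p.T3 Ψ - 8 * p.mu ^ 2 * p.D Ψ ≤ p.G3 Ψ := by
    have key : p.T3 Ψ ≤ p.G3 Ψ + 4 * p.mu ^ 2 * p.D Ψ := by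
      unfold Par.T3 Par.G3 Par.D
      rw [Finset.mul_sum, ← Finset.sum_add_distrib]
      refine Finset.sum_le_sum fun a ha => ?_
      have h1 := hL p.nu (p.s ^ 3) (p.gd a) (Qc p.s a) (Bc p.s a) (hWd p hp a ha).1 Ψ hΨ 0 3
        (lam3 p.M) l3n c2 ((2 * p.M) ^ 2) (by norm_num)
        (fun n => choose_mul_le l3n (sq_nonneg _) (fun n => c8 n 2 le_rfl) n)
      have h2 := mul_le_mul_of_nonneg_left h1 hs3.le
      rw [mul_sub, ← mul_assoc (p.s ^ 3) ((1 / p.s ^ 3) ^ 3 * (2 * p.M) ^ 2), e3] at h2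
      have h3 : p.s ^ 3 * ∑ A ∈ powersetCard 3 (univ : Finset (Fin p.N)),
          out p.nu 0 A (fun x => lam3 p.M (cnt (Bc p.s a) Aᶜ x) * (av p.nu (p.gd a) A Ψ x) ^ 2)
        = p.s ^ 3 * ∑ T ∈ powersetCard 3 (univ : Finset (Fin p.N)),
          out p.nu 0 T (fun x => p.l3 a T x * p.U a T Ψ x ^ 2) := rfl
      linarith [h2, h3]
    have : 0 ≤ p.mu ^ 2 * p.D Ψ := mul_nonneg (sq_nonneg _) hD
    nlinarith [key, this]
  have hTG4 : p.T4 Ψ - 8 * p.mu ^ 3 * p.D Ψ ≤ p.G4 Ψ := by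
    have key : p.T4 Ψ ≤ p.G4 Ψ + 8 * p.mu ^ 3 * p.D Ψ := by
      unfold Par.T4 Par.G4 Par.D
      rw [Finset.mul_sum, ← Finset.sum_add_distrib]
      refine Finset.sum_le_sum fun a ha => ?_
      have h1 := hL p.nu (p.s ^ 3) (p.gd a) (Qc p.s a) (Bc p.s a) (hWd p hp a ha).1 Ψ hΨ 0 4
        (lam4 p.M) l4n c4 ((2 * p.M) ^ 3) (by norm_num)
        (fun n => choose_mul_le l4n (by positivity) (fun n => c10 n 3 (by norm_num)) n)
      have h2 := mul_le_mul_of_nonneg_left h1 hs3.le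
      rw [mul_sub, ← mul_assoc (p.s ^ 3) ((1 / p.s ^ 3) ^ 4 * (2 * p.M) ^ 3), e4] at h2
      have h3 : p.s ^ 3 * ∑ A ∈ powersetCard 4 (univ : Finset (Fin p.N)),
          out p.nu 0 A (fun x => lam4 p.M (cnt (Bc p.s a) Aᶜ x) * (av p.nu (p.gd a) A Ψ x) ^ 2)
        = p.s ^ 3 * ∑ T ∈ powersetCard 4 (univ : Finset (Fin p.N)),
          out p.nu 0 T (fun x => p.l4 a T x * p.U a T Ψ x ^ 2) := rfl
      linarith [h2, h3]
    linarith [key]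
  have hT3N : p.T3 Ψ ≤ 4 * p.mu ^ 2 * p.Nn Ψ := by
    unfold Par.T3 Par.Nn
    rw [Finset.mul_sum]
    refine Finset.sum_le_sum fun a ha => ?_
    have h1 := win_bound hCo (hWd p hp a ha).1 hΨ l3n c2 (u := 2) (sq_nonneg (2 * p.M))
      (fun n => c7 n 2 le_rfl)
    have h2 := mul_le_mul_of_nonneg_left h1 hs3.le
    rw [← mul_assoc (p.s ^ 3) ((1 / p.s ^ 3) ^ (2 + 1) * (2 * p.M) ^ 2), e3] at h2
    exact h2
  have hT4N : p.T4 Ψ ≤ 8 * p.mu ^ 3 * p.Nn Ψ := by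
    unfold Par.T4 Par.Nn
    rw [Finset.mul_sum]
    refine Finset.sum_le_sum fun a ha => ?_
    have h1 := win_bound hCo (hWd p hp a ha).1 hΨ l4n c4 (u := 3)
      (c := (2 * p.M) ^ 3) (by positivity) (fun n => c9 n 3 (by norm_num))
    have h2 := mul_le_mul_of_nonneg_left h1 hs3.le
    rw [← mul_assoc (p.s ^ 3) ((1 / p.s ^ 3) ^ (3 + 1) * (2 * p.M) ^ 3), e4] at h2
    exact h2
  have hNnN : p.Nn Ψ ≤ 27 * p.N * p.nrm Ψ := by
    unfold Par.Nn Nw Par.nrm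
    have hQm : ∀ a ∈ p.win, MeasurableSet (Qc p.s a) := fun a ha => (hWd p hp a ha).1.Q_meas
    rw [← integral_finsetSum _ fun a ha =>
      ((BM_cnt (hQm a ha) univ).mul (hΨ.pow 2)).integrable _, ← integral_const_mul]
    refine integral_mono
      ((BM.sum p.win fun a ha => (BM_cnt (hQm a ha) univ).mul (hΨ.pow 2)).integrable _)
      (((hΨ.pow 2).const_mul _).integrable _) fun x => ?_
    show ∑ a ∈ p.win, (cnt (Qc p.s a) univ x : ℝ) * Ψ x ^ 2 ≤ 27 * p.N * Ψ x ^ 2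
    rw [← Finset.sum_mul]
    refine mul_le_mul_of_nonneg_right ?_ (sq_nonneg _)
    simp only [cnt_eq_sum]
    rw [Finset.sum_comm]
    calc ∑ j : Fin p.N, ∑ a ∈ p.win, ind (Qc p.s a) (x j)
        ≤ ∑ _j : Fin p.N, (27 : ℝ) := Finset.sum_le_sum fun j _ => (hO p hp).1 (x j)
      _ = 27 * p.N := by simp [mul_comm]
  have h32 : 0 ≤ p.mu ^ 2 * p.Nn Ψ := mul_nonneg (sq_nonneg _) hNn
  refine ⟨hG3, hG4, hD, hNn, hND, hNS, hGT3, hTG3, hGT4, hTG4, ?_, ?_, hNnN⟩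
  · nlinarith [hGT3, hT3N, h32]
  · linarith [hGT4, hT4N]

end Pool.Agent.Lib.MP_5db8e2_mp
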