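import Pool.Agent.Lib.MP_5db8e2_mp.LB.WdWin

/-!
# Lower bound, part 4: overlaps of the windows
-/

set_option autoImplicit false

open MeasureTheory Function Finset
open scoped Classical

namespace Pool.Agent.Lib.MP_5db8e2_mp

/-- Number of integers in a window of relative radius `r`. -/
theorem overlap_int (s : ℝ) (hs : 0 < s) (r : ℕ) (I : Finset ℤ) (c : ℝ) :
    (I.filter fun z : ℤ => |c - s * z| ≤ r * s).card ≤ 2 * r + 1 := by
  have hsub : (I.filter fun z : ℤ => |c - s * z| ≤ r * s) ⊆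
      Finset.Icc ⌈c / s - r⌉ ⌊c / s + r⌋ := by
    intro z hz
    rw [Finset.mem_filter] at hz
    have h := abs_le.1 hz.2
    rw [Finset.mem_Icc, Int.ceil_le, Int.le_floor]
    constructor
    · rw [sub_le_iff_le_add, div_le_iff₀ hs]
      nlinarith [h.2]
    · have : (z : ℝ) - r ≤ c / s := by
        rw [le_div_iff₀ hs]
        nlinarith [h.1]
      linarith
  refine (Finset.card_le_card hsub).trans ?_
  rw [Int.card_Icc]
  have h1 : ((⌊c / s + r⌋ + 1 - ⌈c / s - r⌉ : ℤ) : ℝ) ≤ 2 * r + 1 := by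
    push_cast
    have h2 := Int.floor_le (c / s + r)
    have h3 := Int.le_ceil (c / s - r)
    linarith
  have h2 : (⌊c / s + r⌋ + 1 - ⌈c / s - r⌉ : ℤ) ≤ 2 * r + 1 := by exact_mod_cast h1
  omega

theorem overlap_card (s : ℝ) (hs : 0 < s) (r K : ℕ) (c : R3) :
    ((winF K).filter fun a : Fin 3 → ℤ => ∀ k, |c k - s * a k| ≤ r * s).card ≤
      (2 * r + 1) ^ 3 := by
  have hsub : ((winF K).filter fun a : Fin 3 → ℤ => ∀ k, |c k - s * a k| ≤ r * s) ⊆
      Fintype.piFinset (fun k : Fin 3 =>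
        (Finset.Icc (-(K : ℤ)) (K : ℤ)).filter fun z : ℤ => |c k - s * z| ≤ r * s) := by
    intro a ha
    rw [Finset.mem_filter, winF, Fintype.mem_piFinset] at ha
    rw [Fintype.mem_piFinset]
    intro k
    rw [Finset.mem_filter]
    exact ⟨ha.1 k, ha.2 k⟩
  refine (Finset.card_le_card hsub).trans ?_
  rw [Fintype.card_piFinset]
  calc ∏ k : Fin 3, ((Finset.Icc (-(K : ℤ)) (K : ℤ)).filter
        fun z : ℤ => |c k - s * z| ≤ r * s).card
      ≤ ∏ _k : Fin 3, (2 * r + 1) :=
        Finset.prod_le_prod' fun k _ => overlap_int s hs r _ (c k)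
    _ = (2 * r + 1) ^ 3 := by simp

theorem overlap_sum (s : ℝ) (hs : 0 < s) (r K : ℕ) (c : R3) (S : (Fin 3 → ℤ) → Set R3)
    (hS : ∀ a c, c ∈ S a ↔ ∀ k, |c k - s * a k| ≤ r * s) :
    ∑ a ∈ winF K, ind (S a) c ≤ ((2 * r + 1) ^ 3 : ℕ) := by
  have h1 : ∑ a ∈ winF K, ind (S a) c =
      (((winF K).filter fun a : Fin 3 → ℤ => ∀ k, |c k - s * a k| ≤ r * s).card : ℝ) := by
    rw [Finset.card_filter]
    push_cast
    refine Finset.sum_congr rfl fun a _ => ?_
    rw [ind, Set.indicator_apply]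
    by_cases h : c ∈ S a
    · rw [if_pos h, if_pos ((hS a c).1 h)]
    · rw [if_neg h, if_neg (fun h' => h ((hS a c).2 h'))]
  rw [h1]
  exact_mod_cast overlap_card s hs r K c

theorem Overlap (hW : S_WinFacts) : S_Overlap := by
  obtain ⟨C, -, hC⟩ := hW
  intro p hp
  have hs : 0 < p.s := lt_of_lt_of_le one_pos hp.hs
  refine ⟨?_, ?_, ?_, ?_⟩
  · intro c
    have := overlap_sum p.s hs 1 p.K c (fun a => Qc p.s a) (fun a c => by simp [Qc])
    simpa [Par.win] using this.trans (by norm_num)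
  · intro c
    have := overlap_sum p.s hs 3 p.K c (fun a => Bc p.s a) (fun a c => by simp [Bc])
    simpa [Par.win] using this.trans (by norm_num)
  · rintro a a' ⟨c, hc, hc'⟩ c' hc'' k
    have h1 := abs_le.1 (hc k)
    have h2 := abs_le.1 (hc' k)
    have h3 := abs_le.1 (hc'' k)
    rw [abs_le]
    constructor <;> linarith [h1.1, h1.2, h2.1, h2.2, h3.1, h3.2]
  · intro a ha a' ha' c hc hc'
    have hA := (hC p.s p.e hp.hs hp.he hp.he' a).2.2.1 c hc
    have hA' := (hC p.s p.e hp.hs hp.he hp.he' a').2.2.1 c hc'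
    have hdist : ∀ k, |a k - a' k| ≤ 1 := by
      intro k
      have h1 := abs_le.1 (hA k)
      have h2 := abs_le.1 (hA' k)
      have h3 : 0 < p.e * p.s := mul_pos hp.he hs
      have h4 : ((a k : ℝ) - a' k) * p.s < 2 * p.s := by linarith [h1.1, h2.2]
      have h5 : (-2) * p.s < ((a k : ℝ) - a' k) * p.s := by linarith [h1.2, h2.1]
      have h6 : (a k : ℝ) - a' k < 2 := lt_of_mul_lt_mul_right h4 hs.le
      have h7 : (-2 : ℝ) < (a k : ℝ) - a' k := lt_of_mul_lt_mul_right h5 hs.le
      have h8 : a k - a' k < 2 := by exact_mod_cast h6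
      have h9 : -2 < a k - a' k := by exact_mod_cast h7
      rw [abs_le]; omega
    set lo : R3 := fun k => p.s * ((max (a k) (a' k) : ℤ) : ℝ) - p.s with hlo
    set hi : R3 := fun k => lo k + p.s with hhi
    have hbox : Set.Icc lo hi ⊆ Qc p.s a ∩ Qc p.s a' := by
      intro x hx
      have hx1 : ∀ k, lo k ≤ x k := hx.1
      have hx2 : ∀ k, x k ≤ lo k + p.s := hx.2
      have key : ∀ k, ∀ z : ℤ, z ≤ max (a k) (a' k) → max (a k) (a' k) ≤ z + 1 →
          |x k - p.s * z| ≤ p.s := by
        intro k z hz1 hz2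
        have e1 : (z : ℝ) ≤ ((max (a k) (a' k) : ℤ) : ℝ) := by exact_mod_cast hz1
        have e2 : ((max (a k) (a' k) : ℤ) : ℝ) ≤ z + 1 := by exact_mod_cast hz2
        have f1 : p.s * (z : ℝ) ≤ p.s * ((max (a k) (a' k) : ℤ) : ℝ) :=
          mul_le_mul_of_nonneg_left e1 hs.le
        have f2 : p.s * ((max (a k) (a' k) : ℤ) : ℝ) ≤ p.s * (z + 1) :=
          mul_le_mul_of_nonneg_left e2 hs.le
        have g1 := hx1 k
        have g2 := hx2 k
        simp only [hlo] at g1 g2
        rw [abs_le]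
        constructor <;> linarith
      constructor
      · intro k
        have := abs_le.1 (hdist k)
        exact key k (a k) (le_max_left _ _) (by rw [max_le_iff]; omega)
      · intro k
        have := abs_le.1 (hdist k)
        exact key k (a' k) (le_max_right _ _) (by rw [max_le_iff]; omega)
    have hom : Qc p.s a ⊆ Om p.L := by
      intro x hx k
      have h1 := abs_le.1 (hx k)
      have h2 : a k ∈ Finset.Icc (-(p.K : ℤ)) (p.K : ℤ) := by
        have := ha
        rw [Par.win, winF, Fintype.mem_piFinset] at this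
        exact this k
      rw [Finset.mem_Icc] at h2
      have h3 : (-(p.K : ℝ)) ≤ a k := by exact_mod_cast h2.1
      have h4 : (a k : ℝ) ≤ p.K := by exact_mod_cast h2.2
      have h5 := mul_le_mul_of_nonneg_left h3 hs.le
      have h6 := mul_le_mul_of_nonneg_left h4 hs.le
      have h7 := hp.hK
      rw [abs_le]
      constructor <;> linarith
    have hvol : p.nu.real (Set.Icc lo hi) = p.s ^ 3 := by
      have hsub : Set.Icc lo hi ⊆ Om p.L := fun x hx => hom (hbox hx).1
      rw [Measure.real, Par.nu, Measure.restrict_apply measurableSet_Icc,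
        Set.inter_eq_left.2 hsub, Real.volume_Icc_pi]
      have : ∀ k : Fin 3, ENNReal.ofReal (hi k - lo k) = ENNReal.ofReal p.s := by
        intro k; simp [hhi]
      rw [Finset.prod_congr rfl (fun k _ => this k)]
      rw [Finset.prod_const, Finset.card_univ, Fintype.card_fin, ENNReal.toReal_pow,
        ENNReal.toReal_ofReal hs.le]
    rw [← hvol]
    exact measureReal_mono hbox (measure_ne_top _ _)

end Pool.Agent.Lib.MP_5db8e2_mp
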