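import Pool.Agent.Lib.MP_5db8e2_mp.LB.Spec6

/-!
# Lower bound, part 6: integrals of the power kernels
-/

set_option autoImplicit false

open MeasureTheory Function Finset
open scoped Classical

namespace Pool.Agent.Lib.MP_5db8e2_mp

theorem kap_nonneg (σ r : ℝ) (t : R3) : 0 ≤ kap σ r t := by
  unfold kap
  split_ifs
  · exact Real.rpow_nonneg (by positivity) _
  · exact le_rfl

theorem kap_le_pow (σ r q : ℝ) (hq : q ≤ σ) (t : R3) : kap σ r t ≤ (1 + ‖t‖) ^ (-q) := by
  have h1 : (1 : ℝ) ≤ 1 + ‖t‖ := by linarith [norm_nonneg t]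
  unfold kap
  split_ifs
  · exact Real.rpow_le_rpow_of_exponent_le h1 (by linarith)
  · exact Real.rpow_nonneg (by positivity) _

theorem kap_le_one (σ r : ℝ) (hσ : 0 ≤ σ) (t : R3) : kap σ r t ≤ 1 := by
  have := kap_le_pow σ r 0 hσ t
  simpa using this

theorem kap_neg (σ r : ℝ) (t : R3) : kap σ r (-t) = kap σ r t := by
  unfold kap; rw [norm_neg]

theorem kap_measurable (σ r : ℝ) : Measurable (kap σ r) := by
  unfold kap
  refine Measurable.ite ?_ ?_ measurable_const
  · exact measurableSet_le measurable_norm measurable_const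
  · exact (measurable_const.add measurable_norm).pow_const _

theorem kap_integrable (σ r : ℝ) (hσ : 0 ≤ σ) : Integrable (kap σ r) := by
  have hb : Integrable (Set.indicator (Metric.closedBall (0 : R3) (2 * r)) fun _ => (1 : ℝ)) := by
    rw [integrable_indicator_iff Metric.isClosed_closedBall.measurableSet]
    exact integrableOn_const (isCompact_closedBall _ _).measure_lt_top.ne
  refine hb.mono' (kap_measurable σ r).aestronglyMeasurable (Filter.Eventually.of_forall fun t => ?_)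
  rw [Real.norm_eq_abs, abs_of_nonneg (kap_nonneg σ r t)]
  by_cases h : ‖t‖ ≤ 2 * r
  · rw [Set.indicator_of_mem (by simpa using h)]
    exact kap_le_one σ r hσ t
  · rw [Set.indicator_of_notMem (by simpa using h)]
    simp [kap, h]

theorem kap_integral (σ r : ℝ) (h2 : 2 ≤ σ) (h8 : σ ≤ 8 / 3) (hr : 1 ≤ r) :
    ∫ t, kap σ r t ≤ 144 * r ^ (3 - σ) := by
  have hr0 : 0 < r := by linarith
  have e0 : ∫ t, kap σ r t =
      ∫ t : R3, (fun y : ℝ => if y ≤ 2 * r then (1 + y) ^ (-σ) else 0) ‖t‖ := rfl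
  rw [e0, integral_fun_norm_addHaar (volume : Measure R3)
    (fun y : ℝ => if y ≤ 2 * r then (1 + y) ^ (-σ) else 0)]
  have hdim : Module.finrank ℝ R3 = 3 := by simp
  have hvol : (volume : Measure R3).real (Metric.ball 0 1) = 8 := by
    rw [Measure.real, Real.volume_pi_ball _ one_pos]
    simp
    norm_num
  rw [hdim, hvol]
  have e1 : ∫ y in Set.Ioi (0 : ℝ), y ^ (3 - 1) • (if y ≤ 2 * r then (1 + y) ^ (-σ) else 0) ≤
      ∫ y in (0 : ℝ)..(2 * r), y ^ (2 - σ) := by
    rw [intervalIntegral.integral_of_le (by linarith)]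
    have e2 : ∫ y in Set.Ioi (0 : ℝ), y ^ (3 - 1) • (if y ≤ 2 * r then (1 + y) ^ (-σ) else 0) =
        ∫ y in Set.Ioc (0 : ℝ) (2 * r),
          y ^ (3 - 1) • (if y ≤ 2 * r then (1 + y) ^ (-σ) else 0) := by
      refine setIntegral_eq_of_subset_of_forall_sdiff_eq_zero measurableSet_Ioi
        (fun y hy => hy.1) fun y hy => ?_
      have hy1 : (0 : ℝ) < y := hy.1
      have hy2 : ¬ y ≤ 2 * r := fun h => hy.2 ⟨hy1, h⟩
      simp [hy2]
    rw [e2]
    have hint : IntegrableOn (fun y : ℝ => y ^ (2 - σ)) (Set.Ioc 0 (2 * r)) := by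
      rw [← intervalIntegrable_iff_integrableOn_Ioc_of_le (by linarith)]
      exact intervalIntegral.intervalIntegrable_rpow' (by linarith)
    refine integral_mono_of_nonneg ?_ hint ?_
    · refine (ae_restrict_iff' measurableSet_Ioc).2 (Filter.Eventually.of_forall fun y hy => ?_)
      simp only [Pi.zero_apply, hy.2, if_true, smul_eq_mul]
      have : (0 : ℝ) < y := hy.1
      positivity
    · refine (ae_restrict_iff' measurableSet_Ioc).2 (Filter.Eventually.of_forall fun y hy => ?_)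
      simp only [hy.2, if_true, smul_eq_mul]
      have hy0 : (0 : ℝ) < y := hy.1
      have h3 : (1 + y) ^ (-σ) ≤ y ^ (-σ) :=
        Real.rpow_le_rpow_of_nonpos hy0 (by linarith) (by linarith)
      calc y ^ (3 - 1) * (1 + y) ^ (-σ) ≤ y ^ (3 - 1) * y ^ (-σ) :=
            mul_le_mul_of_nonneg_left h3 (by positivity)
        _ = y ^ (2 - σ) := by
            rw [show (3 - 1 : ℕ) = 2 from rfl, ← Real.rpow_natCast y 2, ← Real.rpow_add hy0]
            congr 1
  have e3 : ∫ y in (0 : ℝ)..(2 * r), y ^ (2 - σ) ≤ 6 * r ^ (3 - σ) := by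
    rw [integral_rpow (Or.inl (by linarith))]
    have h4 : (2 - σ + 1) = 3 - σ := by ring
    have h5 : (1 : ℝ) / 3 ≤ 3 - σ := by linarith
    rw [h4, Real.zero_rpow (by linarith), sub_zero, Real.mul_rpow zero_le_two hr0.le,
      div_le_iff₀ (by linarith)]
    have h6 : (2 : ℝ) ^ (3 - σ) ≤ 2 := by
      calc (2 : ℝ) ^ (3 - σ) ≤ 2 ^ (1 : ℝ) :=
            Real.rpow_le_rpow_of_exponent_le one_le_two (by linarith)
        _ = 2 := Real.rpow_one 2
    have h7 : 0 < r ^ (3 - σ) := Real.rpow_pos_of_pos hr0 _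
    nlinarith
  have e4 := e1.trans e3
  simp only [smul_eq_mul, nsmul_eq_mul] at e4 ⊢
  push_cast
  linarith

theorem Kap : S_Kap := by
  set C1 : ℝ := ∫ u : R3, (1 + ‖u‖) ^ (-(4 : ℝ)) with hC1
  have hint4 : Integrable (fun u : R3 => (1 + ‖u‖) ^ (-(4 : ℝ))) := by
    refine integrable_one_add_norm ?_
    simp
    norm_num
  have hC1nn : 0 ≤ C1 := integral_nonneg fun u => Real.rpow_nonneg (by positivity) _
  refine ⟨144 + C1, by linarith, ?_⟩
  intro ν _ hν σ σ' r r' h1 h2 h3 h4 h5 h6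
  have hone : ∀ (σ r : ℝ), 2 ≤ σ → σ ≤ 8 / 3 → 1 ≤ r → ∀ c : R3,
      ∫ t, kap σ r (c - t) ∂ν ≤ (144 + C1) * r ^ (3 - σ) := by
    intro σ r hσ hσ' hr c
    have hi : Integrable (fun t : R3 => kap σ r (c - t)) :=
      (kap_integrable σ r (by linarith)).comp_sub_left c
    calc ∫ t, kap σ r (c - t) ∂ν ≤ ∫ t, kap σ r (c - t) :=
          integral_mono_measure hν (Filter.Eventually.of_forall fun t => kap_nonneg _ _ _) hi
      _ = ∫ t, kap σ r t := integral_sub_left_eq_self (kap σ r) volume c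
      _ ≤ 144 * r ^ (3 - σ) := kap_integral σ r hσ hσ' hr
      _ ≤ (144 + C1) * r ^ (3 - σ) := by
          have : 0 ≤ r ^ (3 - σ) := Real.rpow_nonneg (by linarith) _
          nlinarith
  have hpow : ∀ u : R3, (1 + ‖u‖) ^ (-(2 : ℝ)) * (1 + ‖u‖) ^ (-(2 : ℝ)) =
      (1 + ‖u‖) ^ (-(4 : ℝ)) := by
    intro u
    rw [← Real.rpow_add (by positivity)]
    norm_num
  have hprod : ∀ (σ σ' r r' : ℝ), 2 ≤ σ → 2 ≤ σ' → ∀ u : R3,
      kap σ r u * kap σ' r' u ≤ (1 + ‖u‖) ^ (-(4 : ℝ)) := by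
    intro σ σ' r r' hσ hσ' u
    rw [← hpow u]
    exact mul_le_mul (kap_le_pow σ r 2 hσ u) (kap_le_pow σ' r' 2 hσ' u) (kap_nonneg _ _ _)
      (Real.rpow_nonneg (by positivity) _)
  refine ⟨kap_measurable σ r, kap_measurable σ' r', kap_nonneg σ r, kap_nonneg σ' r',
    kap_le_one σ r (by linarith), kap_le_one σ' r' (by linarith), kap_neg σ r, kap_neg σ' r',
    ?_, ?_, by linarith, hone σ r h1 h2 h5, hone σ' r' h3 h4 h6, ?_, ?_⟩
  · exact mul_nonneg (by linarith) (Real.rpow_nonneg (by linarith) _)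
  · exact mul_nonneg (by linarith) (Real.rpow_nonneg (by linarith) _)
  · intro c
    have hi : Integrable (fun t : R3 => (1 + ‖c - t‖) ^ (-(4 : ℝ))) := hint4.comp_sub_left c
    calc ∫ t, kap σ r (c - t) * kap σ' r' (c - t) ∂ν
        ≤ ∫ t, (1 + ‖c - t‖) ^ (-(4 : ℝ)) ∂ν :=
          integral_mono_of_nonneg
            (Filter.Eventually.of_forall fun t => mul_nonneg (kap_nonneg _ _ _) (kap_nonneg _ _ _))
            (hi.mono_measure hν)
            (Filter.Eventually.of_forall fun t => hprod σ σ' r r' h1 h3 (c - t))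
      _ ≤ ∫ t, (1 + ‖c - t‖) ^ (-(4 : ℝ)) :=
          integral_mono_measure hν
            (Filter.Eventually.of_forall fun t => Real.rpow_nonneg (by positivity) _) hi
      _ = C1 := integral_sub_left_eq_self (fun u : R3 => (1 + ‖u‖) ^ (-(4 : ℝ))) volume c
      _ ≤ 144 + C1 := by linarith
  · intro c c'
    have hi : ∀ c : R3, Integrable (fun t : R3 => (1 + ‖t - c‖) ^ (-(4 : ℝ))) := fun c =>
      hint4.comp_sub_right c
    have hi' : Integrable (fun t : R3 => (1 / 2 : ℝ) * (1 + ‖t - c‖) ^ (-(4 : ℝ)) +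
        (1 / 2) * (1 + ‖t - c'‖) ^ (-(4 : ℝ))) := ((hi c).const_mul _).add ((hi c').const_mul _)
    calc ∫ t, kap σ' r' (t - c) * kap σ' r' (t - c') ∂ν
        ≤ ∫ t, ((1 / 2 : ℝ) * (1 + ‖t - c‖) ^ (-(4 : ℝ)) +
          (1 / 2) * (1 + ‖t - c'‖) ^ (-(4 : ℝ))) ∂ν := by
          refine integral_mono_of_nonneg
            (Filter.Eventually.of_forall fun t => mul_nonneg (kap_nonneg _ _ _) (kap_nonneg _ _ _))
            (hi'.mono_measure hν) (Filter.Eventually.of_forall fun t => ?_)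
          have a1 := hprod σ' σ' r' r' h3 h3 (t - c)
          have a2 := hprod σ' σ' r' r' h3 h3 (t - c')
          simp only
          nlinarith [sq_nonneg (kap σ' r' (t - c) - kap σ' r' (t - c'))]
      _ ≤ ∫ t, ((1 / 2 : ℝ) * (1 + ‖t - c‖) ^ (-(4 : ℝ)) +
          (1 / 2) * (1 + ‖t - c'‖) ^ (-(4 : ℝ))) := by
          refine integral_mono_measure hν (Filter.Eventually.of_forall fun t => ?_) hi'
          have b1 : (0 : ℝ) ≤ (1 + ‖t - c‖) ^ (-(4 : ℝ)) := Real.rpow_nonneg (by positivity) _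
          have b2 : (0 : ℝ) ≤ (1 + ‖t - c'‖) ^ (-(4 : ℝ)) := Real.rpow_nonneg (by positivity) _
          simp only [Pi.zero_apply]
          linarith
      _ = C1 := by
          rw [integral_add ((hi c).const_mul _) ((hi c').const_mul _), integral_const_mul,
            integral_const_mul,
            integral_sub_right_eq_self (fun u : R3 => (1 + ‖u‖) ^ (-(4 : ℝ))) c,
            integral_sub_right_eq_self (fun u : R3 => (1 + ‖u‖) ^ (-(4 : ℝ))) c']
          ring
      _ ≤ 144 + C1 := by linarith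

end Pool.Agent.Lib.MP_5db8e2_mp
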