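import Pool.Agent.Lib.MP_5db8e2_mp.LB.Spec7
import Pool.Agent.Lib.MP_5db8e2_mp.LB.Kap

/-!
# Lower bound, part 7: the `L²` norm of `∑_{T ∋ i} φ_T v_T`
-/

set_option autoImplicit false

open MeasureTheory Function Finset
open scoped Classical

namespace Pool.Agent.Lib.MP_5db8e2_mp

/-- Expansion of the square, pointwise. -/
theorem ppb_expand {N : ℕ} (f v : Finset (Fin N) → ℝ) :
    ∑ i, (∑ T ∈ (P3 N).filter (fun T => i ∈ T), f T * v T) ^ 2 ≤
      3 * ∑ T ∈ P3 N, |f T * f T * v T ^ 2|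
      + (∑ T ∈ P3 N, ∑ T' ∈ P3 N, (if (T ∩ T').card = 1 then |f T * f T' * v T ^ 2| else 0)
      + 2 * ∑ T ∈ P3 N, ∑ T' ∈ P3 N,
        (if (T ∩ T').card = 2 then |f T * f T' * v T ^ 2| else 0)) := by
  set G : Finset (Fin N) → Finset (Fin N) → ℝ := fun T T' =>
    ((T ∩ T').card : ℝ) * |f T * f T' * v T ^ 2| with hG
  have h1 : ∀ i : Fin N, (∑ T ∈ (P3 N).filter (fun T => i ∈ T), f T * v T) ^ 2
      = ∑ T ∈ P3 N, ∑ T' ∈ P3 N,
        if i ∈ T ∩ T' then (f T * v T) * (f T' * v T') else 0 := by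
    intro i
    rw [sq, sum_filter, sum_mul_sum]
    refine sum_congr rfl fun T _ => sum_congr rfl fun T' _ => ?_
    by_cases h : i ∈ T <;> by_cases h' : i ∈ T' <;> simp [h, h']
  have h2 : ∑ i, (∑ T ∈ (P3 N).filter (fun T => i ∈ T), f T * v T) ^ 2
      = ∑ T ∈ P3 N, ∑ T' ∈ P3 N, ((T ∩ T').card : ℝ) * ((f T * v T) * (f T' * v T')) := by
    simp only [h1]
    rw [sum_comm]
    refine sum_congr rfl fun T _ => ?_
    rw [sum_comm]
    refine sum_congr rfl fun T' _ => ?_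
    rw [← sum_filter, sum_const, nsmul_eq_mul]
    congr 2
    congr 1
    ext i
    simp
  rw [h2]
  have h3 : ∀ T T', ((T ∩ T').card : ℝ) * ((f T * v T) * (f T' * v T'))
      ≤ 1 / 2 * (G T T' + G T' T) := by
    intro T T'
    simp only [hG]
    rw [inter_comm T' T]
    have hc : (0 : ℝ) ≤ ((T ∩ T').card : ℝ) := Nat.cast_nonneg _
    have e1 : |f T * f T' * v T ^ 2| = |f T * f T'| * v T ^ 2 := by
      rw [abs_mul, abs_of_nonneg (sq_nonneg (v T))]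
    have e2 : |f T' * f T * v T' ^ 2| = |f T * f T'| * v T' ^ 2 := by
      rw [abs_mul, abs_of_nonneg (sq_nonneg (v T')), mul_comm (f T')]
    rw [e1, e2]
    have h4 : (f T * v T) * (f T' * v T') ≤ |f T * f T'| * (1 / 2 * (v T ^ 2 + v T' ^ 2)) := by
      calc (f T * v T) * (f T' * v T') ≤ |(f T * v T) * (f T' * v T')| := le_abs_self _
        _ = |f T * f T'| * |v T * v T'| := by rw [← abs_mul]; ring_nf
        _ ≤ |f T * f T'| * (1 / 2 * (v T ^ 2 + v T' ^ 2)) := by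
            refine mul_le_mul_of_nonneg_left ?_ (abs_nonneg _)
            rw [abs_mul]
            nlinarith [sq_nonneg (|v T| - |v T'|), sq_abs (v T), sq_abs (v T')]
    calc ((T ∩ T').card : ℝ) * ((f T * v T) * (f T' * v T'))
        ≤ ((T ∩ T').card : ℝ) * (|f T * f T'| * (1 / 2 * (v T ^ 2 + v T' ^ 2))) :=
          mul_le_mul_of_nonneg_left h4 hc
      _ = _ := by ring
  have h4 : ∑ T ∈ P3 N, ∑ T' ∈ P3 N, 1 / 2 * (G T T' + G T' T)
      = ∑ T ∈ P3 N, ∑ T' ∈ P3 N, G T T' := by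
    have e : ∑ T ∈ P3 N, ∑ T' ∈ P3 N, G T' T = ∑ T ∈ P3 N, ∑ T' ∈ P3 N, G T T' := sum_comm
    simp only [← mul_sum, sum_add_distrib]
    rw [e]
    ring
  have h5 : ∀ T ∈ P3 N, ∀ T' ∈ P3 N, G T T' = (if T = T' then 3 * |f T * f T * v T ^ 2| else 0)
      + ((if (T ∩ T').card = 1 then |f T * f T' * v T ^ 2| else 0)
      + 2 * (if (T ∩ T').card = 2 then |f T * f T' * v T ^ 2| else 0)) := by
    intro T hT T' hT'
    have c1 : T.card = 3 := (mem_powersetCard.1 hT).2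
    have c2 : T'.card = 3 := (mem_powersetCard.1 hT').2
    by_cases h : T = T'
    · subst h
      simp [hG, c1]
    · have hlt : (T ∩ T').card < 3 := by
        rw [← c1]
        refine card_lt_card ?_
        refine ⟨inter_subset_left, fun hs => h ?_⟩
        refine eq_of_subset_of_card_le (hs.trans inter_subset_right) (by omega)
      have hcase : (T ∩ T').card = 0 ∨ (T ∩ T').card = 1 ∨ (T ∩ T').card = 2 := by omega
      rcases hcase with h0 | h0 | h0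
      · simp only [hG, h0, h, if_false]; norm_num
      · simp only [hG, h0, h, if_false]; norm_num
      · simp only [hG, h0, h, if_false]; norm_num
  calc ∑ T ∈ P3 N, ∑ T' ∈ P3 N, ((T ∩ T').card : ℝ) * ((f T * v T) * (f T' * v T'))
      ≤ ∑ T ∈ P3 N, ∑ T' ∈ P3 N, 1 / 2 * (G T T' + G T' T) :=
        sum_le_sum fun T _ => sum_le_sum fun T' _ => h3 T T'
    _ = ∑ T ∈ P3 N, ∑ T' ∈ P3 N, G T T' := h4
    _ = ∑ T ∈ P3 N, ∑ T' ∈ P3 N, ((if T = T' then 3 * |f T * f T * v T ^ 2| else 0)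
      + ((if (T ∩ T').card = 1 then |f T * f T' * v T ^ 2| else 0)
      + 2 * (if (T ∩ T').card = 2 then |f T * f T' * v T ^ 2| else 0))) :=
        sum_congr rfl fun T hT => sum_congr rfl fun T' hT' => h5 T hT T' hT'
    _ = _ := by
      simp only [sum_add_distrib, ← mul_sum]
      congr 1
      rw [mul_sum]
      refine sum_congr rfl fun T hT => ?_
      rw [sum_ite_eq]
      simp only [hT, if_true]

theorem ppb_cnt (p : Par) (hp : p.OK) (a : Fin 3 → ℤ) {T A : Finset (Fin p.N)} (h : T ⊆ A)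
    (x : Fin p.N → R3) : cnt (Qc p.s a) Aᶜ x ≤ cnt (Bc p.s a) Tᶜ x := by
  unfold cnt
  refine card_le_card ?_
  intro i hi
  rw [mem_filter] at hi ⊢
  refine ⟨compl_subset_compl.2 h hi.1, fun k => (hi.2 k).trans ?_⟩
  have := hp.hs
  linarith

/-- The weight of `v_T²` in terms of a bigger cluster. -/
theorem ppb_weight (hC : S_Counts) (p : Par) (hp : p.OK) (Ψ : (Fin p.N → R3) → ℝ)
    {T A : Finset (Fin p.N)} (h : T ⊆ A) (x : Fin p.N → R3) (u : ℝ)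
    (hu : u ≤ ∑ a ∈ p.win, ind (p.Qin a) (Par.cmA T x) * (p.l3 a T x * p.U a T Ψ x) ^ 2) :
    u ≤ ∑ a ∈ p.win, ind (p.Qin a) (Par.cmA T x) *
      (lam3 p.M (cnt (Qc p.s a) Aᶜ x) ^ 2 * p.U a T Ψ x ^ 2) := by
  refine hu.trans (sum_le_sum fun a _ => ?_)
  refine mul_le_mul_of_nonneg_left ?_ (ind_nonneg _ _)
  rw [mul_pow]
  refine mul_le_mul_of_nonneg_right ?_ (sq_nonneg _)
  obtain ⟨h0, ha, -⟩ := hC p.M hp.hM
  exact pow_le_pow_left₀ (h0 _).1 (ha (ppb_cnt p hp a h x)) 2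

theorem PPb (hG : S_PairGlob) (hD : S_DiagGlob) (hB : S_KerBd) (hC : S_Counts) (hBM : S_BMall) :
    S_PPb := by
  intro K R
  obtain ⟨Cb, hCb1, hb⟩ := hB K R
  obtain ⟨C1, hC1, h1⟩ := hG 3 3 1 le_rfl (by norm_num) (by norm_num) (by norm_num) (by norm_num)
  obtain ⟨C2, hC2, h2⟩ := hG 3 3 2 (by norm_num) (by norm_num) (by norm_num) (by norm_num)
    (by norm_num)
  obtain ⟨Cd, hCd, hd⟩ := hD 3 (by norm_num) (by norm_num)
  obtain ⟨Ck, hCk1, hk⟩ := Kap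
  have hCb0 : 0 < Cb := by linarith
  have hCk0 : 0 < Ck := by linarith
  refine ⟨Cb ^ 2 * (12 * (Cd * Ck ^ 2) + 16 * C1 + 16 * C2), by positivity, ?_⟩
  intro V b r r4 W QQ c hc p hp hL Ψ hΨ v hv hvb
  have hr1 := hc.hr
  have hr0 : 0 < r := by linarith
  have hrr4 := hc.hr4
  have hM8 := hp.hM
  have hM0 : 0 < p.M := by linarith
  have hs1 := hp.hs
  have hs0 : 0 < p.s := by linarith
  have hφ : ∀ T : Finset (Fin p.N), BM (fun x : Fin p.N → R3 => c.φ (pick 3 T x)) := fun T =>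
    (hBM V b K R r r4 W QQ c hc p hp Ψ hΨ T).2.2.2.1
  -- the functions
  set Y : Finset (Fin p.N) → Finset (Fin p.N) → (Fin p.N → R3) → ℝ := fun T T' x =>
    (Cb ^ 2)⁻¹ * (c.φ (pick 3 T x) * c.φ (pick 3 T' x) * v T x ^ 2) with hY
  have hYb : ∀ T T', BM (Y T T') := fun T T' =>
    BM.const_mul _ (((hφ T).mul (hφ T')).mul ((hv T).pow 2))
  -- pointwise estimate
  have hkey : ∀ T ∈ P3 p.N, ∀ T' ∈ P3 p.N, ∀ i ∈ T ∩ T', ∀ x, |Y T T' x| ≤
      (∏ j ∈ T.erase i, kap 2 r (x i - x j)) * (∏ j ∈ T'.erase i, kap 2 r (x i - x j)) *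
      ∑ a ∈ p.win, ind (p.Qin a) (Par.cmA T x) *
        (lam3 p.M (cnt (Qc p.s a) (T ∪ T')ᶜ x) ^ 2 * p.U a T Ψ x ^ 2) := by
    intro T hT T' hT' i hi x
    have c1 : T.card = 3 := (mem_powersetCard.1 hT).2
    have c2 : T'.card = 3 := (mem_powersetCard.1 hT').2
    have b1 := (hb V b r r4 W QQ c hc T x i (mem_inter.1 hi).1).2.1 c1
    have b2 := (hb V b r r4 W QQ c hc T' x i (mem_inter.1 hi).2).2.1 c2
    have p1 : 0 ≤ ∏ j ∈ T.erase i, kap 2 r (x i - x j) :=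
      prod_nonneg fun j _ => kap_nonneg _ _ _
    have p2 : 0 ≤ ∏ j ∈ T'.erase i, kap 2 r (x i - x j) :=
      prod_nonneg fun j _ => kap_nonneg _ _ _
    have w := ppb_weight hC p hp Ψ (subset_union_left : T ⊆ T ∪ T') x (v T x ^ 2) (hvb T hT x)
    have e : |Y T T' x| = (Cb ^ 2)⁻¹ * (|c.φ (pick 3 T x)| * |c.φ (pick 3 T' x)|) * v T x ^ 2 := by
      simp only [hY]
      rw [abs_mul, abs_mul, abs_mul, abs_of_nonneg (sq_nonneg (v T x)),
        abs_of_nonneg (inv_nonneg.2 (sq_nonneg Cb))]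
      ring
    rw [e]
    refine mul_le_mul ?_ w (sq_nonneg _) (mul_nonneg p1 p2)
    calc (Cb ^ 2)⁻¹ * (|c.φ (pick 3 T x)| * |c.φ (pick 3 T' x)|)
        ≤ (Cb ^ 2)⁻¹ * ((Cb * ∏ j ∈ T.erase i, kap 2 r (x i - x j)) *
          (Cb * ∏ j ∈ T'.erase i, kap 2 r (x i - x j))) := by
          refine mul_le_mul_of_nonneg_left ?_ (by positivity)
          exact mul_le_mul b1 b2 (abs_nonneg _) (mul_nonneg hCb0.le p1)
      _ = _ := by field_simp
  have hnn : ∀ (T T' : Finset (Fin p.N)) (i : Fin p.N) (x : Fin p.N → R3), 0 ≤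
      (∏ j ∈ T.erase i, kap 2 r (x i - x j)) * (∏ j ∈ T'.erase i, kap 2 r (x i - x j)) *
      ∑ a ∈ p.win, ind (p.Qin a) (Par.cmA T x) *
        (lam3 p.M (cnt (Qc p.s a) (T ∪ T')ᶜ x) ^ 2 * p.U a T Ψ x ^ 2) := by
    intro T T' i x
    refine mul_nonneg (mul_nonneg (prod_nonneg fun j _ => kap_nonneg _ _ _)
      (prod_nonneg fun j _ => kap_nonneg _ _ _)) (sum_nonneg fun a _ => ?_)
    exact mul_nonneg (ind_nonneg _ _) (mul_nonneg (sq_nonneg _) (sq_nonneg _))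
  have hpair : ∀ T ∈ P3 p.N, ∀ T' ∈ P3 p.N, 1 ≤ (T ∩ T').card → ∀ x, |Y T T' x| ≤
      ∑ i ∈ T ∩ T', (∏ j ∈ T.erase i, kap 2 r (x i - x j)) *
        (∏ j ∈ T'.erase i, kap 2 r (x i - x j)) *
        ∑ a ∈ p.win, ind (p.Qin a) (Par.cmA T x) *
        (lam3 p.M (cnt (Qc p.s a) (T ∪ T')ᶜ x) ^ 2 * p.U a T Ψ x ^ 2) := by
    intro T hT T' hT' hcard x
    obtain ⟨i, hi⟩ := card_pos.1 (by omega : 0 < (T ∩ T').card)
    refine (hkey T hT T' hT' i hi x).trans ?_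
    exact single_le_sum (f := fun i => (∏ j ∈ T.erase i, kap 2 r (x i - x j)) *
        (∏ j ∈ T'.erase i, kap 2 r (x i - x j)) *
        ∑ a ∈ p.win, ind (p.Qin a) (Par.cmA T x) *
        (lam3 p.M (cnt (Qc p.s a) (T ∪ T')ᶜ x) ^ 2 * p.U a T Ψ x ^ 2))
      (fun i _ => hnn T T' i x) hi
  obtain ⟨hl0, hlA, -, -, hc5, hc4, -⟩ := hC p.M hM8
  have hr21 : r ^ ((3 : ℝ) - 2) = r := by norm_num
  -- card 1
  have e1 := h1 p hp r4 hL Ψ hΨ 2 2 r r le_rfl (by norm_num) le_rfl (by norm_num) hr1 hrr4 hr1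
    hrr4 (fun n => lam3 p.M n ^ 2) (fun n => sq_nonneg _) ((2 * p.M) ^ 4) ((2 * p.M) ^ 4)
    (by
      intro n
      have := hc5 n 4 le_rfl
      have hn : (0 : ℝ) ≤ ((n + (3 + 3 - 1) : ℕ) : ℝ) := Nat.cast_nonneg _
      calc ((n + (3 + 3 - 1) : ℕ) : ℝ) ^ (3 + 3 - 1) * lam3 p.M n ^ 2
          = ((n + (3 + 3 - 1) : ℕ) : ℝ) ^ 4 * lam3 p.M n ^ 2 * ((n + (3 + 3 - 1) : ℕ) : ℝ) := by
            norm_num; ring
        _ ≤ _ := mul_le_mul_of_nonneg_right this hn)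
    (by
      intro n
      exact hc4 n 4 le_rfl)
    Y hYb
    (by
      intro A hA A' hA' hcard x
      exact hpair A hA A' hA' (by omega) x)
  -- card 2
  have e2 := h2 p hp r4 hL Ψ hΨ 2 2 r r le_rfl (by norm_num) le_rfl (by norm_num) hr1 hrr4 hr1
    hrr4 (fun n => lam3 p.M n ^ 2) (fun n => sq_nonneg _) ((2 * p.M) ^ 3) ((2 * p.M) ^ 3)
    (by
      intro n
      have := hc5 n 3 (by norm_num)
      have hn : (0 : ℝ) ≤ ((n + (3 + 3 - 2) : ℕ) : ℝ) := Nat.cast_nonneg _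
      calc ((n + (3 + 3 - 2) : ℕ) : ℝ) ^ (3 + 3 - 2) * lam3 p.M n ^ 2
          = ((n + (3 + 3 - 2) : ℕ) : ℝ) ^ 3 * lam3 p.M n ^ 2 * ((n + (3 + 3 - 2) : ℕ) : ℝ) := by
            norm_num; ring
        _ ≤ _ := mul_le_mul_of_nonneg_right this hn)
    (by
      intro n
      exact hc4 n 3 (by norm_num))
    Y hYb
    (by
      intro A hA A' hA' hcard x
      exact hpair A hA A' hA' (by omega) x)
  -- diagonal
  have hker := hk p.nu (Measure.restrict_le_self) 2 2 r r le_rfl (by norm_num) le_rfl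
    (by norm_num) hr1 hr1
  have e3 := hd p hp r4 hL Ψ hΨ (fun t => kap 2 r t * kap 2 r t)
    (hker.measA.mul hker.measA)
    (fun t => ⟨mul_nonneg (hker.nnA t) (hker.nnA t), mul_le_one₀ (hker.leA t) (hker.nnA t)
      (hker.leA t)⟩)
    (by
      intro t ht
      have h0 : kap 2 r t ≠ 0 := fun h => ht (by simp [h])
      unfold kap at h0
      by_contra hlt
      rw [not_le] at hlt
      rw [if_neg (by linarith)] at h0
      exact h0 rfl)
    Ck (fun u => hker.hAB u) (fun n => lam3 p.M n ^ 2) (fun n => sq_nonneg _) ((2 * p.M) ^ 2)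
    (by
      intro n
      have := hc5 n 2 (by norm_num)
      have hn : (0 : ℝ) ≤ ((n + 3 : ℕ) : ℝ) := Nat.cast_nonneg _
      calc ((n + 3 : ℕ) : ℝ) ^ 3 * lam3 p.M n ^ 2
          = ((n + 3 : ℕ) : ℝ) ^ 2 * lam3 p.M n ^ 2 * ((n + 3 : ℕ) : ℝ) := by ring
        _ ≤ _ := mul_le_mul_of_nonneg_right this hn)
    (fun T => Y T T) (fun T => hYb T T)
    (by
      intro A hA x
      have c1 : A.card = 3 := (mem_powersetCard.1 hA).2
      have := hpair A hA A hA (by rw [inter_self]; omega) x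
      rw [inter_self, union_self] at this
      refine this.trans (le_of_eq ?_)
      refine sum_congr rfl fun i _ => ?_
      rw [prod_mul_distrib])
  -- pointwise expansion
  have hpt : ∀ x : Fin p.N → R3,
      ∑ i, (∑ T ∈ (P3 p.N).filter (fun T => i ∈ T), c.φ (pick 3 T x) * v T x) ^ 2 ≤
      Cb ^ 2 * (3 * ∑ T ∈ P3 p.N, |Y T T x|
      + (∑ T ∈ P3 p.N, ∑ T' ∈ P3 p.N, (if (T ∩ T').card = 1 then |Y T T' x| else 0)
      + 2 * ∑ T ∈ P3 p.N, ∑ T' ∈ P3 p.N, (if (T ∩ T').card = 2 then |Y T T' x| else 0))) := by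
    intro x
    refine (ppb_expand (fun T => c.φ (pick 3 T x)) (fun T => v T x)).trans (le_of_eq ?_)
    have hYe : ∀ T T', |c.φ (pick 3 T x) * c.φ (pick 3 T' x) * v T x ^ 2|
        = Cb ^ 2 * |Y T T' x| := by
      intro T T'
      simp only [hY]
      rw [abs_mul (Cb ^ 2)⁻¹, abs_of_nonneg (inv_nonneg.2 (sq_nonneg Cb)), ← mul_assoc,
        mul_inv_cancel₀ (by positivity), one_mul]
    simp only [hYe]
    have q : ∀ (P : Prop) [Decidable P] (y : ℝ),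
        (if P then Cb ^ 2 * y else 0) = Cb ^ 2 * (if P then y else 0) := by
      intro P _ y
      split_ifs <;> simp
    simp only [q, ← mul_sum]
    ring
  have hBMl : ∀ i : Fin p.N, BM (fun x : Fin p.N → R3 =>
      (∑ T ∈ (P3 p.N).filter (fun T => i ∈ T), c.φ (pick 3 T x) * v T x) ^ 2) := fun i =>
    (BM.sum _ fun T _ => (hφ T).mul (hv T)).pow 2
  have hite : ∀ (T T' : Finset (Fin p.N)) (t : ℕ), BM (fun x : Fin p.N → R3 =>
      if (T ∩ T').card = t then |Y T T' x| else 0) := by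
    intro T T' t
    by_cases h : (T ∩ T').card = t
    · simp only [h, if_true]; exact (hYb T T').abs
    · simp only [h, if_false]; exact BM.const 0
  have hiI : ∀ (T T' : Finset (Fin p.N)) (t : ℕ),
      ∫ x, (if (T ∩ T').card = t then |Y T T' x| else 0) ∂pin p.nu p.N
      = if (T ∩ T').card = t then ∫ x, |Y T T' x| ∂pin p.nu p.N else 0 := by
    intro T T' t
    by_cases h : (T ∩ T').card = t
    · simp only [h, if_true]
    · simp only [h, if_false]; simp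
  have B1 : BM (fun x : Fin p.N → R3 => ∑ T ∈ P3 p.N, |Y T T x|) :=
    BM.sum _ fun T _ => (hYb T T).abs
  have B2 : ∀ t : ℕ, BM (fun x : Fin p.N → R3 => ∑ T ∈ P3 p.N, ∑ T' ∈ P3 p.N,
      (if (T ∩ T').card = t then |Y T T' x| else 0)) := fun t =>
    BM.sum _ fun T _ => BM.sum _ fun T' _ => hite T T' t
  have I1 : ∫ x, ∑ T ∈ P3 p.N, |Y T T x| ∂pin p.nu p.N
      = ∑ T ∈ P3 p.N, ∫ x, |Y T T x| ∂pin p.nu p.N :=
    integral_finsetSum _ fun T _ => (hYb T T).abs.integrable _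
  have I2 : ∀ t : ℕ, ∫ x, ∑ T ∈ P3 p.N, ∑ T' ∈ P3 p.N,
      (if (T ∩ T').card = t then |Y T T' x| else 0) ∂pin p.nu p.N
      = ∑ T ∈ P3 p.N, ∑ T' ∈ P3 p.N,
        (if (T ∩ T').card = t then ∫ x, |Y T T' x| ∂pin p.nu p.N else 0) := by
    intro t
    rw [integral_finsetSum _ fun T _ => (BM.sum _ fun T' _ => hite T T' t).integrable _]
    refine sum_congr rfl fun T _ => ?_
    rw [integral_finsetSum _ fun T' _ => (hite T T' t).integrable _]
    exact sum_congr rfl fun T' _ => hiI T T' t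
  have hmain : ∑ i, ∫ x, (∑ T ∈ (P3 p.N).filter (fun T => i ∈ T),
      c.φ (pick 3 T x) * v T x) ^ 2 ∂pin p.nu p.N
      ≤ Cb ^ 2 * (3 * ∑ T ∈ P3 p.N, ∫ x, |Y T T x| ∂pin p.nu p.N
      + (∑ T ∈ P3 p.N, ∑ T' ∈ P3 p.N,
        (if (T ∩ T').card = 1 then ∫ x, |Y T T' x| ∂pin p.nu p.N else 0)
      + 2 * ∑ T ∈ P3 p.N, ∑ T' ∈ P3 p.N,
        (if (T ∩ T').card = 2 then ∫ x, |Y T T' x| ∂pin p.nu p.N else 0))) := by
    rw [← integral_finsetSum _ fun i _ => (hBMl i).integrable _, ← I1, ← I2 1, ← I2 2,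
      ← integral_const_mul, ← integral_const_mul,
      ← integral_add ((B2 1).integrable _) (((B2 2).const_mul 2).integrable _),
      ← integral_add ((B1.const_mul 3).integrable _)
        (((B2 1).add ((B2 2).const_mul 2)).integrable _), ← integral_const_mul]
    refine integral_mono ((BM.sum _ fun i _ => hBMl i).integrable _)
      (((B1.const_mul 3).add ((B2 1).add ((B2 2).const_mul 2))).const_mul _ |>.integrable _) ?_
    intro x
    exact hpt x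
  refine hmain.trans ?_
  rw [mul_assoc]
  refine mul_le_mul_of_nonneg_left ?_ (sq_nonneg _)
  have hμ : p.mu = p.M * (1 / p.s ^ 3) := by unfold Par.mu; ring
  have hμ0 : 0 < p.mu := by rw [hμ]; positivity
  have hNn : 0 ≤ p.Nn Ψ := by
    unfold Par.Nn
    refine sum_nonneg fun a _ => integral_nonneg fun x => ?_
    exact mul_nonneg (Nat.cast_nonneg _) (sq_nonneg _)
  have hDn : 0 ≤ p.D Ψ := by
    unfold Par.D
    refine sum_nonneg fun a _ => sum_nonneg fun j _ => integral_nonneg fun x => ?_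
    exact mul_nonneg (ind_nonneg _ _) (sq_nonneg _)
  simp only [hr21] at e1 e2
  norm_num at e1 e2 e3
  have X1 : 0 ≤ p.mu ^ 2 * p.Nn Ψ := by positivity
  have X2 : 0 ≤ r ^ 2 * p.mu ^ 3 * p.Nn Ψ := by positivity
  have X3 : 0 ≤ r ^ 4 * p.mu ^ 4 * p.Nn Ψ := by positivity
  have X4 : 0 ≤ r ^ 2 * p.mu ^ 3 * p.M * p.D Ψ := by positivity
  have X5 : r ^ 2 * p.mu ^ 3 * p.D Ψ ≤ r ^ 2 * p.mu ^ 3 * p.M * p.D Ψ := by
    have : r ^ 2 * p.mu ^ 3 * p.D Ψ * 1 ≤ r ^ 2 * p.mu ^ 3 * p.D Ψ * p.M :=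
      mul_le_mul_of_nonneg_left (by linarith) (by positivity)
    linarith
  have f1 : C1 * (r ^ 2 * r ^ 2 * ((p.s ^ 3) ^ 4)⁻¹ * (2 * p.M) ^ 4 * p.Nn Ψ
      + r ^ 2 * ((p.s ^ 3) ^ 3)⁻¹ * (2 * p.M) ^ 4 * p.D Ψ)
      = C1 * (16 * (r ^ 4 * p.mu ^ 4 * p.Nn Ψ) + 16 * (r ^ 2 * p.mu ^ 3 * p.M * p.D Ψ)) := by
    rw [hμ]; field_simp; ring
  have f2 : C2 * (r * r * ((p.s ^ 3) ^ 3)⁻¹ * (2 * p.M) ^ 3 * p.Nn Ψ
      + r * r * ((p.s ^ 3) ^ 3)⁻¹ * (2 * p.M) ^ 3 * p.D Ψ)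
      = C2 * (8 * (r ^ 2 * p.mu ^ 3 * p.Nn Ψ) + 8 * (r ^ 2 * p.mu ^ 3 * p.D Ψ)) := by
    rw [hμ]; field_simp; ring
  have f3 : Cd * Ck ^ 2 * ((p.s ^ 3) ^ 2)⁻¹ * (2 * p.M) ^ 2 * p.Nn Ψ
      = Cd * Ck ^ 2 * (4 * (p.mu ^ 2 * p.Nn Ψ)) := by
    rw [hμ]; field_simp; ring
  rw [f1] at e1
  rw [f2] at e2
  rw [f3] at e3
  have e2' := e2.trans (mul_le_mul_of_nonneg_left
    (add_le_add_right (mul_le_mul_of_nonneg_left X5 (by norm_num : (0 : ℝ) ≤ 8))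
      (8 * (r ^ 2 * p.mu ^ 3 * p.Nn Ψ))) hC2.le)
  have hCC : 0 < Cd * Ck ^ 2 := by positivity
  refine (add_le_add (mul_le_mul_of_nonneg_left e3 (by norm_num : (0 : ℝ) ≤ 3))
    (add_le_add e1 (mul_le_mul_of_nonneg_left e2' (by norm_num : (0 : ℝ) ≤ 2)))).trans ?_
  generalize Cd * Ck ^ 2 = A0 at *
  rw [add_mul, add_mul]
  generalize r ^ 2 * p.mu ^ 3 * p.M * p.D Ψ = x4 at *
  have e : (p.mu ^ 2 + r ^ 2 * p.mu ^ 3 + r ^ 4 * p.mu ^ 4) * p.Nn Ψ
      = p.mu ^ 2 * p.Nn Ψ + r ^ 2 * p.mu ^ 3 * p.Nn Ψ + r ^ 4 * p.mu ^ 4 * p.Nn Ψ := by ring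
  rw [e]
  generalize p.mu ^ 2 * p.Nn Ψ = x1 at *
  generalize r ^ 2 * p.mu ^ 3 * p.Nn Ψ = x2 at *
  generalize r ^ 4 * p.mu ^ 4 * p.Nn Ψ = x3 at *
  have g1 : 3 * (A0 * (4 * x1)) ≤ 12 * A0 * (x1 + x2 + x3 + x4) := by
    have : 0 ≤ A0 * (x2 + x3 + x4) := by positivity
    linarith
  have g2 : C1 * (16 * x3 + 16 * x4) ≤ 16 * C1 * (x1 + x2 + x3 + x4) := by
    have : 0 ≤ C1 * (x1 + x2) := by positivity
    linarith
  have g3 : 2 * (C2 * (8 * x2 + 8 * x4)) ≤ 16 * C2 * (x1 + x2 + x3 + x4) := by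
    have : 0 ≤ C2 * (x1 + x3) := by positivity
    linarith
  linarith

end Pool.Agent.Lib.MP_5db8e2_mp
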