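import Pool.Agent.Lib.MP_5db8e2_mp.LB.Spec6

/-!
# PairGlob: pair sums in the whole cube
-/

set_option autoImplicit false

open MeasureTheory Function Finset
open scoped Classical

namespace Pool.Agent.Lib.MP_5db8e2_mp

namespace PairGlobAux

variable {N : ℕ}

theorem bm_ker {κ : R3 → ℝ} (hm : Measurable κ) (h0 : ∀ c, 0 ≤ κ c) (h1 : ∀ c, κ c ≤ 1)
    (i j : Fin N) : BM (fun x : Fin N → R3 => κ (x i - x j)) :=
  ⟨hm.comp ((measurable_pi_apply i).sub (measurable_pi_apply j)), 1, fun x => by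
    rw [abs_of_nonneg (h0 _)]; exact h1 _⟩

theorem pairH_nonneg {κA κB : R3 → ℝ} (hA : ∀ c, 0 ≤ κA c) (hB : ∀ c, 0 ≤ κB c) (Q : Set R3)
    (A A' : Finset (Fin N)) (i : Fin N) (x : Fin N → R3) : 0 ≤ pairH κA κB Q A A' i x :=
  mul_nonneg (mul_nonneg (Finset.prod_nonneg fun _ _ => hA _) (Finset.prod_nonneg fun _ _ => hB _))
    (Finset.prod_nonneg fun _ _ => ind_nonneg _ _)

theorem bm_pairH {κA κB : R3 → ℝ} (hmA : Measurable κA) (hA : ∀ c, 0 ≤ κA c)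
    (hA1 : ∀ c, κA c ≤ 1) (hmB : Measurable κB) (hB : ∀ c, 0 ≤ κB c) (hB1 : ∀ c, κB c ≤ 1)
    {Q : Set R3} (hQ : MeasurableSet Q) (A A' : Finset (Fin N)) (i : Fin N) :
    BM (pairH κA κB Q A A' i) :=
  ((BM.prod _ fun j _ => bm_ker hmA hA hA1 i j).mul
    (BM.prod _ fun j _ => bm_ker hmB hB hB1 i j)).mul (BM_prod_ind hQ _)

theorem kap_ne {σ r : ℝ} {t : R3} (h : kap σ r t ≠ 0) : ‖t‖ ≤ 2 * r := by
  by_contra hc
  exact h (by simp [kap, hc])

/-- the pointwise inequality -/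
theorem ptw (hS : S_Supp2) {p : Par} (hp : p.OK) {r4 : ℝ} (hL : p.Large r4) {σ σ' rA rB : ℝ}
    (hrA : 1 ≤ rA) (hrA4 : rA ≤ r4) (hrB4 : rB ≤ r4)
    (hA : ∀ c, 0 ≤ kap σ rA c) (hB : ∀ c, 0 ≤ kap σ' rB c) (a : Fin 3 → ℤ)
    (A A' : Finset (Fin p.N)) (i : Fin p.N) (hi : i ∈ A ∩ A') (x : Fin p.N → R3) (c : ℝ)
    (hc : 0 ≤ c) :
    (∏ j ∈ A.erase i, kap σ rA (x i - x j)) * (∏ j ∈ A'.erase i, kap σ' rB (x i - x j)) *
      (ind (p.Qin a) (Par.cmA A x) * c) ≤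
      pairH (kap σ rA) (kap σ' rB) (Qc p.s a) A A' i x * c := by
  have hr4 : 0 ≤ r4 := by linarith
  have hR : 0 ≤ pairH (kap σ rA) (kap σ' rB) (Qc p.s a) A A' i x * c :=
    mul_nonneg (pairH_nonneg hA hB _ _ _ _ _) hc
  by_cases h1 : (∏ j ∈ A.erase i, kap σ rA (x i - x j)) = 0
  · rw [h1]; simpa using hR
  by_cases h2 : (∏ j ∈ A'.erase i, kap σ' rB (x i - x j)) = 0
  · rw [h2]; simpa using hR
  by_cases h3 : Par.cmA A x ∈ p.Qin a
  · have hA' : ∀ j ∈ A.erase i, ‖x i - x j‖ ≤ 2 * rA := fun j hj =>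
      kap_ne (Finset.prod_ne_zero_iff.1 h1 j hj)
    have hB' : ∀ j ∈ A'.erase i, ‖x i - x j‖ ≤ 2 * rB := fun j hj =>
      kap_ne (Finset.prod_ne_zero_iff.1 h2 j hj)
    have hiA : i ∈ A := (Finset.mem_inter.1 hi).1
    have hall : ∀ j ∈ A, ‖x i - x j‖ ≤ 8 * r4 := by
      intro j hj
      by_cases hji : j = i
      · subst hji; simpa using hr4
      · exact (hA' j (Finset.mem_erase.2 ⟨hji, hj⟩)).trans (by linarith)
    have hQ : ∀ j ∈ A ∪ A', x j ∈ Qc p.s a := by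
      intro j hj
      refine hS p hp r4 hr4 hL a A x h3 i hiA hall j ?_
      rw [norm_sub_rev]
      by_cases hji : j = i
      · subst hji; simpa using hr4
      rcases Finset.mem_union.1 hj with h | h
      · exact (hA' j (Finset.mem_erase.2 ⟨hji, h⟩)).trans (by linarith)
      · exact (hB' j (Finset.mem_erase.2 ⟨hji, h⟩)).trans (by linarith)
    have hprod : ∏ j ∈ A ∪ A', ind (Qc p.s a) (x j) = 1 :=
      Finset.prod_eq_one fun j hj => ind_of_mem (hQ j hj)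
    unfold pairH
    rw [hprod, ind_of_mem h3, one_mul, mul_one]
  · rw [ind_of_notMem h3]; simpa using hR

end PairGlobAux

open PairGlobAux in
theorem PairGlob (hP : S_PairSum) (hK : S_Kap) (hS : S_Supp2) (hWd : S_WdWin)
    (_hBM : S_BMall) : S_PairGlob := by
  intro va vb t h1 h2 h3 h4 h5
  obtain ⟨CP, hCP, hPS⟩ := hP va vb t h1 h2 h3 h4 h5
  obtain ⟨Ck, hCk, hKap⟩ := hK
  have hCk0 : 0 < Ck := by linarith
  refine ⟨CP * Ck ^ 8, by positivity, ?_⟩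
  intro p hp r4 hL Ψ hΨ σ σ' rA rB hσ hσ2 hσ' hσ'2 hrA hrA4 hrB hrB4 Lam hLam c1 c2 hc1 hc2
    Y hYbm hY
  have hker := hKap p.nu Measure.restrict_le_self σ σ' rA rB hσ hσ2 hσ' hσ'2 hrA hrB
  have hc1nn : 0 ≤ c1 := by
    have h := hc1 0
    have hu : 0 < va + vb - t := by omega
    have hpos : (0 : ℝ) < ((0 + (va + vb - t) : ℕ) : ℝ) := by
      exact_mod_cast (by omega : 0 < 0 + (va + vb - t))
    have h' : 0 ≤ c1 * ((0 + (va + vb - t) : ℕ) : ℝ) :=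
      le_trans (mul_nonneg (pow_nonneg hpos.le _) (hLam 0)) h
    exact nonneg_of_mul_nonneg_left h' hpos
  have hc2nn : 0 ≤ c2 :=
    le_trans (mul_nonneg (pow_nonneg (Nat.cast_nonneg _) _) (hLam 0)) (hc2 0)
  have hs0 : (0 : ℝ) < p.s := lt_of_lt_of_le one_pos hp.hs
  -- the functions
  have hBMF : ∀ a ∈ p.win, ∀ (A A' : Finset (Fin p.N)) (i : Fin p.N),
      BM (fun x => pairH (kap σ rA) (kap σ' rB) (Qc p.s a) A A' i x *
        (Lam (cnt (Qc p.s a) (A ∪ A')ᶜ x) * (av p.nu (p.gd a) A Ψ x) ^ 2)) := by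
    intro a ha A A' i
    obtain ⟨hW, -⟩ := hWd p hp a ha
    exact (bm_pairH hker.measA hker.nnA hker.leA hker.measB hker.nnB hker.leB hW.Q_meas A A' i).mul
      ((BM_cnt_comp hW.Q_meas _ Lam).mul ((av_bm hW hΨ).pow 2))
  -- one pair
  have hone : ∀ A ∈ powersetCard va (univ : Finset (Fin p.N)),
      ∀ A' ∈ powersetCard vb (univ : Finset (Fin p.N)), (A ∩ A').card = t →
      ∫ x, |Y A A' x| ∂pin p.nu p.N ≤ ∑ a ∈ p.win, ∑ i ∈ A ∩ A',
        ∫ x, pairH (kap σ rA) (kap σ' rB) (Qc p.s a) A A' i x *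
          (Lam (cnt (Qc p.s a) (A ∪ A')ᶜ x) * (av p.nu (p.gd a) A Ψ x) ^ 2) ∂pin p.nu p.N := by
    intro A hA A' hA' hcard
    have hBMs : BM (fun x => ∑ a ∈ p.win, ∑ i ∈ A ∩ A',
        pairH (kap σ rA) (kap σ' rB) (Qc p.s a) A A' i x *
          (Lam (cnt (Qc p.s a) (A ∪ A')ᶜ x) * (av p.nu (p.gd a) A Ψ x) ^ 2)) :=
      BM.sum _ fun a ha => BM.sum _ fun i _ => hBMF a ha A A' i
    have hle : ∀ x, |Y A A' x| ≤ ∑ a ∈ p.win, ∑ i ∈ A ∩ A',
        pairH (kap σ rA) (kap σ' rB) (Qc p.s a) A A' i x *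
          (Lam (cnt (Qc p.s a) (A ∪ A')ᶜ x) * (av p.nu (p.gd a) A Ψ x) ^ 2) := by
      intro x
      refine (hY A hA A' hA' hcard x).trans ?_
      rw [Finset.sum_comm]
      refine Finset.sum_le_sum fun i hi => ?_
      rw [Finset.mul_sum]
      refine Finset.sum_le_sum fun a _ => ?_
      exact ptw hS hp hL hrA hrA4 hrB4 hker.nnA hker.nnB a A A' i hi x _
        (mul_nonneg (hLam _) (sq_nonneg _))
    refine (integral_mono ((hYbm A A').abs.integrable _) (hBMs.integrable _) hle).trans ?_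
    rw [integral_finsetSum _ fun a ha =>
      (BM.sum _ fun i _ => hBMF a ha A A' i).integrable _]
    refine le_of_eq (Finset.sum_congr rfl fun a ha => ?_)
    rw [integral_finsetSum _ fun i _ => (hBMF a ha A A' i).integrable _]
  -- all pairs
  have hall : ∑ A ∈ powersetCard va (univ : Finset (Fin p.N)),
        ∑ A' ∈ powersetCard vb (univ : Finset (Fin p.N)),
          (if (A ∩ A').card = t then ∫ x, |Y A A' x| ∂pin p.nu p.N else 0) ≤
      ∑ a ∈ p.win, ∑ A ∈ powersetCard va (univ : Finset (Fin p.N)),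
        ∑ A' ∈ powersetCard vb (univ : Finset (Fin p.N)),
          (if (A ∩ A').card = t then ∑ i ∈ A ∩ A',
            ∫ x, pairH (kap σ rA) (kap σ' rB) (Qc p.s a) A A' i x *
              (Lam (cnt (Qc p.s a) (A ∪ A')ᶜ x) * (av p.nu (p.gd a) A Ψ x) ^ 2) ∂pin p.nu p.N
            else 0) := by
    rw [Finset.sum_comm (s := p.win)]
    refine Finset.sum_le_sum fun A hA => ?_
    rw [Finset.sum_comm (s := p.win)]
    refine Finset.sum_le_sum fun A' hA' => ?_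
    by_cases hcard : (A ∩ A').card = t
    · simp only [hcard, if_true]
      exact hone A hA A' hA' hcard
    · simp only [hcard, if_false, Finset.sum_const_zero, le_refl]
  refine hall.trans ?_
  -- one window
  have hwin : ∀ a ∈ p.win, ∑ A ∈ powersetCard va (univ : Finset (Fin p.N)),
        ∑ A' ∈ powersetCard vb (univ : Finset (Fin p.N)),
          (if (A ∩ A').card = t then ∑ i ∈ A ∩ A',
            ∫ x, pairH (kap σ rA) (kap σ' rB) (Qc p.s a) A A' i x *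
              (Lam (cnt (Qc p.s a) (A ∪ A')ᶜ x) * (av p.nu (p.gd a) A Ψ x) ^ 2) ∂pin p.nu p.N
            else 0) ≤
      CP * Ck ^ 8 * ((rA ^ (3 - σ)) ^ (va - t) * (rB ^ (3 - σ')) ^ (vb - t) *
            (1 / p.s ^ 3) ^ (va + vb - t - 1) * c1 * Nw p.nu (Qc p.s a) Ψ
          + (rA ^ (3 - σ)) ^ (va - t) * (if vb - t = 1 then rB ^ (3 - σ') else 1) *
            (1 / p.s ^ 3) ^ va * c2 * Dw p.nu (p.gd a) (Qc p.s a) Ψ) := by
    intro a ha
    obtain ⟨hW, -⟩ := hWd p hp a ha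
    have h := hPS p.nu (p.s ^ 3) (p.gd a) (Qc p.s a) (Bc p.s a) hW Ψ hΨ (kap σ rA) (kap σ' rB)
      (Ck * rA ^ (3 - σ)) (Ck * rB ^ (3 - σ')) Ck hker Lam hLam c1 c2 hc1 hc2
    refine h.trans ?_
    have hNw : 0 ≤ Nw p.nu (Qc p.s a) Ψ :=
      integral_nonneg fun x => mul_nonneg (Nat.cast_nonneg _) (sq_nonneg _)
    have hDw : 0 ≤ Dw p.nu (p.gd a) (Qc p.s a) Ψ :=
      Finset.sum_nonneg fun j _ => integral_nonneg fun x =>
        mul_nonneg (ind_nonneg _ _) (sq_nonneg _)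
    have hrA0 : 0 ≤ rA ^ (3 - σ) := Real.rpow_nonneg (by linarith) _
    have hrB0 : 0 ≤ rB ^ (3 - σ') := Real.rpow_nonneg (by linarith) _
    have hif : 0 ≤ (if vb - t = 1 then rB ^ (3 - σ') else 1) := by
      split_ifs
      · exact hrB0
      · norm_num
    have e1 : (Ck * rA ^ (3 - σ)) ^ (va - t) * Ck ^ (t - 1) * (Ck * rB ^ (3 - σ')) ^ (vb - t) *
          (1 / p.s ^ 3) ^ (va + vb - t - 1) * c1 * Nw p.nu (Qc p.s a) Ψ
        = Ck ^ ((va - t) + (t - 1) + (vb - t)) * ((rA ^ (3 - σ)) ^ (va - t) *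
          (rB ^ (3 - σ')) ^ (vb - t) * (1 / p.s ^ 3) ^ (va + vb - t - 1) * c1 *
          Nw p.nu (Qc p.s a) Ψ) := by
      rw [mul_pow, mul_pow, pow_add, pow_add]; ring
    have e2 : (Ck * rA ^ (3 - σ)) ^ (va - t) * Ck ^ (t - 1) *
          (if vb - t = 1 then Ck * rB ^ (3 - σ') else Ck) * (1 / p.s ^ 3) ^ va * c2 *
          Dw p.nu (p.gd a) (Qc p.s a) Ψ
        = Ck ^ ((va - t) + (t - 1) + 1) * ((rA ^ (3 - σ)) ^ (va - t) *
          (if vb - t = 1 then rB ^ (3 - σ') else 1) * (1 / p.s ^ 3) ^ va * c2 *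
          Dw p.nu (p.gd a) (Qc p.s a) Ψ) := by
      have e3 : (if vb - t = 1 then Ck * rB ^ (3 - σ') else Ck) =
          Ck * (if vb - t = 1 then rB ^ (3 - σ') else 1) := by
        split_ifs <;> ring
      rw [e3, mul_pow, pow_add, pow_add]; ring
    rw [e1, e2]
    have hT1 : 0 ≤ (rA ^ (3 - σ)) ^ (va - t) *
          (rB ^ (3 - σ')) ^ (vb - t) * (1 / p.s ^ 3) ^ (va + vb - t - 1) * c1 *
          Nw p.nu (Qc p.s a) Ψ := by positivity
    have hT2 : 0 ≤ (rA ^ (3 - σ)) ^ (va - t) *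
          (if vb - t = 1 then rB ^ (3 - σ') else 1) * (1 / p.s ^ 3) ^ va * c2 *
          Dw p.nu (p.gd a) (Qc p.s a) Ψ := by positivity
    have k1 : Ck ^ ((va - t) + (t - 1) + (vb - t)) ≤ Ck ^ 8 :=
      pow_le_pow_right₀ hCk (by omega)
    have k2 : Ck ^ ((va - t) + (t - 1) + 1) ≤ Ck ^ 8 := pow_le_pow_right₀ hCk (by omega)
    have m1 := mul_le_mul_of_nonneg_right k1 hT1
    have m2 := mul_le_mul_of_nonneg_right k2 hT2
    calc CP * (Ck ^ ((va - t) + (t - 1) + (vb - t)) * ((rA ^ (3 - σ)) ^ (va - t) *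
          (rB ^ (3 - σ')) ^ (vb - t) * (1 / p.s ^ 3) ^ (va + vb - t - 1) * c1 *
          Nw p.nu (Qc p.s a) Ψ) + Ck ^ ((va - t) + (t - 1) + 1) * ((rA ^ (3 - σ)) ^ (va - t) *
          (if vb - t = 1 then rB ^ (3 - σ') else 1) * (1 / p.s ^ 3) ^ va * c2 *
          Dw p.nu (p.gd a) (Qc p.s a) Ψ))
        ≤ CP * (Ck ^ 8 * ((rA ^ (3 - σ)) ^ (va - t) *
          (rB ^ (3 - σ')) ^ (vb - t) * (1 / p.s ^ 3) ^ (va + vb - t - 1) * c1 *
          Nw p.nu (Qc p.s a) Ψ) + Ck ^ 8 * ((rA ^ (3 - σ)) ^ (va - t) *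
          (if vb - t = 1 then rB ^ (3 - σ') else 1) * (1 / p.s ^ 3) ^ va * c2 *
          Dw p.nu (p.gd a) (Qc p.s a) Ψ)) :=
          mul_le_mul_of_nonneg_left (add_le_add m1 m2) hCP.le
      _ = _ := by ring
  refine (Finset.sum_le_sum hwin).trans ?_
  rw [← Finset.mul_sum, Finset.sum_add_distrib, ← Finset.mul_sum, ← Finset.mul_sum]
  exact le_of_eq rfl

end Pool.Agent.Lib.MP_5db8e2_mp
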