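import Pool.Agent.Lib.MP_5db8e2_mp.LB.Spec8

/-!
# Poincaré's inequality in the window
-/

set_option autoImplicit false

open MeasureTheory Function Set

namespace Pool.Agent.Lib.MP_5db8e2_mp

namespace PoincAux

theorem Qc_eq (s : ℝ) (a : Fin 3 → ℤ) :
    Qc s a = Set.Icc (fun k => s * a k - s) (fun k => s * a k + s) := by
  ext c
  simp only [Qc, Set.mem_ofPred_eq, Set.mem_Icc, Pi.le_def, abs_le]
  constructor
  · intro h
    exact ⟨fun k => by linarith [(h k).1], fun k => by linarith [(h k).2]⟩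
  · rintro ⟨h1, h2⟩ k
    exact ⟨by linarith [h1 k], by linarith [h2 k]⟩

/-- scaling -/
theorem scale {Q : Set R3} (hQm : MeasurableSet Q) (hQc : Convex ℝ Q) (hQk : IsCompact Q)
    {h : R3 → ℝ} (hh : Continuous h) (hh0 : ∀ z, 0 ≤ h z) {t : R3} (ht : t ∈ Q) {θ : ℝ}
    (h1 : 1 / 2 ≤ θ) (h2 : θ ≤ 1) :
    ∫ c in Q, h (t + θ • (c - t)) ≤ 8 * ∫ c in Q, h c := by
  have hθ : 0 < θ := by linarith
  have hint : Integrable (Q.indicator h) := by
    rw [integrable_indicator_iff hQm]
    exact hh.continuousOn.integrableOn_compact hQk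
  have e1 : ∀ c, t + θ • (c - t) = (1 - θ) • t + θ • c := by
    intro c
    rw [smul_sub, sub_smul, one_smul]
    abel
  have hi2 : Integrable (fun y => Q.indicator h ((1 - θ) • t + y)) := hint.comp_add_left _
  have hi3 : Integrable (fun c => Q.indicator h ((1 - θ) • t + θ • c)) :=
    hi2.comp_smul hθ.ne'
  have e2 : ∫ c, Q.indicator h ((1 - θ) • t + θ • c) = (θ ^ 3)⁻¹ * ∫ c in Q, h c := by
    have := Measure.integral_comp_smul (volume : Measure R3)
      (fun y => Q.indicator h ((1 - θ) • t + y)) θ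
    simp only [Module.finrank_fintype_fun_eq_card, Fintype.card_fin, smul_eq_mul] at this
    rw [this, abs_of_pos (by positivity), integral_add_left_eq_self (fun y => Q.indicator h y),
      integral_indicator hQm]
  have hmem : ∀ c ∈ Q, t + θ • (c - t) ∈ Q := by
    intro c hc
    rw [e1]
    exact hQc ht hc (by linarith) hθ.le (by ring)
  have h3 : ∫ c in Q, h (t + θ • (c - t)) ≤ ∫ c, Q.indicator h ((1 - θ) • t + θ • c) := by
    rw [← integral_indicator hQm]
    apply integral_mono_of_nonneg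
    · exact Filter.Eventually.of_forall fun c => indicator_nonneg (fun _ _ => hh0 _) _
    · exact hi3
    · refine Filter.Eventually.of_forall fun c => ?_
      simp only
      by_cases hc : c ∈ Q
      · rw [indicator_of_mem hc, ← e1, indicator_of_mem (hmem c hc)]
      · rw [indicator_of_notMem hc]
        exact indicator_nonneg (fun _ _ => hh0 _) _
  rw [e2] at h3
  have h4 : 0 ≤ ∫ c in Q, h c := integral_nonneg fun c => hh0 c
  have h5 : (θ ^ 3)⁻¹ ≤ 8 := by
    rw [inv_le_comm₀ (by positivity) (by norm_num)]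
    calc (8 : ℝ)⁻¹ = (1 / 2) ^ 3 := by norm_num
      _ ≤ θ ^ 3 := pow_le_pow_left₀ (by norm_num) h1 3
  exact h3.trans (mul_le_mul_of_nonneg_right h5 h4)

/-- Cauchy-Schwarz on `[1/2, 1]` -/
theorem cs {φ : ℝ → ℝ} (hφ : Continuous φ) :
    (∫ θ in (1 / 2 : ℝ)..1, φ θ) ^ 2 ≤ 1 / 2 * ∫ θ in (1 / 2 : ℝ)..1, φ θ ^ 2 := by
  set I := ∫ θ in (1 / 2 : ℝ)..1, φ θ with hI
  have h1 : 0 ≤ ∫ θ in (1 / 2 : ℝ)..1, (φ θ - 2 * I) ^ 2 :=
    intervalIntegral.integral_nonneg (by norm_num) fun θ _ => sq_nonneg _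
  have h2 : ∫ θ in (1 / 2 : ℝ)..1, (φ θ - 2 * I) ^ 2 =
      (∫ θ in (1 / 2 : ℝ)..1, φ θ ^ 2) - 4 * I * I + 2 * I ^ 2 := by
    have e : ∀ θ, (φ θ - 2 * I) ^ 2 = φ θ ^ 2 - 4 * I * φ θ + 4 * I ^ 2 := fun θ => by ring
    simp only [e]
    rw [intervalIntegral.integral_add, intervalIntegral.integral_sub,
      intervalIntegral.integral_const_mul, intervalIntegral.integral_const, ← hI]
    · simp only [smul_eq_mul]
      ring
    · exact (hφ.pow 2).intervalIntegrable _ _
    · exact (continuous_const.mul hφ).intervalIntegrable _ _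
    · exact ((hφ.pow 2).sub (continuous_const.mul hφ)).intervalIntegrable _ _
    · exact continuous_const.intervalIntegrable _ _
  nlinarith

theorem grad {f : R3 → ℝ} {s : ℝ} {v z : R3} (hv : ∀ k, |v k| ≤ 2 * s) :
    (fderiv ℝ f z v) ^ 2 ≤ 12 * s ^ 2 * ∑ k, fderiv ℝ f z (Pi.single k 1) ^ 2 := by
  have e : fderiv ℝ f z v = ∑ k, v k * fderiv ℝ f z (Pi.single k 1) := by
    conv_lhs => rw [← Finset.univ_sum_single v]
    rw [map_sum]
    apply Finset.sum_congr rfl
    intro k _
    have : (Pi.single k (v k) : R3) = v k • (Pi.single k 1 : R3) := by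
      rw [← Pi.single_smul]
      simp
    rw [this, map_smul, smul_eq_mul]
  rw [e]
  have h1 := Finset.sum_mul_sq_le_sq_mul_sq Finset.univ (fun k => v k)
    (fun k => fderiv ℝ f z (Pi.single k 1))
  refine h1.trans (mul_le_mul_of_nonneg_right ?_ (by positivity))
  have h2 : ∀ k, v k ^ 2 ≤ 4 * s ^ 2 := by
    intro k
    have := hv k
    have h3 : v k ^ 2 = |v k| ^ 2 := (sq_abs _).symm
    rw [h3]
    calc |v k| ^ 2 ≤ (2 * s) ^ 2 := pow_le_pow_left₀ (abs_nonneg _) this 2
      _ = 4 * s ^ 2 := by ring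
  rw [Fin.sum_univ_three]
  linarith [h2 0, h2 1, h2 2]

theorem half {f : R3 → ℝ} (hf : ContDiff ℝ 1 f) {s : ℝ} {c t : R3}
    (hv : ∀ k, |(c - t) k| ≤ 2 * s) :
    (f c - f (t + (1 / 2 : ℝ) • (c - t))) ^ 2 ≤ 6 * s ^ 2 * ∫ θ in (1 / 2 : ℝ)..1,
      ∑ k, fderiv ℝ f (t + θ • (c - t)) (Pi.single k 1) ^ 2 := by
  have hfd : Continuous (fderiv ℝ f) := hf.continuous_fderiv one_ne_zero
  have hz : Continuous fun θ : ℝ => t + θ • (c - t) := by fun_prop
  have hφ : Continuous fun θ : ℝ => fderiv ℝ f (t + θ • (c - t)) (c - t) :=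
    (hfd.comp hz).clm_apply continuous_const
  have hh : Continuous fun θ : ℝ => ∑ k, fderiv ℝ f (t + θ • (c - t)) (Pi.single k 1) ^ 2 :=
    continuous_finsetSum _ fun k _ => ((hfd.comp hz).clm_apply continuous_const).pow 2
  have hd : ∀ θ : ℝ, HasDerivAt (fun θ : ℝ => f (t + θ • (c - t)))
      (fderiv ℝ f (t + θ • (c - t)) (c - t)) θ := by
    intro θ
    have h1 : HasDerivAt (fun θ : ℝ => t + θ • (c - t)) (c - t) θ := by
      have := ((hasDerivAt_id θ).smul_const (c - t)).const_add t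
      simpa using this
    exact ((hf.differentiable (by norm_num)) _).hasFDerivAt.comp_hasDerivAt θ h1
  have hI : ∫ θ in (1 / 2 : ℝ)..1, fderiv ℝ f (t + θ • (c - t)) (c - t) =
      f c - f (t + (1 / 2 : ℝ) • (c - t)) := by
    rw [intervalIntegral.integral_eq_sub_of_hasDerivAt (fun θ _ => hd θ)
      (hφ.intervalIntegrable _ _)]
    simp
  rw [← hI]
  refine (cs hφ).trans ?_
  have h2 : ∫ θ in (1 / 2 : ℝ)..1, (fderiv ℝ f (t + θ • (c - t)) (c - t)) ^ 2 ≤
      ∫ θ in (1 / 2 : ℝ)..1,
        12 * s ^ 2 * ∑ k, fderiv ℝ f (t + θ • (c - t)) (Pi.single k 1) ^ 2 := by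
    apply intervalIntegral.integral_mono_on (by norm_num)
    · exact (hφ.pow 2).intervalIntegrable _ _
    · exact (continuous_const.mul hh).intervalIntegrable _ _
    · intro θ _
      exact grad hv
  rw [intervalIntegral.integral_const_mul] at h2
  linarith

theorem halfInt {f : R3 → ℝ} (hf : ContDiff ℝ 1 f) {s : ℝ} {Q : Set R3}
    (hQm : MeasurableSet Q) (hQc : Convex ℝ Q) (hQk : IsCompact Q)
    (hQd : ∀ c ∈ Q, ∀ t ∈ Q, ∀ k, |(c - t) k| ≤ 2 * s) {t : R3} (ht : t ∈ Q) :
    ∫ c in Q, (f c - f (t + (1 / 2 : ℝ) • (c - t))) ^ 2 ≤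
      24 * s ^ 2 * ∫ c in Q, ∑ k, fderiv ℝ f c (Pi.single k 1) ^ 2 := by
  have hfd : Continuous (fderiv ℝ f) := hf.continuous_fderiv one_ne_zero
  have hh : Continuous fun z => ∑ k, fderiv ℝ f z (Pi.single k 1) ^ 2 :=
    continuous_finsetSum _ fun k _ => (hfd.clm_apply continuous_const).pow 2
  have hh0 : ∀ z, 0 ≤ ∑ k, fderiv ℝ f z (Pi.single k 1) ^ 2 := fun z => by positivity
  generalize hhe : (fun z => ∑ k, fderiv ℝ f z (Pi.single k 1) ^ 2) = h at hh
  have hhz : ∀ z, ∑ k, fderiv ℝ f z (Pi.single k 1) ^ 2 = h z := fun z => congrFun hhe z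
  simp only [hhz] at hh0 ⊢
  have hG : Continuous fun p : R3 × ℝ => h (t + p.2 • (p.1 - t)) := by
    exact hh.comp (by fun_prop)
  have hGi : Integrable (uncurry fun (c : R3) (θ : ℝ) => h (t + θ • (c - t)))
      ((volume.restrict Q).prod (volume.restrict (Ioc (1 / 2 : ℝ) 1))) := by
    rw [Measure.prod_restrict]
    have h1 : IntegrableOn (fun p : R3 × ℝ => h (t + p.2 • (p.1 - t)))
        (Q ×ˢ Icc (1 / 2 : ℝ) 1) (volume.prod volume) :=
      hG.continuousOn.integrableOn_compact (hQk.prod isCompact_Icc)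
    exact h1.mono_set (prod_mono subset_rfl Ioc_subset_Icc_self)
  calc ∫ c in Q, (f c - f (t + (1 / 2 : ℝ) • (c - t))) ^ 2
      ≤ ∫ c in Q, 6 * s ^ 2 * ∫ θ in Ioc (1 / 2 : ℝ) 1, h (t + θ • (c - t)) := by
        apply setIntegral_mono_on _ _ hQm
        · intro c hc
          have h1 := half hf (hQd c hc t ht)
          rw [intervalIntegral.integral_of_le (by norm_num)] at h1
          simpa only [hhz] using h1
        · have hfc := hf.continuous
          exact (by fun_prop : Continuous fun c =>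
            (f c - f (t + (1 / 2 : ℝ) • (c - t))) ^ 2).continuousOn.integrableOn_compact hQk
        · exact (hGi.integral_prod_left).const_mul _
    _ = 6 * s ^ 2 * ∫ θ in Ioc (1 / 2 : ℝ) 1, ∫ c in Q, h (t + θ • (c - t)) := by
        rw [integral_const_mul, integral_integral_swap hGi]
    _ ≤ 6 * s ^ 2 * ∫ θ in Ioc (1 / 2 : ℝ) 1, 8 * ∫ c in Q, h c := by
        apply mul_le_mul_of_nonneg_left _ (by positivity)
        apply setIntegral_mono_on _ _ measurableSet_Ioc
        · intro θ hθ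
          exact scale hQm hQc hQk hh hh0 ht hθ.1.le hθ.2
        · exact hGi.integral_prod_right
        · exact integrableOn_const (by simp)
    _ = 24 * s ^ 2 * ∫ c in Q, h c := by
        rw [setIntegral_const, Measure.real, Real.volume_Ioc,
          ENNReal.toReal_ofReal (by norm_num), smul_eq_mul]
        ring

end PoincAux

open PoincAux in
theorem Poinc : S_Poinc := by
  refine ⟨768, by norm_num, ?_⟩
  intro s hs a g f hgm hg0 hg1 hgQ hgi hf
  have hs0 : 0 < s := by linarith
  have hQeq := Qc_eq s a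
  generalize Qc s a = Q at hQeq hgQ ⊢
  have hQk : IsCompact Q := by rw [hQeq]; exact isCompact_Icc
  have hQc : Convex ℝ Q := by rw [hQeq]; exact convex_Icc _ _
  have hQm : MeasurableSet Q := by rw [hQeq]; exact measurableSet_Icc
  have hQd : ∀ c ∈ Q, ∀ t ∈ Q, ∀ k, |(c - t) k| ≤ 2 * s := by
    intro c hc t ht k
    rw [hQeq] at hc ht
    have h1 := hc.1 k
    have h2 := hc.2 k
    have h3 := ht.1 k
    have h4 := ht.2 k
    simp only at h1 h2 h3 h4
    rw [Pi.sub_apply, abs_le]
    constructor <;> linarith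
  have hvol : volume.real Q = 8 * s ^ 3 := by
    rw [hQeq, Measure.real, Real.volume_Icc_pi_toReal]
    · rw [Fin.prod_univ_three]
      ring
    · intro k
      simp only
      linarith
  have hfc := hf.continuous
  set H := ∫ c in Q, ∑ k, fderiv ℝ f c (Pi.single k 1) ^ 2 with hH
  have hgint : Integrable g := by
    by_contra h
    rw [integral_undef h] at hgi
    norm_num at hgi
  have hgφ : ∀ φ : R3 → ℝ, Continuous φ → Integrable (fun t => g t * φ t) := by
    intro φ hφ
    have h1 : IntegrableOn (fun t => g t * φ t) Q :=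
      (hgint.integrableOn).mul_continuousOn hφ.continuousOn hQk
    refine (integrableOn_iff_integrable_of_support_subset ?_).1 h1
    intro t ht
    apply hgQ
    intro h0
    apply ht
    simp [h0]
  set A := ∫ t, g t * f t with hA
  have hi2 : Integrable (fun t => g t * f t ^ 2) := hgφ _ (hfc.pow 2)
  have hi1 : Integrable (fun t => g t * f t) := hgφ _ hfc
  have hexp : ∀ u : ℝ, ∫ t, g t * (u - f t) ^ 2 = u ^ 2 - 2 * u * A + ∫ t, g t * f t ^ 2 := by
    intro u
    have e : ∀ t, g t * (u - f t) ^ 2 = u ^ 2 * g t - 2 * u * (g t * f t) + g t * f t ^ 2 :=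
      fun t => by ring
    simp only [e]
    rw [integral_add, integral_sub, integral_const_mul, integral_const_mul, hgi, ← hA]
    · ring
    · exact hgint.const_mul _
    · exact hi1.const_mul _
    · exact (hgint.const_mul _).sub (hi1.const_mul _)
    · exact hi2
  have hJ : ∀ c, (f c - A) ^ 2 ≤ 1 / s ^ 3 * ∫ t in Q, (f c - f t) ^ 2 := by
    intro c
    have h1 := hexp A
    have h2 : 0 ≤ ∫ t, g t * (A - f t) ^ 2 :=
      integral_nonneg fun t => mul_nonneg (hg0 t) (sq_nonneg _)
    have h3 := hexp (f c)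
    have h4 : (f c - A) ^ 2 ≤ ∫ t, g t * (f c - f t) ^ 2 := by
      rw [h3]
      nlinarith
    refine h4.trans ?_
    have h5 : ∫ t, g t * (f c - f t) ^ 2 = ∫ t in Q, g t * (f c - f t) ^ 2 := by
      symm
      apply setIntegral_eq_integral_of_forall_compl_eq_zero
      intro t ht
      have : g t = 0 := by
        by_contra h0
        exact ht (hgQ t h0)
      rw [this, zero_mul]
    rw [h5, ← integral_const_mul]
    apply setIntegral_mono_on _ _ hQm
    · intro t _
      exact mul_le_mul_of_nonneg_right (hg1 t) (sq_nonneg _)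
    · exact (hgφ _ (by fun_prop)).integrableOn
    · exact (by fun_prop : Continuous fun t =>
        1 / s ^ 3 * (f c - f t) ^ 2).continuousOn.integrableOn_compact hQk
  have hprod : ∀ G : R3 × R3 → ℝ, Continuous G →
      Integrable G ((volume.restrict Q).prod (volume.restrict Q)) := by
    intro G hG
    rw [Measure.prod_restrict]
    exact hG.continuousOn.integrableOn_compact (hQk.prod hQk)
  have hfin : IsFiniteMeasure ((volume : Measure R3).restrict Q) :=
    ⟨by rw [Measure.restrict_apply_univ]; exact hQk.measure_lt_top⟩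
  -- the two halves
  have hc1 : Continuous fun p : R3 × R3 => (f p.1 - f (p.2 + (1 / 2 : ℝ) • (p.1 - p.2))) ^ 2 := by
    fun_prop
  have hc2 : Continuous fun p : R3 × R3 => (f p.2 - f (p.1 + (1 / 2 : ℝ) • (p.2 - p.1))) ^ 2 := by
    fun_prop
  have hc3 : Continuous fun p : R3 × R3 => (f p.1 - f p.2) ^ 2 := by
    fun_prop
  have k1 : ∫ p, (f p.1 - f (p.2 + (1 / 2 : ℝ) • (p.1 - p.2))) ^ 2
      ∂((volume.restrict Q).prod (volume.restrict Q)) ≤ 8 * s ^ 3 * (24 * s ^ 2 * H) := by
    rw [integral_prod_symm _ (hprod _ hc1)]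
    calc ∫ t in Q, ∫ c in Q, (f c - f (t + (1 / 2 : ℝ) • (c - t))) ^ 2
        ≤ ∫ t in Q, 24 * s ^ 2 * H := by
          apply setIntegral_mono_on _ _ hQm
          · intro t ht
            exact halfInt hf hQm hQc hQk hQd ht
          · exact (hprod _ hc1).integral_prod_right
          · exact integrableOn_const (by exact hQk.measure_lt_top.ne)
      _ = 8 * s ^ 3 * (24 * s ^ 2 * H) := by
          rw [setIntegral_const, hvol, smul_eq_mul]
  have k2 : ∫ p, (f p.2 - f (p.1 + (1 / 2 : ℝ) • (p.2 - p.1))) ^ 2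
      ∂((volume.restrict Q).prod (volume.restrict Q)) ≤ 8 * s ^ 3 * (24 * s ^ 2 * H) := by
    rw [integral_prod _ (hprod _ hc2)]
    calc ∫ c in Q, ∫ t in Q, (f t - f (c + (1 / 2 : ℝ) • (t - c))) ^ 2
        ≤ ∫ c in Q, 24 * s ^ 2 * H := by
          apply setIntegral_mono_on _ _ hQm
          · intro c hc
            exact halfInt hf hQm hQc hQk hQd hc
          · exact (hprod _ hc2).integral_prod_left
          · exact integrableOn_const (by exact hQk.measure_lt_top.ne)
      _ = 8 * s ^ 3 * (24 * s ^ 2 * H) := by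
          rw [setIntegral_const, hvol, smul_eq_mul]
  have k3 : ∫ p, (f p.1 - f p.2) ^ 2 ∂((volume.restrict Q).prod (volume.restrict Q)) ≤
      768 * s ^ 5 * H := by
    calc ∫ p, (f p.1 - f p.2) ^ 2 ∂((volume.restrict Q).prod (volume.restrict Q))
        ≤ ∫ p, (2 * (f p.1 - f (p.2 + (1 / 2 : ℝ) • (p.1 - p.2))) ^ 2 +
            2 * (f p.2 - f (p.1 + (1 / 2 : ℝ) • (p.2 - p.1))) ^ 2)
            ∂((volume.restrict Q).prod (volume.restrict Q)) := by
          apply integral_mono (hprod _ hc3)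
          · exact ((hprod _ hc1).const_mul 2).add ((hprod _ hc2).const_mul 2)
          · intro p
            simp only
            have e : p.1 + (1 / 2 : ℝ) • (p.2 - p.1) = p.2 + (1 / 2 : ℝ) • (p.1 - p.2) := by
              ext k
              simp only [Pi.add_apply, Pi.smul_apply, Pi.sub_apply, smul_eq_mul]
              ring
            rw [e]
            nlinarith [sq_nonneg ((f p.1 - f (p.2 + (1 / 2 : ℝ) • (p.1 - p.2))) +
              (f p.2 - f (p.2 + (1 / 2 : ℝ) • (p.1 - p.2))))]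
      _ = 2 * ∫ p, (f p.1 - f (p.2 + (1 / 2 : ℝ) • (p.1 - p.2))) ^ 2
            ∂((volume.restrict Q).prod (volume.restrict Q)) +
          2 * ∫ p, (f p.2 - f (p.1 + (1 / 2 : ℝ) • (p.2 - p.1))) ^ 2
            ∂((volume.restrict Q).prod (volume.restrict Q)) := by
          rw [integral_add ((hprod _ hc1).const_mul 2) ((hprod _ hc2).const_mul 2),
            integral_const_mul, integral_const_mul]
      _ ≤ 768 * s ^ 5 * H := by
          have : 2 * (8 * s ^ 3 * (24 * s ^ 2 * H)) + 2 * (8 * s ^ 3 * (24 * s ^ 2 * H)) =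
              768 * s ^ 5 * H := by ring
          linarith
  rw [integral_prod _ (hprod _ hc3)] at k3
  calc ∫ c in Q, (f c - A) ^ 2
      ≤ ∫ c in Q, 1 / s ^ 3 * ∫ t in Q, (f c - f t) ^ 2 := by
        apply setIntegral_mono_on _ _ hQm
        · intro c _
          exact hJ c
        · exact (by fun_prop : Continuous fun c => (f c - A) ^ 2).continuousOn.integrableOn_compact
            hQk
        · exact ((hprod _ hc3).integral_prod_left).const_mul _
    _ = 1 / s ^ 3 * ∫ c in Q, ∫ t in Q, (f c - f t) ^ 2 := integral_const_mul _ _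
    _ ≤ 1 / s ^ 3 * (768 * s ^ 5 * H) := mul_le_mul_of_nonneg_left k3 (by positivity)
    _ = 768 * s ^ 2 * H := by
        field_simp

end Pool.Agent.Lib.MP_5db8e2_mp
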