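import Pool.Agent.Lib.MP_5db8e2_mp.LB.Spec4

/-!
# Lower bound, part 4: the profile
-/

set_option autoImplicit false

open MeasureTheory Function Finset
open scoped Classical

namespace Pool.Agent.Lib.MP_5db8e2_mp

theorem prof_st_symm (x : ℝ) :
    Real.smoothTransition (1 - x) = 1 - Real.smoothTransition x := by
  have h := (Real.smoothTransition.pos_denom x).ne'
  have h' : expNegInvGlue (1 - x) + expNegInvGlue x ≠ 0 := by rwa [add_comm]
  unfold Real.smoothTransition
  rw [sub_sub_cancel, eq_sub_iff_add_eq, add_comm (expNegInvGlue (1 - x)) (expNegInvGlue x),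
    ← add_div, add_comm (expNegInvGlue (1 - x)), div_self h]

theorem prof_neg (e t : ℝ) : prof e (-t) = prof e t := by
  unfold prof
  rw [mul_comm, sub_neg_eq_add, ← sub_eq_add_neg]

theorem prof_of_ge (e t : ℝ) (he : e ≤ 1 / 4) (ht : -e ≤ t) :
    prof e t = Real.smoothTransition ((1 - e - t) / (1 - 2 * e)) := by
  unfold prof
  rw [Real.smoothTransition.one_of_one_le (x := (1 - e + t) / (1 - 2 * e)), mul_one]
  rw [le_div_iff₀ (by linarith)]
  linarith

theorem prof_of_le (e t : ℝ) (he : e ≤ 1 / 4) (ht : t ≤ e) :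
    prof e t = Real.smoothTransition ((1 - e + t) / (1 - 2 * e)) := by
  unfold prof
  rw [Real.smoothTransition.one_of_one_le (x := (1 - e - t) / (1 - 2 * e)), one_mul]
  rw [le_div_iff₀ (by linarith)]
  linarith

theorem prof_nonneg (e t : ℝ) : 0 ≤ prof e t :=
  mul_nonneg (Real.smoothTransition.nonneg _) (Real.smoothTransition.nonneg _)

theorem prof_le_one (e t : ℝ) : prof e t ≤ 1 :=
  mul_le_one₀ (Real.smoothTransition.le_one _) (Real.smoothTransition.nonneg _)
    (Real.smoothTransition.le_one _)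

theorem prof_supp (e t : ℝ) (he : e ≤ 1 / 4) (h : prof e t ≠ 0) : |t| ≤ 1 - e := by
  unfold prof at h
  have h1 : Real.smoothTransition ((1 - e - t) / (1 - 2 * e)) ≠ 0 := left_ne_zero_of_mul h
  have h2 : Real.smoothTransition ((1 - e + t) / (1 - 2 * e)) ≠ 0 := right_ne_zero_of_mul h
  rw [Ne, Real.smoothTransition.zero_iff_nonpos, not_le] at h1 h2
  have h3 : 0 < 1 - 2 * e := by linarith
  rw [div_pos_iff_of_pos_right h3] at h1 h2
  rw [abs_le]; constructor <;> linarith

theorem prof_eq_zero (e t : ℝ) (he0 : 0 < e) (he : e ≤ 1 / 4) (h : 1 ≤ |t|) : prof e t = 0 := by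
  by_contra h'
  have := prof_supp e t he h'
  linarith

theorem prof_pair (e t : ℝ) (he0 : 0 < e) (he : e ≤ 1 / 4) (h0 : 0 ≤ t) (h1 : t ≤ 1) :
    prof e t + prof e (t - 1) = 1 := by
  rw [prof_of_ge e t he (by linarith), prof_of_le e (t - 1) he (by linarith)]
  have h2 : (1 - e + (t - 1)) / (1 - 2 * e) = 1 - (1 - e - t) / (1 - 2 * e) := by
    have h3 : (1 - 2 * e) ≠ 0 := by linarith
    rw [eq_sub_iff_add_eq, ← add_div, div_eq_one_iff_eq h3]
    ring
  rw [h2, prof_st_symm]
  ring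

theorem prof_floor (e t : ℝ) (he0 : 0 < e) (he : e ≤ 1 / 4) :
    ∑ k ∈ ({⌊t⌋, ⌊t⌋ + 1} : Finset ℤ), prof e (t - k) = 1 := by
  rw [Finset.sum_pair (by omega)]
  have h1 := Int.floor_le t
  have h2 := (Int.lt_floor_add_one t).le
  have := prof_pair e (t - ⌊t⌋) he0 he (by linarith) (by linarith)
  push_cast
  rw [← sub_sub]
  exact this

theorem prof_off (e t : ℝ) (he0 : 0 < e) (he : e ≤ 1 / 4) (k : ℤ) (hk : k ≠ ⌊t⌋)
    (hk' : k ≠ ⌊t⌋ + 1) : prof e (t - k) = 0 := by
  apply prof_eq_zero e _ he0 he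
  have h1 := Int.floor_le t
  have h2 := (Int.lt_floor_add_one t).le
  rcases lt_or_gt_of_ne hk with h | h
  · have h3 : (k : ℝ) + 1 ≤ ⌊t⌋ := by exact_mod_cast h
    rw [le_abs]; left; linarith
  · have h3 : ⌊t⌋ + 1 + 1 ≤ k := by omega
    have h4 : (⌊t⌋ : ℝ) + 1 + 1 ≤ k := by exact_mod_cast h3
    rw [le_abs]; right; linarith

theorem prof_sum_le (e t : ℝ) (he0 : 0 < e) (he : e ≤ 1 / 4) (S : Finset ℤ) :
    ∑ k ∈ S, prof e (t - k) ≤ 1 := by
  have h1 : ∑ k ∈ S ∪ {⌊t⌋, ⌊t⌋ + 1}, prof e (t - k) =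
      ∑ k ∈ ({⌊t⌋, ⌊t⌋ + 1} : Finset ℤ), prof e (t - k) := by
    symm
    refine Finset.sum_subset Finset.subset_union_right fun k _ hk => ?_
    simp only [Finset.mem_insert, Finset.mem_singleton, not_or] at hk
    exact prof_off e t he0 he k hk.1 hk.2
  calc ∑ k ∈ S, prof e (t - k) ≤ ∑ k ∈ S ∪ {⌊t⌋, ⌊t⌋ + 1}, prof e (t - k) :=
        Finset.sum_le_sum_of_subset_of_nonneg Finset.subset_union_left
          fun k _ _ => prof_nonneg e _
    _ = 1 := by rw [h1, prof_floor e t he0 he]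

theorem prof_sum_eq (e t : ℝ) (he0 : 0 < e) (he : e ≤ 1 / 4) (K : ℕ) (ht : |t| ≤ K) :
    ∑ k ∈ Finset.Icc (-(K : ℤ)) (K : ℤ), prof e (t - k) = 1 := by
  have h1 : ∑ k ∈ Finset.Icc (-(K : ℤ)) (K : ℤ) ∪ {⌊t⌋, ⌊t⌋ + 1}, prof e (t - k) =
      ∑ k ∈ ({⌊t⌋, ⌊t⌋ + 1} : Finset ℤ), prof e (t - k) := by
    symm
    refine Finset.sum_subset Finset.subset_union_right fun k _ hk => ?_
    simp only [Finset.mem_insert, Finset.mem_singleton, not_or] at hk
    exact prof_off e t he0 he k hk.1 hk.2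
  have h2 : ∑ k ∈ Finset.Icc (-(K : ℤ)) (K : ℤ), prof e (t - k) =
      ∑ k ∈ Finset.Icc (-(K : ℤ)) (K : ℤ) ∪ {⌊t⌋, ⌊t⌋ + 1}, prof e (t - k) := by
    refine Finset.sum_subset Finset.subset_union_left fun k _ hk => ?_
    apply prof_eq_zero e _ he0 he
    rw [abs_le] at ht
    rw [Finset.mem_Icc, not_and_or, not_le, not_le] at hk
    rcases hk with h | h
    · have h3 : k + 1 ≤ -(K : ℤ) := h
      have h4 : (k : ℝ) + 1 ≤ -(K : ℝ) := by exact_mod_cast h3
      rw [le_abs]; left; linarith [ht.1]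
    · have h3 : (K : ℤ) + 1 ≤ k := h
      have h4 : (K : ℝ) + 1 ≤ k := by exact_mod_cast h3
      rw [le_abs]; right; linarith [ht.2]
  rw [h2, h1, prof_floor e t he0 he]

theorem prof_deriv_st : ∃ C : ℝ, 0 ≤ C ∧ ∀ x, |deriv Real.smoothTransition x| ≤ C := by
  have hc : Continuous (deriv Real.smoothTransition) :=
    (Real.smoothTransition.contDiff (n := 1)).continuous_deriv le_rfl
  obtain ⟨C, hC⟩ := isCompact_Icc.exists_bound_of_continuousOn
    (s := Set.Icc (0 : ℝ) 1) hc.continuousOn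
  refine ⟨C, (norm_nonneg _).trans (hC 0 ⟨le_rfl, zero_le_one⟩), fun x => ?_⟩
  have hC0 : 0 ≤ C := (norm_nonneg _).trans (hC 0 ⟨le_rfl, zero_le_one⟩)
  by_cases h0 : x < 0
  · have : Real.smoothTransition =ᶠ[nhds x] fun _ => (0 : ℝ) := by
      filter_upwards [Iio_mem_nhds h0] with y hy
      exact Real.smoothTransition.zero_of_nonpos (le_of_lt hy)
    rw [this.deriv_eq]; simpa using hC0
  · by_cases h1 : 1 < x
    · have : Real.smoothTransition =ᶠ[nhds x] fun _ => (1 : ℝ) := by
        filter_upwards [Ioi_mem_nhds h1] with y hy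
        exact Real.smoothTransition.one_of_one_le (le_of_lt hy)
      rw [this.deriv_eq]; simpa using hC0
    · exact hC x ⟨not_lt.1 h0, not_lt.1 h1⟩

theorem prof_contDiff (e : ℝ) : ContDiff ℝ 1 (prof e) := by
  unfold prof
  refine ContDiff.mul ?_ ?_
  · exact (Real.smoothTransition.contDiff (n := 1)).comp
      ((contDiff_const.sub contDiff_id).div_const _)
  · exact (Real.smoothTransition.contDiff (n := 1)).comp
      ((contDiff_const.add contDiff_id).div_const _)

theorem prof_deriv (e t C : ℝ) (he : e ≤ 1 / 4) (hC0 : 0 ≤ C)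
    (hC : ∀ x, |deriv Real.smoothTransition x| ≤ C) : |deriv (prof e) t| ≤ 4 * C := by
  have h3 : 0 < 1 - 2 * e := by linarith
  have hd : Differentiable ℝ Real.smoothTransition :=
    (Real.smoothTransition.contDiff (n := 1)).differentiable one_ne_zero
  have hu : HasDerivAt (fun t : ℝ => (1 - e - t) / (1 - 2 * e)) (-1 / (1 - 2 * e)) t := by
    have := ((hasDerivAt_id t).const_sub (1 - e)).div_const (1 - 2 * e)
    simpa using this
  have hv : HasDerivAt (fun t : ℝ => (1 - e + t) / (1 - 2 * e)) (1 / (1 - 2 * e)) t := by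
    have := ((hasDerivAt_id t).const_add (1 - e)).div_const (1 - 2 * e)
    simpa using this
  have h1 := (hd ((1 - e - t) / (1 - 2 * e))).hasDerivAt.comp t hu
  have h2 := (hd ((1 - e + t) / (1 - 2 * e))).hasDerivAt.comp t hv
  have h4 : deriv (prof e) t = _ := (h1.mul h2).deriv
  rw [h4]
  set A := deriv Real.smoothTransition ((1 - e - t) / (1 - 2 * e)) with hA
  set B := deriv Real.smoothTransition ((1 - e + t) / (1 - 2 * e)) with hB
  have hAC : |A| ≤ C := hC _
  have hBC : |B| ≤ C := hC _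
  have s1 := Real.smoothTransition.nonneg ((1 - e - t) / (1 - 2 * e))
  have s2 := Real.smoothTransition.le_one ((1 - e - t) / (1 - 2 * e))
  have s3 := Real.smoothTransition.nonneg ((1 - e + t) / (1 - 2 * e))
  have s4 := Real.smoothTransition.le_one ((1 - e + t) / (1 - 2 * e))
  simp only [Function.comp_apply]
  have hinv : 1 / (1 - 2 * e) ≤ 2 := by
    rw [div_le_iff₀ h3]; linarith
  have hinv0 : 0 ≤ 1 / (1 - 2 * e) := by positivity
  refine (abs_add_le _ _).trans ?_
  have b1 : |A * (-1 / (1 - 2 * e)) * Real.smoothTransition ((1 - e + t) / (1 - 2 * e))| ≤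
      2 * C := by
    rw [abs_mul, abs_mul, neg_div, abs_neg, abs_of_nonneg hinv0, abs_of_nonneg s3]
    calc |A| * (1 / (1 - 2 * e)) * Real.smoothTransition ((1 - e + t) / (1 - 2 * e))
        ≤ |A| * (1 / (1 - 2 * e)) * 1 := by gcongr
      _ ≤ C * 2 * 1 := by gcongr
      _ = 2 * C := by ring
  have b2 : |Real.smoothTransition ((1 - e - t) / (1 - 2 * e)) * (B * (1 / (1 - 2 * e)))| ≤
      2 * C := by
    rw [abs_mul, abs_mul, abs_of_nonneg hinv0, abs_of_nonneg s1]
    calc Real.smoothTransition ((1 - e - t) / (1 - 2 * e)) * (|B| * (1 / (1 - 2 * e)))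
        ≤ 1 * (|B| * (1 / (1 - 2 * e))) := by gcongr
      _ ≤ 1 * (C * 2) := by gcongr
      _ = 2 * C := by ring
  linarith

theorem prof_support (e : ℝ) (he : e ≤ 1 / 4) :
    Function.support (prof e) ⊆ Set.Icc (-(1 - e)) (1 - e) := by
  intro t ht
  have := abs_le.1 (prof_supp e t he ht)
  exact ⟨this.1, this.2⟩

theorem prof_integrable (e : ℝ) (he : e ≤ 1 / 4) : Integrable (prof e) := by
  refine (prof_contDiff e).continuous.integrable_of_hasCompactSupport ?_
  exact HasCompactSupport.of_support_subset_isCompact isCompact_Icc (prof_support e he)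

theorem prof_integral (e : ℝ) (he0 : 0 < e) (he : e ≤ 1 / 4) : ∫ t, prof e t = 1 := by
  have hc := (prof_contDiff e).continuous
  have hs : Function.support (prof e) ⊆ Set.Ioc (-1) 1 := by
    intro t ht
    have := prof_support e he ht
    exact ⟨by linarith [this.1], by linarith [this.2]⟩
  rw [← intervalIntegral.integral_eq_integral_of_support_subset hs,
    ← intervalIntegral.integral_add_adjacent_intervals (b := 0)
      (hc.intervalIntegrable _ _) (hc.intervalIntegrable _ _)]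
  have h1 : ∫ t in (-1 : ℝ)..0, prof e t = ∫ t in (0 : ℝ)..1, prof e (t - 1) := by
    rw [intervalIntegral.integral_comp_sub_right (fun t => prof e t) 1]
    norm_num
  have hc' : Continuous fun t : ℝ => prof e (t - 1) :=
    hc.comp (continuous_id.sub continuous_const)
  rw [h1, ← intervalIntegral.integral_add (hc'.intervalIntegrable _ _)
    (hc.intervalIntegrable _ _)]
  have h2 : ∫ t in (0 : ℝ)..1, (prof e (t - 1) + prof e t) = ∫ _t in (0 : ℝ)..1, (1 : ℝ) := by
    refine intervalIntegral.integral_congr fun t ht => ?_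
    rw [Set.uIcc_of_le zero_le_one] at ht
    rw [add_comm]
    exact prof_pair e t he0 he ht.1 ht.2
  rw [h2]; simp

theorem Prof : S_Prof := by
  obtain ⟨C, hC0, hC⟩ := prof_deriv_st
  refine ⟨4 * C + 1, by linarith, fun e he0 he => ?_⟩
  refine ⟨prof_contDiff e, fun t => ⟨prof_nonneg e t, prof_le_one e t⟩,
    fun t ht => prof_supp e t he ht, fun t => ?_, fun K t => prof_sum_le e t he0 he _,
    fun K t ht => prof_sum_eq e t he0 he K ht, prof_integrable e he, prof_integral e he0 he⟩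
  exact (prof_deriv e t C he hC0 hC).trans (by linarith)

end Pool.Agent.Lib.MP_5db8e2_mp
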