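import Pool.Agent.Lib.MP_5db8e2_mp.LB.Spec9
import Pool.Agent.Lib.MP_5db8e2_mp.LB.Prof

/-!
# Lower bound, part 9: the pointwise lower bound of the main terms
-/

set_option autoImplicit false

open MeasureTheory Function Finset
open scoped Classical

namespace Pool.Agent.Lib.MP_5db8e2_mp

namespace PtAux

/-- the profile is at least `1/2` on `[-1/2, 1/2]` -/
theorem prof_half {e t : ℝ} (he0 : 0 < e) (he : e ≤ 1 / 4) (ht : |t| ≤ 1 / 2) :
    1 / 2 ≤ prof e t := by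
  have key : ∀ u, 0 ≤ u → u ≤ 1 / 2 → 1 / 2 ≤ prof e u := by
    intro u h0 h1
    rw [prof_of_ge e u he (by linarith)]
    have h2 := Real.smoothTransition.monotone
      (show 1 - (1 - e - u) / (1 - 2 * e) ≤ (1 - e - u) / (1 - 2 * e) by
        have h3 : 0 < 1 - 2 * e := by linarith
        have h4 : 1 / 2 ≤ (1 - e - u) / (1 - 2 * e) := by
          rw [le_div_iff₀ h3]
          linarith
        linarith)
    rw [prof_st_symm] at h2
    linarith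
  rcases le_total 0 t with h | h
  · rw [abs_of_nonneg h] at ht
    exact key t h ht
  · rw [abs_of_nonpos h] at ht
    rw [← prof_neg]
    exact key (-t) (by linarith) ht

/-- `θ_a ≥ 1/8` on the cell -/
theorem th_cell {s e : ℝ} (hs : 1 ≤ s) (he0 : 0 < e) (he : e ≤ 1 / 4) (a : Fin 3 → ℤ) {c : R3}
    (hc : c ∈ cell s a) : 1 / 8 ≤ th s e a c := by
  unfold th
  have h1 : ∀ k, 1 / 2 ≤ prof e (c k / s - a k) := by
    intro k
    refine prof_half he0 he ?_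
    have h2 : c k / s - a k = (c k - s * a k) / s := by field_simp
    rw [h2, abs_div, abs_of_pos (show (0 : ℝ) < s by linarith), div_le_iff₀ (by linarith)]
    have := hc k
    linarith
  rw [Fin.prod_univ_three]
  have a0 := h1 0
  have a1 := h1 1
  have a2 := h1 2
  have m1 : (1 / 2 : ℝ) * (1 / 2) ≤ prof e (c 0 / s - a 0) * prof e (c 1 / s - a 1) :=
    mul_le_mul a0 a1 (by norm_num) (by linarith)
  have m2 : (1 / 2 : ℝ) * (1 / 2) * (1 / 2) ≤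
      prof e (c 0 / s - a 0) * prof e (c 1 / s - a 1) * prof e (c 2 / s - a 2) :=
    mul_le_mul m1 a2 (by norm_num) (by
      have : (0 : ℝ) ≤ (1 / 2) * (1 / 2) := by norm_num
      linarith)
  linarith

/-- `n choose 3 ≥ n³/12` for `n ≥ 6` -/
theorem choose_ge {n : ℕ} (hn : 6 ≤ n) : (n : ℝ) ^ 3 / 12 ≤ (n.choose 3 : ℝ) := by
  obtain ⟨k, rfl⟩ := Nat.exists_eq_add_of_le hn
  have h1 : (6 + k).descFactorial 3 = Nat.factorial 3 * (6 + k).choose 3 :=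
    Nat.descFactorial_eq_factorial_mul_choose _ _
  have h2 : (6 + k).descFactorial 3 = (4 + k) * ((5 + k) * (6 + k)) := by
    simp only [Nat.descFactorial, Nat.mul_one, Nat.sub_zero]
    congr 1
    · omega
    · congr 1
      omega
  have h3 : (Nat.factorial 3 : ℕ) = 6 := rfl
  rw [h2, h3] at h1
  have h4 : ((4 : ℝ) + k) * ((5 + k) * (6 + k)) = 6 * ((6 + k).choose 3 : ℝ) := by
    exact_mod_cast h1
  have hk : (0 : ℝ) ≤ k := Nat.cast_nonneg k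
  push_cast
  nlinarith [mul_nonneg hk hk, mul_nonneg (mul_nonneg hk hk) hk]

/-- always -/
theorem bad_le {m S μ nB e4 l4 : ℝ} (hm : 1 ≤ m) (hS : 0 ≤ S) (hμ : 0 ≤ μ) (hSn : m * S ≤ nB)
    (h0 : 0 ≤ e4) (h4 : e4 ≤ S ^ 4 / 24) (hl1 : l4 ≤ 1)
    (hl2 : l4 ≠ 0 → nB ≤ 2 * (μ * m)) : m * (l4 * e4) ≤ μ ^ 3 * nB / 3 := by
  have hnB : 0 ≤ nB := le_trans (by positivity) hSn
  by_cases hz : l4 = 0
  · rw [hz]
    have : 0 ≤ μ ^ 3 * nB / 3 := by positivity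
    linarith
  have h1 := hl2 hz
  have h2 : S ≤ 2 * μ := by
    have h3 : m * S ≤ m * (2 * μ) := by linarith
    exact le_of_mul_le_mul_left h3 (by linarith)
  have h3 : S ^ 3 ≤ (2 * μ) ^ 3 := pow_le_pow_left₀ hS h2 3
  have h5 : m * (l4 * e4) ≤ m * (1 * (S ^ 4 / 24)) := by
    refine mul_le_mul_of_nonneg_left ?_ (by linarith)
    exact mul_le_mul hl1 h4 h0 (by norm_num)
  have h6 : (m * S) * S ^ 3 ≤ nB * (2 * μ) ^ 3 :=
    mul_le_mul hSn h3 (by positivity) hnB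
  calc m * (l4 * e4) ≤ m * (1 * (S ^ 4 / 24)) := h5
    _ = (m * S) * S ^ 3 / 24 := by ring
    _ ≤ nB * (2 * μ) ^ 3 / 24 := by linarith
    _ = μ ^ 3 * nB / 3 := by ring

/-- `Val * e ≥ -|Val| e'` for `0 ≤ e ≤ e'` -/
theorem val_ge {Val e e' : ℝ} (h0 : 0 ≤ e) (h : e ≤ e') : -(|Val| * e') ≤ Val * e := by
  have h1 := neg_abs_le Val
  have h2 := abs_nonneg Val
  nlinarith

/-- good windows -/
theorem good_plain {m S μ ρ b Val ε e3 e4 : ℝ} (hm : 1 ≤ m) (hS : 0 ≤ S) (hSμ : S ≤ μ)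
    (hρ : 0 < ρ) (hρμ : ρ ≤ μ) (hb : 0 < b) (hv : |Val| * μ ≤ b / 2)
    (h3 : S ^ 3 / 6 - S ^ 2 / (2 * m) ≤ e3) (h4l : S ^ 4 / 24 - S ^ 3 / (4 * m) ≤ e4)
    (h4u : e4 ≤ S ^ 4 / 24)
    (herr : b * μ ^ 2 / 2 + |Val| * μ ^ 3 / 4 ≤ ε / 2 * m * ρ ^ 4) :
    m * ((b * ρ ^ 2 / 2 + Val * ρ ^ 3 / 6) * S - (b * ρ ^ 3 / 3 + Val * ρ ^ 4 / 8))
      - ε / 2 * m * ρ ^ 4 ≤ m * (b * e3 + Val * e4) := by
  have hv0 := abs_nonneg Val
  have hm0 : 0 < m := by linarith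
  -- the cubic term
  have a1 : m * b * (S ^ 3 / 6) - b * S ^ 2 / 2 ≤ m * b * e3 := by
    have := mul_le_mul_of_nonneg_left h3 (by positivity : 0 ≤ m * b)
    have e : m * b * (S ^ 3 / 6 - S ^ 2 / (2 * m)) = m * b * (S ^ 3 / 6) - b * S ^ 2 / 2 := by
      field_simp
    linarith
  -- the quartic term
  have a2 : m * Val * (S ^ 4 / 24) - |Val| * S ^ 3 / 4 ≤ m * Val * e4 := by
    rcases le_total 0 Val with hV | hV
    · rw [abs_of_nonneg hV]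
      have := mul_le_mul_of_nonneg_left h4l (by positivity : 0 ≤ m * Val)
      have e : m * Val * (S ^ 4 / 24 - S ^ 3 / (4 * m)) = m * Val * (S ^ 4 / 24)
          - Val * S ^ 3 / 4 := by
        field_simp
      linarith
    · have h1 : 0 ≤ |Val| * S ^ 3 / 4 := by positivity
      have h2 : 0 ≤ m * (-Val) := mul_nonneg hm0.le (by linarith)
      have := mul_le_mul_of_nonneg_left h4u h2
      linarith
  -- convexity
  have b1 : 0 ≤ b / 6 * (S + 2 * ρ) + Val / 24 * (S ^ 2 + 2 * S * ρ + 3 * ρ ^ 2) := by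
    have c1 : S ^ 2 + 2 * S * ρ + 3 * ρ ^ 2 ≤ 3 * μ * (S + 2 * ρ) := by
      have hμ : 0 ≤ μ := hS.trans hSμ
      nlinarith [mul_le_mul_of_nonneg_left hSμ hS, mul_le_mul_of_nonneg_left hSμ hρ.le,
        mul_le_mul_of_nonneg_left hρμ hρ.le, mul_nonneg hμ hS, mul_nonneg hμ hρ.le]
    have c2 : 0 ≤ S ^ 2 + 2 * S * ρ + 3 * ρ ^ 2 := by positivity
    have c3 := neg_abs_le Val
    have c4 : -(|Val| * (3 * μ * (S + 2 * ρ))) ≤ Val * (S ^ 2 + 2 * S * ρ + 3 * ρ ^ 2) :=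
      val_ge c2 c1
    have c5 : |Val| * μ * (3 * (S + 2 * ρ)) ≤ b / 2 * (3 * (S + 2 * ρ)) :=
      mul_le_mul_of_nonneg_right hv (by positivity)
    nlinarith [mul_nonneg hb.le (by positivity : (0 : ℝ) ≤ S + 2 * ρ)]
  have b2 : (S - ρ) ^ 2 * (b / 6 * (S + 2 * ρ) + Val / 24 * (S ^ 2 + 2 * S * ρ + 3 * ρ ^ 2))
      = b * (S ^ 3 / 6) + Val * (S ^ 4 / 24)
        - ((b * ρ ^ 2 / 2 + Val * ρ ^ 3 / 6) * S - (b * ρ ^ 3 / 3 + Val * ρ ^ 4 / 8)) := by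
    ring
  have b3 : 0 ≤ m * (b * (S ^ 3 / 6) + Val * (S ^ 4 / 24)
        - ((b * ρ ^ 2 / 2 + Val * ρ ^ 3 / 6) * S - (b * ρ ^ 3 / 3 + Val * ρ ^ 4 / 8))) := by
    rw [← b2]
    positivity
  have d1 : S ^ 2 ≤ μ ^ 2 := pow_le_pow_left₀ hS hSμ 2
  have d2 : S ^ 3 ≤ μ ^ 3 := pow_le_pow_left₀ hS hSμ 3
  have d3 : b * S ^ 2 / 2 ≤ b * μ ^ 2 / 2 := by nlinarith
  have d4 : |Val| * S ^ 3 / 4 ≤ |Val| * μ ^ 3 / 4 := by
    have := mul_le_mul_of_nonneg_left d2 hv0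
    linarith
  nlinarith [a1, a2, b3, d3, d4]

/-- good rich heavy windows -/
theorem good_rich {m S μ ρ b Val e3 e4 E : ℝ} (hm : 1 ≤ m) (hS : 0 ≤ S) (hSμ : S ≤ μ)
    (hρ : 0 < ρ) (hρμ : ρ ≤ μ) (hb : 0 < b) (hv : |Val| * μ ≤ b / 2) (hSρ : 6 * ρ ≤ S)
    (hmS : 8 ≤ m * S) (h3 : S ^ 3 / 6 - S ^ 2 / (2 * m) ≤ e3) (h40 : 0 ≤ e4)
    (h4u : e4 ≤ S ^ 4 / 24) (hE : E ≤ m * (b * e3)) :
    m * ((b * ρ ^ 2 / 2 + Val * ρ ^ 3 / 6) * S - (b * ρ ^ 3 / 3 + Val * ρ ^ 4 / 8)) + E / 2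
      ≤ m * (b * e3 + Val * e4) := by
  have hv0 := abs_nonneg Val
  have hm0 : 0 < m := by linarith
  have a1 : m * b * (S ^ 3 / 6) - b * S ^ 2 / 2 ≤ m * b * e3 := by
    have := mul_le_mul_of_nonneg_left h3 (by positivity : 0 ≤ m * b)
    have e : m * b * (S ^ 3 / 6 - S ^ 2 / (2 * m)) = m * b * (S ^ 3 / 6) - b * S ^ 2 / 2 := by
      field_simp
    linarith
  have a2 : -(m * b * S ^ 3 / 48) ≤ m * (Val * e4) := by
    have h1 : -(|Val| * (S ^ 4 / 24)) ≤ Val * e4 := val_ge h40 h4u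
    have h2 : |Val| * S ≤ b / 2 := (mul_le_mul_of_nonneg_left hSμ hv0).trans hv
    have h5 : |Val| * S * (S ^ 3 / 24) ≤ b / 2 * (S ^ 3 / 24) :=
      mul_le_mul_of_nonneg_right h2 (by positivity)
    have h6 : -(b * S ^ 3 / 48) ≤ Val * e4 := by
      refine le_trans ?_ h1
      linarith
    have h7 := mul_le_mul_of_nonneg_left h6 hm0.le
    linarith
  have a3 : 8 * (b * S ^ 2 / 32) ≤ m * S * (b * S ^ 2 / 32) :=
    mul_le_mul_of_nonneg_right hmS (by positivity)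
  have hvρ : |Val| * ρ ≤ b / 2 := (mul_le_mul_of_nonneg_left hρμ hv0).trans hv
  have a4 : b * ρ ^ 2 / 2 + Val * ρ ^ 3 / 6 ≤ b * ρ ^ 2 := by
    have h1 := le_abs_self Val
    have h2 : |Val| * ρ * ρ ^ 2 ≤ b / 2 * ρ ^ 2 := mul_le_mul_of_nonneg_right hvρ (by positivity)
    have h3 : Val * ρ ^ 3 ≤ |Val| * ρ ^ 3 := mul_le_mul_of_nonneg_right h1 (by positivity)
    have h4 : 0 ≤ b * ρ ^ 2 := by positivity
    linarith
  have a5 : 0 ≤ b * ρ ^ 3 / 3 + Val * ρ ^ 4 / 8 := by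
    have h1 := neg_abs_le Val
    have h2 : |Val| * ρ * ρ ^ 3 ≤ b / 2 * ρ ^ 3 := mul_le_mul_of_nonneg_right hvρ (by positivity)
    have h3 : -|Val| * ρ ^ 4 ≤ Val * ρ ^ 4 := mul_le_mul_of_nonneg_right h1 (by positivity)
    have h4 : 0 ≤ b * ρ ^ 3 := by positivity
    linarith
  have a6 : 36 * ρ ^ 2 ≤ S ^ 2 := by
    have := pow_le_pow_left₀ (by positivity) hSρ 2
    linarith
  have a7 : b * ρ ^ 2 * (m * S) ≤ m * b * S ^ 3 / 32 := by
    have h1 : 36 * ρ ^ 2 * (b * m * S) ≤ S ^ 2 * (b * m * S) :=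
      mul_le_mul_of_nonneg_right a6 (by positivity)
    have h2 : 0 ≤ ρ ^ 2 * (b * m * S) := by positivity
    linarith
  have a8 : (b * ρ ^ 2 / 2 + Val * ρ ^ 3 / 6) * (m * S) ≤ b * ρ ^ 2 * (m * S) :=
    mul_le_mul_of_nonneg_right a4 (by positivity)
  have a9 : 0 ≤ m * (b * ρ ^ 3 / 3 + Val * ρ ^ 4 / 8) := mul_nonneg hm0.le a5
  nlinarith [a1, a2, a3, a7, a8, a9, hE]

/-- the lower bound of the third order term in rich heavy windows -/
theorem rich_E3 {m μ b n lam e3 : ℝ} (hm : 1 ≤ m) (hb : 0 < b) (hn : 0 < n)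
    (hlam : (μ * m / (470596 * n)) ^ 2 ≤ lam) (h3 : n ^ 3 / (6144 * m ^ 3) ≤ e3) :
    1 / (6144 * 470596 ^ 2) * b * μ ^ 2 * n ≤ m * (b * (lam * e3)) := by
  have hm0 : 0 < m := by linarith
  have h1 : (μ * m / (470596 * n)) ^ 2 * (n ^ 3 / (6144 * m ^ 3)) ≤ lam * e3 :=
    mul_le_mul hlam h3 (by positivity) (le_trans (by positivity) hlam)
  have h2 : 1 / (6144 * 470596 ^ 2) * b * μ ^ 2 * n
      = m * (b * ((μ * m / (470596 * n)) ^ 2 * (n ^ 3 / (6144 * m ^ 3)))) := by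
    field_simp
  rw [h2]
  exact mul_le_mul_of_nonneg_left (mul_le_mul_of_nonneg_left h1 hb.le) hm0.le

/-- the estimate for one window -/
theorem window (hE : S_Esy) (hC : S_Counts) (hWd : S_WdWin) (p : Par) (hp : p.OK)
    {b Val ε C₀ ρ : ℝ} (hC₀ : 32928 ≤ C₀) (hb : 0 < b) (hρ : 0 < ρ)
    (hM : p.M = C₀ * ρ * p.s ^ 3) (hMbig : 43904 ≤ p.M) (hv : |Val| * (C₀ * ρ) ≤ b / 2)
    (herr : b * (C₀ * ρ) ^ 2 / 2 + |Val| * (C₀ * ρ) ^ 3 / 4 ≤ ε / 2 * p.s ^ 3 * ρ ^ 4)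
    (x : Fin p.N → R3) {a : Fin 3 → ℤ} (ha : a ∈ p.win) :
    p.s ^ 3 * ((b * ρ ^ 2 / 2 + Val * ρ ^ 3 / 6) * (∑ j, p.gd a (x j))
        - (b * ρ ^ 3 / 3 + Val * ρ ^ 4 / 8)) - ε / 2 * p.s ^ 3 * ρ ^ 4
      + (if a ∈ p.RH x then 1 / (6144 * 470596 ^ 2) * b * (C₀ * ρ) ^ 2 *
          (cnt (cell p.s a) univ x : ℝ) / 2 else 0)
      - (b * ρ ^ 2 + |Val| * (C₀ * ρ) ^ 3 / 3) *
          (if p.M < cnt (Bc p.s a) univ x then (cnt (Bc p.s a) univ x : ℝ) else 0)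
      ≤ p.s ^ 3 * (b * (lam3 p.M (cnt (Bc p.s a) univ x - 3) * esy (p.gd a) 3 x)
          + Val * (lam4 p.M (cnt (Bc p.s a) univ x - 4) * esy (p.gd a) 4 x)) := by
  have hm : 1 ≤ p.s ^ 3 := one_le_pow₀ hp.hs
  have W := (hWd p hp a ha).1
  obtain ⟨e30, e40, e3u, e4u, e3l, e4l, eg⟩ :=
    hE (p.s ^ 3) (by linarith) (p.gd a) W.g_nonneg W.g_le x
  obtain ⟨c1, _, c3, _⟩ := hC p.M hp.hM
  set m : ℝ := p.s ^ 3 with hmdef
  set μ : ℝ := C₀ * ρ with hμdef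
  set S : ℝ := ∑ j, p.gd a (x j) with hSdef
  set e3 : ℝ := esy (p.gd a) 3 x with he3
  set e4 : ℝ := esy (p.gd a) 4 x with he4
  set nB : ℕ := cnt (Bc p.s a) univ x with hnB
  set n : ℕ := cnt (cell p.s a) univ x with hn
  have hm0 : 0 < m := by linarith
  have hμ0 : 0 < μ := by positivity
  have hv0 := abs_nonneg Val
  have hρμ : ρ ≤ μ := by
    rw [hμdef]
    nlinarith
  have hS : 0 ≤ S := Finset.sum_nonneg fun j _ => W.g_nonneg _
  have hSn : m * S ≤ nB := by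
    rw [hnB, cnt_eq_sum, hSdef, Finset.mul_sum]
    refine Finset.sum_le_sum fun j _ => ?_
    by_cases hz : p.gd a (x j) = 0
    · rw [hz, mul_zero]
      exact ind_nonneg _ _
    · rw [ind_of_mem (W.Q_sub (W.g_supp _ hz))]
      have := W.g_le (x j)
      rw [le_div_iff₀ hm0] at this
      linarith
  -- the coefficients `μ₁`, `κ₀`
  have hvρ : |Val| * ρ ≤ b / 2 := (mul_le_mul_of_nonneg_left hρμ hv0).trans hv
  have a4 : b * ρ ^ 2 / 2 + Val * ρ ^ 3 / 6 ≤ b * ρ ^ 2 := by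
    have h1 := le_abs_self Val
    have h2 : |Val| * ρ * ρ ^ 2 ≤ b / 2 * ρ ^ 2 := mul_le_mul_of_nonneg_right hvρ (by positivity)
    have h3 : Val * ρ ^ 3 ≤ |Val| * ρ ^ 3 := mul_le_mul_of_nonneg_right h1 (by positivity)
    have h4 : 0 ≤ b * ρ ^ 2 := by positivity
    linarith
  have a5 : 0 ≤ b * ρ ^ 3 / 3 + Val * ρ ^ 4 / 8 := by
    have h1 := neg_abs_le Val
    have h2 : |Val| * ρ * ρ ^ 3 ≤ b / 2 * ρ ^ 3 := mul_le_mul_of_nonneg_right hvρ (by positivity)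
    have h3 : -|Val| * ρ ^ 4 ≤ Val * ρ ^ 4 := mul_le_mul_of_nonneg_right h1 (by positivity)
    have h4 : 0 ≤ b * ρ ^ 3 := by positivity
    linarith
  -- facts about rich heavy windows
  have hrich : a ∈ p.RH x →
      1 / (6144 * 470596 ^ 2) * b * μ ^ 2 * n ≤ m * (b * (lam3 p.M (nB - 3) * e3)) ∧
      6 * ρ ≤ S ∧ 8 ≤ m * S := by
    intro hR
    unfold Par.RH at hR
    rw [Finset.mem_filter] at hR
    obtain ⟨_, r1, r2⟩ := hR
    rw [← hn] at r1 r2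
    rw [← hnB] at r2
    have hn64 : (64 : ℝ) ≤ n := by linarith
    have hn6 : 6 ≤ n := by
      have : (64 : ℕ) ≤ n := by exact_mod_cast hn64
      omega
    have hg : ∀ c ∈ cell p.s a, 1 / (8 * m) ≤ p.gd a c := by
      intro c hc
      have h1 := th_cell hp.hs hp.he hp.he' a hc
      unfold Par.gd
      rw [← hmdef, le_div_iff₀ hm0]
      have h2 : 1 / (8 * m) * m = 1 / 8 := by field_simp
      rw [h2]
      exact h1
    have hSn' : (n : ℝ) / (8 * m) ≤ S := by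
      rw [hn, cnt_eq_sum, hSdef, Finset.sum_div]
      refine Finset.sum_le_sum fun j _ => ?_
      by_cases hz : x j ∈ cell p.s a
      · rw [ind_of_mem hz]
        exact hg _ hz
      · rw [ind_of_notMem hz, zero_div]
        exact W.g_nonneg _
    have hMn : μ * m ≤ 686 * n := by
      rw [← hM]
      exact r1
    have hmS : (n : ℝ) / 8 ≤ m * S := by
      have h1 := mul_le_mul_of_nonneg_left hSn' hm0.le
      have h2 : m * ((n : ℝ) / (8 * m)) = n / 8 := by field_simp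
      linarith
    refine ⟨rich_E3 hm hb (by linarith) ?_ ?_, ?_, by linarith⟩
    · have hMM : μ * m = p.M := hM.symm
      have hM0 : 0 < p.M := by linarith
      rw [hMM]
      unfold lam3
      split_ifs with h
      · refine pow_le_one₀ (by positivity) ?_
        rw [div_le_one (by positivity)]
        linarith
      · refine pow_le_pow_left₀ (by positivity) ?_ 2
        have h1 : (0 : ℝ) < ((nB - 3 : ℕ) : ℝ) := lt_trans hM0 (not_le.1 h)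
        have h2 : ((nB - 3 : ℕ) : ℝ) ≤ nB := Nat.cast_le.2 (Nat.sub_le _ _)
        exact div_le_div_of_nonneg_left hM0.le h1 (h2.trans r2)
    · have h1 := eg (1 / (8 * m)) (by positivity) (cell p.s a) hg
      rw [← hn] at h1
      have h2 := choose_ge hn6
      have h3 : (1 / (8 * m)) ^ 3 * ((n : ℝ) ^ 3 / 12) ≤ (1 / (8 * m)) ^ 3 * (n.choose 3 : ℝ) :=
        mul_le_mul_of_nonneg_left h2 (by positivity)
      have h4 : (1 / (8 * m)) ^ 3 * ((n : ℝ) ^ 3 / 12) = (n : ℝ) ^ 3 / (6144 * m ^ 3) := by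
        field_simp
        norm_num
      linarith
    · have h1 : C₀ * ρ / 5488 ≤ S := by
        refine le_trans ?_ hSn'
        rw [div_le_div_iff₀ (by norm_num) (by positivity)]
        have : C₀ * ρ * m ≤ 686 * n := hMn
        linarith
      nlinarith
  by_cases hbad : p.M < nB
  · -- bad windows
    rw [if_pos hbad]
    have h1 : m * (lam4 p.M (nB - 4) * e4) ≤ μ ^ 3 * nB / 3 := by
      refine bad_le hm hS hμ0.le hSn e40 e4u (c3 _).2.1 fun hl => ?_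
      unfold lam4 at hl
      have hl' : ((nB - 4 : ℕ) : ℝ) + 1 ≤ p.M := by
        by_contra hcon
        rw [if_neg hcon] at hl
        exact hl rfl
      have h2 : nB ≤ (nB - 4) + 4 := by omega
      have h3 : (nB : ℝ) ≤ ((nB - 4 : ℕ) : ℝ) + 4 := by exact_mod_cast h2
      have h4 : μ * m = p.M := hM.symm
      rw [h4]
      linarith
    have h2 : -(|Val| * (μ ^ 3 * nB / 3)) ≤ Val * (m * (lam4 p.M (nB - 4) * e4)) :=
      val_ge (mul_nonneg hm0.le (mul_nonneg (c3 _).1 e40)) h1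
    have h3 : (b * ρ ^ 2 / 2 + Val * ρ ^ 3 / 6) * (m * S) ≤ b * ρ ^ 2 * nB :=
      (mul_le_mul_of_nonneg_right a4 (mul_nonneg hm0.le hS)).trans
        (mul_le_mul_of_nonneg_left hSn (by positivity))
    have h4 : 0 ≤ m * (b * ρ ^ 3 / 3 + Val * ρ ^ 4 / 8) := mul_nonneg hm0.le a5
    have h5 : 0 ≤ ε / 2 * m * ρ ^ 4 := le_trans (by positivity) herr
    have h6 : 0 ≤ m * (b * (lam3 p.M (nB - 3) * e3)) :=
      mul_nonneg hm0.le (mul_nonneg hb.le (mul_nonneg (c1 _).1 e30))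
    split_ifs with hR
    · obtain ⟨r, _, _⟩ := hrich hR
      linarith
    · linarith
  · -- good windows
    rw [if_neg hbad]
    have hgood : (nB : ℝ) ≤ p.M := not_lt.1 hbad
    have l3 : lam3 p.M (nB - 3) = 1 := by
      unfold lam3
      rw [if_pos]
      have h2 : ((nB - 3 : ℕ) : ℝ) ≤ nB := Nat.cast_le.2 (Nat.sub_le _ _)
      linarith
    have l4 : lam4 p.M (nB - 4) = 1 := by
      unfold lam4
      rw [if_pos]
      rcases Nat.lt_or_ge nB 4 with h | h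
      · have : nB - 4 = 0 := by omega
        rw [this]
        have := hp.hM
        push_cast
        linarith
      · have h2 : nB - 4 + 1 ≤ nB := by omega
        have h3 : ((nB - 4 : ℕ) : ℝ) + 1 ≤ nB := by exact_mod_cast h2
        linarith
    rw [l3] at hrich
    rw [l3, l4]
    simp only [one_mul] at hrich ⊢
    have hSμ : S ≤ μ := by
      have h4 : μ * m = p.M := hM.symm
      have h5 : m * S ≤ m * μ := by linarith
      exact le_of_mul_le_mul_left h5 hm0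
    split_ifs with hR
    · obtain ⟨r, r2, r3⟩ := hrich hR
      have h1 := good_rich hm hS hSμ hρ hρμ hb hv r2 r3 e3l e40 e4u r
      have h5 : 0 ≤ ε / 2 * m * ρ ^ 4 := le_trans (by positivity) herr
      linarith
    · have h1 := good_plain hm hS hSμ hρ hρμ hb hv e3l e4l e4u herr
      linarith

theorem card_win (p : Par) : (p.win.card : ℝ) = (2 * p.K + 1) ^ 3 := by
  unfold Par.win winF
  rw [Fintype.card_piFinset]
  simp only [Int.card_Icc, Finset.prod_const, Finset.card_univ, Fintype.card_fin]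
  have h : ((p.K : ℤ) + 1 - -(p.K : ℤ)).toNat = 2 * p.K + 1 := by omega
  rw [h]
  push_cast
  ring

theorem card_le (p : Par) (hp : p.OK) : (p.win.card : ℝ) * p.s ^ 3 ≤ p.L ^ 3 := by
  rw [card_win, ← mul_pow]
  have h1 := hp.hK
  have h2 := hp.hs
  have hK : (0 : ℝ) ≤ p.K := Nat.cast_nonneg _
  refine pow_le_pow_left₀ (by positivity) ?_ 3
  linarith

/-- the window functions cover all particles which are not in the strip -/
theorem total_ge (hW : S_WinFacts) (p : Par) (hp : p.OK) (x : Fin p.N → R3) :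
    (p.N : ℝ) - (cnt p.strip univ x : ℝ) ≤ ∑ a ∈ p.win, p.s ^ 3 * ∑ j, p.gd a (x j) := by
  obtain ⟨_, _, hWF⟩ := hW
  have hs := hp.hs
  have hm0 : 0 < p.s ^ 3 := by positivity
  have h1 : ∑ a ∈ p.win, p.s ^ 3 * ∑ j, p.gd a (x j)
      = ∑ j, ∑ a ∈ p.win, th p.s p.e a (x j) := by
    rw [Finset.sum_comm]
    refine Finset.sum_congr rfl fun a _ => ?_
    rw [Finset.mul_sum]
    refine Finset.sum_congr rfl fun j _ => ?_
    unfold Par.gd
    rw [mul_div_cancel₀ _ hm0.ne']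
  have h2 : (p.N : ℝ) - (cnt p.strip univ x : ℝ) = ∑ j, (1 - ind p.strip (x j)) := by
    rw [Finset.sum_sub_distrib, ← cnt_eq_sum]
    simp
  rw [h1, h2]
  refine Finset.sum_le_sum fun j _ => ?_
  have hnn : 0 ≤ ∑ a ∈ p.win, th p.s p.e a (x j) := Finset.sum_nonneg fun a _ =>
    ((hWF p.s p.e hp.hs hp.he hp.he' a).2.1 (x j)).1
  by_cases hj : x j ∈ p.strip
  · rw [ind_of_mem hj, sub_self]
    exact hnn
  · rw [ind_of_notMem hj, sub_zero]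
    have h3 := (hWF p.s p.e hp.hs hp.he hp.he' 0).2.2.2.2.2.2.1 p.K (x j) (fun k => by
      have h4 : ¬ (p.s * (p.K - 1) ≤ |x j k|) := fun hcon => hj ⟨k, hcon⟩
      push Not at h4
      linarith)
    exact le_of_eq h3.symm

end PtAux

open PtAux in
theorem Pt (hE : S_Esy) (hCe : S_Cells) (hC : S_Counts) (hW : S_WinFacts) (hWd : S_WdWin) :
    S_Pt := by
  obtain ⟨Cc, hCc, hcells⟩ := hCe
  obtain ⟨κ, hκ⟩ : ∃ κ : ℝ, κ = 1 / (6144 * 470596 ^ 2) := ⟨_, rfl⟩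
  have hκ0 : 0 < κ := by
    rw [hκ]
    norm_num
  obtain ⟨C₀, hC₀d⟩ : ∃ C₀ : ℝ, C₀ = 32928 + 4 * Cc / κ := ⟨_, rfl⟩
  have hCcκ : 0 ≤ 4 * Cc / κ := by positivity
  have hC₀ : 32928 ≤ C₀ := by linarith
  have hCκ : 4 * Cc ≤ κ * C₀ ^ 2 := by
    have h1 : 4 * Cc / κ ≤ C₀ := by linarith
    have h2 : C₀ ≤ C₀ ^ 2 := le_self_pow₀ (by linarith) two_ne_zero
    have h3 : 4 * Cc / κ ≤ C₀ ^ 2 := h1.trans h2
    rw [div_le_iff₀ hκ0] at h3
    linarith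
  refine ⟨C₀, by linarith, fun b Val ε Ce hb hε hCe0 => ?_⟩
  have hv0 := abs_nonneg Val
  have hC₀0 : 0 < C₀ := by linarith
  obtain ⟨X, hX⟩ : ∃ X : ℝ, X = 43904 + 2 * |Val| * C₀ / b + (|Val| + Ce) * C₀ ^ 3 / b
    + 2 / ε * (b * C₀ ^ 2 / 2 + |Val| * C₀ ^ 3 / 4) := ⟨_, rfl⟩
  have x1 : 0 ≤ 2 * |Val| * C₀ / b := by positivity
  have x2 : 0 ≤ (|Val| + Ce) * C₀ ^ 3 / b := by positivity
  have x3 : 0 ≤ 2 / ε * (b * C₀ ^ 2 / 2 + |Val| * C₀ ^ 3 / 4) := by positivity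
  have hX1 : 43904 ≤ X := by linarith
  refine ⟨X, b + 2 * b * Cc, by linarith, by positivity, ?_⟩
  intro ρ hρ hρX p hp hM hXm x
  have hX0 : 0 < X := by linarith
  have hρX' : ρ * X ≤ 1 := by rwa [le_div_iff₀ hX0] at hρX
  have hρ1 : ρ ≤ 1 := by
    have h1 : ρ * 1 ≤ ρ * X := mul_le_mul_of_nonneg_left (by linarith) hρ.le
    linarith
  have hm1 : 1 ≤ p.s ^ 3 := one_le_pow₀ hp.hs
  -- smallness
  have hv : |Val| * (C₀ * ρ) ≤ b / 2 := by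
    have h1 : 2 * |Val| * C₀ / b ≤ X := by linarith
    have h2 : ρ * (2 * |Val| * C₀ / b) ≤ ρ * X := mul_le_mul_of_nonneg_left h1 hρ.le
    have h3 : ρ * (2 * |Val| * C₀ / b) ≤ 1 := h2.trans hρX'
    have h4 : ρ * (2 * |Val| * C₀ / b) = 2 * (|Val| * (C₀ * ρ)) / b := by ring
    rw [h4, div_le_one hb] at h3
    linarith
  have hvC : (|Val| + Ce) * (C₀ * ρ) ^ 3 ≤ b * ρ ^ 2 := by
    have h1 : (|Val| + Ce) * C₀ ^ 3 / b ≤ X := by linarith
    have h2 : ρ * ((|Val| + Ce) * C₀ ^ 3 / b) ≤ ρ * X := mul_le_mul_of_nonneg_left h1 hρ.le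
    have h3 : ρ * ((|Val| + Ce) * C₀ ^ 3 / b) ≤ 1 := h2.trans hρX'
    have h4 : ρ * ((|Val| + Ce) * C₀ ^ 3 / b) = ((|Val| + Ce) * C₀ ^ 3 * ρ) / b := by ring
    rw [h4, div_le_one hb] at h3
    have h5 := mul_le_mul_of_nonneg_right h3 (by positivity : 0 ≤ ρ ^ 2)
    calc (|Val| + Ce) * (C₀ * ρ) ^ 3 = (|Val| + Ce) * C₀ ^ 3 * ρ * ρ ^ 2 := by ring
      _ ≤ b * ρ ^ 2 := h5
  have herr : b * (C₀ * ρ) ^ 2 / 2 + |Val| * (C₀ * ρ) ^ 3 / 4 ≤ ε / 2 * p.s ^ 3 * ρ ^ 4 := by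
    have h1 : 2 / ε * (b * C₀ ^ 2 / 2 + |Val| * C₀ ^ 3 / 4) ≤ ρ ^ 2 * p.s ^ 3 := by linarith
    have h2 : b * C₀ ^ 2 / 2 + |Val| * C₀ ^ 3 / 4 ≤ ε / 2 * (ρ ^ 2 * p.s ^ 3) := by
      have h3 := mul_le_mul_of_nonneg_left h1 (by positivity : 0 ≤ ε / 2)
      have h4 : ε / 2 * (2 / ε * (b * C₀ ^ 2 / 2 + |Val| * C₀ ^ 3 / 4))
          = b * C₀ ^ 2 / 2 + |Val| * C₀ ^ 3 / 4 := by field_simp
      linarith
    have h3 := mul_le_mul_of_nonneg_right h2 (by positivity : 0 ≤ ρ ^ 2)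
    have h4 : |Val| * C₀ ^ 3 / 4 * ρ ^ 3 ≤ |Val| * C₀ ^ 3 / 4 * ρ ^ 2 := by
      refine mul_le_mul_of_nonneg_left ?_ (by positivity)
      exact pow_le_pow_of_le_one hρ.le hρ1 (by norm_num)
    linarith
  have hMbig : 43904 ≤ p.M := by
    rw [hM]
    have h1 : ρ ^ 2 * p.s ^ 3 ≤ ρ * p.s ^ 3 := by
      exact mul_le_mul_of_nonneg_right (pow_le_of_le_one hρ.le hρ1 two_ne_zero) (by positivity)
    have h2 : ρ * p.s ^ 3 ≤ C₀ * (ρ * p.s ^ 3) := by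
      have : 0 ≤ ρ * p.s ^ 3 := by positivity
      exact le_mul_of_one_le_left this (by linarith)
    linarith
  have hmu : p.mu = C₀ * ρ := by
    unfold Par.mu
    rw [hM, mul_div_cancel_right₀ _ (by positivity)]
  -- the sum over the windows
  have hsum := Finset.sum_le_sum (fun a (ha : a ∈ p.win) =>
    window hE hC hWd p hp hC₀ hb hρ hM hMbig hv herr x ha)
  rw [Finset.sum_sub_distrib, Finset.sum_add_distrib, Finset.sum_sub_distrib, ← hκ] at hsum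
  set T : ℝ := ∑ a ∈ p.win, p.s ^ 3 * ∑ j, p.gd a (x j) with hT
  set μ₁ : ℝ := b * ρ ^ 2 / 2 + Val * ρ ^ 3 / 6 with hμ₁
  set κ₀ : ℝ := b * ρ ^ 3 / 3 + Val * ρ ^ 4 / 8 with hκ₀
  set R : ℝ := ∑ a ∈ p.RH x, (cnt (cell p.s a) univ x : ℝ) with hR
  set B : ℝ := ∑ a ∈ p.win,
    (if p.M < cnt (Bc p.s a) univ x then (cnt (Bc p.s a) univ x : ℝ) else 0) with hB
  set cs : ℝ := (cnt p.strip univ x : ℝ) with hcs
  have s1 : ∑ a ∈ p.win, p.s ^ 3 * (μ₁ * (∑ j, p.gd a (x j)) - κ₀)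
      = μ₁ * T - p.win.card * (p.s ^ 3 * κ₀) := by
    rw [hT, Finset.mul_sum, ← nsmul_eq_mul, ← Finset.sum_const, ← Finset.sum_sub_distrib]
    exact Finset.sum_congr rfl fun a _ => by ring
  have s2 : ∑ _a ∈ p.win, ε / 2 * p.s ^ 3 * ρ ^ 4 = p.win.card * (ε / 2 * p.s ^ 3 * ρ ^ 4) := by
    rw [Finset.sum_const, nsmul_eq_mul]
  have s3 : ∑ a ∈ p.win, (if a ∈ p.RH x then κ * b * (C₀ * ρ) ^ 2 *
          (cnt (cell p.s a) univ x : ℝ) / 2 else 0) = κ * b * (C₀ * ρ) ^ 2 / 2 * R := by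
    rw [Finset.sum_ite_mem,
      Finset.inter_eq_right.2 (show p.RH x ⊆ p.win from Finset.filter_subset _ _), hR,
      Finset.mul_sum]
    exact Finset.sum_congr rfl fun a _ => by ring
  have s4 : ∑ a ∈ p.win, (b * ρ ^ 2 + |Val| * (C₀ * ρ) ^ 3 / 3) *
          (if p.M < cnt (Bc p.s a) univ x then (cnt (Bc p.s a) univ x : ℝ) else 0)
      = (b * ρ ^ 2 + |Val| * (C₀ * ρ) ^ 3 / 3) * B := by
    rw [hB, Finset.mul_sum]
  rw [s1, s2, s3, s4] at hsum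
  rw [hmu]
  -- the coefficients
  have hρμ : ρ ≤ C₀ * ρ := le_mul_of_one_le_left hρ.le (by linarith)
  have hvρ : |Val| * ρ ≤ b / 2 := (mul_le_mul_of_nonneg_left hρμ hv0).trans hv
  have b1 : μ₁ ≤ b * ρ ^ 2 := by
    have h1 := le_abs_self Val
    have h2 : |Val| * ρ * ρ ^ 2 ≤ b / 2 * ρ ^ 2 := mul_le_mul_of_nonneg_right hvρ (by positivity)
    have h3 : Val * ρ ^ 3 ≤ |Val| * ρ ^ 3 := mul_le_mul_of_nonneg_right h1 (by positivity)
    have h4 : 0 ≤ b * ρ ^ 2 := by positivity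
    linarith
  have b0 : 0 ≤ μ₁ := by
    have h1 := neg_abs_le Val
    have h2 : |Val| * ρ * ρ ^ 2 ≤ b / 2 * ρ ^ 2 := mul_le_mul_of_nonneg_right hvρ (by positivity)
    have h3 : -|Val| * ρ ^ 3 ≤ Val * ρ ^ 3 := mul_le_mul_of_nonneg_right h1 (by positivity)
    have h4 : 0 ≤ b * ρ ^ 2 := by positivity
    linarith
  have b2 : 0 ≤ κ₀ := by
    have h1 := neg_abs_le Val
    have h2 : |Val| * ρ * ρ ^ 3 ≤ b / 2 * ρ ^ 3 := mul_le_mul_of_nonneg_right hvρ (by positivity)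
    have h3 : -|Val| * ρ ^ 4 ≤ Val * ρ ^ 4 := mul_le_mul_of_nonneg_right h1 (by positivity)
    have h4 : 0 ≤ b * ρ ^ 3 := by positivity
    linarith
  have hcard := card_le p hp
  have hcs0 : 0 ≤ cs := Nat.cast_nonneg _
  have hR0 : 0 ≤ R := Finset.sum_nonneg fun _ _ => Nat.cast_nonneg _
  have hB0 : 0 ≤ B := Finset.sum_nonneg fun _ _ => by split_ifs <;> simp
  have f1 : μ₁ * (p.N - cs) ≤ μ₁ * T := mul_le_mul_of_nonneg_left (total_ge hW p hp x) b0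
  have f2 : p.win.card * (p.s ^ 3 * κ₀) ≤ κ₀ * p.L ^ 3 := by
    have := mul_le_mul_of_nonneg_left hcard b2
    linarith
  have hL0 : 0 ≤ p.L ^ 3 := le_trans (by positivity) hcard
  have f3 : p.win.card * (ε / 2 * p.s ^ 3 * ρ ^ 4) ≤ ε * ρ ^ 4 * p.L ^ 3 := by
    have h1 := mul_le_mul_of_nonneg_left hcard (by positivity : 0 ≤ ε / 2 * ρ ^ 4)
    have h2 : 0 ≤ ε / 2 * ρ ^ 4 * p.L ^ 3 :=
      mul_nonneg (mul_nonneg (half_pos hε).le (pow_nonneg hρ.le 4)) hL0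
    linarith
  have f4 : (b * ρ ^ 2 + |Val| * (C₀ * ρ) ^ 3 / 3 + Ce * (C₀ * ρ) ^ 3) * B
      ≤ 2 * b * ρ ^ 2 * (Cc * (cs + R)) := by
    have h1 : b * ρ ^ 2 + |Val| * (C₀ * ρ) ^ 3 / 3 + Ce * (C₀ * ρ) ^ 3 ≤ 2 * b * ρ ^ 2 := by
      have : 0 ≤ |Val| * (C₀ * ρ) ^ 3 := by positivity
      linarith
    calc (b * ρ ^ 2 + |Val| * (C₀ * ρ) ^ 3 / 3 + Ce * (C₀ * ρ) ^ 3) * B
        ≤ 2 * b * ρ ^ 2 * B := mul_le_mul_of_nonneg_right h1 hB0
      _ ≤ _ := mul_le_mul_of_nonneg_left (hcells p hp x) (by positivity)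
  have f5 : 2 * b * ρ ^ 2 * (Cc * R) ≤ κ * b * (C₀ * ρ) ^ 2 / 2 * R := by
    have h1 := mul_le_mul_of_nonneg_right hCκ
      (mul_nonneg (mul_nonneg hb.le (sq_nonneg ρ)) hR0 : 0 ≤ b * ρ ^ 2 * R)
    linarith
  have f6 : μ₁ * cs ≤ b * ρ ^ 2 * cs := mul_le_mul_of_nonneg_right b1 hcs0
  linarith [hsum, f1, f2, f3, f4, f5, f6]

end Pool.Agent.Lib.MP_5db8e2_mp
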