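import Pool.Agent.Lib.MP_5db8e2_mp.GeoA
import Pool.Agent.Lib.MP_5db8e2_mp.LB.WdWin

/-!
# Lower bound, part 4: all the functions which occur are bounded and measurable
-/

set_option autoImplicit false

open MeasureTheory Function Finset
open scoped Classical

namespace Pool.Agent.Lib.MP_5db8e2_mp

theorem bMall_pick {N : ℕ} (k : ℕ) (A : Finset (Fin N)) :
    Measurable (pick k A : (Fin N → R3) → (Fin k → R3)) := by
  refine measurable_pi_iff.2 fun m => ?_
  unfold pick
  by_cases h : A.card = k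
  · simp only [h, dif_pos]
    exact measurable_pi_apply _
  · simp only [h, dif_neg, not_false_eq_true]
    exact measurable_const

theorem bMall_cmA {N : ℕ} (A : Finset (Fin N)) :
    Measurable (Par.cmA A : (Fin N → R3) → R3) := by
  refine measurable_pi_iff.2 fun k => ?_
  unfold Par.cmA
  refine Measurable.div_const ?_ _
  refine Finset.measurable_sum _ fun m _ => ?_
  exact (measurable_pi_apply k).comp (measurable_pi_apply m)

theorem bMall_of_bound {k : ℕ} {f : (Fin k → R3) → ℝ} (hf : Measurable f) (K : ℝ) (n : ℕ)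
    (h : ∀ x, |f x| ≤ K / (1 + rad x) ^ n) : BM f := by
  refine ⟨hf, |K|, fun x => (h x).trans ?_⟩
  have h1 : (1 : ℝ) ≤ (1 + rad x) ^ n := one_le_pow₀ (by linarith [rad_nonneg x])
  calc K / (1 + rad x) ^ n ≤ |K| / (1 + rad x) ^ n :=
        div_le_div_of_nonneg_right (le_abs_self K) (by linarith)
    _ ≤ |K| / 1 := div_le_div_of_nonneg_left (abs_nonneg K) one_pos h1
    _ = |K| := div_one _

theorem bMall_pd_cont {N : ℕ} {Ψ : (Fin N → R3) → ℝ} (h : ContDiff ℝ 1 Ψ) (i : Fin N)
    (a : Fin 3) : Continuous (pd Ψ i a) := by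
  unfold pd
  exact (h.continuous_fderiv one_ne_zero).clm_apply continuous_const

theorem BMall (hW : S_WinFacts) (hWd : S_WdWin) : S_BMall := by
  obtain ⟨C, -, hC⟩ := hW
  intro V b K R r r4 W QQ c hc p hp Ψ hΨ A
  have hpick3 := bMall_pick 3 A
  have hpick4 := bMall_pick 4 A
  have hcm := bMall_cmA A
  have hφ : BM c.φ := bMall_of_bound hc.d3.c1.continuous.measurable K 4 hc.d3.bd
  have hpd : ∀ m a, BM (pd c.φ m a) := fun m a =>
    bMall_of_bound (bMall_pd_cont hc.d3.c1 m a).measurable K 5 fun x => hc.d3.bd' x m a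
  have hg : ∀ m a, BM (c.g m a) := fun m a =>
    bMall_of_bound (hc.d4.g_meas m a) K 8 fun x => hc.d4.g_bd m a x
  have hs : ∀ l, BM (c.s l) := fun l => ⟨hc.d4.s_meas l, K, fun x => hc.d4.s_bd l x⟩
  have hw : BM c.w := ⟨hc.d3.w_meas, K / r ^ 6, fun x => hc.d3.w_bd x⟩
  have hwq : BM c.wq := ⟨hc.d4.w_meas, K / r4 ^ 9, fun x => hc.d4.w_bd x⟩
  have hV3 : BM (V3 V) := by
    obtain ⟨D, hD⟩ := hc.pot.bdd
    refine ⟨?_, D, fun x => ?_⟩
    · have h0 : ∀ m : Fin 3, Measurable (fun x : Fin 3 → R3 => x m) := fun m =>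
        measurable_pi_apply m
      exact hc.pot.meas.comp (f := fun x : Fin 3 → R3 => (x 0 - x 1, x 0 - x 2))
        (((h0 0).sub (h0 1)).prodMk ((h0 0).sub (h0 2)))
    · unfold V3
      rw [abs_of_nonneg (hc.pot.nonneg _ _)]
      exact hD _ _
  have hB : ∀ a, MeasurableSet (Bc p.s a) := fun a => by
    rw [wdWin_Bc_eq]; exact measurableSet_Icc
  have hl3 : ∀ a, BM (p.l3 a A) := fun a => BM_cnt_comp (hB a) Aᶜ (lam3 p.M)
  have hl4 : ∀ a, BM (p.l4 a A) := fun a => BM_cnt_comp (hB a) Aᶜ (lam4 p.M)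
  have hU : ∀ a ∈ p.win, BM (p.U a A Ψ) := fun a ha => av_bm (hWd p hp a ha).1 hΨ
  have hth : ∀ a, BM (th p.s p.e a) := fun a => by
    obtain ⟨h1, h2, -⟩ := hC p.s p.e hp.hs hp.he hp.he' a
    exact ⟨h1.continuous.measurable, 1, fun x => by
      rw [abs_of_nonneg (h2 x).1]; exact (h2 x).2⟩
  have hvt3 : BM (fun z : R3 × (Fin p.N → R3) => p.vt3 Ψ A z.1 z.2) := by
    unfold Par.vt3
    refine BM.sum _ fun a ha => ?_
    exact ((hth a).comp measurable_fst).mul
      (((hl3 a).comp measurable_snd).mul ((hU a ha).comp measurable_snd))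
  have hvt4 : BM (fun z : R3 × (Fin p.N → R3) => p.vt4 Ψ A z.1 z.2) := by
    unfold Par.vt4
    refine BM.sum _ fun a ha => ?_
    exact ((hth a).comp measurable_fst).mul
      (((hl4 a).comp measurable_snd).mul ((hU a ha).comp measurable_snd))
  refine ⟨?_, ?_, ?_, hφ.comp hpick3, hw.comp hpick3, hwq.comp hpick4, ?_, hl3, hl4, hU,
    fun a ha j => rough_bm (hWd p hp a ha).1 hΨ j, hvt3, hvt4, ?_, ?_, ?_⟩
  · intro i a
    unfold gT
    refine BM.sum _ fun m _ => ?_
    by_cases h : isEl 3 A m i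
    · simp only [h, if_true]
      exact (hpd m a).comp hpick3
    · simp only [h, if_false]
      exact BM.const 0
  · intro i a
    unfold gQ
    refine BM.sum _ fun m _ => ?_
    by_cases h : isEl 4 A m i
    · simp only [h, if_true]
      exact (hg m a).comp hpick4
    · simp only [h, if_false]
      exact BM.const 0
  · intro i
    unfold sQ
    refine BM.sum _ fun m _ => ?_
    by_cases h : isEl 4 A m i
    · simp only [h, if_true]
      exact (hs m).comp hpick4
    · simp only [h, if_false]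
      exact BM.const 0
  · unfold VT
    exact hV3.comp hpick3
  · exact BM.comp (φ := fun x : Fin p.N → R3 => (Par.cmA A x, x)) hvt3
      (hcm.prodMk measurable_id)
  · exact BM.comp (φ := fun x : Fin p.N → R3 => (Par.cmA A x, x)) hvt4
      (hcm.prodMk measurable_id)
  · intro h1 h2 i a
    have hcont := bMall_pd_cont h1 i a
    obtain ⟨D, hD⟩ := hcont.bounded_above_of_compact_support (h2.fderiv_apply ℝ _)
    exact ⟨hcont.measurable, D, fun x => by simpa [Real.norm_eq_abs] using hD x⟩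

end Pool.Agent.Lib.MP_5db8e2_mp
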