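import Pool.Agent.Lib.MP_5db8e2_mp.LB.Spec7
import Pool.Agent.Lib.MP_5db8e2_mp.LB.BMall
import Pool.Agent.Lib.MP_5db8e2_mp.GeoD

/-!
# Lower bound, part 7: the form inside the quadruples, final estimate
-/

set_option autoImplicit false

open MeasureTheory Function Finset
open scoped Classical

namespace Pool.Agent.Lib.MP_5db8e2_mp

theorem q4b_Dw_nonneg {N : ℕ} (ν : Measure R3) (g : R3 → ℝ) (Q : Set R3)
    (f : (Fin N → R3) → ℝ) : 0 ≤ Dw ν g Q f :=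
  Finset.sum_nonneg fun j _ => integral_nonneg fun x =>
    mul_nonneg (ind_nonneg _ _) (sq_nonneg _)

theorem q4b_Nw_nonneg {N : ℕ} (ν : Measure R3) (Q : Set R3) (f : (Fin N → R3) → ℝ) :
    0 ≤ Nw ν Q f :=
  integral_nonneg fun x => mul_nonneg (Nat.cast_nonneg _) (sq_nonneg _)

/-- The integrand of `QQ` is measurable. -/
theorem q4b_k4_meas {V : R3 → R3 → ℝ} {b K R r r4 W QQ : ℝ} {c : Cor}
    (hc : c.OK V b K R r r4 W QQ) : Measurable (k4 V c) := by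
  have hph : ∀ l, ContDiff ℝ 1 (ph c.φ l) := fun l => contDiff_ph hc.d3.c1 l
  have hpd : ∀ l m a, Measurable (pd (ph c.φ l) m a) := fun l m a =>
    (bMall_pd_cont (hph l) m a).measurable
  have hgg : ∀ l l', Measurable (gg (ph c.φ l) (ph c.φ l')) := by
    intro l l'
    unfold gg
    exact Finset.measurable_sum _ fun m _ => Finset.measurable_sum _ fun a _ =>
      (hpd l m a).mul (hpd l' m a)
  have hV4 : ∀ l, Measurable (V4 V l) := by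
    intro l
    have h0 : ∀ m : Fin 4, Measurable (fun x : Fin 4 → R3 => x m) := fun m =>
      measurable_pi_apply m
    exact hc.pot.meas.comp (f := fun x : Fin 4 → R3 =>
      (x (l.succAbove 0) - x (l.succAbove 1), x (l.succAbove 0) - x (l.succAbove 2)))
      (((h0 _).sub (h0 _)).prodMk ((h0 _).sub (h0 _)))
  have hphm : ∀ l, Measurable (ph c.φ l) := fun l => (hph l).continuous.measurable
  unfold k4
  refine ((Measurable.add ?_ ?_).add ?_).add ?_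
  · exact Finset.measurable_sum _ fun l _ => Finset.measurable_sum _ fun l' _ => hgg l l'
  · exact measurable_const.mul (Finset.measurable_sum _ fun l _ => Finset.measurable_sum _
      fun m _ => Finset.measurable_sum _ fun a _ => (hpd l m a).mul (hc.d4.g_meas m a))
  · exact Finset.measurable_sum _ fun m _ => Finset.measurable_sum _ fun a _ =>
      (hc.d4.g_meas m a).pow_const 2
  · exact Finset.measurable_sum _ fun l _ => (hV4 l).mul (((hc.d4.s_meas l).pow_const 2).sub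
      ((measurable_const.mul (measurable_const.sub (hphm l))).mul (hc.d4.s_meas l)))

theorem q4b_KQ_bm {N : ℕ} {r4 : ℝ} (h : BM (kst r4)) (Q : Finset (Fin N)) :
    BM (KQ r4 Q) := by
  unfold KQ
  refine BM.sum _ fun i _ => BM.prod _ fun j _ => ?_
  exact h.comp ((measurable_pi_apply i).sub (measurable_pi_apply j))

/-- The form inside the quadruple is bounded and measurable. -/
theorem q4b_q4_bm (hBM : S_BMall) {V : R3 → R3 → ℝ} {b K R r r4 W QQ : ℝ} {c : Cor}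
    (hc : c.OK V b K R r r4 W QQ) (p : Par) (hp : p.OK) (Ψ : (Fin p.N → R3) → ℝ) (hΨ : BM Ψ)
    (Q : Finset (Fin p.N)) : BM (p.q4 V c Ψ Q) := by
  have hB := fun A => hBM V b K R r r4 W QQ c hc p hp Ψ hΨ A
  have hgT : ∀ A i a, BM (gT c.φ A i a : (Fin p.N → R3) → ℝ) := fun A => (hB A).1
  have hgQ : ∀ A i a, BM (gQ c.g A i a : (Fin p.N → R3) → ℝ) := fun A => (hB A).2.1
  have hsQ : ∀ A i, BM (sQ c.s A i : (Fin p.N → R3) → ℝ) := fun A => (hB A).2.2.1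
  have hφ : ∀ A, BM (fun x : Fin p.N → R3 => c.φ (pick 3 A x)) := fun A => (hB A).2.2.2.1
  have hVT : ∀ A, BM (VT V A : (Fin p.N → R3) → ℝ) := fun A => (hB A).2.2.2.2.2.2.1
  have hv3 : ∀ A, BM (p.v3 Ψ A) := fun A => (hB A).2.2.2.2.2.2.2.2.2.2.2.2.2.1
  have hv4 : ∀ A, BM (p.v4 Ψ A) := fun A => (hB A).2.2.2.2.2.2.2.2.2.2.2.2.2.2.1
  have hTT : ∀ A A', BM (fun x => dt (p.fT c A x) (p.fT c A' x)) := fun A A' =>
    BM.sum _ fun i _ => BM.sum _ fun a _ => (hgT A i a).mul (hgT A' i a)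
  have hTQ : ∀ A A', BM (fun x => dt (p.fT c A x) (p.fQ c A' x)) := fun A A' =>
    BM.sum _ fun i _ => BM.sum _ fun a _ => (hgT A i a).mul (hgQ A' i a)
  have hQQ : ∀ A A', BM (fun x => dt (p.fQ c A x) (p.fQ c A' x)) := fun A A' =>
    BM.sum _ fun i _ => BM.sum _ fun a _ => (hgQ A i a).mul (hgQ A' i a)
  unfold Par.q4
  refine ((BM.add ?_ ?_).add ?_).add ?_
  · exact BM.sum _ fun l _ => BM.sum _ fun l' _ => (hTT _ _).mul ((hv3 _).mul (hv3 _))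
  · exact (BM.sum _ fun l _ => (hTQ _ _).mul ((hv3 _).mul (hv4 _))).const_mul 2
  · exact (hQQ _ _).mul ((hv4 _).pow 2)
  · exact BM.sum _ fun l _ => (hVT _).mul ((((hsQ _ _).pow 2).mul ((hv4 _).pow 2)).sub
      (((((BM.const 1).sub (hφ _)).const_mul 2).mul (hsQ _ _)).mul ((hv3 _).mul (hv4 _))))

theorem Q4b (h4 : S_Q4pt) (hI : S_QQint) (hD : S_Dpt) (hE : S_E123) (hG : S_DiagGlob)
    (hK : S_KerQ) (hJ : S_Jensen) (hC : S_Counts) (hW : S_WinFacts) (hWd : S_WdWin)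
    (hBM : S_BMall) : S_Q4b := by
  intro K R
  obtain ⟨C4, hC41, h4⟩ := h4 K R
  obtain ⟨CI, hCI0, hI⟩ := hI K R
  obtain ⟨CD, hCD0, hD⟩ := hD
  obtain ⟨CE, hCE0, hE⟩ := hE
  obtain ⟨CG, hCG0, hG⟩ := hG 4 (by norm_num) le_rfl
  obtain ⟨CK, hCK1, hK⟩ := hK
  obtain ⟨CJ, hCJ0, hJ⟩ := hJ
  obtain ⟨CW, hCW0, hW⟩ := hW
  refine ⟨C4 * (8 * CG * CK ^ 3) + 2 * C4 * CD * CE, by positivity, ?_⟩
  intro V b r r4 W QQ c hc p hp hL Ψ hΨ τ hτ hτ1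
  have hr4 : 1 ≤ r4 := hc.hr.trans hc.hr4
  obtain ⟨hk4, hpt⟩ := h4 V b r r4 W QQ c hc
  obtain ⟨-, -, hint⟩ := hI V b r r4 W QQ c hc
  have hint := hint p hp hL Ψ hΨ
  have hs := hp.hs
  have hM := hp.hM
  have hs3 : 0 < p.s ^ 3 := by positivity
  have hmu : 0 ≤ p.mu := by unfold Par.mu; positivity
  -- integrability
  have hB := fun A => hBM V b K R r r4 W QQ c hc p hp Ψ hΨ A
  have hv3 : ∀ A, BM (p.v3 Ψ A) := fun A => (hB A).2.2.2.2.2.2.2.2.2.2.2.2.2.1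
  have hv4 : ∀ A, BM (p.v4 Ψ A) := fun A => (hB A).2.2.2.2.2.2.2.2.2.2.2.2.2.2.1
  have hl3 : ∀ A a, BM (p.l3 a A) := fun A => (hB A).2.2.2.2.2.2.2.1
  have hl4 : ∀ A a, BM (p.l4 a A) := fun A => (hB A).2.2.2.2.2.2.2.2.1
  have hU : ∀ A, ∀ a ∈ p.win, BM (p.U a A Ψ) := fun A => (hB A).2.2.2.2.2.2.2.2.2.1
  have hq : ∀ a ∈ p.win, ∀ j, BM (p.q a j Ψ) := (hB ∅).2.2.2.2.2.2.2.2.2.2.1
  have hUq : ∀ A, ∀ a ∈ p.win, ∀ j, BM (p.U a A (p.q a j Ψ)) := fun A a ha j =>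
    (hBM V b K R r r4 W QQ c hc p hp (p.q a j Ψ) (hq a ha j) A).2.2.2.2.2.2.2.2.2.1 a ha
  have hkst : BM (kst r4) :=
    (hK p.nu Measure.restrict_le_self r4 hr4 (univ : Finset (Fin 4)) (by simp)).1
  have hKQ : ∀ A : Finset (Fin p.N), BM (KQ r4 A) := fun A => q4b_KQ_bm hkst A
  have hKQ0 : ∀ A ∈ P4 p.N, ∀ x, 0 ≤ KQ r4 A x := fun A hA =>
    (hK p.nu Measure.restrict_le_self r4 hr4 A (mem_powersetCard.1 hA).2).2.2.2.2.1
  have hq4 : ∀ A, BM (p.q4 V c Ψ A) := fun A => q4b_q4_bm hBM hc p hp Ψ hΨ A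
  have hKQ4 : ∀ y : Fin 4 → R3, KQ r4 univ y ≤ 4 := by
    intro y
    have hk1 := (hK p.nu Measure.restrict_le_self r4 hr4 (univ : Finset (Fin 4)) (by simp)).2.1
    unfold KQ
    calc ∑ i ∈ (univ : Finset (Fin 4)), ∏ j ∈ univ.erase i, kst r4 (y i - y j)
        ≤ ∑ i ∈ (univ : Finset (Fin 4)), (1 : ℝ) := by
          apply Finset.sum_le_sum
          intro i _
          exact Finset.prod_le_one (fun j _ => (hk1 _).1) (fun j _ => (hk1 _).2)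
      _ = 4 := by simp
  have hk4bm : BM (k4 V c) := by
    refine ⟨q4b_k4_meas hc, C4 * 4, fun y => (hk4 y).trans ?_⟩
    exact mul_le_mul_of_nonneg_left (hKQ4 y) (by linarith)
  have hk4p : ∀ A : Finset (Fin p.N), BM (fun x : Fin p.N → R3 => k4 V c (pick 4 A x)) :=
    fun A => hk4bm.comp (bMall_pick 4 A)
  -- the three parts
  have hstep1 : ∀ Q ∈ P4 p.N, ∫ x, p.q4 V c Ψ Q x ∂pin p.nu p.N
      ≤ ∫ x, k4 V c (pick 4 Q x) * p.v4 Ψ Q x ^ 2 ∂pin p.nu p.N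
        + C4 * (τ * ∫ x, KQ r4 Q x * p.v4 Ψ Q x ^ 2 ∂pin p.nu p.N
          + (1 + τ⁻¹) * ∑ l ∈ Q, ∫ x, KQ r4 Q x * (p.v3 Ψ (Q.erase l) x - p.v4 Ψ Q x) ^ 2
            ∂pin p.nu p.N) := by
    intro Q hQ
    have hb1 : BM (fun x => k4 V c (pick 4 Q x) * p.v4 Ψ Q x ^ 2) := (hk4p Q).mul ((hv4 Q).pow 2)
    have hb2 : BM (fun x => KQ r4 Q x * p.v4 Ψ Q x ^ 2) := (hKQ Q).mul ((hv4 Q).pow 2)
    have hb3 : ∀ l ∈ Q, BM (fun x => KQ r4 Q x * (p.v3 Ψ (Q.erase l) x - p.v4 Ψ Q x) ^ 2) :=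
      fun l _ => (hKQ Q).mul (((hv3 _).sub (hv4 Q)).pow 2)
    have hb4 : BM (fun x => ∑ l ∈ Q, KQ r4 Q x * (p.v3 Ψ (Q.erase l) x - p.v4 Ψ Q x) ^ 2) :=
      BM.sum _ hb3
    have hrhs : ∫ x, (k4 V c (pick 4 Q x) * p.v4 Ψ Q x ^ 2 +
        C4 * (τ * (KQ r4 Q x * p.v4 Ψ Q x ^ 2) + (1 + τ⁻¹) *
          ∑ l ∈ Q, KQ r4 Q x * (p.v3 Ψ (Q.erase l) x - p.v4 Ψ Q x) ^ 2)) ∂pin p.nu p.N
        = ∫ x, k4 V c (pick 4 Q x) * p.v4 Ψ Q x ^ 2 ∂pin p.nu p.N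
        + C4 * (τ * ∫ x, KQ r4 Q x * p.v4 Ψ Q x ^ 2 ∂pin p.nu p.N
          + (1 + τ⁻¹) * ∑ l ∈ Q, ∫ x, KQ r4 Q x * (p.v3 Ψ (Q.erase l) x - p.v4 Ψ Q x) ^ 2
            ∂pin p.nu p.N) := by
      rw [integral_add (hb1.integrable _)
        ((((hb2.const_mul τ).add (hb4.const_mul (1 + τ⁻¹))).const_mul C4).integrable _),
        integral_const_mul, integral_add ((hb2.const_mul τ).integrable _)
        ((hb4.const_mul (1 + τ⁻¹)).integrable _), integral_const_mul, integral_const_mul,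
        integral_finsetSum _ fun l hl => (hb3 l hl).integrable _]
    rw [← hrhs]
    refine integral_mono ((hq4 Q).integrable _) ((hb1.add
      (((hb2.const_mul τ).add (hb4.const_mul (1 + τ⁻¹))).const_mul C4)).integrable _) fun x => ?_
    refine (hpt p Ψ τ hτ Q hQ x).trans (le_of_eq ?_)
    show _ = _
    rw [← Finset.mul_sum]
    ring
  -- the second part
  have hA1 : ∑ Q ∈ P4 p.N, ∫ x, KQ r4 Q x * p.v4 Ψ Q x ^ 2 ∂pin p.nu p.N
      ≤ 8 * CG * CK ^ 3 * (p.mu ^ 3 * p.Nn Ψ) := by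
    obtain ⟨hc3, hc3a, hc4, hc4a, -, -, -, -, hcnt, -, -⟩ := hC p.M hM
    have hk1 := (hK p.nu Measure.restrict_le_self r4 hr4 (univ : Finset (Fin 4)) (by simp)).2.1
    have hk2 := (hK p.nu Measure.restrict_le_self r4 hr4 (univ : Finset (Fin 4)) (by simp)).2.2.1
    let Y : Finset (Fin p.N) → (Fin p.N → R3) → ℝ := fun A x => KQ r4 A x * p.v4 Ψ A x ^ 2
    have hYb : ∀ A, BM (Y A) := fun A => (hKQ A).mul ((hv4 A).pow 2)
    have hlam : ∀ n : ℕ, ((n + 4 : ℕ) : ℝ) ^ 4 * lam4 p.M n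
        ≤ (2 * p.M) ^ 3 * ((n + 4 : ℕ) : ℝ) := by
      intro n
      have h1 := hcnt n 3 (by norm_num)
      have h2 : (0 : ℝ) ≤ ((n + 4 : ℕ) : ℝ) := Nat.cast_nonneg _
      have h3 : ((n + 3 + 1 : ℕ) : ℝ) = ((n + 4 : ℕ) : ℝ) := by push_cast; ring
      rw [h3] at h1
      calc ((n + 4 : ℕ) : ℝ) ^ 4 * lam4 p.M n
          = ((n + 4 : ℕ) : ℝ) * (((n + 4 : ℕ) : ℝ) ^ 3 * lam4 p.M n) := by ring
        _ ≤ ((n + 4 : ℕ) : ℝ) * (2 * p.M) ^ 3 := mul_le_mul_of_nonneg_left h1 h2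
        _ = _ := by ring
    have hth : ∀ a c, th p.s p.e a c ≤ ind (p.Qin a) c := by
      intro a c
      obtain ⟨-, h2, h3, -⟩ := hW p.s p.e hp.hs hp.he hp.he' a
      by_cases hin : c ∈ p.Qin a
      · rw [ind_of_mem hin]
        exact (h2 c).2
      · rw [ind_of_notMem hin]
        apply le_of_eq
        by_contra hne
        exact hin (h3 c hne)
    have hYle : ∀ A ∈ powersetCard 4 (univ : Finset (Fin p.N)), ∀ x,
        |Y A x| ≤ ∑ i ∈ A, (∏ j ∈ A.erase i, kst r4 (x i - x j)) *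
          ∑ a ∈ p.win, ind (p.Qin a) (Par.cmA A x) *
            (lam4 p.M (cnt (Qc p.s a) Aᶜ x) * p.U a A Ψ x ^ 2) := by
      intro A hA x
      have h0 : 0 ≤ KQ r4 A x := hKQ0 A hA x
      have h1 : |Y A x| = KQ r4 A x * p.v4 Ψ A x ^ 2 :=
        abs_of_nonneg (mul_nonneg h0 (sq_nonneg _))
      rw [h1, ← Finset.sum_mul]
      show KQ r4 A x * p.v4 Ψ A x ^ 2 ≤ KQ r4 A x * _
      refine mul_le_mul_of_nonneg_left ?_ h0
      refine ((hJ p hp Ψ A (Par.cmA A x) x).2.1).trans ?_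
      apply Finset.sum_le_sum
      intro a ha
      have h5 : (p.l4 a A x * p.U a A Ψ x) ^ 2
          ≤ lam4 p.M (cnt (Qc p.s a) Aᶜ x) * p.U a A Ψ x ^ 2 := by
        rw [mul_pow]
        refine mul_le_mul_of_nonneg_right ?_ (sq_nonneg _)
        unfold Par.l4
        rw [(hc4 _).2.2]
        apply hc4a
        unfold cnt
        apply Finset.card_le_card
        intro j hj
        rw [Finset.mem_filter] at hj ⊢
        exact ⟨hj.1, (hWd p hp a ha).1.Q_sub hj.2⟩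
      exact mul_le_mul (hth a _) h5 (sq_nonneg _) (ind_nonneg _ _)
    have h6 := hG p hp r4 hL Ψ hΨ (kst r4) hkst.1 hk1 (fun t ht => by
      by_contra hcon
      apply ht
      unfold kst
      rw [if_neg]
      intro h7
      apply hcon
      linarith) CK hk2 (lam4 p.M) (fun n => (hc4 n).1) ((2 * p.M) ^ 3) hlam Y hYb hYle
    have h7 : ∑ Q ∈ P4 p.N, ∫ x, KQ r4 Q x * p.v4 Ψ Q x ^ 2 ∂pin p.nu p.N
        = ∑ A ∈ powersetCard 4 (univ : Finset (Fin p.N)), ∫ x, |Y A x| ∂pin p.nu p.N := by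
      apply Finset.sum_congr rfl
      intro A hA
      congr 1
      ext1 x
      exact (abs_of_nonneg (mul_nonneg (hKQ0 A hA x) (sq_nonneg _))).symm
    rw [h7]
    refine h6.trans (le_of_eq ?_)
    unfold Par.mu
    have h43 : 4 - 1 = 3 := rfl
    rw [h43]
    ring
  -- the third part
  have hND0 : 0 ≤ p.ND Ψ := Finset.sum_nonneg fun a _ => integral_nonneg fun x => by
    refine mul_nonneg ?_ (sq_nonneg _)
    split_ifs
    · exact Nat.cast_nonneg _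
    · exact le_rfl
  have hD0 : 0 ≤ p.D Ψ := Finset.sum_nonneg fun a _ => q4b_Dw_nonneg _ _ _ _
  have hN0 : 0 ≤ p.Nn Ψ := Finset.sum_nonneg fun a _ => q4b_Nw_nonneg _ _ _
  have hA2 : ∑ Q ∈ P4 p.N, ∑ l ∈ Q, ∫ x, KQ r4 Q x * (p.v3 Ψ (Q.erase l) x - p.v4 Ψ Q x) ^ 2
      ∂pin p.nu p.N ≤ CD * CE * (p.mu ^ 3 * (p.D Ψ + (r4 / p.s) ^ 2 * p.Nn Ψ + p.ND Ψ)) := by
    -- notation for the three integrands
    let F1 : (Fin 3 → ℤ) → Finset (Fin p.N) → Fin p.N → (Fin p.N → R3) → ℝ := fun a Q l x =>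
      KQ r4 Q x * ((∏ j ∈ Q, ind (Qc p.s a) (x j)) *
        (p.l3 a (Q.erase l) x ^ 2 * p.U a (Q.erase l) Ψ x ^ 2))
    let F2 : (Fin 3 → ℤ) → Finset (Fin p.N) → Fin p.N → (Fin p.N → R3) → ℝ := fun a Q l x =>
      KQ r4 Q x * ((∏ j ∈ Q, ind (Qc p.s a) (x j)) *
        ((if p.M < cnt (Bc p.s a) univ x then 1 else 0) *
        (p.l3 a (Q.erase l) x ^ 2 * p.U a (Q.erase l) Ψ x ^ 2)))
    let F3 : (Fin 3 → ℤ) → Finset (Fin p.N) → Fin p.N → (Fin p.N → R3) → ℝ := fun a Q l x =>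
      KQ r4 Q x * ((∏ j ∈ Q, ind (Qc p.s a) (x j)) *
        (p.l4 a Q x * p.U a (Q.erase l) (p.q a l Ψ) x ^ 2))
    have hQm : ∀ a, MeasurableSet (Qc p.s a) := fun a => by
      rw [wdWin_Qc_eq]; exact measurableSet_Icc
    have hBm : ∀ a, MeasurableSet (Bc p.s a) := fun a => by
      rw [wdWin_Bc_eq]; exact measurableSet_Icc
    have hpi : ∀ a (Q : Finset (Fin p.N)),
        BM (fun x : Fin p.N → R3 => ∏ j ∈ Q, ind (Qc p.s a) (x j)) := fun a Q =>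
      BM_prod_ind (hQm a) Q
    have hb1 : ∀ a ∈ p.win, ∀ Q l, BM (F1 a Q l) := fun a ha Q l =>
      (hKQ Q).mul ((hpi a Q).mul (((hl3 _ a).pow 2).mul ((hU _ a ha).pow 2)))
    have hb2 : ∀ a ∈ p.win, ∀ Q l, BM (F2 a Q l) := fun a ha Q l =>
      (hKQ Q).mul ((hpi a Q).mul ((BM_cnt_comp (hBm a) univ
        (fun n => if p.M < (n : ℝ) then (1 : ℝ) else 0)).mul
        (((hl3 _ a).pow 2).mul ((hU _ a ha).pow 2))))
    have hb3 : ∀ a ∈ p.win, ∀ Q l, BM (F3 a Q l) := fun a ha Q l =>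
      (hKQ Q).mul ((hpi a Q).mul ((hl4 _ a).mul ((hUq _ a ha l).pow 2)))
    have hone : ∀ Q ∈ P4 p.N, ∀ l ∈ Q,
        ∫ x, KQ r4 Q x * (p.v3 Ψ (Q.erase l) x - p.v4 Ψ Q x) ^ 2 ∂pin p.nu p.N
        ≤ CD * ∑ a ∈ p.win, ((r4 / p.s) ^ 2 * ∫ x, F1 a Q l x ∂pin p.nu p.N
          + ∫ x, F2 a Q l x ∂pin p.nu p.N + ∫ x, F3 a Q l x ∂pin p.nu p.N) := by
      intro Q hQ l hl
      have hb : ∀ a ∈ p.win, BM (fun x => (r4 / p.s) ^ 2 * F1 a Q l x + F2 a Q l x + F3 a Q l x) :=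
        fun a ha => (((hb1 a ha Q l).const_mul _).add (hb2 a ha Q l)).add (hb3 a ha Q l)
      have hrhs : CD * ∑ a ∈ p.win, ((r4 / p.s) ^ 2 * ∫ x, F1 a Q l x ∂pin p.nu p.N
          + ∫ x, F2 a Q l x ∂pin p.nu p.N + ∫ x, F3 a Q l x ∂pin p.nu p.N)
          = ∫ x, CD * ∑ a ∈ p.win, ((r4 / p.s) ^ 2 * F1 a Q l x + F2 a Q l x + F3 a Q l x)
            ∂pin p.nu p.N := by
        rw [integral_const_mul, integral_finsetSum _ fun a ha => (hb a ha).integrable _]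
        congr 1
        apply Finset.sum_congr rfl
        intro a ha
        rw [integral_add ((((hb1 a ha Q l).const_mul _).add (hb2 a ha Q l)).integrable _)
          ((hb3 a ha Q l).integrable _), integral_add
          (((hb1 a ha Q l).const_mul _).integrable _) ((hb2 a ha Q l).integrable _),
          integral_const_mul]
      rw [hrhs]
      refine integral_mono (((hKQ Q).mul (((hv3 _).sub (hv4 Q)).pow 2)).integrable _)
        (((BM.sum _ hb).const_mul CD).integrable _) fun x => ?_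
      show KQ r4 Q x * (p.v3 Ψ (Q.erase l) x - p.v4 Ψ Q x) ^ 2
        ≤ CD * ∑ a ∈ p.win, ((r4 / p.s) ^ 2 * F1 a Q l x + F2 a Q l x + F3 a Q l x)
      by_cases hz : KQ r4 Q x = 0
      · have e1 : ∀ a ∈ p.win, (r4 / p.s) ^ 2 * F1 a Q l x + F2 a Q l x + F3 a Q l x = 0 := by
          intro a _
          simp only [F1, F2, F3, hz, zero_mul, mul_zero, add_zero]
        rw [Finset.sum_eq_zero e1, hz]
        simp
      · have h1 := mul_le_mul_of_nonneg_left (hD p hp r4 hr4 hL Ψ hΨ Q hQ l hl x hz)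
          (hKQ0 Q hQ x)
        refine h1.trans (le_of_eq ?_)
        rw [mul_left_comm, Finset.mul_sum]
        congr 1
        apply Finset.sum_congr rfl
        intro a _
        simp only [F1, F2, F3]
        ring
    have hsum : ∑ Q ∈ P4 p.N, ∑ l ∈ Q,
        ∫ x, KQ r4 Q x * (p.v3 Ψ (Q.erase l) x - p.v4 Ψ Q x) ^ 2 ∂pin p.nu p.N
        ≤ CD * ∑ a ∈ p.win, ((r4 / p.s) ^ 2 * ∑ Q ∈ P4 p.N, ∑ l ∈ Q,
              ∫ x, F1 a Q l x ∂pin p.nu p.N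
          + ∑ Q ∈ P4 p.N, ∑ l ∈ Q, ∫ x, F2 a Q l x ∂pin p.nu p.N
          + ∑ Q ∈ P4 p.N, ∑ l ∈ Q, ∫ x, F3 a Q l x ∂pin p.nu p.N) := by
      refine (Finset.sum_le_sum fun Q hQ => Finset.sum_le_sum fun l hl =>
        hone Q hQ l hl).trans (le_of_eq ?_)
      simp only [Finset.mul_sum, Finset.sum_add_distrib, mul_add]
      have hcomm : ∀ G : Finset (Fin p.N) → Fin p.N → (Fin 3 → ℤ) → ℝ,
          ∑ Q ∈ P4 p.N, ∑ l ∈ Q, ∑ a ∈ p.win, G Q l a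
            = ∑ a ∈ p.win, ∑ Q ∈ P4 p.N, ∑ l ∈ Q, G Q l a := by
        intro G
        exact (Finset.sum_congr rfl fun Q _ => Finset.sum_comm).trans Finset.sum_comm
      rw [hcomm, hcomm, hcomm]
    refine hsum.trans ?_
    have hall : ∀ a ∈ p.win, (r4 / p.s) ^ 2 * ∑ Q ∈ P4 p.N, ∑ l ∈ Q,
              ∫ x, F1 a Q l x ∂pin p.nu p.N
          + ∑ Q ∈ P4 p.N, ∑ l ∈ Q, ∫ x, F2 a Q l x ∂pin p.nu p.N
          + ∑ Q ∈ P4 p.N, ∑ l ∈ Q, ∫ x, F3 a Q l x ∂pin p.nu p.N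
        ≤ CE * p.mu ^ 3 * ((r4 / p.s) ^ 2 * Nw p.nu (Qc p.s a) Ψ
          + ∫ x, (if p.M < cnt (Bc p.s a) univ x
            then (cnt (Bc p.s a) univ x : ℝ) else 0) * Ψ x ^ 2 ∂pin p.nu p.N
          + Dw p.nu (p.gd a) (Qc p.s a) Ψ) := by
      intro a ha
      obtain ⟨e1, e2, e3⟩ := hE p hp r4 hr4 Ψ hΨ a ha
      have e1' := mul_le_mul_of_nonneg_left e1 (sq_nonneg (r4 / p.s))
      calc _ ≤ (r4 / p.s) ^ 2 * (CE * p.mu ^ 3 * Nw p.nu (Qc p.s a) Ψ)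
            + CE * p.mu ^ 3 * ∫ x, (if p.M < cnt (Bc p.s a) univ x
              then (cnt (Bc p.s a) univ x : ℝ) else 0) * Ψ x ^ 2 ∂pin p.nu p.N
            + CE * p.mu ^ 3 * Dw p.nu (p.gd a) (Qc p.s a) Ψ := add_le_add (add_le_add e1' e2) e3
        _ = _ := by ring
    refine (mul_le_mul_of_nonneg_left (Finset.sum_le_sum hall) hCD0.le).trans (le_of_eq ?_)
    rw [← Finset.mul_sum, Finset.sum_add_distrib, Finset.sum_add_distrib, ← Finset.mul_sum]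
    unfold Par.D Par.Nn Par.ND
    ring
  -- conclusion
  have hQ4 : p.Q4 V c Ψ ≤ QQ * p.VV Ψ + C4 * (τ * (8 * CG * CK ^ 3 * (p.mu ^ 3 * p.Nn Ψ))
      + (1 + τ⁻¹) * (CD * CE * (p.mu ^ 3 * (p.D Ψ + (r4 / p.s) ^ 2 * p.Nn Ψ + p.ND Ψ)))) := by
    have h1 : p.Q4 V c Ψ ≤ ∑ Q ∈ P4 p.N, (∫ x, k4 V c (pick 4 Q x) * p.v4 Ψ Q x ^ 2 ∂pin p.nu p.N
        + C4 * (τ * ∫ x, KQ r4 Q x * p.v4 Ψ Q x ^ 2 ∂pin p.nu p.N
          + (1 + τ⁻¹) * ∑ l ∈ Q, ∫ x, KQ r4 Q x * (p.v3 Ψ (Q.erase l) x - p.v4 Ψ Q x) ^ 2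
            ∂pin p.nu p.N)) := Finset.sum_le_sum hstep1
    refine h1.trans ?_
    rw [Finset.sum_add_distrib, hint, ← Finset.mul_sum, Finset.sum_add_distrib,
      ← Finset.mul_sum, ← Finset.mul_sum]
    have hti : 0 < τ⁻¹ := inv_pos.2 hτ
    gcongr
  refine hQ4.trans ?_
  have hti : 1 ≤ τ⁻¹ := (one_le_inv₀ hτ).2 hτ1
  set X : ℝ := p.mu ^ 3 with hX
  have hX0 : 0 ≤ X := by positivity
  set Z : ℝ := p.D Ψ + (r4 / p.s) ^ 2 * p.Nn Ψ + p.ND Ψ with hZ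
  have hZ0 : 0 ≤ Z := by positivity
  have e1 : (1 + τ⁻¹) * (CD * CE * (X * Z)) ≤ 2 * τ⁻¹ * (CD * CE * (X * Z)) :=
    mul_le_mul_of_nonneg_right (by linarith) (by positivity)
  have e2 : C4 * (τ * (8 * CG * CK ^ 3 * (X * p.Nn Ψ)) + (1 + τ⁻¹) * (CD * CE * (X * Z)))
      ≤ C4 * (τ * (8 * CG * CK ^ 3 * (X * p.Nn Ψ)) + 2 * τ⁻¹ * (CD * CE * (X * Z))) :=
    mul_le_mul_of_nonneg_left (by linarith) (by linarith)
  have e3 : C4 * (τ * (8 * CG * CK ^ 3 * (X * p.Nn Ψ)) + 2 * τ⁻¹ * (CD * CE * (X * Z)))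
      ≤ (C4 * (8 * CG * CK ^ 3) + 2 * C4 * CD * CE) * (X * (τ * p.Nn Ψ + τ⁻¹ * Z)) := by
    have a1 : 0 ≤ C4 * (8 * CG * CK ^ 3) * (X * (τ⁻¹ * Z)) := by positivity
    have a2 : 0 ≤ 2 * C4 * CD * CE * (X * (τ * p.Nn Ψ)) := by positivity
    have a3 : (C4 * (8 * CG * CK ^ 3) + 2 * C4 * CD * CE) * (X * (τ * p.Nn Ψ + τ⁻¹ * Z))
        = C4 * (τ * (8 * CG * CK ^ 3 * (X * p.Nn Ψ)) + 2 * τ⁻¹ * (CD * CE * (X * Z)))
          + C4 * (8 * CG * CK ^ 3) * (X * (τ⁻¹ * Z))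
          + 2 * C4 * CD * CE * (X * (τ * p.Nn Ψ)) := by ring
    linarith
  linarith

end Pool.Agent.Lib.MP_5db8e2_mp
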