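import Pool.Agent.Lib.MP_5db8e2_mp.LB.Spec1

/-!
# Lower bound, one window: module QL
-/

set_option autoImplicit false

open MeasureTheory Function Finset
open scoped Classical

namespace Pool.Agent.Lib.MP_5db8e2_mp

namespace QLaux

variable {N : ℕ}

/-- An integral over some variables of a kernel which is supported on positions in `Q` vanishes outside. -/
theorem Mg_le_ind {ν : Measure R3} {Q : Set R3} {H : (Fin N → R3) → ℝ}
    {S T : Finset (Fin N)} (hST : Disjoint S T) (hs : ∀ x, H x ≠ 0 → ∀ j ∈ T, x j ∈ Q)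
    {k : ℝ} (hk : 0 ≤ k) (hM : ∀ x, Mg ν S H x ≤ k) (x : Fin N → R3) :
    Mg ν S H x ≤ k * ∏ j ∈ T, ind Q (x j) := by
  by_cases h : ∀ j ∈ T, x j ∈ Q
  · rw [Finset.prod_congr rfl fun j hj => ind_of_mem (h j hj)]
    simpa using hM x
  · push Not at h
    obtain ⟨j, hj, hjQ⟩ := h
    have hz : Mg ν S H x = 0 := by
      unfold Mg
      have : ∀ y : (∀ _ : S, R3), H (updateFinset x S y) = 0 := by
        intro y
        by_contra hne
        apply hjQ
        have h1 := hs _ hne j hj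
        have h2 : j ∉ S := Finset.disjoint_right.1 hST hj
        simpa [updateFinset_def, h2] using h1
      simp [this]
    rw [hz]
    exact mul_nonneg hk (Finset.prod_nonneg fun j _ => ind_nonneg _ _)

/-- The basic estimate of a kernel against the square of an average. -/
theorem term {ν : Measure R3} [IsFiniteMeasure ν] {m : ℝ} {g : R3 → ℝ} {Q B : Set R3}
    (hW : Wd ν m g Q B) {H Lam G : (Fin N → R3) → ℝ} (hH : BM H) (hLam : BM Lam) (hG : BM G)
    (hL0 : ∀ x, 0 ≤ Lam x) {A T : Finset (Fin N)} (hAT : Disjoint T A)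
    (hLd : DependsOn Lam ((A : Set (Fin N))ᶜ)) {k : ℝ} (hk : 0 ≤ k)
    (hM : ∀ x, Mg ν A H x ≤ k * ∏ j ∈ T, ind Q (x j)) :
    ∫ x, H x * (Lam x * (av ν g A G x) ^ 2) ∂pin ν N
      ≤ k * (1 / m) ^ A.card *
        ∫ x, Lam x * ((∏ j ∈ T ∪ A, ind Q (x j)) * G x ^ 2) ∂pin ν N := by
  have hav : BM (av ν g A G) := av_bm hW hG
  have hD : DependsOn (fun x => Lam x * (av ν g A G x) ^ 2) ((A : Set (Fin N))ᶜ) := by
    intro x y hxy
    have h1 := hLd hxy
    have h2 := av_dep (ν := ν) (g := g) (A := A) G hxy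
    simp only [h1, h2]
  have hP : BM (fun x : Fin N → R3 => ∏ j ∈ T, ind Q (x j)) := BM_prod_ind hW.Q_meas T
  have hPd : DependsOn (fun x : Fin N → R3 => ∏ j ∈ T, ind Q (x j)) ((A : Set (Fin N))ᶜ) := by
    intro x y hxy
    refine Finset.prod_congr rfl fun j hj => ?_
    have h2 : j ∉ A := Finset.disjoint_left.1 hAT hj
    rw [hxy j (by simpa using h2)]
  have hw : BM (fun x : Fin N → R3 => k * (Lam x * ∏ j ∈ T, ind Q (x j))) :=
    (hLam.mul hP).const_mul k
  have hwd : DependsOn (fun x : Fin N → R3 => k * (Lam x * ∏ j ∈ T, ind Q (x j)))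
      ((A : Set (Fin N))ᶜ) := by
    intro x y hxy
    have h1 := hLd hxy
    have h2 := hPd hxy
    simp only at h2
    simp only [h1, h2]
  rw [integral_eq_out (hH.mul (hLam.mul (hav.pow 2))) (fun _ => 0) A, Mg_mul_right H hD]
  have h1 : out ν (fun _ => 0) A (fun x => Mg ν A H x * (Lam x * (av ν g A G x) ^ 2)) ≤
      out ν (fun _ => 0) A (fun x => (k * (Lam x * ∏ j ∈ T, ind Q (x j))) *
        (av ν g A G x) ^ 2) := by
    refine out_mono ((Mg_bm hH).mul (hLam.mul (hav.pow 2))) (hw.mul (hav.pow 2)) _ fun x => ?_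
    have h2 : Mg ν A H x * (Lam x * (av ν g A G x) ^ 2) ≤
        (k * ∏ j ∈ T, ind Q (x j)) * (Lam x * (av ν g A G x) ^ 2) :=
      mul_le_mul_of_nonneg_right (hM x) (mul_nonneg (hL0 x) (sq_nonneg _))
    refine h2.trans (le_of_eq ?_)
    ring
  have h2 := out_av_sq_le hW hG hw
    (fun x => mul_nonneg hk (mul_nonneg (hL0 x) (Finset.prod_nonneg fun j _ => ind_nonneg _ _)))
    hwd (fun _ => 0)
  refine h1.trans (h2.trans (le_of_eq ?_))
  have e : (fun x : Fin N → R3 => (k * (Lam x * ∏ j ∈ T, ind Q (x j))) *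
        ((∏ j ∈ A, ind Q (x j)) * G x ^ 2)) =
      fun x => k * (Lam x * ((∏ j ∈ T ∪ A, ind Q (x j)) * G x ^ 2)) := by
    ext1 x
    rw [Finset.prod_union hAT]
    ring
  rw [e, integral_const_mul]
  ring

end QLaux

open QLaux in
theorem QL (hT : S_Telescope) (hL : S_L2Q) : S_QL := by
  intro N ν hν m g Q B hW Ψ H Lam hΨ hH hLam hH0 hL0 A R j1 hAR hjA hjR hHd hLd hHs k0 k1
    hk0 hk1 hM0 hM1
  have hm : 0 < m := lt_of_lt_of_le one_pos hW.hm
  have hcard : (A ∪ R).card = A.card + R.card := Finset.card_union_of_disjoint hAR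
  -- the full product of indicators
  set U : Finset (Fin N) := insert j1 (A ∪ R) with hU
  have hUT1 : ({j1} : Finset (Fin N)) ∪ (A ∪ R) = U := by rw [hU, Finset.insert_eq]
  have hUT0 : insert j1 R ∪ A = U := by
    rw [hU]
    ext i
    simp only [Finset.mem_union, Finset.mem_insert]
    tauto
  have hjAR : j1 ∉ A ∪ R := by simp [hjA, hjR]
  -- the enumeration of `R`
  set r : Fin R.card → Fin N := fun k => R.orderEmbOfFin rfl k with hr
  have hrinj : Function.Injective r := (R.orderEmbOfFin rfl).injective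
  have hrmem : ∀ k, r k ∈ R := fun k => Finset.orderEmbOfFin_mem R rfl k
  have hrim : Finset.univ.image r = R := by
    apply Finset.eq_of_subset_of_card_le
    · intro i hi
      obtain ⟨k, _, rfl⟩ := Finset.mem_image.1 hi
      exact hrmem k
    · rw [Finset.card_image_of_injective _ hrinj]
      simp
  set Rk : Fin R.card → Finset (Fin N) := fun k =>
    (univ.filter (fun i : Fin R.card => i < k)).image r with hRk
  have hRkR : ∀ k, Rk k ⊆ R := by
    intro k i hi
    obtain ⟨l, _, rfl⟩ := Finset.mem_image.1 hi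
    exact hrmem l
  have hRkA : ∀ k, Disjoint (Rk k) A := fun k =>
    Finset.disjoint_of_subset_left (hRkR k) hAR.symm
  have hRkc : ∀ k, (Rk k).card ≤ R.card := fun k => Finset.card_le_card (hRkR k)
  have hrough : ∀ j, BM (rough ν g j Ψ) := fun j => rough_bm hW hΨ j
  -- pointwise bound by telescoping
  have hpt : ∀ x, (av ν g A Ψ x) ^ 2 ≤ (R.card + 1) * ((av ν g (A ∪ R) Ψ x) ^ 2 +
      ∑ k : Fin R.card, (av ν g A (av ν g (Rk k) (rough ν g (r k) Ψ)) x) ^ 2) := by
    intro x
    have h1 := hT ν m g Q B hW (av ν g A Ψ) (av_bm hW hΨ) R.card r hrinj x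
    rw [hrim] at h1
    rw [← av_union hW hΨ hAR.symm, Finset.union_comm R A] at h1
    have h2 : ∀ k : Fin R.card,
        av ν g ((univ.filter (fun i : Fin R.card => i < k)).image r)
          (rough ν g (r k) (av ν g A Ψ)) =
        av ν g A (av ν g (Rk k) (rough ν g (r k) Ψ)) := by
      intro k
      have hrk : r k ∉ A := Finset.disjoint_right.1 hAR (hrmem k)
      rw [rough_av hW hΨ hrk, av_comm hW (hrough _) (hRkA k)]
    simp only [h2] at h1
    exact h1
  have hav1 : BM (av ν g (A ∪ R) Ψ) := av_bm hW hΨ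
  have hav2 : ∀ k, BM (av ν g (Rk k) (rough ν g (r k) Ψ)) := fun k => av_bm hW (hrough _)
  have hav3 : ∀ k, BM (av ν g A (av ν g (Rk k) (rough ν g (r k) Ψ))) := fun k =>
    av_bm hW (hav2 k)
  have hT1 : BM (fun x => H x * (Lam x * (av ν g (A ∪ R) Ψ x) ^ 2)) :=
    hH.mul (hLam.mul (hav1.pow 2))
  have hT2 : ∀ k, BM (fun x => H x * (Lam x *
      (av ν g A (av ν g (Rk k) (rough ν g (r k) Ψ)) x) ^ 2)) := fun k =>
    hH.mul (hLam.mul ((hav3 k).pow 2))
  -- integrate
  have hint : ∫ x, H x * (Lam x * (av ν g A Ψ x) ^ 2) ∂pin ν N ≤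
      (R.card + 1) * (∫ x, H x * (Lam x * (av ν g (A ∪ R) Ψ x) ^ 2) ∂pin ν N +
        ∑ k : Fin R.card, ∫ x, H x * (Lam x *
          (av ν g A (av ν g (Rk k) (rough ν g (r k) Ψ)) x) ^ 2) ∂pin ν N) := by
    have hsumBM : BM (fun x => ∑ k : Fin R.card, H x * (Lam x *
        (av ν g A (av ν g (Rk k) (rough ν g (r k) Ψ)) x) ^ 2)) :=
      BM.sum _ fun k _ => hT2 k
    have e : (R.card + 1) * (∫ x, H x * (Lam x * (av ν g (A ∪ R) Ψ x) ^ 2) ∂pin ν N +
        ∑ k : Fin R.card, ∫ x, H x * (Lam x *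
          (av ν g A (av ν g (Rk k) (rough ν g (r k) Ψ)) x) ^ 2) ∂pin ν N) =
        ∫ x, ((R.card : ℝ) + 1) * (H x * (Lam x * (av ν g (A ∪ R) Ψ x) ^ 2) +
          ∑ k : Fin R.card, H x * (Lam x *
            (av ν g A (av ν g (Rk k) (rough ν g (r k) Ψ)) x) ^ 2)) ∂pin ν N := by
      rw [integral_const_mul, integral_add (hT1.integrable _) (hsumBM.integrable _),
        integral_finsetSum _ fun k _ => (hT2 k).integrable _]
    rw [e]
    refine integral_mono ((hH.mul (hLam.mul ((av_bm hW hΨ).pow 2))).integrable _)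
      (((hT1.add hsumBM).const_mul _).integrable _) fun x => ?_
    have h1 : H x * (Lam x * (av ν g A Ψ x) ^ 2) ≤
        H x * (Lam x * ((R.card + 1) * ((av ν g (A ∪ R) Ψ x) ^ 2 +
          ∑ k : Fin R.card, (av ν g A (av ν g (Rk k) (rough ν g (r k) Ψ)) x) ^ 2))) :=
      mul_le_mul_of_nonneg_left (mul_le_mul_of_nonneg_left (hpt x) (hL0 x)) (hH0 x)
    refine h1.trans (le_of_eq ?_)
    rw [← Finset.mul_sum, ← Finset.mul_sum]
    ring
  refine hint.trans (mul_le_mul_of_nonneg_left (add_le_add ?_ ?_) (by positivity))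
  · -- the averaged term
    have hLd1 : DependsOn Lam (((A ∪ R : Finset (Fin N)) : Set (Fin N))ᶜ) := by
      intro x y hxy
      refine hLd fun i hi => hxy i ?_
      simp only [hU, Finset.coe_insert, Set.mem_compl_iff, Set.mem_insert_iff, not_or] at hi
      exact hi.2
    have h1 := term hW hH hLam hΨ hL0 (A := A ∪ R) (T := {j1})
      (Finset.disjoint_singleton_left.2 hjAR) hLd1 hk1
      (Mg_le_ind (Finset.disjoint_singleton_right.2 hjAR)
        (fun x hx j hj => hHs x hx j (by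
          rw [Finset.mem_singleton] at hj
          subst hj
          exact Finset.mem_insert_self _ _)) hk1 hM1)
    rw [hUT1, hcard] at h1
    exact h1
  · -- the rough terms
    have hLd0 : DependsOn Lam ((A : Set (Fin N))ᶜ) := by
      intro x y hxy
      refine hLd fun i hi => hxy i ?_
      intro hiA
      apply hi
      rw [Finset.mem_coe, hU]
      exact Finset.mem_insert_of_mem (Finset.mem_union_left _ hiA)
    have hdT : Disjoint (insert j1 R) A := by
      rw [Finset.disjoint_insert_left]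
      exact ⟨hjA, hAR.symm⟩
    have hk : ∀ k : Fin R.card, ∫ x, H x * (Lam x *
          (av ν g A (av ν g (Rk k) (rough ν g (r k) Ψ)) x) ^ 2) ∂pin ν N ≤
        k0 * (1 / m) ^ A.card * 8 ^ R.card *
          ∫ x, Lam x * ((∏ i ∈ U, ind Q (x i)) * rough ν g (r k) Ψ x ^ 2) ∂pin ν N := by
      intro k
      have h1 := term hW hH hLam (hav2 k) hL0 (A := A) (T := insert j1 R) hdT hLd0 hk0
        (Mg_le_ind hdT.symm (fun x hx j hj => hHs x hx j (by
          rw [← hUT0]
          exact Finset.mem_union_left _ hj)) hk0 hM0)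
      rw [hUT0] at h1
      refine h1.trans ?_
      -- L2Q
      have hRkU : Rk k ⊆ U := by
        intro i hi
        rw [hU]
        exact Finset.mem_insert_of_mem (Finset.mem_union_right _ (hRkR k hi))
      have hsplit : ∀ (x : Fin N → R3) (F : ℝ), Lam x * ((∏ i ∈ U, ind Q (x i)) * F) =
          (Lam x * ∏ i ∈ U \ Rk k, ind Q (x i)) * ((∏ i ∈ Rk k, ind Q (x i)) * F) := by
        intro x F
        rw [← Finset.prod_sdiff hRkU]
        ring
      have hwB : BM (fun x : Fin N → R3 => Lam x * ∏ i ∈ U \ Rk k, ind Q (x i)) :=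
        hLam.mul (BM_prod_ind hW.Q_meas _)
      have hwd : DependsOn (fun x : Fin N → R3 => Lam x * ∏ i ∈ U \ Rk k, ind Q (x i))
          (((Rk k : Finset (Fin N)) : Set (Fin N))ᶜ) := by
        intro x y hxy
        have e1 : Lam x = Lam y := by
          refine hLd fun i hi => hxy i ?_
          intro hiR
          apply hi
          exact Finset.mem_coe.2 (hRkU (Finset.mem_coe.1 hiR))
        have e2 : ∏ i ∈ U \ Rk k, ind Q (x i) = ∏ i ∈ U \ Rk k, ind Q (y i) := by
          refine Finset.prod_congr rfl fun i hi => ?_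
          rw [hxy i (by simpa using (Finset.mem_sdiff.1 hi).2)]
        simp only [e1, e2]
      have h2 := hL ν m g Q B hW (rough ν g (r k) Ψ)
        (fun x => Lam x * ∏ i ∈ U \ Rk k, ind Q (x i)) (hrough _) hwB
        (fun x => mul_nonneg (hL0 x) (Finset.prod_nonneg fun i _ => ind_nonneg _ _)) (Rk k) hwd
      simp only [hsplit]
      have hIn : 0 ≤ ∫ x, (Lam x * ∏ i ∈ U \ Rk k, ind Q (x i)) *
          ((∏ i ∈ Rk k, ind Q (x i)) * rough ν g (r k) Ψ x ^ 2) ∂pin ν N := by
        refine integral_nonneg fun x => ?_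
        exact mul_nonneg (mul_nonneg (hL0 x) (Finset.prod_nonneg fun i _ => ind_nonneg _ _))
          (mul_nonneg (Finset.prod_nonneg fun i _ => ind_nonneg _ _) (sq_nonneg _))
      have h8 : (8 : ℝ) ^ (Rk k).card ≤ 8 ^ R.card :=
        pow_le_pow_right₀ (by norm_num) (hRkc k)
      have h3 := h2.trans (mul_le_mul_of_nonneg_right h8 hIn)
      have hkm : 0 ≤ k0 * (1 / m) ^ A.card := by positivity
      refine (mul_le_mul_of_nonneg_left h3 hkm).trans (le_of_eq ?_)
      ring
    refine (Finset.sum_le_sum fun k _ => hk k).trans (le_of_eq ?_)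
    rw [← Finset.mul_sum]
    congr 1
    have h5 : ∑ j ∈ Finset.univ.image r,
        ∫ x, Lam x * ((∏ i ∈ U, ind Q (x i)) * rough ν g j Ψ x ^ 2) ∂pin ν N =
        ∑ k : Fin R.card,
        ∫ x, Lam x * ((∏ i ∈ U, ind Q (x i)) * rough ν g (r k) Ψ x ^ 2) ∂pin ν N :=
      Finset.sum_image fun i _ j _ hij => hrinj hij
    rw [← h5, hrim]

end Pool.Agent.Lib.MP_5db8e2_mp
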