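import Pool.Agent.Lib.MP_5db8e2_mp.LB.Spec7

/-!
# Lower bound: pairs of quadruples
-/

set_option autoImplicit false

open MeasureTheory Function Finset
open scoped Classical

namespace Pool.Agent.Lib.MP_5db8e2_mp

namespace QPbAux

theorem kap_nonneg (σ r : ℝ) (t : R3) : 0 ≤ kap σ r t := by
  unfold kap
  split_ifs
  · positivity
  · exact le_refl _

theorem BM_kap (σ r : ℝ) (hσ : 0 ≤ σ) : BM (kap σ r) := by
  refine ⟨?_, 1, fun t => ?_⟩
  · unfold kap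
    apply Measurable.ite
    · exact measurableSet_le (by fun_prop) (by fun_prop)
    · exact (measurable_const.add measurable_norm).pow_const _
    · exact measurable_const
  · rw [abs_of_nonneg (kap_nonneg σ r t)]
    unfold kap
    split_ifs
    · apply Real.rpow_le_one_of_one_le_of_nonpos
      · linarith [norm_nonneg t]
      · linarith
    · norm_num

/-- kernel of two quadruples -/
noncomputable def KK {N : ℕ} (r4 : ℝ) (Q Q' : Finset (Fin N)) (x : Fin N → R3) : ℝ :=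
  ∑ i ∈ Q ∩ Q', (∏ j ∈ Q.erase i, kap (8 / 3) r4 (x i - x j)) *
    (∏ j ∈ Q'.erase i, kap (8 / 3) r4 (x i - x j))

theorem KK_nonneg {N : ℕ} (r4 : ℝ) (Q Q' : Finset (Fin N)) (x : Fin N → R3) :
    0 ≤ KK r4 Q Q' x :=
  Finset.sum_nonneg fun _ _ => mul_nonneg (Finset.prod_nonneg fun _ _ => kap_nonneg _ _ _)
    (Finset.prod_nonneg fun _ _ => kap_nonneg _ _ _)

theorem KK_symm {N : ℕ} (r4 : ℝ) (Q Q' : Finset (Fin N)) (x : Fin N → R3) :
    KK r4 Q Q' x = KK r4 Q' Q x := by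
  unfold KK
  rw [Finset.inter_comm]
  exact Finset.sum_congr rfl fun i _ => mul_comm _ _

theorem BM_KK {N : ℕ} (r4 : ℝ) (Q Q' : Finset (Fin N)) : BM (KK (N := N) r4 Q Q') := by
  have h : ∀ i j : Fin N, BM (fun x : Fin N → R3 => kap (8 / 3) r4 (x i - x j)) := by
    intro i j
    exact (BM_kap (8 / 3) r4 (by norm_num)).comp (by fun_prop)
  unfold KK
  exact BM.sum _ fun i _ => (BM.prod _ fun j _ => h i j).mul (BM.prod _ fun j _ => h i j)

theorem single_le {N : ℕ} (r4 : ℝ) (Q Q' : Finset (Fin N)) (x : Fin N → R3) (i : Fin N)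
    (hi : i ∈ Q ∩ Q') :
    (∏ j ∈ Q.erase i, kap (8 / 3) r4 (x i - x j)) *
      (∏ j ∈ Q'.erase i, kap (8 / 3) r4 (x i - x j)) ≤ KK r4 Q Q' x :=
  Finset.single_le_sum (f := fun i => (∏ j ∈ Q.erase i, kap (8 / 3) r4 (x i - x j)) *
      (∏ j ∈ Q'.erase i, kap (8 / 3) r4 (x i - x j)))
    (fun _ _ => mul_nonneg (Finset.prod_nonneg fun _ _ => kap_nonneg _ _ _)
    (Finset.prod_nonneg fun _ _ => kap_nonneg _ _ _)) hi

/-- pointwise bound of the square of the trial function -/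
theorem v4_sq (hJ : S_Jensen) (hC : S_Counts) (hW : S_WinFacts) (p : Par) (hp : p.OK)
    (Ψ : (Fin p.N → R3) → ℝ) (A A' : Finset (Fin p.N)) (x : Fin p.N → R3) :
    p.v4 Ψ A x ^ 2 ≤ ∑ a ∈ p.win, ind (p.Qin a) (Par.cmA A x) *
      (lam4 p.M (cnt (Qc p.s a) (A ∪ A')ᶜ x) * p.U a A Ψ x ^ 2) := by
  obtain ⟨_, _, hJ⟩ := hJ
  have h1 := (hJ p hp Ψ A (Par.cmA A x) x).2.1
  refine h1.trans ?_
  obtain ⟨_, _, hW⟩ := hW
  obtain ⟨_, _, h4, h4a, _⟩ := hC p.M hp.hM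
  refine Finset.sum_le_sum fun a _ => ?_
  obtain ⟨_, hth, hsupp, _⟩ := hW p.s p.e hp.hs hp.he hp.he' a
  have hcnt : cnt (Qc p.s a) (A ∪ A')ᶜ x ≤ cnt (Bc p.s a) Aᶜ x := by
    unfold cnt
    apply Finset.card_le_card
    intro j hj
    simp only [Finset.mem_filter, Finset.mem_compl, Finset.mem_union, not_or] at hj ⊢
    refine ⟨hj.1.1, ?_⟩
    intro k
    have := hj.2 k
    have hs := hp.hs
    linarith
  have hl : (p.l4 a A x * p.U a A Ψ x) ^ 2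
      ≤ lam4 p.M (cnt (Qc p.s a) (A ∪ A')ᶜ x) * p.U a A Ψ x ^ 2 := by
    rw [mul_pow]
    apply mul_le_mul_of_nonneg_right _ (sq_nonneg _)
    unfold Par.l4
    rw [(h4 _).2.2]
    exact h4a hcnt
  have h0 : 0 ≤ lam4 p.M (cnt (Qc p.s a) (A ∪ A')ᶜ x) * p.U a A Ψ x ^ 2 :=
    mul_nonneg (h4 _).1 (sq_nonneg _)
  by_cases hz : th p.s p.e a (Par.cmA A x) = 0
  · rw [hz, zero_mul]
    exact mul_nonneg (ind_nonneg _ _) h0
  · have hin : Par.cmA A x ∈ p.Qin a := hsupp _ hz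
    rw [ind_of_mem hin, one_mul]
    calc th p.s p.e a (Par.cmA A x) * (p.l4 a A x * p.U a A Ψ x) ^ 2
        ≤ 1 * (p.l4 a A x * p.U a A Ψ x) ^ 2 :=
          mul_le_mul_of_nonneg_right (hth _).2 (sq_nonneg _)
      _ ≤ _ := by rw [one_mul]; exact hl

/-- the integral of the kernel against the square of the trial function -/
noncomputable def FF (p : Par) (r4 : ℝ) (Ψ : (Fin p.N → R3) → ℝ) (A A' : Finset (Fin p.N)) : ℝ :=
  ∫ x, |KK r4 A A' x * p.v4 Ψ A x ^ 2| ∂pin p.nu p.N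

theorem FF_nonneg (p : Par) (r4 : ℝ) (Ψ : (Fin p.N → R3) → ℝ) (A A' : Finset (Fin p.N)) :
    0 ≤ FF p r4 Ψ A A' := integral_nonneg fun _ => abs_nonneg _

/-- sum over the pairs with `t` common particles -/
noncomputable def SS (p : Par) (r4 : ℝ) (Ψ : (Fin p.N → R3) → ℝ) (t : ℕ) : ℝ :=
  ∑ A ∈ P4 p.N, ∑ A' ∈ P4 p.N, if (A ∩ A').card = t then FF p r4 Ψ A A' else 0

theorem Nn_nonneg (p : Par) (Ψ : (Fin p.N → R3) → ℝ) : 0 ≤ p.Nn Ψ :=
  Finset.sum_nonneg fun _ _ => integral_nonneg fun _ => mul_nonneg (Nat.cast_nonneg _) (sq_nonneg _)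

theorem D_nonneg (p : Par) (Ψ : (Fin p.N → R3) → ℝ) : 0 ≤ p.D Ψ :=
  Finset.sum_nonneg fun _ _ => Finset.sum_nonneg fun _ _ =>
    integral_nonneg fun _ => mul_nonneg (ind_nonneg _ _) (sq_nonneg _)

theorem SS_le (hG : S_PairGlob) (hJ : S_Jensen) (hC : S_Counts) (hW : S_WinFacts)
    (t : ℕ) (h1 : 1 ≤ t) (h3 : t ≤ 3) : ∃ C : ℝ, 0 < C ∧
    ∀ (p : Par) (_ : p.OK) (r4 : ℝ) (_ : 1 ≤ r4) (_ : p.Large r4) (Ψ : (Fin p.N → R3) → ℝ)
      (_ : BM Ψ) (_ : ∀ A, BM (p.v4 Ψ A)),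
    SS p r4 Ψ t ≤ C * ((r4 ^ ((3 : ℝ) - 8 / 3)) ^ (4 - t) * (r4 ^ ((3 : ℝ) - 8 / 3)) ^ (4 - t) *
            (1 / p.s ^ 3) ^ (4 + 4 - t - 1) * (2 * p.M) ^ (7 - t) * p.Nn Ψ
          + (r4 ^ ((3 : ℝ) - 8 / 3)) ^ (4 - t) *
            (if 4 - t = 1 then r4 ^ ((3 : ℝ) - 8 / 3) else 1) *
            (1 / p.s ^ 3) ^ 4 * (2 * p.M) ^ (7 - t) * p.D Ψ) := by
  obtain ⟨C, hCpos, hG⟩ := hG 4 4 t h1 (by omega) (by omega) le_rfl le_rfl
  refine ⟨C, hCpos, ?_⟩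
  intro p hp r4 hr4 hL Ψ hΨ hv
  obtain ⟨_, _, h4, h4a, _, _, _, _, hc1, hc2, _⟩ := hC p.M hp.hM
  have := hG p hp r4 hL Ψ hΨ (8 / 3) (8 / 3) r4 r4 (by norm_num) le_rfl (by norm_num) le_rfl
    hr4 le_rfl hr4 le_rfl (lam4 p.M) (fun n => (h4 n).1) ((2 * p.M) ^ (7 - t))
    ((2 * p.M) ^ (7 - t))
    (by
      intro n
      have e1 : 4 + 4 - t = (7 - t) + 1 := by omega
      have h5 := hc1 n (7 - t) (by omega)
      rw [e1, pow_succ]
      have e2 : n + (7 - t + 1) = n + (7 - t) + 1 := by ring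
      rw [e2]
      have h6 : (0 : ℝ) ≤ ((n + (7 - t) + 1 : ℕ) : ℝ) := Nat.cast_nonneg _
      calc ((n + (7 - t) + 1 : ℕ) : ℝ) ^ (7 - t) * ((n + (7 - t) + 1 : ℕ) : ℝ) * lam4 p.M n
          = (((n + (7 - t) + 1 : ℕ) : ℝ) ^ (7 - t) * lam4 p.M n) * ((n + (7 - t) + 1 : ℕ) : ℝ) := by
            ring
        _ ≤ (2 * p.M) ^ (7 - t) * ((n + (7 - t) + 1 : ℕ) : ℝ) :=
            mul_le_mul_of_nonneg_right h5 h6)
    (by
      intro n
      have e1 : 4 + 4 - t - 1 = 7 - t := by omega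
      rw [e1]
      exact hc2 n (7 - t) (by omega))
    (fun A A' x => KK r4 A A' x * p.v4 Ψ A x ^ 2)
    (fun A A' => (BM_KK r4 A A').mul ((hv A).pow 2))
    (by
      intro A _ A' _ _ x
      rw [abs_of_nonneg (mul_nonneg (KK_nonneg _ _ _ _) (sq_nonneg _))]
      rw [← Finset.sum_mul]
      exact mul_le_mul_of_nonneg_left (v4_sq hJ hC hW p hp Ψ A A' x) (KK_nonneg _ _ _ _))
  exact this

theorem numeric (s M r4 X Y : ℝ) (hs : 1 ≤ s) (hM : 8 ≤ M) (hr4 : 1 ≤ r4) (hX : 0 ≤ X)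
    (hY : 0 ≤ Y) (t : ℕ) (h1 : 1 ≤ t) (h3 : t ≤ 3) :
    (r4 ^ ((3 : ℝ) - 8 / 3)) ^ (4 - t) * (r4 ^ ((3 : ℝ) - 8 / 3)) ^ (4 - t) *
            (1 / s ^ 3) ^ (4 + 4 - t - 1) * (2 * M) ^ (7 - t) * X
          + (r4 ^ ((3 : ℝ) - 8 / 3)) ^ (4 - t) *
            (if 4 - t = 1 then r4 ^ ((3 : ℝ) - 8 / 3) else 1) *
            (1 / s ^ 3) ^ 4 * (2 * M) ^ (7 - t) * Y
      ≤ 64 * ((r4 ^ 2 * (M / s ^ 3) ^ 6 + r4 ^ 2 * (M / s ^ 3) ^ 5 + r4 * (M / s ^ 3) ^ 4) * X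
        + r4 * (M / s ^ 3) ^ 4 * M ^ 2 * Y) := by
  set ρ : ℝ := r4 ^ ((3 : ℝ) - 8 / 3) with hρ
  have hρ3 : ρ ^ 3 = r4 := by
    rw [hρ, ← Real.rpow_natCast, ← Real.rpow_mul (by linarith)]
    norm_num
  have hρ1 : 1 ≤ ρ := by
    rw [hρ]
    exact Real.one_le_rpow hr4 (by norm_num)
  have hs3 : 0 < s ^ 3 := by positivity
  set μ : ℝ := M / s ^ 3 with hμ
  have hμ0 : 0 ≤ μ := by positivity
  have hM0 : 0 < M := by linarith
  have e : ∀ k, (1 / s ^ 3) ^ k * M ^ k = μ ^ k := by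
    intro k
    rw [← mul_pow, hμ]
    congr 1
    ring
  have hρ2 : ρ ^ 2 ≤ r4 := by
    rw [← hρ3]
    exact pow_le_pow_right₀ hρ1 (by norm_num)
  have hρ4 : ρ ^ 4 ≤ r4 ^ 2 := by
    rw [← hρ3, ← pow_mul]
    exact pow_le_pow_right₀ hρ1 (by norm_num)
  have p6 : 0 ≤ r4 ^ 2 * μ ^ 6 * X := by positivity
  have p5 : 0 ≤ r4 ^ 2 * μ ^ 5 * X := by positivity
  have p4 : 0 ≤ r4 * μ ^ 4 * X := by positivity
  have pD : 0 ≤ r4 * μ ^ 4 * M ^ 2 * Y := by positivity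
  have hM2 : 1 ≤ M ^ 2 := by nlinarith
  have hMM : M ≤ M ^ 2 := by nlinarith
  interval_cases t
  · have a1 : ρ ^ (4 - 1) * ρ ^ (4 - 1) * (1 / s ^ 3) ^ (4 + 4 - 1 - 1) * (2 * M) ^ (7 - 1) * X
        = 64 * (r4 ^ 2 * μ ^ 6 * X) := by
      rw [← e 6, ← hρ3]
      norm_num
      ring
    have a2 : ρ ^ (4 - 1) * (if 4 - 1 = 1 then ρ else 1) * (1 / s ^ 3) ^ 4 * (2 * M) ^ (7 - 1) * Y
        = 64 * (r4 * μ ^ 4 * M ^ 2 * Y) := by
      rw [← e 4, ← hρ3]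
      norm_num
      ring
    rw [a1, a2]
    linarith
  · have a1 : ρ ^ (4 - 2) * ρ ^ (4 - 2) * (1 / s ^ 3) ^ (4 + 4 - 2 - 1) * (2 * M) ^ (7 - 2) * X
        = 32 * (ρ ^ 4 * μ ^ 5 * X) := by
      rw [← e 5]
      norm_num
      ring
    have a2 : ρ ^ (4 - 2) * (if 4 - 2 = 1 then ρ else 1) * (1 / s ^ 3) ^ 4 * (2 * M) ^ (7 - 2) * Y
        = 32 * (ρ ^ 2 * μ ^ 4 * M * Y) := by
      rw [← e 4]
      norm_num
      ring
    rw [a1, a2]
    have b1 : ρ ^ 4 * μ ^ 5 * X ≤ r4 ^ 2 * μ ^ 5 * X :=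
      mul_le_mul_of_nonneg_right (mul_le_mul_of_nonneg_right hρ4 (by positivity)) hX
    have b2 : ρ ^ 2 * μ ^ 4 * M * Y ≤ r4 * μ ^ 4 * M ^ 2 * Y := by
      apply mul_le_mul_of_nonneg_right _ hY
      apply mul_le_mul (mul_le_mul_of_nonneg_right hρ2 (by positivity)) hMM hM0.le (by positivity)
    linarith
  · have a1 : ρ ^ (4 - 3) * ρ ^ (4 - 3) * (1 / s ^ 3) ^ (4 + 4 - 3 - 1) * (2 * M) ^ (7 - 3) * X
        = 16 * (ρ ^ 2 * μ ^ 4 * X) := by
      rw [← e 4]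
      norm_num
      ring
    have a2 : ρ ^ (4 - 3) * (if 4 - 3 = 1 then ρ else 1) * (1 / s ^ 3) ^ 4 * (2 * M) ^ (7 - 3) * Y
        = 16 * (ρ ^ 2 * μ ^ 4 * 1 * Y) := by
      rw [← e 4]
      norm_num
      ring
    rw [a1, a2]
    have b1 : ρ ^ 2 * μ ^ 4 * X ≤ r4 * μ ^ 4 * X :=
      mul_le_mul_of_nonneg_right (mul_le_mul_of_nonneg_right hρ2 (by positivity)) hX
    have b2 : ρ ^ 2 * μ ^ 4 * 1 * Y ≤ r4 * μ ^ 4 * M ^ 2 * Y := by
      apply mul_le_mul_of_nonneg_right _ hY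
      apply mul_le_mul (mul_le_mul_of_nonneg_right hρ2 (by positivity)) hM2 (by norm_num)
        (by positivity)
    linarith

theorem pair_int (p : Par) (r4 : ℝ) (Ψ : (Fin p.N → R3) → ℝ) (hv : ∀ A, BM (p.v4 Ψ A))
    (A A' : Finset (Fin p.N)) (w : (Fin p.N → R3) → ℝ) (c : ℝ)
    (hw : ∀ x, |w x| ≤ c * KK r4 A A' x) :
    |∫ x, w x * (p.v4 Ψ A x * p.v4 Ψ A' x) ∂pin p.nu p.N|
      ≤ c / 2 * (FF p r4 Ψ A A' + FF p r4 Ψ A' A) := by
  have i1 : Integrable (fun x => |KK r4 A A' x * p.v4 Ψ A x ^ 2|) (pin p.nu p.N) :=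
    ((BM_KK r4 A A').mul ((hv A).pow 2)).abs.integrable _
  have i2 : Integrable (fun x => |KK r4 A' A x * p.v4 Ψ A' x ^ 2|) (pin p.nu p.N) :=
    ((BM_KK r4 A' A).mul ((hv A').pow 2)).abs.integrable _
  have h := norm_integral_le_of_norm_le (μ := pin p.nu p.N)
    (f := fun x => w x * (p.v4 Ψ A x * p.v4 Ψ A' x))
    (g := fun x => c / 2 * (|KK r4 A A' x * p.v4 Ψ A x ^ 2| + |KK r4 A' A x * p.v4 Ψ A' x ^ 2|))
    ((i1.add i2).const_mul (c / 2)) (Filter.Eventually.of_forall fun x => by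
      rw [Real.norm_eq_abs, abs_mul, KK_symm r4 A' A x,
        abs_of_nonneg (mul_nonneg (KK_nonneg r4 A A' x) (sq_nonneg (p.v4 Ψ A x))),
        abs_of_nonneg (mul_nonneg (KK_nonneg r4 A A' x) (sq_nonneg (p.v4 Ψ A' x)))]
      have h1 : |p.v4 Ψ A x * p.v4 Ψ A' x| ≤ (p.v4 Ψ A x ^ 2 + p.v4 Ψ A' x ^ 2) / 2 := by
        rw [abs_le]
        constructor
        · nlinarith [sq_nonneg (p.v4 Ψ A x + p.v4 Ψ A' x)]
        · nlinarith [sq_nonneg (p.v4 Ψ A x - p.v4 Ψ A' x)]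
      calc |w x| * |p.v4 Ψ A x * p.v4 Ψ A' x|
          ≤ (c * KK r4 A A' x) * ((p.v4 Ψ A x ^ 2 + p.v4 Ψ A' x ^ 2) / 2) :=
            mul_le_mul (hw x) h1 (abs_nonneg _) ((abs_nonneg _).trans (hw x))
        _ = _ := by ring)
  rw [Real.norm_eq_abs] at h
  refine h.trans (le_of_eq ?_)
  rw [integral_const_mul, integral_add i1 i2]
  rfl

theorem triple_sum_le {N : ℕ} (F : Finset (Fin N) → Finset (Fin N) → ℝ)
    (hF : ∀ A A', 0 ≤ F A A') :
    ∑ T ∈ P3 N, ∑ i ∈ Tᶜ, ∑ i' ∈ Tᶜ.erase i, F (insert i T) (insert i' T)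
      ≤ ∑ A ∈ P4 N, ∑ A' ∈ P4 N, if (A ∩ A').card = 3 then F A A' else 0 := by
  have hR : ∑ A ∈ P4 N, ∑ A' ∈ P4 N, (if (A ∩ A').card = 3 then F A A' else 0)
      = ∑ z ∈ (P4 N ×ˢ P4 N).filter (fun z => (z.1 ∩ z.2).card = 3), F z.1 z.2 := by
    rw [Finset.sum_filter, Finset.sum_product]
  rw [hR, Finset.sum_sigma', Finset.sum_sigma']
  set s := ((P3 N).sigma fun T => Tᶜ).sigma fun z => (z.1ᶜ.erase z.2) with hs
  set e : ((_ : (_ : Finset (Fin N)) × Fin N) × Fin N) → Finset (Fin N) × Finset (Fin N) :=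
    fun z => (insert z.1.2 z.1.1, insert z.2 z.1.1) with he
  have hmem : ∀ z ∈ s, z.1.1.card = 3 ∧ z.1.2 ∉ z.1.1 ∧ z.2 ∉ z.1.1 ∧ z.2 ≠ z.1.2 := by
    intro z hz
    simp only [hs, Finset.mem_sigma, Finset.mem_powersetCard, Finset.subset_univ, true_and,
      Finset.mem_compl, Finset.mem_erase] at hz
    exact ⟨hz.1.1, hz.1.2, hz.2.2, hz.2.1⟩
  have hint : ∀ z ∈ s, insert z.1.2 z.1.1 ∩ insert z.2 z.1.1 = z.1.1 := by
    intro z hz
    obtain ⟨_, h2, h3, h4⟩ := hmem z hz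
    ext j
    simp only [Finset.mem_inter, Finset.mem_insert]
    constructor
    · rintro ⟨h5 | h5, h6 | h6⟩
      · exact absurd (h6.symm.trans h5) h4
      · exact h6
      · exact h5
      · exact h5
    · intro h5
      exact ⟨Or.inr h5, Or.inr h5⟩
  have hinj : Set.InjOn e (s : Set _) := by
    intro z hz z' hz' hzz
    have h1 := hint z hz
    have h1' := hint z' hz'
    obtain ⟨_, h2, h3, h4⟩ := hmem z hz
    obtain ⟨_, h2', h3', h4'⟩ := hmem z' hz'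
    simp only [he, Prod.mk.injEq] at hzz
    obtain ⟨e1, e2⟩ := hzz
    obtain ⟨⟨T, i⟩, i'⟩ := z
    obtain ⟨⟨T', j⟩, j'⟩ := z'
    simp only at *
    have hT : T = T' := by rw [← h1, ← h1', e1, e2]
    subst hT
    have hi : i = j := by
      have : i ∈ insert j T := by rw [← e1]; exact Finset.mem_insert_self _ _
      rcases Finset.mem_insert.mp this with h | h
      · exact h
      · exact absurd h h2
    have hi' : i' = j' := by
      have : i' ∈ insert j' T := by rw [← e2]; exact Finset.mem_insert_self _ _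
      rcases Finset.mem_insert.mp this with h | h
      · exact h
      · exact absurd h h3
    subst hi
    subst hi'
    rfl
  have h1 : ∑ z ∈ s, F (insert z.1.2 z.1.1) (insert z.2 z.1.1)
      = ∑ w ∈ s.image e, F w.1 w.2 := by
    rw [Finset.sum_image hinj]
  rw [h1]
  apply Finset.sum_le_sum_of_subset_of_nonneg
  · intro w hw
    rw [Finset.mem_image] at hw
    obtain ⟨z, hz, rfl⟩ := hw
    obtain ⟨h0, h2, h3, h4⟩ := hmem z hz
    simp only [he, Finset.mem_filter, Finset.mem_product, Finset.mem_powersetCard,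
      Finset.subset_univ, true_and]
    rw [Finset.card_insert_of_notMem h2, Finset.card_insert_of_notMem h3, hint z hz, h0]
    exact ⟨⟨rfl, rfl⟩, rfl⟩
  · intro w _ _
    exact hF _ _

theorem swap_sum {N : ℕ} (F : Finset (Fin N) → Finset (Fin N) → ℝ) (P : ℕ → Prop)
    [DecidablePred P] :
    ∑ A ∈ P4 N, ∑ A' ∈ P4 N, (if P (A ∩ A').card then F A' A else 0)
      = ∑ A ∈ P4 N, ∑ A' ∈ P4 N, if P (A ∩ A').card then F A A' else 0 := by
  rw [Finset.sum_comm]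
  refine Finset.sum_congr rfl fun A _ => Finset.sum_congr rfl fun A' _ => ?_
  rw [Finset.inter_comm]

end QPbAux

open QPbAux

theorem QPb (hG : S_PairGlob) (hB : S_KerBd) (hJ : S_Jensen) (hC : S_Counts) (hW : S_WinFacts)
    (hBM : S_BMall) : S_QPb := by
  intro K R
  obtain ⟨C0, hC0, hB⟩ := hB K R
  obtain ⟨C1, hC1, h1⟩ := SS_le hG hJ hC hW 1 (by norm_num) (by norm_num)
  obtain ⟨C2, hC2, h2⟩ := SS_le hG hJ hC hW 2 (by norm_num) (by norm_num)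
  obtain ⟨C3, hC3, h3⟩ := SS_le hG hJ hC hW 3 (by norm_num) (by norm_num)
  refine ⟨(3 + |K|) * C0 ^ 2 * (64 * (C1 + C2 + C3)), by positivity, ?_⟩
  intro V b r r4 W QQ c hc p hp hL Ψ hΨ
  have hr4 : 1 ≤ r4 := hc.hr.trans hc.hr4
  have hv : ∀ A, BM (p.v4 Ψ A) := fun A =>
    (hBM V b K R r r4 W QQ c hc p hp Ψ hΨ A).2.2.2.2.2.2.2.2.2.2.2.2.2.2.1
  have hX := Nn_nonneg p Ψ
  have hY := D_nonneg p Ψ
  set RR0 : ℝ := (r4 ^ 2 * p.mu ^ 6 + r4 ^ 2 * p.mu ^ 5 + r4 * p.mu ^ 4) * p.Nn Ψ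
        + r4 * p.mu ^ 4 * p.M ^ 2 * p.D Ψ with hRR
  have hSS : ∀ t, 1 ≤ t → t ≤ 3 → ∀ C : ℝ, 0 < C →
      (SS p r4 Ψ t ≤ C * ((r4 ^ ((3 : ℝ) - 8 / 3)) ^ (4 - t) * (r4 ^ ((3 : ℝ) - 8 / 3)) ^ (4 - t) *
            (1 / p.s ^ 3) ^ (4 + 4 - t - 1) * (2 * p.M) ^ (7 - t) * p.Nn Ψ
          + (r4 ^ ((3 : ℝ) - 8 / 3)) ^ (4 - t) *
            (if 4 - t = 1 then r4 ^ ((3 : ℝ) - 8 / 3) else 1) *
            (1 / p.s ^ 3) ^ 4 * (2 * p.M) ^ (7 - t) * p.D Ψ)) → SS p r4 Ψ t ≤ C * (64 * RR0) := by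
    intro t ht1 ht3 C hC h
    refine h.trans (mul_le_mul_of_nonneg_left ?_ hC.le)
    exact numeric p.s p.M r4 (p.Nn Ψ) (p.D Ψ) hp.hs hp.hM hr4 hX hY t ht1 ht3
  have s1 := hSS 1 (by norm_num) (by norm_num) C1 hC1 (h1 p hp r4 hr4 hL Ψ hΨ hv)
  have s2 := hSS 2 (by norm_num) (by norm_num) C2 hC2 (h2 p hp r4 hr4 hL Ψ hΨ hv)
  have s3 := hSS 3 (by norm_num) (by norm_num) C3 hC3 (h3 p hp r4 hr4 hL Ψ hΨ hv)
  have hSSn : ∀ t, 0 ≤ SS p r4 Ψ t := by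
    intro t
    refine Finset.sum_nonneg fun A _ => Finset.sum_nonneg fun A' _ => ?_
    split_ifs
    · exact FF_nonneg _ _ _ _ _
    · exact le_rfl
  have hK0 : 0 ≤ K := zero_le_one.trans hc.hK
  -- the kinetic part
  have hQP : |p.QP c Ψ| ≤ 3 * C0 ^ 2 * (SS p r4 Ψ 1 + SS p r4 Ψ 2 + SS p r4 Ψ 3) := by
    have hb : ∀ A ∈ P4 p.N, ∀ A' ∈ P4 p.N, ∀ x,
        |dt (p.fQ c A x) (p.fQ c A' x)| ≤ 3 * C0 ^ 2 * KK r4 A A' x := by
      intro A hA A' hA' x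
      rw [Finset.mem_powersetCard] at hA hA'
      unfold dt
      have e1 : ∑ i, ∑ a, p.fQ c A x i a * p.fQ c A' x i a
          = ∑ i ∈ A ∩ A', ∑ a, p.fQ c A x i a * p.fQ c A' x i a := by
        symm
        apply Finset.sum_subset (Finset.subset_univ _)
        intro i _ hi
        apply Finset.sum_eq_zero
        intro a _
        by_cases hiA : i ∈ A
        · have hiA' : i ∉ A' := fun h => hi (Finset.mem_inter.mpr ⟨hiA, h⟩)
          have hz : p.fQ c A' x i a = 0 := by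
            by_contra hne
            obtain ⟨j0, hj0⟩ : A'.Nonempty := by
              rw [← Finset.card_pos, hA'.2]; norm_num
            exact hiA' ((hB V b r r4 W QQ c hc A' x j0 hj0).2.2.2.2.2.2 i a hne)
          rw [hz, mul_zero]
        · have hz : p.fQ c A x i a = 0 := by
            by_contra hne
            obtain ⟨j0, hj0⟩ : A.Nonempty := by
              rw [← Finset.card_pos, hA.2]; norm_num
            exact hiA ((hB V b r r4 W QQ c hc A x j0 hj0).2.2.2.2.2.2 i a hne)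
          rw [hz, zero_mul]
      rw [e1]
      refine (Finset.abs_sum_le_sum_abs _ _).trans ?_
      unfold KK
      rw [Finset.mul_sum]
      refine Finset.sum_le_sum fun i hi => ?_
      rw [Finset.mem_inter] at hi
      have b1 := (hB V b r r4 W QQ c hc A x i hi.1).2.2.2.1 hA.2 i
      have b2 := (hB V b r r4 W QQ c hc A' x i hi.2).2.2.2.1 hA'.2 i
      refine (Finset.abs_sum_le_sum_abs _ _).trans ?_
      have b3 : ∀ a ∈ (Finset.univ : Finset (Fin 3)), |p.fQ c A x i a * p.fQ c A' x i a|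
          ≤ (C0 * ∏ j ∈ A.erase i, kap (8 / 3) r4 (x i - x j)) *
            (C0 * ∏ j ∈ A'.erase i, kap (8 / 3) r4 (x i - x j)) := by
        intro a _
        rw [abs_mul]
        exact mul_le_mul (b1 a) (b2 a) (abs_nonneg _) ((abs_nonneg _).trans (b1 a))
      refine (Finset.sum_le_sum b3).trans (le_of_eq ?_)
      rw [Finset.sum_const, Finset.card_univ, Fintype.card_fin, nsmul_eq_mul]
      push_cast
      ring
    have hQ1 : |p.QP c Ψ| ≤ ∑ A ∈ P4 p.N, ∑ A' ∈ P4 p.N,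
        (if (A ∩ A').card = 1 ∨ (A ∩ A').card = 2 ∨ (A ∩ A').card = 3 then
          3 * C0 ^ 2 / 2 * (FF p r4 Ψ A A' + FF p r4 Ψ A' A) else 0) := by
      unfold Par.QP
      refine (Finset.abs_sum_le_sum_abs _ _).trans (Finset.sum_le_sum fun A hA => ?_)
      refine (Finset.abs_sum_le_sum_abs _ _).trans (Finset.sum_le_sum fun A' hA' => ?_)
      split_ifs
      · exact pair_int p r4 Ψ hv A A' _ _ (hb A hA A' hA')
      · simp
    refine hQ1.trans (le_of_eq ?_)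
    have e2 : ∀ A A' : Finset (Fin p.N),
        (if (A ∩ A').card = 1 ∨ (A ∩ A').card = 2 ∨ (A ∩ A').card = 3 then
          3 * C0 ^ 2 / 2 * (FF p r4 Ψ A A' + FF p r4 Ψ A' A) else 0)
        = 3 * C0 ^ 2 / 2 * ((if (A ∩ A').card = 1 ∨ (A ∩ A').card = 2 ∨ (A ∩ A').card = 3 then
            FF p r4 Ψ A A' else 0)
          + (if (A ∩ A').card = 1 ∨ (A ∩ A').card = 2 ∨ (A ∩ A').card = 3 then
            FF p r4 Ψ A' A else 0)) := by
      intro A A'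
      split_ifs <;> ring
    simp_rw [e2, ← Finset.mul_sum, Finset.sum_add_distrib]
    have e3 := swap_sum (FF p r4 Ψ) (fun n => n = 1 ∨ n = 2 ∨ n = 3)
    rw [e3]
    have e4 : ∑ A ∈ P4 p.N, ∑ A' ∈ P4 p.N,
        (if (A ∩ A').card = 1 ∨ (A ∩ A').card = 2 ∨ (A ∩ A').card = 3 then
            FF p r4 Ψ A A' else 0) = SS p r4 Ψ 1 + SS p r4 Ψ 2 + SS p r4 Ψ 3 := by
      unfold SS
      rw [← Finset.sum_add_distrib, ← Finset.sum_add_distrib]
      refine Finset.sum_congr rfl fun A _ => ?_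
      rw [← Finset.sum_add_distrib, ← Finset.sum_add_distrib]
      refine Finset.sum_congr rfl fun A' _ => ?_
      rcases eq_or_ne (A ∩ A').card 1 with h | h
      · simp [h]
      · rcases eq_or_ne (A ∩ A').card 2 with h' | h'
        · simp [h']
        · rcases eq_or_ne (A ∩ A').card 3 with h'' | h''
          · simp [h'']
          · simp [h, h', h'']
    rw [e4]
    ring
  -- the potential part
  have hVS : |p.VS V c Ψ| ≤ K * C0 ^ 2 * SS p r4 Ψ 3 := by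
    have hb : ∀ T ∈ P3 p.N, ∀ i ∈ Tᶜ, ∀ i' ∈ Tᶜ.erase i, ∀ x,
        |VT V T x * (sQ c.s (insert i T) i x * sQ c.s (insert i' T) i' x)|
          ≤ K * C0 ^ 2 * KK r4 (insert i T) (insert i' T) x := by
      intro T hT i hi i' hi' x
      rw [Finset.mem_powersetCard] at hT
      rw [Finset.mem_compl] at hi
      rw [Finset.mem_erase, Finset.mem_compl] at hi'
      obtain ⟨j0, hj0⟩ : T.Nonempty := by
        rw [← Finset.card_pos, hT.2]; norm_num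
      have c1 : (insert i T).card = 4 := by rw [Finset.card_insert_of_notMem hi, hT.2]
      have c2 : (insert i' T).card = 4 := by rw [Finset.card_insert_of_notMem hi'.2, hT.2]
      have m1 : j0 ∈ insert i T := Finset.mem_insert_of_mem hj0
      have m2 : j0 ∈ insert i' T := Finset.mem_insert_of_mem hj0
      have b1 := (hB V b r r4 W QQ c hc (insert i T) x j0 m1).2.2.2.2.1 c1 i
      have b2 := (hB V b r r4 W QQ c hc (insert i' T) x j0 m2).2.2.2.2.1 c2 i'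
      have b3 : |VT V T x| ≤ K := by
        unfold VT V3
        rw [abs_of_nonneg (hc.pot.nonneg _ _)]
        exact hc.V_bd _ _
      have b4 := single_le r4 (insert i T) (insert i' T) x j0 (Finset.mem_inter.mpr ⟨m1, m2⟩)
      rw [abs_mul, abs_mul]
      calc |VT V T x| * (|sQ c.s (insert i T) i x| * |sQ c.s (insert i' T) i' x|)
          ≤ K * ((C0 * ∏ j ∈ (insert i T).erase j0, kap (8 / 3) r4 (x j0 - x j)) *
            (C0 * ∏ j ∈ (insert i' T).erase j0, kap (8 / 3) r4 (x j0 - x j))) := by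
            apply mul_le_mul b3 _ (by positivity) hK0
            exact mul_le_mul b1 b2 (abs_nonneg _) ((abs_nonneg _).trans b1)
        _ = K * C0 ^ 2 * ((∏ j ∈ (insert i T).erase j0, kap (8 / 3) r4 (x j0 - x j)) *
            (∏ j ∈ (insert i' T).erase j0, kap (8 / 3) r4 (x j0 - x j))) := by ring
        _ ≤ K * C0 ^ 2 * KK r4 (insert i T) (insert i' T) x :=
            mul_le_mul_of_nonneg_left b4 (by positivity)
    have hV1 : |p.VS V c Ψ| ≤ ∑ T ∈ P3 p.N, ∑ i ∈ Tᶜ, ∑ i' ∈ Tᶜ.erase i,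
        K * C0 ^ 2 / 2 * (FF p r4 Ψ (insert i T) (insert i' T)
          + FF p r4 Ψ (insert i' T) (insert i T)) := by
      unfold Par.VS
      refine (Finset.abs_sum_le_sum_abs _ _).trans (Finset.sum_le_sum fun T hT => ?_)
      refine (Finset.abs_sum_le_sum_abs _ _).trans (Finset.sum_le_sum fun i hi => ?_)
      refine (Finset.abs_sum_le_sum_abs _ _).trans (Finset.sum_le_sum fun i' hi' => ?_)
      exact pair_int p r4 Ψ hv _ _ _ _ (hb T hT i hi i' hi')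
    refine hV1.trans ?_
    simp_rw [← Finset.mul_sum, Finset.sum_add_distrib]
    have t1 := triple_sum_le (FF p r4 Ψ) (FF_nonneg p r4 Ψ)
    have t2 := triple_sum_le (fun A A' => FF p r4 Ψ A' A) (fun A A' => FF_nonneg p r4 Ψ A' A)
    have e3 := swap_sum (FF p r4 Ψ) (fun n => n = 3)
    rw [e3] at t2
    have e5 : ∑ A ∈ P4 p.N, ∑ A' ∈ P4 p.N, (if (A ∩ A').card = 3 then FF p r4 Ψ A A' else 0)
        = SS p r4 Ψ 3 := rfl
    rw [e5] at t1 t2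
    have h0 : 0 ≤ K * C0 ^ 2 / 2 := by positivity
    calc K * C0 ^ 2 / 2 * (∑ T ∈ P3 p.N, ∑ i ∈ Tᶜ, ∑ i' ∈ Tᶜ.erase i,
            FF p r4 Ψ (insert i T) (insert i' T)
          + ∑ T ∈ P3 p.N, ∑ i ∈ Tᶜ, ∑ i' ∈ Tᶜ.erase i,
            FF p r4 Ψ (insert i' T) (insert i T))
        ≤ K * C0 ^ 2 / 2 * (SS p r4 Ψ 3 + SS p r4 Ψ 3) :=
          mul_le_mul_of_nonneg_left (add_le_add t1 t2) h0
      _ = K * C0 ^ 2 * SS p r4 Ψ 3 := by ring
  have hR0 : 0 ≤ RR0 := by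
    have hs3 : 0 < p.s := lt_of_lt_of_le one_pos hp.hs
    have hM0 : 0 < p.M := lt_of_lt_of_le (by norm_num) hp.hM
    have hmu : 0 ≤ p.mu := by unfold Par.mu; positivity
    have : 0 ≤ r4 := by linarith
    rw [hRR]
    positivity
  have habs : |K| = K := abs_of_nonneg hK0
  rw [habs]
  have n1 := hSSn 1
  have n2 := hSSn 2
  have n3 := hSSn 3
  have hC00 : 0 ≤ C0 ^ 2 := by positivity
  have hsum : SS p r4 Ψ 1 + SS p r4 Ψ 2 + SS p r4 Ψ 3 ≤ (C1 + C2 + C3) * (64 * RR0) := by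
    linarith
  have hthree : SS p r4 Ψ 3 ≤ (C1 + C2 + C3) * (64 * RR0) := by linarith
  have f1 : 3 * C0 ^ 2 * (SS p r4 Ψ 1 + SS p r4 Ψ 2 + SS p r4 Ψ 3)
      ≤ 3 * C0 ^ 2 * ((C1 + C2 + C3) * (64 * RR0)) :=
    mul_le_mul_of_nonneg_left hsum (by positivity)
  have f2 : K * C0 ^ 2 * SS p r4 Ψ 3 ≤ K * C0 ^ 2 * ((C1 + C2 + C3) * (64 * RR0)) :=
    mul_le_mul_of_nonneg_left hthree (by positivity)
  calc |p.QP c Ψ| + |p.VS V c Ψ|
      ≤ 3 * C0 ^ 2 * ((C1 + C2 + C3) * (64 * RR0)) + K * C0 ^ 2 * ((C1 + C2 + C3) * (64 * RR0)) :=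
        add_le_add (hQP.trans f1) (hVS.trans f2)
    _ = (3 + K) * C0 ^ 2 * (64 * (C1 + C2 + C3)) * RR0 := by ring

end Pool.Agent.Lib.MP_5db8e2_mp
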