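import Pool.Agent.Lib.MP_5db8e2_mp.LB.Spec7
import Pool.Agent.Lib.MP_5db8e2_mp.LB.KerW3
import Pool.Agent.Lib.MP_5db8e2_mp.GeoD

/-!
# Lower bound, part 7: the main term of the quadruples (`S_QQint`)
-/

set_option autoImplicit false

open MeasureTheory Function Finset
open scoped Classical

namespace Pool.Agent.Lib.MP_5db8e2_mp

namespace QQintAux

open PutAux KerWAux

/-- One star. -/
noncomputable def star (r4 : ℝ) (i : Fin 4) (y : Fin 4 → R3) : ℝ :=
  ∏ j ∈ univ.erase i, kst r4 (y i - y j)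

theorem kst_ne {r4 : ℝ} {t : R3} (h : kst r4 t ≠ 0) : ‖t‖ ≤ 4 * r4 := by
  unfold kst at h
  by_contra hc
  rw [if_neg hc] at h
  exact h rfl

/-- The integral of the star kernel over the whole space. -/
theorem kst_int {C r4 : ℝ}
    (h : ∀ (ν : Measure R3) [IsFiniteMeasure ν] (_ : ν ≤ volume) (u : R3),
      ∫ t, kst r4 (u - t) ∂ν ≤ C) : ∫ t, kst r4 (0 - t) ≤ C := by
  let ν : Measure R3 := volume.restrict (Metric.closedBall 0 (4 * r4))
  have : IsFiniteMeasure ν := by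
    refine ⟨?_⟩
    rw [Measure.restrict_apply_univ]
    exact measure_closedBall_lt_top
  have h1 := h ν Measure.restrict_le_self 0
  have h2 : ∫ t, kst r4 (0 - t) ∂ν = ∫ t, kst r4 (0 - t) := by
    refine setIntegral_eq_integral_of_forall_compl_eq_zero fun t ht => ?_
    by_contra hne
    apply ht
    rw [Metric.mem_closedBall, dist_zero_right]
    have := kst_ne hne
    rwa [zero_sub, norm_neg] at this
  rw [← h2]
  exact h1

theorem star_meas {r4 : ℝ} (hm : Measurable (kst r4)) (i : Fin 4) : Measurable (star r4 i) := by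
  unfold star
  refine Finset.measurable_prod _ fun j _ => ?_
  exact hm.comp ((measurable_pi_apply i).sub (measurable_pi_apply j))

theorem star_ti (r4 : ℝ) (i : Fin 4) : TI (star r4 i) := by
  intro x v
  unfold star
  simp only [add_sub_add_right_eq_sub]

theorem star_mem {r4 : ℝ} (h01 : ∀ t, 0 ≤ kst r4 t ∧ kst r4 t ≤ 1) (i : Fin 4) (y : Fin 4 → R3) :
    0 ≤ star r4 i y ∧ star r4 i y ≤ 1 := by
  unfold star
  exact ⟨Finset.prod_nonneg fun j _ => (h01 _).1,
    Finset.prod_le_one (fun j _ => (h01 _).1) fun j _ => (h01 _).2⟩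

theorem star_rad {r4 : ℝ} (hr4 : 0 ≤ r4) (i : Fin 4) (y : Fin 4 → R3) (h : star r4 i y ≠ 0) :
    rad y ≤ 96 * r4 := by
  have h1 : ∀ j, ‖y i - y j‖ ≤ 4 * r4 := by
    intro j
    by_cases hj : j = i
    · subst hj
      rw [sub_self, norm_zero]
      positivity
    · apply kst_ne
      intro h0
      apply h
      unfold star
      exact Finset.prod_eq_zero (Finset.mem_erase.2 ⟨hj, Finset.mem_univ _⟩) h0
  have h2 : ∀ j k, ‖y j - y k‖ ≤ 8 * r4 := by
    intro j k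
    have e : y j - y k = (y i - y k) - (y i - y j) := by abel
    rw [e]
    calc ‖(y i - y k) - (y i - y j)‖ ≤ ‖y i - y k‖ + ‖y i - y j‖ := norm_sub_le _ _
      _ ≤ 8 * r4 := by linarith [h1 j, h1 k]
  have h3 := rad_le_of_norm_sub_le (x := y) (R := 8 * r4) (by positivity) h2
  push_cast at h3
  linarith

theorem star_RI {r4 : ℝ} (hr4 : 0 ≤ r4) (hm : Measurable (kst r4))
    (h01 : ∀ t, 0 ≤ kst r4 t ∧ kst r4 t ≤ 1) (i : Fin 4) : RI (star r4 i) := by
  refine RI_of_bdd (star_meas hm i) (B := 1) (fun x => ?_) (star_rad hr4 i)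
  rw [abs_of_nonneg (star_mem h01 i x).1]
  exact (star_mem h01 i x).2

theorem star_zero (r4 : ℝ) : rint (star r4 0) = (∫ t, kst r4 (0 - t)) ^ 3 := by
  have e : ∀ y : Fin 3 → R3, star r4 0 (Fin.cons 0 y) = ∏ m : Fin 3, kst r4 (0 - y m) := by
    intro y
    unfold star
    have h1 : (univ.erase (0 : Fin 4)) = univ.map (Fin.succEmb 3) := by decide
    rw [h1, Finset.prod_map]
    refine Finset.prod_congr rfl fun m _ => ?_
    simp
  unfold rint
  simp only [e]
  rw [integral_fintype_prod_volume_eq_pow (ι := Fin 3) (fun t : R3 => kst r4 (0 - t))]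
  simp

theorem star_perm {r4 : ℝ} (hm : Measurable (kst r4)) (i : Fin 4) :
    rint (star r4 i) = rint (star r4 0) := by
  rw [← rint_perm (star_meas hm 0) (star_ti r4 0) (Equiv.swap 0 i)]
  congr 1
  funext x
  unfold star
  refine Finset.prod_bij' (fun j _ => Equiv.swap 0 i j) (fun j _ => Equiv.swap 0 i j)
    (fun j hj => ?_) (fun j hj => ?_) (fun j _ => Equiv.swap_apply_self 0 i j)
    (fun j _ => Equiv.swap_apply_self 0 i j) (fun j hj => ?_)
  · rw [Finset.mem_erase] at hj ⊢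
    refine ⟨fun h => hj.1 ?_, Finset.mem_univ _⟩
    rw [Equiv.swap_apply_eq_iff] at h
    rw [h, Equiv.swap_apply_left]
  · rw [Finset.mem_erase] at hj ⊢
    refine ⟨fun h => hj.1 ?_, Finset.mem_univ _⟩
    rw [Equiv.swap_apply_eq_iff] at h
    rw [h, Equiv.swap_apply_right]
  · show kst r4 (x i - x j) = kst r4 (x (Equiv.swap 0 i 0) - x (Equiv.swap 0 i _))
    rw [Equiv.swap_apply_left, Equiv.swap_apply_self]

theorem KQ_eq (r4 : ℝ) : (KQ r4 univ : (Fin 4 → R3) → ℝ) = fun y => ∑ i, star r4 i y := rfl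

theorem rint_KQ {r4 : ℝ} (hr4 : 0 ≤ r4) (hm : Measurable (kst r4))
    (h01 : ∀ t, 0 ≤ kst r4 t ∧ kst r4 t ≤ 1) :
    RI (KQ r4 univ : (Fin 4 → R3) → ℝ) ∧
      rint (KQ r4 univ : (Fin 4 → R3) → ℝ) = 4 * (∫ t, kst r4 (0 - t)) ^ 3 := by
  have hR : RI (KQ r4 univ : (Fin 4 → R3) → ℝ) := by
    rw [KQ_eq]
    unfold RI
    exact integrable_finsetSum _ fun i _ => star_RI hr4 hm h01 i
  refine ⟨hR, ?_⟩
  rw [KQ_eq, rint_sum _ _ fun i _ => star_RI hr4 hm h01 i]
  simp only [star_perm hm, star_zero]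
  simp

theorem k4_meas {V : R3 → R3 → ℝ} {b K R r r4 W QQ : ℝ} {c : Cor}
    (hc : c.OK V b K R r r4 W QQ) : Measurable (k4 V c) := by
  have hph : ∀ l, Measurable (ph c.φ l) := fun l =>
    (contDiff_ph hc.d3.c1 l).continuous.measurable
  have hpd : ∀ l m a, Measurable (pd (ph c.φ l) m a) := fun l m a =>
    (continuous_pd (contDiff_ph hc.d3.c1 l) m a).measurable
  have hgg : ∀ l l', Measurable (gg (ph c.φ l) (ph c.φ l')) := fun l l' =>
    (continuous_gg (contDiff_ph hc.d3.c1 l) (contDiff_ph hc.d3.c1 l')).measurable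
  have hV : ∀ l, Measurable (V4 V l) := fun l => by
    have h0 : ∀ m : Fin 4, Measurable (fun x : Fin 4 → R3 => x m) := fun m =>
      measurable_pi_apply m
    exact hc.pot.meas.comp (f := fun x : Fin 4 → R3 => (x (l.succAbove 0) - x (l.succAbove 1),
      x (l.succAbove 0) - x (l.succAbove 2)))
      (((h0 _).sub (h0 _)).prodMk ((h0 _).sub (h0 _)))
  have hg := hc.d4.g_meas
  have hs := hc.d4.s_meas
  unfold k4
  refine (((Finset.measurable_sum _ fun l _ => Finset.measurable_sum _ fun l' _ => hgg l l').add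
    ((Finset.measurable_sum _ fun l _ => Finset.measurable_sum _ fun m _ =>
      Finset.measurable_sum _ fun a _ => (hpd l m a).mul (hg m a)).const_mul 2)).add
    (Finset.measurable_sum _ fun m _ => Finset.measurable_sum _ fun a _ =>
      (hg m a).pow_const 2)).add
    (Finset.measurable_sum _ fun l _ => (hV l).mul (((hs l).pow_const 2).sub
      (((measurable_const.sub (hph l)).const_mul 2).mul (hs l))))

theorem k4_ti {V : R3 → R3 → ℝ} {b K R r r4 W QQ : ℝ} {c : Cor}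
    (hc : c.OK V b K R r r4 W QQ) : TI (k4 V c) := by
  intro x v
  have h1 : ∀ l l', gg (ph c.φ l) (ph c.φ l') (fun m => x m + v)
      = gg (ph c.φ l) (ph c.φ l') x := fun l l' =>
    TI_gg (TI_ph hc.d3.ti l) (TI_ph hc.d3.ti l') x v
  have h2 : ∀ l m a, pd (ph c.φ l) m a (fun m => x m + v) = pd (ph c.φ l) m a x := fun l m a =>
    TI_pd (TI_ph hc.d3.ti l) m a x v
  have h3 : ∀ m a, c.g m a (fun m => x m + v) = c.g m a x := fun m a => hc.d4.g_ti m a x v
  have h4 : ∀ l, c.s l (fun m => x m + v) = c.s l x := fun l => hc.d4.s_ti l x v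
  have h5 : ∀ l, ph c.φ l (fun m => x m + v) = ph c.φ l x := fun l => TI_ph hc.d3.ti l x v
  have h6 : ∀ l, V4 V l (fun m => x m + v) = V4 V l x := fun l => by
    unfold V4 V3 sub4
    simp only [add_sub_add_right_eq_sub]
  unfold k4
  simp only [h1, h2, h3, h4, h5, h6]

theorem l4_dep (p : Par) (a : Fin 3 → ℤ) (T : Finset (Fin p.N)) :
    DependsOn (p.l4 a T) ((T : Set (Fin p.N))ᶜ) := by
  intro x y hxy
  have h := cnt_dep (Bc p.s a) Tᶜ (x := x) (y := y) fun i hi => hxy i (by simpa using hi)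
  exact congrArg (lam4 p.M) h

theorem vt4_dep (p : Par) (Ψ : (Fin p.N → R3) → ℝ) (Q : Finset (Fin p.N)) (c : R3) :
    DependsOn (p.vt4 Ψ Q c) ((Q : Set (Fin p.N))ᶜ) := by
  intro x y hxy
  unfold Par.vt4
  refine Finset.sum_congr rfl fun a _ => ?_
  have h3 := l4_dep p a Q hxy
  have h4 : p.U a Q Ψ x = p.U a Q Ψ y := av_dep Ψ hxy
  rw [h3, h4]

theorem out_swap {N : ℕ} (ν : Measure R3) [IsFiniteMeasure ν] (A : Finset (Fin N))
    (f : R3 → (Fin N → R3) → ℝ) (hf : BM fun z : R3 × (Fin N → R3) => f z.1 z.2) :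
    out ν 0 A (fun x => ∫ z, f z x ∂ν) = ∫ z, out ν 0 A (f z) ∂ν := by
  unfold out Mg
  rw [integral_integral_swap]
  apply BM.integrable
  have hm : Measurable fun q : (∀ _ : ↥(Aᶜ), R3) × R3 =>
      ((q.2, updateFinset (0 : Fin N → R3) Aᶜ q.1) : R3 × (Fin N → R3)) :=
    measurable_snd.prodMk (measurable_updateFinset.comp measurable_fst)
  exact hf.comp hm

end QQintAux

open PutAux KerWAux QQintAux

/-- The main term of the quadruples. -/
theorem QQint (h4 : S_Q4pt) (hK : S_KerQ) (_hPut : S_Put) (hCl : S_ClInt) (hS : S_Supp2)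
    (hW : S_WinFacts) (hWd : S_WdWin) (hBM : S_BMall) : S_QQint := by
  intro K R
  obtain ⟨C4, hC4, h4⟩ := h4 K R
  obtain ⟨CK, hCK, hK⟩ := hK
  obtain ⟨CW, hCW, hW⟩ := hW
  refine ⟨4 * C4 * CK ^ 3 + 262144 * |K| + 1, by positivity, ?_⟩
  intro V b r r4 W QQ c hc
  have hr41 : (1 : ℝ) ≤ r4 := hc.hr.trans hc.hr4
  have hr4 : 0 ≤ r4 := by linarith
  have hr40 : 0 < r4 := by linarith
  have hK0 : 0 ≤ K := by linarith [hc.hK]
  obtain ⟨hk4b, -⟩ := h4 V b r r4 W QQ c hc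
  have hKst : BM (kst r4) ∧ (∀ t, 0 ≤ kst r4 t ∧ kst r4 t ≤ 1) ∧
      (∀ (ν : Measure R3) [IsFiniteMeasure ν] (_ : ν ≤ volume) (u : R3),
        ∫ t, kst r4 (u - t) ∂ν ≤ CK) ∧
      (∀ x, 0 ≤ KQ r4 (univ : Finset (Fin 4)) x) ∧
      (∀ x : Fin 4 → R3, KQ r4 univ x ≠ 0 → ∀ i j, ‖x i - x j‖ ≤ 8 * r4) := by
    have h0 : (univ : Finset (Fin 4)).card = 4 := by simp
    have h1 := hK (0 : Measure R3) (Measure.zero_le _) r4 hr41 (univ : Finset (Fin 4)) h0
    refine ⟨h1.1, h1.2.1, fun ν _ hν u => (hK ν hν r4 hr41 (univ : Finset (Fin 4)) h0).2.2.1 u,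
      h1.2.2.2.2.1, fun x hx i j => h1.2.2.2.2.2.1 x hx i (Finset.mem_univ i) j
        (Finset.mem_univ j)⟩
  obtain ⟨hkBM, hk01, hkint, hKQ0, hKQs⟩ := hKst
  obtain ⟨hRK, hrK⟩ := rint_KQ hr4 hkBM.1 hk01
  have hkI : ∫ t, kst r4 (0 - t) ≤ CK := kst_int hkint
  have hkI0 : 0 ≤ ∫ t, kst r4 (0 - t) := integral_nonneg fun t => (hk01 _).1
  have hkm := k4_meas hc
  have hkt := k4_ti hc
  have hkR : RI (k4 V c) := by
    refine RI.mono (RI.const_mul hRK C4) hkm hk4b
  have hkrint : rint (k4 V c) = QQ := hc.d4.QQ_eq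
  refine ⟨?_, ?_, ?_⟩
  · rw [← hkrint]
    have h1 := abs_rint_le (RI.const_mul hRK C4) hk4b
    rw [rint_const_mul, hrK] at h1
    have h2 : (∫ t, kst r4 (0 - t)) ^ 3 ≤ CK ^ 3 := pow_le_pow_left₀ hkI0 hkI 3
    have h3 : C4 * (4 * (∫ t, kst r4 (0 - t)) ^ 3) ≤ C4 * (4 * CK ^ 3) := by gcongr
    have h5 : 0 ≤ |K| := abs_nonneg K
    calc |rint (k4 V c)| ≤ C4 * (4 * CK ^ 3) := h1.trans h3
      _ ≤ _ := by nlinarith
  · rw [← hc.d4.w_int]
    have h5 := (int_ball (k := 3) (z := 0) (ρ := 2 * r4) (B := K / r4 ^ 9)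
        (f := fun y => c.wq (Fin.cons 0 y)) (hc.d4.w_meas.comp measurable_cons0) (by positivity)
        (fun y => hc.d4.w_bd _) (fun y hy => by
          rw [sub_zero]
          exact (norm_le_rad_cons y).trans (by linarith [hc.d4.w_supp _ hy]))).2
    have h6 : K / r4 ^ 9 * (2 * (2 * r4)) ^ (3 * 3) = 262144 * K := by
      field_simp
      ring
    rw [h6] at h5
    have h7 : (0 : ℝ) ≤ 4 * C4 * CK ^ 3 := by positivity
    have h8 : |rint c.wq| ≤ 262144 * K := h5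
    have h9 : K ≤ |K| := le_abs_self K
    linarith
  intro p hp hL Ψ hΨ
  have hs0 : 0 < p.s := by linarith [hp.hs]
  have hkbd : BM (k4 V c) := by
    refine ⟨hkm, C4 * 4, fun y => (hk4b y).trans ?_⟩
    refine mul_le_mul_of_nonneg_left ?_ (by linarith)
    rw [KQ_eq]
    calc ∑ i, star r4 i y ≤ ∑ _i : Fin 4, (1 : ℝ) :=
          Finset.sum_le_sum fun i _ => (star_mem hk01 i y).2
      _ = 4 := by simp
  unfold Par.VV
  rw [Finset.mul_sum]
  refine Finset.sum_congr rfl fun Q hQ => ?_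
  have hQ4 : Q.card = 4 := (Finset.mem_powersetCard.1 hQ).2
  obtain ⟨-, -, -, -, -, -, -, -, -, -, -, -, hBvt, -, hBv, -⟩ :=
    hBM V b K R r r4 W QQ c hc p hp Ψ hΨ Q
  have hpk : Measurable (pick 4 Q : (Fin p.N → R3) → (Fin 4 → R3)) :=
    (continuous_pick 4 Q).measurable
  have hBG : BM fun x : Fin p.N → R3 => k4 V c (pick 4 Q x) * p.v4 Ψ Q x ^ 2 :=
    (hkbd.comp hpk).mul (hBv.pow 2)
  -- the trial function vanishes outside the cube
  have hvt0 : ∀ z x, p.vt4 Ψ Q z x ≠ 0 → ∃ a ∈ p.win, th p.s p.e a z ≠ 0 := by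
    intro z x h
    by_contra hc'
    push Not at hc'
    apply h
    unfold Par.vt4
    exact Finset.sum_eq_zero fun a ha => by rw [hc' a ha, zero_mul]
  have hQin : ∀ a z, th p.s p.e a z ≠ 0 → z ∈ p.Qin a := by
    intro a z h
    obtain ⟨-, -, hths, -⟩ := hW p.s p.e hp.hs hp.he hp.he' a
    exact hths z h
  have hOm : ∀ z x, p.vt4 Ψ Q z x ≠ 0 → z ∈ Om p.L := by
    intro z x h
    obtain ⟨a, ha, h1⟩ := hvt0 z x h
    obtain ⟨-, hsub⟩ := hWd p hp a ha
    apply hsub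
    intro k
    have h2 := hQin a z h1 k
    refine h2.trans ?_
    nlinarith [hp.he]
  have hvtx : ∀ x, BM fun z : R3 => p.vt4 Ψ Q z x := fun x =>
    hBvt.comp (φ := fun z : R3 => (z, x)) (by fun_prop)
  have hint : ∀ x, Integrable (fun z : R3 => p.vt4 Ψ Q z x ^ 2) := by
    intro x
    have h1 : Integrable (fun z : R3 => p.vt4 Ψ Q z x ^ 2) p.nu := ((hvtx x).pow 2).integrable _
    have h2 : IntegrableOn (fun z : R3 => p.vt4 Ψ Q z x ^ 2) (Om p.L) := h1
    refine (integrableOn_iff_integrable_of_support_subset ?_).1 h2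
    intro z hz
    apply hOm z x
    intro h0
    apply hz
    show p.vt4 Ψ Q z x ^ 2 = 0
    rw [h0]
    norm_num
  have hMg : ∀ x, Mg p.nu Q (fun x => k4 V c (pick 4 Q x) * p.v4 Ψ Q x ^ 2) x =
      QQ * ∫ z in Om p.L, p.vt4 Ψ Q z x ^ 2 := by
    intro x
    have hvput : ∀ y, p.v4 Ψ Q (put 4 Q y x) = p.vt4 Ψ Q (cm y) x := by
      intro y
      unfold Par.v4
      rw [cmA_put hQ4]
      apply vt4_dep p Ψ Q (cm y)
      intro i hi
      exact put_notMem y x (by simpa using hi)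
    have h1 := hCl p 4 Q hQ4 x (fun x => k4 V c (pick 4 Q x) * p.v4 Ψ Q x ^ 2)
      (fun y => p.vt4 Ψ Q (cm y) x ^ 2 * k4 V c y) (fun y => by
        show k4 V c (pick 4 Q (put 4 Q y x)) * p.v4 Ψ Q (put 4 Q y x) ^ 2 = _
        rw [pick_put hQ4, hvput, mul_comm]) (fun y hy m => by
      have hv : p.vt4 Ψ Q (cm y) x ≠ 0 := fun h0 => hy (by
        show p.vt4 Ψ Q (cm y) x ^ 2 * k4 V c y = 0
        rw [h0]; ring)
      have hk : k4 V c y ≠ 0 := right_ne_zero_of_mul hy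
      have hKQ : KQ r4 univ y ≠ 0 := fun h0 => hk (by
        have := hk4b y
        rw [h0, mul_zero] at this
        exact abs_nonpos_iff.1 this)
      have hd := hKQs y hKQ
      obtain ⟨a, ha, h1⟩ := hvt0 _ x hv
      obtain ⟨-, hsub⟩ := hWd p hp a ha
      apply hsub
      have h2 : Par.cmA Q (put 4 Q y x) ∈ p.Qin a := by
        rw [cmA_put hQ4]
        exact hQin a _ h1
      have h3 := hS p hp r4 hr4 hL a Q (put 4 Q y x) h2 (Q.orderEmbOfFin hQ4 m)
        (Finset.orderEmbOfFin_mem Q hQ4 m) (fun j hj => by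
          have h5 : j = Q.orderEmbOfFin hQ4 ((Q.orderIsoOfFin hQ4).symm ⟨j, hj⟩) :=
            (emb_symm hQ4 hj).symm
          rw [h5, put_emb hQ4, put_emb hQ4]
          exact hd _ _) (Q.orderEmbOfFin hQ4 m) (by
          rw [sub_self, norm_zero]
          positivity)
      rwa [put_emb hQ4] at h3)
    rw [h1]
    have h2 := (integral_weight (k := 3) hkm hkt hkR (ℓ := cm)
      continuous_cm.measurable (fun x v => cm_shift (by norm_num) x v) (hint x)).2
    rw [h2, hkrint, mul_comm]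
    congr 1
    symm
    refine setIntegral_eq_integral_of_forall_compl_eq_zero fun z hz => ?_
    by_contra hne
    apply hz
    apply hOm z x
    intro h0
    apply hne
    rw [h0]
    norm_num
  rw [integral_eq_out hBG 0 Q]
  have e1 : out p.nu 0 Q (Mg p.nu Q fun x => k4 V c (pick 4 Q x) * p.v4 Ψ Q x ^ 2)
      = out p.nu 0 Q (fun x => QQ * ∫ z in Om p.L, p.vt4 Ψ Q z x ^ 2) := by
    congr 1
    funext x
    exact hMg x
  rw [e1]
  have e2 : out p.nu 0 Q (fun x => QQ * ∫ z in Om p.L, p.vt4 Ψ Q z x ^ 2)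
      = QQ * out p.nu 0 Q (fun x => ∫ z in Om p.L, p.vt4 Ψ Q z x ^ 2) := by
    unfold out
    rw [Mg_const_mul]
  rw [e2]
  exact congrArg (fun u : ℝ => QQ * u)
    (out_swap p.nu Q (fun z x => p.vt4 Ψ Q z x ^ 2) (hBvt.pow 2))

end Pool.Agent.Lib.MP_5db8e2_mp
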