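import Pool.Agent.Lib.MP_5db8e2_mp.LB.KerBd

/-!
# Lower bound, part 6: the quadratic form, sorted
-/

set_option autoImplicit false

open MeasureTheory Function Finset
open scoped Classical

namespace Pool.Agent.Lib.MP_5db8e2_mp

section Comb

variable {N : ℕ}

theorem quadSplit_mem3 {T : Finset (Fin N)} : T ∈ P3 N ↔ T.card = 3 := by
  simp [P3, Finset.mem_powersetCard]

theorem quadSplit_mem4 {T : Finset (Fin N)} : T ∈ P4 N ↔ T.card = 4 := by
  simp [P4, Finset.mem_powersetCard]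

/-- A set of three elements with two common elements with another one. -/
theorem quadSplit_pair {T T' : Finset (Fin N)} (h : T.card = 3) (h' : T'.card = 3)
    (h2 : (T ∩ T').card = 2) : ∃ l ∈ T', l ∉ T ∧ ∃ l' ∈ T, l' ∉ T' ∧ (T ∪ T').card = 4 ∧
      (T ∪ T').erase l = T ∧ (T ∪ T').erase l' = T' := by
  have e1 : (T' \ T).card = 1 := by
    have := Finset.card_sdiff_add_card_inter T' T
    rw [Finset.inter_comm] at this
    omega
  have e2 : (T \ T').card = 1 := by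
    have := Finset.card_sdiff_add_card_inter T T'
    omega
  have e3 : (T ∪ T').card = 4 := by
    have := Finset.card_union_add_card_inter T T'
    omega
  obtain ⟨l, hl⟩ := Finset.card_eq_one.1 e1
  obtain ⟨l', hl'⟩ := Finset.card_eq_one.1 e2
  have m1 : l ∈ T' \ T := by rw [hl]; exact Finset.mem_singleton_self _
  have m2 : l' ∈ T \ T' := by rw [hl']; exact Finset.mem_singleton_self _
  rw [Finset.mem_sdiff] at m1 m2
  refine ⟨l, m1.1, m1.2, l', m2.1, m2.2, e3, ?_, ?_⟩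
  · symm
    refine Finset.eq_of_subset_of_card_le ?_ ?_
    · intro i hi
      rw [Finset.mem_erase]
      exact ⟨fun h => m1.2 (h ▸ hi), Finset.mem_union_left _ hi⟩
    · rw [Finset.card_erase_of_mem (Finset.mem_union_right _ m1.1), e3, h]
  · symm
    refine Finset.eq_of_subset_of_card_le ?_ ?_
    · intro i hi
      rw [Finset.mem_erase]
      exact ⟨fun h => m2.2 (h ▸ hi), Finset.mem_union_right _ hi⟩
    · rw [Finset.card_erase_of_mem (Finset.mem_union_left _ m2.1), e3, h']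

theorem quadSplit_erase_inj {Q Q' : Finset (Fin N)} {l l' : Fin N} (hl : l ∈ Q) (hl' : l' ∈ Q')
    (hQ : Q = Q') (h : Q.erase l = Q'.erase l') : l = l' := by
  subst hQ
  by_contra hne
  have : l' ∈ Q.erase l := Finset.mem_erase.2 ⟨fun h => hne h.symm, hl'⟩
  rw [h] at this
  exact Finset.notMem_erase l' Q this

/-- Pairs of triples with two common elements. -/
theorem quadSplit_two (F : Finset (Fin N) → Finset (Fin N) → ℝ) :
    ∑ T ∈ P3 N, ∑ T' ∈ P3 N, (if (T ∩ T').card = 2 then F T T' else 0) =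
      ∑ Q ∈ P4 N, ∑ l ∈ Q, ∑ l' ∈ Q.erase l, F (Q.erase l) (Q.erase l') := by
  rw [← Finset.sum_product', ← Finset.sum_filter]
  have h1 : ∑ Q ∈ P4 N, ∑ l ∈ Q, ∑ l' ∈ Q.erase l, F (Q.erase l) (Q.erase l') =
      ∑ z ∈ (P4 N).sigma (fun Q => Q.sigma fun l => Q.erase l),
        F (z.1.erase z.2.1) (z.1.erase z.2.2) := by
    rw [Finset.sum_sigma]
    refine Finset.sum_congr rfl fun Q _ => ?_
    rw [Finset.sum_sigma]
  rw [h1]
  symm
  refine Finset.sum_bij (fun z _ => (z.1.erase z.2.1, z.1.erase z.2.2)) ?_ ?_ ?_ ?_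
  · rintro ⟨Q, l, l'⟩ hz
    simp only [Finset.mem_sigma, Finset.mem_erase] at hz
    obtain ⟨hQ, hl, hne, hl'⟩ := hz
    rw [quadSplit_mem4] at hQ
    simp only [Finset.mem_filter, Finset.mem_product, quadSplit_mem3]
    refine ⟨⟨by rw [Finset.card_erase_of_mem hl, hQ], by rw [Finset.card_erase_of_mem hl', hQ]⟩,
      ?_⟩
    have : Q.erase l ∩ Q.erase l' = (Q.erase l).erase l' := by
      ext i; simp only [Finset.mem_inter, Finset.mem_erase]; tauto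
    rw [this, Finset.card_erase_of_mem (Finset.mem_erase.2 ⟨hne, hl'⟩),
      Finset.card_erase_of_mem hl, hQ]
  · rintro ⟨Q, l, l'⟩ hz ⟨Q', m, m'⟩ hz' h
    simp only [Finset.mem_sigma, Finset.mem_erase] at hz hz'
    simp only [Prod.mk.injEq] at h
    obtain ⟨hQ, hl, hne, hl'⟩ := hz
    obtain ⟨hQ', hm, hne', hm'⟩ := hz'
    have u1 : Q = Q.erase l ∪ Q.erase l' := by
      ext i; simp only [Finset.mem_union, Finset.mem_erase]
      constructor
      · intro hi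
        by_cases hil : i = l
        · right; exact ⟨fun h => hne (h ▸ hil ▸ rfl), hi⟩
        · left; exact ⟨hil, hi⟩
      · rintro (hi | hi) <;> exact hi.2
    have u2 : Q' = Q'.erase m ∪ Q'.erase m' := by
      ext i; simp only [Finset.mem_union, Finset.mem_erase]
      constructor
      · intro hi
        by_cases hil : i = m
        · right; exact ⟨fun h => hne' (h ▸ hil ▸ rfl), hi⟩
        · left; exact ⟨hil, hi⟩
      · rintro (hi | hi) <;> exact hi.2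
    have hQQ : Q = Q' := by rw [u1, u2, h.1, h.2]
    have e1 := quadSplit_erase_inj hl hm hQQ h.1
    have e2 := quadSplit_erase_inj hl' hm' hQQ h.2
    subst hQQ e1 e2
    rfl
  · rintro ⟨T, T'⟩ hz
    simp only [Finset.mem_filter, Finset.mem_product, quadSplit_mem3] at hz
    obtain ⟨l, hl, hlT, l', hl', hlT', h4, h5, h6⟩ := quadSplit_pair hz.1.1 hz.1.2 hz.2
    refine ⟨⟨T ∪ T', l, l'⟩, ?_, ?_⟩
    · simp only [Finset.mem_sigma, Finset.mem_erase, quadSplit_mem4]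
      refine ⟨h4, Finset.mem_union_right _ hl, fun h => hlT (h ▸ hl'), Finset.mem_union_left _ hl'⟩
    · simp only [h5, h6]
  · rintro ⟨Q, l, l'⟩ _
    rfl

theorem quadSplit_L1 (F : Finset (Fin N) → Finset (Fin N) → ℝ)
    (h0 : ∀ T T', T ∩ T' = ∅ → F T T' = 0) :
    ∑ T ∈ P3 N, ∑ T' ∈ P3 N, F T T' = ∑ T ∈ P3 N, F T T +
      ∑ Q ∈ P4 N, ∑ l ∈ Q, ∑ l' ∈ Q.erase l, F (Q.erase l) (Q.erase l') +
      ∑ T ∈ P3 N, ∑ T' ∈ P3 N, (if (T ∩ T').card = 1 then F T T' else 0) := by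
  rw [← quadSplit_two, ← Finset.sum_add_distrib, ← Finset.sum_add_distrib]
  refine Finset.sum_congr rfl fun T hT => ?_
  rw [quadSplit_mem3] at hT
  have h3 : F T T = ∑ T' ∈ P3 N, (if (T ∩ T').card = 3 then F T T' else 0) := by
    rw [Finset.sum_eq_single T]
    · rw [Finset.inter_self, if_pos hT]
    · intro T' hT' hne
      rw [quadSplit_mem3] at hT'
      rw [if_neg]
      intro h
      apply hne
      have e1 : T ∩ T' = T := Finset.eq_of_subset_of_card_le Finset.inter_subset_left (by omega)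
      have e2 : T ∩ T' = T' := Finset.eq_of_subset_of_card_le Finset.inter_subset_right (by omega)
      rw [← e2, e1]
    · intro h; exact absurd (quadSplit_mem3.2 hT) h
  rw [h3, ← Finset.sum_add_distrib, ← Finset.sum_add_distrib]
  refine Finset.sum_congr rfl fun T' hT' => ?_
  have hle : (T ∩ T').card ≤ 3 := by
    have := Finset.card_le_card (Finset.inter_subset_left (s₁ := T) (s₂ := T'))
    omega
  rcases Nat.lt_or_ge 0 (T ∩ T').card with hpos | hz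
  · have : (T ∩ T').card = 1 ∨ (T ∩ T').card = 2 ∨ (T ∩ T').card = 3 := by omega
    rcases this with h | h | h <;> simp [h]
  · have hz' : (T ∩ T').card = 0 := by omega
    rw [h0 T T' (Finset.card_eq_zero.1 hz')]
    simp

theorem quadSplit_L4 (G : Finset (Fin N) → Fin N → ℝ) :
    ∑ T ∈ P3 N, ∑ i ∈ Tᶜ, G T i = ∑ Q ∈ P4 N, ∑ l ∈ Q, G (Q.erase l) l := by
  have h1 : ∑ T ∈ P3 N, ∑ i ∈ Tᶜ, G T i =
      ∑ z ∈ (P3 N).sigma (fun T => Tᶜ), G z.1 z.2 := by rw [Finset.sum_sigma]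
  have h2 : ∑ Q ∈ P4 N, ∑ l ∈ Q, G (Q.erase l) l =
      ∑ z ∈ (P4 N).sigma (fun Q => Q), G (z.1.erase z.2) z.2 := by rw [Finset.sum_sigma]
  rw [h1, h2]
  symm
  refine Finset.sum_bij' (fun z _ => ⟨z.1.erase z.2, z.2⟩) (fun z _ => ⟨insert z.2 z.1, z.2⟩)
    ?_ ?_ ?_ ?_ ?_
  · rintro ⟨Q, l⟩ hz
    simp only [Finset.mem_sigma] at hz ⊢
    rw [quadSplit_mem4] at hz
    rw [quadSplit_mem3]
    exact ⟨by rw [Finset.card_erase_of_mem hz.2, hz.1], by simp⟩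
  · rintro ⟨T, i⟩ hz
    simp only [Finset.mem_sigma, Finset.mem_compl] at hz ⊢
    rw [quadSplit_mem3] at hz
    rw [quadSplit_mem4]
    exact ⟨by rw [Finset.card_insert_of_notMem hz.2, hz.1], Finset.mem_insert_self _ _⟩
  · rintro ⟨Q, l⟩ hz
    simp only [Finset.mem_sigma] at hz
    simp only [Finset.insert_erase hz.2]
  · rintro ⟨T, i⟩ hz
    simp only [Finset.mem_sigma, Finset.mem_compl] at hz
    simp only [Finset.erase_insert hz.2]
  · rintro ⟨Q, l⟩ _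
    rfl

theorem quadSplit_three (F : Finset (Fin N) → Finset (Fin N) → ℝ) :
    ∑ T ∈ P3 N, ∑ Q ∈ P4 N, (if (T ∩ Q).card = 3 then F T Q else 0) =
      ∑ Q ∈ P4 N, ∑ l ∈ Q, F (Q.erase l) Q := by
  have h1 : ∑ Q ∈ P4 N, ∑ l ∈ Q, F (Q.erase l) Q =
      ∑ Q ∈ P4 N, ∑ l ∈ Q, (fun T i => F T (insert i T)) (Q.erase l) l := by
    refine Finset.sum_congr rfl fun Q _ => Finset.sum_congr rfl fun l hl => ?_
    simp only [Finset.insert_erase hl]
  rw [h1, ← quadSplit_L4 (fun T i => F T (insert i T))]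
  refine Finset.sum_congr rfl fun T hT => ?_
  rw [quadSplit_mem3] at hT
  rw [← Finset.sum_filter]
  symm
  refine Finset.sum_bij (fun i _ => insert i T) ?_ ?_ ?_ ?_
  · intro i hi
    rw [Finset.mem_compl] at hi
    rw [Finset.mem_filter, quadSplit_mem4]
    refine ⟨by rw [Finset.card_insert_of_notMem hi, hT], ?_⟩
    rw [Finset.inter_eq_left.2 (Finset.subset_insert i T), hT]
  · intro i hi j hj h
    rw [Finset.mem_compl] at hi hj
    have : i ∈ insert j T := h ▸ Finset.mem_insert_self i T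
    rcases Finset.mem_insert.1 this with h | h
    · exact h
    · exact absurd h hi
  · intro Q hQ
    rw [Finset.mem_filter, quadSplit_mem4] at hQ
    have hsub : T ⊆ Q := by
      have e1 : T ∩ Q = T := Finset.eq_of_subset_of_card_le Finset.inter_subset_left (by omega)
      exact Finset.inter_eq_left.1 e1
    have hc : (Q \ T).card = 1 := by
      rw [Finset.card_sdiff_of_subset hsub]; omega
    obtain ⟨i, hi⟩ := Finset.card_eq_one.1 hc
    have hi' : i ∈ Q \ T := by rw [hi]; exact Finset.mem_singleton_self _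
    rw [Finset.mem_sdiff] at hi'
    refine ⟨i, Finset.mem_compl.2 hi'.2, ?_⟩
    refine Finset.eq_of_subset_of_card_le ?_ ?_
    · intro j hj
      rcases Finset.mem_insert.1 hj with h | h
      · rw [h]; exact hi'.1
      · exact hsub h
    · rw [Finset.card_insert_of_notMem hi'.2]; omega
  · intro i _
    rfl

theorem quadSplit_L2 (F : Finset (Fin N) → Finset (Fin N) → ℝ)
    (h0 : ∀ T Q, T ∩ Q = ∅ → F T Q = 0) :
    ∑ T ∈ P3 N, ∑ Q ∈ P4 N, F T Q = ∑ Q ∈ P4 N, ∑ l ∈ Q, F (Q.erase l) Q +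
      ∑ T ∈ P3 N, ∑ Q ∈ P4 N,
        (if (T ∩ Q).card = 1 ∨ (T ∩ Q).card = 2 then F T Q else 0) := by
  rw [← quadSplit_three, ← Finset.sum_add_distrib]
  refine Finset.sum_congr rfl fun T hT => ?_
  rw [quadSplit_mem3] at hT
  rw [← Finset.sum_add_distrib]
  refine Finset.sum_congr rfl fun Q _ => ?_
  have hle : (T ∩ Q).card ≤ 3 := by
    have := Finset.card_le_card (Finset.inter_subset_left (s₁ := T) (s₂ := Q))
    omega
  rcases Nat.lt_or_ge 0 (T ∩ Q).card with hpos | hz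
  · have : (T ∩ Q).card = 1 ∨ (T ∩ Q).card = 2 ∨ (T ∩ Q).card = 3 := by omega
    rcases this with h | h | h <;> simp [h]
  · have hz' : (T ∩ Q).card = 0 := by omega
    rw [h0 T Q (Finset.card_eq_zero.1 hz')]
    simp

theorem quadSplit_L3 (F : Finset (Fin N) → Finset (Fin N) → ℝ)
    (h0 : ∀ Q Q', Q ∩ Q' = ∅ → F Q Q' = 0) :
    ∑ Q ∈ P4 N, ∑ Q' ∈ P4 N, F Q Q' = ∑ Q ∈ P4 N, F Q Q +
      ∑ Q ∈ P4 N, ∑ Q' ∈ P4 N,
        (if (Q ∩ Q').card = 1 ∨ (Q ∩ Q').card = 2 ∨ (Q ∩ Q').card = 3 then F Q Q' else 0) := by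
  rw [← Finset.sum_add_distrib]
  refine Finset.sum_congr rfl fun T hT => ?_
  rw [quadSplit_mem4] at hT
  have h3 : F T T = ∑ T' ∈ P4 N, (if (T ∩ T').card = 4 then F T T' else 0) := by
    rw [Finset.sum_eq_single T]
    · rw [Finset.inter_self, if_pos hT]
    · intro T' hT' hne
      rw [quadSplit_mem4] at hT'
      rw [if_neg]
      intro h
      apply hne
      have e1 : T ∩ T' = T := Finset.eq_of_subset_of_card_le Finset.inter_subset_left (by omega)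
      have e2 : T ∩ T' = T' := Finset.eq_of_subset_of_card_le Finset.inter_subset_right (by omega)
      rw [← e2, e1]
    · intro h; exact absurd (quadSplit_mem4.2 hT) h
  rw [h3, ← Finset.sum_add_distrib]
  refine Finset.sum_congr rfl fun T' hT' => ?_
  have hle : (T ∩ T').card ≤ 4 := by
    have := Finset.card_le_card (Finset.inter_subset_left (s₁ := T) (s₂ := T'))
    omega
  rcases Nat.lt_or_ge 0 (T ∩ T').card with hpos | hz
  · have : (T ∩ T').card = 1 ∨ (T ∩ T').card = 2 ∨ (T ∩ T').card = 3 ∨ (T ∩ T').card = 4 := by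
      omega
    rcases this with h | h | h | h <;> simp [h]
  · have hz' : (T ∩ T').card = 0 := by omega
    rw [h0 T T' (Finset.card_eq_zero.1 hz')]
    simp

theorem quadSplit_dt {α β : Type*} (S : Finset α) (T : Finset β)
    (f : α → Fin N → Fin 3 → ℝ) (g : β → Fin N → Fin 3 → ℝ) (p : α → ℝ) (q : β → ℝ) :
    ∑ i, ∑ a, (∑ s ∈ S, f s i a * p s) * (∑ t ∈ T, g t i a * q t) =
      ∑ s ∈ S, ∑ t ∈ T, dt (f s) (g t) * (p s * q t) := by
  calc ∑ i, ∑ a, (∑ s ∈ S, f s i a * p s) * (∑ t ∈ T, g t i a * q t)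
      = ∑ i, ∑ a, ∑ s ∈ S, ∑ t ∈ T, (f s i a * p s) * (g t i a * q t) := by
        refine Finset.sum_congr rfl fun i _ => Finset.sum_congr rfl fun a _ => ?_
        rw [Finset.sum_mul_sum]
    _ = ∑ s ∈ S, ∑ t ∈ T, ∑ i, ∑ a, (f s i a * p s) * (g t i a * q t) := by
        rw [Finset.sum_congr rfl fun i _ => Finset.sum_comm, Finset.sum_comm]
        refine Finset.sum_congr rfl fun s _ => ?_
        rw [Finset.sum_congr rfl fun i _ => Finset.sum_comm, Finset.sum_comm]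
    _ = _ := by
        refine Finset.sum_congr rfl fun s _ => Finset.sum_congr rfl fun t _ => ?_
        unfold dt
        rw [Finset.sum_mul]
        refine Finset.sum_congr rfl fun i _ => ?_
        rw [Finset.sum_mul]
        refine Finset.sum_congr rfl fun a _ => ?_
        ring

end Comb

theorem quadSplit_int {Y : Type*} [MeasurableSpace Y] (μ : Measure Y) [IsFiniteMeasure μ]
    {ι : Type*} (S : Finset ι) (F : ι → Y → ℝ) (h : ∀ i ∈ S, BM (F i)) :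
    ∑ i ∈ S, ∫ x, F i x ∂μ = ∫ x, ∑ i ∈ S, F i x ∂μ :=
  (integral_finsetSum S fun i hi => (h i hi).integrable μ).symm

theorem quadSplit_if {Y : Type*} [MeasurableSpace Y] (μ : Measure Y) (P : Prop) [Decidable P]
    (f : Y → ℝ) :
    (if P then ∫ x, f x ∂μ else 0) = ∫ x, (if P then f x else 0) ∂μ := by
  split_ifs <;> simp

theorem quadSplit_BMif {Y : Type*} [MeasurableSpace Y] (P : Prop) [Decidable P] {f : Y → ℝ}
    (hf : BM f) :
    BM (fun x => if P then f x else 0) := by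
  split_ifs
  · exact hf
  · exact BM.const 0

theorem quadSplit_int2 {Y : Type*} [MeasurableSpace Y] (μ : Measure Y) [IsFiniteMeasure μ]
    {ι κ : Type*} (S : Finset ι) (T : Finset κ) (P : ι → κ → Prop) [∀ i j, Decidable (P i j)]
    (F : ι → κ → Y → ℝ)
    (h : ∀ i j, BM (F i j)) :
    ∑ i ∈ S, ∑ j ∈ T, (if P i j then ∫ x, F i j x ∂μ else 0) =
      ∫ x, ∑ i ∈ S, ∑ j ∈ T, (if P i j then F i j x else 0) ∂μ := by
  rw [← quadSplit_int μ S (fun i x => ∑ j ∈ T, (if P i j then F i j x else 0))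
    fun i _ => BM.sum _ fun j _ => quadSplit_BMif (P i j) (h i j)]
  refine Finset.sum_congr rfl fun i _ => ?_
  rw [← quadSplit_int μ T (fun j x => (if P i j then F i j x else 0))
    fun j _ => quadSplit_BMif (P i j) (h i j)]
  exact Finset.sum_congr rfl fun j _ => quadSplit_if _ _ _

theorem QuadSplit (hBM : S_BMall) : S_QuadSplit := by
  intro V b K R r r4 W QQ c hc p hp Ψ hΨ
  have B := fun A => hBM V b K R r r4 W QQ c hc p hp Ψ hΨ A
  have hgT : ∀ A i a, BM (gT c.φ A i a : (Fin p.N → R3) → ℝ) := fun A => (B A).1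
  have hgQ : ∀ A i a, BM (gQ c.g A i a : (Fin p.N → R3) → ℝ) := fun A => (B A).2.1
  have hsQ : ∀ A i, BM (sQ c.s A i : (Fin p.N → R3) → ℝ) := fun A => (B A).2.2.1
  have hφ : ∀ A, BM (fun x : Fin p.N → R3 => c.φ (pick 3 A x)) := fun A => (B A).2.2.2.1
  have hVT : ∀ A, BM (VT V A : (Fin p.N → R3) → ℝ) := fun A => (B A).2.2.2.2.2.2.1
  have hv3 : ∀ A, BM (p.v3 Ψ A) := fun A => (B A).2.2.2.2.2.2.2.2.2.2.2.2.2.1
  have hv4 : ∀ A, BM (p.v4 Ψ A) := fun A => (B A).2.2.2.2.2.2.2.2.2.2.2.2.2.2.1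
  have hTT : ∀ T T', BM (fun x => dt (p.fT c T x) (p.fT c T' x)) := fun T T' =>
    BM.sum _ fun i _ => BM.sum _ fun a _ => (hgT T i a).mul (hgT T' i a)
  have hTQ : ∀ T Q, BM (fun x => dt (p.fT c T x) (p.fQ c Q x)) := fun T Q =>
    BM.sum _ fun i _ => BM.sum _ fun a _ => (hgT T i a).mul (hgQ Q i a)
  have hQQ : ∀ Q Q', BM (fun x => dt (p.fQ c Q x) (p.fQ c Q' x)) := fun Q Q' =>
    BM.sum _ fun i _ => BM.sum _ fun a _ => (hgQ Q i a).mul (hgQ Q' i a)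
  have hone : BM (fun _ : Fin p.N → R3 => (1 : ℝ)) := BM.const 1
  have h1φ : ∀ A, BM (fun x : Fin p.N → R3 => 1 - c.φ (pick 3 A x)) := fun A => hone.sub (hφ A)
  -- the integrands
  have bDT : ∀ T, BM (fun x => (dt (p.fT c T x) (p.fT c T x) +
      VT V T x * (1 - c.φ (pick 3 T x)) ^ 2) * p.v3 Ψ T x ^ 2) := fun T =>
    ((hTT T T).add ((hVT T).mul ((h1φ T).pow 2))).mul ((hv3 T).pow 2)
  have bq4 : ∀ Q, BM (fun x => p.q4 V c Ψ Q x) := by
    intro Q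
    unfold Par.q4
    refine BM.add (BM.add (BM.add ?_ ?_) ?_) ?_
    · exact BM.sum _ fun l _ => BM.sum _ fun l' _ => (hTT _ _).mul ((hv3 _).mul (hv3 _))
    · exact (BM.const 2).mul (BM.sum _ fun l _ => (hTQ _ _).mul ((hv3 _).mul (hv4 _)))
    · exact (hQQ _ _).mul ((hv4 _).pow 2)
    · exact BM.sum _ fun l _ => (hVT _).mul ((((hsQ _ _).pow 2).mul ((hv4 _).pow 2)).sub
        ((((BM.const 2).mul (h1φ _)).mul (hsQ _ _)).mul ((hv3 _).mul (hv4 _))))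
  have bTT : ∀ T T', BM (fun x => dt (p.fT c T x) (p.fT c T' x) *
      (p.v3 Ψ T x * p.v3 Ψ T' x)) := fun T T' => (hTT T T').mul ((hv3 T).mul (hv3 T'))
  have bTQ : ∀ T Q, BM (fun x => dt (p.fT c T x) (p.fQ c Q x) *
      (p.v3 Ψ T x * p.v4 Ψ Q x)) := fun T Q => (hTQ T Q).mul ((hv3 T).mul (hv4 Q))
  have bQP : ∀ Q Q', BM (fun x => dt (p.fQ c Q x) (p.fQ c Q' x) *
      (p.v4 Ψ Q x * p.v4 Ψ Q' x)) := fun Q Q' => (hQQ Q Q').mul ((hv4 Q).mul (hv4 Q'))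
  have bVS : ∀ T i i', BM (fun x => VT V T x *
      (sQ c.s (insert i T) i x * sQ c.s (insert i' T) i' x) *
      (p.v4 Ψ (insert i T) x * p.v4 Ψ (insert i' T) x)) := fun T i i' =>
    ((hVT T).mul ((hsQ _ _).mul (hsQ _ _))).mul ((hv4 _).mul (hv4 _))
  have bGam : ∀ i a, BM (p.Gam c Ψ i a) := fun i a =>
    (BM.sum _ fun T _ => (hgT T i a).mul (hv3 T)).neg.sub
      (BM.sum _ fun Q _ => (hgQ Q i a).mul (hv4 Q))
  have bG2 : BM (fun x => ∑ i, ∑ a, p.Gam c Ψ i a x ^ 2) :=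
    BM.sum _ fun i _ => BM.sum _ fun a _ => (bGam i a).pow 2
  have btT : ∀ T, BM (p.tT c Ψ T) := fun T =>
    ((h1φ T).mul (hv3 T)).sub (BM.sum _ fun i _ => (hsQ _ _).mul (hv4 _))
  have bVt : ∀ T, BM (fun x => VT V T x * p.tT c Ψ T x ^ 2) := fun T =>
    (hVT T).mul ((btT T).pow 2)
  -- both sides as one integral
  have eDT : p.DT V c Ψ = ∫ x, ∑ T ∈ P3 p.N, (dt (p.fT c T x) (p.fT c T x) +
      VT V T x * (1 - c.φ (pick 3 T x)) ^ 2) * p.v3 Ψ T x ^ 2 ∂pin p.nu p.N :=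
    quadSplit_int _ _ _ fun T _ => bDT T
  have eQ4 : p.Q4 V c Ψ = ∫ x, ∑ Q ∈ P4 p.N, p.q4 V c Ψ Q x ∂pin p.nu p.N :=
    quadSplit_int _ _ _ fun Q _ => bq4 Q
  have eTT : p.TT c Ψ = ∫ x, ∑ T ∈ P3 p.N, ∑ T' ∈ P3 p.N, (if (T ∩ T').card = 1 then
      dt (p.fT c T x) (p.fT c T' x) * (p.v3 Ψ T x * p.v3 Ψ T' x) else 0) ∂pin p.nu p.N := by
    unfold Par.TT
    exact quadSplit_int2 (pin p.nu p.N) (P3 p.N) (P3 p.N) (fun T T' => (T ∩ T').card = 1) _ bTT
  have eTQ : p.TQ c Ψ = ∫ x, ∑ T ∈ P3 p.N, ∑ Q ∈ P4 p.N,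
      (if (T ∩ Q).card = 1 ∨ (T ∩ Q).card = 2 then
      dt (p.fT c T x) (p.fQ c Q x) * (p.v3 Ψ T x * p.v4 Ψ Q x) else 0) ∂pin p.nu p.N := by
    unfold Par.TQ
    exact quadSplit_int2 (pin p.nu p.N) (P3 p.N) (P4 p.N)
      (fun T Q => (T ∩ Q).card = 1 ∨ (T ∩ Q).card = 2) _ bTQ
  have eQP : p.QP c Ψ = ∫ x, ∑ Q ∈ P4 p.N, ∑ Q' ∈ P4 p.N,
      (if (Q ∩ Q').card = 1 ∨ (Q ∩ Q').card = 2 ∨ (Q ∩ Q').card = 3 then
      dt (p.fQ c Q x) (p.fQ c Q' x) * (p.v4 Ψ Q x * p.v4 Ψ Q' x) else 0) ∂pin p.nu p.N := by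
    unfold Par.QP
    exact quadSplit_int2 (pin p.nu p.N) (P4 p.N) (P4 p.N)
      (fun Q Q' => (Q ∩ Q').card = 1 ∨ (Q ∩ Q').card = 2 ∨ (Q ∩ Q').card = 3) _ bQP
  have eVS : p.VS V c Ψ = ∫ x, ∑ T ∈ P3 p.N, ∑ i ∈ Tᶜ, ∑ i' ∈ Tᶜ.erase i, VT V T x *
      (sQ c.s (insert i T) i x * sQ c.s (insert i' T) i' x) *
      (p.v4 Ψ (insert i T) x * p.v4 Ψ (insert i' T) x) ∂pin p.nu p.N := by
    unfold Par.VS
    rw [← quadSplit_int _ _ _ fun T _ => BM.sum _ fun i _ => BM.sum _ fun i' _ => bVS T i i']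
    refine Finset.sum_congr rfl fun T _ => ?_
    rw [← quadSplit_int _ _ _ fun i _ => BM.sum _ fun i' _ => bVS T i i']
    refine Finset.sum_congr rfl fun i _ => ?_
    exact quadSplit_int _ _ _ fun i' _ => bVS T i i'
  have eQuad : p.Quad V c Ψ = ∫ x, (∑ i, ∑ a, p.Gam c Ψ i a x ^ 2 +
      ∑ T ∈ P3 p.N, VT V T x * p.tT c Ψ T x ^ 2) ∂pin p.nu p.N := by
    unfold Par.Quad
    rw [integral_add (bG2.integrable _) ((BM.sum _ fun T _ => bVt T).integrable _)]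
    congr 1
    exact quadSplit_int _ _ _ fun T _ => bVt T
  have bS1 := BM.sum (P3 p.N) fun T _ => bDT T
  have bS2 := BM.sum (P4 p.N) fun T _ => bq4 T
  have bS3 := BM.sum (P3 p.N) fun T _ => BM.sum (P3 p.N) fun T' _ =>
    quadSplit_BMif ((T ∩ T').card = 1) (bTT T T')
  have bS4 := BM.sum (P3 p.N) fun T _ => BM.sum (P4 p.N) fun T' _ =>
    quadSplit_BMif ((T ∩ T').card = 1 ∨ (T ∩ T').card = 2) (bTQ T T')
  have bS5 := BM.sum (P4 p.N) fun T _ => BM.sum (P4 p.N) fun T' _ =>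
    quadSplit_BMif ((T ∩ T').card = 1 ∨ (T ∩ T').card = 2 ∨ (T ∩ T').card = 3) (bQP T T')
  have bS6 := BM.sum (P3 p.N) fun T _ => BM.sum Tᶜ fun i _ => BM.sum (Tᶜ.erase i) fun i' _ =>
    bVS T i i'
  have hsum : ∀ (f1 f2 f3 f4 f5 f6 : (Fin p.N → R3) → ℝ), BM f1 → BM f2 → BM f3 → BM f4 → BM f5 →
      BM f6 → ∫ x, f1 x ∂pin p.nu p.N + ∫ x, f2 x ∂pin p.nu p.N + ∫ x, f3 x ∂pin p.nu p.N +
        2 * ∫ x, f4 x ∂pin p.nu p.N + ∫ x, f5 x ∂pin p.nu p.N + ∫ x, f6 x ∂pin p.nu p.N =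
        ∫ x, (f1 x + f2 x + f3 x + 2 * f4 x + f5 x + f6 x) ∂pin p.nu p.N := by
    intro f1 f2 f3 f4 f5 f6 h1 h2 h3 h4 h5 h6
    rw [integral_add (((((h1.add h2).add h3).add (h4.const_mul 2)).add h5).integrable _)
        (h6.integrable _),
      integral_add ((((h1.add h2).add h3).add (h4.const_mul 2)).integrable _) (h5.integrable _),
      integral_add (((h1.add h2).add h3).integrable _) ((h4.const_mul 2).integrable _),
      integral_add ((h1.add h2).integrable _) (h3.integrable _),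
      integral_add (h1.integrable _) (h2.integrable _), integral_const_mul]
  rw [eDT, eQ4, eTT, eTQ, eQP, eVS, eQuad, hsum _ _ _ _ _ _ bS1 bS2 bS3 bS4 bS5 bS6]
  refine integral_congr_ae (Filter.Eventually.of_forall fun x => ?_)
  simp only
  -- pointwise identity
  have zT : ∀ (T : Finset (Fin p.N)) (i : Fin p.N), i ∉ T → ∀ a, p.fT c T x i a = 0 := by
    intro T i hi a
    by_contra h
    exact hi (kerBd_mem T (fun m => pd c.φ m a (pick 3 T x)) i h)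
  have zQ : ∀ (T : Finset (Fin p.N)) (i : Fin p.N), i ∉ T → ∀ a, p.fQ c T x i a = 0 := by
    intro T i hi a
    by_contra h
    exact hi (kerBd_mem T (fun m => c.g m a (pick 4 T x)) i h)
  have hGam : ∑ i, ∑ a, p.Gam c Ψ i a x ^ 2 =
      ∑ T ∈ P3 p.N, ∑ T' ∈ P3 p.N, dt (p.fT c T x) (p.fT c T' x) * (p.v3 Ψ T x * p.v3 Ψ T' x) +
      2 * ∑ T ∈ P3 p.N, ∑ Q ∈ P4 p.N, dt (p.fT c T x) (p.fQ c Q x) *
        (p.v3 Ψ T x * p.v4 Ψ Q x) +
      ∑ Q ∈ P4 p.N, ∑ Q' ∈ P4 p.N, dt (p.fQ c Q x) (p.fQ c Q' x) *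
        (p.v4 Ψ Q x * p.v4 Ψ Q' x) := by
    rw [← quadSplit_dt (P3 p.N) (P3 p.N) (fun T => p.fT c T x) (fun T => p.fT c T x),
      ← quadSplit_dt (P3 p.N) (P4 p.N) (fun T => p.fT c T x) (fun T => p.fQ c T x),
      ← quadSplit_dt (P4 p.N) (P4 p.N) (fun T => p.fQ c T x) (fun T => p.fQ c T x),
      Finset.mul_sum, ← Finset.sum_add_distrib, ← Finset.sum_add_distrib]
    refine Finset.sum_congr rfl fun i _ => ?_
    rw [Finset.mul_sum, ← Finset.sum_add_distrib, ← Finset.sum_add_distrib]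
    refine Finset.sum_congr rfl fun a _ => ?_
    unfold Par.Gam Par.fT Par.fQ
    ring
  have hV : ∑ T ∈ P3 p.N, VT V T x * p.tT c Ψ T x ^ 2 =
      ∑ T ∈ P3 p.N, VT V T x * (1 - c.φ (pick 3 T x)) ^ 2 * p.v3 Ψ T x ^ 2 +
      ∑ Q ∈ P4 p.N, ∑ l ∈ Q, VT V (Q.erase l) x * (sQ c.s Q l x ^ 2 * p.v4 Ψ Q x ^ 2
        - 2 * (1 - c.φ (pick 3 (Q.erase l) x)) * sQ c.s Q l x *
        (p.v3 Ψ (Q.erase l) x * p.v4 Ψ Q x)) +
      ∑ T ∈ P3 p.N, ∑ i ∈ Tᶜ, ∑ i' ∈ Tᶜ.erase i, VT V T x *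
      (sQ c.s (insert i T) i x * sQ c.s (insert i' T) i' x) *
      (p.v4 Ψ (insert i T) x * p.v4 Ψ (insert i' T) x) := by
    have e1 : ∑ Q ∈ P4 p.N, ∑ l ∈ Q, VT V (Q.erase l) x * (sQ c.s Q l x ^ 2 * p.v4 Ψ Q x ^ 2
        - 2 * (1 - c.φ (pick 3 (Q.erase l) x)) * sQ c.s Q l x *
        (p.v3 Ψ (Q.erase l) x * p.v4 Ψ Q x)) =
        ∑ T ∈ P3 p.N, ∑ i ∈ Tᶜ, VT V T x * (sQ c.s (insert i T) i x ^ 2 *
          p.v4 Ψ (insert i T) x ^ 2 - 2 * (1 - c.φ (pick 3 T x)) * sQ c.s (insert i T) i x *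
          (p.v3 Ψ T x * p.v4 Ψ (insert i T) x)) := by
      rw [quadSplit_L4]
      refine Finset.sum_congr rfl fun Q _ => Finset.sum_congr rfl fun l hl => ?_
      rw [Finset.insert_erase hl]
    rw [e1, ← Finset.sum_add_distrib, ← Finset.sum_add_distrib]
    refine Finset.sum_congr rfl fun T _ => ?_
    unfold Par.tT
    set y : Fin p.N → ℝ := fun i => sQ c.s (insert i T) i x * p.v4 Ψ (insert i T) x with hy
    have e2 : (∑ i ∈ Tᶜ, y i) ^ 2 = ∑ i ∈ Tᶜ, y i ^ 2 + ∑ i ∈ Tᶜ, ∑ i' ∈ Tᶜ.erase i, y i * y i' := by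
      rw [sq, Finset.sum_mul_sum, ← Finset.sum_add_distrib]
      refine Finset.sum_congr rfl fun i hi => ?_
      rw [← Finset.add_sum_erase _ _ hi, sq]
    have e3 : ∑ i ∈ Tᶜ, ∑ i' ∈ Tᶜ.erase i, VT V T x *
        (sQ c.s (insert i T) i x * sQ c.s (insert i' T) i' x) *
        (p.v4 Ψ (insert i T) x * p.v4 Ψ (insert i' T) x) =
        VT V T x * ∑ i ∈ Tᶜ, ∑ i' ∈ Tᶜ.erase i, y i * y i' := by
      rw [Finset.mul_sum]
      refine Finset.sum_congr rfl fun i _ => ?_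
      rw [Finset.mul_sum]
      refine Finset.sum_congr rfl fun i' _ => ?_
      simp only [hy]; ring
    have e4 : ∑ i ∈ Tᶜ, VT V T x * (sQ c.s (insert i T) i x ^ 2 *
          p.v4 Ψ (insert i T) x ^ 2 - 2 * (1 - c.φ (pick 3 T x)) * sQ c.s (insert i T) i x *
          (p.v3 Ψ T x * p.v4 Ψ (insert i T) x)) =
        VT V T x * ∑ i ∈ Tᶜ, y i ^ 2 -
          2 * VT V T x * (1 - c.φ (pick 3 T x)) * p.v3 Ψ T x * ∑ i ∈ Tᶜ, y i := by
      rw [Finset.mul_sum, Finset.mul_sum, ← Finset.sum_sub_distrib]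
      refine Finset.sum_congr rfl fun i _ => ?_
      simp only [hy]; ring
    rw [e3, e4]
    have e5 : (∑ i ∈ Tᶜ, sQ c.s (insert i T) i x * p.v4 Ψ (insert i T) x) = ∑ i ∈ Tᶜ, y i := rfl
    rw [e5]
    have e6 : VT V T x * ((1 - c.φ (pick 3 T x)) * p.v3 Ψ T x - ∑ i ∈ Tᶜ, y i) ^ 2 =
        VT V T x * (1 - c.φ (pick 3 T x)) ^ 2 * p.v3 Ψ T x ^ 2 -
        2 * VT V T x * (1 - c.φ (pick 3 T x)) * p.v3 Ψ T x * ∑ i ∈ Tᶜ, y i +
        VT V T x * (∑ i ∈ Tᶜ, y i) ^ 2 := by ring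
    rw [e6, e2]
    ring
  have d0 : ∀ (f g : Fin p.N → Fin 3 → ℝ) (S T : Finset (Fin p.N)), (∀ i ∉ S, ∀ a, f i a = 0) →
      (∀ i ∉ T, ∀ a, g i a = 0) → S ∩ T = ∅ → dt f g = 0 := by
    intro f g S T hf hg hST
    unfold dt
    refine Finset.sum_eq_zero fun i _ => Finset.sum_eq_zero fun a _ => ?_
    by_cases hS : i ∈ S
    · have : i ∉ T := fun hT => by
        have : i ∈ S ∩ T := Finset.mem_inter.2 ⟨hS, hT⟩
        rw [hST] at this
        exact absurd this (Finset.notMem_empty i)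
      rw [hg i this a, mul_zero]
    · rw [hf i hS a, zero_mul]
  rw [hGam, hV,
    quadSplit_L1 (fun T T' => dt (p.fT c T x) (p.fT c T' x) * (p.v3 Ψ T x * p.v3 Ψ T' x))
      (fun T T' h => by rw [d0 _ _ T T' (zT T) (zT T') h, zero_mul]),
    quadSplit_L2 (fun T Q => dt (p.fT c T x) (p.fQ c Q x) * (p.v3 Ψ T x * p.v4 Ψ Q x))
      (fun T T' h => by rw [d0 _ _ T T' (zT T) (zQ T') h, zero_mul]),
    quadSplit_L3 (fun Q Q' => dt (p.fQ c Q x) (p.fQ c Q' x) * (p.v4 Ψ Q x * p.v4 Ψ Q' x))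
      (fun T T' h => by rw [d0 _ _ T T' (zQ T) (zQ T') h, zero_mul])]
  have f1 : ∑ T ∈ P3 p.N, (dt (p.fT c T x) (p.fT c T x) +
      VT V T x * (1 - c.φ (pick 3 T x)) ^ 2) * p.v3 Ψ T x ^ 2 =
      ∑ T ∈ P3 p.N, dt (p.fT c T x) (p.fT c T x) * (p.v3 Ψ T x * p.v3 Ψ T x) +
      ∑ T ∈ P3 p.N, VT V T x * (1 - c.φ (pick 3 T x)) ^ 2 * p.v3 Ψ T x ^ 2 := by
    rw [← Finset.sum_add_distrib]
    refine Finset.sum_congr rfl fun T _ => ?_
    ring
  have f2 : ∑ Q ∈ P4 p.N, p.q4 V c Ψ Q x =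
      ∑ Q ∈ P4 p.N, ∑ l ∈ Q, ∑ l' ∈ Q.erase l, dt (p.fT c (Q.erase l) x) (p.fT c (Q.erase l') x) *
        (p.v3 Ψ (Q.erase l) x * p.v3 Ψ (Q.erase l') x) +
      2 * ∑ Q ∈ P4 p.N, ∑ l ∈ Q, dt (p.fT c (Q.erase l) x) (p.fQ c Q x) *
        (p.v3 Ψ (Q.erase l) x * p.v4 Ψ Q x) +
      ∑ Q ∈ P4 p.N, dt (p.fQ c Q x) (p.fQ c Q x) * (p.v4 Ψ Q x * p.v4 Ψ Q x) +
      ∑ Q ∈ P4 p.N, ∑ l ∈ Q, VT V (Q.erase l) x * (sQ c.s Q l x ^ 2 * p.v4 Ψ Q x ^ 2
        - 2 * (1 - c.φ (pick 3 (Q.erase l) x)) * sQ c.s Q l x *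
        (p.v3 Ψ (Q.erase l) x * p.v4 Ψ Q x)) := by
    rw [Finset.mul_sum, ← Finset.sum_add_distrib, ← Finset.sum_add_distrib,
      ← Finset.sum_add_distrib]
    refine Finset.sum_congr rfl fun Q _ => ?_
    unfold Par.q4
    ring
  rw [f1, f2]
  ring

end Pool.Agent.Lib.MP_5db8e2_mp
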