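import Pool.Agent.Lib.MP_5db8e2_mp.LB.Spec1
import Pool.Agent.Lib.MP_5db8e2_mp.LB.Spec2

/-!
# The rough part of the linear term of the four-body charge
-/

set_option autoImplicit false

open MeasureTheory Function Finset
open scoped Classical

namespace Pool.Agent.Lib.MP_5db8e2_mp

namespace RoughQaux

variable {N : ℕ}

/-- product of the indicators -/
noncomputable def II (Q : Set R3) (A : Finset (Fin N)) (x : Fin N → R3) : ℝ :=
  ∏ j ∈ A, ind Q (x j)

theorem II_nonneg (Q : Set R3) (A : Finset (Fin N)) (x : Fin N → R3) : 0 ≤ II Q A x :=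
  Finset.prod_nonneg fun _ _ => ind_nonneg _ _

theorem II_one {Q : Set R3} {A : Finset (Fin N)} {x : Fin N → R3} (h : ∀ j ∈ A, x j ∈ Q) :
    II Q A x = 1 := Finset.prod_eq_one fun j hj => ind_of_mem (h j hj)

theorem II_zero {Q : Set R3} {A : Finset (Fin N)} {x : Fin N → R3} (h : ¬ ∀ j ∈ A, x j ∈ Q) :
    II Q A x = 0 := by
  push Not at h
  obtain ⟨j, hj, hx⟩ := h
  exact Finset.prod_eq_zero hj (ind_of_notMem hx)

theorem II_bm {Q : Set R3} (hQ : MeasurableSet Q) (A : Finset (Fin N)) : BM (II Q A) :=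
  BM_prod_ind hQ A

theorem dep_mono {f : (Fin N → R3) → ℝ} {S S' : Set (Fin N)} (hf : DependsOn f S) (h : S ⊆ S') :
    DependsOn f S' := fun _ _ hxy => hf fun i hi => hxy i (h hi)

theorem cnt_split {Q : Set R3} {S A : Finset (Fin N)} (hAS : A ⊆ S) {x : Fin N → R3}
    (h : ∀ j ∈ A, x j ∈ Q) : cnt Q S x = cnt Q (S \ A) x + A.card := by
  unfold cnt
  have h1 : S.filter (fun j => x j ∈ Q) = (S \ A).filter (fun j => x j ∈ Q) ∪ A := by
    ext j
    simp only [Finset.mem_filter, Finset.mem_union, Finset.mem_sdiff]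
    constructor
    · rintro ⟨h1, h2⟩
      by_cases hj : j ∈ A
      · exact Or.inr hj
      · exact Or.inl ⟨⟨h1, hj⟩, h2⟩
    · rintro (⟨⟨h1, -⟩, h2⟩ | hj)
      · exact ⟨h1, h2⟩
      · exact ⟨hAS hj, h j hj⟩
  rw [h1, Finset.card_union_of_disjoint]
  exact Finset.disjoint_left.2 fun j hj hA => (Finset.mem_sdiff.1 (Finset.mem_filter.1 hj).1).2 hA

theorem cnt_mono {Q B : Set R3} (h : Q ⊆ B) (S : Finset (Fin N)) (x : Fin N → R3) :
    cnt Q S x ≤ cnt B S x :=
  Finset.card_le_card fun _ hj => Finset.mem_filter.2 ⟨(Finset.mem_filter.1 hj).1,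
    h (Finset.mem_filter.1 hj).2⟩

variable {ν : Measure R3} [IsFiniteMeasure ν] {m : ℝ} {g : R3 → ℝ} {Q B : Set R3}

/-- smoothing over a set of variables -/
theorem smooth (hL : S_L2Q) (h : Wd ν m g Q B) {f : (Fin N → R3) → ℝ} (hf : BM f)
    (A : Finset (Fin N)) : ∀ (w : (Fin N → R3) → ℝ), BM w → (∀ x, 0 ≤ w x) →
      DependsOn w ((A : Set (Fin N))ᶜ) →
      ∫ x, w x * (II Q A x * (f x - av ν g A f x) ^ 2) ∂pin ν N
        ≤ 16 ^ A.card / 8 * ∑ j ∈ A, ∫ x, w x * (II Q A x * rough ν g j f x ^ 2) ∂pin ν N := by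
  induction A using Finset.induction_on with
  | empty =>
    intro w _ _ _
    have h1 : av ν g (∅ : Finset (Fin N)) f = f := Mg_empty f
    simp [h1]
  | insert i A hi ih =>
    intro w hw hw0 hwd
    have hiA : Disjoint {i} A := Finset.disjoint_singleton_left.mpr hi
    have hQ := h.Q_meas
    have hIA : ∀ x : Fin N → R3, II Q (insert i A) x = ind Q (x i) * II Q A x := fun x =>
      Finset.prod_insert hi
    have hD : BM (fun x => f x - av ν g A f x) := hf.sub (av_bm h hf)
    -- decomposition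
    have hdec : ∀ x, f x - av ν g (insert i A) f x
        = rough ν g i f x + av ν g {i} (fun y => f y - av ν g A f y) x := by
      intro x
      rw [Finset.insert_eq, av_union h hf hiA, av_sub h hf (av_bm h hf)]
      unfold rough
      ring
    have hw1 : BM (fun x => w x * II Q A x) := hw.mul (II_bm hQ A)
    have hw2 : BM (fun x : Fin N → R3 => w x * ind Q (x i)) := hw.mul (BM_ind_at hQ i)
    -- L2Q for the variable i
    have h1 := hL ν m g Q B h (fun y => f y - av ν g A f y) (fun x => w x * II Q A x) hD hw1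
      (fun x => mul_nonneg (hw0 x) (II_nonneg Q A x)) {i} (by
        intro x y hxy
        have hx : ∀ j ∈ ((({i} : Finset (Fin N)) : Set (Fin N)))ᶜ, x j = y j := hxy
        have e1 : w x = w y := hwd fun j hj => hx j (by
          simp only [Finset.coe_insert, Set.mem_compl_iff, Set.mem_insert_iff] at hj
          push Not at hj
          simpa using hj.1)
        have e2 : II Q A x = II Q A y := by
          unfold II
          refine Finset.prod_congr rfl fun j hj => ?_
          rw [hx j (by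
            have : j ≠ i := fun e => hi (e ▸ hj)
            simpa using this)]
        show w x * II Q A x = w y * II Q A y
        rw [e1, e2])
    have h2 := ih (fun x => w x * ind Q (x i)) hw2
      (fun x => mul_nonneg (hw0 x) (ind_nonneg _ _)) (by
        intro x y hxy
        have e1 : w x = w y := hwd fun j hj => hxy j (by
          simp only [Finset.coe_insert, Set.mem_compl_iff, Set.mem_insert_iff] at hj
          push Not at hj
          simpa using hj.2)
        have e2 : x i = y i := hxy i (by simpa using hi)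
        show w x * ind Q (x i) = w y * ind Q (y i)
        rw [e1, e2])
    -- pointwise bound
    have hR : BM (rough ν g i f) := rough_bm h hf i
    have hP : BM (av ν g {i} (fun y => f y - av ν g A f y)) := av_bm h hD
    have hI : BM (fun x : Fin N → R3 => w x * II Q (insert i A) x) := hw.mul (II_bm hQ _)
    have h3 : ∫ x, w x * (II Q (insert i A) x * (f x - av ν g (insert i A) f x) ^ 2) ∂pin ν N
        ≤ ∫ x, (2 * (w x * (II Q (insert i A) x * rough ν g i f x ^ 2))
          + 2 * ((w x * II Q A x) * ((∏ j ∈ ({i} : Finset (Fin N)), ind Q (x j)) *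
            (av ν g {i} (fun y => f y - av ν g A f y) x) ^ 2))) ∂pin ν N := by
      apply integral_mono
      · exact BM.integrable (hw.mul ((II_bm hQ _).mul ((hf.sub (av_bm h hf)).pow 2))) _
      · exact BM.integrable (((hw.mul ((II_bm hQ _).mul (hR.pow 2))).const_mul 2).add
          (((hw1.mul ((BM_prod_ind hQ _).mul (hP.pow 2)))).const_mul 2)) _
      · intro x
        simp only [Finset.prod_singleton]
        rw [hdec x, hIA x]
        have e0 : 0 ≤ w x * (ind Q (x i) * II Q A x) :=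
          mul_nonneg (hw0 x) (mul_nonneg (ind_nonneg _ _) (II_nonneg _ _ _))
        nlinarith [mul_nonneg e0 (sq_nonneg (rough ν g i f x
          - av ν g {i} (fun y => f y - av ν g A f y) x))]
    have h4 : ∫ x, (2 * (w x * (II Q (insert i A) x * rough ν g i f x ^ 2))
          + 2 * ((w x * II Q A x) * ((∏ j ∈ ({i} : Finset (Fin N)), ind Q (x j)) *
            (av ν g {i} (fun y => f y - av ν g A f y) x) ^ 2))) ∂pin ν N
        = 2 * ∫ x, w x * (II Q (insert i A) x * rough ν g i f x ^ 2) ∂pin ν N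
          + 2 * ∫ x, (w x * II Q A x) * ((∏ j ∈ ({i} : Finset (Fin N)), ind Q (x j)) *
            (av ν g {i} (fun y => f y - av ν g A f y) x) ^ 2) ∂pin ν N := by
      rw [integral_add (BM.integrable ((hw.mul ((II_bm hQ _).mul (hR.pow 2))).const_mul 2) _)
        (BM.integrable ((hw1.mul ((BM_prod_ind hQ _).mul (hP.pow 2))).const_mul 2) _),
        integral_const_mul, integral_const_mul]
    have h5 : ∫ x, (w x * II Q A x) * ((∏ j ∈ ({i} : Finset (Fin N)), ind Q (x j)) *
            (f x - av ν g A f x) ^ 2) ∂pin ν N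
        = ∫ x, (w x * ind Q (x i)) * (II Q A x * (f x - av ν g A f x) ^ 2) ∂pin ν N := by
      congr 1
      ext1 x
      rw [Finset.prod_singleton]
      ring
    have h6 : ∀ j, ∫ x, (w x * ind Q (x i)) * (II Q A x * rough ν g j f x ^ 2) ∂pin ν N
        = ∫ x, w x * (II Q (insert i A) x * rough ν g j f x ^ 2) ∂pin ν N := by
      intro j
      congr 1
      ext1 x
      rw [hIA x]
      ring
    rw [h5] at h1
    simp only [h6] at h2
    rw [Finset.sum_insert hi, Finset.card_insert_of_notMem hi]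
    have h7 : 0 ≤ ∫ x, w x * (II Q (insert i A) x * rough ν g i f x ^ 2) ∂pin ν N :=
      integral_nonneg fun x => mul_nonneg (hw0 x) (mul_nonneg (II_nonneg _ _ _) (sq_nonneg _))
    have h8 : (1 : ℝ) ≤ 16 ^ A.card := one_le_pow₀ (by norm_num)
    simp only [Finset.card_singleton, pow_one] at h1
    rw [pow_succ]
    nlinarith

end RoughQaux

open RoughQaux

theorem RoughQ (hL : S_L2Q) (hC : S_CountK) : S_RoughQ := by
  intro N ν _ m g Q B h Ψ hΨ lam hlam hanti W hW hWd ω hω hWs hWω c3 c4 hc3 hc4 τ hτ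
  have hQ := h.Q_meas
  have hm : 0 < m := lt_of_lt_of_le one_pos h.hm
  set x0 : Fin N → R3 := fun _ => 0 with hx0
  -- abbreviations
  have hl : ∀ A : Finset (Fin N), BM (fun x => lam (cnt B Aᶜ x)) := fun A =>
    BM_cnt_comp h.B_meas Aᶜ lam
  have hld : ∀ A : Finset (Fin N), DependsOn (fun x : Fin N → R3 => lam (cnt B Aᶜ x))
      ((A : Set (Fin N))ᶜ) := by
    intro A x y hxy
    have := cnt_dep B Aᶜ (x := x) (y := y) (by
      intro i hi
      exact hxy i (by simpa using hi))
    show lam (cnt B Aᶜ x) = lam (cnt B Aᶜ y)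
    rw [show cnt B Aᶜ x = cnt B Aᶜ y from this]
  have hU : ∀ A : Finset (Fin N), BM (av ν g A Ψ) := fun A => av_bm h hΨ
  -- one set
  have one : ∀ A ∈ powersetCard 4 (univ : Finset (Fin N)),
      |∫ x, W A x * (lam (cnt B Aᶜ x) * av ν g A Ψ x * (Ψ x - av ν g A Ψ x)) ∂pin ν N|
        ≤ τ * 4096 * ∑ j ∈ A, ∫ x, lam (cnt B Aᶜ x) * (II Q A x * rough ν g j Ψ x ^ 2) ∂pin ν N
          + τ⁻¹ / 2 * (ω * (1 / m) ^ 4) *
            ∫ x, lam (cnt B Aᶜ x) * (II Q A x * Ψ x ^ 2) ∂pin ν N := by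
    intro A hA
    have hcard : A.card = 4 := (Finset.mem_powersetCard.1 hA).2
    have hpt : ∀ x, |W A x * (lam (cnt B Aᶜ x) * av ν g A Ψ x * (Ψ x - av ν g A Ψ x))|
        ≤ τ / 2 * (lam (cnt B Aᶜ x) * (II Q A x * (Ψ x - av ν g A Ψ x) ^ 2))
          + τ⁻¹ / 2 * (W A x ^ 2 * (lam (cnt B Aᶜ x) * av ν g A Ψ x ^ 2)) := by
      intro x
      have hlx := hlam (cnt B Aᶜ x)
      by_cases hW0 : W A x = 0
      · rw [hW0]
        simp only [zero_mul, abs_zero]
        have h1 := II_nonneg Q A x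
        positivity
      · rw [II_one (hWs A x hW0)]
        generalize lam (cnt B Aᶜ x) = l at hlx
        generalize av ν g A Ψ x = U
        generalize W A x = V
        generalize Ψ x - U = r
        have e1 : |V * (l * U * r)| = l * (|V * U| * |r|) := by
          rw [abs_mul, abs_mul, abs_mul, abs_mul, abs_of_nonneg hlx]; ring
        have e2 : |V * U| * |r| ≤ τ / 2 * r ^ 2 + τ⁻¹ / 2 * (V * U) ^ 2 := by
          rw [← sq_abs r, ← sq_abs (V * U)]
          generalize |V * U| = p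
          generalize |r| = q
          have e3 : 0 ≤ (τ * q - p) ^ 2 * τ⁻¹ := mul_nonneg (sq_nonneg _) (inv_nonneg.2 hτ.le)
          have e4 : (τ * q - p) ^ 2 * τ⁻¹ = τ * q ^ 2 - 2 * (p * q) + τ⁻¹ * p ^ 2 := by
            field_simp
            ring
          linarith
        rw [e1]
        calc l * (|V * U| * |r|) ≤ l * (τ / 2 * r ^ 2 + τ⁻¹ / 2 * (V * U) ^ 2) :=
              mul_le_mul_of_nonneg_left e2 hlx
          _ = _ := by ring
    have hb1 : BM (fun x => lam (cnt B Aᶜ x) * (II Q A x * (Ψ x - av ν g A Ψ x) ^ 2)) :=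
      (hl A).mul ((II_bm hQ A).mul ((hΨ.sub (hU A)).pow 2))
    have hb2 : BM (fun x => W A x ^ 2 * (lam (cnt B Aᶜ x) * av ν g A Ψ x ^ 2)) :=
      ((hW A).pow 2).mul ((hl A).mul ((hU A).pow 2))
    have s1 : |∫ x, W A x * (lam (cnt B Aᶜ x) * av ν g A Ψ x * (Ψ x - av ν g A Ψ x)) ∂pin ν N|
        ≤ τ / 2 * ∫ x, lam (cnt B Aᶜ x) * (II Q A x * (Ψ x - av ν g A Ψ x) ^ 2) ∂pin ν N
          + τ⁻¹ / 2 * ∫ x, W A x ^ 2 * (lam (cnt B Aᶜ x) * av ν g A Ψ x ^ 2) ∂pin ν N := by
      refine (abs_integral_le_integral_abs).trans ?_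
      rw [← integral_const_mul, ← integral_const_mul,
        ← integral_add ((hb1.const_mul _).integrable _) ((hb2.const_mul _).integrable _)]
      apply integral_mono
      · exact ((hW A).mul (((hl A).mul (hU A)).mul (hΨ.sub (hU A)))).abs.integrable _
      · exact ((hb1.const_mul _).add (hb2.const_mul _)).integrable _
      · exact hpt
    have s2 := smooth hL h hΨ A (fun x => lam (cnt B Aᶜ x)) (hl A) (fun x => hlam _) (hld A)
    rw [hcard] at s2
    have s3 : ∫ x, W A x ^ 2 * (lam (cnt B Aᶜ x) * av ν g A Ψ x ^ 2) ∂pin ν N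
        ≤ ω * (1 / m) ^ 4 * ∫ x, lam (cnt B Aᶜ x) * (II Q A x * Ψ x ^ 2) ∂pin ν N := by
      have d1 : DependsOn (fun x => lam (cnt B Aᶜ x) * av ν g A Ψ x ^ 2)
          ((A : Set (Fin N))ᶜ) := by
        intro x y hxy
        have e1 := hld A hxy
        have e2 := av_dep (ν := ν) (g := g) (A := A) Ψ hxy
        show lam (cnt B Aᶜ x) * av ν g A Ψ x ^ 2 = lam (cnt B Aᶜ y) * av ν g A Ψ y ^ 2
        rw [show lam (cnt B Aᶜ x) = lam (cnt B Aᶜ y) from e1, e2]
      rw [integral_eq_out hb2 x0 A, Mg_mul_right _ d1]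
      have t1 : out ν x0 A (fun x => Mg ν A (fun y => W A y ^ 2) x *
          (lam (cnt B Aᶜ x) * av ν g A Ψ x ^ 2))
          ≤ out ν x0 A (fun x => ω * (lam (cnt B Aᶜ x) * av ν g A Ψ x ^ 2)) := by
        apply out_mono
        · exact (Mg_bm ((hW A).pow 2)).mul ((hl A).mul ((hU A).pow 2))
        · exact ((hl A).mul ((hU A).pow 2)).const_mul _
        · intro x
          exact mul_le_mul_of_nonneg_right (hWω A hA x)
            (mul_nonneg (hlam _) (sq_nonneg _))
      have t2 : out ν x0 A (fun x => ω * (lam (cnt B Aᶜ x) * av ν g A Ψ x ^ 2))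
          = ω * out ν x0 A (fun x => lam (cnt B Aᶜ x) * av ν g A Ψ x ^ 2) := by
        unfold out
        rw [Mg_const_mul]
      have t3 := out_av_sq_le (A := A) h hΨ (hl A) (fun x => hlam _) (hld A) x0
      rw [hcard] at t3
      calc _ ≤ _ := t1
        _ = _ := t2
        _ ≤ ω * ((1 / m) ^ 4 * ∫ x, lam (cnt B Aᶜ x) * (II Q A x * Ψ x ^ 2) ∂pin ν N) :=
            mul_le_mul_of_nonneg_left t3 hω
        _ = _ := by ring
    have hτ' : 0 ≤ τ⁻¹ / 2 := by positivity
    calc _ ≤ _ := s1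
      _ ≤ τ / 2 * (16 ^ 4 / 8 *
            ∑ j ∈ A, ∫ x, lam (cnt B Aᶜ x) * (II Q A x * rough ν g j Ψ x ^ 2) ∂pin ν N)
          + τ⁻¹ / 2 * (ω * (1 / m) ^ 4 *
            ∫ x, lam (cnt B Aᶜ x) * (II Q A x * Ψ x ^ 2) ∂pin ν N) :=
          add_le_add (mul_le_mul_of_nonneg_left s2 (by positivity))
            (mul_le_mul_of_nonneg_left s3 hτ')
      _ = _ := by norm_num; ring
  -- summation, smooth part
  have hc4' : 0 ≤ c4 := by
    have h1 := hc4 0
    have h2 := hlam 0
    norm_num at h1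
    nlinarith
  have hc3' : 0 ≤ c3 := le_trans (by have := hlam 0; positivity) (hc3 0)
  have sumN : ∑ A ∈ powersetCard 4 (univ : Finset (Fin N)),
      ∫ x, lam (cnt B Aᶜ x) * (II Q A x * Ψ x ^ 2) ∂pin ν N ≤ c4 * Nw ν Q Ψ := by
    rw [← integral_finsetSum _ fun A _ =>
      (((hl A).mul ((II_bm hQ A).mul (hΨ.pow 2)))).integrable _]
    unfold Nw
    rw [← integral_const_mul]
    apply integral_mono
    · exact (BM.sum _ fun A _ => (hl A).mul ((II_bm hQ A).mul (hΨ.pow 2))).integrable _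
    · exact (((BM_cnt hQ _).mul (hΨ.pow 2)).const_mul _).integrable _
    · intro x
      show ∑ A ∈ powersetCard 4 (univ : Finset (Fin N)), lam (cnt B Aᶜ x) * (II Q A x * Ψ x ^ 2)
        ≤ c4 * ((cnt Q univ x : ℝ) * Ψ x ^ 2)
      have e1 : ∀ A ∈ powersetCard 4 (univ : Finset (Fin N)),
          lam (cnt B Aᶜ x) * (II Q A x * Ψ x ^ 2)
            ≤ lam (cnt Q univ x - 4) * Ψ x ^ 2 * II Q A x := by
        intro A hA
        by_cases hx : ∀ j ∈ A, x j ∈ Q
        · have e2 := cnt_split (Finset.subset_univ A) hx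
          rw [(Finset.mem_powersetCard.1 hA).2, ← Finset.compl_eq_univ_sdiff] at e2
          have e3 : lam (cnt B Aᶜ x) ≤ lam (cnt Q univ x - 4) := hanti (by
            have := cnt_mono h.Q_sub Aᶜ x
            omega)
          have e4 : 0 ≤ II Q A x * Ψ x ^ 2 := mul_nonneg (II_nonneg _ _ _) (sq_nonneg _)
          nlinarith [mul_le_mul_of_nonneg_right e3 e4]
        · rw [II_zero hx]; simp
      refine (Finset.sum_le_sum e1).trans ?_
      rw [← Finset.mul_sum]
      have e5 := hC Q (univ : Finset (Fin N)) 4 x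
      unfold II
      rw [e5]
      have e6 : lam (cnt Q univ x - 4) * ((cnt Q univ x).choose 4 : ℝ) ≤ c4 * (cnt Q univ x) := by
        generalize cnt Q univ x = n
        rcases Nat.lt_or_ge n 4 with hn | hn
        · rw [Nat.choose_eq_zero_of_lt hn]
          simp only [Nat.cast_zero, mul_zero]
          positivity
        · obtain ⟨k, rfl⟩ := Nat.exists_eq_add_of_le' hn
          have e7 := hc4 k
          have e8 : (((k + 4).choose 4 : ℕ) : ℝ) ≤ (((k + 4) ^ 4 : ℕ) : ℝ) :=
            Nat.cast_le.2 (Nat.choose_le_pow _ _)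
          rw [Nat.add_sub_cancel]
          push_cast at e7 e8 ⊢
          nlinarith [mul_le_mul_of_nonneg_left e8 (hlam k)]
      nlinarith [mul_le_mul_of_nonneg_right e6 (sq_nonneg (Ψ x))]
  -- summation, rough part
  have sumD : ∑ A ∈ powersetCard 4 (univ : Finset (Fin N)), ∑ j ∈ A,
      ∫ x, lam (cnt B Aᶜ x) * (II Q A x * rough ν g j Ψ x ^ 2) ∂pin ν N
        ≤ c3 / 6 * Dw ν g Q Ψ := by
    have r1 : ∑ A ∈ powersetCard 4 (univ : Finset (Fin N)), ∑ j ∈ A,
        ∫ x, lam (cnt B Aᶜ x) * (II Q A x * rough ν g j Ψ x ^ 2) ∂pin ν N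
        = ∑ j : Fin N, ∫ x, ∑ A ∈ powersetCard 4 (univ : Finset (Fin N)),
          (if j ∈ A then lam (cnt B Aᶜ x) * (II Q A x * rough ν g j Ψ x ^ 2) else 0)
          ∂pin ν N := by
      have r2 : ∀ A ∈ powersetCard 4 (univ : Finset (Fin N)), ∑ j ∈ A,
          ∫ x, lam (cnt B Aᶜ x) * (II Q A x * rough ν g j Ψ x ^ 2) ∂pin ν N
          = ∑ j : Fin N, ∫ x, (if j ∈ A then lam (cnt B Aᶜ x) *
            (II Q A x * rough ν g j Ψ x ^ 2) else 0) ∂pin ν N := by
        intro A _
        rw [← Finset.sum_filter_add_sum_filter_not univ (fun j => j ∈ A)]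
        have r3 : ∑ j ∈ univ.filter (fun j => ¬ j ∈ A), ∫ x, (if j ∈ A then
            lam (cnt B Aᶜ x) * (II Q A x * rough ν g j Ψ x ^ 2) else 0) ∂pin ν N = 0 := by
          apply Finset.sum_eq_zero
          intro j hj
          simp [(Finset.mem_filter.1 hj).2]
        rw [r3, add_zero]
        have r4 : univ.filter (fun j : Fin N => j ∈ A) = A := by ext j; simp
        rw [r4]
        apply Finset.sum_congr rfl
        intro j hj
        simp [hj]
      rw [Finset.sum_congr rfl r2, Finset.sum_comm]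
      apply Finset.sum_congr rfl
      intro j _
      rw [integral_finsetSum]
      intro A _
      by_cases hj : j ∈ A
      · simp only [hj, if_true]
        exact ((hl A).mul ((II_bm hQ A).mul ((rough_bm h hΨ j).pow 2))).integrable _
      · simp only [hj, if_false]
        exact integrable_zero _ _ _
    rw [r1]
    unfold Dw
    rw [Finset.mul_sum]
    apply Finset.sum_le_sum
    intro j _
    rw [← integral_const_mul]
    apply integral_mono
    · apply BM.integrable
      apply BM.sum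
      intro A _
      by_cases hj : j ∈ A
      · simp only [hj, if_true]
        exact (hl A).mul ((II_bm hQ A).mul ((rough_bm h hΨ j).pow 2))
      · simp only [hj, if_false]
        exact BM.const 0
    · exact (((BM_ind_at hQ j).mul ((rough_bm h hΨ j).pow 2)).const_mul _).integrable _
    · intro x
      show ∑ A ∈ powersetCard 4 (univ : Finset (Fin N)),
        (if j ∈ A then lam (cnt B Aᶜ x) * (II Q A x * rough ν g j Ψ x ^ 2) else 0)
        ≤ c3 / 6 * (ind Q (x j) * rough ν g j Ψ x ^ 2)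
      have hu : (univ : Finset (Fin N)) = insert j ({j}ᶜ : Finset (Fin N)) := by
        ext i; by_cases hi : i = j <;> simp [hi]
      have hj' : j ∉ ({j}ᶜ : Finset (Fin N)) := by simp
      rw [← Finset.sum_filter]
      have hfil : (powersetCard 4 (univ : Finset (Fin N))).filter (fun A => j ∈ A)
          = (powersetCard 3 ({j}ᶜ : Finset (Fin N))).image (insert j) := by
        ext A
        simp only [Finset.mem_filter, Finset.mem_powersetCard, Finset.mem_image]
        constructor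
        · rintro ⟨⟨-, hA⟩, hjA⟩
          refine ⟨A.erase j, ⟨?_, ?_⟩, Finset.insert_erase hjA⟩
          · intro i hi
            simpa using (Finset.mem_erase.1 hi).1
          · rw [Finset.card_erase_of_mem hjA, hA]
        · rintro ⟨A', ⟨hA', hc⟩, rfl⟩
          have : j ∉ A' := fun hh => hj' (hA' hh)
          exact ⟨⟨Finset.subset_univ _, by rw [Finset.card_insert_of_notMem this, hc]⟩,
            Finset.mem_insert_self _ _⟩
      rw [hfil, Finset.sum_image]
      swap
      · intro A1 h1 A2 h2 he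
        have n1 : j ∉ A1 := fun hh => hj' ((Finset.mem_powersetCard.1 h1).1 hh)
        have n2 : j ∉ A2 := fun hh => hj' ((Finset.mem_powersetCard.1 h2).1 hh)
        rw [← Finset.erase_insert n1, ← Finset.erase_insert n2, he]
      have e1 : ∀ A' ∈ powersetCard 3 ({j}ᶜ : Finset (Fin N)),
          lam (cnt B (insert j A')ᶜ x) * (II Q (insert j A') x * rough ν g j Ψ x ^ 2)
            ≤ lam (cnt Q {j}ᶜ x - 3) * (ind Q (x j) * rough ν g j Ψ x ^ 2) * II Q A' x := by
        intro A' hA'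
        obtain ⟨hsub, hcard⟩ := Finset.mem_powersetCard.1 hA'
        have hn : j ∉ A' := fun hh => hj' (hsub hh)
        have hI : II Q (insert j A') x = ind Q (x j) * II Q A' x := Finset.prod_insert hn
        rw [hI]
        by_cases hx : ∀ i ∈ A', x i ∈ Q
        · have e2 := cnt_split hsub hx
          have e3 : ({j}ᶜ \ A' : Finset (Fin N)) = (insert j A')ᶜ := by
            ext i; simp [not_or]
          rw [hcard, e3] at e2
          have e4 : lam (cnt B (insert j A')ᶜ x) ≤ lam (cnt Q {j}ᶜ x - 3) := hanti (by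
            have := cnt_mono h.Q_sub (insert j A')ᶜ x
            omega)
          have e5 : 0 ≤ ind Q (x j) * II Q A' x * rough ν g j Ψ x ^ 2 :=
            mul_nonneg (mul_nonneg (ind_nonneg _ _) (II_nonneg _ _ _)) (sq_nonneg _)
          nlinarith [mul_le_mul_of_nonneg_right e4 e5]
        · rw [II_zero hx]; simp
      refine (Finset.sum_le_sum e1).trans ?_
      rw [← Finset.mul_sum]
      have e5 := hC Q ({j}ᶜ : Finset (Fin N)) 3 x
      unfold II
      rw [e5]
      have e6 : lam (cnt Q {j}ᶜ x - 3) * ((cnt Q {j}ᶜ x).choose 3 : ℝ) ≤ c3 / 6 := by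
        generalize cnt Q {j}ᶜ x = n
        rcases Nat.lt_or_ge n 3 with hn | hn
        · rw [Nat.choose_eq_zero_of_lt hn]
          simp only [Nat.cast_zero, mul_zero]
          positivity
        · obtain ⟨k, rfl⟩ := Nat.exists_eq_add_of_le' hn
          have e7 := hc3 k
          have e8 : ((k + 3).choose 3 : ℝ) ≤ ((k + 3 : ℕ) : ℝ) ^ 3 / (Nat.factorial 3 : ℕ) :=
            Nat.choose_le_pow_div 3 (k + 3)
          rw [Nat.add_sub_cancel]
          have e9 : (Nat.factorial 3 : ℕ) = 6 := rfl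
          rw [e9] at e8
          push_cast at e7 e8 ⊢
          nlinarith [mul_le_mul_of_nonneg_left e8 (hlam k)]
      have e10 : 0 ≤ ind Q (x j) * rough ν g j Ψ x ^ 2 :=
        mul_nonneg (ind_nonneg _ _) (sq_nonneg _)
      nlinarith [mul_le_mul_of_nonneg_right e6 e10]
  have hD0 : 0 ≤ Dw ν g Q Ψ := Finset.sum_nonneg fun j _ => integral_nonneg fun x =>
    mul_nonneg (ind_nonneg _ _) (sq_nonneg _)
  have hN0 : 0 ≤ Nw ν Q Ψ := integral_nonneg fun x => mul_nonneg (Nat.cast_nonneg _) (sq_nonneg _)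
  have hτi : 0 < τ⁻¹ := inv_pos.2 hτ
  have hk : 0 ≤ τ⁻¹ / 2 * (ω * (1 / m) ^ 4) := by positivity
  calc |∑ A ∈ powersetCard 4 (univ : Finset (Fin N)),
        ∫ x, W A x * (lam (cnt B Aᶜ x) * av ν g A Ψ x * (Ψ x - av ν g A Ψ x)) ∂pin ν N|
      ≤ ∑ A ∈ powersetCard 4 (univ : Finset (Fin N)),
        |∫ x, W A x * (lam (cnt B Aᶜ x) * av ν g A Ψ x * (Ψ x - av ν g A Ψ x)) ∂pin ν N| :=
        Finset.abs_sum_le_sum_abs _ _
    _ ≤ ∑ A ∈ powersetCard 4 (univ : Finset (Fin N)), (τ * 4096 *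
          ∑ j ∈ A, ∫ x, lam (cnt B Aᶜ x) * (II Q A x * rough ν g j Ψ x ^ 2) ∂pin ν N
          + τ⁻¹ / 2 * (ω * (1 / m) ^ 4) *
            ∫ x, lam (cnt B Aᶜ x) * (II Q A x * Ψ x ^ 2) ∂pin ν N) := Finset.sum_le_sum one
    _ = τ * 4096 * ∑ A ∈ powersetCard 4 (univ : Finset (Fin N)), ∑ j ∈ A,
          ∫ x, lam (cnt B Aᶜ x) * (II Q A x * rough ν g j Ψ x ^ 2) ∂pin ν N
        + τ⁻¹ / 2 * (ω * (1 / m) ^ 4) * ∑ A ∈ powersetCard 4 (univ : Finset (Fin N)),
          ∫ x, lam (cnt B Aᶜ x) * (II Q A x * Ψ x ^ 2) ∂pin ν N := by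
        rw [Finset.sum_add_distrib, ← Finset.mul_sum, ← Finset.mul_sum]
    _ ≤ τ * 4096 * (c3 / 6 * Dw ν g Q Ψ)
        + τ⁻¹ / 2 * (ω * (1 / m) ^ 4) * (c4 * Nw ν Q Ψ) :=
        add_le_add (mul_le_mul_of_nonneg_left sumD (by positivity))
          (mul_le_mul_of_nonneg_left sumN hk)
    _ ≤ τ * 2048 * c3 * Dw ν g Q Ψ + τ⁻¹ * ω * (1 / m) ^ 4 * c4 * Nw ν Q Ψ := by
        have k1 : 0 ≤ τ * c3 * Dw ν g Q Ψ := by positivity
        have k2 : 0 ≤ τ⁻¹ * ω * (1 / m) ^ 4 * c4 * Nw ν Q Ψ := by positivity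
        nlinarith

end Pool.Agent.Lib.MP_5db8e2_mp
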