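import Pool.Agent.Lib.MP_5db8e2_mp.LB.Spec6

/-!
# Lower bound, part 6: geometry of the supports, second form
-/

set_option autoImplicit false

open MeasureTheory Function Finset
open scoped Classical

namespace Pool.Agent.Lib.MP_5db8e2_mp

theorem Supp2 : S_Supp2 := by
  intro p hp r4 hr4 hL a A x hcm i hi hA j hj k
  have hc : (0 : ℝ) < A.card := by
    exact_mod_cast Finset.card_pos.2 ⟨i, hi⟩
  have h1 : |x i k - Par.cmA A x k| ≤ 8 * r4 := by
    have e : x i k - Par.cmA A x k = (∑ m ∈ A, (x i k - x m k)) / A.card := by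
      unfold Par.cmA
      rw [Finset.sum_sub_distrib, Finset.sum_const, nsmul_eq_mul]
      field_simp
    rw [e, abs_div, abs_of_pos hc, div_le_iff₀ hc]
    calc |∑ m ∈ A, (x i k - x m k)| ≤ ∑ m ∈ A, |x i k - x m k| :=
          Finset.abs_sum_le_sum_abs _ _
      _ ≤ ∑ _m ∈ A, 8 * r4 := by
          refine Finset.sum_le_sum fun m hm => ?_
          have := norm_le_pi_norm (x i - x m) k
          rw [Pi.sub_apply, Real.norm_eq_abs] at this
          exact this.trans (hA m hm)
      _ = 8 * r4 * A.card := by rw [Finset.sum_const, nsmul_eq_mul]; ring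
  have h2 : |x j k - x i k| ≤ 10 * r4 := by
    have := norm_le_pi_norm (x j - x i) k
    rw [Pi.sub_apply, Real.norm_eq_abs] at this
    exact this.trans hj
  have h3 : |Par.cmA A x k - p.s * a k| ≤ (1 - p.e) * p.s := hcm k
  have h4 : 100 * r4 ≤ p.e * p.s := hL
  rw [abs_le] at h1 h2 h3 ⊢
  constructor
  · linarith [h1.1, h2.1, h3.1]
  · linarith [h1.2, h2.2, h3.2]

end Pool.Agent.Lib.MP_5db8e2_mp
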