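import Pool.Agent.Lib.MP_5db8e2_mp.LB.Spec7
import Pool.Agent.Lib.MP_5db8e2_mp.LB.Kap

/-!
# Lower bound, part 7: the pairs triple, quadruple
-/

set_option autoImplicit false

open MeasureTheory Function Finset
open scoped Classical

namespace Pool.Agent.Lib.MP_5db8e2_mp

namespace TQbAux

theorem meas_cmA {N : ℕ} (A : Finset (Fin N)) : Measurable (Par.cmA A : (Fin N → R3) → R3) := by
  refine measurable_pi_lambda _ fun a => ?_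
  unfold Par.cmA
  refine Measurable.div_const ?_ _
  exact Finset.measurable_sum _ fun m _ => (measurable_pi_apply a).comp (measurable_pi_apply m)

theorem meas_Qin (p : Par) (a : Fin 3 → ℤ) : MeasurableSet (p.Qin a) := by
  have : p.Qin a = ⋂ k, {c : R3 | |c k - p.s * a k| ≤ (1 - p.e) * p.s} := by
    ext c; simp [Par.Qin]
  rw [this]
  refine MeasurableSet.iInter fun k => measurableSet_le ?_ measurable_const
  exact ((measurable_pi_apply k).sub_const _).norm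

theorem meas_Qc (s : ℝ) (a : Fin 3 → ℤ) : MeasurableSet (Qc s a) := by
  have : Qc s a = ⋂ k, {c : R3 | |c k - s * a k| ≤ s} := by
    ext c; simp [Qc]
  rw [this]
  refine MeasurableSet.iInter fun k => measurableSet_le ?_ measurable_const
  exact ((measurable_pi_apply k).sub_const _).norm

theorem Qc_sub_Bc {s : ℝ} (hs : 0 ≤ s) (a : Fin 3 → ℤ) : Qc s a ⊆ Bc s a := by
  intro c hc k
  have := hc k
  linarith

theorem cnt_mono {N : ℕ} {Z Z' : Set R3} (hZ : Z ⊆ Z') {A A' : Finset (Fin N)} (hA : A ⊆ A')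
    (x : Fin N → R3) : cnt Z A x ≤ cnt Z' A' x := by
  unfold cnt
  apply Finset.card_le_card
  intro m hm
  rw [Finset.mem_filter] at hm ⊢
  exact ⟨hA hm.1, hZ hm.2⟩

theorem kap_bm (σ r : ℝ) (hσ : 0 ≤ σ) : BM (kap σ r) :=
  ⟨kap_measurable σ r, 1, fun t => by
    rw [abs_of_nonneg (kap_nonneg σ r t)]; exact kap_le_one σ r hσ t⟩

theorem PK_bm {N : ℕ} (σ r : ℝ) (hσ : 0 ≤ σ) (A : Finset (Fin N)) (i : Fin N) :
    BM (fun x : Fin N → R3 => ∏ j ∈ A.erase i, kap σ r (x i - x j)) :=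
  BM.prod _ fun j _ => (kap_bm σ r hσ).comp ((measurable_pi_apply i).sub (measurable_pi_apply j))

theorem PK_nonneg {N : ℕ} (σ r : ℝ) (A : Finset (Fin N)) (i : Fin N) (x : Fin N → R3) :
    0 ≤ ∏ j ∈ A.erase i, kap σ r (x i - x j) :=
  Finset.prod_nonneg fun _ _ => kap_nonneg _ _ _

/-- The sum over the windows. -/
noncomputable def SW (p : Par) (Ψ : (Fin p.N → R3) → ℝ) (A A' : Finset (Fin p.N))
    (x : Fin p.N → R3) : ℝ :=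
  ∑ a ∈ p.win, ind (p.Qin a) (Par.cmA A x) *
    (lam4 p.M (cnt (Qc p.s a) (A ∪ A')ᶜ x) * p.U a A Ψ x ^ 2)

/-- The majorant of a pair. -/
noncomputable def YY (p : Par) (Ψ : (Fin p.N → R3) → ℝ) (σ rA σ' rB : ℝ)
    (A A' : Finset (Fin p.N)) (x : Fin p.N → R3) : ℝ :=
  ∑ i ∈ A ∩ A', (∏ j ∈ A.erase i, kap σ rA (x i - x j)) *
    (∏ j ∈ A'.erase i, kap σ' rB (x i - x j)) * SW p Ψ A A' x

theorem lam4_nonneg (M : ℝ) (n : ℕ) : 0 ≤ lam4 M n := by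
  unfold lam4; split_ifs <;> norm_num

theorem SW_nonneg (p : Par) (Ψ : (Fin p.N → R3) → ℝ) (A A' : Finset (Fin p.N))
    (x : Fin p.N → R3) : 0 ≤ SW p Ψ A A' x :=
  Finset.sum_nonneg fun _ _ => mul_nonneg (ind_nonneg _ _)
    (mul_nonneg (lam4_nonneg _ _) (sq_nonneg _))

theorem YY_nonneg (p : Par) (Ψ : (Fin p.N → R3) → ℝ) (σ rA σ' rB : ℝ)
    (A A' : Finset (Fin p.N)) (x : Fin p.N → R3) : 0 ≤ YY p Ψ σ rA σ' rB A A' x :=
  Finset.sum_nonneg fun _ _ => mul_nonneg (mul_nonneg (PK_nonneg _ _ _ _ _)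
    (PK_nonneg _ _ _ _ _)) (SW_nonneg _ _ _ _ _)

theorem YY_bm (p : Par) (Ψ : (Fin p.N → R3) → ℝ) (σ rA σ' rB : ℝ) (hσ : 0 ≤ σ) (hσ' : 0 ≤ σ')
    (A A' : Finset (Fin p.N)) (hU : ∀ a ∈ p.win, BM (p.U a A Ψ)) :
    BM (YY p Ψ σ rA σ' rB A A') := by
  refine BM.sum _ fun i _ => BM.mul ((PK_bm σ rA hσ A i).mul (PK_bm σ' rB hσ' A' i)) ?_
  refine BM.sum _ fun a ha => BM.mul ((BM_ind (meas_Qin p a)).comp (meas_cmA A)) ?_
  exact (BM_cnt_comp (meas_Qc p.s a) _ (lam4 p.M)).mul ((hU a ha).pow 2)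

/-- The cut-offs of the kernels. -/
theorem PK_dist {N : ℕ} {σ r : ℝ} (hr : 0 ≤ r) {A : Finset (Fin N)} {i : Fin N}
    {x : Fin N → R3} (h : (∏ j ∈ A.erase i, kap σ r (x i - x j)) ≠ 0) :
    ∀ j ∈ A, ‖x i - x j‖ ≤ 2 * r := by
  intro j hj
  by_cases hij : j = i
  · subst hij
    rw [sub_self, norm_zero]; positivity
  · have h1 : kap σ r (x i - x j) ≠ 0 := (Finset.prod_ne_zero_iff.1 h) j
      (Finset.mem_erase.2 ⟨hij, hj⟩)
    by_contra h2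
    exact h1 (by unfold kap; rw [if_neg h2])

/-- The fourth order part: the square of the trial function. -/
theorem v4_sq_le (hJ : S_Jensen) (hC : S_Counts) (hW : S_WinFacts) {p : Par} (hp : p.OK)
    (Ψ : (Fin p.N → R3) → ℝ) (Q T : Finset (Fin p.N)) (x : Fin p.N → R3) :
    p.v4 Ψ Q x ^ 2 ≤ SW p Ψ Q T x := by
  obtain ⟨CJ, -, hJ⟩ := hJ
  obtain ⟨CW, -, hW⟩ := hW
  obtain ⟨-, -, h3, h4, -⟩ := hC p.M hp.hM
  refine (hJ p hp Ψ Q (Par.cmA Q x) x).2.1.trans ?_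
  refine Finset.sum_le_sum fun a ha => ?_
  obtain ⟨-, h01, hsupp, -⟩ := hW p.s p.e hp.hs hp.he hp.he' a
  have hth : th p.s p.e a (Par.cmA Q x) ≤ ind (p.Qin a) (Par.cmA Q x) := by
    by_cases h : th p.s p.e a (Par.cmA Q x) = 0
    · rw [h]; exact ind_nonneg _ _
    · rw [ind_of_mem (show Par.cmA Q x ∈ p.Qin a from hsupp _ h)]
      exact (h01 _).2
  have hl : p.l4 a Q x ^ 2 ≤ lam4 p.M (cnt (Qc p.s a) (Q ∪ T)ᶜ x) := by
    unfold Par.l4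
    rw [(h3 _).2.2]
    apply h4
    apply cnt_mono (Qc_sub_Bc (by linarith [hp.hs]) a)
    rw [Finset.compl_subset_compl]
    exact Finset.subset_union_left
  rw [mul_pow]
  exact mul_le_mul hth (mul_le_mul_of_nonneg_right hl (sq_nonneg _))
    (mul_nonneg (sq_nonneg _) (sq_nonneg _)) (ind_nonneg _ _)

/-- The three-body part: the square of the trial function, where the other one is not zero. -/
theorem v3_sq_le (hJ : S_Jensen) (hC : S_Counts) (hW : S_WinFacts) (hS : S_Supp2)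
    (hO : S_Overlap) {p : Par} (hp : p.OK) {r r4 : ℝ} (hr : 0 ≤ r) (hr4 : r ≤ r4)
    (hL : p.Large r4) (Ψ : (Fin p.N → R3) → ℝ) (T Q : Finset (Fin p.N)) (x : Fin p.N → R3)
    (i : Fin p.N) (hi : i ∈ T ∩ Q) {σ σ' : ℝ}
    (h1 : (∏ j ∈ T.erase i, kap σ r (x i - x j)) ≠ 0)
    (h2 : (∏ j ∈ Q.erase i, kap σ' r4 (x i - x j)) ≠ 0) (hv : p.v4 Ψ Q x ≠ 0) :
    p.v3 Ψ T x ^ 2 ≤ SW p Ψ T Q x := by
  obtain ⟨CJ, -, hJ⟩ := hJ
  obtain ⟨CW, -, hW⟩ := hW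
  obtain ⟨h3, -, -, -⟩ := hC p.M hp.hM
  have h4r : 0 ≤ r4 := hr.trans hr4
  obtain ⟨a', ha', hne⟩ : ∃ a' ∈ p.win, th p.s p.e a' (Par.cmA Q x) *
      (p.l4 a' Q x * p.U a' Q Ψ x) ≠ 0 := by
    by_contra hcon
    push Not at hcon
    apply hv
    unfold Par.v4 Par.vt4
    exact Finset.sum_eq_zero hcon
  have hth' : th p.s p.e a' (Par.cmA Q x) ≠ 0 := fun h => hne (by rw [h, zero_mul])
  have hl' : (cnt (Bc p.s a') Qᶜ x : ℝ) + 1 ≤ p.M := by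
    by_contra h
    apply hne
    have : p.l4 a' Q x = 0 := by unfold Par.l4 lam4; rw [if_neg h]
    rw [this, zero_mul, mul_zero]
  obtain ⟨-, -, hsupp', -⟩ := hW p.s p.e hp.hs hp.he hp.he' a'
  have hxi' : x i ∈ Qc p.s a' := by
    refine hS p hp r4 h4r hL a' Q x (hsupp' _ hth') i (Finset.mem_inter.1 hi).2 ?_ i ?_
    · intro j hj
      have := PK_dist h4r h2 j hj
      linarith
    · rw [sub_self, norm_zero]; positivity
  refine (hJ p hp Ψ T (Par.cmA T x) x).1.trans ?_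
  refine Finset.sum_le_sum fun a ha => ?_
  obtain ⟨-, h01, hsupp, -⟩ := hW p.s p.e hp.hs hp.he hp.he' a
  by_cases h : th p.s p.e a (Par.cmA T x) = 0
  · rw [h, zero_mul]
    exact mul_nonneg (ind_nonneg _ _) (mul_nonneg (lam4_nonneg _ _) (sq_nonneg _))
  · have hQ : Par.cmA T x ∈ p.Qin a := hsupp _ h
    have hxi : x i ∈ Qc p.s a := by
      refine hS p hp r4 h4r hL a T x hQ i (Finset.mem_inter.1 hi).1 ?_ i ?_
      · intro j hj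
        have := PK_dist hr h1 j hj
        linarith
      · rw [sub_self, norm_zero]; positivity
    have hsub : Qc p.s a ⊆ Bc p.s a' := (hO p hp).2.2.1 a a' ⟨x i, hxi, hxi'⟩
    have hcnt : cnt (Qc p.s a) (T ∪ Q)ᶜ x ≤ cnt (Bc p.s a') Qᶜ x := by
      apply cnt_mono hsub
      rw [Finset.compl_subset_compl]
      exact Finset.subset_union_right
    have hlam : lam4 p.M (cnt (Qc p.s a) (T ∪ Q)ᶜ x) = 1 := by
      unfold lam4
      rw [if_pos]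
      have : (cnt (Qc p.s a) (T ∪ Q)ᶜ x : ℝ) ≤ cnt (Bc p.s a') Qᶜ x := by exact_mod_cast hcnt
      linarith
    have hl3 : p.l3 a T x ^ 2 ≤ 1 := by
      unfold Par.l3
      exact pow_le_one₀ (h3 _).1 (h3 _).2
    rw [hlam, one_mul, ind_of_mem hQ, one_mul, mul_pow]
    calc th p.s p.e a (Par.cmA T x) * (p.l3 a T x ^ 2 * p.U a T Ψ x ^ 2)
        ≤ 1 * (1 * p.U a T Ψ x ^ 2) := by
          apply mul_le_mul (h01 _).2 (mul_le_mul_of_nonneg_right hl3 (sq_nonneg _))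
            (mul_nonneg (sq_nonneg _) (sq_nonneg _)) zero_le_one
      _ = p.U a T Ψ x ^ 2 := by ring

theorem abs_mul_le_wt (u v η : ℝ) (hη : 0 < η) : |u * v| ≤ 1 / 2 * (η * u ^ 2 + η⁻¹ * v ^ 2) := by
  have h1 : |u * v| = |u| * |v| := abs_mul u v
  have h2 : (0 : ℝ) ≤ η⁻¹ * (η * |u| - |v|) ^ 2 := mul_nonneg (inv_nonneg.2 hη.le) (sq_nonneg _)
  have h3 : η⁻¹ * (η * |u| - |v|) ^ 2 = η * |u| ^ 2 + η⁻¹ * |v| ^ 2 - 2 * (|u| * |v|) := by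
    field_simp
    ring
  rw [h3, sq_abs, sq_abs] at h2
  rw [h1]
  linarith

/-- The pointwise estimate of a pair. -/
theorem pt (hB : S_KerBd) (hJ : S_Jensen) (hC : S_Counts) (hW : S_WinFacts)
    (hS : S_Supp2) (hO : S_Overlap) (K R : ℝ) : ∃ C : ℝ, 0 < C ∧
    ∀ (V : R3 → R3 → ℝ) (b r r4 W QQ : ℝ) (c : Cor) (_ : c.OK V b K R r r4 W QQ) (p : Par)
    (_ : p.OK) (_ : p.Large r4) (Ψ : (Fin p.N → R3) → ℝ) (T Q : Finset (Fin p.N))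
    (_ : T.card = 3) (_ : Q.card = 4) (η : ℝ) (_ : 0 < η) (x : Fin p.N → R3),
    |dt (p.fT c T x) (p.fQ c Q x) * (p.v3 Ψ T x * p.v4 Ψ Q x)| ≤
      C * (η * YY p Ψ (5 / 2) r (8 / 3) r4 T Q x + η⁻¹ * YY p Ψ (8 / 3) r4 (5 / 2) r Q T x) := by
  obtain ⟨C, hC1, hB⟩ := hB K R
  refine ⟨3 * C ^ 2 * (1 / 2), by positivity, ?_⟩
  intro V b r r4 W QQ c hc p hp hL Ψ T Q hT hQ η hη x
  have hr : 0 ≤ r := by linarith [hc.hr]
  have hr4 : 0 ≤ r4 := by linarith [hc.hr4]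
  have hC0 : 0 ≤ C := by linarith
  have hdt : |dt (p.fT c T x) (p.fQ c Q x)| ≤ ∑ i ∈ T ∩ Q, 3 * C ^ 2 *
      ((∏ j ∈ T.erase i, kap (5 / 2) r (x i - x j)) *
        ∏ j ∈ Q.erase i, kap (8 / 3) r4 (x i - x j)) := by
    have e1 : dt (p.fT c T x) (p.fQ c Q x)
        = ∑ i ∈ T ∩ Q, ∑ a, gT c.φ T i a x * gQ c.g Q i a x := by
      unfold dt Par.fT Par.fQ
      symm
      apply Finset.sum_subset (Finset.subset_univ _)
      intro i _ hi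
      refine Finset.sum_eq_zero fun a _ => ?_
      by_contra hne
      have hne1 : gT c.φ T i a x ≠ 0 := left_ne_zero_of_mul hne
      have hne2 : gQ c.g Q i a x ≠ 0 := right_ne_zero_of_mul hne
      obtain ⟨i0, hi0⟩ := Finset.card_pos.1 (by rw [hT]; norm_num : 0 < T.card)
      obtain ⟨i1, hi1⟩ := Finset.card_pos.1 (by rw [hQ]; norm_num : 0 < Q.card)
      exact hi (Finset.mem_inter.2
        ⟨(hB V b r r4 W QQ c hc T x i0 hi0).2.2.2.2.2.1 i a hne1,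
          (hB V b r r4 W QQ c hc Q x i1 hi1).2.2.2.2.2.2 i a hne2⟩)
    rw [e1]
    refine (Finset.abs_sum_le_sum_abs _ _).trans (Finset.sum_le_sum fun i hi => ?_)
    refine (Finset.abs_sum_le_sum_abs _ _).trans ?_
    have hb : ∀ a : Fin 3, |gT c.φ T i a x * gQ c.g Q i a x| ≤
        C ^ 2 * ((∏ j ∈ T.erase i, kap (5 / 2) r (x i - x j)) *
        ∏ j ∈ Q.erase i, kap (8 / 3) r4 (x i - x j)) := by
      intro a
      rw [abs_mul]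
      have h1 := (hB V b r r4 W QQ c hc T x i (Finset.mem_inter.1 hi).1).1 hT i a
      have h2 := (hB V b r r4 W QQ c hc Q x i (Finset.mem_inter.1 hi).2).2.2.2.1 hQ i a
      calc |gT c.φ T i a x| * |gQ c.g Q i a x|
          ≤ (C * ∏ j ∈ T.erase i, kap (5 / 2) r (x i - x j)) *
            (C * ∏ j ∈ Q.erase i, kap (8 / 3) r4 (x i - x j)) :=
            mul_le_mul h1 h2 (abs_nonneg _) (mul_nonneg hC0 (PK_nonneg _ _ _ _ _))
        _ = _ := by ring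
    refine (Finset.sum_le_sum fun a _ => hb a).trans ?_
    rw [Finset.sum_const, Finset.card_univ, Fintype.card_fin, nsmul_eq_mul]
    apply le_of_eq
    push_cast
    ring
  rw [abs_mul]
  have hvv := abs_nonneg (p.v3 Ψ T x * p.v4 Ψ Q x)
  refine (mul_le_mul_of_nonneg_right hdt hvv).trans ?_
  unfold YY
  rw [Finset.inter_comm Q T, Finset.sum_mul, Finset.mul_sum, Finset.mul_sum,
    ← Finset.sum_add_distrib, Finset.mul_sum]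
  refine Finset.sum_le_sum fun i hi => ?_
  set P1 := ∏ j ∈ T.erase i, kap (5 / 2) r (x i - x j) with hP1
  set P2 := ∏ j ∈ Q.erase i, kap (8 / 3) r4 (x i - x j) with hP2
  have hP1n : 0 ≤ P1 := PK_nonneg _ _ _ _ _
  have hP2n : 0 ≤ P2 := PK_nonneg _ _ _ _ _
  have hS1 := SW_nonneg p Ψ T Q x
  have hS2 := SW_nonneg p Ψ Q T x
  have hηi : 0 < η⁻¹ := inv_pos.2 hη
  by_cases hP : P1 * P2 = 0
  · have e1 : η * (P1 * P2 * SW p Ψ T Q x) = 0 := by rw [hP]; ring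
    have e2 : η⁻¹ * (P2 * P1 * SW p Ψ Q T x) = 0 := by rw [mul_comm P2 P1, hP]; ring
    rw [e1, e2, hP]; simp
  by_cases hv : p.v4 Ψ Q x = 0
  · rw [hv, mul_zero, abs_zero, mul_zero]
    positivity
  have k1 := v3_sq_le hJ hC hW hS hO hp hr hc.hr4 hL Ψ T Q x i hi (left_ne_zero_of_mul hP)
    (right_ne_zero_of_mul hP) hv
  have k2 := v4_sq_le hJ hC hW hp Ψ Q T x
  have k3 : |p.v3 Ψ T x * p.v4 Ψ Q x| ≤ 1 / 2 * (η * SW p Ψ T Q x + η⁻¹ * SW p Ψ Q T x) := by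
    refine (abs_mul_le_wt _ _ η hη).trans ?_
    have := mul_le_mul_of_nonneg_left k1 hη.le
    have := mul_le_mul_of_nonneg_left k2 hηi.le
    linarith
  calc 3 * C ^ 2 * (P1 * P2) * |p.v3 Ψ T x * p.v4 Ψ Q x|
      ≤ 3 * C ^ 2 * (P1 * P2) * (1 / 2 * (η * SW p Ψ T Q x + η⁻¹ * SW p Ψ Q T x)) :=
        mul_le_mul_of_nonneg_left k3 (by positivity)
    _ = _ := by ring

/-- Powers of the square root and the cubic root. -/
theorem pows {r r4 : ℝ} (hr : 1 ≤ r) (hr4 : r ≤ r4) :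
    0 ≤ r ^ (3 - 5 / 2 : ℝ) ∧ 0 ≤ r4 ^ (3 - 8 / 3 : ℝ) ∧ (r ^ (3 - 5 / 2 : ℝ)) ^ 2 = r ∧
    (r4 ^ (3 - 8 / 3 : ℝ)) ^ 3 = r4 ∧ r ^ (3 - 5 / 2 : ℝ) ≤ r ∧
    r ^ (3 - 5 / 2 : ℝ) * (r4 ^ (3 - 8 / 3 : ℝ)) ^ 2 ≤ r4 * √r4 ∧
    r ^ (3 - 5 / 2 : ℝ) * (r4 ^ (3 - 8 / 3 : ℝ)) ^ 2 ≤ r4 ^ 2 := by
  have hr0 : 0 < r := by linarith
  have hr41 : 1 ≤ r4 := hr.trans hr4
  have hr40 : 0 < r4 := by linarith
  have ha : 0 ≤ r ^ (3 - 5 / 2 : ℝ) := Real.rpow_nonneg hr0.le _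
  have hb : 0 ≤ r4 ^ (3 - 8 / 3 : ℝ) := Real.rpow_nonneg hr40.le _
  have ha2 : (r ^ (3 - 5 / 2 : ℝ)) ^ 2 = r := by
    rw [← Real.rpow_natCast, ← Real.rpow_mul hr0.le]
    norm_num
  have hb3 : (r4 ^ (3 - 8 / 3 : ℝ)) ^ 3 = r4 := by
    rw [← Real.rpow_natCast, ← Real.rpow_mul hr40.le]
    norm_num
  have har : r ^ (3 - 5 / 2 : ℝ) ≤ r := by
    conv_rhs => rw [← Real.rpow_one r]
    exact Real.rpow_le_rpow_of_exponent_le hr (by norm_num)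
  have hb2 : (r4 ^ (3 - 8 / 3 : ℝ)) ^ 2 ≤ r4 := by
    rw [← Real.rpow_natCast, ← Real.rpow_mul hr40.le]
    conv_rhs => rw [← Real.rpow_one r4]
    exact Real.rpow_le_rpow_of_exponent_le hr41 (by norm_num)
  have has : r ^ (3 - 5 / 2 : ℝ) ≤ √r4 := by
    rw [Real.sqrt_eq_rpow, show (3 - 5 / 2 : ℝ) = 1 / 2 by norm_num]
    exact Real.rpow_le_rpow hr0.le hr4 (by norm_num)
  refine ⟨ha, hb, ha2, hb3, har, ?_, ?_⟩
  · rw [mul_comm r4]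
    exact mul_le_mul has hb2 (by positivity) (by positivity)
  · rw [sq r4]
    exact mul_le_mul (har.trans hr4) hb2 (by positivity) (by positivity)

theorem Nn_nonneg (p : Par) (Ψ : (Fin p.N → R3) → ℝ) : 0 ≤ p.Nn Ψ :=
  Finset.sum_nonneg fun _ _ => integral_nonneg fun _ =>
    mul_nonneg (Nat.cast_nonneg _) (sq_nonneg _)

theorem D_nonneg (p : Par) (Ψ : (Fin p.N → R3) → ℝ) : 0 ≤ p.D Ψ :=
  Finset.sum_nonneg fun _ _ => Finset.sum_nonneg fun _ _ => integral_nonneg fun _ =>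
    mul_nonneg (ind_nonneg _ _) (sq_nonneg _)

end TQbAux

open TQbAux

/-- **TQb.** Pairs triple, quadruple. -/
theorem TQb (hG : S_PairGlob) (hB : S_KerBd) (hJ : S_Jensen) (hC : S_Counts) (hW : S_WinFacts)
    (hS : S_Supp2) (hO : S_Overlap) (hBM : S_BMall) : S_TQb := by
  intro K R
  obtain ⟨C0, hC0, hpt⟩ := pt hB hJ hC hW hS hO K R
  obtain ⟨C1, hC1, hG1⟩ := hG 3 4 1 (by norm_num) (by norm_num) (by norm_num) (by norm_num)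
    (by norm_num)
  obtain ⟨C2, hC2, hG2⟩ := hG 4 3 1 (by norm_num) (by norm_num) (by norm_num) (by norm_num)
    (by norm_num)
  obtain ⟨C3, hC3, hG3⟩ := hG 3 4 2 (by norm_num) (by norm_num) (by norm_num) (by norm_num)
    (by norm_num)
  obtain ⟨C4, hC4, hG4⟩ := hG 4 3 2 (by norm_num) (by norm_num) (by norm_num) (by norm_num)
    (by norm_num)
  refine ⟨C0 * (32 * (C1 + C2 + C3 + C4)), by positivity, ?_⟩
  intro V b r r4 W QQ c hc p hp hL Ψ hΨ θ hθ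
  have hr1 : 1 ≤ r := hc.hr
  have hr4 : r ≤ r4 := hc.hr4
  have hr41 : 1 ≤ r4 := hr1.trans hr4
  have hr0 : 0 < r := by linarith
  have hr40 : 0 < r4 := by linarith
  have hM : 8 ≤ p.M := hp.hM
  have hs : 1 ≤ p.s := hp.hs
  have hs0 : 0 < p.s := by linarith
  have hM0 : 0 < p.M := by linarith
  have hCn := hC p.M hM
  have hc9 := hCn.2.2.2.2.2.2.2.2.1
  have hc10 := hCn.2.2.2.2.2.2.2.2.2.1
  have hlam : ∀ n, 0 ≤ lam4 p.M n := lam4_nonneg p.M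
  have hU : ∀ A : Finset (Fin p.N), ∀ a ∈ p.win, BM (p.U a A Ψ) := fun A =>
    (hBM V b K R r r4 W QQ c hc p hp Ψ hΨ A).2.2.2.2.2.2.2.2.2.1
  -- the two majorants
  have hY1 : ∀ A A' : Finset (Fin p.N), BM (YY p Ψ (5 / 2) r (8 / 3) r4 A A') := fun A A' =>
    YY_bm p Ψ _ _ _ _ (by norm_num) (by norm_num) A A' (hU A)
  have hY2 : ∀ A A' : Finset (Fin p.N), BM (YY p Ψ (8 / 3) r4 (5 / 2) r A A') := fun A A' =>
    YY_bm p Ψ _ _ _ _ (by norm_num) (by norm_num) A A' (hU A)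
  have hN0 := Nn_nonneg p Ψ
  have hD0 := D_nonneg p Ψ
  obtain ⟨ha, hb, ha2, hb3, har, hab1, hab2⟩ := pows hr1 hr4
  -- counting hypotheses
  have c5 : ∀ n : ℕ, ((n + 6 : ℕ) : ℝ) ^ 6 * lam4 p.M n ≤ (2 * p.M) ^ 5 * ((n + 6 : ℕ) : ℝ) := by
    intro n
    have h := hc9 n 5 (by norm_num)
    have h2 : (0 : ℝ) ≤ ((n + 6 : ℕ) : ℝ) := Nat.cast_nonneg _
    have := mul_le_mul_of_nonneg_right h h2
    calc ((n + 6 : ℕ) : ℝ) ^ 6 * lam4 p.M n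
        = ((n + 5 + 1 : ℕ) : ℝ) ^ 5 * lam4 p.M n * ((n + 6 : ℕ) : ℝ) := by ring
      _ ≤ _ := this
  have c4 : ∀ n : ℕ, ((n + 5 : ℕ) : ℝ) ^ 5 * lam4 p.M n ≤ (2 * p.M) ^ 4 * ((n + 5 : ℕ) : ℝ) := by
    intro n
    have h := hc9 n 4 (by norm_num)
    have h2 : (0 : ℝ) ≤ ((n + 5 : ℕ) : ℝ) := Nat.cast_nonneg _
    have := mul_le_mul_of_nonneg_right h h2
    calc ((n + 5 : ℕ) : ℝ) ^ 5 * lam4 p.M n
        = ((n + 4 + 1 : ℕ) : ℝ) ^ 4 * lam4 p.M n * ((n + 5 : ℕ) : ℝ) := by ring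
      _ ≤ _ := this
  have B1 := hG1 p hp r4 hL Ψ hΨ (5 / 2) (8 / 3) r r4 (by norm_num) (by norm_num) (by norm_num)
    (by norm_num) hr1 hr4 hr41 le_rfl (lam4 p.M) hlam ((2 * p.M) ^ 5) ((2 * p.M) ^ 5) c5
    (fun n => hc10 n 5 (by norm_num)) (YY p Ψ (5 / 2) r (8 / 3) r4) hY1
    (fun A _ A' _ _ x => le_of_eq (abs_of_nonneg (YY_nonneg _ _ _ _ _ _ _ _ _)))
  have B2 := hG2 p hp r4 hL Ψ hΨ (8 / 3) (5 / 2) r4 r (by norm_num) (by norm_num) (by norm_num)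
    (by norm_num) hr41 le_rfl hr1 hr4 (lam4 p.M) hlam ((2 * p.M) ^ 5) ((2 * p.M) ^ 5) c5
    (fun n => hc10 n 5 (by norm_num)) (YY p Ψ (8 / 3) r4 (5 / 2) r) hY2
    (fun A _ A' _ _ x => le_of_eq (abs_of_nonneg (YY_nonneg _ _ _ _ _ _ _ _ _)))
  have B3 := hG3 p hp r4 hL Ψ hΨ (5 / 2) (8 / 3) r r4 (by norm_num) (by norm_num) (by norm_num)
    (by norm_num) hr1 hr4 hr41 le_rfl (lam4 p.M) hlam ((2 * p.M) ^ 4) ((2 * p.M) ^ 4) c4
    (fun n => hc10 n 4 (by norm_num)) (YY p Ψ (5 / 2) r (8 / 3) r4) hY1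
    (fun A _ A' _ _ x => le_of_eq (abs_of_nonneg (YY_nonneg _ _ _ _ _ _ _ _ _)))
  have B4 := hG4 p hp r4 hL Ψ hΨ (8 / 3) (5 / 2) r4 r (by norm_num) (by norm_num) (by norm_num)
    (by norm_num) hr41 le_rfl hr1 hr4 (lam4 p.M) hlam ((2 * p.M) ^ 4) ((2 * p.M) ^ 4) c4
    (fun n => hc10 n 4 (by norm_num)) (YY p Ψ (8 / 3) r4 (5 / 2) r) hY2
    (fun A _ A' _ _ x => le_of_eq (abs_of_nonneg (YY_nonneg _ _ _ _ _ _ _ _ _)))
  set S1 := ∑ A ∈ powersetCard 3 (univ : Finset (Fin p.N)),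
    ∑ A' ∈ powersetCard 4 (univ : Finset (Fin p.N)),
      (if (A ∩ A').card = 1 then ∫ x, |YY p Ψ (5 / 2) r (8 / 3) r4 A A' x| ∂pin p.nu p.N else 0)
    with hS1
  set S2 := ∑ A ∈ powersetCard 4 (univ : Finset (Fin p.N)),
    ∑ A' ∈ powersetCard 3 (univ : Finset (Fin p.N)),
      (if (A ∩ A').card = 1 then ∫ x, |YY p Ψ (8 / 3) r4 (5 / 2) r A A' x| ∂pin p.nu p.N else 0)
    with hS2
  set S3 := ∑ A ∈ powersetCard 3 (univ : Finset (Fin p.N)),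
    ∑ A' ∈ powersetCard 4 (univ : Finset (Fin p.N)),
      (if (A ∩ A').card = 2 then ∫ x, |YY p Ψ (5 / 2) r (8 / 3) r4 A A' x| ∂pin p.nu p.N else 0)
    with hS3
  set S4 := ∑ A ∈ powersetCard 4 (univ : Finset (Fin p.N)),
    ∑ A' ∈ powersetCard 3 (univ : Finset (Fin p.N)),
      (if (A ∩ A').card = 2 then ∫ x, |YY p Ψ (8 / 3) r4 (5 / 2) r A A' x| ∂pin p.nu p.N else 0)
    with hS4
  -- the reduction
  have hint : ∀ T ∈ P3 p.N, ∀ Q ∈ P4 p.N, ∀ η : ℝ, 0 < η →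
      |∫ x, dt (p.fT c T x) (p.fQ c Q x) * (p.v3 Ψ T x * p.v4 Ψ Q x) ∂pin p.nu p.N| ≤
      C0 * (η * ∫ x, |YY p Ψ (5 / 2) r (8 / 3) r4 T Q x| ∂pin p.nu p.N +
        η⁻¹ * ∫ x, |YY p Ψ (8 / 3) r4 (5 / 2) r Q T x| ∂pin p.nu p.N) := by
    intro T hT Q hQ η hη
    have hT3 : T.card = 3 := (Finset.mem_powersetCard.1 hT).2
    have hQ4 : Q.card = 4 := (Finset.mem_powersetCard.1 hQ).2
    have i1 := (hY1 T Q).abs.integrable (pin p.nu p.N)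
    have i2 := (hY2 Q T).abs.integrable (pin p.nu p.N)
    rw [← integral_const_mul, ← integral_const_mul, ← integral_add (i1.const_mul _)
      (i2.const_mul _), ← integral_const_mul, ← Real.norm_eq_abs]
    refine norm_integral_le_of_norm_le (((i1.const_mul _).add (i2.const_mul _)).const_mul _)
      (Filter.Eventually.of_forall fun x => ?_)
    rw [Real.norm_eq_abs, abs_of_nonneg (YY_nonneg _ _ _ _ _ _ _ _ _),
      abs_of_nonneg (YY_nonneg _ _ _ _ _ _ _ _ _)]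
    exact hpt V b r r4 W QQ c hc p hp hL Ψ T Q hT3 hQ4 η hη x
  have hI1 : ∀ A A' : Finset (Fin p.N),
      0 ≤ ∫ x, |YY p Ψ (5 / 2) r (8 / 3) r4 A A' x| ∂pin p.nu p.N := fun A A' =>
    integral_nonneg fun _ => abs_nonneg _
  have hI2 : ∀ A A' : Finset (Fin p.N),
      0 ≤ ∫ x, |YY p Ψ (8 / 3) r4 (5 / 2) r A A' x| ∂pin p.nu p.N := fun A A' =>
    integral_nonneg fun _ => abs_nonneg _
  have main : |p.TQ c Ψ| ≤ C0 * (θ * S1 + θ⁻¹ * S2 + S3 + S4) := by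
    have e2 : S2 = ∑ T ∈ P3 p.N, ∑ Q ∈ P4 p.N, (if (T ∩ Q).card = 1 then
        ∫ x, |YY p Ψ (8 / 3) r4 (5 / 2) r Q T x| ∂pin p.nu p.N else 0) := by
      rw [hS2, Finset.sum_comm]
      refine Finset.sum_congr rfl fun T _ => Finset.sum_congr rfl fun Q _ => ?_
      rw [Finset.inter_comm]
    have e4 : S4 = ∑ T ∈ P3 p.N, ∑ Q ∈ P4 p.N, (if (T ∩ Q).card = 2 then
        ∫ x, |YY p Ψ (8 / 3) r4 (5 / 2) r Q T x| ∂pin p.nu p.N else 0) := by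
      rw [hS4, Finset.sum_comm]
      refine Finset.sum_congr rfl fun T _ => Finset.sum_congr rfl fun Q _ => ?_
      rw [Finset.inter_comm]
    rw [e2, e4, hS1, hS3]
    unfold Par.TQ
    refine (Finset.abs_sum_le_sum_abs _ _).trans ?_
    simp only [Finset.mul_sum, ← Finset.sum_add_distrib]
    refine Finset.sum_le_sum fun T hT => ?_
    refine (Finset.abs_sum_le_sum_abs _ _).trans ?_
    refine Finset.sum_le_sum fun Q hQ => ?_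
    by_cases h1 : (T ∩ Q).card = 1
    · rw [if_pos (Or.inl h1), if_pos h1, if_pos h1, if_neg (by omega), if_neg (by omega)]
      have := hint T hT Q hQ θ hθ
      simpa using this
    · by_cases h2 : (T ∩ Q).card = 2
      · rw [if_pos (Or.inr h2), if_neg h1, if_neg h1, if_pos h2, if_pos h2]
        have := hint T hT Q hQ 1 one_pos
        simpa using this
      · rw [if_neg (by omega), if_neg h1, if_neg h1, if_neg h2, if_neg h2]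
        simp
  have hmu : 0 ≤ p.mu := by unfold Par.mu; positivity
  clear_value S1 S2 S3 S4
  have B1' : S1 ≤ C1 * (32 * (r * r4 * p.mu ^ 5 * p.Nn Ψ) +
      32 * (r * p.mu ^ 3 * p.M ^ 2 * p.D Ψ)) := by
    refine B1.trans (le_of_eq ?_)
    rw [if_neg (by norm_num : ¬ (4 - 1 = 1))]
    simp only [Nat.reduceSub, Nat.reduceAdd]
    rw [ha2, hb3]
    unfold Par.mu
    field_simp
    ring
  have B2' : S2 ≤ C2 * (32 * (r * r4 * p.mu ^ 5 * p.Nn Ψ) +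
      32 * (r4 * p.mu ^ 4 * p.M * p.D Ψ)) := by
    refine B2.trans (le_of_eq ?_)
    rw [if_neg (by norm_num : ¬ (3 - 1 = 1))]
    simp only [Nat.reduceSub, Nat.reduceAdd]
    rw [ha2, hb3]
    unfold Par.mu
    field_simp
    ring
  have B3' : S3 ≤ C3 * (16 * (r4 * √r4 * p.mu ^ 4 * p.Nn Ψ) +
      16 * (r * p.mu ^ 3 * p.M * p.D Ψ)) := by
    refine B3.trans ?_
    rw [if_neg (by norm_num : ¬ (4 - 2 = 1))]
    simp only [Nat.reduceSub, Nat.reduceAdd, pow_one, mul_one]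
    have e1 : r ^ (3 - 5 / 2 : ℝ) * (r4 ^ (3 - 8 / 3 : ℝ)) ^ 2 * (1 / p.s ^ 3) ^ 4 *
        (2 * p.M) ^ 4 * p.Nn Ψ = (r ^ (3 - 5 / 2 : ℝ) * (r4 ^ (3 - 8 / 3 : ℝ)) ^ 2) *
        (16 * (p.mu ^ 4 * p.Nn Ψ)) := by
      unfold Par.mu
      field_simp
      ring
    have e2 : r ^ (3 - 5 / 2 : ℝ) * (1 / p.s ^ 3) ^ 3 * (2 * p.M) ^ 4 * p.D Ψ
        = r ^ (3 - 5 / 2 : ℝ) * (16 * (p.mu ^ 3 * p.M * p.D Ψ)) := by
      unfold Par.mu
      field_simp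
      ring
    rw [e1, e2]
    have k1 := mul_le_mul_of_nonneg_right hab1
      (by positivity : (0 : ℝ) ≤ 16 * (p.mu ^ 4 * p.Nn Ψ))
    have k2 := mul_le_mul_of_nonneg_right har
      (by positivity : (0 : ℝ) ≤ 16 * (p.mu ^ 3 * p.M * p.D Ψ))
    refine mul_le_mul_of_nonneg_left ?_ hC3.le
    linarith
  have B4' : S4 ≤ C4 * (16 * (r4 * √r4 * p.mu ^ 4 * p.Nn Ψ) +
      16 * (r4 ^ 2 * p.mu ^ 4 * p.D Ψ)) := by
    refine B4.trans ?_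
    rw [if_pos (by norm_num : (3 - 2 = 1))]
    simp only [Nat.reduceSub, Nat.reduceAdd, pow_one]
    have e1 : (r4 ^ (3 - 8 / 3 : ℝ)) ^ 2 * r ^ (3 - 5 / 2 : ℝ) * (1 / p.s ^ 3) ^ 4 *
        (2 * p.M) ^ 4 * p.Nn Ψ = (r ^ (3 - 5 / 2 : ℝ) * (r4 ^ (3 - 8 / 3 : ℝ)) ^ 2) *
        (16 * (p.mu ^ 4 * p.Nn Ψ)) := by
      unfold Par.mu
      field_simp
      ring
    have e2 : (r4 ^ (3 - 8 / 3 : ℝ)) ^ 2 * r ^ (3 - 5 / 2 : ℝ) * (1 / p.s ^ 3) ^ 4 *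
        (2 * p.M) ^ 4 * p.D Ψ = (r ^ (3 - 5 / 2 : ℝ) * (r4 ^ (3 - 8 / 3 : ℝ)) ^ 2) *
        (16 * (p.mu ^ 4 * p.D Ψ)) := by
      unfold Par.mu
      field_simp
      ring
    rw [e1, e2]
    have k1 := mul_le_mul_of_nonneg_right hab1
      (by positivity : (0 : ℝ) ≤ 16 * (p.mu ^ 4 * p.Nn Ψ))
    have k2 := mul_le_mul_of_nonneg_right hab2
      (by positivity : (0 : ℝ) ≤ 16 * (p.mu ^ 4 * p.D Ψ))
    refine mul_le_mul_of_nonneg_left ?_ hC4.le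
    linarith
  refine main.trans ?_
  have hθi : 0 < θ⁻¹ := inv_pos.2 hθ
  rw [mul_assoc C0]
  refine mul_le_mul_of_nonneg_left ?_ hC0.le
  have m1 := mul_le_mul_of_nonneg_left B1' hθ.le
  have m2 := mul_le_mul_of_nonneg_left B2' hθi.le
  -- abbreviations
  have z1 : 0 ≤ r * r4 * p.mu ^ 5 * p.Nn Ψ := by positivity
  have z2 : 0 ≤ r * p.mu ^ 3 * p.M ^ 2 * p.D Ψ := by positivity
  have z3 : 0 ≤ r4 * p.mu ^ 4 * p.M * p.D Ψ := by positivity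
  have z4 : 0 ≤ r4 * √r4 * p.mu ^ 4 * p.Nn Ψ := by positivity
  have z5 : 0 ≤ r * p.mu ^ 3 * p.M * p.D Ψ := by positivity
  have z6 : 0 ≤ r4 ^ 2 * p.mu ^ 4 * p.D Ψ := by positivity
  have target : 32 * (C1 + C2 + C3 + C4) * (((θ + θ⁻¹) * r * r4 * p.mu ^ 5 +
      r4 * √r4 * p.mu ^ 4) * p.Nn Ψ + (θ * r * p.mu ^ 3 * p.M ^ 2 + θ⁻¹ * r4 * p.mu ^ 4 * p.M +
      r * p.mu ^ 3 * p.M + r4 ^ 2 * p.mu ^ 4) * p.D Ψ) =
      32 * (C1 + C2 + C3 + C4) * (θ * (r * r4 * p.mu ^ 5 * p.Nn Ψ) +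
        θ⁻¹ * (r * r4 * p.mu ^ 5 * p.Nn Ψ) + r4 * √r4 * p.mu ^ 4 * p.Nn Ψ +
        θ * (r * p.mu ^ 3 * p.M ^ 2 * p.D Ψ) + θ⁻¹ * (r4 * p.mu ^ 4 * p.M * p.D Ψ) +
        r * p.mu ^ 3 * p.M * p.D Ψ + r4 ^ 2 * p.mu ^ 4 * p.D Ψ) := by ring
  rw [target]
  generalize r * r4 * p.mu ^ 5 * p.Nn Ψ = Z1 at *
  generalize r * p.mu ^ 3 * p.M ^ 2 * p.D Ψ = Z2 at *
  generalize r4 * p.mu ^ 4 * p.M * p.D Ψ = Z3 at *
  generalize r4 * √r4 * p.mu ^ 4 * p.Nn Ψ = Z4 at *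
  generalize r * p.mu ^ 3 * p.M * p.D Ψ = Z5 at *
  generalize r4 ^ 2 * p.mu ^ 4 * p.D Ψ = Z6 at *
  have w : θ * (C1 * (32 * Z1 + 32 * Z2)) + θ⁻¹ * (C2 * (32 * Z1 + 32 * Z3)) +
      C3 * (16 * Z4 + 16 * Z5) + C4 * (16 * Z4 + 16 * Z6) ≤
      32 * (C1 + C2 + C3 + C4) * (θ * Z1 + θ⁻¹ * Z1 + Z4 + θ * Z2 + θ⁻¹ * Z3 + Z5 + Z6) := by
    have d : 32 * (C1 + C2 + C3 + C4) * (θ * Z1 + θ⁻¹ * Z1 + Z4 + θ * Z2 + θ⁻¹ * Z3 + Z5 + Z6) -
      (θ * (C1 * (32 * Z1 + 32 * Z2)) + θ⁻¹ * (C2 * (32 * Z1 + 32 * Z3)) +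
      C3 * (16 * Z4 + 16 * Z5) + C4 * (16 * Z4 + 16 * Z6)) =
      32 * ((C2 + C3 + C4) * (θ * (Z1 + Z2)) + C1 * (θ⁻¹ * (Z1 + Z3) + Z4 + Z5 + Z6) +
        (C3 + C4) * (θ⁻¹ * (Z1 + Z3)) + C2 * (Z4 + Z5 + Z6) + C3 * (Z4 / 2 + Z5 / 2 + Z6) +
        C4 * (Z4 / 2 + Z5 + Z6 / 2)) := by ring
    have dn : 0 ≤ 32 * ((C2 + C3 + C4) * (θ * (Z1 + Z2)) + C1 * (θ⁻¹ * (Z1 + Z3) + Z4 + Z5 + Z6) +
        (C3 + C4) * (θ⁻¹ * (Z1 + Z3)) + C2 * (Z4 + Z5 + Z6) + C3 * (Z4 / 2 + Z5 / 2 + Z6) +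
        C4 * (Z4 / 2 + Z5 + Z6 / 2)) := by positivity
    linarith
  linarith

end Pool.Agent.Lib.MP_5db8e2_mp
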