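import Pool.Agent.Lib.MP_5db8e2_mp.LB.Spec7

/-!
# Lower bound, part 7: pairs of triples with one common particle
-/

set_option autoImplicit false

open MeasureTheory Function Finset
open scoped Classical

namespace Pool.Agent.Lib.MP_5db8e2_mp

theorem TTb_dt_comm {N : ℕ} (u v : Fin N → Fin 3 → ℝ) : dt u v = dt v u := by
  unfold dt
  exact Finset.sum_congr rfl fun i _ => Finset.sum_congr rfl fun a _ => mul_comm _ _

/-- Bound of the scalar product of two fields which live on the clusters `A`, `A'`. -/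
theorem TTb_dt_le {N : ℕ} (u v : Fin N → Fin 3 → ℝ) (A A' : Finset (Fin N)) (B B' : Fin N → ℝ)
    (hu : ∀ i ∈ A, ∀ a, |u i a| ≤ B i) (hu0 : ∀ i a, u i a ≠ 0 → i ∈ A)
    (hv : ∀ i ∈ A', ∀ a, |v i a| ≤ B' i) (hv0 : ∀ i a, v i a ≠ 0 → i ∈ A') :
    |dt u v| ≤ 3 * ∑ i ∈ A ∩ A', B i * B' i := by
  unfold dt
  have h1 : ∑ i, ∑ a, u i a * v i a = ∑ i ∈ A ∩ A', ∑ a, u i a * v i a := by
    refine (Finset.sum_subset (Finset.subset_univ _) fun i _ hi => ?_).symm
    refine Finset.sum_eq_zero fun a _ => ?_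
    by_contra hne
    exact hi (Finset.mem_inter.2 ⟨hu0 i a (left_ne_zero_of_mul hne),
      hv0 i a (right_ne_zero_of_mul hne)⟩)
  rw [h1, Finset.mul_sum]
  refine (Finset.abs_sum_le_sum_abs _ _).trans (Finset.sum_le_sum fun i hi => ?_)
  obtain ⟨hi1, hi2⟩ := Finset.mem_inter.1 hi
  calc |∑ a, u i a * v i a| ≤ ∑ a, |u i a * v i a| := Finset.abs_sum_le_sum_abs _ _
    _ ≤ ∑ _a : Fin 3, B i * B' i := by
        refine Finset.sum_le_sum fun a _ => ?_
        rw [abs_mul]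
        exact mul_le_mul (hu i hi1 a) (hv i hi2 a) (abs_nonneg _)
          ((abs_nonneg _).trans (hu i hi1 a))
    _ = 3 * (B i * B' i) := by
        rw [Finset.sum_const, Finset.card_univ, Fintype.card_fin, nsmul_eq_mul]
        norm_num

theorem TTb_th_le (hW : S_WinFacts) (p : Par) (hp : p.OK) (a : Fin 3 → ℤ) (z : R3) :
    th p.s p.e a z ≤ ind (p.Qin a) z := by
  obtain ⟨C, _, hC⟩ := hW
  obtain ⟨_, h01, hsupp, _⟩ := hC p.s p.e hp.hs hp.he hp.he' a
  by_cases hz : z ∈ p.Qin a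
  · rw [ind_of_mem hz]
    exact (h01 z).2
  · rw [ind_of_notMem hz]
    by_contra hne
    exact hz (hsupp z fun h0 => hne (by rw [h0]))

theorem TTb_Qc_sub (s : ℝ) (hs : 1 ≤ s) (a : Fin 3 → ℤ) : Qc s a ⊆ Bc s a := fun z hz k => by
  have := hz k
  linarith

theorem TTb_cnt_mono {N : ℕ} {Z Z' : Set R3} {A A' : Finset (Fin N)} (hZ : Z ⊆ Z') (hA : A ⊆ A')
    (x : Fin N → R3) : cnt Z A x ≤ cnt Z' A' x := by
  unfold cnt
  refine Finset.card_le_card fun i hi => ?_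
  rw [Finset.mem_filter] at hi ⊢
  exact ⟨hA hi.1, hZ hi.2⟩

/-- Jensen for the triple `T` with the weight of the pair `(T, T')`. -/
theorem TTb_v3 (hJ : S_Jensen) (hC : S_Counts) (hW : S_WinFacts) (p : Par) (hp : p.OK)
    (Ψ : (Fin p.N → R3) → ℝ) (T T' : Finset (Fin p.N)) (x : Fin p.N → R3) :
    p.v3 Ψ T x ^ 2 ≤ ∑ a ∈ p.win, ind (p.Qin a) (Par.cmA T x) *
      (lam3 p.M (cnt (Qc p.s a) (T ∪ T')ᶜ x) ^ 2 * p.U a T Ψ x ^ 2) := by
  obtain ⟨CJ, _, hCJ⟩ := hJ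
  obtain ⟨h1, _, _⟩ := hCJ p hp Ψ T (Par.cmA T x) x
  obtain ⟨hl0, hanti, _⟩ := hC p.M hp.hM
  refine h1.trans (Finset.sum_le_sum fun a _ => ?_)
  have hle : p.l3 a T x ≤ lam3 p.M (cnt (Qc p.s a) (T ∪ T')ᶜ x) :=
    hanti (TTb_cnt_mono (TTb_Qc_sub p.s hp.hs a)
      (Finset.compl_subset_compl.2 Finset.subset_union_left) x)
  have hl : 0 ≤ p.l3 a T x := (hl0 _).1
  refine mul_le_mul (TTb_th_le hW p hp a _) ?_ (sq_nonneg _) (ind_nonneg _ _)
  rw [mul_pow]
  exact mul_le_mul_of_nonneg_right (pow_le_pow_left₀ hl hle 2) (sq_nonneg _)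

theorem TTb (hG : S_PairGlob) (hB : S_KerBd) (hJ : S_Jensen) (hC : S_Counts) (hW : S_WinFacts)
    (hBM : S_BMall) : S_TTb := by
  intro K R
  obtain ⟨CK, hCK1, hCK⟩ := hB K R
  obtain ⟨CG, hCG0, hCG⟩ := hG 3 3 1 le_rfl (by norm_num) (by norm_num) (by norm_num) (by norm_num)
  have hCK0 : 0 < CK := by linarith
  have hD0 : 0 < 3 * CK ^ 2 := by positivity
  refine ⟨3 * CK ^ 2 * (CG * 16), by positivity, ?_⟩
  intro V b r r4 W QQ c hc p hp hL Ψ hΨ
  have hr1 : 1 ≤ r := hc.hr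
  have hr0 : 0 ≤ r := by linarith
  set Y : Finset (Fin p.N) → Finset (Fin p.N) → (Fin p.N → R3) → ℝ := fun T T' x =>
    (3 * CK ^ 2)⁻¹ * (dt (p.fT c T x) (p.fT c T' x) * p.v3 Ψ T x ^ 2) with hY
  have hdtBM : ∀ T T', BM (fun x => dt (p.fT c T x) (p.fT c T' x)) := fun T T' => by
    refine BM.sum _ fun i _ => BM.sum _ fun a _ => ?_
    exact ((hBM V b K R r r4 W QQ c hc p hp Ψ hΨ T).1 i a).mul
      ((hBM V b K R r r4 W QQ c hc p hp Ψ hΨ T').1 i a)
  have hvBM : ∀ T, BM (p.v3 Ψ T) := fun T => by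
    obtain ⟨_, _, _, _, _, _, _, _, _, _, _, _, _, h, _⟩ :=
      hBM V b K R r r4 W QQ c hc p hp Ψ hΨ T
    exact h
  have hYBM : ∀ T T', BM (Y T T') := fun T T' =>
    ((hdtBM T T').mul ((hvBM T).pow 2)).const_mul _
  obtain ⟨hl0, hanti, _, _, hc1, hc2, _⟩ := hC p.M hp.hM
  have key := hCG p hp r4 hL Ψ hΨ (5 / 2) (5 / 2) r r (by norm_num) (by norm_num) (by norm_num)
    (by norm_num) hr1 hc.hr4 hr1 hc.hr4 (fun n => lam3 p.M n ^ 2) (fun n => sq_nonneg _)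
    ((2 * p.M) ^ 4) ((2 * p.M) ^ 4)
    (fun n => by
      have h := hc1 n 4 le_rfl
      simp only [show 3 + 3 - 1 = 5 from rfl]
      have h5 : ((n + 5 : ℕ) : ℝ) ^ 5 * lam3 p.M n ^ 2 =
          (((n + 4 + 1 : ℕ) : ℝ) ^ 4 * lam3 p.M n ^ 2) * ((n + 5 : ℕ) : ℝ) := by
        push_cast; ring
      rw [h5]
      exact mul_le_mul_of_nonneg_right h (Nat.cast_nonneg _))
    (fun n => by
      simp only [show 3 + 3 - 1 - 1 = 4 from rfl]
      exact hc2 n 4 le_rfl)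
    Y hYBM
    (fun T hT T' hT' hcard x => by
      have hT3 : T.card = 3 := (Finset.mem_powersetCard.1 hT).2
      have hT3' : T'.card = 3 := (Finset.mem_powersetCard.1 hT').2
      have hdt := TTb_dt_le (p.fT c T x) (p.fT c T' x) T T'
        (fun i => CK * ∏ j ∈ T.erase i, kap (5 / 2) r (x i - x j))
        (fun i => CK * ∏ j ∈ T'.erase i, kap (5 / 2) r (x i - x j))
        (fun i hi a => (hCK V b r r4 W QQ c hc T x i hi).1 hT3 i a)
        (fun i a h => by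
          by_cases hne : T.Nonempty
          · obtain ⟨i0, hi0⟩ := hne
            exact (hCK V b r r4 W QQ c hc T x i0 hi0).2.2.2.2.2.1 i a h
          · rw [Finset.not_nonempty_iff_eq_empty] at hne
            rw [hne] at hT3
            simp at hT3)
        (fun i hi a => (hCK V b r r4 W QQ c hc T' x i hi).1 hT3' i a)
        (fun i a h => by
          by_cases hne : T'.Nonempty
          · obtain ⟨i0, hi0⟩ := hne
            exact (hCK V b r r4 W QQ c hc T' x i0 hi0).2.2.2.2.2.1 i a h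
          · rw [Finset.not_nonempty_iff_eq_empty] at hne
            rw [hne] at hT3'
            simp at hT3')
      have hv := TTb_v3 hJ hC hW p hp Ψ T T' x
      set S : ℝ := ∑ a ∈ p.win, ind (p.Qin a) (Par.cmA T x) *
        (lam3 p.M (cnt (Qc p.s a) (T ∪ T')ᶜ x) ^ 2 * p.U a T Ψ x ^ 2) with hS
      rw [← Finset.sum_mul]
      set P : ℝ := ∑ i ∈ T ∩ T', (∏ j ∈ T.erase i, kap (5 / 2) r (x i - x j)) *
          (∏ j ∈ T'.erase i, kap (5 / 2) r (x i - x j)) with hP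
      have hdt' : |dt (p.fT c T x) (p.fT c T' x)| ≤ 3 * CK ^ 2 * P := by
        refine hdt.trans (le_of_eq ?_)
        rw [hP, Finset.mul_sum, Finset.mul_sum]
        exact Finset.sum_congr rfl fun i _ => by ring
      have hY1 : |Y T T' x| = (3 * CK ^ 2)⁻¹ * (|dt (p.fT c T x) (p.fT c T' x)| *
          p.v3 Ψ T x ^ 2) := by
        simp only [hY]
        rw [abs_mul, abs_mul, abs_of_pos (inv_pos.2 hD0), abs_of_nonneg (sq_nonneg (p.v3 Ψ T x))]
      rw [hY1]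
      have hP0 : 0 ≤ P := by
        have : 0 ≤ 3 * CK ^ 2 * P := (abs_nonneg _).trans hdt'
        exact nonneg_of_mul_nonneg_right this hD0
      calc (3 * CK ^ 2)⁻¹ * (|dt (p.fT c T x) (p.fT c T' x)| * p.v3 Ψ T x ^ 2)
          ≤ (3 * CK ^ 2)⁻¹ * ((3 * CK ^ 2 * P) * S) := by
            refine mul_le_mul_of_nonneg_left ?_ (inv_pos.2 hD0).le
            exact mul_le_mul hdt' hv (sq_nonneg _) (mul_nonneg hD0.le hP0)
        _ = P * S := by
            field_simp)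
  -- the result of `PairGlob`
  set Sg : ℝ := ∑ A ∈ powersetCard 3 (univ : Finset (Fin p.N)),
        ∑ A' ∈ powersetCard 3 (univ : Finset (Fin p.N)),
          (if (A ∩ A').card = 1 then ∫ x, |Y A A' x| ∂pin p.nu p.N else 0) with hSg
  have hSg2 : Sg = ∑ A ∈ powersetCard 3 (univ : Finset (Fin p.N)),
        ∑ A' ∈ powersetCard 3 (univ : Finset (Fin p.N)),
          (if (A ∩ A').card = 1 then ∫ x, |Y A' A x| ∂pin p.nu p.N else 0) := by
    rw [hSg, Finset.sum_comm]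
    exact Finset.sum_congr rfl fun A _ => Finset.sum_congr rfl fun A' _ => by
      rw [Finset.inter_comm]
  have hTT : |p.TT c Ψ| ≤ 3 * CK ^ 2 * Sg := by
    have h1 : 3 * CK ^ 2 * Sg = ∑ A ∈ P3 p.N, ∑ A' ∈ P3 p.N,
        (if (A ∩ A').card = 1 then (3 * CK ^ 2 / 2) * (∫ x, |Y A A' x| ∂pin p.nu p.N +
          ∫ x, |Y A' A x| ∂pin p.nu p.N) else 0) := by
      have h2 : 3 * CK ^ 2 * Sg = (3 * CK ^ 2 / 2) * (Sg + Sg) := by ring
      rw [h2]
      conv_lhs => rw [show Sg + Sg = Sg + (∑ A ∈ powersetCard 3 (univ : Finset (Fin p.N)),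
        ∑ A' ∈ powersetCard 3 (univ : Finset (Fin p.N)),
          (if (A ∩ A').card = 1 then ∫ x, |Y A' A x| ∂pin p.nu p.N else 0)) by rw [← hSg2]]
      rw [hSg, ← Finset.sum_add_distrib, Finset.mul_sum]
      refine Finset.sum_congr rfl fun A _ => ?_
      rw [← Finset.sum_add_distrib, Finset.mul_sum]
      refine Finset.sum_congr rfl fun A' _ => ?_
      split_ifs <;> ring
    rw [h1]
    unfold Par.TT
    refine (Finset.abs_sum_le_sum_abs _ _).trans (Finset.sum_le_sum fun A _ => ?_)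
    refine (Finset.abs_sum_le_sum_abs _ _).trans (Finset.sum_le_sum fun A' _ => ?_)
    split_ifs with hcard
    · have hi1 : Integrable (fun x => |Y A A' x|) (pin p.nu p.N) := (hYBM A A').abs.integrable _
      have hi2 : Integrable (fun x => |Y A' A x|) (pin p.nu p.N) := (hYBM A' A).abs.integrable _
      rw [← integral_add hi1 hi2, ← integral_const_mul]
      refine abs_integral_le_integral_abs.trans ?_
      refine integral_mono (((hdtBM A A').mul ((hvBM A).mul (hvBM A'))).abs.integrable _)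
        ((hi1.add hi2).const_mul _) fun x => ?_
      have hYabs : ∀ T T' : Finset (Fin p.N), |Y T T' x| = (3 * CK ^ 2)⁻¹ *
          (|dt (p.fT c T x) (p.fT c T' x)| * p.v3 Ψ T x ^ 2) := fun T T' => by
        simp only [hY]
        rw [abs_mul, abs_mul, abs_of_pos (inv_pos.2 hD0), abs_of_nonneg (sq_nonneg (p.v3 Ψ T x))]
      simp only [Pi.add_apply]
      rw [hYabs, hYabs, abs_mul, abs_mul, TTb_dt_comm (p.fT c A' x) (p.fT c A x)]
      have e1 : 3 * CK ^ 2 / 2 * ((3 * CK ^ 2)⁻¹ * (|dt (p.fT c A x) (p.fT c A' x)| *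
            p.v3 Ψ A x ^ 2) + (3 * CK ^ 2)⁻¹ * (|dt (p.fT c A x) (p.fT c A' x)| *
            p.v3 Ψ A' x ^ 2)) =
          |dt (p.fT c A x) (p.fT c A' x)| * ((p.v3 Ψ A x ^ 2 + p.v3 Ψ A' x ^ 2) / 2) := by
        field_simp
      rw [e1]
      refine mul_le_mul_of_nonneg_left ?_ (abs_nonneg _)
      have h3 := sq_nonneg (|p.v3 Ψ A x| - |p.v3 Ψ A' x|)
      have h4 := sq_abs (p.v3 Ψ A x)
      have h5 := sq_abs (p.v3 Ψ A' x)
      nlinarith
    · simp
  have hpw : (r ^ (3 - 5 / 2 : ℝ)) ^ 2 = r := by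
    rw [← Real.rpow_natCast, ← Real.rpow_mul hr0]
    norm_num
  have key2 : Sg ≤ CG * 16 * (r ^ 2 * p.mu ^ 4 * p.Nn Ψ + r * p.mu ^ 3 * p.M * p.D Ψ) := by
    refine key.trans (le_of_eq ?_)
    simp only [show 3 - 1 = 2 from rfl, show 3 + 3 - 1 - 1 = 4 from rfl,
      show ¬ (2 = 1) from by norm_num, if_false]
    rw [hpw]
    unfold Par.mu
    have hs : p.s ≠ 0 := by linarith [hp.hs]
    field_simp
    ring
  calc |p.TT c Ψ| ≤ 3 * CK ^ 2 * Sg := hTT
    _ ≤ 3 * CK ^ 2 * (CG * 16 * (r ^ 2 * p.mu ^ 4 * p.Nn Ψ + r * p.mu ^ 3 * p.M * p.D Ψ)) :=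
        mul_le_mul_of_nonneg_left key2 hD0.le
    _ = 3 * CK ^ 2 * (CG * 16) *
        (r ^ 2 * p.mu ^ 4 * p.Nn Ψ + r * p.mu ^ 3 * p.M * p.D Ψ) := by ring

end Pool.Agent.Lib.MP_5db8e2_mp
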