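import Pool.Agent.Lib.MP_5db8e2_mp.LB.Spec1

set_option autoImplicit false

open MeasureTheory Function Finset
open scoped Classical

namespace Pool.Agent.Lib.MP_5db8e2_mp

theorem Telescope : S_Telescope := by
  intro N ν _ m g Q B hW f hf p r hr x
  have hp := hW.prob
  -- the initial segments
  set S : ℕ → Finset (Fin N) := fun k =>
    (univ.filter (fun i : Fin p => (i : ℕ) < k)).image r with hS
  have hS0 : S 0 = ∅ := by simp [hS]
  have hSp : S p = univ.image r := by
    have : (univ.filter (fun i : Fin p => (i : ℕ) < p)) = univ :=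
      Finset.filter_true_of_mem fun i _ => i.2
    simp only [hS, this]
  have hSk : ∀ k : Fin p, S ((k : ℕ) + 1) = insert (r k) (S k) := by
    intro k
    simp only [hS]
    rw [← Finset.image_insert]
    congr 1
    ext i
    simp only [Finset.mem_filter, Finset.mem_univ, true_and, Finset.mem_insert, Fin.ext_iff]
    omega
  have hnot : ∀ k : Fin p, r k ∉ S k := by
    intro k hk
    simp only [hS, Finset.mem_image, Finset.mem_filter, Finset.mem_univ, true_and] at hk
    obtain ⟨i, hi, hri⟩ := hk
    rw [hr hri] at hi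
    exact lt_irrefl _ hi
  have hstep : ∀ k : Fin p, av ν g (S k) (rough ν g (r k) f) x =
      av ν g (S k) f x - av ν g (S ((k : ℕ) + 1)) f x := by
    intro k
    have e1 : av ν g (S k) (rough ν g (r k) f) =
        fun x => av ν g (S k) f x - av ν g (S k) (av ν g {r k} f) x :=
      av_sub hW hf (av_bm hW hf)
    have e2 : av ν g (S ((k : ℕ) + 1)) f = av ν g (S k) (av ν g {r k} f) := by
      rw [hSk k]
      exact Mg_insert' hf (hnot k)
    rw [e1, e2]
  set a : ℕ → ℝ := fun k => av ν g (S k) f x with ha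
  have ha0 : a 0 = f x := by
    simp only [ha, hS0]
    exact congrFun (Mg_empty f) x
  have htel : f x = a p + ∑ k : Fin p, (a k - a ((k : ℕ) + 1)) := by
    have h1 : ∑ k : Fin p, (a k - a ((k : ℕ) + 1)) = ∑ k ∈ Finset.range p, (a k - a (k + 1)) :=
      Fin.sum_univ_eq_sum_range (fun k => a k - a (k + 1)) p
    rw [h1, Finset.sum_range_sub', ha0]
    ring
  have hcs : (a p + ∑ k : Fin p, (a k - a ((k : ℕ) + 1))) ^ 2 ≤
      (p + 1) * (a p ^ 2 + ∑ k : Fin p, (a k - a ((k : ℕ) + 1)) ^ 2) := by
    have h := sq_sum_le_card_mul_sum_sq (s := (univ : Finset (Fin (p + 1))))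
      (f := (Fin.cons (a p) (fun k : Fin p => a k - a ((k : ℕ) + 1)) : Fin (p + 1) → ℝ))
    simp only [Fin.sum_univ_succ, Fin.cons_zero, Fin.cons_succ, Finset.card_univ,
      Fintype.card_fin, Nat.cast_add, Nat.cast_one] at h
    exact h
  have hfin : a p ^ 2 + ∑ k : Fin p, (a k - a ((k : ℕ) + 1)) ^ 2 =
      (av ν g (univ.image r) f x) ^ 2 +
      ∑ k : Fin p, (av ν g ((univ.filter (fun i : Fin p => i < k)).image r)
        (rough ν g (r k) f) x) ^ 2 := by
    congr 1
    · simp only [ha, hSp]
    · refine Finset.sum_congr rfl fun k _ => ?_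
      rw [← hstep k]
      rfl
  rw [htel, ← hfin]
  exact hcs

end Pool.Agent.Lib.MP_5db8e2_mp
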