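import Pool.Agent.Lib.MP_5db8e2_mp.LB.Spec3

/-!
# The linear term with at least two rough particles
-/

set_option autoImplicit false

open MeasureTheory Function Finset
open scoped Classical

namespace Pool.Agent.Lib.MP_5db8e2_mp

namespace TwoRoughAux

variable {N : ℕ} {ν : Measure R3} {m : ℝ} {g : R3 → ℝ} {Q B : Set R3}

/-! ### The operators `ops` -/

/-- `G ↦ g(x_c) ∫ G dx_c`. -/
noncomputable def MM (ν : Measure R3) (g : R3 → ℝ) (c : Fin N) (G : (Fin N → R3) → ℝ)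
    (x : Fin N → R3) : ℝ := g (x c) * Mg ν {c} G x

theorem MM_bm [IsFiniteMeasure ν] (h : Wd ν m g Q B) {G : (Fin N → R3) → ℝ} (hG : BM G)
    (c : Fin N) : BM (MM ν g c G) :=
  (h.bm.comp (measurable_pi_apply c)).mul (Mg_bm hG)

theorem MM_sub [IsFiniteMeasure ν] {G H : (Fin N → R3) → ℝ} (hG : BM G) (hH : BM H) (c : Fin N) :
    MM ν g c (fun x => G x - H x) = fun x => MM ν g c G x - MM ν g c H x := by
  ext1 x
  unfold MM
  rw [Mg_sub hG hH]
  ring

theorem MM_comm [IsFiniteMeasure ν] {G : (Fin N → R3) → ℝ} (hG : BM G) {b c : Fin N}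
    (hbc : b ≠ c) : MM ν g c (MM ν g b G) = MM ν g b (MM ν g c G) := by
  have key : ∀ {b c : Fin N}, b ≠ c → ∀ x, MM ν g c (MM ν g b G) x =
      g (x c) * (g (x b) * Mg ν {c} (Mg ν {b} G) x) := by
    intro b c hbc x
    have h1 : MM ν g b G = fun x => (fun x : Fin N → R3 => g (x b)) x * Mg ν {b} G x := rfl
    have hd : DependsOn (fun x : Fin N → R3 => g (x b)) ((({c} : Finset (Fin N)) : Set (Fin N))ᶜ) := by
      intro x y hxy
      simp only
      rw [hxy b (by simpa using hbc)]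
    unfold MM
    rw [show (fun x : Fin N → R3 => g (x b) * Mg ν {b} G x) =
      fun x => (fun x : Fin N → R3 => g (x b)) x * Mg ν {b} G x from rfl, Mg_mul_left _ hd]
  ext1 x
  rw [key hbc, key hbc.symm, Mg_comm hG (by simpa using hbc.symm)]
  ring

theorem ops_eq (o : Fin 3) (c : Fin N) (G : (Fin N → R3) → ℝ) :
    ops ν g o c G = if o = 0 then G else if o = 1 then MM ν g c G
      else fun x => G x - MM ν g c G x := by
  ext1 x
  unfold ops MM
  split_ifs <;> rfl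

theorem ops_bm [IsFiniteMeasure ν] (h : Wd ν m g Q B) {G : (Fin N → R3) → ℝ} (hG : BM G)
    (o : Fin 3) (c : Fin N) : BM (ops ν g o c G) := by
  rw [ops_eq]
  split_ifs
  · exact hG
  · exact MM_bm h hG c
  · exact hG.sub (MM_bm h hG c)

theorem ops_comm [IsFiniteMeasure ν] (h : Wd ν m g Q B) {G : (Fin N → R3) → ℝ} (hG : BM G)
    {b c : Fin N} (hbc : b ≠ c) (o o' : Fin 3) :
    ops ν g o c (ops ν g o' b G) = ops ν g o' b (ops ν g o c G) := by
  have hb := MM_bm h hG b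
  have hc := MM_bm h hG c
  have hbc' := MM_comm (ν := ν) (g := g) hG hbc
  rw [ops_eq o' b G, ops_eq o c G]
  by_cases h1 : o = 0
  · rw [if_pos h1, ops_eq o, if_pos h1, ops_eq o']
  · by_cases h2 : o = 1
    · rw [if_neg h1, if_pos h2, ops_eq o, if_neg h1, if_pos h2, ops_eq o']
      by_cases h3 : o' = 0
      · rw [if_pos h3, if_pos h3]
      · by_cases h4 : o' = 1
        · rw [if_neg h3, if_pos h4, if_neg h3, if_pos h4, hbc']
        · rw [if_neg h3, if_neg h4, if_neg h3, if_neg h4, MM_sub hG hb, hbc']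
    · rw [if_neg h1, if_neg h2, ops_eq o, if_neg h1, if_neg h2, ops_eq o']
      by_cases h3 : o' = 0
      · rw [if_pos h3, if_pos h3]
      · by_cases h4 : o' = 1
        · rw [if_neg h3, if_pos h4, if_neg h3, if_pos h4, MM_sub hG hc, hbc']
        · rw [if_neg h3, if_neg h4, if_neg h3, if_neg h4, MM_sub hG hc, MM_sub hG hb, hbc']
          ext1 x
          ring

/-- `ops` in the variable `c` does not enlarge the support in the variable `a ≠ c`. -/
theorem ops_supp [SigmaFinite ν] {G : (Fin N → R3) → ℝ} {a c : Fin N} (hac : a ≠ c)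
    (hG : ∀ x, G x ≠ 0 → x a ∈ Q) (o : Fin 3) (x : Fin N → R3) (hx : ops ν g o c G x ≠ 0) :
    x a ∈ Q := by
  by_contra hc
  apply hx
  have h0 : G x = 0 := by
    by_contra h1
    exact hc (hG x h1)
  have h2 : Mg ν {c} G x = 0 := by
    rw [Mg_singleton]
    have : ∀ t, G (Function.update x c t) = 0 := by
      intro t
      by_contra h1
      have h3 := hG _ h1
      rw [Function.update_of_ne hac] at h3
      exact hc h3
    simp [this]
  unfold ops
  rw [h0, h2]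
  simp

/-! ### Exchange of sums and integrals -/

theorem sum_int [IsFiniteMeasure ν] {ι : Type*} (s : Finset ι) {F : ι → (Fin N → R3) → ℝ}
    (hF : ∀ i ∈ s, BM (F i)) :
    ∑ i ∈ s, ∫ x, F i x ∂pin ν N = ∫ x, ∑ i ∈ s, F i x ∂pin ν N :=
  (integral_finsetSum _ fun i hi => (hF i hi).integrable _).symm

theorem sum2_int [IsFiniteMeasure ν] {F : Fin N → Fin N → (Fin N → R3) → ℝ}
    (hF : ∀ a b, BM (F a b)) :
    ∑ a, ∑ b, ∫ x, F a b x ∂pin ν N = ∫ x, ∑ a, ∑ b, F a b x ∂pin ν N := by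
  rw [← sum_int _ fun a _ => BM.sum _ fun b _ => hF a b]
  exact Finset.sum_congr rfl fun a _ => sum_int _ fun b _ => hF a b

theorem sum3_int [IsFiniteMeasure ν] {F : Fin N → Fin N → Fin N → (Fin N → R3) → ℝ}
    (hF : ∀ a b c, BM (F a b c)) :
    ∑ a, ∑ b, ∑ c, ∫ x, F a b c x ∂pin ν N = ∫ x, ∑ a, ∑ b, ∑ c, F a b c x ∂pin ν N := by
  rw [← sum_int _ fun a _ => BM.sum _ fun b _ => BM.sum _ fun c _ => hF a b c]
  exact Finset.sum_congr rfl fun a _ => sum2_int fun b c => hF a b c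

theorem sum4_int [IsFiniteMeasure ν] {F : Fin N → Fin N → Fin N → Fin N → (Fin N → R3) → ℝ}
    (hF : ∀ a b c d, BM (F a b c d)) :
    ∑ a, ∑ b, ∑ c, ∑ d, ∫ x, F a b c d x ∂pin ν N =
      ∫ x, ∑ a, ∑ b, ∑ c, ∑ d, F a b c d x ∂pin ν N := by
  rw [← sum_int _ fun a _ => BM.sum _ fun b _ => BM.sum _ fun c _ => BM.sum _ fun d _ => hF a b c d]
  exact Finset.sum_congr rfl fun a _ => sum3_int fun b c d => hF a b c d

/-! ### Counting -/

/-- The number of the particles of `Q` outside `G`, if `G` is in `Q`. -/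
theorem cnt_compl_ge (hQB : Q ⊆ B) {S G : Finset (Fin N)} (x : Fin N → R3)
    (hG : ∀ j ∈ G, x j ∈ Q) {k : ℕ} (hk : (G ∩ S).card ≤ k) : cnt Q S x - k ≤ cnt B Gᶜ x := by
  have h1 : cnt Q S x ≤ (G ∩ S).card + cnt B Gᶜ x := by
    unfold cnt
    rw [← Finset.card_filter_add_card_filter_not (s := S.filter fun j => x j ∈ Q)
      (fun j => j ∈ G)]
    refine add_le_add (Finset.card_le_card ?_) (Finset.card_le_card ?_)
    · intro j hj
      simp only [Finset.mem_filter, Finset.mem_inter] at hj ⊢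
      exact ⟨hj.2, hj.1.1⟩
    · intro j hj
      simp only [Finset.mem_filter, Finset.mem_compl] at hj ⊢
      exact ⟨hj.2, hQB hj.1.2⟩
  omega

variable {lam : ℕ → ℝ}

theorem lam_sq_le (hl0 : ∀ n, 0 ≤ lam n) (hla : Antitone lam) {p q : ℕ} (h : p ≤ q) :
    lam q ^ 2 ≤ lam p ^ 2 := pow_le_pow_left₀ (hl0 _) (hla h) 2

/-- The integral of the weight of the set `G` against `f²`. -/
noncomputable def II (ν : Measure R3) (lam : ℕ → ℝ) (Q B : Set R3) (G : Finset (Fin N))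
    (f : (Fin N → R3) → ℝ) : ℝ :=
  ∫ x, lam (cnt B Gᶜ x) ^ 2 * ((∏ j ∈ G, ind Q (x j)) * f x ^ 2) ∂pin ν N

theorem II_bm [IsFiniteMeasure ν] (h : Wd ν m g Q B) {f : (Fin N → R3) → ℝ} (hf : BM f)
    (G : Finset (Fin N)) :
    BM (fun x => lam (cnt B Gᶜ x) ^ 2 * ((∏ j ∈ G, ind Q (x j)) * f x ^ 2)) :=
  ((BM_cnt_comp h.B_meas Gᶜ lam).pow 2).mul ((BM_prod_ind h.Q_meas G).mul (hf.pow 2))

theorem II_nonneg (f : (Fin N → R3) → ℝ) (G : Finset (Fin N)) : 0 ≤ II ν lam Q B G f :=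
  integral_nonneg fun x => mul_nonneg (sq_nonneg _)
    (mul_nonneg (Finset.prod_nonneg fun _ _ => ind_nonneg _ _) (sq_nonneg _))

theorem prod4 {a b c d : Fin N} (h : [a, b, c, d].Nodup) (F : Fin N → ℝ) :
    ∏ j ∈ ({a, b, c, d} : Finset (Fin N)), F j = F a * (F b * (F c * F d)) := by
  simp only [List.nodup_cons, List.mem_cons, List.not_mem_nil, or_false, not_or,
    not_false_eq_true, List.nodup_nil, and_true] at h
  obtain ⟨⟨h1, h2, h3⟩, ⟨h4, h5⟩, h6⟩ := h
  rw [Finset.prod_insert (by simp [h1, h2, h3]), Finset.prod_insert (by simp [h4, h5]),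
    Finset.prod_insert (by simp [h6]), Finset.prod_singleton]

theorem prod3 {a b c : Fin N} (h : [a, b, c].Nodup) (F : Fin N → ℝ) :
    ∏ j ∈ ({a, b, c} : Finset (Fin N)), F j = F a * (F b * F c) := by
  simp only [List.nodup_cons, List.mem_cons, List.not_mem_nil, or_false, not_or,
    not_false_eq_true, List.nodup_nil, and_true] at h
  obtain ⟨⟨h1, h2⟩, h3⟩ := h
  rw [Finset.prod_insert (by simp [h1, h2]), Finset.prod_insert (by simp [h3]),
    Finset.prod_singleton]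

theorem prod5 {a b c d e : Fin N} (h : [a, b, c, d, e].Nodup) (F : Fin N → ℝ) :
    ∏ j ∈ ({a, b, c, d, e} : Finset (Fin N)), F j = F a * (F b * (F c * (F d * F e))) := by
  have h' : [b, c, d, e].Nodup := (List.nodup_cons.1 h).2
  have h0 : a ∉ ({b, c, d, e} : Finset (Fin N)) := by
    have := (List.nodup_cons.1 h).1
    simpa using this
  rw [Finset.prod_insert h0, prod4 h']

/-- Terms with four particles. -/
noncomputable def X4 (ν : Measure R3) (lam : ℕ → ℝ) (Q B : Set R3) (f : (Fin N → R3) → ℝ)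
    (a b c d : Fin N) : ℝ :=
  if [a, b, c, d].Nodup then II ν lam Q B {a, b, c, d} f else 0

/-- Terms with three particles. -/
noncomputable def X3 (ν : Measure R3) (lam : ℕ → ℝ) (Q B : Set R3) (f : (Fin N → R3) → ℝ)
    (a b c : Fin N) : ℝ :=
  if [a, b, c].Nodup then II ν lam Q B {a, b, c} f else 0

/-- Terms with five particles. -/
noncomputable def X5 (ν : Measure R3) (lam : ℕ → ℝ) (Q B : Set R3) (f : (Fin N → R3) → ℝ)
    (a b c b' c' : Fin N) : ℝ :=
  if [a, b, c, b', c'].Nodup then II ν lam Q B {a, b, c, b', c'} f else 0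

theorem X4_nonneg (f : (Fin N → R3) → ℝ) (a b c d : Fin N) : 0 ≤ X4 ν lam Q B f a b c d := by
  unfold X4
  split_ifs
  · exact II_nonneg _ _
  · exact le_rfl

theorem X3_nonneg (f : (Fin N → R3) → ℝ) (a b c : Fin N) : 0 ≤ X3 ν lam Q B f a b c := by
  unfold X3
  split_ifs
  · exact II_nonneg _ _
  · exact le_rfl

theorem X5_nonneg (f : (Fin N → R3) → ℝ) (a b c b' c' : Fin N) :
    0 ≤ X5 ν lam Q B f a b c b' c' := by
  unfold X5
  split_ifs
  · exact II_nonneg _ _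
  · exact le_rfl

theorem pow_lam_le {k : ℕ} {C : ℝ} (hk : 1 ≤ k)
    (hC : ∀ n : ℕ, ((n + k : ℕ) : ℝ) ^ k * lam n ^ 2 ≤ C * ((n + k : ℕ) : ℝ)) (n : ℕ) :
    (n : ℝ) ^ k * lam (n - k) ^ 2 ≤ C * n := by
  obtain ⟨k, rfl⟩ : ∃ k', k = k' + 1 := ⟨k - 1, by omega⟩
  have h1 := hC (n - (k + 1))
  set M : ℝ := ((n - (k + 1) + (k + 1) : ℕ) : ℝ) with hM
  have hM0 : 0 < M := by
    rw [hM]
    exact_mod_cast (by omega : 0 < n - (k + 1) + (k + 1))
  have hnM : (n : ℝ) ≤ M := by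
    rw [hM]
    exact_mod_cast (by omega : n ≤ n - (k + 1) + (k + 1))
  have h2 : M ^ k * lam (n - (k + 1)) ^ 2 ≤ C := by
    rw [pow_succ] at h1
    by_contra hc
    push Not at hc
    nlinarith [mul_lt_mul_of_pos_right hc hM0]
  have h3 : (n : ℝ) ^ k * lam (n - (k + 1)) ^ 2 ≤ C :=
    (mul_le_mul_of_nonneg_right (pow_le_pow_left₀ (Nat.cast_nonneg n) hnM k)
      (sq_nonneg _)).trans h2
  calc (n : ℝ) ^ (k + 1) * lam (n - (k + 1)) ^ 2
      = ((n : ℝ) ^ k * lam (n - (k + 1)) ^ 2) * n := by ring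
    _ ≤ C * n := mul_le_mul_of_nonneg_right h3 (Nat.cast_nonneg n)

theorem sum4_le (f : Fin N → ℝ) (L : ℝ) :
    ∑ a, ∑ b, ∑ c, ∑ d, L * (f a * (f b * (f c * f d))) = L * (∑ a, f a) ^ 4 := by
  simp only [← Finset.mul_sum, ← Finset.sum_mul]
  ring

theorem sum3_le (f : Fin N → ℝ) (L : ℝ) :
    ∑ a, ∑ b, ∑ c, L * (f a * (f b * f c)) = L * (∑ a, f a) ^ 3 := by
  simp only [← Finset.mul_sum, ← Finset.sum_mul]
  ring

theorem ite_int (P : Prop) [Decidable P] (F : (Fin N → R3) → ℝ) :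
    (if P then ∫ x, F x ∂pin ν N else 0) = ∫ x, (if P then F x else 0) ∂pin ν N := by
  split_ifs <;> simp

theorem ite_bm {P : Prop} [Decidable P] {F : (Fin N → R3) → ℝ} (hF : BM F) :
    BM (fun x => if P then F x else 0) := by
  by_cases h : P
  · simpa [h] using hF
  · simpa [h] using BM.const (Y := Fin N → R3) 0

theorem sum_X4_le [IsFiniteMeasure ν] (h : Wd ν m g Q B) {f : (Fin N → R3) → ℝ} (hf : BM f)
    (hl0 : ∀ n, 0 ≤ lam n) (hla : Antitone lam) {c3 : ℝ}
    (hc3 : ∀ n : ℕ, ((n + 4 : ℕ) : ℝ) ^ 4 * lam n ^ 2 ≤ c3 * ((n + 4 : ℕ) : ℝ)) :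
    ∑ a, ∑ b, ∑ c, ∑ d, X4 ν lam Q B f a b c d ≤ c3 * Nw ν Q f := by
  unfold X4 II
  simp only [ite_int]
  rw [sum4_int fun a b c d => ite_bm (II_bm h hf _)]
  unfold Nw
  rw [← integral_const_mul]
  refine integral_mono ((BM.sum _ fun a _ => BM.sum _ fun b _ => BM.sum _ fun c _ =>
    BM.sum _ fun d _ => ite_bm (II_bm h hf _)).integrable _)
    ((((BM_cnt h.Q_meas univ).mul (hf.pow 2)).const_mul c3).integrable _) fun x => ?_
  simp only
  calc ∑ a, ∑ b, ∑ c, ∑ d, (if [a, b, c, d].Nodup then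
        lam (cnt B ({a, b, c, d} : Finset (Fin N))ᶜ x) ^ 2 *
          ((∏ j ∈ ({a, b, c, d} : Finset (Fin N)), ind Q (x j)) * f x ^ 2) else 0)
      ≤ ∑ a, ∑ b, ∑ c, ∑ d, (lam (cnt Q univ x - 4) ^ 2 * f x ^ 2) *
          (ind Q (x a) * (ind Q (x b) * (ind Q (x c) * ind Q (x d)))) := by
        refine Finset.sum_le_sum fun a _ => Finset.sum_le_sum fun b _ =>
          Finset.sum_le_sum fun c _ => Finset.sum_le_sum fun d _ => ?_
        have hp : 0 ≤ ind Q (x a) * (ind Q (x b) * (ind Q (x c) * ind Q (x d))) := by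
          have := ind_nonneg Q
          have h1 := this (x a)
          have h2 := this (x b)
          have h3 := this (x c)
          have h4 := this (x d)
          positivity
        split_ifs with hnd
        · rw [prod4 hnd (fun j => ind Q (x j))]
          by_cases hall : ∀ j ∈ ({a, b, c, d} : Finset (Fin N)), x j ∈ Q
          · have hcard : (({a, b, c, d} : Finset (Fin N)) ∩ univ).card ≤ 4 :=
              (Finset.card_le_card Finset.inter_subset_left).trans Finset.card_le_four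
            have h5 := lam_sq_le hl0 hla (cnt_compl_ge h.Q_sub (S := univ) x hall hcard)
            have h6 := mul_le_mul_of_nonneg_right h5 (mul_nonneg hp (sq_nonneg (f x)))
            calc _ ≤ _ := h6
              _ = _ := by ring
          · push Not at hall
            obtain ⟨j, hj, hjQ⟩ := hall
            have h0 : ind Q (x a) * (ind Q (x b) * (ind Q (x c) * ind Q (x d))) = 0 := by
              rw [← prod4 hnd (fun j => ind Q (x j))]
              exact Finset.prod_eq_zero hj (ind_of_notMem hjQ)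
            rw [h0]
            simp
        · positivity
    _ = (lam (cnt Q univ x - 4) ^ 2 * f x ^ 2) * (cnt Q univ x : ℝ) ^ 4 := by
        rw [sum4_le (fun j => ind Q (x j)), cnt_eq_sum]
    _ = ((cnt Q univ x : ℝ) ^ 4 * lam (cnt Q univ x - 4) ^ 2) * f x ^ 2 := by ring
    _ ≤ (c3 * (cnt Q univ x : ℝ)) * f x ^ 2 :=
        mul_le_mul_of_nonneg_right (pow_lam_le (by norm_num) hc3 _) (sq_nonneg _)
    _ = c3 * ((cnt Q univ x : ℝ) * f x ^ 2) := by ring

theorem sum_X3_le [IsFiniteMeasure ν] (h : Wd ν m g Q B) {f : (Fin N → R3) → ℝ} (hf : BM f)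
    (hl0 : ∀ n, 0 ≤ lam n) (hla : Antitone lam) {c2 : ℝ}
    (hc2 : ∀ n : ℕ, ((n + 3 : ℕ) : ℝ) ^ 3 * lam n ^ 2 ≤ c2 * ((n + 3 : ℕ) : ℝ)) :
    ∑ a, ∑ b, ∑ c, X3 ν lam Q B f a b c ≤ c2 * Nw ν Q f := by
  unfold X3 II
  simp only [ite_int]
  rw [sum3_int fun a b c => ite_bm (II_bm h hf _)]
  unfold Nw
  rw [← integral_const_mul]
  refine integral_mono ((BM.sum _ fun a _ => BM.sum _ fun b _ => BM.sum _ fun c _ =>
    ite_bm (II_bm h hf _)).integrable _)
    ((((BM_cnt h.Q_meas univ).mul (hf.pow 2)).const_mul c2).integrable _) fun x => ?_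
  simp only
  calc ∑ a, ∑ b, ∑ c, (if [a, b, c].Nodup then
        lam (cnt B ({a, b, c} : Finset (Fin N))ᶜ x) ^ 2 *
          ((∏ j ∈ ({a, b, c} : Finset (Fin N)), ind Q (x j)) * f x ^ 2) else 0)
      ≤ ∑ a, ∑ b, ∑ c, (lam (cnt Q univ x - 3) ^ 2 * f x ^ 2) *
          (ind Q (x a) * (ind Q (x b) * ind Q (x c))) := by
        refine Finset.sum_le_sum fun a _ => Finset.sum_le_sum fun b _ =>
          Finset.sum_le_sum fun c _ => ?_
        have hp : 0 ≤ ind Q (x a) * (ind Q (x b) * ind Q (x c)) := by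
          have := ind_nonneg Q
          have h1 := this (x a)
          have h2 := this (x b)
          have h3 := this (x c)
          positivity
        split_ifs with hnd
        · rw [prod3 hnd (fun j => ind Q (x j))]
          by_cases hall : ∀ j ∈ ({a, b, c} : Finset (Fin N)), x j ∈ Q
          · have hcard : (({a, b, c} : Finset (Fin N)) ∩ univ).card ≤ 3 :=
              (Finset.card_le_card Finset.inter_subset_left).trans Finset.card_le_three
            have h5 := lam_sq_le hl0 hla (cnt_compl_ge h.Q_sub (S := univ) x hall hcard)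
            have h6 := mul_le_mul_of_nonneg_right h5 (mul_nonneg hp (sq_nonneg (f x)))
            calc _ ≤ _ := h6
              _ = _ := by ring
          · push Not at hall
            obtain ⟨j, hj, hjQ⟩ := hall
            have h0 : ind Q (x a) * (ind Q (x b) * ind Q (x c)) = 0 := by
              rw [← prod3 hnd (fun j => ind Q (x j))]
              exact Finset.prod_eq_zero hj (ind_of_notMem hjQ)
            rw [h0]
            simp
        · positivity
    _ = (lam (cnt Q univ x - 3) ^ 2 * f x ^ 2) * (cnt Q univ x : ℝ) ^ 3 := by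
        rw [sum3_le (fun j => ind Q (x j)), cnt_eq_sum]
    _ = ((cnt Q univ x : ℝ) ^ 3 * lam (cnt Q univ x - 3) ^ 2) * f x ^ 2 := by ring
    _ ≤ (c2 * (cnt Q univ x : ℝ)) * f x ^ 2 :=
        mul_le_mul_of_nonneg_right (pow_lam_le (by norm_num) hc2 _) (sq_nonneg _)
    _ = c2 * ((cnt Q univ x : ℝ) * f x ^ 2) := by ring

/-- Sum of the terms with five particles, one of them (`j`) fixed; `G` is the set of the five
particles in some order and `P` implies that they are distinct. -/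
theorem sum_five_le [IsFiniteMeasure ν] (h : Wd ν m g Q B) {f : (Fin N → R3) → ℝ} (hf : BM f)
    (hl0 : ∀ n, 0 ≤ lam n) (hla : Antitone lam) {c4 : ℝ}
    (hc4 : ∀ n : ℕ, ((n + 4 : ℕ) : ℝ) ^ 4 * lam n ^ 2 ≤ c4) (j : Fin N)
    (G : Fin N → Fin N → Fin N → Fin N → Finset (Fin N))
    (P : Fin N → Fin N → Fin N → Fin N → Prop) [∀ a b c d, Decidable (P a b c d)]
    (hG : ∀ a b c d, G a b c d = {j, a, b, c, d})
    (hP : ∀ a b c d, P a b c d → [j, a, b, c, d].Nodup) :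
    ∑ a, ∑ b, ∑ c, ∑ d, (if P a b c d then II ν lam Q B (G a b c d) f else 0)
      ≤ c4 * ∫ x, ind Q (x j) * f x ^ 2 ∂pin ν N := by
  unfold II
  simp only [ite_int]
  rw [sum4_int fun a b c d => ite_bm (II_bm h hf _), ← integral_const_mul]
  refine integral_mono ((BM.sum _ fun a _ => BM.sum _ fun b _ => BM.sum _ fun c _ =>
    BM.sum _ fun d _ => ite_bm (II_bm h hf _)).integrable _)
    ((((BM_ind_at h.Q_meas j).mul (hf.pow 2)).const_mul c4).integrable _) fun x => ?_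
  simp only
  have hsum : ∑ a : Fin N, (if a = j then 0 else ind Q (x a)) = (cnt Q {j}ᶜ x : ℝ) := by
    rw [cnt_eq_sum, ← Finset.sum_filter_add_sum_filter_not univ (fun a => a = j)]
    have e1 : ∑ a ∈ univ.filter (fun a => a = j), (if a = j then 0 else ind Q (x a)) = 0 :=
      Finset.sum_eq_zero fun a ha => by rw [if_pos (Finset.mem_filter.1 ha).2]
    rw [e1, zero_add]
    have e2 : univ.filter (fun a : Fin N => ¬ a = j) = ({j}ᶜ : Finset (Fin N)) := by
      ext a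
      simp
    rw [e2]
    refine Finset.sum_congr rfl fun a ha => ?_
    rw [if_neg (by simpa using ha)]
  have hi0 : ∀ a : Fin N, 0 ≤ (if a = j then 0 else ind Q (x a)) := fun a => by
    split_ifs
    · exact le_rfl
    · exact ind_nonneg _ _
  calc ∑ a, ∑ b, ∑ c, ∑ d, (if P a b c d then
        lam (cnt B (G a b c d)ᶜ x) ^ 2 *
          ((∏ i ∈ G a b c d, ind Q (x i)) * f x ^ 2) else 0)
      ≤ ∑ a, ∑ b, ∑ c, ∑ d, (lam (cnt Q {j}ᶜ x - 4) ^ 2 * (ind Q (x j) * f x ^ 2)) *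
          ((if a = j then 0 else ind Q (x a)) * ((if b = j then 0 else ind Q (x b)) *
            ((if c = j then 0 else ind Q (x c)) * (if d = j then 0 else ind Q (x d))))) := by
        refine Finset.sum_le_sum fun a _ => Finset.sum_le_sum fun b _ =>
          Finset.sum_le_sum fun c _ => Finset.sum_le_sum fun d _ => ?_
        have hp : 0 ≤ (if a = j then 0 else ind Q (x a)) * ((if b = j then 0 else ind Q (x b)) *
            ((if c = j then 0 else ind Q (x c)) * (if d = j then 0 else ind Q (x d)))) :=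
          mul_nonneg (hi0 a) (mul_nonneg (hi0 b) (mul_nonneg (hi0 c) (hi0 d)))
        have hj0 := ind_nonneg Q (x j)
        by_cases hnP : P a b c d
        · rw [if_pos hnP, hG]
          have hnd := hP a b c d hnP
          have hnd' := hnd
          simp only [List.nodup_cons, List.mem_cons, List.not_mem_nil, or_false, not_or,
            not_false_eq_true, List.nodup_nil, and_true] at hnd'
          obtain ⟨⟨h1, h2, h3, h4⟩, -⟩ := hnd'
          rw [if_neg (Ne.symm h1), if_neg (Ne.symm h2), if_neg (Ne.symm h3),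
            if_neg (Ne.symm h4)] at hp ⊢
          rw [prod5 hnd (fun j => ind Q (x j))]
          by_cases hall : ∀ i ∈ ({j, a, b, c, d} : Finset (Fin N)), x i ∈ Q
          · have hcard : (({j, a, b, c, d} : Finset (Fin N)) ∩ {j}ᶜ).card ≤ 4 := by
              refine (Finset.card_le_card (t := ({a, b, c, d} : Finset (Fin N))) ?_).trans
                Finset.card_le_four
              intro i hi
              simp only [Finset.mem_inter, Finset.mem_insert, Finset.mem_singleton,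
                Finset.mem_compl] at hi ⊢
              tauto
            have h5 := lam_sq_le hl0 hla (cnt_compl_ge h.Q_sub (S := {j}ᶜ) x hall hcard)
            have h6 := mul_le_mul_of_nonneg_right h5 (mul_nonneg (mul_nonneg hj0 hp)
              (sq_nonneg (f x)))
            calc _ ≤ _ := h6
              _ = _ := by ring
          · push Not at hall
            obtain ⟨i, hi, hiQ⟩ := hall
            have h0 : ind Q (x j) * (ind Q (x a) * (ind Q (x b) * (ind Q (x c) * ind Q (x d))))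
                = 0 := by
              rw [← prod5 hnd (fun j => ind Q (x j))]
              exact Finset.prod_eq_zero hi (ind_of_notMem hiQ)
            rw [h0]
            simp only [zero_mul, mul_zero]
            exact mul_nonneg (mul_nonneg (sq_nonneg _) (mul_nonneg hj0 (sq_nonneg _))) hp
        · rw [if_neg hnP]
          exact mul_nonneg (mul_nonneg (sq_nonneg _) (mul_nonneg hj0 (sq_nonneg _))) hp
    _ = (lam (cnt Q {j}ᶜ x - 4) ^ 2 * (ind Q (x j) * f x ^ 2)) * (cnt Q {j}ᶜ x : ℝ) ^ 4 := by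
        rw [sum4_le (fun a => if a = j then 0 else ind Q (x a)), hsum]
    _ = ((cnt Q {j}ᶜ x : ℝ) ^ 4 * lam (cnt Q {j}ᶜ x - 4) ^ 2) * (ind Q (x j) * f x ^ 2) := by ring
    _ ≤ c4 * (ind Q (x j) * f x ^ 2) := by
        refine mul_le_mul_of_nonneg_right ?_ (mul_nonneg (ind_nonneg _ _) (sq_nonneg _))
        refine (mul_le_mul_of_nonneg_right (pow_le_pow_left₀ (Nat.cast_nonneg _) ?_ 4)
          (sq_nonneg _)).trans (hc4 (cnt Q {j}ᶜ x - 4))
        exact_mod_cast (by omega : cnt Q {j}ᶜ x ≤ cnt Q {j}ᶜ x - 4 + 4)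

/-! ### Reordering of sums -/

theorem reord1 (Y : Fin N → Fin N → Fin N → Fin N → Fin N → ℝ) :
    ∑ a, ∑ b, ∑ c, ∑ b', ∑ c', Y a b c b' c' = ∑ b', ∑ a, ∑ b, ∑ c, ∑ c', Y a b c b' c' := by
  symm
  refine Finset.sum_comm.trans (Finset.sum_congr rfl fun a _ => ?_)
  refine Finset.sum_comm.trans (Finset.sum_congr rfl fun b _ => ?_)
  exact Finset.sum_comm

theorem sum_X5a_le [IsFiniteMeasure ν] (h : Wd ν m g Q B) {Ψ : (Fin N → R3) → ℝ} (hΨ : BM Ψ)
    (hl0 : ∀ n, 0 ≤ lam n) (hla : Antitone lam) {c4 : ℝ}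
    (hc4 : ∀ n : ℕ, ((n + 4 : ℕ) : ℝ) ^ 4 * lam n ^ 2 ≤ c4) :
    ∑ a, ∑ b, ∑ c, ∑ b', ∑ c', X5 ν lam Q B (rough ν g b' Ψ) a b c b' c' ≤
      c4 * Dw ν g Q Ψ := by
  rw [reord1]
  unfold Dw
  rw [Finset.mul_sum]
  refine Finset.sum_le_sum fun j _ => ?_
  unfold X5
  refine sum_five_le h (rough_bm h hΨ j) hl0 hla hc4 j (fun a b c c' => {a, b, c, j, c'})
    (fun a b c c' => [a, b, c, j, c'].Nodup) (fun a b c d => ?_) (fun a b c d hn => ?_)
  · ext i
    simp only [Finset.mem_insert, Finset.mem_singleton]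
    tauto
  · simp only [List.nodup_cons, List.mem_cons, List.not_mem_nil, or_false, not_or,
      not_false_eq_true, List.nodup_nil, and_true] at hn ⊢
    obtain ⟨⟨h1, h2, h3, h4⟩, ⟨h5, h6, h7⟩, ⟨h8, h9⟩, h10⟩ := hn
    exact ⟨⟨Ne.symm h3, Ne.symm h6, Ne.symm h8, h10⟩, ⟨h1, h2, h4⟩, ⟨h5, h7⟩, h9⟩

theorem sum_X5b_le [IsFiniteMeasure ν] (h : Wd ν m g Q B) {Ψ : (Fin N → R3) → ℝ} (hΨ : BM Ψ)
    (hl0 : ∀ n, 0 ≤ lam n) (hla : Antitone lam) {c4 : ℝ}
    (hc4 : ∀ n : ℕ, ((n + 4 : ℕ) : ℝ) ^ 4 * lam n ^ 2 ≤ c4) :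
    ∑ a, ∑ b, ∑ c, ∑ b', ∑ c', X5 ν lam Q B (rough ν g b Ψ) a b c b' c' ≤
      c4 * Dw ν g Q Ψ := by
  rw [Finset.sum_comm]
  unfold Dw
  rw [Finset.mul_sum]
  refine Finset.sum_le_sum fun j _ => ?_
  unfold X5
  refine sum_five_le h (rough_bm h hΨ j) hl0 hla hc4 j (fun a c b' c' => {a, j, c, b', c'})
    (fun a c b' c' => [a, j, c, b', c'].Nodup) (fun a b c d => ?_) (fun a b c d hn => ?_)
  · ext i
    simp only [Finset.mem_insert, Finset.mem_singleton]
    tauto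
  · simp only [List.nodup_cons, List.mem_cons, List.not_mem_nil, or_false, not_or,
      not_false_eq_true, List.nodup_nil, and_true] at hn ⊢
    obtain ⟨⟨h1, h2, h3, h4⟩, ⟨h5, h6, h7⟩, ⟨h8, h9⟩, h10⟩ := hn
    exact ⟨⟨Ne.symm h1, h5, h6, h7⟩, ⟨h2, h3, h4⟩, ⟨h8, h9⟩, h10⟩

/-! ### The pairs of patterns -/

/-- The summands of `Zf`. -/
noncomputable def GG (ν : Measure R3) (g : R3 → ℝ) (F : Finset (Fin N) → (Fin N → R3) → ℝ)
    (a b c : Fin N) : (Fin N → R3) → ℝ :=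
  ops ν g (if b < c then 0 else 1) c (ops ν g 2 b (F {a, b, c}))

noncomputable def HH (ν : Measure R3) (g : R3 → ℝ) (F : Finset (Fin N) → (Fin N → R3) → ℝ)
    (a b c : Fin N) (x : Fin N → R3) : ℝ :=
  if a < b ∧ c ≠ a ∧ c ≠ b then GG ν g F a b c x else 0

theorem Zf_eq (F : Finset (Fin N) → (Fin N → R3) → ℝ) (a : Fin N) (x : Fin N → R3) :
    Zf ν g F a x = ∑ b, ∑ c, HH ν g F a b c x := rfl

theorem HH_bm [IsFiniteMeasure ν] (h : Wd ν m g Q B) {F : Finset (Fin N) → (Fin N → R3) → ℝ}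
    (hF : ∀ T, BM (F T)) (a b c : Fin N) : BM (HH ν g F a b c) :=
  ite_bm (ops_bm h (ops_bm h (hF _) _ _) _ _)

theorem GG_comm [IsFiniteMeasure ν] (h : Wd ν m g Q B) {F : Finset (Fin N) → (Fin N → R3) → ℝ}
    (hF : ∀ T, BM (F T)) (a : Fin N) {b c : Fin N} (hbc : b ≠ c) :
    GG ν g F a b c = ops ν g 2 b (ops ν g (if b < c then 0 else 1) c (F {a, b, c})) :=
  ops_comm h (hF _) hbc _ _

theorem set_swap (a b c : Fin N) : ({a, b, c} : Finset (Fin N)) = {a, c, b} := by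
  ext i
  simp only [Finset.mem_insert, Finset.mem_singleton]
  tauto

theorem Zf_supp [SigmaFinite ν] {F : Finset (Fin N) → (Fin N → R3) → ℝ}
    (hF : ∀ T ∈ powersetCard 3 (univ : Finset (Fin N)), ∀ x, F T x ≠ 0 → ∀ j ∈ T, x j ∈ Q)
    (a : Fin N) (x : Fin N → R3) (hx : x a ∉ Q) : Zf ν g F a x = 0 := by
  rw [Zf_eq]
  refine Finset.sum_eq_zero fun b _ => Finset.sum_eq_zero fun c _ => ?_
  unfold HH
  split_ifs with hc
  · obtain ⟨hab, hca, hcb⟩ := hc
    by_contra h0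
    apply hx
    refine ops_supp (Q := Q) hca.symm (fun y hy => ops_supp (Q := Q) hab.ne (fun y hy => ?_) _ y hy)
      _ x h0
    refine hF {a, b, c} ?_ y hy a (by simp)
    rw [Finset.mem_powersetCard]
    refine ⟨Finset.subset_univ _, ?_⟩
    rw [Finset.card_insert_of_notMem (by simp [hab.ne, hca.symm]),
      Finset.card_insert_of_notMem (by simp [hcb.symm]), Finset.card_singleton]
  · rfl

/-- The bound of the pairs. -/
noncomputable def RR (ν : Measure R3) (lam : ℕ → ℝ) (g : R3 → ℝ) (Q B : Set R3)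
    (Ψ : (Fin N → R3) → ℝ) (k5 k4 k3 : ℝ) (a b c b' c' : Fin N) : ℝ :=
  k5 * (X5 ν lam Q B (rough ν g b' Ψ) a b c b' c' + X5 ν lam Q B (rough ν g b Ψ) a b c b' c') +
  k4 * ((if b' = b then X4 ν lam Q B Ψ a b c c' else 0) +
    (if c' = b then X4 ν lam Q B Ψ a b c b' else 0) +
    (if b' = c then X4 ν lam Q B Ψ a c b c' else 0) +
    (if c' = c then X4 ν lam Q B Ψ a c b b' else 0)) +
  k3 * ((if b' = b then (if c' = c then X3 ν lam Q B Ψ a b c else 0) else 0) +
    (if b' = c then (if c' = b then X3 ν lam Q B Ψ a b c else 0) else 0))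

theorem ite_nn {P : Prop} [Decidable P] {t : ℝ} (ht : 0 ≤ t) : 0 ≤ if P then t else 0 := by
  split_ifs
  · exact ht
  · exact le_rfl

theorem pair_le [IsFiniteMeasure ν] (hD : S_ZD) (hC : S_ZC) (hS : S_ZS) (h : Wd ν m g Q B)
    {Ψ : (Fin N → R3) → ℝ} (hΨ : BM Ψ) (hl0 : ∀ n, 0 ≤ lam n) (hla : Antitone lam)
    {W : Finset (Fin N) → (Fin N → R3) → ℝ} {χ : R3 → ℝ} {ω γ : ℝ} (hW : TW ν m Q W χ ω γ)
    (hF : ∀ T, BM (FT ν g B lam W Ψ T)) (a b c b' c' : Fin N) :
    ∫ x, HH ν g (FT ν g B lam W Ψ) a b c x * HH ν g (FT ν g B lam W Ψ) a b' c' x ∂pin ν N ≤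
      RR ν lam g Q B Ψ (4 * ω ^ 2 * γ ^ 3 * (1 / m) ^ 3) (100 * ω ^ 2 * γ ^ 3 * (1 / m) ^ 3)
        (3000 * ω ^ 2 * γ ^ 2 * (1 / m) ^ 2) a b c b' c' := by
  have hm : 0 < m := lt_of_lt_of_le one_pos h.hm
  have hω := hW.ω_nn
  have hγ := hW.γ_nn
  have hk5 : 0 ≤ 4 * ω ^ 2 * γ ^ 3 * (1 / m) ^ 3 := by positivity
  have hk4 : 0 ≤ 100 * ω ^ 2 * γ ^ 3 * (1 / m) ^ 3 := by positivity
  have hk3 : 0 ≤ 3000 * ω ^ 2 * γ ^ 2 * (1 / m) ^ 2 := by positivity
  have n5 : 0 ≤ (4 * ω ^ 2 * γ ^ 3 * (1 / m) ^ 3) * (X5 ν lam Q B (rough ν g b' Ψ) a b c b' c' +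
      X5 ν lam Q B (rough ν g b Ψ) a b c b' c') :=
    mul_nonneg hk5 (add_nonneg (X5_nonneg _ _ _ _ _ _) (X5_nonneg _ _ _ _ _ _))
  have n41 : 0 ≤ (if b' = b then X4 ν lam Q B Ψ a b c c' else 0) := ite_nn (X4_nonneg _ _ _ _ _)
  have n42 : 0 ≤ (if c' = b then X4 ν lam Q B Ψ a b c b' else 0) := ite_nn (X4_nonneg _ _ _ _ _)
  have n43 : 0 ≤ (if b' = c then X4 ν lam Q B Ψ a c b c' else 0) := ite_nn (X4_nonneg _ _ _ _ _)
  have n44 : 0 ≤ (if c' = c then X4 ν lam Q B Ψ a c b b' else 0) := ite_nn (X4_nonneg _ _ _ _ _)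
  have n31 : 0 ≤ (if b' = b then (if c' = c then X3 ν lam Q B Ψ a b c else 0) else 0) :=
    ite_nn (ite_nn (X3_nonneg _ _ _ _))
  have n32 : 0 ≤ (if b' = c then (if c' = b then X3 ν lam Q B Ψ a b c else 0) else 0) :=
    ite_nn (ite_nn (X3_nonneg _ _ _ _))
  unfold RR
  by_cases hP : a < b ∧ c ≠ a ∧ c ≠ b
  swap
  · unfold HH
    simp only [if_neg hP, zero_mul, integral_zero]
    have := mul_nonneg hk4 (add_nonneg (add_nonneg (add_nonneg n41 n42) n43) n44)
    have := mul_nonneg hk3 (add_nonneg n31 n32)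
    linarith
  by_cases hP' : a < b' ∧ c' ≠ a ∧ c' ≠ b'
  swap
  · unfold HH
    simp only [if_neg hP', mul_zero, integral_zero]
    have := mul_nonneg hk4 (add_nonneg (add_nonneg (add_nonneg n41 n42) n43) n44)
    have := mul_nonneg hk3 (add_nonneg n31 n32)
    linarith
  have e1 : ∀ x, HH ν g (FT ν g B lam W Ψ) a b c x * HH ν g (FT ν g B lam W Ψ) a b' c' x =
      GG ν g (FT ν g B lam W Ψ) a b c x * GG ν g (FT ν g B lam W Ψ) a b' c' x := by
    intro x
    unfold HH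
    rw [if_pos hP, if_pos hP']
  simp only [e1]
  obtain ⟨hab, hca, hcb⟩ := hP
  obtain ⟨hab', hca', hcb'⟩ := hP'
  have nab := hab.ne
  have nab' := hab'.ne
  refine (le_abs_self _).trans ?_
  by_cases hb : b' = b
  · by_cases hc : c' = c
    · -- same pattern
      rw [hb, hc] at n5 n41 n42 n43 n44 n31 n32 ⊢
      have hnd : [a, b, c].Nodup := by
        simp [nab, hca.symm, hcb.symm]
      have key := hS ν m g Q B h Ψ hΨ lam hl0 hla W χ ω γ hW a b c hnd
        (if b < c then 0 else 1) 2 (if b < c then 0 else 1) 2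
      have hx : (if b = b then (if c = c then X3 ν lam Q B Ψ a b c else 0) else 0) =
          II ν lam Q B {a, b, c} Ψ := by
        rw [if_pos rfl, if_pos rfl]
        unfold X3
        rw [if_pos hnd]
      have h4 := mul_nonneg hk4 (add_nonneg (add_nonneg (add_nonneg n41 n42) n43) n44)
      have h3 := mul_nonneg hk3 n32
      have h1 : |∫ x, GG ν g (FT ν g B lam W Ψ) a b c x * GG ν g (FT ν g B lam W Ψ) a b c x
          ∂pin ν N| ≤ (3000 * ω ^ 2 * γ ^ 2 * (1 / m) ^ 2) * II ν lam Q B {a, b, c} Ψ := key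
      rw [← hx] at h1
      linarith
    · -- common `b`
      have hnd : [a, b, c, c'].Nodup := by
        simp [nab, hca.symm, hcb.symm, hca'.symm, Ne.symm hc, show b ≠ c' from hb ▸ hcb'.symm]
      have key := hC ν m g Q B h Ψ hΨ lam hl0 hla W χ ω γ hW a b c c' hnd
        2 (if b < c then 0 else 1) 2 (if b < c' then 0 else 1)
      have hx : (if b' = b then X4 ν lam Q B Ψ a b c c' else 0) =
          II ν lam Q B {a, b, c, c'} Ψ := by
        rw [if_pos hb]
        unfold X4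
        rw [if_pos hnd]
      have h4 := mul_nonneg hk4 (add_nonneg (add_nonneg n42 n43) n44)
      have h3 := mul_nonneg hk3 (add_nonneg n31 n32)
      have h1 : |∫ x, GG ν g (FT ν g B lam W Ψ) a b c x * GG ν g (FT ν g B lam W Ψ) a b' c' x
          ∂pin ν N| ≤ (100 * ω ^ 2 * γ ^ 3 * (1 / m) ^ 3) * II ν lam Q B {a, b, c, c'} Ψ := by
        rw [hb, GG_comm h hF a hcb.symm, GG_comm h hF a (show b ≠ c' from hb ▸ hcb'.symm)]
        exact key
      rw [← hx] at h1
      linarith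
  · by_cases hb2 : b' = c
    · by_cases hc : c' = b
      · -- the same triple, other pattern
        have hnd : [a, b, c].Nodup := by
          simp [nab, hca.symm, hcb.symm]
        have key := hS ν m g Q B h Ψ hΨ lam hl0 hla W χ ω γ hW a b c hnd
          (if b < c then 0 else 1) 2 2 (if c < b then 0 else 1)
        have hx : (if b' = c then (if c' = b then X3 ν lam Q B Ψ a b c else 0) else 0) =
            II ν lam Q B {a, b, c} Ψ := by
          rw [if_pos hb2, if_pos hc]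
          unfold X3
          rw [if_pos hnd]
        have h4 := mul_nonneg hk4 (add_nonneg (add_nonneg (add_nonneg n41 n42) n43) n44)
        have h3 := mul_nonneg hk3 n31
        have h1 : |∫ x, GG ν g (FT ν g B lam W Ψ) a b c x * GG ν g (FT ν g B lam W Ψ) a b' c' x
            ∂pin ν N| ≤ (3000 * ω ^ 2 * γ ^ 2 * (1 / m) ^ 2) * II ν lam Q B {a, b, c} Ψ := by
          rw [hb2, hc, GG_comm h hF a hcb, set_swap a c b]
          exact key
        rw [← hx] at h1
        linarith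
      · -- common `c = b'`
        have hnd : [a, c, b, c'].Nodup := by
          simp [nab, hca.symm, hcb, hca'.symm, Ne.symm hc, show c ≠ c' from hb2 ▸ hcb'.symm]
        have key := hC ν m g Q B h Ψ hΨ lam hl0 hla W χ ω γ hW a c b c' hnd
          (if b < c then 0 else 1) 2 2 (if c < c' then 0 else 1)
        have hx : (if b' = c then X4 ν lam Q B Ψ a c b c' else 0) =
            II ν lam Q B {a, c, b, c'} Ψ := by
          rw [if_pos hb2]
          unfold X4
          rw [if_pos hnd]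
        have h4 := mul_nonneg hk4 (add_nonneg (add_nonneg n41 n42) n44)
        have h3 := mul_nonneg hk3 (add_nonneg n31 n32)
        have h1 : |∫ x, GG ν g (FT ν g B lam W Ψ) a b c x * GG ν g (FT ν g B lam W Ψ) a b' c' x
            ∂pin ν N| ≤ (100 * ω ^ 2 * γ ^ 3 * (1 / m) ^ 3) * II ν lam Q B {a, c, b, c'} Ψ := by
          rw [hb2, GG_comm h hF a (show c ≠ c' from hb2 ▸ hcb'.symm)]
          unfold GG
          rw [set_swap a b c]
          exact key
        rw [← hx] at h1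
        linarith
    · by_cases hc : c' = b
      · -- common `b = c'`
        have hnd : [a, b, c, b'].Nodup := by
          simp [nab, hca.symm, hcb.symm, nab', Ne.symm hb, Ne.symm hb2]
        have key := hC ν m g Q B h Ψ hΨ lam hl0 hla W χ ω γ hW a b c b' hnd
          2 (if b < c then 0 else 1) (if b' < b then 0 else 1) 2
        have hx : (if c' = b then X4 ν lam Q B Ψ a b c b' else 0) =
            II ν lam Q B {a, b, c, b'} Ψ := by
          rw [if_pos hc]
          unfold X4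
          rw [if_pos hnd]
        have h4 := mul_nonneg hk4 (add_nonneg (add_nonneg n41 n43) n44)
        have h3 := mul_nonneg hk3 (add_nonneg n31 n32)
        have h1 : |∫ x, GG ν g (FT ν g B lam W Ψ) a b c x * GG ν g (FT ν g B lam W Ψ) a b' c' x
            ∂pin ν N| ≤ (100 * ω ^ 2 * γ ^ 3 * (1 / m) ^ 3) * II ν lam Q B {a, b, c, b'} Ψ := by
          rw [hc, GG_comm h hF a hcb.symm]
          unfold GG
          rw [set_swap a b' b]
          exact key
        rw [← hx] at h1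
        linarith
      · by_cases hc2 : c' = c
        · -- common `c = c'`
          have hnd : [a, c, b, b'].Nodup := by
            simp [nab, hca.symm, hcb, nab', Ne.symm hb, Ne.symm hb2]
          have key := hC ν m g Q B h Ψ hΨ lam hl0 hla W χ ω γ hW a c b b' hnd
            (if b < c then 0 else 1) 2 (if b' < c then 0 else 1) 2
          have hx : (if c' = c then X4 ν lam Q B Ψ a c b b' else 0) =
              II ν lam Q B {a, c, b, b'} Ψ := by
            rw [if_pos hc2]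
            unfold X4
            rw [if_pos hnd]
          have h4 := mul_nonneg hk4 (add_nonneg (add_nonneg n41 n42) n43)
          have h3 := mul_nonneg hk3 (add_nonneg n31 n32)
          have h1 : |∫ x, GG ν g (FT ν g B lam W Ψ) a b c x * GG ν g (FT ν g B lam W Ψ) a b' c' x
              ∂pin ν N| ≤ (100 * ω ^ 2 * γ ^ 3 * (1 / m) ^ 3) * II ν lam Q B {a, c, b, b'} Ψ := by
            rw [hc2]
            unfold GG
            rw [set_swap a b' c, set_swap a b c]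
            exact key
          rw [← hx] at h1
          linarith
        · -- only `a` in common
          have hnd : [a, b, c, b', c'].Nodup := by
            simp [nab, hca.symm, hcb.symm, nab', hca'.symm, hcb'.symm, Ne.symm hb, Ne.symm hb2,
              Ne.symm hc, Ne.symm hc2]
          have ho : ∀ p q : Fin N, (if p < q then (0 : Fin 3) else 1) ≠ 2 := by
            intro p q
            split_ifs <;> decide
          have key := hD ν m g Q B h Ψ hΨ lam hl0 hla W χ ω γ hW a b c b' c' hnd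
            (if b < c then 0 else 1) (if b' < c' then 0 else 1) (ho _ _) (ho _ _)
          have hx : X5 ν lam Q B (rough ν g b' Ψ) a b c b' c' +
              X5 ν lam Q B (rough ν g b Ψ) a b c b' c' =
              II ν lam Q B {a, b, c, b', c'} (rough ν g b' Ψ) +
              II ν lam Q B {a, b, c, b', c'} (rough ν g b Ψ) := by
            unfold X5
            rw [if_pos hnd, if_pos hnd]
          have h4 := mul_nonneg hk4 (add_nonneg (add_nonneg (add_nonneg n41 n42) n43) n44)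
          have h3 := mul_nonneg hk3 (add_nonneg n31 n32)
          have h1 : |∫ x, GG ν g (FT ν g B lam W Ψ) a b c x * GG ν g (FT ν g B lam W Ψ) a b' c' x
              ∂pin ν N| ≤ (4 * ω ^ 2 * γ ^ 3 * (1 / m) ^ 3) *
                (II ν lam Q B {a, b, c, b', c'} (rough ν g b' Ψ) +
                  II ν lam Q B {a, b, c, b', c'} (rough ν g b Ψ)) := key
          rw [← hx] at h1
          linarith

/-- The sum of the bounds. -/
theorem sum_RR_le [IsFiniteMeasure ν] (h : Wd ν m g Q B) {Ψ : (Fin N → R3) → ℝ} (hΨ : BM Ψ)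
    (hl0 : ∀ n, 0 ≤ lam n) (hla : Antitone lam) {c2 c3 c4 k5 k4 k3 : ℝ} (hk5 : 0 ≤ k5)
    (hk4 : 0 ≤ k4) (hk3 : 0 ≤ k3)
    (hc2 : ∀ n : ℕ, ((n + 3 : ℕ) : ℝ) ^ 3 * lam n ^ 2 ≤ c2 * ((n + 3 : ℕ) : ℝ))
    (hc3 : ∀ n : ℕ, ((n + 4 : ℕ) : ℝ) ^ 4 * lam n ^ 2 ≤ c3 * ((n + 4 : ℕ) : ℝ))
    (hc4 : ∀ n : ℕ, ((n + 4 : ℕ) : ℝ) ^ 4 * lam n ^ 2 ≤ c4) :
    ∑ a, ∑ b, ∑ c, ∑ b', ∑ c', RR ν lam g Q B Ψ k5 k4 k3 a b c b' c' ≤
      k5 * (2 * (c4 * Dw ν g Q Ψ)) + k4 * (4 * (c3 * Nw ν Q Ψ)) + k3 * (2 * (c2 * Nw ν Q Ψ)) := by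
  have e : ∑ a, ∑ b, ∑ c, ∑ b', ∑ c', RR ν lam g Q B Ψ k5 k4 k3 a b c b' c' =
      k5 * (∑ a, ∑ b, ∑ c, ∑ b', ∑ c', X5 ν lam Q B (rough ν g b' Ψ) a b c b' c' +
        ∑ a, ∑ b, ∑ c, ∑ b', ∑ c', X5 ν lam Q B (rough ν g b Ψ) a b c b' c') +
      k4 * (∑ a, ∑ b, ∑ c, ∑ d, X4 ν lam Q B Ψ a b c d + ∑ a, ∑ b, ∑ c, ∑ d, X4 ν lam Q B Ψ a b c d +
        ∑ a, ∑ b, ∑ c, ∑ d, X4 ν lam Q B Ψ a b c d + ∑ a, ∑ b, ∑ c, ∑ d, X4 ν lam Q B Ψ a b c d) +
      k3 * (∑ a, ∑ b, ∑ c, X3 ν lam Q B Ψ a b c + ∑ a, ∑ b, ∑ c, X3 ν lam Q B Ψ a b c) := by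
    have f1 : ∑ a, ∑ b, ∑ c, ∑ b', ∑ c', (if b' = b then X4 ν lam Q B Ψ a b c c' else 0) =
        ∑ a, ∑ b, ∑ c, ∑ d, X4 ν lam Q B Ψ a b c d := by
      refine Finset.sum_congr rfl fun a _ => Finset.sum_congr rfl fun b _ =>
        Finset.sum_congr rfl fun c _ => ?_
      rw [Finset.sum_comm]
      simp
    have f2 : ∑ a, ∑ b, ∑ c, ∑ b', ∑ c', (if c' = b then X4 ν lam Q B Ψ a b c b' else 0) =
        ∑ a, ∑ b, ∑ c, ∑ d, X4 ν lam Q B Ψ a b c d := by
      refine Finset.sum_congr rfl fun a _ => Finset.sum_congr rfl fun b _ =>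
        Finset.sum_congr rfl fun c _ => ?_
      simp
    have f3 : ∑ a, ∑ b, ∑ c, ∑ b', ∑ c', (if b' = c then X4 ν lam Q B Ψ a c b c' else 0) =
        ∑ a, ∑ b, ∑ c, ∑ d, X4 ν lam Q B Ψ a b c d := by
      refine Finset.sum_congr rfl fun a _ => ?_
      rw [Finset.sum_comm]
      refine Finset.sum_congr rfl fun c _ => Finset.sum_congr rfl fun b _ => ?_
      rw [Finset.sum_comm]
      simp
    have f4 : ∑ a, ∑ b, ∑ c, ∑ b', ∑ c', (if c' = c then X4 ν lam Q B Ψ a c b b' else 0) =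
        ∑ a, ∑ b, ∑ c, ∑ d, X4 ν lam Q B Ψ a b c d := by
      refine Finset.sum_congr rfl fun a _ => ?_
      rw [Finset.sum_comm]
      refine Finset.sum_congr rfl fun c _ => Finset.sum_congr rfl fun b _ => ?_
      simp
    have f5 : ∑ a, ∑ b, ∑ c, ∑ b', ∑ c',
        (if b' = b then (if c' = c then X3 ν lam Q B Ψ a b c else 0) else 0) =
        ∑ a, ∑ b, ∑ c, X3 ν lam Q B Ψ a b c := by
      refine Finset.sum_congr rfl fun a _ => Finset.sum_congr rfl fun b _ =>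
        Finset.sum_congr rfl fun c _ => ?_
      rw [Finset.sum_comm]
      simp
    have f6 : ∑ a, ∑ b, ∑ c, ∑ b', ∑ c',
        (if b' = c then (if c' = b then X3 ν lam Q B Ψ a b c else 0) else 0) =
        ∑ a, ∑ b, ∑ c, X3 ν lam Q B Ψ a b c := by
      refine Finset.sum_congr rfl fun a _ => Finset.sum_congr rfl fun b _ =>
        Finset.sum_congr rfl fun c _ => ?_
      rw [Finset.sum_comm]
      simp
    unfold RR
    simp only [Finset.sum_add_distrib, ← Finset.mul_sum]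
    rw [f1, f2, f3, f4, f5, f6]
  rw [e]
  have g1 := sum_X5a_le h hΨ hl0 hla hc4
  have g2 := sum_X5b_le h hΨ hl0 hla hc4
  have g3 := sum_X4_le h hΨ hl0 hla hc3
  have g4 := sum_X3_le h hΨ hl0 hla hc2
  refine add_le_add (add_le_add (mul_le_mul_of_nonneg_left ?_ hk5)
    (mul_le_mul_of_nonneg_left ?_ hk4)) (mul_le_mul_of_nonneg_left ?_ hk3)
  · linarith
  · linarith
  · linarith

theorem sq_sum (H : Fin N → Fin N → ℝ) :
    (∑ b, ∑ c, H b c) ^ 2 = ∑ b, ∑ c, ∑ b', ∑ c', H b c * H b' c' := by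
  rw [sq, Finset.sum_mul]
  refine Finset.sum_congr rfl fun b _ => ?_
  rw [Finset.sum_mul]
  refine Finset.sum_congr rfl fun c _ => ?_
  rw [Finset.mul_sum]
  refine Finset.sum_congr rfl fun b' _ => ?_
  rw [Finset.mul_sum]

theorem Dw_nonneg (f : (Fin N → R3) → ℝ) : 0 ≤ Dw ν g Q f :=
  Finset.sum_nonneg fun _ _ => integral_nonneg fun _ => mul_nonneg (ind_nonneg _ _) (sq_nonneg _)

theorem Nw_nonneg (f : (Fin N → R3) → ℝ) : 0 ≤ Nw ν Q f :=
  integral_nonneg fun _ => mul_nonneg (Nat.cast_nonneg _) (sq_nonneg _)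

end TwoRoughAux

open TwoRoughAux

/-- **The final estimate of the linear term with at least two rough particles.** -/
theorem TwoRough (hL : S_ZLin) (hD : S_ZD) (hC : S_ZC) (hS : S_ZS) : S_TwoRough := by
  intro N ν _ m g Q B h Ψ hΨ lam hl0 hla W χ ω γ hW c2 c3 c4 hc2 hc3 hc4 τ hτ
  have hm : 0 < m := lt_of_lt_of_le one_pos h.hm
  have hω := hW.ω_nn
  have hγ := hW.γ_nn
  have hF : ∀ T, BM (FT ν g B lam W Ψ T) := fun T =>
    (hW.bm T).mul ((BM_cnt_comp h.B_meas Tᶜ lam).mul (av_bm h hΨ))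
  have hFs : ∀ T ∈ powersetCard 3 (univ : Finset (Fin N)), ∀ x, FT ν g B lam W Ψ T x ≠ 0 →
      ∀ j ∈ T, x j ∈ Q := by
    intro T hT x hx j hj
    by_contra hc
    apply hx
    have h1 := hW.maj T hT j hj x
    have h2 : ∏ i ∈ T, ind Q (x i) = 0 := Finset.prod_eq_zero hj (ind_of_notMem hc)
    rw [h2, mul_zero, mul_zero] at h1
    have h3 : W T x = 0 := abs_eq_zero.1 (le_antisymm h1 (abs_nonneg _))
    unfold FT
    rw [h3, zero_mul]
  rw [hL ν m g Q B h Ψ hΨ (FT ν g B lam W Ψ) hF]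
  have hZbm : ∀ a, BM (Zf ν g (FT ν g B lam W Ψ) a) := fun a =>
    BM.sum _ fun b _ => BM.sum _ fun c _ => HH_bm h hF a b c
  -- Cauchy-Schwarz
  have s1 : |∑ a, ∫ x, Zf ν g (FT ν g B lam W Ψ) a x * rough ν g a Ψ x ∂pin ν N| ≤
      2⁻¹ * τ * Dw ν g Q Ψ +
        2⁻¹ * τ⁻¹ * ∑ a, ∫ x, Zf ν g (FT ν g B lam W Ψ) a x ^ 2 ∂pin ν N := by
    refine (Finset.abs_sum_le_sum_abs _ _).trans ?_
    unfold Dw
    rw [Finset.mul_sum, Finset.mul_sum, ← Finset.sum_add_distrib]
    refine Finset.sum_le_sum fun a _ => ?_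
    have hq := rough_bm h hΨ a
    rw [← integral_const_mul, ← integral_const_mul, ← integral_add
      ((((BM_ind_at h.Q_meas a).mul (hq.pow 2)).const_mul _).integrable _)
      ((((hZbm a).pow 2).const_mul _).integrable _)]
    refine (abs_integral_le_integral_abs).trans (integral_mono
      (((hZbm a).mul hq).abs.integrable _)
      (((((BM_ind_at h.Q_meas a).mul (hq.pow 2)).const_mul _).add
        (((hZbm a).pow 2).const_mul _)).integrable _) fun x => ?_)
    simp only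
    by_cases hx : x a ∈ Q
    · rw [ind_of_mem hx, abs_le]
      set u := Zf ν g (FT ν g B lam W Ψ) a x
      set v := rough ν g a Ψ x
      have hτ' : τ * τ⁻¹ = 1 := mul_inv_cancel₀ hτ.ne'
      have p1 : 0 ≤ τ⁻¹ * (u + τ * v) ^ 2 := by positivity
      have p2 : 0 ≤ τ⁻¹ * (u - τ * v) ^ 2 := by positivity
      have q1 : τ⁻¹ * (u + τ * v) ^ 2 = τ⁻¹ * u ^ 2 + 2 * (u * v) + τ * v ^ 2 := by
        field_simp
        ring
      have q2 : τ⁻¹ * (u - τ * v) ^ 2 = τ⁻¹ * u ^ 2 - 2 * (u * v) + τ * v ^ 2 := by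
        field_simp
        ring
      rw [q1] at p1
      rw [q2] at p2
      constructor <;> linarith
    · rw [Zf_supp hFs a x hx, ind_of_notMem hx]
      simp
  -- the squares
  have s2 : ∑ a, ∫ x, Zf ν g (FT ν g B lam W Ψ) a x ^ 2 ∂pin ν N ≤
      ∑ a, ∑ b, ∑ c, ∑ b', ∑ c', RR ν lam g Q B Ψ (4 * ω ^ 2 * γ ^ 3 * (1 / m) ^ 3)
        (100 * ω ^ 2 * γ ^ 3 * (1 / m) ^ 3) (3000 * ω ^ 2 * γ ^ 2 * (1 / m) ^ 2) a b c b' c' := by
    refine Finset.sum_le_sum fun a _ => ?_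
    have e1 : ∀ x, Zf ν g (FT ν g B lam W Ψ) a x ^ 2 = ∑ b, ∑ c, ∑ b', ∑ c',
        HH ν g (FT ν g B lam W Ψ) a b c x * HH ν g (FT ν g B lam W Ψ) a b' c' x := fun x => by
      rw [Zf_eq, sq_sum]
    simp only [e1]
    rw [← sum4_int fun b c b' c' => (HH_bm h hF a b c).mul (HH_bm h hF a b' c')]
    exact Finset.sum_le_sum fun b _ => Finset.sum_le_sum fun c _ => Finset.sum_le_sum fun b' _ =>
      Finset.sum_le_sum fun c' _ => pair_le hD hC hS h hΨ hl0 hla hW hF a b c b' c'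
  have s3 := sum_RR_le h hΨ hl0 hla (k5 := 4 * ω ^ 2 * γ ^ 3 * (1 / m) ^ 3)
    (k4 := 100 * ω ^ 2 * γ ^ 3 * (1 / m) ^ 3) (k3 := 3000 * ω ^ 2 * γ ^ 2 * (1 / m) ^ 2)
    (by positivity) (by positivity) (by positivity) hc2 hc3 hc4
  have c2n : 0 ≤ c2 := by
    have h1 := hc2 0
    norm_num at h1
    nlinarith [sq_nonneg (lam 0)]
  have c3n : 0 ≤ c3 := by
    have h1 := hc3 0
    norm_num at h1
    nlinarith [sq_nonneg (lam 0)]
  have c4n : 0 ≤ c4 := by
    have h1 := hc4 0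
    norm_num at h1
    nlinarith [sq_nonneg (lam 0)]
  have hDn : 0 ≤ Dw ν g Q Ψ := Dw_nonneg Ψ
  have hNn : 0 ≤ Nw ν Q Ψ := Nw_nonneg Ψ
  have hτi : 0 < τ⁻¹ := inv_pos.2 hτ
  have s4 := mul_le_mul_of_nonneg_left (s2.trans s3) (by positivity : 0 ≤ 2⁻¹ * τ⁻¹)
  refine s1.trans ?_
  set A1 := τ⁻¹ * ω ^ 2 * γ ^ 2 * (γ * (1 / m) ^ 3 * (c4 * Dw ν g Q Ψ)) with hA1
  set A2 := τ⁻¹ * ω ^ 2 * γ ^ 2 * (γ * (1 / m) ^ 3 * (c3 * Nw ν Q Ψ)) with hA2
  set A3 := τ⁻¹ * ω ^ 2 * γ ^ 2 * ((1 / m) ^ 2 * c2 * Nw ν Q Ψ) with hA3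
  have a1 : 0 ≤ A1 := by positivity
  have a2 : 0 ≤ A2 := by positivity
  have a3 : 0 ≤ A3 := by positivity
  have e5 : 2⁻¹ * τ⁻¹ * (4 * ω ^ 2 * γ ^ 3 * (1 / m) ^ 3 * (2 * (c4 * Dw ν g Q Ψ)) +
      100 * ω ^ 2 * γ ^ 3 * (1 / m) ^ 3 * (4 * (c3 * Nw ν Q Ψ)) +
      3000 * ω ^ 2 * γ ^ 2 * (1 / m) ^ 2 * (2 * (c2 * Nw ν Q Ψ))) =
      4 * A1 + 200 * A2 + 3000 * A3 := by
    rw [hA1, hA2, hA3]
    ring
  have e6 : 10000 * τ⁻¹ * ω ^ 2 * γ ^ 2 *
      (γ * (1 / m) ^ 3 * (c4 * Dw ν g Q Ψ + c3 * Nw ν Q Ψ) + (1 / m) ^ 2 * c2 * Nw ν Q Ψ) =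
      10000 * A1 + 10000 * A2 + 10000 * A3 := by
    rw [hA1, hA2, hA3]
    ring
  rw [e5] at s4
  rw [e6]
  have h7 : 0 ≤ τ * Dw ν g Q Ψ := mul_nonneg hτ.le hDn
  linarith

end Pool.Agent.Lib.MP_5db8e2_mp
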