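import Pool.Agent.Lib.MP_5db8e2_mp.LB.Spec8

/-!
# Comparison of the averages in two overlapping windows
-/

set_option autoImplicit false

open MeasureTheory Function Finset
open scoped Classical

namespace Pool.Agent.Lib.MP_5db8e2_mp

namespace TwoWinAux

variable {N : ℕ}

/-- the telescoping identity for two families of commuting averages -/
theorem tel {X : Type*} [MeasurableSpace X] (lam lam' : Measure X) [IsFiniteMeasure lam]
    [IsFiniteMeasure lam'] (A : Finset (Fin N)) :
    ∃ S T : Fin N → Finset (Fin N),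
      (∀ j ∈ A, Disjoint (S j) (T j) ∧ S j ∪ T j = A.erase j) ∧
      ∀ f : (Fin N → X) → ℝ, BM f → ∀ x, Mg lam A f x - Mg lam' A f x =
        ∑ j ∈ A, (Mg lam {j} (Mg lam' (S j) (Mg lam (T j) f)) x
          - Mg lam' {j} (Mg lam' (S j) (Mg lam (T j) f)) x) := by
  induction A using Finset.induction_on with
  | empty =>
    refine ⟨fun _ => ∅, fun _ => ∅, by simp, ?_⟩
    intro f _ x
    simp [Mg_empty]
  | insert c A hc ih =>
    obtain ⟨S, T, hST, hf⟩ := ih
    refine ⟨fun j => if j = c then A else S j, fun j => if j = c then ∅ else insert c (T j),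
      ?_, ?_⟩
    · intro j hj
      by_cases hjc : j = c
      · subst hjc
        simp [hc]
      · have hjA : j ∈ A := (Finset.mem_insert.1 hj).resolve_left hjc
        obtain ⟨h1, h2⟩ := hST j hjA
        have hcS : c ∉ S j := by
          intro h
          have : c ∈ A.erase j := by
            rw [← h2]; exact Finset.mem_union_left _ h
          exact hc (Finset.mem_of_mem_erase this)
        simp only [if_neg hjc]
        refine ⟨?_, ?_⟩
        · rw [Finset.disjoint_insert_right]
          exact ⟨hcS, h1⟩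
        · rw [Finset.union_insert, h2, Finset.erase_insert_of_ne (Ne.symm hjc)]
    · intro f hb x
      have h0 : BM (Mg lam {c} f) := Mg_bm hb
      have hd : Disjoint A {c} := Finset.disjoint_singleton_right.2 hc
      rw [Finset.sum_insert hc, Mg_insert' hb hc, Mg_insert' hb hc]
      have e1 := hf _ h0 x
      have e2 : ∑ j ∈ A, (Mg lam {j} (Mg lam' (if j = c then A else S j)
            (Mg lam (if j = c then ∅ else insert c (T j)) f)) x
          - Mg lam' {j} (Mg lam' (if j = c then A else S j)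
            (Mg lam (if j = c then ∅ else insert c (T j)) f)) x) =
          ∑ j ∈ A, (Mg lam {j} (Mg lam' (S j) (Mg lam (T j) (Mg lam {c} f))) x
          - Mg lam' {j} (Mg lam' (S j) (Mg lam (T j) (Mg lam {c} f))) x) := by
        refine Finset.sum_congr rfl fun j hj => ?_
        have hjc : j ≠ c := fun h => hc (h ▸ hj)
        have hcT : c ∉ T j := by
          intro h
          have : c ∈ A.erase j := by
            rw [← (hST j hj).2]; exact Finset.mem_union_right _ h
          exact hc (Finset.mem_of_mem_erase this)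
        simp only [if_neg hjc]
        rw [Mg_insert' hb hcT]
      rw [e2, ← e1]
      simp only [if_true]
      rw [Mg_empty, ← Mg_comm hb hd, ← Mg_comm hb hd]
      ring

variable {ν : Measure R3} [IsFiniteMeasure ν] {m : ℝ} {g g' : R3 → ℝ} {Q Q' B B' : Set R3}

/-- Jensen and the bound of the densities for an average of an average. -/
theorem sq_le (h : Wd ν m g Q B) (h' : Wd ν m g' Q' B') (hQB : Q' ⊆ B)
    {S T : Finset (Fin N)} (hd : Disjoint S T) {f : (Fin N → R3) → ℝ} (hf : BM f)
    (x : Fin N → R3) :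
    (av ν g' S (av ν g T f) x) ^ 2 ≤
      (1 / m) ^ (S ∪ T).card * Mg ν (S ∪ T) (fun x => (∏ i ∈ S ∪ T, ind B (x i)) * f x ^ 2) x := by
  have hm : 0 < m := lt_of_lt_of_le one_pos h.hm
  have hav : BM (av ν g T f) := av_bm h hf
  have hB : MeasurableSet B := h.B_meas
  have h1 : (av ν g' S (av ν g T f) x) ^ 2 ≤
      (1 / m) ^ S.card * Mg ν S (fun x => (∏ j ∈ S, ind Q' (x j)) * av ν g T f x ^ 2) x :=
    (av_sq_le h' hav x).trans (av_le h' (hav.pow 2) (fun _ => sq_nonneg _) x)
  have h2 : ∀ y, (av ν g T f y) ^ 2 ≤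
      (1 / m) ^ T.card * Mg ν T (fun x => (∏ j ∈ T, ind Q (x j)) * f x ^ 2) y := fun y =>
    (av_sq_le h hf y).trans (av_le h (hf.pow 2) (fun _ => sq_nonneg _) y)
  have hindle : ∀ c, ind Q c ≤ ind B c := by
    intro c
    by_cases hcc : c ∈ Q
    · rw [ind_of_mem hcc, ind_of_mem (h.Q_sub hcc)]
    · rw [ind_of_notMem hcc]; exact ind_nonneg _ _
  have hindle' : ∀ c, ind Q' c ≤ ind B c := by
    intro c
    by_cases hcc : c ∈ Q'
    · rw [ind_of_mem hcc, ind_of_mem (hQB hcc)]
    · rw [ind_of_notMem hcc]; exact ind_nonneg _ _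
  have hPQ : BM (fun x : Fin N → R3 => (∏ j ∈ T, ind Q (x j)) * f x ^ 2) :=
    (BM_prod_ind h.Q_meas T).mul (hf.pow 2)
  have hPB : BM (fun x : Fin N → R3 => (∏ j ∈ T, ind B (x j)) * f x ^ 2) :=
    (BM_prod_ind hB T).mul (hf.pow 2)
  have h3 : ∀ y, Mg ν T (fun x => (∏ j ∈ T, ind Q (x j)) * f x ^ 2) y ≤
      Mg ν T (fun x => (∏ j ∈ T, ind B (x j)) * f x ^ 2) y := by
    intro y
    apply Mg_mono hPQ hPB
    intro z
    exact mul_le_mul_of_nonneg_right
      (Finset.prod_le_prod (fun _ _ => ind_nonneg _ _) fun _ _ => hindle _) (sq_nonneg _)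
  have hR : BM (fun x : Fin N → R3 => (∏ j ∈ S, ind B (x j)) *
      ((1 / m) ^ T.card * Mg ν T (fun x => (∏ j ∈ T, ind B (x j)) * f x ^ 2) x)) :=
    (BM_prod_ind hB S).mul ((Mg_bm hPB).const_mul _)
  have h4 : Mg ν S (fun x => (∏ j ∈ S, ind Q' (x j)) * av ν g T f x ^ 2) x ≤
      Mg ν S (fun x => (∏ j ∈ S, ind B (x j)) *
        ((1 / m) ^ T.card * Mg ν T (fun x => (∏ j ∈ T, ind B (x j)) * f x ^ 2) x)) x := by
    apply Mg_mono ((BM_prod_ind h'.Q_meas S).mul (hav.pow 2)) hR
    intro z
    apply mul_le_mul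
    · exact Finset.prod_le_prod (fun _ _ => ind_nonneg _ _) fun _ _ => hindle' _
    · exact (h2 z).trans (mul_le_mul_of_nonneg_left (h3 z) (by positivity))
    · exact sq_nonneg _
    · exact Finset.prod_nonneg fun _ _ => ind_nonneg _ _
  have e1 : (fun x : Fin N → R3 => (∏ j ∈ S, ind B (x j)) *
      ((1 / m) ^ T.card * Mg ν T (fun x => (∏ j ∈ T, ind B (x j)) * f x ^ 2) x)) =
      fun x => (1 / m) ^ T.card * Mg ν T (fun x => (∏ i ∈ S ∪ T, ind B (x i)) * f x ^ 2) x := by
    have hdep : DependsOn (fun x : Fin N → R3 => ∏ j ∈ S, ind B (x j))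
        ((T : Set (Fin N))ᶜ) := by
      intro y z hyz
      refine Finset.prod_congr rfl fun j hj => ?_
      rw [hyz j (by
        simp only [Set.mem_compl_iff, Finset.mem_coe]
        exact Finset.disjoint_left.1 hd hj)]
    have e2 : (fun x : Fin N → R3 => (∏ i ∈ S ∪ T, ind B (x i)) * f x ^ 2) =
        fun x => (∏ j ∈ S, ind B (x j)) * ((∏ j ∈ T, ind B (x j)) * f x ^ 2) := by
      ext1 x
      rw [Finset.prod_union hd, mul_assoc]
    rw [e2, Mg_mul_left _ hdep]
    ext1 x
    ring
  have hU : BM (fun x : Fin N → R3 => (∏ i ∈ S ∪ T, ind B (x i)) * f x ^ 2) :=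
    (BM_prod_ind hB _).mul (hf.pow 2)
  rw [e1, Mg_const_mul] at h4
  simp only [] at h4
  rw [← Mg_union hU hd] at h4
  refine h1.trans ((mul_le_mul_of_nonneg_left h4 (by positivity)).trans (le_of_eq ?_))
  rw [← mul_assoc, ← pow_add, Finset.card_union_of_disjoint hd]

/-- One variable: comparison of the averages on the common part. -/
theorem one (h : Wd ν m g Q B) (h' : Wd ν m g' Q' B') (hv : m ≤ ν.real (Q ∩ Q'))
    {F : (Fin N → R3) → ℝ} (hF : BM F) (j : Fin N) (x : Fin N → R3) :
    (av ν g {j} F x - av ν g' {j} F x) ^ 2 ≤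
      2 * (1 / m) * Mg ν {j} (fun x => ind Q (x j) * rough ν g j F x ^ 2
        + ind Q' (x j) * rough ν g' j F x ^ 2) x := by
  have hm : 0 < m := lt_of_lt_of_le one_pos h.hm
  have hQQ : MeasurableSet (Q ∩ Q') := h.Q_meas.inter h'.Q_meas
  have b1 : BM (av ν g {j} F) := av_bm h hF
  have b2 : BM (av ν g' {j} F) := av_bm h' hF
  have bD : BM (fun x => (av ν g {j} F x - av ν g' {j} F x) ^ 2) := (b1.sub b2).pow 2
  have bR : BM (fun x : Fin N → R3 => 2 * (ind Q (x j) * rough ν g j F x ^ 2
        + ind Q' (x j) * rough ν g' j F x ^ 2)) :=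
    (((BM_ind_at h.Q_meas j).mul ((rough_bm h hF j).pow 2)).add
      ((BM_ind_at h'.Q_meas j).mul ((rough_bm h' hF j).pow 2))).const_mul 2
  have hle : Mg ν {j} (fun x => ind (Q ∩ Q') (x j) * (av ν g {j} F x - av ν g' {j} F x) ^ 2) x ≤
      Mg ν {j} (fun x => 2 * (ind Q (x j) * rough ν g j F x ^ 2
        + ind Q' (x j) * rough ν g' j F x ^ 2)) x := by
    apply Mg_mono ((BM_ind_at hQQ j).mul bD) bR
    intro y
    by_cases hy : y j ∈ Q ∩ Q'
    · rw [ind_of_mem hy, ind_of_mem hy.1, ind_of_mem hy.2]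
      have : av ν g {j} F y - av ν g' {j} F y = rough ν g' j F y - rough ν g j F y := by
        unfold rough; ring
      rw [this]
      nlinarith [sq_nonneg (rough ν g' j F y + rough ν g j F y)]
    · rw [ind_of_notMem hy, zero_mul]
      have := ind_nonneg Q (y j)
      have := ind_nonneg Q' (y j)
      positivity
  have hdep : DependsOn (fun x => (av ν g {j} F x - av ν g' {j} F x) ^ 2)
      ((({j} : Finset (Fin N)) : Set (Fin N))ᶜ) := by
    intro y z hyz
    have e1 := av_dep (ν := ν) (g := g) (A := {j}) F hyz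
    have e2 := av_dep (ν := ν) (g := g') (A := {j}) F hyz
    simp only [e1, e2]
  rw [Mg_mul_right _ hdep, Mg_const_mul] at hle
  simp only [] at hle
  have hvol : Mg ν {j} (fun x => ind (Q ∩ Q') (x j)) x = ν.real (Q ∩ Q') := by
    rw [Mg_singleton]
    simp only [Function.update_self]
    unfold ind
    rw [integral_indicator hQQ]
    simp [Measure.real]
  rw [hvol] at hle
  have h1 : m * (av ν g {j} F x - av ν g' {j} F x) ^ 2 ≤
      2 * Mg ν {j} (fun x => ind Q (x j) * rough ν g j F x ^ 2
        + ind Q' (x j) * rough ν g' j F x ^ 2) x :=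
    (mul_le_mul_of_nonneg_right hv (sq_nonneg _)).trans hle
  have h2 : (av ν g {j} F x - av ν g' {j} F x) ^ 2 ≤
      (2 * Mg ν {j} (fun x => ind Q (x j) * rough ν g j F x ^ 2
        + ind Q' (x j) * rough ν g' j F x ^ 2) x) / m := by
    rw [le_div_iff₀ hm]
    linarith
  refine h2.trans (le_of_eq ?_)
  field_simp

end TwoWinAux

open TwoWinAux in
theorem TwoWin : S_TwoWin := by
  intro N ν _ m g g' Q Q' B B' h h' hQB hv Ψ w hΨ hw hw0 A hwd x0
  have hm : 0 < m := lt_of_lt_of_le one_pos h.hm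
  have hp := h.prob
  have hp' := h'.prob
  have hB : MeasurableSet B := h.B_meas
  obtain ⟨S, T, hST, htel⟩ := tel (wm ν g) (wm ν g') A
  -- the functions under the integrals
  set G : Fin N → (Fin N → R3) → ℝ := fun j x => (∏ i ∈ A, ind B (x i)) *
    (ind Q (x j) * rough ν g j Ψ x ^ 2 + ind Q' (x j) * rough ν g' j Ψ x ^ 2) with hG
  have hGb : ∀ j, BM (G j) := fun j => (BM_prod_ind hB A).mul
    (((BM_ind_at h.Q_meas j).mul ((rough_bm h hΨ j).pow 2)).add
      ((BM_ind_at h'.Q_meas j).mul ((rough_bm h' hΨ j).pow 2)))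
  have key : ∀ x, (av ν g A Ψ x - av ν g' A Ψ x) ^ 2 ≤
      2 * A.card * (1 / m) ^ A.card * ∑ j ∈ A, Mg ν A (G j) x := by
    intro x
    have e0 : av ν g A Ψ x - av ν g' A Ψ x = ∑ j ∈ A,
        (av ν g {j} (av ν g' (S j) (av ν g (T j) Ψ)) x
          - av ν g' {j} (av ν g' (S j) (av ν g (T j) Ψ)) x) := htel Ψ hΨ x
    have e1 : (av ν g A Ψ x - av ν g' A Ψ x) ^ 2 ≤ A.card * ∑ j ∈ A,
        (av ν g {j} (av ν g' (S j) (av ν g (T j) Ψ)) x
          - av ν g' {j} (av ν g' (S j) (av ν g (T j) Ψ)) x) ^ 2 := by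
      rw [e0]
      exact sq_sum_le_card_mul_sum_sq
    have e2 : ∀ j ∈ A, (av ν g {j} (av ν g' (S j) (av ν g (T j) Ψ)) x
          - av ν g' {j} (av ν g' (S j) (av ν g (T j) Ψ)) x) ^ 2 ≤
        2 * (1 / m) ^ A.card * Mg ν A (G j) x := by
      intro j hj
      obtain ⟨hd, hun⟩ := hST j hj
      have hjS : j ∉ S j := by
        intro hjs
        have : j ∈ A.erase j := by
          rw [← hun]; exact Finset.mem_union_left _ hjs
        exact (Finset.notMem_erase j A) this
      have hjT : j ∉ T j := by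
        intro hjs
        have : j ∈ A.erase j := by
          rw [← hun]; exact Finset.mem_union_right _ hjs
        exact (Finset.notMem_erase j A) this
      have bT : BM (av ν g (T j) Ψ) := av_bm h hΨ
      have bF : BM (av ν g' (S j) (av ν g (T j) Ψ)) := av_bm h' bT
      refine (one h h' hv bF j x).trans ?_
      -- the rough parts
      have hdS : Disjoint {j} (S j) := Finset.disjoint_singleton_left.mpr hjS
      have hdT : Disjoint {j} (T j) := Finset.disjoint_singleton_left.mpr hjT
      have r1 : rough ν g j (av ν g' (S j) (av ν g (T j) Ψ)) =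
          av ν g' (S j) (av ν g (T j) (rough ν g j Ψ)) := by
        rw [← rough_av h hΨ hjT]
        ext1 y
        have c1 : av ν g {j} (av ν g' (S j) (av ν g (T j) Ψ)) =
            av ν g' (S j) (av ν g {j} (av ν g (T j) Ψ)) := Mg_comm bT hdS
        have c2 : av ν g' (S j) (fun y => av ν g (T j) Ψ y - av ν g {j} (av ν g (T j) Ψ) y) =
            fun y => av ν g' (S j) (av ν g (T j) Ψ) y
              - av ν g' (S j) (av ν g {j} (av ν g (T j) Ψ)) y :=
          av_sub h' bT (av_bm h bT)
        rw [rough, c1]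
        exact (congrFun c2 y).symm
      have r2 : rough ν g' j (av ν g' (S j) (av ν g (T j) Ψ)) =
          av ν g' (S j) (av ν g (T j) (rough ν g' j Ψ)) := by
        rw [rough_av h' bT hjS]
        congr 1
        ext1 y
        have c1 : av ν g' {j} (av ν g (T j) Ψ) = av ν g (T j) (av ν g' {j} Ψ) := Mg_comm hΨ hdT
        have c2 : av ν g (T j) (fun y => Ψ y - av ν g' {j} Ψ y) =
            fun y => av ν g (T j) Ψ y - av ν g (T j) (av ν g' {j} Ψ) y :=
          av_sub h hΨ (av_bm h' hΨ)
        rw [rough, c1]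
        exact (congrFun c2 y).symm
      rw [r1, r2]
      have bq : BM (rough ν g j Ψ) := rough_bm h hΨ j
      have bq' : BM (rough ν g' j Ψ) := rough_bm h' hΨ j
      have s1 := fun y => sq_le (T := T j) (S := S j) h h' hQB hd bq y
      have s2 := fun y => sq_le (T := T j) (S := S j) h h' hQB hd bq' y
      rw [hun] at s1 s2
      have bH : BM (fun x : Fin N → R3 => (∏ i ∈ A.erase j, ind B (x i)) * rough ν g j Ψ x ^ 2) :=
        (BM_prod_ind hB _).mul (bq.pow 2)
      have bH' : BM (fun x : Fin N → R3 => (∏ i ∈ A.erase j, ind B (x i)) *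
          rough ν g' j Ψ x ^ 2) :=
        (BM_prod_ind hB _).mul (bq'.pow 2)
      have hcard : (A.erase j).card + 1 = A.card := Finset.card_erase_add_one hj
      have m1 : Mg ν {j} (fun x => ind Q (x j) *
            av ν g' (S j) (av ν g (T j) (rough ν g j Ψ)) x ^ 2
          + ind Q' (x j) * av ν g' (S j) (av ν g (T j) (rough ν g' j Ψ)) x ^ 2) x ≤
          Mg ν {j} (fun x => (1 / m) ^ (A.erase j).card * (ind Q (x j) *
            Mg ν (A.erase j) (fun x => (∏ i ∈ A.erase j, ind B (x i)) * rough ν g j Ψ x ^ 2) x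
            + ind Q' (x j) *
            Mg ν (A.erase j) (fun x => (∏ i ∈ A.erase j, ind B (x i)) * rough ν g' j Ψ x ^ 2) x)) x
          := by
        apply Mg_mono
        · exact ((BM_ind_at h.Q_meas j).mul ((av_bm h' (av_bm h bq)).pow 2)).add
            ((BM_ind_at h'.Q_meas j).mul ((av_bm h' (av_bm h bq')).pow 2))
        · exact (((BM_ind_at h.Q_meas j).mul (Mg_bm bH)).add
            ((BM_ind_at h'.Q_meas j).mul (Mg_bm bH'))).const_mul _
        · intro y
          have t1 := mul_le_mul_of_nonneg_left (s1 y) (ind_nonneg Q (y j))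
          have t2 := mul_le_mul_of_nonneg_left (s2 y) (ind_nonneg Q' (y j))
          linarith
      have m2 : Mg ν A (G j) = Mg ν {j} (fun x => ind Q (x j) *
            Mg ν (A.erase j) (fun x => (∏ i ∈ A.erase j, ind B (x i)) * rough ν g j Ψ x ^ 2) x
            + ind Q' (x j) *
            Mg ν (A.erase j) (fun x => (∏ i ∈ A.erase j, ind B (x i)) *
              rough ν g' j Ψ x ^ 2) x) := by
        conv_lhs => rw [← Finset.insert_erase hj]
        rw [Mg_insert (hGb j) (Finset.notMem_erase j A)]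
        congr 1
        have hdep : ∀ Z : Set R3, DependsOn (fun x : Fin N → R3 => ind Z (x j))
            (((A.erase j : Finset (Fin N)) : Set (Fin N))ᶜ) := by
          intro Z y z hyz
          have := hyz j (by simp)
          simp only [this]
        have e3 : G j = fun x => ind Q (x j) * ((∏ i ∈ A.erase j, ind B (x i)) *
              rough ν g j Ψ x ^ 2) + ind Q' (x j) * ((∏ i ∈ A.erase j, ind B (x i)) *
              rough ν g' j Ψ x ^ 2) := by
          ext1 y
          simp only [hG]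
          rw [← Finset.mul_prod_erase A (fun i => ind B (y i)) hj]
          have i1 : ind B (y j) * ind Q (y j) = ind Q (y j) := by
            by_cases hy : y j ∈ Q
            · rw [ind_of_mem hy, ind_of_mem (h.Q_sub hy), one_mul]
            · rw [ind_of_notMem hy, mul_zero]
          have i2 : ind B (y j) * ind Q' (y j) = ind Q' (y j) := by
            by_cases hy : y j ∈ Q'
            · rw [ind_of_mem hy, ind_of_mem (hQB hy), one_mul]
            · rw [ind_of_notMem hy, mul_zero]
          calc ind B (y j) * (∏ i ∈ A.erase j, ind B (y i)) *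
                (ind Q (y j) * rough ν g j Ψ y ^ 2 + ind Q' (y j) * rough ν g' j Ψ y ^ 2)
              = (ind B (y j) * ind Q (y j)) * ((∏ i ∈ A.erase j, ind B (y i)) *
                  rough ν g j Ψ y ^ 2) + (ind B (y j) * ind Q' (y j)) *
                  ((∏ i ∈ A.erase j, ind B (y i)) * rough ν g' j Ψ y ^ 2) := by ring
            _ = _ := by rw [i1, i2]
        rw [e3, Mg_add ((BM_ind_at h.Q_meas j).mul bH) ((BM_ind_at h'.Q_meas j).mul bH'),
          Mg_mul_left _ (hdep Q), Mg_mul_left _ (hdep Q')]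
      rw [Mg_const_mul] at m1
      simp only [] at m1
      rw [← m2] at m1
      have t3 := mul_le_mul_of_nonneg_left m1 (show (0 : ℝ) ≤ 2 * (1 / m) by positivity)
      refine t3.trans (le_of_eq ?_)
      rw [← hcard, pow_succ]
      ring
    calc (av ν g A Ψ x - av ν g' A Ψ x) ^ 2 ≤ _ := e1
      _ ≤ A.card * ∑ j ∈ A, (2 * (1 / m) ^ A.card * Mg ν A (G j) x) :=
          mul_le_mul_of_nonneg_left (Finset.sum_le_sum e2) (by positivity)
      _ = _ := by
          rw [← Finset.mul_sum]
          ring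
  have bsum : BM (fun x => ∑ j ∈ A, Mg ν A (G j) x) := BM.sum _ fun j _ => Mg_bm (hGb j)
  have bd : BM (fun x => (av ν g A Ψ x - av ν g' A Ψ x) ^ 2) :=
    ((av_bm h hΨ).sub (av_bm h' hΨ)).pow 2
  have step1 : out ν x0 A (fun x => w x * (av ν g A Ψ x - av ν g' A Ψ x) ^ 2) ≤
      out ν x0 A (fun x => w x * (2 * A.card * (1 / m) ^ A.card * ∑ j ∈ A, Mg ν A (G j) x)) := by
    apply out_mono (hw.mul bd) (hw.mul (bsum.const_mul _))
    intro x
    exact mul_le_mul_of_nonneg_left (key x) (hw0 x)
  refine step1.trans (le_of_eq ?_)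
  have e4 : (fun x => w x * (2 * A.card * (1 / m) ^ A.card * ∑ j ∈ A, Mg ν A (G j) x)) =
      fun x => 2 * A.card * (1 / m) ^ A.card * ∑ j ∈ A, w x * Mg ν A (G j) x := by
    ext1 x
    rw [← Finset.mul_sum]
    ring
  rw [e4, out, Mg_const_mul]
  simp only []
  rw [Mg_sum A (F := fun j x => w x * Mg ν A (G j) x) fun j _ => hw.mul (Mg_bm (hGb j))]
  congr 1
  refine Finset.sum_congr rfl fun j _ => ?_
  rw [integral_eq_out (hw.mul (hGb j)) x0 A, Mg_mul_left _ hwd, out]

end Pool.Agent.Lib.MP_5db8e2_mp
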