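import Pool.Agent.Lib.MP_5db8e2_mp.LB.Spec2
import Pool.Agent.Lib.MP_5db8e2_mp.LB.Spec5

/-!
# The linear term of the four-body charge
-/

set_option autoImplicit false

open MeasureTheory Function Finset
open scoped Classical

namespace Pool.Agent.Lib.MP_5db8e2_mp

/-- One window, one quadruple: the main part. -/
theorem lin4_main (p : Par) (a : Fin 3 → ℤ) (Q : Finset (Fin p.N)) (Wf : (Fin p.N → R3) → ℝ)
    (hW : BM Wf) (c0 : ℝ) (hM : ∀ x, Mg p.nu Q Wf x = c0) (hl : BM (p.l4 a Q))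
    (Ψ : (Fin p.N → R3) → ℝ) (hU : BM (p.U a Q Ψ)) :
    ∫ x, Wf x * (p.l4 a Q x * p.U a Q Ψ x * p.U a Q Ψ x) ∂pin p.nu p.N
      = c0 * out p.nu 0 Q (fun x => p.l4 a Q x * p.U a Q Ψ x ^ 2) := by
  have hdep : DependsOn (fun x => p.l4 a Q x * p.U a Q Ψ x ^ 2) ((Q : Set (Fin p.N))ᶜ) := by
    intro x y hxy
    have h1 : p.l4 a Q x = p.l4 a Q y := by
      have := cnt_dep (Bc p.s a) Qᶜ (x := x) (y := y) (fun i hi => hxy i (by simpa using hi))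
      simp only at this
      simp only [Par.l4, this]
    have h2 : p.U a Q Ψ x = p.U a Q Ψ y := av_dep Ψ hxy
    simp only [h1, h2]
  have e : (fun x => Wf x * (p.l4 a Q x * p.U a Q Ψ x * p.U a Q Ψ x))
      = fun x => (p.l4 a Q x * p.U a Q Ψ x ^ 2) * Wf x := by
    ext1 x; ring
  rw [e, integral_eq_out ((hl.mul (hU.pow 2)).mul hW) 0 Q, Mg_mul_left _ hdep]
  have e2 : (fun x => (p.l4 a Q x * p.U a Q Ψ x ^ 2) * Mg p.nu Q Wf x)
      = fun x => c0 * (p.l4 a Q x * p.U a Q Ψ x ^ 2) := by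
    ext1 x; rw [hM]; ring
  rw [e2, out, Mg_const_mul]
  rfl

theorem Lin4 (hK : S_KerW4) (hR : S_RoughQ) (hC : S_Counts) (hWd : S_WdWin) (hBM : S_BMall) :
    S_Lin4 := by
  intro K
  obtain ⟨C₀, hC₀, hker⟩ := hK K
  refine ⟨16384 + 8 * C₀, by positivity, ?_⟩
  intro V b R r r4 W QQ c hc p hp hL Ψ hΨ τ hτ
  have hs : (1 : ℝ) ≤ p.s := hp.hs
  have hs0 : (0 : ℝ) < p.s := by linarith
  have hM : (8 : ℝ) ≤ p.M := hp.hM
  have hM0 : (0 : ℝ) < p.M := by linarith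
  have hr4 : (0 : ℝ) < r4 := by have := hc.hr; have := hc.hr4; linarith
  obtain ⟨-, -, hl4, hanti, -, -, -, -, hcnt1, hcnt0, -⟩ := hC p.M hM
  -- expansion of the linear term
  have hbm := fun A => hBM V b K R r r4 W QQ c hc p hp Ψ hΨ A
  have hl : ∀ a A, BM (p.l4 a A) := fun a A => (hbm A).2.2.2.2.2.2.2.2.1 a
  have hU : ∀ a ∈ p.win, ∀ A, BM (p.U a A Ψ) := fun a ha A => (hbm A).2.2.2.2.2.2.2.2.2.1 a ha
  have hint : ∀ a ∈ p.win, ∀ Q, BM (fun x => p.W4 c a Q x * (p.l4 a Q x * p.U a Q Ψ x * Ψ x)) :=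
    fun a ha Q => ((hker V b R r r4 W QQ c hc p hp hL a ha).1 Q).mul
      (((hl a Q).mul (hU a ha Q)).mul hΨ)
  have hLin : p.Lin4 c Ψ = ∑ a ∈ p.win, ∑ Q ∈ powersetCard 4 (univ : Finset (Fin p.N)),
      ∫ x, p.W4 c a Q x * (p.l4 a Q x * p.U a Q Ψ x * Ψ x) ∂pin p.nu p.N := by
    rw [Finset.sum_comm]
    unfold Par.Lin4
    refine Finset.sum_congr rfl fun Q hQ => ?_
    have hQ4 : Q.card = 4 := (Finset.mem_powersetCard.1 hQ).2
    rw [← integral_finsetSum _ (fun a ha => (hint a ha Q).integrable _)]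
    refine integral_congr_ae (Filter.Eventually.of_forall fun x => ?_)
    simp only [Par.v4, Par.vt4, Par.W4, hQ4, if_true]
    rw [Finset.mul_sum, Finset.mul_sum]
    refine Finset.sum_congr rfl fun a _ => ?_
    ring
  have hdiff : p.Lin4 c Ψ - W * p.G4 Ψ = ∑ a ∈ p.win,
      ∑ Q ∈ powersetCard 4 (univ : Finset (Fin p.N)),
        ∫ x, p.W4 c a Q x * (lam4 p.M (cnt (Bc p.s a) Qᶜ x) * av p.nu (p.gd a) Q Ψ x *
          (Ψ x - av p.nu (p.gd a) Q Ψ x)) ∂pin p.nu p.N := by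
    rw [hLin, Par.G4, Finset.mul_sum, ← Finset.sum_sub_distrib]
    refine Finset.sum_congr rfl fun a ha => ?_
    rw [Finset.mul_sum, Finset.mul_sum, ← Finset.sum_sub_distrib]
    refine Finset.sum_congr rfl fun Q hQ => ?_
    obtain ⟨hkB, -, -, hkM, -⟩ := hker V b R r r4 W QQ c hc p hp hL a ha
    have h1 := lin4_main p a Q (p.W4 c a Q) (hkB Q) (W * p.s ^ 3) (hkM Q hQ) (hl a Q) Ψ
      (hU a ha Q)
    have h2 : BM (fun x => p.W4 c a Q x * (p.l4 a Q x * p.U a Q Ψ x * p.U a Q Ψ x)) :=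
      (hkB Q).mul (((hl a Q).mul (hU a ha Q)).mul (hU a ha Q))
    have e : (fun x => p.W4 c a Q x * (lam4 p.M (cnt (Bc p.s a) Qᶜ x) * av p.nu (p.gd a) Q Ψ x *
          (Ψ x - av p.nu (p.gd a) Q Ψ x)))
        = fun x => p.W4 c a Q x * (p.l4 a Q x * p.U a Q Ψ x * Ψ x)
          - p.W4 c a Q x * (p.l4 a Q x * p.U a Q Ψ x * p.U a Q Ψ x) := by
      ext1 x
      simp only [Par.l4, Par.U]
      ring
    rw [e, integral_sub ((hint a ha Q).integrable _) (h2.integrable _), h1]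
    ring
  rw [hdiff]
  refine (Finset.abs_sum_le_sum_abs _ _).trans ?_
  have hwin : ∀ a ∈ p.win, |∑ Q ∈ powersetCard 4 (univ : Finset (Fin p.N)),
        ∫ x, p.W4 c a Q x * (lam4 p.M (cnt (Bc p.s a) Qᶜ x) * av p.nu (p.gd a) Q Ψ x *
          (Ψ x - av p.nu (p.gd a) Q Ψ x)) ∂pin p.nu p.N|
      ≤ τ * 2048 * (8 * p.M ^ 3) * Dw p.nu (p.gd a) (Qc p.s a) Ψ
        + τ⁻¹ * (C₀ * p.s ^ 3 * (1 / r4) ^ 9) * (1 / p.s ^ 3) ^ 4 * (8 * p.M ^ 3) *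
          Nw p.nu (Qc p.s a) Ψ := by
    intro a ha
    obtain ⟨hkB, hkD, hkS, -, hkω⟩ := hker V b R r r4 W QQ c hc p hp hL a ha
    apply hR p.nu (p.s ^ 3) (p.gd a) (Qc p.s a) (Bc p.s a) (hWd p hp a ha).1 Ψ hΨ (lam4 p.M)
      (fun n => (hl4 n).1) hanti (p.W4 c a) hkB hkD _ (by positivity) hkS hkω
    · intro n
      have := hcnt0 n 3 (by norm_num)
      calc ((n + 3 : ℕ) : ℝ) ^ 3 * lam4 p.M n ≤ (2 * p.M) ^ 3 := this
        _ = 8 * p.M ^ 3 := by ring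
    · intro n
      have h3 := hcnt1 n 3 (by norm_num)
      have h4 : ((n + 3 + 1 : ℕ) : ℝ) ^ 3 * lam4 p.M n ≤ 8 * p.M ^ 3 := by
        refine h3.trans (le_of_eq ?_); ring
      have h5 := mul_le_mul_of_nonneg_right h4 (Nat.cast_nonneg (α := ℝ) (n + 4))
      calc ((n + 4 : ℕ) : ℝ) ^ 4 * lam4 p.M n
          = ((n + 3 + 1 : ℕ) : ℝ) ^ 3 * lam4 p.M n * ((n + 4 : ℕ) : ℝ) := by
            rw [show n + 3 + 1 = n + 4 by rfl]; ring
        _ ≤ _ := h5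
    · exact hτ
  refine (Finset.sum_le_sum hwin).trans ?_
  rw [Finset.sum_add_distrib, ← Finset.mul_sum, ← Finset.mul_sum]
  have hD : ∑ a ∈ p.win, Dw p.nu (p.gd a) (Qc p.s a) Ψ = p.D Ψ := rfl
  have hN : ∑ a ∈ p.win, Nw p.nu (Qc p.s a) Ψ = p.Nn Ψ := rfl
  rw [hD, hN]
  have hD0 : 0 ≤ p.D Ψ := by
    unfold Par.D Dw
    refine Finset.sum_nonneg fun a _ => Finset.sum_nonneg fun j _ => integral_nonneg fun x => ?_
    exact mul_nonneg (ind_nonneg _ _) (sq_nonneg _)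
  have hN0 : 0 ≤ p.Nn Ψ := by
    unfold Par.Nn Nw
    refine Finset.sum_nonneg fun a _ => integral_nonneg fun x => ?_
    exact mul_nonneg (Nat.cast_nonneg _) (sq_nonneg _)
  have e1 : τ⁻¹ * (C₀ * p.s ^ 3 * (1 / r4) ^ 9) * (1 / p.s ^ 3) ^ 4 * (8 * p.M ^ 3)
      = 8 * C₀ * (τ⁻¹ * (1 / r4) ^ 9 * (p.M / p.s ^ 3) ^ 3) := by
    field_simp
  rw [e1]
  have hx : 0 ≤ τ * p.M ^ 3 * p.D Ψ := by positivity
  have hy : 0 ≤ τ⁻¹ * (1 / r4) ^ 9 * (p.M / p.s ^ 3) ^ 3 * p.Nn Ψ := by positivity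
  nlinarith [mul_nonneg hC₀.le hx, mul_nonneg hC₀.le hy]

end Pool.Agent.Lib.MP_5db8e2_mp
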