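import Pool.Agent.Lib.MP_5db8e2_mp.LB.Spec1

/-!
# Lower bound of the main term of a window
-/

set_option autoImplicit false

open MeasureTheory Function Finset
open scoped Classical

namespace Pool.Agent.Lib.MP_5db8e2_mp

namespace MainLoweraux

variable {N : ℕ}

theorem cnt_add (Z : Set R3) (A A' : Finset (Fin N)) (hd : Disjoint A A') (x : Fin N → R3) :
    cnt Z (A ∪ A') x = cnt Z A x + cnt Z A' x := by
  unfold cnt
  rw [Finset.filter_union, Finset.card_union_of_disjoint (Finset.disjoint_filter_filter hd)]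

theorem cnt_full (Z : Set R3) (A : Finset (Fin N)) (x : Fin N → R3) (h : ∀ j ∈ A, x j ∈ Z) :
    cnt Z A x = A.card := by
  unfold cnt
  rw [Finset.filter_true_of_mem h]

theorem cnt_mono {Z Z' : Set R3} (hZ : Z ⊆ Z') (A : Finset (Fin N)) (x : Fin N → R3) :
    cnt Z A x ≤ cnt Z' A x := by
  unfold cnt
  refine Finset.card_le_card fun j hj => ?_
  rw [Finset.mem_filter] at hj ⊢
  exact ⟨hj.1, hZ hj.2⟩

theorem pt1 {ν : Measure R3} {m : ℝ} {g : R3 → ℝ} {Q B : Set R3} (h : Wd ν m g Q B) (lam : ℕ → ℝ)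
    (A : Finset (Fin N)) (k : ℕ) (hA : A.card = k) (x : Fin N → R3) :
    lam (cnt B Aᶜ x) * ∏ j ∈ A, g (x j) = lam (cnt B univ x - k) * ∏ j ∈ A, g (x j) := by
  by_cases hp : ∏ j ∈ A, g (x j) = 0
  · rw [hp, mul_zero, mul_zero]
  · rw [← ne_eq, Finset.prod_ne_zero_iff] at hp
    have h1 : ∀ j ∈ A, x j ∈ B := fun j hj => h.Q_sub (h.g_supp _ (hp j hj))
    have h2 : cnt B univ x = k + cnt B Aᶜ x := by
      rw [← Finset.union_compl A, cnt_add B A Aᶜ disjoint_compl_right x, cnt_full B A x h1, hA]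
    rw [h2, Nat.add_sub_cancel_left]

theorem sum_filter_mem (j : Fin N) (k : ℕ) (hk : 1 ≤ k) (F : Finset (Fin N) → ℝ) :
    ∑ A ∈ (powersetCard k (univ : Finset (Fin N))).filter (fun A => j ∈ A), F A
      = ∑ A' ∈ powersetCard (k - 1) ({j}ᶜ : Finset (Fin N)), F (insert j A') := by
  refine Finset.sum_nbij' (fun A => A.erase j) (fun A' => insert j A') ?_ ?_ ?_ ?_ ?_
  · intro A hA
    rw [Finset.mem_filter, Finset.mem_powersetCard] at hA
    rw [Finset.mem_powersetCard]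
    refine ⟨fun i hi => ?_, ?_⟩
    · rw [Finset.mem_erase] at hi
      simpa using hi.1
    · rw [Finset.card_erase_of_mem hA.2, hA.1.2]
  · intro A' hA'
    rw [Finset.mem_powersetCard] at hA'
    have hj : j ∉ A' := fun hj => by simpa using hA'.1 hj
    rw [Finset.mem_filter, Finset.mem_powersetCard]
    refine ⟨⟨Finset.subset_univ _, ?_⟩, Finset.mem_insert_self _ _⟩
    rw [Finset.card_insert_of_notMem hj, hA'.2]
    omega
  · intro A hA
    rw [Finset.mem_filter] at hA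
    exact Finset.insert_erase hA.2
  · intro A' hA'
    rw [Finset.mem_powersetCard] at hA'
    have hj : j ∉ A' := fun hj => by simpa using hA'.1 hj
    exact Finset.erase_insert hj
  · intro A hA
    rw [Finset.mem_filter] at hA
    rw [Finset.insert_erase hA.2]

theorem pt2 {ν : Measure R3} {m : ℝ} {g : R3 → ℝ} {Q B : Set R3} (h : Wd ν m g Q B)
    (hC : S_CountK) (lam : ℕ → ℝ) (hanti : Antitone lam) (cl : ℝ)
    (k : ℕ) (hk : 1 ≤ k) (hcl : ∀ n : ℕ, (n.choose (k - 1) : ℝ) * lam (n - (k - 1)) ≤ cl)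
    (j : Fin N) (x : Fin N → R3) :
    ∑ A ∈ (powersetCard k (univ : Finset (Fin N))).filter (fun A => j ∈ A),
      lam (cnt B Aᶜ x) * ∏ i ∈ A, ind Q (x i) ≤ cl * ind Q (x j) := by
  rw [sum_filter_mem j k hk]
  set n := cnt Q ({j}ᶜ : Finset (Fin N)) x with hn
  have h1 : ∀ A' ∈ powersetCard (k - 1) ({j}ᶜ : Finset (Fin N)),
      lam (cnt B (insert j A')ᶜ x) * ∏ i ∈ insert j A', ind Q (x i)
        ≤ (lam (n - (k - 1)) * ind Q (x j)) * ∏ i ∈ A', ind Q (x i) := by
    intro A' hA'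
    rw [Finset.mem_powersetCard] at hA'
    have hj : j ∉ A' := fun hj => by simpa using hA'.1 hj
    rw [Finset.prod_insert hj]
    by_cases hall : ∀ i ∈ A', x i ∈ Q
    · have hsplit : ({j}ᶜ : Finset (Fin N)) = A' ∪ (insert j A')ᶜ := by
        ext i
        simp only [Finset.mem_compl, Finset.mem_singleton, Finset.mem_union, Finset.mem_insert]
        constructor
        · intro hi
          by_cases hiA : i ∈ A'
          · exact Or.inl hiA
          · exact Or.inr (by tauto)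
        · rintro (hi | hi)
          · rintro rfl; exact hj hi
          · tauto
      have hd : Disjoint A' (insert j A')ᶜ := by
        rw [Finset.disjoint_left]
        intro i hi hi2
        rw [Finset.mem_compl, Finset.mem_insert] at hi2
        exact hi2 (Or.inr hi)
      have h2 : n = (k - 1) + cnt Q (insert j A')ᶜ x := by
        rw [hn, hsplit, cnt_add Q _ _ hd, cnt_full Q A' x hall, hA'.2]
      have h3 : n - (k - 1) ≤ cnt B (insert j A')ᶜ x := by
        rw [h2, Nat.add_sub_cancel_left]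
        exact cnt_mono h.Q_sub _ _
      have h4 := hanti h3
      have h5 : 0 ≤ ind Q (x j) * ∏ i ∈ A', ind Q (x i) :=
        mul_nonneg (ind_nonneg _ _) (Finset.prod_nonneg fun i _ => ind_nonneg _ _)
      calc lam (cnt B (insert j A')ᶜ x) * (ind Q (x j) * ∏ i ∈ A', ind Q (x i))
          ≤ lam (n - (k - 1)) * (ind Q (x j) * ∏ i ∈ A', ind Q (x i)) :=
            mul_le_mul_of_nonneg_right h4 h5
        _ = _ := by ring
    · push Not at hall
      obtain ⟨i, hi, hiQ⟩ := hall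
      have h0' : ∏ i ∈ A', ind Q (x i) = 0 := Finset.prod_eq_zero hi (ind_of_notMem hiQ)
      rw [h0']
      simp
  refine (Finset.sum_le_sum h1).trans ?_
  rw [← Finset.mul_sum, hC Q ({j}ᶜ : Finset (Fin N)) (k - 1) x, ← hn]
  have := mul_le_mul_of_nonneg_right (hcl n) (ind_nonneg Q (x j))
  calc lam (n - (k - 1)) * ind Q (x j) * (n.choose (k - 1) : ℝ)
      = (n.choose (k - 1) : ℝ) * lam (n - (k - 1)) * ind Q (x j) := by ring
    _ ≤ _ := this

variable {ν : Measure R3} [IsFiniteMeasure ν] {m : ℝ} {g : R3 → ℝ} {Q B : Set R3}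

theorem dep_lam (B : Set R3) (lam : ℕ → ℝ) (A : Finset (Fin N)) :
    DependsOn (fun x : Fin N → R3 => lam (cnt B Aᶜ x)) ((A : Set (Fin N))ᶜ) := by
  intro x y hxy
  show lam (cnt B Aᶜ x) = lam (cnt B Aᶜ y)
  have := cnt_dep B Aᶜ (x := x) (y := y) (by
    intro i hi
    exact hxy i (by simpa using hi))
  simp only at this
  rw [this]

theorem perA (h : Wd ν m g Q B) (hES : S_EfronStein) (Ψ : (Fin N → R3) → ℝ) (hΨ : BM Ψ)
    (x0 : Fin N → R3) (k : ℕ) (lam : ℕ → ℝ) (h0 : ∀ n, 0 ≤ lam n) (A : Finset (Fin N))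
    (hA : A.card = k) :
    ∫ x, lam (cnt B univ x - k) * (∏ j ∈ A, g (x j)) * Ψ x ^ 2 ∂pin ν N
      - ∑ j ∈ A, (1 / m) ^ k *
        ∫ x, lam (cnt B Aᶜ x) * ((∏ i ∈ A, ind Q (x i)) * rough ν g j Ψ x ^ 2) ∂pin ν N
      ≤ out ν x0 A (fun x => lam (cnt B Aᶜ x) * (av ν g A Ψ x) ^ 2) := by
  have hw : BM (fun x : Fin N → R3 => lam (cnt B Aᶜ x)) := BM_cnt_comp h.B_meas Aᶜ lam
  have hw0 : ∀ x : Fin N → R3, 0 ≤ lam (cnt B Aᶜ x) := fun x => h0 _
  have hwd := dep_lam (N := N) B lam A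
  have hΨ2 : BM (fun x => Ψ x ^ 2) := hΨ.pow 2
  have hr : ∀ j, BM (fun x => rough ν g j Ψ x ^ 2) := fun j => (rough_bm h hΨ j).pow 2
  have hg : BM (fun x : Fin N → R3 => ∏ j ∈ A, g (x j)) :=
    BM.prod A fun j _ => h.bm.comp (measurable_pi_apply j)
  -- the first term
  have e1 : out ν x0 A (fun x => lam (cnt B Aᶜ x) * av ν g A (fun y => Ψ y ^ 2) x)
      = ∫ x, lam (cnt B univ x - k) * (∏ j ∈ A, g (x j)) * Ψ x ^ 2 ∂pin ν N := by
    have e2 : ∀ x : Fin N → R3, lam (cnt B univ x - k) * (∏ j ∈ A, g (x j)) * Ψ x ^ 2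
        = lam (cnt B Aᶜ x) * ((∏ j ∈ A, g (x j)) * Ψ x ^ 2) := by
      intro x
      rw [← pt1 h lam A k hA x]; ring
    simp only [e2]
    rw [integral_eq_out (hw.mul (hg.mul hΨ2)) x0 A, Mg_mul_left _ hwd, av_eq h hΨ2]
  -- pointwise inequality
  have hle : ∀ x, lam (cnt B Aᶜ x) * av ν g A (fun y => Ψ y ^ 2) x
      - ∑ j ∈ A, lam (cnt B Aᶜ x) * av ν g A (fun y => rough ν g j Ψ y ^ 2) x
      ≤ lam (cnt B Aᶜ x) * (av ν g A Ψ x) ^ 2 := by
    intro x
    have h1 := av_var (A := A) h hΨ x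
    have h2 := hES ν m g Q B h Ψ hΨ A x
    rw [h1] at h2
    rw [← Finset.mul_sum, ← mul_sub]
    exact mul_le_mul_of_nonneg_left (by linarith) (hw0 x)
  have hb1 : BM (fun x => lam (cnt B Aᶜ x) * av ν g A (fun y => Ψ y ^ 2) x) :=
    hw.mul (av_bm h hΨ2)
  have hb2 : ∀ j ∈ A, BM (fun x => lam (cnt B Aᶜ x) * av ν g A (fun y => rough ν g j Ψ y ^ 2) x) :=
    fun j _ => hw.mul (av_bm h (hr j))
  have hb3 : BM (fun x => lam (cnt B Aᶜ x) * (av ν g A Ψ x) ^ 2) := hw.mul ((av_bm h hΨ).pow 2)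
  have h3 := out_mono (ν := ν) (A := A) (hb1.sub (BM.sum A hb2)) hb3 x0 hle
  have h4 : out ν x0 A (fun x => lam (cnt B Aᶜ x) * av ν g A (fun y => Ψ y ^ 2) x
      - ∑ j ∈ A, lam (cnt B Aᶜ x) * av ν g A (fun y => rough ν g j Ψ y ^ 2) x)
      = out ν x0 A (fun x => lam (cnt B Aᶜ x) * av ν g A (fun y => Ψ y ^ 2) x)
        - ∑ j ∈ A, out ν x0 A
          (fun x => lam (cnt B Aᶜ x) * av ν g A (fun y => rough ν g j Ψ y ^ 2) x) := by
    unfold out
    rw [Mg_sub hb1 (BM.sum A hb2), Mg_sum A hb2]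
  rw [h4, e1] at h3
  refine le_trans (sub_le_sub_left (Finset.sum_le_sum fun j _ => ?_) _) h3
  have h5 := out_av_le (A := A) h (hr j) (fun x => sq_nonneg _) hw hw0 hwd x0
  rw [hA] at h5
  exact h5

end MainLoweraux

open MainLoweraux in
theorem MainLower (hES : S_EfronStein) (hC : S_CountK) : S_MainLower := by
  intro N ν _ m g Q B h Ψ hΨ x0 k lam h0 hanti cl hk hcl
  have hr : ∀ j, BM (fun x => rough ν g j Ψ x ^ 2) := fun j => (rough_bm h hΨ j).pow 2
  have hm : 0 < m := lt_of_lt_of_le one_pos h.hm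
  have hmk : 0 ≤ (1 / m) ^ k := by positivity
  have h1 : ∑ A ∈ powersetCard k (univ : Finset (Fin N)),
      (∫ x, lam (cnt B univ x - k) * (∏ j ∈ A, g (x j)) * Ψ x ^ 2 ∂pin ν N
      - ∑ j ∈ A, (1 / m) ^ k *
        ∫ x, lam (cnt B Aᶜ x) * ((∏ i ∈ A, ind Q (x i)) * rough ν g j Ψ x ^ 2) ∂pin ν N)
      ≤ ∑ A ∈ powersetCard k (univ : Finset (Fin N)),
        out ν x0 A (fun x => lam (cnt B Aᶜ x) * (av ν g A Ψ x) ^ 2) := by
    refine Finset.sum_le_sum fun A hA => ?_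
    exact perA h hES Ψ hΨ x0 k lam h0 A (Finset.mem_powersetCard.1 hA).2
  refine le_trans ?_ h1
  rw [Finset.sum_sub_distrib]
  -- main term
  have hlamB : BM (fun x : Fin N → R3 => lam (cnt B univ x - k)) :=
    BM_cnt_comp h.B_meas univ (fun n => lam (n - k))
  have e1 : ∑ A ∈ powersetCard k (univ : Finset (Fin N)),
      ∫ x, lam (cnt B univ x - k) * (∏ j ∈ A, g (x j)) * Ψ x ^ 2 ∂pin ν N
      = ∫ x, lam (cnt B univ x - k) * esy g k x * Ψ x ^ 2 ∂pin ν N := by
    rw [← integral_finsetSum]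
    · congr 1
      ext1 x
      rw [esy, Finset.mul_sum, Finset.sum_mul]
    · intro A _
      refine BM.integrable ?_ _
      exact (hlamB.mul (BM.prod A fun j _ => h.bm.comp (measurable_pi_apply j))).mul (hΨ.pow 2)
  rw [e1]
  refine sub_le_sub_left ?_ _
  -- the loss
  have e2 : ∑ A ∈ powersetCard k (univ : Finset (Fin N)), ∑ j ∈ A, (1 / m) ^ k *
        ∫ x, lam (cnt B Aᶜ x) * ((∏ i ∈ A, ind Q (x i)) * rough ν g j Ψ x ^ 2) ∂pin ν N
      = ∑ j : Fin N, ∑ A ∈ (powersetCard k (univ : Finset (Fin N))).filter (fun A => j ∈ A),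
        (1 / m) ^ k *
        ∫ x, lam (cnt B Aᶜ x) * ((∏ i ∈ A, ind Q (x i)) * rough ν g j Ψ x ^ 2) ∂pin ν N := by
    refine Finset.sum_comm' ?_
    intro A j
    simp only [Finset.mem_filter, Finset.mem_univ, and_true]
  rw [e2]
  unfold Dw
  rw [mul_assoc, Finset.mul_sum, Finset.mul_sum]
  refine Finset.sum_le_sum fun j _ => ?_
  rw [← Finset.mul_sum]
  refine mul_le_mul_of_nonneg_left ?_ hmk
  rw [← integral_const_mul, ← integral_finsetSum]
  · refine integral_mono ?_ ?_ ?_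
    · refine BM.integrable ?_ _
      exact BM.sum _ fun A _ => (BM_cnt_comp h.B_meas Aᶜ lam).mul ((BM_prod_ind h.Q_meas A).mul (hr j))
    · refine BM.integrable ?_ _
      exact ((BM_ind_at h.Q_meas j).mul (hr j)).const_mul cl
    · intro x
      simp only
      have h2 := pt2 h hC lam hanti cl k hk hcl j x
      have h3 := mul_le_mul_of_nonneg_right h2 (sq_nonneg (rough ν g j Ψ x))
      rw [Finset.sum_mul] at h3
      calc ∑ A ∈ (powersetCard k (univ : Finset (Fin N))).filter (fun A => j ∈ A),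
            lam (cnt B Aᶜ x) * ((∏ i ∈ A, ind Q (x i)) * rough ν g j Ψ x ^ 2)
          = ∑ A ∈ (powersetCard k (univ : Finset (Fin N))).filter (fun A => j ∈ A),
            lam (cnt B Aᶜ x) * (∏ i ∈ A, ind Q (x i)) * rough ν g j Ψ x ^ 2 :=
            Finset.sum_congr rfl fun A _ => by ring
        _ ≤ cl * ind Q (x j) * rough ν g j Ψ x ^ 2 := h3
        _ = cl * (ind Q (x j) * rough ν g j Ψ x ^ 2) := by ring
  · intro A _
    refine BM.integrable ?_ _
    exact (BM_cnt_comp h.B_meas Aᶜ lam).mul ((BM_prod_ind h.Q_meas A).mul (hr j))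

end Pool.Agent.Lib.MP_5db8e2_mp
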