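import Pool.Agent.Lib.MP_5db8e2_mp.LB.Spec1
import Pool.Agent.Lib.MP_5db8e2_mp.LB.Spec2

/-!
# OneRough: the part of the linear term with exactly one rough particle
-/

set_option autoImplicit false

open MeasureTheory Function Finset
open scoped Classical

namespace Pool.Agent.Lib.MP_5db8e2_mp

namespace OneRoughAux

variable {N : ℕ}

theorem cnt_lower {Q B : Set R3} (hQB : Q ⊆ B) (S A' : Finset (Fin N)) (hA : A' ⊆ S)
    (x : Fin N → R3) (hx : ∀ j ∈ A', x j ∈ Q) : cnt Q S x - A'.card ≤ cnt B (S \ A') x := by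
  have h1 : S.filter (fun j => x j ∈ Q) ⊆ A' ∪ (S \ A').filter (fun j => x j ∈ B) := by
    intro j hj
    rw [Finset.mem_filter] at hj
    rw [Finset.mem_union, Finset.mem_filter, Finset.mem_sdiff]
    by_cases h : j ∈ A'
    · exact Or.inl h
    · exact Or.inr ⟨⟨hj.1, h⟩, hQB hj.2⟩
  have h2 := (Finset.card_le_card h1).trans (Finset.card_union_le _ _)
  unfold cnt
  omega

theorem sum_bound (hC : S_CountK) {Q B : Set R3} (hQB : Q ⊆ B) (S : Finset (Fin N)) (k : ℕ)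
    {lam : ℕ → ℝ} (h0 : ∀ n, 0 ≤ lam n) (ha : Antitone lam) (x : Fin N → R3) :
    ∑ A' ∈ powersetCard k S, lam (cnt B (S \ A') x) * ∏ j ∈ A', ind Q (x j)
      ≤ ((cnt Q S x).choose k : ℝ) * lam (cnt Q S x - k) := by
  rw [← hC Q S k x, Finset.sum_mul]
  refine Finset.sum_le_sum (fun A' hA' => ?_)
  rw [Finset.mem_powersetCard] at hA'
  by_cases hx : ∀ j ∈ A', x j ∈ Q
  · have h1 := cnt_lower hQB S A' hA'.1 x hx
    rw [hA'.2] at h1
    have h2 := ha h1
    rw [mul_comm]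
    exact mul_le_mul_of_nonneg_left h2 (Finset.prod_nonneg fun j _ => ind_nonneg _ _)
  · push Not at hx
    obtain ⟨j, hj, hjx⟩ := hx
    have : ∏ j ∈ A', ind Q (x j) = 0 := Finset.prod_eq_zero hj (ind_of_notMem hjx)
    rw [this]
    simp

theorem two_bound {lam : ℕ → ℝ} {c2 : ℝ} (h0 : ∀ n, 0 ≤ lam n)
    (h : ∀ n : ℕ, ((n + 2 : ℕ) : ℝ) ^ 2 * lam n ≤ c2) (n : ℕ) :
    (n.choose 2 : ℝ) * lam (n - 2) ≤ c2 := by
  have hc2 : 0 ≤ c2 := le_trans (by have := h0 0; positivity) (h 0)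
  rcases lt_or_ge n 2 with hn | hn
  · rw [Nat.choose_eq_zero_of_lt hn]
    simpa using hc2
  · obtain ⟨k, rfl⟩ := Nat.exists_eq_add_of_le' hn
    refine le_trans ?_ (h k)
    have h1 : ((k + 2).choose 2 : ℝ) ≤ ((k + 2 : ℕ) : ℝ) ^ 2 := by
      exact_mod_cast Nat.choose_le_pow (k + 2) 2
    have h2 : k + 2 - 2 = k := by omega
    rw [h2]
    exact mul_le_mul_of_nonneg_right h1 (h0 k)

theorem three_bound {lam : ℕ → ℝ} {c1 : ℝ} (h0 : ∀ n, 0 ≤ lam n)
    (h : ∀ n : ℕ, ((n + 3 : ℕ) : ℝ) ^ 3 * lam n ≤ c1 * ((n + 3 : ℕ) : ℝ)) (n : ℕ) :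
    (n.choose 3 : ℝ) * lam (n - 3) ≤ c1 * n / 6 := by
  have hc1 : 0 ≤ c1 := by
    have h3 := h 0
    have h4 : 0 ≤ ((0 + 3 : ℕ) : ℝ) ^ 3 * lam 0 := by have := h0 0; positivity
    by_contra hc
    push Not at hc
    norm_num at h3 h4
    nlinarith
  rcases lt_or_ge n 3 with hn | hn
  · rw [Nat.choose_eq_zero_of_lt hn]
    simp only [Nat.cast_zero, zero_mul]
    positivity
  · obtain ⟨k, rfl⟩ := Nat.exists_eq_add_of_le' hn
    have h1 : ((k + 3).choose 3 : ℝ) ≤ ((k + 3 : ℕ) : ℝ) ^ 3 / 6 := by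
      have := Nat.choose_le_pow_div (α := ℝ) 3 (k + 3)
      simpa [Nat.factorial] using this
    have h2 : k + 3 - 3 = k := by omega
    rw [h2]
    have h3 := mul_le_mul_of_nonneg_right h1 (h0 k)
    have h4 := h k
    linarith


/-- `Mg ν {i}` of a function times a factor independent of `x i`. -/
theorem int_zero {ν : Measure R3} [IsFiniteMeasure ν] {m : ℝ} {g : R3 → ℝ} {Q B : Set R3}
    (h : Wd ν m g Q B) {Ψ : (Fin N → R3) → ℝ} (hΨ : BM Ψ) {L : (Fin N → R3) → ℝ} (hL : BM L)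
    {T : Finset (Fin N)} {i : Fin N} (hi : i ∈ T) (hLd : DependsOn L ((T : Set (Fin N))ᶜ))
    (x0 : Fin N → R3) :
    out ν x0 (T.erase i)
      (fun x => g (x i) * (L x * av ν g (T.erase i) (rough ν g i Ψ) x)) = 0 := by
  have hF : BM (av ν g (T.erase i) (rough ν g i Ψ)) := av_bm h (rough_bm h hΨ i)
  have hgi : BM (fun x : Fin N → R3 => g (x i)) := h.bm.comp (measurable_pi_apply i)
  have hc : (T.erase i)ᶜ = insert i Tᶜ := by
    ext j
    simp only [Finset.mem_compl, Finset.mem_erase, Finset.mem_insert]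
    by_cases hj : j = i <;> simp [hj]
  rw [out, hc, Mg_insert' (hgi.mul (hL.mul hF)) (by simpa using hi)]
  have h1 : (fun x => g (x i) * (L x * av ν g (T.erase i) (rough ν g i Ψ) x)) =
      fun x => L x * ((∏ j ∈ ({i} : Finset (Fin N)), g (x j)) *
        av ν g (T.erase i) (rough ν g i Ψ) x) := by
    ext1 x
    rw [Finset.prod_singleton]
    ring
  have hLd' : DependsOn L (((({i} : Finset (Fin N)) : Set (Fin N)))ᶜ) := by
    intro x y hxy
    apply hLd
    intro j hj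
    apply hxy
    intro hji
    rw [Finset.coe_singleton, Set.mem_singleton_iff] at hji
    exact hj (by rw [hji]; exact hi)
  have h2 : av ν g {i} (av ν g (T.erase i) (rough ν g i Ψ)) = fun _ => 0 := by
    have hd : Disjoint ({i} : Finset (Fin N)) (T.erase i) := by
      rw [Finset.disjoint_singleton_left]
      exact Finset.notMem_erase i T
    rw [av_comm h (rough_bm h hΨ i) hd, av_zero_rough h hΨ i]
    exact av_of_dep h (fun _ _ _ => rfl)
  have h3 : Mg ν {i} (fun x => g (x i) * (L x * av ν g (T.erase i) (rough ν g i Ψ) x)) =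
      fun _ => 0 := by
    rw [h1, Mg_mul_left _ hLd', ← av_eq h hF, h2]
    ext1 x
    simp
  rw [h3]
  simp [Mg]

/-- Integrating the indicator of `Q` in the variable `i`. -/
theorem int_ind {ν : Measure R3} [IsFiniteMeasure ν] {m : ℝ} {g : R3 → ℝ} {Q B : Set R3}
    (h : Wd ν m g Q B) {L : (Fin N → R3) → ℝ} (hL : BM L) (hL0 : ∀ x, 0 ≤ L x)
    {T : Finset (Fin N)} {i : Fin N} (hi : i ∈ T) (hLd : DependsOn L ((T : Set (Fin N))ᶜ))
    (x0 : Fin N → R3) :
    out ν x0 (T.erase i) (fun x => ind Q (x i) * L x) ≤ 8 * m * out ν x0 T L := by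
  have hc : (T.erase i)ᶜ = insert i Tᶜ := by
    ext j
    simp only [Finset.mem_compl, Finset.mem_erase, Finset.mem_insert]
    by_cases hj : j = i <;> simp [hj]
  have hLd' : DependsOn L (((({i} : Finset (Fin N)) : Set (Fin N)))ᶜ) := by
    intro x y hxy
    apply hLd
    intro j hj
    apply hxy
    intro hji
    rw [Finset.coe_singleton, Set.mem_singleton_iff] at hji
    exact hj (by rw [hji]; exact hi)
  rw [out, hc, Mg_insert' ((BM_ind_at h.Q_meas i).mul hL) (by simpa using hi),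
    Mg_mul_right _ hLd']
  have h1 : Mg ν {i} (fun x : Fin N → R3 => ind Q (x i)) = fun _ => ν.real Q := by
    rw [Mg_singleton]
    ext1 x
    simp only [Function.update_self]
    show ∫ t, ind Q t ∂ν = ν.real Q
    unfold ind
    rw [integral_indicator_const _ h.Q_meas]
    simp
  rw [h1]
  have h2 : ∀ x, ν.real Q * L x ≤ 8 * m * L x := fun x =>
    mul_le_mul_of_nonneg_right h.Q_vol (hL0 x)
  refine (Mg_mono (hL.const_mul _) (hL.const_mul _) h2 x0).trans ?_
  rw [Mg_const_mul]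
  exact le_refl _

/-- The estimate for one pair `(T, i)`. -/
theorem one_pair {ν : Measure R3} [IsFiniteMeasure ν] {m : ℝ} {g : R3 → ℝ} {Q B : Set R3}
    (h : Wd ν m g Q B) {Ψ : (Fin N → R3) → ℝ} (hΨ : BM Ψ) {lam : ℕ → ℝ} (h0 : ∀ n, 0 ≤ lam n)
    {W : (Fin N → R3) → ℝ} (hW : BM W) {T : Finset (Fin N)} (hT : T.card = 3)
    (hWd : DependsOn W (T : Set (Fin N))) {b δ : ℝ} (hδ : 0 ≤ δ) {i : Fin N} (hi : i ∈ T)
    (hWi : ∀ x, |Mg ν (T.erase i) W x - b * (m * g (x i))| ≤ δ * ind Q (x i)) {τ : ℝ}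
    (hτ : 0 < τ) :
    |∫ x, W x * (lam (cnt B Tᶜ x) * av ν g T Ψ x * av ν g (T.erase i) (rough ν g i Ψ) x)
          ∂pin ν N|
      ≤ δ / 2 * (τ * ((1 / m) ^ 2 * ∫ x, (ind Q (x i) * lam (cnt B Tᶜ x)) *
            ((∏ j ∈ T.erase i, ind Q (x j)) * rough ν g i Ψ x ^ 2) ∂pin ν N)
          + τ⁻¹ * (8 * m * ((1 / m) ^ 3 * ∫ x, lam (cnt B Tᶜ x) *
            ((∏ j ∈ T, ind Q (x j)) * Ψ x ^ 2) ∂pin ν N))) := by
  obtain ⟨x0⟩ : Nonempty (Fin N → R3) := inferInstance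
  have hm0 : 0 < m := lt_of_lt_of_le one_pos h.hm
  set A : Finset (Fin N) := T.erase i with hA
  have hAc : A.card = 2 := by rw [hA, Finset.card_erase_of_mem hi, hT]
  set l : (Fin N → R3) → ℝ := fun x => lam (cnt B Tᶜ x) with hl
  set U : (Fin N → R3) → ℝ := av ν g T Ψ with hU
  set F : (Fin N → R3) → ℝ := av ν g A (rough ν g i Ψ) with hF
  have hlb : BM l := BM_cnt_comp h.B_meas Tᶜ lam
  have hUb : BM U := av_bm h hΨ
  have hFb : BM F := av_bm h (rough_bm h hΨ i)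
  have hl0 : ∀ x, 0 ≤ l x := fun x => h0 _
  have hld : DependsOn l ((T : Set (Fin N))ᶜ) := by
    intro x y hxy
    have := cnt_dep B Tᶜ (x := x) (y := y) (by
      intro j hj
      apply hxy
      simpa using hj)
    simp only [hl]
    exact congrArg lam this
  have hUd : DependsOn U ((T : Set (Fin N))ᶜ) := av_dep Ψ
  have hFd : DependsOn F ((A : Set (Fin N))ᶜ) := av_dep _
  have hAT : ∀ {L : (Fin N → R3) → ℝ}, DependsOn L ((T : Set (Fin N))ᶜ) →
      DependsOn L ((A : Set (Fin N))ᶜ) := by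
    intro L hL x y hxy
    apply hL
    intro j hj
    apply hxy
    intro hjA
    exact hj (Finset.mem_of_mem_erase hjA)
  have hlU : BM (fun x => l x * U x) := hlb.mul hUb
  have hlUd : DependsOn (fun x => l x * U x) ((T : Set (Fin N))ᶜ) := by
    intro x y hxy
    show l x * U x = l y * U y
    rw [hld hxy, hUd hxy]
  have hlUF : BM (fun x => l x * U x * F x) := hlU.mul hFb
  have hlUFd : DependsOn (fun x => l x * U x * F x) ((A : Set (Fin N))ᶜ) := by
    intro x y hxy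
    show l x * U x * F x = l y * U y * F y
    rw [hAT hld hxy, hAT hUd hxy, hFd hxy]
  have hMW : BM (Mg ν A W) := Mg_bm hW
  have hgi : BM (fun x : Fin N → R3 => g (x i)) := h.bm.comp (measurable_pi_apply i)
  -- step 1
  have e1 : ∫ x, W x * (l x * U x * F x) ∂pin ν N =
      out ν x0 A (fun x => Mg ν A W x * (l x * U x * F x)) := by
    rw [integral_eq_out (hW.mul hlUF) x0 A, Mg_mul_right _ hlUFd]
  have e2 : out ν x0 A (fun x => g (x i) * (l x * U x * F x)) = 0 :=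
    int_zero h hΨ hlU hi hlUd x0
  have e3 : out ν x0 A (fun x => Mg ν A W x * (l x * U x * F x)) =
      out ν x0 A (fun x => (Mg ν A W x - b * (m * g (x i))) * (l x * U x * F x)) := by
    have e4 : (fun x => (Mg ν A W x - b * (m * g (x i))) * (l x * U x * F x)) =
        fun x => Mg ν A W x * (l x * U x * F x) - (b * m) * (g (x i) * (l x * U x * F x)) := by
      ext1 x; ring
    rw [e4, out, out, Mg_sub (hMW.mul hlUF) ((hgi.mul hlUF).const_mul _), Mg_const_mul]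
    rw [out] at e2
    simp only []
    rw [e2]
    ring
  have hind : BM (fun x : Fin N → R3 => ind Q (x i)) := BM_ind_at h.Q_meas i
  have hindd : DependsOn (fun x : Fin N → R3 => ind Q (x i)) ((A : Set (Fin N))ᶜ) := by
    intro x y hxy
    have : x i = y i := hxy i (by simp [hA])
    show ind Q (x i) = ind Q (y i)
    rw [this]
  -- step 2
  have hD : BM (fun x => (Mg ν A W x - b * (m * g (x i))) * (l x * U x * F x)) :=
    (hMW.sub ((hgi.const_mul m).const_mul b)).mul hlUF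
  have e5 : ∀ x, |(Mg ν A W x - b * (m * g (x i))) * (l x * U x * F x)| ≤
      δ / 2 * (τ * ((ind Q (x i) * l x) * F x ^ 2) + τ⁻¹ * (ind Q (x i) * (l x * U x ^ 2))) := by
    intro x
    rw [abs_mul]
    have h1 := hWi x
    have h2 : |l x * U x * F x| = l x * (|U x| * |F x|) := by
      rw [abs_mul, abs_mul, abs_of_nonneg (hl0 x)]; ring
    rw [h2]
    have h3 : |U x| * |F x| ≤ (τ * F x ^ 2 + τ⁻¹ * U x ^ 2) / 2 := by
      have h4 : 0 ≤ (τ * |F x| - |U x|) ^ 2 := sq_nonneg _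
      have h5 : |F x| ^ 2 = F x ^ 2 := sq_abs _
      have h6 : |U x| ^ 2 = U x ^ 2 := sq_abs _
      have h7 : τ * (|U x| * |F x|) ≤ τ * ((τ * F x ^ 2 + τ⁻¹ * U x ^ 2) / 2) := by
        have h8 : τ * ((τ * F x ^ 2 + τ⁻¹ * U x ^ 2) / 2) = (τ ^ 2 * F x ^ 2 + U x ^ 2) / 2 := by
          field_simp
        rw [h8, ← h5, ← h6]
        nlinarith
      exact le_of_mul_le_mul_left h7 hτ
    calc |Mg ν A W x - b * (m * g (x i))| * (l x * (|U x| * |F x|))
        ≤ (δ * ind Q (x i)) * (l x * ((τ * F x ^ 2 + τ⁻¹ * U x ^ 2) / 2)) := by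
          apply mul_le_mul h1 (mul_le_mul_of_nonneg_left h3 (hl0 x))
          · exact mul_nonneg (hl0 x) (mul_nonneg (abs_nonneg _) (abs_nonneg _))
          · exact mul_nonneg hδ (ind_nonneg _ _)
      _ = _ := by ring
  have hR1 : BM (fun x => (ind Q (x i) * l x) * F x ^ 2) := (hind.mul hlb).mul (hFb.pow 2)
  have hR2 : BM (fun x => ind Q (x i) * (l x * U x ^ 2)) := hind.mul (hlb.mul (hUb.pow 2))
  have hR : BM (fun x => δ / 2 * (τ * ((ind Q (x i) * l x) * F x ^ 2) +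
      τ⁻¹ * (ind Q (x i) * (l x * U x ^ 2)))) :=
    ((hR1.const_mul τ).add (hR2.const_mul τ⁻¹)).const_mul _
  have e6 : out ν x0 A (fun x => δ / 2 * (τ * ((ind Q (x i) * l x) * F x ^ 2) +
      τ⁻¹ * (ind Q (x i) * (l x * U x ^ 2)))) =
      δ / 2 * (τ * out ν x0 A (fun x => (ind Q (x i) * l x) * F x ^ 2) +
        τ⁻¹ * out ν x0 A (fun x => ind Q (x i) * (l x * U x ^ 2))) := by
    rw [out, Mg_const_mul, Mg_add (hR1.const_mul τ) (hR2.const_mul τ⁻¹), Mg_const_mul,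
      Mg_const_mul]
    rfl
  have e7 : out ν x0 A (fun x => (ind Q (x i) * l x) * F x ^ 2) ≤
      (1 / m) ^ 2 * ∫ x, (ind Q (x i) * l x) *
            ((∏ j ∈ A, ind Q (x j)) * rough ν g i Ψ x ^ 2) ∂pin ν N := by
    have := out_av_sq_le (A := A) h (rough_bm h hΨ i) (hind.mul hlb)
      (fun x => mul_nonneg (ind_nonneg _ _) (hl0 x)) (by
        intro x y hxy
        show ind Q (x i) * l x = ind Q (y i) * l y
        rw [hAT hld hxy]
        have := hindd hxy
        simp only [] at this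
        rw [this]) x0
    rw [hAc] at this
    exact this
  have e8 : out ν x0 A (fun x => ind Q (x i) * (l x * U x ^ 2)) ≤
      8 * m * ((1 / m) ^ 3 * ∫ x, l x * ((∏ j ∈ T, ind Q (x j)) * Ψ x ^ 2) ∂pin ν N) := by
    have h1 := int_ind h (L := fun x => l x * U x ^ 2) (hlb.mul (hUb.pow 2))
      (fun x => mul_nonneg (hl0 x) (sq_nonneg _)) hi (by
        intro x y hxy
        show l x * U x ^ 2 = l y * U y ^ 2
        rw [hld hxy, hUd hxy]) x0
    refine h1.trans ?_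
    have h2 := out_av_sq_le (A := T) h hΨ hlb hl0 hld x0
    rw [hT] at h2
    exact mul_le_mul_of_nonneg_left h2 (by positivity)
  show |∫ x, W x * (l x * U x * F x) ∂pin ν N| ≤ _
  rw [e1, e3]
  refine (abs_Mg_le _ x0).trans ?_
  refine (Mg_mono hD.abs hR e5 x0).trans ?_
  have e6' := e6
  rw [out] at e6'
  rw [e6']
  have h9 : 0 ≤ τ⁻¹ := inv_nonneg.2 hτ.le
  apply mul_le_mul_of_nonneg_left _ (by positivity)
  exact add_le_add (mul_le_mul_of_nonneg_left e7 hτ.le) (mul_le_mul_of_nonneg_left e8 h9)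

end OneRoughAux

open OneRoughAux in
theorem OneRough (hC : S_CountK) : S_OneRough := by
  intro N ν _ m g Q B h Ψ hΨ lam h0 ha W hW hWd b δ hδ hWi c1 c2 hc1 hc2 τ hτ
  have hm0 : 0 < m := lt_of_lt_of_le one_pos h.hm
  set P3 := powersetCard 3 (univ : Finset (Fin N)) with hP3
  set X : Finset (Fin N) → Fin N → ℝ := fun T i => ∫ x, (ind Q (x i) * lam (cnt B Tᶜ x)) *
            ((∏ j ∈ T.erase i, ind Q (x j)) * rough ν g i Ψ x ^ 2) ∂pin ν N with hX
  set Y : Finset (Fin N) → ℝ := fun T => ∫ x, lam (cnt B Tᶜ x) *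
            ((∏ j ∈ T, ind Q (x j)) * Ψ x ^ 2) ∂pin ν N with hY
  have hD0 : 0 ≤ Dw ν g Q Ψ := Finset.sum_nonneg fun j _ =>
    integral_nonneg fun x => mul_nonneg (ind_nonneg _ _) (sq_nonneg _)
  have hN0 : 0 ≤ Nw ν Q Ψ := integral_nonneg fun x => mul_nonneg (Nat.cast_nonneg _) (sq_nonneg _)
  have hc2' : 0 ≤ c2 := le_trans (by have := h0 0; positivity) (hc2 0)
  have hc1' : 0 ≤ c1 := by
    have h3 := hc1 0
    have h4 : 0 ≤ ((0 + 3 : ℕ) : ℝ) ^ 3 * lam 0 := by have := h0 0; positivity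
    by_contra hc
    push Not at hc
    norm_num at h3 h4
    nlinarith
  have hbound : |∑ T ∈ P3, ∑ i ∈ T,
        ∫ x, W T x * (lam (cnt B Tᶜ x) * av ν g T Ψ x * av ν g (T.erase i) (rough ν g i Ψ) x)
          ∂pin ν N| ≤ ∑ T ∈ P3, ∑ i ∈ T, δ / 2 * (τ * ((1 / m) ^ 2 * X T i) +
            τ⁻¹ * (8 * m * ((1 / m) ^ 3 * Y T))) := by
    refine (Finset.abs_sum_le_sum_abs _ _).trans (Finset.sum_le_sum fun T hT => ?_)
    refine (Finset.abs_sum_le_sum_abs _ _).trans (Finset.sum_le_sum fun i hi => ?_)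
    exact one_pair h hΨ h0 (hW T) (Finset.mem_powersetCard.1 hT).2 (hWd T) hδ hi
      (hWi T hT i hi) hτ
  -- first sums
  have hXsum : ∑ T ∈ P3, ∑ i ∈ T, X T i ≤ c2 * Dw ν g Q Ψ := by
    have e1 : ∑ T ∈ P3, ∑ i ∈ T, X T i =
        ∑ i : Fin N, ∑ A' ∈ powersetCard 2 ({i}ᶜ : Finset (Fin N)), X (insert i A') i := by
      rw [Finset.sum_sigma', Finset.sum_sigma']
      refine Finset.sum_bij' (fun p _ => (⟨p.2, p.1.erase p.2⟩ : Σ _ : Fin N, Finset (Fin N)))
        (fun q _ => (⟨insert q.1 q.2, q.1⟩ : Σ _ : Finset (Fin N), Fin N)) ?_ ?_ ?_ ?_ ?_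
      · rintro ⟨T, i⟩ hp
        rw [Finset.mem_sigma] at hp ⊢
        obtain ⟨hT, hi⟩ := hp
        simp only [] at hT hi ⊢
        rw [hP3, Finset.mem_powersetCard] at hT
        refine ⟨Finset.mem_univ _, ?_⟩
        rw [Finset.mem_powersetCard]
        refine ⟨?_, by rw [Finset.card_erase_of_mem hi, hT.2]⟩
        intro j hj
        rw [Finset.mem_compl, Finset.mem_singleton]
        exact (Finset.mem_erase.1 hj).1
      · rintro ⟨i, A'⟩ hq
        rw [Finset.mem_sigma] at hq ⊢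
        obtain ⟨-, hA'⟩ := hq
        simp only [] at hA' ⊢
        rw [Finset.mem_powersetCard] at hA'
        have hi : i ∉ A' := fun hi => by
          have := hA'.1 hi
          simp at this
        refine ⟨?_, Finset.mem_insert_self _ _⟩
        rw [hP3, Finset.mem_powersetCard]
        exact ⟨Finset.subset_univ _, by rw [Finset.card_insert_of_notMem hi, hA'.2]⟩
      · rintro ⟨T, i⟩ hp
        rw [Finset.mem_sigma] at hp
        simp only [] at hp ⊢
        rw [Finset.insert_erase hp.2]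
      · rintro ⟨i, A'⟩ hq
        rw [Finset.mem_sigma] at hq
        obtain ⟨-, hA'⟩ := hq
        simp only [] at hA' ⊢
        rw [Finset.mem_powersetCard] at hA'
        have hi : i ∉ A' := fun hi => by
          have := hA'.1 hi
          simp at this
        rw [Finset.erase_insert hi]
      · rintro ⟨T, i⟩ hp
        rw [Finset.mem_sigma] at hp
        simp only [] at hp ⊢
        rw [Finset.insert_erase hp.2]
    rw [e1, Dw, Finset.mul_sum]
    refine Finset.sum_le_sum fun i _ => ?_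
    have hq : BM (fun x => rough ν g i Ψ x ^ 2) := (rough_bm h hΨ i).pow 2
    have hbm : ∀ A' : Finset (Fin N), BM (fun x => (ind Q (x i) * lam (cnt B (insert i A')ᶜ x)) *
            ((∏ j ∈ (insert i A').erase i, ind Q (x j)) * rough ν g i Ψ x ^ 2)) := fun A' =>
      ((BM_ind_at h.Q_meas i).mul (BM_cnt_comp h.B_meas _ lam)).mul
        ((BM_prod_ind h.Q_meas _).mul hq)
    have e2 : ∑ A' ∈ powersetCard 2 ({i}ᶜ : Finset (Fin N)), X (insert i A') i =
        ∫ x, ∑ A' ∈ powersetCard 2 ({i}ᶜ : Finset (Fin N)),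
          (ind Q (x i) * lam (cnt B (insert i A')ᶜ x)) *
            ((∏ j ∈ (insert i A').erase i, ind Q (x j)) * rough ν g i Ψ x ^ 2) ∂pin ν N := by
      rw [integral_finset_sum _ (fun A' _ => (hbm A').integrable _)]
    rw [e2, ← integral_const_mul]
    refine integral_mono ((BM.sum _ fun A' _ => hbm A').integrable _)
      ((((BM_ind_at h.Q_meas i).mul hq).const_mul _).integrable _) fun x => ?_
    have e3 : ∑ A' ∈ powersetCard 2 ({i}ᶜ : Finset (Fin N)),
          (ind Q (x i) * lam (cnt B (insert i A')ᶜ x)) *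
            ((∏ j ∈ (insert i A').erase i, ind Q (x j)) * rough ν g i Ψ x ^ 2) =
        (∑ A' ∈ powersetCard 2 ({i}ᶜ : Finset (Fin N)),
          lam (cnt B ({i}ᶜ \ A') x) * ∏ j ∈ A', ind Q (x j)) *
            (ind Q (x i) * rough ν g i Ψ x ^ 2) := by
      rw [Finset.sum_mul]
      refine Finset.sum_congr rfl fun A' hA' => ?_
      rw [Finset.mem_powersetCard] at hA'
      have hi : i ∉ A' := fun hi => by
        have := hA'.1 hi
        simp at this
      have h1 : (insert i A')ᶜ = ({i}ᶜ : Finset (Fin N)) \ A' := by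
        ext j
        simp only [Finset.mem_compl, Finset.mem_insert, Finset.mem_sdiff, Finset.mem_singleton,
          not_or]
      rw [Finset.erase_insert hi, h1]
      ring
    rw [e3]
    have h5 := (sum_bound hC h.Q_sub ({i}ᶜ : Finset (Fin N)) 2 h0 ha x).trans
      (two_bound h0 hc2 _)
    exact mul_le_mul_of_nonneg_right h5 (mul_nonneg (ind_nonneg _ _) (sq_nonneg _))
  have hYsum : ∑ T ∈ P3, Y T ≤ c1 / 6 * Nw ν Q Ψ := by
    have hbm : ∀ T : Finset (Fin N), BM (fun x => lam (cnt B Tᶜ x) *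
            ((∏ j ∈ T, ind Q (x j)) * Ψ x ^ 2)) := fun T =>
      (BM_cnt_comp h.B_meas _ lam).mul ((BM_prod_ind h.Q_meas _).mul (hΨ.pow 2))
    have e2 : ∑ T ∈ P3, Y T = ∫ x, ∑ T ∈ P3, lam (cnt B Tᶜ x) *
            ((∏ j ∈ T, ind Q (x j)) * Ψ x ^ 2) ∂pin ν N := by
      rw [integral_finset_sum _ (fun T _ => (hbm T).integrable _)]
    rw [e2, Nw, ← integral_const_mul]
    refine integral_mono ((BM.sum _ fun T _ => hbm T).integrable _)
      ((((BM_cnt h.Q_meas univ).mul (hΨ.pow 2)).const_mul _).integrable _) fun x => ?_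
    have e3 : ∑ T ∈ P3, lam (cnt B Tᶜ x) * ((∏ j ∈ T, ind Q (x j)) * Ψ x ^ 2) =
        (∑ T ∈ powersetCard 3 (univ : Finset (Fin N)),
          lam (cnt B (univ \ T) x) * ∏ j ∈ T, ind Q (x j)) * Ψ x ^ 2 := by
      rw [Finset.sum_mul]
      refine Finset.sum_congr rfl fun T _ => ?_
      rw [Finset.compl_eq_univ_sdiff]
      ring
    rw [e3]
    have h5 := (sum_bound hC h.Q_sub (univ : Finset (Fin N)) 3 h0 ha x).trans
      (three_bound h0 hc1 _)
    have h6 := mul_le_mul_of_nonneg_right h5 (sq_nonneg (Ψ x))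
    refine h6.trans (le_of_eq ?_)
    ring
  refine hbound.trans ?_
  have e5 : ∑ T ∈ P3, ∑ i ∈ T, δ / 2 * (τ * ((1 / m) ^ 2 * X T i) +
            τ⁻¹ * (8 * m * ((1 / m) ^ 3 * Y T))) =
      δ / 2 * (τ * (1 / m) ^ 2 * ∑ T ∈ P3, ∑ i ∈ T, X T i) +
        δ / 2 * (τ⁻¹ * (8 * m * (1 / m) ^ 3) * (3 * ∑ T ∈ P3, Y T)) := by
    simp only [Finset.mul_sum]
    rw [← Finset.sum_add_distrib]
    refine Finset.sum_congr rfl fun T hT => ?_
    have hTc := (Finset.mem_powersetCard.1 hT).2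
    have e6 : δ / 2 * (τ⁻¹ * (8 * m * (1 / m) ^ 3) * (3 * Y T)) =
        ∑ _i ∈ T, δ / 2 * (τ⁻¹ * (8 * m * ((1 / m) ^ 3 * Y T))) := by
      rw [Finset.sum_const, hTc]
      simp only [nsmul_eq_mul]
      push_cast
      ring
    rw [e6, ← Finset.sum_add_distrib]
    refine Finset.sum_congr rfl fun i _ => ?_
    ring
  rw [e5]
  have h7 : 8 * m * (1 / m) ^ 3 = 8 * (1 / m) ^ 2 := by
    field_simp
  rw [h7]
  have hτ' : 0 < τ⁻¹ := inv_pos.2 hτ
  have hm2 : 0 < (1 / m) ^ 2 := by positivity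
  have h8 : δ / 2 * (τ * (1 / m) ^ 2 * ∑ T ∈ P3, ∑ i ∈ T, X T i) ≤
      δ / 2 * (τ * (1 / m) ^ 2 * (c2 * Dw ν g Q Ψ)) := by
    apply mul_le_mul_of_nonneg_left _ (by positivity)
    exact mul_le_mul_of_nonneg_left hXsum (by positivity)
  have h9 : δ / 2 * (τ⁻¹ * (8 * (1 / m) ^ 2) * (3 * ∑ T ∈ P3, Y T)) ≤
      δ / 2 * (τ⁻¹ * (8 * (1 / m) ^ 2) * (3 * (c1 / 6 * Nw ν Q Ψ))) := by
    apply mul_le_mul_of_nonneg_left _ (by positivity)
    apply mul_le_mul_of_nonneg_left _ (by positivity)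
    exact mul_le_mul_of_nonneg_left hYsum (by norm_num)
  refine (add_le_add h8 h9).trans ?_
  have h10 : 0 ≤ δ * (1 / m) ^ 2 * (τ * c2 * Dw ν g Q Ψ) := by positivity
  have h11 : 0 ≤ δ * (1 / m) ^ 2 * (τ⁻¹ * c1 * Nw ν Q Ψ) := by positivity
  have h12 : δ / 2 * (τ * (1 / m) ^ 2 * (c2 * Dw ν g Q Ψ)) +
      δ / 2 * (τ⁻¹ * (8 * (1 / m) ^ 2) * (3 * (c1 / 6 * Nw ν Q Ψ))) =
      (1 / 2) * (δ * (1 / m) ^ 2 * (τ * c2 * Dw ν g Q Ψ)) +
      2 * (δ * (1 / m) ^ 2 * (τ⁻¹ * c1 * Nw ν Q Ψ)) := by ring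
  have h13 : δ * (1 / m) ^ 2 * (τ * c2 * Dw ν g Q Ψ + 8 * τ⁻¹ * c1 * Nw ν Q Ψ) =
      (δ * (1 / m) ^ 2 * (τ * c2 * Dw ν g Q Ψ)) +
      8 * (δ * (1 / m) ^ 2 * (τ⁻¹ * c1 * Nw ν Q Ψ)) := by ring
  rw [h12, h13]
  linarith

end Pool.Agent.Lib.MP_5db8e2_mp
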