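import Pool.Agent.Lib.MP_5db8e2_mp.LB.Spec8
import Pool.Agent.Lib.MP_5db8e2_mp.LB.MainLower
import Pool.Agent.Lib.MP_5db8e2_mp.LB.OneRough
import Pool.Agent.Lib.MP_5db8e2_mp.LB.WdWin
import Pool.Agent.Lib.MP_5db8e2_mp.LB.Lin4

/-!
# Lower bound, part 8: `G4 - VV` is small
-/

set_option autoImplicit false

open MeasureTheory Function Finset
open scoped Classical

namespace Pool.Agent.Lib.MP_5db8e2_mp

namespace VVlowaux

open MainLoweraux

variable {N : ℕ}

/-- As `MainLoweraux.pt2`, for arbitrary sets `Q ⊆ B`. -/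
theorem pt2 {Q B : Set R3} (hQB : Q ⊆ B)
    (hC : S_CountK) (lam : ℕ → ℝ) (hanti : Antitone lam) (cl : ℝ)
    (k : ℕ) (hk : 1 ≤ k) (hcl : ∀ n : ℕ, (n.choose (k - 1) : ℝ) * lam (n - (k - 1)) ≤ cl)
    (j : Fin N) (x : Fin N → R3) :
    ∑ A ∈ (powersetCard k (univ : Finset (Fin N))).filter (fun A => j ∈ A),
      lam (cnt B Aᶜ x) * ∏ i ∈ A, ind Q (x i) ≤ cl * ind Q (x j) := by
  rw [sum_filter_mem j k hk]
  set n := cnt Q ({j}ᶜ : Finset (Fin N)) x with hn
  have h1 : ∀ A' ∈ powersetCard (k - 1) ({j}ᶜ : Finset (Fin N)),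
      lam (cnt B (insert j A')ᶜ x) * ∏ i ∈ insert j A', ind Q (x i)
        ≤ (lam (n - (k - 1)) * ind Q (x j)) * ∏ i ∈ A', ind Q (x i) := by
    intro A' hA'
    rw [Finset.mem_powersetCard] at hA'
    have hj : j ∉ A' := fun hj => by simpa using hA'.1 hj
    rw [Finset.prod_insert hj]
    by_cases hall : ∀ i ∈ A', x i ∈ Q
    · have hsplit : ({j}ᶜ : Finset (Fin N)) = A' ∪ (insert j A')ᶜ := by
        ext i
        simp only [Finset.mem_compl, Finset.mem_singleton, Finset.mem_union, Finset.mem_insert]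
        constructor
        · intro hi
          by_cases hiA : i ∈ A'
          · exact Or.inl hiA
          · exact Or.inr (by tauto)
        · rintro (hi | hi)
          · rintro rfl; exact hj hi
          · tauto
      have hd : Disjoint A' (insert j A')ᶜ := by
        rw [Finset.disjoint_left]
        intro i hi hi2
        rw [Finset.mem_compl, Finset.mem_insert] at hi2
        exact hi2 (Or.inr hi)
      have h2 : n = (k - 1) + cnt Q (insert j A')ᶜ x := by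
        rw [hn, hsplit, cnt_add Q _ _ hd, cnt_full Q A' x hall, hA'.2]
      have h3 : n - (k - 1) ≤ cnt B (insert j A')ᶜ x := by
        rw [h2, Nat.add_sub_cancel_left]
        exact cnt_mono hQB _ _
      have h4 := hanti h3
      have h5 : 0 ≤ ind Q (x j) * ∏ i ∈ A', ind Q (x i) :=
        mul_nonneg (ind_nonneg _ _) (Finset.prod_nonneg fun i _ => ind_nonneg _ _)
      calc lam (cnt B (insert j A')ᶜ x) * (ind Q (x j) * ∏ i ∈ A', ind Q (x i))
          ≤ lam (n - (k - 1)) * (ind Q (x j) * ∏ i ∈ A', ind Q (x i)) :=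
            mul_le_mul_of_nonneg_right h4 h5
        _ = _ := by ring
    · push Not at hall
      obtain ⟨i, hi, hiQ⟩ := hall
      have h0' : ∏ i ∈ A', ind Q (x i) = 0 := Finset.prod_eq_zero hi (ind_of_notMem hiQ)
      rw [h0']
      simp
  refine (Finset.sum_le_sum h1).trans ?_
  rw [← Finset.mul_sum, hC Q ({j}ᶜ : Finset (Fin N)) (k - 1) x, ← hn]
  have := mul_le_mul_of_nonneg_right (hcl n) (ind_nonneg Q (x j))
  calc lam (n - (k - 1)) * ind Q (x j) * (n.choose (k - 1) : ℝ)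
      = (n.choose (k - 1) : ℝ) * lam (n - (k - 1)) * ind Q (x j) := by ring
    _ ≤ _ := this

/-- The sum over all quadruples. -/
theorem pt0 {Q B : Set R3} (hQB : Q ⊆ B) (hC : S_CountK) (lam : ℕ → ℝ) (h0 : ∀ n, 0 ≤ lam n)
    (hanti : Antitone lam) (cl : ℝ) (hcl : ∀ n : ℕ, 4 ≤ n → (n : ℝ) ^ 3 * lam (n - 4) ≤ cl)
    (hcl0 : 0 ≤ cl) (x : Fin N → R3) :
    ∑ A ∈ powersetCard 4 (univ : Finset (Fin N)), lam (cnt B Aᶜ x) * ∏ i ∈ A, ind Q (x i)
      ≤ cl * (cnt Q univ x : ℝ) := by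
  set n := cnt Q univ x with hn
  have h1 : ∀ A ∈ powersetCard 4 (univ : Finset (Fin N)),
      lam (cnt B Aᶜ x) * ∏ i ∈ A, ind Q (x i) ≤ lam (n - 4) * ∏ i ∈ A, ind Q (x i) := by
    intro A hA
    rw [Finset.mem_powersetCard] at hA
    by_cases hall : ∀ i ∈ A, x i ∈ Q
    · have h2 : n = 4 + cnt Q Aᶜ x := by
        rw [hn, ← Finset.union_compl A, cnt_add Q A Aᶜ disjoint_compl_right x,
          cnt_full Q A x hall, hA.2]
      have h3 : n - 4 ≤ cnt B Aᶜ x := by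
        rw [h2, Nat.add_sub_cancel_left]
        exact cnt_mono hQB _ _
      exact mul_le_mul_of_nonneg_right (hanti h3) (Finset.prod_nonneg fun i _ => ind_nonneg _ _)
    · push Not at hall
      obtain ⟨i, hi, hiQ⟩ := hall
      have h0' : ∏ i ∈ A, ind Q (x i) = 0 := Finset.prod_eq_zero hi (ind_of_notMem hiQ)
      rw [h0']
      simp
  refine (Finset.sum_le_sum h1).trans ?_
  rw [← Finset.mul_sum, hC Q univ 4 x, ← hn]
  by_cases h4 : 4 ≤ n
  · have hch : (n.choose 4 : ℝ) ≤ (n : ℝ) ^ 4 := by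
      have h := Nat.choose_le_pow n 4
      exact_mod_cast h
    calc lam (n - 4) * (n.choose 4 : ℝ) ≤ lam (n - 4) * (n : ℝ) ^ 4 :=
          mul_le_mul_of_nonneg_left hch (h0 _)
      _ = ((n : ℝ) ^ 3 * lam (n - 4)) * n := by ring
      _ ≤ cl * n := mul_le_mul_of_nonneg_right (hcl n h4) (Nat.cast_nonneg _)
  · rw [Nat.choose_eq_zero_of_lt (by omega)]
    simp only [Nat.cast_zero, mul_zero]
    exact mul_nonneg hcl0 (Nat.cast_nonneg _)

theorem cl3 (hCt : S_Counts) {M : ℝ} (hM : 8 ≤ M) (n : ℕ) :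
    (n.choose 3 : ℝ) * lam4 M (n - 3) ≤ (2 * M) ^ 3 := by
  obtain ⟨-, -, h4, -, -, -, -, -, -, h10, -⟩ := hCt M hM
  by_cases h : 3 ≤ n
  · have h1 := h10 (n - 3) 3 (by norm_num)
    rw [Nat.sub_add_cancel h] at h1
    have hch : (n.choose 3 : ℝ) ≤ (n : ℝ) ^ 3 := by
      have h := Nat.choose_le_pow n 3
      exact_mod_cast h
    exact (mul_le_mul_of_nonneg_right hch (h4 _).1).trans h1
  · rw [Nat.choose_eq_zero_of_lt (by omega)]
    simp only [Nat.cast_zero, zero_mul]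
    positivity

theorem cl4 (hCt : S_Counts) {M : ℝ} (hM : 8 ≤ M) (n : ℕ) (hn : 4 ≤ n) :
    (n : ℝ) ^ 3 * lam4 M (n - 4) ≤ (2 * M) ^ 3 := by
  obtain ⟨-, -, h4, -, -, -, -, -, h9, -, -⟩ := hCt M hM
  have h1 := h9 (n - 4) 3 (by norm_num)
  have e : n - 4 + 3 + 1 = n := by omega
  rw [e] at h1
  exact h1

variable {ν : Measure R3} [IsFiniteMeasure ν] {m : ℝ} {g g' : R3 → ℝ} {Q B Q' B' : Set R3}

theorem sumA1 (hT : S_TwoWin) (hCt : S_Counts) (hC : S_CountK) (h : Wd ν m g Q B)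
    (h' : Wd ν m g' Q' B') (hQ'B : Q' ⊆ B) (hm : m ≤ ν.real (Q ∩ Q')) {M : ℝ} (hM : 8 ≤ M)
    (Ψ : (Fin N → R3) → ℝ) (hΨ : BM Ψ) (x0 : Fin N → R3) :
    ∑ A ∈ powersetCard 4 (univ : Finset (Fin N)), out ν x0 A (fun x =>
      lam4 M (cnt B Aᶜ x) * lam4 M (cnt B' Aᶜ x) * (av ν g A Ψ x - av ν g' A Ψ x) ^ 2)
      ≤ 8 * (1 / m) ^ 4 * ((2 * M) ^ 3 * (Dw ν g Q Ψ + Dw ν g' Q' Ψ)) := by
  obtain ⟨-, -, h4, hanti, -⟩ := hCt M hM
  have hm1 : 1 ≤ m := h.hm
  have hm0 : 0 < m := lt_of_lt_of_le one_pos hm1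
  have hm4 : 0 ≤ 8 * (1 / m) ^ 4 := by positivity
  set F : Fin N → (Fin N → R3) → ℝ := fun j x =>
    ind Q (x j) * rough ν g j Ψ x ^ 2 + ind Q' (x j) * rough ν g' j Ψ x ^ 2 with hF
  have hFb1 : ∀ j, BM (fun x : Fin N → R3 => ind Q (x j) * rough ν g j Ψ x ^ 2) := fun j =>
    (BM_ind_at h.Q_meas j).mul ((rough_bm h hΨ j).pow 2)
  have hFb2 : ∀ j, BM (fun x : Fin N → R3 => ind Q' (x j) * rough ν g' j Ψ x ^ 2) := fun j =>
    (BM_ind_at h'.Q_meas j).mul ((rough_bm h' hΨ j).pow 2)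
  have hFb : ∀ j, BM (F j) := fun j => (hFb1 j).add (hFb2 j)
  have hF0 : ∀ j x, 0 ≤ F j x := fun j x =>
    add_nonneg (mul_nonneg (ind_nonneg _ _) (sq_nonneg _))
      (mul_nonneg (ind_nonneg _ _) (sq_nonneg _))
  have hl : ∀ A : Finset (Fin N), BM (fun x : Fin N → R3 => lam4 M (cnt B Aᶜ x)) := fun A =>
    BM_cnt_comp h.B_meas Aᶜ (lam4 M)
  have hl' : ∀ A : Finset (Fin N), BM (fun x : Fin N → R3 => lam4 M (cnt B' Aᶜ x)) := fun A =>
    BM_cnt_comp h'.B_meas Aᶜ (lam4 M)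
  have hPB : ∀ A : Finset (Fin N), BM (fun x : Fin N → R3 => ∏ i ∈ A, ind B (x i)) := fun A =>
    BM_prod_ind h.B_meas A
  have hPB0 : ∀ (A : Finset (Fin N)) (x : Fin N → R3), 0 ≤ ∏ i ∈ A, ind B (x i) := fun A x =>
    Finset.prod_nonneg fun i _ => ind_nonneg _ _
  -- one quadruple
  have h1 : ∀ A ∈ powersetCard 4 (univ : Finset (Fin N)), out ν x0 A (fun x =>
      lam4 M (cnt B Aᶜ x) * lam4 M (cnt B' Aᶜ x) * (av ν g A Ψ x - av ν g' A Ψ x) ^ 2)
      ≤ 8 * (1 / m) ^ 4 * ∑ j ∈ A, ∫ x, (lam4 M (cnt B Aᶜ x) * ∏ i ∈ A, ind B (x i)) * F j x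
        ∂pin ν N := by
    intro A hA
    have hcard := (Finset.mem_powersetCard.1 hA).2
    have hdep : DependsOn (fun x : Fin N → R3 => lam4 M (cnt B Aᶜ x) * lam4 M (cnt B' Aᶜ x))
        ((A : Set (Fin N))ᶜ) := by
      intro x y hxy
      have e1 := dep_lam B (lam4 M) A hxy
      have e2 := dep_lam B' (lam4 M) A hxy
      simp only at e1 e2 ⊢
      rw [e1, e2]
    have h2 := hT ν m g g' Q Q' B B' h h' hQ'B hm Ψ
      (fun x => lam4 M (cnt B Aᶜ x) * lam4 M (cnt B' Aᶜ x)) hΨ ((hl A).mul (hl' A))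
      (fun x => mul_nonneg (h4 _).1 (h4 _).1) A hdep x0
    rw [hcard] at h2
    refine h2.trans ?_
    have e8 : (2 : ℝ) * ((4 : ℕ) : ℝ) * (1 / m) ^ 4 = 8 * (1 / m) ^ 4 := by norm_num
    rw [e8]
    refine mul_le_mul_of_nonneg_left (Finset.sum_le_sum fun j _ => ?_) hm4
    refine integral_mono ?_ ?_ fun x => ?_
    · exact BM.integrable (((hl A).mul (hl' A)).mul ((hPB A).mul (hFb j))) _
    · exact BM.integrable (((hl A).mul (hPB A)).mul (hFb j)) _
    · simp only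
      have h5 : lam4 M (cnt B Aᶜ x) * lam4 M (cnt B' Aᶜ x) ≤ lam4 M (cnt B Aᶜ x) :=
        mul_le_of_le_one_right (h4 _).1 (h4 _).2.1
      calc lam4 M (cnt B Aᶜ x) * lam4 M (cnt B' Aᶜ x) * ((∏ i ∈ A, ind B (x i)) * F j x)
          ≤ lam4 M (cnt B Aᶜ x) * ((∏ i ∈ A, ind B (x i)) * F j x) :=
            mul_le_mul_of_nonneg_right h5 (mul_nonneg (hPB0 A x) (hF0 j x))
        _ = _ := by ring
  refine (Finset.sum_le_sum h1).trans ?_
  rw [← Finset.mul_sum]
  refine mul_le_mul_of_nonneg_left ?_ hm4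
  have e2 : ∑ A ∈ powersetCard 4 (univ : Finset (Fin N)), ∑ j ∈ A,
        ∫ x, (lam4 M (cnt B Aᶜ x) * ∏ i ∈ A, ind B (x i)) * F j x ∂pin ν N
      = ∑ j : Fin N, ∑ A ∈ (powersetCard 4 (univ : Finset (Fin N))).filter (fun A => j ∈ A),
        ∫ x, (lam4 M (cnt B Aᶜ x) * ∏ i ∈ A, ind B (x i)) * F j x ∂pin ν N := by
    refine Finset.sum_comm' ?_
    intro A j
    simp only [Finset.mem_filter, Finset.mem_univ, and_true]
  rw [e2, Dw, Dw, ← Finset.sum_add_distrib, Finset.mul_sum]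
  refine Finset.sum_le_sum fun j _ => ?_
  rw [← integral_finsetSum _ fun A _ => BM.integrable (((hl A).mul (hPB A)).mul (hFb j)) _,
    ← integral_add ((hFb1 j).integrable _) ((hFb2 j).integrable _), ← integral_const_mul]
  refine integral_mono ?_ ?_ fun x => ?_
  · exact BM.integrable (BM.sum _ fun A _ => ((hl A).mul (hPB A)).mul (hFb j)) _
  · exact BM.integrable ((hFb j).const_mul _) _
  · simp only
    rw [← Finset.sum_mul]
    have h6 := pt2 (N := N) (subset_refl B) hC (lam4 M) hanti ((2 * M) ^ 3) 4 (by norm_num)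
      (fun n => cl3 hCt hM n) j x
    have h7 : (2 * M) ^ 3 * ind B (x j) ≤ (2 * M) ^ 3 :=
      mul_le_of_le_one_right (by positivity) (ind_le_one _ _)
    exact mul_le_mul_of_nonneg_right (h6.trans h7) (hF0 j x)

/-- General estimate of a sum over the quadruples of one window. -/
theorem sumG (hCt : S_Counts) (hC : S_CountK) (h : Wd ν m g Q B) {M : ℝ} (hM : 8 ≤ M)
    (Ψ : (Fin N → R3) → ℝ) (hΨ : BM Ψ) (x0 : Fin N → R3)
    (w : Finset (Fin N) → (Fin N → R3) → ℝ) (hw : ∀ A, BM (w A)) (hw0 : ∀ A x, 0 ≤ w A x)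
    (hwd : ∀ A, DependsOn (w A) ((A : Set (Fin N))ᶜ)) (e : (Fin N → R3) → ℝ) (he : BM e)
    (he0 : ∀ x, 0 ≤ e x)
    (hle : ∀ A : Finset (Fin N), A.card = 4 → ∀ x, (∀ i ∈ A, x i ∈ Q) →
      w A x ≤ e x * lam4 M (cnt B Aᶜ x)) :
    ∑ A ∈ powersetCard 4 (univ : Finset (Fin N)), out ν x0 A (fun x =>
      w A x * (av ν g A Ψ x) ^ 2)
      ≤ (1 / m) ^ 4 * ((2 * M) ^ 3 * ∫ x, (e x * (cnt Q univ x : ℝ)) * Ψ x ^ 2 ∂pin ν N) := by
  obtain ⟨-, -, h4, hanti, -⟩ := hCt M hM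
  have hm1 : 1 ≤ m := h.hm
  have hm0 : 0 < m := lt_of_lt_of_le one_pos hm1
  have hm4 : 0 ≤ (1 / m) ^ 4 := by positivity
  have hl : ∀ A : Finset (Fin N), BM (fun x : Fin N → R3 => lam4 M (cnt B Aᶜ x)) := fun A =>
    BM_cnt_comp h.B_meas Aᶜ (lam4 M)
  have hPQ : ∀ A : Finset (Fin N), BM (fun x : Fin N → R3 => ∏ i ∈ A, ind Q (x i)) := fun A =>
    BM_prod_ind h.Q_meas A
  have hPQ0 : ∀ (A : Finset (Fin N)) (x : Fin N → R3), 0 ≤ ∏ i ∈ A, ind Q (x i) := fun A x =>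
    Finset.prod_nonneg fun i _ => ind_nonneg _ _
  have hb : ∀ A : Finset (Fin N), BM (fun x : Fin N → R3 =>
      (lam4 M (cnt B Aᶜ x) * ∏ i ∈ A, ind Q (x i)) * (e x * Ψ x ^ 2)) := fun A =>
    ((hl A).mul (hPQ A)).mul (he.mul (hΨ.pow 2))
  have h1 : ∀ A ∈ powersetCard 4 (univ : Finset (Fin N)), out ν x0 A (fun x =>
      w A x * (av ν g A Ψ x) ^ 2)
      ≤ (1 / m) ^ 4 * ∫ x, (lam4 M (cnt B Aᶜ x) * ∏ i ∈ A, ind Q (x i)) * (e x * Ψ x ^ 2)
        ∂pin ν N := by
    intro A hA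
    have hcard := (Finset.mem_powersetCard.1 hA).2
    have h2 := out_av_sq_le (A := A) h hΨ (hw A) (hw0 A) (hwd A) x0
    rw [hcard] at h2
    refine h2.trans (mul_le_mul_of_nonneg_left ?_ hm4)
    refine integral_mono ?_ ((hb A).integrable _) fun x => ?_
    · exact BM.integrable ((hw A).mul ((hPQ A).mul (hΨ.pow 2))) _
    · simp only
      by_cases hall : ∀ i ∈ A, x i ∈ Q
      · have h5 := hle A hcard x hall
        calc w A x * ((∏ i ∈ A, ind Q (x i)) * Ψ x ^ 2)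
            ≤ (e x * lam4 M (cnt B Aᶜ x)) * ((∏ i ∈ A, ind Q (x i)) * Ψ x ^ 2) :=
              mul_le_mul_of_nonneg_right h5 (mul_nonneg (hPQ0 A x) (sq_nonneg _))
          _ = _ := by ring
      · push Not at hall
        obtain ⟨i, hi, hiQ⟩ := hall
        have h0' : ∏ i ∈ A, ind Q (x i) = 0 := Finset.prod_eq_zero hi (ind_of_notMem hiQ)
        rw [h0']
        simp
  refine (Finset.sum_le_sum h1).trans ?_
  rw [← Finset.mul_sum]
  refine mul_le_mul_of_nonneg_left ?_ hm4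
  rw [← integral_finsetSum _ fun A _ => (hb A).integrable _, ← integral_const_mul]
  refine integral_mono ?_ ?_ fun x => ?_
  · exact BM.integrable (BM.sum _ fun A _ => hb A) _
  · exact BM.integrable (((he.mul (BM_cnt h.Q_meas univ)).mul (hΨ.pow 2)).const_mul _) _
  · simp only
    rw [← Finset.sum_mul]
    have h6 := pt0 (N := N) h.Q_sub hC (lam4 M) (fun n => (h4 n).1) hanti ((2 * M) ^ 3)
      (fun n hn => cl4 hCt hM n hn) (by positivity) x
    have h7 := mul_le_mul_of_nonneg_right h6 (mul_nonneg (he0 x) (sq_nonneg (Ψ x)))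
    refine h7.trans (le_of_eq ?_)
    ring

theorem sumA2 (hCt : S_Counts) (hC : S_CountK) (h : Wd ν m g Q B) (hQB' : Q ⊆ B')
    (hB' : MeasurableSet B') {M : ℝ} (hM : 8 ≤ M)
    (Ψ : (Fin N → R3) → ℝ) (hΨ : BM Ψ) (x0 : Fin N → R3) :
    ∑ A ∈ powersetCard 4 (univ : Finset (Fin N)), out ν x0 A (fun x =>
      lam4 M (cnt B Aᶜ x) * (1 - lam4 M (cnt B' Aᶜ x)) * (av ν g A Ψ x) ^ 2)
      ≤ (1 / m) ^ 4 * ((2 * M) ^ 3 * ∫ x, (if M < cnt B' univ x then (cnt B' univ x : ℝ) else 0) *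
        Ψ x ^ 2 ∂pin ν N) := by
  obtain ⟨-, -, h4, hanti, -⟩ := hCt M hM
  have hm1 : 1 ≤ m := h.hm
  have hm0 : 0 < m := lt_of_lt_of_le one_pos hm1
  have hm4 : 0 ≤ (1 / m) ^ 4 := by positivity
  have hl : ∀ A : Finset (Fin N), BM (fun x : Fin N → R3 => lam4 M (cnt B Aᶜ x)) := fun A =>
    BM_cnt_comp h.B_meas Aᶜ (lam4 M)
  have hl' : ∀ A : Finset (Fin N), BM (fun x : Fin N → R3 => lam4 M (cnt B' Aᶜ x)) := fun A =>
    BM_cnt_comp hB' Aᶜ (lam4 M)
  have he : BM (fun x : Fin N → R3 => if M < cnt B' univ x then (1 : ℝ) else 0) :=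
    BM_cnt_comp hB' univ (fun n => if M < (n : ℝ) then (1 : ℝ) else 0)
  have he2 : BM (fun x : Fin N → R3 => if M < cnt B' univ x then (cnt B' univ x : ℝ) else 0) :=
    BM_cnt_comp hB' univ (fun n => if M < (n : ℝ) then (n : ℝ) else 0)
  have h1 := sumG (x0 := x0) hCt hC h hM Ψ hΨ
    (fun A x => lam4 M (cnt B Aᶜ x) * (1 - lam4 M (cnt B' Aᶜ x)))
    (fun A => (hl A).mul ((BM.const 1).sub (hl' A)))
    (fun A x => mul_nonneg (h4 _).1 (sub_nonneg.2 (h4 _).2.1)) ?_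
    (fun x => if M < cnt B' univ x then (1 : ℝ) else 0) he ?_ ?_
  · refine h1.trans (mul_le_mul_of_nonneg_left (mul_le_mul_of_nonneg_left ?_ (by positivity)) hm4)
    refine integral_mono ?_ ?_ fun x => ?_
    · exact BM.integrable ((he.mul (BM_cnt h.Q_meas univ)).mul (hΨ.pow 2)) _
    · exact BM.integrable (he2.mul (hΨ.pow 2)) _
    · refine mul_le_mul_of_nonneg_right ?_ (sq_nonneg _)
      by_cases hc : M < cnt B' univ x
      · simp only [hc, if_true, one_mul]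
        exact_mod_cast cnt_mono hQB' univ x
      · simp only [hc, if_false, zero_mul, le_refl]
  · intro A x y hxy
    have e1 := dep_lam B (lam4 M) A hxy
    have e2 := dep_lam B' (lam4 M) A hxy
    simp only at e1 e2 ⊢
    rw [e1, e2]
  · intro x
    split_ifs <;> norm_num
  · intro A hA x hall
    by_cases hc : M < cnt B' univ x
    · simp only [hc, if_true, one_mul]
      exact mul_le_of_le_one_right (h4 _).1 (by linarith [(h4 (cnt B' Aᶜ x)).1])
    · have h5 : cnt B' univ x = 4 + cnt B' Aᶜ x := by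
        rw [← Finset.union_compl A, cnt_add B' A Aᶜ disjoint_compl_right x,
          cnt_full B' A x (fun i hi => hQB' (hall i hi)), hA]
      have h6 : ((cnt B' Aᶜ x : ℕ) : ℝ) + 1 ≤ M := by
        have : ((cnt B' univ x : ℕ) : ℝ) = 4 + (cnt B' Aᶜ x : ℕ) := by
          rw [h5]; push_cast; ring
        push Not at hc
        linarith
      have h7 : lam4 M (cnt B' Aᶜ x) = 1 := by
        unfold lam4
        rw [if_pos h6]
      rw [h7]
      simp [hc]

theorem sumB (hCt : S_Counts) (hC : S_CountK) (h : Wd ν m g Q B) {M : ℝ} (hM : 8 ≤ M)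
    (Ψ : (Fin N → R3) → ℝ) (hΨ : BM Ψ) (x0 : Fin N → R3) :
    ∑ A ∈ powersetCard 4 (univ : Finset (Fin N)), out ν x0 A (fun x =>
      lam4 M (cnt B Aᶜ x) * (av ν g A Ψ x) ^ 2)
      ≤ (1 / m) ^ 4 * ((2 * M) ^ 3 * ∫ x, (cnt Q univ x : ℝ) * Ψ x ^ 2 ∂pin ν N) := by
  obtain ⟨-, -, h4, hanti, -⟩ := hCt M hM
  have hl : ∀ A : Finset (Fin N), BM (fun x : Fin N → R3 => lam4 M (cnt B Aᶜ x)) := fun A =>
    BM_cnt_comp h.B_meas Aᶜ (lam4 M)
  have h1 := sumG (x0 := x0) hCt hC h hM Ψ hΨ (fun A x => lam4 M (cnt B Aᶜ x))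
    hl (fun A x => (h4 _).1) (fun A => dep_lam B (lam4 M) A) (fun _ => 1) (BM.const 1)
    (fun _ => zero_le_one) (fun A _ x _ => by simp)
  simpa using h1

/-! ### The double sum -/

section alg

variable {ι κ : Type*}

/-- The identity behind the estimate. -/
theorem alg_id (w : Finset ι) (I W R : ι → ι → ℝ) (t : ℝ) (hI : ∀ a b, I a b = I b a)
    (hR : ∀ a ∈ w, ∀ b ∈ w, R a b = W a a - 2 * W a b + W b b) :
    ∑ a ∈ w, t * W a a - ∑ a ∈ w, ∑ b ∈ w, I a b * W a b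
      = 1 / 2 * ∑ a ∈ w, ∑ b ∈ w, I a b * R a b
        + ∑ a ∈ w, (t - ∑ b ∈ w, I a b) * W a a := by
  have e1 : ∑ a ∈ w, ∑ b ∈ w, I a b * R a b
      = ∑ a ∈ w, ∑ b ∈ w, I a b * W a a - 2 * ∑ a ∈ w, ∑ b ∈ w, I a b * W a b
        + ∑ a ∈ w, ∑ b ∈ w, I a b * W b b := by
    rw [Finset.mul_sum, ← Finset.sum_sub_distrib, ← Finset.sum_add_distrib]
    refine Finset.sum_congr rfl fun a ha => ?_
    rw [Finset.mul_sum, ← Finset.sum_sub_distrib, ← Finset.sum_add_distrib]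
    refine Finset.sum_congr rfl fun b hb => ?_
    rw [hR a ha b hb]
    ring
  have e2 : ∑ a ∈ w, ∑ b ∈ w, I a b * W b b = ∑ a ∈ w, ∑ b ∈ w, I a b * W a a := by
    rw [Finset.sum_comm]
    refine Finset.sum_congr rfl fun a _ => Finset.sum_congr rfl fun b _ => ?_
    rw [hI b a]
  have e3 : ∑ a ∈ w, (t - ∑ b ∈ w, I a b) * W a a
      = ∑ a ∈ w, t * W a a - ∑ a ∈ w, ∑ b ∈ w, I a b * W a a := by
    rw [← Finset.sum_sub_distrib]
    refine Finset.sum_congr rfl fun a _ => ?_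
    rw [sub_mul, Finset.sum_mul]
  rw [e1, e2, e3]
  ring

/-- A sum over the neighbours. -/
theorem nb_sum (w : Finset ι) (nb : ι → ι → Prop) (hnb : ∀ a b, nb a b → nb b a)
    (h27 : ∀ a ∈ w, ((w.filter (fun b => nb a b)).card : ℝ) ≤ 27) (f : ι → ℝ)
    (hf : ∀ a ∈ w, 0 ≤ f a) :
    ∑ a ∈ w, ∑ b ∈ w, (if nb a b then f a + f b else 0) ≤ 54 * ∑ a ∈ w, f a := by
  have h1 : ∑ a ∈ w, ∑ b ∈ w, (if nb a b then f a else 0) ≤ 27 * ∑ a ∈ w, f a := by
    rw [Finset.mul_sum]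
    refine Finset.sum_le_sum fun a ha => ?_
    rw [← Finset.sum_filter, Finset.sum_const, nsmul_eq_mul]
    exact mul_le_mul_of_nonneg_right (h27 a ha) (hf a ha)
  have h2 : ∑ a ∈ w, ∑ b ∈ w, (if nb a b then f b else 0)
      = ∑ a ∈ w, ∑ b ∈ w, (if nb a b then f a else 0) := by
    rw [Finset.sum_comm]
    refine Finset.sum_congr rfl fun a _ => Finset.sum_congr rfl fun b _ => ?_
    have : nb b a ↔ nb a b := ⟨hnb b a, hnb a b⟩
    simp only [this]
  have h3 : ∑ a ∈ w, ∑ b ∈ w, (if nb a b then f a + f b else 0)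
      = ∑ a ∈ w, ∑ b ∈ w, (if nb a b then f a else 0)
        + ∑ a ∈ w, ∑ b ∈ w, (if nb a b then f b else 0) := by
    rw [← Finset.sum_add_distrib]
    refine Finset.sum_congr rfl fun a _ => ?_
    rw [← Finset.sum_add_distrib]
    refine Finset.sum_congr rfl fun b _ => ?_
    split_ifs <;> simp
  rw [h3, h2]
  linarith

end alg

end VVlowaux

open VVlowaux in
theorem VVlow (hT : S_TwoWin) (hCt : S_Counts) (hCo : S_CountK) (hO : S_Overlap)
    (hW : S_WinFacts) (hWd : S_WdWin) : S_VVlow := by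
  obtain ⟨C, -, hC⟩ := hW
  refine ⟨1728, by norm_num, fun p hp Ψ hΨ => ?_⟩
  have hs : 0 < p.s := lt_of_lt_of_le one_pos hp.hs
  have hs3 : 0 < p.s ^ 3 := pow_pos hs 3
  have hM : 8 ≤ p.M := hp.hM
  have hM0 : 0 < p.M := by linarith
  obtain ⟨-, -, h4, -⟩ := hCt p.M hM
  have hfacts := hC p.s p.e hp.hs hp.he hp.he'
  have hwd : ∀ a ∈ p.win, Wd p.nu (p.s ^ 3) (p.gd a) (Qc p.s a) (Bc p.s a) := fun a ha =>
    (hWd p hp a ha).1
  have hsub : ∀ a ∈ p.win, Qc p.s a ⊆ Om p.L := fun a ha => (hWd p hp a ha).2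
  have hB : ∀ a, MeasurableSet (Bc p.s a) := fun a => by
    rw [wdWin_Bc_eq]; exact measurableSet_Icc
  have hth : ∀ a, BM (th p.s p.e a) := fun a => by
    obtain ⟨h1, h2, -⟩ := hfacts a
    exact ⟨h1.continuous.measurable, 1, fun x => by
      rw [abs_of_nonneg (h2 x).1]; exact (h2 x).2⟩
  have hth0 : ∀ a c, 0 ≤ th p.s p.e a c := fun a c => ((hfacts a).2.1 c).1
  have hth1 : ∀ a c, th p.s p.e a c ≤ 1 := fun a c => ((hfacts a).2.1 c).2
  have hthQ : ∀ a c, th p.s p.e a c ≠ 0 → c ∈ Qc p.s a := by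
    intro a c hc k
    refine ((hfacts a).2.2.1 c hc k).trans ?_
    nlinarith [mul_pos hp.he hs]
  -- the functions u
  set u : (Fin 3 → ℤ) → Finset (Fin p.N) → (Fin p.N → R3) → ℝ :=
    fun a A x => p.l4 a A x * p.U a A Ψ x with hu
  have hl4 : ∀ a A, BM (p.l4 a A) := fun a A => BM_cnt_comp (hB a) Aᶜ (lam4 p.M)
  have hub : ∀ a ∈ p.win, ∀ A, BM (u a A) := fun a ha A => (hl4 a A).mul (av_bm (hwd a ha) hΨ)
  set W : Finset (Fin p.N) → (Fin 3 → ℤ) → (Fin 3 → ℤ) → ℝ :=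
    fun A a b => out p.nu 0 A (fun x => u a A x * u b A x) with hWdef
  set R : Finset (Fin p.N) → (Fin 3 → ℤ) → (Fin 3 → ℤ) → ℝ :=
    fun A a b => out p.nu 0 A (fun x => (u a A x - u b A x) ^ 2) with hRdef
  set I : (Fin 3 → ℤ) → (Fin 3 → ℤ) → ℝ :=
    fun a b => ∫ c, th p.s p.e a c * th p.s p.e b c ∂p.nu with hIdef
  have hIsymm : ∀ a b, I a b = I b a := by
    intro a b
    simp only [hIdef]
    congr 1
    ext1 c
    ring
  have hRW : ∀ A, ∀ a ∈ p.win, ∀ b ∈ p.win, R A a b = W A a a - 2 * W A a b + W A b b := by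
    intro A a ha b hb
    have e1 : (fun x => (u a A x - u b A x) ^ 2)
        = fun x => (u a A x * u a A x - 2 * (u a A x * u b A x)) + u b A x * u b A x := by
      ext1 x; ring
    have hua := hub a ha A
    have hubb := hub b hb A
    simp only [hRdef, hWdef, out]
    rw [e1, Mg_add ((hua.mul hua).sub ((hua.mul hubb).const_mul 2)) (hubb.mul hubb),
      Mg_sub (hua.mul hua) ((hua.mul hubb).const_mul 2), Mg_const_mul]
  -- the quantity VV
  have hVV : p.VV Ψ = ∑ A ∈ powersetCard 4 (univ : Finset (Fin p.N)),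
      ∑ a ∈ p.win, ∑ b ∈ p.win, I a b * W A a b := by
    unfold Par.VV
    refine Finset.sum_congr rfl fun A _ => ?_
    have e1 : ∀ c, out p.nu 0 A (fun x => p.vt4 Ψ A c x ^ 2)
        = ∑ a ∈ p.win, ∑ b ∈ p.win, (th p.s p.e a c * th p.s p.e b c) * W A a b := by
      intro c
      have e2 : (fun x => p.vt4 Ψ A c x ^ 2) = fun x => ∑ a ∈ p.win, ∑ b ∈ p.win,
          (th p.s p.e a c * th p.s p.e b c) * (u a A x * u b A x) := by
        ext1 x
        rw [Par.vt4, sq, Finset.sum_mul_sum]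
        refine Finset.sum_congr rfl fun a _ => Finset.sum_congr rfl fun b _ => ?_
        simp only [hu]
        ring
      simp only [hWdef, out]
      rw [e2, Mg_sum p.win fun a ha => BM.sum _ fun b hb =>
        ((hub a ha A).mul (hub b hb A)).const_mul _]
      refine Finset.sum_congr rfl fun a ha => ?_
      rw [Mg_sum p.win fun b hb => ((hub a ha A).mul (hub b hb A)).const_mul _]
      refine Finset.sum_congr rfl fun b hb => ?_
      rw [Mg_const_mul]
    simp only [e1]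
    have hint : ∀ a b, BM (fun c => (th p.s p.e a c * th p.s p.e b c) * W A a b) := fun a b =>
      ((hth a).mul (hth b)).mul (BM.const _)
    rw [show (volume.restrict (Om p.L)) = p.nu from rfl,
      integral_finsetSum _ fun a _ => BM.integrable (BM.sum _ fun b _ => hint a b) _]
    refine Finset.sum_congr rfl fun a _ => ?_
    rw [integral_finsetSum _ fun b _ => BM.integrable (hint a b) _]
    refine Finset.sum_congr rfl fun b _ => ?_
    rw [integral_mul_const]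
  have hG4 : p.G4 Ψ = ∑ A ∈ powersetCard 4 (univ : Finset (Fin p.N)),
      ∑ a ∈ p.win, p.s ^ 3 * W A a a := by
    unfold Par.G4
    rw [Finset.sum_comm]
    simp_rw [Finset.mul_sum]
    refine Finset.sum_congr rfl fun a _ => Finset.sum_congr rfl fun A _ => ?_
    simp only [hWdef]
    congr 2
    ext1 x
    simp only [hu]
    have h5 := (h4 (cnt (Bc p.s a) Aᶜ x)).2.2
    have h6 : p.l4 a A x * p.l4 a A x = p.l4 a A x := by
      rw [← sq]; exact h5
    calc p.l4 a A x * p.U a A Ψ x ^ 2 = (p.l4 a A x * p.l4 a A x) * p.U a A Ψ x ^ 2 := by rw [h6]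
      _ = _ := by ring
  -- the weights `I`
  have hI0 : ∀ a b, 0 ≤ I a b := fun a b =>
    integral_nonneg fun c => mul_nonneg (hth0 a c) (hth0 b c)
  have hthint : ∀ a ∈ p.win, ∫ c, th p.s p.e a c ∂p.nu = p.s ^ 3 := by
    intro a ha
    rw [← (hfacts a).2.2.2.2.2.2.2.2, Par.nu]
    refine setIntegral_eq_integral_of_forall_compl_eq_zero fun c hc => ?_
    by_contra h
    exact hc (hsub a ha (hthQ a c h))
  have hIle : ∀ a ∈ p.win, ∀ b, I a b ≤ p.s ^ 3 := by
    intro a ha b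
    rw [← hthint a ha]
    exact integral_mono (((hth a).mul (hth b)).integrable _) ((hth a).integrable _) fun c =>
      mul_le_of_le_one_right (hth0 a c) (hth1 b c)
  set nb : (Fin 3 → ℤ) → (Fin 3 → ℤ) → Prop :=
    fun a b => ∃ c, th p.s p.e a c ≠ 0 ∧ th p.s p.e b c ≠ 0 with hnbdef
  have hIz : ∀ a b, ¬ nb a b → I a b = 0 := by
    intro a b h
    have : ∀ c, th p.s p.e a c * th p.s p.e b c = 0 := by
      intro c
      by_contra hne
      exact h ⟨c, left_ne_zero_of_mul hne, right_ne_zero_of_mul hne⟩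
    simp only [hIdef, this, integral_zero]
  -- the weights `J`
  set S : R3 → ℝ := fun c => ∑ b ∈ p.win, th p.s p.e b c with hSdef
  have hSb : BM S := BM.sum _ fun b _ => hth b
  have hS1 : ∀ c, S c ≤ 1 := fun c => (hfacts 0).2.2.2.2.2.1 p.K c
  have hJ : ∀ a ∈ p.win, p.s ^ 3 - ∑ b ∈ p.win, I a b
      = ∫ c, th p.s p.e a c * (1 - S c) ∂p.nu := by
    intro a ha
    have e1 : ∑ b ∈ p.win, I a b = ∫ c, th p.s p.e a c * S c ∂p.nu := by
      simp only [hIdef]
      rw [← integral_finsetSum _ fun b _ => ((hth a).mul (hth b)).integrable _]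
      congr 1
      ext1 c
      rw [hSdef, Finset.mul_sum]
    rw [e1, ← hthint a ha, ← integral_sub ((hth a).integrable _) (((hth a).mul hSb).integrable _)]
    congr 1
    ext1 c
    ring
  set bd : (Fin 3 → ℤ) → Prop := fun a => ∃ c, th p.s p.e a c ≠ 0 ∧ S c ≠ 1 with hbddef
  have hJ0 : ∀ a ∈ p.win, 0 ≤ p.s ^ 3 - ∑ b ∈ p.win, I a b := by
    intro a ha
    rw [hJ a ha]
    exact integral_nonneg fun c => mul_nonneg (hth0 a c) (by linarith [hS1 c])
  have hJle : ∀ a ∈ p.win, p.s ^ 3 - ∑ b ∈ p.win, I a b ≤ p.s ^ 3 := by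
    intro a ha
    have := Finset.sum_nonneg (s := p.win) fun b _ => hI0 a b
    linarith
  have hJz : ∀ a ∈ p.win, ¬ bd a → p.s ^ 3 - ∑ b ∈ p.win, I a b = 0 := by
    intro a ha h
    rw [hJ a ha]
    have : ∀ c, th p.s p.e a c * (1 - S c) = 0 := by
      intro c
      by_contra hne
      refine h ⟨c, left_ne_zero_of_mul hne, fun h1 => ?_⟩
      apply right_ne_zero_of_mul hne
      rw [h1, sub_self]
    simp only [this, integral_zero]
  have hbd : ∀ a ∈ p.win, bd a → Qc p.s a ⊆ p.strip := by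
    intro a ha ⟨c, hc1, hc2⟩
    have h1 : ¬ ∀ k, |c k| ≤ p.s * p.K := fun h => hc2 ((hfacts 0).2.2.2.2.2.2.1 p.K c h)
    push Not at h1
    obtain ⟨k, hk⟩ := h1
    have h2 := (hfacts a).2.2.1 c hc1 k
    -- `|a k| ≥ K`
    have h3 : p.s * (p.K - 1) < p.s * |(a k : ℝ)| := by
      have h5 : |c k| ≤ |c k - p.s * a k| + |p.s * a k| := by
        have := abs_add_le (c k - p.s * a k) (p.s * a k)
        rwa [sub_add_cancel] at this
      rw [abs_mul, abs_of_pos hs] at h5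
      have h6 := mul_pos hp.he hs
      have h7 : p.s * (p.K - 1) = p.s * p.K - p.s := by ring
      have h8 : (1 - p.e) * p.s = p.s - p.e * p.s := by ring
      rw [h7]
      rw [h8] at h2
      linarith
    have h4 : ((p.K : ℝ) - 1) < |(a k : ℝ)| := lt_of_mul_lt_mul_left h3 hs.le
    have h5 : (p.K : ℝ) ≤ |(a k : ℝ)| := by
      have h6 : ((p.K : ℤ) - 1 : ℤ) < |a k| := by
        have : (((p.K : ℤ) - 1 : ℤ) : ℝ) < ((|a k| : ℤ) : ℝ) := by
          push_cast
          exact h4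
        exact_mod_cast this
      have h7 : (p.K : ℤ) ≤ |a k| := by omega
      have : ((p.K : ℤ) : ℝ) ≤ ((|a k| : ℤ) : ℝ) := by exact_mod_cast h7
      push_cast at this
      exact this
    intro c' hc'
    refine ⟨k, ?_⟩
    have h6 := hc' k
    have h7 : |p.s * (a k : ℝ)| ≤ |c' k| + |c' k - p.s * a k| := by
      have := abs_sub (c' k) (c' k - p.s * a k)
      rwa [sub_sub_cancel] at this
    rw [abs_mul, abs_of_pos hs] at h7
    have h8 := mul_le_mul_of_nonneg_left h5 hs.le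
    have h9 : p.s * (p.K - 1) = p.s * p.K - p.s := by ring
    rw [h9]
    linarith
  -- neighbours
  have hnbs : ∀ a b, nb a b → nb b a := fun a b ⟨c, h1, h2⟩ => ⟨c, h2, h1⟩
  have hnb27 : ∀ a ∈ p.win, ((p.win.filter (fun b => nb a b)).card : ℝ) ≤ 27 := by
    intro a _
    have hsubs : p.win.filter (fun b => nb a b) ⊆
        Fintype.piFinset (fun k => Finset.Icc (a k - 1) (a k + 1)) := by
      intro b hb
      obtain ⟨-, c, hc1, hc2⟩ := Finset.mem_filter.1 hb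
      rw [Fintype.mem_piFinset]
      intro k
      have h1 := abs_le.1 ((hfacts a).2.2.1 c hc1 k)
      have h2 := abs_le.1 ((hfacts b).2.2.1 c hc2 k)
      have h6 := mul_pos hp.he hs
      have h3 : p.s * ((b k : ℝ) - a k) < p.s * 2 := by nlinarith
      have h4 : p.s * ((a k : ℝ) - b k) < p.s * 2 := by nlinarith
      have h5 : (b k : ℝ) - a k < 2 := lt_of_mul_lt_mul_left h3 hs.le
      have h7 : (a k : ℝ) - b k < 2 := lt_of_mul_lt_mul_left h4 hs.le
      have h5' : b k - a k < 2 := by exact_mod_cast h5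
      have h7' : a k - b k < 2 := by exact_mod_cast h7
      rw [Finset.mem_Icc]
      omega
    have hcard := Finset.card_le_card hsubs
    rw [Fintype.card_piFinset] at hcard
    have e : ∀ k : Fin 3, (Finset.Icc (a k - 1) (a k + 1)).card = 3 := by
      intro k
      rw [Int.card_Icc]
      have : a k + 1 + 1 - (a k - 1) = 3 := by ring
      rw [this]
      rfl
    simp only [e, Finset.prod_const, Finset.card_univ, Fintype.card_fin] at hcard
    have h27 : (p.win.filter (fun b => nb a b)).card ≤ 27 := hcard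
    exact_mod_cast h27
  -- the estimates for two windows
  set Da : (Fin 3 → ℤ) → ℝ := fun a => Dw p.nu (p.gd a) (Qc p.s a) Ψ with hDa
  set Na : (Fin 3 → ℤ) → ℝ := fun a =>
    ∫ x, (if p.M < cnt (Bc p.s a) univ x then (cnt (Bc p.s a) univ x : ℝ) else 0) *
      Ψ x ^ 2 ∂pin p.nu p.N with hNa
  set na : (Fin 3 → ℤ) → ℝ := fun a =>
    ∫ x, (cnt (Qc p.s a) univ x : ℝ) * Ψ x ^ 2 ∂pin p.nu p.N with hna
  have hDa0 : ∀ a, 0 ≤ Da a := fun a => Finset.sum_nonneg fun j _ =>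
    integral_nonneg fun x => mul_nonneg (ind_nonneg _ _) (sq_nonneg _)
  have hNa0 : ∀ a, 0 ≤ Na a := fun a => integral_nonneg fun x => by
    refine mul_nonneg ?_ (sq_nonneg _)
    split_ifs
    · exact Nat.cast_nonneg _
    · exact le_rfl
  have hna0 : ∀ a, 0 ≤ na a := fun a => integral_nonneg fun x =>
    mul_nonneg (Nat.cast_nonneg _) (sq_nonneg _)
  set K0 : ℝ := (1 / p.s ^ 3) ^ 4 * (2 * p.M) ^ 3 with hK0
  have hK00 : 0 ≤ K0 := by positivity
  have hRle : ∀ a ∈ p.win, ∀ b ∈ p.win, nb a b →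
      ∑ A ∈ powersetCard 4 (univ : Finset (Fin p.N)), R A a b
        ≤ K0 * ((8 * Da a + Na a) + (8 * Da b + Na b)) := by
    intro a ha b hb ⟨c, hca, hcb⟩
    have hne : (Qc p.s a ∩ Qc p.s b).Nonempty := ⟨c, hthQ a c hca, hthQ b c hcb⟩
    have hne' : (Qc p.s b ∩ Qc p.s a).Nonempty := ⟨c, hthQ b c hcb, hthQ a c hca⟩
    have hab : Qc p.s a ⊆ Bc p.s b := (hO p hp).2.2.1 a b hne
    have hba : Qc p.s b ⊆ Bc p.s a := (hO p hp).2.2.1 b a hne'
    have hvol : p.s ^ 3 ≤ p.nu.real (Qc p.s a ∩ Qc p.s b) :=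
      (hO p hp).2.2.2 a ha b hb c hca hcb
    have h1 := sumA1 hT hCt hCo (hwd a ha) (hwd b hb) hba hvol hM Ψ hΨ 0
    have h2 := sumA2 hCt hCo (hwd a ha) hab (hB b) hM Ψ hΨ 0
    have h3 := sumA2 hCt hCo (hwd b hb) hba (hB a) hM Ψ hΨ 0
    have hsplit : ∀ A ∈ powersetCard 4 (univ : Finset (Fin p.N)), R A a b =
        out p.nu 0 A (fun x => lam4 p.M (cnt (Bc p.s a) Aᶜ x) * lam4 p.M (cnt (Bc p.s b) Aᶜ x) *
          (av p.nu (p.gd a) A Ψ x - av p.nu (p.gd b) A Ψ x) ^ 2)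
        + out p.nu 0 A (fun x => lam4 p.M (cnt (Bc p.s a) Aᶜ x) *
          (1 - lam4 p.M (cnt (Bc p.s b) Aᶜ x)) * (av p.nu (p.gd a) A Ψ x) ^ 2)
        + out p.nu 0 A (fun x => lam4 p.M (cnt (Bc p.s b) Aᶜ x) *
          (1 - lam4 p.M (cnt (Bc p.s a) Aᶜ x)) * (av p.nu (p.gd b) A Ψ x) ^ 2) := by
      intro A _
      have hla : BM (fun x : Fin p.N → R3 => lam4 p.M (cnt (Bc p.s a) Aᶜ x)) := hl4 a A
      have hlb : BM (fun x : Fin p.N → R3 => lam4 p.M (cnt (Bc p.s b) Aᶜ x)) := hl4 b A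
      have hUa : BM (av p.nu (p.gd a) A Ψ) := av_bm (hwd a ha) hΨ
      have hUb : BM (av p.nu (p.gd b) A Ψ) := av_bm (hwd b hb) hΨ
      have e1 : (fun x => (u a A x - u b A x) ^ 2) = fun x =>
          (lam4 p.M (cnt (Bc p.s a) Aᶜ x) * lam4 p.M (cnt (Bc p.s b) Aᶜ x) *
            (av p.nu (p.gd a) A Ψ x - av p.nu (p.gd b) A Ψ x) ^ 2
          + lam4 p.M (cnt (Bc p.s a) Aᶜ x) *
            (1 - lam4 p.M (cnt (Bc p.s b) Aᶜ x)) * (av p.nu (p.gd a) A Ψ x) ^ 2)
          + lam4 p.M (cnt (Bc p.s b) Aᶜ x) *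
            (1 - lam4 p.M (cnt (Bc p.s a) Aᶜ x)) * (av p.nu (p.gd b) A Ψ x) ^ 2 := by
        ext1 x
        simp only [hu, Par.l4, Par.U]
        have ea := (h4 (cnt (Bc p.s a) Aᶜ x)).2.2
        have eb := (h4 (cnt (Bc p.s b) Aᶜ x)).2.2
        generalize lam4 p.M (cnt (Bc p.s a) Aᶜ x) = l at ea ⊢
        generalize lam4 p.M (cnt (Bc p.s b) Aᶜ x) = l' at eb ⊢
        generalize av p.nu (p.gd a) A Ψ x = U
        generalize av p.nu (p.gd b) A Ψ x = U'
        calc (l * U - l' * U') ^ 2 = l ^ 2 * U ^ 2 - 2 * l * l' * U * U' + l' ^ 2 * U' ^ 2 := by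
              ring
          _ = l * U ^ 2 - 2 * l * l' * U * U' + l' * U' ^ 2 := by rw [ea, eb]
          _ = _ := by ring
      simp only [hRdef, out]
      rw [e1, Mg_add (((hla.mul hlb).mul ((hUa.sub hUb).pow 2)).add
        ((hla.mul ((BM.const 1).sub hlb)).mul (hUa.pow 2)))
        ((hlb.mul ((BM.const 1).sub hla)).mul (hUb.pow 2)),
        Mg_add ((hla.mul hlb).mul ((hUa.sub hUb).pow 2))
        ((hla.mul ((BM.const 1).sub hlb)).mul (hUa.pow 2))]
    rw [Finset.sum_congr rfl hsplit, Finset.sum_add_distrib, Finset.sum_add_distrib]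
    have e4 : K0 * ((8 * Da a + Na a) + (8 * Da b + Na b))
        = 8 * (1 / p.s ^ 3) ^ 4 * ((2 * p.M) ^ 3 * (Da a + Da b))
          + (1 / p.s ^ 3) ^ 4 * ((2 * p.M) ^ 3 * Na b)
          + (1 / p.s ^ 3) ^ 4 * ((2 * p.M) ^ 3 * Na a) := by
      rw [hK0]; ring
    rw [e4]
    exact add_le_add (add_le_add h1 h2) h3
  have hWle : ∀ a ∈ p.win,
      ∑ A ∈ powersetCard 4 (univ : Finset (Fin p.N)), W A a a ≤ K0 * na a := by
    intro a ha
    have h1 := sumB hCt hCo (hwd a ha) hM Ψ hΨ 0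
    have e : ∀ A ∈ powersetCard 4 (univ : Finset (Fin p.N)), W A a a =
        out p.nu 0 A (fun x => lam4 p.M (cnt (Bc p.s a) Aᶜ x) * (av p.nu (p.gd a) A Ψ x) ^ 2) := by
      intro A _
      simp only [hWdef]
      congr 1
      ext1 x
      simp only [hu, Par.l4, Par.U]
      have ea := (h4 (cnt (Bc p.s a) Aᶜ x)).2.2
      generalize lam4 p.M (cnt (Bc p.s a) Aᶜ x) = l at ea ⊢
      generalize av p.nu (p.gd a) A Ψ x = U
      calc l * U * (l * U) = l ^ 2 * U ^ 2 := by ring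
        _ = _ := by rw [ea]
    rw [Finset.sum_congr rfl e, hK0, mul_assoc]
    exact h1
  have hW0 : ∀ A a, 0 ≤ W A a a := fun A a => Mg_nonneg (fun x => mul_self_nonneg _) _
  have hR0 : ∀ A a b, 0 ≤ R A a b := fun A a b => Mg_nonneg (fun x => sq_nonneg _) _
  -- the identity
  have hid : p.G4 Ψ - p.VV Ψ
      = 1 / 2 * ∑ a ∈ p.win, ∑ b ∈ p.win,
          I a b * ∑ A ∈ powersetCard 4 (univ : Finset (Fin p.N)), R A a b
        + ∑ a ∈ p.win, (p.s ^ 3 - ∑ b ∈ p.win, I a b) *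
          ∑ A ∈ powersetCard 4 (univ : Finset (Fin p.N)), W A a a := by
    rw [hG4, hVV, ← Finset.sum_sub_distrib,
      Finset.sum_congr rfl fun A _ => alg_id p.win I (W A) (R A) (p.s ^ 3) hIsymm (hRW A),
      Finset.sum_add_distrib]
    congr 1
    · rw [← Finset.mul_sum, Finset.sum_comm]
      congr 1
      refine Finset.sum_congr rfl fun a _ => ?_
      rw [Finset.sum_comm]
      refine Finset.sum_congr rfl fun b _ => ?_
      rw [Finset.mul_sum]
    · rw [Finset.sum_comm]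
      refine Finset.sum_congr rfl fun a _ => ?_
      rw [Finset.mul_sum]
  -- the first part
  have hpart1 : ∑ a ∈ p.win, ∑ b ∈ p.win,
      I a b * ∑ A ∈ powersetCard 4 (univ : Finset (Fin p.N)), R A a b
      ≤ p.s ^ 3 * K0 * (54 * ∑ a ∈ p.win, (8 * Da a + Na a)) := by
    have h1 := nb_sum p.win nb hnbs hnb27 (fun a => 8 * Da a + Na a)
      (fun a _ => by have := hDa0 a; have := hNa0 a; positivity)
    have h2 := mul_le_mul_of_nonneg_left h1 (mul_nonneg hs3.le hK00)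
    refine le_trans ?_ h2
    rw [Finset.mul_sum]
    refine Finset.sum_le_sum fun a ha => ?_
    rw [Finset.mul_sum]
    refine Finset.sum_le_sum fun b hb => ?_
    by_cases h : nb a b
    · rw [if_pos h, mul_assoc]
      exact mul_le_mul (hIle a ha b) (hRle a ha b hb h)
        (Finset.sum_nonneg fun A _ => hR0 A a b) hs3.le
    · rw [if_neg h, hIz a b h]
      simp
  -- the second part
  have hstripm : MeasurableSet p.strip := by
    have : p.strip = ⋃ k : Fin 3, {c : R3 | p.s * (p.K - 1) ≤ |c k|} := by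
      ext c; simp [Par.strip]
    rw [this]
    refine MeasurableSet.iUnion fun k => ?_
    exact measurableSet_le measurable_const (measurable_pi_apply k).abs
  have hpart2 : ∑ a ∈ p.win, (p.s ^ 3 - ∑ b ∈ p.win, I a b) *
      ∑ A ∈ powersetCard 4 (univ : Finset (Fin p.N)), W A a a
      ≤ p.s ^ 3 * K0 * (27 * p.NS Ψ) := by
    have h1 : ∑ a ∈ p.win, (if bd a then na a else 0) ≤ 27 * p.NS Ψ := by
      have hQm : ∀ a, MeasurableSet (Qc p.s a) := fun a => by
        rw [wdWin_Qc_eq]; exact measurableSet_Icc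
      have hb1 : ∀ a, BM (fun x : Fin p.N → R3 =>
          (if bd a then (cnt (Qc p.s a) univ x : ℝ) else 0) * Ψ x ^ 2) := by
        intro a
        refine BM.mul ?_ (hΨ.pow 2)
        by_cases h : bd a
        · simp only [h, if_true]
          exact BM_cnt (hQm a) univ
        · simp only [h, if_false]
          exact BM.const 0
      have e1 : ∑ a ∈ p.win, (if bd a then na a else 0)
          = ∫ x, ∑ a ∈ p.win, (if bd a then (cnt (Qc p.s a) univ x : ℝ) else 0) * Ψ x ^ 2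
            ∂pin p.nu p.N := by
        rw [integral_finsetSum _ fun a _ => (hb1 a).integrable _]
        refine Finset.sum_congr rfl fun a _ => ?_
        by_cases h : bd a
        · simp only [h, if_true, hna]
        · simp only [h, if_false, zero_mul, integral_zero]
      rw [e1, Par.NS, ← integral_const_mul]
      refine integral_mono ?_ ?_ fun x => ?_
      · exact BM.integrable (BM.sum _ fun a _ => hb1 a) _
      · exact BM.integrable (((BM_cnt hstripm univ).mul (hΨ.pow 2)).const_mul _) _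
      · simp only
        rw [← Finset.sum_mul, ← mul_assoc]
        refine mul_le_mul_of_nonneg_right ?_ (sq_nonneg _)
        have e2 : ∑ a ∈ p.win, (if bd a then (cnt (Qc p.s a) univ x : ℝ) else 0)
            = ∑ j : Fin p.N, ∑ a ∈ p.win, (if bd a then ind (Qc p.s a) (x j) else 0) := by
          rw [Finset.sum_comm]
          refine Finset.sum_congr rfl fun a _ => ?_
          by_cases h : bd a
          · simp only [h, if_true, cnt_eq_sum]
          · simp [h]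
        rw [e2, cnt_eq_sum, Finset.mul_sum]
        refine Finset.sum_le_sum fun j _ => ?_
        by_cases hx : x j ∈ p.strip
        · rw [ind_of_mem hx, mul_one]
          refine le_trans (Finset.sum_le_sum fun a _ => ?_) ((hO p hp).1 (x j))
          split_ifs
          · exact le_rfl
          · exact ind_nonneg _ _
        · rw [ind_of_notMem hx, mul_zero]
          apply le_of_eq
          refine Finset.sum_eq_zero fun a ha => ?_
          by_cases h : bd a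
          · rw [if_pos h]
            exact ind_of_notMem fun h' => hx (hbd a ha h h')
          · rw [if_neg h]
    have h2 := mul_le_mul_of_nonneg_left h1 (mul_nonneg hs3.le hK00)
    refine le_trans ?_ h2
    rw [Finset.mul_sum]
    refine Finset.sum_le_sum fun a ha => ?_
    by_cases h : bd a
    · rw [if_pos h, mul_assoc]
      exact mul_le_mul (hJle a ha) (hWle a ha) (Finset.sum_nonneg fun A _ => hW0 A a) hs3.le
    · rw [if_neg h, hJz a ha h]
      simp
  -- conclusion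
  have hD : ∑ a ∈ p.win, (8 * Da a + Na a) = 8 * p.D Ψ + p.ND Ψ := by
    rw [Finset.sum_add_distrib, ← Finset.mul_sum]
    rfl
  rw [hD] at hpart1
  have hNS0 : 0 ≤ p.NS Ψ := integral_nonneg fun x => mul_nonneg (Nat.cast_nonneg _) (sq_nonneg _)
  have hND0 : 0 ≤ p.ND Ψ := Finset.sum_nonneg fun a _ => hNa0 a
  have hmu : p.s ^ 3 * K0 = 8 * p.mu ^ 3 := by
    rw [hK0, Par.mu]
    have hsne : p.s ≠ 0 := hs.ne'
    field_simp
    ring
  have hmu0 : 0 ≤ p.mu ^ 3 := by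
    have : 0 ≤ p.mu := div_nonneg hM0.le hs3.le
    positivity
  rw [hmu] at hpart1 hpart2
  have h5 := mul_nonneg hmu0 hNS0
  have h6 := mul_nonneg hmu0 hND0
  nlinarith [hid, hpart1, hpart2, h5, h6]

end Pool.Agent.Lib.MP_5db8e2_mp
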