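import Pool.Agent.Lib.MP_5db8e2_mp.LB.Spec8
import Pool.Agent.Lib.MP_5db8e2_mp.LB.WdWin

/-!
# Lower bound, part 8: `VV ≤ G4` (`S_VVup`)
-/

set_option autoImplicit false

open MeasureTheory Function Finset
open scoped Classical

namespace Pool.Agent.Lib.MP_5db8e2_mp

/-- `VV ≤ G4`. -/
theorem VVup (hJ : S_Jensen) (hC : S_Counts) (_hW : S_WinFacts) (hWd : S_WdWin)
    (_hBM : S_BMall) : S_VVup := by
  intro p hp Ψ hΨ
  obtain ⟨CJ, -, hJ⟩ := hJ
  obtain ⟨-, -, hl4, -⟩ := hC p.M hp.hM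
  have hs0 : 0 < p.s := by linarith [hp.hs]
  have hB : ∀ a, MeasurableSet (Bc p.s a) := fun a => by
    rw [wdWin_Bc_eq]; exact measurableSet_Icc
  have hBl : ∀ a (Q : Finset (Fin p.N)), BM (p.l4 a Q) := fun a Q =>
    BM_cnt_comp (hB a) Qᶜ (lam4 p.M)
  have hBU : ∀ a ∈ p.win, ∀ Q : Finset (Fin p.N), BM (p.U a Q Ψ) := fun a ha Q =>
    av_bm (hWd p hp a ha).1 hΨ
  have hBG : ∀ a ∈ p.win, ∀ Q : Finset (Fin p.N), BM fun x => p.l4 a Q x * p.U a Q Ψ x ^ 2 :=
    fun a ha Q => (hBl a Q).mul ((hBU a ha Q).pow 2)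
  have hout0 : ∀ (Q : Finset (Fin p.N)) (c : R3),
      0 ≤ out p.nu 0 Q (fun x => p.vt4 Ψ Q c x ^ 2) := fun Q c =>
    Mg_nonneg (fun x => sq_nonneg _) _
  refine ⟨Finset.sum_nonneg fun Q _ => integral_nonneg fun c => hout0 Q c, ?_⟩
  -- the integral of the window functions
  have hthI : ∀ a ∈ p.win, ∀ G : ℝ, Integrable (fun c => th p.s p.e a c * G) p.nu ∧
      ∫ c, th p.s p.e a c * G ∂p.nu = p.s ^ 3 * G := by
    intro a ha G
    have hwd := (hWd p hp a ha).1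
    have h1 : ∀ c, th p.s p.e a c * G = p.gd a c * (p.s ^ 3 * G) := fun c => by
      unfold Par.gd
      field_simp
    simp only [h1]
    exact ⟨(hwd.bm.integrable _).mul_const _, by
      rw [integral_mul_const, hwd.g_int, one_mul]⟩
  have hQ : ∀ Q ∈ powersetCard 4 (univ : Finset (Fin p.N)),
      ∫ c in Om p.L, out p.nu 0 Q (fun x => p.vt4 Ψ Q c x ^ 2) ≤
      ∑ a ∈ p.win, p.s ^ 3 * out p.nu 0 Q (fun x => p.l4 a Q x * p.U a Q Ψ x ^ 2) := by
    intro Q _
    have h1 : ∀ c, out p.nu 0 Q (fun x => p.vt4 Ψ Q c x ^ 2) ≤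
        ∑ a ∈ p.win, th p.s p.e a c * out p.nu 0 Q (fun x => p.l4 a Q x * p.U a Q Ψ x ^ 2) := by
      intro c
      have hBv : BM fun x => p.vt4 Ψ Q c x := by
        unfold Par.vt4
        exact BM.sum _ fun a ha => ((hBl a Q).mul (hBU a ha Q)).const_mul _
      have hBS : ∀ a ∈ p.win, BM fun x => th p.s p.e a c * (p.l4 a Q x * p.U a Q Ψ x ^ 2) :=
        fun a ha => (hBG a ha Q).const_mul _
      have h2 : out p.nu 0 Q (fun x => p.vt4 Ψ Q c x ^ 2) ≤
          out p.nu 0 Q (fun x => ∑ a ∈ p.win, th p.s p.e a c *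
            (p.l4 a Q x * p.U a Q Ψ x ^ 2)) := by
        refine out_mono (hBv.pow 2) (BM.sum _ hBS) 0 fun x => ?_
        refine ((hJ p hp Ψ Q c x).2.1).trans (le_of_eq ?_)
        refine Finset.sum_congr rfl fun a _ => ?_
        rw [mul_pow]
        have h3 : p.l4 a Q x ^ 2 = p.l4 a Q x := (hl4 _).2.2
        rw [h3]
      refine h2.trans (le_of_eq ?_)
      rw [out, Mg_sum _ hBS]
      refine Finset.sum_congr rfl fun a _ => ?_
      rw [Mg_const_mul, out]
    have hint : Integrable (fun c => ∑ a ∈ p.win, th p.s p.e a c *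
        out p.nu 0 Q (fun x => p.l4 a Q x * p.U a Q Ψ x ^ 2)) p.nu :=
      integrable_finsetSum _ fun a ha => (hthI a ha _).1
    calc ∫ c in Om p.L, out p.nu 0 Q (fun x => p.vt4 Ψ Q c x ^ 2)
        ≤ ∫ c, ∑ a ∈ p.win, th p.s p.e a c *
          out p.nu 0 Q (fun x => p.l4 a Q x * p.U a Q Ψ x ^ 2) ∂p.nu :=
          integral_mono_of_nonneg (Filter.Eventually.of_forall fun c => hout0 Q c) hint
            (Filter.Eventually.of_forall fun c => h1 c)
      _ = _ := by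
          rw [integral_finsetSum _ fun a ha => (hthI a ha _).1]
          exact Finset.sum_congr rfl fun a ha => (hthI a ha _).2
  unfold Par.VV
  refine (Finset.sum_le_sum hQ).trans (le_of_eq ?_)
  rw [Finset.sum_comm]
  unfold Par.G4
  refine Finset.sum_congr rfl fun a _ => ?_
  rw [← Finset.mul_sum]

end Pool.Agent.Lib.MP_5db8e2_mp
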