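import Pool.Agent.Lib.MP_5db8e2_mp.LB.Spec4

/-!
# Lower bound, part 4: the window functions in three dimensions
-/

set_option autoImplicit false

open MeasureTheory Function Finset
open scoped Classical NNReal

namespace Pool.Agent.Lib.MP_5db8e2_mp

theorem winFacts_prod (f g : Fin 3 → ℝ) (D : ℝ) (hf : ∀ k, 0 ≤ f k ∧ f k ≤ 1)
    (hg : ∀ k, 0 ≤ g k ∧ g k ≤ 1) (hD : ∀ k, |f k - g k| ≤ D) :
    |∏ k, f k - ∏ k, g k| ≤ 3 * D := by
  simp only [Fin.prod_univ_three]
  have e : f 0 * f 1 * f 2 - g 0 * g 1 * g 2 =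
      (f 0 - g 0) * (f 1 * f 2) + g 0 * ((f 1 - g 1) * f 2) + g 0 * g 1 * (f 2 - g 2) := by ring
  have hD0 : 0 ≤ D := (abs_nonneg _).trans (hD 0)
  rw [e]
  have b1 : |(f 0 - g 0) * (f 1 * f 2)| ≤ D := by
    rw [abs_mul, abs_mul, abs_of_nonneg (hf 1).1, abs_of_nonneg (hf 2).1]
    calc |f 0 - g 0| * (f 1 * f 2) ≤ D * (1 * 1) :=
          mul_le_mul (hD 0) (mul_le_mul (hf 1).2 (hf 2).2 (hf 2).1 zero_le_one)
            (mul_nonneg (hf 1).1 (hf 2).1) hD0
      _ = D := by ring
  have b2 : |g 0 * ((f 1 - g 1) * f 2)| ≤ D := by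
    rw [abs_mul, abs_mul, abs_of_nonneg (hg 0).1, abs_of_nonneg (hf 2).1]
    calc g 0 * (|f 1 - g 1| * f 2) ≤ 1 * (D * 1) :=
          mul_le_mul (hg 0).2 (mul_le_mul (hD 1) (hf 2).2 (hf 2).1 hD0)
            (mul_nonneg (abs_nonneg _) (hf 2).1) zero_le_one
      _ = D := by ring
  have b3 : |g 0 * g 1 * (f 2 - g 2)| ≤ D := by
    rw [abs_mul, abs_mul, abs_of_nonneg (hg 0).1, abs_of_nonneg (hg 1).1]
    calc g 0 * g 1 * |f 2 - g 2| ≤ 1 * 1 * D :=
          mul_le_mul (mul_le_mul (hg 0).2 (hg 1).2 (hg 1).1 zero_le_one) (hD 2)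
            (abs_nonneg _) (by norm_num)
      _ = D := by ring
  have t1 := abs_add_le ((f 0 - g 0) * (f 1 * f 2) + g 0 * ((f 1 - g 1) * f 2))
    (g 0 * g 1 * (f 2 - g 2))
  have t2 := abs_add_le ((f 0 - g 0) * (f 1 * f 2)) (g 0 * ((f 1 - g 1) * f 2))
  linarith

theorem WinFacts (hP : S_Prof) : S_WinFacts := by
  obtain ⟨C, hC0, hC⟩ := hP
  refine ⟨3 * C, by linarith, fun s e hs he he' a => ?_⟩
  obtain ⟨h1, h2, h3, h4, h5, h6, h7, h8⟩ := hC e he he'
  have hs0 : 0 < s := lt_of_lt_of_le one_pos hs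
  have hcd : ContDiff ℝ 1 (th s e a) := by
    unfold th
    refine contDiff_prod fun k _ => ?_
    exact h1.comp (((contDiff_apply ℝ ℝ k).div_const _).sub contDiff_const)
  have hth0 : ∀ c, 0 ≤ th s e a c := fun c => Finset.prod_nonneg fun k _ => (h2 _).1
  have hth1 : ∀ c, th s e a c ≤ 1 := fun c =>
    Finset.prod_le_one (fun k _ => (h2 _).1) fun k _ => (h2 _).2
  have hlip1 : ∀ x y, |prof e x - prof e y| ≤ C * |x - y| := by
    intro x y
    have := Convex.norm_image_sub_le_of_norm_deriv_le (f := prof e) (C := C) (s := Set.univ)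
      (x := y) (y := x) (fun z _ => (h1.differentiable one_ne_zero) z)
      (fun z _ => h4 z) convex_univ (Set.mem_univ _) (Set.mem_univ _)
    simpa [Real.norm_eq_abs] using this
  have hlip : ∀ c c', |th s e a c - th s e a c'| ≤ 3 * C / s * ‖c - c'‖ := by
    intro c c'
    have := winFacts_prod (fun k => prof e (c k / s - a k)) (fun k => prof e (c' k / s - a k))
      (C / s * ‖c - c'‖) (fun k => h2 _) (fun k => h2 _) (fun k => ?_)
    · calc |th s e a c - th s e a c'| ≤ 3 * (C / s * ‖c - c'‖) := this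
        _ = 3 * C / s * ‖c - c'‖ := by ring
    · refine (hlip1 _ _).trans ?_
      have e1 : c k / s - a k - (c' k / s - a k) = (c k - c' k) / s := by ring
      have e2 : |c k - c' k| ≤ ‖c - c'‖ := by
        have := norm_le_pi_norm (c - c') k
        rwa [Pi.sub_apply, Real.norm_eq_abs] at this
      rw [e1, abs_div, abs_of_pos hs0]
      calc C * (|c k - c' k| / s) = C / s * |c k - c' k| := by ring
        _ ≤ C / s * ‖c - c'‖ := mul_le_mul_of_nonneg_left e2 (by positivity)
  have hsum : ∀ (K : ℕ) (c : R3), ∑ a ∈ winF K, th s e a c =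
      ∏ k : Fin 3, ∑ z ∈ Finset.Icc (-(K : ℤ)) (K : ℤ), prof e (c k / s - z) := by
    intro K c
    rw [Finset.prod_univ_sum]
    rfl
  refine ⟨hcd, fun c => ⟨hth0 c, hth1 c⟩, ?_, hlip, ?_, ?_, ?_, ?_, ?_⟩
  · intro c hc k
    have h9 : prof e (c k / s - a k) ≠ 0 := by
      intro h
      exact hc (Finset.prod_eq_zero (Finset.mem_univ k) h)
    have h10 := h3 _ h9
    have e1 : c k / s - a k = (c k - s * a k) / s := by
      field_simp
    rw [e1, abs_div, abs_of_pos hs0, div_le_iff₀ hs0] at h10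
    exact h10
  · intro c k
    have hL : LipschitzWith (Real.toNNReal (3 * C / s)) (th s e a) := by
      refine LipschitzWith.of_dist_le_mul fun x y => ?_
      rw [Real.dist_eq, dist_eq_norm, Real.coe_toNNReal _ (by positivity)]
      exact hlip x y
    have h9 := norm_fderiv_le_of_lipschitz ℝ hL (x₀ := c)
    rw [Real.coe_toNNReal _ (by positivity)] at h9
    have h10 := (fderiv ℝ (th s e a) c).le_opNorm (Pi.single k 1)
    have h11 : ‖(Pi.single k 1 : R3)‖ = 1 := by
      rw [Pi.norm_single]; simp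
    rw [h11, mul_one, Real.norm_eq_abs] at h10
    exact h10.trans h9
  · intro K c
    rw [hsum]
    exact Finset.prod_le_one (fun k _ => Finset.sum_nonneg fun z _ => (h2 _).1)
      fun k _ => h5 K _
  · intro K c hc
    rw [hsum]
    refine Finset.prod_eq_one fun k _ => h6 K _ ?_
    rw [abs_div, abs_of_pos hs0, div_le_iff₀ hs0, mul_comm]
    exact hc k
  · unfold th
    have : ∀ k : Fin 3, Integrable (fun t : ℝ => prof e (t / s - a k)) := fun k =>
      (h7.comp_sub_right (a k : ℝ)).comp_div hs0.ne'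
    exact Integrable.fintype_prod (f := fun k t => prof e (t / s - a k)) this
  · have e1 : ∫ c, th s e a c = ∏ k : Fin 3, ∫ t : ℝ, prof e (t / s - a k) :=
      integral_fintype_prod_volume_eq_prod (fun k t => prof e (t / s - a k))
    have e2 : ∀ k : Fin 3, ∫ t : ℝ, prof e (t / s - a k) = s := by
      intro k
      rw [Measure.integral_comp_div (fun u => prof e (u - a k)) s,
        integral_sub_right_eq_self (prof e) (a k : ℝ), h8, abs_of_pos hs0]
      simp
    rw [e1, Finset.prod_congr rfl (fun k _ => e2 k)]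
    simp

end Pool.Agent.Lib.MP_5db8e2_mp
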