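import Pool.Agent.Lib.MP_5db8e2_mp.LB.Spec3

/-!
# Inner product for two triples with exactly two common particles
-/

set_option autoImplicit false

open MeasureTheory Function Finset
open scoped Classical

namespace Pool.Agent.Lib.MP_5db8e2_mp

variable {N : ℕ}

/-- One of `1`, `P`, `1 - P`. -/
noncomputable def ZC_tri3 (o : Fin 3) (P : ((Fin N → R3) → ℝ) → (Fin N → R3) → ℝ)
    (G : (Fin N → R3) → ℝ) : (Fin N → R3) → ℝ :=
  if o = 0 then G else if o = 1 then P G else fun x => G x - P G x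

theorem ZC_op_eq_tri3 (ν : Measure R3) (g : R3 → ℝ) (o : Fin 3) (c : Fin N) :
    op (N := N) ν g o c = ZC_tri3 o (av ν g {c}) := by
  ext1 f
  unfold op ZC_tri3
  rfl

theorem ZC_ops_eq_tri3 (ν : Measure R3) (g : R3 → ℝ) (o : Fin 3) (c : Fin N) :
    ops (N := N) ν g o c = ZC_tri3 o (fun G x => g (x c) * Mg ν {c} G x) := by
  ext f x
  unfold ops ZC_tri3
  split_ifs <;> rfl

theorem ZC_tri3_bm {P : ((Fin N → R3) → ℝ) → (Fin N → R3) → ℝ} {G : (Fin N → R3) → ℝ}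
    (o : Fin 3) (hG : BM G) (hP : BM (P G)) : BM (ZC_tri3 o P G) := by
  unfold ZC_tri3
  split_ifs
  · exact hG
  · exact hP
  · exact hG.sub hP

theorem ZC_tri3_comm {P R : ((Fin N → R3) → ℝ) → (Fin N → R3) → ℝ} {G : (Fin N → R3) → ℝ}
    (o o' : Fin 3) (hG : BM G) (hP : ∀ G, BM G → BM (P G)) (hR : ∀ G, BM G → BM (R G))
    (hPs : ∀ G H, BM G → BM H → P (fun x => G x - H x) = fun x => P G x - P H x)
    (hRs : ∀ G H, BM G → BM H → R (fun x => G x - H x) = fun x => R G x - R H x)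
    (hc : ∀ G, BM G → P (R G) = R (P G)) :
    ZC_tri3 o P (ZC_tri3 o' R G) = ZC_tri3 o' R (ZC_tri3 o P G) := by
  unfold ZC_tri3
  split_ifs
  · rfl
  · rfl
  · rfl
  · rfl
  · exact hc G hG
  · rw [hPs _ _ hG (hR G hG), hc G hG]
  · rfl
  · rw [hRs _ _ hG (hP G hG), hc G hG]
  · rw [hRs _ _ hG (hP G hG), hPs _ _ hG (hR G hG), hc G hG]
    ext1 x
    ring

theorem ZC_tri3_mul {P : ((Fin N → R3) → ℝ) → (Fin N → R3) → ℝ} {G h : (Fin N → R3) → ℝ}
    (o : Fin 3) (hP : P (fun x => h x * G x) = fun x => h x * P G x) :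
    ZC_tri3 o P (fun x => h x * G x) = fun x => h x * ZC_tri3 o P G x := by
  unfold ZC_tri3
  split_ifs
  · rfl
  · exact hP
  · rw [hP]
    ext1 x
    ring

section

variable {ν : Measure R3} [IsFiniteMeasure ν] {m : ℝ} {g : R3 → ℝ} {Q B : Set R3}
  {G h : (Fin N → R3) → ℝ}

theorem ZC_dep_at (φ : R3 → ℝ) {j : Fin N} {S : Set (Fin N)} (hj : j ∈ S) :
    DependsOn (fun x : Fin N → R3 => φ (x j)) S := by
  intro x y hxy
  simp [hxy j hj]

theorem ZC_dep_mul {S : Set (Fin N)} (hG : DependsOn G S) (hh : DependsOn h S) :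
    DependsOn (fun x => G x * h x) S := by
  intro x y hxy
  simp only [hG hxy, hh hxy]

theorem ZC_dep_mono {S S' : Set (Fin N)} (hG : DependsOn G S) (hs : S ⊆ S') : DependsOn G S' := by
  intro x y hxy
  exact hG fun i hi => hxy i (hs hi)

theorem ZC_Lbm (hW : Wd ν m g Q B) (c : Fin N) (G : (Fin N → R3) → ℝ) (hG : BM G) :
    BM (fun x => g (x c) * Mg ν {c} G x) :=
  (hW.bm.comp (measurable_pi_apply c)).mul (Mg_bm hG)

theorem ZC_ops_bm (hW : Wd ν m g Q B) (o : Fin 3) (c : Fin N) (hG : BM G) :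
    BM (ops ν g o c G) := by
  rw [ZC_ops_eq_tri3]
  exact ZC_tri3_bm o hG (ZC_Lbm hW c G hG)

theorem ZC_op_bm (hW : Wd ν m g Q B) (o : Fin 3) (c : Fin N) (hG : BM G) :
    BM (op ν g o c G) := by
  rw [ZC_op_eq_tri3]
  exact ZC_tri3_bm o hG (av_bm hW hG)

theorem ZC_ops_ops_comm (hW : Wd ν m g Q B) (o o' : Fin 3) {c d : Fin N} (hcd : c ≠ d)
    (hG : BM G) : ops ν g o c (ops ν g o' d G) = ops ν g o' d (ops ν g o c G) := by
  rw [ZC_ops_eq_tri3, ZC_ops_eq_tri3]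
  have hs : ∀ (c : Fin N) (G H : (Fin N → R3) → ℝ), BM G → BM H →
      (fun x => g (x c) * Mg ν {c} (fun x => G x - H x) x)
        = fun x => g (x c) * Mg ν {c} G x - g (x c) * Mg ν {c} H x := by
    intro c G H hG hH
    ext1 x
    rw [Mg_sub hG hH]
    ring
  apply ZC_tri3_comm o o' hG (ZC_Lbm hW c) (ZC_Lbm hW d) (hs c) (hs d)
  intro G hG
  have h1 : Mg ν {c} (fun x => g (x d) * Mg ν {d} G x)
      = fun x => g (x d) * Mg ν {c} (Mg ν {d} G) x :=
    Mg_mul_left (h := fun x : Fin N → R3 => g (x d)) _ (ZC_dep_at g (by simpa using hcd.symm))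
  have h2 : Mg ν {d} (fun x => g (x c) * Mg ν {c} G x)
      = fun x => g (x c) * Mg ν {d} (Mg ν {c} G) x :=
    Mg_mul_left (h := fun x : Fin N → R3 => g (x c)) _ (ZC_dep_at g (by simpa using hcd))
  ext1 x
  rw [h1, h2, Mg_comm hG (by simpa using hcd)]
  ring

theorem ZC_op_ops_comm (hW : Wd ν m g Q B) (o o' : Fin 3) {c d : Fin N} (hcd : c ≠ d)
    (hG : BM G) : op ν g o c (ops ν g o' d G) = ops ν g o' d (op ν g o c G) := by
  rw [ZC_ops_eq_tri3, ZC_op_eq_tri3]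
  have hs : ∀ (c : Fin N) (G H : (Fin N → R3) → ℝ), BM G → BM H →
      (fun x => g (x c) * Mg ν {c} (fun x => G x - H x) x)
        = fun x => g (x c) * Mg ν {c} G x - g (x c) * Mg ν {c} H x := by
    intro c G H hG hH
    ext1 x
    rw [Mg_sub hG hH]
    ring
  have hprob := hW.prob
  apply ZC_tri3_comm o o' hG (fun G hG => av_bm hW hG) (ZC_Lbm hW d)
    (fun G H hG hH => av_sub hW hG hH) (hs d)
  intro G hG
  have h1 : av ν g {c} (fun x => g (x d) * Mg ν {d} G x)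
      = fun x => g (x d) * av ν g {c} (Mg ν {d} G) x :=
    Mg_mul_left (h := fun x : Fin N → R3 => g (x d)) _ (ZC_dep_at g (by simpa using hcd.symm))
  ext1 x
  rw [h1]
  have h2 : av ν g {c} (Mg ν {d} G) = Mg ν {d} (av ν g {c} G) :=
    Mg_comm hG (by simpa using hcd)
  rw [h2]

omit [IsFiniteMeasure ν] in
theorem ZC_ops_mul_left (o : Fin 3) (c : Fin N) (G : (Fin N → R3) → ℝ)
    (hh : DependsOn h ({c}ᶜ : Set (Fin N))) :
    ops ν g o c (fun x => h x * G x) = fun x => h x * ops ν g o c G x := by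
  rw [ZC_ops_eq_tri3]
  apply ZC_tri3_mul
  rw [Mg_mul_left G (by simpa using hh)]
  ext1 x
  ring

omit [IsFiniteMeasure ν] in
theorem ZC_op_mul_left (o : Fin 3) (c : Fin N) (G : (Fin N → R3) → ℝ)
    (hh : DependsOn h ({c}ᶜ : Set (Fin N))) :
    op ν g o c (fun x => h x * G x) = fun x => h x * op ν g o c G x := by
  rw [ZC_op_eq_tri3]
  apply ZC_tri3_mul
  exact Mg_mul_left G (by simpa using hh)

/-- The number of particles in `B` outside of `T`. -/
theorem ZC_cnt {T : Finset (Fin N)} {c : Fin N} (hc : c ∉ T) (x : Fin N → R3) (hx : x c ∈ B) :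
    cnt B Tᶜ x = cnt B (insert c T)ᶜ x + 1 := by
  unfold cnt
  have h1 : Tᶜ = insert c (insert c T)ᶜ := by
    ext i
    simp only [mem_compl, mem_insert, not_or]
    by_cases h : i = c
    · simp [h, hc]
    · simp [h]
  rw [h1, Finset.filter_insert, if_pos hx, Finset.card_insert_of_notMem (by simp)]

omit [IsFiniteMeasure ν] in
theorem ZC_op_dep (o : Fin 3) (c : Fin N) {S : Set (Fin N)}
    (hG : DependsOn G S) : DependsOn (op ν g o c G) S := by
  have h1 : DependsOn (av ν g {c} G) S :=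
    ZC_dep_mono (Mg_dep' hG) Set.sdiff_subset
  intro x y hxy
  have e1 := hG hxy
  have e2 := h1 hxy
  unfold op
  split_ifs
  · exact e1
  · exact e2
  · simp only [rough, e1, e2]

theorem ZC_op_av_comm (hW : Wd ν m g Q B) (o : Fin 3) {c : Fin N} {T : Finset (Fin N)}
    (hc : c ∉ T) (hG : BM G) : op ν g o c (av ν g T G) = av ν g T (op ν g o c G) := by
  unfold op
  split_ifs
  · rfl
  · exact av_comm hW hG (by simpa using hc)
  · exact rough_av hW hG hc

/-- Step 1: move the operators of `f` and `f'` to the other factor. -/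
theorem ZC_move (hA : S_Adj) (hW : Wd ν m g Q B) (oe of oe' of' : Fin 3) {e f f' : Fin N}
    (hef : e ≠ f) (hef' : e ≠ f') (hff' : f ≠ f') {F F' : (Fin N → R3) → ℝ} (hF : BM F)
    (hF' : BM F') :
    ∫ x, ops ν g oe e (ops ν g of f F) x * ops ν g oe' e (ops ν g of' f' F') x ∂pin ν N
      = ∫ x, ops ν g oe e (op ν g of' f' F) x * ops ν g oe' e (op ν g of f F') x ∂pin ν N := by
  have adj : ∀ (o : Fin 3) (c : Fin N) (G H : (Fin N → R3) → ℝ), BM G → BM H →
      ∫ x, ops ν g o c G x * H x ∂pin ν N = ∫ x, G x * op ν g o c H x ∂pin ν N := by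
    intro o c G H hG hH
    exact (hA ν m g Q B hW o c G H (fun _ => 1) hG hH (BM.const 1) (fun _ => zero_le_one)
      (fun _ _ _ => rfl)).2.2.1
  calc ∫ x, ops ν g oe e (ops ν g of f F) x * ops ν g oe' e (ops ν g of' f' F') x ∂pin ν N
      = ∫ x, ops ν g of f (ops ν g oe e F) x * ops ν g oe' e (ops ν g of' f' F') x ∂pin ν N := by
        rw [ZC_ops_ops_comm hW oe of hef hF]
    _ = ∫ x, ops ν g oe e F x * op ν g of f (ops ν g oe' e (ops ν g of' f' F')) x ∂pin ν N :=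
        adj of f _ _ (ZC_ops_bm hW _ _ hF) (ZC_ops_bm hW _ _ (ZC_ops_bm hW _ _ hF'))
    _ = ∫ x, ops ν g of' f' (ops ν g oe' e (op ν g of f F')) x * ops ν g oe e F x ∂pin ν N := by
        rw [ZC_op_ops_comm hW of oe' hef.symm (ZC_ops_bm hW _ _ hF'),
          ZC_op_ops_comm hW of of' hff' hF', ZC_ops_ops_comm hW oe' of' hef' (ZC_op_bm hW _ _ hF')]
        congr 1
        ext1 x
        ring
    _ = ∫ x, ops ν g oe' e (op ν g of f F') x * op ν g of' f' (ops ν g oe e F) x ∂pin ν N :=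
        adj of' f' _ _ (ZC_ops_bm hW _ _ (ZC_op_bm hW _ _ hF')) (ZC_ops_bm hW _ _ hF)
    _ = ∫ x, ops ν g oe e (op ν g of' f' F) x * ops ν g oe' e (op ν g of f F') x ∂pin ν N := by
        rw [ZC_op_ops_comm hW of' oe hef'.symm hF]
        congr 1
        ext1 x
        ring

/-- Averaging `λ_T U` over another variable in the window. -/
theorem ZC_av_lam (hW : Wd ν m g Q B) (lam : ℕ → ℝ) {T : Finset (Fin N)} {c : Fin N}
    (hc : c ∉ T) {U : (Fin N → R3) → ℝ} (hU : BM U) :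
    av ν g {c} (fun x => lam (cnt B Tᶜ x) * U x)
      = fun x => lam (cnt B (insert c T)ᶜ x + 1) * av ν g {c} U x := by
  have hd : DependsOn (fun x : Fin N → R3 => lam (cnt B (insert c T)ᶜ x + 1))
      ((({c} : Finset (Fin N)) : Set (Fin N))ᶜ) := by
    intro x y hxy
    have h1 : cnt B (insert c T)ᶜ x = cnt B (insert c T)ᶜ y :=
      cnt_dep (N := N) B (insert c T)ᶜ (fun i hi => hxy i (by
        simp only [coe_compl, coe_insert, Set.mem_compl_iff, Set.mem_insert_iff, not_or,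
          mem_coe] at hi
        simpa using hi.1))
    simp only [h1]
  have hlam : BM (fun x : Fin N → R3 => lam (cnt B Tᶜ x)) := BM_cnt_comp hW.B_meas _ lam
  rw [av_eq hW (hlam.mul hU), av_eq hW hU, ← Mg_mul_left _ hd]
  congr 1
  ext1 x
  simp only [prod_singleton]
  by_cases hg : g (x c) = 0
  · simp [hg]
  · rw [ZC_cnt hc x (hW.Q_sub (hW.g_supp _ hg))]
    ring

theorem ZC_op_lam (hW : Wd ν m g Q B) (lam : ℕ → ℝ) {T : Finset (Fin N)} {c : Fin N}
    (hc : c ∉ T) (o : Fin 3) {U : (Fin N → R3) → ℝ} (hU : BM U) (x : Fin N → R3) :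
    ind Q (x c) * op ν g o c (fun x => lam (cnt B Tᶜ x) * U x) x
      = ind Q (x c) * (lam (cnt B (insert c T)ᶜ x + 1) * op ν g o c U x) := by
  by_cases hx : x c ∈ Q
  · rw [ind_of_mem hx, one_mul, one_mul]
    have e := congrFun (ZC_av_lam hW lam hc hU) x
    have e2 := ZC_cnt hc x (hW.Q_sub hx)
    unfold op
    split_ifs
    · simp only [e2]
    · exact e
    · simp only [rough]
      rw [e, e2]
      ring
  · rw [ind_of_notMem hx]
    ring

/-- Integral of the factor `χ(x_a - x_c)` over `x_c`. -/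
theorem ZC_Mg_chi {χ : R3 → ℝ} {γ : ℝ} (hχi : ∀ c, ∫ t, χ (c - t) ∂ν ≤ γ) {a c : Fin N} (hac : a ≠ c)
    (hh0 : ∀ x, 0 ≤ h x) (hh : DependsOn h ((({c} : Finset (Fin N)) : Set (Fin N))ᶜ)) (x) :
    Mg ν {c} (fun x => h x * χ (x a - x c)) x ≤ h x * γ := by
  rw [Mg_mul_left _ hh]
  apply mul_le_mul_of_nonneg_left _ (hh0 x)
  rw [Mg_singleton]
  simp only [Function.update_self, Function.update_of_ne hac]
  exact hχi _

theorem ZC_Mg_g (hW : Wd ν m g Q B) {c : Fin N}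
    (hh : DependsOn h ((({c} : Finset (Fin N)) : Set (Fin N))ᶜ)) (x) :
    Mg ν {c} (fun x => h x * g (x c)) x = h x := by
  rw [Mg_mul_left _ hh, Mg_singleton]
  simp only [Function.update_self]
  rw [hW.g_int, mul_one]

/-- The majorant of the product. -/
noncomputable def ZC_H (g χ : R3 → ℝ) (Q : Set R3) (γ : ℝ) (a e f f' : Fin N)
    (x : Fin N → R3) : ℝ :=
  (χ (x a - x f) * χ (x a - x f')) * (ind Q (x a) * ind Q (x f) * ind Q (x f')) *
    (3 * (χ (x a - x e) * ind Q (x e)) + γ * g (x e))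

theorem ZC_H_symm (g χ : R3 → ℝ) (Q : Set R3) (γ : ℝ) (a e f f' : Fin N) (x : Fin N → R3) :
    ZC_H g χ Q γ a e f f' x = ZC_H g χ Q γ a e f' f x := by
  unfold ZC_H
  ring

theorem ZC_BM_chi {χ : R3 → ℝ} (hχm : Measurable χ) (hχ0 : ∀ c, 0 ≤ χ c) (hχ1 : ∀ c, χ c ≤ 1)
    (a c : Fin N) : BM (fun x : Fin N → R3 => χ (x a - x c)) := by
  refine ⟨hχm.comp ((measurable_pi_apply a).sub (measurable_pi_apply c)), 1, fun x => ?_⟩
  rw [abs_of_nonneg (hχ0 _)]
  exact hχ1 _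

omit [IsFiniteMeasure ν] in
theorem ZC_H_bm (hW : Wd ν m g Q B) {χ : R3 → ℝ} {γ : ℝ} (hχm : Measurable χ)
    (hχ0 : ∀ c, 0 ≤ χ c) (hχ1 : ∀ c, χ c ≤ 1) (a e f f' : Fin N) :
    BM (ZC_H g χ Q γ a e f f') := by
  have hc := ZC_BM_chi (N := N) hχm hχ0 hχ1
  have hi := BM_ind_at (N := N) hW.Q_meas
  exact (((hc a f).mul (hc a f')).mul (((hi a).mul (hi f)).mul (hi f'))).mul
    ((((hc a e).mul (hi e)).const_mul 3).add ((hW.bm.comp (measurable_pi_apply e)).const_mul γ))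

omit [IsFiniteMeasure ν] in
theorem ZC_H_nonneg (hW : Wd ν m g Q B) {χ : R3 → ℝ} {γ : ℝ} (hγ : 0 ≤ γ)
    (hχ0 : ∀ c, 0 ≤ χ c) (a e f f' : Fin N) (x : Fin N → R3) :
    0 ≤ ZC_H g χ Q γ a e f f' x := by
  unfold ZC_H
  have := hW.g_nonneg (x e)
  have h1 := hχ0 (x a - x f)
  have h2 := hχ0 (x a - x f')
  have h3 := hχ0 (x a - x e)
  have i1 := ind_nonneg Q (x a)
  have i2 := ind_nonneg Q (x e)
  have i3 := ind_nonneg Q (x f)
  have i4 := ind_nonneg Q (x f')
  positivity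

/-- The integral of the majorant over `x_a, x_e, x_f`. -/
theorem ZC_Mg_H (hW : Wd ν m g Q B) {χ : R3 → ℝ} {γ : ℝ} (hγ : 0 ≤ γ) (hχm : Measurable χ)
    (hχ0 : ∀ c, 0 ≤ χ c) (hχ1 : ∀ c, χ c ≤ 1) (hχe : ∀ c, χ (-c) = χ c)
    (hχi : ∀ c, ∫ t, χ (c - t) ∂ν ≤ γ) {a e f f' : Fin N} (hae : a ≠ e) (haf : a ≠ f)
    (haf' : a ≠ f') (hef : e ≠ f) (hef' : e ≠ f') (hff' : f ≠ f') (x : Fin N → R3) :
    Mg ν {a, e, f} (ZC_H g χ Q γ a e f f') x ≤ ind Q (x f') * (4 * γ ^ 3) := by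
  have hc := ZC_BM_chi (N := N) hχm hχ0 hχ1
  have hi := BM_ind_at (N := N) hW.Q_meas
  have hg : BM (fun x : Fin N → R3 => g (x e)) := hW.bm.comp (measurable_pi_apply e)
  have hHbm := ZC_H_bm (N := N) (γ := γ) hW hχm hχ0 hχ1 a e f f'
  -- the functions of the three steps
  set h2 : (Fin N → R3) → ℝ := fun x => ind Q (x f') * χ (x f' - x a) with hh2
  have h2bm : BM h2 := (hi f').mul (hc f' a)
  have h20 : ∀ x, 0 ≤ h2 x := fun x => mul_nonneg (ind_nonneg _ _) (hχ0 _)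
  set h1 : (Fin N → R3) → ℝ := fun x => h2 x * (3 * χ (x a - x e) + γ * g (x e)) with hh1
  have h1bm : BM h1 := h2bm.mul (((hc a e).const_mul 3).add (hg.const_mul γ))
  have h10 : ∀ x, 0 ≤ h1 x := fun x => mul_nonneg (h20 x)
    (add_nonneg (mul_nonneg (by norm_num) (hχ0 _)) (mul_nonneg hγ (hW.g_nonneg _)))
  have h1d : DependsOn h1 ((({f} : Finset (Fin N)) : Set (Fin N))ᶜ) := by
    intro x y hxy
    have q1 := hxy a (by simpa using haf)
    have q2 := hxy e (by simpa using hef)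
    have q3 := hxy f' (by simpa using hff'.symm)
    simp only [hh1, hh2, q1, q2, q3]
  have h2d : DependsOn h2 ((({e} : Finset (Fin N)) : Set (Fin N))ᶜ) := by
    intro x y hxy
    have q1 := hxy a (by simpa using hae)
    have q3 := hxy f' (by simpa using hef'.symm)
    simp only [hh2, q1, q3]
  -- step 1
  have s1 : ∀ x, Mg ν {f} (ZC_H g χ Q γ a e f f') x ≤ h1 x * γ := by
    intro x
    refine (Mg_mono hHbm (h1bm.mul (hc a f)) (fun y => ?_) x).trans
      (ZC_Mg_chi hχi haf h10 h1d x)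
    have e1 : χ (y f' - y a) = χ (y a - y f') := by
      rw [← hχe, neg_sub]
    simp only [ZC_H, hh1, hh2, e1]
    have a1 := hχ0 (y a - y f)
    have a2 := hχ0 (y a - y f')
    have a3 := hχ0 (y a - y e)
    have i1 := ind_nonneg Q (y a)
    have i2 := ind_nonneg Q (y e)
    have i3 := ind_nonneg Q (y f)
    have i4 := ind_nonneg Q (y f')
    have j1 := ind_le_one Q (y a)
    have j2 := ind_le_one Q (y e)
    have j3 := ind_le_one Q (y f)
    have gg := hW.g_nonneg (y e)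
    calc χ (y a - y f) * χ (y a - y f') * (ind Q (y a) * ind Q (y f) * ind Q (y f')) *
          (3 * (χ (y a - y e) * ind Q (y e)) + γ * g (y e))
        ≤ χ (y a - y f) * χ (y a - y f') * (1 * 1 * ind Q (y f')) *
          (3 * (χ (y a - y e) * 1) + γ * g (y e)) := by gcongr
      _ = ind Q (y f') * χ (y a - y f') * (3 * χ (y a - y e) + γ * g (y e)) * χ (y a - y f) := by
          ring
  -- step 2
  have s2 : ∀ x, Mg ν {e} (fun x => h1 x * γ) x ≤ h2 x * (4 * γ ^ 2) := by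
    intro x
    have e1 : (fun x => h1 x * γ) = fun x => (3 * γ * h2 x) * χ (x a - x e) +
        (γ ^ 2 * h2 x) * g (x e) := by
      ext1 x
      simp only [hh1]
      ring
    have d3 : DependsOn (fun x => 3 * γ * h2 x) ((({e} : Finset (Fin N)) : Set (Fin N))ᶜ) := by
      intro x y hxy
      simp only [h2d hxy]
    have d4 : DependsOn (fun x => γ ^ 2 * h2 x) ((({e} : Finset (Fin N)) : Set (Fin N))ᶜ) := by
      intro x y hxy
      simp only [h2d hxy]
    rw [e1, Mg_add ((h2bm.const_mul (3 * γ)).mul (hc a e)) ((h2bm.const_mul (γ ^ 2)).mul hg)]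
    have t1 := ZC_Mg_chi (h := fun x => 3 * γ * h2 x) hχi hae
      (fun x => mul_nonneg (mul_nonneg (by norm_num) hγ) (h20 x)) d3 x
    have t2 := ZC_Mg_g (h := fun x => γ ^ 2 * h2 x) hW d4 x
    simp only [] at t1 t2 ⊢
    rw [t2]
    nlinarith [t1]
  -- step 3
  have s3 : ∀ x, Mg ν {a} (fun x => h2 x * (4 * γ ^ 2)) x ≤ ind Q (x f') * (4 * γ ^ 3) := by
    intro x
    have e1 : (fun x => h2 x * (4 * γ ^ 2)) = fun x => (4 * γ ^ 2 * ind Q (x f')) *
        χ (x f' - x a) := by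
      ext1 x
      simp only [hh2]
      ring
    rw [e1]
    refine (ZC_Mg_chi (h := fun x => 4 * γ ^ 2 * ind Q (x f')) hχi haf'.symm
      (fun x => mul_nonneg (by positivity) (ind_nonneg _ _)) (by
        intro x y hxy
        have q3 := hxy f' (by simpa using haf'.symm)
        simp only [q3]) x).trans (le_of_eq ?_)
    ring
  have hfe : e ∉ ({f} : Finset (Fin N)) := by simpa using hef
  have hfa : a ∉ (insert e {f} : Finset (Fin N)) := by simp [hae, haf]
  rw [Mg_insert hHbm hfa, Mg_insert hHbm hfe]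
  refine (Mg_mono (Mg_bm (Mg_bm hHbm)) (h2bm.mul (BM.const _)) (fun y => ?_) x).trans (s3 x)
  exact (Mg_mono (Mg_bm hHbm) (h1bm.mul (BM.const _)) s1 y).trans (s2 y)

/-- The final estimate of one of the two squares. -/
theorem ZC_half (hA : S_Adj) (hW : Wd ν m g Q B) {Ψ : (Fin N → R3) → ℝ} (hΨ : BM Ψ)
    {χ : R3 → ℝ} {γ : ℝ} (hγ : 0 ≤ γ) (hχm : Measurable χ)
    (hχ0 : ∀ c, 0 ≤ χ c) (hχ1 : ∀ c, χ c ≤ 1) (hχe : ∀ c, χ (-c) = χ c)
    (hχi : ∀ c, ∫ t, χ (c - t) ∂ν ≤ γ) {a e f f' : Fin N} (hae : a ≠ e) (haf : a ≠ f)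
    (haf' : a ≠ f') (hef : e ≠ f) (hef' : e ≠ f') (hff' : f ≠ f')
    {L : (Fin N → R3) → ℝ} (hL : BM L) (hL0 : ∀ x, 0 ≤ L x)
    (hLd : DependsOn L (((insert f' {a, e, f} : Finset (Fin N)) : Set (Fin N))ᶜ)) (o : Fin 3) :
    ∫ x, ZC_H g χ Q γ a e f f' x * (L x * op ν g o f' (av ν g {a, e, f} Ψ) x ^ 2) ∂pin ν N
      ≤ 72 * γ ^ 3 * (1 / m) ^ 3 *
        ∫ x, L x * ((∏ j ∈ insert f' ({a, e, f} : Finset (Fin N)), ind Q (x j)) * Ψ x ^ 2)
          ∂pin ν N := by
  have hm : 0 < m := lt_of_lt_of_le one_pos hW.hm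
  set T : Finset (Fin N) := {a, e, f} with hT
  have hf'T : f' ∉ T := by
    simp only [hT, mem_insert, mem_singleton, not_or]
    exact ⟨haf'.symm, hef'.symm, hff'.symm⟩
  have hTc : T.card = 3 := by
    rw [hT, Finset.card_insert_of_notMem (by simp [hae, haf]),
      Finset.card_insert_of_notMem (by simp [hef]), Finset.card_singleton]
  set Φ : (Fin N → R3) → ℝ := op ν g o f' Ψ with hΦ
  have hΦbm : BM Φ := ZC_op_bm hW o f' hΨ
  have hV : op ν g o f' (av ν g T Ψ) = av ν g T Φ := ZC_op_av_comm hW o hf'T hΨ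
  have hHbm : BM (ZC_H (N := N) g χ Q γ a e f f') := ZC_H_bm hW hχm hχ0 hχ1 a e f f'
  have hVbm : BM (av ν g T Φ) := av_bm hW hΦbm
  have hLd' : DependsOn L (((T : Finset (Fin N)) : Set (Fin N))ᶜ) := by
    apply ZC_dep_mono hLd
    intro i hi
    simp only [coe_insert, Set.mem_compl_iff, Set.mem_insert_iff, not_or, mem_coe] at hi ⊢
    exact hi.2
  have hif : DependsOn (fun x : Fin N → R3 => ind Q (x f')) ((T : Set (Fin N))ᶜ) :=
    ZC_dep_at _ (by simpa using hf'T)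
  have hwd : DependsOn (fun x => L x * ind Q (x f')) ((T : Set (Fin N))ᶜ) :=
    ZC_dep_mul hLd' hif
  have hLV : DependsOn (fun x => L x * av ν g T Φ x ^ 2) ((T : Set (Fin N))ᶜ) := by
    intro x y hxy
    have h1 := hLd' hxy
    have h2 := av_dep (ν := ν) (g := g) Φ hxy
    simp only [h1, h2]
  have hLVbm : BM (fun x => L x * av ν g T Φ x ^ 2) := hL.mul (hVbm.pow 2)
  have hif' := BM_ind_at (N := N) hW.Q_meas f'
  rw [hV]
  set x0 : Fin N → R3 := fun _ => 0 with hx0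
  rw [integral_eq_out (hHbm.mul hLVbm) x0 T, Mg_mul_right _ hLV]
  have k1 : out ν x0 T (fun x => Mg ν T (ZC_H g χ Q γ a e f f') x * (L x * av ν g T Φ x ^ 2))
      ≤ out ν x0 T (fun x => (4 * γ ^ 3) * ((L x * ind Q (x f')) * av ν g T Φ x ^ 2)) := by
    refine out_mono ((Mg_bm hHbm).mul hLVbm) (((hL.mul hif').mul (hVbm.pow 2)).const_mul _) x0
      (fun x => ?_)
    have := ZC_Mg_H hW hγ hχm hχ0 hχ1 hχe hχi hae haf haf' hef hef' hff' x
    calc Mg ν T (ZC_H g χ Q γ a e f f') x * (L x * av ν g T Φ x ^ 2)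
        ≤ (ind Q (x f') * (4 * γ ^ 3)) * (L x * av ν g T Φ x ^ 2) :=
          mul_le_mul_of_nonneg_right this (mul_nonneg (hL0 x) (sq_nonneg _))
      _ = _ := by ring
  have k2 : out ν x0 T (fun x => (4 * γ ^ 3) * ((L x * ind Q (x f')) * av ν g T Φ x ^ 2))
      = (4 * γ ^ 3) * out ν x0 T (fun x => (L x * ind Q (x f')) * av ν g T Φ x ^ 2) := by
    unfold out
    exact congrFun (Mg_const_mul _ _) x0
  have k3 := out_av_sq_le (A := T) hW hΦbm (hL.mul hif')
    (fun x => mul_nonneg (hL0 x) (ind_nonneg _ _)) hwd x0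
  have hw'd : DependsOn (fun x => L x * ∏ j ∈ T, ind Q (x j)) ({f'}ᶜ : Set (Fin N)) := by
    intro x y hxy
    have h1 : L x = L y := hLd (fun i hi => hxy i (by
      simp only [coe_insert, Set.mem_compl_iff, Set.mem_insert_iff, not_or] at hi
      simpa using hi.1))
    have h2 : ∏ j ∈ T, ind Q (x j) = ∏ j ∈ T, ind Q (y j) := by
      apply Finset.prod_congr rfl
      intro j hj
      rw [hxy j]
      simp only [Set.mem_compl_iff, Set.mem_singleton_iff]
      rintro rfl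
      exact hf'T hj
    simp only [h1, h2]
  have k4 := (hA ν m g Q B hW o f' Ψ Ψ (fun x => L x * ∏ j ∈ T, ind Q (x j)) hΨ hΨ
    (hL.mul (BM_prod_ind hW.Q_meas T)) (fun x => mul_nonneg (hL0 x)
      (Finset.prod_nonneg fun _ _ => ind_nonneg _ _)) hw'd).2.2.2.2
  have e1 : (fun x => (L x * ind Q (x f')) * ((∏ j ∈ T, ind Q (x j)) * Φ x ^ 2))
      = fun x => (L x * ∏ j ∈ T, ind Q (x j)) * (ind Q (x f') * op ν g o f' Ψ x ^ 2) := by
    ext1 x
    rw [hΦ]
    ring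
  have e2 : (fun x => L x * ((∏ j ∈ insert f' T, ind Q (x j)) * Ψ x ^ 2))
      = fun x => (L x * ∏ j ∈ T, ind Q (x j)) * (ind Q (x f') * Ψ x ^ 2) := by
    ext1 x
    rw [Finset.prod_insert hf'T]
    ring
  rw [e2]
  rw [hTc, e1] at k3
  calc out ν x0 T (fun x => Mg ν T (ZC_H g χ Q γ a e f f') x * (L x * av ν g T Φ x ^ 2))
      ≤ (4 * γ ^ 3) * out ν x0 T (fun x => (L x * ind Q (x f')) * av ν g T Φ x ^ 2) :=
        k1.trans k2.le
    _ ≤ (4 * γ ^ 3) * ((1 / m) ^ 3 * (18 * ∫ x, (L x * ∏ j ∈ T, ind Q (x j)) *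
          (ind Q (x f') * Ψ x ^ 2) ∂pin ν N)) := by
        apply mul_le_mul_of_nonneg_left _ (by positivity)
        exact k3.trans (mul_le_mul_of_nonneg_left k4 (by positivity))
    _ = _ := by ring

/-- Pointwise bound of the operators in the variable `e`. -/
theorem ZC_ops_le (hW : Wd ν m g Q B) {χ : R3 → ℝ} {γ : ℝ} (hχm : Measurable χ)
    (hχ0 : ∀ c, 0 ≤ χ c) (hχ1 : ∀ c, χ c ≤ 1) (hχi : ∀ c, ∫ t, χ (c - t) ∂ν ≤ γ)
    {a e : Fin N} (hae : a ≠ e) {K Y : (Fin N → R3) → ℝ} (hK : BM K) (hY : BM Y)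
    (hY0 : ∀ x, 0 ≤ Y x) (hYd : DependsOn Y ((({e} : Finset (Fin N)) : Set (Fin N))ᶜ))
    (hle : ∀ x, |K x| ≤ Y x * (χ (x a - x e) * ind Q (x e))) (hγ : 0 ≤ γ)
    (o : Fin 3) (x : Fin N → R3) :
    |ops ν g o e K x| ≤ Y x * (χ (x a - x e) * ind Q (x e) + γ * g (x e)) := by
  have hc := ZC_BM_chi (N := N) hχm hχ0 hχ1
  have h1 : |Mg ν {e} K x| ≤ Y x * γ := by
    refine (abs_Mg_le K x).trans ((Mg_mono hK.abs (hY.mul (hc a e)) (fun y => ?_) x).trans
      (ZC_Mg_chi hχi hae hY0 hYd x))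
    refine (hle y).trans (mul_le_mul_of_nonneg_left ?_ (hY0 y))
    exact mul_le_of_le_one_right (hχ0 _) (ind_le_one _ _)
  have h2 := hW.g_nonneg (x e)
  have h3 : |g (x e) * Mg ν {e} K x| ≤ Y x * (γ * g (x e)) := by
    rw [abs_mul, abs_of_nonneg h2]
    calc g (x e) * |Mg ν {e} K x| ≤ g (x e) * (Y x * γ) := mul_le_mul_of_nonneg_left h1 h2
      _ = _ := by ring
  have h4 := hle x
  have h5 : 0 ≤ Y x * (γ * g (x e)) := mul_nonneg (hY0 x) (mul_nonneg hγ h2)
  have h6 : 0 ≤ Y x * (χ (x a - x e) * ind Q (x e)) :=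
    mul_nonneg (hY0 x) (mul_nonneg (hχ0 _) (ind_nonneg _ _))
  rw [mul_add]
  unfold ops
  split_ifs
  · linarith
  · linarith
  · exact (abs_sub _ _).trans (by linarith)

omit [IsFiniteMeasure ν] in
/-- `W_T` vanishes unless all particles of `T` are in `Q`. -/
theorem ZC_W_ind {W : Finset (Fin N) → (Fin N → R3) → ℝ} {χ : R3 → ℝ} {ω γ : ℝ}
    (hTW : TW ν m Q W χ ω γ) {T : Finset (Fin N)} (hT : T ∈ powersetCard 3 (univ : Finset (Fin N)))
    {j : Fin N} (hj : j ∈ T) (x : Fin N → R3) : ind Q (x j) * W T x = W T x := by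
  by_cases hx : x j ∈ Q
  · rw [ind_of_mem hx, one_mul]
  · have h1 := hTW.maj T hT j hj x
    have h2 : ∏ i ∈ T, ind Q (x i) = 0 := Finset.prod_eq_zero hj (ind_of_notMem hx)
    rw [h2, mul_zero, mul_zero] at h1
    have h3 : W T x = 0 := abs_eq_zero.1 (le_antisymm h1 (abs_nonneg _))
    rw [h3, mul_zero]

theorem ZC_FT_bm (hW : Wd ν m g Q B) {Ψ : (Fin N → R3) → ℝ} (hΨ : BM Ψ) (lam : ℕ → ℝ)
    {W : Finset (Fin N) → (Fin N → R3) → ℝ} {χ : R3 → ℝ} {ω γ : ℝ}
    (hTW : TW ν m Q W χ ω γ) (T : Finset (Fin N)) : BM (FT ν g B lam W Ψ T) :=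
  (hTW.bm T).mul ((BM_cnt_comp hW.B_meas _ lam).mul (av_bm hW hΨ))

/-- The function `op o f' F_T` for `x_{f'} ∈ Q`. -/
theorem ZC_K (hW : Wd ν m g Q B) {Ψ : (Fin N → R3) → ℝ} (hΨ : BM Ψ) {lam : ℕ → ℝ}
    (hlam : ∀ n, 0 ≤ lam n)
    {W : Finset (Fin N) → (Fin N → R3) → ℝ} {χ : R3 → ℝ} {ω γ : ℝ}
    (hTW : TW ν m Q W χ ω γ) {a e f f' : Fin N} (hae : a ≠ e) (haf : a ≠ f)
    (haf' : a ≠ f') (hef : e ≠ f) (hef' : e ≠ f') (hff' : f ≠ f') (o : Fin 3)
    (x : Fin N → R3) :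
    ind Q (x f) * op ν g o f' (FT ν g B lam W Ψ {a, e, f}) x
      = op ν g o f' (FT ν g B lam W Ψ {a, e, f}) x ∧
    |ind Q (x f') * op ν g o f' (FT ν g B lam W Ψ {a, e, f}) x|
      ≤ (ω * χ (x a - x f) * (ind Q (x a) * ind Q (x f) * ind Q (x f')) *
          (lam (cnt B (insert f' {a, e, f})ᶜ x + 1) *
            |op ν g o f' (av ν g {a, e, f} Ψ) x|)) * (χ (x a - x e) * ind Q (x e)) := by
  set T : Finset (Fin N) := {a, e, f} with hT
  have hf'T : f' ∉ T := by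
    simp only [hT, mem_insert, mem_singleton, not_or]
    exact ⟨haf'.symm, hef'.symm, hff'.symm⟩
  have hTc : T.card = 3 := by
    rw [hT, Finset.card_insert_of_notMem (by simp [hae, haf]),
      Finset.card_insert_of_notMem (by simp [hef]), Finset.card_singleton]
  have hTp : T ∈ powersetCard 3 (univ : Finset (Fin N)) := by
    rw [mem_powersetCard]
    exact ⟨subset_univ _, hTc⟩
  have haT : a ∈ T := by simp [hT]
  have hfT : f ∈ T := by simp [hT]
  have hFT : op ν g o f' (FT ν g B lam W Ψ T)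
      = fun x => W T x * op ν g o f' (fun x => lam (cnt B Tᶜ x) * av ν g T Ψ x) x := by
    have : FT ν g B lam W Ψ T
        = fun x => W T x * (fun x => lam (cnt B Tᶜ x) * av ν g T Ψ x) x := rfl
    rw [this]
    apply ZC_op_mul_left
    apply ZC_dep_mono (hTW.dep T)
    intro i hi
    simp only [Set.mem_compl_iff, Set.mem_singleton_iff]
    rintro rfl
    exact hf'T hi
  constructor
  · rw [hFT]
    simp only []
    rw [← mul_assoc, ZC_W_ind hTW hTp hfT]
  · rw [hFT]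
    simp only []
    have h1 := ZC_op_lam hW lam hf'T o (U := av ν g T Ψ) (av_bm hW hΨ) x
    have h2 : ind Q (x f') * (W T x *
          op ν g o f' (fun x => lam (cnt B Tᶜ x) * av ν g T Ψ x) x)
        = W T x * (ind Q (x f') * (lam (cnt B (insert f' T)ᶜ x + 1) *
            op ν g o f' (av ν g T Ψ) x)) := by
      rw [← h1]
      ring
    rw [h2, abs_mul, abs_mul, abs_mul, abs_of_nonneg (ind_nonneg Q (x f')),
      abs_of_nonneg (hlam _)]
    have h3 := hTW.maj T hTp a haT x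
    have h4 : T.erase a = {e, f} := by
      rw [hT, Finset.erase_insert (by simp [hae, haf])]
    have h5 : ∏ j ∈ T.erase a, χ (x a - x j) = χ (x a - x e) * χ (x a - x f) := by
      rw [h4, Finset.prod_insert (by simp [hef]), Finset.prod_singleton]
    have h6 : ∏ j ∈ T, ind Q (x j) = ind Q (x a) * (ind Q (x e) * ind Q (x f)) := by
      rw [hT, Finset.prod_insert (by simp [hae, haf]), Finset.prod_insert (by simp [hef]),
        Finset.prod_singleton]
    rw [h5, h6] at h3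
    calc |W T x| * (ind Q (x f') * (lam (cnt B (insert f' T)ᶜ x + 1) *
            |op ν g o f' (av ν g T Ψ) x|))
        ≤ (ω * ((χ (x a - x e) * χ (x a - x f)) *
            (ind Q (x a) * (ind Q (x e) * ind Q (x f))))) *
            (ind Q (x f') * (lam (cnt B (insert f' T)ᶜ x + 1) *
            |op ν g o f' (av ν g T Ψ) x|)) := by
          apply mul_le_mul_of_nonneg_right h3
          exact mul_nonneg (ind_nonneg _ _) (mul_nonneg (hlam _) (abs_nonneg _))
      _ = _ := by ring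

end

/-- **ZC.** -/
theorem ZC (hA : S_Adj) : S_ZC := by
  intro N ν _ m g Q B hW Ψ hΨ lam hlam0 hlam W χ ω γ hTW a e f f' hnd oe of oe' of'
  have hm : 0 < m := lt_of_lt_of_le one_pos hW.hm
  simp only [List.nodup_cons, List.mem_cons, List.not_mem_nil, or_false, not_or,
    List.nodup_nil, and_true, not_false_eq_true] at hnd
  obtain ⟨⟨hae0, haf0, haf'0⟩, ⟨hef0, hef'0⟩, hff'0⟩ := hnd
  have hae : a ≠ e := hae0
  have haf : a ≠ f := haf0
  have haf' : a ≠ f' := haf'0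
  have hef : e ≠ f := hef0
  have hef' : e ≠ f' := hef'0
  have hff' : f ≠ f' := hff'0
  have hγ := hTW.γ_nn
  have hχm := hTW.χ_meas
  have hχ0 := hTW.χ_nn
  have hχ1 := hTW.χ_le
  have hχe := hTW.χ_ev
  have hχi := hTW.χ_int
  have hω := hTW.ω_nn
  have hc := ZC_BM_chi (N := N) hχm hχ0 hχ1
  have hi := BM_ind_at (N := N) hW.Q_meas
  have hS1 : insert f' ({a, e, f} : Finset (Fin N)) = {a, e, f, f'} := by
    ext i; simp only [mem_insert, mem_singleton]; tauto
  have hS2 : insert f ({a, e, f'} : Finset (Fin N)) = {a, e, f, f'} := by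
    ext i; simp only [mem_insert, mem_singleton]; tauto
  set S : Finset (Fin N) := {a, e, f, f'} with hS
  set F := FT ν g B lam W Ψ {a, e, f} with hF
  set F' := FT ν g B lam W Ψ {a, e, f'} with hF'
  have hFbm : BM F := ZC_FT_bm hW hΨ lam hTW _
  have hF'bm : BM F' := ZC_FT_bm hW hΨ lam hTW _
  rw [ZC_move hA hW oe of oe' of' hef hef' hff' hFbm hF'bm]
  set G := op ν g of' f' F with hG
  set G' := op ν g of f F' with hG'
  have hGbm : BM G := ZC_op_bm hW _ _ hFbm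
  have hG'bm : BM G' := ZC_op_bm hW _ _ hF'bm
  set V := op ν g of' f' (av ν g {a, e, f} Ψ) with hV
  set V' := op ν g of f (av ν g {a, e, f'} Ψ) with hV'
  have hVbm : BM V := ZC_op_bm hW _ _ (av_bm hW hΨ)
  have hV'bm : BM V' := ZC_op_bm hW _ _ (av_bm hW hΨ)
  set Lh : (Fin N → R3) → ℝ := fun x => lam (cnt B Sᶜ x + 1) with hLh
  have hLhbm : BM Lh := BM_cnt_comp hW.B_meas Sᶜ (fun n => lam (n + 1))
  have hLh0 : ∀ x, 0 ≤ Lh x := fun x => hlam0 _
  have hLhd : DependsOn Lh ((S : Set (Fin N))ᶜ) := by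
    intro x y hxy
    have h1 : cnt B Sᶜ x = cnt B Sᶜ y := cnt_dep (N := N) B Sᶜ (fun i hi => hxy i (by
      simpa using hi))
    simp only [hLh, h1]
  -- the bounds for `K`, `K'`
  have hK1 := fun x => (ZC_K hW hΨ hlam0 hTW hae haf haf' hef hef' hff' of' x).1
  have hK2 := fun x => (ZC_K hW hΨ hlam0 hTW hae haf haf' hef hef' hff' of' x).2
  have hK1' := fun x => (ZC_K hW hΨ hlam0 hTW hae haf' haf hef' hef hff'.symm of x).1
  have hK2' := fun x => (ZC_K hW hΨ hlam0 hTW hae haf' haf hef' hef hff'.symm of x).2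
  simp only [hS1, ← hF, ← hG, ← hV] at hK1 hK2
  simp only [hS2, ← hF', ← hG', ← hV'] at hK1' hK2'
  set K : (Fin N → R3) → ℝ := fun x => ind Q (x f') * G x with hK
  set K' : (Fin N → R3) → ℝ := fun x => ind Q (x f) * G' x with hK'
  have hKbm : BM K := (hi f').mul hGbm
  have hK'bm : BM K' := (hi f).mul hG'bm
  set Y : (Fin N → R3) → ℝ := fun x => ω * χ (x a - x f) *
    (ind Q (x a) * ind Q (x f) * ind Q (x f')) * (Lh x * |V x|) with hY
  set Y' : (Fin N → R3) → ℝ := fun x => ω * χ (x a - x f') *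
    (ind Q (x a) * ind Q (x f') * ind Q (x f)) * (Lh x * |V' x|) with hY'
  have hYbm : BM Y := ((((hc a f).const_mul ω).mul (((hi a).mul (hi f)).mul (hi f')))).mul
    (hLhbm.mul hVbm.abs)
  have hY'bm : BM Y' := ((((hc a f').const_mul ω).mul (((hi a).mul (hi f')).mul (hi f)))).mul
    (hLhbm.mul hV'bm.abs)
  have hY0 : ∀ x, 0 ≤ Y x := fun x => mul_nonneg (mul_nonneg (mul_nonneg hω (hχ0 _))
    (mul_nonneg (mul_nonneg (ind_nonneg _ _) (ind_nonneg _ _)) (ind_nonneg _ _)))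
    (mul_nonneg (hLh0 x) (abs_nonneg _))
  have hY'0 : ∀ x, 0 ≤ Y' x := fun x => mul_nonneg (mul_nonneg (mul_nonneg hω (hχ0 _))
    (mul_nonneg (mul_nonneg (ind_nonneg _ _) (ind_nonneg _ _)) (ind_nonneg _ _)))
    (mul_nonneg (hLh0 x) (abs_nonneg _))
  have heS : e ∈ S := by simp [hS]
  have hLhe : DependsOn Lh ((({e} : Finset (Fin N)) : Set (Fin N))ᶜ) := by
    apply ZC_dep_mono hLhd
    intro i hi
    simp only [Set.mem_compl_iff, mem_coe, coe_singleton, Set.mem_singleton_iff] at hi ⊢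
    rintro rfl
    exact hi heS
  have hVe : DependsOn V ((({e} : Finset (Fin N)) : Set (Fin N))ᶜ) := by
    apply ZC_op_dep
    apply ZC_dep_mono (av_dep Ψ)
    intro i hi
    simp only [Set.mem_compl_iff, mem_coe, coe_singleton, Set.mem_singleton_iff] at hi ⊢
    rintro rfl
    exact hi (by simp)
  have hV'e : DependsOn V' ((({e} : Finset (Fin N)) : Set (Fin N))ᶜ) := by
    apply ZC_op_dep
    apply ZC_dep_mono (av_dep Ψ)
    intro i hi
    simp only [Set.mem_compl_iff, mem_coe, coe_singleton, Set.mem_singleton_iff] at hi ⊢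
    rintro rfl
    exact hi (by simp)
  have hYd : DependsOn Y ((({e} : Finset (Fin N)) : Set (Fin N))ᶜ) := by
    intro x y hxy
    have q1 := hxy a (by simpa using hae)
    have q2 := hxy f (by simpa using hef.symm)
    have q3 := hxy f' (by simpa using hef'.symm)
    have q4 := hLhe hxy
    have q5 := hVe hxy
    simp only [hY, q1, q2, q3, q4, q5]
  have hY'd : DependsOn Y' ((({e} : Finset (Fin N)) : Set (Fin N))ᶜ) := by
    intro x y hxy
    have q1 := hxy a (by simpa using hae)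
    have q2 := hxy f (by simpa using hef.symm)
    have q3 := hxy f' (by simpa using hef'.symm)
    have q4 := hLhe hxy
    have q5 := hV'e hxy
    simp only [hY', q1, q2, q3, q4, q5]
  have hb := ZC_ops_le hW hχm hχ0 hχ1 hχi hae hKbm hYbm hY0 hYd hK2 hγ oe
  have hb' := ZC_ops_le hW hχm hχ0 hχ1 hχi hae hK'bm hY'bm hY'0 hY'd hK2' hγ oe'
  -- replace `G, G'` by `K, K'`
  have hprod : ∀ x, ops ν g oe e G x * ops ν g oe' e G' x
      = ops ν g oe e K x * ops ν g oe' e K' x := by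
    intro x
    have hde : ∀ j : Fin N, e ≠ j →
        DependsOn (fun x : Fin N → R3 => ind Q (x j)) ({e}ᶜ : Set (Fin N)) := by
      intro j hj
      exact ZC_dep_at _ (by simpa using hj.symm)
    have k1 : ops ν g oe e G x = ind Q (x f) * ops ν g oe e G x := by
      have : G = fun x => (fun x : Fin N → R3 => ind Q (x f)) x * G x :=
        funext fun x => (hK1 x).symm
      conv_lhs => rw [this]
      rw [ZC_ops_mul_left oe e G (hde f hef)]
    have k2 : ops ν g oe' e G' x = ind Q (x f') * ops ν g oe' e G' x := by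
      have : G' = fun x => (fun x : Fin N → R3 => ind Q (x f')) x * G' x :=
        funext fun x => (hK1' x).symm
      conv_lhs => rw [this]
      rw [ZC_ops_mul_left oe' e G' (hde f' hef')]
    have k3 : ops ν g oe e K x = ind Q (x f') * ops ν g oe e G x := by
      rw [hK, ZC_ops_mul_left (h := fun x : Fin N → R3 => ind Q (x f')) oe e G (hde f' hef')]
    have k4 : ops ν g oe' e K' x = ind Q (x f) * ops ν g oe' e G' x := by
      rw [hK', ZC_ops_mul_left (h := fun x : Fin N → R3 => ind Q (x f)) oe' e G' (hde f hef)]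
    rw [k3, k4, k1, k2]
    have i1 : ind Q (x f) * ind Q (x f) = ind Q (x f) := by
      by_cases h : x f ∈ Q
      · simp [ind_of_mem h]
      · simp [ind_of_notMem h]
    have i2 : ind Q (x f') * ind Q (x f') = ind Q (x f') := by
      by_cases h : x f' ∈ Q
      · simp [ind_of_mem h]
      · simp [ind_of_notMem h]
    calc ind Q (x f) * ops ν g oe e G x * (ind Q (x f') * ops ν g oe' e G' x)
        = (ind Q (x f) * ind Q (x f)) * (ind Q (x f') * ind Q (x f')) *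
          (ops ν g oe e G x * ops ν g oe' e G' x) := by rw [i1, i2]; ring
      _ = _ := by ring
  simp only [hprod]
  -- the pointwise bound
  have hHbm : BM (ZC_H (N := N) g χ Q γ a e f f') := ZC_H_bm hW hχm hχ0 hχ1 a e f f'
  have hpt : ∀ x, |ops ν g oe e K x * ops ν g oe' e K' x|
      ≤ ω ^ 2 / 2 * (ZC_H g χ Q γ a e f f' x * (Lh x ^ 2 * V x ^ 2)) +
        ω ^ 2 / 2 * (ZC_H g χ Q γ a e f' f x * (Lh x ^ 2 * V' x ^ 2)) := by
    intro x
    rw [abs_mul]
    have c1 := hb x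
    have c2 := hb' x
    have gn := hW.g_nonneg (x e)
    have gl := hW.g_le (x e)
    have x0 := hχ0 (x a - x e)
    have x1 := hχ1 (x a - x e)
    have i0 := ind_nonneg Q (x e)
    have i1 := ind_le_one Q (x e)
    set cc := χ (x a - x e) * ind Q (x e) with hcc
    have cc0 : 0 ≤ cc := mul_nonneg x0 i0
    have cc1 : cc ≤ 1 := mul_le_one₀ x1 i0 i1
    have gg0 : 0 ≤ γ * g (x e) := mul_nonneg hγ gn
    have gg1 : γ * g (x e) ≤ 1 := by
      calc γ * g (x e) ≤ m * (1 / m) := mul_le_mul hTW.γ_le gl gn hm.le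
        _ = 1 := by field_simp
    have t2 : (cc + γ * g (x e)) ^ 2 ≤ 3 * cc + γ * g (x e) := by nlinarith
    have hVV : |V x| * |V' x| ≤ (V x ^ 2 + V' x ^ 2) / 2 := by
      nlinarith [sq_nonneg (|V x| - |V' x|), sq_abs (V x), sq_abs (V' x)]
    have idem : ∀ c : R3, ind Q c * ind Q c = ind Q c := by
      intro c
      by_cases h : c ∈ Q
      · simp [ind_of_mem h]
      · simp [ind_of_notMem h]
    have hYY : Y x * Y' x = ω ^ 2 * ((χ (x a - x f) * χ (x a - x f')) *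
        (ind Q (x a) * ind Q (x f) * ind Q (x f'))) * (Lh x ^ 2 * (|V x| * |V' x|)) := by
      simp only [hY, hY']
      calc ω * χ (x a - x f) * (ind Q (x a) * ind Q (x f) * ind Q (x f')) * (Lh x * |V x|) *
            (ω * χ (x a - x f') * (ind Q (x a) * ind Q (x f') * ind Q (x f)) * (Lh x * |V' x|))
          = ω ^ 2 * ((χ (x a - x f) * χ (x a - x f')) * ((ind Q (x a) * ind Q (x a)) *
            (ind Q (x f) * ind Q (x f)) * (ind Q (x f') * ind Q (x f')))) *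
            (Lh x ^ 2 * (|V x| * |V' x|)) := by ring
        _ = _ := by rw [idem, idem, idem]
    have hP0 : 0 ≤ ω ^ 2 * ((χ (x a - x f) * χ (x a - x f')) *
        (ind Q (x a) * ind Q (x f) * ind Q (x f'))) :=
      mul_nonneg (sq_nonneg _) (mul_nonneg (mul_nonneg (hχ0 _) (hχ0 _))
        (mul_nonneg (mul_nonneg (ind_nonneg _ _) (ind_nonneg _ _)) (ind_nonneg _ _)))
    calc |ops ν g oe e K x| * |ops ν g oe' e K' x|
        ≤ (Y x * (cc + γ * g (x e))) * (Y' x * (cc + γ * g (x e))) :=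
          mul_le_mul c1 c2 (abs_nonneg _) (mul_nonneg (hY0 x) (add_nonneg cc0 gg0))
      _ = (Y x * Y' x) * (cc + γ * g (x e)) ^ 2 := by ring
      _ ≤ (Y x * Y' x) * (3 * cc + γ * g (x e)) :=
          mul_le_mul_of_nonneg_left t2 (mul_nonneg (hY0 x) (hY'0 x))
      _ = (ω ^ 2 * ((χ (x a - x f) * χ (x a - x f')) *
            (ind Q (x a) * ind Q (x f) * ind Q (x f')))) * (3 * cc + γ * g (x e)) *
            Lh x ^ 2 * (|V x| * |V' x|) := by rw [hYY]; ring
      _ ≤ (ω ^ 2 * ((χ (x a - x f) * χ (x a - x f')) *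
            (ind Q (x a) * ind Q (x f) * ind Q (x f')))) * (3 * cc + γ * g (x e)) *
            Lh x ^ 2 * ((V x ^ 2 + V' x ^ 2) / 2) := by
          apply mul_le_mul_of_nonneg_left hVV
          exact mul_nonneg (mul_nonneg hP0 (by positivity)) (sq_nonneg _)
      _ = _ := by
          simp only [ZC_H, hcc]
          ring
  have hLd1 : DependsOn (fun x => Lh x ^ 2)
      (((insert f' {a, e, f} : Finset (Fin N)) : Set (Fin N))ᶜ) := by
    rw [hS1]
    intro x y hxy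
    simp only [hLhd hxy]
  have hLd2 : DependsOn (fun x => Lh x ^ 2)
      (((insert f {a, e, f'} : Finset (Fin N)) : Set (Fin N))ᶜ) := by
    rw [hS2]
    intro x y hxy
    simp only [hLhd hxy]
  have h1 := ZC_half hA hW hΨ hγ hχm hχ0 hχ1 hχe hχi hae haf haf' hef hef' hff'
    (hLhbm.pow 2) (fun x => sq_nonneg _) hLd1 of'
  have h2 := ZC_half hA hW hΨ hγ hχm hχ0 hχ1 hχe hχi hae haf' haf hef' hef hff'.symm
    (hLhbm.pow 2) (fun x => sq_nonneg _) hLd2 of
  rw [hS1, ← hV] at h1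
  rw [hS2, ← hV'] at h2
  have hHbm' : BM (ZC_H (N := N) g χ Q γ a e f' f) := ZC_H_bm hW hχm hχ0 hχ1 a e f' f
  have hI1 : BM (fun x => ZC_H g χ Q γ a e f f' x * (Lh x ^ 2 * V x ^ 2)) :=
    hHbm.mul ((hLhbm.pow 2).mul (hVbm.pow 2))
  have hI2 : BM (fun x => ZC_H g χ Q γ a e f' f x * (Lh x ^ 2 * V' x ^ 2)) :=
    hHbm'.mul ((hLhbm.pow 2).mul (hV'bm.pow 2))
  have hKK : BM (fun x => ops ν g oe e K x * ops ν g oe' e K' x) :=
    (ZC_ops_bm hW _ _ hKbm).mul (ZC_ops_bm hW _ _ hK'bm)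
  have hI0 : ∫ x, Lh x ^ 2 * ((∏ j ∈ S, ind Q (x j)) * Ψ x ^ 2) ∂pin ν N
      ≤ ∫ x, lam (cnt B Sᶜ x) ^ 2 * ((∏ j ∈ S, ind Q (x j)) * Ψ x ^ 2) ∂pin ν N := by
    apply integral_mono
    · exact ((hLhbm.pow 2).mul ((BM_prod_ind hW.Q_meas S).mul (hΨ.pow 2))).integrable _
    · exact (((BM_cnt_comp hW.B_meas Sᶜ lam).pow 2).mul
        ((BM_prod_ind hW.Q_meas S).mul (hΨ.pow 2))).integrable _
    · intro x
      apply mul_le_mul_of_nonneg_right
      · exact pow_le_pow_left₀ (hLh0 x) (hlam (Nat.le_succ _)) 2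
      · exact mul_nonneg (Finset.prod_nonneg fun _ _ => ind_nonneg _ _) (sq_nonneg _)
  have hI00 : 0 ≤ ∫ x, lam (cnt B Sᶜ x) ^ 2 * ((∏ j ∈ S, ind Q (x j)) * Ψ x ^ 2) ∂pin ν N :=
    integral_nonneg fun x => mul_nonneg (sq_nonneg _)
      (mul_nonneg (Finset.prod_nonneg fun _ _ => ind_nonneg _ _) (sq_nonneg _))
  set I := ∫ x, Lh x ^ 2 * ((∏ j ∈ S, ind Q (x j)) * Ψ x ^ 2) ∂pin ν N with hI
  set I0 := ∫ x, lam (cnt B Sᶜ x) ^ 2 * ((∏ j ∈ S, ind Q (x j)) * Ψ x ^ 2) ∂pin ν N with hI0'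
  have hpos : 0 ≤ ω ^ 2 * γ ^ 3 * (1 / m) ^ 3 := by positivity
  calc |∫ x, ops ν g oe e K x * ops ν g oe' e K' x ∂pin ν N|
      ≤ ∫ x, |ops ν g oe e K x * ops ν g oe' e K' x| ∂pin ν N := abs_integral_le_integral_abs
    _ ≤ ∫ x, (ω ^ 2 / 2 * (ZC_H g χ Q γ a e f f' x * (Lh x ^ 2 * V x ^ 2)) +
        ω ^ 2 / 2 * (ZC_H g χ Q γ a e f' f x * (Lh x ^ 2 * V' x ^ 2))) ∂pin ν N :=
        integral_mono (hKK.abs.integrable _)
          (((hI1.const_mul _).add (hI2.const_mul _)).integrable _) hpt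
    _ = ω ^ 2 / 2 * ∫ x, ZC_H g χ Q γ a e f f' x * (Lh x ^ 2 * V x ^ 2) ∂pin ν N +
        ω ^ 2 / 2 * ∫ x, ZC_H g χ Q γ a e f' f x * (Lh x ^ 2 * V' x ^ 2) ∂pin ν N := by
        rw [integral_add ((hI1.const_mul _).integrable _) ((hI2.const_mul _).integrable _),
          integral_const_mul, integral_const_mul]
    _ ≤ ω ^ 2 / 2 * (72 * γ ^ 3 * (1 / m) ^ 3 * I) +
        ω ^ 2 / 2 * (72 * γ ^ 3 * (1 / m) ^ 3 * I) :=
        add_le_add (mul_le_mul_of_nonneg_left h1 (by positivity))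
          (mul_le_mul_of_nonneg_left h2 (by positivity))
    _ = 72 * (ω ^ 2 * γ ^ 3 * (1 / m) ^ 3) * I := by ring
    _ ≤ 72 * (ω ^ 2 * γ ^ 3 * (1 / m) ^ 3) * I0 :=
        mul_le_mul_of_nonneg_left hI0 (by positivity)
    _ ≤ 100 * (ω ^ 2 * γ ^ 3 * (1 / m) ^ 3) * I0 := by
        apply mul_le_mul_of_nonneg_right _ hI00
        linarith
    _ = _ := by ring

end Pool.Agent.Lib.MP_5db8e2_mp
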