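import Pool.Agent.Lib.MP_5db8e2_mp.LB.Spec1

/-!
# Lower bound: the Efron Stein inequality
-/

set_option autoImplicit false

open MeasureTheory Function Finset
open scoped Classical

namespace Pool.Agent.Lib.MP_5db8e2_mp

theorem EfronStein : S_EfronStein := by
  intro N ν _ m g Q B h f hf A
  have hp := h.prob
  induction A using Finset.induction_on with
  | empty =>
    intro x
    simp [av, Mg_empty]
  | insert i A' hi ih =>
    intro x
    have hd : Disjoint ({i} : Finset (Fin N)) A' := Finset.disjoint_singleton_left.mpr hi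
    have hU : ∀ F : (Fin N → R3) → ℝ, BM F →
        av ν g (insert i A') F = av ν g {i} (av ν g A' F) := by
      intro F hF
      rw [Finset.insert_eq]
      exact av_union h hF hd
    have hA' : BM (av ν g A' f) := av_bm h hf
    have hdev : BM (fun y => (f y - av ν g A' f y) ^ 2) := (hf.sub hA').pow 2
    have h0 := av_var (A := insert i A') h hf x
    have h1 : av ν g {i} (av ν g A' (fun y => (f y - av ν g A' f y) ^ 2)) x
        = av ν g {i} (av ν g A' (fun y => f y ^ 2)) x
          - av ν g {i} (fun y => (av ν g A' f y) ^ 2) x := by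
      have e : av ν g A' (fun y => (f y - av ν g A' f y) ^ 2)
          = fun y => av ν g A' (fun y => f y ^ 2) y - (av ν g A' f y) ^ 2 :=
        funext fun y => av_var (A := A') h hf y
      rw [e, av_sub h (av_bm h (hf.pow 2)) (hA'.pow 2)]
    have h2 : av ν g {i} (fun y => (av ν g A' f y - av ν g {i} (av ν g A' f) y) ^ 2) x
        = av ν g {i} (fun y => (av ν g A' f y) ^ 2) x - (av ν g {i} (av ν g A' f) x) ^ 2 :=
      av_var (A := {i}) h hA' x
    have hr : ∀ j, BM (fun y => rough ν g j f y ^ 2) := fun j => (rough_bm h hf j).pow 2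
    have h3 : av ν g {i} (av ν g A' (fun y => (f y - av ν g A' f y) ^ 2)) x
        ≤ ∑ j ∈ A', av ν g (insert i A') (fun y => rough ν g j f y ^ 2) x := by
      have hb : ∀ j ∈ A', BM (av ν g A' (fun y => rough ν g j f y ^ 2)) :=
        fun j _ => av_bm h (hr j)
      have hle : av ν g {i} (av ν g A' (fun y => (f y - av ν g A' f y) ^ 2)) x
          ≤ av ν g {i} (fun y => ∑ j ∈ A', av ν g A' (fun y => rough ν g j f y ^ 2) y) x :=
        Mg_mono (av_bm h hdev) (BM.sum A' hb) ih x
      refine hle.trans (le_of_eq ?_)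
      have hs : av ν g {i} (fun y => ∑ j ∈ A', av ν g A' (fun y => rough ν g j f y ^ 2) y)
          = fun x => ∑ j ∈ A', av ν g {i} (av ν g A' (fun y => rough ν g j f y ^ 2)) x :=
        Mg_sum A' hb
      rw [hs]
      apply Finset.sum_congr rfl
      intro j _
      rw [hU _ (hr j)]
    have h4 : av ν g {i} (fun y => (av ν g A' f y - av ν g {i} (av ν g A' f) y) ^ 2) x
        ≤ av ν g (insert i A') (fun y => rough ν g i f y ^ 2) x := by
      have e : (fun y => (av ν g A' f y - av ν g {i} (av ν g A' f) y) ^ 2)
          = fun y => (av ν g A' (rough ν g i f) y) ^ 2 := by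
        ext1 y
        rw [← rough_av h hf hi]
        rfl
      rw [e, hU _ (hr i)]
      exact Mg_mono ((av_bm h (rough_bm h hf i)).pow 2) (av_bm h (hr i))
        (fun y => av_sq_le h (rough_bm h hf i) y) x
    rw [Finset.sum_insert hi, h0, hU _ (hf.pow 2), hU f hf]
    linarith

end Pool.Agent.Lib.MP_5db8e2_mp
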