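import Pool.Agent.Lib.MP_5db8e2_mp.LB.Spec3
import Pool.Agent.Lib.MP_5db8e2_mp.LB.EfronStein

/-!
# ZD: inner product for two triples with only `a` in common
-/

set_option autoImplicit false

open MeasureTheory Function Finset
open scoped Classical

namespace Pool.Agent.Lib.MP_5db8e2_mp

namespace ZDaux

variable {N : ℕ} {ν : Measure R3} {m : ℝ} {g : R3 → ℝ} {Q B : Set R3}
  {f w : (Fin N → R3) → ℝ}

/-! ### Basic facts on `op`, `ops` -/

theorem dep_of_sub {f : (Fin N → R3) → ℝ} {S S' : Set (Fin N)} (hf : DependsOn f S)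
    (h : S ⊆ S') : DependsOn f S' := fun _ _ hxy => hf fun i hi => hxy i (h hi)

theorem op_mul_left {p : (Fin N → R3) → ℝ} (o : Fin 3) (j : Fin N)
    (hp : DependsOn p ({j}ᶜ : Set (Fin N))) (f : (Fin N → R3) → ℝ) :
    op ν g o j (fun x => p x * f x) = fun x => p x * op ν g o j f x := by
  have hav : av ν g {j} (fun x => p x * f x) = fun x => p x * av ν g {j} f x :=
    Mg_mul_left f (by simpa using hp)
  unfold op
  split_ifs
  · rfl
  · exact hav
  · ext1 x
    rw [rough, rough, hav]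
    ring

variable [IsFiniteMeasure ν]

theorem av_single (h : Wd ν m g Q B) (j : Fin N) (f : (Fin N → R3) → ℝ) (x : Fin N → R3) :
    av ν g {j} f x = ∫ t, g t * f (Function.update x j t) ∂ν := by
  have := h.prob
  rw [av, Mg_singleton]
  exact integral_wm h.g_meas h.g_nonneg _

theorem av_congr_Q (h : Wd ν m g Q B) (j : Fin N) {f1 f2 : (Fin N → R3) → ℝ} {x : Fin N → R3}
    (hyp : ∀ t ∈ Q, f1 (Function.update x j t) = f2 (Function.update x j t)) :
    av ν g {j} f1 x = av ν g {j} f2 x := by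
  rw [av_single h, av_single h]
  congr 1
  ext1 t
  by_cases ht : t ∈ Q
  · rw [hyp t ht]
  · have : g t = 0 := by
      by_contra hne
      exact ht (h.g_supp t hne)
    rw [this, zero_mul, zero_mul]

theorem op_congr_Q (h : Wd ν m g Q B) (o : Fin 3) (j : Fin N) {f1 f2 : (Fin N → R3) → ℝ}
    {x : Fin N → R3} (hx : x j ∈ Q)
    (hyp : ∀ t ∈ Q, f1 (Function.update x j t) = f2 (Function.update x j t)) :
    op ν g o j f1 x = op ν g o j f2 x := by
  have h0 : f1 x = f2 x := by
    have := hyp (x j) hx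
    rwa [Function.update_eq_self] at this
  have h1 := av_congr_Q h j hyp
  unfold op
  split_ifs
  · exact h0
  · exact h1
  · rw [rough, rough, h0, h1]

theorem op_zero_of (h : Wd ν m g Q B) (o : Fin 3) {j d : Fin N} (hjd : d ≠ j)
    {f : (Fin N → R3) → ℝ} (hf : ∀ x, x d ∉ Q → f x = 0) (x : Fin N → R3) (hx : x d ∉ Q) :
    op ν g o j f x = 0 := by
  have h1 : av ν g {j} f x = 0 := by
    rw [av_single h]
    have : ∀ t, g t * f (Function.update x j t) = 0 := by
      intro t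
      rw [hf, mul_zero]
      rwa [Function.update_of_ne hjd]
    simp [this]
  unfold op
  split_ifs
  · exact hf x hx
  · exact h1
  · rw [rough, hf x hx, h1, sub_zero]

/-- Averages and `g(x_d) ∫ dx_d` commute. -/
theorem av_E_comm (h : Wd ν m g Q B) {c d : Fin N} (hcd : c ≠ d) {G : (Fin N → R3) → ℝ}
    (hG : BM G) :
    av ν g {c} (fun x => g (x d) * Mg ν {d} G x) = fun x => g (x d) * Mg ν {d} (av ν g {c} G) x := by
  have hp := h.prob
  have h1 : av ν g {c} (fun x => g (x d) * Mg ν {d} G x)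
      = fun x => g (x d) * av ν g {c} (Mg ν {d} G) x := by
    apply Mg_mul_left (h := fun x : Fin N → R3 => g (x d))
    intro x y hxy
    have := hxy d (by simpa using hcd.symm)
    simp [this]
  have h2 : av ν g {c} (Mg ν {d} G) = Mg ν {d} (av ν g {c} G) :=
    Mg_comm hG (Finset.disjoint_singleton.mpr hcd)
  rw [h1, h2]

theorem E_sub {d : Fin N} {G G' : (Fin N → R3) → ℝ} (hG : BM G) (hG' : BM G') (x : Fin N → R3) :
    g (x d) * Mg ν {d} (fun x => G x - G' x) x = g (x d) * Mg ν {d} G x - g (x d) * Mg ν {d} G' x := by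
  rw [Mg_sub hG hG']
  ring

theorem E_bm (h : Wd ν m g Q B) {d : Fin N} {G : (Fin N → R3) → ℝ} (hG : BM G) :
    BM (fun x : Fin N → R3 => g (x d) * Mg ν {d} G x) :=
  (h.bm.comp (measurable_pi_apply d)).mul (Mg_bm hG)

theorem op_bm (h : Wd ν m g Q B) (o : Fin 3) (c : Fin N) {G : (Fin N → R3) → ℝ} (hG : BM G) :
    BM (op ν g o c G) := by
  unfold op
  split_ifs
  · exact hG
  · exact av_bm h hG
  · exact rough_bm h hG c

theorem ops_bm (h : Wd ν m g Q B) (o : Fin 3) (c : Fin N) {G : (Fin N → R3) → ℝ} (hG : BM G) :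
    BM (ops ν g o c G) := by
  unfold ops
  split_ifs
  · exact hG
  · exact E_bm h hG
  · exact hG.sub (E_bm h hG)

theorem av_ops (h : Wd ν m g Q B) (p : Fin 3) {c d : Fin N} (hcd : c ≠ d)
    {G : (Fin N → R3) → ℝ} (hG : BM G) :
    av ν g {c} (ops ν g p d G) = ops ν g p d (av ν g {c} G) := by
  by_cases hp0 : p = 0
  · have h0 : ∀ G' : (Fin N → R3) → ℝ, ops ν g p d G' = G' := by
      intro G'; ext1 x; simp [ops, hp0]
    rw [h0, h0]
  by_cases hp1 : p = 1
  · have : ops ν g p d G = fun x => g (x d) * Mg ν {d} G x := by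
      ext1 x; simp [ops, hp1]
    rw [this, av_E_comm h hcd hG]
    ext1 x; simp [ops, hp1]
  · have : ops ν g p d G = fun x => G x - g (x d) * Mg ν {d} G x := by
      ext1 x; simp [ops, hp0, hp1]
    rw [this, av_sub h hG (E_bm h hG), av_E_comm h hcd hG]
    ext1 x; simp [ops, hp0, hp1]

theorem ops_sub (h : Wd ν m g Q B) (p : Fin 3) {d : Fin N} {G G' : (Fin N → R3) → ℝ} (hG : BM G)
    (hG' : BM G') (x : Fin N → R3) :
    ops ν g p d (fun x => G x - G' x) x = ops ν g p d G x - ops ν g p d G' x := by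
  have _ := h
  unfold ops
  split_ifs
  · rfl
  · exact E_sub hG hG' x
  · rw [E_sub hG hG' x]
    ring

theorem op_ops (h : Wd ν m g Q B) (o p : Fin 3) {c d : Fin N} (hcd : c ≠ d)
    {G : (Fin N → R3) → ℝ} (hG : BM G) :
    op ν g o c (ops ν g p d G) = ops ν g p d (op ν g o c G) := by
  unfold op
  split_ifs
  · rfl
  · exact av_ops h p hcd hG
  · ext1 x
    rw [rough, av_ops h p hcd hG]
    have : rough ν g c G = fun x => G x - av ν g {c} G x := rfl
    rw [this, ops_sub h p hG (av_bm h hG)]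

theorem av_op (h : Wd ν m g Q B) (p : Fin 3) {A : Finset (Fin N)} {d : Fin N} (hd : d ∉ A)
    {G : (Fin N → R3) → ℝ} (hG : BM G) :
    op ν g p d (av ν g A G) = av ν g A (op ν g p d G) := by
  unfold op
  split_ifs
  · rfl
  · exact av_comm h hG (Finset.disjoint_singleton_left.mpr hd)
  · exact rough_av h hG hd

theorem op_op (h : Wd ν m g Q B) (o p : Fin 3) {c d : Fin N} (hcd : c ≠ d)
    {G : (Fin N → R3) → ℝ} (hG : BM G) :
    op ν g o c (op ν g p d G) = op ν g p d (op ν g o c G) := by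
  by_cases ho0 : o = 0
  · simp [op, ho0]
  by_cases ho1 : o = 1
  · have h1 : ∀ G' : (Fin N → R3) → ℝ, op ν g o c G' = av ν g {c} G' := by
      intro G'; simp [op, ho1]
    rw [h1, h1]
    exact (av_op h p (by simpa using hcd.symm) hG).symm
  · have h1 : ∀ G' : (Fin N → R3) → ℝ, op ν g o c G' = fun x => G' x - av ν g {c} G' x := by
      intro G'; ext1 x; simp [op, ho0, ho1, rough]
    have h2 := av_op h p (A := {c}) (d := d) (by simpa using hcd.symm) hG
    have h3 : op ν g p d (fun x => G x - av ν g {c} G x)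
        = fun x => op ν g p d G x - op ν g p d (av ν g {c} G) x := by
      unfold op
      split_ifs
      · rfl
      · exact av_sub h hG (av_bm h hG)
      · ext1 x
        rw [rough, rough, rough, av_sub h hG (av_bm h hG)]
        ring
    rw [h1 (op ν g p d G), h1 G, h3, h2]

/-! ### The inequality for one average -/

theorem L2Q1 (h : Wd ν m g Q B) (c : Fin N) (hf : BM f) (hw : BM w) (hw0 : ∀ x, 0 ≤ w x)
    (hwd : DependsOn w ({c}ᶜ : Set (Fin N))) :
    ∫ x, w x * (ind Q (x c) * av ν g {c} f x ^ 2) ∂pin ν N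
      ≤ 8 * ∫ x, w x * (ind Q (x c) * f x ^ 2) ∂pin ν N := by
  have hm0 : 0 < m := by linarith [h.hm]
  have hav : BM (av ν g {c} f) := av_bm h hf
  have hI := BM_ind_at (N := N) h.Q_meas c
  have hP : BM (fun x : Fin N → R3 => w x * av ν g {c} f x ^ 2) := hw.mul (hav.pow 2)
  have hPd : DependsOn (fun x : Fin N → R3 => w x * av ν g {c} f x ^ 2)
      ((({c} : Finset (Fin N)) : Set (Fin N))ᶜ) := by
    intro x y hxy
    have h1 := hwd (by simpa using hxy)
    have h2 := av_dep (ν := ν) (g := g) f hxy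
    simp only [h1, h2]
  have e1 : (fun x : Fin N → R3 => w x * (ind Q (x c) * av ν g {c} f x ^ 2))
      = fun x => (w x * av ν g {c} f x ^ 2) * ind Q (x c) := by
    ext1 x; ring
  have hMg : ∀ x : Fin N → R3, Mg ν {c} (fun x : Fin N → R3 => ind Q (x c)) x ≤ 8 * m := by
    intro x
    rw [Mg_singleton]
    have : ∫ t, ind Q (Function.update x c t c) ∂ν = ν.real Q := by
      simp only [Function.update_self]
      unfold ind
      rw [integral_indicator_const _ h.Q_meas]
      simp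
    simp only [this]
    exact h.Q_vol
  have hw' : BM (fun x : Fin N → R3 => 8 * m * w x) := hw.const_mul _
  calc ∫ x, w x * (ind Q (x c) * av ν g {c} f x ^ 2) ∂pin ν N
      = out ν 0 {c} (Mg ν {c} fun x => (w x * av ν g {c} f x ^ 2) * ind Q (x c)) := by
        rw [e1]
        exact integral_eq_out (hP.mul hI) 0 {c}
    _ = out ν 0 {c} (fun x => (w x * av ν g {c} f x ^ 2) *
          Mg ν {c} (fun x : Fin N → R3 => ind Q (x c)) x) := by
        rw [Mg_mul_left _ hPd]
    _ ≤ out ν 0 {c} (fun x => (8 * m * w x) * av ν g {c} f x ^ 2) := by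
        apply out_mono (hP.mul (Mg_bm hI)) (hw'.mul (hav.pow 2))
        intro x
        have h1 : 0 ≤ w x * av ν g {c} f x ^ 2 := mul_nonneg (hw0 x) (sq_nonneg _)
        nlinarith [hMg x]
    _ ≤ (1 / m) ^ ({c} : Finset (Fin N)).card *
          ∫ x, (8 * m * w x) * ((∏ j ∈ {c}, ind Q (x j)) * f x ^ 2) ∂pin ν N := by
        apply out_av_sq_le h hf hw' (fun x => by have := hw0 x; positivity)
        intro x y hxy
        have h1 := hwd (by simpa using hxy)
        simp only [h1]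
    _ = 8 * ∫ x, w x * (ind Q (x c) * f x ^ 2) ∂pin ν N := by
        rw [Finset.card_singleton, pow_one, ← integral_const_mul, ← integral_const_mul]
        congr 1
        ext1 x
        rw [Finset.prod_singleton]
        field_simp

/-! ### The kernels of two triples -/

theorem chi_bm {W : Finset (Fin N) → (Fin N → R3) → ℝ} {χ : R3 → ℝ} {ω γ : ℝ}
    (hT : TW ν m Q W χ ω γ) (i j : Fin N) : BM (fun x : Fin N → R3 => χ (x i - x j)) := by
  refine ⟨hT.χ_meas.comp ((measurable_pi_apply i).sub (measurable_pi_apply j)), 1, fun x => ?_⟩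
  rw [abs_of_nonneg (hT.χ_nn _)]
  exact hT.χ_le _

theorem Mg_kernel (h : Wd ν m g Q B) {W : Finset (Fin N) → (Fin N → R3) → ℝ} {χ : R3 → ℝ}
    {ω γ : ℝ} (hT : TW ν m Q W χ ω γ) {a b c b' c' : Fin N} (hnd : [a, b, c, b', c'].Nodup)
    (x : Fin N → R3) :
    Mg ν {a, b, c} (fun x => |W {a, b, c} x| * |W {a, b', c'} x|) x
      ≤ ω ^ 2 * γ ^ 3 * (ind Q (x b') * ind Q (x c')) := by
  simp only [List.nodup_cons, List.mem_cons, List.not_mem_nil, or_false, not_or,
    List.nodup_nil, and_true, not_false_eq_true] at hnd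
  obtain ⟨⟨hab, hac, hab', hac'⟩, ⟨hbc, hbb', hbc'⟩, ⟨hcb', hcc'⟩, hb'c'⟩ := hnd
  have hIb := BM_ind_at (N := N) h.Q_meas b'
  have hIc := BM_ind_at (N := N) h.Q_meas c'
  set K : (Fin N → R3) → ℝ := fun x => ω ^ 2 * (ind Q (x b') * ind Q (x c')) with hK
  have hKb : BM K := (hIb.mul hIc).const_mul _
  -- majorant
  have hmaj : ∀ x, |W {a, b, c} x| * |W {a, b', c'} x| ≤
      K x * (χ (x a - x b') * (χ (x a - x b) * χ (x a - x c))) := by
    intro x
    have m1 := hT.maj {a, b, c} (by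
      rw [mem_powersetCard]
      exact ⟨subset_univ _, card_eq_three.2 ⟨a, b, c, hab, hac, hbc, rfl⟩⟩) a (by simp) x
    have m2 := hT.maj {a, b', c'} (by
      rw [mem_powersetCard]
      exact ⟨subset_univ _, card_eq_three.2 ⟨a, b', c', hab', hac', hb'c', rfl⟩⟩) a (by simp) x
    have er1 : ({a, b, c} : Finset (Fin N)).erase a = {b, c} := by
      rw [Finset.erase_insert]
      simp [hab, hac]
    have er2 : ({a, b', c'} : Finset (Fin N)).erase a = {b', c'} := by
      rw [Finset.erase_insert]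
      simp [hab', hac']
    rw [er1, Finset.prod_pair hbc, Finset.prod_insert (by simp [hab, hac]),
      Finset.prod_pair hbc] at m1
    rw [er2, Finset.prod_pair hb'c', Finset.prod_insert (by simp [hab', hac']),
      Finset.prod_pair hb'c'] at m2
    have n1 := hT.χ_nn (x a - x b)
    have n2 := hT.χ_nn (x a - x c)
    have n3 := hT.χ_nn (x a - x b')
    have n4 := hT.χ_nn (x a - x c')
    have l4 := hT.χ_le (x a - x c')
    have ia := ind_nonneg Q (x a)
    have ib := ind_nonneg Q (x b)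
    have ic := ind_nonneg Q (x c)
    have ib' := ind_nonneg Q (x b')
    have ic' := ind_nonneg Q (x c')
    have la := ind_le_one Q (x a)
    have lb := ind_le_one Q (x b)
    have lc := ind_le_one Q (x c)
    have ω0 := hT.ω_nn
    have p1 : |W {a, b, c} x| ≤ ω * (χ (x a - x b) * χ (x a - x c)) := by
      refine m1.trans (mul_le_mul_of_nonneg_left ?_ ω0)
      have : ind Q (x a) * (ind Q (x b) * ind Q (x c)) ≤ 1 :=
        mul_le_one₀ la (by positivity) (mul_le_one₀ lb ic lc)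
      exact mul_le_of_le_one_right (by positivity) this
    have p2 : |W {a, b', c'} x| ≤ ω * (χ (x a - x b') * (ind Q (x b') * ind Q (x c'))) := by
      refine m2.trans (mul_le_mul_of_nonneg_left ?_ ω0)
      have q1 : χ (x a - x b') * χ (x a - x c') ≤ χ (x a - x b') := mul_le_of_le_one_right n3 l4
      have q2 : ind Q (x a) * (ind Q (x b') * ind Q (x c')) ≤ ind Q (x b') * ind Q (x c') :=
        mul_le_of_le_one_left (by positivity) la
      exact mul_le_mul q1 q2 (by positivity) n3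
    calc |W {a, b, c} x| * |W {a, b', c'} x|
        ≤ (ω * (χ (x a - x b) * χ (x a - x c))) *
            (ω * (χ (x a - x b') * (ind Q (x b') * ind Q (x c')))) :=
          mul_le_mul p1 p2 (abs_nonneg _) (by positivity)
      _ = K x * (χ (x a - x b') * (χ (x a - x b) * χ (x a - x c))) := by
          rw [hK]; ring
  have c1 := chi_bm hT a b'
  have c2 := chi_bm hT a b
  have c3 := chi_bm hT a c
  have hW1 := hT.bm {a, b, c}
  have hW2 := hT.bm {a, b', c'}
  have hγ0 := hT.γ_nn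
  -- integrate over c
  have hset : ({a, b, c} : Finset (Fin N)) = insert a (insert b {c}) := rfl
  have hF : BM (fun x : Fin N → R3 => K x * (χ (x a - x b') * (χ (x a - x b) * χ (x a - x c)))) :=
    hKb.mul (c1.mul (c2.mul c3))
  have step1 : Mg ν {c} (fun x : Fin N → R3 => K x * (χ (x a - x b') * (χ (x a - x b) *
      χ (x a - x c)))) = fun x => (K x * (χ (x a - x b') * χ (x a - x b))) *
        Mg ν {c} (fun x : Fin N → R3 => χ (x a - x c)) x := by
    have e : (fun x : Fin N → R3 => K x * (χ (x a - x b') * (χ (x a - x b) * χ (x a - x c))))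
        = fun x => (K x * (χ (x a - x b') * χ (x a - x b))) * χ (x a - x c) := by
      ext1 x; ring
    rw [e]
    apply Mg_mul_left (h := fun x : Fin N → R3 => K x * (χ (x a - x b') * χ (x a - x b)))
    intro x y hxy
    have ha := hxy a (by simpa using hac)
    have hb := hxy b (by simpa using hbc)
    have hb' := hxy b' (by simpa using Ne.symm hcb')
    have hc' := hxy c' (by simpa using Ne.symm hcc')
    simp only [hK, ha, hb, hb', hc']
  have hc_le : ∀ x : Fin N → R3, Mg ν {c} (fun x : Fin N → R3 => χ (x a - x c)) x ≤ γ := by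
    intro x
    rw [Mg_singleton]
    have : ∀ t, χ (Function.update x c t a - Function.update x c t c) = χ (x a - t) := by
      intro t
      rw [Function.update_self, Function.update_of_ne hac]
    simp only [this]
    exact hT.χ_int (x a)
  have hb_le : ∀ x : Fin N → R3, Mg ν {b} (fun x : Fin N → R3 => χ (x a - x b)) x ≤ γ := by
    intro x
    rw [Mg_singleton]
    have : ∀ t, χ (Function.update x b t a - Function.update x b t b) = χ (x a - t) := by
      intro t
      rw [Function.update_self, Function.update_of_ne hab]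
    simp only [this]
    exact hT.χ_int (x a)
  have ha_le : ∀ x : Fin N → R3, Mg ν {a} (fun x : Fin N → R3 => χ (x a - x b')) x ≤ γ := by
    intro x
    rw [Mg_singleton]
    have : ∀ t, χ (Function.update x a t a - Function.update x a t b') = χ (x b' - t) := by
      intro t
      rw [Function.update_self, Function.update_of_ne (Ne.symm hab'), ← hT.χ_ev, neg_sub]
    simp only [this]
    exact hT.χ_int (x b')
  have hKnn : ∀ x, 0 ≤ K x := fun x =>
    mul_nonneg (sq_nonneg _) (mul_nonneg (ind_nonneg _ _) (ind_nonneg _ _))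
  have hG1 : BM (fun x : Fin N → R3 => γ * (K x * (χ (x a - x b') * χ (x a - x b)))) :=
    (hKb.mul (c1.mul c2)).const_mul γ
  have s1 : ∀ x, Mg ν {c} (fun x : Fin N → R3 => K x * (χ (x a - x b') * (χ (x a - x b) *
      χ (x a - x c)))) x ≤ γ * (K x * (χ (x a - x b') * χ (x a - x b))) := by
    intro x
    rw [step1]
    have h0 : 0 ≤ K x * (χ (x a - x b') * χ (x a - x b)) :=
      mul_nonneg (hKnn x) (mul_nonneg (hT.χ_nn _) (hT.χ_nn _))
    calc (K x * (χ (x a - x b') * χ (x a - x b))) *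
        Mg ν {c} (fun x : Fin N → R3 => χ (x a - x c)) x
        ≤ (K x * (χ (x a - x b') * χ (x a - x b))) * γ := mul_le_mul_of_nonneg_left (hc_le x) h0
      _ = _ := by ring
  have step2 : Mg ν {b} (fun x : Fin N → R3 => γ * (K x * (χ (x a - x b') * χ (x a - x b))))
      = fun x => (γ * (K x * χ (x a - x b'))) *
        Mg ν {b} (fun x : Fin N → R3 => χ (x a - x b)) x := by
    have e : (fun x : Fin N → R3 => γ * (K x * (χ (x a - x b') * χ (x a - x b))))
        = fun x => (γ * (K x * χ (x a - x b'))) * χ (x a - x b) := by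
      ext1 x; ring
    rw [e]
    apply Mg_mul_left (h := fun x : Fin N → R3 => γ * (K x * χ (x a - x b')))
    intro x y hxy
    have ha := hxy a (by simpa using hab)
    have hb' := hxy b' (by simpa using Ne.symm hbb')
    have hc' := hxy c' (by simpa using Ne.symm hbc')
    simp only [hK, ha, hb', hc']
  have s2 : ∀ x, Mg ν {b} (fun x : Fin N → R3 => γ * (K x * (χ (x a - x b') * χ (x a - x b)))) x
      ≤ γ ^ 2 * (K x * χ (x a - x b')) := by
    intro x
    rw [step2]
    have h0 : 0 ≤ γ * (K x * χ (x a - x b')) :=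
      mul_nonneg hγ0 (mul_nonneg (hKnn x) (hT.χ_nn _))
    calc (γ * (K x * χ (x a - x b'))) * Mg ν {b} (fun x : Fin N → R3 => χ (x a - x b)) x
        ≤ (γ * (K x * χ (x a - x b'))) * γ := mul_le_mul_of_nonneg_left (hb_le x) h0
      _ = _ := by ring
  have step3 : Mg ν {a} (fun x : Fin N → R3 => γ ^ 2 * (K x * χ (x a - x b')))
      = fun x => (γ ^ 2 * K x) * Mg ν {a} (fun x : Fin N → R3 => χ (x a - x b')) x := by
    have e : (fun x : Fin N → R3 => γ ^ 2 * (K x * χ (x a - x b')))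
        = fun x => (γ ^ 2 * K x) * χ (x a - x b') := by
      ext1 x; ring
    rw [e]
    apply Mg_mul_left (h := fun x : Fin N → R3 => γ ^ 2 * K x)
    intro x y hxy
    have hb' := hxy b' (by simpa using Ne.symm hab')
    have hc' := hxy c' (by simpa using Ne.symm hac')
    simp only [hK, hb', hc']
  have hG2 : BM (fun x : Fin N → R3 => γ ^ 2 * (K x * χ (x a - x b'))) :=
    (hKb.mul c1).const_mul _
  calc Mg ν {a, b, c} (fun x => |W {a, b, c} x| * |W {a, b', c'} x|) x
      ≤ Mg ν {a, b, c} (fun x : Fin N → R3 => K x * (χ (x a - x b') * (χ (x a - x b) *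
          χ (x a - x c)))) x := Mg_mono (hW1.abs.mul hW2.abs) hF hmaj x
    _ = Mg ν {a} (Mg ν {b} (Mg ν {c} (fun x : Fin N → R3 => K x * (χ (x a - x b') *
          (χ (x a - x b) * χ (x a - x c)))))) x := by
        rw [hset, Mg_insert hF (by simp [hab, hac]), Mg_insert hF (by simp [hbc])]
    _ ≤ Mg ν {a} (Mg ν {b} (fun x : Fin N → R3 => γ * (K x * (χ (x a - x b') *
          χ (x a - x b))))) x :=
        Mg_mono (Mg_bm (Mg_bm hF)) (Mg_bm hG1) (fun y => Mg_mono (Mg_bm hF) hG1 s1 y) x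
    _ ≤ Mg ν {a} (fun x : Fin N → R3 => γ ^ 2 * (K x * χ (x a - x b'))) x :=
        Mg_mono (Mg_bm hG1) hG2 s2 x
    _ = (γ ^ 2 * K x) * Mg ν {a} (fun x : Fin N → R3 => χ (x a - x b')) x := by rw [step3]
    _ ≤ (γ ^ 2 * K x) * γ :=
        mul_le_mul_of_nonneg_left (ha_le x) (mul_nonneg (sq_nonneg _) (hKnn x))
    _ = ω ^ 2 * γ ^ 3 * (ind Q (x b') * ind Q (x c')) := by rw [hK]; ring

/-! ### One half of the estimate -/

theorem half (h : Wd ν m g Q B) {Ψ : (Fin N → R3) → ℝ} (hΨ : BM Ψ) {lam : ℕ → ℝ}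
    {W : Finset (Fin N) → (Fin N → R3) → ℝ} {χ : R3 → ℝ}
    {ω γ : ℝ} (hT : TW ν m Q W χ ω γ) {a b c b' c' : Fin N} (hnd : [a, b, c, b', c'].Nodup)
    {o' : Fin 3} (ho' : o' ≠ 2) :
    ∫ x, (|W {a, b, c} x| * |W {a, b', c'} x|) *
        (lam (cnt B ({a, b, c, b', c'}ᶜ) x) ^ 2 *
          op ν g 2 b' (op ν g o' c' (av ν g {a, b, c} Ψ)) x ^ 2) ∂pin ν N
      ≤ 8 * ω ^ 2 * γ ^ 3 * (1 / m) ^ 3 *
        ∫ x, lam (cnt B ({a, b, c, b', c'}ᶜ) x) ^ 2 *
          ((∏ j ∈ ({a, b, c, b', c'} : Finset (Fin N)), ind Q (x j)) *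
            rough ν g b' Ψ x ^ 2) ∂pin ν N := by
  have hker := Mg_kernel h hT hnd
  simp only [List.nodup_cons, List.mem_cons, List.not_mem_nil, or_false, not_or,
    List.nodup_nil, and_true, not_false_eq_true] at hnd
  obtain ⟨⟨hab, hac, hab', hac'⟩, ⟨hbc, hbb', hbc'⟩, ⟨hcb', hcc'⟩, hb'c'⟩ := hnd
  have hm0 : 0 < m := by linarith [h.hm]
  have hω0 := hT.ω_nn
  have hγ0 := hT.γ_nn
  set T : Finset (Fin N) := {a, b, c} with hTdef
  have hTc : T.card = 3 := card_eq_three.2 ⟨a, b, c, hab, hac, hbc, rfl⟩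
  have hb'T : b' ∉ T := by simp [hTdef, Ne.symm hab', Ne.symm hbb', Ne.symm hcb']
  have hc'T : c' ∉ T := by simp [hTdef, Ne.symm hac', Ne.symm hbc', Ne.symm hcc']
  set S : Finset (Fin N) := {a, b, c, b', c'} with hSdef
  set Λ : (Fin N → R3) → ℝ := fun x => lam (cnt B Sᶜ x) ^ 2 with hΛ
  have hΛb : BM Λ := BM_cnt_comp h.B_meas Sᶜ (fun n => lam n ^ 2)
  have hΛ0 : ∀ x, 0 ≤ Λ x := fun x => sq_nonneg _
  have hΛd : ∀ x y : Fin N → R3, (∀ i ∉ S, x i = y i) → Λ x = Λ y := by
    intro x y hxy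
    have := cnt_dep (N := N) B Sᶜ (x := x) (y := y) (fun i hi => hxy i (by simpa using hi))
    simp only [hΛ, this]
  have hTS : ∀ i ∈ T, i ∈ S := by
    intro i hi
    simp only [hTdef, hSdef, mem_insert, mem_singleton] at hi ⊢
    tauto
  set Y : (Fin N → R3) → ℝ := op ν g 2 b' (op ν g o' c' Ψ) with hY
  have hYb : BM Y := op_bm h 2 b' (op_bm h o' c' hΨ)
  have eY : op ν g 2 b' (op ν g o' c' (av ν g T Ψ)) = av ν g T Y := by
    rw [av_op h o' hc'T hΨ, av_op h 2 hb'T (op_bm h o' c' hΨ)]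
  rw [eY]
  have havY : BM (av ν g T Y) := av_bm h hYb
  have hW1 := hT.bm T
  have hW2 := hT.bm {a, b', c'}
  have hIb := BM_ind_at (N := N) h.Q_meas b'
  have hIc := BM_ind_at (N := N) h.Q_meas c'
  -- weight
  set w' : (Fin N → R3) → ℝ := fun x => ω ^ 2 * γ ^ 3 * (Λ x * (ind Q (x b') * ind Q (x c')))
    with hw'
  have hw'b : BM w' := (hΛb.mul (hIb.mul hIc)).const_mul _
  have hw'0 : ∀ x, 0 ≤ w' x := fun x => by
    have h1 := hΛ0 x
    have h2 := ind_nonneg Q (x b')
    have h3 := ind_nonneg Q (x c')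
    simp only [hw']
    positivity
  have hw'd : DependsOn w' ((T : Set (Fin N))ᶜ) := by
    intro x y hxy
    have h1 : Λ x = Λ y := hΛd x y fun i hi => hxy i (by
      simpa using fun hiT => hi (hTS i hiT))
    have h2 := hxy b' (by simpa using hb'T)
    have h3 := hxy c' (by simpa using hc'T)
    simp only [hw', h1, h2, h3]
  have hPd : DependsOn (fun x : Fin N → R3 => Λ x * av ν g T Y x ^ 2) ((T : Set (Fin N))ᶜ) := by
    intro x y hxy
    have h1 : Λ x = Λ y := hΛd x y fun i hi => hxy i (by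
      simpa using fun hiT => hi (hTS i hiT))
    have h2 := av_dep (ν := ν) (g := g) Y hxy
    simp only [h1, h2]
  have hP : BM (fun x : Fin N → R3 => Λ x * av ν g T Y x ^ 2) := hΛb.mul (havY.pow 2)
  have step1 : ∫ x, (|W T x| * |W {a, b', c'} x|) * (Λ x * av ν g T Y x ^ 2) ∂pin ν N
      ≤ (1 / m) ^ 3 * ∫ x, w' x * ((∏ j ∈ T, ind Q (x j)) * Y x ^ 2) ∂pin ν N := by
    have e1 : (fun x : Fin N → R3 => (|W T x| * |W {a, b', c'} x|) * (Λ x * av ν g T Y x ^ 2))
        = fun x => (Λ x * av ν g T Y x ^ 2) * (|W T x| * |W {a, b', c'} x|) := by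
      ext1 x; ring
    calc ∫ x, (|W T x| * |W {a, b', c'} x|) * (Λ x * av ν g T Y x ^ 2) ∂pin ν N
        = out ν 0 T (Mg ν T fun x => (Λ x * av ν g T Y x ^ 2) *
            (|W T x| * |W {a, b', c'} x|)) := by
          rw [e1]
          exact integral_eq_out (hP.mul (hW1.abs.mul hW2.abs)) 0 T
      _ = out ν 0 T (fun x => (Λ x * av ν g T Y x ^ 2) *
            Mg ν T (fun x => |W T x| * |W {a, b', c'} x|) x) := by
          rw [Mg_mul_left _ hPd]
      _ ≤ out ν 0 T (fun x => w' x * av ν g T Y x ^ 2) := by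
          apply out_mono (hP.mul (Mg_bm (hW1.abs.mul hW2.abs))) (hw'b.mul (havY.pow 2))
          intro x
          have h1 : 0 ≤ Λ x * av ν g T Y x ^ 2 := mul_nonneg (hΛ0 x) (sq_nonneg _)
          calc (Λ x * av ν g T Y x ^ 2) * Mg ν T (fun x => |W T x| * |W {a, b', c'} x|) x
              ≤ (Λ x * av ν g T Y x ^ 2) * (ω ^ 2 * γ ^ 3 * (ind Q (x b') * ind Q (x c'))) :=
                mul_le_mul_of_nonneg_left (hker x) h1
            _ = w' x * av ν g T Y x ^ 2 := by simp only [hw']; ring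
      _ ≤ (1 / m) ^ T.card * ∫ x, w' x * ((∏ j ∈ T, ind Q (x j)) * Y x ^ 2) ∂pin ν N :=
          out_av_sq_le h hYb hw'b hw'0 hw'd 0
      _ = _ := by rw [hTc]
  -- the last average
  have hprod : ∀ x : Fin N → R3, ∏ j ∈ S, ind Q (x j) =
      (∏ j ∈ T, ind Q (x j)) * (ind Q (x b') * ind Q (x c')) := by
    intro x
    have hSu : S = T ∪ {b', c'} := by
      ext i
      simp only [hSdef, hTdef, mem_union, mem_insert, mem_singleton]
      tauto
    rw [hSu, Finset.prod_union, Finset.prod_pair hb'c']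
    rw [Finset.disjoint_left]
    intro i hi
    simp only [mem_insert, mem_singleton, not_or]
    exact ⟨fun e => hb'T (e ▸ hi), fun e => hc'T (e ▸ hi)⟩
  have hrb : BM (rough ν g b' Ψ) := rough_bm h hΨ b'
  have hTb : BM (fun x : Fin N → R3 => ∏ j ∈ T, ind Q (x j)) := BM_prod_ind h.Q_meas T
  have step2 : ∫ x, w' x * ((∏ j ∈ T, ind Q (x j)) * Y x ^ 2) ∂pin ν N
      ≤ 8 * (ω ^ 2 * γ ^ 3 * ∫ x, Λ x * ((∏ j ∈ S, ind Q (x j)) * rough ν g b' Ψ x ^ 2)
        ∂pin ν N) := by
    set w2 : (Fin N → R3) → ℝ := fun x =>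
      ω ^ 2 * γ ^ 3 * (Λ x * (ind Q (x b') * ∏ j ∈ T, ind Q (x j))) with hw2
    have hw2b : BM w2 := (hΛb.mul (hIb.mul hTb)).const_mul _
    have hw20 : ∀ x, 0 ≤ w2 x := fun x => by
      have h1 := hΛ0 x
      have h2 := ind_nonneg Q (x b')
      have h3 : 0 ≤ ∏ j ∈ T, ind Q (x j) := Finset.prod_nonneg fun j _ => ind_nonneg Q (x j)
      simp only [hw2]
      positivity
    have hw2d : DependsOn w2 ({c'}ᶜ : Set (Fin N)) := by
      intro x y hxy
      have h1 : Λ x = Λ y := hΛd x y fun i hi => hxy i (by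
        rintro rfl
        apply hi
        simp [hSdef])
      have h2 := hxy b' (by simpa using hb'c')
      have h3 : ∏ j ∈ T, ind Q (x j) = ∏ j ∈ T, ind Q (y j) :=
        Finset.prod_congr rfl fun j hj => by
          rw [hxy j (by
            rintro rfl
            exact hc'T hj)]
      simp only [hw2, h1, h2, h3]
    have e2 : (fun x : Fin N → R3 => w' x * ((∏ j ∈ T, ind Q (x j)) * Y x ^ 2))
        = fun x => w2 x * (ind Q (x c') * Y x ^ 2) := by
      ext1 x
      simp only [hw', hw2]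
      ring
    have e3 : ω ^ 2 * γ ^ 3 * ∫ x, Λ x * ((∏ j ∈ S, ind Q (x j)) * rough ν g b' Ψ x ^ 2) ∂pin ν N
        = ∫ x, w2 x * (ind Q (x c') * rough ν g b' Ψ x ^ 2) ∂pin ν N := by
      rw [← integral_const_mul]
      congr 1
      ext1 x
      rw [hprod x]
      simp only [hw2]
      ring
    rw [e2, e3]
    have eY2 : Y = op ν g o' c' (rough ν g b' Ψ) := by
      rw [hY, op_op h 2 o' hb'c' hΨ]
      rfl
    have ho'01 : o' = 0 ∨ o' = 1 := by
      revert ho'
      fin_cases o' <;> simp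
    rcases ho'01 with h0 | h1
    · have hYr : Y = rough ν g b' Ψ := by
        rw [eY2]; simp [op, h0]
      rw [hYr]
      have hnn : 0 ≤ ∫ x, w2 x * (ind Q (x c') * rough ν g b' Ψ x ^ 2) ∂pin ν N :=
        integral_nonneg fun x => mul_nonneg (hw20 x) (mul_nonneg (ind_nonneg _ _) (sq_nonneg _))
      linarith
    · have hYr : Y = av ν g {c'} (rough ν g b' Ψ) := by
        rw [eY2]; simp [op, h1]
      rw [hYr]
      exact L2Q1 h c' hrb hw2b hw20 hw2d
  calc ∫ x, (|W T x| * |W {a, b', c'} x|) * (Λ x * av ν g T Y x ^ 2) ∂pin ν N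
      ≤ (1 / m) ^ 3 * ∫ x, w' x * ((∏ j ∈ T, ind Q (x j)) * Y x ^ 2) ∂pin ν N := step1
    _ ≤ (1 / m) ^ 3 * (8 * (ω ^ 2 * γ ^ 3 * ∫ x, Λ x * ((∏ j ∈ S, ind Q (x j)) *
          rough ν g b' Ψ x ^ 2) ∂pin ν N)) :=
        mul_le_mul_of_nonneg_left step2 (by positivity)
    _ = _ := by ring

/-! ### The function of one triple after moving the operators of the other one -/

theorem FT_bm (h : Wd ν m g Q B) {Ψ : (Fin N → R3) → ℝ} (hΨ : BM Ψ) {lam : ℕ → ℝ}
    {W : Finset (Fin N) → (Fin N → R3) → ℝ} {χ : R3 → ℝ}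
    {ω γ : ℝ} (hT : TW ν m Q W χ ω γ) (T : Finset (Fin N)) : BM (FT ν g B lam W Ψ T) :=
  (hT.bm T).mul ((BM_cnt_comp h.B_meas Tᶜ lam).mul (av_bm h hΨ))

theorem FT_zero {Ψ : (Fin N → R3) → ℝ} {lam : ℕ → ℝ}
    {W : Finset (Fin N) → (Fin N → R3) → ℝ} {χ : R3 → ℝ}
    {ω γ : ℝ} (hT : TW ν m Q W χ ω γ) {T : Finset (Fin N)}
    (hT3 : T ∈ powersetCard 3 (univ : Finset (Fin N))) {d : Fin N} (hd : d ∈ T)
    (x : Fin N → R3) (hx : x d ∉ Q) : FT ν g B lam W Ψ T x = 0 := by
  have h1 := hT.maj T hT3 d hd x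
  have h2 : ∏ j ∈ T, ind Q (x j) = 0 := Finset.prod_eq_zero hd (ind_of_notMem hx)
  rw [h2, mul_zero, mul_zero] at h1
  have h3 : W T x = 0 := abs_eq_zero.1 (le_antisymm h1 (abs_nonneg _))
  rw [FT, h3, zero_mul]

theorem V_eq (h : Wd ν m g Q B) {Ψ : (Fin N → R3) → ℝ} {lam : ℕ → ℝ}
    {W : Finset (Fin N) → (Fin N → R3) → ℝ} {χ : R3 → ℝ}
    {ω γ : ℝ} (hT : TW ν m Q W χ ω γ) {T : Finset (Fin N)} {b' c' : Fin N} (hb'T : b' ∉ T)
    (hc'T : c' ∉ T) (hb'c' : b' ≠ c') (o' : Fin 3) {S : Finset (Fin N)}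
    (hS : Tᶜ = insert b' (insert c' Sᶜ)) (hb'S : b' ∈ S) (hc'S : c' ∈ S)
    (x : Fin N → R3) (hxb : x b' ∈ Q) (hxc : x c' ∈ Q) :
    op ν g 2 b' (op ν g o' c' (FT ν g B lam W Ψ T)) x =
      W T x * lam (cnt B Sᶜ x + 2) * op ν g 2 b' (op ν g o' c' (av ν g T Ψ)) x := by
  set p : (Fin N → R3) → ℝ := fun x => W T x * lam (cnt B Sᶜ x + 2) with hp
  have hWd := hT.dep T
  have hpd : ∀ d : Fin N, d ∉ T → d ∈ S → DependsOn p ({d}ᶜ : Set (Fin N)) := by
    intro d hdT hdS x y hxy
    have h1 : W T x = W T y := hWd fun i hi => hxy i (by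
      rintro rfl
      exact hdT (by simpa using hi))
    have h2 := cnt_dep (N := N) B Sᶜ (x := x) (y := y) (fun i hi => hxy i (by
      rintro rfl
      simp at hi
      exact hi hdS))
    simp only at h2
    simp only [hp, h1, h2]
  have hFeq : ∀ y : Fin N → R3, y b' ∈ Q → y c' ∈ Q →
      FT ν g B lam W Ψ T y = p y * av ν g T Ψ y := by
    intro y hyb hyc
    have hcnt : cnt B Tᶜ y = cnt B Sᶜ y + 2 := by
      unfold cnt
      rw [hS, Finset.filter_insert, if_pos (h.Q_sub hyb), Finset.filter_insert,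
        if_pos (h.Q_sub hyc), Finset.card_insert_of_notMem, Finset.card_insert_of_notMem]
      · simp [hc'S]
      · simp [hb'c', hb'S]
    rw [FT, hcnt, hp]
    ring
  have e1 : op ν g 2 b' (op ν g o' c' (FT ν g B lam W Ψ T)) x
      = op ν g 2 b' (op ν g o' c' (fun y => p y * av ν g T Ψ y)) x := by
    apply op_congr_Q h 2 b' hxb
    intro t ht
    apply op_congr_Q h o' c'
    · rw [Function.update_of_ne (Ne.symm hb'c')]
      exact hxc
    · intro s hs
      apply hFeq
      · rw [Function.update_of_ne hb'c', Function.update_self]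
        exact ht
      · rw [Function.update_self]
        exact hs
  rw [e1, op_mul_left o' c' (hpd c' hc'T hc'S), op_mul_left 2 b' (hpd b' hb'T hb'S)]

end ZDaux

open ZDaux

theorem ZD (hA : S_Adj) : S_ZD := by
  intro N ν _ m g Q B h Ψ hΨ lam hl0 hlam W χ ω γ hT a b c b' c' hnd o o' ho ho'
  have hnd' : [a, b', c', b, c].Nodup := by
    simp only [List.nodup_cons, List.mem_cons, List.not_mem_nil, or_false, not_or,
      List.nodup_nil, and_true, not_false_eq_true] at hnd ⊢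
    tauto
  have half1 := half (lam := lam) h hΨ hT hnd ho'
  have half2 := half (lam := lam) h hΨ hT hnd' ho
  simp only [List.nodup_cons, List.mem_cons, List.not_mem_nil, or_false, not_or,
    List.nodup_nil, and_true, not_false_eq_true] at hnd
  obtain ⟨⟨hab, hac, hab', hac'⟩, ⟨hbc, hbb', hbc'⟩, ⟨hcb', hcc'⟩, hb'c'⟩ := hnd
  set T : Finset (Fin N) := {a, b, c} with hTdef
  set T' : Finset (Fin N) := {a, b', c'} with hT'def
  set S : Finset (Fin N) := {a, b, c, b', c'} with hSdef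
  have hS' : ({a, b', c', b, c} : Finset (Fin N)) = S := by
    ext i
    simp only [hSdef, mem_insert, mem_singleton]
    tauto
  rw [hS'] at half2
  have hT3 : T ∈ powersetCard 3 (univ : Finset (Fin N)) := by
    rw [mem_powersetCard]
    exact ⟨subset_univ _, card_eq_three.2 ⟨a, b, c, hab, hac, hbc, rfl⟩⟩
  have hT'3 : T' ∈ powersetCard 3 (univ : Finset (Fin N)) := by
    rw [mem_powersetCard]
    exact ⟨subset_univ _, card_eq_three.2 ⟨a, b', c', hab', hac', hb'c', rfl⟩⟩
  have hb'T : b' ∉ T := by simp [hTdef, Ne.symm hab', Ne.symm hbb', Ne.symm hcb']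
  have hc'T : c' ∉ T := by simp [hTdef, Ne.symm hac', Ne.symm hbc', Ne.symm hcc']
  have hbT' : b ∉ T' := by simp [hT'def, Ne.symm hab, hbb', hbc']
  have hcT' : c ∉ T' := by simp [hT'def, Ne.symm hac, hcb', hcc']
  have hTc : Tᶜ = insert b' (insert c' Sᶜ) := by
    ext i
    simp only [hSdef, hTdef, mem_compl, mem_insert, mem_singleton]
    by_cases h1 : i = b'
    · subst h1
      simp [Ne.symm hab', Ne.symm hbb', Ne.symm hcb']
    by_cases h2 : i = c'
    · subst h2
      simp [Ne.symm hac', Ne.symm hbc', Ne.symm hcc']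
    tauto
  have hT'c : T'ᶜ = insert b (insert c Sᶜ) := by
    ext i
    simp only [hSdef, hT'def, mem_compl, mem_insert, mem_singleton]
    by_cases h1 : i = b
    · subst h1
      simp [Ne.symm hab, hbb', hbc']
    by_cases h2 : i = c
    · subst h2
      simp [Ne.symm hac, hcb', hcc']
    tauto
  -- adjoints
  have adj : ∀ (p : Fin 3) (d : Fin N) (G f : (Fin N → R3) → ℝ), BM G → BM f →
      ∫ x, ops ν g p d G x * f x ∂pin ν N = ∫ x, G x * op ν g p d f x ∂pin ν N := by
    intro p d G f hG hf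
    exact (hA ν m g Q B h p d G f (fun _ => 1) hG hf (BM.const 1) (fun _ => zero_le_one)
      (fun _ _ _ => rfl)).2.2.1
  set F := FT ν g B lam W Ψ T with hF
  set F' := FT ν g B lam W Ψ T' with hF'
  have hFb : BM F := FT_bm h hΨ hT T
  have hF'b : BM F' := FT_bm h hΨ hT T'
  set V := op ν g 2 b (op ν g o c F') with hV
  set V' := op ν g 2 b' (op ν g o' c' F) with hV'
  have hVb : BM V := op_bm h 2 b (op_bm h o c hF'b)
  have hV'b : BM V' := op_bm h 2 b' (op_bm h o' c' hFb)
  have step1 : ∫ x, ops ν g o c (ops ν g 2 b F) x * ops ν g o' c' (ops ν g 2 b' F') x ∂pin ν N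
      = ∫ x, V x * V' x ∂pin ν N := by
    have hK : BM (ops ν g o' c' (ops ν g 2 b' F')) := ops_bm h o' c' (ops_bm h 2 b' hF'b)
    rw [adj o c _ _ (ops_bm h 2 b hFb) hK, adj 2 b _ _ hFb (op_bm h o c hK)]
    have e : op ν g 2 b (op ν g o c (ops ν g o' c' (ops ν g 2 b' F')))
        = ops ν g o' c' (ops ν g 2 b' V) := by
      rw [op_ops h o o' hcc' (ops_bm h 2 b' hF'b), op_ops h o 2 hcb' hF'b,
        op_ops h 2 o' hbc' (ops_bm h 2 b' (op_bm h o c hF'b)),
        op_ops h 2 2 hbb' (op_bm h o c hF'b)]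
    rw [e]
    have e2 : ∫ x, F x * ops ν g o' c' (ops ν g 2 b' V) x ∂pin ν N
        = ∫ x, ops ν g o' c' (ops ν g 2 b' V) x * F x ∂pin ν N := by
      congr 1; ext1 x; ring
    rw [e2, adj o' c' _ _ (ops_bm h 2 b' hVb) hFb, adj 2 b' _ _ hVb (op_bm h o' c' hFb)]
  rw [step1]
  -- pointwise bound
  set X' := op ν g 2 b' (op ν g o' c' (av ν g T Ψ)) with hX'
  set X := op ν g 2 b (op ν g o c (av ν g T' Ψ)) with hX
  have hX'b : BM X' := op_bm h 2 b' (op_bm h o' c' (av_bm h hΨ))
  have hXb : BM X := op_bm h 2 b (op_bm h o c (av_bm h hΨ))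
  have hΛb : BM (fun x : Fin N → R3 => lam (cnt B Sᶜ x) ^ 2) :=
    BM_cnt_comp h.B_meas Sᶜ (fun n => lam n ^ 2)
  have hpt : ∀ x, |V x * V' x| ≤
      1 / 2 * ((|W T x| * |W T' x|) * (lam (cnt B Sᶜ x) ^ 2 * X' x ^ 2) +
        (|W T' x| * |W T x|) * (lam (cnt B Sᶜ x) ^ 2 * X x ^ 2)) := by
    intro x
    have hrhs : 0 ≤ 1 / 2 * ((|W T x| * |W T' x|) * (lam (cnt B Sᶜ x) ^ 2 * X' x ^ 2) +
        (|W T' x| * |W T x|) * (lam (cnt B Sᶜ x) ^ 2 * X x ^ 2)) := by positivity
    by_cases h1 : x b' ∈ Q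
    swap
    · have : V x = 0 := op_zero_of h 2 (Ne.symm hbb')
        (fun y hy => op_zero_of h o (Ne.symm hcb')
          (fun z hz => FT_zero hT hT'3 (by simp [hT'def]) z hz) y hy) x h1
      rw [this, zero_mul, abs_zero]
      exact hrhs
    by_cases h2 : x c' ∈ Q
    swap
    · have : V x = 0 := op_zero_of h 2 (Ne.symm hbc')
        (fun y hy => op_zero_of h o (Ne.symm hcc')
          (fun z hz => FT_zero hT hT'3 (by simp [hT'def]) z hz) y hy) x h2
      rw [this, zero_mul, abs_zero]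
      exact hrhs
    by_cases h3 : x b ∈ Q
    swap
    · have : V' x = 0 := op_zero_of h 2 hbb'
        (fun y hy => op_zero_of h o' hbc'
          (fun z hz => FT_zero hT hT3 (by simp [hTdef]) z hz) y hy) x h3
      rw [this, mul_zero, abs_zero]
      exact hrhs
    by_cases h4 : x c ∈ Q
    swap
    · have : V' x = 0 := op_zero_of h 2 hcb'
        (fun y hy => op_zero_of h o' hcc'
          (fun z hz => FT_zero hT hT3 (by simp [hTdef]) z hz) y hy) x h4
      rw [this, mul_zero, abs_zero]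
      exact hrhs
    have e1 : V' x = W T x * lam (cnt B Sᶜ x + 2) * X' x :=
      V_eq h hT hb'T hc'T hb'c' o' hTc (by simp [hSdef]) (by simp [hSdef]) x h1 h2
    have e2 : V x = W T' x * lam (cnt B Sᶜ x + 2) * X x :=
      V_eq h hT hbT' hcT' hbc o hT'c (by simp [hSdef]) (by simp [hSdef]) x h3 h4
    have hl : lam (cnt B Sᶜ x + 2) ^ 2 ≤ lam (cnt B Sᶜ x) ^ 2 :=
      pow_le_pow_left₀ (hl0 _) (hlam (by omega)) 2
    have hxx : |X x| * |X' x| ≤ 1 / 2 * (X' x ^ 2 + X x ^ 2) := by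
      rw [← sq_abs (X' x), ← sq_abs (X x)]
      nlinarith [sq_nonneg (|X x| - |X' x|)]
    rw [e1, e2]
    calc |W T' x * lam (cnt B Sᶜ x + 2) * X x * (W T x * lam (cnt B Sᶜ x + 2) * X' x)|
        = (|W T x| * |W T' x|) * (lam (cnt B Sᶜ x + 2) ^ 2 * (|X x| * |X' x|)) := by
          rw [abs_mul, abs_mul, abs_mul, abs_mul, abs_mul, abs_of_nonneg (hl0 _)]
          ring
      _ ≤ (|W T x| * |W T' x|) * (lam (cnt B Sᶜ x) ^ 2 * (1 / 2 * (X' x ^ 2 + X x ^ 2))) := by
          apply mul_le_mul_of_nonneg_left _ (by positivity)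
          exact mul_le_mul hl hxx (by positivity) (by positivity)
      _ = _ := by ring
  have i1 : BM (fun x => (|W T x| * |W T' x|) * (lam (cnt B Sᶜ x) ^ 2 * X' x ^ 2)) :=
    ((hT.bm T).abs.mul (hT.bm T').abs).mul (hΛb.mul (hX'b.pow 2))
  have i2 : BM (fun x => (|W T' x| * |W T x|) * (lam (cnt B Sᶜ x) ^ 2 * X x ^ 2)) :=
    ((hT.bm T').abs.mul (hT.bm T).abs).mul (hΛb.mul (hXb.pow 2))
  calc |∫ x, V x * V' x ∂pin ν N|
      ≤ ∫ x, |V x * V' x| ∂pin ν N := abs_integral_le_integral_abs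
    _ ≤ ∫ x, 1 / 2 * ((|W T x| * |W T' x|) * (lam (cnt B Sᶜ x) ^ 2 * X' x ^ 2) +
        (|W T' x| * |W T x|) * (lam (cnt B Sᶜ x) ^ 2 * X x ^ 2)) ∂pin ν N :=
        integral_mono ((hVb.mul hV'b).abs.integrable _)
          (((i1.add i2).const_mul (1 / 2)).integrable _) hpt
    _ = 1 / 2 * (∫ x, (|W T x| * |W T' x|) * (lam (cnt B Sᶜ x) ^ 2 * X' x ^ 2) ∂pin ν N +
        ∫ x, (|W T' x| * |W T x|) * (lam (cnt B Sᶜ x) ^ 2 * X x ^ 2) ∂pin ν N) := by
        rw [integral_const_mul, integral_add (i1.integrable _) (i2.integrable _)]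
    _ ≤ _ := by linarith

end Pool.Agent.Lib.MP_5db8e2_mp
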