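import Pool.Agent.Lib.MP_5db8e2_mp.LB.Spec3

/-!
# ZLin: the linear term with at least two rough particles in terms of `Z_a` (helper72)
-/

set_option autoImplicit false

open MeasureTheory Function Finset
open scoped Classical

namespace Pool.Agent.Lib.MP_5db8e2_mp

namespace ZLinaux

variable {N : ℕ}

/-- A set of three elements in increasing order. -/
theorem sort3 (T : Finset (Fin N)) (hT : T.card = 3) :
    ∃ i j k : Fin N, i < j ∧ j < k ∧ T = {i, j, k} := by
  obtain ⟨x, y, z, hxy, hxz, hyz, rfl⟩ := Finset.card_eq_three.1 hT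
  rcases lt_or_gt_of_ne hxy with h1 | h1 <;> rcases lt_or_gt_of_ne hxz with h2 | h2 <;>
    rcases lt_or_gt_of_ne hyz with h3 | h3
  · exact ⟨x, y, z, h1, h3, rfl⟩
  · exact ⟨x, z, y, h2, h3, by ext a; simp; tauto⟩
  · exact absurd (h1.trans h3) (not_lt.2 h2.le)
  · exact ⟨z, x, y, h2, h1, by ext a; simp; tauto⟩
  · exact ⟨y, x, z, h1, h2, by ext a; simp; tauto⟩
  · exact absurd (h1.trans h2) (not_lt.2 h3.le)
  · exact ⟨y, z, x, h3, h2, by ext a; simp; tauto⟩
  · exact ⟨z, y, x, h3, h1, by ext a; simp; tauto⟩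

/-- The patterns of a triple. -/
theorem patterns {i j k : Fin N} (hij : i < j) (hjk : j < k) (a b c : Fin N) :
    ((a < b ∧ c ≠ a ∧ c ≠ b) ∧ ({a, b, c} : Finset (Fin N)) = {i, j, k}) ↔
      (a = i ∧ b = j ∧ c = k) ∨ (a = i ∧ b = k ∧ c = j) ∨ (a = j ∧ b = k ∧ c = i) := by
  have hik := hij.trans hjk
  constructor
  · rintro ⟨⟨h1, h2, h3⟩, h4⟩
    have ha : a ∈ ({i, j, k} : Finset (Fin N)) := by rw [← h4]; simp
    have hb : b ∈ ({i, j, k} : Finset (Fin N)) := by rw [← h4]; simp
    have hc : c ∈ ({i, j, k} : Finset (Fin N)) := by rw [← h4]; simp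
    simp only [Finset.mem_insert, Finset.mem_singleton] at ha hb hc
    rcases ha with rfl | rfl | rfl <;> rcases hb with rfl | rfl | rfl <;>
      rcases hc with rfl | rfl | rfl <;> first
        | exact absurd rfl h2
        | exact absurd rfl h3
        | exact absurd h1 (lt_irrefl _)
        | exact absurd h1 (lt_asymm (by assumption))
        | exact Or.inl ⟨rfl, rfl, rfl⟩
        | exact Or.inr (Or.inl ⟨rfl, rfl, rfl⟩)
        | exact Or.inr (Or.inr ⟨rfl, rfl, rfl⟩)
  · rintro (⟨rfl, rfl, rfl⟩ | ⟨rfl, rfl, rfl⟩ | ⟨rfl, rfl, rfl⟩)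
    · exact ⟨⟨hij, hik.ne', hjk.ne'⟩, rfl⟩
    · exact ⟨⟨hik, hij.ne', hjk.ne⟩, by ext a; simp; tauto⟩
    · exact ⟨⟨hjk, hij.ne, hik.ne⟩, by ext a; simp; tauto⟩

theorem fib {i j k : Fin N} (hij : i < j) (hjk : j < k) (f : Fin N × Fin N × Fin N → ℝ) :
    ∑ p ∈ (univ.filter (fun p : Fin N × Fin N × Fin N =>
        p.1 < p.2.1 ∧ p.2.2 ≠ p.1 ∧ p.2.2 ≠ p.2.1)).filter
        (fun p => ({p.1, p.2.1, p.2.2} : Finset (Fin N)) = {i, j, k}), f p
      = f (i, j, k) + (f (i, k, j) + f (j, k, i)) := by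
  have e : (univ.filter (fun p : Fin N × Fin N × Fin N =>
        p.1 < p.2.1 ∧ p.2.2 ≠ p.1 ∧ p.2.2 ≠ p.2.1)).filter
        (fun p => ({p.1, p.2.1, p.2.2} : Finset (Fin N)) = {i, j, k})
      = {(i, j, k), (i, k, j), (j, k, i)} := by
    ext ⟨a, b, c⟩
    simp only [Finset.mem_filter, Finset.mem_univ, true_and, Finset.mem_insert,
      Finset.mem_singleton, Prod.mk.injEq]
    exact patterns hij hjk a b c
  rw [e, Finset.sum_insert, Finset.sum_insert, Finset.sum_singleton]
  · simp only [Finset.mem_singleton, Prod.mk.injEq, not_and]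
    intro h
    exact absurd h hij.ne
  · simp only [Finset.mem_insert, Finset.mem_singleton, Prod.mk.injEq, not_or, not_and]
    refine ⟨fun _ h => absurd h hjk.ne, fun h => absurd h hij.ne⟩

variable {ν : Measure R3} {m : ℝ} {g : R3 → ℝ} {Q B : Set R3} {f : (Fin N → R3) → ℝ}

theorem op_two (b : Fin N) (f : (Fin N → R3) → ℝ) : op ν g 2 b f = rough ν g b f := by
  simp [op]

theorem op_zero (b : Fin N) (f : (Fin N → R3) → ℝ) : op ν g 0 b f = f := by
  simp [op]

theorem op_one (b : Fin N) (f : (Fin N → R3) → ℝ) : op ν g 1 b f = av ν g {b} f := by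
  simp [op]

/-- The pointwise identity. -/
theorem ident [IsFiniteMeasure ν] (h : Wd ν m g Q B) (hf : BM f) {i j k : Fin N}
    (hij : i < j) (hjk : j < k) (x : Fin N → R3) :
    f x - av ν g {i, j, k} f x
        - ∑ l ∈ ({i, j, k} : Finset (Fin N)), av ν g (({i, j, k} : Finset (Fin N)).erase l)
          (rough ν g l f) x
      = rough ν g j (rough ν g i f) x + (rough ν g k (av ν g {j} (rough ν g i f)) x
        + rough ν g k (av ν g {i} (rough ν g j f)) x) := by
  have hik := hij.trans hjk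
  have dij : Disjoint ({i} : Finset (Fin N)) {j} := by
    rw [Finset.disjoint_singleton]; exact hij.ne
  have djk : Disjoint ({j} : Finset (Fin N)) {k} := by
    rw [Finset.disjoint_singleton]; exact hjk.ne
  have dik : Disjoint ({i} : Finset (Fin N)) {k} := by
    rw [Finset.disjoint_singleton]; exact hik.ne
  have dijk : Disjoint ({i} : Finset (Fin N)) {j, k} := by
    rw [Finset.disjoint_singleton_left]
    simp [hij.ne, hik.ne]
  have hbm : ∀ (A : Finset (Fin N)) (u : (Fin N → R3) → ℝ), BM u → BM (av ν g A u) :=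
    fun A u hu => av_bm h hu
  have u2 : ∀ (a b : Fin N) (u : (Fin N → R3) → ℝ), BM u →
      Disjoint ({a} : Finset (Fin N)) {b} → av ν g {a, b} u = av ν g {a} (av ν g {b} u) := by
    intro a b u hu hd
    rw [← av_union h hu hd]
    rfl
  have u3 : av ν g {i, j, k} f = av ν g {i} (av ν g {j} (av ν g {k} f)) := by
    rw [← u2 j k f hf djk, ← av_union h hf dijk]
    rfl
  have hrs : ∀ (A : Finset (Fin N)) (l : Fin N) (u : (Fin N → R3) → ℝ), BM u →
      av ν g A (rough ν g l u) = fun y => av ν g A u y - av ν g A (av ν g {l} u) y := by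
    intro A l u hu
    exact av_sub h hu (hbm _ _ hu)
  have er1 : ({i, j, k} : Finset (Fin N)).erase i = {j, k} := by
    ext a
    simp only [Finset.mem_erase, Finset.mem_insert, Finset.mem_singleton]
    constructor
    · rintro ⟨h1, h2⟩
      tauto
    · rintro (rfl | rfl)
      · exact ⟨hij.ne', by tauto⟩
      · exact ⟨hik.ne', by tauto⟩
  have er2 : ({i, j, k} : Finset (Fin N)).erase j = {i, k} := by
    ext a
    simp only [Finset.mem_erase, Finset.mem_insert, Finset.mem_singleton]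
    constructor
    · rintro ⟨h1, h2⟩
      tauto
    · rintro (rfl | rfl)
      · exact ⟨hij.ne, by tauto⟩
      · exact ⟨hjk.ne', by tauto⟩
  have er3 : ({i, j, k} : Finset (Fin N)).erase k = {i, j} := by
    ext a
    simp only [Finset.mem_erase, Finset.mem_insert, Finset.mem_singleton]
    constructor
    · rintro ⟨h1, h2⟩
      tauto
    · rintro (rfl | rfl)
      · exact ⟨hik.ne, by tauto⟩
      · exact ⟨hjk.ne, by tauto⟩
  have hsum : ∑ l ∈ ({i, j, k} : Finset (Fin N)), av ν g (({i, j, k} : Finset (Fin N)).erase l)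
          (rough ν g l f) x = av ν g {j, k} (rough ν g i f) x + (av ν g {i, k} (rough ν g j f) x
            + av ν g {i, j} (rough ν g k f) x) := by
    rw [Finset.sum_insert (by simp [hij.ne, hik.ne]), Finset.sum_insert (by simp [hjk.ne]),
      Finset.sum_singleton, er1, er2, er3]
  -- canonical values
  have c1 : av ν g {j} (av ν g {i} f) = av ν g {i} (av ν g {j} f) := av_comm h hf dij.symm
  have c2 : av ν g {k} (av ν g {i} f) = av ν g {i} (av ν g {k} f) := av_comm h hf dik.symm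
  have c3 : av ν g {k} (av ν g {j} f) = av ν g {j} (av ν g {k} f) := av_comm h hf djk.symm
  -- the three terms on the left
  have l1 : av ν g {j, k} (rough ν g i f) x
      = av ν g {j} (av ν g {k} f) x - av ν g {i} (av ν g {j} (av ν g {k} f)) x := by
    rw [hrs _ _ _ hf]
    simp only []
    rw [u2 j k f hf djk, u2 j k _ (hbm _ _ hf) djk, c2,
      av_comm h (hbm {k} f hf) dij.symm]
  have l2 : av ν g {i, k} (rough ν g j f) x
      = av ν g {i} (av ν g {k} f) x - av ν g {i} (av ν g {j} (av ν g {k} f)) x := by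
    rw [hrs _ _ _ hf]
    simp only []
    rw [u2 i k f hf dik, u2 i k _ (hbm _ _ hf) dik, c3]
  have l3 : av ν g {i, j} (rough ν g k f) x
      = av ν g {i} (av ν g {j} f) x - av ν g {i} (av ν g {j} (av ν g {k} f)) x := by
    rw [hrs _ _ _ hf]
    simp only []
    rw [u2 i j f hf dij, u2 i j _ (hbm _ _ hf) dij]
  -- the three terms on the right
  have r1 : rough ν g j (rough ν g i f) x
      = f x - av ν g {i} f x - (av ν g {j} f x - av ν g {i} (av ν g {j} f) x) := by
    rw [rough, hrs _ _ _ hf, c1, rough]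
  have r2 : rough ν g k (av ν g {j} (rough ν g i f)) x
      = (av ν g {j} f x - av ν g {i} (av ν g {j} f) x)
        - (av ν g {j} (av ν g {k} f) x - av ν g {i} (av ν g {j} (av ν g {k} f)) x) := by
    rw [rough, hrs {j} _ _ hf, c1, av_sub h (hbm _ _ hf) (hbm _ _ (hbm _ _ hf)), c3,
      av_comm h (hbm {j} f hf) dik.symm, c3]
  have r3 : rough ν g k (av ν g {i} (rough ν g j f)) x
      = (av ν g {i} f x - av ν g {i} (av ν g {j} f) x)
        - (av ν g {i} (av ν g {k} f) x - av ν g {i} (av ν g {j} (av ν g {k} f)) x) := by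
    rw [rough, hrs {i} _ _ hf, av_sub h (hbm _ _ hf) (hbm _ _ (hbm _ _ hf)), c2,
      av_comm h (hbm {j} f hf) dik.symm, c3]
  rw [hsum, u3, l1, l2, l3, r1, r2, r3]
  ring

end ZLinaux

theorem ZLin (hA : S_Adj) : S_ZLin := by
  intro N ν hν m g Q B hW Ψ hΨ F hF
  have hadj : ∀ (o : Fin 3) (c : Fin N) (G f : (Fin N → R3) → ℝ), BM G → BM f →
      BM (op ν g o c f) ∧ BM (ops ν g o c G) ∧
      ∫ x, ops ν g o c G x * f x ∂pin ν N = ∫ x, G x * op ν g o c f x ∂pin ν N := by
    intro o c G f hG hf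
    have h := hA ν m g Q B hW o c G f (fun _ => 0) hG hf (BM.const 0) (fun _ => le_rfl)
      (fun _ _ _ => rfl)
    exact ⟨h.1, h.2.1, h.2.2.1⟩
  have hr : ∀ a, BM (rough ν g a Ψ) := fun a => rough_bm hW hΨ a
  -- the functions X
  obtain ⟨X, hXd⟩ : ∃ X : Fin N → Fin N → Fin N → (Fin N → R3) → ℝ, X = fun a b c =>
    rough ν g b (op ν g (if b < c then 0 else 1) c (rough ν g a Ψ)) := ⟨_, rfl⟩
  have hX : ∀ a b c, BM (X a b c) := by
    intro a b c
    rw [hXd]
    exact rough_bm hW (hadj _ _ _ _ (hr a) (hr a)).1 b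
  have hFX : ∀ a b c T, BM (fun x => F T x * X a b c x) := fun a b c T => (hF T).mul (hX a b c)
  -- right side
  have hR1 : ∀ a b c, ∫ x, ops ν g (if b < c then 0 else 1) c (ops ν g 2 b (F {a, b, c})) x
      * rough ν g a Ψ x ∂pin ν N = ∫ x, F {a, b, c} x * X a b c x ∂pin ν N := by
    intro a b c
    have h1 := hadj 2 b (F {a, b, c}) (rough ν g a Ψ) (hF _) (hr a)
    have h2 := hadj (if b < c then 0 else 1) c (ops ν g 2 b (F {a, b, c})) (rough ν g a Ψ)
      h1.2.1 (hr a)
    have h3 := hadj 2 b (F {a, b, c}) (op ν g (if b < c then 0 else 1) c (rough ν g a Ψ))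
      (hF _) h2.1
    rw [h2.2.2, h3.2.2, ZLinaux.op_two, hXd]
  have hR : ∀ a, ∫ x, Zf ν g F a x * rough ν g a Ψ x ∂pin ν N
      = ∑ b, ∑ c, if a < b ∧ c ≠ a ∧ c ≠ b then ∫ x, F {a, b, c} x * X a b c x ∂pin ν N else 0 := by
    intro a
    have e : ∀ x, Zf ν g F a x * rough ν g a Ψ x
        = ∑ b, ∑ c, (if a < b ∧ c ≠ a ∧ c ≠ b then
          ops ν g (if b < c then 0 else 1) c (ops ν g 2 b (F {a, b, c})) x else 0)
            * rough ν g a Ψ x := by
      intro x
      unfold Zf
      rw [Finset.sum_mul]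
      exact Finset.sum_congr rfl fun b _ => Finset.sum_mul _ _ _
    have hb : ∀ b c, BM (fun x => (if a < b ∧ c ≠ a ∧ c ≠ b then
          ops ν g (if b < c then 0 else 1) c (ops ν g 2 b (F {a, b, c})) x else 0)
            * rough ν g a Ψ x) := by
      intro b c
      by_cases hc : a < b ∧ c ≠ a ∧ c ≠ b
      · simp only [hc, ne_eq, not_false_eq_true, and_self, if_true]
        exact (hadj _ _ _ _ (hadj _ _ _ _ (hF _) (hr a)).2.1 (hr a)).2.1.mul (hr a)
      · simp only [hc, if_false]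
        exact (BM.const 0).mul (hr a)
    simp_rw [e]
    rw [integral_finsetSum _ fun b _ => (BM.sum univ fun c _ => hb b c).integrable _]
    refine Finset.sum_congr rfl fun b _ => ?_
    rw [integral_finsetSum _ fun c _ => (hb b c).integrable _]
    refine Finset.sum_congr rfl fun c _ => ?_
    by_cases hc : a < b ∧ c ≠ a ∧ c ≠ b
    · simp only [hc, ne_eq, not_false_eq_true, and_self, if_true]
      exact hR1 a b c
    · simp [hc]
  simp_rw [hR]
  -- as a sum over the patterns
  have hP : ∑ a, ∑ b, ∑ c, (if a < b ∧ c ≠ a ∧ c ≠ b then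
        ∫ x, F {a, b, c} x * X a b c x ∂pin ν N else 0)
      = ∑ p ∈ univ.filter (fun p : Fin N × Fin N × Fin N =>
        p.1 < p.2.1 ∧ p.2.2 ≠ p.1 ∧ p.2.2 ≠ p.2.1),
          ∫ x, F {p.1, p.2.1, p.2.2} x * X p.1 p.2.1 p.2.2 x ∂pin ν N := by
    rw [Finset.sum_filter, Fintype.sum_prod_type]
    refine Finset.sum_congr rfl fun a _ => ?_
    rw [Fintype.sum_prod_type]
  rw [hP]
  have hmaps : ∀ p ∈ univ.filter (fun p : Fin N × Fin N × Fin N =>
        p.1 < p.2.1 ∧ p.2.2 ≠ p.1 ∧ p.2.2 ≠ p.2.1),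
      ({p.1, p.2.1, p.2.2} : Finset (Fin N)) ∈ powersetCard 3 (univ : Finset (Fin N)) := by
    intro p hp
    rw [Finset.mem_filter] at hp
    obtain ⟨_, h1, h2, h3⟩ := hp
    rw [Finset.mem_powersetCard]
    refine ⟨Finset.subset_univ _, ?_⟩
    rw [Finset.card_eq_three]
    exact ⟨p.1, p.2.1, p.2.2, h1.ne, h2.symm, h3.symm, rfl⟩
  rw [← Finset.sum_fiberwise_of_maps_to hmaps]
  refine Finset.sum_congr rfl fun T hT => ?_
  rw [Finset.mem_powersetCard] at hT
  obtain ⟨i, j, k, hij, hjk, rfl⟩ := ZLinaux.sort3 T hT.2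
  have hik := hij.trans hjk
  rw [ZLinaux.fib hij hjk]
  have s1 : ({i, k, j} : Finset (Fin N)) = {i, j, k} := by ext a; simp; tauto
  have s2 : ({j, k, i} : Finset (Fin N)) = {i, j, k} := by ext a; simp; tauto
  simp only [s1, s2]
  rw [← integral_add ((hFX i k j _).integrable _) ((hFX j k i _).integrable _),
    ← integral_add ((hFX i j k _).integrable _)
      (((hFX i k j _).add (hFX j k i _)).integrable _)]
  congr 1
  ext1 x
  rw [ZLinaux.ident hW hΨ hij hjk x]
  have x1 : X i j k = rough ν g j (rough ν g i Ψ) := by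
    rw [hXd]
    simp only [hjk, if_true, ZLinaux.op_zero]
  have x2 : X i k j = rough ν g k (av ν g {j} (rough ν g i Ψ)) := by
    rw [hXd]
    simp only [not_lt.2 hjk.le, if_false, ZLinaux.op_one]
  have x3 : X j k i = rough ν g k (av ν g {i} (rough ν g j Ψ)) := by
    rw [hXd]
    simp only [not_lt.2 hik.le, if_false, ZLinaux.op_one]
  rw [x1, x2, x3]
  ring

end Pool.Agent.Lib.MP_5db8e2_mp
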