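import Pool.Agent.Lib.MP_5db8e2_mp.LB.CountK
import Pool.Agent.Lib.MP_5db8e2_mp.LB.MainUpper
import Pool.Agent.Lib.MP_5db8e2_mp.LB.L2Q
import Pool.Agent.Lib.MP_5db8e2_mp.LB.Telescope
import Pool.Agent.Lib.MP_5db8e2_mp.LB.QL
import Pool.Agent.Lib.MP_5db8e2_mp.LB.RoughQ
import Pool.Agent.Lib.MP_5db8e2_mp.LB.Adj
import Pool.Agent.Lib.MP_5db8e2_mp.LB.ZLin
import Pool.Agent.Lib.MP_5db8e2_mp.LB.ZD
import Pool.Agent.Lib.MP_5db8e2_mp.LB.ZC
import Pool.Agent.Lib.MP_5db8e2_mp.LB.ZS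
import Pool.Agent.Lib.MP_5db8e2_mp.LB.TwoRough
import Pool.Agent.Lib.MP_5db8e2_mp.LB.WinFacts
import Pool.Agent.Lib.MP_5db8e2_mp.LB.Overlap
import Pool.Agent.Lib.MP_5db8e2_mp.LB.CutRed
import Pool.Agent.Lib.MP_5db8e2_mp.LB.EnInt
import Pool.Agent.Lib.MP_5db8e2_mp.LB.ClInt
import Pool.Agent.Lib.MP_5db8e2_mp.LB.Identity
import Pool.Agent.Lib.MP_5db8e2_mp.LB.Jensen
import Pool.Agent.Lib.MP_5db8e2_mp.LB.Counts
import Pool.Agent.Lib.MP_5db8e2_mp.LB.KerW4
import Pool.Agent.Lib.MP_5db8e2_mp.LB.Lin3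
import Pool.Agent.Lib.MP_5db8e2_mp.LB.QuadSplit
import Pool.Agent.Lib.MP_5db8e2_mp.LB.Supp2
import Pool.Agent.Lib.MP_5db8e2_mp.LB.PairGlob
import Pool.Agent.Lib.MP_5db8e2_mp.LB.DiagGlob
import Pool.Agent.Lib.MP_5db8e2_mp.LB.TTb
import Pool.Agent.Lib.MP_5db8e2_mp.LB.TQb
import Pool.Agent.Lib.MP_5db8e2_mp.LB.QPb
import Pool.Agent.Lib.MP_5db8e2_mp.LB.GQb
import Pool.Agent.Lib.MP_5db8e2_mp.LB.PPb
import Pool.Agent.Lib.MP_5db8e2_mp.LB.KerQ
import Pool.Agent.Lib.MP_5db8e2_mp.LB.Q4pt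
import Pool.Agent.Lib.MP_5db8e2_mp.LB.QQint
import Pool.Agent.Lib.MP_5db8e2_mp.LB.Dpt
import Pool.Agent.Lib.MP_5db8e2_mp.LB.E123
import Pool.Agent.Lib.MP_5db8e2_mp.LB.Q4b
import Pool.Agent.Lib.MP_5db8e2_mp.LB.TwoWin
import Pool.Agent.Lib.MP_5db8e2_mp.LB.VVup
import Pool.Agent.Lib.MP_5db8e2_mp.LB.VVlow
import Pool.Agent.Lib.MP_5db8e2_mp.LB.Mains
import Pool.Agent.Lib.MP_5db8e2_mp.LB.Poinc
import Pool.Agent.Lib.MP_5db8e2_mp.LB.DX
import Pool.Agent.Lib.MP_5db8e2_mp.LB.Gap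
import Pool.Agent.Lib.MP_5db8e2_mp.LB.Crude3
import Pool.Agent.Lib.MP_5db8e2_mp.LB.Crude
import Pool.Agent.Lib.MP_5db8e2_mp.LB.Esy
import Pool.Agent.Lib.MP_5db8e2_mp.LB.Cells
import Pool.Agent.Lib.MP_5db8e2_mp.LB.Pt
import Pool.Agent.Lib.MP_5db8e2_mp.LB.Ineq
import Pool.Agent.Lib.MP_5db8e2_mp.LB.Asy
import Pool.Agent.Lib.MP_5db8e2_mp.LB.Final

/-!
# Lower bound: everything together
-/

set_option autoImplicit false

namespace Pool.Agent.Lib.MP_5db8e2_mp

/-- The lower bound. -/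
theorem lower_all  : S_Lower := by
  have hEfronStein : S_EfronStein := EfronStein
  have hCountK : S_CountK := CountK
  have hMainUpper : S_MainUpper := MainUpper
  have hMainLower : S_MainLower := MainLower hEfronStein hCountK
  have hL2Q : S_L2Q := L2Q
  have hTelescope : S_Telescope := Telescope
  have hQL : S_QL := QL hTelescope hL2Q
  have hKerInt : S_KerInt := KerInt
  have hPairSum : S_PairSum := PairSum hQL hKerInt hCountK
  have hOneRough : S_OneRough := OneRough hCountK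
  have hRoughQ : S_RoughQ := RoughQ hL2Q hCountK
  have hAdj : S_Adj := Adj
  have hZLin : S_ZLin := ZLin hAdj
  have hZD : S_ZD := ZD hAdj
  have hZC : S_ZC := ZC hAdj
  have hZS : S_ZS := ZS hAdj
  have hTwoRough : S_TwoRough := TwoRough hZLin hZD hZC hZS
  have hProf : S_Prof := Prof
  have hWinFacts : S_WinFacts := WinFacts hProf
  have hWdWin : S_WdWin := WdWin hWinFacts
  have hOverlap : S_Overlap := Overlap hWinFacts
  have hPut : S_Put := Put
  have hSupp : S_Supp := Supp hWinFacts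
  have hBMall : S_BMall := BMall hWinFacts hWdWin
  have hCutRed : S_CutRed := CutRed
  have hEnInt : S_EnInt := EnInt
  have hClInt : S_ClInt := ClInt hPut
  have hWeakT : S_WeakT := WeakT hPut hClInt hSupp hWdWin hBMall
  have hWeakQ : S_WeakQ := WeakQ hPut hClInt hSupp hWdWin hBMall
  have hIdentity : S_Identity := Identity hWeakT hWeakQ hEnInt hBMall
  have hJensen : S_Jensen := Jensen hWinFacts hOverlap
  have hCounts : S_Counts := Counts
  have hKerW3 : S_KerW3 := KerW3 hWinFacts hWdWin hPut hClInt hSupp hBMall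
  have hKerW4 : S_KerW4 := KerW4 hWinFacts hWdWin hPut hClInt hSupp hBMall
  have hLin3 : S_Lin3 := Lin3 hKerW3 hOneRough hTwoRough hCounts hWdWin hBMall
  have hLin4 : S_Lin4 := Lin4 hKerW4 hRoughQ hCounts hWdWin hBMall
  have hQuadSplit : S_QuadSplit := QuadSplit hBMall
  have hDiagT : S_DiagT := DiagT hJensen hPut hClInt hSupp hWinFacts hWdWin hBMall
  have hKap : S_Kap := Kap
  have hSupp2 : S_Supp2 := Supp2
  have hPairGlob : S_PairGlob := PairGlob hPairSum hKap hSupp2 hWdWin hBMall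
  have hDiagGlob : S_DiagGlob := DiagGlob hSupp2 hWdWin hCountK hBMall
  have hKerBd : S_KerBd := KerBd
  have hTTb : S_TTb := TTb hPairGlob hKerBd hJensen hCounts hWinFacts hBMall
  have hTQb : S_TQb := TQb hPairGlob hKerBd hJensen hCounts hWinFacts hSupp2 hOverlap hBMall
  have hQPb : S_QPb := QPb hPairGlob hKerBd hJensen hCounts hWinFacts hBMall
  have hGQb : S_GQb := GQb hQPb hDiagGlob hKerBd hJensen hCounts hWinFacts hBMall hKap
  have hPPb : S_PPb := PPb hPairGlob hDiagGlob hKerBd hCounts hBMall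
  have hKerQ : S_KerQ := KerQ
  have hQ4pt : S_Q4pt := Q4pt
  have hQQint : S_QQint := QQint hQ4pt hKerQ hPut hClInt hSupp2 hWinFacts hWdWin hBMall
  have hDpt : S_Dpt := Dpt hKerQ hSupp2 hWinFacts hOverlap hWdWin
  have hE123 : S_E123 := E123 hKerQ hCounts hCountK hWdWin
  have hQ4b : S_Q4b := Q4b hQ4pt hQQint hDpt hE123 hDiagGlob hKerQ hJensen hCounts hWinFacts hWdWin hBMall
  have hTwoWin : S_TwoWin := TwoWin
  have hVVup : S_VVup := VVup hJensen hCounts hWinFacts hWdWin hBMall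
  have hVVlow : S_VVlow := VVlow hTwoWin hCounts hCountK hOverlap hWinFacts hWdWin
  have hMains : S_Mains := Mains hMainUpper hMainLower hCounts hCountK hOverlap hWdWin
  have hPoinc : S_Poinc := Poinc
  have hDX : S_DX := DX hWinFacts hWdWin hBMall
  have hGap : S_Gap := Gap hPoinc hDX hPPb hGQb hJensen hAdj hOverlap hWinFacts hWdWin hBMall
  have hCrude3 : S_Crude3 := Crude3
  have hCrude : S_Crude := Crude hCrude3 hPut hEnInt
  have hEsy : S_Esy := Esy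
  have hCells : S_Cells := Cells hOverlap
  have hPt : S_Pt := Pt hEsy hCells hCounts hWinFacts hWdWin
  have hIneq : S_Ineq := Ineq hIdentity hLin3 hLin4 hQuadSplit hDiagT hQ4b hTTb hTQb hQPb hQQint hVVup hVVlow hMains
  have hAsy : S_Asy := Asy
  exact Final hIneq hAsy hPt hGap hCrude hCutRed hEnInt hMains hWdWin

end Pool.Agent.Lib.MP_5db8e2_mp
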