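import Pool.Agent.Lib.MP_5db8e2_mp.Defs
import Pool.Agent.Lib.MP_5db8e2_mp.LB.Mg

/-!
# One window: weighted averages, rough parts, counting functions
-/

set_option autoImplicit false

open MeasureTheory Function Finset
open scoped Classical

namespace Pool.Agent.Lib.MP_5db8e2_mp

variable {N : ℕ}

/-- Number of particles of `A` in `Z`. -/
noncomputable def cnt (Z : Set R3) (A : Finset (Fin N)) (x : Fin N → R3) : ℕ :=
  (A.filter (fun m => x m ∈ Z)).card

/-- Indicator function of a set of positions. -/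
noncomputable def ind (Z : Set R3) (c : R3) : ℝ := Z.indicator (fun _ => (1 : ℝ)) c

/-- A window: probability density `g ≤ 1/m` supported in `Q`, `Q` of volume at most `8 m`,
`B ⊇ Q` a bigger set. -/
structure Wd (ν : Measure R3) (m : ℝ) (g : R3 → ℝ) (Q B : Set R3) : Prop where
  hm : 1 ≤ m
  g_meas : Measurable g
  g_nonneg : ∀ c, 0 ≤ g c
  g_le : ∀ c, g c ≤ 1 / m
  g_supp : ∀ c, g c ≠ 0 → c ∈ Q
  g_int : ∫ c, g c ∂ν = 1
  Q_meas : MeasurableSet Q
  B_meas : MeasurableSet B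
  Q_sub : Q ⊆ B
  Q_vol : ν.real Q ≤ 8 * m

/-- Weighted average over the variables in `A`. -/
noncomputable def av (ν : Measure R3) (g : R3 → ℝ) (A : Finset (Fin N)) (f : (Fin N → R3) → ℝ) :
    (Fin N → R3) → ℝ := Mg (wm ν g) A f

/-- Rough part in the variable `j`. -/
noncomputable def rough (ν : Measure R3) (g : R3 → ℝ) (j : Fin N) (f : (Fin N → R3) → ℝ)
    (x : Fin N → R3) : ℝ := f x - av ν g {j} f x

/-- The measure `ν^N`. -/
noncomputable abbrev pin (ν : Measure R3) (N : ℕ) : Measure (Fin N → R3) :=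
  Measure.pi (fun _ : Fin N => ν)

/-- Total roughness in the window. -/
noncomputable def Dw (ν : Measure R3) (g : R3 → ℝ) (Q : Set R3) (f : (Fin N → R3) → ℝ) : ℝ :=
  ∑ j, ∫ x, ind Q (x j) * rough ν g j f x ^ 2 ∂pin ν N

/-- Mean number of particles in the window. -/
noncomputable def Nw (ν : Measure R3) (Q : Set R3) (f : (Fin N → R3) → ℝ) : ℝ :=
  ∫ x, (cnt Q Finset.univ x : ℝ) * f x ^ 2 ∂pin ν N

section

variable {Z : Set R3} {ν : Measure R3} {m : ℝ} {g : R3 → ℝ} {Q B : Set R3}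
  {f w : (Fin N → R3) → ℝ} {A : Finset (Fin N)}

theorem ind_nonneg (Z : Set R3) (c : R3) : 0 ≤ ind Z c := by
  unfold ind; by_cases h : c ∈ Z <;> simp [h]

theorem ind_le_one (Z : Set R3) (c : R3) : ind Z c ≤ 1 := by
  unfold ind; by_cases h : c ∈ Z <;> simp [h]

theorem ind_of_mem {c : R3} (h : c ∈ Z) : ind Z c = 1 := by simp [ind, h]

theorem ind_of_notMem {c : R3} (h : c ∉ Z) : ind Z c = 0 := by simp [ind, h]

theorem BM_ind (hZ : MeasurableSet Z) : BM (ind Z) := BM.ind hZ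

theorem BM_ind_at (hZ : MeasurableSet Z) (j : Fin N) : BM (fun x : Fin N → R3 => ind Z (x j)) :=
  (BM_ind hZ).comp (measurable_pi_apply j)

theorem cnt_eq_sum (Z : Set R3) (A : Finset (Fin N)) (x : Fin N → R3) :
    (cnt Z A x : ℝ) = ∑ j ∈ A, ind Z (x j) := by
  simp [cnt, ind, Set.indicator_apply]

theorem cnt_le (Z : Set R3) (A : Finset (Fin N)) (x : Fin N → R3) : cnt Z A x ≤ A.card :=
  Finset.card_filter_le _ _

theorem BM_cnt (hZ : MeasurableSet Z) (A : Finset (Fin N)) :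
    BM (fun x : Fin N → R3 => (cnt Z A x : ℝ)) := by
  simp only [cnt_eq_sum]
  exact BM.sum _ fun j _ => BM_ind_at hZ j

/-- Any function of the counting function is bounded and measurable. -/
theorem BM_cnt_comp (hZ : MeasurableSet Z) (A : Finset (Fin N)) (F : ℕ → ℝ) :
    BM (fun x : Fin N → R3 => F (cnt Z A x)) := by
  have hmeas : Measurable (fun x : Fin N → R3 => cnt Z A x) := by
    have h := (BM_cnt (N := N) hZ A).1
    have : (fun x : Fin N → R3 => cnt Z A x) = fun x => ⌊(cnt Z A x : ℝ)⌋₊ := by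
      ext1 x; simp
    rw [this]
    exact Nat.measurable_floor.comp h
  refine ⟨(measurable_of_countable F).comp hmeas,
    ∑ k ∈ Finset.range (A.card + 1), |F k|, fun x => ?_⟩
  exact Finset.single_le_sum (f := fun k => |F k|) (fun _ _ => abs_nonneg _)
    (Finset.mem_range.2 (Nat.lt_succ_of_le (cnt_le Z A x)))

theorem cnt_dep (Z : Set R3) (A : Finset (Fin N)) :
    DependsOn (fun x : Fin N → R3 => cnt Z A x) (A : Set (Fin N)) := by
  intro x y hxy
  show (A.filter (fun m => x m ∈ Z)).card = (A.filter (fun m => y m ∈ Z)).card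
  have : A.filter (fun m => x m ∈ Z) = A.filter (fun m => y m ∈ Z) :=
    Finset.filter_congr fun j hj => by rw [hxy j (by simpa using hj)]
  rw [this]

theorem Wd.bm (h : Wd ν m g Q B) : BM g :=
  ⟨h.g_meas, 1 / m, fun c => by rw [abs_of_nonneg (h.g_nonneg c)]; exact h.g_le c⟩

theorem Wd.prob [IsFiniteMeasure ν] (h : Wd ν m g Q B) : IsProbabilityMeasure (wm ν g) :=
  wm_prob h.bm h.g_nonneg h.g_int

theorem Wd.g_le_ind (h : Wd ν m g Q B) (c : R3) : g c ≤ 1 / m * ind Q c := by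
  by_cases hc : c ∈ Q
  · simpa [ind, hc] using h.g_le c
  · have : g c = 0 := by
      by_contra hne
      exact hc (h.g_supp c hne)
    simp [ind, hc, this]

variable [IsFiniteMeasure ν]

theorem av_bm (h : Wd ν m g Q B) (hf : BM f) : BM (av ν g A f) := by
  have := h.prob
  exact Mg_bm hf

theorem rough_bm (h : Wd ν m g Q B) (hf : BM f) (j : Fin N) : BM (rough ν g j f) :=
  hf.sub (av_bm h hf)

theorem av_eq (h : Wd ν m g Q B) (hf : BM f) :
    av ν g A f = Mg ν A (fun x => (∏ j ∈ A, g (x j)) * f x) :=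
  Mg_wm h.bm h.g_nonneg h.g_int hf

theorem av_sq_le (h : Wd ν m g Q B) (hf : BM f) (x) :
    (av ν g A f x) ^ 2 ≤ av ν g A (fun x => f x ^ 2) x := by
  have := h.prob
  exact Mg_sq_le hf x

theorem BM_prod_ind (hQ : MeasurableSet Q) (A : Finset (Fin N)) :
    BM (fun x : Fin N → R3 => ∏ j ∈ A, ind Q (x j)) :=
  BM.prod A fun j _ => BM_ind_at hQ j

/-- A weighted average of a nonnegative function is at most `m^{-|A|}` times the integral over
`Q^A`. -/
theorem av_le (h : Wd ν m g Q B) (hf : BM f) (h0 : ∀ x, 0 ≤ f x) (x) :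
    av ν g A f x ≤ (1 / m) ^ A.card * Mg ν A (fun x => (∏ j ∈ A, ind Q (x j)) * f x) x := by
  have hgi : ∀ i : Fin N, BM (fun x : Fin N → R3 => g (x i)) := fun i =>
    h.bm.comp (measurable_pi_apply i)
  have e : (fun x => (1 / m) ^ A.card * Mg ν A (fun x => (∏ j ∈ A, ind Q (x j)) * f x) x)
      = Mg ν A (fun x => (1 / m) ^ A.card * ((∏ j ∈ A, ind Q (x j)) * f x)) := by
    rw [Mg_const_mul]
  rw [av_eq h hf]
  rw [show (1 / m) ^ A.card * Mg ν A (fun x => (∏ j ∈ A, ind Q (x j)) * f x) x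
      = Mg ν A (fun x => (1 / m) ^ A.card * ((∏ j ∈ A, ind Q (x j)) * f x)) x from congrFun e x]
  apply Mg_mono ((BM.prod A fun j _ => hgi j).mul hf)
    (((BM_prod_ind h.Q_meas A).mul hf).const_mul _)
  intro x
  rw [← mul_assoc]
  apply mul_le_mul_of_nonneg_right _ (h0 x)
  calc ∏ j ∈ A, g (x j) ≤ ∏ j ∈ A, (1 / m * ind Q (x j)) :=
        Finset.prod_le_prod (fun j _ => h.g_nonneg _) fun j _ => h.g_le_ind _
    _ = (1 / m) ^ A.card * ∏ j ∈ A, ind Q (x j) := by
        rw [Finset.prod_mul_distrib, Finset.prod_const]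

/-- Replace the average of a nonnegative function by the function at the price `m^{-|A|}`. -/
theorem out_av_le (h : Wd ν m g Q B) (hf : BM f) (hf0 : ∀ x, 0 ≤ f x) (hw : BM w)
    (hw0 : ∀ x, 0 ≤ w x) (hwd : DependsOn w ((A : Set (Fin N))ᶜ)) (x0 : Fin N → R3) :
    out ν x0 A (fun x => w x * av ν g A f x)
      ≤ (1 / m) ^ A.card * ∫ x, w x * ((∏ j ∈ A, ind Q (x j)) * f x) ∂pin ν N := by
  have hP : BM (fun x : Fin N → R3 => (∏ j ∈ A, ind Q (x j)) * f x) :=
    (BM_prod_ind h.Q_meas A).mul hf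
  have h1 : ∀ x, w x * av ν g A f x
      ≤ w x * ((1 / m) ^ A.card * Mg ν A (fun x => (∏ j ∈ A, ind Q (x j)) * f x) x) :=
    fun x => mul_le_mul_of_nonneg_left (av_le h hf hf0 x) (hw0 x)
  refine (out_mono (hw.mul (av_bm h hf)) (hw.mul ((Mg_bm hP).const_mul _)) x0 h1).trans ?_
  apply le_of_eq
  rw [integral_eq_out (hw.mul hP) x0 A, Mg_mul_left _ hwd, out, out, ← smul_eq_mul,
    smul_eq_mul, ← congrFun (Mg_const_mul (lam := ν) (A := Aᶜ) ((1 / m) ^ A.card)
      (fun x => w x * Mg ν A (fun x => (∏ j ∈ A, ind Q (x j)) * f x) x)) x0]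
  congr 1
  ext1 x
  ring

/-- The basic estimate: replace the average by `f` at the price `m^{-|A|}`. -/
theorem out_av_sq_le (h : Wd ν m g Q B) (hf : BM f) (hw : BM w) (hw0 : ∀ x, 0 ≤ w x)
    (hwd : DependsOn w ((A : Set (Fin N))ᶜ)) (x0 : Fin N → R3) :
    out ν x0 A (fun x => w x * (av ν g A f x) ^ 2)
      ≤ (1 / m) ^ A.card * ∫ x, w x * ((∏ j ∈ A, ind Q (x j)) * f x ^ 2) ∂pin ν N := by
  have hP : BM (fun x : Fin N → R3 => (∏ j ∈ A, ind Q (x j)) * f x ^ 2) :=
    (BM_prod_ind h.Q_meas A).mul (hf.pow 2)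
  have h1 : ∀ x, w x * (av ν g A f x) ^ 2
      ≤ w x * ((1 / m) ^ A.card * Mg ν A (fun x => (∏ j ∈ A, ind Q (x j)) * f x ^ 2) x) :=
    fun x => mul_le_mul_of_nonneg_left
      ((av_sq_le h hf x).trans (av_le h (hf.pow 2) (fun _ => sq_nonneg _) x)) (hw0 x)
  refine (out_mono (hw.mul ((av_bm h hf).pow 2)) (hw.mul ((Mg_bm hP).const_mul _)) x0 h1).trans ?_
  apply le_of_eq
  rw [integral_eq_out (hw.mul hP) x0 A, Mg_mul_left _ hwd, out, out, ← smul_eq_mul,
    smul_eq_mul, ← congrFun (Mg_const_mul (lam := ν) (A := Aᶜ) ((1 / m) ^ A.card)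
      (fun x => w x * Mg ν A (fun x => (∏ j ∈ A, ind Q (x j)) * f x ^ 2) x)) x0]
  congr 1
  ext1 x
  ring

theorem av_zero_rough (h : Wd ν m g Q B) (hf : BM f) (j : Fin N) :
    av ν g {j} (rough ν g j f) = fun _ => 0 := by
  have hp := h.prob
  ext1 x
  have h1 : av ν g {j} (rough ν g j f)
      = fun x => av ν g {j} f x - av ν g {j} (av ν g {j} f) x := Mg_sub hf (av_bm h hf)
  have h2 : av ν g {j} (av ν g {j} f) = av ν g {j} f := Mg_of_dep (Mg_dep f)
  rw [h1, h2]
  simp

theorem av_sub (h : Wd ν m g Q B) {f' : (Fin N → R3) → ℝ} (hf : BM f) (hf' : BM f') :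
    av ν g A (fun x => f x - f' x) = fun x => av ν g A f x - av ν g A f' x := by
  have := h.prob
  exact Mg_sub hf hf'

theorem av_comm (h : Wd ν m g Q B) {A' : Finset (Fin N)} (hf : BM f) (hd : Disjoint A A') :
    av ν g A (av ν g A' f) = av ν g A' (av ν g A f) := by
  have := h.prob
  exact Mg_comm hf hd

theorem av_union (h : Wd ν m g Q B) {A' : Finset (Fin N)} (hf : BM f) (hd : Disjoint A A') :
    av ν g (A ∪ A') f = av ν g A (av ν g A' f) := by
  have := h.prob
  exact Mg_union hf hd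

theorem av_dep (f : (Fin N → R3) → ℝ) : DependsOn (av ν g A f) ((A : Set (Fin N))ᶜ) := Mg_dep f

theorem av_of_dep (h : Wd ν m g Q B) (hf : DependsOn f ((A : Set (Fin N))ᶜ)) :
    av ν g A f = f := by
  have := h.prob
  exact Mg_of_dep hf

/-- Averages and rough parts in different variables commute. -/
theorem rough_av (h : Wd ν m g Q B) (hf : BM f) {j : Fin N} (hj : j ∉ A) :
    rough ν g j (av ν g A f) = av ν g A (rough ν g j f) := by
  have hd : Disjoint {j} A := Finset.disjoint_singleton_left.mpr hj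
  ext1 x
  rw [rough, show rough ν g j f = fun x => f x - av ν g {j} f x from rfl,
    av_sub h hf (av_bm h hf), av_comm h hf hd]

/-- Variance identity. -/
theorem av_var (h : Wd ν m g Q B) (hf : BM f) (x) :
    av ν g A (fun y => (f y - av ν g A f y) ^ 2) x
      = av ν g A (fun y => f y ^ 2) x - (av ν g A f x) ^ 2 := by
  have hP := av_bm (A := A) h hf
  have e : (fun y => (f y - av ν g A f y) ^ 2)
      = fun y => (f y ^ 2 - 2 * (av ν g A f y * f y)) - - (av ν g A f y) ^ 2 := by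
    ext1 y; ring
  have hp := h.prob
  have h1 : av ν g A (fun y => av ν g A f y * f y) = fun y => av ν g A f y * av ν g A f y :=
    Mg_mul_left f (av_dep f)
  have h2 : av ν g A (fun y => - (av ν g A f y) ^ 2) = fun y => - (av ν g A f y) ^ 2 := by
    apply av_of_dep h
    intro y z hyz
    have := av_dep (ν := ν) (g := g) f hyz
    simp only [this]
  rw [e, av_sub h ((hf.pow 2).sub ((hP.mul hf).const_mul 2)) (hP.pow 2).neg, h2,
    av_sub h (hf.pow 2) ((hP.mul hf).const_mul 2)]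
  simp only []
  rw [show av ν g A (fun y => 2 * (av ν g A f y * f y))
    = fun y => 2 * av ν g A (fun y => av ν g A f y * f y) y from Mg_const_mul _ _, h1]
  ring

end

end Pool.Agent.Lib.MP_5db8e2_mp
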