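import Pool.Agent.Lib.MP_5db8e2_mp.LB.Spec1

/-!
# Counting the k-subsets of the particles in a window
-/

set_option autoImplicit false

open MeasureTheory Function Finset
open scoped Classical

namespace Pool.Agent.Lib.MP_5db8e2_mp

theorem CountK : S_CountK := by
  intro N Q S k x
  have hsub : powersetCard k (S.filter (fun m => x m ∈ Q)) ⊆ powersetCard k S :=
    Finset.powersetCard_mono (Finset.filter_subset _ _)
  rw [← Finset.sum_subset hsub]
  · have h1 : ∀ A ∈ powersetCard k (S.filter (fun m => x m ∈ Q)),
        ∏ j ∈ A, ind Q (x j) = 1 := by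
      intro A hA
      apply Finset.prod_eq_one
      intro j hj
      have h2 := (Finset.mem_powersetCard.1 hA).1 hj
      exact ind_of_mem (Finset.mem_filter.1 h2).2
    rw [Finset.sum_congr rfl h1, Finset.sum_const, Finset.card_powersetCard, nsmul_eq_mul, mul_one]
    rfl
  · intro A hA hA'
    have h2 : ∃ j ∈ A, x j ∉ Q := by
      by_contra hcon
      push Not at hcon
      apply hA'
      rw [Finset.mem_powersetCard] at hA ⊢
      exact ⟨fun j hj => Finset.mem_filter.2 ⟨hA.1 hj, hcon j hj⟩, hA.2⟩
    obtain ⟨j, hj, hjQ⟩ := h2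
    exact Finset.prod_eq_zero hj (ind_of_notMem hjQ)

end Pool.Agent.Lib.MP_5db8e2_mp
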