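import Pool.Agent.Lib.MP_5db8e2_mp.LB.Spec8
import Pool.Agent.Lib.MP_5db8e2_mp.LB.EfronStein

/-!
# The total roughness is controlled by the kinetic square
-/

set_option autoImplicit false

open MeasureTheory Function Finset
open scoped Classical

namespace Pool.Agent.Lib.MP_5db8e2_mp

theorem gap_restr (p : Par) (Z : Set R3) (hZm : MeasurableSet Z) (hZ : Z ⊆ Om p.L) (h : R3 → ℝ) :
    ∫ t, ind Z t * h t ∂p.nu = ∫ t in Z, h t := by
  have e : (fun t => ind Z t * h t) = Z.indicator h := by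
    ext1 t; by_cases ht : t ∈ Z <;> simp [ind, ht]
  rw [e, integral_indicator hZm, Par.nu, Measure.restrict_restrict hZm, Set.inter_eq_left.2 hZ]

theorem gap_full (p : Par) (Z : Set R3) (hZ : Z ⊆ Om p.L) (h : R3 → ℝ) (hh : ∀ t, h t ≠ 0 → t ∈ Z) :
    ∫ t, h t ∂p.nu = ∫ t, h t := by
  rw [Par.nu]
  apply setIntegral_eq_integral_of_forall_compl_eq_zero
  intro t ht
  by_contra hne
  exact ht (hZ (hh t hne))

/-- One window, one particle. -/
theorem gap_one (hWd : S_WdWin) (p : Par) (hp : p.OK) (CP : ℝ)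
    (hP : ∀ (s : ℝ) (_ : 1 ≤ s) (a : Fin 3 → ℤ) (g f : R3 → ℝ) (_ : Measurable g)
      (_ : ∀ c, 0 ≤ g c) (_ : ∀ c, g c ≤ 1 / s ^ 3) (_ : ∀ c, g c ≠ 0 → c ∈ Qc s a)
      (_ : ∫ c, g c = 1) (_ : ContDiff ℝ 1 f),
      ∫ c in Qc s a, (f c - ∫ t, g t * f t) ^ 2
        ≤ CP * s ^ 2 * ∫ c in Qc s a, ∑ k, fderiv ℝ f c (Pi.single k 1) ^ 2)
    (a : Fin 3 → ℤ) (ha : a ∈ p.win) (i : Fin p.N)
    (F : (Fin p.N → R3) → ℝ) (hF : BM F) (dF : Fin 3 → (Fin p.N → R3) → ℝ) (hdF : ∀ k, BM (dF k))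
    (hC1 : ∀ x, ContDiff ℝ 1 (fun t => F (update x i t)))
    (hder : ∀ x t k, fderiv ℝ (fun t => F (update x i t)) t (Pi.single k 1)
      = dF k (update x i t)) :
    ∫ x, ind (Qc p.s a) (x i) * rough p.nu (p.gd a) i F x ^ 2 ∂pin p.nu p.N
      ≤ CP * p.s ^ 2 * ∫ x, ind (Qc p.s a) (x i) * ∑ k, dF k x ^ 2 ∂pin p.nu p.N := by
  obtain ⟨hw, hsub⟩ := hWd p hp a ha
  have hsum : BM (fun x => ∑ k, dF k x ^ 2) := BM.sum _ fun k _ => (hdF k).pow 2
  have hb1 : BM (fun x => ind (Qc p.s a) (x i) * rough p.nu (p.gd a) i F x ^ 2) :=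
    (BM_ind_at hw.Q_meas i).mul ((rough_bm hw hF i).pow 2)
  have hb2 : BM (fun x => ind (Qc p.s a) (x i) * ∑ k, dF k x ^ 2) :=
    (BM_ind_at hw.Q_meas i).mul hsum
  rw [← integral_const_mul, integral_eq_out hb1 0 {i}, integral_eq_out (hb2.const_mul _) 0 {i}]
  refine out_mono (Mg_bm hb1) (Mg_bm (hb2.const_mul _)) 0 fun x => ?_
  rw [Mg_const_mul, Mg_singleton, Mg_singleton]
  -- the average
  have hav : ∀ t, av p.nu (p.gd a) {i} F (update x i t) = ∫ u, p.gd a u * F (update x i u) := by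
    intro t
    have := hw.prob
    rw [av, Mg_singleton]
    simp only [update_idem]
    rw [integral_wm hw.g_meas hw.g_nonneg]
    exact gap_full p (Qc p.s a) hsub _ fun u hu => hw.g_supp u (left_ne_zero_of_mul hu)
  have e1 : (fun t => ind (Qc p.s a) (update x i t i) * rough p.nu (p.gd a) i F (update x i t) ^ 2)
      = fun t => ind (Qc p.s a) t * (F (update x i t) - ∫ u, p.gd a u * F (update x i u)) ^ 2 := by
    ext1 t
    rw [rough, hav, update_self]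
  have e2 : (fun t => ind (Qc p.s a) (update x i t i) * ∑ k, dF k (update x i t) ^ 2)
      = fun t => ind (Qc p.s a) t * ∑ k, fderiv ℝ (fun t => F (update x i t)) t (Pi.single k 1) ^ 2 := by
    ext1 t
    rw [update_self]
    congr 1
    refine Finset.sum_congr rfl fun k _ => ?_
    rw [hder]
  simp only []
  rw [e1, e2, gap_restr p _ hw.Q_meas hsub, gap_restr p _ hw.Q_meas hsub]
  refine hP p.s hp.hs a (p.gd a) (fun t => F (update x i t)) hw.g_meas hw.g_nonneg hw.g_le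
    hw.g_supp ?_ (hC1 x)
  rw [← gap_full p (Qc p.s a) hsub _ hw.g_supp]
  exact hw.g_int

/-- Sum over the windows. -/
theorem gap_win (hO : S_Overlap) (hWd : S_WdWin) (p : Par) (hp : p.OK) (i : Fin p.N)
    (H : (Fin p.N → R3) → ℝ) (hH : BM H) (h0 : ∀ x, 0 ≤ H x) :
    ∑ a ∈ p.win, ∫ x, ind (Qc p.s a) (x i) * H x ∂pin p.nu p.N
      ≤ 27 * ∫ x, H x ∂pin p.nu p.N := by
  have hb : ∀ a ∈ p.win, BM (fun x : Fin p.N → R3 => ind (Qc p.s a) (x i) * H x) := fun a ha =>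
    (BM_ind_at (hWd p hp a ha).1.Q_meas i).mul hH
  rw [← integral_finsetSum _ fun a ha => (hb a ha).integrable _, ← integral_const_mul]
  refine integral_mono ((BM.sum _ hb).integrable _) ((hH.const_mul _).integrable _) fun x => ?_
  simp only []
  rw [← Finset.sum_mul]
  exact mul_le_mul_of_nonneg_right ((hO p hp).1 (x i)) (h0 x)

/-- Splitting of the rough part. -/
theorem gap_split (hA : S_Adj) (hWd : S_WdWin) (p : Par) (hp : p.OK) (a : Fin 3 → ℤ)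
    (ha : a ∈ p.win) (i : Fin p.N) (Ψ S : (Fin p.N → R3) → ℝ) (hΨ : BM Ψ) (hS : BM S) :
    ∫ x, ind (Qc p.s a) (x i) * rough p.nu (p.gd a) i Ψ x ^ 2 ∂pin p.nu p.N
      ≤ 2 * ∫ x, ind (Qc p.s a) (x i) * rough p.nu (p.gd a) i (fun y => Ψ y + S y) x ^ 2
          ∂pin p.nu p.N
        + 36 * ∫ x, ind (Qc p.s a) (x i) * S x ^ 2 ∂pin p.nu p.N := by
  obtain ⟨hw, -⟩ := hWd p hp a ha
  have := hw.prob
  have hF : BM (fun y => Ψ y + S y) := hΨ.add hS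
  have hI := BM_ind_at (N := p.N) hw.Q_meas i
  have e1 : ∀ x, rough p.nu (p.gd a) i (fun y => Ψ y + S y) x
      = rough p.nu (p.gd a) i Ψ x + rough p.nu (p.gd a) i S x := by
    intro x
    simp only [rough, av]
    rw [Mg_add hΨ hS]
    ring
  have h1 := (hA p.nu (p.s ^ 3) (p.gd a) (Qc p.s a) (Bc p.s a) hw 2 i S S (fun _ => 1) hS hS
    (BM.const 1) (fun _ => zero_le_one) (fun _ _ _ => rfl)).2.2.2.2
  have e2 : op p.nu (p.gd a) 2 i S = rough p.nu (p.gd a) i S := by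
    have h20 : (2 : Fin 3) ≠ 0 := by decide
    have h21 : (2 : Fin 3) ≠ 1 := by decide
    simp only [op, if_neg h20, if_neg h21]
  rw [e2] at h1
  simp only [one_mul] at h1
  have h2 : ∫ x, ind (Qc p.s a) (x i) * rough p.nu (p.gd a) i Ψ x ^ 2 ∂pin p.nu p.N
      ≤ ∫ x, (2 * (ind (Qc p.s a) (x i) *
          rough p.nu (p.gd a) i (fun y => Ψ y + S y) x ^ 2)
        + 2 * (ind (Qc p.s a) (x i) * rough p.nu (p.gd a) i S x ^ 2)) ∂pin p.nu p.N := by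
    refine integral_mono ((hI.mul ((rough_bm hw hΨ i).pow 2)).integrable _)
      ((((hI.mul ((rough_bm hw hF i).pow 2)).const_mul 2).add
        ((hI.mul ((rough_bm hw hS i).pow 2)).const_mul 2)).integrable _) fun x => ?_
    simp only []
    rw [e1 x]
    have h0 := ind_nonneg (Qc p.s a) (x i)
    nlinarith [mul_nonneg h0 (sq_nonneg (rough p.nu (p.gd a) i Ψ x
      + 2 * rough p.nu (p.gd a) i S x))]
  rw [integral_add (((hI.mul ((rough_bm hw hF i).pow 2)).const_mul 2).integrable _)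
    (((hI.mul ((rough_bm hw hS i).pow 2)).const_mul 2).integrable _), integral_const_mul,
    integral_const_mul] at h2
  linarith

theorem Gap (hP : S_Poinc) (hD : S_DX) (hPP : S_PPb) (hGQ : S_GQb) (hJ : S_Jensen) (hA : S_Adj)
    (hO : S_Overlap) (hW : S_WinFacts) (hWd : S_WdWin) (hBM : S_BMall) : S_Gap := by
  intro K R
  obtain ⟨CP, hCP, hPo⟩ := hP
  obtain ⟨CJ, hCJ, hJe⟩ := hJ
  obtain ⟨CW, hCW, hWf⟩ := hW
  obtain ⟨C1, hC1, hPPb⟩ := hPP K R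
  obtain ⟨C2, hC2, hGQb⟩ := hGQ K R
  refine ⟨162 * CP + 162 * CP * C2 + 54 * CP * CJ * C1 + 972 * C1, by positivity, ?_⟩
  intro V b r r4 W QQ c hc p hp hL Ψ hΨ1 hΨc
  have hs : (1 : ℝ) ≤ p.s := hp.hs
  have hs0 : (0 : ℝ) < p.s := by linarith
  have hΨ : BM Ψ := by
    refine ⟨hΨ1.continuous.measurable, ?_⟩
    obtain ⟨C, hC⟩ := hΨc.exists_bound_of_continuous hΨ1.continuous
    exact ⟨C, fun x => by simpa using hC x⟩
  have hbm := fun A => hBM V b K R r r4 W QQ c hc p hp Ψ hΨ A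
  have hgT : ∀ T i a, BM (gT c.φ T i a : (Fin p.N → R3) → ℝ) := fun T i a => (hbm T).1 i a
  have hgQ : ∀ Q i a, BM (gQ c.g Q i a : (Fin p.N → R3) → ℝ) := fun Q i a => (hbm Q).2.1 i a
  have hφ : ∀ T, BM (fun x : Fin p.N → R3 => c.φ (pick 3 T x)) := fun T => (hbm T).2.2.2.1
  have hv3 : ∀ T, BM (p.v3 Ψ T) := fun T => (hbm T).2.2.2.2.2.2.2.2.2.2.2.2.2.1
  have hv4 : ∀ T, BM (p.v4 Ψ T) := fun T => (hbm T).2.2.2.2.2.2.2.2.2.2.2.2.2.2.1
  have hpd : ∀ i a, BM (pd Ψ i a) := fun i a =>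
    (hbm ∅).2.2.2.2.2.2.2.2.2.2.2.2.2.2.2 hΨ1 hΨc i a
  have hS : ∀ i, BM (p.Si c Ψ i) := fun i => (hD V b K R r r4 W QQ c hc p hp Ψ hΨ1 hΨc i).1
  have hdX : ∀ i k, BM (p.dX c Ψ i k) := fun i =>
    (hD V b K R r r4 W QQ c hc p hp Ψ hΨ1 hΨc i).2.1
  have hdv : ∀ T k, BM (p.dv3 Ψ T k) := by
    intro T k
    by_cases hN : Nonempty (Fin p.N)
    · obtain ⟨i⟩ := hN
      exact (hD V b K R r r4 W QQ c hc p hp Ψ hΨ1 hΨc i).2.2.1 T k
    · have hE : IsEmpty (Fin p.N) := not_nonempty_iff.1 hN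
      refine ⟨Subsingleton.measurable, |p.dv3 Ψ T k 0|, fun y => ?_⟩
      rw [Subsingleton.elim y 0]
  set X : ℝ := (p.mu ^ 2 + r ^ 2 * p.mu ^ 3 + r ^ 4 * p.mu ^ 4) * p.Nn Ψ
    + r ^ 2 * p.mu ^ 3 * p.M * p.D Ψ with hX
  set Y : ℝ := (p.mu ^ 3 + r4 ^ 2 * p.mu ^ 6 + r4 ^ 2 * p.mu ^ 5 + r4 * p.mu ^ 4) * p.Nn Ψ
    + r4 * p.mu ^ 4 * p.M ^ 2 * p.D Ψ with hY
  have hgoal : (162 * CP + 162 * CP * C2 + 54 * CP * CJ * C1 + 972 * C1) * (p.s ^ 2 * p.RR c Ψ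
      + (p.s ^ 2 * (p.mu ^ 3 + r4 ^ 2 * p.mu ^ 6 + r4 ^ 2 * p.mu ^ 5 + r4 * p.mu ^ 4)
        + p.mu ^ 2 + r ^ 2 * p.mu ^ 3 + r ^ 4 * p.mu ^ 4) * p.Nn Ψ
      + (p.s ^ 2 * (r4 * p.mu ^ 4 * p.M ^ 2) + r ^ 2 * p.mu ^ 3 * p.M) * p.D Ψ)
      = (162 * CP + 162 * CP * C2 + 54 * CP * CJ * C1 + 972 * C1) *
        (p.s ^ 2 * p.RR c Ψ + p.s ^ 2 * Y + X) := by
    rw [hX, hY]; ring
  rw [hgoal]
  -- nonnegativity
  have hD0 : 0 ≤ p.D Ψ := by
    unfold Par.D Dw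
    refine Finset.sum_nonneg fun a _ => Finset.sum_nonneg fun j _ => integral_nonneg fun x => ?_
    exact mul_nonneg (ind_nonneg _ _) (sq_nonneg _)
  have hN0 : 0 ≤ p.Nn Ψ := by
    unfold Par.Nn Nw
    refine Finset.sum_nonneg fun a _ => integral_nonneg fun x => ?_
    exact mul_nonneg (Nat.cast_nonneg _) (sq_nonneg _)
  have hR0 : 0 ≤ p.RR c Ψ := by
    unfold Par.RR
    exact integral_nonneg fun x => Finset.sum_nonneg fun i _ => Finset.sum_nonneg fun a _ =>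
      sq_nonneg _
  have hmu : 0 ≤ p.mu := by
    unfold Par.mu
    have := hp.hM
    positivity
  have hM0 : 0 ≤ p.M := by have := hp.hM; linarith
  have hr0 : 0 ≤ r := by have := hc.hr; linarith
  have hr40 : 0 ≤ r4 := by have := hc.hr4; linarith
  have hX0 : 0 ≤ X := by positivity
  have hY0 : 0 ≤ Y := by positivity
  -- the functions
  have hA1 : ∀ i k, BM (fun x => pd Ψ i k x - p.Gam c Ψ i k x) := by
    intro i k
    refine (hpd i k).sub ?_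
    unfold Par.Gam
    exact ((BM.sum _ fun T _ => (hgT T i k).mul (hv3 T)).neg).sub
      (BM.sum _ fun Q _ => (hgQ Q i k).mul (hv4 Q))
  have hB1 : ∀ i k, BM (fun x => ∑ Q ∈ P4 p.N, gQ c.g Q i k x * p.v4 Ψ Q x) := fun i k =>
    BM.sum _ fun Q _ => (hgQ Q i k).mul (hv4 Q)
  have hE1 : ∀ i k, BM (fun x => ∑ T ∈ (P3 p.N).filter (fun T => i ∈ T),
      c.φ (pick 3 T x) * p.dv3 Ψ T k x) := fun i k =>
    BM.sum _ fun T _ => (hφ T).mul (hdv T k)
  have hid : ∀ i k x, p.dX c Ψ i k x = (pd Ψ i k x - p.Gam c Ψ i k x)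
      - (∑ Q ∈ P4 p.N, gQ c.g Q i k x * p.v4 Ψ Q x)
      + 1 / 3 * ∑ T ∈ (P3 p.N).filter (fun T => i ∈ T), c.φ (pick 3 T x) * p.dv3 Ψ T k x := by
    intro i k x
    have h1 : ∑ T ∈ (P3 p.N).filter (fun T => i ∈ T), gT c.φ T i k x * p.v3 Ψ T x
        = ∑ T ∈ P3 p.N, gT c.φ T i k x * p.v3 Ψ T x := by
      rw [Finset.sum_filter]
      refine Finset.sum_congr rfl fun T _ => ?_
      split_ifs with h
      · rfl
      · have : gT c.φ T i k x = 0 := by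
          unfold gT
          refine Finset.sum_eq_zero fun m _ => ?_
          rw [if_neg]
          rintro ⟨hc3, hm⟩
          exact h (hm ▸ Finset.orderEmbOfFin_mem T hc3 m)
        rw [this, zero_mul]
    unfold Par.dX Par.Gam
    rw [Finset.sum_add_distrib, h1, Finset.mul_sum]
    have h2 : ∑ T ∈ (P3 p.N).filter (fun T => i ∈ T), c.φ (pick 3 T x) *
        (1 / 3 * p.dv3 Ψ T k x) = ∑ T ∈ (P3 p.N).filter (fun T => i ∈ T),
        1 / 3 * (c.φ (pick 3 T x) * p.dv3 Ψ T k x) :=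
      Finset.sum_congr rfl fun T _ => by ring
    rw [h2]
    ring
  -- the three L2 norms
  have hEk : ∀ k, p.s ^ 2 * ∑ i, ∫ x, (∑ T ∈ (P3 p.N).filter (fun T => i ∈ T),
      c.φ (pick 3 T x) * p.dv3 Ψ T k x) ^ 2 ∂pin p.nu p.N ≤ CJ * (C1 * X) := by
    intro k
    have h := hPPb V b r r4 W QQ c hc p hp hL Ψ hΨ (fun T x => p.s / √CJ * p.dv3 Ψ T k x)
      (fun T => (hdv T k).const_mul _) ?_
    · have e : ∀ i, ∫ x, (∑ T ∈ (P3 p.N).filter (fun T => i ∈ T),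
          c.φ (pick 3 T x) * (p.s / √CJ * p.dv3 Ψ T k x)) ^ 2 ∂pin p.nu p.N
          = p.s ^ 2 / CJ * ∫ x, (∑ T ∈ (P3 p.N).filter (fun T => i ∈ T),
            c.φ (pick 3 T x) * p.dv3 Ψ T k x) ^ 2 ∂pin p.nu p.N := by
        intro i
        rw [← integral_const_mul]
        congr 1
        ext1 x
        have : ∑ T ∈ (P3 p.N).filter (fun T => i ∈ T),
            c.φ (pick 3 T x) * (p.s / √CJ * p.dv3 Ψ T k x)
            = p.s / √CJ * ∑ T ∈ (P3 p.N).filter (fun T => i ∈ T),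
              c.φ (pick 3 T x) * p.dv3 Ψ T k x := by
          rw [Finset.mul_sum]
          exact Finset.sum_congr rfl fun T _ => by ring
        rw [this, mul_pow, div_pow, Real.sq_sqrt hCJ.le]
      simp only [e] at h
      rw [← Finset.mul_sum, div_mul_eq_mul_div, div_le_iff₀ hCJ] at h
      calc _ ≤ _ := h
        _ = CJ * (C1 * X) := by rw [hX]; ring
    · intro T hT x
      have h1 := (hJe p hp Ψ T (Par.cmA T x) x).2.2 k
      have h2 : (p.s / √CJ * p.dv3 Ψ T k x) ^ 2 = p.s ^ 2 / CJ * p.dv3 Ψ T k x ^ 2 := by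
        rw [mul_pow, div_pow, Real.sq_sqrt hCJ.le]
      rw [h2]
      calc p.s ^ 2 / CJ * p.dv3 Ψ T k x ^ 2 ≤ p.s ^ 2 / CJ * (CJ / p.s ^ 2 *
            ∑ a ∈ p.win, ind (p.Qin a) (Par.cmA T x) * (p.l3 a T x * p.U a T Ψ x) ^ 2) :=
            mul_le_mul_of_nonneg_left h1 (by positivity)
        _ = _ := by field_simp
  have hSi : ∑ i, ∫ x, p.Si c Ψ i x ^ 2 ∂pin p.nu p.N ≤ C1 * X := by
    refine hPPb V b r r4 W QQ c hc p hp hL Ψ hΨ (p.v3 Ψ) hv3 ?_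
    intro T hT x
    refine ((hJe p hp Ψ T (Par.cmA T x) x).1).trans (Finset.sum_le_sum fun a _ => ?_)
    apply mul_le_mul_of_nonneg_right _ (sq_nonneg _)
    obtain ⟨-, h01, hsupp, -⟩ := hWf p.s p.e hs hp.he hp.he' a
    by_cases h : th p.s p.e a (Par.cmA T x) = 0
    · rw [h]; exact ind_nonneg _ _
    · have : Par.cmA T x ∈ p.Qin a := hsupp _ h
      rw [ind_of_mem this]
      exact (h01 _).2
  have hGQ' := hGQb V b r r4 W QQ c hc p hp hL Ψ hΨ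
  -- the derivative of Ψ + S
  have hdXint : ∑ i, ∫ x, ∑ k, p.dX c Ψ i k x ^ 2 ∂pin p.nu p.N
      ≤ 3 * (p.RR c Ψ + ∫ x, ∑ i, ∑ a, (∑ Q ∈ P4 p.N, gQ c.g Q i a x * p.v4 Ψ Q x) ^ 2
          ∂pin p.nu p.N
        + 1 / 9 * ∑ k, ∑ i, ∫ x, (∑ T ∈ (P3 p.N).filter (fun T => i ∈ T),
          c.φ (pick 3 T x) * p.dv3 Ψ T k x) ^ 2 ∂pin p.nu p.N) := by
    have hbX : ∀ i, BM (fun x => ∑ k, p.dX c Ψ i k x ^ 2) := fun i =>
      BM.sum _ fun k _ => (hdX i k).pow 2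
    have hbA : BM (fun x => ∑ i, ∑ k, (pd Ψ i k x - p.Gam c Ψ i k x) ^ 2) :=
      BM.sum _ fun i _ => BM.sum _ fun k _ => (hA1 i k).pow 2
    have hbB : BM (fun x => ∑ i, ∑ k, (∑ Q ∈ P4 p.N, gQ c.g Q i k x * p.v4 Ψ Q x) ^ 2) :=
      BM.sum _ fun i _ => BM.sum _ fun k _ => (hB1 i k).pow 2
    have hbE : BM (fun x => ∑ k, ∑ i, (∑ T ∈ (P3 p.N).filter (fun T => i ∈ T),
      c.φ (pick 3 T x) * p.dv3 Ψ T k x) ^ 2) :=
      BM.sum _ fun k _ => BM.sum _ fun i _ => (hE1 i k).pow 2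
    have e : ∑ k, ∑ i, ∫ x, (∑ T ∈ (P3 p.N).filter (fun T => i ∈ T),
          c.φ (pick 3 T x) * p.dv3 Ψ T k x) ^ 2 ∂pin p.nu p.N
        = ∫ x, ∑ k, ∑ i, (∑ T ∈ (P3 p.N).filter (fun T => i ∈ T),
          c.φ (pick 3 T x) * p.dv3 Ψ T k x) ^ 2 ∂pin p.nu p.N := by
      rw [integral_finsetSum _ fun k _ =>
        (BM.sum _ fun i _ => (hE1 i k).pow 2).integrable _]
      refine Finset.sum_congr rfl fun k _ => ?_
      rw [integral_finsetSum _ fun i _ => ((hE1 i k).pow 2).integrable _]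
    rw [← integral_finsetSum _ fun i _ => (hbX i).integrable _, e, Par.RR,
      ← integral_const_mul, ← integral_add (hbA.integrable _) (hbB.integrable _),
      ← integral_add ((hbA.add hbB).integrable _) ((hbE.const_mul _).integrable _),
      ← integral_const_mul]
    refine integral_mono ((BM.sum _ fun i _ => hbX i).integrable _)
      ((((hbA.add hbB).add (hbE.const_mul _)).const_mul _).integrable _) fun x => ?_
    simp only []
    rw [Finset.sum_comm (s := (univ : Finset (Fin 3)))]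
    rw [mul_add, mul_add, ← mul_assoc, Finset.mul_sum, Finset.mul_sum, Finset.mul_sum,
      ← Finset.sum_add_distrib, ← Finset.sum_add_distrib]
    refine Finset.sum_le_sum fun i _ => ?_
    rw [Finset.mul_sum, Finset.mul_sum, Finset.mul_sum, ← Finset.sum_add_distrib,
      ← Finset.sum_add_distrib]
    refine Finset.sum_le_sum fun k _ => ?_
    rw [hid]
    generalize pd Ψ i k x - p.Gam c Ψ i k x = u
    generalize ∑ Q ∈ P4 p.N, gQ c.g Q i k x * p.v4 Ψ Q x = v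
    generalize ∑ T ∈ (P3 p.N).filter (fun T => i ∈ T), c.φ (pick 3 T x) * p.dv3 Ψ T k x = w
    nlinarith [sq_nonneg (u + v), sq_nonneg (u - w / 3), sq_nonneg (v + w / 3)]
  -- windows
  have hwin : p.D Ψ ≤ 54 * CP * p.s ^ 2 * ∑ i, ∫ x, ∑ k, p.dX c Ψ i k x ^ 2 ∂pin p.nu p.N
      + 972 * ∑ i, ∫ x, p.Si c Ψ i x ^ 2 ∂pin p.nu p.N := by
    have h1 : p.D Ψ ≤ ∑ a ∈ p.win, ∑ i, (2 * (CP * p.s ^ 2 *
        ∫ x, ind (Qc p.s a) (x i) * ∑ k, p.dX c Ψ i k x ^ 2 ∂pin p.nu p.N)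
        + 36 * ∫ x, ind (Qc p.s a) (x i) * p.Si c Ψ i x ^ 2 ∂pin p.nu p.N) := by
      unfold Par.D Dw
      refine Finset.sum_le_sum fun a ha => Finset.sum_le_sum fun i _ => ?_
      have h2 := gap_split hA hWd p hp a ha i Ψ (p.Si c Ψ i) hΨ (hS i)
      have hDX := (hD V b K R r r4 W QQ c hc p hp Ψ hΨ1 hΨc i).2.2.2
      have h3 := gap_one hWd p hp CP hPo a ha i (fun y => Ψ y + p.Si c Ψ i y)
        (hΨ.add (hS i)) (p.dX c Ψ i) (hdX i) (fun x => (hDX x).1) (fun x t k => (hDX x).2 t k)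
      linarith
    refine h1.trans ?_
    rw [Finset.sum_comm, Finset.mul_sum, Finset.mul_sum, ← Finset.sum_add_distrib]
    refine Finset.sum_le_sum fun i _ => ?_
    rw [Finset.sum_add_distrib, ← Finset.mul_sum, ← Finset.mul_sum, ← Finset.mul_sum]
    have h4 := gap_win hO hWd p hp i (fun x => ∑ k, p.dX c Ψ i k x ^ 2)
      (BM.sum _ fun k _ => (hdX i k).pow 2)
      (fun x => Finset.sum_nonneg fun k _ => sq_nonneg _)
    have h5 := gap_win hO hWd p hp i (fun x => p.Si c Ψ i x ^ 2) ((hS i).pow 2)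
      (fun x => sq_nonneg _)
    have h6 := mul_le_mul_of_nonneg_left h4 (show 0 ≤ 2 * (CP * p.s ^ 2) by positivity)
    linarith
  have h7 : ∑ k : Fin 3, p.s ^ 2 * ∑ i, ∫ x, (∑ T ∈ (P3 p.N).filter (fun T => i ∈ T),
      c.φ (pick 3 T x) * p.dv3 Ψ T k x) ^ 2 ∂pin p.nu p.N ≤ 3 * (CJ * (C1 * X)) := by
    refine (Finset.sum_le_sum fun k _ => hEk k).trans (le_of_eq ?_)
    simp
  rw [← Finset.mul_sum] at h7
  have h8 := mul_le_mul_of_nonneg_left hdXint (show 0 ≤ 54 * CP * p.s ^ 2 by positivity)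
  have h9 := mul_le_mul_of_nonneg_left hGQ' (show 0 ≤ 162 * CP * p.s ^ 2 by positivity)
  have h10 := mul_le_mul_of_nonneg_left h7 (show 0 ≤ 18 * CP by positivity)
  have hsY : 0 ≤ p.s ^ 2 * Y := by positivity
  have hsR : 0 ≤ p.s ^ 2 * p.RR c Ψ := by positivity
  have hfin : p.D Ψ ≤ 162 * CP * (p.s ^ 2 * p.RR c Ψ) + 162 * CP * C2 * (p.s ^ 2 * Y)
      + 54 * CP * CJ * C1 * X + 972 * C1 * X := by
    rw [← hY] at h9
    linarith
  refine hfin.trans ?_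
  have t1 : 0 ≤ 162 * CP * C2 * (p.s ^ 2 * p.RR c Ψ) := by positivity
  have t2 : 0 ≤ (54 * CP * CJ * C1 + 972 * C1) * (p.s ^ 2 * p.RR c Ψ) := by positivity
  have t3 : 0 ≤ 162 * CP * (p.s ^ 2 * Y) := by positivity
  have t4 : 0 ≤ (54 * CP * CJ * C1 + 972 * C1) * (p.s ^ 2 * Y) := by positivity
  have t5 : 0 ≤ (162 * CP + 162 * CP * C2) * X := by positivity
  linarith

end Pool.Agent.Lib.MP_5db8e2_mp
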