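import Pool.Agent.Lib.MP_5db8e2_mp.LB.Spec4
import Pool.Agent.Lib.MP_5db8e2_mp.GeoA

/-!
# Lower bound, part 4: geometry of the supports
-/

set_option autoImplicit false

open MeasureTheory Function Finset
open scoped Classical

namespace Pool.Agent.Lib.MP_5db8e2_mp

theorem supp_pick {N k : ℕ} (A : Finset (Fin N)) (h : A.card = k) (x : Fin N → R3) (m : Fin k) :
    pick k A x m = x (A.orderEmbOfFin h m) := by
  rw [pick, dif_pos h]

theorem supp_exists {N k : ℕ} (A : Finset (Fin N)) (h : A.card = k) (x : Fin N → R3) (i : Fin N)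
    (hi : i ∈ A) : ∃ m, pick k A x m = x i := by
  have h1 : i ∈ Set.range (A.orderEmbOfFin h) := by
    rw [Finset.range_orderEmbOfFin]; exact hi
  obtain ⟨m, hm⟩ := h1
  exact ⟨m, by rw [supp_pick A h, hm]⟩

theorem supp_cm {N k : ℕ} (A : Finset (Fin N)) (h : A.card = k) (x : Fin N → R3) :
    cm (pick k A x) = Par.cmA A x := by
  funext a
  have h1 : ∑ m ∈ A, x m a = ∑ m : Fin k, x (A.orderEmbOfFin h m) a := by
    conv_lhs => rw [← Finset.map_orderEmbOfFin_univ A h, Finset.sum_map]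
    rfl
  simp only [cm, Par.cmA, h, h1]
  congr 1
  refine Finset.sum_congr rfl fun m _ => ?_
  rw [supp_pick A h]

theorem Supp (hW : S_WinFacts) : S_Supp := by
  obtain ⟨C, -, hC⟩ := hW
  intro p hp r4 hr4 hL a k A hA hk x hth hrad
  have hs : 0 < p.s := lt_of_lt_of_le one_pos hp.hs
  have hcm : ∀ i ∈ A, ‖x i - Par.cmA A x‖ ≤ r4 := by
    intro i hi
    obtain ⟨m, hm⟩ := supp_exists A hA x i hi
    rw [← hm, ← supp_cm A hA x, pi_norm_le_iff_of_nonneg hr4]
    intro b
    rw [Pi.sub_apply, Real.norm_eq_abs]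
    exact (abs_sub_cm_le (pick k A x) m b).trans hrad
  have hdist : ∀ i ∈ A, ∀ j ∈ A, ‖x i - x j‖ ≤ 2 * r4 := by
    intro i hi j hj
    obtain ⟨m, hm⟩ := supp_exists A hA x i hi
    obtain ⟨m', hm'⟩ := supp_exists A hA x j hj
    rw [← hm, ← hm']
    exact (norm_sub_le_rad (pick k A x) m m').trans (by linarith)
  refine ⟨hcm, ?_, hdist⟩
  intro i hi j hj b
  have h1 := (hC p.s p.e hp.hs hp.he hp.he' a).2.2.1 _ hth b
  have h2 : |x i b - Par.cmA A x b| ≤ r4 := by
    have := norm_le_pi_norm (x i - Par.cmA A x) b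
    rw [Pi.sub_apply, Real.norm_eq_abs] at this
    exact this.trans (hcm i hi)
  have h3 : |x j b - x i b| ≤ 10 * r4 := by
    have := norm_le_pi_norm (x j - x i) b
    rw [Pi.sub_apply, Real.norm_eq_abs] at this
    exact this.trans hj
  have h4 : 100 * r4 ≤ p.e * p.s := hL
  rw [abs_le] at h1 h2 h3 ⊢
  constructor
  · linarith [h1.1, h2.1, h3.1]
  · linarith [h1.2, h2.2, h3.2]

end Pool.Agent.Lib.MP_5db8e2_mp
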