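import Pool.Agent.Lib.MP_5db8e2_mp.LB.Spec6
import Pool.Agent.Lib.MP_5db8e2_mp.LB.Supp

/-!
# Lower bound, part 6: pointwise bounds of the correlation functions by products of kernels
-/

set_option autoImplicit false

open MeasureTheory Function Finset
open scoped Classical

namespace Pool.Agent.Lib.MP_5db8e2_mp

theorem kerBd_dist {N k : ℕ} (A : Finset (Fin N)) (hA : A.card = k) (x : Fin N → R3)
    (i j : Fin N) (hi : i ∈ A) (hj : j ∈ A) : ‖x i - x j‖ ≤ 2 * rad (pick k A x) := by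
  obtain ⟨m, hm⟩ := supp_exists A hA x i hi
  obtain ⟨m', hm'⟩ := supp_exists A hA x j hj
  rw [← hm, ← hm']
  exact norm_sub_le_rad (pick k A x) m m'

theorem kerBd_core {N k : ℕ} (n : ℕ) (σ ρ : ℝ) (hσ0 : 0 ≤ σ) (hσ : σ * ((k - 1 : ℕ) : ℝ) = n)
    (A : Finset (Fin N)) (hA : A.card = k) (x : Fin N → R3) (i : Fin N) (hi : i ∈ A)
    (hrad : rad (pick k A x) ≤ ρ) :
    ((2 * (1 + rad (pick k A x))) ^ n)⁻¹ ≤ ∏ j ∈ A.erase i, kap σ ρ (x i - x j) := by
  set R := rad (pick k A x) with hR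
  have hR0 : 0 ≤ R := rad_nonneg _
  have hpos : 0 < 2 * (1 + R) := by linarith
  have h1 : ∀ j ∈ A.erase i, (2 * (1 + R)) ^ (-σ) ≤ kap σ ρ (x i - x j) := by
    intro j hj
    have hd := kerBd_dist A hA x i j hi (Finset.mem_of_mem_erase hj)
    rw [← hR] at hd
    have hle : ‖x i - x j‖ ≤ 2 * ρ := by linarith
    simp only [kap, hle, if_true]
    have hn := norm_nonneg (x i - x j)
    exact Real.rpow_le_rpow_of_nonpos (by linarith) (by linarith) (by linarith)
  have e : ((2 * (1 + R)) ^ (-σ)) ^ (k - 1) = ((2 * (1 + R)) ^ n)⁻¹ := by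
    rw [← Real.rpow_natCast ((2 * (1 + R)) ^ (-σ)) (k - 1), ← Real.rpow_mul hpos.le, neg_mul,
      hσ, Real.rpow_neg hpos.le, Real.rpow_natCast]
  calc ((2 * (1 + R)) ^ n)⁻¹ = ∏ _j ∈ A.erase i, (2 * (1 + R)) ^ (-σ) := by
        rw [Finset.prod_const, Finset.card_erase_of_mem hi, hA, e]
    _ ≤ ∏ j ∈ A.erase i, kap σ ρ (x i - x j) :=
        Finset.prod_le_prod (fun j _ => Real.rpow_nonneg hpos.le _) h1

theorem kerBd_prod_nonneg {N : ℕ} (σ ρ : ℝ) (A : Finset (Fin N)) (x : Fin N → R3) (i : Fin N) :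
    0 ≤ ∏ j ∈ A.erase i, kap σ ρ (x i - x j) := by
  refine Finset.prod_nonneg fun j _ => ?_
  unfold kap
  split_ifs
  · exact Real.rpow_nonneg (by positivity) _
  · exact le_rfl

/-- From a bound by a power of the radius to a bound by kernels. -/
theorem kerBd_pow {N k : ℕ} (n : ℕ) (σ ρ K t : ℝ) (hσ0 : 0 ≤ σ)
    (hσ : σ * ((k - 1 : ℕ) : ℝ) = n) (A : Finset (Fin N)) (hA : A.card = k) (x : Fin N → R3)
    (i : Fin N) (hi : i ∈ A) (hsupp : t ≠ 0 → rad (pick k A x) ≤ ρ)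
    (ht : |t| ≤ K / (1 + rad (pick k A x)) ^ n) :
    |t| ≤ |K| * 2 ^ n * ∏ j ∈ A.erase i, kap σ ρ (x i - x j) := by
  have hP := kerBd_prod_nonneg σ ρ A x i
  by_cases h0 : t = 0
  · rw [h0, abs_zero]; positivity
  · have h1 := kerBd_core n σ ρ hσ0 hσ A hA x i hi (hsupp h0)
    have hR0 : 0 ≤ rad (pick k A x) := rad_nonneg _
    have hpos : 0 < (1 + rad (pick k A x)) ^ n := by positivity
    calc |t| ≤ K / (1 + rad (pick k A x)) ^ n := ht
      _ ≤ |K| / (1 + rad (pick k A x)) ^ n :=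
          div_le_div_of_nonneg_right (le_abs_self K) hpos.le
      _ = |K| * 2 ^ n * ((2 * (1 + rad (pick k A x))) ^ n)⁻¹ := by
          rw [mul_pow]; field_simp
      _ ≤ |K| * 2 ^ n * ∏ j ∈ A.erase i, kap σ ρ (x i - x j) :=
          mul_le_mul_of_nonneg_left h1 (by positivity)

theorem kerBd_sum {k : ℕ} (P : Fin k → Prop) (f : Fin k → ℝ) (D : ℝ) (hD : 0 ≤ D)
    (h : ∀ m, |f m| ≤ D) : |∑ m, if P m then f m else 0| ≤ k * D := by
  calc |∑ m, if P m then f m else 0| ≤ ∑ m, |if P m then f m else 0| :=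
        Finset.abs_sum_le_sum_abs _ _
    _ ≤ ∑ _m : Fin k, D := by
        refine Finset.sum_le_sum fun m _ => ?_
        split_ifs
        · exact h m
        · simpa using hD
    _ = k * D := by simp

theorem kerBd_mem {N k : ℕ} (A : Finset (Fin N)) (f : Fin k → ℝ) (j : Fin N)
    (h : (∑ m, if isEl k A m j then f m else 0) ≠ 0) : j ∈ A := by
  obtain ⟨m, -, hm⟩ := Finset.exists_ne_zero_of_sum_ne_zero h
  by_cases hel : isEl k A m j
  · obtain ⟨hk, hj⟩ := hel
    rw [← hj]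
    exact Finset.orderEmbOfFin_mem A hk m
  · simp [hel] at hm

/-- The derivative vanishes where the function vanishes on an open set. -/
theorem kerBd_pd_supp {φ : (Fin 3 → R3) → ℝ} {r : ℝ} (hsupp : ∀ x, φ x ≠ 0 → rad x ≤ r)
    (m : Fin 3) (a : Fin 3) (y : Fin 3 → R3) (h : pd φ m a y ≠ 0) : rad y ≤ r := by
  by_contra hy
  rw [not_le] at hy
  apply h
  have hopen : IsOpen {z : Fin 3 → R3 | r < rad z} := isOpen_lt continuous_const continuous_rad
  have : φ =ᶠ[nhds y] fun _ => (0 : ℝ) := by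
    filter_upwards [hopen.mem_nhds hy] with z hz
    by_contra hne
    exact absurd (hsupp z hne) (not_le.2 hz)
  unfold pd
  rw [this.fderiv_eq]
  simp

theorem KerBd : S_KerBd := by
  intro K R
  set C1 : ℝ := |K| * 2 ^ 5 with hC1
  set C2 : ℝ := |K| * 2 ^ 4 with hC2
  set C3 : ℝ := |K| * 2 ^ 8 with hC3
  set C4 : ℝ := |K| * (2 * (1 + |R|)) ^ 8 with hC4
  have n1 : 0 ≤ C1 := by positivity
  have n2 : 0 ≤ C2 := by positivity
  have n3 : 0 ≤ C3 := by positivity
  have n4 : 0 ≤ C4 := by positivity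
  refine ⟨1 + 3 * C1 + C2 + 4 * C3 + 4 * C4, by linarith, ?_⟩
  intro V b r r4 W QQ c hc N A x i hi
  refine ⟨?_, ?_, ?_, ?_, ?_, ?_, ?_⟩
  · intro hA j a
    have hP := kerBd_prod_nonneg (5 / 2) r A x i
    have hb : ∀ m : Fin 3, |pd c.φ m a (pick 3 A x)| ≤
        C1 * ∏ j ∈ A.erase i, kap (5 / 2) r (x i - x j) := fun m =>
      kerBd_pow 5 (5 / 2) r K _ (by norm_num) (by norm_num) A hA x i hi
        (fun h => kerBd_pd_supp hc.d3.supp m a _ h) (hc.d3.bd' _ m a)
    have := kerBd_sum (fun m => isEl 3 A m j) (fun m => pd c.φ m a (pick 3 A x)) _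
      (mul_nonneg n1 hP) hb
    refine (this : |gT c.φ A j a x| ≤ _).trans ?_
    push_cast
    nlinarith [mul_nonneg n2 hP, mul_nonneg n3 hP, mul_nonneg n4 hP]
  · intro hA
    have hP := kerBd_prod_nonneg 2 r A x i
    have := kerBd_pow 4 2 r K _ (by norm_num) (by norm_num) A hA x i hi
      (fun h => hc.d3.supp _ h) (hc.d3.bd (pick 3 A x))
    refine this.trans ?_
    nlinarith [mul_nonneg n1 hP, mul_nonneg n3 hP, mul_nonneg n4 hP]
  · intro hA hV j hj
    have h1 := hc.V_supp _ hV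
    exact (kerBd_dist A hA x i j hi hj).trans (by linarith)
  · intro hA j a
    have hP := kerBd_prod_nonneg (8 / 3) r4 A x i
    have hb : ∀ m : Fin 4, |c.g m a (pick 4 A x)| ≤
        C3 * ∏ j ∈ A.erase i, kap (8 / 3) r4 (x i - x j) := fun m =>
      kerBd_pow 8 (8 / 3) r4 K _ (by norm_num) (by norm_num) A hA x i hi
        (fun h => hc.d4.g_supp m a _ h) (hc.d4.g_bd m a _)
    have := kerBd_sum (fun m => isEl 4 A m j) (fun m => c.g m a (pick 4 A x)) _
      (mul_nonneg n3 hP) hb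
    refine (this : |gQ c.g A j a x| ≤ _).trans ?_
    push_cast
    nlinarith [mul_nonneg n1 hP, mul_nonneg n2 hP, mul_nonneg n4 hP]
  · intro hA j
    have hP := kerBd_prod_nonneg (8 / 3) r4 A x i
    have hb : ∀ m : Fin 4, |c.s m (pick 4 A x)| ≤
        C4 * ∏ j ∈ A.erase i, kap (8 / 3) r4 (x i - x j) := by
      intro m
      by_cases h0 : c.s m (pick 4 A x) = 0
      · rw [h0, abs_zero]; exact mul_nonneg n4 hP
      · have hrad := hc.d4.s_supp m _ h0
        have h1 := kerBd_core 8 (8 / 3) r4 (by norm_num) (by norm_num) A hA x i hi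
          (hrad.trans hc.hR4)
        have hR0 : 0 ≤ rad (pick 4 A x) := rad_nonneg _
        have hRR : rad (pick 4 A x) ≤ |R| := hrad.trans (le_abs_self R)
        calc |c.s m (pick 4 A x)| ≤ K := hc.d4.s_bd m _
          _ ≤ |K| := le_abs_self K
          _ = |K| * (2 * (1 + |R|)) ^ 8 * ((2 * (1 + |R|)) ^ 8)⁻¹ := by
              have : (2 * (1 + |R|)) ^ 8 ≠ 0 := by positivity
              field_simp
          _ ≤ C4 * ((2 * (1 + rad (pick 4 A x))) ^ 8)⁻¹ := by
              refine mul_le_mul_of_nonneg_left ?_ n4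
              exact inv_anti₀ (by positivity) (pow_le_pow_left₀ (by positivity) (by linarith) 8)
          _ ≤ C4 * ∏ j ∈ A.erase i, kap (8 / 3) r4 (x i - x j) :=
              mul_le_mul_of_nonneg_left h1 n4
    have := kerBd_sum (fun m => isEl 4 A m j) (fun m => c.s m (pick 4 A x)) _
      (mul_nonneg n4 hP) hb
    refine (this : |sQ c.s A j x| ≤ _).trans ?_
    push_cast
    nlinarith [mul_nonneg n1 hP, mul_nonneg n2 hP, mul_nonneg n3 hP]
  · intro j a h
    exact kerBd_mem A (fun m => pd c.φ m a (pick 3 A x)) j h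
  · intro j a h
    exact kerBd_mem A (fun m => c.g m a (pick 4 A x)) j h

end Pool.Agent.Lib.MP_5db8e2_mp
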