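import Pool.Agent.Lib.MP_5db8e2_mp.LB.Spec2
import Pool.Agent.Lib.MP_5db8e2_mp.LB.Spec5

/-!
# Lower bound, part 5: the linear term of the three-body charge (`S_Lin3`)
-/

set_option autoImplicit false

open MeasureTheory Function Finset
open scoped Classical

namespace Pool.Agent.Lib.MP_5db8e2_mp

namespace Lin3Aux

theorem Dw_nonneg {N : ℕ} (ν : Measure R3) (g : R3 → ℝ) (Q : Set R3) (f : (Fin N → R3) → ℝ) :
    0 ≤ Dw ν g Q f :=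
  Finset.sum_nonneg fun _ _ => integral_nonneg fun _ => mul_nonneg (ind_nonneg _ _) (sq_nonneg _)

theorem Nw_nonneg {N : ℕ} (ν : Measure R3) (Q : Set R3) (f : (Fin N → R3) → ℝ) :
    0 ≤ Nw ν Q f :=
  integral_nonneg fun _ => mul_nonneg (Nat.cast_nonneg _) (sq_nonneg _)

theorem l3_dep (p : Par) (a : Fin 3 → ℤ) (T : Finset (Fin p.N)) :
    DependsOn (p.l3 a T) ((T : Set (Fin p.N))ᶜ) := by
  intro x y hxy
  have h := cnt_dep (Bc p.s a) Tᶜ (x := x) (y := y) fun i hi => hxy i (by simpa using hi)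
  exact congrArg (lam3 p.M) h

end Lin3Aux

open Lin3Aux

/-- The linear term of the three-body charge. -/
theorem Lin3 (hK : S_KerW3) (h1 : S_OneRough) (h2 : S_TwoRough) (hC : S_Counts) (hWd : S_WdWin)
    (hBM : S_BMall) : S_Lin3 := by
  intro K
  obtain ⟨C1, hC1, hK⟩ := hK K
  refine ⟨32 * C1 + 10000 * K ^ 2 * 262144 * 16 + 10000 * K ^ 2 * 4096 * 4, by positivity, ?_⟩
  intro V b R r r4 W QQ c hc p hp hL Ψ hΨ τ₁ τ₂ hτ₁ hτ₂
  have hr1 : (1 : ℝ) ≤ r := hc.hr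
  have hr0 : 0 < r := by linarith
  have hs0 : 0 < p.s := by linarith [hp.hs]
  have hM0 : 0 ≤ p.M := by linarith [hp.hM]
  obtain ⟨hl01, hlanti, -, -, hc5, hc6, hc7, hc8, -, -, -⟩ := hC p.M hp.hM
  -- notation
  set F : (Fin 3 → ℤ) → Finset (Fin p.N) → (Fin p.N → R3) → ℝ := fun a =>
    FT p.nu (p.gd a) (Bc p.s a) (lam3 p.M) (p.W3 c a) Ψ with hF
  have hFx : ∀ a T x, F a T x = p.W3 c a T x * (p.l3 a T x * p.U a T Ψ x) := fun a T x => rfl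
  have hTW : ∀ a ∈ p.win, TW p.nu (p.s ^ 3) (Qc p.s a) (p.W3 c a)
      (fun t => if ‖t‖ ≤ 2 * r then 1 else 0) (K / r ^ 6) (64 * r ^ 3) := fun a ha =>
    (hK V b R r r4 W QQ c hc p hp hL a ha).2.2
  have hBl : ∀ a T, BM (p.l3 a T) := fun a T =>
    (hBM V b K R r r4 W QQ c hc p hp Ψ hΨ T).2.2.2.2.2.2.2.1 a
  have hBU : ∀ a ∈ p.win, ∀ T, BM (p.U a T Ψ) := fun a ha T =>
    (hBM V b K R r r4 W QQ c hc p hp Ψ hΨ T).2.2.2.2.2.2.2.2.2.1 a ha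
  have hBF : ∀ a ∈ p.win, ∀ T, BM (F a T) := fun a ha T =>
    ((hTW a ha).bm T).mul ((hBl a T).mul (hBU a ha T))
  -- the expansion over the windows
  have e1 : p.Lin3 c Ψ = ∑ a ∈ p.win, ∑ T ∈ powersetCard 3 (univ : Finset (Fin p.N)),
      ∫ x, F a T x * Ψ x ∂pin p.nu p.N := by
    unfold Par.Lin3
    rw [Finset.sum_comm]
    refine Finset.sum_congr rfl fun T hT => ?_
    have hT3 : T.card = 3 := (Finset.mem_powersetCard.1 hT).2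
    rw [← integral_finsetSum _ fun a ha => ((hBF a ha T).mul hΨ).integrable _]
    congr 1
    funext x
    unfold Par.v3 Par.vt3
    rw [Finset.mul_sum, Finset.mul_sum]
    refine Finset.sum_congr rfl fun a _ => ?_
    rw [hFx]
    unfold Par.W3
    rw [if_pos hT3]
    ring
  have e2 : b * p.G3 Ψ = ∑ a ∈ p.win, b * (p.s ^ 3 * ∑ T ∈ powersetCard 3
      (univ : Finset (Fin p.N)), out p.nu 0 T (fun x => p.l3 a T x * p.U a T Ψ x ^ 2)) := by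
    unfold Par.G3
    rw [Finset.mul_sum]
  rw [e1, e2, ← Finset.sum_sub_distrib]
  -- one window
  have key : ∀ a ∈ p.win, |∑ T ∈ powersetCard 3 (univ : Finset (Fin p.N)),
      ∫ x, F a T x * Ψ x ∂pin p.nu p.N - b * (p.s ^ 3 * ∑ T ∈ powersetCard 3
      (univ : Finset (Fin p.N)), out p.nu 0 T (fun x => p.l3 a T x * p.U a T Ψ x ^ 2))| ≤
      C1 * (r / p.s) * (1 / p.s ^ 3) ^ 2 * (τ₁ * (4 * p.M ^ 2) * Dw p.nu (p.gd a) (Qc p.s a) Ψ +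
        8 * τ₁⁻¹ * (4 * p.M ^ 2) * Nw p.nu (Qc p.s a) Ψ) +
      (τ₂ * Dw p.nu (p.gd a) (Qc p.s a) Ψ + 10000 * τ₂⁻¹ * (K / r ^ 6) ^ 2 * (64 * r ^ 3) ^ 2 *
        (64 * r ^ 3 * (1 / p.s ^ 3) ^ 3 * (16 * p.M ^ 4 * Dw p.nu (p.gd a) (Qc p.s a) Ψ +
          8 * p.M ^ 3 * Nw p.nu (Qc p.s a) Ψ) +
          (1 / p.s ^ 3) ^ 2 * (4 * p.M ^ 2) * Nw p.nu (Qc p.s a) Ψ)) := by
    intro a ha
    obtain ⟨hk1, hk2, hk3⟩ := hK V b R r r4 W QQ c hc p hp hL a ha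
    obtain ⟨hwd, -⟩ := hWd p hp a ha
    have hBq : ∀ j, BM (rough p.nu (p.gd a) j Ψ) := fun j => rough_bm hwd hΨ j
    have hBaq : ∀ T i, BM (av p.nu (p.gd a) (Finset.erase T i) (rough p.nu (p.gd a) i Ψ)) :=
      fun T i => av_bm hwd (hBq i)
    -- splitting
    have hsplit : ∀ T ∈ powersetCard 3 (univ : Finset (Fin p.N)),
        ∫ x, F a T x * Ψ x ∂pin p.nu p.N = b * (p.s ^ 3 *
          out p.nu 0 T (fun x => p.l3 a T x * p.U a T Ψ x ^ 2)) +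
        ∑ i ∈ T, ∫ x, p.W3 c a T x * (lam3 p.M (cnt (Bc p.s a) Tᶜ x) *
          av p.nu (p.gd a) T Ψ x * av p.nu (p.gd a) (T.erase i) (rough p.nu (p.gd a) i Ψ) x)
          ∂pin p.nu p.N +
        ∫ x, F a T x * (Ψ x - av p.nu (p.gd a) T Ψ x -
          ∑ i ∈ T, av p.nu (p.gd a) (T.erase i) (rough p.nu (p.gd a) i Ψ) x) ∂pin p.nu p.N := by
      intro T hT
      have hg1 : BM fun x => F a T x * p.U a T Ψ x := (hBF a ha T).mul (hBU a ha T)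
      have hg2 : ∀ i ∈ T, BM fun x => p.W3 c a T x * (lam3 p.M (cnt (Bc p.s a) Tᶜ x) *
          av p.nu (p.gd a) T Ψ x * av p.nu (p.gd a) (T.erase i) (rough p.nu (p.gd a) i Ψ) x) :=
        fun i _ => (hk3.bm T).mul (((hBl a T).mul (hBU a ha T)).mul (hBaq T i))
      have hg3 : BM fun x => F a T x * (Ψ x - av p.nu (p.gd a) T Ψ x -
          ∑ i ∈ T, av p.nu (p.gd a) (T.erase i) (rough p.nu (p.gd a) i Ψ) x) :=
        (hBF a ha T).mul ((hΨ.sub (hBU a ha T)).sub (BM.sum _ fun i _ => hBaq T i))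
      have hpt : ∀ x, F a T x * Ψ x = (F a T x * p.U a T Ψ x +
          ∑ i ∈ T, p.W3 c a T x * (lam3 p.M (cnt (Bc p.s a) Tᶜ x) *
            av p.nu (p.gd a) T Ψ x * av p.nu (p.gd a) (T.erase i) (rough p.nu (p.gd a) i Ψ) x)) +
          F a T x * (Ψ x - av p.nu (p.gd a) T Ψ x -
            ∑ i ∈ T, av p.nu (p.gd a) (T.erase i) (rough p.nu (p.gd a) i Ψ) x) := by
        intro x
        have h3 : ∑ i ∈ T, p.W3 c a T x * (lam3 p.M (cnt (Bc p.s a) Tᶜ x) *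
            av p.nu (p.gd a) T Ψ x * av p.nu (p.gd a) (T.erase i) (rough p.nu (p.gd a) i Ψ) x) =
            F a T x * ∑ i ∈ T, av p.nu (p.gd a) (T.erase i) (rough p.nu (p.gd a) i Ψ) x := by
          rw [Finset.mul_sum]
          refine Finset.sum_congr rfl fun i _ => ?_
          rw [hFx]
          unfold Par.l3 Par.U
          ring
        rw [h3]
        show _ = F a T x * av p.nu (p.gd a) T Ψ x + _ + _
        ring
      simp only [hpt]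
      rw [integral_add ((hg1.add (BM.sum _ hg2)).integrable _) (hg3.integrable _),
        integral_add (hg1.integrable _) ((BM.sum _ hg2).integrable _),
        integral_finsetSum _ fun i hi => (hg2 i hi).integrable _]
      congr 2
      -- the main term
      have hdep : DependsOn (fun x => p.l3 a T x * p.U a T Ψ x ^ 2) ((T : Set (Fin p.N))ᶜ) := by
        intro x y hxy
        have h3 := l3_dep p a T hxy
        have h4 : p.U a T Ψ x = p.U a T Ψ y := av_dep Ψ hxy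
        show p.l3 a T x * p.U a T Ψ x ^ 2 = p.l3 a T y * p.U a T Ψ y ^ 2
        rw [h3, h4]
      have hB2 : BM fun x => (p.l3 a T x * p.U a T Ψ x ^ 2) * p.W3 c a T x :=
        ((hBl a T).mul ((hBU a ha T).pow 2)).mul (hk3.bm T)
      have h5 : (fun x => F a T x * p.U a T Ψ x) =
          fun x => (p.l3 a T x * p.U a T Ψ x ^ 2) * p.W3 c a T x := by
        funext x
        rw [hFx]
        ring
      rw [h5, integral_eq_out hB2 0 T, Mg_mul_left _ hdep]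
      have h6 : (fun x => p.l3 a T x * p.U a T Ψ x ^ 2 * Mg p.nu T (p.W3 c a T) x) =
          fun x => b * p.s ^ 3 * (p.l3 a T x * p.U a T Ψ x ^ 2) := by
        funext x
        rw [hk1 T hT x]
        ring
      rw [h6, out, out, Mg_const_mul]
      ring
    rw [Finset.sum_congr rfl hsplit, Finset.sum_add_distrib, Finset.sum_add_distrib,
      ← Finset.mul_sum, ← Finset.mul_sum]
    have hone := h1 p.nu (p.s ^ 3) (p.gd a) (Qc p.s a) (Bc p.s a) hwd Ψ hΨ (lam3 p.M)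
      (fun n => (hl01 n).1) hlanti (p.W3 c a) hk3.bm hk3.dep b (C1 * (r / p.s)) (by positivity)
      hk2 (4 * p.M ^ 2) (4 * p.M ^ 2) (fun n => by
        have := hc7 n 2 (by norm_num)
        calc ((n + 3 : ℕ) : ℝ) ^ 3 * lam3 p.M n
            = (((n + 2 + 1 : ℕ) : ℝ) ^ 2 * lam3 p.M n) * ((n + 3 : ℕ) : ℝ) := by
              push_cast
              ring
          _ ≤ (2 * p.M) ^ 2 * ((n + 3 : ℕ) : ℝ) :=
              mul_le_mul_of_nonneg_right this (Nat.cast_nonneg _)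
          _ = _ := by ring) (fun n => by
        have := hc8 n 2 (by norm_num)
        calc ((n + 2 : ℕ) : ℝ) ^ 2 * lam3 p.M n ≤ (2 * p.M) ^ 2 := this
          _ = _ := by ring) τ₁ hτ₁
    have htwo := h2 p.nu (p.s ^ 3) (p.gd a) (Qc p.s a) (Bc p.s a) hwd Ψ hΨ (lam3 p.M)
      (fun n => (hl01 n).1) hlanti (p.W3 c a) (fun t => if ‖t‖ ≤ 2 * r then 1 else 0)
      (K / r ^ 6) (64 * r ^ 3) hk3 (4 * p.M ^ 2) (8 * p.M ^ 3) (16 * p.M ^ 4) (fun n => by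
        have := hc5 n 2 (by norm_num)
        calc ((n + 3 : ℕ) : ℝ) ^ 3 * lam3 p.M n ^ 2
            = (((n + 2 + 1 : ℕ) : ℝ) ^ 2 * lam3 p.M n ^ 2) * ((n + 3 : ℕ) : ℝ) := by
              push_cast
              ring
          _ ≤ (2 * p.M) ^ 2 * ((n + 3 : ℕ) : ℝ) :=
              mul_le_mul_of_nonneg_right this (Nat.cast_nonneg _)
          _ = _ := by ring) (fun n => by
        have := hc5 n 3 (by norm_num)
        calc ((n + 4 : ℕ) : ℝ) ^ 4 * lam3 p.M n ^ 2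
            = (((n + 3 + 1 : ℕ) : ℝ) ^ 3 * lam3 p.M n ^ 2) * ((n + 4 : ℕ) : ℝ) := by
              push_cast
              ring
          _ ≤ (2 * p.M) ^ 3 * ((n + 4 : ℕ) : ℝ) :=
              mul_le_mul_of_nonneg_right this (Nat.cast_nonneg _)
          _ = _ := by ring) (fun n => by
        have := hc6 n 4 (by norm_num)
        calc ((n + 4 : ℕ) : ℝ) ^ 4 * lam3 p.M n ^ 2 ≤ (2 * p.M) ^ 4 := this
          _ = _ := by ring) τ₂ hτ₂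
    have hre : ∀ X Y Z : ℝ, X + Y + Z - X = Y + Z := fun X Y Z => by ring
    rw [hre]
    refine (abs_add_le _ _).trans (add_le_add ?_ ?_)
    · refine hone.trans (le_of_eq ?_)
      ring
    · refine htwo.trans (le_of_eq ?_)
      ring
  refine (Finset.abs_sum_le_sum_abs _ _).trans ((Finset.sum_le_sum key).trans ?_)
  have hD0 : ∀ a, 0 ≤ Dw p.nu (p.gd a) (Qc p.s a) Ψ := fun a => Dw_nonneg _ _ _ _
  have hN0 : ∀ a, 0 ≤ Nw p.nu (Qc p.s a) Ψ := fun a => Nw_nonneg _ _ _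
  have hDs : p.D Ψ = ∑ a ∈ p.win, Dw p.nu (p.gd a) (Qc p.s a) Ψ := rfl
  have hNs : p.Nn Ψ = ∑ a ∈ p.win, Nw p.nu (Qc p.s a) Ψ := rfl
  rw [hDs, hNs]
  have hsum : ∑ a ∈ p.win, (C1 * (r / p.s) * (1 / p.s ^ 3) ^ 2 *
        (τ₁ * (4 * p.M ^ 2) * Dw p.nu (p.gd a) (Qc p.s a) Ψ +
        8 * τ₁⁻¹ * (4 * p.M ^ 2) * Nw p.nu (Qc p.s a) Ψ) +
      (τ₂ * Dw p.nu (p.gd a) (Qc p.s a) Ψ + 10000 * τ₂⁻¹ * (K / r ^ 6) ^ 2 * (64 * r ^ 3) ^ 2 *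
        (64 * r ^ 3 * (1 / p.s ^ 3) ^ 3 * (16 * p.M ^ 4 * Dw p.nu (p.gd a) (Qc p.s a) Ψ +
          8 * p.M ^ 3 * Nw p.nu (Qc p.s a) Ψ) +
          (1 / p.s ^ 3) ^ 2 * (4 * p.M ^ 2) * Nw p.nu (Qc p.s a) Ψ))) =
      C1 * (r / p.s) * (1 / p.s ^ 3) ^ 2 *
        (τ₁ * (4 * p.M ^ 2) * ∑ a ∈ p.win, Dw p.nu (p.gd a) (Qc p.s a) Ψ +
        8 * τ₁⁻¹ * (4 * p.M ^ 2) * ∑ a ∈ p.win, Nw p.nu (Qc p.s a) Ψ) +
      (τ₂ * ∑ a ∈ p.win, Dw p.nu (p.gd a) (Qc p.s a) Ψ +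
        10000 * τ₂⁻¹ * (K / r ^ 6) ^ 2 * (64 * r ^ 3) ^ 2 *
        (64 * r ^ 3 * (1 / p.s ^ 3) ^ 3 *
          (16 * p.M ^ 4 * ∑ a ∈ p.win, Dw p.nu (p.gd a) (Qc p.s a) Ψ +
          8 * p.M ^ 3 * ∑ a ∈ p.win, Nw p.nu (Qc p.s a) Ψ) +
          (1 / p.s ^ 3) ^ 2 * (4 * p.M ^ 2) * ∑ a ∈ p.win, Nw p.nu (Qc p.s a) Ψ)) := by
    simp only [Finset.mul_sum, ← Finset.sum_add_distrib]
  rw [hsum]
  have hDD : 0 ≤ ∑ a ∈ p.win, Dw p.nu (p.gd a) (Qc p.s a) Ψ := Finset.sum_nonneg fun a _ => hD0 a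
  have hNN : 0 ≤ ∑ a ∈ p.win, Nw p.nu (Qc p.s a) Ψ := Finset.sum_nonneg fun a _ => hN0 a
  generalize (∑ a ∈ p.win, Dw p.nu (p.gd a) (Qc p.s a) Ψ) = DD at hDD ⊢
  generalize (∑ a ∈ p.win, Nw p.nu (Qc p.s a) Ψ) = NN at hNN ⊢
  have hτi1 : 0 < τ₁⁻¹ := inv_pos.mpr hτ₁
  have hτi2 : 0 < τ₂⁻¹ := inv_pos.mpr hτ₂
  generalize τ₁⁻¹ = t1 at hτi1 ⊢
  generalize τ₂⁻¹ = t2 at hτi2 ⊢
  have g1 : C1 * (r / p.s) * (1 / p.s ^ 3) ^ 2 * (τ₁ * (4 * p.M ^ 2) * DD +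
      8 * t1 * (4 * p.M ^ 2) * NN) ≤
      32 * C1 * (r / p.s) * (p.M / p.s ^ 3) ^ 2 * (τ₁ * DD + t1 * NN) := by
    have e : C1 * (r / p.s) * (1 / p.s ^ 3) ^ 2 * (τ₁ * (4 * p.M ^ 2) * DD +
      8 * t1 * (4 * p.M ^ 2) * NN) =
      C1 * (r / p.s) * (p.M / p.s ^ 3) ^ 2 * (4 * (τ₁ * DD) + 32 * (t1 * NN)) := by
      field_simp
      ring
    rw [e]
    have h3 : 4 * (τ₁ * DD) + 32 * (t1 * NN) ≤ 32 * (τ₁ * DD + t1 * NN) := by
      linarith [mul_nonneg hτ₁.le hDD]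
    calc C1 * (r / p.s) * (p.M / p.s ^ 3) ^ 2 * (4 * (τ₁ * DD) + 32 * (t1 * NN))
        ≤ C1 * (r / p.s) * (p.M / p.s ^ 3) ^ 2 * (32 * (τ₁ * DD + t1 * NN)) :=
          mul_le_mul_of_nonneg_left h3 (by positivity)
      _ = _ := by ring
  have g2 : 10000 * t2 * (K / r ^ 6) ^ 2 * (64 * r ^ 3) ^ 2 *
        (64 * r ^ 3 * (1 / p.s ^ 3) ^ 3 * (16 * p.M ^ 4 * DD + 8 * p.M ^ 3 * NN) +
          (1 / p.s ^ 3) ^ 2 * (4 * p.M ^ 2) * NN) ≤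
      10000 * K ^ 2 * 262144 * 16 * t2 * ((1 / r) ^ 3 * (p.M / p.s ^ 3) ^ 3 * (p.M * DD + NN)) +
      10000 * K ^ 2 * 4096 * 4 * t2 * ((1 / r) ^ 6 * (p.M / p.s ^ 3) ^ 2 * NN) := by
    have e : 10000 * t2 * (K / r ^ 6) ^ 2 * (64 * r ^ 3) ^ 2 *
        (64 * r ^ 3 * (1 / p.s ^ 3) ^ 3 * (16 * p.M ^ 4 * DD + 8 * p.M ^ 3 * NN) +
          (1 / p.s ^ 3) ^ 2 * (4 * p.M ^ 2) * NN) =
      10000 * K ^ 2 * 262144 * t2 * ((1 / r) ^ 3 * (p.M / p.s ^ 3) ^ 3 *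
        (16 * (p.M * DD) + 8 * NN)) +
      10000 * K ^ 2 * 4096 * 4 * t2 * ((1 / r) ^ 6 * (p.M / p.s ^ 3) ^ 2 * NN) := by
      field_simp
      ring
    rw [e]
    have h3 : 16 * (p.M * DD) + 8 * NN ≤ 16 * (p.M * DD + NN) := by linarith
    have h4 : 10000 * K ^ 2 * 262144 * t2 * ((1 / r) ^ 3 * (p.M / p.s ^ 3) ^ 3 *
        (16 * (p.M * DD) + 8 * NN)) ≤
        10000 * K ^ 2 * 262144 * t2 * ((1 / r) ^ 3 * (p.M / p.s ^ 3) ^ 3 *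
        (16 * (p.M * DD + NN))) :=
      mul_le_mul_of_nonneg_left (mul_le_mul_of_nonneg_left h3 (by positivity)) (by positivity)
    have h5 : 10000 * K ^ 2 * 262144 * t2 * ((1 / r) ^ 3 * (p.M / p.s ^ 3) ^ 3 *
        (16 * (p.M * DD + NN))) =
        10000 * K ^ 2 * 262144 * 16 * t2 * ((1 / r) ^ 3 * (p.M / p.s ^ 3) ^ 3 * (p.M * DD + NN)) := by
      ring
    linarith
  have p1 : 0 ≤ (r / p.s) * (p.M / p.s ^ 3) ^ 2 * (τ₁ * DD + t1 * NN) := by positivity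
  have p2 : 0 ≤ t2 * ((1 / r) ^ 3 * (p.M / p.s ^ 3) ^ 3 * (p.M * DD + NN)) := by positivity
  have p3 : 0 ≤ t2 * ((1 / r) ^ 6 * (p.M / p.s ^ 3) ^ 2 * NN) := by positivity
  generalize hX1 : (r / p.s) * (p.M / p.s ^ 3) ^ 2 * (τ₁ * DD + t1 * NN) = X1 at p1
  generalize hX2 : t2 * ((1 / r) ^ 3 * (p.M / p.s ^ 3) ^ 3 * (p.M * DD + NN)) = X2 at p2
  generalize hX3 : t2 * ((1 / r) ^ 6 * (p.M / p.s ^ 3) ^ 2 * NN) = X3 at p3
  have q1 : 32 * C1 * (r / p.s) * (p.M / p.s ^ 3) ^ 2 * (τ₁ * DD + t1 * NN) = 32 * C1 * X1 := by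
    rw [← hX1]; ring
  have q2 : 10000 * K ^ 2 * 262144 * 16 * t2 * ((1 / r) ^ 3 * (p.M / p.s ^ 3) ^ 3 *
      (p.M * DD + NN)) = 10000 * K ^ 2 * 262144 * 16 * X2 := by
    rw [← hX2]; ring
  have q3 : 10000 * K ^ 2 * 4096 * 4 * t2 * ((1 / r) ^ 6 * (p.M / p.s ^ 3) ^ 2 * NN) =
      10000 * K ^ 2 * 4096 * 4 * X3 := by
    rw [← hX3]; ring
  rw [q1] at g1
  rw [q2, q3] at g2
  set Cc := 32 * C1 + 10000 * K ^ 2 * 262144 * 16 + 10000 * K ^ 2 * 4096 * 4 with hCc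
  have f1 : Cc * (r / p.s) * (p.M / p.s ^ 3) ^ 2 * (τ₁ * DD + t1 * NN) = Cc * X1 := by
    rw [← hX1]; ring
  have f2 : Cc * t2 * ((1 / r) ^ 3 * (p.M / p.s ^ 3) ^ 3 * (p.M * DD + NN) +
      (1 / r) ^ 6 * (p.M / p.s ^ 3) ^ 2 * NN) = Cc * X2 + Cc * X3 := by
    rw [← hX2, ← hX3]; ring
  rw [f1, f2]
  have hK2 : 0 ≤ K ^ 2 := sq_nonneg K
  have k1 : 32 * C1 * X1 ≤ Cc * X1 := mul_le_mul_of_nonneg_right (by rw [hCc]; linarith) p1
  have k2 : 10000 * K ^ 2 * 262144 * 16 * X2 ≤ Cc * X2 :=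
    mul_le_mul_of_nonneg_right (by rw [hCc]; linarith) p2
  have k3 : 10000 * K ^ 2 * 4096 * 4 * X3 ≤ Cc * X3 :=
    mul_le_mul_of_nonneg_right (by rw [hCc]; linarith) p3
  linarith

end Pool.Agent.Lib.MP_5db8e2_mp
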