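import Pool.Agent.Lib.MP_5db8e2_mp.LB.Spec8

/-!
# Lower bound, part 9: numbers, final assembly
-/

set_option autoImplicit false

open MeasureTheory Function Finset
open scoped Classical

namespace Pool.Agent.Lib.MP_5db8e2_mp

/-- **Esy.** The elementary symmetric functions of small weights.

PROOF. Let `e_k = esy g k x`, `e_0 = 1`, `e_1 = S`. `k e_k = ∑_j g_j e_{k-1}(without j)` and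
`e_{k-1} ≥ e_{k-1}(without j) ≥ e_{k-1} - g_je_{k-2}` (`e_{k-1} = e_{k-1}(without j) + g_j
e_{k-2}(without j)`), so `Se_{k-1} - (S/m)e_{k-2} ≤ k e_k ≤ S e_{k-1}` (`g_j² ≤ g_j/m`). Hence
`e_2 ≤ S²/2`, `e_2 ≥ (S²-S/m)/2`, `e_3 ≤ S³/6`, `3e_3 ≥ S e_2 - S²/m ≥ S³/2 - 3S²/(2m)`,
`e_4 ≤ S⁴/24`, `4e_4 ≥ Se_3 - (S/m)e_2 ≥ S⁴/6 - S³/m`. Last part: keep only the triples of particles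
with `γ ≤ g`. -/
def S_Esy : Prop :=
  ∀ {N : ℕ} (m : ℝ) (_ : 0 < m) (g : R3 → ℝ) (_ : ∀ c, 0 ≤ g c) (_ : ∀ c, g c ≤ 1 / m)
    (x : Fin N → R3),
    0 ≤ esy g 3 x ∧ 0 ≤ esy g 4 x ∧
    esy g 3 x ≤ (∑ j, g (x j)) ^ 3 / 6 ∧ esy g 4 x ≤ (∑ j, g (x j)) ^ 4 / 24 ∧
    (∑ j, g (x j)) ^ 3 / 6 - (∑ j, g (x j)) ^ 2 / (2 * m) ≤ esy g 3 x ∧
    (∑ j, g (x j)) ^ 4 / 24 - (∑ j, g (x j)) ^ 3 / (4 * m) ≤ esy g 4 x ∧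
    ∀ (γ : ℝ) (_ : 0 ≤ γ) (Z : Set R3) (_ : ∀ c ∈ Z, γ ≤ g c),
      γ ^ 3 * ((cnt Z univ x).choose 3 : ℝ) ≤ esy g 3 x

/-- The cells (side `s`). -/
def cell (s : ℝ) (a : Fin 3 → ℤ) : Set R3 := {c | ∀ k, |c k - s * a k| ≤ s / 2}

/-- Heavy cells which contain a fixed fraction of the particles of the big window. -/
noncomputable def Par.RH (p : Par) (x : Fin p.N → R3) : Finset (Fin 3 → ℤ) :=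
  p.win.filter (fun a => p.M ≤ 686 * (cnt (cell p.s a) univ x : ℝ) ∧
    (cnt (Bc p.s a) univ x : ℝ) ≤ 470596 * (cnt (cell p.s a) univ x : ℝ))

/-- **Cells.** The particles in the dense big windows are controlled by the rich heavy cells.

PROOF. `n_B(a) = cnt (Bc a)`, `n(a) = cnt (cell a)`, `out(a) = cnt (Bc a ∩ strip)`. A point `c ∈ Bc a` is
in some `cell a'`, `a'_k = round(c_k/s)`, `|a'_k - a_k| ≤ 3`; if `a' ∉ win` then `c ∈ strip`. So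
`n_B(a) ≤ out(a) + ∑_{a'∈win, |a'-a|≤3} n(a')` (at most `343` terms): either `n_B(a) ≤ 2 out(a)` or
`n_B(a) ≤ 686 n(a')` for one of these `a'`, and if `n_B(a) > M` then `a'` is heavy (`M ≤ 686 n(a')`).
Hence `∑_{bad} n_B ≤ 2∑_a out(a) + 686·343 ∑_{heavy} n ≤ 686 cs + 686·343∑_{heavy} n`,
`cs = cnt strip` (`∑_a out(a) ≤ 343 cs`: `Overlap`, every point is in at most `343` of the `Bc a`). If `c`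
is heavy but not in `RH`: `n_B(c) > 470596 n(c) ≥ 686 M > M`, so `n(c) ≤ out(c)` or
`n(c) ≤ n(c')/686` with a heavy `c'`, `|c'-c| ≤ 3`: `∑_{heavy∖RH} n ≤ (2/470596)·343cs +
(343/686)∑_{heavy} n`, thus `∑_{heavy} n ≤ 2∑_{RH}n + 2cs`. -/
def S_Cells : Prop :=
  ∃ C : ℝ, 1 ≤ C ∧ ∀ (p : Par) (_ : p.OK) (x : Fin p.N → R3),
    ∑ a ∈ p.win, (if p.M < cnt (Bc p.s a) univ x then (cnt (Bc p.s a) univ x : ℝ) else 0)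
      ≤ C * ((cnt p.strip univ x : ℝ) + ∑ a ∈ p.RH x, (cnt (cell p.s a) univ x : ℝ))

/-- **Pt.** The pointwise lower bound of the main terms.

PROOF. `m = s³`, `μ = M/m = C₀ρ`, `S_a = ∑_j gd a (x_j)`, `n_B = cnt (Bc a)`,
`mS_a = ∑_jθ_a(x_j) ≤ n_B`; `e₂(t) = bt³/6 + Val t⁴/24`, `μ₁ = e₂'(ρ) = bρ²/2+Val ρ³/6`,
`κ₀ = ρμ₁ - e₂(ρ) = bρ³/3 + Val ρ⁴/8`. For `X` large (`ρ ≤ 1/X`): `0 ≤ μ₁ ≤ bρ²`, `κ₀ ≥ 0`,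
`|Val|μ ≤ b/2`, `(|Val|+Ce)C₀³ρ ≤ b`.
(i) Always (`b e_3 ≥ 0`; `lam4(n_B-4) ≠ 0` implies `n_B ≤ 2M`, `me_4 ≤ mS⁴/24 ≤ μ³n_B/3`): the term is
`≥ -|Val|μ³n_B/3`.
(ii) Good windows (`n_B ≤ M`): `lam3 = lam4 = 1`, and by `Esy` the term is
`≥ m e₂(S) - bS²/2 - |Val|S³/4 ≥ m e₂(S) - bμ²/2-|Val|μ³/4`; `e₂` is convex on `[0,μ] ∋ ρ`, so
`e₂(S) ≥ μ₁S - κ₀`; the error is `≤ (ε/2)mρ⁴` by `X ≤ ρ²m`.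
(iii) Rich heavy windows: with `n = cnt (cell a)`, `gd ≥ 1/(8m)` on the cell (`prof t ≥ 1/2` for
`|t| ≤ 1/2`: monotone in `|t|` and `prof(1/2) = 1/2`), so `e_3 ≥ (8m)^{-3}C(n,3) ≥ (8m)^{-3}n³/12`
(`n ≥ M/686 ≥ 6`); `lam3(n_B-3) ≥ min(1, (M/(470596n))²)`; hence
`E_3 := m b lam3 e_3 ≥ κ b C₀²ρ² n`, `κ = 1/(6144·470596²)`. If the window is bad: term
`≥ E_3 - |Val|μ³n_B/3`. If it is good: term `≥ ½E_3 + ½mbe_3 - |Val|mS⁴/24 ≥ ½E_3 + mbS³/16 - bS²/4 ≥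
½E_3 + mb S³/32 ≥ ½E_3 + mμ₁S` since `S ≥ n/(8m) ≥ C₀ρ/5488`, `mS ≥ 8`, `C₀ ≥ 32928`.
Sum: `m #win ≤ L³`, `∑_amS_a ≥ N - cs`, `cs = cnt strip` (`∑θ_a = 1` off the strip):
`LHS ≥ μ₁(N-cs) - κ₀L³ - (ε/2)ρ⁴L³ + ½κbC₀²ρ²∑_{RH}n - (μ₁+(|Val|/3+Ce)μ³)∑_{bad}n_B`, and by `Cells`
`∑_{bad}n_B ≤ C_c(cs + ∑_{RH}n)`; choose `C₀² ≥ 4C_c/κ`. -/
def S_Pt : Prop :=
  ∃ C₀ : ℝ, 1 ≤ C₀ ∧ ∀ (b Val ε Ce : ℝ) (_ : 0 < b) (_ : 0 < ε) (_ : 0 ≤ Ce), ∃ X C' : ℝ,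
    1 ≤ X ∧ 0 < C' ∧ ∀ (ρ : ℝ) (_ : 0 < ρ) (_ : ρ ≤ 1 / X) (p : Par) (_ : p.OK)
    (_ : p.M = C₀ * ρ * p.s ^ 3) (_ : X ≤ ρ ^ 2 * p.s ^ 3) (x : Fin p.N → R3),
    (b * ρ ^ 2 / 2 + Val * ρ ^ 3 / 6) * p.N - (b * ρ ^ 3 / 3 + Val * ρ ^ 4 / 8) * p.L ^ 3
        - ε * ρ ^ 4 * p.L ^ 3 - C' * ρ ^ 2 * (cnt p.strip univ x : ℝ)
      ≤ ∑ a ∈ p.win, p.s ^ 3 * (b * (lam3 p.M (cnt (Bc p.s a) univ x - 3) * esy (p.gd a) 3 x)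
          + Val * (lam4 p.M (cnt (Bc p.s a) univ x - 4) * esy (p.gd a) 4 x))
        - Ce * p.mu ^ 3 * ∑ a ∈ p.win,
          (if p.M < cnt (Bc p.s a) univ x then (cnt (Bc p.s a) univ x : ℝ) else 0)

/-- The coefficients of the errors. -/
noncomputable def eD (s M r r4 τ τ₁ τ₂ τ₄ θ : ℝ) : ℝ :=
  (r / s) * (M / s ^ 3) ^ 2 * τ₁ + τ₂ + τ₂⁻¹ * (1 / r) ^ 3 * (M / s ^ 3) ^ 3 * M + τ₄ * M ^ 3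
  + r * (M / s ^ 3) ^ 3 * M + θ * r * (M / s ^ 3) ^ 3 * M ^ 2 + θ⁻¹ * r4 * (M / s ^ 3) ^ 4 * M
  + r4 ^ 2 * (M / s ^ 3) ^ 4 + r4 * (M / s ^ 3) ^ 4 * M ^ 2 + τ⁻¹ * (M / s ^ 3) ^ 3
  + (M / s ^ 3) ^ 3 + (M / s ^ 3) ^ 2

noncomputable def eN (s M r r4 τ τ₁ τ₂ τ₄ θ : ℝ) : ℝ :=
  (r / s) * (M / s ^ 3) ^ 2 * τ₁⁻¹ + τ₂⁻¹ * ((1 / r) ^ 3 * (M / s ^ 3) ^ 3
    + (1 / r) ^ 6 * (M / s ^ 3) ^ 2) + τ₄⁻¹ * (1 / r4) ^ 9 * (M / s ^ 3) ^ 3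
  + (1 / r) ^ 4 * (M / s ^ 3) ^ 2 + r ^ 2 * (M / s ^ 3) ^ 4 + (θ + θ⁻¹) * r * r4 * (M / s ^ 3) ^ 5
  + r4 * √r4 * (M / s ^ 3) ^ 4 + r4 ^ 2 * (M / s ^ 3) ^ 6 + r4 ^ 2 * (M / s ^ 3) ^ 5
  + r4 * (M / s ^ 3) ^ 4 + (M / s ^ 3) ^ 3 * τ + (M / s ^ 3) ^ 3 * τ⁻¹ * (r4 / s) ^ 2

noncomputable def aD (s M r r4 : ℝ) : ℝ :=
  s ^ 2 * (r4 * (M / s ^ 3) ^ 4 * M ^ 2) + r ^ 2 * (M / s ^ 3) ^ 3 * M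

noncomputable def aN (s M r r4 : ℝ) : ℝ :=
  s ^ 2 * ((M / s ^ 3) ^ 3 + r4 ^ 2 * (M / s ^ 3) ^ 6 + r4 ^ 2 * (M / s ^ 3) ^ 5
    + r4 * (M / s ^ 3) ^ 4) + (M / s ^ 3) ^ 2 + r ^ 2 * (M / s ^ 3) ^ 3 + r ^ 4 * (M / s ^ 3) ^ 4

/-- **Ineq.** All the estimates together.

PROOF. `Identity`; `2 Lin3 ≥ 2bG3 - 2err` (`Lin3`), `2 Lin4 ≥ 2W G4 - 2err` (`Lin4`); `QuadSplit`,
`DiagT` (`(K/r⁴)G3 ≤ KCr^{-4}μ²Nn`: `Mains`), `Q4b`, `TTb`, `TQb`, `QPb`: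
`E ≥ RR + bG3 + (2W-QQ)G4 + QQ(G4-VV) - ...`; `|QQ|, |W| ≤ C` (`QQint`), `|G4-VV| ≤ Cμ³(D+ND+NS)`
(`VVup`, `VVlow`), `bG3 ≥ bT3 - |b|Cμ²D`, `(2W-QQ)G4 ≥ (2W-QQ)T4 - |2W-QQ|Cμ³D` (`Mains`; needs
`0 ≤ b` or the two-sided bounds of `G3`). All the `D`, `Nn`, ... are nonnegative, so the constants may
be replaced by their sum `C`. -/
def S_Ineq : Prop :=
  ∀ K R b : ℝ, ∃ C : ℝ, 1 ≤ C ∧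
    ∀ (V : R3 → R3 → ℝ) (r r4 W QQ : ℝ) (c : Cor) (_ : c.OK V b K R r r4 W QQ) (p : Par)
    (_ : p.OK) (_ : p.Large r4) (Ψ : (Fin p.N → R3) → ℝ) (_ : ContDiff ℝ 1 Ψ)
    (_ : HasCompactSupport Ψ) (τ τ₁ τ₂ τ₄ θ : ℝ) (_ : 0 < τ) (_ : τ ≤ 1) (_ : 0 < τ₁) (_ : 0 < τ₂)
    (_ : 0 < τ₄) (_ : 0 < θ),
    p.RR c Ψ + b * p.T3 Ψ + (2 * W - QQ) * p.T4 Ψ - C * eD p.s p.M r r4 τ τ₁ τ₂ τ₄ θ * p.D Ψ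
      - C * eN p.s p.M r r4 τ τ₁ τ₂ τ₄ θ * p.Nn Ψ - C * τ⁻¹ * p.mu ^ 3 * p.ND Ψ
      - C * p.mu ^ 3 * p.NS Ψ ≤ energy V p.L Ψ

/-- **Asy.** The asymptotics of the coefficients.

PROOF. With `u = t⁻¹`, `s³ = t^{-204}`, `M = C₀t^{-104}`, `M/s³ = C₀t^{100}`, `√r4 = t^{-26}`, every term is
a constant times a power of `t`; the exponents are: `eD`: `139, 138, 199, 140, 149, 141, 148, 296, 140,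
300, 300, 200` (all `> 136`, `s² = t^{-136}`); `eN`: `303, 303, 344, 316, 388, 306, 305 (θ⁻¹; θ: larger), 322,
496, 396, 348`, then `C₀³τ t^{300}` (choose `τ` small) and `332`; `aD`: `4, 102`; `aN`: minimum `164`, and
`164 + 138 = 302 > 300`. -/
def S_Asy : Prop :=
  ∀ (C₀ C ε : ℝ) (_ : 1 ≤ C₀) (_ : 1 ≤ C) (_ : 0 < ε), ∃ τ : ℝ, 0 < τ ∧ τ ≤ 1 ∧
    ∀ X : ℝ, ∃ t₀ : ℝ, 0 < t₀ ∧ t₀ < 1 ∧ ∀ t : ℝ, 0 < t → t < t₀ → ∀ ρ s r r4 M τ₁ τ₂ τ₄ θ : ℝ,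
      ρ = t ^ 100 → s = t⁻¹ ^ 68 → r = t⁻¹ ^ 47 → r4 = t⁻¹ ^ 52 → M = C₀ * ρ * s ^ 3 →
      τ₁ = t⁻¹ ^ 82 → τ₂ = t ^ 138 → τ₄ = t ^ 452 → θ = t ^ 96 →
      C * aD s M r r4 ≤ 1 / 2 ∧
      2 * C * s ^ 2 * (C * eD s M r r4 τ τ₁ τ₂ τ₄ θ) ≤ 1 / 2 ∧
      C * eN s M r r4 τ τ₁ τ₂ τ₄ θ + 2 * C * aN s M r r4 * (C * eD s M r r4 τ τ₁ τ₂ τ₄ θ)
        ≤ ε * ρ ^ 3 ∧
      X ≤ r ∧ r ≤ r4 ∧ 1 ≤ s ∧ 8 ≤ M ∧ 100 * r4 / s ≤ 1 / 4 ∧ ρ ≤ 1 / (1 + |X|) ∧ X ≤ ρ ^ 2 * s ^ 3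

/-- **Lower.** The lower bound. -/
def S_Lower : Prop :=
  ∀ (V : R3 → R3 → ℝ) (_ : Pot V) (_ : 0 < bM V) (Val K R r₀ : ℝ)
    (_ : ∀ r, r₀ ≤ r → ∀ r4, r ≤ r4 → ∃ (c : Cor) (W QQ : ℝ),
      c.OK V (bM V) K R r r4 W QQ ∧ Val ≤ 2 * W - QQ)
    (ε : ℝ) (_ : 0 < ε), ∃ ρ₀ : ℝ, 0 < ρ₀ ∧ ∀ ρ : ℝ, 0 < ρ → ρ < ρ₀ →
    ∃ δ L₀ : ℝ, 0 < δ ∧ 0 < L₀ ∧ ∀ L : ℝ, L₀ ≤ L → ∀ N : ℕ, |(N : ℝ) / L ^ 3 - ρ| ≤ δ →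
    ∀ Ψ : (Fin N → R3) → ℝ, ContDiff ℝ 1 Ψ →
      L ^ 3 * (bM V * ρ ^ 3 / 6 + Val * ρ ^ 4 / 24 - ε * ρ ^ 4) * ∫ x in box L N, Ψ x ^ 2
        ≤ energy V L Ψ

end Pool.Agent.Lib.MP_5db8e2_mp
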