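import Pool.Agent.Lib.MP_5db8e2_mp.FourC3
import Pool.Agent.Lib.MP_5db8e2_mp.LB.Spec9

/-!
# Lower bound: from the abstract form `S_Lower` to the four-body constant
-/

set_option autoImplicit false

open MeasureTheory Function Finset
open scoped Classical

namespace Pool.Agent.Lib.MP_5db8e2_mp

theorem Data3.mono {V : R3 → R3 → ℝ} {b K K' r : ℝ} {φ w : (Fin 3 → R3) → ℝ}
    (h : Data3 V b K r φ w) (hK : K ≤ K') (hr : 0 < r) : Data3 V b K' r φ w := by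
  refine ⟨h.c1, h.ti, h.pi, h.supp, fun x => (h.bd x).trans ?_, fun x m a => (h.bd' x m a).trans ?_,
    h.w_meas, h.w_ti, h.w_pi, h.w_supp, fun x => (h.w_bd x).trans ?_, h.w_int, h.weak,
    h.a_bd.trans ?_⟩
  · have := rad_nonneg x
    exact div_le_div_of_nonneg_right hK (by positivity)
  · have := rad_nonneg x
    exact div_le_div_of_nonneg_right hK (by positivity)
  · exact div_le_div_of_nonneg_right hK (by positivity)
  · have : K / r ^ 4 ≤ K' / r ^ 4 := div_le_div_of_nonneg_right hK (by positivity)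
    linarith

theorem Data4.mono {V : R3 → R3 → ℝ} {φ : (Fin 3 → R3) → ℝ} {K K' R R' r W QQ : ℝ}
    {g : Fin 4 → Fin 3 → (Fin 4 → R3) → ℝ} {s : Fin 4 → (Fin 4 → R3) → ℝ}
    {w : (Fin 4 → R3) → ℝ} (h : Data4 V φ K R r W QQ g s w) (hK : K ≤ K') (hR : R ≤ R')
    (hr : 0 < r) : Data4 V φ K' R' r W QQ g s w := by
  refine ⟨h.g_meas, h.g_ti, h.g_sum, h.g_supp, fun m a x => (h.g_bd m a x).trans ?_, h.s_meas,
    h.s_ti, fun l x hx => (h.s_supp l x hx).trans hR, fun l x => (h.s_bd l x).trans hK,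
    h.w_meas, h.w_ti, h.w_supp, fun x => (h.w_bd x).trans ?_, h.w_int, h.weak, h.QQ_eq⟩
  · have := rad_nonneg x
    exact div_le_div_of_nonneg_right hK (by positivity)
  · exact div_le_div_of_nonneg_right hK (by positivity)

/-- The lower bound with the four-body constant. -/
theorem lower_of (hL : S_Lower) {V : R3 → R3 → ℝ} (hV : Pot V) {φ : (Fin 3 → R3) → ℝ}
    (h : Scat V φ) (hb : 0 < bM V) :
    ∀ ε > (0 : ℝ), ∃ ρ0 > (0 : ℝ), ∀ ρ : ℝ, 0 < ρ → ρ < ρ0 → ∃ L0 > (0 : ℝ), ∃ δ > (0 : ℝ),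
    ∀ L : ℝ, L ≥ L0 → ∀ N : ℕ, |(N : ℝ) / L ^ 3 - ρ| ≤ δ → ∀ Ψ : (Fin N → R3) → ℝ,
      ContDiff ℝ 1 Ψ →
      L ^ 3 * (bM V * ρ ^ 3 / 6 + b4 V φ * ρ ^ 4 / 24 - ε * ρ ^ 4) * ∫ x in box L N, Ψ x ^ 2 ≤
        energy V L Ψ := by
  intro ε hε
  obtain ⟨K, hK, r0, hr0, φr, w3, h3, h4⟩ := exists_data hV h
  obtain ⟨K', hK', R', hR', r1, hr1, h4⟩ := h4 (ε * 12) (by positivity)
  obtain ⟨-, -, -, -, B, hB, RV, hRV, -, hVs⟩ := V3_props hV
  obtain ⟨BV, hBV⟩ := hV.bdd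
  set Kc := max (max K K') (max 1 BV) with hKc
  set Rc := max R' RV with hRc
  have hKc1 : K ≤ Kc := (le_max_left _ _).trans (le_max_left _ _)
  have hKc2 : K' ≤ Kc := (le_max_right _ _).trans (le_max_left _ _)
  have hKc3 : 1 ≤ Kc := (le_max_left _ _).trans (le_max_right _ _)
  have hKc4 : BV ≤ Kc := (le_max_right _ _).trans (le_max_right _ _)
  have hRc1 : R' ≤ Rc := le_max_left _ _
  have hRc2 : RV ≤ Rc := le_max_right _ _
  obtain ⟨ρ₀, hρ₀, hlow⟩ := hL V hV hb (b4 V φ - ε * 12) Kc Rc (max (max r0 r1) (max 1 Rc))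
    (by
      intro r hr r4 hr4
      simp only [max_le_iff] at hr
      obtain ⟨⟨hra, hrb⟩, hrc, hrd⟩ := hr
      obtain ⟨d3, -⟩ := h3 r hra
      obtain ⟨g, s, w, W, QQ, d4, hval⟩ := h4 r hrb r4 (hrb.trans hr4)
      have hr0' : 0 < r := by linarith
      refine ⟨⟨φr r, w3 r, g, s, w⟩, W, QQ, ⟨hV, fun x hx => (hVs x hx).trans hRc2,
        fun x y => (hBV x y).trans hKc4, d3.mono hKc1 hr0', d4.mono hKc2 hRc1 (hr0'.trans_le hr4),
        hKc3, hR'.le.trans hRc1, hrc, hr4, hrd.trans hr4⟩, hval⟩)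
    (ε / 2) (by positivity)
  refine ⟨ρ₀, hρ₀, fun ρ hρ hρlt => ?_⟩
  obtain ⟨δ, L₀, hδ, hL₀, hlow⟩ := hlow ρ hρ hρlt
  refine ⟨L₀, hL₀, δ, hδ, fun L hL N hN Ψ hΨ => ?_⟩
  refine le_of_eq_of_le ?_ (hlow L hL N hN Ψ hΨ)
  ring

end Pool.Agent.Lib.MP_5db8e2_mp
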