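import Pool.Agent.Lib.MP_5db8e2_mp.LB.WeakT

/-!
# Lower bound, part 5: the four-body equation in the `N`-particle space
-/

set_option autoImplicit false

open MeasureTheory Function Finset
open scoped Classical

namespace Pool.Agent.Lib.MP_5db8e2_mp

namespace WeakAux

/-- the increasing enumeration of `Q` without its `m`-th element -/
theorem pick_erase {N : ℕ} {Q : Finset (Fin N)} (hQ : Q.card = 4) (m : Fin 4) (x : Fin N → R3) :
    pick 3 (Q.erase (Q.orderEmbOfFin hQ m)) x = sub4 m (pick 4 Q x) := by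
  have hm : Q.orderEmbOfFin hQ m ∈ Q := Finset.orderEmbOfFin_mem Q hQ m
  have hc : (Q.erase (Q.orderEmbOfFin hQ m)).card = 3 := by
    rw [Finset.card_erase_of_mem hm, hQ]
  have hu : (fun j : Fin 3 => Q.orderEmbOfFin hQ (m.succAbove j))
      = (Q.erase (Q.orderEmbOfFin hQ m)).orderEmbOfFin hc := by
    refine Finset.orderEmbOfFin_unique hc (fun j => ?_) ?_
    · rw [Finset.mem_erase]
      refine ⟨fun h => ?_, Finset.orderEmbOfFin_mem Q hQ _⟩
      exact Fin.succAbove_ne m j ((Q.orderEmbOfFin hQ).injective h)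
    · intro i j hij
      exact (Q.orderEmbOfFin hQ).strictMono (Fin.strictMono_succAbove m hij)
  funext j
  unfold sub4 pick
  rw [dif_pos hc, dif_pos hQ, ← hu]

theorem sQ_orderEmb {N : ℕ} (s : Fin 4 → (Fin 4 → R3) → ℝ) {Q : Finset (Fin N)} (hQ : Q.card = 4)
    (m : Fin 4) (x : Fin N → R3) : sQ s Q (Q.orderEmbOfFin hQ m) x = s m (pick 4 Q x) := by
  unfold sQ
  have : ∀ m', (if isEl 4 Q m' (Q.orderEmbOfFin hQ m) then s m' (pick 4 Q x) else 0)
      = if m' = m then s m' (pick 4 Q x) else 0 := by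
    intro m'
    have h : isEl 4 Q m' (Q.orderEmbOfFin hQ m) ↔ m' = m :=
      ⟨fun ⟨_, e⟩ => (Q.orderEmbOfFin hQ).injective e, fun e => ⟨hQ, by rw [e]⟩⟩
    by_cases h1 : m' = m
    · rw [if_pos (h.2 h1), if_pos h1]
    · rw [if_neg (fun h' => h1 (h.1 h')), if_neg h1]
  simp only [this]
  rw [Finset.sum_ite_eq']
  simp

theorem sum_VTsQ {N : ℕ} (V : R3 → R3 → ℝ) (s : Fin 4 → (Fin 4 → R3) → ℝ) {Q : Finset (Fin N)}
    (hQ : Q.card = 4) (x : Fin N → R3) :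
    ∑ i ∈ Q, VT V (Q.erase i) x * sQ s Q i x
      = ∑ l, V4 V l (pick 4 Q x) * s l (pick 4 Q x) := by
  have h1 : ∑ i ∈ Q, VT V (Q.erase i) x * sQ s Q i x
      = ∑ m : Fin 4, VT V (Q.erase (Q.orderEmbOfFin hQ m)) x * sQ s Q (Q.orderEmbOfFin hQ m) x := by
    calc ∑ i ∈ Q, VT V (Q.erase i) x * sQ s Q i x
        = ∑ i ∈ (univ : Finset (Fin 4)).map (Q.orderEmbOfFin hQ).toEmbedding,
            VT V (Q.erase i) x * sQ s Q i x := by rw [Finset.map_orderEmbOfFin_univ Q hQ]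
      _ = _ := by rw [Finset.sum_map]; rfl
  rw [h1]
  refine Finset.sum_congr rfl fun m _ => ?_
  rw [sQ_orderEmb s hQ m x]
  unfold VT V4
  rw [pick_erase hQ m x]

end WeakAux

open WeakAux in
theorem WeakQ (hPut : S_Put) (hCl : S_ClInt) (hS : S_Supp) (hWd : S_WdWin) (hBM : S_BMall) :
    S_WeakQ := by
  intro V b K R r r4 W QQ c hc p hp hL Ψ hΨ hΨc Q hQ
  have hQ4 : Q.card = 4 := (Finset.mem_powersetCard.1 hQ).2
  have hΨb : BM Ψ := bm_of_compact hΨ hΨc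
  obtain ⟨b1, b2, b3, b4', b5, b6, b7, b8, b9, b10, b11, b12, b13, b14, b15, b16⟩ :=
    hBM V b K R r r4 W QQ c hc p hp Ψ hΨb Q
  have hVT : ∀ A, BM (VT V A : (Fin p.N → R3) → ℝ) := fun A =>
    (hBM V b K R r r4 W QQ c hc p hp Ψ hΨb A).2.2.2.2.2.2.1
  have hr4 : 0 ≤ r4 := by linarith [hc.hr, hc.hr4]
  rw [← integral_neg]
  refine reduce hCl p 4 Q hQ4 _ _ ?_ ?_
    (fun x y => p.vt4 Ψ Q (cm y) x *
      ∑ m, ∑ a, c.g m a y * pd (fun y => Ψ (put 4 Q y x)) m a y)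
    (fun x y => -(p.vt4 Ψ Q (cm y) x *
      ((∑ l, V4 V l y * c.s l y + c.wq y) * Ψ (put 4 Q y x))))
    ?_ ?_ ?_ ?_ ?_
  · exact BM.sum _ fun i _ => BM.sum _ fun a _ => (b2 i a).mul ((b16 hΨ hΨc i a).mul b15)
  · refine (BM.mul (BM.add (BM.sum _ fun i _ => (hVT _).mul (b3 i)) b6) (hΨb.mul b15)).neg
  · intro x y
    obtain ⟨q1, _, _, q4, q5, _, q7, _⟩ := hPut 4 Q hQ4 y x
    rw [v4_put hPut p hQ4]
    unfold gQ
    rw [q1]
    rw [sum_gT (fun m a => c.g m a y) hQ4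
      (fun i a => pd Ψ i a (put 4 Q y x) * p.vt4 Ψ Q (cm y) x)]
    rw [Finset.mul_sum]
    refine Finset.sum_congr rfl fun m _ => ?_
    rw [Finset.mul_sum]
    refine Finset.sum_congr rfl fun a _ => ?_
    rw [(q7 Ψ hΨ).2 m a]
    ring
  · intro x y
    obtain ⟨q1, _, _, q4, q5, _, q7, _⟩ := hPut 4 Q hQ4 y x
    rw [v4_put hPut p hQ4, sum_VTsQ V c.s hQ4, q1]
    ring
  · intro x y hne
    have h1 : p.vt4 Ψ Q (cm y) x ≠ 0 := left_ne_zero_of_mul hne
    have h2 := right_ne_zero_of_mul hne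
    obtain ⟨a, ha, hth⟩ := vt4_ne p h1
    have hrad : rad y ≤ r4 := by
      obtain ⟨m, _, hm⟩ := Finset.exists_ne_zero_of_sum_ne_zero h2
      obtain ⟨a', _, ha'⟩ := Finset.exists_ne_zero_of_sum_ne_zero hm
      exact hc.d4.g_supp m a' y (left_ne_zero_of_mul ha')
    exact supp_Om hPut hS hWd p hp hr4 hL (by norm_num) hQ4 x y ha hth hrad
  · intro x y hne
    have hne' := neg_ne_zero.1 hne
    have h1 : p.vt4 Ψ Q (cm y) x ≠ 0 := left_ne_zero_of_mul hne'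
    have h2 := left_ne_zero_of_mul (right_ne_zero_of_mul hne')
    obtain ⟨a, ha, hth⟩ := vt4_ne p h1
    have hrad : rad y ≤ r4 := by
      by_cases hw : c.wq y = 0
      · rw [hw, add_zero] at h2
        obtain ⟨l, _, hl⟩ := Finset.exists_ne_zero_of_sum_ne_zero h2
        exact (hc.d4.s_supp l y (right_ne_zero_of_mul hl)).trans hc.hR4
      · exact hc.d4.w_supp y hw
    exact supp_Om hPut hS hWd p hp hr4 hL (by norm_num) hQ4 x y ha hth hrad
  · intro x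
    obtain ⟨_, _, _, _, _, _, q7, q8⟩ := hPut 4 Q hQ4 (fun _ => 0) x
    have hv : BM (fun c : R3 => p.vt4 Ψ Q c x) :=
      b13.comp (φ := fun c : R3 => (c, x)) (by fun_prop)
    have hz := (q7 Ψ hΨ).1
    have hzc := q8 Ψ hΨc
    rw [integral_neg]
    exact hc.d4.weak (fun c => p.vt4 Ψ Q c x) (fun y => Ψ (put 4 Q y x)) hv.1 hv.2 hz hzc

end Pool.Agent.Lib.MP_5db8e2_mp
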