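import Pool.Agent.Lib.MP_5db8e2_mp.LB.Spec7
import Pool.Agent.Lib.MP_5db8e2_mp.LB.WeakQ
import Pool.Agent.Lib.MP_5db8e2_mp.GeoD

/-!
# Lower bound, part 7: the pointwise estimate of the form inside the quadruple
-/

set_option autoImplicit false

open MeasureTheory Function Finset
open scoped Classical

namespace Pool.Agent.Lib.MP_5db8e2_mp

namespace Q4ptAux

/-! ### The kernel on `Fin 4` -/

theorem ker_lower {r4 : ℝ} {y : Fin 4 → R3} (m : Fin 4) {P : ℝ}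
    (h : ∀ j, ‖y m - y j‖ ≤ 4 * r4)
    (hP : ∏ j ∈ univ.erase m, (1 + ‖y m - y j‖) ^ (31 / 10 : ℝ) ≤ P) :
    1 ≤ P * KQ r4 univ y := by
  have h1 : ∏ j ∈ univ.erase m, kst r4 (y m - y j) ≤ KQ r4 univ y := by
    unfold KQ
    refine Finset.single_le_sum (f := fun i => ∏ j ∈ univ.erase i, kst r4 (y i - y j))
      (fun i _ => Finset.prod_nonneg fun j _ => ?_) (Finset.mem_univ m)
    unfold kst
    split_ifs
    · positivity
    · exact le_refl _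
  have h2 : ∏ j ∈ univ.erase m, kst r4 (y m - y j)
      = (∏ j ∈ univ.erase m, (1 + ‖y m - y j‖) ^ (31 / 10 : ℝ))⁻¹ := by
    rw [← Finset.prod_inv_distrib]
    refine Finset.prod_congr rfl fun j _ => ?_
    unfold kst
    rw [if_pos (h j), Real.rpow_neg (by positivity)]
  have h3 : 0 < ∏ j ∈ univ.erase m, (1 + ‖y m - y j‖) ^ (31 / 10 : ℝ) :=
    Finset.prod_pos fun j _ => by positivity
  rw [h2] at h1
  calc (1 : ℝ) = (∏ j ∈ univ.erase m, (1 + ‖y m - y j‖) ^ (31 / 10 : ℝ)) *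
        (∏ j ∈ univ.erase m, (1 + ‖y m - y j‖) ^ (31 / 10 : ℝ))⁻¹ := (mul_inv_cancel₀ h3.ne').symm
    _ ≤ P * KQ r4 univ y := mul_le_mul hP h1 (by positivity) (h3.le.trans hP)

theorem KQ_nonneg (r4 : ℝ) (y : Fin 4 → R3) : 0 ≤ KQ r4 univ y := by
  unfold KQ
  refine Finset.sum_nonneg fun i _ => Finset.prod_nonneg fun j _ => ?_
  unfold kst
  split_ifs
  · positivity
  · exact le_refl _

theorem dec_tri : ∀ l l' : Fin 4, l ≠ l' → ∃ m m' : Fin 4, m ≠ l ∧ m ≠ l' ∧ m' ≠ l ∧ m' ≠ l' ∧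
    m' ≠ m ∧ (univ.erase m : Finset (Fin 4)) = {l, l', m'} := by decide

theorem tri (l l' : Fin 4) (h : l ≠ l') : ∃ m m' : Fin 4, m ≠ l ∧ m ≠ l' ∧ m' ≠ l ∧ m' ≠ l' ∧
    ∀ f : Fin 4 → ℝ, ∏ j ∈ univ.erase m, f j = f l * (f l' * f m') := by
  obtain ⟨m, m', h1, h2, h3, h4, h5, h6⟩ := dec_tri l l' h
  refine ⟨m, m', h1, h2, h3, h4, fun f => ?_⟩
  rw [h6, Finset.prod_insert, Finset.prod_insert, Finset.prod_singleton]
  · simp only [Finset.mem_singleton]; exact h4.symm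
  · simp only [Finset.mem_insert, Finset.mem_singleton, not_or]
    exact ⟨h, h3.symm⟩

/-- pure inequality: exponents -/
theorem pow_a {u v p q s : ℝ} (hu : 1 ≤ u) (hv : 1 ≤ v) (hp : 0 ≤ p) (hq : 0 ≤ q) (hs : 0 ≤ s)
    (h1 : p ≤ v) (h2 : q ≤ u) (h3 : s ≤ u) (h4 : s ≤ v) :
    p ^ (31 / 10 : ℝ) * (q ^ (31 / 10 : ℝ) * s ^ (31 / 10 : ℝ)) ≤ u ^ 5 * v ^ 5 := by
  have e1 : p ^ (31 / 10 : ℝ) ≤ v ^ (31 / 10 : ℝ) := Real.rpow_le_rpow hp h1 (by norm_num)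
  have e2 : q ^ (31 / 10 : ℝ) ≤ u ^ (31 / 10 : ℝ) := Real.rpow_le_rpow hq h2 (by norm_num)
  have e3 : s ^ (31 / 10 : ℝ) ≤ (u * v) ^ (31 / 20 : ℝ) := by
    have : s ^ (31 / 10 : ℝ) = (s ^ (2 : ℝ)) ^ (31 / 20 : ℝ) := by
      rw [← Real.rpow_mul hs]; norm_num
    rw [this]
    apply Real.rpow_le_rpow (by positivity) _ (by norm_num)
    rw [Real.rpow_two]
    nlinarith
  have e4 : (u * v) ^ (31 / 20 : ℝ) = u ^ (31 / 20 : ℝ) * v ^ (31 / 20 : ℝ) :=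
    Real.mul_rpow (by linarith) (by linarith)
  calc p ^ (31 / 10 : ℝ) * (q ^ (31 / 10 : ℝ) * s ^ (31 / 10 : ℝ))
      ≤ v ^ (31 / 10 : ℝ) * (u ^ (31 / 10 : ℝ) * (u * v) ^ (31 / 20 : ℝ)) := by gcongr
    _ = u ^ (93 / 20 : ℝ) * v ^ (93 / 20 : ℝ) := by
        rw [e4, show (93 / 20 : ℝ) = 31 / 10 + 31 / 20 by norm_num,
          Real.rpow_add (by linarith), Real.rpow_add (by linarith)]
        ring
    _ ≤ u ^ (5 : ℝ) * v ^ (5 : ℝ) := by
        have := Real.rpow_le_rpow_of_exponent_le hu (show (93 / 20 : ℝ) ≤ 5 by norm_num)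
        have := Real.rpow_le_rpow_of_exponent_le hv (show (93 / 20 : ℝ) ≤ 5 by norm_num)
        gcongr
    _ = u ^ 5 * v ^ 5 := by norm_cast

theorem pow_b {u v p q s : ℝ} (hu : 1 ≤ u) (hv : 1 ≤ v) (hp : 0 ≤ p) (hq : 0 ≤ q) (hs : 0 ≤ s)
    (h1 : p ≤ v) (h2 : q ≤ v) (h3 : s ≤ u) :
    p ^ (31 / 10 : ℝ) * (q ^ (31 / 10 : ℝ) * s ^ (31 / 10 : ℝ)) ≤ u ^ 5 * v ^ 8 := by
  have e1 : p ^ (31 / 10 : ℝ) ≤ v ^ (31 / 10 : ℝ) := Real.rpow_le_rpow hp h1 (by norm_num)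
  have e2 : q ^ (31 / 10 : ℝ) ≤ v ^ (31 / 10 : ℝ) := Real.rpow_le_rpow hq h2 (by norm_num)
  have e3 : s ^ (31 / 10 : ℝ) ≤ u ^ (31 / 10 : ℝ) := Real.rpow_le_rpow hs h3 (by norm_num)
  calc p ^ (31 / 10 : ℝ) * (q ^ (31 / 10 : ℝ) * s ^ (31 / 10 : ℝ))
      ≤ v ^ (31 / 10 : ℝ) * (v ^ (31 / 10 : ℝ) * u ^ (31 / 10 : ℝ)) := by gcongr
    _ = u ^ (31 / 10 : ℝ) * v ^ (31 / 5 : ℝ) := by
        rw [show (31 / 5 : ℝ) = 31 / 10 + 31 / 10 by norm_num, Real.rpow_add (by linarith)]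
        ring
    _ ≤ u ^ (5 : ℝ) * v ^ (8 : ℝ) := by
        have := Real.rpow_le_rpow_of_exponent_le hu (show (31 / 10 : ℝ) ≤ 5 by norm_num)
        have := Real.rpow_le_rpow_of_exponent_le hv (show (31 / 5 : ℝ) ≤ 8 by norm_num)
        gcongr
    _ = u ^ 5 * v ^ 8 := by norm_cast

theorem pow_c {v p q s : ℝ} (hv : 1 ≤ v) (hp : 0 ≤ p) (hq : 0 ≤ q) (hs : 0 ≤ s)
    (h1 : p ≤ v) (h2 : q ≤ v) (h3 : s ≤ v) :
    p ^ (31 / 10 : ℝ) * (q ^ (31 / 10 : ℝ) * s ^ (31 / 10 : ℝ)) ≤ v ^ 16 := by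
  have e1 : p ^ (31 / 10 : ℝ) ≤ v ^ (31 / 10 : ℝ) := Real.rpow_le_rpow hp h1 (by norm_num)
  have e2 : q ^ (31 / 10 : ℝ) ≤ v ^ (31 / 10 : ℝ) := Real.rpow_le_rpow hq h2 (by norm_num)
  have e3 : s ^ (31 / 10 : ℝ) ≤ v ^ (31 / 10 : ℝ) := Real.rpow_le_rpow hs h3 (by norm_num)
  calc p ^ (31 / 10 : ℝ) * (q ^ (31 / 10 : ℝ) * s ^ (31 / 10 : ℝ))
      ≤ v ^ (31 / 10 : ℝ) * (v ^ (31 / 10 : ℝ) * v ^ (31 / 10 : ℝ)) := by gcongr
    _ = v ^ (93 / 10 : ℝ) := by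
        rw [show (93 / 10 : ℝ) = 31 / 10 + (31 / 10 + 31 / 10) by norm_num,
          Real.rpow_add (by linarith), Real.rpow_add (by linarith)]
    _ ≤ v ^ (16 : ℝ) := Real.rpow_le_rpow_of_exponent_le hv (by norm_num)
    _ = v ^ 16 := by norm_cast

/-- from a bound `|G| ≤ A / D` and `1 ≤ (c D) K` to `|G| ≤ c A K` -/
theorem combine {G A D c Kq : ℝ} (hA : 0 ≤ A) (hD : 0 < D) (h1 : |G| ≤ A / D) (h2 : 1 ≤ c * D * Kq) :
    |G| ≤ c * A * Kq := by
  refine h1.trans ?_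
  rw [div_le_iff₀ hD]
  nlinarith

section

variable {V : R3 → R3 → ℝ} {b K R r r4 W QQ : ℝ} {c : Cor}

theorem A_bd (hc : c.OK V b K R r r4 W QQ) (l j : Fin 4) (a : Fin 3) (y : Fin 4 → R3) :
    |pd (ph c.φ l) j a y| ≤ K / (1 + rad (sub4 l y)) ^ 5 := by
  by_cases hj : j = l
  · rw [hj, pd_ph_self hc.d3.c1, abs_zero]
    have := rad_nonneg (sub4 l y)
    have := hc.hK
    positivity
  · obtain ⟨k, rfl⟩ := Fin.exists_succAbove_eq hj
    rw [pd_ph hc.d3.c1]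
    exact hc.d3.bd' _ _ _

theorem A_supp (hc : c.OK V b K R r r4 W QQ) (l j : Fin 4) (a : Fin 3) (y : Fin 4 → R3)
    (h : pd (ph c.φ l) j a y ≠ 0) : rad (sub4 l y) ≤ r4 := by
  by_cases hj : j = l
  · rw [hj, pd_ph_self hc.d3.c1] at h
    exact absurd rfl h
  · obtain ⟨k, rfl⟩ := Fin.exists_succAbove_eq hj
    rw [pd_ph hc.d3.c1] at h
    exact (pd_eq_zero_of_rad hc.d3.c1 hc.d3.supp _ _ _ h).trans hc.hr4

theorem sum_abs_le {F G : Fin 4 → Fin 3 → ℝ} {A B : ℝ} (hA : ∀ j a, |F j a| ≤ A)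
    (hB : ∀ j a, |G j a| ≤ B) : |∑ j, ∑ a, F j a * G j a| ≤ 12 * (A * B) := by
  calc |∑ j, ∑ a, F j a * G j a| ≤ ∑ j, |∑ a, F j a * G j a| := Finset.abs_sum_le_sum_abs _ _
    _ ≤ ∑ _j : Fin 4, ∑ _a : Fin 3, A * B := by
        refine Finset.sum_le_sum fun m _ => (Finset.abs_sum_le_sum_abs _ _).trans
          (Finset.sum_le_sum fun a _ => ?_)
        rw [abs_mul]
        exact mul_le_mul (hA m a) (hB m a) (abs_nonneg _) ((abs_nonneg _).trans (hA m a))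
    _ = 12 * (A * B) := by
        simp only [Finset.sum_const, Finset.card_univ, Fintype.card_fin, nsmul_eq_mul]
        push_cast
        ring

theorem ne_of_sum {F G : Fin 4 → Fin 3 → ℝ} (h : ∑ j, ∑ a, F j a * G j a ≠ 0) :
    ∃ j a, F j a ≠ 0 ∧ G j a ≠ 0 := by
  obtain ⟨j, _, hj⟩ := Finset.exists_ne_zero_of_sum_ne_zero h
  obtain ⟨a, _, ha⟩ := Finset.exists_ne_zero_of_sum_ne_zero hj
  exact ⟨j, a, left_ne_zero_of_mul ha, right_ne_zero_of_mul ha⟩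

/-- two gradients of sub-clusters -/
theorem bd_AA (hc : c.OK V b K R r r4 W QQ) (l l' : Fin 4) (hl : l ≠ l') (y : Fin 4 → R3) :
    |gg (ph c.φ l) (ph c.φ l') y| ≤ 2 ^ 10 * (12 * K ^ 2) * KQ r4 univ y := by
  have hK := hc.hK
  by_cases h0 : gg (ph c.φ l) (ph c.φ l') y = 0
  · rw [h0, abs_zero]
    have := KQ_nonneg r4 y
    positivity
  obtain ⟨j, a, h1, h2⟩ := ne_of_sum (F := fun j a => pd (ph c.φ l) j a y)
    (G := fun j a => pd (ph c.φ l') j a y) h0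
  have s1 := A_supp hc l j a y h1
  have s2 := A_supp hc l' j a y h2
  have p1 := rad_nonneg (sub4 l y)
  have p2 := rad_nonneg (sub4 l' y)
  obtain ⟨m, m', hm1, hm2, hm3, hm4, hprod⟩ := tri l l' hl
  have n1 : ‖y m - y l'‖ ≤ 2 * rad (sub4 l y) := norm_sub_le_rad_sub4 l y m l' hm1 hl.symm
  have n2 : ‖y m - y m'‖ ≤ 2 * rad (sub4 l y) := norm_sub_le_rad_sub4 l y m m' hm1 hm3
  have n3 : ‖y m - y l‖ ≤ 2 * rad (sub4 l' y) := norm_sub_le_rad_sub4 l' y m l hm2 hl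
  have n4 : ‖y m - y m'‖ ≤ 2 * rad (sub4 l' y) := norm_sub_le_rad_sub4 l' y m m' hm2 hm4
  have key : 1 ≤ (2 * (1 + rad (sub4 l y))) ^ 5 * (2 * (1 + rad (sub4 l' y))) ^ 5 *
      KQ r4 univ y := by
    refine ker_lower m (fun j => ?_) ?_
    · by_cases hj : j = l
      · rw [hj]; linarith
      · have := norm_sub_le_rad_sub4 l y m j hm1 hj
        linarith
    · rw [hprod]
      exact pow_a (by linarith) (by linarith) (by positivity) (by positivity) (by positivity)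
        (by linarith) (by linarith) (by linarith) (by linarith)
  have hG : |gg (ph c.φ l) (ph c.φ l') y|
      ≤ 12 * K ^ 2 / ((1 + rad (sub4 l y)) ^ 5 * (1 + rad (sub4 l' y)) ^ 5) := by
    have := sum_abs_le (F := fun j a => pd (ph c.φ l) j a y)
      (G := fun j a => pd (ph c.φ l') j a y) (fun j a => A_bd hc l j a y)
      (fun j a => A_bd hc l' j a y)
    refine this.trans (le_of_eq ?_)
    field_simp
  refine combine (by positivity) (by positivity) hG (key.trans (le_of_eq ?_))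
  ring

theorem exists_ne' (l : Fin 4) : ∃ l' : Fin 4, l ≠ l' := by
  revert l; decide

/-- a sub-cluster and the four-body field -/
theorem bd_AB (hc : c.OK V b K R r r4 W QQ) (l : Fin 4) (y : Fin 4 → R3) :
    |∑ m, ∑ a, pd (ph c.φ l) m a y * c.g m a y| ≤ 2 ^ 13 * (12 * K ^ 2) * KQ r4 univ y := by
  have hK := hc.hK
  by_cases h0 : ∑ m, ∑ a, pd (ph c.φ l) m a y * c.g m a y = 0
  · rw [h0, abs_zero]
    have := KQ_nonneg r4 y
    positivity
  obtain ⟨j, a, h1, h2⟩ := ne_of_sum (F := fun j a => pd (ph c.φ l) j a y)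
    (G := fun j a => c.g j a y) h0
  have s2 := hc.d4.g_supp j a y h2
  have p1 := rad_nonneg (sub4 l y)
  have p2 := rad_nonneg y
  obtain ⟨l', hl⟩ := exists_ne' l
  obtain ⟨m, m', hm1, hm2, hm3, hm4, hprod⟩ := tri l l' hl
  have n2 : ‖y m - y m'‖ ≤ 2 * rad (sub4 l y) := norm_sub_le_rad_sub4 l y m m' hm1 hm3
  have n : ∀ j, ‖y m - y j‖ ≤ 2 * rad y := fun j => norm_sub_le_rad y m j
  have nl := n l
  have nl' := n l'
  have key : 1 ≤ (2 * (1 + rad (sub4 l y))) ^ 5 * (2 * (1 + rad y)) ^ 8 *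
      KQ r4 univ y := by
    refine ker_lower m (fun j => ?_) ?_
    · have := n j
      linarith
    · rw [hprod]
      exact pow_b (by linarith) (by linarith) (by positivity) (by positivity) (by positivity)
        (by linarith) (by linarith) (by linarith)
  have hG : |∑ m, ∑ a, pd (ph c.φ l) m a y * c.g m a y|
      ≤ 12 * K ^ 2 / ((1 + rad (sub4 l y)) ^ 5 * (1 + rad y) ^ 8) := by
    have := sum_abs_le (F := fun j a => pd (ph c.φ l) j a y)
      (G := fun j a => c.g j a y) (fun j a => A_bd hc l j a y)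
      (fun j a => hc.d4.g_bd j a y)
    refine this.trans (le_of_eq ?_)
    field_simp
  refine combine (by positivity) (by positivity) hG (key.trans (le_of_eq ?_))
  ring

/-- the four-body field -/
theorem bd_BB (hc : c.OK V b K R r r4 W QQ) (y : Fin 4 → R3) :
    |∑ m, ∑ a, c.g m a y * c.g m a y| ≤ 2 ^ 16 * (12 * K ^ 2) * KQ r4 univ y := by
  have hK := hc.hK
  by_cases h0 : ∑ m, ∑ a, c.g m a y * c.g m a y = 0
  · rw [h0, abs_zero]
    have := KQ_nonneg r4 y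
    positivity
  obtain ⟨j, a, h1, h2⟩ := ne_of_sum (F := fun j a => c.g j a y)
    (G := fun j a => c.g j a y) h0
  have s2 := hc.d4.g_supp j a y h2
  have p2 := rad_nonneg y
  obtain ⟨m, m', hm1, hm2, hm3, hm4, hprod⟩ := tri 0 1 (by decide)
  have n : ∀ j, ‖y m - y j‖ ≤ 2 * rad y := fun j => norm_sub_le_rad y m j
  have n0 := n 0
  have n1 := n 1
  have n2 := n m'
  have key : 1 ≤ (2 * (1 + rad y)) ^ 16 * KQ r4 univ y := by
    refine ker_lower m (fun j => ?_) ?_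
    · have := n j
      linarith
    · rw [hprod]
      exact pow_c (by linarith) (by positivity) (by positivity) (by positivity)
        (by linarith) (by linarith) (by linarith)
  have hG : |∑ m, ∑ a, c.g m a y * c.g m a y|
      ≤ 12 * K ^ 2 / ((1 + rad y) ^ 16) := by
    have := sum_abs_le (F := fun j a => c.g j a y)
      (G := fun j a => c.g j a y) (fun j a => hc.d4.g_bd j a y)
      (fun j a => hc.d4.g_bd j a y)
    refine this.trans (le_of_eq ?_)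
    field_simp
  refine combine (by positivity) (by positivity) hG (key.trans (le_of_eq ?_))
  ring

/-- if the radius is at most `R` then the kernel is bounded below -/
theorem one_le_of_rad (hc : c.OK V b K R r r4 W QQ) (y : Fin 4 → R3) (hy : rad y ≤ R) :
    1 ≤ (2 * (1 + R)) ^ 16 * KQ r4 univ y := by
  have hR := hc.hR
  have hR4 := hc.hR4
  have p2 := rad_nonneg y
  obtain ⟨m, m', hm1, hm2, hm3, hm4, hprod⟩ := tri 0 1 (by decide)
  have n : ∀ j, ‖y m - y j‖ ≤ 2 * rad y := fun j => norm_sub_le_rad y m j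
  have n0 := n 0
  have n1 := n 1
  have n2 := n m'
  refine ker_lower m (fun j => ?_) ?_
  · have := n j
    linarith
  · rw [hprod]
    exact pow_c (by linarith) (by positivity) (by positivity) (by positivity)
      (by linarith) (by linarith) (by linarith)

theorem phi_bd (hc : c.OK V b K R r r4 W QQ) (z : Fin 3 → R3) : |c.φ z| ≤ K := by
  refine (hc.d3.bd z).trans ?_
  have hK := hc.hK
  have := rad_nonneg z
  apply div_le_self (by linarith)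
  exact one_le_pow₀ (by linarith)

/-- potential terms -/
theorem bd_V1 (hc : c.OK V b K R r r4 W QQ) (l : Fin 4) (y : Fin 4 → R3) :
    |V4 V l y * (1 - ph c.φ l y) * c.s l y| ≤ 2 * K ^ 3 * (2 * (1 + R)) ^ 16 * KQ r4 univ y := by
  have hK := hc.hK
  have hR := hc.hR
  have hq := KQ_nonneg r4 y
  by_cases h0 : c.s l y = 0
  · rw [h0, mul_zero, abs_zero]
    positivity
  have h1 := one_le_of_rad hc y (hc.d4.s_supp l y h0)
  have h2 : |V4 V l y| ≤ K := by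
    unfold V4 V3
    rw [abs_of_nonneg (hc.pot.nonneg _ _)]
    exact hc.V_bd _ _
  have h3 : |1 - ph c.φ l y| ≤ 2 * K := by
    have := phi_bd hc (sub4 l y)
    have h4 : |1 - ph c.φ l y| ≤ |(1 : ℝ)| + |ph c.φ l y| := abs_sub _ _
    rw [abs_one] at h4
    unfold ph at *
    linarith
  have h4 := hc.d4.s_bd l y
  rw [abs_mul, abs_mul]
  calc |V4 V l y| * |1 - ph c.φ l y| * |c.s l y| ≤ K * (2 * K) * K := by gcongr
    _ = 2 * K ^ 3 * 1 := by ring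
    _ ≤ 2 * K ^ 3 * ((2 * (1 + R)) ^ 16 * KQ r4 univ y) := by gcongr
    _ = _ := by ring

theorem bd_V2 (hc : c.OK V b K R r r4 W QQ) (l : Fin 4) (y : Fin 4 → R3) :
    |V4 V l y * c.s l y ^ 2| ≤ 2 * K ^ 3 * (2 * (1 + R)) ^ 16 * KQ r4 univ y := by
  have hK := hc.hK
  have hR := hc.hR
  have hq := KQ_nonneg r4 y
  by_cases h0 : c.s l y = 0
  · rw [h0]; simp
    positivity
  have h1 := one_le_of_rad hc y (hc.d4.s_supp l y h0)
  have h2 : |V4 V l y| ≤ K := by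
    unfold V4 V3
    rw [abs_of_nonneg (hc.pot.nonneg _ _)]
    exact hc.V_bd _ _
  have h4 := hc.d4.s_bd l y
  rw [abs_mul, abs_pow]
  calc |V4 V l y| * |c.s l y| ^ 2 ≤ K * K ^ 2 := by gcongr
    _ ≤ 2 * K ^ 3 * 1 := by
        have : 0 ≤ K ^ 3 := by positivity
        nlinarith
    _ ≤ 2 * K ^ 3 * ((2 * (1 + R)) ^ 16 * KQ r4 univ y) := by gcongr
    _ = _ := by ring

/-- the common constant -/
noncomputable def C1 (K R : ℝ) : ℝ := 2 ^ 16 * (12 * K ^ 2) + 2 * K ^ 3 * (2 * (1 + R)) ^ 16 + 1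

theorem C1_bounds (hc : c.OK V b K R r r4 W QQ) (y : Fin 4 → R3) :
    (∀ l l', l ≠ l' → |gg (ph c.φ l) (ph c.φ l') y| ≤ C1 K R * KQ r4 univ y) ∧
    (∀ l, |∑ m, ∑ a, pd (ph c.φ l) m a y * c.g m a y| ≤ C1 K R * KQ r4 univ y) ∧
    (|∑ m, ∑ a, c.g m a y * c.g m a y| ≤ C1 K R * KQ r4 univ y) ∧
    (∀ l, |V4 V l y * (1 - ph c.φ l y) * c.s l y| ≤ C1 K R * KQ r4 univ y) ∧
    (∀ l, |V4 V l y * c.s l y ^ 2| ≤ C1 K R * KQ r4 univ y) := by
  have hK := hc.hK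
  have hR := hc.hR
  have hq := KQ_nonneg r4 y
  have e1 : 0 ≤ 2 ^ 16 * (12 * K ^ 2) := by positivity
  have e2 : 0 ≤ 2 * K ^ 3 * (2 * (1 + R)) ^ 16 := by positivity
  have e3 : (2 : ℝ) ^ 10 * (12 * K ^ 2) ≤ 2 ^ 16 * (12 * K ^ 2) := by nlinarith [sq_nonneg K]
  have e4 : (2 : ℝ) ^ 13 * (12 * K ^ 2) ≤ 2 ^ 16 * (12 * K ^ 2) := by nlinarith [sq_nonneg K]
  refine ⟨fun l l' h => ?_, fun l => ?_, ?_, fun l => ?_, fun l => ?_⟩
  · refine (bd_AA hc l l' h y).trans (mul_le_mul_of_nonneg_right ?_ hq)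
    unfold C1; linarith
  · refine (bd_AB hc l y).trans (mul_le_mul_of_nonneg_right ?_ hq)
    unfold C1; linarith
  · refine (bd_BB hc y).trans (mul_le_mul_of_nonneg_right ?_ hq)
    unfold C1; linarith
  · refine (bd_V1 hc l y).trans (mul_le_mul_of_nonneg_right ?_ hq)
    unfold C1; linarith
  · refine (bd_V2 hc l y).trans (mul_le_mul_of_nonneg_right ?_ hq)
    unfold C1; linarith

end

/-! ### From `Fin N` to `Fin 4` -/

section

variable {N : ℕ} {Q : Finset (Fin N)}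

theorem sumQ (hQ : Q.card = 4) (F : Fin N → ℝ) :
    ∑ i ∈ Q, F i = ∑ m : Fin 4, F (Q.orderEmbOfFin hQ m) := by
  calc ∑ i ∈ Q, F i = ∑ i ∈ (univ : Finset (Fin 4)).map (Q.orderEmbOfFin hQ).toEmbedding, F i := by
        rw [Finset.map_orderEmbOfFin_univ Q hQ]
    _ = _ := by rw [Finset.sum_map]; rfl

theorem erase_map (hQ : Q.card = 4) (m : Fin 4) : Q.erase (Q.orderEmbOfFin hQ m)
    = (univ.erase m).map (Q.orderEmbOfFin hQ).toEmbedding := by
  rw [Finset.map_erase, Finset.map_orderEmbOfFin_univ]; rfl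

theorem sumQe (hQ : Q.card = 4) (m : Fin 4) (F : Fin N → ℝ) :
    ∑ i ∈ Q.erase (Q.orderEmbOfFin hQ m), F i
      = ∑ m' ∈ univ.erase m, F (Q.orderEmbOfFin hQ m') := by
  rw [erase_map hQ m, Finset.sum_map]; rfl

theorem prodQe (hQ : Q.card = 4) (m : Fin 4) (F : Fin N → ℝ) :
    ∏ i ∈ Q.erase (Q.orderEmbOfFin hQ m), F i
      = ∏ m' ∈ univ.erase m, F (Q.orderEmbOfFin hQ m') := by
  rw [erase_map hQ m, Finset.prod_map]; rfl

theorem pick_apply (hQ : Q.card = 4) (x : Fin N → R3) (m : Fin 4) :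
    pick 4 Q x m = x (Q.orderEmbOfFin hQ m) := by
  unfold pick
  rw [dif_pos hQ]

theorem KQ_pick (hQ : Q.card = 4) (r4 : ℝ) (x : Fin N → R3) :
    KQ r4 Q x = KQ r4 univ (pick 4 Q x) := by
  unfold KQ
  rw [sumQ hQ]
  refine Finset.sum_congr rfl fun m _ => ?_
  rw [prodQe hQ m]
  refine Finset.prod_congr rfl fun j _ => ?_
  rw [pick_apply hQ, pick_apply hQ]

theorem card_erase (hQ : Q.card = 4) (l : Fin 4) :
    (Q.erase (Q.orderEmbOfFin hQ l)).card = 3 := by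
  rw [Finset.card_erase_of_mem (Finset.orderEmbOfFin_mem Q hQ l), hQ]

theorem emb_erase (hQ : Q.card = 4) (l : Fin 4) (m : Fin 3) :
    (Q.erase (Q.orderEmbOfFin hQ l)).orderEmbOfFin (card_erase hQ l) m
      = Q.orderEmbOfFin hQ (l.succAbove m) := by
  have hu : (fun j : Fin 3 => Q.orderEmbOfFin hQ (l.succAbove j))
      = (Q.erase (Q.orderEmbOfFin hQ l)).orderEmbOfFin (card_erase hQ l) := by
    refine Finset.orderEmbOfFin_unique _ (fun j => ?_) ?_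
    · rw [Finset.mem_erase]
      refine ⟨fun h => ?_, Finset.orderEmbOfFin_mem Q hQ _⟩
      exact Fin.succAbove_ne l j ((Q.orderEmbOfFin hQ).injective h)
    · intro i j hij
      exact (Q.orderEmbOfFin hQ).strictMono (Fin.strictMono_succAbove l hij)
  exact (congrFun hu m).symm

theorem gQ_emb (g : Fin 4 → Fin 3 → (Fin 4 → R3) → ℝ) (hQ : Q.card = 4) (j : Fin 4) (a : Fin 3)
    (x : Fin N → R3) : gQ g Q (Q.orderEmbOfFin hQ j) a x = g j a (pick 4 Q x) := by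
  unfold gQ
  have : ∀ m', (if isEl 4 Q m' (Q.orderEmbOfFin hQ j) then g m' a (pick 4 Q x) else 0)
      = if m' = j then g m' a (pick 4 Q x) else 0 := by
    intro m'
    have h : isEl 4 Q m' (Q.orderEmbOfFin hQ j) ↔ m' = j :=
      ⟨fun ⟨_, e⟩ => (Q.orderEmbOfFin hQ).injective e, fun e => ⟨hQ, by rw [e]⟩⟩
    by_cases h1 : m' = j
    · rw [if_pos (h.2 h1), if_pos h1]
    · rw [if_neg (fun h' => h1 (h.1 h')), if_neg h1]
  simp only [this]
  rw [Finset.sum_ite_eq']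
  simp

theorem gT_emb {φ : (Fin 3 → R3) → ℝ} (hφ : ContDiff ℝ 1 φ) (hQ : Q.card = 4) (l j : Fin 4)
    (a : Fin 3) (x : Fin N → R3) :
    gT φ (Q.erase (Q.orderEmbOfFin hQ l)) (Q.orderEmbOfFin hQ j) a x
      = pd (ph φ l) j a (pick 4 Q x) := by
  unfold gT
  have h : ∀ m', isEl 3 (Q.erase (Q.orderEmbOfFin hQ l)) m' (Q.orderEmbOfFin hQ j)
      ↔ l.succAbove m' = j := by
    intro m'
    constructor
    · rintro ⟨_, e⟩
      rw [emb_erase hQ l m'] at e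
      exact (Q.orderEmbOfFin hQ).injective e
    · intro e
      exact ⟨card_erase hQ l, by rw [emb_erase hQ l m', e]⟩
  rw [WeakAux.pick_erase hQ l x]
  by_cases hj : j = l
  · rw [hj, pd_ph_self hφ]
    refine Finset.sum_eq_zero fun m' _ => ?_
    have h' := h m'
    rw [hj] at h'
    rw [if_neg]
    rw [h']
    exact Fin.succAbove_ne l m'
  · obtain ⟨k, rfl⟩ := Fin.exists_succAbove_eq hj
    rw [pd_ph hφ, Finset.sum_eq_single k]
    · rw [if_pos ((h k).2 rfl)]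
    · intro m' _ hm'
      rw [if_neg]
      rw [h m']
      exact fun hc => hm' (Fin.succAbove_right_injective hc)
    · intro hk
      exact absurd (Finset.mem_univ k) hk

theorem dt_T {φ : (Fin 3 → R3) → ℝ} (hφ : ContDiff ℝ 1 φ) (hQ : Q.card = 4) (l : Fin 4)
    (x : Fin N → R3) (D : Fin N → Fin 3 → ℝ) :
    dt (fun i a => gT φ (Q.erase (Q.orderEmbOfFin hQ l)) i a x) D
      = ∑ j : Fin 4, ∑ a, pd (ph φ l) j a (pick 4 Q x) * D (Q.orderEmbOfFin hQ j) a := by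
  have h1 : dt (fun i a => gT φ (Q.erase (Q.orderEmbOfFin hQ l)) i a x) D
      = ∑ m : Fin 3, ∑ a, pd φ m a (sub4 l (pick 4 Q x)) *
        D ((Q.erase (Q.orderEmbOfFin hQ l)).orderEmbOfFin (card_erase hQ l) m) a := by
    rw [← WeakAux.pick_erase hQ l x]
    exact WeakAux.sum_gT (fun m a => pd φ m a (pick 3 (Q.erase (Q.orderEmbOfFin hQ l)) x))
      (card_erase hQ l) D
  rw [h1, Fin.sum_univ_succAbove _ l]
  have h2 : ∑ a, pd (ph φ l) l a (pick 4 Q x) * D (Q.orderEmbOfFin hQ l) a = 0 :=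
    Finset.sum_eq_zero fun a _ => by rw [pd_ph_self hφ, zero_mul]
  rw [h2, zero_add]
  refine Finset.sum_congr rfl fun m _ => Finset.sum_congr rfl fun a _ => ?_
  rw [pd_ph hφ, emb_erase hQ l m]

theorem dt_Q (g : Fin 4 → Fin 3 → (Fin 4 → R3) → ℝ) (hQ : Q.card = 4)
    (x : Fin N → R3) (D : Fin N → Fin 3 → ℝ) :
    dt (fun i a => gQ g Q i a x) D
      = ∑ j : Fin 4, ∑ a, g j a (pick 4 Q x) * D (Q.orderEmbOfFin hQ j) a :=
  WeakAux.sum_gT (fun m a => g m a (pick 4 Q x)) hQ D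

end

/-- the form as a function on `Fin 4` -/
theorem q4_eq {V : R3 → R3 → ℝ} {b K R r r4 W QQ : ℝ} {c : Cor} (hc : c.OK V b K R r r4 W QQ)
    (p : Par) (Ψ : (Fin p.N → R3) → ℝ) {Q : Finset (Fin p.N)} (hQ : Q.card = 4)
    (x : Fin p.N → R3) (v : ℝ) (hv : v = p.v4 Ψ Q x) (d : Fin 4 → ℝ)
    (hd : ∀ l, d l = p.v3 Ψ (Q.erase (Q.orderEmbOfFin hQ l)) x - v)
    (y : Fin 4 → R3) (hy : y = pick 4 Q x) :
    p.q4 V c Ψ Q x = k4 V c y * v ^ 2
      + ∑ l, ∑ l' ∈ univ.erase l, gg (ph c.φ l) (ph c.φ l') y * (v * d l + v * d l' + d l * d l')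
      + 2 * ∑ l, (∑ m, ∑ a, pd (ph c.φ l) m a y * c.g m a y) * (v * d l)
      - 2 * ∑ l, V4 V l y * (1 - ph c.φ l y) * c.s l y * (v * d l) := by
  have hφ := hc.d3.c1
  have hv3 : ∀ l, p.v3 Ψ (Q.erase (Q.orderEmbOfFin hQ l)) x = v + d l := fun l => by
    rw [hd l]; ring
  unfold Par.q4 k4
  rw [sumQ hQ, sumQ hQ, sumQ hQ, ← hv]
  have e1 : ∀ l l', dt (p.fT c (Q.erase (Q.orderEmbOfFin hQ l)) x)
      (p.fT c (Q.erase (Q.orderEmbOfFin hQ l')) x) = gg (ph c.φ l) (ph c.φ l') y := by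
    intro l l'
    have := dt_T hφ hQ l x (p.fT c (Q.erase (Q.orderEmbOfFin hQ l')) x)
    refine this.trans ?_
    unfold gg
    refine Finset.sum_congr rfl fun j _ => Finset.sum_congr rfl fun a _ => ?_
    unfold Par.fT
    rw [gT_emb hφ hQ l' j a x, hy]
  have e2 : ∀ l, dt (p.fT c (Q.erase (Q.orderEmbOfFin hQ l)) x) (p.fQ c Q x)
      = ∑ m, ∑ a, pd (ph c.φ l) m a y * c.g m a y := by
    intro l
    have := dt_T hφ hQ l x (p.fQ c Q x)
    refine this.trans ?_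
    refine Finset.sum_congr rfl fun j _ => Finset.sum_congr rfl fun a _ => ?_
    unfold Par.fQ
    rw [gQ_emb c.g hQ j a x, hy]
  have e3 : dt (p.fQ c Q x) (p.fQ c Q x) = ∑ m, ∑ a, c.g m a y ^ 2 := by
    have := dt_Q c.g hQ x (p.fQ c Q x)
    refine this.trans ?_
    refine Finset.sum_congr rfl fun j _ => Finset.sum_congr rfl fun a _ => ?_
    unfold Par.fQ
    rw [gQ_emb c.g hQ j a x, hy, sq]
  have e4 : ∀ l, VT V (Q.erase (Q.orderEmbOfFin hQ l)) x = V4 V l y := by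
    intro l
    unfold VT V4
    rw [WeakAux.pick_erase hQ l x, hy]
  have e5 : ∀ l, sQ c.s Q (Q.orderEmbOfFin hQ l) x = c.s l y := by
    intro l
    rw [WeakAux.sQ_orderEmb c.s hQ l x, hy]
  have e6 : ∀ l, c.φ (pick 3 (Q.erase (Q.orderEmbOfFin hQ l)) x) = ph c.φ l y := by
    intro l
    unfold ph
    rw [WeakAux.pick_erase hQ l x, hy]
  have t1 : ∑ l : Fin 4, ∑ l' ∈ Q.erase (Q.orderEmbOfFin hQ l),
      dt (p.fT c (Q.erase (Q.orderEmbOfFin hQ l)) x) (p.fT c (Q.erase l') x) *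
        (p.v3 Ψ (Q.erase (Q.orderEmbOfFin hQ l)) x * p.v3 Ψ (Q.erase l') x)
      = ∑ l : Fin 4, ∑ l' ∈ univ.erase l, gg (ph c.φ l) (ph c.φ l') y *
        ((v + d l) * (v + d l')) := by
    refine Finset.sum_congr rfl fun l _ => ?_
    rw [sumQe hQ l]
    refine Finset.sum_congr rfl fun l' _ => ?_
    rw [e1, hv3, hv3]
  rw [t1, e3]
  have t2 : ∑ l : Fin 4, dt (p.fT c (Q.erase (Q.orderEmbOfFin hQ l)) x) (p.fQ c Q x) *
      (p.v3 Ψ (Q.erase (Q.orderEmbOfFin hQ l)) x * v)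
      = ∑ l : Fin 4, (∑ m, ∑ a, pd (ph c.φ l) m a y * c.g m a y) * ((v + d l) * v) :=
    Finset.sum_congr rfl fun l _ => by rw [e2, hv3]
  rw [t2]
  have t3 : ∑ l : Fin 4, VT V (Q.erase (Q.orderEmbOfFin hQ l)) x *
      (sQ c.s Q (Q.orderEmbOfFin hQ l) x ^ 2 * v ^ 2
        - 2 * (1 - c.φ (pick 3 (Q.erase (Q.orderEmbOfFin hQ l)) x)) *
          sQ c.s Q (Q.orderEmbOfFin hQ l) x *
          (p.v3 Ψ (Q.erase (Q.orderEmbOfFin hQ l)) x * v))
      = ∑ l : Fin 4, V4 V l y * (c.s l y ^ 2 * v ^ 2 - 2 * (1 - ph c.φ l y) * c.s l y *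
        ((v + d l) * v)) :=
    Finset.sum_congr rfl fun l _ => by rw [e4, e5, e6, hv3]
  rw [t3]
  have s1 : ∑ l : Fin 4, ∑ l' ∈ univ.erase l, gg (ph c.φ l) (ph c.φ l') y *
        ((v + d l) * (v + d l'))
      = (∑ l : Fin 4, ∑ l' ∈ univ.erase l, gg (ph c.φ l) (ph c.φ l') y) * v ^ 2
        + ∑ l : Fin 4, ∑ l' ∈ univ.erase l, gg (ph c.φ l) (ph c.φ l') y *
          (v * d l + v * d l' + d l * d l') := by
    rw [Finset.sum_mul, ← Finset.sum_add_distrib]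
    refine Finset.sum_congr rfl fun l _ => ?_
    rw [Finset.sum_mul, ← Finset.sum_add_distrib]
    refine Finset.sum_congr rfl fun l' _ => ?_
    ring
  have s2 : ∑ l : Fin 4, (∑ m, ∑ a, pd (ph c.φ l) m a y * c.g m a y) * ((v + d l) * v)
      = (∑ l : Fin 4, ∑ m, ∑ a, pd (ph c.φ l) m a y * c.g m a y) * v ^ 2
        + ∑ l : Fin 4, (∑ m, ∑ a, pd (ph c.φ l) m a y * c.g m a y) * (v * d l) := by
    rw [Finset.sum_mul, ← Finset.sum_add_distrib]
    refine Finset.sum_congr rfl fun l _ => ?_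
    ring
  have s3 : ∑ l : Fin 4, V4 V l y * (c.s l y ^ 2 * v ^ 2 - 2 * (1 - ph c.φ l y) * c.s l y *
        ((v + d l) * v))
      = (∑ l : Fin 4, V4 V l y * (c.s l y ^ 2 - 2 * (1 - ph c.φ l y) * c.s l y)) * v ^ 2
        - 2 * ∑ l : Fin 4, V4 V l y * (1 - ph c.φ l y) * c.s l y * (v * d l) := by
    rw [Finset.sum_mul, Finset.mul_sum, ← Finset.sum_sub_distrib]
    refine Finset.sum_congr rfl fun l _ => ?_
    ring
  rw [s1, s2, s3]
  ring

/-! ### Elementary inequalities -/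

theorem young {τ u w : ℝ} (hτ : 0 < τ) : |u * w| ≤ τ * u ^ 2 + τ⁻¹ * w ^ 2 := by
  have h1 : 0 ≤ (τ * |u| - |w|) ^ 2 := sq_nonneg _
  have h2 : τ * (τ * u ^ 2 + τ⁻¹ * w ^ 2) = τ ^ 2 * u ^ 2 + w ^ 2 := by
    field_simp
  have h3 : τ * |u * w| ≤ τ * (τ * u ^ 2 + τ⁻¹ * w ^ 2) := by
    rw [h2, abs_mul]
    have h4 : |u| ^ 2 = u ^ 2 := sq_abs u
    have h5 : |w| ^ 2 = w ^ 2 := sq_abs w
    have h6 : 0 ≤ τ * (|u| * |w|) := by positivity
    nlinarith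
  exact le_of_mul_le_mul_left h3 hτ

theorem final_ineq {G : Fin 4 → Fin 4 → ℝ} {H P d : Fin 4 → ℝ} {κ v τ : ℝ} (hτ : 0 < τ)
    (hκ : 0 ≤ κ) (hG : ∀ l l', l ≠ l' → |G l l'| ≤ κ) (hH : ∀ l, |H l| ≤ κ)
    (hP : ∀ l, |P l| ≤ κ) :
    ∑ l, ∑ l' ∈ univ.erase l, G l l' * (v * d l + v * d l' + d l * d l')
      + 2 * ∑ l, H l * (v * d l) - 2 * ∑ l, P l * (v * d l)
      ≤ 40 * (κ * (τ * v ^ 2 + (1 + τ⁻¹) * ∑ l, d l ^ 2)) := by
  set S := ∑ l, d l ^ 2 with hS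
  have hτi : 0 < τ⁻¹ := inv_pos.2 hτ
  have hS0 : 0 ≤ S := Finset.sum_nonneg fun l _ => sq_nonneg _
  have hd : ∀ l, d l ^ 2 ≤ S := fun l =>
    Finset.single_le_sum (f := fun l => d l ^ 2) (fun l _ => sq_nonneg _) (Finset.mem_univ l)
  set E := τ * v ^ 2 + (1 + τ⁻¹) * S with hE
  have hy : ∀ l, |v * d l| ≤ E := by
    intro l
    refine (young hτ).trans ?_
    have := mul_le_mul_of_nonneg_left (hd l) hτi.le
    rw [hE]
    nlinarith
  have hE0 : 0 ≤ E := (abs_nonneg _).trans (hy 0)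
  have hv2 : 0 ≤ τ * v ^ 2 := by positivity
  have hy3 : ∀ l l', |v * d l + v * d l' + d l * d l'| ≤ 2 * E := by
    intro l l'
    have a1 : |v * d l| ≤ τ * v ^ 2 + τ⁻¹ * S :=
      (young hτ).trans (by have := mul_le_mul_of_nonneg_left (hd l) hτi.le; linarith)
    have a2 : |v * d l'| ≤ τ * v ^ 2 + τ⁻¹ * S :=
      (young hτ).trans (by have := mul_le_mul_of_nonneg_left (hd l') hτi.le; linarith)
    have a3 : |d l * d l'| ≤ S := by
      rw [abs_mul]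
      have b1 := hd l
      have b2 := hd l'
      have b3 : |d l| ^ 2 = d l ^ 2 := sq_abs _
      have b4 : |d l'| ^ 2 = d l' ^ 2 := sq_abs _
      nlinarith [sq_nonneg (|d l| - |d l'|)]
    have a4 := abs_add_three (v * d l) (v * d l') (d l * d l')
    rw [hE]
    linarith
  have c1 : ∑ l, ∑ l' ∈ univ.erase l, G l l' * (v * d l + v * d l' + d l * d l')
      ≤ ∑ _l : Fin 4, 3 * (κ * (2 * E)) := by
    refine Finset.sum_le_sum fun l _ => ?_
    have : ∑ l' ∈ univ.erase l, G l l' * (v * d l + v * d l' + d l * d l')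
        ≤ ∑ _l' ∈ univ.erase l, κ * (2 * E) := by
      refine Finset.sum_le_sum fun l' hl' => ?_
      refine (le_abs_self _).trans ?_
      rw [abs_mul]
      exact mul_le_mul (hG l l' (Finset.ne_of_mem_erase hl').symm) (hy3 l l') (abs_nonneg _) hκ
    refine this.trans (le_of_eq ?_)
    rw [Finset.sum_const, Finset.card_erase_of_mem (Finset.mem_univ l)]
    simp
  have c2 : ∑ l, H l * (v * d l) ≤ ∑ _l : Fin 4, κ * E := by
    refine Finset.sum_le_sum fun l _ => ?_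
    refine (le_abs_self _).trans ?_
    rw [abs_mul]
    exact mul_le_mul (hH l) (hy l) (abs_nonneg _) hκ
  have c3 : -∑ l, P l * (v * d l) ≤ ∑ _l : Fin 4, κ * E := by
    rw [← Finset.sum_neg_distrib]
    refine Finset.sum_le_sum fun l _ => ?_
    refine (neg_le_abs _).trans ?_
    rw [abs_mul]
    exact mul_le_mul (hP l) (hy l) (abs_nonneg _) hκ
  simp only [Finset.sum_const, Finset.card_univ, Fintype.card_fin, nsmul_eq_mul] at c1 c2 c3
  push_cast at c1 c2 c3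
  linarith

theorem k4_ineq {G : Fin 4 → Fin 4 → ℝ} {H P T : Fin 4 → ℝ} {B κ : ℝ}
    (hG : ∀ l l', l ≠ l' → |G l l'| ≤ κ) (hH : ∀ l, |H l| ≤ κ)
    (hP : ∀ l, |P l| ≤ κ) (hT : ∀ l, |T l| ≤ κ) (hB : |B| ≤ κ) :
    |∑ l, ∑ l' ∈ univ.erase l, G l l' + 2 * ∑ l, H l + B + ∑ l, (T l - 2 * P l)| ≤ 40 * κ := by
  have c1 : |∑ l, ∑ l' ∈ univ.erase l, G l l'| ≤ ∑ _l : Fin 4, 3 * κ := by
    refine (Finset.abs_sum_le_sum_abs _ _).trans (Finset.sum_le_sum fun l _ => ?_)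
    have : |∑ l' ∈ univ.erase l, G l l'| ≤ ∑ _l' ∈ univ.erase l, κ :=
      (Finset.abs_sum_le_sum_abs _ _).trans
        (Finset.sum_le_sum fun l' hl' => hG l l' (Finset.ne_of_mem_erase hl').symm)
    refine this.trans (le_of_eq ?_)
    rw [Finset.sum_const, Finset.card_erase_of_mem (Finset.mem_univ l)]
    simp
  have c2 : |∑ l, H l| ≤ ∑ _l : Fin 4, κ :=
    (Finset.abs_sum_le_sum_abs _ _).trans (Finset.sum_le_sum fun l _ => hH l)
  have c3 : |∑ l, (T l - 2 * P l)| ≤ ∑ _l : Fin 4, 3 * κ := by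
    refine (Finset.abs_sum_le_sum_abs _ _).trans (Finset.sum_le_sum fun l _ => ?_)
    have h1 := abs_le.1 (hT l)
    have h2 := abs_le.1 (hP l)
    rw [abs_le]
    constructor <;> linarith
  simp only [Finset.sum_const, Finset.card_univ, Fintype.card_fin, nsmul_eq_mul] at c1 c2 c3
  push_cast at c1 c2 c3
  have h1 := abs_le.1 c1
  have h2 := abs_le.1 c2
  have h3 := abs_le.1 c3
  have h4 := abs_le.1 hB
  have hκ : 0 ≤ κ := (abs_nonneg _).trans hB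
  rw [abs_le]
  constructor <;> linarith

end Q4ptAux

open Q4ptAux in
theorem Q4pt : S_Q4pt := by
  intro K R
  by_cases hKR : 0 ≤ K ∧ 0 ≤ R
  swap
  · refine ⟨1, le_refl _, fun V b r r4 W QQ c hc => absurd ⟨?_, hc.hR⟩ hKR⟩
    linarith [hc.hK]
  obtain ⟨hK0, hR0⟩ := hKR
  have hC1 : 1 ≤ C1 K R := by
    unfold C1
    have e1 : 0 ≤ 2 ^ 16 * (12 * K ^ 2) := by positivity
    have e2 : 0 ≤ 2 * K ^ 3 * (2 * (1 + R)) ^ 16 := by positivity
    linarith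
  refine ⟨40 * C1 K R, by linarith, fun V b r r4 W QQ c hc => ⟨fun y => ?_, ?_⟩⟩
  · obtain ⟨h1, h2, h3, h4, h5⟩ := C1_bounds hc y
    have key := k4_ineq (G := fun l l' => gg (ph c.φ l) (ph c.φ l') y)
      (H := fun l => ∑ m, ∑ a, pd (ph c.φ l) m a y * c.g m a y)
      (P := fun l => V4 V l y * (1 - ph c.φ l y) * c.s l y)
      (T := fun l => V4 V l y * c.s l y ^ 2) (B := ∑ m, ∑ a, c.g m a y * c.g m a y)
      h1 h2 h4 h5 h3
    have e : k4 V c y = ∑ l, ∑ l' ∈ univ.erase l, gg (ph c.φ l) (ph c.φ l') y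
        + 2 * ∑ l, ∑ m, ∑ a, pd (ph c.φ l) m a y * c.g m a y
        + ∑ m, ∑ a, c.g m a y * c.g m a y
        + ∑ l, (V4 V l y * c.s l y ^ 2 - 2 * (V4 V l y * (1 - ph c.φ l y) * c.s l y)) := by
      unfold k4
      congr 1
      · congr 1
        refine Finset.sum_congr rfl fun m _ => Finset.sum_congr rfl fun a _ => ?_
        ring
      · refine Finset.sum_congr rfl fun l _ => ?_
        ring
    rw [e]
    refine key.trans (le_of_eq ?_)
    ring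
  · intro p Ψ τ hτ Q hQ x
    have hQ4 : Q.card = 4 := (Finset.mem_powersetCard.1 hQ).2
    obtain ⟨h1, h2, h3, h4, h5⟩ := C1_bounds hc (pick 4 Q x)
    have hq := KQ_nonneg r4 (pick 4 Q x)
    rw [q4_eq hc p Ψ hQ4 x (p.v4 Ψ Q x) rfl
      (fun l => p.v3 Ψ (Q.erase (Q.orderEmbOfFin hQ4 l)) x - p.v4 Ψ Q x) (fun l => rfl)
      (pick 4 Q x) rfl, KQ_pick hQ4, sumQ hQ4]
    have key := final_ineq (G := fun l l' => gg (ph c.φ l) (ph c.φ l') (pick 4 Q x))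
      (H := fun l => ∑ m, ∑ a, pd (ph c.φ l) m a (pick 4 Q x) * c.g m a (pick 4 Q x))
      (P := fun l => V4 V l (pick 4 Q x) * (1 - ph c.φ l (pick 4 Q x)) * c.s l (pick 4 Q x))
      (d := fun l => p.v3 Ψ (Q.erase (Q.orderEmbOfFin hQ4 l)) x - p.v4 Ψ Q x)
      (v := p.v4 Ψ Q x) hτ (by positivity) h1 h2 h4
    linarith

end Pool.Agent.Lib.MP_5db8e2_mp
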