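import Pool.Agent.Lib.MP_5db8e2_mp.LB.Basic

/-!
# Lower bound, part 1: estimates in one window (statements; proofs in the docstrings)

Conventions: `ν` is a finite measure on the position space `R3` (in the application Lebesgue
measure on the big cube), `pin ν N = ν^N`, everything is bounded and measurable (`BM`), so that all
integrals exist and Fubini (`Mg_union`, `Mg_comm`, `integral_eq_out`) is free. `Mg ν A f x` is the
integral over the variables in `A`; `out ν x0 A f` is the integral over the variables outside `A`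
of a function which does not depend on the variables in `A`; `av` is the average over the
variables in `A` with the density `g ≤ 1/m` of the window `Q`; `rough j f = f - av {j} f`.
`P_A = av A`, `q_j = rough j`. Averages over disjoint sets commute, `q_j` commutes with `P_A`
for `j ∉ A` (`rough_av`).

Useful facts of `LB/Basic.lean`: `out_av_sq_le`:
`∫dx_{A^c} w (P_A f)² ≤ m^{-|A|} ∫ w ∏_{j∈A} 1_Q(x_j) f²` for `w ≥ 0` independent of `x_A`;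
`out_av_le`: the same for `P_A f` with `f ≥ 0`; `av_var` (variance identity); `av_zero_rough`.
-/

set_option autoImplicit false

open MeasureTheory Function Finset
open scoped Classical

namespace Pool.Agent.Lib.MP_5db8e2_mp

/-- The weighted elementary symmetric function `∑_{|A| = k} ∏_{j ∈ A} g(x_j)`. -/
noncomputable def esy {N : ℕ} (g : R3 → ℝ) (k : ℕ) (x : Fin N → R3) : ℝ :=
  ∑ A ∈ powersetCard k (univ : Finset (Fin N)), ∏ j ∈ A, g (x j)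

/-- **EfronStein.** The variance of `f` in the variables of `A` is at most the sum of the averaged
variances in the single variables.

PROOF. Induction on `A`. For `A = insert i A'` write
`f - P_A f = (f - P_{A'} f) + P_{A'} (q_i f)` (since `P_{A'} f - P_i P_{A'} f = P_{A'} (q_i f)`).
Expand the square and apply `P_A = P_i P_{A'}`: the mixed term vanishes because
`P_{A'}[(f - P_{A'} f) h] = h (P_{A'} f - P_{A'} f) = 0` for `h = P_{A'} q_i f`, which does not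
depend on `x_{A'}` (`Mg_mul_right`). The first square gives
`P_i P_{A'} (f - P_{A'}f)² ≤ P_i ∑_{j∈A'} P_{A'} (q_j f)² = ∑_{j ∈ A'} P_A (q_j f)²` by the
induction hypothesis (monotonicity of `P_i`); the second gives
`P_A (P_{A'} q_i f)² ≤ P_A P_{A'} (q_i f)² = P_A (q_i f)²` (`av_sq_le`, `P_{A'}P_{A'} = P_{A'}`). -/
def S_EfronStein : Prop :=
  ∀ {N : ℕ} (ν : Measure R3) [IsFiniteMeasure ν] (m : ℝ) (g : R3 → ℝ) (Q B : Set R3)
    (_ : Wd ν m g Q B) (f : (Fin N → R3) → ℝ) (_ : BM f) (A : Finset (Fin N)) (x : Fin N → R3),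
    av ν g A (fun y => (f y - av ν g A f y) ^ 2) x
      ≤ ∑ j ∈ A, av ν g A (fun y => rough ν g j f y ^ 2) x

/-- **CountK.** `∑_{A ⊆ S, |A| = k} ∏_{j ∈ A} 1_Q(x_j) = C(#(particles of S in Q), k)`.

PROOF. `∏_{j ∈ A} 1_Q(x_j)` is `1` if `A ⊆ S.filter (x j ∈ Q)` and `0` otherwise
(`Finset.prod_ite`, `Finset.prod_boole`), and the number of `k`-subsets of a finite set is the
binomial coefficient (`Finset.card_powersetCard`). -/
def S_CountK : Prop :=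
  ∀ {N : ℕ} (Q : Set R3) (S : Finset (Fin N)) (k : ℕ) (x : Fin N → R3),
    ∑ A ∈ powersetCard k S, ∏ j ∈ A, ind Q (x j) = ((cnt Q S x).choose k : ℝ)

/-- **MainUpper.** Upper bound of the main term of a window.

PROOF. `(P_A Ψ)² ≤ P_A(Ψ²) = Mg ν A (∏_{j∈A} g(x_j) Ψ²)` (`av_sq_le`, `av_eq`), multiply by the
nonnegative function `lam (cnt B Aᶜ x)` which does not depend on `x_A` and use
`integral_eq_out` + `Mg_mul_left`: `out ≤ ∫ lam (cnt B Aᶜ x) ∏_{j∈A} g(x_j) Ψ²`. If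
`∏_{j∈A} g(x_j) ≠ 0` then `x_j ∈ Q ⊆ B` for `j ∈ A`, so `cnt B univ x = cnt B Aᶜ x + k`. Sum over
`A`. -/
def S_MainUpper : Prop :=
  ∀ {N : ℕ} (ν : Measure R3) [IsFiniteMeasure ν] (m : ℝ) (g : R3 → ℝ) (Q B : Set R3)
    (_ : Wd ν m g Q B) (Ψ : (Fin N → R3) → ℝ) (_ : BM Ψ) (x0 : Fin N → R3) (k : ℕ) (lam : ℕ → ℝ)
    (_ : ∀ n, 0 ≤ lam n),
    ∑ A ∈ powersetCard k (univ : Finset (Fin N)),
        out ν x0 A (fun x => lam (cnt B Aᶜ x) * (av ν g A Ψ x) ^ 2)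
      ≤ ∫ x, lam (cnt B univ x - k) * esy g k x * Ψ x ^ 2 ∂pin ν N

/-- **MainLower.** Lower bound of the main term of a window; the loss is controlled by the total
roughness.

PROOF. By `av_var`, `(P_AΨ)² = P_A(Ψ²) - P_A((Ψ - P_AΨ)²) ≥ P_A(Ψ²) - ∑_{j∈A} P_A((q_jΨ)²)`
(`EfronStein`, hypothesis `hES`). The first term gives exactly (see `MainUpper`)
`∫ lam (cnt B univ x - k) esy g k x Ψ²`. For the second term `out_av_le` gives
`out (lam(cnt B Aᶜ) P_A (q_jΨ)²) ≤ m^{-k} ∫ lam(cnt B Aᶜ x) ∏_{i∈A} 1_Q(x_i) (q_jΨ)²`.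
Interchange the sums: `∑_A ∑_{j∈A} = ∑_j ∑_{A ∋ j}`. For fixed `j` and `x` with `x_j ∈ Q`,
`A = insert j A'`, `A' ⊆ {j}ᶜ`, `|A'| = k - 1`: put `n = cnt Q {j}ᶜ x`; if all `x_i ∈ Q`
(`i ∈ A'`), then `cnt B Aᶜ x = cnt B {j}ᶜ x - (k-1) ≥ n - (k-1)`, so
`lam(cnt B Aᶜ x) ≤ lam(n-(k-1))` (`lam` antitone), and the number of such `A'` is `C(n, k-1)`
(`CountK`, hypothesis `hC`). So the inner sum is at most `cl 1_Q(x_j)`. -/
def S_MainLower : Prop :=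
  ∀ {N : ℕ} (ν : Measure R3) [IsFiniteMeasure ν] (m : ℝ) (g : R3 → ℝ) (Q B : Set R3)
    (_ : Wd ν m g Q B) (Ψ : (Fin N → R3) → ℝ) (_ : BM Ψ) (x0 : Fin N → R3) (k : ℕ) (lam : ℕ → ℝ)
    (_ : ∀ n, 0 ≤ lam n) (_ : Antitone lam) (cl : ℝ) (_ : 1 ≤ k)
    (_ : ∀ n, (n.choose (k - 1) : ℝ) * lam (n - (k - 1)) ≤ cl),
    ∫ x, lam (cnt B univ x - k) * esy g k x * Ψ x ^ 2 ∂pin ν N - (1 / m) ^ k * cl * Dw ν g Q Ψ
      ≤ ∑ A ∈ powersetCard k (univ : Finset (Fin N)),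
        out ν x0 A (fun x => lam (cnt B Aᶜ x) * (av ν g A Ψ x) ^ 2)

/-- **L2Q.** Averages are bounded in `L²(Q)`: for `w ≥ 0` independent of `x_A`,
`∫ w ∏_{A} 1_Q (P_A f)² ≤ 8^{|A|} ∫ w ∏_A 1_Q f²`.

PROOF. `(P_A f)²` does not depend on `x_A`, and
`Mg ν A (∏_{j∈A} 1_Q(x_j)) = ν(Q)^{|A|} ≤ (8m)^{|A|}` (induction on `A` with `Mg_insert`), so by
`integral_eq_out` and `Mg_mul_left` the left side is
`≤ (8m)^{|A|} out (w (P_A f)²) ≤ 8^{|A|} ∫ w ∏_A 1_Q f²` (`out_av_sq_le`). -/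
def S_L2Q : Prop :=
  ∀ {N : ℕ} (ν : Measure R3) [IsFiniteMeasure ν] (m : ℝ) (g : R3 → ℝ) (Q B : Set R3)
    (_ : Wd ν m g Q B) (f w : (Fin N → R3) → ℝ) (_ : BM f) (_ : BM w) (_ : ∀ x, 0 ≤ w x)
    (A : Finset (Fin N)) (_ : DependsOn w ((A : Set (Fin N))ᶜ)),
    ∫ x, w x * ((∏ j ∈ A, ind Q (x j)) * (av ν g A f x) ^ 2) ∂pin ν N
      ≤ 8 ^ A.card * ∫ x, w x * ((∏ j ∈ A, ind Q (x j)) * f x ^ 2) ∂pin ν N

/-- **Telescope.** `f² ≤ (p+1) [ (P_R f)² + ∑_{k<p} (P_{r_1..r_k} q_{r_{k+1}} f)² ]` where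
`r_1, ..., r_p` is an enumeration (a list without repetitions) of `R`.

PROOF. `f = P_{r_1..r_p} f + ∑_{k<p} (P_{r_1..r_k} f - P_{r_1..r_{k+1}} f)` and
`P_{r_1..r_k} f - P_{r_1..r_{k+1}} f = P_{r_1..r_k} q_{r_{k+1}} f` (telescoping sum, induction on
the list), then Cauchy-Schwarz `(∑_{k≤p} a_k)² ≤ (p+1) ∑ a_k²` (`sq_sum_le_card_mul_sum_sq`). -/
def S_Telescope : Prop :=
  ∀ {N : ℕ} (ν : Measure R3) [IsFiniteMeasure ν] (m : ℝ) (g : R3 → ℝ) (Q B : Set R3)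
    (_ : Wd ν m g Q B) (f : (Fin N → R3) → ℝ) (_ : BM f) (p : ℕ) (r : Fin p → Fin N)
    (_ : Function.Injective r) (x : Fin N → R3),
    f x ^ 2 ≤ (p + 1) * ((av ν g (univ.image r) f x) ^ 2 +
      ∑ k : Fin p, (av ν g ((univ.filter (fun i : Fin p => i < k)).image r)
        (rough ν g (r k) f) x) ^ 2)

/-- **QL.** The general estimate of a kernel against an averaged function: `H` depends on the
variables `A ∪ R ∪ {j1}` (all of them in `Q` on the support of `H`), `Lam` on the others; `A` is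
integrated against `H` directly, the variables in `R` after a splitting into average and rough
part, `j1` is left.

PROOF. Let `r` enumerate `R` (`p = |R|`), `F = P_A Ψ`. By `Telescope` (hypothesis) for `F`:
`F² ≤ (p+1)[(P_{A∪R}Ψ)² + ∑_k (P_{A} P_{R_k} ρ_k)²]` with `R_k = {r_1..r_k}`,
`ρ_k = q_{r_{k+1}} Ψ`. First term: `(P_{A∪R}Ψ)²` and `Lam` do not depend on `x_{A∪R}`, so the
integral is `out_{A∪R}(Lam (P_{A∪R}Ψ)² Mg ν (A∪R) H)`, and `Mg ν (A∪R) H ≤ k1 1_Q(x_{j1})`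
(it vanishes for `x_{j1} ∉ Q`); `out_av_sq_le` with `w = Lam 1_Q(x_{j1})`. Other terms:
`Mg ν A H ≤ k0 ∏_{R∪{j1}} 1_Q`, so the integral is
`≤ k0 out_A(Lam ∏_{R∪{j1}}1_Q (P_A P_{R_k}ρ_k)²) ≤ k0 m^{-|A|} ∫ Lam ∏_{A∪R∪{j1}}1_Q (P_{R_k}ρ_k)²`
(`out_av_sq_le`) `≤ k0 m^{-|A|} 8^{p} ∫ Lam ∏_{A∪R∪{j1}} 1_Q ρ_k²` (`L2Q`). -/
def S_QL : Prop :=
  ∀ {N : ℕ} (ν : Measure R3) [IsFiniteMeasure ν] (m : ℝ) (g : R3 → ℝ) (Q B : Set R3)
    (_ : Wd ν m g Q B) (Ψ H Lam : (Fin N → R3) → ℝ) (_ : BM Ψ) (_ : BM H) (_ : BM Lam)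
    (_ : ∀ x, 0 ≤ H x) (_ : ∀ x, 0 ≤ Lam x) (A R : Finset (Fin N)) (j1 : Fin N)
    (_ : Disjoint A R) (_ : j1 ∉ A) (_ : j1 ∉ R)
    (_ : DependsOn H (((insert j1 (A ∪ R) : Finset (Fin N)) : Set (Fin N))))
    (_ : DependsOn Lam ((((insert j1 (A ∪ R) : Finset (Fin N)) : Set (Fin N))ᶜ)))
    (_ : ∀ x, H x ≠ 0 → ∀ j ∈ insert j1 (A ∪ R), x j ∈ Q) (k0 k1 : ℝ) (_ : 0 ≤ k0) (_ : 0 ≤ k1)
    (_ : ∀ x, Mg ν A H x ≤ k0) (_ : ∀ x, Mg ν (A ∪ R) H x ≤ k1),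
    ∫ x, H x * (Lam x * (av ν g A Ψ x) ^ 2) ∂pin ν N
      ≤ (R.card + 1) * (k1 * (1 / m) ^ (A.card + R.card) *
          ∫ x, Lam x * ((∏ j ∈ insert j1 (A ∪ R), ind Q (x j)) * Ψ x ^ 2) ∂pin ν N
        + k0 * (1 / m) ^ A.card * 8 ^ R.card * ∑ j ∈ R,
          ∫ x, Lam x * ((∏ i ∈ insert j1 (A ∪ R), ind Q (x i)) * rough ν g j Ψ x ^ 2) ∂pin ν N)

end Pool.Agent.Lib.MP_5db8e2_mp
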