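import Pool.Agent.Lib.MP_5db8e2_mp.LB.Basic

/-!
# Lower bound, part 3: two or three rough particles in the linear term (one window)

For a triple `T`: `F_T = W_T λ_T U_T` with `λ_T = lam (cnt B Tᶜ x)`, `U_T = P_T Ψ`. The rest
`Ψ - U_T - ∑_i P_{T\i} q_i Ψ` is a sum of three terms `A_c q_b q_a Ψ` (`A_c = 1` or `P_c`). Moving
`A_c q_b` to the other side (adjoints in `L²(dx)`) gives `∑_a ∫ Z_a q_aΨ`, and `∫ Z_a²` is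
estimated by looking at pairs of triples.
-/

set_option autoImplicit false

open MeasureTheory Function Finset
open scoped Classical

namespace Pool.Agent.Lib.MP_5db8e2_mp

variable {N : ℕ}

/-- The operators `1`, `P_c`, `q_c`. -/
noncomputable def op (ν : Measure R3) (g : R3 → ℝ) (o : Fin 3) (c : Fin N)
    (f : (Fin N → R3) → ℝ) : (Fin N → R3) → ℝ :=
  if o = 0 then f else if o = 1 then av ν g {c} f else rough ν g c f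

/-- Their adjoints with respect to `pin ν N`: `1`, `G ↦ g(x_c) ∫G dx_c`, `G ↦ G - g(x_c) ∫G dx_c`. -/
noncomputable def ops (ν : Measure R3) (g : R3 → ℝ) (o : Fin 3) (c : Fin N)
    (G : (Fin N → R3) → ℝ) (x : Fin N → R3) : ℝ :=
  if o = 0 then G x else if o = 1 then g (x c) * Mg ν {c} G x
    else G x - g (x c) * Mg ν {c} G x

/-- **Adj.** `ops` is the adjoint of `op`; `L²` bounds; `ops` preserves boundedness.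

PROOF. `∫ g(x_c) (Mg{c} G) f = out_{c}( (Mg{c}G) (Mg{c}(g f)) ) = ∫ G (P_c f)` by
`integral_eq_out` with `A = {c}` and `Mg_mul_left` twice (`av_eq`). Norms:
`∫ (g(x_c) Mg{c}G)² = (∫g²) out((Mg{c}G)²) ≤ m⁻¹ ν(Q) ∫ G² ≤ 8 ∫G²` for `G` supported in
`x_c ∈ Q` (Cauchy-Schwarz `(Mg{c}G)² ≤ ν(Q) Mg{c}(G²)`, `∫ g² ≤ 1/m`), so
`∫ (ops o c G)² ≤ 2∫G² + 16∫G²`. For `op`: `∫ w 1_Q(x_c)(P_cf)² ≤ 8 ∫ w 1_Q(x_c) f²` is `L2Q`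
(prove the case `A = {c}` directly), and `(f - P_cf)² ≤ 2f² + 2(P_cf)²`. -/
def S_Adj : Prop :=
  ∀ {N : ℕ} (ν : Measure R3) [IsFiniteMeasure ν] (m : ℝ) (g : R3 → ℝ) (Q B : Set R3)
    (_ : Wd ν m g Q B) (o : Fin 3) (c : Fin N) (G f w : (Fin N → R3) → ℝ) (_ : BM G) (_ : BM f)
    (_ : BM w) (_ : ∀ x, 0 ≤ w x) (_ : DependsOn w ({c}ᶜ : Set (Fin N))),
    BM (op ν g o c f) ∧ BM (ops ν g o c G) ∧
    ∫ x, ops ν g o c G x * f x ∂pin ν N = ∫ x, G x * op ν g o c f x ∂pin ν N ∧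
    ((∀ x, G x ≠ 0 → x c ∈ Q) → ∫ x, ops ν g o c G x ^ 2 ∂pin ν N
      ≤ 18 * ∫ x, G x ^ 2 ∂pin ν N) ∧
    ∫ x, w x * (ind Q (x c) * op ν g o c f x ^ 2) ∂pin ν N
      ≤ 18 * ∫ x, w x * (ind Q (x c) * f x ^ 2) ∂pin ν N

/-- The function `Z_a`. -/
noncomputable def Zf (ν : Measure R3) (g : R3 → ℝ) (F : Finset (Fin N) → (Fin N → R3) → ℝ)
    (a : Fin N) (x : Fin N → R3) : ℝ :=
  ∑ b, ∑ c, if a < b ∧ c ≠ a ∧ c ≠ b then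
    ops ν g (if b < c then 0 else 1) c (ops ν g 2 b (F {a, b, c})) x else 0

/-- **ZLin.** The linear term with at least two rough particles in terms of `Z_a`.

PROOF. For `T = {i < j < k}` expand `1 = ∏ (P + q)` over the three (commuting) variables:
`Ψ - P_TΨ - ∑_{l∈T} P_{T\l} q_lΨ = q_iq_jΨ + q_iP_jq_kΨ + P_iq_jq_kΨ`
`= [q_i q_j (P_k + q_k)] + ...` (pointwise identity; all the averages commute: `av_comm`,
`rough_av`). The three terms are `A_c q_b q_aΨ` for `(a,b,c) = (i,j,k)`, `A = 1`;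
`(i,k,j)`, `A = P_j`; `(j,k,i)`, `A = P_i`: these are exactly the ordered triples of distinct
elements of `T` with `a < b`, and `A_c = 1` iff `b < c`. By `Adj` (hypothesis, twice)
`∫ F_T (A_c q_b (q_aΨ)) = ∫ (A_c^* q_b^* F_T) q_aΨ`. The map
`(T, pattern) ↦ (a,b,c)` is a bijection onto `{a < b, c ≠ a, b}`. -/
def S_ZLin : Prop :=
  ∀ {N : ℕ} (ν : Measure R3) [IsFiniteMeasure ν] (m : ℝ) (g : R3 → ℝ) (Q B : Set R3)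
    (_ : Wd ν m g Q B) (Ψ : (Fin N → R3) → ℝ) (_ : BM Ψ)
    (F : Finset (Fin N) → (Fin N → R3) → ℝ) (_ : ∀ T, BM (F T)),
    ∑ T ∈ powersetCard 3 (univ : Finset (Fin N)), ∫ x, F T x * (Ψ x - av ν g T Ψ x
        - ∑ i ∈ T, av ν g (T.erase i) (rough ν g i Ψ) x) ∂pin ν N
      = ∑ a, ∫ x, Zf ν g F a x * rough ν g a Ψ x ∂pin ν N

/-- The kernels of the triples: `|W_T| ≤ ω ∏_{j∈T\i} χ(x_i-x_j) ∏_{j∈T} 1_Q(x_j)` for every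
`i ∈ T`, `χ ∈ [0,1]` even, `∫ χ(c-t) dν ≤ γ ≤ m`. -/
structure TW (ν : Measure R3) (m : ℝ) (Q : Set R3) (W : Finset (Fin N) → (Fin N → R3) → ℝ)
    (χ : R3 → ℝ) (ω γ : ℝ) : Prop where
  bm : ∀ T, BM (W T)
  dep : ∀ T, DependsOn (W T) (T : Set (Fin N))
  χ_meas : Measurable χ
  χ_nn : ∀ c, 0 ≤ χ c
  χ_le : ∀ c, χ c ≤ 1
  χ_ev : ∀ c, χ (-c) = χ c
  χ_int : ∀ c, ∫ t, χ (c - t) ∂ν ≤ γ
  ω_nn : 0 ≤ ω
  γ_nn : 0 ≤ γ
  γ_le : γ ≤ m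
  maj : ∀ T ∈ powersetCard 3 (univ : Finset (Fin N)), ∀ i ∈ T, ∀ x,
    |W T x| ≤ ω * ((∏ j ∈ T.erase i, χ (x i - x j)) * ∏ j ∈ T, ind Q (x j))

/-- The functions `F_T = W_T λ_T U_T`. -/
noncomputable def FT (ν : Measure R3) (g : R3 → ℝ) (B : Set R3) (lam : ℕ → ℝ)
    (W : Finset (Fin N) → (Fin N → R3) → ℝ) (Ψ : (Fin N → R3) → ℝ) (T : Finset (Fin N))
    (x : Fin N → R3) : ℝ := W T x * (lam (cnt B Tᶜ x) * av ν g T Ψ x)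

/-- **ZD.** Inner product for two triples with only `a` in common.

PROOF. `T = {a,b,c}`, `T' = {a,b',c'}`. The operators for `b, c` act on other variables than those
for `b', c'`, so by adjointness (`Adj`, hypothesis)
`∫ (A_c^*q_b^*F_T)(A_{c'}^*q_{b'}^*F_{T'}) = ∫ (A_{c'}q_{b'}F_T)(A_cq_bF_{T'})` (move
`A_c^*q_b^*` to the right factor, where it becomes `A_cq_b` acting on
`A_{c'}^*q_{b'}^*F_{T'}`, i.e. `A_{c'}^*q_{b'}^*(A_cq_bF_{T'})`, then move `A_{c'}^*q_{b'}^*` to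
the left; the operators `ops`/`op` in different variables commute: `Mg_comm`). `F_{T'}` (hence
`A_cq_bF_{T'}`) vanishes unless `x_{b'}, x_{c'} ∈ Q`, and `A_{c'}q_{b'}F_T` vanishes unless
`x_b, x_c ∈ Q`. For `x_{b'}, x_{c'} ∈ Q`, `A_{c'}q_{b'}F_T = W_T λ_T A_{c'}q_{b'}U_T`: `W_T` does
not depend on `x_{b'}, x_{c'}`, and `λ_T` does not change if `x_{b'}` is replaced by another point
of `Q ⊆ B` (the averages only see points of `Q`: `av_eq`, `g = 0` outside `Q`). The same for the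
other factor. So the integral is `∫ W_TW_{T'}λ_Tλ_{T'}(A_{c'}q_{b'}U_T)(A_cq_bU_{T'})`; use
`|uv| ≤ ½(u²+v²)` and `λ_Tλ_{T'} ≤ lam(cnt B (T∪T')ᶜ)²` (`lam` antitone). For the first square:
`(A_{c'}q_{b'}U_T)²` and `lam(..)²` do not depend on `x_T`; `Mg ν T (|W_T||W_{T'}|) ≤
ω² γ³ 1_Q(x_{b'})1_Q(x_{c'})`: with `x_a` fixed integrate `χ(x_a-x_b)χ(x_a-x_c)` over `x_b, x_c`
(`≤ γ²`), then `χ(x_a-x_{b'})` over `x_a` (`≤ γ`, evenness), using `maj` with `i = a` for both.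
Then `out_av_sq_le` (`A_{c'}q_{b'}P_TΨ = P_T A_{c'}q_{b'}Ψ`) gives
`½ ω²γ³m^{-3} ∫ Λ ∏_5 1_Q (A_{c'}q_{b'}Ψ)²` and `L2Q`-type bound for `A_{c'} = P_{c'}` costs `8`. -/
def S_ZD : Prop :=
  ∀ {N : ℕ} (ν : Measure R3) [IsFiniteMeasure ν] (m : ℝ) (g : R3 → ℝ) (Q B : Set R3)
    (_ : Wd ν m g Q B) (Ψ : (Fin N → R3) → ℝ) (_ : BM Ψ)
    (lam : ℕ → ℝ) (_ : ∀ n, 0 ≤ lam n) (_ : Antitone lam)
    (W : Finset (Fin N) → (Fin N → R3) → ℝ) (χ : R3 → ℝ) (ω γ : ℝ) (_ : TW ν m Q W χ ω γ)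
    (a b c b' c' : Fin N) (_ : [a, b, c, b', c'].Nodup) (o o' : Fin 3) (_ : o ≠ 2) (_ : o' ≠ 2),
    |∫ x, ops ν g o c (ops ν g 2 b (FT ν g B lam W Ψ {a, b, c})) x *
        ops ν g o' c' (ops ν g 2 b' (FT ν g B lam W Ψ {a, b', c'})) x ∂pin ν N|
      ≤ 4 * ω ^ 2 * γ ^ 3 * (1 / m) ^ 3 *
        (∫ x, lam (cnt B ({a, b, c, b', c'}ᶜ) x) ^ 2 *
          ((∏ j ∈ ({a, b, c, b', c'} : Finset (Fin N)), ind Q (x j)) *
            rough ν g b' Ψ x ^ 2) ∂pin ν N +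
        ∫ x, lam (cnt B ({a, b, c, b', c'}ᶜ) x) ^ 2 *
          ((∏ j ∈ ({a, b, c, b', c'} : Finset (Fin N)), ind Q (x j)) *
            rough ν g b Ψ x ^ 2) ∂pin ν N)

/-- **ZC.** Inner product for two triples with exactly two common particles `a, e`
(`T = {a,e,f}`, `T' = {a,e,f'}`); `oe, of` are the operators of the first triple, `oe', of'` those
of the second.

PROOF. Move the operators of `f` and `f'` to the other factor (`Adj`, hypothesis; as in `ZD`): the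
integral is `∫ ops oe e G · ops oe' e G'` with `G = op of' f' F_T`, `G' = op of f F_{T'}`, both
multiplied by `1_Q(x_f)1_Q(x_{f'})` without change of the integral (support of the other factor);
on `x_{f'} ∈ Q`, `G = W_Tλ_T V`, `V = op of' f' U_T`; on `x_f ∈ Q`, `G' = W_{T'}λ_{T'}V'`,
`V' = op of f U_{T'}` (as in `ZD`). `|ops o e G| ≤ |G| + g(x_e) Mg{e}|G|`, so (`g ≤ 1/m`,
`∫g² ≤ 1/m`) the modulus is `≤ ∫|G||G'| + 3 m⁻¹ ∫ out-of-e (Mg{e}|G|)(Mg{e}|G'|)` (write the last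
integral as `out ν x0 {e}`). Let `Λ = lam(cnt B (T∪T')ᶜ)²`. First integral:
`|G||G'| ≤ |W_TW_{T'}| Λ ½(V²+V'²)`; for `V²` integrate over `x_T` (`V`, `Λ` do not depend on it):
`Mg ν T(|W_TW_{T'}|) ≤ ω²γ³ 1_Q(x_{f'})` (first `x_f` with `χ(x_a-x_f)`, then `x_e` with
`χ(x_a-x_e)`, then `x_a` with `χ(x_a - x_{f'})`), so `≤ ½ω²γ³ out_T(Λ1_Q(x_{f'})V²) ≤
½ω²γ³m^{-3}·18 ∫Λ∏_{T∪T'}1_QΨ²` (`out_av_sq_le`, `Adj`). Second: `Mg{e}|G| ≤ ωγ χ(x_a-x_f)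
1_Q(x_a)1_Q(x_f) λ_T|V|` and the same for `G'`; the product is
`≤ ω²γ² χ(x_a-x_f)χ(x_a-x_{f'}) 1_Q.. Λ ½(V²+V'²)`, integrate over `x_a, x_f` for `V²`: `γ²`; total
`m⁻¹ω²γ⁴ ≤ ω²γ³` by `γ ≤ m`. Sum: `(1+3)·½·(18+18) = 72 ≤ 100`. -/
def S_ZC : Prop :=
  ∀ {N : ℕ} (ν : Measure R3) [IsFiniteMeasure ν] (m : ℝ) (g : R3 → ℝ) (Q B : Set R3)
    (_ : Wd ν m g Q B) (Ψ : (Fin N → R3) → ℝ) (_ : BM Ψ)
    (lam : ℕ → ℝ) (_ : ∀ n, 0 ≤ lam n) (_ : Antitone lam)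
    (W : Finset (Fin N) → (Fin N → R3) → ℝ) (χ : R3 → ℝ) (ω γ : ℝ) (_ : TW ν m Q W χ ω γ)
    (a e f f' : Fin N) (_ : [a, e, f, f'].Nodup) (oe of oe' of' : Fin 3),
    |∫ x, ops ν g oe e (ops ν g of f (FT ν g B lam W Ψ {a, e, f})) x *
        ops ν g oe' e (ops ν g of' f' (FT ν g B lam W Ψ {a, e, f'})) x ∂pin ν N|
      ≤ 100 * ω ^ 2 * γ ^ 3 * (1 / m) ^ 3 *
        ∫ x, lam (cnt B ({a, e, f, f'}ᶜ) x) ^ 2 *
          ((∏ j ∈ ({a, e, f, f'} : Finset (Fin N)), ind Q (x j)) * Ψ x ^ 2) ∂pin ν N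

/-- **ZS.** Inner product for the same triple `T = {a, b, c}` and two patterns.

PROOF. `|∫GG'| ≤ ½(∫G²+∫G'²)`, and `∫ (ops o c (ops o₂ b F_T))² ≤ 18² ∫ F_T²` (`Adj`,
hypothesis, twice; `F_T` and `ops o₂ b F_T` vanish unless `x_b, x_c ∈ Q`), and
`∫F_T² = out_T(λ_T²U_T² Mg ν T (W_T²))`, `Mg ν T (W_T²) ≤ ω²γ² ν(Q) ≤ 8 m ω²γ²` (`maj` with `i = a`,
`χ² ≤ χ`), `out_T(λ_T²U_T²) ≤ m^{-3}∫λ_T²∏_T1_QΨ²`. `324·8 = 2592 ≤ 3000`. -/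
def S_ZS : Prop :=
  ∀ {N : ℕ} (ν : Measure R3) [IsFiniteMeasure ν] (m : ℝ) (g : R3 → ℝ) (Q B : Set R3)
    (_ : Wd ν m g Q B) (Ψ : (Fin N → R3) → ℝ) (_ : BM Ψ)
    (lam : ℕ → ℝ) (_ : ∀ n, 0 ≤ lam n) (_ : Antitone lam)
    (W : Finset (Fin N) → (Fin N → R3) → ℝ) (χ : R3 → ℝ) (ω γ : ℝ) (_ : TW ν m Q W χ ω γ)
    (a b c : Fin N) (_ : [a, b, c].Nodup) (o1 o2 o3 o4 : Fin 3),
    |∫ x, ops ν g o1 c (ops ν g o2 b (FT ν g B lam W Ψ {a, b, c})) x *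
        ops ν g o3 c (ops ν g o4 b (FT ν g B lam W Ψ {a, b, c})) x ∂pin ν N|
      ≤ 3000 * ω ^ 2 * γ ^ 2 * (1 / m) ^ 2 *
        ∫ x, lam (cnt B ({a, b, c}ᶜ) x) ^ 2 *
          ((∏ j ∈ ({a, b, c} : Finset (Fin N)), ind Q (x j)) * Ψ x ^ 2) ∂pin ν N

/-- **TwoRough.** The final estimate of the linear term with at least two rough particles.

PROOF. By `ZLin` (hypothesis) the sum is `∑_a ∫ Z_a q_aΨ`; `Z_a` vanishes unless `x_a ∈ Q`, so the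
modulus is `≤ ½ τ Dw + ½ τ⁻¹ ∑_a ∫ Z_a²`. Expand `∫ Z_a²` into the pairs of patterns
`(b,c), (b',c')` and use `ZD`, `ZC`, `ZS` (hypotheses) according to `|{b,c} ∩ {b',c'}| = 0, 1, 2`
(the order of the operators does not matter: `ops` in different variables commute, `Mg_comm`).
Count for fixed `x`: (D) for fixed `b'` with `x_{b'} ∈ Q`, `n = cnt Q {b'}ᶜ x`: the number of
`(a,b,c,c')` in `Q` is `≤ n^4` and `lam(cnt B ..)² ≤ lam(n-4)²`: `≤ c4`; the same for `b`; (C) at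
most `4` patterns for every `(a,e,f,f')`, number of 4-tuples `≤ n^4`, `lam(n-4)²`,
`n = cnt Q univ x`: `≤ c3 n`; (S) `≤ 2` patterns for `(a,b,c)`: `≤ c2 n`. (Terms with `n < 4` or
`n < 3` vanish.) -/
def S_TwoRough : Prop :=
  ∀ {N : ℕ} (ν : Measure R3) [IsFiniteMeasure ν] (m : ℝ) (g : R3 → ℝ) (Q B : Set R3)
    (_ : Wd ν m g Q B) (Ψ : (Fin N → R3) → ℝ) (_ : BM Ψ)
    (lam : ℕ → ℝ) (_ : ∀ n, 0 ≤ lam n) (_ : Antitone lam)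
    (W : Finset (Fin N) → (Fin N → R3) → ℝ) (χ : R3 → ℝ) (ω γ : ℝ) (_ : TW ν m Q W χ ω γ)
    (c2 c3 c4 : ℝ)
    (_ : ∀ n : ℕ, ((n + 3 : ℕ) : ℝ) ^ 3 * lam n ^ 2 ≤ c2 * ((n + 3 : ℕ) : ℝ))
    (_ : ∀ n : ℕ, ((n + 4 : ℕ) : ℝ) ^ 4 * lam n ^ 2 ≤ c3 * ((n + 4 : ℕ) : ℝ))
    (_ : ∀ n : ℕ, ((n + 4 : ℕ) : ℝ) ^ 4 * lam n ^ 2 ≤ c4) (τ : ℝ) (_ : 0 < τ),
    |∑ T ∈ powersetCard 3 (univ : Finset (Fin N)), ∫ x, FT ν g B lam W Ψ T x *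
        (Ψ x - av ν g T Ψ x - ∑ i ∈ T, av ν g (T.erase i) (rough ν g i Ψ) x) ∂pin ν N|
      ≤ τ * Dw ν g Q Ψ + 10000 * τ⁻¹ * ω ^ 2 * γ ^ 2 *
        (γ * (1 / m) ^ 3 * (c4 * Dw ν g Q Ψ + c3 * Nw ν Q Ψ) + (1 / m) ^ 2 * c2 * Nw ν Q Ψ)

end Pool.Agent.Lib.MP_5db8e2_mp
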