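import Pool.Agent.Lib.MP_5db8e2_mp.LB.Spec2
import Pool.Agent.Lib.MP_5db8e2_mp.LB.Spec5

/-!
# Lower bound, part 6: the quadratic form: splitting, three-body diagonal, pair sums
-/

set_option autoImplicit false

open MeasureTheory Function Finset
open scoped Classical

namespace Pool.Agent.Lib.MP_5db8e2_mp

/-- `P3 N`, `P4 N`: triples, quadruples. -/
noncomputable abbrev P3 (N : ℕ) : Finset (Finset (Fin N)) := powersetCard 3 univ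

noncomputable abbrev P4 (N : ℕ) : Finset (Finset (Fin N)) := powersetCard 4 univ

/-- Scalar product of two gradient fields. -/
noncomputable def dt {N : ℕ} (u v : Fin N → Fin 3 → ℝ) : ℝ := ∑ i, ∑ a, u i a * v i a

namespace Par

variable (p : Par) (V : R3 → R3 → ℝ) (c : Cor) (Ψ : (Fin p.N → R3) → ℝ)

/-- The gradient field of the triple at the configuration `x`. -/
noncomputable def fT (T : Finset (Fin p.N)) (x : Fin p.N → R3) (i : Fin p.N) (a : Fin 3) : ℝ :=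
  gT c.φ T i a x

noncomputable def fQ (Q : Finset (Fin p.N)) (x : Fin p.N → R3) (i : Fin p.N) (a : Fin 3) : ℝ :=
  gQ c.g Q i a x

/-- The three-body diagonal. -/
noncomputable def DT : ℝ :=
  ∑ T ∈ P3 p.N, ∫ x, (dt (p.fT c T x) (p.fT c T x) + VT V T x * (1 - c.φ (pick 3 T x)) ^ 2) *
    p.v3 Ψ T x ^ 2 ∂pin p.nu p.N

/-- The part of the form inside the quadruple `Q`. -/
noncomputable def q4 (Q : Finset (Fin p.N)) (x : Fin p.N → R3) : ℝ :=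
  ∑ l ∈ Q, ∑ l' ∈ Q.erase l, dt (p.fT c (Q.erase l) x) (p.fT c (Q.erase l') x) *
      (p.v3 Ψ (Q.erase l) x * p.v3 Ψ (Q.erase l') x)
  + 2 * ∑ l ∈ Q, dt (p.fT c (Q.erase l) x) (p.fQ c Q x) * (p.v3 Ψ (Q.erase l) x * p.v4 Ψ Q x)
  + dt (p.fQ c Q x) (p.fQ c Q x) * p.v4 Ψ Q x ^ 2
  + ∑ l ∈ Q, VT V (Q.erase l) x * (sQ c.s Q l x ^ 2 * p.v4 Ψ Q x ^ 2
      - 2 * (1 - c.φ (pick 3 (Q.erase l) x)) * sQ c.s Q l x *
        (p.v3 Ψ (Q.erase l) x * p.v4 Ψ Q x))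

noncomputable def Q4 : ℝ := ∑ Q ∈ P4 p.N, ∫ x, p.q4 V c Ψ Q x ∂pin p.nu p.N

/-- The pairs of triples with one common particle. -/
noncomputable def TT : ℝ :=
  ∑ T ∈ P3 p.N, ∑ T' ∈ P3 p.N, if (T ∩ T').card = 1 then
    ∫ x, dt (p.fT c T x) (p.fT c T' x) * (p.v3 Ψ T x * p.v3 Ψ T' x) ∂pin p.nu p.N else 0

/-- The pairs triple, quadruple with one or two common particles. -/
noncomputable def TQ : ℝ :=
  ∑ T ∈ P3 p.N, ∑ Q ∈ P4 p.N, if (T ∩ Q).card = 1 ∨ (T ∩ Q).card = 2 then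
    ∫ x, dt (p.fT c T x) (p.fQ c Q x) * (p.v3 Ψ T x * p.v4 Ψ Q x) ∂pin p.nu p.N else 0

/-- The pairs of different quadruples with common particles. -/
noncomputable def QP : ℝ :=
  ∑ Q ∈ P4 p.N, ∑ Q' ∈ P4 p.N, if (Q ∩ Q').card = 1 ∨ (Q ∩ Q').card = 2 ∨ (Q ∩ Q').card = 3 then
    ∫ x, dt (p.fQ c Q x) (p.fQ c Q' x) * (p.v4 Ψ Q x * p.v4 Ψ Q' x) ∂pin p.nu p.N else 0

/-- The mixed potential terms of two quadruples with a common triple. -/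
noncomputable def VS : ℝ :=
  ∑ T ∈ P3 p.N, ∑ i ∈ Tᶜ, ∑ i' ∈ Tᶜ.erase i,
    ∫ x, VT V T x * (sQ c.s (insert i T) i x * sQ c.s (insert i' T) i' x) *
      (p.v4 Ψ (insert i T) x * p.v4 Ψ (insert i' T) x) ∂pin p.nu p.N

end Par

/-- **QuadSplit.** The quadratic form, sorted.

PROOF. Expand `∑_{i,a} Γ²`: the pairs `(T,T')` are sorted by `|T ∩ T'|`: `3`: `T = T'` (in `DT`); `2`:
`T ∪ T' = Q` has four elements, `T = Q \ l`, `T' = Q \ l'`, `l ≠ l'` (a bijection between the ordered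
pairs with `|T∩T'| = 2` and the triples `(Q, l, l')`); `1`: `TT`; `0`: `fT T i a * fT T' i a = 0`
because `fT T i a = 0` for `i ∉ T`. The pairs `(T, Q)`: `|T ∩ Q| = 3`: `T = Q \ l`; `1`, `2`: `TQ`; `0`:
zero. The pairs `(Q, Q')`: `Q = Q'`; `1,2,3`: `QP`; `0`: zero. Expand `V_T t_T²`:
`V_T(1-φ_T)²v_T² - 2V_T(1-φ_T)v_T ∑_i s_{T∪i,i}v_{T∪i} + V_T∑_{i,i'}`; in the second sum and in the
terms `i = i'` of the third use the bijection `(T, i ∉ T) ↔ (Q, l ∈ Q)`, `Q = insert i T`, `l = i`,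
`T = Q.erase l`. Integrability: `BMall` (hypothesis). -/
def S_QuadSplit : Prop :=
  ∀ (V : R3 → R3 → ℝ) (b K R r r4 W QQ : ℝ) (c : Cor) (_ : c.OK V b K R r r4 W QQ) (p : Par)
    (_ : p.OK) (Ψ : (Fin p.N → R3) → ℝ) (_ : BM Ψ),
    p.Quad V c Ψ = p.DT V c Ψ + p.Q4 V c Ψ + p.TT c Ψ + 2 * p.TQ c Ψ + p.QP c Ψ + p.VS V c Ψ

/-- **DiagT.** The three-body diagonal.

PROOF. `v3² ≤ ∑_a θ_a(cmA T x)(λU)²` (`Jensen` with `c = cmA T x`); the factor in front is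
nonnegative. `λ`, `U` do not depend on `x_T`, so (`integral_eq_out`, `Mg_mul_left`) it is enough that
`Mg ν T ([dt + V_T(1-φ_T)²] θ_a(cmA T ·)) x = ∫ (gg φ φ + V3(1-φ)²)(y) θ_a(cm y) dy
= s³ rint(gg φ φ + V3 (1-φ)²) ≤ s³ (b + K/r⁴)` (`ClInt`, `Put`, `Supp`, `integral_weight`,
`Data3.a_bd`, `∫θ_a = s³`). Note `dt (fT T x) (fT T x) = gg φ φ (pick 3 T x)`. (For the translation
invariant integrand use cut-offs or that it vanishes for `rad > r4`: `φ`, `V3` do.) -/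
def S_DiagT : Prop :=
  ∀ (V : R3 → R3 → ℝ) (b K R r r4 W QQ : ℝ) (c : Cor) (_ : c.OK V b K R r r4 W QQ) (p : Par)
    (_ : p.OK) (_ : p.Large r4) (Ψ : (Fin p.N → R3) → ℝ) (_ : BM Ψ),
    p.DT V c Ψ ≤ (b + K / r ^ 4) * p.G3 Ψ

/-! ## Pair sums in the whole cube -/

/-- Power kernels with a cut-off. -/
noncomputable def kap (σ r : ℝ) (t : R3) : ℝ := if ‖t‖ ≤ 2 * r then (1 + ‖t‖) ^ (-σ) else 0

/-- **Kap.** Integrals of the power kernels.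

PROOF. `‖·‖` is the maximum norm, the volume of `{‖t‖ ≤ R}` is `(2R)³`, so
`∫ f(‖t‖) dt = 24 ∫_0^∞ u² f(u) du` (`MeasureTheory.integral_fun_norm_addHaar`, or dyadic shells).
`∫ kap σ r ≤ 24 ∫_0^{2r} (1+u)^{2-σ} du ≤ 24 (1+2r)^{3-σ}/(3-σ) ≤ 216 r^{3-σ}` for `2 ≤ σ ≤ 8/3`,
`r ≥ 1`. `ν ≤ volume`, translation and reflection invariance of the volume. The products:
`kap σ r(u) kap σ' r'(v) ≤ ½(1+‖u‖)^{-4} + ½(1+‖v‖)^{-4}` (`σ, σ' ≥ 2`, AM-GM), integrable. -/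
def S_Kap : Prop :=
  ∃ C : ℝ, 1 ≤ C ∧ ∀ (ν : Measure R3) [IsFiniteMeasure ν] (_ : ν ≤ volume) (σ σ' r r' : ℝ)
    (_ : 2 ≤ σ) (_ : σ ≤ 8 / 3) (_ : 2 ≤ σ') (_ : σ' ≤ 8 / 3) (_ : 1 ≤ r) (_ : 1 ≤ r'),
    KerOK ν (kap σ r) (kap σ' r') (C * r ^ (3 - σ)) (C * r' ^ (3 - σ')) C

/-- **Supp2.** Geometry of the supports, second form.

PROOF. `‖x i - cmA A x‖ ≤ 8 r4` (the centre of mass is an average of the positions), so `x j` is at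
distance `≤ 18 r4 ≤ e s` from a point of `Qin a`. -/
def S_Supp2 : Prop :=
  ∀ (p : Par) (_ : p.OK) (r4 : ℝ) (_ : 0 ≤ r4) (_ : p.Large r4) (a : Fin 3 → ℤ)
    (A : Finset (Fin p.N)) (x : Fin p.N → R3) (_ : Par.cmA A x ∈ p.Qin a) (i : Fin p.N) (_ : i ∈ A)
    (_ : ∀ j ∈ A, ‖x i - x j‖ ≤ 8 * r4) (j : Fin p.N) (_ : ‖x j - x i‖ ≤ 10 * r4),
    x j ∈ Qc p.s a

/-- **PairGlob.** Pair sums in the whole cube.

PROOF. For every `a ∈ win` and every pair with `|A ∩ A'| = t`: if the product of the kernels is not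
zero and `cmA A x ∈ Qin a`, then all `x j`, `j ∈ A ∪ A'`, are in `Qc a` (`Supp2`: `kap σ r t ≠ 0`
implies `‖t‖ ≤ 2r ≤ 2 r4`), so the right side of `hY` is at most
`∑_{i∈A∩A'} ∑_a pairH (kap σ rA) (kap σ' rB) (Qc a) A A' i x (Lam(..) (U_a)²)`. Integrate and apply
`PairSum` for every `a` with `m = s³` (`WdWin`, `Kap`: `p.nu ≤ volume` is `Measure.restrict_le_self`);
sum over `a`: `∑_a Nw = Nn`, `∑_a Dw = D`. Constants: `(C x)^k ≤ C^k x^k`, `k ≤ 3`. -/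
def S_PairGlob : Prop :=
  ∀ (va vb t : ℕ), 1 ≤ t → t ≤ va → t < vb → va ≤ 4 → vb ≤ 4 → ∃ C : ℝ, 0 < C ∧
    ∀ (p : Par) (_ : p.OK) (r4 : ℝ) (_ : p.Large r4) (Ψ : (Fin p.N → R3) → ℝ) (_ : BM Ψ)
      (σ σ' rA rB : ℝ) (_ : 2 ≤ σ) (_ : σ ≤ 8 / 3) (_ : 2 ≤ σ') (_ : σ' ≤ 8 / 3) (_ : 1 ≤ rA)
      (_ : rA ≤ r4) (_ : 1 ≤ rB) (_ : rB ≤ r4) (Lam : ℕ → ℝ) (_ : ∀ n, 0 ≤ Lam n) (c1 c2 : ℝ)
      (_ : ∀ n : ℕ, ((n + (va + vb - t) : ℕ) : ℝ) ^ (va + vb - t) * Lam n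
        ≤ c1 * ((n + (va + vb - t) : ℕ) : ℝ))
      (_ : ∀ n : ℕ, ((n + (va + vb - t - 1) : ℕ) : ℝ) ^ (va + vb - t - 1) * Lam n ≤ c2)
      (Y : Finset (Fin p.N) → Finset (Fin p.N) → (Fin p.N → R3) → ℝ) (_ : ∀ A A', BM (Y A A'))
      (_ : ∀ A ∈ powersetCard va (univ : Finset (Fin p.N)),
        ∀ A' ∈ powersetCard vb (univ : Finset (Fin p.N)), (A ∩ A').card = t → ∀ x,
        |Y A A' x| ≤ ∑ i ∈ A ∩ A', (∏ j ∈ A.erase i, kap σ rA (x i - x j)) *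
          (∏ j ∈ A'.erase i, kap σ' rB (x i - x j)) *
          ∑ a ∈ p.win, ind (p.Qin a) (Par.cmA A x) *
            (Lam (cnt (Qc p.s a) (A ∪ A')ᶜ x) * p.U a A Ψ x ^ 2)),
      ∑ A ∈ powersetCard va (univ : Finset (Fin p.N)),
        ∑ A' ∈ powersetCard vb (univ : Finset (Fin p.N)),
          (if (A ∩ A').card = t then ∫ x, |Y A A' x| ∂pin p.nu p.N else 0)
      ≤ C * ((rA ^ (3 - σ)) ^ (va - t) * (rB ^ (3 - σ')) ^ (vb - t) *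
            (1 / p.s ^ 3) ^ (va + vb - t - 1) * c1 * p.Nn Ψ
          + (rA ^ (3 - σ)) ^ (va - t) * (if vb - t = 1 then rB ^ (3 - σ') else 1) *
            (1 / p.s ^ 3) ^ va * c2 * p.D Ψ)

/-- **DiagGlob.** Single cluster sums in the whole cube (`k = 3, 4`).

PROOF. As `PairGlob`: on the support all `x j ∈ Qc a`; `Mg ν A (∏_{j∈A\i} κ(x_i-x_j) ∏_A 1_Q) ≤
c0^{k-1} ν(Q) ≤ 8 s³ c0^{k-1}`, `U²` and the weight do not depend on `x_A`: `out_av_sq_le` gives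
`8 s³ c0^{k-1} s^{-3k} ∫ Lam(cnt Q Aᶜ x) ∏_A 1_Q Ψ²`, and `∑_A` gives `C(n,k) Lam(n-k) ≤ c1 n`
(`CountK`). -/
def S_DiagGlob : Prop :=
  ∀ k : ℕ, 1 ≤ k → k ≤ 4 → ∃ C : ℝ, 0 < C ∧
    ∀ (p : Par) (_ : p.OK) (r4 : ℝ) (_ : p.Large r4) (Ψ : (Fin p.N → R3) → ℝ) (_ : BM Ψ)
      (κ : R3 → ℝ) (_ : Measurable κ) (_ : ∀ t, 0 ≤ κ t ∧ κ t ≤ 1) (_ : ∀ t, κ t ≠ 0 → ‖t‖ ≤ 8 * r4)
      (c0 : ℝ) (_ : ∀ u, ∫ t, κ (u - t) ∂p.nu ≤ c0) (Lam : ℕ → ℝ) (_ : ∀ n, 0 ≤ Lam n) (c1 : ℝ)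
      (_ : ∀ n : ℕ, ((n + k : ℕ) : ℝ) ^ k * Lam n ≤ c1 * ((n + k : ℕ) : ℝ))
      (Y : Finset (Fin p.N) → (Fin p.N → R3) → ℝ) (_ : ∀ A, BM (Y A))
      (_ : ∀ A ∈ powersetCard k (univ : Finset (Fin p.N)), ∀ x,
        |Y A x| ≤ ∑ i ∈ A, (∏ j ∈ A.erase i, κ (x i - x j)) *
          ∑ a ∈ p.win, ind (p.Qin a) (Par.cmA A x) *
            (Lam (cnt (Qc p.s a) Aᶜ x) * p.U a A Ψ x ^ 2)),
      ∑ A ∈ powersetCard k (univ : Finset (Fin p.N)), ∫ x, |Y A x| ∂pin p.nu p.N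
      ≤ C * c0 ^ (k - 1) * (1 / p.s ^ 3) ^ (k - 1) * c1 * p.Nn Ψ

/-- **KerBd.** Pointwise bounds of the correlation functions by products of one-variable kernels, with
any particle `i` of the cluster as the centre.

PROOF. `‖x_i - x_j‖ ≤ 2 rad` gives `1 + ‖x_i - x_j‖ ≤ 2(1 + rad)`, so
`(1+rad)^{-5} ≤ ∏_{j≠i} 2^{5/2}(1+‖x_i-x_j‖)^{-5/2}`; all the functions vanish for `rad > r` (`φ`, `∂φ`:
`Data3.supp`; the derivative vanishes outside the closed set `rad ≤ r`, too), resp. `rad > r4`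
(`g`), `rad > R` (`s`), so the cut-offs of `kap` are `1`. `s`: `|s| ≤ K 1(rad ≤ R) ≤ K (1+2R)^8 ∏ kap`.
The sums over `i, a` in `dt` have at most `4·3` nonzero terms. -/
def S_KerBd : Prop :=
  ∀ K R : ℝ, ∃ C : ℝ, 1 ≤ C ∧
    ∀ (V : R3 → R3 → ℝ) (b r r4 W QQ : ℝ) (c : Cor) (_ : c.OK V b K R r r4 W QQ) {N : ℕ}
      (A : Finset (Fin N)) (x : Fin N → R3) (i : Fin N) (_ : i ∈ A),
      (A.card = 3 → ∀ j a, |gT c.φ A j a x| ≤ C * ∏ j ∈ A.erase i, kap (5 / 2) r (x i - x j)) ∧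
      (A.card = 3 → |c.φ (pick 3 A x)| ≤ C * ∏ j ∈ A.erase i, kap 2 r (x i - x j)) ∧
      (A.card = 3 → VT V A x ≠ 0 → ∀ j ∈ A, ‖x i - x j‖ ≤ 2 * R) ∧
      (A.card = 4 → ∀ j a, |gQ c.g A j a x| ≤ C * ∏ j ∈ A.erase i, kap (8 / 3) r4 (x i - x j)) ∧
      (A.card = 4 → ∀ j, |sQ c.s A j x| ≤ C * ∏ j ∈ A.erase i, kap (8 / 3) r4 (x i - x j)) ∧
      (∀ j a, gT c.φ A j a x ≠ 0 → j ∈ A) ∧ (∀ j a, gQ c.g A j a x ≠ 0 → j ∈ A)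

end Pool.Agent.Lib.MP_5db8e2_mp
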