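import Pool.Agent.Lib.MP_5db8e2_mp.LB.Spec1
import Pool.Agent.Lib.MP_5db8e2_mp.LB.Spec7

/-!
# Lower bound, part 8: two windows, main terms, the gap, the crude bound
-/

set_option autoImplicit false

open MeasureTheory Function Finset
open scoped Classical

namespace Pool.Agent.Lib.MP_5db8e2_mp

/-- **TwoWin.** Comparison of the averages in two overlapping windows.

PROOF. Let `P = av ν g`, `P' = av ν g'`, `q, q'` the rough parts, `k = |A|`, and enumerate `A`. All the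
operators in different variables commute (`Mg_comm`, also for two densities), and
`P_A - P'_A = ∑_{j∈A} P'_{A_{<j}} (P_j - P'_j) P_{A_{>j}}` (telescoping); so with
`F_j = P'_{A_{<j}} P_{A_{>j}}Ψ`, `(P_AΨ - P'_AΨ)² ≤ k ∑_j (P_jF_j - P'_jF_j)²`. For `x_j ∈ Q ∩ Q'`,
`P_jF - P'_jF = q'_jF - q_jF`, so `(P_jF - P'_jF)² ≤ 2(q_jF)² + 2(q'_jF)²`; the left side does not depend
on `x_j`: multiply by `1_{Q∩Q'}(x_j)`, integrate over `x_j` and divide by `ν(Q∩Q') ≥ m`: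
`(P_jF-P'_jF)² ≤ (2/m) Mg ν {j} (1_Q(x_j)(q_jF)² + 1_{Q'}(x_j)(q'_jF)²)`. Finally
`(q_jF_j)² = (P'_{<}P_{>}q_jΨ)² ≤ P'_{<}P_{>}(q_jΨ)² ≤ m^{-(k-1)} Mg ν (A\j) (∏_{i∈A\j}1_B(x_i) (q_jΨ)²)`
(`av_sq_le`, `av_le` for each of the two; `1_Q, 1_{Q'} ≤ 1_B`), the same for `q'_j`. Multiply by `w` and
integrate. -/
def S_TwoWin : Prop :=
  ∀ {N : ℕ} (ν : Measure R3) [IsFiniteMeasure ν] (m : ℝ) (g g' : R3 → ℝ) (Q Q' B B' : Set R3)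
    (_ : Wd ν m g Q B) (_ : Wd ν m g' Q' B') (_ : Q' ⊆ B) (_ : m ≤ ν.real (Q ∩ Q'))
    (Ψ w : (Fin N → R3) → ℝ) (_ : BM Ψ) (_ : BM w) (_ : ∀ x, 0 ≤ w x) (A : Finset (Fin N))
    (_ : DependsOn w ((A : Set (Fin N))ᶜ)) (x0 : Fin N → R3),
    out ν x0 A (fun x => w x * (av ν g A Ψ x - av ν g' A Ψ x) ^ 2)
      ≤ 2 * A.card * (1 / m) ^ A.card * ∑ j ∈ A, ∫ x, w x * ((∏ i ∈ A, ind B (x i)) *
        (ind Q (x j) * rough ν g j Ψ x ^ 2 + ind Q' (x j) * rough ν g' j Ψ x ^ 2)) ∂pin ν N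

/-- **VVup.** `VV ≤ G4`.

PROOF. `Jensen`: `vt4(c)² ≤ ∑_aθ_a(c)(λ4U_a)²`; integrate over `c ∈ Om` (`∫_{Om}θ_a = s³` by
`WdWin`/`WinFacts`), `λ4² = λ4` (`Counts`). -/
def S_VVup : Prop :=
  ∀ (p : Par) (_ : p.OK) (Ψ : (Fin p.N → R3) → ℝ) (_ : BM Ψ),
    0 ≤ p.VV Ψ ∧ p.VV Ψ ≤ p.G4 Ψ

/-- **VVlow.** `G4 - VV` is small.

PROOF. With `u_a = λ4_aU_a(Q)`:
`∑θ_au_a² - (∑θ_au_a)² = ½∑_{a,a'}θ_aθ_{a'}(u_a-u_{a'})² + (1-∑θ)∑θ_au_a²` (pointwise in `c`). Integrate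
over `c`: `∫θ_aθ_{a'} ≤ s³ = m`, and only neighbouring windows (both functions nonzero at some `c`)
contribute; by `Overlap` they satisfy `m ≤ ν(Qc a ∩ Qc a')`, `Qc a' ⊆ Bc a`, `Qc a ⊆ Bc a'`, and every
window has at most `27` neighbours. As `λ4 ∈ {0,1}`,
`(u_a-u_{a'})² = λλ'(U_a-U_{a'})² + λ(1-λ')U_a² + λ'(1-λ)U_{a'}²`.
(1) `TwoWin` (hypothesis) with `A = Q` (`k = 4`), `w = λλ' ≤ lam4(cnt B_a Qᶜ)`: for fixed `j` with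
`x_j ∈ Q_a ∪ Q_{a'} ⊆ B_a` and `n = cnt B_a {j}ᶜ x`: `∑_{Q∋j} w ∏_{i∈Q}1_{B_a}(x_i) ≤ C(n,3) lam4(n-3) ≤
8M³`; total `½ m · 8 m^{-4} · 8M³ (Dw_a+Dw_{a'})`. (2) `λ(1-λ')U_a²`: the weight does not depend on
`x_Q`; `out_av_sq_le`: `m^{-4}∫λ(1-λ')∏_Q1_{Q_a}Ψ²`; `λ' = 0` and `x_Q ∈ Q_a ⊆ B_{a'}` imply
`cnt B_{a'} univ x > M`; `∑_Q`: `n_{Q_a}⁴ lam4(n_{Q_a}-4) 1(M < n_{B_{a'}}) ≤ 8M³ n_{B_{a'}} 1(M < n_{B_{a'}})`.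
(3) `1 - ∑θ(c) ≠ 0` implies `|c_k| > sK` for some `k` (`WinFacts`), so for `θ_a(c) ≠ 0`: `|a_k| = K` and
`Qc a ⊆ strip`; `m^{-4}·m ∑_Q∫λ∏_Q1_{Q_a}Ψ² ≤ m^{-3}8M³∫cnt Q_a Ψ²`, and
`∑_{a: Qc a ⊆ strip} cnt Q_a univ x ≤ 27 cnt strip univ x`. -/
def S_VVlow : Prop :=
  ∃ C : ℝ, 0 < C ∧ ∀ (p : Par) (_ : p.OK) (Ψ : (Fin p.N → R3) → ℝ) (_ : BM Ψ),
    p.G4 Ψ ≤ p.VV Ψ + C * p.mu ^ 3 * (p.D Ψ + p.ND Ψ + p.NS Ψ)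

/-- The main terms as integrals of functions of the configuration. -/
noncomputable def Par.T3 (p : Par) (Ψ : (Fin p.N → R3) → ℝ) : ℝ :=
  ∑ a ∈ p.win, p.s ^ 3 * ∫ x, lam3 p.M (cnt (Bc p.s a) univ x - 3) * esy (p.gd a) 3 x * Ψ x ^ 2
    ∂pin p.nu p.N

noncomputable def Par.T4 (p : Par) (Ψ : (Fin p.N → R3) → ℝ) : ℝ :=
  ∑ a ∈ p.win, p.s ^ 3 * ∫ x, lam4 p.M (cnt (Bc p.s a) univ x - 4) * esy (p.gd a) 4 x * Ψ x ^ 2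
    ∂pin p.nu p.N

/-- **Mains.** The main terms.

PROOF. `MainUpper`, `MainLower` for every window with `x0 = 0`, `m = s³`; `cl = 4M²` (`k = 3`),
`cl = 8M³` (`k = 4`) by `Counts` (`C(n,k-1) lam(n-(k-1)) = 0` for `n < k - 1`); `s³ s^{-9} 4M² = 4 μ²`.
In `G3` the weight is `l3` (not squared): matches `lam (cnt B Aᶜ x)`. Last inequalities:
`esy (gd a) k x ≤ m^{-k} C(n_Q, k)`, `n_Q = cnt (Qc a) univ x ≤ n_B` (`CountK`), and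
`n_Q^k lam(n_B-k) ≤ n_Q (2M)^{k-1}`. Nonnegativity: integrals and sums of nonnegative functions. -/
def S_Mains : Prop :=
  ∃ C : ℝ, 0 < C ∧ ∀ (p : Par) (_ : p.OK) (Ψ : (Fin p.N → R3) → ℝ) (_ : BM Ψ),
    0 ≤ p.G3 Ψ ∧ 0 ≤ p.G4 Ψ ∧ 0 ≤ p.D Ψ ∧ 0 ≤ p.Nn Ψ ∧ 0 ≤ p.ND Ψ ∧ 0 ≤ p.NS Ψ ∧
    p.G3 Ψ ≤ p.T3 Ψ ∧ p.T3 Ψ - C * p.mu ^ 2 * p.D Ψ ≤ p.G3 Ψ ∧
    p.G4 Ψ ≤ p.T4 Ψ ∧ p.T4 Ψ - C * p.mu ^ 3 * p.D Ψ ≤ p.G4 Ψ ∧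
    p.G3 Ψ ≤ C * p.mu ^ 2 * p.Nn Ψ ∧ p.G4 Ψ ≤ C * p.mu ^ 3 * p.Nn Ψ ∧
    p.Nn Ψ ≤ 27 * p.N * p.nrm Ψ

/-! ## The gap -/

/-- **Poinc.** Poincaré's inequality in the window.

PROOF. `f(x) - f(y)`, `x, y ∈ Q`, is the sum of three differences in which only one coordinate
changes (the intermediate points `(x_0,x_1,x_2)`, `(y_0,x_1,x_2)`, `(y_0,y_1,x_2)`, `(y_0,y_1,y_2)` are in the
cube); by the fundamental theorem and Cauchy-Schwarz the square of the `k`-th one is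
`≤ 2s ∫_{-s}^{s} |∂_kf|²` along the segment, so
`∫_Q∫_Q (f(x)-f(y))² ≤ 3 · (2s)² (2s)³ ∫_Q ∑_k(∂_kf)²` (Fubini). With `ḡ = ∫ g f`:
`(f(x) - ∫gf)² ≤ ∫g(y)(f(x)-f(y))²dy ≤ s^{-3}∫_Q(f(x)-f(y))²dy`. So `C = 96` works. -/
def S_Poinc : Prop :=
  ∃ C : ℝ, 0 < C ∧ ∀ (s : ℝ) (_ : 1 ≤ s) (a : Fin 3 → ℤ) (g f : R3 → ℝ) (_ : Measurable g)
    (_ : ∀ c, 0 ≤ g c) (_ : ∀ c, g c ≤ 1 / s ^ 3) (_ : ∀ c, g c ≠ 0 → c ∈ Qc s a)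
    (_ : ∫ c, g c = 1) (_ : ContDiff ℝ 1 f),
    ∫ c in Qc s a, (f c - ∫ t, g t * f t) ^ 2
      ≤ C * s ^ 2 * ∫ c in Qc s a, ∑ k, fderiv ℝ f c (Pi.single k 1) ^ 2

namespace Par

variable (p : Par) (c : Cor) (Ψ : (Fin p.N → R3) → ℝ)

/-- The function `∑_a ∂_kθ_a(cm_T) λ3 U_T`. -/
noncomputable def dv3 (T : Finset (Fin p.N)) (k : Fin 3) (x : Fin p.N → R3) : ℝ :=
  ∑ a ∈ p.win, fderiv ℝ (th p.s p.e a) (cmA T x) (Pi.single k 1) * (p.l3 a T x * p.U a T Ψ x)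

/-- `S_i = ∑_{T∋i}φ_Tv_T`. -/
noncomputable def Si (i : Fin p.N) (x : Fin p.N → R3) : ℝ :=
  ∑ T ∈ (P3 p.N).filter (fun T => i ∈ T), c.φ (pick 3 T x) * p.v3 Ψ T x

/-- The partial derivatives of `Ψ + S_i` in the variable `x_i`. -/
noncomputable def dX (i : Fin p.N) (k : Fin 3) (x : Fin p.N → R3) : ℝ :=
  pd Ψ i k x + ∑ T ∈ (P3 p.N).filter (fun T => i ∈ T),
    (gT c.φ T i k x * p.v3 Ψ T x + c.φ (pick 3 T x) * (1 / 3 * p.dv3 Ψ T k x))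

end Par

/-- **DX.** `Ψ + S_i` is `C¹` in the variable `x_i`.

PROOF. For `i ∈ T`, `i = orderEmbOfFin m`: as functions of `t`, `pick 3 T (update x i t)` is affine
(`single m`-direction), `cmA T (update x i t)` is affine with derivative `1/3`, and `l3 a T`, `U a T Ψ` do
not depend on `t` (`cnt_dep`, `av_dep`). `th` is `C¹` (`WinFacts`), `φ` is `C¹` (`Data3.c1`), `Ψ` is `C¹`.
Product rule. `BM`: `BMall`; `dv3` is bounded and measurable (`fderiv` of `th` is continuous and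
bounded by `C/s`). -/
def S_DX : Prop :=
  ∀ (V : R3 → R3 → ℝ) (b K R r r4 W QQ : ℝ) (c : Cor) (_ : c.OK V b K R r r4 W QQ) (p : Par)
    (_ : p.OK) (Ψ : (Fin p.N → R3) → ℝ) (_ : ContDiff ℝ 1 Ψ) (_ : HasCompactSupport Ψ)
    (i : Fin p.N),
    BM (p.Si c Ψ i) ∧ (∀ k, BM (p.dX c Ψ i k)) ∧ (∀ T k, BM (p.dv3 Ψ T k)) ∧
    ∀ x : Fin p.N → R3,
      ContDiff ℝ 1 (fun t : R3 => Ψ (update x i t) + p.Si c Ψ i (update x i t)) ∧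
      ∀ (t : R3) (k : Fin 3),
        fderiv ℝ (fun t : R3 => Ψ (update x i t) + p.Si c Ψ i (update x i t)) t (Pi.single k 1)
          = p.dX c Ψ i k (update x i t)

/-- **Gap.** The total roughness is controlled by the kinetic square.

PROOF. `q_iΨ = q_i(Ψ+S_i) - q_iS_i`, so `Dw_a ≤ 2∑_i∫1_{Q_a}(x_i)(q_i(Ψ+S_i))² +
2∑_i∫1_{Q_a}(x_i)(q_iS_i)²`. First term: integrate over `x_i` first (`integral_eq_out` with `A = {i}`,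
`Mg_singleton`; `Qc a ⊆ Om`: the integral with respect to `ν` over `Q_a` is the one with respect to the
volume), `Poinc` and `DX`: `≤ Cs²∑_i∫1_{Q_a}(x_i)∑_k dX²`. Second term: `∫1_Q(x_i)(q_iS)² ≤
18∫1_Q(x_i)S²` (`Adj` with `o = 2`, `w = 1`). Sum over `a` (`Overlap`: `27`):
`D ≤ C[s²∑_{i,k}∫dX² + ∑_i∫S_i²]`. `dX = (pd Ψ - Γ) + ∑_{T∋i}φ_T(1/3)dv3 - ∑_QgQ v4` (in `Γ` the terms
with `i ∉ T` vanish), so `dX² ≤ 3[...]`: `RR`; `s²∑_i∫(∑_{T∋i}φ_T dv3_{T,k})²` by `PPb` for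
`v T = (s/√C) dv3 T k` (`Jensen`, third part); `GQb`. `∑_i∫S_i²` by `PPb` for `v3` (`Jensen` with
`θ_a(cm) ≤ ind (Qin a)(cm)`, `WinFacts`). -/
def S_Gap : Prop :=
  ∀ K R : ℝ, ∃ C : ℝ, 0 < C ∧
    ∀ (V : R3 → R3 → ℝ) (b r r4 W QQ : ℝ) (c : Cor) (_ : c.OK V b K R r r4 W QQ) (p : Par)
    (_ : p.OK) (_ : p.Large r4) (Ψ : (Fin p.N → R3) → ℝ) (_ : ContDiff ℝ 1 Ψ)
    (_ : HasCompactSupport Ψ),
    p.D Ψ ≤ C * (p.s ^ 2 * p.RR c Ψ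
      + (p.s ^ 2 * (p.mu ^ 3 + r4 ^ 2 * p.mu ^ 6 + r4 ^ 2 * p.mu ^ 5 + r4 * p.mu ^ 4)
        + p.mu ^ 2 + r ^ 2 * p.mu ^ 3 + r ^ 4 * p.mu ^ 4) * p.Nn Ψ
      + (p.s ^ 2 * (r4 * p.mu ^ 4 * p.M ^ 2) + r ^ 2 * p.mu ^ 3 * p.M) * p.D Ψ)

/-! ## The crude bound for the boundary strip -/

/-- The closed cube with the corner `b` and the side `ℓ`. -/
def cube (b : R3) (ℓ : ℝ) : Set R3 := {c | ∀ k, b k ≤ c k ∧ c k ≤ b k + ℓ}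

/-- **Crude3.** Three particles in a cube of fixed size.

PROOF. `0 < bM V ≤ ∫∫ V` (take `φ = 0` in `bM`; the set is bounded below by `0`). `V` has compact
support, so for `ℓ₀ ≥ 1` large enough the cube of side `ℓ₀` satisfies
`v₀ := ∫_{cube³} V3 V ≥ v > 0`, independent of the position of the cube (translation invariance),
and this is monotone in the side. Poincaré on the cube `C³` of dimension nine (as in `Poinc`: nine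
one-dimensional steps, or the classical inequality): `∫_{C³}(u-ū)² ≤ C_Pℓ²∫_{C³}|∇u|²` with the mean
value `ū`. `V3 u² ≥ V3(½ū² - (u-ū)²)`, `V ≤ V_max`, so with `θ = min(1, 1/(2V_maxC_Pℓ²+1))`:
`∫(|∇u|²+V3u²) ≥ ½∫|∇u|² + ½θ v ū² ≥ (2C_Pℓ²)^{-1}∫(u-ū)² + ½θvū²` and
`∫u² ≤ 2∫(u-ū)² + 2ℓ⁹ū²`. Uniform for `ℓ₀ ≤ ℓ ≤ 2ℓ₀`. -/
def S_Crude3 : Prop :=
  ∀ (V : R3 → R3 → ℝ) (_ : Pot V) (_ : 0 < bM V), ∃ ℓ₀ c₁ : ℝ, 1 ≤ ℓ₀ ∧ 0 < c₁ ∧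
    ∀ (ℓ : ℝ) (_ : ℓ₀ ≤ ℓ) (_ : ℓ ≤ 2 * ℓ₀) (q : R3) (u : (Fin 3 → R3) → ℝ) (_ : ContDiff ℝ 1 u),
    3 * c₁ * ∫ x in Set.pi Set.univ (fun _ : Fin 3 => cube q ℓ), u x ^ 2
      ≤ ∫ x in Set.pi Set.univ (fun _ : Fin 3 => cube q ℓ),
        (∑ m, ∑ a, pd u m a x ^ 2 + V3 V x * u x ^ 2)

/-- **Crude.** A crude lower bound of the energy by the number of particles in the boundary strip.

PROOF. `ℓ = L/⌊L/ℓ₀⌋ ∈ [ℓ₀, 2ℓ₀]` for `L ≥ ℓ₀`; divide `Om` into `(L/ℓ)³` half-open cubes `C` (disjoint,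
covering `Om` up to a null set; integrals over a half-open and the closed cube are the same). For
every cell `C` and triple `T` let
`w_{C,T}(x) = ∏_{j∈T}1_C(x_j) / C(cnt C Tᶜ x + 2, 2)`; the denominator does not depend on `x_T` and is
`C(n-1,2)`, `n = cnt C univ x`, if `x_T ∈ C³`. For every `i`, `∑_C∑_{T∋i}w_{C,T} ≤ 1`, and `w ≤ 1`, so
`∑_i|∇_iΨ|² + ∑_TV_TΨ² ≥ ∑_{C,T}w_{C,T}(∑_{i∈T}|∇_iΨ|² + V_TΨ²)`. Integrate over `x_T` first: `Crude3`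
(with `Put`: `y ↦ Ψ(put 3 T y x)` is `C¹`, `pd` as in `Put`, `VT V T (put..) = V3 V y`) gives
`≥ 3c₁∫w_{C,T}Ψ²`, and `∑_T w_{C,T} = C(n,3)/C(n-1,2) = n/3` for `n ≥ 3`, so
`energy ≥ c₁∫∑_C n_C 1(n_C ≥ 3)Ψ² ≥ c₁∫∑_{C∩strip≠∅}(n_C - 2)Ψ² ≥ c₁(NS - 2#{C : C∩strip ≠ ∅}nrm)`.
The strip has the width `L/2 - s(K-1) ≤ 3s`, a cell which meets it lies in the strip of width
`3s + 2ℓ₀`, so the number is `≤ 6(3s+2ℓ₀+1)L²/ℓ³·...≤ C s L²`. Energy as in `EnInt`. -/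
def S_Crude : Prop :=
  ∀ (V : R3 → R3 → ℝ) (_ : Pot V) (_ : 0 < bM V), ∃ c₁ C : ℝ, 0 < c₁ ∧ 0 < C ∧
    ∀ (p : Par) (_ : p.OK) (_ : C ≤ p.L) (Ψ : (Fin p.N → R3) → ℝ) (_ : ContDiff ℝ 1 Ψ)
    (_ : HasCompactSupport Ψ),
    c₁ * p.NS Ψ - C * p.s * p.L ^ 2 * p.nrm Ψ ≤ energy V p.L Ψ

end Pool.Agent.Lib.MP_5db8e2_mp
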