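import Pool.Agent.Lib.MP_5db8e2_mp.LB.Spec3

set_option autoImplicit false

open MeasureTheory Function Finset
open scoped Classical

namespace Pool.Agent.Lib.MP_5db8e2_mp

/-- The part of `Adj` used here. -/
private theorem ZS_adj (hA : S_Adj) {N : ℕ} {ν : Measure R3} [IsFiniteMeasure ν] {m : ℝ}
    {g : R3 → ℝ} {Q B : Set R3} (hW : Wd ν m g Q B) (o : Fin 3) (c : Fin N)
    {G : (Fin N → R3) → ℝ} (hG : BM G) (hs : ∀ x, G x ≠ 0 → x c ∈ Q) :
    BM (ops ν g o c G) ∧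
      ∫ x, ops ν g o c G x ^ 2 ∂pin ν N ≤ 18 * ∫ x, G x ^ 2 ∂pin ν N := by
  obtain ⟨-, h2, -, h4, -⟩ := hA ν m g Q B hW o c G G (fun _ => 1) hG hG (BM.const 1)
    (fun _ => zero_le_one) (fun _ _ _ => rfl)
  exact ⟨h2, h4 hs⟩

private theorem ZS_supp {N : ℕ} {ν : Measure R3} [IsFiniteMeasure ν] {g : R3 → ℝ} {Q : Set R3}
    (o : Fin 3) {b c : Fin N} (hbc : b ≠ c) {G : (Fin N → R3) → ℝ}
    (hs : ∀ x, G x ≠ 0 → x c ∈ Q) (x : Fin N → R3) (hx : ops ν g o b G x ≠ 0) : x c ∈ Q := by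
  by_contra hc
  apply hx
  have h1 : G x = 0 := by
    by_contra h
    exact hc (hs x h)
  have h2 : Mg ν {b} G x = 0 := by
    rw [Mg_singleton]
    have : ∀ t, G (Function.update x b t) = 0 := by
      intro t
      by_contra h
      have := hs _ h
      rw [Function.update_of_ne hbc.symm] at this
      exact hc this
    simp [this]
  unfold ops
  split_ifs <;> simp [h1, h2]

private theorem ZS_kernel {N : ℕ} {ν : Measure R3} [IsFiniteMeasure ν] {m : ℝ}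
    {g : R3 → ℝ} {Q B : Set R3} (hW : Wd ν m g Q B)
    {W : Finset (Fin N) → (Fin N → R3) → ℝ} {χ : R3 → ℝ} {ω γ : ℝ} (hT : TW ν m Q W χ ω γ)
    {a b c : Fin N} (hab : a ≠ b) (hac : a ≠ c) (hbc : b ≠ c) (x : Fin N → R3) :
    Mg ν {a, b, c} (fun x => W {a, b, c} x ^ 2) x ≤ 8 * m * (ω ^ 2 * γ ^ 2) := by
  have hγ := hT.γ_nn
  have hBχ : BM χ := ⟨hT.χ_meas, 1, fun y => by rw [abs_of_nonneg (hT.χ_nn y)]; exact hT.χ_le y⟩
  have hχb : ∀ i j : Fin N, BM (fun x : Fin N → R3 => χ (x i - x j)) := fun i j =>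
    hBχ.comp ((measurable_pi_apply i).sub (measurable_pi_apply j))
  have hia : BM (fun x : Fin N → R3 => ind Q (x a)) := BM_ind_at hW.Q_meas a
  have hcard : ({a, b, c} : Finset (Fin N)) ∈ powersetCard 3 (univ : Finset (Fin N)) := by
    rw [mem_powersetCard]
    refine ⟨subset_univ _, ?_⟩
    rw [card_insert_of_notMem (by simp [hab, hac]), card_insert_of_notMem (by simp [hbc]),
      card_singleton]
  have her : ({a, b, c} : Finset (Fin N)).erase a = {b, c} :=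
    Finset.erase_insert (by simp [hab, hac])
  -- pointwise bound
  have hpt : ∀ x, W {a, b, c} x ^ 2 ≤
      (ω ^ 2 * ind Q (x a)) * χ (x a - x b) * χ (x a - x c) := by
    intro x
    have h1 := hT.maj _ hcard a (by simp) x
    rw [her, Finset.prod_pair hbc, Finset.prod_insert (by simp [hab, hac]),
      Finset.prod_pair hbc] at h1
    have c1 := hT.χ_nn (x a - x b)
    have c2 := hT.χ_nn (x a - x c)
    have c3 := hT.χ_le (x a - x b)
    have c4 := hT.χ_le (x a - x c)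
    have i1 := ind_nonneg Q (x a)
    have i2 := ind_nonneg Q (x b)
    have i3 := ind_nonneg Q (x c)
    have i1' := ind_le_one Q (x a)
    have i2' := ind_le_one Q (x b)
    have i3' := ind_le_one Q (x c)
    set u := χ (x a - x b) * χ (x a - x c) with hu
    have hu0 : 0 ≤ u := mul_nonneg c1 c2
    have hu1 : u ≤ 1 := mul_le_one₀ c3 c2 c4
    have h2 : |W {a, b, c} x| ≤ ω * (u * ind Q (x a)) := by
      refine h1.trans (mul_le_mul_of_nonneg_left (mul_le_mul_of_nonneg_left ?_ hu0) hT.ω_nn)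
      calc ind Q (x a) * (ind Q (x b) * ind Q (x c)) ≤ ind Q (x a) * 1 :=
            mul_le_mul_of_nonneg_left (mul_le_one₀ i2' i3 i3') i1
        _ = ind Q (x a) := mul_one _
    have h3 : W {a, b, c} x ^ 2 ≤ (ω * (u * ind Q (x a))) ^ 2 := by
      rw [← sq_abs]
      exact pow_le_pow_left₀ (abs_nonneg _) h2 2
    refine h3.trans ?_
    have h4 : (u * ind Q (x a)) ^ 2 ≤ u * ind Q (x a) := by
      have h5 : 0 ≤ u * ind Q (x a) := mul_nonneg hu0 i1
      have h6 : u * ind Q (x a) ≤ 1 := mul_le_one₀ hu1 i1 i1'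
      nlinarith
    calc (ω * (u * ind Q (x a))) ^ 2 = ω ^ 2 * (u * ind Q (x a)) ^ 2 := by ring
      _ ≤ ω ^ 2 * (u * ind Q (x a)) := mul_le_mul_of_nonneg_left h4 (sq_nonneg _)
      _ = (ω ^ 2 * ind Q (x a)) * χ (x a - x b) * χ (x a - x c) := by rw [hu]; ring
  have hK1 : BM (fun x : Fin N → R3 => ω ^ 2 * ind Q (x a)) := hia.const_mul _
  have hK2 : BM (fun x : Fin N → R3 => (ω ^ 2 * ind Q (x a)) * χ (x a - x b)) :=
    hK1.mul (hχb a b)
  have hK3 : BM (fun x : Fin N → R3 => (ω ^ 2 * ind Q (x a)) * χ (x a - x b) * χ (x a - x c)) :=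
    hK2.mul (hχb a c)
  have s1 : Mg ν {a, b, c} (fun x => W {a, b, c} x ^ 2) x ≤
      Mg ν {a, b, c} (fun x => (ω ^ 2 * ind Q (x a)) * χ (x a - x b) * χ (x a - x c)) x :=
    Mg_mono ((hT.bm _).pow 2) hK3 hpt x
  -- integrate `x c`
  have s2 : ∀ x, Mg ν {c} (fun x => (ω ^ 2 * ind Q (x a)) * χ (x a - x b) * χ (x a - x c)) x ≤
      γ * ((ω ^ 2 * ind Q (x a)) * χ (x a - x b)) := by
    intro x
    rw [Mg_mul_left (h := fun x => (ω ^ 2 * ind Q (x a)) * χ (x a - x b)), mul_comm γ]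
    · refine mul_le_mul_of_nonneg_left ?_ (mul_nonneg (mul_nonneg (sq_nonneg _)
        (ind_nonneg _ _)) (hT.χ_nn _))
      rw [Mg_singleton]
      simp only [Function.update_self, Function.update_of_ne hac]
      exact hT.χ_int _
    · intro y z hyz
      have e1 : y a = z a := hyz a (by simp [hac])
      have e2 : y b = z b := hyz b (by simp [hbc])
      simp only [e1, e2]
  have s3 : ∀ x, Mg ν {b} (fun x => γ * ((ω ^ 2 * ind Q (x a)) * χ (x a - x b))) x ≤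
      γ * (γ * (ω ^ 2 * ind Q (x a))) := by
    intro x
    rw [Mg_const_mul]
    refine mul_le_mul_of_nonneg_left ?_ hγ
    rw [Mg_mul_left (h := fun x => ω ^ 2 * ind Q (x a)), mul_comm γ]
    · refine mul_le_mul_of_nonneg_left ?_ (mul_nonneg (sq_nonneg _) (ind_nonneg _ _))
      rw [Mg_singleton]
      simp only [Function.update_self, Function.update_of_ne hab]
      exact hT.χ_int _
    · intro y z hyz
      have e1 : y a = z a := hyz a (by simp [hab])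
      simp only [e1]
  have s4 : ∀ x, Mg ν {a} (fun x => γ * (γ * (ω ^ 2 * ind Q (x a)))) x ≤
      8 * m * (ω ^ 2 * γ ^ 2) := by
    intro x
    rw [Mg_const_mul]
    have e1 : Mg ν {a} (fun x => γ * (ω ^ 2 * ind Q (x a))) x =
        γ * (ω ^ 2 * ν.real Q) := by
      rw [Mg_const_mul]
      congr 1
      rw [Mg_const_mul]
      congr 1
      rw [Mg_singleton]
      simp only [Function.update_self]
      unfold ind
      rw [integral_indicator hW.Q_meas]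
      simp
    change γ * Mg ν {a} (fun x => γ * (ω ^ 2 * ind Q (x a))) x ≤ _
    rw [e1]
    have := hW.Q_vol
    calc γ * (γ * (ω ^ 2 * ν.real Q)) = (ω ^ 2 * γ ^ 2) * ν.real Q := by ring
      _ ≤ (ω ^ 2 * γ ^ 2) * (8 * m) := mul_le_mul_of_nonneg_left this (by positivity)
      _ = 8 * m * (ω ^ 2 * γ ^ 2) := by ring
  have t1 : Mg ν {a, b, c} (fun x => (ω ^ 2 * ind Q (x a)) * χ (x a - x b) * χ (x a - x c)) =
      Mg ν {a} (Mg ν {b} (Mg ν {c}
        (fun x => (ω ^ 2 * ind Q (x a)) * χ (x a - x b) * χ (x a - x c)))) := by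
    rw [Mg_insert hK3 (by simp [hab, hac]), Mg_insert hK3 (by simp [hbc])]
  have u2 : BM (fun x : Fin N → R3 => γ * ((ω ^ 2 * ind Q (x a)) * χ (x a - x b))) :=
    hK2.const_mul _
  have u3 : BM (fun x : Fin N → R3 => γ * (γ * (ω ^ 2 * ind Q (x a)))) :=
    (hK1.const_mul _).const_mul _
  refine s1.trans ?_
  rw [t1]
  refine le_trans (Mg_mono (Mg_bm (Mg_bm hK3)) (Mg_bm u2)
    (fun y => Mg_mono (Mg_bm hK3) u2 s2 y) x) ?_
  exact le_trans (Mg_mono (Mg_bm u2) u3 s3 x) (s4 x)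

theorem ZS (hA : S_Adj) : S_ZS := by
  intro N ν _ m g Q B hW Ψ hΨ lam hl0 hla W χ ω γ hT a b c hnd o1 o2 o3 o4
  have hab : a ≠ b := by
    rintro rfl
    simp at hnd
  have hac : a ≠ c := by
    rintro rfl
    simp at hnd
  have hbc : b ≠ c := by
    rintro rfl
    simp at hnd
  set T : Finset (Fin N) := {a, b, c} with hTdef
  have hcard3 : T.card = 3 := by
    rw [hTdef, card_insert_of_notMem (by simp [hab, hac]), card_insert_of_notMem (by simp [hbc]),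
      card_singleton]
  have hTm : T ∈ powersetCard 3 (univ : Finset (Fin N)) := by
    rw [mem_powersetCard]
    exact ⟨subset_univ _, hcard3⟩
  have hlam : BM (fun x : Fin N → R3 => lam (cnt B Tᶜ x)) := BM_cnt_comp hW.B_meas _ _
  have hU : BM (av ν g T Ψ) := av_bm hW hΨ
  have hF : BM (FT ν g B lam W Ψ T) := (hT.bm T).mul (hlam.mul hU)
  have hFs : ∀ j ∈ T, ∀ x, FT ν g B lam W Ψ T x ≠ 0 → x j ∈ Q := by
    intro j hj x hx
    by_contra hc
    apply hx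
    have h1 := hT.maj T hTm j hj x
    have h2 : ∏ i ∈ T, ind Q (x i) = 0 := Finset.prod_eq_zero hj (ind_of_notMem hc)
    rw [h2, mul_zero, mul_zero] at h1
    have h3 : W T x = 0 := abs_nonpos_iff.mp h1
    unfold FT
    rw [h3, zero_mul]
  have hFb : ∀ x, FT ν g B lam W Ψ T x ≠ 0 → x b ∈ Q := hFs b (by simp [hTdef])
  have hFc : ∀ x, FT ν g B lam W Ψ T x ≠ 0 → x c ∈ Q := hFs c (by simp [hTdef])
  -- the two functions
  have key : ∀ o o' : Fin 3, BM (ops ν g o c (ops ν g o' b (FT ν g B lam W Ψ T))) ∧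
      ∫ x, ops ν g o c (ops ν g o' b (FT ν g B lam W Ψ T)) x ^ 2 ∂pin ν N ≤
        324 * ∫ x, FT ν g B lam W Ψ T x ^ 2 ∂pin ν N := by
    intro o o'
    obtain ⟨h1, h2⟩ := ZS_adj hA hW o' b hF hFb
    obtain ⟨h3, h4⟩ := ZS_adj hA hW o c h1 (ZS_supp o' hbc hFc)
    exact ⟨h3, by linarith⟩
  obtain ⟨p1, p2⟩ := key o1 o2
  obtain ⟨p3, p4⟩ := key o3 o4
  have hcs : |∫ x, ops ν g o1 c (ops ν g o2 b (FT ν g B lam W Ψ T)) x *
      ops ν g o3 c (ops ν g o4 b (FT ν g B lam W Ψ T)) x ∂pin ν N| ≤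
      324 * ∫ x, FT ν g B lam W Ψ T x ^ 2 ∂pin ν N := by
    refine (abs_integral_le_integral_abs).trans ?_
    have q1 := (p1.pow 2).integrable (pin ν N)
    have q2 := (p3.pow 2).integrable (pin ν N)
    calc ∫ x, |ops ν g o1 c (ops ν g o2 b (FT ν g B lam W Ψ T)) x *
          ops ν g o3 c (ops ν g o4 b (FT ν g B lam W Ψ T)) x| ∂pin ν N
        ≤ ∫ x, (1 / 2 * ops ν g o1 c (ops ν g o2 b (FT ν g B lam W Ψ T)) x ^ 2 +
          1 / 2 * ops ν g o3 c (ops ν g o4 b (FT ν g B lam W Ψ T)) x ^ 2) ∂pin ν N := by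
          refine integral_mono ((p1.mul p3).abs.integrable _)
            ((q1.const_mul _).add (q2.const_mul _)) fun x => ?_
          simp only
          rw [abs_mul]
          nlinarith [sq_nonneg (|ops ν g o1 c (ops ν g o2 b (FT ν g B lam W Ψ T)) x| -
            |ops ν g o3 c (ops ν g o4 b (FT ν g B lam W Ψ T)) x|),
            sq_abs (ops ν g o1 c (ops ν g o2 b (FT ν g B lam W Ψ T)) x),
            sq_abs (ops ν g o3 c (ops ν g o4 b (FT ν g B lam W Ψ T)) x)]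
      _ = 1 / 2 * ∫ x, ops ν g o1 c (ops ν g o2 b (FT ν g B lam W Ψ T)) x ^ 2 ∂pin ν N +
          1 / 2 * ∫ x, ops ν g o3 c (ops ν g o4 b (FT ν g B lam W Ψ T)) x ^ 2 ∂pin ν N := by
          rw [integral_add (q1.const_mul _) (q2.const_mul _), integral_const_mul,
            integral_const_mul]
      _ ≤ 324 * ∫ x, FT ν g B lam W Ψ T x ^ 2 ∂pin ν N := by linarith
  -- the square of `F_T`
  have hw : BM (fun x : Fin N → R3 => lam (cnt B Tᶜ x) ^ 2) := hlam.pow 2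
  have hwd : DependsOn (fun x : Fin N → R3 => lam (cnt B Tᶜ x) ^ 2) ((T : Set (Fin N))ᶜ) := by
    intro y z hyz
    have : cnt B Tᶜ y = cnt B Tᶜ z := cnt_dep B Tᶜ (by
      intro i hi
      exact hyz i (by simpa using hi))
    simp only [this]
  have hUd := av_dep (ν := ν) (g := g) (A := T) Ψ
  have hd : DependsOn (fun x : Fin N → R3 => lam (cnt B Tᶜ x) ^ 2 * av ν g T Ψ x ^ 2)
      ((T : Set (Fin N))ᶜ) := by
    intro y z hyz
    have h1 := hwd hyz
    have h2 := hUd hyz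
    simp only at h1
    simp only [h1, h2]
  have hF2 : ∫ x, FT ν g B lam W Ψ T x ^ 2 ∂pin ν N ≤
      8 * m * (ω ^ 2 * γ ^ 2) * ((1 / m) ^ 3 * ∫ x, lam (cnt B Tᶜ x) ^ 2 *
          ((∏ j ∈ T, ind Q (x j)) * Ψ x ^ 2) ∂pin ν N) := by
    have x0 : Fin N → R3 := fun _ => 0
    have e0 : (fun x => FT ν g B lam W Ψ T x ^ 2) =
        fun x => (lam (cnt B Tᶜ x) ^ 2 * av ν g T Ψ x ^ 2) * W T x ^ 2 := by
      funext x
      unfold FT
      ring
    have hF2b : BM (fun x => FT ν g B lam W Ψ T x ^ 2) := hF.pow 2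
    rw [integral_eq_out hF2b x0 T, e0, Mg_mul_left _ hd]
    have hwU : BM (fun x => lam (cnt B Tᶜ x) ^ 2 * av ν g T Ψ x ^ 2) := hw.mul (hU.pow 2)
    have hW2 : BM (fun x => W T x ^ 2) := (hT.bm T).pow 2
    have hm0 : 0 ≤ 8 * m * (ω ^ 2 * γ ^ 2) := by
      have := hW.hm
      positivity
    refine (out_mono (hwU.mul (Mg_bm hW2)) (hwU.const_mul (8 * m * (ω ^ 2 * γ ^ 2))) x0
      fun x => ?_).trans ?_
    · rw [mul_comm (8 * m * (ω ^ 2 * γ ^ 2))]
      refine mul_le_mul_of_nonneg_left ?_ (by positivity)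
      exact ZS_kernel hW hT hab hac hbc x
    · have e1 : out ν x0 T (fun x => 8 * m * (ω ^ 2 * γ ^ 2) *
          (lam (cnt B Tᶜ x) ^ 2 * av ν g T Ψ x ^ 2)) = 8 * m * (ω ^ 2 * γ ^ 2) *
          out ν x0 T (fun x => lam (cnt B Tᶜ x) ^ 2 * av ν g T Ψ x ^ 2) :=
        congrFun (Mg_const_mul _ _) x0
      rw [e1]
      refine mul_le_mul_of_nonneg_left ?_ hm0
      have := out_av_sq_le (A := T) hW hΨ hw (fun x => sq_nonneg _) hwd x0
      rwa [hcard3] at this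
  refine hcs.trans ?_
  have hI : 0 ≤ ∫ x, lam (cnt B Tᶜ x) ^ 2 * ((∏ j ∈ T, ind Q (x j)) * Ψ x ^ 2) ∂pin ν N :=
    integral_nonneg fun x => mul_nonneg (sq_nonneg _)
      (mul_nonneg (Finset.prod_nonneg fun j _ => ind_nonneg _ _) (sq_nonneg _))
  have hmpos : 0 < m := lt_of_lt_of_le one_pos hW.hm
  have e2 : 8 * m * (ω ^ 2 * γ ^ 2) * ((1 / m) ^ 3 * ∫ x, lam (cnt B Tᶜ x) ^ 2 *
          ((∏ j ∈ T, ind Q (x j)) * Ψ x ^ 2) ∂pin ν N) =
      8 * (ω ^ 2 * γ ^ 2 * (1 / m) ^ 2 * ∫ x, lam (cnt B Tᶜ x) ^ 2 *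
          ((∏ j ∈ T, ind Q (x j)) * Ψ x ^ 2) ∂pin ν N) := by
    field_simp
  rw [e2] at hF2
  have hP : 0 ≤ ω ^ 2 * γ ^ 2 * (1 / m) ^ 2 * ∫ x, lam (cnt B Tᶜ x) ^ 2 *
          ((∏ j ∈ T, ind Q (x j)) * Ψ x ^ 2) ∂pin ν N := mul_nonneg (by positivity) hI
  calc 324 * ∫ x, FT ν g B lam W Ψ T x ^ 2 ∂pin ν N
      ≤ 324 * (8 * (ω ^ 2 * γ ^ 2 * (1 / m) ^ 2 * ∫ x, lam (cnt B Tᶜ x) ^ 2 *
          ((∏ j ∈ T, ind Q (x j)) * Ψ x ^ 2) ∂pin ν N)) :=
        mul_le_mul_of_nonneg_left hF2 (by norm_num)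
    _ ≤ 3000 * ω ^ 2 * γ ^ 2 * (1 / m) ^ 2 * ∫ x, lam (cnt B Tᶜ x) ^ 2 *
          ((∏ j ∈ T, ind Q (x j)) * Ψ x ^ 2) ∂pin ν N := by
        nlinarith [hP]

end Pool.Agent.Lib.MP_5db8e2_mp
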